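import Pool.Agent.H83.PN.GNtm

set_option autoImplicit false

/-!
# Module GTrf: definable statements about the symmetric extension are forced

As in `AC/Transf.lean`.
-/

namespace H83.PN

open ZFSet H83.AC

theorem forced_of_true {R : Set ZFSet.{0} → (ℕ → ZFSet.{0}) → Prop} (hR : UR R)
    {M G : Set ZFSet.{0}} {S : ZFSet.{0}} (hM : TM M) (hS : Sys S) (hSM : S ∈ M) (hG : Gen M S G)
    {u : ℕ → ZFSet.{0}} (hu : ∀ i, u i ∈ M ∧ HS S (u i))
    (h : R (NN M S G) (fun i => val G (u i))) :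
    ∃ p ∈ G, ∀ G', Gen M S G' → p ∈ G' → R (NN M S G') (fun i => val G' (u i)) := by
  obtain ⟨φ, hφ⟩ := hR
  have key : ∀ G', Gen M S G' → (R (NN M S G') (fun i => val G' (u i)) ↔
      SatIn (NN M S G') φ (fun i => val G' (u i))) := by
    intro G' hG'
    let v : ℕ → NN M S G' := fun i => ⟨val G' (u i), u i, (hu i).1, (hu i).2, rfl⟩
    exact (hφ _ (NN_tm hM hS hSM hG') v).trans (sat_iff _ _ v)
  obtain ⟨p, hp, h1⟩ := (truth hM hS hSM hG φ u hu).1 ((key G hG).1 h)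
  exact ⟨p, hp, fun G' hG' hp' =>
    (key G' hG').2 ((truth hM hS hSM hG' φ u hu).2 ⟨p, hp', h1⟩)⟩

end H83.PN
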