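import Pool.Agent.H83.PN.PCDef
import Pool.Agent.H83.AC.NthU

set_option autoImplicit false

/-!
# Module PCa: basic facts on the projective hierarchy

The power set of `HF` in `N` is `Q = sep (· ∈ N) (powerset HF)`, an element of `N` (`UF.pow`).
`DfP_UR`: `A = sep (fun z => R N z v) Q` (`TM.sep_of`). `DfF_UF`: `fgr (fun z => F N z v) Q`.
`PC_zero`: (→) `A = {z ∈ Q : ∀ n ∈ omega, pair n (z ∩ Lh n) ∈ T}`; closed by the definition of `Cl0`. (←)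
`T = img (fun t => pair (snd t) (fst t ∩ Lh (snd t))) (prod A' omega)` where `A' = A ∩ Q`. If `P z` then all
`pair n (z ∩ Lh n) ∈ T`; conversely if `¬ P z` take `n` from `TClo`; if `pair n (z ∩ Lh n) ∈ T` then there are
`z' ∈ A'` and `n' ∈ omega` with `n' = n`, `z' ∩ Lh n' = z ∩ Lh n`, contradiction. `Lh n ∈ HF` and `Lh n ⊆ Lh m` for `n ⊆ m`;
every `h ∈ HF` is in some `Lh n` (`HF = Lo ω`, `mem_Lo`; `HF_Lh`).
-/

namespace H83.PN

open ZFSet H83.AC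

theorem HF_Lh {h : ZFSet.{0}} (hh : h ∈ HF) : ∃ n : ℕ, h ∈ Lh (nz n) := by
  obtain ⟨β, hβ, hz⟩ := mem_Lo.1 hh
  obtain ⟨n, rfl⟩ := Ordinal.lt_omega0.1 hβ
  refine ⟨n + 1, ?_⟩
  rw [Lh, rank_nz]
  refine Sx_sub_Lo ?_ hz
  exact_mod_cast Nat.lt_succ_self n

theorem Lh_nz_mono {m n : ℕ} (h : m ≤ n) : Lh (nz m) ⊆ Lh (nz n) := by
  rw [Lh, Lh, rank_nz, rank_nz]
  exact Lo_mono (by exact_mod_cast h)

theorem Lh_nz_HF (n : ℕ) : Lh (nz n) ∈ HF ∧ Lh (nz n) ⊆ HF := by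
  rw [Lh, rank_nz]
  exact ⟨Lo_mem_Lo (Ordinal.natCast_lt_omega0 n), Lo_mono (Ordinal.natCast_lt_omega0 n).le⟩

theorem cap_mono {m n : ℕ} (h : m ≤ n) {z z' : ZFSet.{0}}
    (e : z' ∩ Lh (nz n) = z ∩ Lh (nz n)) : z' ∩ Lh (nz m) = z ∩ Lh (nz m) := by
  have key : ∀ x : ZFSet.{0}, x ∈ Lh (nz m) → (x ∈ z' ↔ x ∈ z) := by
    intro x hx
    have hx' := Lh_nz_mono h hx
    have h1 : x ∈ z' ∩ Lh (nz n) ↔ x ∈ z ∩ Lh (nz n) := by rw [e]
    rw [mem_inter, mem_inter] at h1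
    exact ⟨fun h2 => (h1.1 ⟨h2, hx'⟩).1, fun h2 => (h1.2 ⟨h2, hx'⟩).1⟩
  ext x
  rw [mem_inter, mem_inter]
  exact ⟨fun h1 => ⟨(key x h1.2).1 h1.1, h1.2⟩, fun h1 => ⟨(key x h1.2).2 h1.1, h1.2⟩⟩

theorem lft_jn {y z : ZFSet.{0}} (hy : y ⊆ HF) : lft (jn y z) = y := by
  ext x
  rw [lft, mem_sep, jn, mem_union, mem_img, mem_img]
  constructor
  · rintro ⟨-, ⟨u, hu, e⟩ | ⟨u, -, e⟩⟩
    · obtain ⟨-, rfl⟩ := pair_inj.1 e
      exact hu
    · exact absurd (pair_inj.1 e).1 one_ne_empty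
  · intro hx
    exact ⟨hy hx, Or.inl ⟨x, hx, rfl⟩⟩

theorem rgt_jn {y z : ZFSet.{0}} (hz : z ⊆ HF) : rgt (jn y z) = z := by
  ext x
  rw [rgt, mem_sep, jn, mem_union, mem_img, mem_img]
  constructor
  · rintro ⟨-, ⟨u, -, e⟩ | ⟨u, hu, e⟩⟩
    · exact absurd (pair_inj.1 e).1.symm one_ne_empty
    · obtain ⟨-, rfl⟩ := pair_inj.1 e
      exact hu
  · intro hx
    exact ⟨hz hx, Or.inr ⟨x, hx, rfl⟩⟩

theorem jn_SHF {N : Set ZFSet.{0}} (hN : TM N) {y z : ZFSet.{0}} (hy : SHF N y)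
    (hz : SHF N z) : SHF N (jn y z) := by
  constructor
  · have h1 : UF (fun _ v => H83.PN.jn (v 0) (v 1)) := by infer_instance
    refine h1.mem N hN (cons y fun _ => z) fun n => ?_
    rcases n with _ | n
    · exact hy.1
    · exact hz.1
  · intro t ht
    rw [jn, mem_union, mem_img, mem_img] at ht
    rcases ht with ⟨u, hu, rfl⟩ | ⟨u, hu, rfl⟩
    · exact HF_pair HF_empty (hy.2 hu)
    · have h1 : (one : ZFSet.{0}) ∈ HF := by
        have h2 : (one : ZFSet.{0}) = insert ∅ ∅ := by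
          ext t
          simp [one]
        rw [h2]
        exact HF_insert HF_empty HF_empty
      exact HF_pair h1 (hz.2 hu)

theorem Real.shf {N : Set ZFSet.{0}} {y : ZFSet.{0}} (h : Real N y) : SHF N y :=
  ⟨h.1, fn_HF h.2⟩

theorem DfP_UR {N : Set ZFSet.{0}} (hN : TM N)
    {R : Set ZFSet.{0} → ZFSet.{0} → (ℕ → ZFSet.{0}) → Prop}
    (hR : UR (fun N v => R N (v 0) (sh v))) {v : ℕ → ZFSet.{0}} (hv : ∀ i, v i ∈ N) :
    DfP N (fun z => R N z v) := by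
  have hHF : (HF : ZFSet.{0}) ∈ N := UF.HF.mem N hN v hv
  refine ⟨_, TM.sep_of hR hN hv (TM.pow_of hN hHF), fun z hz => ?_⟩
  rw [mem_sep, mem_sep, mem_powerset]
  exact ⟨fun h => ⟨⟨hz.2, hz.1⟩, h⟩, fun h => h.2⟩

theorem DfF_UF {N : Set ZFSet.{0}} (hN : TM N)
    {F : Set ZFSet.{0} → ZFSet.{0} → (ℕ → ZFSet.{0}) → ZFSet.{0}}
    (hF : UF (fun N v => F N (v 0) (sh v))) {v : ℕ → ZFSet.{0}} (hv : ∀ i, v i ∈ N) :
    DfF N (fun z => F N z v) := by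
  have hHF : (HF : ZFSet.{0}) ∈ N := UF.HF.mem N hN v hv
  have h1 : UF (fun N w => F N (w 0) (sh (sh w))) := hF.ren (fun n => if n = 0 then 0 else n + 1)
  have h2 : UF (fun N w => H83.AC.fgr (fun x => F N x (sh w)) (w 0)) :=
    UF.fgr (F := fun N x w => F N x (sh w)) (UF.var 0) h1
  refine ⟨fgr (fun z => F N z v) (ZFSet.sep (fun x => x ∈ N) (powerset HF)), ?_, fun z hz => ?_⟩
  · refine h2.mem N hN (cons (ZFSet.sep (fun x => x ∈ N) (powerset HF)) v) fun n => ?_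
    rcases n with _ | n
    · exact TM.pow_of hN hHF
    · exact hv n
  · refine app_fgr ?_
    rw [mem_sep, mem_powerset]
    exact ⟨hz.2, hz.1⟩

theorem PC_zero {N : Set ZFSet.{0}} (hN : TM N) {P : ZFSet.{0} → Prop} :
    PC N 0 P ↔ DfP N P ∧ TClo N P := by
  have hHF : (HF : ZFSet.{0}) ∈ N := UF.HF.mem N hN (fun _ => ZFSet.omega) fun _ => TM.omega hN
  have hQ := TM.pow_of hN hHF
  constructor
  · rintro ⟨T, hT, h⟩
    constructor
    · obtain ⟨A, hA, hA2⟩ := DfP_UR hN (R := fun _ z v => H83.PN.Cl0 (v 0) z)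
        (by infer_instance) (v := fun _ => T) (fun _ => hT)
      exact ⟨A, hA, fun z hz => (h z hz).trans (hA2 z hz)⟩
    · intro z hz hP
      rw [h z hz] at hP
      change ¬ Cl0 T z at hP
      unfold Cl0 at hP
      push Not at hP
      obtain ⟨n, hn, hn2⟩ := hP
      refine ⟨n, hn, fun z' hz' e hP' => ?_⟩
      have h1 : Cl0 T z' := (h z' hz').1 hP'
      exact hn2 (e ▸ h1 n hn)
  · rintro ⟨⟨A, hA, h⟩, hc⟩
    let Q : ZFSet.{0} := ZFSet.sep (fun x => x ∈ N) (powerset HF)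
    have hAQ : A ∩ Q ∈ N := by
      have h1 : UF (fun _ v => (v 0 : ZFSet.{0}) ∩ v 1) := by infer_instance
      refine h1.mem N hN (cons A fun _ => Q) fun n => ?_
      rcases n with _ | n
      · exact hA
      · exact hQ
    have h2 : UF (fun _ w => H83.AC.img (fun t => ZFSet.pair (H83.AC.snd t)
        (H83.AC.fst t ∩ H83.AC.Lh (H83.AC.snd t))) (ZFSet.prod (w 0) ZFSet.omega)) := by
      infer_instance
    refine ⟨img (fun t => pair (snd t) (fst t ∩ Lh (snd t))) (ZFSet.prod (A ∩ Q) omega),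
      h2.mem N hN (fun _ => A ∩ Q) (fun _ => hAQ), fun z hz => ?_⟩
    constructor
    · intro hP n hn
      rw [mem_img]
      refine ⟨pair z n, ?_, ?_⟩
      · rw [ZFSet.pair_mem_prod, mem_inter]
        refine ⟨⟨(h z hz).1 hP, ?_⟩, hn⟩
        change z ∈ ZFSet.sep (fun x => x ∈ N) (powerset HF)
        rw [mem_sep, mem_powerset]
        exact ⟨hz.2, hz.1⟩
      · rw [fst_pair, snd_pair]
    · intro hT
      by_contra hP
      obtain ⟨n, hn, hn2⟩ := hc z hz hP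
      obtain ⟨t, ht, e⟩ := mem_img.1 (hT n hn)
      rw [ZFSet.mem_prod] at ht
      obtain ⟨z', hz', n', -, rfl⟩ := ht
      rw [fst_pair, snd_pair] at e
      obtain ⟨rfl, e2⟩ := pair_inj.1 e
      rw [mem_inter] at hz'
      have hz3 : z' ∈ ZFSet.sep (fun x => x ∈ N) (powerset HF) := hz'.2
      rw [mem_sep, mem_powerset] at hz3
      exact hn2 z' ⟨hz3.2, hz3.1⟩ e2 ((h z' ⟨hz3.2, hz3.1⟩).2 hz'.1)

theorem PC_DfP {N : Set ZFSet.{0}} (hN : TM N) {j : ℕ} {P : ZFSet.{0} → Prop}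
    (h : PC N j P) : DfP N P := by
  obtain ⟨T, hT, h⟩ := h
  obtain ⟨A, hA, hA2⟩ := DfP_UR hN (R := fun N z v => H83.PN.Pr N j (v 0) z)
    (by infer_instance) (v := fun _ => T) (fun _ => hT)
  exact ⟨A, hA, fun z hz => (h z hz).trans (hA2 z hz)⟩

theorem PC_congr {N : Set ZFSet.{0}} {j : ℕ} {P Q : ZFSet.{0} → Prop}
    (e : ∀ z, SHF N z → (P z ↔ Q z)) (h : PC N j Q) : PC N j P := by
  obtain ⟨T, hT, h⟩ := h
  exact ⟨T, hT, fun z hz => (e z hz).trans (h z hz)⟩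

end H83.PN
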