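import Pool.Agent.H83.PN.DefsC
import Pool.Agent.H83.PN.GTrf
import Pool.Agent.H83.PN.PCa

set_option autoImplicit false

/-!
# Module ACa: names and forced statements

`nmE_ok`: `HS_rn`, `Supp_rn`, `val_rn` (module GRn): `rsV v m` and the second parts with coordinates in the columns `m` are fixed by the automorphisms in the
group of `m` (`acV_id`, `acQ_id`, `csup`), `(rsV v m, q) ∈ G ↔ (v, q) ∈ G` if `(v, eQ) ∈ G` (`Gq_mono`). `nmG_ok`: the same, `val = {p ∈ PM U H m : p ∈ G}`.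
`evS_eq`: for `w` with coordinates in the columns `m` and `(w, eQ) ∈ G`: `pair w q ∈ val G (nmG U H m) ↔ q ∈ Gq w G`. `Pr_HF`: only the elements `pair n (z ∩ Lh n) ∈ HF` of the code
matter (induction on `j`).
`stat_force`: `forced_of_true` for `UR.Stat` and the stream of names `β, chk k, nmE .. T, nmE .. x, nmG, chk H, ..`, then extend the condition
in `G`: it may be taken of the form `(v₁, q₁)` with `VLe v₁ v` and `v₁` good (`Gen.dir`, `good_dense`); the names persist (`SNm_mono`, `ev_Gq`). To have `v₁ = v` in the statement,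
`v` is part of the conclusion.
-/

namespace H83.PN

open ZFSet H83.AC

variable {M : Set ZFSet.{0}} {K H : ZFSet.{0}}

private theorem ACa_st {N : Set ZFSet.{0}} {x : ZFSet.{0}} (hx : x ∈ N) {v : ℕ → ZFSet.{0}}
    (hv : ∀ i, v i ∈ N) : ∀ i, cons x v i ∈ N := by
  intro i
  cases i with
  | zero => exact hx
  | succ i => exact hv i

private theorem ACa_csup {v q c : ZFSet.{0}} (hq : QQ v q) (hc : c ∈ csup q) : c ∈ vS v := by
  obtain ⟨e1, e2⟩ := QQ_elt hq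
  rw [csup, ZFSet.mem_union, mem_img, mem_img] at hc
  rcases hc with ⟨t, ht, rfl⟩ | ⟨s, hs, rfl⟩
  · exact (e1 t ht).2.1
  · exact (e2 s hs).2.1

private theorem ACa_mPM {U H m p : ZFSet.{0}} : p ∈ PM U H m ↔
    p ∈ PU U H ∧ ∀ c ∈ vS (fst p), fst c ∈ m := by
  rw [PM, mem_sep]

private theorem ACa_PMM (hG : Gr M K H) {U m : ZFSet.{0}} (hU : U ∈ M) (hm : m ∈ M) :
    PM U H m ∈ M := by
  have h : UF (fun _ v => H83.PN.PM (v 0) (v 1) (v 2)) := by infer_instance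
  exact h.mem M hG.tm (cons U (cons H (fun _ => m))) (ACa_st hU (ACa_st (H_M hG) (fun _ => hm)))

/-- second parts with coordinates in the columns `m` -/
private theorem ACa_QQ {v q m : ZFSet.{0}} (hv : VV v) (hq : QQ v q)
    (hc : ∀ c ∈ csup q, fst c ∈ m) : QQ (rsV v m) q := by
  have h1 := QQ_rsQ hv hq m
  have h2 : rsQ q m = q := by
    have e1 : ZFSet.sep (fun t => fst (fst (fst t)) ∈ m) (fst q) = fst q := by
      ext z
      rw [mem_sep]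
      refine ⟨fun h => h.1, fun h => ⟨h, hc _ ?_⟩⟩
      rw [csup, ZFSet.mem_union, mem_img]
      exact Or.inl ⟨z, h, rfl⟩
    have e2 : ZFSet.sep (fun s => fst (fst s) ∈ m) (snd q) = snd q := by
      ext z
      rw [mem_sep]
      refine ⟨fun h => h.1, fun h => ⟨h, hc _ ?_⟩⟩
      rw [csup, ZFSet.mem_union, mem_img, mem_img]
      exact Or.inr ⟨z, h, rfl⟩
    rw [rsQ, e1, e2]
    exact hq.1.symm
  rwa [h2] at h1

private theorem ACa_rsH (hG : Gr M K H) {v m : ZFSet.{0}} (hvH : v ∈ H) (hm : m ∈ omega) :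
    rsV v m ∈ H :=
  H_uf2 hG (F := fun x y => rsV x y) (Inst.rsV (hf := UF.var 0) (hg := UF.var 1)) hvH
    (H_tr hG (HF_sub_H hG).2.2 hm)

private theorem ACa_ap {b m c : ZFSet.{0}} (hb : ∀ c ∈ dom b, fst c ∈ m → app b c = c)
    (hc : fst c ∈ m) : apc b c = c := by
  rw [apc]
  split_ifs with h1
  · exact hb c h1 hc
  · rfl

private theorem ACa_pr {N : Set ZFSet.{0}} (hN : IsTr N) {x y : ZFSet.{0}} (h : pair x y ∈ N) :
    x ∈ N ∧ y ∈ N := by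
  have h1 : ({x, y} : ZFSet) ∈ N := hN _ h _ (by rw [pair]; simp)
  exact ⟨hN _ h1 _ (by simp), hN _ h1 _ (by simp)⟩

/-- good first parts give good conditions -/
private theorem ACa_Gd (hG : Gr M K H) {n : ℕ} {U : ZFSet.{0}} (hU : UOK M H n U)
    {v W : ZFSet.{0}} (hv : GV H U v W) : Gd H (pair (res U (vL v)) (pair v eQ)) W := by
  obtain ⟨h1, h2, h3⟩ := hU.seg _ hv.vL
  have heQ : eQ ∈ H := by
    have h : UF (fun _ _ => H83.PN.eQ) := by infer_instance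
    exact H_tr hG hv.WH (h.mem (cls W) hv.nx.1.1 (fun _ => v) (fun _ => hv.vW))
  have hr : rU (pair (res U (vL v)) (pair v eQ)) = res U (vL v) := by rw [rU, fst_pair]
  have hr' : rV (pair (res U (vL v)) (pair v eQ)) = v := by rw [rV, snd_pair, fst_pair]
  have hr'' : rQ (pair (res U (vL v)) (pair v eQ)) = eQ := by rw [rQ, snd_pair, snd_pair]
  refine ⟨H_pair hG h2 (H_pair hG hv.vH heQ), hv.WH, ?_, ?_, ?_, ?_, ?_, ?_, ?_, ?_⟩
  · rw [hr, hr', hr'']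
  · rw [hr]; exact h1
  · rw [hr']; exact hv.vv
  · rw [hr, hr']; exact h3
  · rw [hr', hr'']; exact QQ_empty v
  · rw [hr]; exact hv.nx
  · rw [hr]; exact hv.uW
  · rw [hr']; exact hv.vW

private theorem ACa_RNm (hG : Gr M K H) {n : ℕ} {U : ZFSet.{0}} (hU : UOK M H n U)
    {v W v' W' x : ZFSet.{0}} (hv : GV H U v W) (hv' : GV H U v' W') (h : VLe v' v)
    (hx : RNm W (res U (vL v)) v x) : RNm W' (res U (vL v')) v' x := by
  have hr : ∀ w, rU (pair (res U (vL w)) (pair w eQ)) = res U (vL w) := fun w => by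
    rw [rU, fst_pair]
  have hr' : ∀ w, rV (pair (res U (vL w)) (pair w eQ)) = w := fun w => by
    rw [rV, snd_pair, fst_pair]
  have hr'' : ∀ w, rQ (pair (res U (vL w)) (pair w eQ)) = eQ := fun w => by
    rw [rQ, snd_pair, snd_pair]
  have h1 := RNm_mono (e := x) (ACa_Gd hG hU hv) (ACa_Gd hG hU hv') ⟨by
    rw [hr, hr]
    intro t ht
    rw [res, mem_sep] at ht ⊢
    exact ⟨ht.1, h.1 ht.2⟩, by rw [hr', hr']; exact h, by
    rw [hr'', hr'']; exact QLe_refl _ _ _⟩ (by rw [hr, hr']; exact hx)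
  rwa [hr, hr'] at h1

theorem nmE_ok (hG : Gr M K H) {n : ℕ} {U : ZFSet.{0}} (hU : UOK M H n U) {m v e : ZFSet.{0}}
    (hm : m ∈ omega) (hv : VV v) (hvH : v ∈ H) (hL : vL v ∈ dom U)
    (he : e ∈ M) (he' : ∀ t ∈ e, t = pair (fst t) (snd t) ∧ fst t ∈ QP v ∧ snd t ∈ HF)
    (hec : ∀ t ∈ e, ∀ c ∈ csup (fst t), fst c ∈ m) :
    nmE U H m v e ∈ M ∧ HS (SU U H) (nmE U H m v e) ∧ Supp (SU U H) m (nmE U H m v e) ∧
    ∀ G, Gen M (SU U H) G → pair v eQ ∈ G → val G (nmE U H m v e) = ev (Gq v G) e := by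
  have hM := hG.tm
  have hS := Sys_SU hG hU
  obtain ⟨hSM, -, -⟩ := SU_M hG hU
  have hmM : m ∈ M := hM.tr _ hM.omega m hm
  obtain ⟨hr, hrL, hrS, -⟩ := VV_rsV hv m
  have hrH : rsV v m ∈ H := ACa_rsH hG hvH hm
  have hrM := H_sub_M hG hrH
  have hle : VLe v (rsV v m) := VLe_rsV hv m
  have hQ : ∀ t ∈ e, QQ (rsV v m) (fst t) := fun t ht =>
    ACa_QQ hv (mem_QP.1 (he' t ht).2.1) (hec t ht)
  obtain ⟨E, hE⟩ : ∃ E, E = img (fun t => pair (pair (rsV v m) (fst t)) (snd t)) e := ⟨_, rfl⟩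
  have hEM : E ∈ M := by
    have h : UF (fun _ v => H83.AC.img (fun t => ZFSet.pair (ZFSet.pair (v 0) (H83.AC.fst t))
        (H83.AC.snd t)) (v 1)) := by
      infer_instance
    rw [hE]
    exact h.mem M hM (cons (rsV v m) (fun _ => e)) (ACa_st hrM (fun _ => he))
  have hEm : ∀ p a, pair p a ∈ E ↔ ∃ q, pair q a ∈ e ∧ p = pair (rsV v m) q := by
    intro p a
    rw [hE, mem_img]
    constructor
    · rintro ⟨t, ht, h1⟩
      obtain ⟨h2, h3⟩ := pair_injective h1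
      exact ⟨fst t, by rw [← h3, ← (he' t ht).1]; exact ht, h2.symm⟩
    · rintro ⟨q, hq, rfl⟩
      exact ⟨pair q a, hq, by rw [fst_pair, snd_pair]⟩
  have hrU : vL (rsV v m) ∈ dom U := by rw [hrL]; exact hL
  have hEs : E ⊆ ZFSet.prod (sP (SU U H)) HF := by
    intro t ht
    rw [hE, mem_img] at ht
    obtain ⟨s, hs, rfl⟩ := ht
    rw [ZFSet.pair_mem_prod, sP_SU]
    exact ⟨mk_PU hG hr hrH hrU (hQ s hs), (he' s hs).2.2⟩
  have hinv : ∀ a ∈ app (sH (SU U H)) m, ∀ p h, pair p h ∈ E → pair (app a p) h ∈ E := by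
    intro a ha p h hp
    obtain ⟨b, hbH, hb, hbc, hbm, rfl⟩ := (mem_sH hm).1 ha
    obtain ⟨q, hq, rfl⟩ := (hEm _ _).1 hp
    have hqQ := hQ _ hq
    rw [fst_pair] at hqQ
    have h1 : acP b (pair (rsV v m) q) = pair (rsV v m) q := by
      rw [acP, fst_pair, snd_pair, acV_id hr (fun c hc => ACa_ap hbm ((hrS c).1 hc).2),
        acQ_id hqQ (fun c hc => ACa_ap hbm ((hrS c).1 (ACa_csup hqQ hc)).2)]
    rw [app_aut (mk_PU hG hr hrH hrU hqQ), h1]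
    exact hp
  have hnm : nmE U H m v e = rn (SU U H) E := by rw [hE]; rfl
  rw [hnm]
  refine ⟨?_, HS_rn hS hm hEs hinv, Supp_rn hS hm hEs hinv, ?_⟩
  · have h : UF (fun _ v => H83.PN.rn (v 0) (v 1)) := by infer_instance
    exact h.mem M hM (cons (SU U H) (fun _ => E)) (ACa_st hSM (fun _ => hEM))
  · intro G hg hvG
    rw [val_rn hEs (top_mem hM hS hSM hg)]
    ext a
    rw [mem_ev, mem_ev]
    have key : ∀ q, pair q a ∈ e → (q ∈ Gq (rsV v m) G ↔ q ∈ Gq v G) := by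
      intro q hq
      have h1 := hQ _ hq
      rw [fst_pair] at h1
      exact Gq_mono hG hU hg hr hrH hvG hle h1
    constructor
    · rintro ⟨p, hpG, hp⟩
      obtain ⟨q, hq, rfl⟩ := (hEm _ _).1 hp
      exact ⟨q, (key q hq).1 hpG, hq⟩
    · rintro ⟨q, hqG, hq⟩
      exact ⟨pair (rsV v m) q, (key q hq).2 hqG, (hEm _ _).2 ⟨q, hq, rfl⟩⟩

theorem nmG_ok (hG : Gr M K H) {n : ℕ} {U : ZFSet.{0}} (hU : UOK M H n U) {m : ZFSet.{0}}
    (hm : m ∈ omega) :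
    nmG U H m ∈ M ∧ HS (SU U H) (nmG U H m) ∧ Supp (SU U H) m (nmG U H m) ∧
    ∀ G, Gen M (SU U H) G → ∀ p, p ∈ val G (nmG U H m) ↔ p ∈ PM U H m ∧ p ∈ G := by
  have hM := hG.tm
  have hS := Sys_SU hG hU
  obtain ⟨hSM, -, -⟩ := SU_M hG hU
  have hmM : m ∈ M := hM.tr _ hM.omega m hm
  have hPM := ACa_PMM hG hU.mem hmM
  obtain ⟨E, hE⟩ : ∃ E, E = fgr (fun p => p) (PM U H m) := ⟨_, rfl⟩
  have hEM : E ∈ M := by
    have h : UF (fun _ v => H83.AC.fgr (fun t => t) (v 0)) := by infer_instance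
    rw [hE]
    exact h.mem M hM (fun _ => PM U H m) (fun _ => hPM)
  have hEm : ∀ p a, pair p a ∈ E ↔ p ∈ PM U H m ∧ a = p := by
    intro p a
    rw [hE, mem_fgr]
    constructor
    · rintro ⟨y, hy, h1⟩
      obtain ⟨h2, h3⟩ := pair_injective h1
      subst h2
      exact ⟨hy, h3.symm⟩
    · rintro ⟨hp, rfl⟩
      exact ⟨a, hp, rfl⟩
  have hEs : E ⊆ ZFSet.prod (sP (SU U H)) (PM U H m) := by
    intro t ht
    rw [hE, mem_fgr] at ht
    obtain ⟨s, hs, rfl⟩ := ht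
    rw [ZFSet.pair_mem_prod, sP_SU]
    exact ⟨(ACa_mPM.1 hs).1, hs⟩
  have hinv : ∀ a ∈ app (sH (SU U H)) m, ∀ p h, pair p h ∈ E → pair (app a p) h ∈ E := by
    intro a ha p h hp
    obtain ⟨b, hbH, hb, hbc, hbm, rfl⟩ := (mem_sH hm).1 ha
    obtain ⟨hpM, -⟩ := (hEm _ _).1 hp
    obtain ⟨hpP, hpc⟩ := ACa_mPM.1 hpM
    obtain ⟨-, hpe, hv, -, hq⟩ := mem_PU.1 hpP
    have h1 : acP b p = p := by
      rw [acP, acV_id hv (fun c hc => ACa_ap hbm (hpc c hc)),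
        acQ_id hq (fun c hc => ACa_ap hbm (hpc c (ACa_csup hq hc)))]
      exact hpe.symm
    rw [app_aut hpP, h1]
    exact hp
  have hnm : nmG U H m = rn (SU U H) E := by rw [hE]; rfl
  rw [hnm]
  refine ⟨?_, HS_rn hS hm hEs hinv, Supp_rn hS hm hEs hinv, ?_⟩
  · have h : UF (fun _ v => H83.PN.rn (v 0) (v 1)) := by infer_instance
    exact h.mem M hM (cons (SU U H) (fun _ => E)) (ACa_st hSM (fun _ => hEM))
  · intro G hg p
    rw [val_rn hEs (top_mem hM hS hSM hg), mem_ev]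
    constructor
    · rintro ⟨q, hqG, hq⟩
      obtain ⟨h1, rfl⟩ := (hEm _ _).1 hq
      exact ⟨h1, hqG⟩
    · rintro ⟨h1, h2⟩
      exact ⟨p, h2, (hEm _ _).2 ⟨h1, rfl⟩⟩

theorem evS_eq (hG : Gr M K H) {n : ℕ} {U : ZFSet.{0}} (hU : UOK M H n U) {G : Set ZFSet.{0}}
    (hg : Gen M (SU U H) G) {m v e : ZFSet.{0}} (hm : m ∈ omega) (hv : VV v) (hvH : v ∈ H)
    (hvG : pair v eQ ∈ G)
    (he' : ∀ t ∈ e, t = pair (fst t) (snd t) ∧ fst t ∈ QP v ∧ snd t ∈ HF)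
    (hec : ∀ t ∈ e, ∀ c ∈ csup (fst t), fst c ∈ m) :
    Nmw (val G (nmG U H m)) (rsV v m) e ∧
      evS (val G (nmG U H m)) (rsV v m) e = ev (Gq v G) e := by
  have hvU : vL v ∈ dom U := by
    have h1 := hg.sub _ hvG
    rw [sP_SU] at h1
    have h2 := (mem_PU.1 h1).2.2.2.1
    rwa [fst_pair] at h2
  obtain ⟨hr, hrL, hrS, -⟩ := VV_rsV hv m
  have hrH : rsV v m ∈ H := ACa_rsH hG hvH hm
  have hle : VLe v (rsV v m) := VLe_rsV hv m
  have hQ : ∀ t ∈ e, QQ (rsV v m) (fst t) := fun t ht =>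
    ACa_QQ hv (mem_QP.1 (he' t ht).2.1) (hec t ht)
  have hrU : vL (rsV v m) ∈ dom U := by rw [hrL]; exact hvU
  obtain ⟨-, -, -, hval⟩ := nmG_ok hG hU hm
  have hval := hval G hg
  have key : ∀ q, QQ (rsV v m) q → (pair (rsV v m) q ∈ val G (nmG U H m) ↔ pair v q ∈ G) := by
    intro q hq
    have h1 : pair (rsV v m) q ∈ PM U H m := ACa_mPM.2 ⟨mk_PU hG hr hrH hrU hq, by
      rw [fst_pair]
      exact fun c hc => ((hrS c).1 hc).2⟩
    rw [hval]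
    have h2 := Gq_mono hG hU hg hr hrH hvG hle hq
    exact ⟨fun h => h2.1 h.2, fun h => ⟨h1, h2.2 h⟩⟩
  refine ⟨⟨(key eQ (QQ_empty _)).2 hvG, fun t ht => ⟨(he' t ht).1, mem_QP.2 (hQ t ht),
    (he' t ht).2.2⟩⟩, ?_⟩
  ext a
  rw [evS, mem_sep, mem_ev]
  constructor
  · rintro ⟨-, q, hq, h1, h2⟩
    exact ⟨q, (key q (mem_QP.1 hq)).1 h1, h2⟩
  · rintro ⟨q, h1, h2⟩
    have h3 := hQ _ h2
    have h4 := (he' _ h2).2.2
    rw [fst_pair] at h3
    rw [snd_pair] at h4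
    exact ⟨h4, q, mem_QP.2 h3, (key q h3).2 h1, h2⟩

theorem Pr_HF {N : Set ZFSet.{0}} (hN : TM N) {j : ℕ} {T z : ZFSet.{0}} (hz : SHF N z) :
    Pr N j (T ∩ HF) z ↔ Pr N j T z := by
  induction j generalizing z with
  | zero =>
    have h1 : ∀ n ∈ omega, pair n (z ∩ Lh n) ∈ HF := by
      intro n hn
      obtain ⟨i, rfl⟩ := mem_omega.1 hn
      exact HF_pair (HF_nz i) (HF_sub (Lh_nz_HF i).1 (fun x hx => (ZFSet.mem_inter.1 hx).2))
    constructor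
    · intro h n hn
      exact (ZFSet.mem_inter.1 (h n hn)).1
    · intro h n hn
      exact ZFSet.mem_inter.2 ⟨h n hn, h1 n hn⟩
  | succ j ih =>
    constructor
    · intro h y hy h1
      exact h y hy ((ih (jn_SHF hN (H83.PN.Real.shf hy) hz)).2 h1)
    · intro h y hy h1
      exact h y hy ((ih (jn_SHF hN (H83.PN.Real.shf hy) hz)).1 h1)

theorem stat_force (hG : Gr M K H) {n : ℕ} {U : ZFSet.{0}} (hU : UOK M H n U)
    {G : Set ZFSet.{0}} (hg : Gen M (SU U H) G) {m β k A : ZFSet.{0}} (hm : m ∈ omega)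
    (hβ : β ∈ M) (hβS : HS (SU U H) β) (hβm : Supp (SU U H) m β) (hk : k ∈ omega)
    (hA : A = app (val G β) k) (hP : PiS (NN M (SU U H) G) (n + 2) A) (hne : A ≠ ∅)
    (hno : ∀ w ∈ H, ∀ e ∈ H, Nmw (val G (nmG U H m)) w e →
      evS (val G (nmG U H m)) w e ∉ A) :
    ∃ v W q T x m₁, GV H U v W ∧ QQ v q ∧ m₁ ∈ omega ∧ m ⊆ m₁ ∧ SNmm W v T m₁ ∧
      SNmm W v x m₁ ∧ RNm W (res U (vL v)) v x ∧ pair v q ∈ PU U H ∧
      ∀ G', Gen M (SU U H) G' → pair v q ∈ G' →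
        Stat (NN M (SU U H) G') n (val G' β) k (ev (Gq v G') T) (ev (Gq v G') x)
          (val G' (nmG U H m)) H := by
  have hM := hG.tm
  have hS := Sys_SU hG hU
  obtain ⟨hSM, -, -⟩ := SU_M hG hU
  have hN : TM (NN M (SU U H) G) := NN_tm hM hS hSM hg
  have htop := top_mem hM hS hSM hg
  obtain ⟨hAr, T₀, hT₀, hAT⟩ := hP
  obtain ⟨x₀, hx₀⟩ : ∃ x, x ∈ A := by
    by_contra h
    push Not at h
    exact hne ((ZFSet.eq_empty A).2 h)
  have hT₁ : T₀ ∩ HF ∈ NN M (SU U H) G := by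
    have h : UF (fun _ v => v 0 ∩ H83.AC.HF) := by infer_instance
    exact h.mem _ hN (fun _ => T₀) (fun _ => hT₀)
  obtain ⟨σ, hσM, hσ, hσe⟩ := hT₁
  obtain ⟨τ, hτM, hτ, hτe⟩ := (hAr x₀ hx₀).1
  obtain ⟨mσ, hmσ⟩ : ∃ m', Supp (SU U H) m' σ := by
    have h := hσ
    rw [HS] at h
    exact h.2.1
  obtain ⟨mτ, hmτ⟩ : ∃ m', Supp (SU U H) m' τ := by
    have h := hτ
    rw [HS] at h
    exact h.2.1
  obtain ⟨a, rfl⟩ := mem_omega.1 hm
  obtain ⟨b, rfl⟩ := mem_omega.1 hmσ.1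
  obtain ⟨c, rfl⟩ := mem_omega.1 hmτ.1
  obtain ⟨d, hd⟩ : ∃ d, d = max a (max b c) := ⟨_, rfl⟩
  have had : a ≤ d := by omega
  have hbd : b ≤ d := by omega
  have hcd : c ≤ d := by omega
  have hm₁ : nz d ∈ omega := nz_mem_omega d
  obtain ⟨v₁, W₁, T, hv₁, hv₁G, hT, hTe⟩ := name_HF hG hU hg hm₁ hσM hσ
    (Supp_mono hS hbd hmσ) (by rw [← hσe]; exact fun z hz => (ZFSet.mem_inter.1 hz).2)
  obtain ⟨v₂, W₂, x, hv₂, hv₂G, hx, hxR, hxe⟩ := name_real hG hU hg hm₁ hτM hτ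
    (Supp_mono hS hcd hmτ) (by rw [← hτe]; exact hAr x₀ hx₀)
  obtain ⟨hnT1, hnT2, -, hnT3⟩ := nmE_ok hG hU hm₁ hv₁.vv hv₁.vH hv₁.vL
    (H_sub_M hG (H_tr hG hv₁.WH hT.1)) hT.2.1 hT.2.2
  obtain ⟨hnx1, hnx2, -, hnx3⟩ := nmE_ok hG hU hm₁ hv₂.vv hv₂.vH hv₂.vL
    (H_sub_M hG (H_tr hG hv₂.WH hx.1)) hx.2.1 hx.2.2
  obtain ⟨hng1, hng2, -, -⟩ := nmG_ok hG hU hm
  have hkM : k ∈ M := hM.tr _ hM.omega k hk
  have hchk : ∀ y ∈ M, chk (SU U H) y ∈ M := by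
    intro y hy
    have h : UF (fun _ v => H83.PN.chk (v 0) (v 1)) := by infer_instance
    exact h.mem M hM (cons (SU U H) (fun _ => y)) (ACa_st hSM (fun _ => hy))
  obtain ⟨u, hu⟩ : ∃ u : ℕ → ZFSet.{0}, u = cons β (cons (chk (SU U H) k)
    (cons (nmE U H (nz d) v₁ T) (cons (nmE U H (nz d) v₂ x) (cons (nmG U H (nz a))
      (fun _ => chk (SU U H) H))))) := ⟨_, rfl⟩
  have huM : ∀ i, u i ∈ M ∧ HS (SU U H) (u i) := by
    intro i
    rw [hu]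
    match i with
    | 0 => exact ⟨hβ, hβS⟩
    | 1 => exact ⟨hchk k hkM, HS_chk hS k⟩
    | 2 => exact ⟨hnT1, hnT2⟩
    | 3 => exact ⟨hnx1, hnx2⟩
    | 4 => exact ⟨hng1, hng2⟩
    | i + 5 => exact ⟨hchk H (H_M hG), HS_chk hS H⟩
  have hR : Stat (NN M (SU U H) G) n (val G (u 0)) (val G (u 1)) (val G (u 2)) (val G (u 3))
      (val G (u 4)) (val G (u 5)) := by
    rw [hu]
    show Stat (NN M (SU U H) G) n (val G β) (val G (chk (SU U H) k))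
      (val G (nmE U H (nz d) v₁ T)) (val G (nmE U H (nz d) v₂ x)) (val G (nmG U H (nz a)))
      (val G (chk (SU U H) H))
    rw [val_chk htop, val_chk htop, hnT3 G hg hv₁G, hnx3 G hg hv₂G, ← hTe, ← hxe, ← hσe, ← hτe]
    refine ⟨fun y hy hyf => ?_, ?_, ?_⟩
    · rw [← hA, hAT y ⟨hy, hyf⟩]
      exact (Pr_HF hN (H83.PN.Real.shf (N := NN M (SU U H) G) ⟨hy, hyf⟩)).symm
    · rw [← hA]
      exact hx₀
    · rw [← hA]
      exact hno
  obtain ⟨p, hp, hF⟩ := forced_of_true (UR.Stat n) hM hS hSM hg huM hR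
  obtain ⟨r₁, hr₁, hr1, hr2⟩ := hg.dir _ hp _ hv₁G
  obtain ⟨r, hr, hr3, hr4⟩ := hg.dir _ hr₁ _ hv₂G
  have hrp := hS.trans hr3 hr1
  have hrv₁ := hS.trans hr3 hr2
  have hTH : T ∈ H := H_tr hG hv₁.WH hT.1
  have hxH : x ∈ H := H_tr hG hv₂.WH hx.1
  obtain ⟨v, W, hv, hvr, hvq, hTx⟩ := good_dense hG hU hg hr (H_pair hG hTH hxH)
  have hW := hv.nx.1
  obtain ⟨hTW, hxW⟩ := ACa_pr hW.1.tr hTx
  have h1 : VLe v v₁ := by
    have := (Le_SU.1 hrv₁).2.2.1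
    rw [fst_pair] at this
    exact VLe_trans hvr this
  have h2 : VLe v v₂ := by
    have := (Le_SU.1 hr4).2.2.1
    rw [fst_pair] at this
    exact VLe_trans hvr this
  have hvqP : pair v (snd r) ∈ PU U H := by
    have := hg.sub _ hvq
    rwa [sP_SU] at this
  have hq : QQ v (snd r) := by
    have := (mem_PU.1 hvqP).2.2.2.2
    rwa [fst_pair, snd_pair] at this
  have hvqr : Le (SU U H) (pair v (snd r)) r := Le_SU.2 ⟨hvqP, (Le_SU.1 hrp).1, by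
    rw [fst_pair]; exact hvr, by rw [snd_pair]; exact QLe_refl _ _ _⟩
  refine ⟨v, W, snd r, T, x, nz d, hv, hq, hm₁, (fun z hz => by
      obtain ⟨i, hi, rfl⟩ := mem_nz.1 hz
      exact mem_nz.2 ⟨i, by omega, rfl⟩),
    ⟨hTW, fun t ht => ⟨(hT.2.1 t ht).1, mem_QP.2 (QQ_mono h1 (mem_QP.1 (hT.2.1 t ht).2.1)),
      (hT.2.1 t ht).2.2⟩, hT.2.2⟩,
    ⟨hxW, fun t ht => ⟨(hx.2.1 t ht).1, mem_QP.2 (QQ_mono h2 (mem_QP.1 (hx.2.1 t ht).2.1)),
      (hx.2.1 t ht).2.2⟩, hx.2.2⟩, ACa_RNm hG hU hv₂ hv h2 hxR, hvqP, ?_⟩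
  intro G' hg' hvG'
  have htop' := top_mem hM hS hSM hg'
  have hveG' : pair v eQ ∈ G' := by
    have := Gq_eQ hG hU hg' hvG'
    rwa [fst_pair] at this
  have hpG' : p ∈ G' := hg'.up _ hvG' _ (Le_P hS hrp).2 (hS.trans hvqr hrp)
  have hv₁G' : pair v₁ eQ ∈ G' := hg'.up _ hvG' _ (Le_P hS hrv₁).2 (hS.trans hvqr hrv₁)
  have hv₂G' : pair v₂ eQ ∈ G' := hg'.up _ hvG' _ (Le_P hS hr4).2 (hS.trans hvqr hr4)
  have h3 := hF G' hg' hpG'
  rw [hu] at h3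
  have h4 : Stat (NN M (SU U H) G') n (val G' β) (val G' (chk (SU U H) k))
      (val G' (nmE U H (nz d) v₁ T)) (val G' (nmE U H (nz d) v₂ x)) (val G' (nmG U H (nz a)))
      (val G' (chk (SU U H) H)) := h3
  rw [val_chk htop', val_chk htop', hnT3 G' hg' hv₁G', hnx3 G' hg' hv₂G',
    ← ev_Gq hG hU hg' hv₁.vv hv₁.vH hveG' h1 (fun t ht => ⟨mem_QP.1 (hT.2.1 t ht).2.1,
      (hT.2.1 t ht).1⟩),
    ← ev_Gq hG hU hg' hv₂.vv hv₂.vH hveG' h2 (fun t ht => ⟨mem_QP.1 (hx.2.1 t ht).2.1,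
      (hx.2.1 t ht).1⟩)] at h4
  exact h4

end H83.PN
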