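import Pool.Agent.H83.PN.GDefs

set_option autoImplicit false

/-!
# Module GSubU: the forcing relation for atomic formulas is uniformly definable

The same proofs as in `AC/SubU.lean`, with the parameter `S = v 0`: recursion on pairs, for
`x = pair σ τ` let `pred x = prod (nd S σ ∪ nd S τ) (nd S σ ∪ nd S τ)`,
`F x = sep (fun p => Sub S p (fst x) (snd x)) (sP S)`.
-/

namespace H83.PN

open ZFSet H83.AC

variable {f g h k : Set ZFSet.{0} → (ℕ → ZFSet.{0}) → ZFSet.{0}}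

/-- the body of the recursion -/
private def GSubU_B (S f p σ τ : ZFSet.{0}) : Prop :=
  ∀ π ∈ nd S σ, ∀ r ∈ sP S, pair π r ∈ σ → ∀ q ∈ sP S, Le S q p → Le S q r →
    ∃ q' ∈ sP S, Le S q' q ∧ ∃ ρ ∈ nd S τ, ∃ s ∈ sP S, pair ρ s ∈ τ ∧ Le S q' s ∧
      q' ∈ H83.AC.app f (pair π ρ) ∧ q' ∈ H83.AC.app f (pair ρ π)

private noncomputable def GSubU_G (S x f : ZFSet.{0}) : ZFSet.{0} :=
  ZFSet.sep (fun p => GSubU_B S f p (fst x) (snd x)) (sP S)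

private noncomputable def GSubU_F (S x : ZFSet.{0}) : ZFSet.{0} :=
  ZFSet.sep (fun p => H83.PN.Sub S p (fst x) (snd x)) (sP S)

private noncomputable def GSubU_P (S x : ZFSet.{0}) : ZFSet.{0} :=
  ZFSet.prod (nd S (fst x) ∪ nd S (snd x)) (nd S (fst x) ∪ nd S (snd x))

private theorem GSubU_mem {S x π ρ : ZFSet.{0}} (hπ : π ∈ nd S (fst x) ∪ nd S (snd x))
    (hρ : ρ ∈ nd S (fst x) ∪ nd S (snd x)) : pair π ρ ∈ GSubU_P S x := by
  rw [GSubU_P, ZFSet.mem_prod]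
  exact ⟨π, hπ, ρ, hρ, rfl⟩

private theorem GSubU_app {S x π ρ q : ZFSet.{0}} (hπ : π ∈ nd S (fst x) ∪ nd S (snd x))
    (hρ : ρ ∈ nd S (fst x) ∪ nd S (snd x)) (hq : q ∈ sP S) :
    q ∈ H83.AC.app (H83.AC.fgr (GSubU_F S) (GSubU_P S x)) (pair π ρ) ↔ H83.PN.Sub S q π ρ := by
  rw [app_fgr (GSubU_mem hπ hρ), GSubU_F, mem_sep, fst_pair, snd_pair]
  exact ⟨fun h => h.2, fun h => ⟨hq, h⟩⟩

private theorem GSubU_eq (S x : ZFSet.{0}) :
    GSubU_F S x = GSubU_G S x (H83.AC.fgr (GSubU_F S) (GSubU_P S x)) := by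
  ext p
  rw [GSubU_F, GSubU_G, mem_sep, mem_sep]
  refine and_congr_right fun _ => ?_
  rw [H83.PN.Sub, GSubU_B]
  constructor
  · intro H π hπ r hr hπr q hq hpq hrq
    obtain ⟨q', hq', hqq, ρ, s, hρ, hs, hsq, h1, h2⟩ := H π r hπr hr q hq hpq hrq
    have hρ' : ρ ∈ nd S (snd x) := mem_nd.2 ⟨s, hs, hρ⟩
    refine ⟨q', hq', hqq, ρ, hρ', s, hs, hρ, hsq, ?_, ?_⟩
    · exact (GSubU_app (ZFSet.mem_union.2 (Or.inl hπ)) (ZFSet.mem_union.2 (Or.inr hρ')) hq').2 h1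
    · exact (GSubU_app (ZFSet.mem_union.2 (Or.inr hρ')) (ZFSet.mem_union.2 (Or.inl hπ)) hq').2 h2
  · intro H π r hπr hr q hq hpq hrq
    have hπ : π ∈ nd S (fst x) := mem_nd.2 ⟨r, hr, hπr⟩
    obtain ⟨q', hq', hqq, ρ, hρ', s, hs, hρ, hsq, h1, h2⟩ := H π hπ r hr hπr q hq hpq hrq
    refine ⟨q', hq', hqq, ρ, s, hρ, hs, hsq, ?_, ?_⟩
    · exact (GSubU_app (ZFSet.mem_union.2 (Or.inl hπ)) (ZFSet.mem_union.2 (Or.inr hρ')) hq').1 h1
    · exact (GSubU_app (ZFSet.mem_union.2 (Or.inr hρ')) (ZFSet.mem_union.2 (Or.inl hπ)) hq').1 h2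

private theorem GSubU_lt {S x y : ZFSet.{0}} (hy : y ∈ GSubU_P S x) :
    max (rank (fst y)) (rank (snd y)) < max (rank (fst x)) (rank (snd x)) := by
  rw [GSubU_P, ZFSet.mem_prod] at hy
  obtain ⟨a, ha, b, hb, rfl⟩ := hy
  rw [fst_pair, snd_pair]
  have key : ∀ a, a ∈ nd S (fst x) ∪ nd S (snd x) →
      rank a < max (rank (fst x)) (rank (snd x)) := by
    intro a ha
    rcases ZFSet.mem_union.1 ha with h | h
    · exact (rank_nd_lt h).trans_le (le_max_left _ _)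
    · exact (rank_nd_lt h).trans_le (le_max_right _ _)
  exact max_lt (key a ha) (key b hb)

private theorem GSubU_UF : UF (fun _ w => GSubU_F (w 1) (w 0)) := by
  refine UF.recur (pred := fun _ v x => GSubU_P (v 0) x) (G := fun _ v x f => GSubU_G (v 0) x f)
    (F := fun _ v x => GSubU_F (v 0) x) ?_ ?_ ?_ ?_
  · change UF (fun _ w => ZFSet.prod (nd (w 1) (fst (w 0)) ∪ nd (w 1) (snd (w 0)))
      (nd (w 1) (fst (w 0)) ∪ nd (w 1) (snd (w 0))))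
    infer_instance
  · refine UF.sep (R := fun _ p w => GSubU_B (w 2) (w 1) p (fst (w 0)) (snd (w 0)))
      (f := fun _ w => sP (w 2)) inferInstance ?_
    change UR (fun _ w => ∀ π ∈ nd (w 3) (fst (w 1)), ∀ r ∈ sP (w 3),
      ZFSet.pair π r ∈ fst (w 1) → ∀ q ∈ sP (w 3), H83.PN.Le (w 3) q (w 0) →
      H83.PN.Le (w 3) q r → ∃ q' ∈ sP (w 3), H83.PN.Le (w 3) q' q ∧
      ∃ ρ ∈ nd (w 3) (snd (w 1)), ∃ s ∈ sP (w 3),
        ZFSet.pair ρ s ∈ snd (w 1) ∧ H83.PN.Le (w 3) q' s ∧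
        q' ∈ H83.AC.app (w 2) (ZFSet.pair π ρ) ∧ q' ∈ H83.AC.app (w 2) (ZFSet.pair ρ π))
    infer_instance
  · intro N _ v _
    refine Subrelation.wf (r := InvImage (fun a b : Ordinal => a < b)
      (fun x : N => max (rank (fst (x : ZFSet))) (rank (snd (x : ZFSet))))) ?_
      (InvImage.wf _ Ordinal.lt_wf)
    intro y x h
    exact GSubU_lt h
  · intro N _ v _ x _
    exact GSubU_eq (v 0) x

theorem UR.Sub (hf : UF f) (hg : UF g) (hh : UF h) (hk : UF k) :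
    UR (fun N v => g N v ∈ sP (f N v) ∧ H83.PN.Sub (f N v) (g N v) (h N v) (k N v)) := by
  have h1 : UF (fun N v => GSubU_F (f N v) (ZFSet.pair (h N v) (k N v))) :=
    UF.comp2 (F := fun _ x S => GSubU_F S x) GSubU_UF (UF.pair hh hk) hf
  refine (UR.mem hg h1).congr fun N _ v _ => ?_
  rw [GSubU_F, mem_sep, fst_pair, snd_pair]

theorem UR.FEq (hf : UF f) (hg : UF g) (hh : UF h) (hk : UF k) :
    UR (fun N v => g N v ∈ sP (f N v) ∧ H83.PN.FEq (f N v) (g N v) (h N v) (k N v)) := by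
  refine ((UR.Sub hf hg hh hk).and (UR.Sub hf hg hk hh)).congr fun N _ v _ => ?_
  rw [H83.PN.FEq]
  tauto

private theorem GSubU_FEq4 (i j k l : ℕ) :
    UR (fun _ v => v j ∈ sP (v i) ∧ H83.PN.FEq (v i) (v j) (v k) (v l)) :=
  UR.FEq (UF.var i) (UF.var j) (UF.var k) (UF.var l)

theorem UR.FMem (hf : UF f) (hg : UF g) (hh : UF h) (hk : UF k) :
    UR (fun N v => g N v ∈ sP (f N v) ∧ H83.PN.FMem (f N v) (g N v) (h N v) (k N v)) := by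
  have key : UR (fun _ v => v 1 ∈ sP (v 0) ∧ ∀ q ∈ sP (v 0), H83.PN.Le (v 0) q (v 1) →
      ∃ q' ∈ sP (v 0), H83.PN.Le (v 0) q' q ∧ ∃ ρ ∈ H83.PN.nd (v 0) (v 3), ∃ s ∈ sP (v 0),
        ZFSet.pair ρ s ∈ v 3 ∧ H83.PN.Le (v 0) q' s ∧
        (q' ∈ sP (v 0) ∧ H83.PN.FEq (v 0) q' (v 2) ρ)) := by
    have i1 := GSubU_FEq4 4 2 6 1
    infer_instance
  have h3 := UR.comp4 (R := fun _ S p σ τ => p ∈ sP S ∧ ∀ q ∈ sP S, H83.PN.Le S q p →
      ∃ q' ∈ sP S, H83.PN.Le S q' q ∧ ∃ ρ ∈ H83.PN.nd S τ, ∃ s ∈ sP S,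
        ZFSet.pair ρ s ∈ τ ∧ H83.PN.Le S q' s ∧ (q' ∈ sP S ∧ H83.PN.FEq S q' σ ρ)) key hf hg hh hk
  refine h3.congr fun N _ v _ => and_congr_right fun _ => ?_
  rw [H83.PN.FMem]
  constructor
  · intro H q hq hpq
    obtain ⟨q', hq', hqq, ρ, s, hρ, hs, hsq, h1⟩ := H q hq hpq
    exact ⟨q', hq', hqq, ρ, mem_nd.2 ⟨s, hs, hρ⟩, s, hs, hρ, hsq, hq', h1⟩
  · intro H q hq hpq
    obtain ⟨q', hq', hqq, ρ, -, s, hs, hρ, hsq, -, h1⟩ := H q hq hpq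
    exact ⟨q', hq', hqq, ρ, s, hρ, hs, hsq, h1⟩

end H83.PN
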