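import Pool.Agent.H83.PN.GMono
import Pool.Agent.H83.PN.GSubU

set_option autoImplicit false

/-!
# Module GTruA: the truth lemma for atomic formulas

The same proofs as in `AC/TruthA.lean` (unions of fitting conditions are replaced by `Gen.dir`).
`gen_meet`: the set of all `q` which are in `D` and stronger than `p`, or have no common
extension with `p`, is dense and in `M`. `topG`: `D = sP S` and `Gen.up`.
-/

namespace H83.PN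

open ZFSet H83.AC

private theorem GTruA_S (i j k l : ℕ) :
    UR (fun _ v => v j ∈ sP (v i) ∧ H83.PN.Sub (v i) (v j) (v k) (v l)) :=
  UR.Sub (UF.var i) (UF.var j) (UF.var k) (UF.var l)

private theorem GTruA_E (i j k l : ℕ) :
    UR (fun _ v => v j ∈ sP (v i) ∧ H83.PN.FEq (v i) (v j) (v k) (v l)) :=
  UR.FEq (UF.var i) (UF.var j) (UF.var k) (UF.var l)

private theorem GTruA_fst {M : Set ZFSet.{0}} (hM : TM M) {σ π r : ZFSet.{0}} (hσ : σ ∈ M)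
    (h : pair π r ∈ σ) : π ∈ M := by
  have h1 := hM.tr σ hσ _ h
  exact hM.tr _ (hM.tr _ h1 {π} (by rw [pair]; simp)) π (by simp)

private theorem GTruA_P {M : Set ZFSet.{0}} (hM : TM M) {S : ZFSet.{0}} (hSM : S ∈ M) :
    sP S ∈ M := by
  have h : UF (fun _ v => sP (v 0)) := by infer_instance
  exact h.mem M hM (fun _ => S) (fun _ => hSM)

theorem mem_val {G : Set ZFSet.{0}} {σ x : ZFSet.{0}} :
    x ∈ val G σ ↔ ∃ π p, p ∈ G ∧ pair π p ∈ σ ∧ x = val G π := by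
  rw [val, mem_range]
  constructor
  · rintro ⟨⟨π, hπ⟩, rfl⟩
    obtain ⟨p, h1, h2⟩ := mem_ndg.1 hπ
    exact ⟨π, p, h1, h2, rfl⟩
  · rintro ⟨π, p, h1, h2, rfl⟩
    exact ⟨⟨π, mem_ndg.2 ⟨p, h1, h2⟩⟩, rfl⟩

/-- a set of conditions which is dense below a condition of `G` meets `G` -/
theorem gen_meet {M G : Set ZFSet.{0}} {S : ZFSet.{0}} (hM : TM M) (hS : Sys S) (hSM : S ∈ M)
    (hG : Gen M S G) {D p : ZFSet.{0}} (hD : D ∈ M) (hDP : D ⊆ sP S) (hp : p ∈ G)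
    (hd : ∀ q ∈ sP S, Le S q p → ∃ r ∈ D, Le S r q) : ∃ q ∈ D, Le S q p ∧ q ∈ G := by
  have hPM : sP S ∈ M := GTruA_P hM hSM
  have hpM : p ∈ M := hM.tr _ hPM p (hG.sub p hp)
  let D1 : ZFSet.{0} := ZFSet.sep (fun q => (q ∈ D ∧ Le S q p) ∨
    ¬ ∃ r ∈ sP S, Le S r q ∧ Le S r p) (sP S)
  have hD1 : D1 ∈ M := by
    have h : UF (fun _ v => ZFSet.sep (fun q => (q ∈ v 1 ∧ H83.PN.Le (v 0) q (v 2)) ∨
        ¬ ∃ r ∈ sP (v 0), H83.PN.Le (v 0) r q ∧ H83.PN.Le (v 0) r (v 2)) (sP (v 0))) := by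
      infer_instance
    exact h.mem M hM (cons S (cons D (fun _ => p))) (fun n => by
      rcases n with _ | _ | n
      · exact hSM
      · exact hD
      · exact hpM)
  obtain ⟨q, hq, hqG⟩ := hG.meet D1 hD1 (fun q hq => (mem_sep.1 hq).1) (fun q hq => by
    by_cases h : ∃ r ∈ sP S, Le S r q ∧ Le S r p
    · obtain ⟨r, hr, hrq, hrp⟩ := h
      obtain ⟨r', hr', hrr⟩ := hd r hr hrp
      exact ⟨r', mem_sep.2 ⟨hDP hr', Or.inl ⟨hr', hS.trans hrr hrp⟩⟩, hS.trans hrr hrq⟩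
    · exact ⟨q, mem_sep.2 ⟨hq, Or.inr h⟩, hS.refl q hq⟩)
  obtain ⟨hqC, h⟩ := mem_sep.1 hq
  rcases h with h | h
  · exact ⟨q, h.1, h.2, hqG⟩
  · obtain ⟨r, hr, h1, h2⟩ := hG.dir q hqG p hp
    exact absurd ⟨r, hG.sub r hr, h1, h2⟩ h

theorem top_mem {M G : Set ZFSet.{0}} {S : ZFSet.{0}} (hM : TM M) (hS : Sys S) (hSM : S ∈ M)
    (hG : Gen M S G) : sE S ∈ G := by
  obtain ⟨p, hp, hpG⟩ := hG.meet (sP S) (GTruA_P hM hSM) (fun _ h => h)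
    (fun p hp => ⟨p, hp, hS.refl p hp⟩)
  exact hG.up p hpG _ hS.topP (hS.top p hp)

theorem truth_sub {M G : Set ZFSet.{0}} {S : ZFSet.{0}} (hM : TM M) (hS : Sys S) (hSM : S ∈ M)
    (hG : Gen M S G) {σ τ : ZFSet.{0}} (hσ : σ ∈ M) (hτ : τ ∈ M) :
    val G σ ⊆ val G τ ↔ ∃ p ∈ G, Sub S p σ τ := by
  have key : ∀ (α : Ordinal.{0}) (σ τ : ZFSet.{0}), max (rank σ) (rank τ) = α → σ ∈ M → τ ∈ M →
      (val G σ ⊆ val G τ ↔ ∃ p ∈ G, Sub S p σ τ) := by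
    intro α
    induction α using WellFoundedLT.induction with
    | _ α ih =>
    intro σ τ hα hσ hτ
    have ih1 : ∀ {π r ρ s : ZFSet.{0}}, pair π r ∈ σ → pair ρ s ∈ τ →
        (val G π ⊆ val G ρ ↔ ∃ p ∈ G, Sub S p π ρ) := by
      intro π r ρ s h1 h2
      refine ih (max (rank π) (rank ρ)) ?_ π ρ rfl (GTruA_fst hM hσ h1) (GTruA_fst hM hτ h2)
      rw [← hα]
      exact max_lt ((rank_fst_lt h1).trans_le (le_max_left _ _))
        ((rank_fst_lt h2).trans_le (le_max_right _ _))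
    have ih2 : ∀ {π r ρ s : ZFSet.{0}}, pair π r ∈ σ → pair ρ s ∈ τ →
        (val G ρ ⊆ val G π ↔ ∃ p ∈ G, Sub S p ρ π) := by
      intro π r ρ s h1 h2
      refine ih (max (rank ρ) (rank π)) ?_ ρ π rfl (GTruA_fst hM hτ h2) (GTruA_fst hM hσ h1)
      rw [← hα]
      exact max_lt ((rank_fst_lt h2).trans_le (le_max_right _ _))
        ((rank_fst_lt h1).trans_le (le_max_left _ _))
    constructor
    · intro hsub
      let D : ZFSet.{0} := ZFSet.sep (fun q => (q ∈ sP S ∧ Sub S q σ τ) ∨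
        ∃ π ∈ nd S σ, ∃ r ∈ sP S, pair π r ∈ σ ∧ Le S q r ∧ ∀ q' ∈ sP S, Le S q' q →
          ¬ ∃ ρ ∈ nd S τ, ∃ s ∈ sP S, pair ρ s ∈ τ ∧ Le S q' s ∧ (q' ∈ sP S ∧ Sub S q' π ρ) ∧
            (q' ∈ sP S ∧ Sub S q' ρ π)) (sP S)
      have hD : D ∈ M := by
        have h : UF (fun _ v => ZFSet.sep (fun q => (q ∈ sP (v 0) ∧
            H83.PN.Sub (v 0) q (v 1) (v 2)) ∨
            ∃ π ∈ H83.PN.nd (v 0) (v 1), ∃ r ∈ sP (v 0), pair π r ∈ v 1 ∧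
              H83.PN.Le (v 0) q r ∧ ∀ q' ∈ sP (v 0), H83.PN.Le (v 0) q' q →
            ¬ ∃ ρ ∈ H83.PN.nd (v 0) (v 2), ∃ s ∈ sP (v 0), pair ρ s ∈ v 2 ∧
              H83.PN.Le (v 0) q' s ∧ (q' ∈ sP (v 0) ∧ H83.PN.Sub (v 0) q' π ρ) ∧
              (q' ∈ sP (v 0) ∧ H83.PN.Sub (v 0) q' ρ π)) (sP (v 0))) := by
          have i1 := GTruA_S 1 0 2 3
          have i2 := GTruA_S 6 2 4 1
          have i3 := GTruA_S 6 2 1 4
          infer_instance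
        exact h.mem M hM (cons S (cons σ (fun _ => τ))) (fun n => by
          rcases n with _ | _ | n
          · exact hSM
          · exact hσ
          · exact hτ)
      obtain ⟨q, hq, hqG⟩ := hG.meet D hD (fun q hq => (mem_sep.1 hq).1) (fun p hp => by
        by_cases h : Sub S p σ τ
        · exact ⟨p, mem_sep.2 ⟨hp, Or.inl ⟨hp, h⟩⟩, hS.refl p hp⟩
        · rw [Sub_iff] at h
          push Not at h
          obtain ⟨π, r, h1, h2, q, h3, h4, h5, h6⟩ := h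
          refine ⟨q, mem_sep.2 ⟨h3, Or.inr ⟨π, mem_nd.2 ⟨r, h2, h1⟩, r, h2, h1, h5, ?_⟩⟩, h4⟩
          rintro q' hq' hqq' ⟨ρ, -, s, hs, h7, h8, h9, h10⟩
          exact h6 q' hq' hqq' ρ s h7 hs h8 h9.2 h10.2)
      obtain ⟨hqC, h⟩ := mem_sep.1 hq
      rcases h with h | ⟨π, -, r, hr, h1, h2, h3⟩
      · exact ⟨q, hqG, h.2⟩
      · exfalso
        have hrG : r ∈ G := hG.up q hqG r hr h2
        obtain ⟨ρ, s, hsG, h4, h5⟩ := mem_val.1 (hsub (mem_val.2 ⟨π, r, hrG, h1, rfl⟩))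
        obtain ⟨p1, h6, h8⟩ := (ih1 h1 h4).1 (by rw [h5])
        obtain ⟨p2, h9, h11⟩ := (ih2 h1 h4).1 (by rw [h5])
        obtain ⟨a1, a2, a3, a4⟩ := hG.dir q hqG s hsG
        obtain ⟨b1, b2, b3, b4⟩ := hG.dir p1 h6 p2 h9
        obtain ⟨t, c2, c3, c4⟩ := hG.dir a1 a2 b1 b2
        have ht := hG.sub t c2
        exact h3 t ht (hS.trans c3 a3) ⟨ρ, mem_nd.2 ⟨s, hG.sub s hsG, h4⟩, s, hG.sub s hsG, h4,
          hS.trans c3 a4, ⟨ht, Sub_mono hS (hS.trans c4 b3) h8⟩,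
          ⟨ht, Sub_mono hS (hS.trans c4 b4) h11⟩⟩
    · rintro ⟨p, hp, hs⟩ x hx
      obtain ⟨π, r, hr, h1, rfl⟩ := mem_val.1 hx
      obtain ⟨b, hb, b1, b2⟩ := hG.dir p hp r hr
      let D : ZFSet.{0} := ZFSet.sep (fun q' => ∃ ρ ∈ nd S τ, ∃ s ∈ sP S, pair ρ s ∈ τ ∧
        Le S q' s ∧ (q' ∈ sP S ∧ Sub S q' π ρ) ∧ (q' ∈ sP S ∧ Sub S q' ρ π)) (sP S)
      have hD : D ∈ M := by
        have h : UF (fun _ v => ZFSet.sep (fun q' => ∃ ρ ∈ H83.PN.nd (v 0) (v 2),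
            ∃ s ∈ sP (v 0), pair ρ s ∈ v 2 ∧ H83.PN.Le (v 0) q' s ∧
            (q' ∈ sP (v 0) ∧ H83.PN.Sub (v 0) q' (v 1) ρ) ∧
            (q' ∈ sP (v 0) ∧ H83.PN.Sub (v 0) q' ρ (v 1))) (sP (v 0))) := by
          have i1 := GTruA_S 3 2 4 1
          have i2 := GTruA_S 3 2 1 4
          infer_instance
        exact h.mem M hM (cons S (cons π (fun _ => τ))) (fun n => by
          rcases n with _ | _ | n
          · exact hSM
          · exact GTruA_fst hM hσ h1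
          · exact hτ)
      obtain ⟨q', hq', -, hqG'⟩ := gen_meet hM hS hSM hG hD (fun q hq => (mem_sep.1 hq).1) hb (by
        intro q hq hpq
        rw [Sub_iff] at hs
        obtain ⟨q', a1, a2, ρ, s, a3, a4, a5, a6, a7⟩ := hs π r h1 (hG.sub r hr) q hq
          (hS.trans hpq b1) (hS.trans hpq b2)
        exact ⟨q', mem_sep.2 ⟨a1, ρ, mem_nd.2 ⟨s, a4, a3⟩, s, a4, a3, a5, ⟨a1, a6⟩, ⟨a1, a7⟩⟩, a2⟩)
      obtain ⟨hqC, ρ, -, s, h3, h4, h5, h6, h7⟩ := mem_sep.1 hq'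
      refine mem_val.2 ⟨ρ, s, hG.up q' hqG' s h3 h5, h4, ?_⟩
      exact le_antisymm ((ih1 h1 h4).2 ⟨q', hqG', h6.2⟩) ((ih2 h1 h4).2 ⟨q', hqG', h7.2⟩)
  exact key _ σ τ rfl hσ hτ

theorem truth_eq {M G : Set ZFSet.{0}} {S : ZFSet.{0}} (hM : TM M) (hS : Sys S) (hSM : S ∈ M)
    (hG : Gen M S G) {σ τ : ZFSet.{0}} (hσ : σ ∈ M) (hτ : τ ∈ M) :
    val G σ = val G τ ↔ ∃ p ∈ G, FEq S p σ τ := by
  constructor
  · intro h
    obtain ⟨p, h1, h3⟩ := (truth_sub hM hS hSM hG hσ hτ).1 (by rw [h])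
    obtain ⟨q, h4, h6⟩ := (truth_sub hM hS hSM hG hτ hσ).1 (by rw [h])
    obtain ⟨t, a1, a2, a3⟩ := hG.dir p h1 q h4
    exact ⟨t, a1, Sub_mono hS a2 h3, Sub_mono hS a3 h6⟩
  · rintro ⟨p, h1, h3, h4⟩
    exact le_antisymm ((truth_sub hM hS hSM hG hσ hτ).2 ⟨p, h1, h3⟩)
      ((truth_sub hM hS hSM hG hτ hσ).2 ⟨p, h1, h4⟩)

theorem truth_mem {M G : Set ZFSet.{0}} {S : ZFSet.{0}} (hM : TM M) (hS : Sys S) (hSM : S ∈ M)
    (hG : Gen M S G) {σ τ : ZFSet.{0}} (hσ : σ ∈ M) (hτ : τ ∈ M) :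
    val G σ ∈ val G τ ↔ ∃ p ∈ G, FMem S p σ τ := by
  constructor
  · intro h
    obtain ⟨ρ, s, h1, h3, h4⟩ := mem_val.1 h
    obtain ⟨p, h5, h7⟩ := (truth_eq hM hS hSM hG hσ (GTruA_fst hM hτ h3)).1 h4
    obtain ⟨t, a1, a2, a3⟩ := hG.dir p h5 s h1
    exact ⟨t, a1, fun q hq hpq => ⟨q, hq, hS.refl q hq, ρ, s, h3, hG.sub s h1,
      hS.trans hpq a3, FEq_mono hS (hS.trans hpq a2) h7⟩⟩
  · rintro ⟨p, hp, hm⟩
    let D : ZFSet.{0} := ZFSet.sep (fun q' => ∃ ρ ∈ nd S τ, ∃ s ∈ sP S, pair ρ s ∈ τ ∧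
      Le S q' s ∧ (q' ∈ sP S ∧ FEq S q' σ ρ)) (sP S)
    have hD : D ∈ M := by
      have h : UF (fun _ v => ZFSet.sep (fun q' => ∃ ρ ∈ H83.PN.nd (v 0) (v 2),
          ∃ s ∈ sP (v 0), pair ρ s ∈ v 2 ∧ H83.PN.Le (v 0) q' s ∧
          (q' ∈ sP (v 0) ∧ H83.PN.FEq (v 0) q' (v 1) ρ)) (sP (v 0))) := by
        have i1 := GTruA_E 3 2 4 1
        infer_instance
      exact h.mem M hM (cons S (cons σ (fun _ => τ))) (fun n => by
        rcases n with _ | _ | n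
        · exact hSM
        · exact hσ
        · exact hτ)
    obtain ⟨q', hq', -, hqG'⟩ := gen_meet hM hS hSM hG hD (fun q hq => (mem_sep.1 hq).1) hp (by
      intro q hq hpq
      obtain ⟨q', a1, a2, ρ, s, a3, a4, a5, a6⟩ := hm q hq hpq
      exact ⟨q', mem_sep.2 ⟨a1, ρ, mem_nd.2 ⟨s, a4, a3⟩, s, a4, a3, a5, ⟨a1, a6⟩⟩, a2⟩)
    obtain ⟨hqC, ρ, -, s, h3, h4, h5, h6⟩ := mem_sep.1 hq'
    exact mem_val.2 ⟨ρ, s, hG.up q' hqG' s h3 h5, h4,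
      (truth_eq hM hS hSM hG hσ (GTruA_fst hM hτ h4)).2 ⟨q', hqG', h6.2⟩⟩

end H83.PN
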