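import Pool.Agent.H83.PN.GActA
import Pool.Agent.H83.PN.GTruA

set_option autoImplicit false

/-!
# Module GActV: the action and generic sets

As in `AC/ActV.lean`. `val_act`: induction on `rank σ` with `mem_val`, `mem_actN` (`app a` is
injective on conditions by `Sys.inv`). `gen_act`: if `D ∈ M` is dense, so is the image of `D` under
the inverse `b`, `img (fun p => app b p) D ∈ M`. `NN_act`: `val_act`, `HS_actN`, and the inverse.
-/

namespace H83.PN

open ZFSet H83.AC

private theorem GActV_ndInd (S : ZFSet.{0}) {P : ZFSet.{0} → Prop}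
    (h : ∀ σ, (∀ π ∈ nd S σ, P π) → P σ) (σ : ZFSet.{0}) : P σ := by
  have key : ∀ o : Ordinal.{0}, ∀ σ : ZFSet.{0}, rank σ = o → P σ := by
    intro o
    induction o using WellFoundedLT.induction with
    | ind o ih =>
      intro σ hσ
      exact h σ fun π hπ => ih (rank π) (hσ ▸ rank_nd_lt hπ) π rfl
  exact key _ σ rfl

theorem sA_M {M : Set ZFSet.{0}} {S a : ZFSet.{0}} (hM : TM M) (hSM : S ∈ M) (ha : a ∈ sA S) :
    a ∈ M := by
  have h1 : UF (fun _ v => sA (v 0)) := Inst.sA (hf := UF.var 0)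
  have h2 : sA S ∈ M := h1.mem M hM (fun _ => S) (fun _ => hSM)
  exact hM.tr _ h2 _ ha

private theorem GActV_actN_M {M : Set ZFSet.{0}} {S a σ : ZFSet.{0}} (hM : TM M) (hSM : S ∈ M)
    (ha : a ∈ sA S) (hσ : σ ∈ M) : actN S a σ ∈ M :=
  (UF.actN (UF.var 0) (UF.var 1) (UF.var 2)).mem M hM (cons S (cons a (fun _ => σ)))
    (fun n => by
      rcases n with _ | _ | n
      exacts [hSM, sA_M hM hSM ha, hσ])

theorem val_act {S a σ : ZFSet.{0}} {G : Set ZFSet.{0}} (hS : Sys S) (ha : a ∈ sA S)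
    (hG : ∀ p ∈ G, p ∈ sP S) (h : IsName S σ) : val (gact a G) (actN S a σ) = val G σ := by
  obtain ⟨b, hb, hab⟩ := hS.inv a ha
  induction σ using GActV_ndInd S with
  | h σ ih =>
    rw [isName_iff] at h
    ext x
    rw [mem_val, mem_val]
    constructor
    · rintro ⟨π, p, hf, hp, rfl⟩
      obtain ⟨ρ, q, hq, hρ, e⟩ := mem_actN.1 hp
      obtain ⟨rfl, rfl⟩ := pair_injective e
      have hn : ρ ∈ nd S σ := mem_nd.2 ⟨q, hq, hρ⟩
      obtain ⟨q', hq', e'⟩ := hf
      have hqq : q = q' := by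
        rw [← (hab q hq).1, e', (hab q' (hG q' hq')).1]
      subst hqq
      exact ⟨ρ, q, hq', hρ, ih ρ hn (h.2 ρ hn)⟩
    · rintro ⟨ρ, q, hq, hρ, rfl⟩
      have hn : ρ ∈ nd S σ := mem_nd.2 ⟨q, hG q hq, hρ⟩
      exact ⟨actN S a ρ, app a q, ⟨q, hq, rfl⟩,
        mem_actN.2 ⟨ρ, q, hG q hq, hρ, rfl⟩, (ih ρ hn (h.2 ρ hn)).symm⟩

theorem gen_act {M G : Set ZFSet.{0}} {S a : ZFSet.{0}} (hM : TM M) (hS : Sys S) (hSM : S ∈ M)
    (ha : a ∈ sA S) (hG : Gen M S G) : Gen M S (gact a G) := by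
  obtain ⟨b, hb, hab⟩ := hS.inv a ha
  refine ⟨?_, ?_, ?_, ?_⟩
  · rintro p ⟨q, hq, rfl⟩
    exact app_mem hS ha (hG.sub q hq)
  · rintro p ⟨q, hq, rfl⟩ r hr hle
    have h1 := hS.autLe b hb _ _ hle
    rw [(hab q (hG.sub q hq)).1] at h1
    exact ⟨app b r, hG.up q hq _ (app_mem hS hb hr) h1, ((hab r hr).2).symm⟩
  · rintro p ⟨q, hq, rfl⟩ p' ⟨q', hq', rfl⟩
    obtain ⟨r, hr, h1, h2⟩ := hG.dir q hq q' hq'
    exact ⟨app a r, ⟨r, hr, rfl⟩, hS.autLe a ha _ _ h1, hS.autLe a ha _ _ h2⟩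
  · intro D hD hDP hd
    have hD' : img (fun p => app b p) D ∈ M := by
      have : UF (fun N v => img (fun y => app (v 0) y) (v 1)) := by (repeat' first
          | assumption | exact UF.var _ | exact UD.true | exact UD.false
          | apply UF.empty | apply UF.fgr | apply UF.uni | apply UF.img | apply UF.pow
          | apply UF.sep | apply UF.pair | apply UF.upair | apply UF.singleton | apply UF.insert
          | apply UF.union | apply UF.inter | apply UF.diff | apply UF.prod | apply UF.sUnion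
          | apply UF.app | apply UF.dom | apply UF.rng | apply UF.fst | apply UF.snd
          | apply UF.ite | apply UD.and | apply UD.or | apply UR.ball | apply UR.bex
          | apply UD.allN | apply UD.exN | apply UD.iff | apply UR.mem | apply UR.eq
          | apply UR.sub | apply UD.not | apply UD.imp | exact UD.prop _)
      exact this.mem M hM (cons b (fun _ => D))
        (fun n => by cases n; exacts [sA_M hM hSM hb, hD])
    obtain ⟨p, hp, hf⟩ := hG.meet _ hD' (by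
      intro y hy
      obtain ⟨q, hq, rfl⟩ := mem_img.1 hy
      exact app_mem hS hb (hDP hq)) (by
      intro p hp
      obtain ⟨q, hq, hpq⟩ := hd _ (app_mem hS ha hp)
      refine ⟨app b q, mem_img.2 ⟨q, hq, rfl⟩, ?_⟩
      have := hS.autLe b hb _ _ hpq
      rwa [(hab p hp).1] at this)
    obtain ⟨q, hq, rfl⟩ := mem_img.1 hp
    exact ⟨q, hq, app b q, hf, ((hab q (hDP hq)).2).symm⟩

theorem NN_act {M G : Set ZFSet.{0}} {S a : ZFSet.{0}} (hM : TM M) (hS : Sys S) (hSM : S ∈ M)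
    (ha : a ∈ sA S) (hG : Gen M S G) : NN M S (gact a G) = NN M S G := by
  obtain ⟨b, hb, hab⟩ := hS.inv a ha
  ext x
  constructor
  · rintro ⟨σ, hσM, hσ, rfl⟩
    refine ⟨actN S b σ, GActV_actN_M hM hSM hb hσM, HS_actN hS hb hσ, ?_⟩
    have h1 := val_act hS ha hG.sub (actN_isName hS hb hσ.isName)
    rw [actN_inv hS hb ha hσ.isName (fun p hp => (hab p hp).2)] at h1
    exact h1
  · rintro ⟨σ, hσM, hσ, rfl⟩
    exact ⟨actN S a σ, GActV_actN_M hM hSM ha hσM, HS_actN hS ha hσ,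
      (val_act hS ha hG.sub hσ.isName).symm⟩

end H83.PN
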