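import Pool.Agent.H83.PN.GDefs

set_option autoImplicit false

/-!
# Module GMono: monotonicity and density for the forcing relations

The same proofs as in `AC/Mono.lean` (there the conditions are ordered by inclusion: `p ⊆ q` there is
`Le S q p` here; transitivity is `Sys.trans`, reflexivity `Sys.refl`).
`Le_P`: `ord` and injectivity of pairs.
-/

namespace H83.PN

open ZFSet H83.AC

theorem Le_P {S p q : ZFSet.{0}} (hS : Sys S) (h : Le S q p) : q ∈ sP S ∧ p ∈ sP S := by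
  obtain ⟨q', hq', p', hp', h1⟩ := hS.ord _ h
  obtain ⟨h2, h3⟩ := ZFSet.pair_injective h1
  exact ⟨by rw [h2]; exact hq', by rw [h3]; exact hp'⟩

theorem Sub_iff {S p σ τ : ZFSet.{0}} : Sub S p σ τ ↔
    ∀ π r, pair π r ∈ σ → r ∈ sP S → ∀ q ∈ sP S, Le S q p → Le S q r →
      ∃ q' ∈ sP S, Le S q' q ∧ ∃ ρ s, pair ρ s ∈ τ ∧ s ∈ sP S ∧ Le S q' s ∧
        Sub S q' π ρ ∧ Sub S q' ρ π := by
  rw [Sub]
  simp only [exists_prop]

theorem Sub_mono {S p q σ τ : ZFSet.{0}} (hS : Sys S) (h : Le S q p) (hs : Sub S p σ τ) :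
    Sub S q σ τ := by
  rw [Sub_iff] at hs ⊢
  intro π r h1 hr q1 hq1 hqq1 hrq1
  exact hs π r h1 hr q1 hq1 (hS.trans hqq1 h) hrq1

theorem FEq_mono {S p q σ τ : ZFSet.{0}} (hS : Sys S) (h : Le S q p) (hs : FEq S p σ τ) :
    FEq S q σ τ := ⟨Sub_mono hS h hs.1, Sub_mono hS h hs.2⟩

theorem FMem_mono {S p q σ τ : ZFSet.{0}} (hS : Sys S) (h : Le S q p) (hs : FMem S p σ τ) :
    FMem S q σ τ := fun q1 hq1 hqq1 => hs q1 hq1 (hS.trans hqq1 h)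

theorem Fc_mono {M : Set ZFSet.{0}} {S : ZFSet.{0}} (hS : Sys S) (φ : Fml) {p q : ZFSet.{0}}
    {v : ℕ → ZFSet.{0}} (h : Le S q p) (hs : Fc M S φ p v) : Fc M S φ q v := by
  induction φ generalizing p q v with
  | bot => exact hs
  | eq i j => exact FEq_mono hS h hs
  | mem i j => exact FMem_mono hS h hs
  | imp φ ψ h1 h2 => exact fun q1 hq1 hqq1 => hs q1 hq1 (hS.trans hqq1 h)
  | all φ ih => exact fun σ hσ hN => ih h (hs σ hσ hN)

theorem Sub_dense {S p σ τ : ZFSet.{0}} (hS : Sys S)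
    (h : ∀ q ∈ sP S, Le S q p → ∃ r ∈ sP S, Le S r q ∧ Sub S r σ τ) : Sub S p σ τ := by
  rw [Sub_iff]
  intro π r h1 hr q hq hpq hrq
  obtain ⟨q1, hq1, hqq1, hs⟩ := h q hq hpq
  rw [Sub_iff] at hs
  obtain ⟨q', hq', h2, h3⟩ := hs π r h1 hr q1 hq1 (hS.refl q1 hq1) (hS.trans hqq1 hrq)
  exact ⟨q', hq', hS.trans h2 hqq1, h3⟩

theorem FEq_dense {S p σ τ : ZFSet.{0}} (hS : Sys S)
    (h : ∀ q ∈ sP S, Le S q p → ∃ r ∈ sP S, Le S r q ∧ FEq S r σ τ) : FEq S p σ τ := by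
  constructor
  · apply Sub_dense hS
    intro q hq hpq
    obtain ⟨r, hr, h1, h2⟩ := h q hq hpq
    exact ⟨r, hr, h1, h2.1⟩
  · apply Sub_dense hS
    intro q hq hpq
    obtain ⟨r, hr, h1, h2⟩ := h q hq hpq
    exact ⟨r, hr, h1, h2.2⟩

theorem FMem_dense {S p σ τ : ZFSet.{0}} (hS : Sys S)
    (h : ∀ q ∈ sP S, Le S q p → ∃ r ∈ sP S, Le S r q ∧ FMem S r σ τ) : FMem S p σ τ := by
  intro q hq hpq
  obtain ⟨q1, hq1, hqq1, hs⟩ := h q hq hpq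
  obtain ⟨q', hq', h2, h3⟩ := hs q1 hq1 (hS.refl q1 hq1)
  exact ⟨q', hq', hS.trans h2 hqq1, h3⟩

theorem Fc_dense {M : Set ZFSet.{0}} {S : ZFSet.{0}} (hS : Sys S) (φ : Fml) {p : ZFSet.{0}}
    (hp : p ∈ sP S) {v : ℕ → ZFSet.{0}}
    (h : ∀ q ∈ sP S, Le S q p → ∃ r ∈ sP S, Le S r q ∧ Fc M S φ r v) : Fc M S φ p v := by
  induction φ generalizing p v with
  | bot =>
    obtain ⟨r, _, _, h1⟩ := h p hp (hS.refl p hp)
    exact h1
  | eq i j => exact FEq_dense hS h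
  | mem i j => exact FMem_dense hS h
  | imp φ ψ h1 h2 =>
    intro q hq hpq hφ
    refine h2 hq ?_
    intro q2 hq2 hqq2
    obtain ⟨r, hr, h3, h4⟩ := h q2 hq2 (hS.trans hqq2 hpq)
    exact ⟨r, hr, h3, h4 r hr (hS.refl r hr) (Fc_mono hS φ (hS.trans h3 hqq2) hφ)⟩
  | all φ ih =>
    intro σ hσ hN
    refine ih hp ?_
    intro q hq hpq
    obtain ⟨r, hr, h1, h2⟩ := h q hq hpq
    exact ⟨r, hr, h1, h2 σ hσ hN⟩

end H83.PN
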