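import Pool.Agent.H83.PN.GActA
import Pool.Agent.H83.PN.GMono

set_option autoImplicit false

/-!
# Module GActF: the forcing relation is invariant under the action

As in `AC/ActF.lean`: for conditions stronger than `app a p` apply the hypothesis to the images under
the inverse `b` of `a` (`Sys.inv`); `Sys.autLe`. In `Fc_act` the names are in `M` (`sA S ⊆ M` because
`S ∈ M` and `M` is transitive; `actN` maps names of `M` to names of `M` by `Inst.actN`), `HS_actN`.
-/

namespace H83.PN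

open ZFSet H83.AC

private theorem GActF_back {S a b p q : ZFSet.{0}} (hS : Sys S) (hb : b ∈ sA S)
    (hab : ∀ p ∈ sP S, app b (app a p) = p ∧ app a (app b p) = p) (hp : p ∈ sP S)
    (h : Le S q (app a p)) : Le S (app b q) p := by
  have h1 := hS.autLe b hb q (app a p) h
  rwa [(hab p hp).1] at h1

private theorem GActF_forth {S a b q r : ZFSet.{0}} (hS : Sys S) (ha : a ∈ sA S)
    (hab : ∀ p ∈ sP S, app b (app a p) = p ∧ app a (app b p) = p) (hq : q ∈ sP S)
    (h : Le S r (app b q)) : Le S (app a r) q := by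
  have h1 := hS.autLe a ha r (app b q) h
  rwa [(hab q hq).2] at h1

private theorem GActF_sub {S a : ZFSet.{0}} (hS : Sys S) (ha : a ∈ sA S) :
    ∀ o : Ordinal.{0}, ∀ p σ τ : ZFSet.{0},
    max (rank σ) (rank τ) = o → p ∈ sP S → IsName S σ → IsName S τ → Sub S p σ τ →
    Sub S (app a p) (actN S a σ) (actN S a τ) := by
  obtain ⟨b, hb, hab⟩ := hS.inv a ha
  intro o
  induction o using WellFoundedLT.induction with
  | _ o ih =>
    intro p σ τ ho hp hσ hτ h
    rw [Sub_iff]
    intro π' r' hm hr' q hq hpq hrq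
    obtain ⟨π, r, hr, hπr, e⟩ := mem_actN.1 hm
    obtain ⟨rfl, rfl⟩ := pair_inj.1 e
    rw [Sub_iff] at h
    obtain ⟨q', hq', hqq', ρ, s, hρ, hs, hsq, h1, h2⟩ :=
      h π r hπr hr (app b q) (app_mem hS hb hq) (GActF_back hS hb hab hp hpq)
        (GActF_back hS hb hab hr hrq)
    have hπN : IsName S π := (isName_iff.1 hσ).2 π (mem_nd.2 ⟨r, hr, hπr⟩)
    have hρN : IsName S ρ := (isName_iff.1 hτ).2 ρ (mem_nd.2 ⟨s, hs, hρ⟩)
    have hl1 : max (rank π) (rank ρ) < o := by
      rw [← ho]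
      exact max_lt ((rank_fst_lt hπr).trans_le (le_max_left _ _))
        ((rank_fst_lt hρ).trans_le (le_max_right _ _))
    have hl2 : max (rank ρ) (rank π) < o := by
      rw [max_comm]
      exact hl1
    exact ⟨app a q', app_mem hS ha hq', GActF_forth hS ha hab hq hqq', actN S a ρ, app a s,
      mem_actN.2 ⟨ρ, s, hs, hρ, rfl⟩, app_mem hS ha hs, hS.autLe a ha q' s hsq,
      ih _ hl1 q' π ρ rfl hq' hπN hρN h1, ih _ hl2 q' ρ π rfl hq' hρN hπN h2⟩

theorem Sub_act {S a p σ τ : ZFSet.{0}} (hS : Sys S) (ha : a ∈ sA S) (hp : p ∈ sP S)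
    (hσ : IsName S σ) (hτ : IsName S τ) (h : Sub S p σ τ) :
    Sub S (app a p) (actN S a σ) (actN S a τ) :=
  GActF_sub hS ha _ p σ τ rfl hp hσ hτ h

theorem FEq_act {S a p σ τ : ZFSet.{0}} (hS : Sys S) (ha : a ∈ sA S) (hp : p ∈ sP S)
    (hσ : IsName S σ) (hτ : IsName S τ) (h : FEq S p σ τ) :
    FEq S (app a p) (actN S a σ) (actN S a τ) :=
  ⟨Sub_act hS ha hp hσ hτ h.1, Sub_act hS ha hp hτ hσ h.2⟩

theorem FMem_act {S a p σ τ : ZFSet.{0}} (hS : Sys S) (ha : a ∈ sA S) (hp : p ∈ sP S)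
    (hσ : IsName S σ) (hτ : IsName S τ) (h : FMem S p σ τ) :
    FMem S (app a p) (actN S a σ) (actN S a τ) := by
  obtain ⟨b, hb, hab⟩ := hS.inv a ha
  intro q hq hpq
  obtain ⟨q', hq', hqq', ρ, s, hρ, hs, hsq, h1⟩ := h (app b q) (app_mem hS hb hq)
    (GActF_back hS hb hab hp hpq)
  have hρN : IsName S ρ := (isName_iff.1 hτ).2 ρ (mem_nd.2 ⟨s, hs, hρ⟩)
  exact ⟨app a q', app_mem hS ha hq', GActF_forth hS ha hab hq hqq', actN S a ρ, app a s,
    mem_actN.2 ⟨ρ, s, hs, hρ, rfl⟩, app_mem hS ha hs, hS.autLe a ha q' s hsq,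
    FEq_act hS ha hq' hσ hρN h1⟩

theorem Fc_act {M : Set ZFSet.{0}} (hM : TM M) {S a : ZFSet.{0}} (hS : Sys S) (hSM : S ∈ M)
    (ha : a ∈ sA S) (φ : Fml) {p : ZFSet.{0}} (hp : p ∈ sP S) {v : ℕ → ZFSet.{0}}
    (hv : ∀ i, v i ∈ M ∧ HS S (v i)) (h : Fc M S φ p v) :
    Fc M S φ (app a p) (fun i => actN S a (v i)) := by
  have hAM : ∀ c ∈ sA S, c ∈ M := by
    intro c hc
    have h1 : sA S ∈ M := by
      refine (inferInstance : UF (fun _ v => H83.PN.sA (v 0))).mem M hM (fun _ => S) fun _ => hSM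
    exact hM.tr _ h1 c hc
  have hm : ∀ c ∈ sA S, ∀ σ ∈ M, actN S c σ ∈ M := by
    intro c hc σ hσ
    refine (inferInstance : UF (fun _ v => H83.PN.actN (v 0) (v 1) (v 2))).mem M hM
      (cons S (cons c (fun _ => σ))) fun n => ?_
    match n with
    | 0 => exact hSM
    | 1 => exact hAM c hc
    | n + 2 => exact hσ
  have hact : ∀ c ∈ sA S, ∀ w : ℕ → ZFSet.{0}, (∀ i, w i ∈ M ∧ HS S (w i)) →
      ∀ i, actN S c (w i) ∈ M ∧ HS S (actN S c (w i)) :=
    fun c hc w hw i => ⟨hm c hc _ (hw i).1, HS_actN hS hc (hw i).2⟩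
  have key : ∀ φ : Fml, ∀ a ∈ sA S, ∀ p ∈ sP S, ∀ v : ℕ → ZFSet.{0},
      (∀ i, v i ∈ M ∧ HS S (v i)) → Fc M S φ p v →
      Fc M S φ (app a p) (fun i => actN S a (v i)) := by
    clear h hv hp ha v p a φ
    intro φ
    induction φ with
    | bot =>
      intro a ha p hp v hv h
      exact h
    | eq i j =>
      intro a ha p hp v hv h
      exact FEq_act hS ha hp (hv i).2.isName (hv j).2.isName h
    | mem i j =>
      intro a ha p hp v hv h
      exact FMem_act hS ha hp (hv i).2.isName (hv j).2.isName h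
    | imp φ ψ h1 h2 =>
      intro a ha p hp v hv h q hq hpq hφ
      obtain ⟨b, hb, hab⟩ := hS.inv a ha
      have h3 := h1 b hb q hq (fun i => actN S a (v i)) (hact a ha v hv) hφ
      have e : (fun i => actN S b (actN S a (v i))) = v := by
        funext i
        exact actN_inv hS ha hb (hv i).2.isName fun p hp => (hab p hp).1
      rw [e] at h3
      have h4 := h2 a ha (app b q) (app_mem hS hb hq) v hv
        (h (app b q) (app_mem hS hb hq) (GActF_back hS hb hab hp hpq) h3)
      rw [(hab q hq).2] at h4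
      exact h4
    | all φ ih =>
      intro a ha p hp v hv h σ hσ hs
      obtain ⟨b, hb, hab⟩ := hS.inv a ha
      have hs' : HS S (actN S b σ) := HS_actN hS hb hs
      have h3 := ih a ha p hp (cons (actN S b σ) v) (by
        intro i
        cases i with
        | zero => exact ⟨hm b hb σ hσ, hs'⟩
        | succ i => exact hv i) (h (actN S b σ) (hm b hb σ hσ) hs')
      have e : (fun i => actN S a (cons (actN S b σ) v i)) = cons σ (fun i => actN S a (v i)) := by
        funext i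
        cases i with
        | zero => exact actN_inv hS hb ha hs.isName fun p hp => (hab p hp).2
        | succ i => rfl
      rw [e] at h3
      exact h3
  exact key φ a ha p hp v hv h

end H83.PN
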