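import Pool.Agent.H83.PN.GNdU

set_option autoImplicit false

/-!
# Module GHSU: being a hereditarily symmetric name is uniformly definable

The same proofs as in `AC/HSU.lean` with the parameter `S`. `UR.Supp` by `infer_instance`.
`UR.HS`, `UR.IsName`: recursion: let `F N v x = one` if `HS (v 0) x` and `∅` otherwise; `UF.recur` with
`pred N v x = nd (v 0) x`; then `HS S x ↔ F N v x = one`.
-/

namespace H83.PN

open ZFSet H83.AC

variable {f g h : Set ZFSet.{0} → (ℕ → ZFSet.{0}) → ZFSet.{0}}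

theorem UR.Supp (hf : UF f) (hg : UF g) (hh : UF h) :
    UR (fun N v => H83.PN.Supp (f N v) (g N v) (h N v)) := by
  unfold H83.PN.Supp
  infer_instance

theorem HS_iff {S σ : ZFSet.{0}} : HS S σ ↔
    (∀ t ∈ σ, ∃ π, ∃ p ∈ sP S, t = pair π p) ∧ (∃ m, Supp S m σ) ∧ ∀ π ∈ nd S σ, HS S π := by
  constructor
  · intro h
    rw [HS] at h
    exact h
  · intro h
    rw [HS]
    exact h

theorem isName_iff {S σ : ZFSet.{0}} : IsName S σ ↔
    (∀ t ∈ σ, ∃ π, ∃ p ∈ sP S, t = pair π p) ∧ ∀ π ∈ nd S σ, IsName S π := by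
  constructor
  · intro h
    rw [IsName] at h
    exact h
  · intro h
    rw [IsName]
    exact h

private theorem GHSU_loc {S σ : ZFSet.{0}} : (∀ t ∈ σ, ∃ π, ∃ p ∈ sP S, t = pair π p) ↔
    ∀ t ∈ σ, t = pair (fst t) (snd t) ∧ snd t ∈ sP S := by
  refine forall_congr' fun t => forall_congr' fun _ => ?_
  constructor
  · rintro ⟨π, p, hp, rfl⟩
    simp only [fst_pair, snd_pair, hp, and_self]
  · rintro ⟨h1, h2⟩
    exact ⟨fst t, snd t, h2, h1⟩

/-- the local form of `HS_iff` -/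
private theorem GHSU_iff {S σ : ZFSet.{0}} : HS S σ ↔
    (∀ t ∈ σ, t = pair (fst t) (snd t) ∧ snd t ∈ sP S) ∧ (∃ m ∈ ZFSet.omega, Supp S m σ) ∧
      ∀ π ∈ nd S σ, HS S π := by
  rw [HS_iff, GHSU_loc]
  refine and_congr Iff.rfl (and_congr ?_ Iff.rfl)
  constructor
  · rintro ⟨m, hm⟩
    exact ⟨m, hm.1, hm⟩
  · rintro ⟨m, -, hm⟩
    exact ⟨m, hm⟩

private theorem GHSU_rec {R : ZFSet.{0} → ZFSet.{0} → Prop} {L : ZFSet.{0} → ZFSet.{0} → Prop}
    (hL : UR (fun _ v => L (v 0) (v 1)))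
    (hR : ∀ S x, R S x ↔ L S x ∧ ∀ π ∈ nd S x, R S π) : UR (fun _ v => R (v 0) (v 1)) := by
  classical
  let F : Set ZFSet.{0} → (ℕ → ZFSet.{0}) → ZFSet.{0} → ZFSet.{0} :=
    fun _ v x => if R (v 0) x then one else ∅
  let G : Set ZFSet.{0} → (ℕ → ZFSet.{0}) → ZFSet.{0} → ZFSet.{0} → ZFSet.{0} :=
    fun _ v x f => @ite _ (L (v 0) x ∧ ∀ π ∈ H83.PN.nd (v 0) x, H83.AC.app f π = H83.AC.one)
      (Classical.propDecidable _) H83.AC.one ∅
  have hone : ∀ N v x, F N v x = H83.AC.one ↔ R (v 0) x := by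
    intro N v x
    by_cases h : R (v 0) x
    · simp only [F, if_pos h, h]
    · simp only [F, if_neg h, h, iff_false]
      exact fun h' => one_ne_empty h'.symm
  have hU : UF (fun N w => F N (sh w) (w 0)) := by
    refine UF.recur (pred := fun _ v x => H83.PN.nd (v 0) x) (G := G) ?_ ?_ ?_ ?_
    · infer_instance
    · refine UF.ite (R := fun _ w => L (w 2) (w 0) ∧
        ∀ π ∈ H83.PN.nd (w 2) (w 0), H83.AC.app (w 1) π = H83.AC.one) (UD.and ?_ ?_)
        UF.one UF.empty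
      · exact UR.comp2 (R := fun _ x y => L x y) hL (UF.var 2) (UF.var 0)
      · exact UR.ball (R := fun _ π w => H83.AC.app (w 1) π = H83.AC.one)
          (f := fun _ w => H83.PN.nd (w 2) (w 0)) inferInstance
          (UR.eq (UF.app (UF.var 2) (UF.var 0)) UF.one)
    · intro N _ v _
      exact Subrelation.wf (fun {a b} h => rank_nd_lt h)
        (InvImage.wf (fun x : N => rank (x : ZFSet)) wellFounded_lt)
    · intro N _ v _ x _
      have key : R (v 0) x ↔ (L (v 0) x ∧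
          ∀ π ∈ H83.PN.nd (v 0) x, H83.AC.app (H83.AC.fgr (F N v) (H83.PN.nd (v 0) x)) π = H83.AC.one) := by
        rw [hR]
        refine and_congr Iff.rfl ?_
        refine forall_congr' fun π => forall_congr' fun hπ => ?_
        rw [app_fgr hπ, hone N v]
      by_cases h : R (v 0) x
      · simp only [F, G, if_pos h]
        rw [if_pos (key.1 h)]
      · simp only [F, G, if_neg h]
        rw [if_neg (fun h' => h (key.2 h'))]
  have h1 : UR (fun _ v => R (v 1) (v 0)) :=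
    (UR.eq hU UF.one).congr fun N _ v _ => (hone N (sh v) (v 0)).symm
  exact h1.ren (fun n => 1 - n)

theorem UR.HS (hf : UF f) (hg : UF g) : UR (fun N v => H83.PN.HS (f N v) (g N v)) := by
  refine UR.comp2 (R := fun _ x y => H83.PN.HS x y) ?_ hf hg
  refine GHSU_rec (R := fun x y => H83.PN.HS x y)
    (L := fun S x => (∀ t ∈ x, t = pair (fst t) (snd t) ∧ snd t ∈ sP S) ∧
      ∃ m ∈ ZFSet.omega, H83.PN.Supp S m x) (UD.and ?_ ?_) fun S x => ?_
  · infer_instance
  · exact UR.bex (R := fun _ m w => H83.PN.Supp (w 0) m (w 1)) UF.omega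
      (UR.Supp (UF.var 1) (UF.var 0) (UF.var 2))
  · rw [GHSU_iff, and_assoc]

theorem UR.IsName (hf : UF f) (hg : UF g) : UR (fun N v => H83.PN.IsName (f N v) (g N v)) := by
  refine UR.comp2 (R := fun _ x y => H83.PN.IsName x y) ?_ hf hg
  refine GHSU_rec (R := fun x y => H83.PN.IsName x y)
    (L := fun S x => ∀ t ∈ x, t = pair (fst t) (snd t) ∧ snd t ∈ sP S) ?_ fun S x => ?_
  · infer_instance
  · rw [isName_iff, GHSU_loc]

instance Inst.Supp [hf : UF f] [hg : UF g] [hh : UF h] :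
    UR (fun N v => H83.PN.Supp (f N v) (g N v) (h N v)) := UR.Supp hf hg hh
instance Inst.HS [hf : UF f] [hg : UF g] : UR (fun N v => H83.PN.HS (f N v) (g N v)) := UR.HS hf hg
instance Inst.IsName [hf : UF f] [hg : UF g] :
    UR (fun N v => H83.PN.IsName (f N v) (g N v)) := UR.IsName hf hg

end H83.PN
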