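import Pool.Agent.H83.PN.GActV
import Pool.Agent.H83.PN.GHSU

set_option autoImplicit false

/-!
# Module GChk: check names

As in `AC/Chk.lean`: `chk S x = img (fun y => pair (chk S y) (sE S)) x`. `UF.chk`: `UF.recMem` with
the parameter `S`. `val_chk`: induction, `sE S ∈ G` (`top_mem`). `actN_chk`: `Sys.autE`.
`HS_chk`: support `∅ = nz 0`.
-/

namespace H83.PN

open ZFSet H83.AC

theorem chk_eq (S x : ZFSet.{0}) : chk S x = img (fun y => pair (chk S y) (sE S)) x := by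
  rw [chk, img]

theorem UF.chk {f g : Set ZFSet.{0} → (ℕ → ZFSet.{0}) → ZFSet.{0}} (hf : UF f) (hg : UF g) :
    UF (fun N v => H83.PN.chk (f N v) (g N v)) := by
  refine UF.comp2 (F := fun _ x y => H83.PN.chk y x) ?_ hg hf
  refine UF.recMem (G := fun _ v x f => H83.AC.img (fun y => ZFSet.pair (H83.AC.app f y)
    (H83.PN.sE (v 0))) x) (F := fun _ v x => H83.PN.chk (v 0) x) ?_ (fun N _ v _ x _ => ?_)
  · refine UF.img (F := fun _ y w => ZFSet.pair (H83.AC.app (w 1) y) (H83.PN.sE (w 2)))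
      (UF.var 0) ?_
    exact UF.pair (UF.app (UF.var 2) (UF.var 0)) (Inst.sE (hf := UF.var 3))
  · rw [chk_eq]
    exact img_congr fun y hy => by rw [app_fgr hy]

instance Inst.chk {f g : Set ZFSet.{0} → (ℕ → ZFSet.{0}) → ZFSet.{0}} [hf : UF f] [hg : UF g] :
    UF (fun N v => H83.PN.chk (f N v) (g N v)) := UF.chk hf hg

private theorem GChk_mem {S x π p : ZFSet.{0}} :
    pair π p ∈ chk S x ↔ ∃ y ∈ x, π = chk S y ∧ p = sE S := by
  rw [chk_eq, mem_img]
  constructor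
  · rintro ⟨y, hy, h⟩
    obtain ⟨h1, h2⟩ := pair_injective h
    exact ⟨y, hy, h1.symm, h2.symm⟩
  · rintro ⟨y, hy, rfl, rfl⟩
    exact ⟨y, hy, rfl⟩

theorem val_chk {G : Set ZFSet.{0}} {S : ZFSet.{0}} (h : sE S ∈ G) (x : ZFSet.{0}) :
    val G (chk S x) = x := by
  induction x using ZFSet.inductionOn with
  | _ x ih =>
    ext z
    rw [mem_val]
    constructor
    · rintro ⟨π, p, -, hp, rfl⟩
      obtain ⟨y, hy, rfl, rfl⟩ := GChk_mem.1 hp
      rw [ih y hy]
      exact hy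
    · intro hz
      exact ⟨chk S z, sE S, h, GChk_mem.2 ⟨z, hz, rfl, rfl⟩, (ih z hz).symm⟩

theorem actN_chk {S a : ZFSet.{0}} (hS : Sys S) (ha : a ∈ sA S) (x : ZFSet.{0}) :
    actN S a (chk S x) = chk S x := by
  induction x using ZFSet.inductionOn with
  | _ x ih =>
    ext t
    rw [mem_actN]
    constructor
    · rintro ⟨π, p, -, hp, rfl⟩
      obtain ⟨y, hy, rfl, rfl⟩ := GChk_mem.1 hp
      rw [ih y hy, hS.autE a ha]
      exact hp
    · intro ht
      rw [chk_eq, mem_img] at ht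
      obtain ⟨y, hy, rfl⟩ := ht
      exact ⟨chk S y, sE S, hS.topP, GChk_mem.2 ⟨y, hy, rfl, rfl⟩, by
        rw [ih y hy, hS.autE a ha]⟩

theorem HS_chk {S : ZFSet.{0}} (hS : Sys S) (x : ZFSet.{0}) : HS S (chk S x) := by
  induction x using ZFSet.inductionOn with
  | _ x ih =>
    refine HS_iff.2 ⟨fun t ht => ?_, ⟨nz 0, nz_mem_omega 0, fun a ha =>
      actN_chk hS (hS.subH _ (nz_mem_omega 0) ha) x⟩, fun π hπ => ?_⟩
    · rw [chk_eq, mem_img] at ht
      obtain ⟨y, -, rfl⟩ := ht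
      exact ⟨chk S y, sE S, hS.topP, rfl⟩
    · obtain ⟨p, -, hp⟩ := mem_nd.1 hπ
      obtain ⟨y, hy, rfl, rfl⟩ := GChk_mem.1 hp
      exact ih y hy

theorem sub_NN {M G : Set ZFSet.{0}} {S : ZFSet.{0}} (hM : TM M) (hS : Sys S) (hSM : S ∈ M)
    (hG : Gen M S G) {x : ZFSet.{0}} (hx : x ∈ M) : x ∈ NN M S G := by
  refine ⟨chk S x, (UF.chk (UF.var 0) (UF.var 1)).mem M hM
    (fun n => if n = 0 then S else x) (fun n => ?_), HS_chk hS x,
    (val_chk (top_mem hM hS hSM hG) x).symm⟩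
  by_cases h : n = 0
  · simp only [h, if_true]
    exact hSM
  · simp only [h, if_false]
    exact hx

end H83.PN
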