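import Pool.Agent.H83.PN.PVe1

set_option autoImplicit false

/-!
# Module PVe: longer first parts, good conditions

`exists_extV`: let `g ∈ N` enumerate `vS v`, `ι c` the least `i ∈ omega` with `app g i = c` (an injective function into `omega`,
definable). Let `v'` have length `ν`, the same coordinates, and `v'(c, γ) = v(c, γ)` if `γ ∈ vL v`, and `pair (fst c) (ι c)`
otherwise (`Idx = prod omega omega`, `Co c`).
`exists_good`: `UOK.good` for the set `pair v x` and a Wd model: take `A = (v, (x, g))` with `g ∈ H` an enumeration of `vS v`; it gives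
`γ ∈ dom U` and `W ∋ A`, `rk A ∈ γ`, hence `vL v ⊆ γ` (`vL v = rk (vL v)`, its rank is smaller than that of `A`). Apply `exists_extV` in
`cls W` with `ν = γ = dom (res U γ) ∈ W`.
-/

namespace H83.PN

open ZFSet H83.AC

variable {M : Set ZFSet.{0}} {K H : ZFSet.{0}}

private theorem PVe_pair {x y z : ZFSet.{0}} (h : pair x y = z) :
    rank x < rank z ∧ rank y < rank z := by
  subst h
  have h1 : rank x < rank ({x} : ZFSet.{0}) := rank_lt_of_mem (by simp)
  have h2 : rank ({x} : ZFSet.{0}) < rank (pair x y) := rank_lt_of_mem (by simp [pair])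
  have h3 : rank y < rank ({x, y} : ZFSet.{0}) := rank_lt_of_mem (by simp)
  have h4 : rank ({x, y} : ZFSet.{0}) < rank (pair x y) := rank_lt_of_mem (by simp [pair])
  exact ⟨lt_trans h1 h2, lt_trans h3 h4⟩

private theorem PVe_tr {γ z : ZFSet.{0}} (hg : rk γ = γ) (hz : z ∈ γ) : z ⊆ γ := by
  have h1 : z ∈ rk γ := by rwa [hg]
  have h2 : rk z = z := rk_of_mem_rk h1
  have h3 : rk z ∈ rk γ := by rwa [h2]
  have h4 := rk_mono (rk_mem_rk.1 h3).le
  rwa [h2, hg] at h4

theorem exists_good (hG : Gr M K H) {n : ℕ} {U : ZFSet.{0}} (hU : UOK M H n U) {v x : ZFSet.{0}}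
    (hv : VV v) (hvH : v ∈ H) (hx : x ∈ H) : ∃ v' ∈ H, ∃ W ∈ H, VV v' ∧ VLe v' v ∧
      vS v' = vS v ∧ vL v' ∈ dom U ∧ Nx (ws (res U (vL v'))) W ∧ res U (vL v') ∈ W ∧ v' ∈ W ∧
      x ∈ W ∧ rk x ∈ vL v' := by
  -- an enumeration of `vS v` in `H`
  have hSH : vS v ∈ H := H_uf1 hG (F := fun v => vS v) (by infer_instance) hvH
  obtain ⟨W₀, hW₀, hWd₀, hS₀, hc₀⟩ := exists_W hG hSH
  obtain ⟨g, hg, hgS⟩ : Ctb (cls W₀) (vS v) := Ctb_sub hc₀ (sub_tc _)
  have hgH : g ∈ H := H_tr hG hW₀ hg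
  have hA : pair v (pair x g) ∈ H := H_pair hG hvH (H_pair hG hx hgH)
  obtain ⟨γ, hγ, W, hWH, hNx, huW, hAW, hrk⟩ := hU.good _ hA
  have hWd : Wd W := hNx.1
  have hvW : v ∈ W := by
    have := Wd_uf (F := fun _ w => fst (w 0)) (by infer_instance) hWd (v := fun _ => pair v (pair x g)) (fun _ => hAW)
    simpa using this
  have hxW : x ∈ W := by
    have := Wd_uf (F := fun _ w => fst (snd (w 0))) (by infer_instance) hWd (v := fun _ => pair v (pair x g)) (fun _ => hAW)
    simpa using this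
  have hgW : g ∈ W := by
    have := Wd_uf (F := fun _ w => snd (snd (w 0))) (by infer_instance) hWd (v := fun _ => pair v (pair x g)) (fun _ => hAW)
    simpa using this
  obtain ⟨hUU, -, hdom⟩ := hU.seg γ hγ
  have hγW : γ ∈ W := by
    have := Wd_uf (F := fun _ w => dom (w 0)) (by infer_instance) hWd (v := fun _ => res U γ) (fun _ => huW)
    simpa [hdom] using this
  have hγo : rk γ = γ := by
    have := hUU.1
    rwa [hdom] at this
  have hlt : ∀ y, rank y < rank (pair v (pair x g)) → rk y ∈ γ := by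
    intro y hy
    have h1 : rk y ∈ rk (pair v (pair x g)) := rk_mem_rk.2 hy
    exact PVe_tr hγo hrk h1
  have hvr : rank v < rank (pair v (pair x g)) := (PVe_pair rfl).1
  have hxr : rank x < rank (pair v (pair x g)) := lt_trans (PVe_pair rfl).1 (PVe_pair rfl).2
  have hLv : rk (vL v) ∈ γ := by
    refine hlt _ (lt_of_le_of_lt ?_ hvr)
    exact (PVe_pair hv.1.symm).1.le
  have hLs : vL v ⊆ γ := by
    rw [hv.2.1] at hLv
    exact PVe_tr hγo hLv
  obtain ⟨v', hv'W, hv', hL', hS', hle⟩ := exists_extV hWd.1 hv hvW hγW hγo hLs ⟨g, hgW, hgS⟩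
  refine ⟨v', H_tr hG hWH hv'W, W, hWH, hv', hle, hS', ?_, ?_, ?_, hv'W, hxW, ?_⟩
  · rw [hL']; exact hγ
  · rw [hL']; exact hNx
  · rw [hL']; exact huW
  · rw [hL']; exact hlt _ hxr

/-- the good condition belonging to `(v, q)` -/
theorem Gd_of (hG : Gr M K H) {n : ℕ} {U : ZFSet.{0}} (hU : UOK M H n U) {v q W : ZFSet.{0}}
    (hv : VV v) (hL : vL v ∈ dom U) (hW : Nx (ws (res U (vL v))) W) (hu : res U (vL v) ∈ W)
    (hvW : v ∈ W) (hq : QQ v q) : Gd H (pair (res U (vL v)) (pair v q)) W := by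
  obtain ⟨hUU, huH, hdom⟩ := hU.seg _ hL
  have h1 : rU (pair (res U (vL v)) (pair v q)) = res U (vL v) := by rw [rU, fst_pair]
  have h2 : rV (pair (res U (vL v)) (pair v q)) = v := by rw [rV, snd_pair, fst_pair]
  have h3 : rQ (pair (res U (vL v)) (pair v q)) = q := by rw [rQ, snd_pair, snd_pair]
  have hWH : W ∈ H := by
    refine Nx_H hG ?_ hW
    exact H_uf1 hG (F := fun u => ws u) (by infer_instance) huH
  have hvH : v ∈ H := H_tr hG hWH hvW
  have hpH : pair v q ∈ H := (mem_PU.1 (mk_PU hG hv hvH hL hq)).1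
  unfold Gd
  rw [h1, h2, h3]
  exact ⟨H_pair hG huH hpH, hWH, rfl, hUU, hv, hdom, hq, hW, hu, hvW⟩

end H83.PN
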