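import Pool.Agent.H83.PN.PVc
import Pool.Agent.H83.PN.PVe

set_option autoImplicit false

/-!
# Module PAm: amalgamation

`amV`: `v'` has length `vL w` and the coordinates `vS v ∪ vS w`. For `c ∈ vS w` it has the values of `w`. For `c ∈ vS v`,
`c ∉ vS w` (then `fst c ∉ m`, because `VLe w (rsV v m)`) it has the values of `v` below `vL v` and the value `pair (fst c) (ι c)`
beyond, `ι` injective from `vS v` into `omega`. `VLe v' w`: same length. `VLe v' v`: let `c ∈ vS v`: if `c ∈ vS w` then `fst c ∈ m` and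
`c ∈ vS (rsV v m)`, so the values of `w` extend those of `v`, with the label `fst c`. Injectivity for `c ≠ c'` in `vS v`, `γ ∉ vL v`: both
in `vS w`: from `VLe w (rsV v m)`; both not in `vS w`: `ι`; one in `vS w`: the labels `fst c ∈ m`, `fst c' ∉ m` are different.
`amP`: the second part is the union (`QLe_join`): the common coordinates of `q` and `q'` are in `vS v ∩ vS w`, so in the columns
`m`, in `vS (rsV v m)`. `t ∈ fst q`, `t' ∈ fst q'` with the same first component: `t ∈ fst (rsQ q m) ⊆ fst q'`. `t ∈ fst q'`, `t ∉ fst q`,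
`s ∈ snd q`: `s ∈ snd (rsQ q m)`, use `QLe U (rsV v m) q' (rsQ q m)`, `rl_mono`. `t ∈ fst q`, `t ∉ fst q'`, `s ∈ snd q'`: impossible.
-/

namespace H83.PN

open ZFSet H83.AC

variable {M : Set ZFSet.{0}} {K H : ZFSet.{0}}

/-- the first component of an element of `H` -/
private theorem PAm_fst (hG : Gr M K H) {x : ZFSet.{0}} (h : x ∈ H) : fst x ∈ H :=
  H_uf1 hG (F := fun x => fst x) (UF.fst (UF.var 0)) h

private theorem PAm_vS (hG : Gr M K H) {x : ZFSet.{0}} (h : x ∈ H) : vS x ∈ H :=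
  H_uf1 hG (F := fun x => vS x) (Inst.vS (hf := UF.var 0)) h

private theorem PAm_vL (hG : Gr M K H) {x : ZFSet.{0}} (h : x ∈ H) : vL x ∈ H :=
  H_uf1 hG (F := fun x => vL x) (Inst.vL (hf := UF.var 0)) h

private theorem PAm_pp {c γ a b : ZFSet.{0}} : pair c γ ∈ ZFSet.prod a b ↔ c ∈ a ∧ γ ∈ b := by
  rw [ZFSet.pair_mem_prod]

/-- a set of pairs with components in members of `H`, which is in `M`, is in `H` -/
private theorem PAm_fin (hG : Gr M K H) {A B F : ZFSet.{0}} (hA : A ∈ H) (hB : B ∈ H)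
    (hF : F ∈ M) {L : ZFSet.{0}} (hL : L ∈ H) (h : F ⊆ ZFSet.prod (ZFSet.prod (A ∪ B) L) Idx) :
    F ∈ H := by
  have h1 : Ctb M (ZFSet.prod (ZFSet.prod (A ∪ B) L) Idx) :=
    Ctb_prod hG.tm (Ctb_prod hG.tm (Ctb_union hG.tm (H_ct hG hA) (H_ct hG hB)) (H_ct hG hL))
      (Ctb_prod hG.tm (Ctb_omega hG.tm) (Ctb_omega hG.tm))
  refine H_ctb hG hF (Ctb_sub h1 h) ?_
  intro y hy
  obtain ⟨s, hs, a, ha, rfl⟩ := ZFSet.mem_prod.1 (h hy)
  obtain ⟨c, hc, γ, hγ, rfl⟩ := ZFSet.mem_prod.1 hs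
  obtain ⟨i, hi, j, hj, rfl⟩ := ZFSet.mem_prod.1 ha
  have hcH : c ∈ H := by
    rcases ZFSet.mem_union.1 hc with hc | hc
    · exact H_tr hG hA hc
    · exact H_tr hG hB hc
  have ho : omega ∈ H := (HF_sub_H hG).2.2
  exact H_pair hG (H_pair hG hcH (H_tr hG hL hγ))
    (H_pair hG (H_tr hG ho hi) (H_tr hG ho hj))

/-- the value of the amalgamation -/
private noncomputable def PAm_g (u w s : ZFSet.{0}) : ZFSet.{0} :=
  open Classical in if fst s ∈ vS w then app (vf w) s else app (vf u) s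

private noncomputable def PAm_f (u w A : ZFSet.{0}) : ZFSet.{0} :=
  fgr (fun s => PAm_g u w s) (ZFSet.prod (A ∪ vS w) (vL w))

private theorem PAm_fM {N : Set ZFSet.{0}} (hN : TM N) {u w A : ZFSet.{0}} (hu : u ∈ N)
    (hw : w ∈ N) (hA : A ∈ N) : PAm_f u w A ∈ N := by
  have h1 : UF (fun _ v => PAm_g (v 1) (v 2) (v 0)) := by
    unfold PAm_g
    exact UF.ite (UR.mem (UF.fst (UF.var 0)) (Inst.vS (hf := UF.var 2)))
      (UF.app (Inst.vf (hf := UF.var 2)) (UF.var 0)) (UF.app (Inst.vf (hf := UF.var 1)) (UF.var 0))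
  have h2 : UF (fun _ v => H83.AC.fgr (fun s => PAm_g (v 0) (v 1) s)
      (ZFSet.prod (v 2 ∪ H83.PN.vS (v 1)) (H83.PN.vL (v 1)))) := by
    refine UF.fgr (F := fun _ s v => PAm_g (v 0) (v 1) s) (by infer_instance) ?_
    exact h1
  exact h2.mem N hN (cons u (cons w (fun _ => A))) (fun i => by
    match i with
    | 0 => exact hu
    | 1 => exact hw
    | i + 2 => exact hA)

theorem amV (hG : Gr M K H) {v w m : ZFSet.{0}} (hv : VV v) (hw : VV w) (hvH : v ∈ H)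
    (hwH : w ∈ H) (hle : VLe w (rsV v m)) (hdis : ∀ c ∈ vS w, c ∈ vS v → fst c ∈ m) :
    ∃ v' ∈ H, VV v' ∧ vL v' = vL w ∧ vS v' = vS v ∪ vS w ∧ VLe v' v ∧ VLe v' w := by
  classical
  have hvM := H_sub_M hG hvH
  have hwM := H_sub_M hG hwH
  obtain ⟨-, hrL, hrS, hrf⟩ := VV_rsV hv m
  have hwL := hw.2.1
  have hLL : vL v ⊆ vL w := by
    have := hle.1
    rwa [hrL] at this
  have hvS := PAm_vS hG hvH
  have hwS := PAm_vS hG hwH
  have hwLH := PAm_vL hG hwH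
  -- extend `v` to the length of `w`
  obtain ⟨u, huM, hu, huL, huS, huv⟩ := exists_extV hG.tm hv hvM (H_sub_M hG hwLH) hwL hLL
    (H_ct hG hvS)
  have hFM : PAm_f u w (vS v) ∈ M := PAm_fM hG.tm huM hwM (H_sub_M hG hvS)
  -- the values
  have gin : ∀ s ∈ ZFSet.prod (vS v ∪ vS w) (vL w), PAm_g u w s ∈ Idx := by
    intro s hs
    obtain ⟨c, hc, γ, hγ, rfl⟩ := ZFSet.mem_prod.1 hs
    unfold PAm_g
    rw [fst_pair]
    by_cases h : c ∈ vS w
    · rw [if_pos h]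
      exact hw.2.2.2.2 _ (PAm_pp.2 ⟨h, hγ⟩)
    · rw [if_neg h]
      refine hu.2.2.2.2 _ (PAm_pp.2 ⟨?_, ?_⟩)
      · rw [huS]
        rcases ZFSet.mem_union.1 hc with h1 | h1
        · exact h1
        · exact absurd h1 h
      · rw [huL]; exact hγ
  have hFs : PAm_f u w (vS v) ⊆ ZFSet.prod (ZFSet.prod (vS v ∪ vS w) (vL w)) Idx := by
    intro y hy
    obtain ⟨s, hs, rfl⟩ := mem_fgr.1 hy
    exact ZFSet.pair_mem_prod.2 ⟨hs, gin s hs⟩
  have hFH : PAm_f u w (vS v) ∈ H := PAm_fin hG hvS hwS hFM hwLH hFs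
  have hUH : vS v ∪ vS w ∈ H := by
    refine H_uf2 hG (F := fun x y => x ∪ y) (by infer_instance) hvS hwS
  obtain ⟨v', hv'⟩ : ∃ v', v' = pair (vL w) (pair (vS v ∪ vS w) (PAm_f u w (vS v))) := ⟨_, rfl⟩
  have eL : vL v' = vL w := by rw [hv']; unfold vL; rw [fst_pair]
  have eS : vS v' = vS v ∪ vS w := by rw [hv']; unfold vS; rw [snd_pair, fst_pair]
  have ef : vf v' = PAm_f u w (vS v) := by rw [hv']; unfold vf; rw [snd_pair, snd_pair]
  have hv'H : v' ∈ H := by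
    rw [hv']
    exact H_pair hG hwLH (H_pair hG hUH hFH)
  have hap : ∀ s ∈ ZFSet.prod (vS v ∪ vS w) (vL w), app (vf v') s = PAm_g u w s := by
    intro s hs
    rw [ef]
    exact app_fgr hs
  -- the two values
  have hap1 : ∀ c ∈ vS w, ∀ γ ∈ vL w, app (vf v') (pair c γ) = app (vf w) (pair c γ) := by
    intro c hc γ hγ
    rw [hap _ (PAm_pp.2 ⟨ZFSet.mem_union.2 (Or.inr hc), hγ⟩)]
    unfold PAm_g
    rw [fst_pair, if_pos hc]
  have hap2 : ∀ c ∈ vS v, c ∉ vS w → ∀ γ ∈ vL w,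
      app (vf v') (pair c γ) = app (vf u) (pair c γ) := by
    intro c hc hc' γ hγ
    rw [hap _ (PAm_pp.2 ⟨ZFSet.mem_union.2 (Or.inl hc), hγ⟩)]
    unfold PAm_g
    rw [fst_pair, if_neg hc']
  have hVV : VV v' := by
    refine ⟨?_, ?_, ?_, ?_, ?_⟩
    · rw [eL, eS, ef, hv']
    · rw [eL]; exact hwL
    · intro c hc
      rw [eS] at hc
      rcases ZFSet.mem_union.1 hc with h | h
      · exact hv.2.2.1 c h
      · exact hw.2.2.1 c h
    · rw [eS, eL]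
      conv_lhs => rw [ef]
      refine fgr_congr fun s hs => ?_
      exact (hap s hs).symm
    · intro s hs
      rw [eS, eL] at hs
      rw [hap s hs]
      exact gin s hs
  have hmem : ∀ c ∈ vS v, c ∈ vS w → c ∈ vS (rsV v m) := fun c hc hc' =>
    (hrS c).2 ⟨hc, hdis c hc' hc⟩
  have hnot : ∀ c ∈ vS v, c ∉ vS w → fst c ∉ m := fun c hc hc' h =>
    hc' (hle.2.1 ((hrS c).2 ⟨hc, h⟩))
  have hlab : ∀ c ∈ vS v, ∀ γ ∈ vL w, γ ∉ vL v → fst (app (vf v') (pair c γ)) = fst c := by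
    intro c hc γ hγ hγ'
    by_cases h : c ∈ vS w
    · rw [hap1 c h γ hγ]
      exact hle.2.2.2.1 c (hmem c hc h) γ hγ (by rw [hrL]; exact hγ')
    · rw [hap2 c hc h γ hγ]
      exact huv.2.2.2.1 c hc γ (by rw [huL]; exact hγ) hγ'
  refine ⟨v', hv'H, hVV, eL, eS, ⟨?_, ?_, ?_, ?_, ?_⟩, ⟨?_, ?_, ?_, ?_, ?_⟩⟩
  · rw [eL]; exact hLL
  · rw [eS]; exact fun c hc => ZFSet.mem_union.2 (Or.inl hc)
  · intro s hs
    obtain ⟨c, hc, γ, hγ, rfl⟩ := ZFSet.mem_prod.1 hs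
    by_cases h : c ∈ vS w
    · have hc' := hmem c hc h
      rw [hap1 c h γ (hLL hγ), hle.2.2.1 _ (PAm_pp.2 ⟨hc', by rw [hrL]; exact hγ⟩)]
      exact hrf _ (PAm_pp.2 ⟨hc', hγ⟩)
    · rw [hap2 c hc h γ (hLL hγ)]
      exact huv.2.2.1 _ hs
  · intro c hc γ hγ hγ'
    rw [eL] at hγ
    exact hlab c hc γ hγ hγ'
  · intro c hc c' hc' hne γ hγ hγ' he
    rw [eL] at hγ
    have h1 := hlab c hc γ hγ hγ'
    have h2 := hlab c' hc' γ hγ hγ'
    by_cases h : c ∈ vS w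
    · by_cases h' : c' ∈ vS w
      · rw [hap1 c h γ hγ, hap1 c' h' γ hγ] at he
        exact hle.2.2.2.2 c (hmem c hc h) c' (hmem c' hc' h') hne γ hγ
          (by rw [hrL]; exact hγ') he
      · rw [he, h2] at h1
        exact hnot c' hc' h' (by rw [h1]; exact hdis c h hc)
    · by_cases h' : c' ∈ vS w
      · rw [he, h2] at h1
        exact hnot c hc h (by rw [← h1]; exact hdis c' h' hc')
      · rw [hap2 c hc h γ hγ, hap2 c' hc' h' γ hγ] at he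
        exact huv.2.2.2.2 c hc c' hc' hne γ (by rw [huL]; exact hγ) hγ' he
  · rw [eL]
  · rw [eS]; exact fun c hc => ZFSet.mem_union.2 (Or.inr hc)
  · intro s hs
    obtain ⟨c, hc, γ, hγ, rfl⟩ := ZFSet.mem_prod.1 hs
    exact hap1 c hc γ hγ
  · intro c _ γ hγ hγ'
    rw [eL] at hγ
    exact absurd hγ hγ'
  · intro c _ c' _ _ γ hγ hγ'
    rw [eL] at hγ
    exact absurd hγ hγ'

theorem amP (hG : Gr M K H) {n : ℕ} {U : ZFSet.{0}} (hU : UOK M H n U) {v q w q' m : ZFSet.{0}}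
    (hp : pair v q ∈ PU U H) (hp' : pair w q' ∈ PU U H) (hle : VLe w (rsV v m))
    (hq : QLe U (rsV v m) q' (rsQ q m)) (hdis : ∀ c ∈ vS w, c ∈ vS v → fst c ∈ m) :
    ∃ v' ∈ H, VV v' ∧ vL v' = vL w ∧ vS v' = vS v ∪ vS w ∧ VLe v' v ∧ VLe v' w ∧
      pair v' (pair (fst q ∪ fst q') (snd q ∪ snd q')) ∈ PU U H ∧
      QLe U v (pair (fst q ∪ fst q') (snd q ∪ snd q')) q ∧
      QLe U w (pair (fst q ∪ fst q') (snd q ∪ snd q')) q' := by
  obtain ⟨hpH, -, hv, hvL, hqq⟩ := mem_PU.1 hp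
  obtain ⟨hpH', -, hw, hwL, hqq'⟩ := mem_PU.1 hp'
  rw [fst_pair] at hv hvL hqq hw hwL hqq'
  rw [snd_pair] at hqq hqq'
  have hvH : v ∈ H := by
    have := PAm_fst hG hpH
    rwa [fst_pair] at this
  have hwH : w ∈ H := by
    have := PAm_fst hG hpH'
    rwa [fst_pair] at this
  obtain ⟨v', hv'H, hv', eL, eS, hlv, hlw⟩ := amV hG hv hw hvH hwH hle hdis
  obtain ⟨-, hrL, hrS, -⟩ := VV_rsV hv m
  have hq1 := QQ_mono hlv hqq
  have hq2 := QQ_mono hlw hqq'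
  obtain ⟨e1, e2⟩ := QQ_elt hqq
  obtain ⟨e1', e2'⟩ := QQ_elt hqq'
  have hrs : VLe v' (rsV v m) := VLe_trans hlv (VLe_rsV hv m)
  have mf : ∀ t, t ∈ fst (rsQ q m) ↔ t ∈ fst q ∧ fst (fst (fst t)) ∈ m := by
    intro t
    unfold rsQ
    rw [fst_pair, mem_sep]
  have ms : ∀ s, s ∈ snd (rsQ q m) ↔ s ∈ snd q ∧ fst (fst s) ∈ m := by
    intro s
    unfold rsQ
    rw [snd_pair, mem_sep]
  have hin : ∀ t ∈ fst q, fst (fst t) ∈ vS w → t ∈ fst q' := by
    intro t ht hc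
    exact hq.1 ((mf t).2 ⟨ht, hdis _ hc (e1 t ht).2.1⟩)
  have hfun : ∀ t ∈ fst q', ∀ t' ∈ fst q', fst t = fst t' → t = t' :=
    (mem_Cn.1 hqq'.2.1).2.2.2
  obtain ⟨j1, j2, j3⟩ := QLe_join (u := U) hq1 hq2 (by
    intro t ht t' ht' he
    refine hfun t (hin t ht ?_) t' ht' he
    rw [he]
    exact (e1' t' ht').2.1) (by
    intro t ht ht' s hs he
    have hc : fst (fst s) ∈ m := hdis _ (by rw [he]; exact (e1' t ht).2.1) (e2 s hs).2.1
    have hs' : s ∈ ZFSet.prod (vS (rsV v m)) (vL (rsV v m)) := by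
      rw [(e2 s hs).1, PAm_pp, hrL, hrS]
      exact ⟨⟨(e2 s hs).2.1, hc⟩, (e2 s hs).2.2⟩
    rw [rl_mono hrs hs']
    exact hq.2.2 t ht (fun h => ht' ((mf t).1 h).1) s ((ms s).2 ⟨hs, hc⟩) he) (by
    intro t ht ht' s hs he
    exact absurd (hin t ht (by rw [← he]; exact (e2' s hs).2.1)) ht')
  refine ⟨v', hv'H, hv', eL, eS, hlv, hlw, ?_, ?_, ?_⟩
  · exact mk_PU hG hv' hv'H (by rw [eL]; exact hwL) j1
  · exact (QLe_v hlv hqq).1 j2
  · exact (QLe_v hlw hqq').1 j3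

end H83.PN
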