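import Pool.Agent.H83.PN.PSy
import Pool.Agent.H83.PN.PAm
import Pool.Agent.H83.PN.GActF
import Pool.Agent.H83.PN.GChk

set_option autoImplicit false

/-!
# Module PSu: homogeneity

`p = (v, q)`, `p|m = (rsV v m, rsQ q m)`. By `FMem_dense` it is enough that every `p₁ = (w, q₁) ≤ p|m` has an extension `r` with
`FMem S r (chk S h) σ`. Let `S₀ = vS v ∪ vS w`, `D = {c ∈ vS w : fst c ∉ m}`, `a = swp D S₀` (`swp_ok`, `swp_H`); `aut U H a` is in the group of `m`.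
`acP a p₁ = (w', q₁')`: `VLe w' (rsV v m)`, `QLe U (rsV v m) q₁' (rsQ q m)` (`VLe_acV`, `QLe_acQ` and `acV_id`, `acQ_id` for `rsV v m`, `rsQ q m`, whose
coordinates are fixed), and a coordinate of `w'` which is in `vS v` is in a column of `m` (the others are fresh). `amP` gives `r₀` below
`p` and `acP a p₁`. `FMem S r₀ (chk S h) σ` (`FMem_mono`). `a` is an involution, so `acP a r₀ ≤ p₁`, and `FMem_act` with `aut U H a`, which fixes
`chk S h` (`actN_chk`) and `σ` (`Supp`).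
(`rsV v m ∈ H` needs `m ∈ M`.)
`compat_rs`: a condition `p₁ ≤ p|m` whose coordinates are all in the columns `m` is compatible with `p` (`amP`).
-/

namespace H83.PN

open ZFSet H83.AC

variable {f g h k l : Set ZFSet.{0} → (ℕ → ZFSet.{0}) → ZFSet.{0}}
variable {M : Set ZFSet.{0}} {K H : ZFSet.{0}}

/-- the restriction of a condition to columns -/
noncomputable def rsP (p m : ZFSet.{0}) : ZFSet.{0} := pair (rsV (fst p) m) (rsQ (snd p) m)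

instance Inst.rsP [hf : UF f] [hg : UF g] : UF (fun N v => H83.PN.rsP (f N v) (g N v)) := by
  unfold H83.PN.rsP; infer_instance

private theorem PSu_fst (hG : Gr M K H) {x : ZFSet.{0}} (h : x ∈ H) : fst x ∈ H :=
  H_uf1 hG (F := fun x => fst x) (UF.fst (UF.var 0)) h

private theorem PSu_vS (hG : Gr M K H) {x : ZFSet.{0}} (h : x ∈ H) : vS x ∈ H :=
  H_uf1 hG (F := fun x => vS x) (Inst.vS (hf := UF.var 0)) h

private theorem PSu_H (hG : Gr M K H) {v m : ZFSet.{0}} (hv : v ∈ H) (hm : m ∈ M) :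
    rsV v m ∈ H := by
  have hvM := H_sub_M hG hv
  have hst : ∀ i, cons v (fun _ => m) i ∈ M := fun i => by
    cases i with
    | zero => exact hvM
    | succ i => exact hm
  have k1 : UF (fun _ v => H83.PN.vS (H83.PN.rsV (v 0) (v 1))) :=
    Inst.vS (hf := Inst.rsV (hf := UF.var 0) (hg := UF.var 1))
  have k2 : UF (fun _ v => H83.PN.vf (H83.PN.rsV (v 0) (v 1))) :=
    Inst.vf (hf := Inst.rsV (hf := UF.var 0) (hg := UF.var 1))
  have h1 : vS (rsV v m) ∈ M := k1.mem M hG.tm (cons v (fun _ => m)) hst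
  have h2 : vf (rsV v m) ∈ M := k2.mem M hG.tm (cons v (fun _ => m)) hst
  have h3 : vf v ∈ H := H_uf1 hG (F := fun x => vf x) (Inst.vf (hf := UF.var 0)) hv
  have h4 : vL v ∈ H := H_uf1 hG (F := fun x => vL x) (Inst.vL (hf := UF.var 0)) hv
  have h5 : vS (rsV v m) ∈ H := H_sub hG (PSu_vS hG hv) h1 (by
    intro c hc
    rw [rsV, vS, snd_pair, fst_pair] at hc
    exact (ZFSet.mem_sep.1 hc).1)
  have h6 : vf (rsV v m) ∈ H := H_sub hG h3 h2 (by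
    intro c hc
    rw [rsV, vf, snd_pair, snd_pair] at hc
    exact (ZFSet.mem_sep.1 hc).1)
  have h7 : rsV v m = pair (vL v) (pair (vS (rsV v m)) (vf (rsV v m))) := by
    simp only [rsV, vS, vf, snd_pair, fst_pair]
  rw [h7]
  exact H_pair hG h4 (H_pair hG h5 h6)

theorem rsP_PU (hG : Gr M K H) {n : ℕ} {U : ZFSet.{0}} (hU : UOK M H n U) {p : ZFSet.{0}}
    (hp : p ∈ PU U H) (m : ZFSet.{0}) (hm : m ∈ M) :
    rsP p m ∈ PU U H ∧ Le (SU U H) p (rsP p m) ∧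
      ∀ c ∈ vS (fst (rsP p m)), fst c ∈ m := by
  obtain ⟨hpH, -, hv, hvL, hqq⟩ := mem_PU.1 hp
  obtain ⟨h1, h2, h3, -⟩ := VV_rsV hv m
  have h4 : rsP p m ∈ PU U H :=
    mk_PU hG h1 (PSu_H hG (PSu_fst hG hpH) hm) (by rw [h2]; exact hvL) (QQ_rsQ hv hqq m)
  refine ⟨h4, Le_SU.2 ⟨hp, h4, ?_, ?_⟩, ?_⟩
  · rw [rsP, fst_pair]
    exact VLe_rsV hv m
  · rw [rsP, fst_pair, snd_pair]
    exact QLe_rsQ' hv hqq m
  · intro c hc
    rw [rsP, fst_pair] at hc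
    exact ((h3 c).1 hc).2

theorem rsP_mono (hG : Gr M K H) {n : ℕ} {U : ZFSet.{0}} (hU : UOK M H n U) {p p' : ZFSet.{0}}
    (h : Le (SU U H) p' p) (m : ZFSet.{0}) (hm : m ∈ M) :
    Le (SU U H) (rsP p' m) (rsP p m) := by
  obtain ⟨hp', hp, h1, h2⟩ := Le_SU.1 h
  obtain ⟨hpH, -, hv, hvL, hqq⟩ := mem_PU.1 hp
  obtain ⟨hpH', -, hv', hvL', hqq'⟩ := mem_PU.1 hp'
  refine Le_SU.2 ⟨(rsP_PU hG hU hp' m hm).1, (rsP_PU hG hU hp m hm).1, ?_, ?_⟩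
  · rw [rsP, rsP, fst_pair, fst_pair]
    exact rsV_mono hv hv' h1 m
  · rw [rsP, rsP, fst_pair, snd_pair, snd_pair]
    exact QLe_rsQ hv hqq h2 m

theorem rsP_full {p m U H : ZFSet.{0}} (hp : p ∈ PU U H) (h : ∀ c ∈ vS (fst p), fst c ∈ m) :
    rsP p m = p := by
  obtain ⟨-, hpe, hv, -, hqq⟩ := mem_PU.1 hp
  rw [rsP, rsV_full hv h, rsQ_full hqq h]
  exact hpe.symm

private theorem PSu_pe {U H p : ZFSet.{0}} (hp : p ∈ PU U H) : pair (fst p) (snd p) ∈ PU U H := by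
  rw [← (mem_PU.1 hp).2.1]
  exact hp

theorem compat_rs (hG : Gr M K H) {n : ℕ} {U : ZFSet.{0}} (hU : UOK M H n U)
    {p p₁ m : ZFSet.{0}} (hp : p ∈ PU U H) (h : Le (SU U H) p₁ (rsP p m))
    (hc : ∀ c ∈ vS (fst p₁), fst c ∈ m) :
    ∃ r, Le (SU U H) r p ∧ Le (SU U H) r p₁ ∧ vS (fst r) = vS (fst p) ∪ vS (fst p₁) := by
  obtain ⟨hp1, -, h1, h2⟩ := Le_SU.1 h
  rw [rsP, fst_pair] at h1
  rw [rsP, fst_pair, snd_pair] at h2
  obtain ⟨v', -, -, -, hvS, hl1, hl2, hr, hq1, hq2⟩ :=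
    amP hG hU (PSu_pe hp) (PSu_pe hp1) h1 h2 (fun c hc' _ => hc c hc')
  refine ⟨_, Le_SU.2 ⟨hr, hp, ?_, ?_⟩, Le_SU.2 ⟨hr, hp1, ?_, ?_⟩, ?_⟩
  · rw [fst_pair]; exact hl1
  · rw [snd_pair]; exact hq1
  · rw [fst_pair]; exact hl2
  · rw [snd_pair]; exact hq2
  · rw [fst_pair]; exact hvS

private theorem PSu_csup {v q c : ZFSet.{0}} (hq : QQ v q) (h : c ∈ csup q) : c ∈ vS v := by
  rw [csup, ZFSet.mem_union, mem_img, mem_img] at h
  rcases h with ⟨t, ht, rfl⟩ | ⟨s, hs, rfl⟩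
  · exact ((QQ_elt hq).1 t ht).2.1
  · exact ((QQ_elt hq).2 s hs).2.1

/-- an involution acts as an involution -/
private theorem PSu_inv {a U H p : ZFSet.{0}} (ha : Bij a) (h : ∀ c, apc a (apc a c) = c)
    (hp : p ∈ PU U H) : acP a (acP a p) = p := by
  obtain ⟨-, hpe, hv, -, hqq⟩ := mem_PU.1 hp
  have h1 : ∀ c, apc (cmp a a) c = c := fun c => by rw [(Bij_cmp ha ha).2.2 c, h c]
  have h2 : acV a (acV a (fst p)) = fst p := by
    rw [acV_cmp ha ha hv]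
    exact acV_id hv fun c _ => h1 c
  have h3 : acQ a (acQ a (snd p)) = snd p := by
    rw [acQ_cmp ha ha hqq]
    exact acQ_id hqq fun c _ => h1 c
  have h4 : acP a (acP a p) = pair (acV a (acV a (fst p))) (acQ a (acQ a (snd p))) := by
    rw [acP, acP, fst_pair, snd_pair]
  rw [h4, h2, h3]
  exact hpe.symm

theorem FMem_rs (hG : Gr M K H) {n : ℕ} {U : ZFSet.{0}} (hU : UOK M H n U) {p m σ x : ZFSet.{0}}
    (hp : p ∈ PU U H) (hσ : HS (SU U H) σ) (hs : Supp (SU U H) m σ)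
    (h : FMem (SU U H) p (chk (SU U H) x) σ) :
    FMem (SU U H) (rsP p m) (chk (SU U H) x) σ := by
  have hS := Sys_SU hG hU
  have hm : m ∈ omega := hs.1
  have hmH : m ∈ H := H_tr hG (HF_sub_H hG).2.2 hm
  obtain ⟨hpH, -, hv, hvL, hqq⟩ := mem_PU.1 hp
  refine FMem_dense hS fun p₁ hp₁ hle => ?_
  obtain ⟨hp1, -, h1, h2⟩ := Le_SU.1 hle
  rw [rsP, fst_pair] at h1
  rw [rsP, fst_pair, snd_pair] at h2
  obtain ⟨hpH1, -, hw, hwL, hqq1⟩ := mem_PU.1 hp1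
  have hvS : vS (fst p) ∈ H := PSu_vS hG (PSu_fst hG hpH)
  have hwS : vS (fst p₁) ∈ H := PSu_vS hG (PSu_fst hG hpH1)
  obtain ⟨D, hDe⟩ : ∃ D, D = ZFSet.sep (fun c => ¬ fst c ∈ m) (vS (fst p₁)) := ⟨_, rfl⟩
  obtain ⟨S₀, hSe⟩ : ∃ S₀, S₀ = vS (fst p) ∪ vS (fst p₁) := ⟨_, rfl⟩
  have hDH : D ∈ H := by
    rw [hDe]
    exact H_uf2 hG (F := fun w m => ZFSet.sep (fun c => ¬ fst c ∈ m) w) (by infer_instance) hwS hmH
  have hSH : S₀ ∈ H := by
    rw [hSe]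
    exact H_uf2 hG (F := fun w m => w ∪ m) (by infer_instance) hvS hwS
  have hDm : ∀ c, c ∈ D ↔ c ∈ vS (fst p₁) ∧ ¬ fst c ∈ m := fun c => by rw [hDe, ZFSet.mem_sep]
  have hSm : ∀ c, c ∈ S₀ ↔ c ∈ vS (fst p) ∨ c ∈ vS (fst p₁) := fun c => by
    rw [hSe, ZFSet.mem_union]
  have hDS : D ⊆ S₀ := fun c hc => (hSm c).2 (Or.inr ((hDm c).1 hc).1)
  have hDC : ∀ c ∈ D, Co c := fun c hc => hw.2.2.1 c ((hDm c).1 hc).1
  obtain ⟨hbij, hcol, hfr, -, hfix, hinv, hdom⟩ := swp_ok hDS hDC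
  have haH := swp_H hG hDH hSH
  obtain ⟨a, hae⟩ : ∃ a, a = swp D S₀ := ⟨_, rfl⟩
  rw [← hae] at hbij hcol hfr hfix hinv hdom haH
  have hαm : aut U H a ∈ app (sH (SU U H)) m :=
    (mem_sH hm).2 ⟨a, haH, hbij, hcol, fun c hc hcm => by
      obtain ⟨d, hd, he⟩ := hdom c hc
      exact absurd (he ▸ hcm) ((hDm d).1 hd).2, rfl⟩
  have hα : aut U H a ∈ sA (SU U H) := hS.subH m hm hαm
  obtain ⟨hr1, -, hr3, -⟩ := VV_rsV hv m
  have hidv : ∀ c ∈ vS (rsV (fst p) m), apc a c = c := fun c hc =>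
    hfix c ((hSm c).2 (Or.inl ((hr3 c).1 hc).1)) fun hcD => ((hDm c).1 hcD).2 ((hr3 c).1 hc).2
  have hV : VLe (acV a (fst p₁)) (rsV (fst p) m) := by
    have h3 := VLe_acV hbij hcol hr1 hw h1
    rwa [acV_id hr1 hidv] at h3
  have hQ : QLe U (rsV (fst p) m) (acQ a (snd p₁)) (rsQ (snd p) m) := by
    have hqr := QQ_rsQ hv hqq m
    have h3 := QLe_acQ hbij hr1 hqr h2
    rwa [acV_id hr1 hidv, acQ_id hqr (fun c hc => hidv c (PSu_csup hqr hc))] at h3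
  have hdis : ∀ c ∈ vS (acV a (fst p₁)), c ∈ vS (fst p) → fst c ∈ m := by
    intro c hc hcv
    obtain ⟨d, hd, rfl⟩ := ((VV_acV hbij hw).2.2.1 c).1 hc
    by_cases hdD : d ∈ D
    · exfalso
      rw [hfr d hdD] at hcv
      exact (frc_fresh S₀ d).1 ((hSm _).2 (Or.inl hcv))
    · rw [hfix d ((hSm d).2 (Or.inr hd)) hdD]
      by_contra hcon
      exact hdD ((hDm d).2 ⟨hd, hcon⟩)
  have hp2 : acP a p₁ ∈ PU U H := acP_PU hG hU haH hbij hp1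
  obtain ⟨v', -, -, -, -, hl1, hl2, hr, hq1, hq2⟩ := amP hG hU (PSu_pe hp) hp2 hV hQ hdis
  obtain ⟨r, hre⟩ : ∃ r, r = pair v' (pair (fst (snd p) ∪ fst (acQ a (snd p₁)))
    (snd (snd p) ∪ snd (acQ a (snd p₁)))) := ⟨_, rfl⟩
  have hr' : r ∈ PU U H := by rw [hre]; exact hr
  have hrp : Le (SU U H) r p := by
    refine Le_SU.2 ⟨hr', hp, ?_, ?_⟩
    · rw [hre, fst_pair]; exact hl1
    · rw [hre, snd_pair]; exact hq1
  have hrp2 : Le (SU U H) r (acP a p₁) := by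
    refine Le_SU.2 ⟨hr', hp2, ?_, ?_⟩
    · rw [hre, fst_pair, acP, fst_pair]; exact hl2
    · rw [hre, snd_pair, acP, fst_pair, snd_pair]; exact hq2
  have hrP : r ∈ sP (SU U H) := by rw [sP_SU]; exact hr'
  have h5 := FMem_act hS hα hrP (HS_chk hS x).isName hσ.isName (FMem_mono hS hrp h)
  rw [actN_chk hS hα, hs.2 _ hαm] at h5
  have h6 := hS.autLe _ hα _ _ hrp2
  rw [app_aut hp2, PSu_inv hbij hinv hp1] at h6
  exact ⟨_, (Le_P hS h6).1, h6, h5⟩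

end H83.PN
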