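import Pool.Agent.H83.PN.DefsC
import Pool.Agent.H83.PN.GActV
import Pool.Agent.H83.PN.PSu

set_option autoImplicit false

/-!
# Module ACb: two copies of a condition

`π = swp D (vS v)`, `D = {c ∈ vS v : fst c ∈ m₁, fst c ∉ m}`; `V = unV v (acV π v)`, `Q = unQ q (acQ π q)`. The coordinates of `acV π v` are `(vS v \ D) ∪ πD`; on `vS v \ D` the values agree (`π`
is the identity there), `πD` is disjoint from `vS v`. `un_ok`: `VV V`, `VLe V v`, `VLe V (acV π v)` (same length), `(V, Q) ∈ PU`, below `(v, q)` and `acP π (v, q)` (`QLe_join`).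
`two_copies`: let `G'` be generic, `(V, Q) ∈ G'`, `a = aut U H π`, `G₁ = gact a G'`. `G₁` is generic (`gen_act`), `(v, q) ∈ G₁`, because `acP π (v, q) ∈ G'` and `π` is an involution.
`NN M S G₁ = NN M S G'` (`NN_act`); `val G₁ β = val G' β` (`val_act`, `Supp` of `β`: `a` is in the group of `m`). `Stat` for `G'` and for `G₁`:
`ev (Gq v G₁) x ∈ app (val G' β) k`, and it is `ev (Gq (acV π v) G') (acE π x) = ev (Gq V G') (acE π x)` (`ev_Gq`): `(v, q') ∈ G₁ ↔ (acV π v, acQ π q') ∈ G'`. It is a real number (`ev_real` for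
`G₁`), so `Pr N' (n+2) T' ..` holds by the first clause of `Stat` for `G'`.
-/

namespace H83.PN

open ZFSet H83.AC

variable {M : Set ZFSet.{0}} {K H : ZFSet.{0}}

private theorem ACb_prod {a b s : ZFSet.{0}} (h : s ∈ ZFSet.prod a b) :
    s = pair (fst s) (snd s) ∧ fst s ∈ a ∧ snd s ∈ b := by
  obtain ⟨x, hx, y, hy, rfl⟩ := ZFSet.mem_prod.1 h
  rw [fst_pair, snd_pair]
  exact ⟨rfl, hx, hy⟩

private theorem ACb_mk {a b x y : ZFSet.{0}} (hx : x ∈ a) (hy : y ∈ b) :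
    pair x y ∈ ZFSet.prod a b := ZFSet.mem_prod.2 ⟨x, hx, y, hy, rfl⟩

private theorem ACb_mem {v s z : ZFSet.{0}} (hv : VV v) : pair s z ∈ vf v ↔
    s ∈ ZFSet.prod (vS v) (vL v) ∧ z = app (vf v) s := by
  have h := hv.2.2.2.1
  conv_lhs => rw [h]
  exact pair_mem_fgr

private theorem ACb_uL (v w : ZFSet.{0}) : vL (unV v w) = vL v := by
  rw [unV, vL, fst_pair]

private theorem ACb_uS (v w : ZFSet.{0}) : vS (unV v w) = vS v ∪ vS w := by
  rw [unV, vS, snd_pair, fst_pair]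

private theorem ACb_uf (v w : ZFSet.{0}) : vf (unV v w) = vf v ∪ vf w := by
  rw [unV, vf, snd_pair, snd_pair]

/-- the union of two first parts of the same length which agree on the common coordinates -/
private theorem ACb_un {v w : ZFSet.{0}} (hv : VV v) (hw : VV w) (hL : vL w = vL v)
    (hag : ∀ s, s ∈ ZFSet.prod (vS v) (vL v) → s ∈ ZFSet.prod (vS w) (vL w) →
      app (vf v) s = app (vf w) s) :
    VV (unV v w) ∧ VLe (unV v w) v ∧ VLe (unV v w) w := by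
  have h1 : ∀ s, s ∈ ZFSet.prod (vS v) (vL v) → app (vf (unV v w)) s = app (vf v) s := by
    intro s hs
    refine app_eq ?_ fun z hz => ?_
    · rw [ACb_uf, ZFSet.mem_union]
      exact Or.inl ((ACb_mem hv).2 ⟨hs, rfl⟩)
    · rw [ACb_uf, ZFSet.mem_union] at hz
      rcases hz with hz | hz
      · exact ((ACb_mem hv).1 hz).2
      · obtain ⟨hs', hz'⟩ := (ACb_mem hw).1 hz
        rw [hz', hag s hs hs']
  have h2 : ∀ s, s ∈ ZFSet.prod (vS w) (vL w) → app (vf (unV v w)) s = app (vf w) s := by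
    intro s hs
    refine app_eq ?_ fun z hz => ?_
    · rw [ACb_uf, ZFSet.mem_union]
      exact Or.inr ((ACb_mem hw).2 ⟨hs, rfl⟩)
    · rw [ACb_uf, ZFSet.mem_union] at hz
      rcases hz with hz | hz
      · obtain ⟨hs', hz'⟩ := (ACb_mem hv).1 hz
        rw [hz', hag s hs' hs]
      · exact ((ACb_mem hw).1 hz).2
  have h3 : ∀ s, s ∈ ZFSet.prod (vS (unV v w)) (vL (unV v w)) ↔
      s ∈ ZFSet.prod (vS v) (vL v) ∨ s ∈ ZFSet.prod (vS w) (vL w) := by
    intro s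
    rw [ACb_uL, ACb_uS, hL]
    constructor
    · intro hs
      obtain ⟨he, hs1, hs2⟩ := ACb_prod hs
      rw [he]
      rcases ZFSet.mem_union.1 hs1 with hs1 | hs1
      · exact Or.inl (ACb_mk hs1 hs2)
      · exact Or.inr (ACb_mk hs1 hs2)
    · rintro (hs | hs)
      · obtain ⟨he, hs1, hs2⟩ := ACb_prod hs
        rw [he]
        exact ACb_mk (ZFSet.mem_union.2 (Or.inl hs1)) hs2
      · obtain ⟨he, hs1, hs2⟩ := ACb_prod hs
        rw [he]
        exact ACb_mk (ZFSet.mem_union.2 (Or.inr hs1)) hs2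
  refine ⟨⟨?_, ?_, ?_, ?_, ?_⟩, ⟨?_, ?_, ?_, ?_, ?_⟩, ⟨?_, ?_, ?_, ?_, ?_⟩⟩
  · rw [ACb_uL, ACb_uS, ACb_uf, unV]
  · rw [ACb_uL]; exact hv.2.1
  · intro c hc
    rw [ACb_uS, ZFSet.mem_union] at hc
    rcases hc with hc | hc
    · exact hv.2.2.1 c hc
    · exact hw.2.2.1 c hc
  · ext t
    rw [mem_fgr]
    constructor
    · intro ht
      rw [ACb_uf, ZFSet.mem_union] at ht
      rcases ht with ht | ht
      · have ht' := ht
        rw [hv.2.2.2.1, mem_fgr] at ht'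
        obtain ⟨s, hs, rfl⟩ := ht'
        exact ⟨s, (h3 s).2 (Or.inl hs), by rw [h1 s hs]⟩
      · have ht' := ht
        rw [hw.2.2.2.1, mem_fgr] at ht'
        obtain ⟨s, hs, rfl⟩ := ht'
        exact ⟨s, (h3 s).2 (Or.inr hs), by rw [h2 s hs]⟩
    · rintro ⟨s, hs, rfl⟩
      rcases (h3 s).1 hs with hs | hs
      · rw [h1 s hs, ACb_uf, ZFSet.mem_union]
        exact Or.inl ((ACb_mem hv).2 ⟨hs, rfl⟩)
      · rw [h2 s hs, ACb_uf, ZFSet.mem_union]
        exact Or.inr ((ACb_mem hw).2 ⟨hs, rfl⟩)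
  · intro s hs
    rcases (h3 s).1 hs with hs | hs
    · rw [h1 s hs]; exact hv.2.2.2.2 s hs
    · rw [h2 s hs]; exact hw.2.2.2.2 s hs
  · intro x hx; rw [ACb_uL]; exact hx
  · intro x hx; rw [ACb_uS]; exact ZFSet.mem_union.2 (Or.inl hx)
  · exact h1
  · intro c hc γ hγ hn
    rw [ACb_uL] at hγ
    exact absurd hγ hn
  · intro c hc c' hc' hne γ hγ hn
    rw [ACb_uL] at hγ
    exact absurd hγ hn
  · intro x hx; rw [ACb_uL, ← hL]; exact hx
  · intro x hx; rw [ACb_uS]; exact ZFSet.mem_union.2 (Or.inr hx)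
  · exact h2
  · intro c hc γ hγ hn
    rw [ACb_uL, ← hL] at hγ
    exact absurd hγ hn
  · intro c hc c' hc' hne γ hγ hn
    rw [ACb_uL, ← hL] at hγ
    exact absurd hγ hn

/-- the two copies are compatible -/
private theorem ACb_core {U v q D π : ZFSet.{0}} (hv : VV v) (hq : QQ v q) (hB : Bij π)
    (hfr : ∀ d ∈ D, apc π d ∉ vS v) (hfix : ∀ c ∈ vS v, c ∉ D → apc π c = c) :
    VV (unV v (acV π v)) ∧ VLe (unV v (acV π v)) v ∧ VLe (unV v (acV π v)) (acV π v) ∧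
      QQ (unV v (acV π v)) (unQ q (acQ π q)) ∧ QLe U v (unQ q (acQ π q)) q ∧
      QLe U (acV π v) (unQ q (acQ π q)) (acQ π q) := by
  obtain ⟨ha1, ha2, ha3, ha4⟩ := VV_acV hB hv
  obtain ⟨h1, h2, h3⟩ := ACb_un hv ha1 ha2 (by
    intro s hs hs'
    obtain ⟨he, hs1, hs2⟩ := ACb_prod hs
    obtain ⟨-, hs3, -⟩ := ACb_prod hs'
    obtain ⟨d, hd, hde⟩ := (ha3 _).1 hs3
    have hdD : d ∉ D := fun h => hfr d h (hde ▸ hs1)
    have h5 := hfix d hd hdD
    rw [h5] at hde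
    have h6 := ha4 d hd _ hs2
    rw [h5, ← hde, ← he] at h6
    exact h6.symm)
  have hq1 : QQ (unV v (acV π v)) q := QQ_mono h2 hq
  have hqa : QQ (acV π v) (acQ π q) := QQ_acQ hB hv hq
  have hq2 : QQ (unV v (acV π v)) (acQ π q) := QQ_mono h3 hqa
  obtain ⟨e1, e2⟩ := QQ_elt hq
  have hf1 : fst (acQ π q) = img (fun t => rn3 π t) (fst q) := by rw [acQ, fst_pair]
  have hf2 : snd (acQ π q) = img (fun s => rn2 π s) (snd q) := by rw [acQ, snd_pair]
  have k3 : ∀ t ∈ fst q, fst (fst t) ∉ D → rn3 π t = t := by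
    intro t ht hn
    obtain ⟨k1, k2, -, -⟩ := e1 t ht
    rw [rn3, hfix _ k2 hn]
    exact k1.symm
  have k2 : ∀ t ∈ fst q, fst (fst (rn3 π t)) ∈ vS v → fst (fst t) ∉ D := by
    intro t ht h hD
    rw [rn3, fst_pair, fst_pair] at h
    exact hfr _ hD h
  have hfun : ∀ t ∈ fst q, ∀ t' ∈ fst q, fst t = fst t' → t = t' := (mem_Cn.1 hq.2.1).2.2.2
  obtain ⟨j1, j2, j3⟩ := QLe_join (u := U) hq1 hq2 (by
      intro t ht t' ht' he
      rw [hf1, mem_img] at ht'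
      obtain ⟨r, hr, rfl⟩ := ht'
      have h5 : fst (fst (rn3 π r)) ∈ vS v := by
        rw [← he]; exact (e1 t ht).2.1
      rw [k3 r hr (k2 r hr h5)] at he ⊢
      exact hfun t ht r hr he) (by
      intro t ht hn s hs he
      exfalso
      rw [hf1, mem_img] at ht
      obtain ⟨r, hr, rfl⟩ := ht
      have h5 : fst (fst (rn3 π r)) ∈ vS v := by
        rw [← he]; exact (e2 s hs).2.1
      rw [k3 r hr (k2 r hr h5)] at hn
      exact hn hr) (by
      intro t ht hn s hs he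
      exfalso
      rw [hf2, mem_img] at hs
      obtain ⟨r, hr, rfl⟩ := hs
      have h5 : fst (rn2 π r) ∈ vS v := by
        rw [he]; exact (e1 t ht).2.1
      have h6 : fst (rn2 π r) = apc π (fst r) := by rw [rn2, fst_pair]
      have h7 : fst r ∉ D := fun hD => hfr _ hD (h6 ▸ h5)
      have h8 : fst (fst t) = fst r := by
        rw [← he, h6, hfix _ (e2 r hr).2.1 h7]
      apply hn
      rw [hf1, mem_img]
      exact ⟨t, ht, k3 t ht (h8 ▸ h7)⟩)
  exact ⟨h1, h2, h3, j1, (QLe_v h2 hq).1 j2, (QLe_v h3 hqa).1 j3⟩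

theorem un_ok (hG : Gr M K H) {n : ℕ} {U : ZFSet.{0}} (hU : UOK M H n U) {v W q m m₁ : ZFSet.{0}}
    (hm : m ∈ omega) (hm1 : m₁ ∈ omega) (hv : GV H U v W) (hq : QQ v q) {D π : ZFSet.{0}}
    (hD : D = ZFSet.sep (fun c => fst c ∈ m₁ ∧ fst c ∉ m) (vS v)) (hπ : π = swp D (vS v)) :
    π ∈ H ∧ π ∈ W ∧ GV H U (unV v (acV π v)) W ∧ VLe (unV v (acV π v)) v ∧
      VLe (unV v (acV π v)) (acV π v) ∧ vL (unV v (acV π v)) = vL v ∧
      QQ (unV v (acV π v)) (unQ q (acQ π q)) ∧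
      QLe U v (unQ q (acQ π q)) q ∧ QLe U (acV π v) (unQ q (acQ π q)) (acQ π q) ∧
      (∀ c, c ∈ vS (unV v (acV π v)) ↔ c ∈ vS v ∨ ∃ d ∈ D, c = apc π d) ∧
      (∀ d ∈ D, apc π d ∉ vS v) ∧ (∀ c ∈ vS v, c ∉ D → apc π c = c) := by
  have hmH : m ∈ H := H_tr hG (HF_sub_H hG).2.2 hm
  have hm1H : m₁ ∈ H := H_tr hG (HF_sub_H hG).2.2 hm1
  have hDm : ∀ c, c ∈ D ↔ c ∈ vS v ∧ fst c ∈ m₁ ∧ fst c ∉ m := fun c => by
    rw [hD, ZFSet.mem_sep]
  have hDS : D ⊆ vS v := fun c hc => ((hDm c).1 hc).1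
  have hDC : ∀ c ∈ D, Co c := fun c hc => hv.vv.2.2.1 c ((hDm c).1 hc).1
  obtain ⟨hbij, hcol, hfr, -, hfix, hinv, hdom⟩ := swp_ok hDS hDC
  rw [← hπ] at hbij hcol hfr hfix hinv hdom
  have hfr' : ∀ d ∈ D, apc π d ∉ vS v := fun d hd => by
    rw [hfr d hd]
    exact (frc_fresh (vS v) d).1
  have hWd : Wd W := hv.nx.1
  have homW : ∀ x ∈ omega, x ∈ W := fun x hx => hWd.1.tr omega hWd.1.omega x hx
  have hDW : D ∈ W := by
    rw [hD]
    have h1 : UF (fun _ w => ZFSet.sep (fun c => fst c ∈ w 0 ∧ fst c ∉ w 1) (vS (w 2))) := by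
      infer_instance
    exact Wd_uf h1 hWd (v := cons m₁ (cons m (fun _ => v))) (fun i => by
      match i with
      | 0 => exact homW _ hm1
      | 1 => exact homW _ hm
      | i + 2 => exact hv.vW)
  have hπW : π ∈ W := by
    rw [hπ]
    have h1 : UF (fun _ w => swp (w 0) (vS (w 1))) := by infer_instance
    exact Wd_uf h1 hWd (v := cons D (fun _ => v)) (fun i => by
      match i with
      | 0 => exact hDW
      | i + 1 => exact hv.vW)
  have hπH : π ∈ H := H_tr hG hv.WH hπW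
  have hVW : unV v (acV π v) ∈ W := by
    have h1 : UF (fun _ w => unV (w 1) (acV (w 0) (w 1))) := by infer_instance
    exact Wd_uf h1 hWd (v := cons π (fun _ => v)) (fun i => by
      match i with
      | 0 => exact hπW
      | i + 1 => exact hv.vW)
  obtain ⟨h1, h2, h3, h4, h5, h6⟩ := ACb_core (U := U) hv.vv hq hbij hfr' hfix
  have hL : vL (unV v (acV π v)) = vL v := ACb_uL _ _
  refine ⟨hπH, hπW, ⟨h1, H_tr hG hv.WH hVW, ?_, hv.WH, ?_, ?_, hVW⟩, h2, h3, hL, h4, h5, h6,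
    ?_, hfr', hfix⟩
  · rw [hL]; exact hv.vL
  · rw [hL]; exact hv.nx
  · rw [hL]; exact hv.uW
  · intro c
    rw [ACb_uS, ZFSet.mem_union]
    constructor
    · rintro (hc | hc)
      · exact Or.inl hc
      · obtain ⟨d, hd, rfl⟩ := ((VV_acV hbij hv.vv).2.2.1 c).1 hc
        by_cases hdD : d ∈ D
        · exact Or.inr ⟨d, hdD, rfl⟩
        · rw [hfix d hd hdD]; exact Or.inl hd
    · rintro (hc | ⟨d, hd, rfl⟩)
      · exact Or.inl hc
      · exact Or.inr (((VV_acV hbij hv.vv).2.2.1 _).2 ⟨d, hDS hd, rfl⟩)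

/-- an involution acts as an involution -/
private theorem ACb_inv {a U H p : ZFSet.{0}} (ha : Bij a) (h : ∀ c, apc a (apc a c) = c)
    (hp : p ∈ PU U H) : acP a (acP a p) = p := by
  obtain ⟨-, hpe, hv, -, hqq⟩ := mem_PU.1 hp
  have h1 : ∀ c, apc (cmp a a) c = c := fun c => by rw [(Bij_cmp ha ha).2.2 c, h c]
  have h2 : acV a (acV a (fst p)) = fst p := by
    rw [acV_cmp ha ha hv]
    exact acV_id hv fun c _ => h1 c
  have h3 : acQ a (acQ a (snd p)) = snd p := by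
    rw [acQ_cmp ha ha hqq]
    exact acQ_id hqq fun c _ => h1 c
  have h4 : acP a (acP a p) = pair (acV a (acV a (fst p))) (acQ a (acQ a (snd p))) := by
    rw [acP, acP, fst_pair, snd_pair]
  rw [h4, h2, h3]
  exact hpe.symm

theorem two_copies (hG : Gr M K H) {n : ℕ} {U : ZFSet.{0}} (hU : UOK M H n U)
    {β k v W q T x m m₁ : ZFSet.{0}} (hm : m ∈ omega) (hm1 : m₁ ∈ omega) (hβM : β ∈ M) (hβS : HS (SU U H) β)
    (hβm : Supp (SU U H) m β)
    (hv : GV H U v W) (hq : QQ v q) (hx : RNm W (res U (vL v)) v x)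
    (hS : ∀ G', Gen M (SU U H) G' → pair v q ∈ G' →
      Stat (NN M (SU U H) G') n (val G' β) k (ev (Gq v G') T) (ev (Gq v G') x)
        (val G' (nmG U H m)) H)
    {D π : ZFSet.{0}} (hD : D = ZFSet.sep (fun c => fst c ∈ m₁ ∧ fst c ∉ m) (vS v))
    (hπ : π = swp D (vS v)) {G : Set ZFSet.{0}} (hg : Gen M (SU U H) G)
    (hVG : pair (unV v (acV π v)) (unQ q (acQ π q)) ∈ G) :
    Pr (NN M (SU U H) G) (n + 2) (ev (Gq v G) T) (ev (Gq (unV v (acV π v)) G) (acE π x)) := by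
  obtain ⟨hπH, hπW, hV, hVv, hVa, hVL, hQQ, hQ1, hQ2, hVS, hfr, hfix⟩ :=
    un_ok hG hU hm hm1 hv hq hD hπ
  have hS' := Sys_SU hG hU
  have hSM := (SU_M hG hU).1
  have hDm : ∀ c, c ∈ D ↔ c ∈ vS v ∧ fst c ∈ m₁ ∧ fst c ∉ m := fun c => by
    rw [hD, ZFSet.mem_sep]
  have hDS : D ⊆ vS v := fun c hc => ((hDm c).1 hc).1
  have hDC : ∀ c ∈ D, Co c := fun c hc => hv.vv.2.2.1 c ((hDm c).1 hc).1
  obtain ⟨hbij, hcol, -, -, -, hinv, hdom⟩ := swp_ok hDS hDC
  rw [← hπ] at hbij hcol hinv hdom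
  have hαm : aut U H π ∈ app (sH (SU U H)) m :=
    (mem_sH hm).2 ⟨π, hπH, hbij, hcol, fun c hc hcm => by
      obtain ⟨d, hd, he⟩ := hdom c hc
      exact absurd (he ▸ hcm) ((hDm d).1 hd).2.2, rfl⟩
  have hα : aut U H π ∈ sA (SU U H) := hS'.subH m hm hαm
  -- conditions
  have hVP : pair (unV v (acV π v)) (unQ q (acQ π q)) ∈ PU U H := by
    have := hg.sub _ hVG
    rwa [sP_SU] at this
  have hvP : pair v q ∈ PU U H := mk_PU hG hv.vv hv.vH hv.vL hq
  have hvG : pair v q ∈ G := by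
    refine hg.up _ hVG _ (by rw [sP_SU]; exact hvP) (Le_SU.2 ⟨hVP, hvP, ?_, ?_⟩)
    · rw [fst_pair, fst_pair]; exact hVv
    · rw [fst_pair, snd_pair, snd_pair]; exact hQ1
  have haP : acP π (pair v q) ∈ PU U H := acP_PU hG hU hπH hbij hvP
  have haG : acP π (pair v q) ∈ G := by
    refine hg.up _ hVG _ (by rw [sP_SU]; exact haP) (Le_SU.2 ⟨hVP, haP, ?_, ?_⟩)
    · rw [acP, fst_pair, fst_pair, fst_pair]; exact hVa
    · rw [acP, fst_pair, snd_pair, fst_pair, snd_pair, snd_pair]; exact hQ2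
  have hVeG : pair (unV v (acV π v)) eQ ∈ G := by
    have := Gq_eQ hG hU hg hVG
    rwa [fst_pair] at this
  -- the image of the generic set
  obtain ⟨G₁, hG₁⟩ : ∃ G₁, G₁ = gact (aut U H π) G := ⟨_, rfl⟩
  have hg₁ : Gen M (SU U H) G₁ := by
    rw [hG₁]; exact gen_act hG.tm hS' hSM hα hg
  have hmem : ∀ p ∈ PU U H, p ∈ G₁ ↔ acP π p ∈ G := by
    intro p hp
    rw [hG₁]
    constructor
    · rintro ⟨p', hp', rfl⟩
      have hp'' : p' ∈ PU U H := by
        have := hg.sub _ hp'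
        rwa [sP_SU] at this
      rw [app_aut hp'', ACb_inv hbij hinv hp'']
      exact hp'
    · intro h
      exact ⟨_, h, by rw [app_aut (acP_PU hG hU hπH hbij hp), ACb_inv hbij hinv hp]⟩
  have hvG₁ : pair v q ∈ G₁ := (hmem _ hvP).2 haG
  have hveG₁ : pair v eQ ∈ G₁ := by
    have := Gq_eQ hG hU hg₁ hvG₁
    rwa [fst_pair] at this
  have hN : NN M (SU U H) G₁ = NN M (SU U H) G := by
    rw [hG₁]; exact NN_act hG.tm hS' hSM hα hg
  have hβ : val G₁ β = val G β := by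
    have h1 := val_act hS' hα hg.sub hβS.isName
    rw [hβm.2 _ hαm] at h1
    rw [hG₁]; exact h1
  have hx1 : ∀ t ∈ x, t = pair (fst t) (snd t) ∧ QQ v (fst t) := fun t ht =>
    ⟨(hx.1.2.1 t ht).1, mem_QP.1 (hx.1.2.1 t ht).2.1⟩
  have hev : ev (Gq v G₁) x = ev (Gq (unV v (acV π v)) G) (acE π x) := by
    have key : ∀ q', QQ v q' → (pair v q' ∈ G₁ ↔
        pair (unV v (acV π v)) (acQ π q') ∈ G) := by
      intro q' hq'
      rw [hmem _ (mk_PU hG hv.vv hv.vH hv.vL hq'), acP, fst_pair, snd_pair]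
      exact Gq_mono hG hU hg (VV_acV hbij hv.vv).1
        (H_uf2 hG (F := fun a b => acV a b) (by infer_instance) hπH hv.vH) hVeG hVa
        (QQ_acQ hbij hv.vv hq')
    ext h
    rw [mem_ev, mem_ev]
    constructor
    · rintro ⟨q', h1, h2⟩
      have h3 := hx1 _ h2
      rw [fst_pair] at h3
      refine ⟨acQ π q', (key q' h3.2).1 h1, ?_⟩
      rw [acE, mem_img]
      exact ⟨_, h2, by rw [fst_pair, snd_pair]⟩
    · rintro ⟨q'', h1, h2⟩
      rw [acE, mem_img] at h2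
      obtain ⟨t, ht, he⟩ := h2
      obtain ⟨rfl, rfl⟩ := pair_injective he
      obtain ⟨h3, h4⟩ := hx1 t ht
      exact ⟨fst t, (key _ h4).2 h1, h3 ▸ ht⟩
  have s1 := hS G hg hvG
  have s2 := hS G₁ hg₁ hvG₁
  have hr := ev_real hG hU hg₁ hv hveG₁ hx
  rw [hN, hev] at hr
  have h5 := s2.2.1
  rw [hβ, hev] at h5
  exact (s1.1 _ hr.1 hr.2).1 h5

end H83.PN
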