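import Pool.Agent.H83.PN.GMono

set_option autoImplicit false

/-!
# Module GEx: generic sets exist

As in `AC/GenEx.lean`: enumerate the dense sets `D ∈ M` and build `p = p₀ ≥ p₁ ≥ ..` with `p_(n+1)` below
an element of `D_n` which is below `p_n`; `G` = all conditions weaker than some `p_n`.
-/

namespace H83.PN

open ZFSet H83.AC

private def GEx_Dense (S D : ZFSet.{0}) : Prop :=
  D ⊆ sP S ∧ ∀ p ∈ sP S, ∃ q ∈ D, Le S q p

theorem exists_gen {M : Set ZFSet.{0}} (hc : M.Countable) {S : ZFSet.{0}} (hS : Sys S)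
    {p : ZFSet.{0}} (hp : p ∈ sP S) : ∃ G, Gen M S G ∧ p ∈ G := by
  classical
  have hcD : ({D : ZFSet.{0} | D ∈ M ∧ GEx_Dense S D} ∪ {sP S}).Countable :=
    (hc.mono (fun D hD => hD.1)).union (Set.countable_singleton _)
  obtain ⟨e, he⟩ := hcD.exists_eq_range ⟨sP S, Or.inr rfl⟩
  have hed : ∀ n, GEx_Dense S (e n) := by
    intro n
    have h1 : e n ∈ {D : ZFSet.{0} | D ∈ M ∧ GEx_Dense S D} ∪ {sP S} := by
      rw [he]
      exact Set.mem_range_self n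
    rcases h1 with h1 | h1
    · exact h1.2
    · rw [Set.mem_singleton_iff] at h1
      rw [h1]
      exact ⟨fun _ hx => hx, fun q hq => ⟨q, hq, hS.refl q hq⟩⟩
  let f : ℕ → {q : ZFSet.{0} // q ∈ sP S} := fun n =>
    Nat.rec ⟨p, hp⟩ (fun k q => ⟨Classical.choose ((hed k).2 q.1 q.2),
      (hed k).1 (Classical.choose_spec ((hed k).2 q.1 q.2)).1⟩) n
  have hf0 : (f 0).1 = p := rfl
  have hfs : ∀ n, (f (n + 1)).1 ∈ e n ∧ Le S (f (n + 1)).1 (f n).1 := fun n =>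
    Classical.choose_spec ((hed n).2 (f n).1 (f n).2)
  have hmono : ∀ m n, m ≤ n → Le S (f n).1 (f m).1 := by
    intro m n hmn
    induction hmn with
    | refl => exact hS.refl _ (f m).2
    | step _ ih => exact hS.trans (hfs _).2 ih
  refine ⟨{q | q ∈ sP S ∧ ∃ n, Le S (f n).1 q}, ⟨fun q hq => hq.1, ?_, ?_, ?_⟩, hp, 0, ?_⟩
  · rintro q ⟨-, n, hn⟩ r hr hqr
    exact ⟨hr, n, hS.trans hn hqr⟩
  · rintro q ⟨-, n, hn⟩ r ⟨-, m, hm⟩
    exact ⟨(f (max n m)).1, ⟨(f (max n m)).2, max n m, hS.refl _ (f (max n m)).2⟩,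
      hS.trans (hmono n _ (le_max_left _ _)) hn, hS.trans (hmono m _ (le_max_right _ _)) hm⟩
  · intro D hD hDs hDd
    have h1 : D ∈ {D : ZFSet.{0} | D ∈ M ∧ GEx_Dense S D} ∪ {sP S} := Or.inl ⟨hD, hDs, hDd⟩
    rw [he] at h1
    obtain ⟨n, rfl⟩ := h1
    exact ⟨(f (n + 1)).1, (hfs n).1, (f (n + 1)).2, n + 1, hS.refl _ (f (n + 1)).2⟩
  · rw [hf0]
    exact hS.refl p hp

end H83.PN
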