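import Pool.Agent.H83.PN.ACb
import Pool.Agent.H83.PN.GEx

set_option autoImplicit false

/-!
# Module ACc: the complete sequence excludes the extensions

Let `r₁ = (res U (vL V), (V, Q))`, a good condition. `UOK.comp` for `j = n`, `r₁, T, z = acE π x` gives `γ`. Suppose `Dj H n (res U γ) r₁ T z`: there are `r', y` with `RLe r' r₁`,
`RNK H r' y`, `FF H n r' T (jnN y z)`, `rU r' = res U γ`; so `(rV r', rQ r') ∈ PU U H` is below `(V, Q)`. Take `G` generic containing it (`exists_gen`, `M` countable). `truth_FF` (`j = n`) for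
`v := rV r'` and the names `T, jnN y z` gives `Pr N (n+1) (T[G]) (jn (y[G]) (z[G]))`, and `y[G]` is a real number (`ev_real`), which contradicts `two_copies`. So `¬ Ext H n (res U γ) r₁ T z`.
-/

namespace H83.PN

open ZFSet H83.AC

variable {M : Set ZFSet.{0}} {K H : ZFSet.{0}}

private theorem ACc_res {U γ δ : ZFSet.{0}} (h : γ ⊆ δ) : res U γ ⊆ res U δ := by
  intro t ht
  obtain ⟨h1, h2⟩ := mem_sep.1 ht
  exact mem_sep.2 ⟨h1, h h2⟩

private theorem ACc_Gd (hG : Gr M K H) {n : ℕ} {U : ZFSet.{0}} (hU : UOK M H n U)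
    {v W q : ZFSet.{0}} (hv : GV H U v W) (hq : QQ v q) :
    Gd H (pair (res U (vL v)) (pair v q)) W :=
  Gd_of hG hU hv.vv hv.vL hv.nx hv.uW hv.vW hq

private theorem ACc_rU (u v q : ZFSet.{0}) : rU (pair u (pair v q)) = u := by
  rw [rU, fst_pair]

private theorem ACc_rV (u v q : ZFSet.{0}) : rV (pair u (pair v q)) = v := by
  rw [rV, snd_pair, fst_pair]

private theorem ACc_rQ (u v q : ZFSet.{0}) : rQ (pair u (pair v q)) = q := by
  rw [rQ, snd_pair, snd_pair]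

private theorem ACc_W (hG : Gr M K H) {n : ℕ} {U : ZFSet.{0}} (hU : UOK M H n U)
    {v v' W W' : ZFSet.{0}} (hv : GV H U v W) (hv' : GV H U v' W') (h : VLe v' v) :
    W ⊆ W' := by
  refine (Gd_W (ACc_Gd hG hU hv (QQ_empty v)) (ACc_Gd hG hU hv' (QQ_empty v')) ?_).1
  rw [ACc_rU, ACc_rU]
  exact ACc_res h.1

/-- no condition with sequence `res U γ` is good for the complete sequence -/
private theorem ACc_Dj (hG : Gr M K H) {n : ℕ} {U : ZFSet.{0}} (hU : UOK M H n U)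
    {V Q T z W : ZFSet.{0}} (hV : GV H U V W) (hQ : QQ V Q) (hT : SNm W V T) (hz : SNm W V z)
    (hP : ∀ G, Gen M (SU U H) G → pair V Q ∈ G →
      Pr (NN M (SU U H) G) (n + 2) (ev (Gq V G) T) (ev (Gq V G) z)) {γ : ZFSet.{0}}
    (hγ : γ ∈ dom U) : ¬ Dj H n (res U γ) (pair (res U (vL V)) (pair V Q)) T z := by
  rintro ⟨r', -, y, -, hu, hle, ⟨W', hW'H, hGd', hy⟩, hFF⟩
  obtain ⟨-, -, hr'e, -, hvv, hdom, hqq, hnx, huW', hvW'⟩ := hGd'
  obtain ⟨-, hle2, hle3⟩ := hle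
  rw [ACc_rV] at hle2 hle3
  rw [ACc_rQ, hu] at hle3
  have hLγ : vL (rV r') = γ := by
    rw [← hdom, hu]
    exact (hU.seg γ hγ).2.2
  have hru : rU r' = res U (vL (rV r')) := by rw [hLγ]; exact hu
  have hvH : rV r' ∈ H := H_tr hG hW'H hvW'
  have hgv : GV H U (rV r') W' := by
    refine ⟨hvv, hvH, ?_, hW'H, ?_, ?_, hvW'⟩
    · rw [hLγ]; exact hγ
    · rw [← hru]; exact hnx
    · rw [← hru]; exact huW'
  have hp : pair (rV r') (rQ r') ∈ PU U H := mk_PU hG hvv hvH hgv.vL hqq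
  have hVP : pair V Q ∈ PU U H := mk_PU hG hV.vv hV.vH hV.vL hQ
  obtain ⟨G, hg, hpG⟩ := exists_gen hG.ctbl (Sys_SU hG hU) (p := pair (rV r') (rQ r'))
    (by rw [sP_SU]; exact hp)
  have hVG : pair V Q ∈ G := by
    refine hg.up _ hpG _ (by rw [sP_SU]; exact hVP) (Le_SU.2 ⟨hp, hVP, ?_, ?_⟩)
    · rw [fst_pair, fst_pair]; exact hle2
    · rw [fst_pair, snd_pair, snd_pair]
      exact (QLe_res (by rw [← hLγ]; exact hle2.1) hQ).1 hle3
  have hVeG : pair V eQ ∈ G := by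
    have h := Gq_eQ hG hU hg hVG
    rwa [fst_pair] at h
  have hveG : pair (rV r') eQ ∈ G := by
    have h := Gq_eQ hG hU hg hpG
    rwa [fst_pair] at h
  have hWW : W ⊆ W' := ACc_W hG hU hV hgv hle2
  have hT' : SNm W' (rV r') T := SNm_mono hWW hle2 hT
  have hz' : SNm W' (rV r') z := SNm_mono hWW hle2 hz
  rw [hru] at hy
  have hjn : SNm W' (rV r') (jnN y z) := SNm_jnN hgv.nx.1 hy.1 hz'
  have hev : ∀ {e : ZFSet.{0}}, SNm W V e → ev (Gq (rV r') G) e = ev (Gq V G) e := by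
    intro e he
    exact ev_Gq hG hU hg hV.vv hV.vH hveG hle2 fun t ht =>
      ⟨mem_QP.1 (he.2.1 t ht).2.1, (he.2.1 t ht).1⟩
  have hFF' : FF H n (pair (res U (vL (rV r'))) (pair (rV r') (rQ r'))) T (jnN y z) := by
    rw [← hru, ← hr'e]
    exact hFF
  have h1 := (truth_FF hG hU hg le_rfl hgv hveG hT' hjn).2
    ⟨rV r', rQ r', W', hpG, VLe_refl _, hgv, hFF'⟩
  rw [ev_jnN _ hy.1 hz', hev hT, hev hz] at h1
  exact hP G hg hVG _ (ev_real hG hU hg hgv hveG hy) h1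

theorem no_ext (hG : Gr M K H) {n : ℕ} {U : ZFSet.{0}} (hU : UOK M H n U)
    {V Q T z W : ZFSet.{0}} (hV : GV H U V W) (hQ : QQ V Q) (hT : SNm W V T) (hz : SNm W V z)
    (hP : ∀ G, Gen M (SU U H) G → pair V Q ∈ G →
      Pr (NN M (SU U H) G) (n + 2) (ev (Gq V G) T) (ev (Gq V G) z)) :
    ∃ γ ∈ dom U, ¬ Ext H n (res U γ) (pair (res U (vL V)) (pair V Q)) T z := by
  have hr : pair (res U (vL V)) (pair V Q) ∈ H := (ACc_Gd hG hU hV hQ).1
  obtain ⟨γ, hγ, h | h⟩ := hU.comp n le_rfl _ hr T (H_tr hG hV.WH hT.1) z (H_tr hG hV.WH hz.1)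
  · exact absurd h (ACc_Dj hG hU hV hQ hT hz hP hγ)
  · exact ⟨γ, hγ, h⟩

end H83.PN
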