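import Pool.Agent.H83.PN.DefsC

set_option autoImplicit false

/-!
# Module ACd: new coordinates in the first column

`E ⊆ vS V`, `ε = exz E (vS V)` exchanges `c ∈ E` and `pair ∅ (pair c (vS V))` (not in `vS V`, by rank). `exz_ok` as `swp_ok`. Let `V'` be a good extension of `V` with the same
coordinates, `ε ∈ W₁` (`exists_good`, `x = pair ε γ`), `v₁ = adV ε V'`. `v₁` has the coordinates `vS V ∪ ε(vS V)`, the same length, the values of `V'` on `vS V` and the value of `V'` at `(ε c, δ)` for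
the new coordinates `c`; it is invariant under `ε`. `VLe v₁ V'` (same length), so `VLe v₁ V`. `q₁ = unQ Q (acQ ε Q)`: the common coordinates of `Q` and `acQ ε Q` are in `vS V \ E`,
where `ε` is the identity; `QLe_join`. `acQ ε q₁ = q₁` (`ε` is an involution).
-/

namespace H83.PN

open ZFSet H83.AC

variable {M : Set ZFSet.{0}} {K H : ZFSet.{0}}

private theorem ACd_in {a c : ZFSet.{0}} (h : c ∈ dom a) : apc a c = app a c := by
  unfold apc
  rw [if_pos h]

private theorem ACd_out {a c : ZFSet.{0}} (h : c ∉ dom a) : apc a c = c := by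
  unfold apc
  rw [if_neg h]

private theorem ACd_fresh (S c : ZFSet.{0}) : pair ∅ (pair c S) ∉ S := by
  intro h
  have h0 : ∀ x y : ZFSet.{0}, rank y < rank (pair x y) := by
    intro x y
    have e1 : y ∈ ({x, y} : ZFSet) := by simp
    have e2 : ({x, y} : ZFSet) ∈ pair x y := by
      rw [pair]; simp
    exact (rank_lt_of_mem e1).trans (rank_lt_of_mem e2)
  have h1 := rank_lt_of_mem h
  exact absurd (((h0 c S).trans (h0 ∅ _)).trans h1) (lt_irrefl _)

private theorem ACd_om : (∅ : ZFSet.{0}) ∈ omega := omega_zero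

theorem exz_ok {E S : ZFSet.{0}} (hE : E ⊆ S) (hc : ∀ c ∈ E, Co c) : Bij (exz E S) ∧
    (∀ c ∈ E, apc (exz E S) c = pair ∅ (pair c S) ∧ pair ∅ (pair c S) ∉ S) ∧
    (∀ c ∈ S, c ∉ E → apc (exz E S) c = c) ∧
    (∀ c, apc (exz E S) (apc (exz E S) c) = c) ∧
    (∀ c, c ∈ dom (exz E S) ↔ c ∈ E ∨ ∃ d ∈ E, c = pair ∅ (pair d S)) := by
  have hfr : ∀ c, pair ∅ (pair c S) ∉ E := fun c h => ACd_fresh S c (hE h)
  have hd : dom (exz E S) = E ∪ img (fun c => pair ∅ (pair c S)) E := by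
    unfold exz
    exact dom_fgr
  have hE1 : ∀ c ∈ E, c ∈ E ∪ img (fun c => pair ∅ (pair c S)) E := fun c h =>
    ZFSet.mem_union.2 (Or.inl h)
  have hE2 : ∀ c ∈ E, pair ∅ (pair c S) ∈ E ∪ img (fun c => pair ∅ (pair c S)) E := fun c h =>
    ZFSet.mem_union.2 (Or.inr (mem_img.2 ⟨c, h, rfl⟩))
  have hE3 : ∀ c ∈ E ∪ img (fun c => pair ∅ (pair c S)) E, c ∈ E ∨
      ∃ d ∈ E, c = pair ∅ (pair d S) := by
    intro c h
    rcases ZFSet.mem_union.1 h with h | h
    · exact Or.inl h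
    · obtain ⟨d, hd, e⟩ := mem_img.1 h
      exact Or.inr ⟨d, hd, e.symm⟩
  have h1 : ∀ c ∈ E, app (exz E S) c = pair ∅ (pair c S) := by
    intro c h
    unfold exz
    rw [app_fgr (hE1 c h), if_pos h]
  have h2 : ∀ c ∈ E, app (exz E S) (pair ∅ (pair c S)) = c := by
    intro c h
    unfold exz
    rw [app_fgr (hE2 c h), if_neg (hfr c)]
    rw [snd_pair, fst_pair]
  have h3 : ∀ c ∈ dom (exz E S), app (exz E S) c ∈ dom (exz E S) ∧
      app (exz E S) (app (exz E S) c) = c := by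
    rw [hd]
    intro c h
    rcases hE3 c h with h | ⟨d, hq, rfl⟩
    · rw [h1 c h, h2 c h]
      exact ⟨hE2 c h, rfl⟩
    · rw [h2 d hq, h1 d hq]
      exact ⟨hE1 d hq, rfl⟩
  have hB : Bij (exz E S) := by
    refine ⟨?_, ?_, fun c h => (h3 c h).1, ?_, fun c h => ⟨_, (h3 c h).1, (h3 c h).2⟩⟩
    · rw [hd]
      conv_lhs => unfold exz
      refine fgr_congr fun c h => ?_
      unfold exz
      rw [app_fgr h]
    · rw [hd]
      intro c h
      rcases hE3 c h with h | ⟨d, hq, rfl⟩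
      · exact hc c h
      · refine ⟨?_, ?_⟩
        · rw [fst_pair, snd_pair]
        · rw [fst_pair]
          exact ACd_om
    · intro c h c' h' e
      rw [← (h3 c h).2, ← (h3 c' h').2, e]
  refine ⟨hB, ?_, ?_, ?_, ?_⟩
  · intro c h
    refine ⟨?_, ACd_fresh S c⟩
    rw [ACd_in (a := exz E S) (by rw [hd]; exact hE1 c h), h1 c h]
  · intro c h h'
    refine ACd_out ?_
    rw [hd]
    intro h4
    rcases hE3 c h4 with h5 | ⟨d, _, rfl⟩
    · exact h' h5
    · exact ACd_fresh S d h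
  · intro c
    by_cases h : c ∈ dom (exz E S)
    · rw [ACd_in h, ACd_in (h3 c h).1, (h3 c h).2]
    · rw [ACd_out h, ACd_out h]
  · intro c
    rw [hd]
    constructor
    · exact hE3 c
    · rintro (h | ⟨d, h, rfl⟩)
      · exact hE1 c h
      · exact hE2 d h

/-! ### The extension `adV` -/

private theorem ACd_vL (ε v : ZFSet.{0}) : vL (adV ε v) = vL v := by
  unfold adV
  rw [vL, fst_pair]

private theorem ACd_vS (ε v : ZFSet.{0}) :
    vS (adV ε v) = vS v ∪ img (fun c => apc ε c) (vS v) := by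
  unfold adV
  rw [vS, snd_pair, fst_pair]

private theorem ACd_memS {ε v c : ZFSet.{0}} :
    c ∈ vS (adV ε v) ↔ c ∈ vS v ∨ ∃ d ∈ vS v, c = apc ε d := by
  rw [ACd_vS, ZFSet.mem_union, mem_img]
  constructor
  · rintro (h | ⟨d, h, e⟩)
    · exact Or.inl h
    · exact Or.inr ⟨d, h, e.symm⟩
  · rintro (h | ⟨d, h, e⟩)
    · exact Or.inl h
    · exact Or.inr ⟨d, h, e.symm⟩

open Classical in
private theorem ACd_vf (ε v : ZFSet.{0}) : vf (adV ε v) =
    fgr (fun s => if fst s ∈ vS v then app (vf v) s else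
      app (vf v) (pair (apc ε (fst s)) (snd s))) (ZFSet.prod (vS (adV ε v)) (vL v)) := by
  rw [ACd_vS]
  unfold adV
  rw [vf, snd_pair, snd_pair]

open Classical in
private theorem ACd_app {ε v s : ZFSet.{0}} (hs : s ∈ ZFSet.prod (vS (adV ε v)) (vL v)) :
    app (vf (adV ε v)) s = if fst s ∈ vS v then app (vf v) s else
      app (vf v) (pair (apc ε (fst s)) (snd s)) := by
  conv_lhs => rw [ACd_vf]
  rw [app_fgr hs]

private theorem ACd_appO {ε v c γ : ZFSet.{0}} (hc : c ∈ vS v) (hg : γ ∈ vL v) :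
    app (vf (adV ε v)) (pair c γ) = app (vf v) (pair c γ) := by
  rw [ACd_app (ZFSet.mem_prod.2 ⟨c, ACd_memS.2 (Or.inl hc), γ, hg, rfl⟩), fst_pair, if_pos hc]

private theorem ACd_appN {ε v c γ : ZFSet.{0}} (hc : c ∈ vS (adV ε v)) (hc' : c ∉ vS v)
    (hg : γ ∈ vL v) :
    app (vf (adV ε v)) (pair c γ) = app (vf v) (pair (apc ε c) γ) := by
  rw [ACd_app (ZFSet.mem_prod.2 ⟨c, hc, γ, hg, rfl⟩), fst_pair, snd_pair, if_neg hc']

private theorem ACd_VV {ε v : ZFSet.{0}} (hb : Bij ε) (hi : ∀ c, apc ε (apc ε c) = c)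
    (hv : VV v) : VV (adV ε v) := by
  refine ⟨?_, ?_, ?_, ?_, ?_⟩
  · rw [ACd_vL, ACd_vS]
    have : vf (adV ε v) = snd (snd (adV ε v)) := rfl
    rw [this]
    unfold adV
    rw [snd_pair, snd_pair]
  · rw [ACd_vL]
    exact hv.2.1
  · intro c hc
    rcases ACd_memS.1 hc with h | ⟨d, h, rfl⟩
    · exact hv.2.2.1 c h
    · exact (apc_Co hb).2 (hv.2.2.1 d h)
  · rw [ACd_vL]
    conv_lhs => rw [ACd_vf]
    refine fgr_congr fun s hs => ?_
    rw [ACd_app hs]
  · rw [ACd_vL]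
    intro s hs
    obtain ⟨c, hc, γ, hg, rfl⟩ := ZFSet.mem_prod.1 hs
    by_cases h : c ∈ vS v
    · rw [ACd_appO h hg]
      exact hv.2.2.2.2 _ (ZFSet.mem_prod.2 ⟨c, h, γ, hg, rfl⟩)
    · rw [ACd_appN hc h hg]
      rcases ACd_memS.1 hc with h' | ⟨d, h', rfl⟩
      · exact absurd h' h
      · rw [hi d]
        exact hv.2.2.2.2 _ (ZFSet.mem_prod.2 ⟨d, h', γ, hg, rfl⟩)

private theorem ACd_VLe {ε v : ZFSet.{0}} : VLe (adV ε v) v := by
  refine ⟨?_, ?_, ?_, ?_, ?_⟩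
  · rw [ACd_vL]
  · intro c hc
    exact ACd_memS.2 (Or.inl hc)
  · intro s hs
    obtain ⟨c, hc, γ, hg, rfl⟩ := ZFSet.mem_prod.1 hs
    exact ACd_appO hc hg
  · intro c _ γ hg hg'
    rw [ACd_vL] at hg
    exact absurd hg hg'
  · intro c _ c' _ _ γ hg hg'
    rw [ACd_vL] at hg
    exact absurd hg hg'

private theorem ACd_map {ε v c : ZFSet.{0}} (hi : ∀ c, apc ε (apc ε c) = c)
    (hc : c ∈ vS (adV ε v)) : apc ε c ∈ vS (adV ε v) := by
  rcases ACd_memS.1 hc with h | ⟨d, h, rfl⟩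
  · exact ACd_memS.2 (Or.inr ⟨c, h, rfl⟩)
  · rw [hi d]
    exact ACd_memS.2 (Or.inl h)

private theorem ACd_val {ε v c γ : ZFSet.{0}} (hi : ∀ c, apc ε (apc ε c) = c)
    (hs : ∀ c ∈ vS v, apc ε c ∈ vS v → apc ε c = c)
    (hc : c ∈ vS (adV ε v)) (hg : γ ∈ vL (adV ε v)) :
    app (vf (adV ε v)) (pair (apc ε c) γ) = app (vf (adV ε v)) (pair c γ) := by
  rw [ACd_vL] at hg
  have hc' := ACd_map hi hc
  by_cases h : c ∈ vS v
  · by_cases h' : apc ε c ∈ vS v
    · rw [hs c h h']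
    · rw [ACd_appN hc' h' hg, hi c, ACd_appO h hg]
  · rw [ACd_appN hc h hg]
    rcases ACd_memS.1 hc with h1 | ⟨d, h1, rfl⟩
    · exact absurd h1 h
    · rw [hi d, ACd_appO h1 hg]

private theorem ACd_img_inv {F : ZFSet.{0} → ZFSet.{0}} {s : ZFSet.{0}}
    (h1 : ∀ x ∈ s, F x ∈ s) (h2 : ∀ x ∈ s, F (F x) = x) : img F s = s := by
  ext x
  rw [mem_img]
  constructor
  · rintro ⟨y, hy, rfl⟩
    exact h1 y hy
  · intro hx
    exact ⟨F x, h1 x hx, h2 x hx⟩

private theorem ACd_memf {v t : ZFSet.{0}} (hv : VV v) : t ∈ vf v ↔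
    ∃ c ∈ vS v, ∃ γ ∈ vL v, t = pair (pair c γ) (app (vf v) (pair c γ)) := by
  have h : t ∈ vf v ↔ t ∈ fgr (fun s => app (vf v) s) (ZFSet.prod (vS v) (vL v)) := by
    rw [← hv.2.2.2.1]
  rw [h, mem_fgr]
  constructor
  · rintro ⟨s, hs, rfl⟩
    obtain ⟨c, hc, γ, hg, rfl⟩ := ZFSet.mem_prod.1 hs
    exact ⟨c, hc, γ, hg, rfl⟩
  · rintro ⟨c, hc, γ, hg, rfl⟩
    exact ⟨pair c γ, ZFSet.mem_prod.2 ⟨c, hc, γ, hg, rfl⟩, rfl⟩

/-- a first part which is invariant -/
private theorem ACd_acV {ε v : ZFSet.{0}} (hv : VV v) (hi : ∀ c, apc ε (apc ε c) = c)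
    (hm : ∀ c ∈ vS v, apc ε c ∈ vS v)
    (hval : ∀ c ∈ vS v, ∀ γ ∈ vL v, app (vf v) (pair (apc ε c) γ) = app (vf v) (pair c γ)) :
    acV ε v = v := by
  have h1 : img (fun c => apc ε c) (vS v) = vS v := ACd_img_inv hm fun c _ => hi c
  have h2 : img (fun t => rn3 ε t) (vf v) = vf v := by
    refine ACd_img_inv (fun t ht => ?_) fun t ht => ?_
    · obtain ⟨c, hc, γ, hg, rfl⟩ := (ACd_memf hv).1 ht
      refine (ACd_memf hv).2 ⟨apc ε c, hm c hc, γ, hg, ?_⟩
      unfold rn3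
      simp only [fst_pair, snd_pair]
      rw [hval c hc γ hg]
    · obtain ⟨c, hc, γ, hg, rfl⟩ := (ACd_memf hv).1 ht
      unfold rn3
      simp only [fst_pair, snd_pair]
      rw [hi c]
  unfold acV
  rw [h1, h2]
  exact hv.1.symm

/-- the union of a second part and its image -/
private theorem ACd_acQ {ε v q : ZFSet.{0}} (hq : QQ v q) (hi : ∀ c, apc ε (apc ε c) = c) :
    acQ ε (unQ q (acQ ε q)) = unQ q (acQ ε q) := by
  have e1 := (QQ_elt hq).1
  have e2 := (QQ_elt hq).2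
  have a1 : fst (unQ q (acQ ε q)) = fst q ∪ img (fun t => rn3 ε t) (fst q) := by
    unfold unQ acQ
    simp only [fst_pair]
  have a2 : snd (unQ q (acQ ε q)) = snd q ∪ img (fun t => rn2 ε t) (snd q) := by
    unfold unQ acQ
    simp only [snd_pair]
  have r3 : ∀ t ∈ fst q, rn3 ε (rn3 ε t) = t := by
    intro t ht
    conv_rhs => rw [(e1 t ht).1]
    unfold rn3
    simp only [fst_pair, snd_pair]
    rw [hi]
  have r2 : ∀ t ∈ snd q, rn2 ε (rn2 ε t) = t := by
    intro t ht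
    conv_rhs => rw [(e2 t ht).1]
    unfold rn2
    simp only [fst_pair, snd_pair]
    rw [hi]
  have h1 : img (fun t => rn3 ε t) (fst (unQ q (acQ ε q))) = fst (unQ q (acQ ε q)) := by
    rw [a1]
    refine ACd_img_inv (fun t ht => ?_) fun t ht => ?_
    · rcases ZFSet.mem_union.1 ht with h | h
      · exact ZFSet.mem_union.2 (Or.inr (mem_img.2 ⟨t, h, rfl⟩))
      · obtain ⟨s, hs, rfl⟩ := mem_img.1 h
        refine ZFSet.mem_union.2 (Or.inl ?_)
        rw [r3 s hs]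
        exact hs
    · rcases ZFSet.mem_union.1 ht with h | h
      · exact r3 t h
      · obtain ⟨s, hs, rfl⟩ := mem_img.1 h
        rw [r3 s hs]
  have h2 : img (fun t => rn2 ε t) (snd (unQ q (acQ ε q))) = snd (unQ q (acQ ε q)) := by
    rw [a2]
    refine ACd_img_inv (fun t ht => ?_) fun t ht => ?_
    · rcases ZFSet.mem_union.1 ht with h | h
      · exact ZFSet.mem_union.2 (Or.inr (mem_img.2 ⟨t, h, rfl⟩))
      · obtain ⟨s, hs, rfl⟩ := mem_img.1 h
        refine ZFSet.mem_union.2 (Or.inl ?_)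
        rw [r2 s hs]
        exact hs
    · rcases ZFSet.mem_union.1 ht with h | h
      · exact r2 t h
      · obtain ⟨s, hs, rfl⟩ := mem_img.1 h
        rw [r2 s hs]
  have h3 : acQ ε (unQ q (acQ ε q)) = pair (img (fun t => rn3 ε t) (fst (unQ q (acQ ε q))))
      (img (fun s => rn2 ε s) (snd (unQ q (acQ ε q)))) := rfl
  rw [h3, h1, h2]
  unfold unQ
  simp only [fst_pair, snd_pair]

theorem new_coord (hG : Gr M K H) {n : ℕ} {U : ZFSet.{0}} (hU : UOK M H n U)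
    {V Q W E ε γ : ZFSet.{0}} (hV : GV H U V W) (hQ : QQ V Q) (hE : E ⊆ vS V) (hEH : E ∈ H)
    (hε : ε = exz E (vS V)) (hg : γ ∈ dom U) :
    ∃ v₁ W₁ q₁, GV H U v₁ W₁ ∧ ε ∈ W₁ ∧ VLe v₁ V ∧ γ ∈ vL v₁ ∧ QQ v₁ q₁ ∧
      QLe U V q₁ Q ∧ (∀ t ∈ fst q₁, fst (fst t) ∈ vS V → t ∈ fst Q) ∧
      (∀ c, c ∈ vS v₁ ↔ c ∈ vS V ∨ ∃ d ∈ E, c = apc ε d) ∧
      (∀ c ∈ vS v₁, apc ε c ∈ vS v₁) ∧
      (∀ c ∈ vS v₁, ∀ δ ∈ vL v₁,
        app (vf v₁) (pair (apc ε c) δ) = app (vf v₁) (pair c δ)) ∧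
      acV ε v₁ = v₁ ∧ acQ ε q₁ = q₁ := by
  obtain ⟨hb, hz1, hz2, hi, hz3⟩ := exz_ok hE fun c hc => hV.vv.2.2.1 c (hE hc)
  rw [← hε] at hb hz1 hz2 hi hz3
  have hSH : vS V ∈ H := H_uf1 hG (F := fun x => vS x) (by infer_instance) hV.vH
  have hεH : ε ∈ H := by
    rw [hε]
    exact H_uf2 hG (F := fun x y => exz x y) (by infer_instance) hEH hSH
  have hγH : γ ∈ H := by
    have h1 := (hU.seg γ hg).2
    rw [← h1.2]
    exact H_uf1 hG (F := fun x => dom x) (by infer_instance) h1.1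
  obtain ⟨v, hvH, W₁, hWH, hvv, hvV, hvS, hvL, hnx, huW, hvW, hxW, hrk⟩ :=
    exists_good hG hU hV.vv hV.vH (H_pair hG hεH hγH)
  have hWd : Wd W₁ := hnx.1
  have hεW : ε ∈ W₁ := by
    have h1 : ({ε, γ} : ZFSet) ∈ W₁ := Wd_tr hWd hxW (by rw [pair]; simp)
    exact Wd_tr hWd h1 (by simp)
  have hsep : ∀ c ∈ vS v, apc ε c ∈ vS v → apc ε c = c := by
    rw [hvS]
    intro c hc hc'
    by_cases h : c ∈ E
    · rw [(hz1 c h).1] at hc'
      exact absurd hc' (hz1 c h).2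
    · exact hz2 c hc h
  have hVV1 : VV (adV ε v) := ACd_VV hb hi hvv
  have hVW1 : adV ε v ∈ W₁ := by
    have h2 : UF (fun _ w => adV (w 0) (w 1)) := by infer_instance
    exact Wd_uf h2 hWd (v := fun i => if i = 0 then ε else v) (by
      intro i
      by_cases h : i = 0
      · simp only [h, if_true]
        exact hεW
      · simp only [h, if_false]
        exact hvW)
  have hle : VLe (adV ε v) V := VLe_trans ACd_VLe hvV
  have hmap : ∀ c ∈ vS (adV ε v), apc ε c ∈ vS (adV ε v) := fun c hc => ACd_map hi hc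
  have hval : ∀ c ∈ vS (adV ε v), ∀ δ ∈ vL (adV ε v),
      app (vf (adV ε v)) (pair (apc ε c) δ) = app (vf (adV ε v)) (pair c δ) :=
    fun c hc δ hδ => ACd_val hi hsep hc hδ
  have haV : acV ε (adV ε v) = adV ε v := ACd_acV hVV1 hi hmap hval
  have hγ1 : γ ∈ vL (adV ε v) := by
    rw [ACd_vL, ← hvv.2.1, mem_rk]
    have h1 : rk γ = γ := by
      have h2 : γ ∈ rk H := by
        rw [← hU.dom]
        exact hg
      exact rk_of_mem_rk h2
    have h3 : rank (pair ε γ) < rank (vL v) := by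
      rw [← rk_mem_rk, hvv.2.1]
      exact hrk
    have h4 : rank γ < rank (pair ε γ) := by
      have e1 : γ ∈ ({ε, γ} : ZFSet) := by simp
      have e2 : ({ε, γ} : ZFSet) ∈ pair ε γ := by
        rw [pair]; simp
      exact (rank_lt_of_mem e1).trans (rank_lt_of_mem e2)
    exact ⟨rank γ, h4.trans h3, h1.symm⟩
  have hQ1 : QQ (adV ε v) Q := QQ_mono hle hQ
  have hQ2 : QQ (adV ε v) (acQ ε Q) := by
    have h1 := QQ_acQ hb hVV1 hQ1
    rw [haV] at h1
    exact h1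
  have m1 : ∀ t ∈ fst (acQ ε Q), fst (fst t) ∈ vS V → t ∈ fst Q := by
    intro t ht hc
    have h1 : fst (acQ ε Q) = img (fun t => rn3 ε t) (fst Q) := by
      unfold acQ
      rw [fst_pair]
    rw [h1] at ht
    obtain ⟨s, hs, rfl⟩ := mem_img.1 ht
    have h2 := (QQ_elt hQ).1 s hs
    have h3 : fst (fst (rn3 ε s)) = apc ε (fst (fst s)) := by
      unfold rn3
      simp only [fst_pair]
    change fst (fst (rn3 ε s)) ∈ vS V at hc
    rw [h3] at hc
    have h4 : apc ε (fst (fst s)) = fst (fst s) := by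
      have h5 := hsep (fst (fst s))
      rw [hvS] at h5
      exact h5 h2.2.1 hc
    have h6 : rn3 ε s = s := by
      conv_rhs => rw [h2.1]
      unfold rn3
      rw [h4]
    change rn3 ε s ∈ fst Q
    rw [h6]
    exact hs
  have hq : QQ (adV ε v) (unQ Q (acQ ε Q)) := by
    refine ⟨?_, ?_, ?_⟩
    · unfold unQ
      simp only [fst_pair, snd_pair]
    · have h1 : fst (unQ Q (acQ ε Q)) = fst Q ∪ fst (acQ ε Q) := by
        unfold unQ
        rw [fst_pair]
      rw [h1]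
      refine Cn_union hQ1.2.1 hQ2.2.1 fun t ht t' ht' e => ?_
      have h2 := (QQ_elt hQ).1 t ht
      have h3 : fst (fst t') ∈ vS V := by
        rw [← e]
        exact h2.2.1
      exact (mem_Cn.1 hQ.2.1).2.2.2 t ht t' (m1 t' ht' h3) e
    · have h1 : snd (unQ Q (acQ ε Q)) = snd Q ∪ snd (acQ ε Q) := by
        unfold unQ
        rw [snd_pair]
      rw [h1]
      have a1 := mem_Fs.1 hQ1.2.2
      have a2 := mem_Fs.1 hQ2.2.2
      refine mem_Fs.2 ⟨fun s hs => ?_, Fnt_union a1.2 a2.2⟩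
      rcases ZFSet.mem_union.1 hs with h | h
      · exact a1.1 h
      · exact a2.1 h
  have hnew : ∀ t ∈ fst (unQ Q (acQ ε Q)), fst (fst t) ∈ vS V → t ∈ fst Q := by
    intro t ht hc
    have h1 : fst (unQ Q (acQ ε Q)) = fst Q ∪ fst (acQ ε Q) := by
      unfold unQ
      rw [fst_pair]
    rw [h1] at ht
    rcases ZFSet.mem_union.1 ht with h | h
    · exact h
    · exact m1 t h hc
  refine ⟨adV ε v, W₁, unQ Q (acQ ε Q), ?_, hεW, hle, hγ1, hq, ?_, hnew, ?_, hmap, hval, haV,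
    ACd_acQ hQ hi⟩
  · exact {
      vv := hVV1
      vH := H_tr hG hWH hVW1
      vL := by rw [ACd_vL]; exact hvL
      WH := hWH
      nx := by rw [ACd_vL]; exact hnx
      uW := by rw [ACd_vL]; exact huW
      vW := hVW1 }
  · refine ⟨?_, ?_, ?_⟩
    · intro t ht
      unfold unQ
      rw [fst_pair]
      exact ZFSet.mem_union.2 (Or.inl ht)
    · intro t ht
      unfold unQ
      rw [snd_pair]
      exact ZFSet.mem_union.2 (Or.inl ht)
    · intro t ht ht' s hs e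
      refine absurd (hnew t ht ?_) ht'
      rw [← e]
      exact ((QQ_elt hQ).2 s hs).2.1
  · intro c
    rw [ACd_memS, hvS]
    constructor
    · rintro (h | ⟨d, h, rfl⟩)
      · exact Or.inl h
      · by_cases h' : d ∈ E
        · exact Or.inr ⟨d, h', rfl⟩
        · rw [hz2 d h h']
          exact Or.inl h
    · rintro (h | ⟨d, h, rfl⟩)
      · exact Or.inl h
      · exact Or.inr ⟨d, hE h, rfl⟩

end H83.PN
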