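import Pool.Agent.H83.PN.ACa
import Pool.Agent.H83.PN.ACb
import Pool.Agent.H83.PN.GEx

set_option autoImplicit false

/-!
# Module ACe: the copied name is not in the set

`r₁ = (res U (vL v₁), (v₁, q₁))`, `x' = acE ε z`. `RNm` for `z` at `V` (hypothesis), so at `v₁` (`RNm_mono`), and `acQ ε` is an automorphism of `P(res U (vL v₁), v₁)` (`QLe_acQ` with `acV ε v₁ = v₁`,
and the inverse), so `x'` is `RNm` at `v₁`. Let `G` be generic with `(v₁, q₁) ∈ G` (`exists_gen`). Then `(v, q) ∈ G` (weaker). `Stat` holds. `x'` is a name over the columns `m` (hypothesis `hxm`), so by `evS_eq` and the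
third clause of `Stat` `x'[G] = ev (Gq v₁ G) x' ∉ app (val G β) k`; it is a real number (`ev_real`), so `¬ Pr N (n+2) T[G] x'[G]` by the first clause: there is a real number `y ∈ N` with
`Pr N (n+1) T[G] (jn y x'[G])`. `name_real` for `y`; a common good extension `(v₂, q₂) ∈ G` of everything (`Gen.dir`, `good_dense`), `truth_FF` for `j = n`, `v₂` gives `(w, q₃) ∈ G` with `FF H n .. T (jnN ey x')`; take a
common good extension of `(w, q₃)` and `(v₂, q₂)` (`FF_mono`, `RNK_mono`).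
-/

namespace H83.PN

open ZFSet H83.AC

variable {M : Set ZFSet.{0}} {K H : ZFSet.{0}}

private theorem ACe_res {U γ δ : ZFSet.{0}} (h : γ ⊆ δ) : res U γ ⊆ res U δ := by
  intro t ht
  obtain ⟨h1, h2⟩ := mem_sep.1 ht
  exact mem_sep.2 ⟨h1, h h2⟩

private theorem ACe_Gd (hG : Gr M K H) {n : ℕ} {U : ZFSet.{0}} (hU : UOK M H n U)
    {v W q : ZFSet.{0}} (hv : GV H U v W) (hq : QQ v q) :
    Gd H (pair (res U (vL v)) (pair v q)) W :=
  Gd_of hG hU hv.vv hv.vL hv.nx hv.uW hv.vW hq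

private theorem ACe_rU (u v q : ZFSet.{0}) : rU (pair u (pair v q)) = u := by
  rw [rU, fst_pair]

private theorem ACe_rV (u v q : ZFSet.{0}) : rV (pair u (pair v q)) = v := by
  rw [rV, snd_pair, fst_pair]

private theorem ACe_rQ (u v q : ZFSet.{0}) : rQ (pair u (pair v q)) = q := by
  rw [rQ, snd_pair, snd_pair]

private theorem ACe_RNm (hG : Gr M K H) {n : ℕ} {U : ZFSet.{0}} (hU : UOK M H n U)
    {v v' W W' e : ZFSet.{0}} (hv : GV H U v W) (hv' : GV H U v' W') (h : VLe v' v)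
    (he : RNm W (res U (vL v)) v e) : RNm W' (res U (vL v')) v' e := by
  have h1 := RNm_mono (ACe_Gd hG hU hv (QQ_empty v)) (ACe_Gd hG hU hv' (QQ_empty v')) ?_
    (e := e) ?_
  · rwa [ACe_rU, ACe_rV] at h1
  · refine ⟨?_, ?_, ?_⟩
    · rw [ACe_rU, ACe_rU]; exact ACe_res h.1
    · rw [ACe_rV, ACe_rV]; exact h
    · rw [ACe_rQ, ACe_rQ]; exact QLe_refl _ _ _
  · rw [ACe_rU, ACe_rV]; exact he

private theorem ACe_W (hG : Gr M K H) {n : ℕ} {U : ZFSet.{0}} (hU : UOK M H n U)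
    {v v' W W' : ZFSet.{0}} (hv : GV H U v W) (hv' : GV H U v' W') (h : VLe v' v) :
    W ⊆ W' := by
  refine (Gd_W (ACe_Gd hG hU hv (QQ_empty v)) (ACe_Gd hG hU hv' (QQ_empty v')) ?_).1
  rw [ACe_rU, ACe_rU]
  exact ACe_res h.1

private theorem ACe_inv {ε v q : ZFSet.{0}} (hε : Bij ε) (hinv : ∀ c, apc ε (apc ε c) = c)
    (hq : QQ v q) : acQ ε (acQ ε q) = q := by
  rw [acQ_cmp hε hε hq]
  refine acQ_id hq fun c _ => ?_
  rw [(Bij_cmp hε hε).2.2 c, hinv c]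

/-- the copied name is a name of a real number -/
private theorem ACe_copy {u v W ε z m : ZFSet.{0}} (hW : Wd W) (hv : VV v)
    (hm : m ∈ omega) (hε : Bij ε) (hεW : ε ∈ W) (hinv : ∀ c, apc ε (apc ε c) = c)
    (hsv : acV ε v = v) (hz : RNm W u v z)
    (hxm : ∀ t ∈ acE ε z, ∀ c ∈ csup (fst t), fst c ∈ m) : RNm W u v (acE ε z) := by
  obtain ⟨⟨hzW, hz1, -⟩, hz2, hz3, hz4⟩ := hz
  have hQ : ∀ q, QQ v q → QQ v (acQ ε q) := by
    intro q hq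
    have h := QQ_acQ hε hv hq
    rwa [hsv] at h
  have hL : ∀ q q', QQ v q → QLe u v q' q → QLe u v (acQ ε q') (acQ ε q) := by
    intro q q' hq h
    have h1 := QLe_acQ (u := u) hε hv hq h
    rwa [hsv] at h1
  have hmem : ∀ t ∈ acE ε z, ∃ s ∈ z, t = pair (acQ ε (fst s)) (snd s) := by
    intro t ht
    obtain ⟨s, hs, h⟩ := mem_img.1 ht
    exact ⟨s, hs, h.symm⟩
  have hW' : acE ε z ∈ W := by
    have h1 : UF (fun _ v => H83.PN.acE (v 0) (v 1)) := by infer_instance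
    exact Wd_uf (F := fun _ v => H83.PN.acE (v 0) (v 1)) h1 hW
      (v := cons ε (fun _ => z)) (fun i => by
        cases i with
        | zero => exact hεW
        | succ i => exact hzW)
  refine ⟨⟨hW', ?_, m, hm, hxm⟩, ?_, ?_, ?_⟩
  · intro t ht
    obtain ⟨s, hs, rfl⟩ := hmem t ht
    rw [fst_pair, snd_pair]
    exact ⟨rfl, mem_QP.2 (hQ _ (mem_QP.1 (hz1 s hs).2.1)), (hz1 s hs).2.2⟩
  · intro t ht
    obtain ⟨s, hs, rfl⟩ := hmem t ht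
    rw [snd_pair]
    exact hz2 s hs
  · intro i hi q hq
    have hq' := mem_QP.1 hq
    obtain ⟨q₂, hq₂, h1, s, hs, h2, h3⟩ := hz3 i hi (acQ ε q) (mem_QP.2 (hQ q hq'))
    have h4 := hL _ _ (hQ q hq') h1
    rw [ACe_inv hε hinv hq'] at h4
    refine ⟨acQ ε q₂, mem_QP.2 (hQ _ (mem_QP.1 hq₂)), h4, pair (acQ ε (fst s)) (snd s),
      mem_img.2 ⟨s, hs, rfl⟩, ?_, ?_⟩
    · rw [snd_pair]; exact h2
    · rw [fst_pair]; exact hL _ _ (mem_QP.1 (hz1 s hs).2.1) h3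
  · intro t ht t' ht' hft
    obtain ⟨s, hs, rfl⟩ := hmem t ht
    obtain ⟨s', hs', rfl⟩ := hmem t' ht'
    rw [snd_pair, snd_pair] at hft
    rintro ⟨q, hq, h1, h2⟩
    rw [fst_pair] at h1 h2
    rw [snd_pair, snd_pair]
    have hs1 := mem_QP.1 (hz1 s hs).2.1
    have hs2 := mem_QP.1 (hz1 s' hs').2.1
    have h3 := hL _ _ (hQ _ hs1) h1
    have h4 := hL _ _ (hQ _ hs2) h2
    rw [ACe_inv hε hinv hs1] at h3
    rw [ACe_inv hε hinv hs2] at h4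
    exact hz4 s hs s' hs' hft ⟨acQ ε q, mem_QP.2 (hQ q (mem_QP.1 hq)), h3, h4⟩

theorem copy_fails (hG : Gr M K H) {n : ℕ} {U : ZFSet.{0}} (hU : UOK M H n U)
    {β k v W q T x m V W' z v₁ W₁ q₁ ε : ZFSet.{0}} (hm : m ∈ omega)
    (hv : GV H U v W) (hq : QQ v q) (hT : SNm W v T)
    (hS : ∀ G', Gen M (SU U H) G' → pair v q ∈ G' →
      Stat (NN M (SU U H) G') n (val G' β) k (ev (Gq v G') T) (ev (Gq v G') x)
        (val G' (nmG U H m)) H)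
    (hV : GV H U V W') (hVv : VLe V v) (hz : RNm W' (res U (vL V)) V z)
    (hv1 : GV H U v₁ W₁) (hv1V : VLe v₁ V) (hq1 : QQ v₁ q₁) (hq1q : QLe U v q₁ q)
    (hε : Bij ε) (hεW : ε ∈ W₁) (hinv : ∀ c, apc ε (apc ε c) = c)
    (hmap : ∀ c ∈ vS v₁, apc ε c ∈ vS v₁) (hsv : acV ε v₁ = v₁)
    (hxm : ∀ t ∈ acE ε z, ∀ c ∈ csup (fst t), fst c ∈ m) :
    ∃ w W₂ q₂ y, GV H U w W₂ ∧ QQ w q₂ ∧ VLe w v₁ ∧ QLe U v₁ q₂ q₁ ∧
      RNK H (pair (res U (vL w)) (pair w q₂)) y ∧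
      FF H n (pair (res U (vL w)) (pair w q₂)) T (jnN y (acE ε z)) := by
  have hM := hG.tm
  have hSS := Sys_SU hG hU
  have hr1 : pair v₁ q₁ ∈ PU U H := mk_PU hG hv1.vv hv1.vH hv1.vL hq1
  have hr : pair v q ∈ PU U H := mk_PU hG hv.vv hv.vH hv.vL hq
  obtain ⟨G, hg, hrG⟩ := exists_gen hG.ctbl hSS (p := pair v₁ q₁) (by rw [sP_SU]; exact hr1)
  have hPUG : ∀ p ∈ G, p ∈ PU U H := by
    intro p hp
    have h := hg.sub p hp
    rwa [sP_SU] at h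
  have hv1v : VLe v₁ v := VLe_trans hv1V hVv
  have hvG : pair v q ∈ G := by
    refine hg.up _ hrG _ (by rw [sP_SU]; exact hr) (Le_SU.2 ⟨hr1, hr, ?_, ?_⟩)
    · rw [fst_pair, fst_pair]; exact hv1v
    · rw [fst_pair, snd_pair, snd_pair]; exact hq1q
  obtain ⟨hSa, -, hSc⟩ := hS G hg hvG
  -- the copied name
  have hz1 : RNm W₁ (res U (vL v₁)) v₁ z := ACe_RNm hG hU hV hv1 hv1V hz
  have hx' : RNm W₁ (res U (vL v₁)) v₁ (acE ε z) :=
    ACe_copy hv1.nx.1 hv1.vv hm hε hεW hinv hsv hz1 hxm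
  have hv1G : pair v₁ eQ ∈ G := by
    have h := Gq_eQ hG hU hg hrG
    rwa [fst_pair] at h
  obtain ⟨hxN, hxe⟩ := evS_eq hG hU hg hm hv1.vv hv1.vH hv1G hx'.1.2.1 hxm
  have hmH : m ∈ H := H_tr hG (HF_sub_H hG).2.2 hm
  have hnot : ev (Gq v₁ G) (acE ε z) ∉ app (val G β) k := by
    rw [← hxe]
    refine hSc (rsV v₁ m) ?_ _ (H_tr hG hv1.WH hx'.1.1) hxN
    exact H_uf2 hG (F := fun a b => rsV a b) (by infer_instance) hv1.vH hmH
  have hreal := ev_real hG hU hg hv1 hv1G hx'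
  have hnp : ¬ Pr (NN M (SU U H) G) (n + 2) (ev (Gq v G) T) (ev (Gq v₁ G) (acE ε z)) :=
    fun h => hnot ((hSa _ hreal.1 hreal.2).2 h)
  have hex : ∃ y, Real (NN M (SU U H) G) y ∧
      Pr (NN M (SU U H) G) (n + 1) (ev (Gq v G) T) (jn y (ev (Gq v₁ G) (acE ε z))) := by
    by_contra hcon
    exact hnp fun y hy hp => hcon ⟨y, hy, hp⟩
  obtain ⟨y, hyR, hyP⟩ := hex
  obtain ⟨σ, hσM, hσ, hσy⟩ := hyR.1
  obtain ⟨mσ, hmσ⟩ := (HS_iff.1 hσ).2.1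
  rw [hσy] at hyR
  obtain ⟨v₃, W₃, e, hv3, hv3G, -, he, hye⟩ := name_real hG hU hg hmσ.1 hσM hσ hmσ hyR
  -- a common good extension
  obtain ⟨p₂, hp₂, hp₂1, hp₂3⟩ := hg.dir _ hrG _ hv3G
  obtain ⟨v₂, W₂, hv2, hv2p, hv2G, -⟩ := good_dense hG hU hg hp₂ hmH
  have h21 : VLe v₂ v₁ := by
    have h := (Le_SU.1 hp₂1).2.2.1
    rw [fst_pair] at h
    exact VLe_trans hv2p h
  have h23 : VLe v₂ v₃ := by
    have h := (Le_SU.1 hp₂3).2.2.1
    rw [fst_pair] at h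
    exact VLe_trans hv2p h
  have h2v : VLe v₂ v := VLe_trans h21 hv1v
  have hv2E : pair v₂ eQ ∈ G := by
    have h := Gq_eQ hG hU hg hv2G
    rwa [fst_pair] at h
  have hT2 : SNm W₂ v₂ T := SNm_mono (ACe_W hG hU hv hv2 h2v) h2v hT
  have hx2 : SNm W₂ v₂ (acE ε z) := SNm_mono (ACe_W hG hU hv1 hv2 h21) h21 hx'.1
  have he2 : SNm W₂ v₂ e := SNm_mono (ACe_W hG hU hv3 hv2 h23) h23 he.1
  have hj2 : SNm W₂ v₂ (jnN e (acE ε z)) := SNm_jnN hv2.nx.1 he2 hx2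
  have hev : ∀ {v' W' e' : ZFSet.{0}}, VV v' → v' ∈ H → VLe v₂ v' → SNm W' v' e' →
      ev (Gq v₂ G) e' = ev (Gq v' G) e' := by
    intro v' W' e' hv' hvH' hle he'
    exact ev_Gq hG hU hg hv' hvH' hv2E hle fun t ht =>
      ⟨mem_QP.1 (he'.2.1 t ht).2.1, (he'.2.1 t ht).1⟩
  have hP2 : Pr (NN M (SU U H) G) (n + 1) (ev (Gq v₂ G) T)
      (ev (Gq v₂ G) (jnN e (acE ε z))) := by
    rw [ev_jnN _ he2 hx2, hev hv.vv hv.vH h2v hT, hev hv1.vv hv1.vH h21 hx'.1,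
      hev hv3.vv hv3.vH h23 he.1,
      ← hye, ← hσy]
    exact hyP
  obtain ⟨w₀, q₃, W₀, hw0G, hw02, hw0, hFF⟩ :=
    (truth_FF hG hU hg le_rfl hv2 hv2E hT2 hj2).1 hP2
  obtain ⟨p₄, hp₄, hp₄0, hp₄1⟩ := hg.dir _ hw0G _ hrG
  obtain ⟨w, W₅, hw, hwp, hwG, -⟩ := good_dense hG hU hg hp₄ hmH
  have hL0 := (Le_SU.1 hp₄0).2.2
  have hL1 := (Le_SU.1 hp₄1).2.2
  rw [fst_pair, snd_pair] at hL0 hL1
  have hqw : QQ w (snd p₄) := by
    have h := (mem_PU.1 (hPUG _ hwG)).2.2.2.2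
    rwa [fst_pair, snd_pair] at h
  have hq3 : QQ w₀ q₃ := by
    have h := (mem_PU.1 (hPUG _ hw0G)).2.2.2.2
    rwa [fst_pair, snd_pair] at h
  have hww0 : VLe w w₀ := VLe_trans hwp hL0.1
  have hw3 : VLe w v₃ := VLe_trans (VLe_trans hww0 hw02) h23
  have hGd := ACe_Gd hG hU hw hqw
  refine ⟨w, W₅, snd p₄, e, hw, hqw, VLe_trans hwp hL1.1, hL1.2, ⟨W₅, hw.WH, hGd, ?_⟩,
    FF_mono hG hGd ⟨?_, ?_, ?_⟩ hFF⟩
  · rw [ACe_rU, ACe_rV]
    exact ACe_RNm hG hU hv3 hw hw3 he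
  · rw [ACe_rU, ACe_rU]; exact ACe_res hww0.1
  · rw [ACe_rV, ACe_rV]; exact hww0
  · rw [ACe_rU, ACe_rV, ACe_rQ, ACe_rQ]
    exact (QLe_res hww0.1 hq3).2 hL0.2

end H83.PN
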