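import Pool.Agent.H83.PN.DefsI

set_option autoImplicit false

/-!
# Definitions: the projective hierarchy for subsets of `HF`

`PC N j P`: on the subsets of `HF` in `N` the predicate `P` is given by a code `T ∈ N`: `P z ↔ Pr N j T z`.
-/

namespace H83.PN

open ZFSet H83.AC

variable {f g h k l : Set ZFSet.{0} → (ℕ → ZFSet.{0}) → ZFSet.{0}}

/-- subsets of `HF` in `N` -/
def SHF (N : Set ZFSet.{0}) (z : ZFSet.{0}) : Prop := z ∈ N ∧ z ⊆ HF

/-- `P` is of the class `Π¹_j` in `N` -/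
def PC (N : Set ZFSet.{0}) (j : ℕ) (P : ZFSet.{0} → Prop) : Prop :=
  ∃ T ∈ N, ∀ z, SHF N z → (P z ↔ Pr N j T z)

/-- the first part of `w = jn y z` -/
noncomputable def lft (w : ZFSet.{0}) : ZFSet.{0} := ZFSet.sep (fun h => pair ∅ h ∈ w) HF
/-- the second part of `w = jn y z` -/
noncomputable def rgt (w : ZFSet.{0}) : ZFSet.{0} := ZFSet.sep (fun h => pair one h ∈ w) HF

instance Inst.lft [hf : UF f] : UF (fun N v => H83.PN.lft (f N v)) := by
  unfold H83.PN.lft; infer_instance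
instance Inst.rgt [hf : UF f] : UF (fun N v => H83.PN.rgt (f N v)) := by
  unfold H83.PN.rgt; infer_instance

/-- `P` is given by a set of `N` -/
def DfP (N : Set ZFSet.{0}) (P : ZFSet.{0} → Prop) : Prop :=
  ∃ A ∈ N, ∀ z, SHF N z → (P z ↔ z ∈ A)

/-- `F` is given by a set of `N` -/
def DfF (N : Set ZFSet.{0}) (F : ZFSet.{0} → ZFSet.{0}) : Prop :=
  ∃ f ∈ N, ∀ z, SHF N z → app f z = F z

/-- topologically closed -/
def TClo (N : Set ZFSet.{0}) (P : ZFSet.{0} → Prop) : Prop :=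
  ∀ z, SHF N z → ¬ P z → ∃ n ∈ omega, ∀ z', SHF N z' → z' ∩ Lh n = z ∩ Lh n → ¬ P z'

/-- locally constant -/
def TLoc (N : Set ZFSet.{0}) (P : ZFSet.{0} → Prop) : Prop :=
  ∀ z, SHF N z → ∃ n ∈ omega, ∀ z', SHF N z' → z' ∩ Lh n = z ∩ Lh n → (P z' ↔ P z)

/-- continuous -/
def TCon (N : Set ZFSet.{0}) (F : ZFSet.{0} → ZFSet.{0}) : Prop :=
  (∀ z, SHF N z → SHF N (F z)) ∧
  ∀ z, SHF N z → ∀ n ∈ omega, ∃ m ∈ omega, ∀ z', SHF N z' → z' ∩ Lh m = z ∩ Lh m →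
    F z' ∩ Lh n = F z ∩ Lh n

end H83.PN
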