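import Pool.Agent.H83.PN.PNa

set_option autoImplicit false

/-!
# Module PNr: names of real numbers

Let `e, v, W` be as in `name_HF` for a real number `x = ev (Gq v G) e`. `Gq v G` is generic over `W` for `P(u,v)`, `u = res U (vL v)` (`Gen_v`). The set of
all `q ∈ QP v` which satisfy one of (a)-(d) is dense and in `W`: (a) for some `i ∈ omega` no `q' ≤ q` is below some `q₁` with `pair q₁ (pair i j) ∈ e`;
(b) `q ≤ q₁, q₂` with `pair q₁ (pair i j)`, `pair q₂ (pair i j') ∈ e`, `j ≠ j'`; (c) `q ≤ q₁` with `pair q₁ t ∈ e`, `t ∉ prod omega omega`; (d) no `q' ≤ q` has (a), (b)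
or (c). As `x` is a real number, some `q₀ ∈ Gq v G` satisfies (d). Let `e' = {(q, (i, j)) : q ≤ q₀, q ≤ q₁ for some q₁ with (q₁, (i, j)) ∈ e, i, j ∈ omega, and all coordinates of q
are in the columns m'} ∪ {(q, (i, ∅)) : i ∈ omega, q incompatible with q₀, all coordinates in the columns m'}`, where `m' ∈ omega` is `≥ m` and such that the coordinates of
`q₀` are in the columns `m'`. But the name should be over the columns `m`: replace `q₀` by `rsQ q₀ m`: if `q ≤ rsQ q₀ m` had (a), (b) or (c), then so does the restriction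
of `q` to the columns `m` (`e` is over the columns `m`), which is compatible with `q₀` (`QLe_join`), a contradiction; so `rsQ q₀ m` satisfies (d) and is in `Gq v G`
(weaker). With this `q₀` take `m' = m`. `RNm`: predense: let `q ∈ QP v`; if `rsQ q m` is incompatible with `q₀`, `q ≤ rsQ q m` (`QLe_rsQ'`). Otherwise there is a common extension,
which has an extension below some `q₁` with `(q₁, (i, j)) ∈ e` (not (a)); restrict it to the columns `m`, it is compatible with `q`. Unique values: not (b).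
`ev (Gq v G) e' = x`.
-/

namespace H83.PN

open ZFSet H83.AC

variable {M : Set ZFSet.{0}} {K H : ZFSet.{0}}

variable {f g h k l : Set ZFSet.{0} → (ℕ → ZFSet.{0}) → ZFSet.{0}}

/-! ### Restriction to the columns `m`, with the same first part -/

private theorem PNr_QQ {v q : ZFSet.{0}} (hv : VV v) (hq : QQ v q) (m : ZFSet.{0}) :
    QQ v (rsQ q m) := QQ_mono (VLe_rsV hv m) (QQ_rsQ hv hq m)

private theorem PNr_le {u v q : ZFSet.{0}} (hv : VV v) (hq : QQ v q) (m : ZFSet.{0}) :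
    QLe u v q (rsQ q m) := (QLe_v (VLe_rsV hv m) (QQ_rsQ hv hq m)).2 (QLe_rsQ' hv hq m)

private theorem PNr_mono {u v q q' : ZFSet.{0}} (hv : VV v) (hq : QQ v q) (h : QLe u v q' q)
    (m : ZFSet.{0}) : QLe u v (rsQ q' m) (rsQ q m) :=
  (QLe_v (VLe_rsV hv m) (QQ_rsQ hv hq m)).2 (QLe_rsQ hv hq h m)

private theorem PNr_mf {q m t : ZFSet.{0}} :
    t ∈ fst (rsQ q m) ↔ t ∈ fst q ∧ fst (fst (fst t)) ∈ m := by
  unfold rsQ
  rw [fst_pair, mem_sep]

private theorem PNr_ms {q m s : ZFSet.{0}} :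
    s ∈ snd (rsQ q m) ↔ s ∈ snd q ∧ fst (fst s) ∈ m := by
  unfold rsQ
  rw [snd_pair, mem_sep]

/-- all coordinates are in the columns `m` -/
private def PNr_ov (q m : ZFSet.{0}) : Prop := ∀ c ∈ csup q, fst c ∈ m

private theorem PNr_ov_iff {q m : ZFSet.{0}} : PNr_ov q m ↔
    (∀ t ∈ fst q, fst (fst (fst t)) ∈ m) ∧ ∀ s ∈ snd q, fst (fst s) ∈ m := by
  unfold PNr_ov csup
  constructor
  · intro h
    refine ⟨fun t ht => h _ (ZFSet.mem_union.2 (Or.inl (mem_img.2 ⟨t, ht, rfl⟩))),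
      fun s hs => h _ (ZFSet.mem_union.2 (Or.inr (mem_img.2 ⟨s, hs, rfl⟩)))⟩
  · rintro ⟨h1, h2⟩ c hc
    rcases ZFSet.mem_union.1 hc with hc | hc
    · obtain ⟨t, ht, rfl⟩ := mem_img.1 hc
      exact h1 t ht
    · obtain ⟨s, hs, rfl⟩ := mem_img.1 hc
      exact h2 s hs

private theorem PNr_full {v q m : ZFSet.{0}} (hq : QQ v q) (h : PNr_ov q m) : rsQ q m = q := by
  obtain ⟨h1, h2⟩ := PNr_ov_iff.1 h
  have e1 : fst (rsQ q m) = fst q := by
    ext t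
    rw [PNr_mf]
    exact ⟨fun h => h.1, fun h => ⟨h, h1 t h⟩⟩
  have e2 : snd (rsQ q m) = snd q := by
    ext t
    rw [PNr_ms]
    exact ⟨fun h => h.1, fun h => ⟨h, h2 t h⟩⟩
  have e3 : rsQ q m = pair (fst (rsQ q m)) (snd (rsQ q m)) := by
    unfold rsQ
    rw [fst_pair, snd_pair]
  exact e3.trans (by rw [e1, e2]; exact hq.1.symm)

private theorem PNr_ov_rs (q m : ZFSet.{0}) : PNr_ov (rsQ q m) m := by
  rw [PNr_ov_iff]
  exact ⟨fun t ht => (PNr_mf.1 ht).2, fun s hs => (PNr_ms.1 hs).2⟩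

private theorem PNr_tr {u v q q' q'' : ZFSet.{0}} (hq : QQ v q)
    (h1 : QLe u v q'' q') (h2 : QLe u v q' q) : QLe u v q'' q :=
  QLe_trans (VLe_refl v) hq h1 h2

/-- `p ≤ q|m` over the columns `m` is compatible with `q` -/
private theorem PNr_join {u v q p m : ZFSet.{0}} (hq : QQ v q) (hp : QQ v p)
    (hpm : PNr_ov p m) (h : QLe u v p (rsQ q m)) :
    ∃ r, QQ v r ∧ QLe u v r q ∧ QLe u v r p := by
  obtain ⟨h1, h2⟩ := PNr_ov_iff.1 hpm
  have hf : ∀ t ∈ fst q, ∀ t' ∈ fst p, fst t = fst t' → t = t' := by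
    intro t ht t' ht' he
    have h3 : t ∈ fst p := h.1 (PNr_mf.2 ⟨ht, by rw [he]; exact h1 t' ht'⟩)
    exact (mem_Cn.1 hp.2.1).2.2.2 t h3 t' ht' he
  obtain ⟨a, b, c⟩ := QLe_join (u := u) hq hp hf (by
    intro t ht ht' s hs he
    exact h.2.2 t ht (fun h3 => ht' (PNr_mf.1 h3).1) s
      (PNr_ms.2 ⟨hs, by rw [he]; exact h1 t ht⟩) he) (by
    intro t ht ht' s hs he
    exact absurd (h.1 (PNr_mf.2 ⟨ht, by rw [← he]; exact h2 s hs⟩)) ht')
  exact ⟨_, a, b, c⟩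

/-! ### Bad conditions -/

/-- `q` decides some value of `e` at `i` -/
private def PNr_E (u v e q i : ZFSet.{0}) : Prop :=
  ∃ z ∈ e, fst (snd z) = i ∧ QLe u v q (fst z)

private instance PNr_iE [hf : UF f] [hg : UF g] [hh : UF h] [hk : UF k] [hl : UF l] :
    UR (fun N v => PNr_E (f N v) (g N v) (h N v) (k N v) (l N v)) := by
  unfold PNr_E; infer_instance

private def PNr_a (u v e q : ZFSet.{0}) : Prop :=
  ∃ i ∈ omega, ∀ q' ∈ QP v, QLe u v q' q → ¬ PNr_E u v e q' i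

private instance PNr_ia [hf : UF f] [hg : UF g] [hh : UF h] [hk : UF k] :
    UR (fun N v => PNr_a (f N v) (g N v) (h N v) (k N v)) := by
  unfold PNr_a; infer_instance

private def PNr_b (u v e q : ZFSet.{0}) : Prop :=
  ∃ z ∈ e, ∃ z' ∈ e, fst (snd z) = fst (snd z') ∧ snd z ≠ snd z' ∧ QLe u v q (fst z) ∧
    QLe u v q (fst z')

private instance PNr_ib [hf : UF f] [hg : UF g] [hh : UF h] [hk : UF k] :
    UR (fun N v => PNr_b (f N v) (g N v) (h N v) (k N v)) := by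
  unfold PNr_b; infer_instance

private def PNr_c (u v e q : ZFSet.{0}) : Prop :=
  ∃ z ∈ e, snd z ∉ ZFSet.prod omega omega ∧ QLe u v q (fst z)

private instance PNr_ic [hf : UF f] [hg : UF g] [hh : UF h] [hk : UF k] :
    UR (fun N v => PNr_c (f N v) (g N v) (h N v) (k N v)) := by
  unfold PNr_c; infer_instance

private def PNr_bad (u v e q : ZFSet.{0}) : Prop := PNr_a u v e q ∨ PNr_b u v e q ∨ PNr_c u v e q

private instance PNr_ibad [hf : UF f] [hg : UF g] [hh : UF h] [hk : UF k] :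
    UR (fun N v => PNr_bad (f N v) (g N v) (h N v) (k N v)) := by
  unfold PNr_bad; infer_instance

/-- bad, or no extension is bad -/
private def PNr_D (u v e q : ZFSet.{0}) : Prop :=
  PNr_bad u v e q ∨ ∀ q' ∈ QP v, QLe u v q' q → ¬ PNr_bad u v e q'

private instance PNr_iD [hf : UF f] [hg : UF g] [hh : UF h] [hk : UF k] :
    UR (fun N v => PNr_D (f N v) (g N v) (h N v) (k N v)) := by
  unfold PNr_D; infer_instance

/-- the elements of the new name -/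
private def PNr_R (u v e m q₀ y : ZFSet.{0}) : Prop :=
  (∀ c ∈ csup (fst y), fst c ∈ m) ∧
  ((QLe u v (fst y) q₀ ∧ ∃ z ∈ e, snd z = snd y ∧ QLe u v (fst y) (fst z)) ∨
    (snd (snd y) = ∅ ∧ ∀ r ∈ QP v, ¬ (QLe u v r (fst y) ∧ QLe u v r q₀)))

private theorem PNr_stream {W : ZFSet.{0}} {a b c d e : ZFSet.{0}} (ha : a ∈ W) (hb : b ∈ W)
    (hc : c ∈ W) (hd : d ∈ W) (he : e ∈ W) :
    ∀ i, (cons a (cons b (cons c (cons d (fun _ => e))))) i ∈ cls W := by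
  intro i
  match i with
  | 0 => exact ha
  | 1 => exact hb
  | 2 => exact hc
  | 3 => exact hd
  | i + 4 => exact he

private theorem PNr_QPW {v W : ZFSet.{0}} (hW : Wd W) (hv : v ∈ W) : QP v ∈ W :=
  Wd_uf (F := fun _ v => QP (v 0)) (Inst.QP (hf := UF.var 0)) hW (v := fun _ => v) (fun _ => hv)

private theorem PNr_DW {u v e W : ZFSet.{0}} (hW : Wd W) (hu : u ∈ W) (hv : v ∈ W)
    (he : e ∈ W) : ZFSet.sep (fun q => PNr_D u v e q) (QP v) ∈ W := by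
  have h1 : UR (fun _ w => PNr_D (w 1) (w 2) (w 3) (w 0)) := by infer_instance
  exact TM.sep_of (R := fun _ x w => PNr_D (w 0) (w 1) (w 2) x) h1 hW.1
    (v := cons u (cons v (cons e (cons e (fun _ => e)))))
    (PNr_stream hu hv he he he) (PNr_QPW hW hv)

private theorem PNr_DiW {u v e i W : ZFSet.{0}} (hW : Wd W) (hu : u ∈ W) (hv : v ∈ W)
    (he : e ∈ W) (hi : i ∈ W) : ZFSet.sep (fun q => PNr_E u v e q i) (QP v) ∈ W := by
  have h1 : UR (fun _ w => PNr_E (w 1) (w 2) (w 3) (w 0) (w 4)) := by infer_instance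
  exact TM.sep_of (R := fun _ x w => PNr_E (w 0) (w 1) (w 2) x (w 3)) h1 hW.1
    (v := cons u (cons v (cons e (cons i (fun _ => e)))))
    (PNr_stream hu hv he hi he) (PNr_QPW hW hv)

private theorem PNr_eW {u v e m q₀ W : ZFSet.{0}} (hW : Wd W) (hu : u ∈ W) (hv : v ∈ W)
    (he : e ∈ W) (hm : m ∈ W) (hq : q₀ ∈ W) :
    ZFSet.sep (fun y => PNr_R u v e m q₀ y) (ZFSet.prod (QP v) (ZFSet.prod omega omega)) ∈ W := by
  have h1 : UR (fun _ w => PNr_R (w 1) (w 2) (w 3) (w 4) (w 5) (w 0)) := by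
    unfold PNr_R; infer_instance
  have h2 : ZFSet.prod (QP v) (ZFSet.prod omega omega) ∈ W :=
    Wd_uf (F := fun _ v => ZFSet.prod (QP (v 0)) (ZFSet.prod omega omega)) (by infer_instance)
      hW (v := fun _ => v) (fun _ => hv)
  exact TM.sep_of (R := fun _ x w => PNr_R (w 0) (w 1) (w 2) (w 3) (w 4) x) h1 hW.1
    (v := cons u (cons v (cons e (cons m (fun _ => q₀)))))
    (PNr_stream hu hv he hm hq) h2

/-- badness goes down -/
private theorem PNr_bad_mono {u v e q q' : ZFSet.{0}} (he : ∀ z ∈ e, QQ v (fst z))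
    (hq : QQ v q) (h : QLe u v q' q) (hb : PNr_bad u v e q) : PNr_bad u v e q' := by
  rcases hb with ⟨i, hi, h1⟩ | ⟨z, hz, z', hz', h1, h2, h3, h4⟩ | ⟨z, hz, h1, h2⟩
  · exact Or.inl ⟨i, hi, fun r hr hr' => h1 r hr (PNr_tr hq hr' h)⟩
  · exact Or.inr (Or.inl ⟨z, hz, z', hz', h1, h2, PNr_tr (he z hz) h h3,
      PNr_tr (he z' hz') h h4⟩)
  · exact Or.inr (Or.inr ⟨z, hz, h1, PNr_tr (he z hz) h h2⟩)

/-- badness is decided by the columns `m` -/
private theorem PNr_bad_rs {u v e m q : ZFSet.{0}} (hv : VV v) (he : ∀ z ∈ e, QQ v (fst z))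
    (hem : ∀ z ∈ e, PNr_ov (fst z) m) (hq : QQ v q) (hb : PNr_bad u v e q) :
    PNr_bad u v e (rsQ q m) := by
  have key : ∀ z ∈ e, ∀ q', QLe u v q' (fst z) → QLe u v (rsQ q' m) (fst z) := by
    intro z hz q' h
    have := PNr_mono hv (he z hz) h m
    rwa [PNr_full (he z hz) (hem z hz)] at this
  rcases hb with ⟨i, hi, h1⟩ | ⟨z, hz, z', hz', h1, h2, h3, h4⟩ | ⟨z, hz, h1, h2⟩
  · refine Or.inl ⟨i, hi, ?_⟩
    rintro q' hq' hle ⟨z, hz, h2, h3⟩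
    have hq'' := mem_QP.1 hq'
    have h4 : QLe u v (rsQ q' m) (rsQ q m) := by
      have := PNr_mono hv (PNr_QQ hv hq m) hle m
      rwa [PNr_full (PNr_QQ hv hq m) (PNr_ov_rs q m)] at this
    obtain ⟨r, r1, r2, r3⟩ := PNr_join hq (PNr_QQ hv hq'' m) (PNr_ov_rs q' m) h4
    exact h1 r (mem_QP.2 r1) r2 ⟨z, hz, h2, PNr_tr (he z hz) r3 (key z hz q' h3)⟩
  · exact Or.inr (Or.inl ⟨z, hz, z', hz', h1, h2, key z hz q h3, key z' hz' q h4⟩)
  · exact Or.inr (Or.inr ⟨z, hz, h1, key z hz q h2⟩)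

theorem name_real (hG : Gr M K H) {n : ℕ} {U : ZFSet.{0}} (hU : UOK M H n U)
    {G : Set ZFSet.{0}} (hg : Gen M (SU U H) G) {m σ : ZFSet.{0}} (hm : m ∈ omega) (hσM : σ ∈ M)
    (hσ : HS (SU U H) σ) (hs : Supp (SU U H) m σ) (hx : Real (NN M (SU U H) G) (val G σ)) :
    ∃ v W e, GV H U v W ∧ pair v eQ ∈ G ∧ SNmm W v e m ∧ RNm W (res U (vL v)) v e ∧
      val G σ = ev (Gq v G) e := by
  obtain ⟨hxN, hxf⟩ := hx
  have hxH : val G σ ⊆ HF := by
    intro y hy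
    obtain ⟨i, hi, j, hj, rfl⟩ := ZFSet.mem_prod.1 (hxf.1 hy)
    exact HF_pair (omega_sub_HF hi) (omega_sub_HF hj)
  obtain ⟨v, W, e, hgv, hvG, ⟨heW, he1, hem⟩, hval⟩ := name_HF hG hU hg hm hσM hσ hs hxH
  obtain ⟨u, hu⟩ : ∃ u, u = res U (vL v) := ⟨_, rfl⟩
  have hGen := Gen_v hG hU hg hgv hvG
  rw [← hu] at hGen
  have huW : u ∈ W := by rw [hu]; exact hgv.uW
  have hWd : Wd W := hgv.nx.1
  have hv := hgv.vv
  have heq : ∀ z ∈ e, QQ v (fst z) := fun z hz => mem_QP.1 (he1 z hz).2.1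
  have hsub : ∀ p ∈ Gq v G, QQ v p := fun p hp => by
    have := hGen.sub p hp
    rw [sP_Sq] at this
    exact mem_QP.1 this
  have hup : ∀ p ∈ Gq v G, ∀ q, QQ v q → QLe u v p q → q ∈ Gq v G := fun p hp q hq h =>
    hGen.up p hp q (by rw [sP_Sq]; exact mem_QP.2 hq) (Le_Sq.2 ⟨hsub p hp, hq, h⟩)
  have hdir : ∀ p ∈ Gq v G, ∀ q ∈ Gq v G, ∃ r ∈ Gq v G, QLe u v r p ∧ QLe u v r q := by
    intro p hp q hq
    obtain ⟨r, hr, h1, h2⟩ := hGen.dir p hp q hq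
    exact ⟨r, hr, (Le_Sq.1 h1).2.2, (Le_Sq.1 h2).2.2⟩
  have hmeet : ∀ D ∈ W, D ⊆ QP v → (∀ p ∈ QP v, ∃ q ∈ D, QLe u v q p) → ∃ p ∈ D, p ∈ Gq v G := by
    intro D hD h1 h2
    refine hGen.meet D hD (by rw [sP_Sq]; exact h1) ?_
    intro p hp
    rw [sP_Sq] at hp
    obtain ⟨q, hq, h3⟩ := h2 p hp
    exact ⟨q, hq, Le_Sq.2 ⟨mem_QP.1 (h1 hq), mem_QP.1 hp, h3⟩⟩
  have hxe : ∀ z ∈ e, fst z ∈ Gq v G → snd z ∈ val G σ := by
    intro z hz h
    rw [hval, mem_ev]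
    refine ⟨fst z, h, ?_⟩
    rw [← (he1 z hz).1]
    exact hz
  have hex : ∀ y ∈ val G σ, ∃ p ∈ Gq v G, pair p y ∈ e := by
    intro y hy
    rw [hval] at hy
    exact mem_ev.1 hy
  have hovz : ∀ z ∈ e, PNr_ov (fst z) m := fun z hz => hem z hz
  -- a condition without bad extensions
  obtain ⟨q₁, hq₁D, hq₁G⟩ := hmeet _ (PNr_DW hWd huW hgv.vW heW)
    (fun q hq => (mem_sep.1 hq).1) (by
      intro p hp
      by_cases h : ∃ q' ∈ QP v, QLe u v q' p ∧ PNr_bad u v e q'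
      · obtain ⟨q', h1, h2, h3⟩ := h
        exact ⟨q', mem_sep.2 ⟨h1, Or.inl h3⟩, h2⟩
      · refine ⟨p, mem_sep.2 ⟨hp, Or.inr ?_⟩, QLe_refl u v p⟩
        intro q' h1 h2 h3
        exact h ⟨q', h1, h2, h3⟩)
  have hq₁ := hsub q₁ hq₁G
  have hnb : ∀ p ∈ Gq v G, ¬ PNr_bad u v e p := by
    intro p hp hb
    rcases hb with ⟨i, hi, h1⟩ | ⟨z, hz, z', hz', h1, h2, h3, h4⟩ | ⟨z, hz, h1, h2⟩
    · obtain ⟨j, hj, -⟩ := hxf.2 i hi
      obtain ⟨p', hp', h2⟩ := hex _ hj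
      obtain ⟨r, hr, r1, r2⟩ := hdir p hp p' hp'
      refine h1 r (mem_QP.2 (hsub r hr)) r1 ⟨_, h2, ?_, ?_⟩
      · rw [snd_pair, fst_pair]
      · rw [fst_pair]; exact r2
    · have a1 := hxe z hz (hup p hp _ (heq z hz) h3)
      have a2 := hxe z' hz' (hup p hp _ (heq z' hz') h4)
      obtain ⟨i, hi, j, hj, e1⟩ := ZFSet.mem_prod.1 (hxf.1 a1)
      obtain ⟨i', hi', j', hj', e2⟩ := ZFSet.mem_prod.1 (hxf.1 a2)
      rw [e1, e2, fst_pair, fst_pair] at h1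
      subst h1
      rw [e1] at a1
      rw [e2] at a2
      obtain ⟨w, -, hw⟩ := hxf.2 i hi
      have b1 := hw j a1
      have b2 := hw j' a2
      exact h2 (by rw [e1, e2, b1, b2])
    · exact h1 (hxf.1 (hxe z hz (hup p hp _ (heq z hz) h2)))
  have hd₁ : ∀ q' ∈ QP v, QLe u v q' q₁ → ¬ PNr_bad u v e q' := by
    rcases (mem_sep.1 hq₁D).2 with h | h
    · exact absurd h (hnb q₁ hq₁G)
    · exact h
  -- restrict it to the columns `m`
  obtain ⟨q₀, hq₀⟩ : ∃ q₀, q₀ = rsQ q₁ m := ⟨_, rfl⟩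
  have hQ₀ : QQ v q₀ := by rw [hq₀]; exact PNr_QQ hv hq₁ m
  have hG₀ : q₀ ∈ Gq v G := hup q₁ hq₁G q₀ hQ₀ (by rw [hq₀]; exact PNr_le hv hq₁ m)
  have hov₀ : PNr_ov q₀ m := by rw [hq₀]; exact PNr_ov_rs q₁ m
  have hd : ∀ q, QQ v q → QLe u v q q₀ → ¬ PNr_bad u v e q := by
    intro q hq hle hb
    have h1 := PNr_bad_rs (m := m) hv heq hovz hq hb
    have h2 : QLe u v (rsQ q m) (rsQ q₁ m) := by
      have := PNr_mono hv hQ₀ hle m
      rw [PNr_full hQ₀ hov₀] at this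
      rwa [← hq₀]
    obtain ⟨r, r1, r2, r3⟩ := PNr_join hq₁ (PNr_QQ hv hq m) (PNr_ov_rs q m) h2
    exact hd₁ r (mem_QP.2 r1) r2 (PNr_bad_mono heq (PNr_QQ hv hq m) r3 h1)
  -- the new name
  have hmW : m ∈ W := (hWd.1.tr _ (Wd_omega hWd).1 m hm)
  have hq₀W : q₀ ∈ W := hWd.1.tr _ (PNr_QPW hWd hgv.vW) q₀ (mem_QP.2 hQ₀)
  obtain ⟨e', hee⟩ : ∃ e', e' = ZFSet.sep (fun y => PNr_R u v e m q₀ y)
    (ZFSet.prod (QP v) (ZFSet.prod omega omega)) := ⟨_, rfl⟩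
  have heW' : e' ∈ W := by
    rw [hee]
    exact PNr_eW hWd huW hgv.vW heW hmW hq₀W
  have hmem : ∀ y, y ∈ e' ↔ (y ∈ ZFSet.prod (QP v) (ZFSet.prod omega omega) ∧
      PNr_R u v e m q₀ y) := by
    intro y
    rw [hee, mem_sep]
  have helt : ∀ y ∈ e', y = pair (fst y) (snd y) ∧ QQ v (fst y) ∧
      snd y ∈ ZFSet.prod omega omega ∧ PNr_R u v e m q₀ y := by
    intro y hy
    obtain ⟨h1, h2⟩ := (hmem y).1 hy
    obtain ⟨a, ha, b, hb, rfl⟩ := ZFSet.mem_prod.1 h1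
    rw [fst_pair, snd_pair]
    exact ⟨rfl, mem_QP.1 ha, hb, h2⟩
  have hSN : SNmm W v e' m := by
    refine ⟨heW', fun y hy => ?_, fun y hy => (helt y hy).2.2.2.1⟩
    obtain ⟨h1, h2, h3, -⟩ := helt y hy
    refine ⟨h1, mem_QP.2 h2, ?_⟩
    obtain ⟨i, hi, j, hj, h4⟩ := ZFSet.mem_prod.1 h3
    rw [h4]
    exact HF_pair (omega_sub_HF hi) (omega_sub_HF hj)
  refine ⟨v, W, e', hgv, hvG, hSN, ⟨⟨hSN.1, hSN.2.1, m, hm, hSN.2.2⟩,
    fun y hy => (helt y hy).2.2.1, ?_, ?_⟩, ?_⟩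
  · -- predense
    rw [← hu]
    intro i hi q hq
    have hqq := mem_QP.1 hq
    by_cases hc : ∃ r ∈ QP v, QLe u v r (rsQ q m) ∧ QLe u v r q₀
    · obtain ⟨r, hr, r1, r2⟩ := hc
      have hrq := mem_QP.1 hr
      have h1 : ¬ PNr_a u v e r := fun h => hd r hrq r2 (Or.inl h)
      have h2 : ∃ q' ∈ QP v, QLe u v q' r ∧ PNr_E u v e q' i := by
        by_contra hcon
        exact h1 ⟨i, hi, fun q' h3 h4 h5 => hcon ⟨q', h3, h4, h5⟩⟩
      obtain ⟨q', hq', h3, z, hz, h4, h5⟩ := h2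
      have hqq' := mem_QP.1 hq'
      have h6 : QLe u v q' q₀ := PNr_tr hQ₀ h3 r2
      have h7 : QLe u v q' (rsQ q m) := PNr_tr (PNr_QQ hv hqq m) h3 r1
      have hz2 : snd z ∈ ZFSet.prod omega omega := by
        by_contra hcon
        exact hd q' hqq' h6 (Or.inr (Or.inr ⟨z, hz, hcon, h5⟩))
      have k1 : QLe u v (rsQ q' m) q₀ := by
        have := PNr_mono hv hQ₀ h6 m
        rwa [PNr_full hQ₀ hov₀] at this
      have k2 : QLe u v (rsQ q' m) (fst z) := by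
        have := PNr_mono hv (heq z hz) h5 m
        rwa [PNr_full (heq z hz) (hovz z hz)] at this
      have k3 : QLe u v (rsQ q' m) (rsQ q m) := by
        have := PNr_mono hv (PNr_QQ hv hqq m) h7 m
        rwa [PNr_full (PNr_QQ hv hqq m) (PNr_ov_rs q m)] at this
      obtain ⟨r', j1, j2, j3⟩ := PNr_join hqq (PNr_QQ hv hqq' m) (PNr_ov_rs q' m) k3
      refine ⟨r', mem_QP.2 j1, j2, pair (rsQ q' m) (snd z), (hmem _).2 ⟨?_, ?_, ?_⟩, ?_, ?_⟩
      · exact ZFSet.pair_mem_prod.2 ⟨mem_QP.2 (PNr_QQ hv hqq' m), hz2⟩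
      · rw [fst_pair]; exact PNr_ov_rs q' m
      · left
        rw [fst_pair, snd_pair]
        exact ⟨k1, z, hz, rfl, k2⟩
      · rw [snd_pair]; exact h4
      · rw [fst_pair]; exact j3
    · refine ⟨q, hq, QLe_refl u v q, pair (rsQ q m) (pair i ∅), (hmem _).2 ⟨?_, ?_, ?_⟩, ?_, ?_⟩
      · refine ZFSet.pair_mem_prod.2 ⟨mem_QP.2 (PNr_QQ hv hqq m), ZFSet.pair_mem_prod.2 ⟨hi, ?_⟩⟩
        exact ZFSet.omega_zero
      · rw [fst_pair]; exact PNr_ov_rs q m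
      · right
        rw [fst_pair, snd_pair, snd_pair]
        exact ⟨rfl, fun r hr h => hc ⟨r, hr, h.1, h.2⟩⟩
      · rw [snd_pair, fst_pair]
      · rw [fst_pair]; exact PNr_le hv hqq m
  · -- values are unique
    rw [← hu]
    intro t ht t' ht' hft hcomp
    obtain ⟨q, hq, c1, c2⟩ := hcomp
    have hqq := mem_QP.1 hq
    obtain ⟨-, a2, a3, a4⟩ := helt t ht
    obtain ⟨-, b2, b3, b4⟩ := helt t' ht'
    rcases a4.2 with ⟨x1, z, hz, x2, x3⟩ | ⟨x1, x2⟩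
    · have hq0 : QLe u v q q₀ := PNr_tr hQ₀ c1 x1
      rcases b4.2 with ⟨y1, z', hz', y2, y3⟩ | ⟨y1, y2⟩
      · by_contra hne
        refine hd q hqq hq0 (Or.inr (Or.inl ⟨z, hz, z', hz', ?_, ?_, ?_, ?_⟩))
        · rw [x2, y2]; exact hft
        · rw [x2, y2]; exact hne
        · exact PNr_tr (heq z hz) c1 x3
        · exact PNr_tr (heq z' hz') c2 y3
      · exact absurd ⟨c2, hq0⟩ (y2 q hq)
    · rcases b4.2 with ⟨y1, z', hz', y2, y3⟩ | ⟨y1, y2⟩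
      · exact absurd ⟨c1, PNr_tr hQ₀ c2 y1⟩ (x2 q hq)
      · obtain ⟨i, -, j, -, e1⟩ := ZFSet.mem_prod.1 a3
        obtain ⟨i', -, j', -, e2⟩ := ZFSet.mem_prod.1 b3
        rw [e1, e2, fst_pair, fst_pair] at hft
        rw [e1, snd_pair] at x1
        rw [e2, snd_pair] at y1
        rw [e1, e2, hft, x1, y1]
  · -- the value
    rw [hval]
    ext y
    rw [mem_ev, mem_ev]
    constructor
    · rintro ⟨p, hp, hpy⟩
      have hy : y ∈ val G σ := by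
        rw [hval, mem_ev]
        exact ⟨p, hp, hpy⟩
      have hy2 := hxf.1 hy
      obtain ⟨r, hr, r1, r2⟩ := hdir p hp q₀ hG₀
      have hrQ := hsub r hr
      have hpQ := hsub p hp
      have hpm : PNr_ov p m := by
        have := hovz _ hpy
        rwa [fst_pair] at this
      have k1 : QLe u v (rsQ r m) q₀ := by
        have := PNr_mono hv hQ₀ r2 m
        rwa [PNr_full hQ₀ hov₀] at this
      have k2 : QLe u v (rsQ r m) p := by
        have := PNr_mono hv hpQ r1 m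
        rwa [PNr_full hpQ hpm] at this
      refine ⟨rsQ r m, hup r hr _ (PNr_QQ hv hrQ m) (PNr_le hv hrQ m), (hmem _).2 ⟨?_, ?_, ?_⟩⟩
      · exact ZFSet.pair_mem_prod.2 ⟨mem_QP.2 (PNr_QQ hv hrQ m), hy2⟩
      · rw [fst_pair]; exact PNr_ov_rs r m
      · left
        rw [fst_pair, snd_pair]
        exact ⟨k1, _, hpy, by rw [snd_pair], by rw [fst_pair]; exact k2⟩
    · rintro ⟨p, hp, hpy⟩
      obtain ⟨-, -, -, h4⟩ := helt _ hpy
      obtain ⟨-, h5⟩ := h4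
      rw [fst_pair, snd_pair] at h5
      rcases h5 with ⟨x1, z, hz, x2, x3⟩ | ⟨-, x2⟩
      · refine ⟨fst z, hup p hp _ (heq z hz) x3, ?_⟩
        rw [← x2, ← (he1 z hz).1]
        exact hz
      · obtain ⟨r, hr, r1, r2⟩ := hdir p hp q₀ hG₀
        exact absurd ⟨r1, r2⟩ (x2 r (mem_QP.2 (hsub r hr)))

theorem ev_real (hG : Gr M K H) {n : ℕ} {U : ZFSet.{0}} (hU : UOK M H n U) {G : Set ZFSet.{0}}
    (hg : Gen M (SU U H) G) {v W e : ZFSet.{0}} (hv : GV H U v W) (hvG : pair v eQ ∈ G)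
    (he : RNm W (res U (vL v)) v e) : Real (NN M (SU U H) G) (ev (Gq v G) e) := by
  obtain ⟨⟨heW, he1, m, hm, hem⟩, he2, he3, he4⟩ := he
  have hGen := Gen_v hG hU hg hv hvG
  have hWd : Wd W := hv.nx.1
  have heH : e ∈ H := H_tr hG hv.WH heW
  refine ⟨ev_NN hG hU hg hv.vv hv.vH hv.vL hvG hm (H_sub_M hG heH) he1 hem, ?_, ?_⟩
  · intro y hy
    obtain ⟨p, hp, hpy⟩ := mem_ev.1 hy
    have := he2 _ hpy
    rwa [snd_pair] at this
  · intro i hi
    have hiW : i ∈ W := hWd.1.tr _ (Wd_omega hWd).1 i hi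
    obtain ⟨q, hqD, hqG⟩ := hGen.meet _ (PNr_DiW hWd hv.uW hv.vW heW hiW)
      (by rw [sP_Sq]; exact fun q hq => (mem_sep.1 hq).1) (by
        intro p hp
        rw [sP_Sq] at hp
        obtain ⟨q', h1, h2, t, ht, h3, h4⟩ := he3 i hi p hp
        exact ⟨q', mem_sep.2 ⟨h1, t, ht, h3, h4⟩, Le_Sq.2 ⟨mem_QP.1 h1, mem_QP.1 hp, h2⟩⟩)
    obtain ⟨hqP, t, ht, h3, h4⟩ := mem_sep.1 hqD
    have htG : fst t ∈ Gq v G := hGen.up q hqG _ (by rw [sP_Sq]; exact (he1 t ht).2.1)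
      (Le_Sq.2 ⟨mem_QP.1 hqP, mem_QP.1 (he1 t ht).2.1, h4⟩)
    obtain ⟨i', hi', j, hj, h5⟩ := ZFSet.mem_prod.1 (he2 t ht)
    rw [h5, fst_pair] at h3
    subst h3
    refine ⟨j, mem_ev.2 ⟨fst t, htG, ?_⟩, ?_⟩
    · rw [← h5, ← (he1 t ht).1]
      exact ht
    · intro j' hj'
      obtain ⟨p, hp, hpy⟩ := mem_ev.1 hj'
      obtain ⟨r, hr, r1, r2⟩ := hGen.dir _ htG p hp
      have hrP : r ∈ QP v := by
        have := hGen.sub r hr
        rwa [sP_Sq] at this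
      have h6 := he4 _ hpy t ht (by rw [snd_pair, fst_pair, h5, fst_pair])
        ⟨r, hrP, by rw [fst_pair]; exact (Le_Sq.1 r2).2.2, (Le_Sq.1 r1).2.2⟩
      rw [snd_pair, h5] at h6
      exact (pair_inj.1 h6).2

end H83.PN
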