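import Pool.Agent.H83.PN.TRc
import Pool.Agent.H83.PN.PNr
import Pool.Agent.H83.PN.PVe

set_option autoImplicit false

namespace H83.PN

open ZFSet H83.AC

variable {M : Set ZFSet.{0}} {K H : ZFSet.{0}}

private theorem TRe_rU (a b c : ZFSet.{0}) : rU (pair a (pair b c)) = a := by
  unfold rU; rw [fst_pair]

private theorem TRe_rV (a b c : ZFSet.{0}) : rV (pair a (pair b c)) = b := by
  unfold rV; rw [snd_pair, fst_pair]

private theorem TRe_rQ (a b c : ZFSet.{0}) : rQ (pair a (pair b c)) = c := by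
  unfold rQ; rw [snd_pair, snd_pair]

private theorem TRe_res {U a b : ZFSet.{0}} (h : a ⊆ b) : res U a ⊆ res U b := by
  intro t ht
  unfold res at ht ⊢
  rw [mem_sep] at ht ⊢
  exact ⟨ht.1, h ht.2⟩

/-- the good condition belonging to `v` and `q` -/
private theorem TRe_Gd (hG : Gr M K H) {n : ℕ} {U : ZFSet.{0}} (hU : UOK M H n U)
    {v q W : ZFSet.{0}} (hv : GV H U v W) (hq : QQ v q) :
    Gd H (pair (res U (vL v)) (pair v q)) W :=
  Gd_of hG hU hv.vv hv.vL hv.nx hv.uW hv.vW hq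

private theorem TRe_RLe {U v v' q q' : ZFSet.{0}} (h : VLe v' v) (hq : QQ v q)
    (hl : QLe U v q' q) :
    RLe (pair (res U (vL v')) (pair v' q')) (pair (res U (vL v)) (pair v q)) := by
  unfold RLe
  rw [TRe_rU, TRe_rU, TRe_rV, TRe_rV, TRe_rQ, TRe_rQ]
  exact ⟨TRe_res h.1, h, (QLe_res h.1 hq).2 hl⟩

private theorem TRe_inG {U : ZFSet.{0}} {G : Set ZFSet.{0}} (hg : Gen M (SU U H) G)
    {v q : ZFSet.{0}} (h : pair v q ∈ G) : pair v q ∈ H ∧ VV v ∧ vL v ∈ dom U ∧ QQ v q := by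
  have h1 := hg.sub _ h
  rw [sP_SU, mem_PU, fst_pair, snd_pair] at h1
  exact ⟨h1.1, h1.2.2.1, h1.2.2.2.1, h1.2.2.2.2⟩

private theorem TRe_eQ (hG : Gr M K H) {n : ℕ} {U : ZFSet.{0}} (hU : UOK M H n U)
    {G : Set ZFSet.{0}} (hg : Gen M (SU U H) G) {v q : ZFSet.{0}} (h : pair v q ∈ G) :
    pair v eQ ∈ G := by
  have := Gq_eQ hG hU hg h
  rwa [fst_pair] at this

private theorem TRe_top (u v q : ZFSet.{0}) : QLe u v q eQ := by
  unfold QLe eQ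
  rw [fst_pair, snd_pair]
  exact ⟨fun z hz => absurd hz (ZFSet.notMem_empty z), fun z hz => absurd hz (ZFSet.notMem_empty z),
    fun t _ _ s hs => absurd hs (ZFSet.notMem_empty s)⟩

/-- common good extensions -/
private theorem TRe_common (hG : Gr M K H) {n : ℕ} {U : ZFSet.{0}} (hU : UOK M H n U)
    {G : Set ZFSet.{0}} (hg : Gen M (SU U H) G) {v₁ q₁ v₂ q₂ : ZFSet.{0}} (h1 : pair v₁ q₁ ∈ G)
    (h2 : pair v₂ q₂ ∈ G) : ∃ v₃ q₃ W₃, GV H U v₃ W₃ ∧ pair v₃ q₃ ∈ G ∧ VLe v₃ v₁ ∧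
      VLe v₃ v₂ ∧ QLe U v₁ q₃ q₁ ∧ QLe U v₂ q₃ q₂ := by
  obtain ⟨r, hr, hr1, hr2⟩ := hg.dir _ h1 _ h2
  obtain ⟨-, -, a1, a2⟩ := Le_SU.1 hr1
  obtain ⟨-, -, b1, b2⟩ := Le_SU.1 hr2
  rw [fst_pair] at a1 a2 b1 b2
  rw [snd_pair] at a2 b2
  obtain ⟨v₃, W₃, c1, c2, c3, -⟩ := good_dense hG hU hg hr (x := omega) (HF_sub_H hG).2.2
  exact ⟨v₃, snd r, W₃, c1, c3, VLe_trans c2 a1, VLe_trans c2 b1, a2, b2⟩

private theorem TRe_el {W v e : ZFSet.{0}} (h : SNm W v e) :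
    ∀ t ∈ e, QQ v (fst t) ∧ t = pair (fst t) (snd t) := fun t ht =>
  ⟨mem_QP.1 (h.2.1 t ht).2.1, (h.2.1 t ht).1⟩

private theorem TRe_ev (hG : Gr M K H) {n : ℕ} {U : ZFSet.{0}} (hU : UOK M H n U)
    {G : Set ZFSet.{0}} (hg : Gen M (SU U H) G) {v v' q' W e : ZFSet.{0}} (hv : GV H U v W)
    (h' : pair v' q' ∈ G) (hle : VLe v' v) (he : SNm W v e) :
    ev (Gq v' G) e = ev (Gq v G) e :=
  ev_Gq hG hU hg hv.vv hv.vH (TRe_eQ hG hU hg h') hle (TRe_el he)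

private theorem TRe_evN (hG : Gr M K H) {n : ℕ} {U : ZFSet.{0}} (hU : UOK M H n U)
    {G : Set ZFSet.{0}} (hg : Gen M (SU U H) G) {v W e : ZFSet.{0}} (hv : GV H U v W)
    (hvG : pair v eQ ∈ G) (he : SNm W v e) : ev (Gq v G) e ∈ NN M (SU U H) G := by
  obtain ⟨heW, he1, m, hm, hem⟩ := he
  exact ev_NN hG hU hg hv.vv hv.vH hv.vL hvG hm (H_sub_M hG (H_tr hG hv.WH heW)) he1 hem

private theorem TRe_GV {U v q W W' : ZFSet.{0}} (hv : GV H U v W)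
    (h : Gd H (pair (res U (vL v)) (pair v q)) W') : GV H U v W' := by
  obtain ⟨-, h2, -, -, -, -, -, h8, h9, h10⟩ := h
  rw [TRe_rU] at h8 h9
  rw [TRe_rV] at h10
  exact ⟨hv.vv, hv.vH, hv.vL, h2, h8, h9, h10⟩

private theorem TRe_zero (hG : Gr M K H) {n : ℕ} {U : ZFSet.{0}} (hU : UOK M H n U)
    {G : Set ZFSet.{0}} (hg : Gen M (SU U H) G) {v W T z : ZFSet.{0}} (hv : GV H U v W)
    (hvG : pair v eQ ∈ G) (hT : SNm W v T) (hz : SNm W v z) :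
    Pr (NN M (SU U H) G) 1 (ev (Gq v G) T) (ev (Gq v G) z) ↔
      ∃ v' q' W', pair v' q' ∈ G ∧ VLe v' v ∧ GV H U v' W' ∧
        FF H 0 (pair (res U (vL v')) (pair v' q')) T z := by
  have hN := NN_tm hG.tm (Sys_SU hG hU) (SU_M hG hU).1 hg
  rw [Pr1_V hN (TRe_evN hG hU hg hv hvG hT) (TRe_evN hG hU hg hv hvG hz)]
  constructor
  · intro h
    have hr := TRe_Gd hG hU hv (QQ_empty v)
    have hgen := Gen_v hG hU hg hv hvG
    have h1 : ∃ q ∈ Gq v G, F1 W (pair (res U (vL v)) (pair v q)) T z := by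
      have := (F1_truth (g := Gq v G) hr (by rw [TRe_rV]; exact hT) (by rw [TRe_rV]; exact hz)
        (by rw [TRe_rU, TRe_rV]; exact hgen)).1 h
      rwa [TRe_rU, TRe_rV] at this
    obtain ⟨q, hq, hF⟩ := h1
    have hqQ := (TRe_inG hg (v := v) (q := q) hq).2.2.2
    refine ⟨v, q, W, hq, VLe_refl v, hv, W, hv.WH, TRe_Gd hG hU hv hqQ, ?_, ?_, hF⟩
    · rw [TRe_rV]; exact hT
    · rw [TRe_rV]; exact hz
  · rintro ⟨v', q', W', hG', hle, hgv', W'', hW'', hGd, hT', hz', hF⟩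
    have hgv'' := TRe_GV hgv' hGd
    have hgen := Gen_v hG hU hg hgv'' (TRe_eQ hG hU hg hG')
    have h1 : P1g (Gq v' G) T z := by
      refine (F1_truth (g := Gq v' G) hGd hT' hz' (by rw [TRe_rU, TRe_rV]; exact hgen)).2
        ⟨q', hG', ?_⟩
      rw [TRe_rU, TRe_rV]
      exact hF
    unfold P1g at h1
    rw [TRe_ev hG hU hg hv hG' hle hT, TRe_ev hG hU hg hv hG' hle hz] at h1
    exact h1

/-! ### The dense set -/

/-- the conditions which decide the statement -/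
private def TRe_D (j : ℕ) (U H v T z p : ZFSet.{0}) : Prop :=
  VLe (fst p) v ∧ (∃ W ∈ H, Nx (ws (res U (vL (fst p)))) W ∧ res U (vL (fst p)) ∈ W ∧
    fst p ∈ W) ∧
  (FF H (j + 1) (pair (res U (vL (fst p))) p) T z ∨
    ∃ y ∈ H, RNK H (pair (res U (vL (fst p))) p) y ∧
      FF H j (pair (res U (vL (fst p))) p) T (jnN y z))

private theorem TRe_DM {N : Set ZFSet.{0}} (hN : TM N) (j : ℕ) {U H v T z : ZFSet.{0}}
    (hU : U ∈ N) (hH : H ∈ N) (hv : v ∈ N) (hT : T ∈ N) (hz : z ∈ N) :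
    ZFSet.sep (fun p => TRe_D j U H v T z p) (PU U H) ∈ N := by
  have h : UF (fun _ w => ZFSet.sep (fun p => TRe_D j (w 0) (w 1) (w 2) (w 3) (w 4) p)
      (PU (w 0) (w 1))) := by
    unfold TRe_D
    infer_instance
  exact h.mem N hN (cons U (cons H (cons v (cons T (fun _ => z))))) (fun i => by
    match i with
    | 0 => exact hU
    | 1 => exact hH
    | 2 => exact hv
    | 3 => exact hT
    | i + 4 => exact hz)

private theorem TRe_up {b a : ZFSet.{0}} (hb : rk b = b) (h : a ∈ b) : a ⊆ b := by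
  rw [← hb] at h ⊢
  obtain ⟨β, hβ, rfl⟩ := mem_rk.1 h
  intro t ht
  obtain ⟨γ, hγ, rfl⟩ := Ordinal.mem_toZFSet_iff.1 ht
  exact mem_rk.2 ⟨γ, lt_trans hγ hβ, rfl⟩

private theorem TRe_dense (hG : Gr M K H) {n : ℕ} {U : ZFSet.{0}} (hU : UOK M H n U) {j : ℕ}
    (hj : j ≤ n) {v W T z : ZFSet.{0}} (hv : GV H U v W) (hT : SNm W v T) (hz : SNm W v z)
    {p : ZFSet.{0}} (hp : p ∈ PU U H) (hpv : VLe (fst p) v) :
    ∃ r ∈ ZFSet.sep (fun p => TRe_D j U H v T z p) (PU U H), Le (SU U H) r p := by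
  have hTH : T ∈ H := H_tr hG hv.WH hT.1
  have hzH : z ∈ H := H_tr hG hv.WH hz.1
  obtain ⟨hpH, hpp, hp1, hp2, hp3⟩ := mem_PU.1 hp
  have hfH : fst p ∈ H := H_uf1 hG (F := fun x => fst x) (UF.fst (UF.var 0)) hpH
  -- a good extension
  obtain ⟨v', hv'H, W', hW'H, a1, a2, -, a4, a5, a6, a7, -, -⟩ := exists_good hG hU hp1 hfH hzH
  have hgv' : GV H U v' W' := ⟨a1, hv'H, a4, hW'H, a5, a6, a7⟩
  have hq' : QQ v' (snd p) := QQ_mono a2 hp3
  have hv'v : VLe v' v := VLe_trans a2 hpv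
  have hGd' := TRe_Gd hG hU hgv' hq'
  obtain ⟨r', hr'⟩ : ∃ r', r' = pair (res U (vL v')) (pair v' (snd p)) := ⟨_, rfl⟩
  rw [← hr'] at hGd'
  obtain ⟨γ, hγ, hdec⟩ := hU.comp j hj r' hGd'.1 T hTH z hzH
  obtain ⟨hUU, hresH, hdomr⟩ := hU.seg γ hγ
  rcases hdec with ⟨r'', hr''H, y, hyH, e1, hle, hRN, hFF⟩ | hne
  · -- the first alternative
    obtain ⟨W'', hW''H, hGd'', hRNm⟩ := hRN
    have hd := hGd''
    obtain ⟨-, -, g3, g4, g5, g6, g7, g8, g9, g10⟩ := hGd''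
    have hγL : vL (rV r'') = γ := by
      rw [← g6, e1, hdomr]
    have hr''e : r'' = pair (res U (vL (rV r''))) (pair (rV r'') (rQ r'')) := by
      rw [hγL, ← e1]
      exact g3
    have hsH : pair (rV r'') (rQ r'') ∈ H := by
      have h1 : snd r'' ∈ H := H_uf1 hG (F := fun x => snd x) (UF.snd (UF.var 0)) hr''H
      rw [g3, snd_pair] at h1
      exact h1
    have hvH : rV r'' ∈ H := H_tr hG hW''H g10
    have hPU : pair (rV r'') (rQ r'') ∈ PU U H := by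
      rw [mem_PU, fst_pair, snd_pair]
      exact ⟨hsH, rfl, g5, by rw [hγL]; exact hγ, g7⟩
    have hle2 : VLe (rV r'') v' := by
      have := hle.2.1
      rwa [hr', TRe_rV] at this
    refine ⟨pair (rV r'') (rQ r''), ?_, ?_⟩
    · rw [mem_sep]
      refine ⟨hPU, ?_⟩
      unfold TRe_D
      rw [fst_pair, ← hr''e]
      refine ⟨VLe_trans hle2 hv'v, ⟨W'', hW''H, ?_, ?_, g10⟩, Or.inr ⟨y, hyH, ?_, hFF⟩⟩
      · rw [hγL, ← e1]; exact g8
      · rw [hγL, ← e1]; exact g9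
      · exact ⟨W'', hW''H, hd, hRNm⟩
    · rw [Le_SU, fst_pair, snd_pair]
      refine ⟨hPU, hp, VLe_trans hle2 a2, ?_⟩
      have h3 := hle.2.2
      rw [hr', TRe_rV, TRe_rQ, e1] at h3
      have h4 : QLe (res U γ) (fst p) (rQ r'') (snd p) := (QLe_v a2 hp3).1 h3
      refine (QLe_res ?_ hp3).1 h4
      rw [← hγL]
      exact fun t ht => hle2.1 (a2.1 ht)
  · -- the second alternative
    have hγH : γ ∈ H := by
      have h1 : dom (res U γ) ∈ H := H_uf1 hG (F := fun x => dom x) (UF.dom (UF.var 0)) hresH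
      rwa [hdomr] at h1
    have hγo : rk γ = γ := by
      have := hUU.1
      rwa [hdomr] at this
    obtain ⟨v'', hv''H, W'', hW''H, b1, b2, -, b4, b5, b6, b7, -, b9⟩ :=
      exists_good hG hU a1 hv'H hγH
    rw [hγo] at b9
    have hgv'' : GV H U v'' W'' := ⟨b1, hv''H, b4, hW''H, b5, b6, b7⟩
    have hq'' : QQ v'' (snd p) := QQ_mono b2 hq'
    have hv''v : VLe v'' v := VLe_trans b2 hv'v
    have hGd'' := TRe_Gd hG hU hgv'' hq''
    have hsub : res U γ ⊆ res U (vL v'') := TRe_res (TRe_up b1.2.1 b9)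
    have hRL : RLe (pair (res U (vL v'')) (pair v'' (snd p))) r' := by
      rw [hr']
      exact TRe_RLe b2 hq' (QLe_refl _ _ _)
    have hPU : pair v'' (snd p) ∈ PU U H := mk_PU hG b1 hv''H b4 hq''
    refine ⟨pair v'' (snd p), ?_, ?_⟩
    · rw [mem_sep]
      refine ⟨hPU, ?_⟩
      unfold TRe_D
      rw [fst_pair]
      refine ⟨hv''v, ⟨W'', hW''H, b5, b6, b7⟩, Or.inl ⟨?_, ?_⟩⟩
      · have hGv := TRe_Gd hG hU hv (QQ_empty v)
        have hs : rU (pair (res U (vL v)) (pair v eQ)) ⊆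
            rU (pair (res U (vL v'')) (pair v'' (snd p))) := by
          rw [TRe_rU, TRe_rU]
          exact TRe_res hv''v.1
        have hWW := (Gd_W hGv hGd'' hs).1
        refine ⟨W'', hW''H, hGd'', ?_, ?_⟩
        · rw [TRe_rV]; exact SNm_mono hWW hv''v hT
        · rw [TRe_rV]; exact SNm_mono hWW hv''v hz
      · intro r₃ hr₃ y hy hle3 hRN hFF
        obtain ⟨W₃, hW₃, hGd₃, -⟩ := id hRN
        refine hne ⟨rU r₃, H_uf1 hG (F := fun x => rU x) (Inst.rU (hf := UF.var 0)) hr₃,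
          hGd₃.2.2.2.1, ?_, r₃, hr₃, y, hy, rfl, RLe_trans hGd' hGd'' hGd₃.2.2.2.1 hle3 hRL,
          hRN, hFF⟩
        intro t ht
        have h5 := hle3.1
        rw [TRe_rU] at h5
        exact h5 (hsub ht)
    · rw [Le_SU, fst_pair, snd_pair]
      exact ⟨hPU, hp, VLe_trans b2 a2, QLe_refl _ _ _⟩

/-- the step of the induction -/
private theorem TRe_step (hG : Gr M K H) {n : ℕ} {U : ZFSet.{0}} (hU : UOK M H n U)
    {G : Set ZFSet.{0}} (hg : Gen M (SU U H) G) {j : ℕ} (hj : j ≤ n)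
    (ih : ∀ {v W T z : ZFSet.{0}}, GV H U v W → pair v eQ ∈ G → SNm W v T → SNm W v z →
      (Pr (NN M (SU U H) G) (j + 1) (ev (Gq v G) T) (ev (Gq v G) z) ↔
      ∃ v' q' W', pair v' q' ∈ G ∧ VLe v' v ∧ GV H U v' W' ∧
        FF H j (pair (res U (vL v')) (pair v' q')) T z))
    {v W T z : ZFSet.{0}} (hv : GV H U v W) (hvG : pair v eQ ∈ G) (hT : SNm W v T)
    (hz : SNm W v z) :
    Pr (NN M (SU U H) G) (j + 1 + 1) (ev (Gq v G) T) (ev (Gq v G) z) ↔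
      ∃ v' q' W', pair v' q' ∈ G ∧ VLe v' v ∧ GV H U v' W' ∧
        FF H (j + 1) (pair (res U (vL v')) (pair v' q')) T z := by
  have hTH : T ∈ H := H_tr hG hv.WH hT.1
  have hzH : z ∈ H := H_tr hG hv.WH hz.1
  have hGv := TRe_Gd hG hU hv (QQ_empty v)
  constructor
  · intro hPr
    obtain ⟨E, hE⟩ : ∃ E, E = ZFSet.sep (fun p => TRe_D j U H v T z p) (PU U H) := ⟨_, rfl⟩
    have hHM : H ∈ M := hG.tm.tr _ hG.KM H hG.HK
    have hEM : E ∈ M := by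
      rw [hE]
      exact TRe_DM hG.tm j hU.mem hHM (H_sub_M hG hv.vH) (H_sub_M hG hTH) (H_sub_M hG hzH)
    obtain ⟨p, hpE, -, hpG⟩ := gen_meet hG.tm (Sys_SU hG hU) (SU_M hG hU).1 hg hEM
      (by
        intro t ht
        rw [hE, mem_sep] at ht
        rw [sP_SU]
        exact ht.1) hvG (by
        intro q hq hle
        rw [hE]
        obtain ⟨h1, -, h3, -⟩ := Le_SU.1 hle
        rw [fst_pair] at h3
        exact TRe_dense hG hU hj hv hT hz h1 h3)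
    rw [hE, mem_sep] at hpE
    obtain ⟨hpU, hD1, ⟨W₁, hW₁H, hD2, hD3, hD4⟩, hD5⟩ := hpE
    obtain ⟨hpH, hpp, hp1, hp2, hp3⟩ := mem_PU.1 hpU
    have hfH : fst p ∈ H := H_tr hG hW₁H hD4
    have hgv₁ : GV H U (fst p) W₁ := ⟨hp1, hfH, hp2, hW₁H, hD2, hD3, hD4⟩
    have hpG' : pair (fst p) (snd p) ∈ G := by rw [← hpp]; exact hpG
    rcases hD5 with hD5 | ⟨y, hyH, hRN, hFF⟩
    · refine ⟨fst p, snd p, W₁, hpG', hD1, hgv₁, ?_⟩
      rw [← hpp]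
      exact hD5
    · exfalso
      rw [hpp, fst_pair] at hRN hFF
      obtain ⟨W₂, hW₂H, hGd₂, hRNm⟩ := hRN
      have hgv₂ := TRe_GV hgv₁ hGd₂
      rw [TRe_rU, TRe_rV] at hRNm
      have heQ := TRe_eQ hG hU hg hpG'
      have hreal := ev_real hG hU hg hgv₂ heQ hRNm
      have hGd₂' := TRe_Gd hG hU hgv₂ (QQ_empty (fst p))
      have hs : rU (pair (res U (vL v)) (pair v eQ)) ⊆
          rU (pair (res U (vL (fst p))) (pair (fst p) eQ)) := by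
        rw [TRe_rU, TRe_rU]
        exact TRe_res hD1.1
      have hWW := (Gd_W hGv hGd₂' hs).1
      have hT₂ := SNm_mono hWW hD1 hT
      have hz₂ := SNm_mono hWW hD1 hz
      have hPr2 := (ih hgv₂ heQ hT₂ (SNm_jnN hgv₂.nx.1 hRNm.1 hz₂)).2
        ⟨fst p, snd p, W₂, hpG', VLe_refl _, hgv₂, hFF⟩
      rw [ev_jnN (Gq (fst p) G) hRNm.1 hz₂, TRe_ev hG hU hg hv hpG' hD1 hT,
        TRe_ev hG hU hg hv hpG' hD1 hz] at hPr2
      exact hPr _ hreal hPr2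
  · rintro ⟨v', q', W', hG', hle, hgv', -, hFF⟩ x hx hPr
    obtain ⟨σ, hσM, hσ, hσx⟩ := id hx.1
    obtain ⟨m, hm⟩ := (HS_iff.1 hσ).2.1
    rw [hσx] at hx
    obtain ⟨v₁, W₁, e, hgv₁, hv₁G, -, hRN, hval⟩ := name_real hG hU hg hm.1 hσM hσ hm hx
    -- a common good extension
    obtain ⟨v₂, q₂, W₂, hgv₂, hv₂G, l1, l2, -, -⟩ := TRe_common hG hU hg hG' hv₁G
    have h2v : VLe v₂ v := VLe_trans l1 hle
    have hGd₁ := TRe_Gd hG hU hgv₁ (QQ_empty v₁)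
    have hGd₂ := TRe_Gd hG hU hgv₂ (QQ_empty v₂)
    have hWW : W ⊆ W₂ := by
      refine (Gd_W hGv hGd₂ ?_).1
      rw [TRe_rU, TRe_rU]
      exact TRe_res h2v.1
    have hT₂ := SNm_mono hWW h2v hT
    have hz₂ := SNm_mono hWW h2v hz
    have hRN₂ : RNm W₂ (res U (vL v₂)) v₂ e := by
      have h1 := RNm_mono hGd₁ hGd₂ (TRe_RLe l2 (QQ_empty v₁) (QLe_refl _ _ _))
        (by rw [TRe_rU, TRe_rV]; exact hRN)
      rwa [TRe_rU, TRe_rV] at h1
    have heQ₂ := TRe_eQ hG hU hg hv₂G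
    have hex : ev (Gq v₂ G) e = x := by
      rw [TRe_ev hG hU hg hgv₁ hv₂G l2 hRN.1, ← hval, ← hσx]
    have hPr2 : Pr (NN M (SU U H) G) (j + 1) (ev (Gq v₂ G) T) (ev (Gq v₂ G) (jnN e z)) := by
      rw [ev_jnN (Gq v₂ G) hRN₂.1 hz₂, hex, TRe_ev hG hU hg hv hv₂G h2v hT,
        TRe_ev hG hU hg hv hv₂G h2v hz]
      exact hPr
    obtain ⟨v₃, q₃, W₃, hv₃G, l3, hgv₃, hF₃⟩ :=
      (ih hgv₂ heQ₂ hT₂ (SNm_jnN hgv₂.nx.1 hRN₂.1 hz₂)).1 hPr2
    obtain ⟨v₄, q₄, W₄, hgv₄, hv₄G, l4, l5, l6, l7⟩ := TRe_common hG hU hg hv₃G hG'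
    have hq₃ := (TRe_inG hg hv₃G).2.2.2
    have hq' := (TRe_inG hg hG').2.2.2
    have hq₄ := (TRe_inG hg hv₄G).2.2.2
    have hGd₄ := TRe_Gd hG hU hgv₄ hq₄
    have hR43 := TRe_RLe (U := U) l4 hq₃ l6
    have hR4' := TRe_RLe (U := U) l5 hq' l7
    have hF₄ := FF_mono hG hGd₄ hR43 hF₃
    have hRN₄ : RNK H (pair (res U (vL v₄)) (pair v₄ q₄)) e := by
      have l42 : VLe v₄ v₂ := VLe_trans l4 l3
      have hRL : RLe (pair (res U (vL v₄)) (pair v₄ q₄)) (pair (res U (vL v₂)) (pair v₂ eQ)) :=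
        TRe_RLe l42 (QQ_empty v₂) (TRe_top _ _ _)
      exact ⟨W₄, hgv₄.WH, hGd₄, RNm_mono hGd₂ hGd₄ hRL (by rw [TRe_rU, TRe_rV]; exact hRN₂)⟩
    exact hFF _ hGd₄.1 e (H_tr hG hgv₂.WH hRN₂.1.1) hR4' hRN₄ hF₄

theorem truth_FF (hG : Gr M K H) {n : ℕ} {U : ZFSet.{0}} (hU : UOK M H n U) {G : Set ZFSet.{0}}
    (hg : Gen M (SU U H) G) {j : ℕ} (hj : j ≤ n) {v W T z : ZFSet.{0}} (hv : GV H U v W)
    (hvG : pair v eQ ∈ G) (hT : SNm W v T) (hz : SNm W v z) :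
    Pr (NN M (SU U H) G) (j + 1) (ev (Gq v G) T) (ev (Gq v G) z) ↔
      ∃ v' q' W', pair v' q' ∈ G ∧ VLe v' v ∧ GV H U v' W' ∧
        FF H j (pair (res U (vL v')) (pair v' q')) T z := by
  induction j generalizing v W T z with
  | zero => exact TRe_zero hG hU hg hv hvG hT hz
  | succ j ih =>
    exact TRe_step hG hU hg (by omega) (fun h1 h2 h3 h4 => ih (by omega) h1 h2 h3 h4) hv hvG hT hz

end H83.PN
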