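import Pool.Agent.H83.PN.PNr
import Pool.Agent.H83.PN.TRe
import Pool.Agent.H83.PN.PCDef

set_option autoImplicit false

/-!
# Definitions for the choice half
-/

namespace H83.PN

open ZFSet H83.AC

variable {f g h k l : Set ZFSet.{0} → (ℕ → ZFSet.{0}) → ZFSet.{0}}

/-- the name of the evaluation of `e` (over the columns `m`) -/
noncomputable def nmE (U H m v e : ZFSet.{0}) : ZFSet.{0} :=
  rn (SU U H) (img (fun t => pair (pair (rsV v m) (fst t)) (snd t)) e)

/-- the name of the part of the generic set in the columns `m` -/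
noncomputable def nmG (U H m : ZFSet.{0}) : ZFSet.{0} := rn (SU U H) (fgr (fun p => p) (PM U H m))

/-- evaluation with the set `g` of conditions -/
noncomputable def evS (g w e : ZFSet.{0}) : ZFSet.{0} :=
  ZFSet.sep (fun a => ∃ q ∈ QP w, pair w q ∈ g ∧ pair q a ∈ e) HF

/-- `e` is a name over `w` and `w` is in the generic set -/
def Nmw (g w e : ZFSet.{0}) : Prop := pair w eQ ∈ g ∧
  ∀ t ∈ e, t = pair (fst t) (snd t) ∧ fst t ∈ QP w ∧ snd t ∈ HF

instance Inst.nmE [hf : UF f] [hg : UF g] [hh : UF h] [hk : UF k] [hl : UF l] :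
    UF (fun N v => H83.PN.nmE (f N v) (g N v) (h N v) (k N v) (l N v)) := by
  unfold H83.PN.nmE; infer_instance
instance Inst.nmG [hf : UF f] [hg : UF g] [hh : UF h] :
    UF (fun N v => H83.PN.nmG (f N v) (g N v) (h N v)) := by
  unfold H83.PN.nmG; infer_instance
instance Inst.evS [hf : UF f] [hg : UF g] [hh : UF h] :
    UF (fun N v => H83.PN.evS (f N v) (g N v) (h N v)) := by
  unfold H83.PN.evS; infer_instance
instance Inst.Nmw [hf : UF f] [hg : UF g] [hh : UF h] :
    UR (fun N v => H83.PN.Nmw (f N v) (g N v) (h N v)) := by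
  unfold H83.PN.Nmw; infer_instance

/-- union of two first parts of the same length -/
noncomputable def unV (v w : ZFSet.{0}) : ZFSet.{0} :=
  pair (vL v) (pair (vS v ∪ vS w) (vf v ∪ vf w))
/-- union of two second parts -/
noncomputable def unQ (q q' : ZFSet.{0}) : ZFSet.{0} := pair (fst q ∪ fst q') (snd q ∪ snd q')

instance Inst.unV [hf : UF f] [hg : UF g] : UF (fun N v => H83.PN.unV (f N v) (g N v)) := by
  unfold H83.PN.unV; infer_instance
instance Inst.unQ [hf : UF f] [hg : UF g] : UF (fun N v => H83.PN.unQ (f N v) (g N v)) := by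
  unfold H83.PN.unQ; infer_instance

open Classical in
/-- the exchange of the coordinates in `E` and their copies in the column `∅` -/
noncomputable def exz (E S : ZFSet.{0}) : ZFSet.{0} :=
  fgr (fun c => if c ∈ E then pair ∅ (pair c S) else fst (snd c))
    (E ∪ img (fun c => pair ∅ (pair c S)) E)

open Classical in
/-- add to `v` the images of its coordinates under `ε` -/
noncomputable def adV (ε v : ZFSet.{0}) : ZFSet.{0} :=
  pair (vL v) (pair (vS v ∪ img (fun c => apc ε c) (vS v))
    (fgr (fun s => if fst s ∈ vS v then app (vf v) s else app (vf v) (pair (apc ε (fst s)) (snd s)))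
      (ZFSet.prod (vS v ∪ img (fun c => apc ε c) (vS v)) (vL v))))

instance Inst.exz [hf : UF f] [hg : UF g] : UF (fun N v => H83.PN.exz (f N v) (g N v)) := by
  unfold H83.PN.exz; infer_instance
instance Inst.adV [hf : UF f] [hg : UF g] : UF (fun N v => H83.PN.adV (f N v) (g N v)) := by
  unfold H83.PN.adV; infer_instance

/-- the statement about `B k` which is forced: `b = B`, `k`, `T` the code of `B k`, `x ∈ B k`, no name over
`g` has its value in `B k` -/
def Stat (N : Set ZFSet.{0}) (n : ℕ) (b k T x g h : ZFSet.{0}) : Prop :=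
  (∀ y ∈ N, IsFunc omega omega y → (y ∈ app b k ↔ Pr N (n + 2) T y)) ∧ x ∈ app b k ∧
  ∀ w ∈ h, ∀ e ∈ h, Nmw g w e → evS g w e ∉ app b k

theorem UR.Stat (n : ℕ) : UR (fun N v => H83.PN.Stat N n (v 0) (v 1) (v 2) (v 3) (v 4) (v 5)) := by
  unfold H83.PN.Stat; infer_instance

/-- the sets of the class `Π¹_j` -/
def PiS (N : Set ZFSet.{0}) (j : ℕ) (A : ZFSet.{0}) : Prop :=
  (∀ x ∈ A, Real N x) ∧ ∃ T ∈ N, ∀ x, Real N x → (x ∈ A ↔ Pr N j T x)

end H83.PN
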