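import Pool.Agent.H83.PN.IVc
import Pool.Agent.H83.PN.DefsC

set_option autoImplicit false

/-!
# Module ACf: relabelling the blocks

Let `ν₁ = vL v₁`, `r₁ = (res U ν₁, (v₁, q₁))`, `r₂ = (res U (vL w), (w, q₂))`. With the identity functions on `Idx` for all `δ ∈ ν₁`, `r₁` is isomorphic to itself (`IE H ε ρ r₁ r₁ W₁`, by the
invariance of `v₁` and `q₁`). `IE_step` for `r₂` gives `s` with `RLe s r₁` and `IE H ε ρ' s r₂ W₂`; `IE_FF` gives `FF H n s (acE ε T) (acE ε (jnN y z))`, i.e. `FF H n s T (jnN (acE ε y) (acE ε z))`;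
`RNK H s (acE ε y)` (`IE_RNm`). `RLe s r₀` for `r₀ = (res U (vL V), (V, Q))` by transitivity.
-/

namespace H83.PN

open ZFSet H83.AC

variable {M : Set ZFSet.{0}} {K H : ZFSet.{0}}

private theorem ACf_res {U γ δ : ZFSet.{0}} (h : γ ⊆ δ) : res U γ ⊆ res U δ := by
  intro t ht
  obtain ⟨h1, h2⟩ := mem_sep.1 ht
  exact mem_sep.2 ⟨h1, h h2⟩

private theorem ACf_rU (u v q : ZFSet.{0}) : rU (pair u (pair v q)) = u := by
  rw [rU, fst_pair]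

private theorem ACf_rV (u v q : ZFSet.{0}) : rV (pair u (pair v q)) = v := by
  rw [rV, snd_pair, fst_pair]

private theorem ACf_rQ (u v q : ZFSet.{0}) : rQ (pair u (pair v q)) = q := by
  rw [rQ, snd_pair, snd_pair]

private instance ACf_iIdx : UF (fun _ _ => Idx) := by
  unfold H83.AC.Idx; infer_instance

theorem relabel (hG : Gr M K H) {n : ℕ} {U : ZFSet.{0}} (hU : UOK M H n U)
    {V Q v₁ q₁ ε W₀ W₁ w q₂ W₂ T z y : ZFSet.{0}} (hV : GV H U V W₀) (hQ : QQ V Q)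
    (hv1 : GV H U v₁ W₁) (hle : VLe v₁ V) (hq1 : QQ v₁ q₁) (hq1Q : QLe U V q₁ Q)
    (hr : ∀ t ∈ fst q₁, fst (fst t) ∈ vS V → t ∈ fst Q)
    (hε : Bij ε) (hεW : ε ∈ W₁) (hinv : ∀ c, apc ε (apc ε c) = c)
    (hdε : ∀ c ∈ dom ε, c ∈ vS v₁) (hcε : ∃ m ∈ omega, ∀ c ∈ dom ε, fst c ∈ m)
    (hsv : ∀ c ∈ vS v₁, ∀ δ ∈ vL v₁,
      app (vf v₁) (pair (apc ε c) δ) = app (vf v₁) (pair c δ))
    (hsq : acQ ε q₁ = q₁)
    (hw : GV H U w W₂) (hw1 : VLe w v₁) (hq2 : QQ w q₂) (hq21 : QLe U v₁ q₂ q₁)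
    (hy : RNK H (pair (res U (vL w)) (pair w q₂)) y) (hT : acE ε T = T)
    (hF : FF H n (pair (res U (vL w)) (pair w q₂)) T (jnN y z)) :
    Ext H n (res U (vL v₁)) (pair (res U (vL V)) (pair V Q)) T (acE ε z) := by
  have g1 : Gd H (pair (res U (vL v₁)) (pair v₁ q₁)) W₁ :=
    Gd_of hG hU hv1.vv hv1.vL hv1.nx hv1.uW hv1.vW hq1
  have g2 : Gd H (pair (res U (vL w)) (pair w q₂)) W₂ :=
    Gd_of hG hU hw.vv hw.vL hw.nx hw.uW hw.vW hq2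
  have g0 : Gd H (pair (res U (vL V)) (pair V Q)) W₀ :=
    Gd_of hG hU hV.vv hV.vL hV.nx hV.uW hV.vW hQ
  have hd1 : dom (res U (vL v₁)) = vL v₁ := by
    have h := g1.2.2.2.2.2.1
    rwa [ACf_rU, ACf_rV] at h
  -- the identities
  have hρW : fgr (fun _ => fgr (fun a => a) Idx) (dom (res U (vL v₁))) ∈ W₁ := by
    have h1 : UF (fun _ v => fgr (fun _ => fgr (fun a => a) Idx) (dom (v 0))) := by
      infer_instance
    exact Wd_uf h1 hv1.nx.1 (v := fun _ => res U (vL v₁)) fun _ => hv1.uW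
  have hI : IE H ε (fgr (fun _ => fgr (fun a => a) Idx) (dom (res U (vL v₁))))
      (pair (res U (vL v₁)) (pair v₁ q₁)) (pair (res U (vL v₁)) (pair v₁ q₁)) W₁ := by
    refine ⟨g1, g1, hε, hεW, hinv, hcε, ?_, rfl, rfl, rfl, hρW, ?_, ?_, ?_⟩
    · rw [ACf_rV]
      exact hdε
    · rw [ACf_rU]
      intro γ hγ a ha
      have e1 : app (fgr (fun _ => fgr (fun a => a) Idx) (dom (res U (vL v₁)))) γ =
          fgr (fun a => a) Idx := app_fgr hγ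
      have e2 : app (fgr (fun a => a) Idx) a = a := app_fgr ha
      rw [e1, e2, e2]
      exact ⟨ha, rfl, rfl⟩
    · rw [ACf_rU, ACf_rV]
      intro γ hγ c hc
      rw [hd1] at hγ
      rw [hsv c hc γ hγ]
    · rw [ACf_rQ, hsq]
  have hR21 : RLe (pair (res U (vL w)) (pair w q₂)) (pair (res U (vL v₁)) (pair v₁ q₁)) := by
    refine ⟨?_, ?_, ?_⟩
    · rw [ACf_rU, ACf_rU]
      exact ACf_res hw1.1
    · rw [ACf_rV, ACf_rV]
      exact hw1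
    · rw [ACf_rU, ACf_rV, ACf_rQ, ACf_rQ]
      exact (QLe_res hw1.1 hq1).2 hq21
  obtain ⟨r', ρ', hI', hR⟩ := IE_step hG hI g2 hR21
  have hR10 : RLe (pair (res U (vL v₁)) (pair v₁ q₁)) (pair (res U (vL V)) (pair V Q)) := by
    refine ⟨?_, ?_, ?_⟩
    · rw [ACf_rU, ACf_rU]
      exact ACf_res hle.1
    · rw [ACf_rV, ACf_rV]
      exact hle
    · rw [ACf_rU, ACf_rV, ACf_rQ, ACf_rQ]
      exact (QLe_res hle.1 hQ).2 hq1Q
  have hJ := hI'.symm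
  obtain ⟨hrH, hWH, -, hrU, -⟩ := hI'.gr
  obtain ⟨W₃, -, g3, hy3⟩ := hy
  have hW3 : W₃ = W₂ := Nx_uniq g3.2.2.2.2.2.2.2.1 g2.2.2.2.2.2.2.2.1
  rw [hW3] at hy3
  have hy4 : RNm W₂ (rU r') (rV r') (acE ε y) := IE_RNm hJ hy3
  refine ⟨rU r', H_uf1 hG (F := fun x => rU x) (by infer_instance) hrH, hrU, ?_, r', hrH,
    acE ε y, H_tr hG hWH hy4.1.1, rfl, ?_, ⟨W₂, hWH, hI'.gr, hy4⟩, ?_⟩
  · have h1 := hR.1
    rwa [ACf_rU] at h1
  · exact RLe_trans g0 g1 hrU hR hR10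
  · have h1 := IE_FF hG hJ hF
    rwa [hT, acE_jnN] at h1

end H83.PN
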