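import Pool.Agent.H83.PN.ACa
import Pool.Agent.H83.PN.ACc
import Pool.Agent.H83.PN.ACd
import Pool.Agent.H83.PN.ACe
import Pool.Agent.H83.PN.ACf

set_option autoImplicit false

/-!
# Module ACg: `B k` has an element over the first columns

Suppose not. `stat_force` gives `v, W, q, T, x, m₁`. `D = {c ∈ vS v : fst c ∈ m₁, fst c ∉ m}`, `π = swp D (vS v)`, `V = unV v (acV π v)`, `Q = unQ q (acQ π q)` (`un_ok`); `z = acE π x`. `two_copies` and `no_ext` (`ev_Gq` for `T`: `VLe V v`)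
give `γ` with `¬ Ext H n (res U γ) r₁ T z`. (`RNm` for `z` at `V`: `acQ π` is an isomorphism of `P(u, v)` onto `P(u, acV π v)` (`QLe_acQ` and inverse), then `RNm_mono`; `SNm`.) `E = img (apc π) D ⊆ vS V`,
`ε = exz E (vS V)`, `new_coord` gives `v₁, W₁, q₁`. `x' = acE ε z` is over the columns `m`: a coordinate `c` of `x` has `fst c ∈ m₁`; if `fst c ∈ m` it is fixed by `π` and `ε`; otherwise `c ∈ D`, `π c ∈ E`,
`ε (π c)` is in the column `∅ ∈ m`. `copy_fails` gives `w, W₂, q₂, y`. `relabel` (for `z := acE ε z`): `acE ε T = T` because the coordinates of `T` are in `vS v`, which is disjoint from `dom ε`;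
`acE ε (acE ε z) = z`. So `Ext H n (res U (vL v₁)) r₁ T z`, hence `Ext H n (res U γ) r₁ T z` (`Ext_mono`, `γ ∈ vL v₁`), contradiction.
-/

namespace H83.PN

open ZFSet H83.AC

variable {M : Set ZFSet.{0}} {K H : ZFSet.{0}}

private theorem ACg_tr {L γ t : ZFSet.{0}} (h : rk L = L) (hg : γ ∈ L) (ht : t ∈ γ) : t ∈ L := by
  have h1 : rk γ = γ := by
    have h2 := hg
    rw [← h] at h2
    exact rk_of_mem_rk h2
  have h2 := rk_mono (rank_lt_of_mem hg).le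
  rw [h1, h] at h2
  exact h2 ht

private theorem ACg_csup {v q c : ZFSet.{0}} (hq : QQ v q) (h : c ∈ csup q) : c ∈ vS v := by
  rw [csup, ZFSet.mem_union, mem_img, mem_img] at h
  rcases h with ⟨t, ht, rfl⟩ | ⟨s, hs, rfl⟩
  · exact ((QQ_elt hq).1 t ht).2.1
  · exact ((QQ_elt hq).2 s hs).2.1

private theorem ACg_vS (hG : Gr M K H) {x : ZFSet.{0}} (h : x ∈ H) : vS x ∈ H :=
  H_uf1 hG (F := fun x => vS x) (Inst.vS (hf := UF.var 0)) h

private theorem ACg_eE {a e s : ZFSet.{0}} : s ∈ acE a e ↔ ∃ t ∈ e, s = pair (acQ a (fst t)) (snd t) := by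
  rw [acE, mem_img]
  exact ⟨fun ⟨t, ht, e⟩ => ⟨t, ht, e.symm⟩, fun ⟨t, ht, e⟩ => ⟨t, ht, e.symm⟩⟩

/-- an involution acts as an involution on first parts -/
private theorem ACg_invV {a v : ZFSet.{0}} (ha : Bij a) (h : ∀ c, apc a (apc a c) = c)
    (hv : VV v) : acV a (acV a v) = v := by
  rw [acV_cmp ha ha hv]
  exact acV_id hv fun c _ => by rw [(Bij_cmp ha ha).2.2 c, h c]

private theorem ACg_invQ {a v q : ZFSet.{0}} (ha : Bij a) (h : ∀ c, apc a (apc a c) = c)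
    (hq : QQ v q) : acQ a (acQ a q) = q := by
  rw [acQ_cmp ha ha hq]
  exact acQ_id hq fun c _ => by rw [(Bij_cmp ha ha).2.2 c, h c]

private theorem ACg_invE {a v e : ZFSet.{0}} (ha : Bij a) (h : ∀ c, apc a (apc a c) = c)
    (he : ∀ t ∈ e, t = pair (fst t) (snd t) ∧ fst t ∈ QP v ∧ snd t ∈ HF) :
    acE a (acE a e) = e := by
  ext s
  rw [ACg_eE]
  constructor
  · rintro ⟨t, ht, rfl⟩
    obtain ⟨t', ht', rfl⟩ := ACg_eE.1 ht
    obtain ⟨h1, h2, -⟩ := he t' ht'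
    rw [fst_pair, snd_pair, ACg_invQ ha h (mem_QP.1 h2), ← h1]
    exact ht'
  · intro hs
    obtain ⟨h1, h2, -⟩ := he s hs
    refine ⟨pair (acQ a (fst s)) (snd s), ACg_eE.2 ⟨s, hs, rfl⟩, ?_⟩
    rw [fst_pair, snd_pair, ACg_invQ ha h (mem_QP.1 h2)]
    exact h1

private theorem ACg_fixE {a v e : ZFSet.{0}}
    (he : ∀ t ∈ e, t = pair (fst t) (snd t) ∧ fst t ∈ QP v ∧ snd t ∈ HF)
    (h : ∀ c ∈ vS v, apc a c = c) : acE a e = e := by
  ext s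
  rw [ACg_eE]
  constructor
  · rintro ⟨t, ht, rfl⟩
    obtain ⟨h1, h2, -⟩ := he t ht
    rw [acQ_id (mem_QP.1 h2) (fun c hc => h c (ACg_csup (mem_QP.1 h2) hc)), ← h1]
    exact ht
  · intro hs
    obtain ⟨h1, h2, -⟩ := he s hs
    refine ⟨s, hs, ?_⟩
    rw [acQ_id (mem_QP.1 h2) (fun c hc => h c (ACg_csup (mem_QP.1 h2) hc))]
    exact h1

/-- an involution maps names of real numbers to names of real numbers -/
private theorem ACg_RNm {W u v x a m₁ : ZFSet.{0}} (hW : Wd W) (haW : a ∈ W) (ha : Bij a)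
    (hc : ColP a) (hinv : ∀ c, apc a (apc a c) = c) (hv : VV v) (hm1 : m₁ ∈ omega)
    (hx1 : ∀ t ∈ x, ∀ c ∈ csup (fst t), fst c ∈ m₁) (hx : RNm W u v x) :
    RNm W u (acV a v) (acE a x) := by
  obtain ⟨⟨hxW, hxe, -⟩, h1, h2, h3⟩ := hx
  have hback : ∀ {q q'}, QQ (acV a v) q → QLe u (acV a v) q' q → QLe u v (acQ a q') (acQ a q) := by
    intro q q' hq hle
    have h4 := QLe_acQ ha (VV_acV ha hv).1 hq hle
    rwa [ACg_invV ha hinv hv] at h4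
  have hQ : ∀ {q}, q ∈ QP v → acQ a q ∈ QP (acV a v) := fun hq =>
    mem_QP.2 (QQ_acQ ha hv (mem_QP.1 hq))
  have hQ' : ∀ {q}, q ∈ QP (acV a v) → acQ a q ∈ QP v := by
    intro q hq
    have h4 := QQ_acQ ha (VV_acV ha hv).1 (mem_QP.1 hq)
    rw [ACg_invV ha hinv hv] at h4
    exact mem_QP.2 h4
  refine ⟨⟨?_, ?_, m₁, hm1, ?_⟩, ?_, ?_, ?_⟩
  · have h4 : UF (fun _ v => H83.PN.acE (v 0) (v 1)) := by infer_instance
    exact Wd_uf h4 hW (v := cons a (fun _ => x)) (fun i => by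
      cases i with
      | zero => exact haW
      | succ i => exact hxW)
  · intro s hs
    obtain ⟨t, ht, rfl⟩ := ACg_eE.1 hs
    rw [fst_pair, snd_pair]
    exact ⟨rfl, hQ (hxe t ht).2.1, (hxe t ht).2.2⟩
  · intro s hs c hcs
    obtain ⟨t, ht, rfl⟩ := ACg_eE.1 hs
    rw [fst_pair] at hcs
    obtain ⟨d, hd, rfl⟩ := (csup_acQ ha (mem_QP.1 (hxe t ht).2.1)).1 hcs
    rw [ColP_apc hc]
    exact hx1 t ht d hd
  · intro s hs
    obtain ⟨t, ht, rfl⟩ := ACg_eE.1 hs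
    rw [snd_pair]
    exact h1 t ht
  · intro i hi q hq
    obtain ⟨q', hq', h4, t, ht, h5, h6⟩ := h2 i hi (acQ a q) (hQ' hq)
    refine ⟨acQ a q', hQ hq', ?_, pair (acQ a (fst t)) (snd t), ACg_eE.2 ⟨t, ht, rfl⟩, ?_, ?_⟩
    · have h7 := QLe_acQ ha hv (mem_QP.1 (hQ' hq)) h4
      rwa [ACg_invQ ha hinv (mem_QP.1 hq)] at h7
    · rw [snd_pair]
      exact h5
    · rw [fst_pair]
      exact QLe_acQ ha hv (mem_QP.1 (hxe t ht).2.1) h6
  · intro s hs s' hs' he hq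
    obtain ⟨t, ht, rfl⟩ := ACg_eE.1 hs
    obtain ⟨t', ht', rfl⟩ := ACg_eE.1 hs'
    obtain ⟨q, hq, h4, h5⟩ := hq
    rw [snd_pair, snd_pair] at he ⊢
    rw [fst_pair] at h4 h5
    have h6 := mem_QP.1 (hxe t ht).2.1
    have h7 := mem_QP.1 (hxe t' ht').2.1
    refine h3 t ht t' ht' he ⟨acQ a q, hQ' hq, ?_, ?_⟩
    · have h8 := hback (QQ_acQ ha hv h6) h4
      rwa [ACg_invQ ha hinv h6] at h8
    · have h8 := hback (QQ_acQ ha hv h7) h5
      rwa [ACg_invQ ha hinv h7] at h8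

private theorem ACg_Gd (hG : Gr M K H) {n : ℕ} {U : ZFSet.{0}} (hU : UOK M H n U)
    {u v W : ZFSet.{0}} (hv : VV v) (hvH : v ∈ H) (hL : vL v ∈ dom U) (hu : u = res U (vL v))
    (hWH : W ∈ H) (hnx : Nx (ws u) W) (huW : u ∈ W) (hvW : v ∈ W) :
    Gd H (pair u (pair v eQ)) W := by
  obtain ⟨h1, h2, h3⟩ := hU.seg _ hL
  have h4 : pair v eQ ∈ H := (mem_PU.1 (mk_PU hG hv hvH hL (QQ_empty v))).1
  have e1 : rU (pair u (pair v eQ)) = u := by rw [rU, fst_pair]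
  have e2 : rV (pair u (pair v eQ)) = v := by rw [rV, snd_pair, fst_pair]
  have e3 : rQ (pair u (pair v eQ)) = eQ := by rw [rQ, snd_pair, snd_pair]
  refine ⟨?_, hWH, ?_, ?_, ?_, ?_, ?_, ?_, ?_, ?_⟩
  · rw [hu]; exact H_pair hG h2 h4
  · rw [e1, e2, e3]
  · rw [e1, hu]; exact h1
  · rw [e2]; exact hv
  · rw [e1, e2, hu]; exact h3
  · rw [e2, e3]; exact QQ_empty v
  · rw [e1]; exact hnx
  · rw [e1]; exact huW
  · rw [e2]; exact hvW

theorem meets (hG : Gr M K H) {n : ℕ} {U : ZFSet.{0}} (hU : UOK M H n U)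
    {G : Set ZFSet.{0}} (hg : Gen M (SU U H) G) {m β k A : ZFSet.{0}} (hm : m ∈ omega)
    (hm0 : ∅ ∈ m) (hβ : β ∈ M) (hβS : HS (SU U H) β) (hβm : Supp (SU U H) m β)
    (hk : k ∈ omega) (hA : A = app (val G β) k) (hP : PiS (NN M (SU U H) G) (n + 2) A)
    (hne : A ≠ ∅) :
    ∃ w ∈ H, ∃ e ∈ H, Nmw (val G (nmG U H m)) w e ∧
      evS (val G (nmG U H m)) w e ∈ A := by
  by_contra hcon
  have hno : ∀ w ∈ H, ∀ e ∈ H, Nmw (val G (nmG U H m)) w e →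
      evS (val G (nmG U H m)) w e ∉ A := fun w hw e he h1 h2 => hcon ⟨w, hw, e, he, h1, h2⟩
  obtain ⟨v, W, q, T, x, m₁, hv, hq, hm1, hmm, hT, hx, hxR, hvq, hS⟩ :=
    stat_force hG hU hg hm hβ hβS hβm hk hA hP hne hno
  have hM := hG.tm
  have hWd : Wd W := hv.nx.1
  obtain ⟨D, hD⟩ : ∃ D, D = ZFSet.sep (fun c => fst c ∈ m₁ ∧ fst c ∉ m) (vS v) := ⟨_, rfl⟩
  obtain ⟨π, hπ⟩ : ∃ π, π = swp D (vS v) := ⟨_, rfl⟩
  obtain ⟨hπH, hπW, hV, hVv, hVa, hVL, hQ, hQq, hQa, hcV, hDn, hfix⟩ :=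
    un_ok hG hU hm hm1 hv hq hD hπ
  have hDv : ∀ c, c ∈ D ↔ c ∈ vS v ∧ fst c ∈ m₁ ∧ fst c ∉ m := fun c => by
    rw [hD, ZFSet.mem_sep]
  have hDsub : D ⊆ vS v := fun c hc => ((hDv c).1 hc).1
  obtain ⟨hbij, hcol, -, -, -, hinv, -⟩ := swp_ok hDsub (fun c hc => hv.vv.2.2.1 c (hDsub hc))
  rw [← hπ] at hbij hcol hinv
  have htc := fun G' (hg' : Gen M (SU U H) G') h1 =>
    two_copies hG hU hm hm1 hβ hβS hβm hv hq hxR hS hD hπ hg' h1
  generalize hVe : unV v (acV π v) = V at hV hVv hVa hVL hQ hcV htc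
  generalize hQe : unQ q (acQ π q) = Q at hQ hQq hQa htc
  obtain ⟨hTW, hTe, hTc⟩ := hT
  obtain ⟨hxW, hxe, hxc⟩ := hx
  have hTS : SNm W v T := ⟨hTW, hTe, m₁, hm1, hTc⟩
  obtain ⟨z, hz⟩ : ∃ z, z = acE π x := ⟨_, rfl⟩
  rw [← hz] at htc
  -- `z` is a name of a real number at `V`
  have hzR : RNm W (res U (vL V)) V z := by
    have h1 : RNm W (res U (vL v)) (acV π v) z := by
      rw [hz]
      exact ACg_RNm hWd hπW hbij hcol hinv hv.vv hm1 hxc hxR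
    have hav := VV_acV hbij hv.vv
    have havH : acV π v ∈ H := H_uf2 hG (F := fun a v => acV a v) (by infer_instance) hπH hv.vH
    have havW : acV π v ∈ W := by
      have h4 : UF (fun _ v => H83.PN.acV (v 0) (v 1)) := by infer_instance
      exact Wd_uf h4 hWd (v := cons π (fun _ => v)) (fun i => by
        cases i with
        | zero => exact hπW
        | succ i => exact hv.vW)
    have g1 : Gd H (pair (res U (vL v)) (pair (acV π v) eQ)) W :=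
      ACg_Gd hG hU hav.1 havH (by rw [hav.2.1]; exact hv.vL) (by rw [hav.2.1]) hv.WH hv.nx
        hv.uW havW
    have g2 : Gd H (pair (res U (vL v)) (pair V eQ)) W :=
      ACg_Gd hG hU hV.vv hV.vH (by rw [hVL]; exact hv.vL) (by rw [hVL]) hv.WH hv.nx
        hv.uW hV.vW
    have e1 : ∀ w, rU (pair (res U (vL v)) (pair w eQ)) = res U (vL v) := fun w => by
      rw [rU, fst_pair]
    have e2 : ∀ w, rV (pair (res U (vL v)) (pair w eQ)) = w := fun w => by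
      rw [rV, snd_pair, fst_pair]
    have e3 : ∀ w, rQ (pair (res U (vL v)) (pair w eQ)) = eQ := fun w => by
      rw [rQ, snd_pair, snd_pair]
    have h2 := RNm_mono (e := z) g1 g2 ⟨by rw [e1, e1], by rw [e2, e2]; exact hVa, by
      rw [e1, e2, e3, e3]; exact QLe_refl _ _ _⟩ (by rw [e1, e2]; exact h1)
    rw [e1, e2] at h2
    rw [hVL]
    exact h2
  have hTV : SNm W V T := SNm_mono (fun _ h => h) hVv hTS
  -- no extensions beyond some `γ`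
  obtain ⟨γ, hγ, hnE⟩ := no_ext hG hU hV hQ hTV hzR.1 (fun G' hg' hVG => by
    have h1 := htc G' hg' hVG
    have h2 : pair V eQ ∈ G' := by
      have h3 := Gq_eQ hG hU hg' hVG
      rwa [fst_pair] at h3
    rwa [← ev_Gq hG hU hg' hv.vv hv.vH h2 hVv (fun t ht =>
      ⟨mem_QP.1 (hTe t ht).2.1, (hTe t ht).1⟩)] at h1)
  -- the new coordinates
  obtain ⟨E, hE⟩ : ∃ E, E = img (fun c => apc π c) D := ⟨_, rfl⟩
  have hEm : ∀ c, c ∈ E ↔ ∃ d ∈ D, c = apc π d := fun c => by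
    rw [hE, mem_img]
    exact ⟨fun ⟨t, ht, e⟩ => ⟨t, ht, e.symm⟩, fun ⟨t, ht, e⟩ => ⟨t, ht, e.symm⟩⟩
  have hEV : E ⊆ vS V := by
    intro c hc
    obtain ⟨d, hd, rfl⟩ := (hEm c).1 hc
    exact (hcV _).2 (Or.inr ⟨d, hd, rfl⟩)
  have hDH : D ∈ H := by
    refine H_sub hG (ACg_vS hG hv.vH) ?_ hDsub
    have h1 : UF (fun _ v => ZFSet.sep (fun c => H83.AC.fst c ∈ v 0 ∧ ¬ H83.AC.fst c ∈ v 1)
        (H83.PN.vS (v 2))) := by infer_instance
    rw [hD]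
    refine h1.mem M hM (cons m₁ (cons m (fun _ => v))) (fun i => ?_)
    cases i with
    | zero => exact hM.tr _ (TM.omega hM) _ hm1
    | succ i =>
      cases i with
      | zero => exact hM.tr _ (TM.omega hM) _ hm
      | succ i => exact H_sub_M hG hv.vH
  have hEH : E ∈ H := by
    rw [hE]
    exact H_uf2 hG (F := fun a D => img (fun c => apc a c) D) (by infer_instance) hπH hDH
  obtain ⟨ε, hε⟩ : ∃ ε, ε = exz E (vS V) := ⟨_, rfl⟩
  obtain ⟨hεb, hεE, hεn, hεi, hεd⟩ := exz_ok hEV (fun c hc => hV.vv.2.2.1 c (hEV hc))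
  rw [← hε] at hεb hεE hεn hεi hεd
  obtain ⟨v₁, W₁, q₁, hv1, hεW, hv1V, hγ1, hq1, hq1Q, hr, hc1, hmap, hsv, hsV, hsq⟩ :=
    new_coord hG hU hV hQ hEV hEH hε hγ
  have hfixv : ∀ c ∈ vS v, apc ε c = c := fun c hc =>
    hεn c ((hcV c).2 (Or.inl hc)) fun hcE => by
      obtain ⟨d, hd, rfl⟩ := (hEm c).1 hcE
      exact hDn d hd hc
  have hxm : ∀ t ∈ acE ε z, ∀ c ∈ csup (fst t), fst c ∈ m := by
    intro t ht c hc
    obtain ⟨t1, ht1, rfl⟩ := ACg_eE.1 ht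
    rw [hz] at ht1
    obtain ⟨t2, ht2, rfl⟩ := ACg_eE.1 ht1
    obtain ⟨-, h2, -⟩ := hxe t2 ht2
    have h2 := mem_QP.1 h2
    rw [fst_pair, fst_pair] at hc
    obtain ⟨d, hd, rfl⟩ := (csup_acQ hεb (QQ_acQ hbij hv.vv h2)).1 hc
    obtain ⟨e, he, rfl⟩ := (csup_acQ hbij h2).1 hd
    have hev : e ∈ vS v := ACg_csup h2 he
    by_cases hem : fst e ∈ m
    · rw [hfix e hev (fun h => ((hDv e).1 h).2.2 hem), hfixv e hev]
      exact hem
    · have heD : e ∈ D := (hDv e).2 ⟨hev, hxc t2 ht2 e he, hem⟩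
      rw [(hεE _ ((hEm _).2 ⟨e, heD, rfl⟩)).1, fst_pair]
      exact hm0
  obtain ⟨w, W₂, q₂, y, hw, hq2, hw1, hq21, hy, hF⟩ :=
    copy_fails hG hU hm hv hq hTS hS hV hVv hzR hv1 hv1V hq1
      (QLe_trans hVv hq hq1Q hQq) hεb hεW hεi hmap hsV hxm
  have hTf : acE ε T = T := ACg_fixE hTe hfixv
  have hEx := relabel hG hU hV hQ hv1 hv1V hq1 hq1Q hr hεb hεW hεi (fun c hc => by
      rcases (hεd c).1 hc with h1 | ⟨d, hd, h1⟩
      · exact (hc1 c).2 (Or.inl (hEV h1))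
      · exact (hc1 c).2 (Or.inr ⟨d, hd, by rw [(hεE d hd).1]; exact h1⟩))
    ⟨m₁, hm1, fun c hc => by
      rcases (hεd c).1 hc with h1 | ⟨d, hd, h1⟩
      · obtain ⟨d, hd, rfl⟩ := (hEm c).1 h1
        rw [ColP_apc hcol]
        exact ((hDv d).1 hd).2.1
      · rw [h1, fst_pair]
        exact hmm hm0⟩ hsv hsq hw hw1 hq2 hq21 hy hTf hF
  rw [ACg_invE hεb hεi hzR.1.2.1] at hEx
  apply hnE
  obtain ⟨u', h1, h2, h3, h4⟩ := hEx
  refine ⟨u', h1, h2, fun t ht => h3 ?_, h4⟩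
  rw [res, ZFSet.mem_sep] at ht ⊢
  exact ⟨ht.1, ACg_tr hv1.vv.2.1 hγ1 ht.2⟩

end H83.PN
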