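import Pool.Agent.H83.PN.GNa
import Pool.Agent.H83.PN.GTruA
import Pool.Agent.H83.PN.GActF

set_option autoImplicit false

/-!
# Module GNc: the power set in the symmetric extension

As in `AC/NNc.lean`: `b = {(ρ, sE S) : ρ ∈ M, HS S ρ, ρ ⊆ prod (nd S σ) (sP S)}`.
-/

namespace H83.PN

open ZFSet H83.AC

theorem NN_pow {M G : Set ZFSet.{0}} {S : ZFSet.{0}} (hM : TM M) (hS : Sys S) (hSM : S ∈ M)
    (hG : Gen M S G) {x : ZFSet.{0}} (hx : x ∈ NN M S G) :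
    ∃ b ∈ NN M S G, ∀ y ∈ NN M S G, y ⊆ x → y ∈ b := by
  obtain ⟨σ, hσ, hHS, rfl⟩ := hx
  have hHS' := HS_iff.1 hHS
  obtain ⟨m, hm⟩ := hHS'.2.1
  have hv2 : ∀ n, cons S (fun _ => σ) n ∈ M := by
    intro n
    cases n with
    | zero => exact hSM
    | succ n => exact hσ
  have hndM : nd S σ ∈ M :=
    (inferInstance : UF (fun (_ : Set ZFSet.{0}) v => nd (v 0) (v 1))).mem M hM
      (cons S (fun _ => σ)) hv2
  let A : ZFSet := ZFSet.sep (fun ρ => HS S ρ)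
    (ZFSet.sep (fun ρ => ρ ∈ M) (powerset (ZFSet.prod (nd S σ) (sP S))))
  have hpowU : UF (fun N v => ZFSet.sep (fun ρ => ρ ∈ N)
      (powerset (ZFSet.prod (nd (v 0) (v 1)) (sP (v 0))))) :=
    UF.pow (inferInstance : UF (fun (_ : Set ZFSet.{0}) v =>
      ZFSet.prod (nd (v 0) (v 1)) (sP (v 0))))
  have hA : A ∈ M :=
    (UF.sep (R := fun _ ρ v => HS (v 0) ρ) hpowU
      (UR.HS (UF.var 1) (UF.var 0))).mem M hM (cons S (fun _ => σ)) hv2
  have memA : ∀ ρ, ρ ∈ A ↔ ρ ∈ M ∧ ρ ⊆ ZFSet.prod (nd S σ) (sP S) ∧ HS S ρ := by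
    intro ρ
    rw [mem_sep, mem_sep, mem_powerset]
    tauto
  let b : ZFSet := img (fun ρ => pair ρ (sE S)) A
  have hb : b ∈ M := by
    refine (UF.img (F := fun _ ρ v => pair ρ (sE (v 0))) (UF.var 1)
      (inferInstance : UF (fun (_ : Set ZFSet.{0}) v => pair (v 0) (sE (v 1))))).mem M hM
      (cons S (fun _ => A)) (fun n => ?_)
    cases n with
    | zero => exact hSM
    | succ n => exact hA
  have memb : ∀ ρ p, pair ρ p ∈ b ↔ ρ ∈ A ∧ p = sE S := by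
    intro ρ p
    rw [mem_img]
    constructor
    · rintro ⟨ρ', h, e⟩
      obtain ⟨rfl, rfl⟩ := pair_injective e
      exact ⟨h, rfl⟩
    · rintro ⟨h, rfl⟩
      exact ⟨ρ, h, rfl⟩
  -- the set `A` is invariant
  have hinv : ∀ a ∈ app (sH S) m, ∀ ρ ∈ A, actN S a ρ ∈ A := by
    intro a ha ρ hρ
    have haA : a ∈ sA S := hS.subH m hm.1 ha
    obtain ⟨h1, h2, h3⟩ := (memA ρ).1 hρ
    refine (memA _).2 ⟨?_, fun t ht => ?_, HS_actN hS haA h3⟩
    · refine (UF.actN (UF.var 0) (UF.var 1) (UF.var 2)).mem M hM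
        (cons S (cons a (fun _ => ρ))) (fun n => ?_)
      rcases n with _ | _ | n
      · exact hSM
      · exact sA_M hM hSM haA
      · exact h1
    · obtain ⟨π, p, hp, hπ, rfl⟩ := mem_actN.1 ht
      have h4 := h2 hπ
      rw [pair_mem_prod] at h4
      rw [pair_mem_prod]
      refine ⟨?_, app_mem hS haA hp⟩
      have h5 : actN S a π ∈ nd S (actN S a σ) := (mem_nd_actN hS haA).2 ⟨π, h4.1, rfl⟩
      rwa [hm.2 a ha] at h5
  have hbHS : HS S b := by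
    refine HS_iff.2 ⟨fun t ht => ?_, ⟨m, hm.1, fun a ha => ?_⟩, fun π hπ => ?_⟩
    · obtain ⟨ρ, _, rfl⟩ := mem_img.1 ht
      exact ⟨ρ, sE S, hS.topP, rfl⟩
    · have haA : a ∈ sA S := hS.subH m hm.1 ha
      ext t
      constructor
      · intro ht
        obtain ⟨ρ, p, hp, hρ, rfl⟩ := mem_actN.1 ht
        obtain ⟨h1, rfl⟩ := (memb _ _).1 hρ
        rw [hS.autE a haA]
        exact (memb _ _).2 ⟨hinv a ha ρ h1, rfl⟩
      · intro ht
        obtain ⟨ρ, hρ, rfl⟩ := mem_img.1 ht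
        obtain ⟨a', ha', hinvs⟩ := hS.invH m hm.1 a ha
        have haA' : a' ∈ sA S := hS.subH m hm.1 ha'
        refine mem_actN.2 ⟨actN S a' ρ, sE S, hS.topP, (memb _ _).2 ⟨hinv a' ha' ρ hρ, rfl⟩, ?_⟩
        rw [hS.autE a haA, actN_inv hS haA' haA ((memA ρ).1 hρ).2.2.isName
          (fun p hp => (hinvs p hp).2)]
    · obtain ⟨p, _, hp⟩ := mem_nd.1 hπ
      exact ((memA _).1 ((memb _ _).1 hp).1).2.2
  refine ⟨val G b, ⟨b, hb, hbHS, rfl⟩, ?_⟩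
  rintro y ⟨ρ₀, hρ₀, hHS₀, rfl⟩ hsub
  -- the name of `y`
  let ρ : ZFSet := ZFSet.sep (fun t => snd t ∈ sP S ∧ FMem S (snd t) (fst t) ρ₀)
    (ZFSet.prod (nd S σ) (sP S))
  have hρM : ρ ∈ M := by
    refine (UF.sep (R := fun _ t v => snd t ∈ sP (v 0) ∧ FMem (v 0) (snd t) (fst t) (v 2))
      (inferInstance : UF (fun (_ : Set ZFSet.{0}) v =>
        ZFSet.prod (nd (v 0) (v 1)) (sP (v 0))))
      (UR.FMem (UF.var 1) (UF.snd (UF.var 0)) (UF.fst (UF.var 0)) (UF.var 3))).mem M hM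
      (cons S (cons σ (fun _ => ρ₀))) (fun n => ?_)
    rcases n with _ | _ | n
    · exact hSM
    · exact hσ
    · exact hρ₀
  have memρ : ∀ π p, pair π p ∈ ρ ↔ π ∈ nd S σ ∧ p ∈ sP S ∧ FMem S p π ρ₀ := by
    intro π p
    rw [mem_sep, pair_mem_prod, fst_pair, snd_pair]
    tauto
  have hρsub : ρ ⊆ ZFSet.prod (nd S σ) (sP S) := fun t ht => (mem_sep.1 ht).1
  have hndσ : ∀ π ∈ nd S σ, HS S π := hHS'.2.2
  have hρHS : HS S ρ := by
    obtain ⟨m₀, hm₀⟩ := (HS_iff.1 hHS₀).2.1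
    obtain ⟨i, rfl⟩ := mem_omega.1 hm.1
    obtain ⟨j, rfl⟩ := mem_omega.1 hm₀.1
    have h1 : Supp S (nz (max i j)) σ := Supp_mono hS (le_max_left _ _) hm
    have h2 : Supp S (nz (max i j)) ρ₀ := Supp_mono hS (le_max_right _ _) hm₀
    have hcl : ∀ a ∈ app (sH S) (nz (max i j)), ∀ π p, pair π p ∈ ρ →
        pair (actN S a π) (app a p) ∈ ρ := by
      intro a ha π p hπ
      have haA : a ∈ sA S := hS.subH _ h1.1 ha
      obtain ⟨h3, h4, h5⟩ := (memρ _ _).1 hπ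
      refine (memρ _ _).2 ⟨?_, app_mem hS haA h4, ?_⟩
      · have h6 : actN S a π ∈ nd S (actN S a σ) := (mem_nd_actN hS haA).2 ⟨π, h3, rfl⟩
        rwa [h1.2 a ha] at h6
      · have h6 := FMem_act hS haA h4 (hndσ π h3).isName hHS₀.isName h5
        rwa [h2.2 a ha] at h6
    refine HS_iff.2 ⟨fun t ht => ?_, ⟨nz (max i j), h1.1, fun a ha => ?_⟩, fun π hπ => ?_⟩
    · obtain ⟨π, _, p, hp, e⟩ := mem_prod.1 (hρsub ht)
      exact ⟨π, p, hp, e⟩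
    · have haA : a ∈ sA S := hS.subH _ h1.1 ha
      ext t
      constructor
      · intro ht
        obtain ⟨π, p, _, hπ, rfl⟩ := mem_actN.1 ht
        exact hcl a ha π p hπ
      · intro ht
        obtain ⟨π, hπ, p, hp, rfl⟩ := mem_prod.1 (hρsub ht)
        obtain ⟨a', ha', hinvs⟩ := hS.invH _ h1.1 a ha
        have haA' : a' ∈ sA S := hS.subH _ h1.1 ha'
        refine mem_actN.2 ⟨actN S a' π, app a' p, app_mem hS haA' hp, hcl a' ha' π p ht, ?_⟩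
        rw [(hinvs p hp).2, actN_inv hS haA' haA (hndσ π hπ).isName
          (fun q hq => (hinvs q hq).2)]
    · obtain ⟨p, _, hp⟩ := mem_nd.1 hπ
      exact hndσ π ((memρ _ _).1 hp).1
  have hval : val G ρ = val G ρ₀ := by
    ext w
    constructor
    · intro hw
      obtain ⟨π, p, hp, hπ, rfl⟩ := mem_val.1 hw
      obtain ⟨h1, _, h3⟩ := (memρ _ _).1 hπ
      exact (truth_mem hM hS hSM hG (hM.tr _ hndM _ h1) hρ₀).2 ⟨p, hp, h3⟩
    · intro hw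
      obtain ⟨π, r, hr, hπ, rfl⟩ := mem_val.1 (hsub hw)
      have h1 : π ∈ nd S σ := mem_nd.2 ⟨r, hG.sub r hr, hπ⟩
      obtain ⟨p, hp, h3⟩ := (truth_mem hM hS hSM hG (hM.tr _ hndM _ h1) hρ₀).1 hw
      exact mem_val.2 ⟨π, p, hp, (memρ _ _).2 ⟨h1, hG.sub p hp, h3⟩, rfl⟩
  rw [← hval]
  exact mem_val.2 ⟨ρ, sE S, top_mem hM hS hSM hG, (memb _ _).2
    ⟨(memA _).2 ⟨hρM, hρsub, hρHS⟩, rfl⟩, rfl⟩

end H83.PN
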