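import Pool.Agent.H83.PN.GSubU
import Pool.Agent.H83.PN.GHSU

set_option autoImplicit false

/-!
# Module GFcU: the forcing relation is uniformly definable (for every formula)

The same proof as in `AC/FcU.lean` (induction on `φ`): condition `w 0`, system `w 1`, assignment
`sh (sh w)`. In the case `all` the new name is variable `0`, the condition and `S` move to `1` and `2`:
rename.
-/

namespace H83.PN

open ZFSet H83.AC

/-- the variables `0, 1, 2` go to `1, 2, 0` -/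
private def GFcU_cyc : ℕ → ℕ
  | 0 => 1
  | 1 => 2
  | 2 => 0
  | n + 3 => n + 3

theorem UR.Fc (φ : Fml) :
    UR (fun N w => w 0 ∈ sP (w 1) ∧ H83.PN.Fc N (w 1) φ (w 0) (sh (sh w))) := by
  induction φ with
  | bot =>
    exact (UD.false (C := TM)).congr fun N _ v _ =>
      ⟨fun h => h.2, fun h => h.elim⟩
  | eq i j =>
    exact (UR.FEq (UF.var 1) (UF.var 0) (UF.var (i + 2)) (UF.var (j + 2))).congr
      fun N _ v _ => Iff.rfl
  | mem i j =>
    exact (UR.FMem (UF.var 1) (UF.var 0) (UF.var (i + 2)) (UF.var (j + 2))).congr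
      fun N _ v _ => Iff.rfl
  | imp φ ψ h1 h2 =>
    have h1' : UR (fun N v => v 0 ∈ sP (v 2) ∧ H83.PN.Fc N (v 2) φ (v 0) (sh (sh (sh v)))) :=
      (h1.ren (lift Nat.succ)).congr fun N _ v _ => Iff.rfl
    have h2' : UR (fun N v => v 0 ∈ sP (v 2) ∧ H83.PN.Fc N (v 2) ψ (v 0) (sh (sh (sh v)))) :=
      (h2.ren (lift Nat.succ)).congr fun N _ v _ => Iff.rfl
    have hle : UR (fun (_ : Set ZFSet.{0}) (v : ℕ → ZFSet.{0}) => H83.PN.Le (v 2) (v 0) (v 1)) :=
      @Inst.Le _ _ _ (UF.var 2) (UF.var 0) (UF.var 1)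
    have h3 : UR (fun N w => ∀ q ∈ sP (w 1), H83.PN.Le (w 1) q (w 0) →
        (q ∈ sP (w 1) ∧ H83.PN.Fc N (w 1) φ q (sh (sh w))) →
          (q ∈ sP (w 1) ∧ H83.PN.Fc N (w 1) ψ q (sh (sh w)))) :=
      UR.ball (R := fun N q w => H83.PN.Le (w 1) q (w 0) →
        (q ∈ sP (w 1) ∧ H83.PN.Fc N (w 1) φ q (sh (sh w))) →
          (q ∈ sP (w 1) ∧ H83.PN.Fc N (w 1) ψ q (sh (sh w)))) (@Inst.sP _ (UF.var 1))
        (UD.imp hle (UD.imp h1' h2'))
    refine (UD.and (UR.mem (UF.var 0) (@Inst.sP _ (UF.var 1))) h3).congr fun N _ v _ => ?_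
    refine and_congr Iff.rfl ?_
    constructor
    · intro H q hq hpq hφ
      exact ⟨hq, H q hq hpq hφ.2⟩
    · intro H q hq hpq hφ
      exact (H q hq hpq ⟨hq, hφ⟩).2
  | all φ ih =>
    have h1 : UR (fun N v => v 1 ∈ sP (v 2) ∧
        H83.PN.Fc N (v 2) φ (v 1) (cons (v 0) (sh (sh (sh v))))) := by
      refine (ih.ren GFcU_cyc).congr fun N _ v _ => ?_
      have e : (sh (sh (fun n => v (GFcU_cyc n)))) = cons (v 0) (sh (sh (sh v))) := by
        funext n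
        cases n <;> rfl
      rw [e]
      rfl
    have h2 : UR (fun N w => ∀ σ ∈ N, H83.PN.HS (w 1) σ →
        (w 0 ∈ sP (w 1) ∧ H83.PN.Fc N (w 1) φ (w 0) (cons σ (sh (sh w))))) :=
      UD.allN (R := fun N σ w => H83.PN.HS (w 1) σ →
        (w 0 ∈ sP (w 1) ∧ H83.PN.Fc N (w 1) φ (w 0) (cons σ (sh (sh w)))))
        (UD.imp (UR.HS (UF.var 2) (UF.var 0)) h1)
    refine (UD.and (UR.mem (UF.var 0) (@Inst.sP _ (UF.var 1))) h2).congr fun N _ v _ => ?_
    constructor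
    · rintro ⟨hp, H⟩
      exact ⟨hp, fun σ hσ hs => ⟨hp, H σ hσ hs⟩⟩
    · rintro ⟨hp, H⟩
      exact ⟨hp, fun σ hσ hs => (H σ hσ hs).2⟩

end H83.PN
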