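import Pool.Agent.H83.PN.GTruA
import Pool.Agent.H83.PN.GFcU

set_option autoImplicit false

/-!
# Module GTru: the truth lemma for the symmetric extension

The same proof as in `AC/Truth.lean` (induction on `φ` for all assignments of hereditarily symmetric
names of `M`).
-/

namespace H83.PN

open ZFSet H83.AC

/-- the definability of the dense set for an implication -/
private theorem GTru_urImp (φ ψ : Fml) : UR (fun N w =>
    (w 0 ∈ sP (w 1) ∧ Fc N (w 1) (.imp φ ψ) (w 0) (sh (sh w))) ∨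
      ((w 0 ∈ sP (w 1) ∧ Fc N (w 1) φ (w 0) (sh (sh w))) ∧
      ∀ r ∈ sP (w 1), Le (w 1) r (w 0) →
        ¬ (r ∈ sP (w 1) ∧ Fc N (w 1) ψ r (sh (sh w))))) := by
  refine UD.or (UR.Fc (.imp φ ψ)) (UD.and (UR.Fc φ) ?_)
  refine UR.ball (f := fun _ w => sP (w 1))
    (R := fun N r w => Le (w 1) r (w 0) → ¬ (r ∈ sP (w 1) ∧ Fc N (w 1) ψ r (sh (sh w))))
    (@Inst.sP _ (UF.var 1)) ?_
  refine UD.imp (@Inst.Le _ _ _ (UF.var 2) (UF.var 0) (UF.var 1)) (UD.not ?_)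
  exact ((UR.Fc ψ).ren (fun n => if n = 0 then 0 else n + 1)).congr fun N _ w _ => Iff.rfl

/-- the definability of the dense set for a universal quantifier -/
private theorem GTru_urAll (φ : Fml) : UR (fun N w =>
    (w 0 ∈ sP (w 1) ∧ Fc N (w 1) (.all φ) (w 0) (sh (sh w))) ∨ (∃ σ ∈ N, HS (w 1) σ ∧
      ∀ r ∈ sP (w 1), Le (w 1) r (w 0) →
        ¬ (r ∈ sP (w 1) ∧ Fc N (w 1) φ r (cons σ (sh (sh w)))))) := by
  refine UD.or (UR.Fc (.all φ)) ?_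
  refine UD.exN (R := fun N σ w => HS (w 1) σ ∧
    ∀ r ∈ sP (w 1), Le (w 1) r (w 0) →
      ¬ (r ∈ sP (w 1) ∧ Fc N (w 1) φ r (cons σ (sh (sh w))))) ?_
  refine UD.and (UR.HS (UF.var 2) (UF.var 0)) ?_
  refine UR.ball (f := fun _ w => sP (w 2))
    (R := fun N r w => Le (w 2) r (w 1) →
      ¬ (r ∈ sP (w 2) ∧ Fc N (w 2) φ r (cons (w 0) (sh (sh (sh w))))))
    (@Inst.sP _ (UF.var 2)) ?_
  refine UD.imp (@Inst.Le _ _ _ (UF.var 3) (UF.var 0) (UF.var 2)) (UD.not ?_)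
  refine ((UR.Fc φ).ren (fun n => if n = 0 then 0 else if n = 1 then 3 else if n = 2 then 1
    else n + 1)).congr fun N _ w _ => ?_
  have e : (sh (sh (fun n => w ((fun n => if n = 0 then 0 else if n = 1 then 3 else
      if n = 2 then 1 else n + 1) n)))) = cons (w 1) (sh (sh (sh (sh w)))) := by
    funext n
    cases n with
    | zero => rfl
    | succ n => rfl
  show (w 0 ∈ sP (w 3) ∧ Fc N (w 3) φ (w 0) (cons (w 1) (sh (sh (sh (sh w)))))) ↔ _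
  rw [← e]
  exact Iff.rfl

private theorem GTru_cons {M : Set ZFSet.{0}} {S : ZFSet.{0}} (hSM : S ∈ M) {v : ℕ → ZFSet.{0}}
    (hv : ∀ i, v i ∈ M) : ∀ i, cons S v i ∈ M := by
  intro i
  cases i with
  | zero => exact hSM
  | succ i => exact hv i

private theorem GTru_sP {M : Set ZFSet.{0}} {S : ZFSet.{0}} (hM : TM M) (hSM : S ∈ M)
    {v : ℕ → ZFSet.{0}} (hv : ∀ i, v i ∈ M) : sP S ∈ M :=
  (@Inst.sP _ (UF.var 0)).mem M hM (cons S v) (GTru_cons hSM hv)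

private theorem GTru_imp {M G : Set ZFSet.{0}} {S : ZFSet.{0}} (hM : TM M) (hS : Sys S)
    (hSM : S ∈ M) (hG : Gen M S G) (φ ψ : Fml)
    (v : ℕ → ZFSet.{0}) (hv : ∀ i, v i ∈ M ∧ HS S (v i))
    (h1 : SatIn (NN M S G) φ (fun i => val G (v i)) ↔ ∃ p ∈ G, Fc M S φ p v)
    (h2 : SatIn (NN M S G) ψ (fun i => val G (v i)) ↔ ∃ p ∈ G, Fc M S ψ p v) :
    SatIn (NN M S G) (.imp φ ψ) (fun i => val G (v i)) ↔
      ∃ p ∈ G, Fc M S (.imp φ ψ) p v := by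
  constructor
  · intro H
    have hD : ZFSet.sep (fun x => (x ∈ sP S ∧ Fc M S (.imp φ ψ) x v) ∨
        ((x ∈ sP S ∧ Fc M S φ x v) ∧ ∀ r ∈ sP S, Le S r x → ¬ (r ∈ sP S ∧ Fc M S ψ r v)))
          (sP S) ∈ M :=
      TM.sep_of (R := fun N x w =>
      (x ∈ sP (w 0) ∧ Fc N (w 0) (.imp φ ψ) x (sh w)) ∨ ((x ∈ sP (w 0) ∧ Fc N (w 0) φ x (sh w)) ∧
        ∀ r ∈ sP (w 0), Le (w 0) r x → ¬ (r ∈ sP (w 0) ∧ Fc N (w 0) ψ r (sh w))))
      (GTru_urImp φ ψ) hM (v := cons S v)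
      (GTru_cons hSM fun i => (hv i).1) (GTru_sP hM hSM fun i => (hv i).1)
    have hd : ∀ p ∈ sP S, ∃ q ∈ (ZFSet.sep (fun x => (x ∈ sP S ∧ Fc M S (.imp φ ψ) x v) ∨
        ((x ∈ sP S ∧ Fc M S φ x v) ∧ ∀ r ∈ sP S, Le S r x → ¬ (r ∈ sP S ∧ Fc M S ψ r v)))
          (sP S)), Le S q p := by
      intro p hp
      by_cases hF : Fc M S (.imp φ ψ) p v
      · exact ⟨p, mem_sep.2 ⟨hp, Or.inl ⟨hp, hF⟩⟩, hS.refl p hp⟩
      · have hF' : ¬ ∀ q ∈ sP S, Le S q p → Fc M S φ q v → Fc M S ψ q v := hF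
        push Not at hF'
        obtain ⟨q, hq, hpq, hqφ, hqψ⟩ := hF'
        have hn : ¬ ∀ q' ∈ sP S, Le S q' q → ∃ r ∈ sP S, Le S r q' ∧ Fc M S ψ r v :=
          fun h => hqψ (Fc_dense hS ψ hq h)
        push Not at hn
        obtain ⟨q', hq', hqq', hn⟩ := hn
        exact ⟨q', mem_sep.2 ⟨hq', Or.inr ⟨⟨hq', Fc_mono hS φ hqq' hqφ⟩,
          fun r hr hqr hh => hn r hr hqr hh.2⟩⟩, hS.trans hqq' hpq⟩
    obtain ⟨q, hq, hqG⟩ := hG.meet _ hD (fun x hx => (mem_sep.1 hx).1) hd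
    obtain ⟨hqC, hq | ⟨hq, hn⟩⟩ := mem_sep.1 hq
    · exact ⟨q, hqG, hq.2⟩
    · exfalso
      have hs : SatIn (NN M S G) ψ (fun i => val G (v i)) := H (h1.2 ⟨q, hqG, hq.2⟩)
      obtain ⟨p, hp, hpψ⟩ := h2.1 hs
      obtain ⟨r, hr, hrq, hrp⟩ := hG.dir q hqG p hp
      exact hn r (hG.sub r hr) hrq ⟨hG.sub r hr, Fc_mono hS ψ hrp hpψ⟩
  · rintro ⟨p, hp, hF⟩ hs
    obtain ⟨q, hq, hqφ⟩ := h1.1 hs
    obtain ⟨r, hr, hrp, hrq⟩ := hG.dir p hp q hq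
    exact h2.2 ⟨r, hr, hF r (hG.sub r hr) hrp (Fc_mono hS φ hrq hqφ)⟩

theorem truth {M G : Set ZFSet.{0}} {S : ZFSet.{0}} (hM : TM M) (hS : Sys S) (hSM : S ∈ M)
    (hG : Gen M S G) (φ : Fml) (v : ℕ → ZFSet.{0}) (hv : ∀ i, v i ∈ M ∧ HS S (v i)) :
    SatIn (NN M S G) φ (fun i => val G (v i)) ↔ ∃ p ∈ G, Fc M S φ p v := by
  induction φ generalizing v with
  | bot =>
    constructor
    · intro h
      exact absurd h id
    · rintro ⟨p, -, h⟩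
      exact absurd h id
  | eq i j => exact truth_eq hM hS hSM hG (hv i).1 (hv j).1
  | mem i j => exact truth_mem hM hS hSM hG (hv i).1 (hv j).1
  | imp φ ψ h1 h2 => exact GTru_imp hM hS hSM hG φ ψ v hv (h1 v hv) (h2 v hv)
  | all φ ih =>
    have hcons : ∀ σ : ZFSet.{0}, (fun i => val G (cons σ v i)) =
        cons (val G σ) (fun i => val G (v i)) := by
      intro σ
      funext i
      cases i with
      | zero => rfl
      | succ i => rfl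
    have hcv : ∀ σ ∈ M, HS S σ → ∀ i, cons σ v i ∈ M ∧ HS S (cons σ v i) := by
      intro σ hσ hs i
      cases i with
      | zero => exact ⟨hσ, hs⟩
      | succ i => exact hv i
    constructor
    · intro H
      have hD : ZFSet.sep (fun x => (x ∈ sP S ∧ Fc M S (.all φ) x v) ∨ (∃ σ ∈ M, HS S σ ∧
          ∀ r ∈ sP S, Le S r x → ¬ (r ∈ sP S ∧ Fc M S φ r (cons σ v)))) (sP S) ∈ M :=
        TM.sep_of (R := fun N x w =>
        (x ∈ sP (w 0) ∧ Fc N (w 0) (.all φ) x (sh w)) ∨ (∃ σ ∈ N, HS (w 0) σ ∧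
          ∀ r ∈ sP (w 0), Le (w 0) r x →
            ¬ (r ∈ sP (w 0) ∧ Fc N (w 0) φ r (cons σ (sh w))))) (GTru_urAll φ) hM
        (v := cons S v)
        (GTru_cons hSM fun i => (hv i).1) (GTru_sP hM hSM fun i => (hv i).1)
      have hd : ∀ p ∈ sP S, ∃ q ∈ (ZFSet.sep (fun x => (x ∈ sP S ∧ Fc M S (.all φ) x v) ∨
          (∃ σ ∈ M, HS S σ ∧
          ∀ r ∈ sP S, Le S r x → ¬ (r ∈ sP S ∧ Fc M S φ r (cons σ v)))) (sP S)), Le S q p := by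
        intro p hp
        by_cases hF : Fc M S (.all φ) p v
        · exact ⟨p, mem_sep.2 ⟨hp, Or.inl ⟨hp, hF⟩⟩, hS.refl p hp⟩
        · have hF' : ¬ ∀ σ ∈ M, HS S σ → Fc M S φ p (cons σ v) := hF
          push Not at hF'
          obtain ⟨σ, hσ, hs, hn0⟩ := hF'
          have hn : ¬ ∀ q' ∈ sP S, Le S q' p →
              ∃ r ∈ sP S, Le S r q' ∧ Fc M S φ r (cons σ v) :=
            fun h => hn0 (Fc_dense hS φ hp h)
          push Not at hn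
          obtain ⟨q', hq', hpq', hn⟩ := hn
          exact ⟨q', mem_sep.2 ⟨hq', Or.inr ⟨σ, hσ, hs,
            fun r hr hqr hh => hn r hr hqr hh.2⟩⟩, hpq'⟩
      obtain ⟨q, hq, hqG⟩ := hG.meet _ hD (fun x hx => (mem_sep.1 hx).1) hd
      obtain ⟨hqC, hq | ⟨σ, hσ, hs, hn⟩⟩ := mem_sep.1 hq
      · exact ⟨q, hqG, hq.2⟩
      · exfalso
        have h3 := H (val G σ) ⟨σ, hσ, hs, rfl⟩
        rw [← hcons σ] at h3
        obtain ⟨p, hp, hpφ⟩ := (ih (cons σ v) (hcv σ hσ hs)).1 h3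
        obtain ⟨r, hr, hrq, hrp⟩ := hG.dir q hqG p hp
        exact hn r (hG.sub r hr) hrq ⟨hG.sub r hr, Fc_mono hS φ hrp hpφ⟩
    · rintro ⟨p, hp, hF⟩ x ⟨σ, hσ, hs, rfl⟩
      rw [← hcons σ]
      exact (ih (cons σ v) (hcv σ hσ hs)).2 ⟨p, hp, hF σ hσ hs⟩

end H83.PN
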