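import Pool.Agent.H83.PN.GNa
import Pool.Agent.H83.PN.GTru
import Pool.Agent.H83.PN.GActF

set_option autoImplicit false

/-!
# Module GNd: collection in the symmetric extension

As in `AC/NNd.lean`: collection in `M` gives `B ∈ M`; let
`B' = {actN a τ : τ ∈ B, HS S τ, a ∈ sA S} ∪ {τ ∈ B : HS S τ}` (`Sys.comp`); the name
`{(τ, sE S) : τ ∈ B'}` is fixed by all `a ∈ sA S` (its support is `∅`).
-/

namespace H83.PN

open ZFSet H83.AC

private theorem GNd_ud (φ : Fml) : UR (fun N v => snd (v 0) ∈ sP (v 2) ∧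
    H83.PN.Fc N (v 2) φ (snd (v 0)) (cons (fst (v 0)) (cons (v 1) (sh (sh (sh v)))))) := by
  have h0 := UR.Fc φ
  have h1 := h0.ren (fun n => if n = 0 then 0 else if n = 1 then 4 else if n = 2 then 1 else
    if n = 3 then 3 else n + 1)
  have h2 : UR (fun N v => v 0 ∈ sP (v 4) ∧
      H83.PN.Fc N (v 4) φ (v 0) (cons (v 1) (cons (v 3) (sh (sh (sh (sh (sh v)))))))) := by
    refine h1.congr fun N _ v _ => ?_
    have e : (sh (sh fun n => v (if n = 0 then 0 else if n = 1 then 4 else if n = 2 then 1 else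
        if n = 3 then 3 else n + 1))) = cons (v 1) (cons (v 3) (sh (sh (sh (sh (sh v)))))) := by
      funext n
      rcases n with _ | _ | n
      · rfl
      · rfl
      · show v (if n + 2 + 2 = 0 then 0 else if n + 2 + 2 = 1 then 4 else
          if n + 2 + 2 = 2 then 1 else if n + 2 + 2 = 3 then 3 else n + 2 + 2 + 1) = v (n + 5)
        rw [if_neg (by omega), if_neg (by omega), if_neg (by omega), if_neg (by omega)]
    rw [e]
    exact Iff.rfl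
  have h3 : UR (fun N v => snd (v 1) ∈ sP (v 3) ∧
      H83.PN.Fc N (v 3) φ (snd (v 1)) (cons (v 0) (cons (v 2) (sh (sh (sh (sh v))))))) :=
    UD.subst (R := fun N x v => x ∈ sP (v 3) ∧
      H83.PN.Fc N (v 3) φ x (cons (v 0) (cons (v 2) (sh (sh (sh (sh v)))))))
      h2 (UF.snd (UF.var 1))
  exact UD.subst (R := fun N x v => snd (v 0) ∈ sP (v 2) ∧
      H83.PN.Fc N (v 2) φ (snd (v 0)) (cons x (cons (v 1) (sh (sh (sh v))))))
      h3 (UF.fst (UF.var 0))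

private theorem GNd_ud2 (φ : Fml) : UR (fun N v => H83.PN.HS (v 2) (v 1) ∧ (snd (v 0) ∈ sP (v 2) ∧
    H83.PN.Fc N (v 2) φ (snd (v 0)) (cons (fst (v 0)) (cons (v 1) (sh (sh (sh v))))))) :=
  (UR.HS (UF.var 2) (UF.var 1)).and (GNd_ud φ)

private theorem GNd_cons {M : Set ZFSet.{0}} {y : ZFSet.{0}} {s : ℕ → ZFSet.{0}} (hy : y ∈ M)
    (hs : ∀ i, s i ∈ M) : ∀ i, cons y s i ∈ M := by
  intro i
  cases i with
  | zero => exact hy
  | succ i => exact hs i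

theorem NN_coll {M G : Set ZFSet.{0}} {S : ZFSet.{0}} (hM : TM M) (hS : Sys S) (hSM : S ∈ M)
    (hG : Gen M S G) (φ : Fml) {v : ℕ → ZFSet.{0}} (hv : ∀ i, v i ∈ NN M S G) {x : ZFSet.{0}}
    (hx : x ∈ NN M S G) : ∃ b ∈ NN M S G, ∀ a ∈ x,
      (∃ w ∈ NN M S G, SatIn (NN M S G) φ (cons a (cons w v))) →
      ∃ w ∈ b, SatIn (NN M S G) φ (cons a (cons w v)) := by
  choose u hu using hv
  obtain ⟨σ, hσM, hσ, rfl⟩ := hx
  have huM : ∀ i, u i ∈ M := fun i => (hu i).1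
  have huH : ∀ i, HS S (u i) := fun i => (hu i).2.1
  have huv : ∀ i, v i = val G (u i) := fun i => (hu i).2.2
  have hSu : ∀ i, cons S u i ∈ M := GNd_cons hSM huM
  have hP : ZFSet.prod (nd S σ) (sP S) ∈ M := by
    have h : UF (fun _ v => ZFSet.prod (nd (v 1) (v 0)) (sP (v 1))) := inferInstance
    exact h.mem M hM (cons σ (cons S u)) (GNd_cons hσM hSu)
  obtain ⟨B, hBM, hB⟩ := TM.coll
    (R := fun N t τ w => H83.PN.HS (w 0) τ ∧ (snd t ∈ sP (w 0) ∧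
      H83.PN.Fc N (w 0) φ (snd t) (cons (fst t) (cons τ (sh w))))) (GNd_ud2 φ) hM hSu hP
  set H : ZFSet.{0} := ZFSet.sep (fun τ => HS S τ) B with hH
  have hHM : H ∈ M := TM.sep_of (R := fun _ x w => H83.PN.HS (w 0) x)
    (UR.HS (UF.var 1) (UF.var 0)) hM hSu hBM
  have hmH : ∀ τ, τ ∈ H ↔ τ ∈ B ∧ HS S τ := by
    intro τ
    rw [hH, mem_sep]
  set B1 : ZFSet.{0} := uni (fun a => img (fun τ => actN S a τ) H) (sA S) with hB1
  have hB1M : B1 ∈ M := by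
    have h : UF (fun _ v => uni (fun a => img (fun τ => actN (v 1) a τ) (v 0)) (sA (v 1))) :=
      UF.uni (F := fun _ a v => img (fun τ => actN (v 1) a τ) (v 0))
        (inferInstanceAs (UF (fun _ v => sA (v 1))))
        (UF.img (F := fun _ τ v => actN (v 2) (v 0) τ) (UF.var 1)
          (UF.actN (UF.var 3) (UF.var 1) (UF.var 0)))
    exact h.mem M hM (cons H (cons S u)) (GNd_cons hHM hSu)
  have hmB1 : ∀ ρ, ρ ∈ B1 ↔ ∃ a ∈ sA S, ∃ τ ∈ H, actN S a τ = ρ := by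
    intro ρ
    rw [hB1, mem_uni]
    simp only [mem_img]
  have hB1cl : ∀ a ∈ sA S, ∀ ρ ∈ B1, actN S a ρ ∈ B1 := by
    intro a ha ρ hρ
    obtain ⟨a', ha', τ, hτ, rfl⟩ := (hmB1 ρ).1 hρ
    rw [hmB1]
    obtain ⟨c, hc, hcp⟩ := hS.comp a ha a' ha'
    exact ⟨c, hc, τ, hτ, (actN_comp hS ha ha' hcp).symm⟩
  have hB1HS : ∀ ρ ∈ B1, HS S ρ := by
    intro ρ hρ
    obtain ⟨a', ha', τ, hτ, rfl⟩ := (hmB1 ρ).1 hρ
    exact HS_actN hS ha' ((hmH τ).1 hτ).2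
  have hHB1 : ∀ τ ∈ H, τ ∈ B1 := by
    intro τ hτ
    rw [hmB1]
    obtain ⟨a, ha, hap⟩ := hS.one
    exact ⟨a, ha, τ, hτ, actN_one ((hmH τ).1 hτ).2.isName hap⟩
  set b0 : ZFSet.{0} := img (fun τ => pair τ (sE S)) B1 with hb0
  have hb0M : b0 ∈ M := by
    have h : UF (fun _ v => img (fun τ => pair τ (sE (v 1))) (v 0)) :=
      UF.img (F := fun _ τ v => pair τ (sE (v 1))) (UF.var 0)
        (UF.pair (UF.var 0) (inferInstanceAs (UF (fun _ v => sE (v 2)))))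
    exact h.mem M hM (cons B1 (cons S u)) (GNd_cons hB1M hSu)
  have hmb0 : ∀ π p, pair π p ∈ b0 ↔ π ∈ B1 ∧ p = sE S := by
    intro π p
    rw [hb0, mem_img]
    constructor
    · rintro ⟨τ, hτ, e⟩
      rw [pair_inj] at e
      obtain ⟨rfl, rfl⟩ := e
      exact ⟨hτ, rfl⟩
    · rintro ⟨h1, rfl⟩
      exact ⟨π, h1, rfl⟩
  have hb0HS : HS S b0 := by
    rw [HS_iff]
    refine ⟨?_, ⟨nz 0, nz_mem_omega 0, ?_⟩, ?_⟩
    · intro t ht
      rw [hb0, mem_img] at ht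
      obtain ⟨τ, -, rfl⟩ := ht
      exact ⟨τ, sE S, hS.topP, rfl⟩
    · intro a haH
      have ha : a ∈ sA S := hS.subH _ (nz_mem_omega 0) haH
      obtain ⟨b, hb, hbp⟩ := hS.inv a ha
      ext t
      rw [mem_actN]
      constructor
      · rintro ⟨π, p, -, h, rfl⟩
        obtain ⟨h1, rfl⟩ := (hmb0 π p).1 h
        rw [hS.autE a ha]
        exact (hmb0 _ _).2 ⟨hB1cl a ha π h1, rfl⟩
      · intro ht
        rw [hb0, mem_img] at ht
        obtain ⟨τ, hτ, rfl⟩ := ht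
        refine ⟨actN S b τ, sE S, hS.topP, (hmb0 _ _).2 ⟨hB1cl b hb τ hτ, rfl⟩, ?_⟩
        rw [hS.autE a ha, actN_inv hS hb ha (hB1HS τ hτ).isName fun p hp => (hbp p hp).2]
    · intro π hπ
      obtain ⟨p, -, hp⟩ := mem_nd.1 hπ
      exact hB1HS π ((hmb0 π p).1 hp).1
  refine ⟨val G b0, ⟨b0, hb0M, hb0HS, rfl⟩, ?_⟩
  rintro a ha ⟨w, ⟨τ, hτM, hτ, rfl⟩, hw⟩
  obtain ⟨π, p0, hp0, hπσ, rfl⟩ := mem_val.1 ha
  have hπnd : π ∈ nd S σ := mem_nd.2 ⟨p0, hG.sub p0 hp0, hπσ⟩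
  have hπM : π ∈ M := by
    have h : UF (fun _ v => nd (v 1) (v 0)) := inferInstance
    exact hM.tr _ (h.mem M hM (cons σ (cons S u)) (GNd_cons hσM hSu)) π hπnd
  have hπ : HS S π := (HS_iff.1 hσ).2.2 π hπnd
  have hval : ∀ τ : ZFSet.{0}, (fun i => val G (cons π (cons τ u) i)) =
      cons (val G π) (cons (val G τ) v) := by
    intro τ
    funext i
    rcases i with _ | _ | i
    · rfl
    · rfl
    · exact (huv i).symm
  have hnames : ∀ τ : ZFSet.{0}, τ ∈ M → HS S τ →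
      ∀ i, cons π (cons τ u) i ∈ M ∧ HS S (cons π (cons τ u) i) := by
    intro τ h1 h2 i
    rcases i with _ | _ | i
    · exact ⟨hπM, hπ⟩
    · exact ⟨h1, h2⟩
    · exact ⟨huM i, huH i⟩
  rw [← hval τ, truth hM hS hSM hG φ _ (hnames τ hτM hτ)] at hw
  obtain ⟨p, hp, hF⟩ := hw
  obtain ⟨τ', hτ'B, hτ', -, hF'⟩ := hB (pair π p) (by
    rw [mem_prod]
    exact ⟨π, hπnd, p, hG.sub p hp, rfl⟩) ⟨τ, hτM, hτ, by
      rw [snd_pair]
      exact hG.sub p hp, by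
      rw [snd_pair, fst_pair]
      exact hF⟩
  have hτ'M : τ' ∈ M := hM.tr _ hBM τ' hτ'B
  rw [snd_pair, fst_pair] at hF'
  refine ⟨val G τ', mem_val.2 ⟨τ', sE S, top_mem hM hS hSM hG, (hmb0 _ _).2
    ⟨hHB1 τ' ((hmH τ').2 ⟨hτ'B, hτ'⟩), rfl⟩, rfl⟩, ?_⟩
  rw [← hval τ', truth hM hS hSM hG φ _ (hnames τ' hτ'M hτ')]
  exact ⟨p, hp, hF'⟩

end H83.PN
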