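import Pool.Agent.H83.PN.GNb
import Pool.Agent.H83.PN.GNc
import Pool.Agent.H83.PN.GNd
import Pool.Agent.H83.AC.NNtm

set_option autoImplicit false

/-!
# Module GNtm: the symmetric extension is a model of ZF

The same proof as in `AC/NNtm.lean`.
-/

namespace H83.PN

open ZFSet H83.AC

private theorem GNtm_coe_cons {N : Set ZFSet.{0}} (x : N) (v : ℕ → N) :
    (fun n => ((cons x v n : N) : ZFSet)) = cons (x : ZFSet) (fun n => (v n : ZFSet)) := by
  funext n; cases n <;> rfl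

private theorem GNtm_sep {M G : Set ZFSet.{0}} {S : ZFSet.{0}} (hM : TM M) (hS : Sys S)
    (hSM : S ∈ M) (hG : Gen M S G) (φ : Fml)
    (v : ℕ → NN M S G) (x : NN M S G) :
    ∃ y : NN M S G, ∀ z : NN M S G, memN (NN M S G) z y ↔
      memN (NN M S G) z x ∧ Sat (memN (NN M S G)) φ (cons z v) := by
  refine ⟨⟨_, NN_sep hM hS hSM hG φ (v := fun n => (v n : ZFSet)) (fun i => (v i).2) x.2⟩, fun z => ?_⟩
  simp only [memN, mem_sep, sat_iff, GNtm_coe_cons]

private theorem GNtm_coll {M G : Set ZFSet.{0}} {S : ZFSet.{0}} (hM : TM M) (hS : Sys S)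
    (hSM : S ∈ M) (hG : Gen M S G) (φ : Fml)
    (v : ℕ → NN M S G) (x : NN M S G) :
    ∃ b : NN M S G, ∀ a : NN M S G, memN (NN M S G) a x →
      (∃ w, Sat (memN (NN M S G)) φ (cons a (cons w v))) →
      ∃ w, memN (NN M S G) w b ∧ Sat (memN (NN M S G)) φ (cons a (cons w v)) := by
  obtain ⟨b, hb, H⟩ := NN_coll hM hS hSM hG φ (v := fun n => (v n : ZFSet)) (fun i => (v i).2) x.2
  refine ⟨⟨b, hb⟩, fun a ha hw => ?_⟩
  obtain ⟨w, hw⟩ := hw
  have h1 := H a ha ⟨w, w.2, by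
    have h2 := (sat_iff _ _ _).1 hw
    rwa [GNtm_coe_cons, GNtm_coe_cons] at h2⟩
  obtain ⟨w', hw', hs⟩ := h1
  refine ⟨⟨w', NN_tr hM hS hG b hb w' hw'⟩, hw', ?_⟩
  rw [sat_iff, GNtm_coe_cons, GNtm_coe_cons]
  exact hs

theorem NN_tm {M G : Set ZFSet.{0}} {S : ZFSet.{0}} (hM : TM M) (hS : Sys S)
    (hSM : S ∈ M) (hG : Gen M S G) : TM (NN M S G) := by
  have htr : IsTr (NN M S G) := NN_tr hM hS hG
  refine ⟨htr, ?_⟩
  constructor
  · exact ⟨⟨omega, NN_omega hM hS hSM hG⟩⟩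
  · intro x y h
    refine Subtype.ext (ZFSet.ext fun z => ?_)
    constructor
    · intro hz
      exact (h ⟨z, htr _ x.2 z hz⟩).1 hz
    · intro hz
      exact (h ⟨z, htr _ y.2 z hz⟩).2 hz
  · intro x hx
    obtain ⟨y, hy, hmin⟩ := (InvImage.wf (fun y : NN M S G => (y : ZFSet)) ZFSet.mem_wf).has_min
      {y : NN M S G | memN (NN M S G) y x} hx
    exact ⟨y, hy, fun z hz hzx => hmin z hzx hz⟩
  · intro x y
    refine ⟨⟨{(x : ZFSet), (y : ZFSet)}, NN_pair hM hS hSM hG x.2 y.2⟩, fun w => ?_⟩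
    change (w : ZFSet) ∈ ({(x : ZFSet), (y : ZFSet)} : ZFSet) ↔ _
    rw [ZFSet.mem_pair]
    exact or_congr Subtype.ext_iff.symm Subtype.ext_iff.symm
  · intro x
    obtain ⟨u, hu, hsub⟩ := NN_union hM hS hSM hG x.2
    obtain ⟨y, hy⟩ := GNtm_sep hM hS hSM hG
      (.imp (.all (.imp (.mem 0 2) (.imp (.mem 1 0) .bot))) .bot) (cons x (fun _ => x)) ⟨u, hu⟩
    refine ⟨y, fun w => ?_⟩
    rw [hy w]
    simp only [Sat, cons_zero, cons_succ]
    constructor
    · rintro ⟨-, h⟩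
      by_contra hcon
      exact h fun z hz hw => hcon ⟨z, hz, hw⟩
    · rintro ⟨z, hz, hw⟩
      exact ⟨hsub z hz hw, fun h => h z hz hw⟩
  · intro x
    obtain ⟨b, hb, hsub⟩ := NN_pow hM hS hSM hG x.2
    obtain ⟨y, hy⟩ := GNtm_sep hM hS hSM hG (.all (.imp (.mem 0 1) (.mem 0 2))) (cons x (fun _ => x)) ⟨b, hb⟩
    refine ⟨y, fun w => ?_⟩
    rw [hy w]
    simp only [Sat, cons_zero, cons_succ]
    constructor
    · rintro ⟨-, h⟩
      exact h
    · intro h
      exact ⟨hsub w w.2 fun z hz => h ⟨z, htr _ w.2 z hz⟩ hz, h⟩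
  · refine ⟨⟨omega, NN_omega hM hS hSM hG⟩, ⟨⟨∅, htr _ (NN_omega hM hS hSM hG) _ omega_zero⟩, omega_zero,
      fun z => ZFSet.notMem_empty _⟩, fun y hy => ?_⟩
    refine ⟨⟨insert (y : ZFSet) (y : ZFSet), htr _ (NN_omega hM hS hSM hG) _ (omega_succ hy)⟩,
      omega_succ hy, fun z => ?_⟩
    change (z : ZFSet) ∈ insert (y : ZFSet) (y : ZFSet) ↔ _
    rw [ZFSet.mem_insert_iff, or_comm]
    exact or_congr Iff.rfl Subtype.ext_iff.symm
  · exact fun φ v x => GNtm_sep hM hS hSM hG φ v x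
  · intro φ v x hx
    obtain ⟨b, hb⟩ := GNtm_coll hM hS hSM hG φ v x
    let ρ : ℕ → ℕ := fun n => if n < 2 then n else n + 1
    obtain ⟨y, hy⟩ := GNtm_sep hM hS hSM hG
      (.imp (.all (.imp (.mem 0 2) (.imp (φ.ren ρ) .bot))) .bot) (cons x v) b
    have key : ∀ z w : NN M S G, Sat (memN (NN M S G)) (φ.ren ρ) (cons z (cons w (cons x v))) ↔
        Sat (memN (NN M S G)) φ (cons z (cons w v)) := by
      intro z w
      rw [sat_ren]
      have : (fun n => cons z (cons w (cons x v)) (ρ n)) = cons z (cons w v) := by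
        funext n
        rcases n with _ | _ | n
        · rfl
        · rfl
        · have : ρ (n + 1 + 1) = n + 1 + 1 + 1 := by
            simp [ρ]
          rw [this]
          rfl
      rw [this]
    refine ⟨y, fun w => ?_⟩
    rw [hy w]
    simp only [Sat, cons_zero, cons_succ, key]
    constructor
    · rintro ⟨-, h⟩
      by_contra hcon
      exact h fun z hz hw => hcon ⟨z, hz, hw⟩
    · rintro ⟨z, hz, hw⟩
      refine ⟨?_, fun h => h z hz hw⟩
      obtain ⟨w', hw'b, hw'⟩ := hb z hz ⟨w, hw⟩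
      obtain ⟨w0, -, huniq⟩ := hx z hz
      have e : w = w' := (huniq w hw).trans (huniq w' hw').symm
      rw [e]
      exact hw'b

end H83.PN
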