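import Pool.Agent.H83.PN.ACg
import Pool.Agent.H83.PN.GNtm

set_option autoImplicit false

/-!
# Module ACh: the choice half

Let `B ∈ N = NN M (SU U H) G`, `B = val G β`, `m` a support of `β`; enlarge `m` so that `∅ ∈ m` (`Supp_mono`). `g = val G (nmG U H m) ∈ N`, `H ∈ M ⊆ N` (`sub_NN`). Let `w₀ ∈ M` be a well-order of `H` (`exists_wo`).
For `k ∈ omega` let `S k = {p ∈ H : p = pair (fst p) (snd p), Nmw g (fst p) (snd p), evS g (fst p) (snd p) ∈ app B k}`, nonempty by `meets` (`H_pair`), and `f = fgr (fun k => evS g (fst (lst w₀ (S k))) (snd (lst w₀ (S k)))) omega`,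
an element of `N` (`NN_tm`, `infer_instance`); `lst_mem`.
-/

namespace H83.PN

open ZFSet H83.AC

variable {M : Set ZFSet.{0}} {K H : ZFSet.{0}}

theorem choice_half (hG : Gr M K H) {n : ℕ} {U : ZFSet.{0}} (hU : UOK M H n U)
    {G : Set ZFSet.{0}} (hg : Gen M (SU U H) G) :
    ACw (NN M (SU U H) G) (PiS (NN M (SU U H) G) (n + 2)) := by
  have hS : Sys (SU U H) := Sys_SU hG hU
  have hSM : SU U H ∈ M := (SU_M hG hU).1
  have hN : TM (NN M (SU U H) G) := NN_tm hG.tm hS hSM hg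
  have hHM : H ∈ M := hG.tm.tr _ hG.KM _ hG.HK
  have hHN : H ∈ NN M (SU U H) G := sub_NN hG.tm hS hSM hg hHM
  obtain ⟨w₀, hw₀M, hw₀⟩ := exists_wo hG.tm hG.vl hHM
  have hw₀N : w₀ ∈ NN M (SU U H) G := sub_NN hG.tm hS hSM hg hw₀M
  intro B hB hBk
  obtain ⟨β, hβM, hβS, hBβ⟩ := hB
  have hBN : B ∈ NN M (SU U H) G := ⟨β, hβM, hβS, hBβ⟩
  obtain ⟨m₀, hm₀⟩ := (HS_iff.1 hβS).2.1
  obtain ⟨i, rfl⟩ := mem_omega.1 hm₀.1
  have hm : nz (i + 1) ∈ omega := nz_mem_omega _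
  have hm0 : ∅ ∈ nz (i + 1) := (nz_mem_nz (m := 0)).2 (Nat.succ_pos i)
  have hβm : Supp (SU U H) (nz (i + 1)) β := Supp_mono hS (Nat.le_succ i) hm₀
  obtain ⟨g, hg'⟩ : ∃ g, g = val G (nmG U H (nz (i + 1))) := ⟨_, rfl⟩
  have hgN : g ∈ NN M (SU U H) G :=
    ⟨nmG U H (nz (i + 1)), (nmG_ok hG hU hm).1, (nmG_ok hG hU hm).2.1, hg'⟩
  obtain ⟨S, hSdef⟩ : ∃ S : ZFSet.{0} → ZFSet.{0}, S = fun k => ZFSet.sep (fun p =>
      p = pair (fst p) (snd p) ∧ Nmw g (fst p) (snd p) ∧ evS g (fst p) (snd p) ∈ app B k) H :=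
    ⟨_, rfl⟩
  have hmem : fgr (fun k => evS g (fst (lst w₀ (S k))) (snd (lst w₀ (S k)))) omega ∈
      NN M (SU U H) G := by
    have hu : UF (fun _ v => fgr (fun k => evS (v 1)
        (fst (lst (v 2) (ZFSet.sep (fun p =>
          p = pair (fst p) (snd p) ∧ Nmw (v 1) (fst p) (snd p) ∧
            evS (v 1) (fst p) (snd p) ∈ app (v 0) k) (v 3))))
        (snd (lst (v 2) (ZFSet.sep (fun p =>
          p = pair (fst p) (snd p) ∧ Nmw (v 1) (fst p) (snd p) ∧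
            evS (v 1) (fst p) (snd p) ∈ app (v 0) k) (v 3))))) omega) := by
      infer_instance
    have h := hu.mem _ hN (fun i => if i = 0 then B else if i = 1 then g else
      if i = 2 then w₀ else H) (fun i => by
        split_ifs
        · exact hBN
        · exact hgN
        · exact hw₀N
        · exact hHN)
    rw [hSdef]
    exact h
  refine ⟨_, hmem, fun k hk => ?_⟩
  rw [app_fgr hk]
  obtain ⟨w, hw, e, he, h1, h2⟩ := meets hG hU hg hm hm0 hβM hβS hβm hk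
    (A := app B k) (by rw [hBβ]) (hBk k hk).1 (hBk k hk).2
  rw [← hg'] at h1 h2
  have hp : pair w e ∈ S k := by
    rw [hSdef]
    refine mem_sep.2 ⟨H_pair hG hw he, ?_⟩
    rw [fst_pair, snd_pair]
    exact ⟨rfl, h1, h2⟩
  have hsub : S k ⊆ H := by
    rw [hSdef]
    intro z hz
    exact (mem_sep.1 hz).1
  have hne : S k ≠ ∅ := by
    intro h0
    rw [h0] at hp
    exact notMem_empty _ hp
  have hl := lst_mem hw₀ hsub hne
  rw [hSdef] at hl ⊢
  exact (mem_sep.1 hl).2.2.2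

end H83.PN
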