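import Pool.Agent.H83.PN.StmtN
import Pool.Agent.H83.AC.AbsC

set_option autoImplicit false

/-!
# Module AbsP: the classes `Π¹_n` in transitive models

`abs_tup`, `abs_agt` by induction on `j` (`abs_real`, `abs_op`, `abs_agr`); `abs_pi` by induction on `n`, for all `j` (`abs_nat`, `abs_in2`).
-/

namespace H83.PN

open ZFSet H83.AC

variable {N : Set ZFSet.{0}}

/-- `t` is a point of `ℝ^(j+1)` in the sense of `N` -/
def Tpl (N : Set ZFSet.{0}) : ℕ → ZFSet.{0} → Prop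
  | 0, t => Real N t
  | j + 1, t => ∃ s y, Tpl N j s ∧ Real N y ∧ t = pair s y

/-- the coordinates agree at all arguments in `n` -/
def AgZ : ℕ → ZFSet.{0} → ZFSet.{0} → ZFSet.{0} → Prop
  | 0, n, t, t' => Agree n t t'
  | j + 1, n, t, t' => AgZ j n (fst t) (fst t') ∧ Agree n (snd t) (snd t')

/-- closed subsets of `ℝ^(j+1)` -/
def ClT (N : Set ZFSet.{0}) (j : ℕ) (C : ZFSet.{0}) : Prop :=
  (∀ t ∈ C, Tpl N j t) ∧ ∀ t, Tpl N j t → t ∉ C →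
    ∃ n ∈ omega, ∀ t', Tpl N j t' → AgZ j n t t' → t' ∉ C

/-- `Π¹_n` subsets of `ℝ^(j+1)` -/
def PIT (N : Set ZFSet.{0}) : ℕ → ℕ → ZFSet.{0} → Prop
  | 0, j, A => ClT N j A
  | n + 1, j, A => (∀ t ∈ A, Tpl N j t) ∧ ∃ B ∈ N, PIT N n (j + 1) B ∧
      ∀ t, Tpl N j t → (t ∈ A ↔ ∀ y, Real N y → pair t y ∉ B)

private theorem AbsP_mem (hN : TM N) (j : ℕ) {t : ZFSet.{0}} (h : Tpl N j t) : t ∈ N := by
  induction j generalizing t with
  | zero => exact h.1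
  | succ j ih =>
    obtain ⟨s, y, hs, hy, rfl⟩ := h
    exact hN.pair (ih hs) hy.1

theorem abs_tup (hN : TM N) (j : ℕ) (t : N) : IsTup (memN N) j t ↔ Tpl N j t := by
  induction j generalizing t with
  | zero => exact abs_real hN t
  | succ j ih =>
    constructor
    · rintro ⟨s, y, hs, hy, h⟩
      exact ⟨s, y, (ih s).1 hs, (abs_real hN y).1 hy, (abs_op hN _ _ _).1 h⟩
    · rintro ⟨s, y, hs, hy, h⟩
      exact ⟨⟨s, AbsP_mem hN j hs⟩, ⟨y, hy.1⟩, (ih _).2 hs, (abs_real hN _).2 hy,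
        (abs_op hN _ _ _).2 h⟩

theorem abs_agt (hN : TM N) (j : ℕ) {n t t' : N} (hn : (n : ZFSet.{0}) ∈ omega)
    (ht : Tpl N j t) (ht' : Tpl N j t') : AgT (memN N) j n t t' ↔ AgZ j n t t' := by
  induction j generalizing t t' with
  | zero => exact abs_agr hN hn ht ht'
  | succ j ih =>
    obtain ⟨s, y, hs, hy, h⟩ := ht
    obtain ⟨s', y', hs', hy', h'⟩ := ht'
    have hsN := AbsP_mem hN j hs
    have hsN' := AbsP_mem hN j hs'
    have e : AgZ (j + 1) n t t' ↔ AgZ j n s s' ∧ Agree n y y' := by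
      show AgZ j n (fst (t : ZFSet)) (fst (t' : ZFSet)) ∧
        Agree n (snd (t : ZFSet)) (snd (t' : ZFSet)) ↔ _
      rw [h, h', fst_pair, fst_pair, snd_pair, snd_pair]
    rw [e]
    have ih1 := ih (t := ⟨s, hsN⟩) (t' := ⟨s', hsN'⟩) hs hs'
    have h2 := abs_agr hN (n := n) (x := ⟨y, hy.1⟩) (x' := ⟨y', hy'.1⟩) hn hy hy'
    constructor
    · rintro ⟨a, b, a', b', h3, h4, h5, h6⟩
      rw [abs_op hN] at h3 h4
      rw [h] at h3
      rw [h'] at h4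
      obtain ⟨e1, e2⟩ := ZFSet.pair_inj.1 h3
      obtain ⟨e3, e4⟩ := ZFSet.pair_inj.1 h4
      have f1 : a = ⟨s, hsN⟩ := Subtype.ext e1.symm
      have f2 : b = ⟨y, hy.1⟩ := Subtype.ext e2.symm
      have f3 : a' = ⟨s', hsN'⟩ := Subtype.ext e3.symm
      have f4 : b' = ⟨y', hy'.1⟩ := Subtype.ext e4.symm
      subst f1 f2 f3 f4
      exact ⟨ih1.1 h5, h2.1 h6⟩
    · rintro ⟨h5, h6⟩
      exact ⟨⟨s, hsN⟩, ⟨y, hy.1⟩, ⟨s', hsN'⟩, ⟨y', hy'.1⟩, (abs_op hN _ _ _).2 h,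
        (abs_op hN _ _ _).2 h', ih1.2 h5, h2.2 h6⟩

private theorem AbsP_om (hN : TM N) {m : ZFSet.{0}} (h : m ∈ omega) : m ∈ N :=
  hN.tr _ hN.omega _ h

private theorem AbsP_cl (hN : TM N) (j : ℕ) (A : N) : IsCl (memN N) j A ↔ ClT N j A := by
  constructor
  · rintro ⟨h1, h2⟩
    refine ⟨fun t ht => (abs_tup hN j ⟨t, hN.tr _ A.2 t ht⟩).1 (h1 ⟨t, hN.tr _ A.2 t ht⟩ ht),
      fun t ht hn => ?_⟩
    obtain ⟨n, hnat, h⟩ := h2 ⟨t, AbsP_mem hN j ht⟩ ((abs_tup hN j _).2 ht) hn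
    have hn0 := (abs_nat hN n).1 hnat
    refine ⟨n, hn0, fun t' ht' hag hm => ?_⟩
    exact h ⟨t', AbsP_mem hN j ht'⟩ ((abs_tup hN j _).2 ht')
      ((abs_agt hN j (t := ⟨t, AbsP_mem hN j ht⟩) (t' := ⟨t', AbsP_mem hN j ht'⟩) hn0 ht ht').2 hag)
      hm
  · rintro ⟨h1, h2⟩
    refine ⟨fun t ht => (abs_tup hN j t).2 (h1 t ht), fun t ht hn => ?_⟩
    rw [abs_tup hN] at ht
    obtain ⟨n, hn0, h⟩ := h2 t ht hn
    refine ⟨⟨n, AbsP_om hN hn0⟩, (abs_nat hN _).2 hn0, fun t' ht' hag => ?_⟩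
    rw [abs_tup hN] at ht'
    exact h t' ht' ((abs_agt hN j (n := ⟨n, AbsP_om hN hn0⟩) hn0 ht ht').1 hag)

theorem abs_pi (hN : TM N) (n j : ℕ) (A : N) : IsPi (memN N) n j A ↔ PIT N n j A := by
  induction n generalizing j A with
  | zero => exact AbsP_cl hN j A
  | succ n ih =>
    constructor
    · rintro ⟨h0, B, hB, h⟩
      refine ⟨fun t ht => (abs_tup hN j ⟨t, hN.tr _ A.2 t ht⟩).1 (h0 ⟨t, hN.tr _ A.2 t ht⟩ ht),
        B, B.2, (ih (j + 1) B).1 hB, fun t ht => ?_⟩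
      have h1 := h ⟨t, AbsP_mem hN j ht⟩ ((abs_tup hN j _).2 ht)
      refine h1.trans ?_
      constructor
      · intro h2 y hy hm
        exact h2 ⟨y, hy.1⟩ ((abs_real hN _).2 hy) ((abs_in2 hN _ _ _).2 hm)
      · intro h2 y hy hm
        exact h2 y ((abs_real hN _).1 hy) ((abs_in2 hN _ _ _).1 hm)
    · rintro ⟨h0, B, hBN, hB, h⟩
      refine ⟨fun t ht => (abs_tup hN j t).2 (h0 t ht), ⟨B, hBN⟩, (ih (j + 1) _).2 hB,
        fun t ht => ?_⟩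
      rw [abs_tup hN] at ht
      refine (h t ht).trans ?_
      constructor
      · intro h2 y hy hm
        exact h2 y ((abs_real hN _).1 hy) ((abs_in2 hN _ _ _).1 hm)
      · intro h2 y hy hm
        exact h2 ⟨y, hy.1⟩ ((abs_real hN _).2 hy) ((abs_in2 hN _ _ _).2 hm)

end H83.PN
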