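import Pool.Agent.H83.PN.CEx

set_option autoImplicit false

/-!
# Module CBl: blocks

`exists_blk`: `exists_gnC` with `X = Idx`, and `gnC_sub` for finite `A ⊆ Idx` (`A ∈ W`: `A ⊆ HF` is finite, so `A ∈ HF`).
`Blk_gnC`: the definition of `GnC`. `Blk_rel`: for finite `A ⊆ Idx` let `A' = img ρ A`, `σ = fgr ρ A` (finite subset
of `HF`, in `HF ⊆ W`); `gnC_rel`. `Blk_inj`: different indices have different values: the set of all
`p ∈ Cn {a, b}` with `((a, i), j), ((b, i), j') ∈ p`, `j ≠ j'` for some `i, j, j'` is dense.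
`Blk_new`: the values are not in `W`: for `x ∈ W` the set of all `p ∈ Cn {a}` with some `((a, i), j) ∈ p`,
`pair i j ∉ x`, is dense if `x` is a function from `omega` to `omega`.
-/

namespace H83.PN

open ZFSet H83.AC

private theorem CBl_idx {W : ZFSet.{0}} (hW : TM (cls W)) : Idx ∈ W := by
  have h : UF (fun _ _ => Idx) := by
    unfold H83.AC.Idx
    infer_instance
  exact h.mem (cls W) hW (fun _ => omega) (fun _ => hW.omega)

private theorem CBl_fin {W A : ZFSet.{0}} (hW : TM (cls W)) (hA : A ∈ Fs Idx) : A ∈ W := by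
  obtain ⟨h1, h2⟩ := mem_Fs.1 hA
  exact fin_mem hW (fun x hx => hW.tr _ (CBl_idx hW) _ (h1 hx)) h2

theorem exists_blk {W W' : ZFSet.{0}} (h : Wd W) (h' : Wd W') (hW : W ∈ W')
    (hc : HCt (cls W') W) : ∃ F ∈ W', Blk W W' F := by
  have hW1 : TM (cls W) := h.1
  have hW2 : TM (cls W') := h'.1
  obtain ⟨g, hg, hg1, hg2, hg3⟩ := exists_gnC h h' hW hc (CBl_idx hW1)
  refine ⟨g, hg, hg1, fun a ha => ⟨hg2 a ha, ?_⟩, fun A hA D hD hd => ?_⟩
  · have hap : UF (fun _ v => app (v 0) (v 1)) := by infer_instance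
    have ha' : a ∈ W' := hW2.tr _ (CBl_idx hW2) _ ha
    exact hap.mem (cls W') hW2 (cons g (fun _ => a)) (fun n => by
      match n with
      | 0 => exact hg
      | n + 1 => exact ha')
  · exact gnC_sub hW1 (CBl_idx hW1) (CBl_fin hW1 hA) (mem_Fs.1 hA).1 hg3 D hD hd

theorem Blk_gnC {W W' F A : ZFSet.{0}} (h : Blk W W' F) (hA : A ∈ Fs Idx) :
    GnC W A (fun a => app F a) := by
  exact fun D hD hd => h.2.2 A hA D hD hd

theorem Blk_rel {W W' F : ZFSet.{0}} (hW : TM (cls W)) (h : Blk W W' F)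
    {ρ : ZFSet.{0} → ZFSet.{0}} (hm : ∀ a ∈ Idx, ρ a ∈ Idx)
    (hi : ∀ a ∈ Idx, ∀ b ∈ Idx, ρ a = ρ b → a = b) :
    Blk W W' (fgr (fun a => app F (ρ a)) Idx) := by
  have happ : ∀ a ∈ Idx, app (fgr (fun a => app F (ρ a)) Idx) a = app F (ρ a) :=
    fun a ha => app_fgr (g := fun a => app F (ρ a)) ha
  refine ⟨fgr_congr fun y hy => (happ y hy).symm, fun a ha => ?_, fun A hA D hD hd => ?_⟩
  · rw [happ a ha]
    exact h.2.1 _ (hm a ha)
  · obtain ⟨hA1, hA2⟩ := mem_Fs.1 hA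
    have hA' : img ρ A ∈ Fs Idx := by
      refine mem_Fs.2 ⟨fun z hz => ?_, Fnt_img hA2⟩
      obtain ⟨y, hy, rfl⟩ := mem_img.1 hz
      exact hm y (hA1 hy)
    have hidx : ∀ x ∈ Idx, x ∈ cls W := fun x hx => hW.tr _ (CBl_idx hW) _ hx
    have hσ : fgr ρ A ∈ W := by
      refine fin_mem hW (fun z hz => ?_) (Fnt_img hA2)
      obtain ⟨y, hy, rfl⟩ := mem_fgr.1 hz
      exact hW.pair (hidx y (hA1 hy)) (hidx _ (hm y (hA1 hy)))
    have hs : ∀ x ∈ A, app (fgr ρ A) x = ρ x := fun x hx => app_fgr hx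
    have h1 := gnC_rel hW hσ (CBl_fin hW hA') (CBl_fin hW hA)
      (fun x hx => by rw [hs x hx]; exact mem_img.2 ⟨x, hx, rfl⟩)
      (fun x hx y hy e => by
        rw [hs x hx, hs y hy] at e
        exact hi x (hA1 hx) y (hA1 hy) e) (Blk_gnC h hA')
    refine gnC_congr (F := fun x => app F (app (fgr ρ A) x)) (fun x hx => ?_) h1 D hD hd
    rw [hs x hx, happ x (hA1 hx)]

theorem Blk_real {W W' F a : ZFSet.{0}} (h : Blk W W' F) (ha : a ∈ Idx) :
    IsFunc omega omega (app F a) ∧ app F a ∈ W' := by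
  exact h.2.1 a ha

theorem Blk_new {W W' F a : ZFSet.{0}} (hW : TM (cls W)) (h : Blk W W' F) (ha : a ∈ Idx) :
    app F a ∉ W := by
  intro hx
  obtain ⟨hfun, _⟩ := h.2.1 a ha
  have haW : a ∈ W := hW.tr _ (CBl_idx hW) _ ha
  have hsing : ({a} : ZFSet.{0}) ∈ W := hW.singleton haW
  have hA : ({a} : ZFSet.{0}) ∈ Fs Idx := by
    refine mem_Fs.2 ⟨fun z hz => ?_, ?_⟩
    · rw [mem_singleton] at hz
      rw [hz]
      exact ha
    · have h1 : Fnt (insert a ∅ : ZFSet.{0}) := Fnt_insert Fnt_empty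
      refine Fnt_sub h1 fun z hz => ?_
      rw [mem_singleton] at hz
      rw [mem_insert_iff]
      exact Or.inl hz
  have hDu : UF (fun _ v => ZFSet.sep
      (fun p => ∃ t ∈ p, pair (snd (fst t)) (snd t) ∉ v 0) (Cn (v 1))) := by infer_instance
  have hD : ZFSet.sep (fun p => ∃ t ∈ p, pair (snd (fst t)) (snd t) ∉ app F a)
      (Cn ({a} : ZFSet.{0})) ∈ W :=
    hDu.mem (cls W) hW (cons (app F a) (fun _ => {a})) (fun n => by
      match n with
      | 0 => exact hx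
      | n + 1 => exact hsing)
  obtain ⟨p, hp, hfit⟩ := h.2.2 _ hA _ hD (by
    refine ⟨fun p hp => (mem_sep.1 hp).1, fun p hp => ?_⟩
    obtain ⟨L, hL⟩ := Cn_bound hp
    have hi : nz L ∈ omega := nz_mem_omega L
    have hj : ∃ j ∈ omega, j ≠ app (app F a) (nz L) := by
      by_cases h0 : app (app F a) (nz L) = nz 0
      · refine ⟨nz 1, nz_mem_omega 1, ?_⟩
        rw [h0]
        intro e
        exact absurd (nz_inj.1 e) (by omega)
      · exact ⟨nz 0, nz_mem_omega 0, fun e => h0 e.symm⟩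
    obtain ⟨j, hj, hne⟩ := hj
    have hins := Cn_insert hp (mem_singleton.2 rfl : a ∈ ({a} : ZFSet.{0})) hi hj (by
      intro t ht e
      have h1 := hL t ht
      rw [e, snd_pair] at h1
      exact absurd (nz_mem_nz.1 h1) (by omega))
    refine ⟨_, mem_sep.2 ⟨hins, _, mem_insert _ _, ?_⟩, fun t ht => mem_insert_of_mem _ ht⟩
    rw [fst_pair, snd_pair, snd_pair]
    intro hm
    obtain ⟨w, _, hw2⟩ := hfun.2 (nz L) hi
    exact hne ((hw2 j hm).trans (hw2 _ (fn_app hfun hi)).symm))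
  obtain ⟨hpC, t, ht, htx⟩ := mem_sep.1 hp
  have h1 := (Cn_elt hpC ht).2.1
  rw [mem_singleton] at h1
  have h2 := hfit t ht
  rw [h1] at h2
  exact htx h2

end H83.PN
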