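import Pool.Agent.H83.PN.DefsI

set_option autoImplicit false

/-!
# Module CCn: Cohen conditions

`mem_Cn`: `mem_sep`, `mem_Fs`. The other statements are elementary: for `Fun` note that two elements with the
same first component are equal. `Cn_fill`: `p' = p ∪ {((x, i), c x i) : x ∈ Y, i ∈ L, no element of p has first
component (x, i)}`; finite by `Fnt_prod`, `Fnt_img`, `Fnt_sub`. `Cn_Fit_union`: two conditions which fit the
same family of functions are compatible: if `t, t'` have the same first component `(x, i)` then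
`(i, snd t), (i, snd t') ∈ f x`, and `f x` is a function. `Cn_fin`: finite subset (`fin_mem`).
-/

namespace H83.PN

open ZFSet H83.AC

variable {f g h k l : Set ZFSet.{0} → (ℕ → ZFSet.{0}) → ZFSet.{0}}

/-- the part of the condition `p` with indices in `Y` -/
noncomputable def rsC (p Y : ZFSet.{0}) : ZFSet.{0} := ZFSet.sep (fun t => fst (fst t) ∈ Y) p

instance Inst.rsC [hf : UF f] [hg : UF g] : UF (fun N v => H83.PN.rsC (f N v) (g N v)) := by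
  unfold H83.PN.rsC; infer_instance

theorem mem_rsC {p Y t : ZFSet.{0}} : t ∈ rsC p Y ↔ t ∈ p ∧ fst (fst t) ∈ Y := by
  rw [rsC, mem_sep]

theorem mem_Cn {X p : ZFSet.{0}} : p ∈ Cn X ↔
    p ⊆ ZFSet.prod (ZFSet.prod X omega) omega ∧ Fnt p ∧ Fun p := by
  unfold H83.PN.Cn
  rw [mem_sep, mem_Fs, and_assoc]

theorem Cn_elt {X p t : ZFSet.{0}} (hp : p ∈ Cn X) (ht : t ∈ p) :
    t = pair (pair (fst (fst t)) (snd (fst t))) (snd t) ∧ fst (fst t) ∈ X ∧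
      snd (fst t) ∈ omega ∧ snd t ∈ omega := by
  have h := (mem_Cn.1 hp).1 ht
  obtain ⟨a, ha, b, hb, e⟩ := mem_prod.1 h
  obtain ⟨x, hx, i, hi, e'⟩ := mem_prod.1 ha
  subst e'
  subst e
  simp only [fst_pair, snd_pair]
  exact ⟨trivial, hx, hi, hb⟩

private theorem CCn_mk {X p : ZFSet.{0}}
    (h : ∀ t ∈ p, ∃ x ∈ X, ∃ i ∈ omega, ∃ j ∈ omega, t = pair (pair x i) j) (hf : Fnt p)
    (hF : ∀ t ∈ p, ∀ t' ∈ p, fst t = fst t' → t = t') : p ∈ Cn X := by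
  refine mem_Cn.2 ⟨fun t ht => ?_, hf, fun t ht => ?_, hF⟩
  · obtain ⟨x, hx, i, hi, j, hj, rfl⟩ := h t ht
    exact pair_mem_prod.2 ⟨pair_mem_prod.2 ⟨hx, hi⟩, hj⟩
  · obtain ⟨x, hx, i, hi, j, hj, rfl⟩ := h t ht
    rw [fst_pair, snd_pair]

private theorem CCn_el {X p t : ZFSet.{0}} (hp : p ∈ Cn X) (ht : t ∈ p) :
    ∃ x ∈ X, ∃ i ∈ omega, ∃ j ∈ omega, t = pair (pair x i) j := by
  obtain ⟨e, h1, h2, h3⟩ := Cn_elt hp ht
  exact ⟨_, h1, _, h2, _, h3, e⟩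

private theorem CCn_fn {X p : ZFSet.{0}} (hp : p ∈ Cn X) :
    ∀ t ∈ p, ∀ t' ∈ p, fst t = fst t' → t = t' := (mem_Cn.1 hp).2.2.2

private theorem CCn_fin {X p : ZFSet.{0}} (hp : p ∈ Cn X) : Fnt p := (mem_Cn.1 hp).2.1

theorem Cn_empty (X : ZFSet.{0}) : ∅ ∈ Cn X :=
  CCn_mk (fun t ht => absurd ht (notMem_empty t)) Fnt_empty
    fun t ht => absurd ht (notMem_empty t)

theorem Cn_sub {X p q : ZFSet.{0}} (hp : p ∈ Cn X) (h : q ⊆ p) : q ∈ Cn X :=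
  CCn_mk (fun t ht => CCn_el hp (h ht)) (Fnt_sub (CCn_fin hp) h)
    fun t ht t' ht' => CCn_fn hp t (h ht) t' (h ht')

theorem Cn_mono {X Y p : ZFSet.{0}} (h : X ⊆ Y) (hp : p ∈ Cn X) : p ∈ Cn Y := by
  refine CCn_mk (fun t ht => ?_) (CCn_fin hp) (CCn_fn hp)
  obtain ⟨x, hx, r⟩ := CCn_el hp ht
  exact ⟨x, h hx, r⟩

theorem Cn_rsC {X Y p : ZFSet.{0}} (hp : p ∈ Cn X) : rsC p Y ∈ Cn Y := by
  have hs : rsC p Y ⊆ p := fun t ht => (mem_rsC.1 ht).1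
  refine CCn_mk (fun t ht => ?_) (Fnt_sub (CCn_fin hp) hs)
    fun t ht t' ht' => CCn_fn hp t (hs ht) t' (hs ht')
  obtain ⟨h1, h2⟩ := mem_rsC.1 ht
  obtain ⟨e, _, h3, h4⟩ := Cn_elt hp h1
  exact ⟨_, h2, _, h3, _, h4, e⟩

theorem Cn_union {X p q : ZFSet.{0}} (hp : p ∈ Cn X) (hq : q ∈ Cn X)
    (h : ∀ t ∈ p, ∀ t' ∈ q, fst t = fst t' → t = t') : p ∪ q ∈ Cn X := by
  refine CCn_mk (fun t ht => ?_) (Fnt_union (CCn_fin hp) (CCn_fin hq)) fun t ht t' ht' e => ?_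
  · rcases mem_union.1 ht with ht | ht
    · exact CCn_el hp ht
    · exact CCn_el hq ht
  · rcases mem_union.1 ht with ht | ht
    · rcases mem_union.1 ht' with ht' | ht'
      · exact CCn_fn hp t ht t' ht' e
      · exact h t ht t' ht' e
    · rcases mem_union.1 ht' with ht' | ht'
      · exact (h t' ht' t ht e.symm).symm
      · exact CCn_fn hq t ht t' ht' e

theorem Cn_disj {X Y p q : ZFSet.{0}} (hp : p ∈ Cn X) (hq : q ∈ Cn Y) (h : ∀ x ∈ X, x ∉ Y) :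
    p ∪ q ∈ Cn (X ∪ Y) := by
  refine Cn_union (Cn_mono (fun x hx => mem_union.2 (Or.inl hx)) hp)
    (Cn_mono (fun x hx => mem_union.2 (Or.inr hx)) hq) fun t ht t' ht' e => ?_
  have h1 := (Cn_elt hp ht).2.1
  have h2 := (Cn_elt hq ht').2.1
  rw [e] at h1
  exact absurd h2 (h _ h1)

theorem Cn_insert {X p x i j : ZFSet.{0}} (hp : p ∈ Cn X) (hx : x ∈ X) (hi : i ∈ omega)
    (hj : j ∈ omega) (h : ∀ t ∈ p, fst t ≠ pair x i) :
    (insert (pair (pair x i) j) p : ZFSet) ∈ Cn X := by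
  refine CCn_mk (fun t ht => ?_) (Fnt_insert (CCn_fin hp)) fun t ht t' ht' e => ?_
  · rcases mem_insert_iff.1 ht with rfl | ht
    · exact ⟨x, hx, i, hi, j, hj, rfl⟩
    · exact CCn_el hp ht
  · rcases mem_insert_iff.1 ht with rfl | ht
    · rcases mem_insert_iff.1 ht' with rfl | ht'
      · rfl
      · rw [fst_pair] at e
        exact absurd e.symm (h t' ht')
    · rcases mem_insert_iff.1 ht' with rfl | ht'
      · rw [fst_pair] at e
        exact absurd e (h t ht)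
      · exact CCn_fn hp t ht t' ht' e

theorem Cn_fill {X Y p L : ZFSet.{0}} (hp : p ∈ Cn X) (hY : Y ⊆ X) (hYf : Fnt Y)
    (hL : L ∈ omega) {c : ZFSet.{0} → ZFSet.{0} → ZFSet.{0}}
    (hc : ∀ x ∈ Y, ∀ i ∈ L, c x i ∈ omega) :
    ∃ p' ∈ Cn X, p ⊆ p' ∧ (∀ x ∈ Y, ∀ i ∈ L, ∃ j, pair (pair x i) j ∈ p') ∧
      ∀ t ∈ p', t ∉ p → fst (fst t) ∈ Y ∧ snd (fst t) ∈ L ∧
        snd t = c (fst (fst t)) (snd (fst t)) := by
  classical
  set S : ZFSet.{0} := ZFSet.sep (fun s => ∀ t ∈ p, fst t ≠ s) (ZFSet.prod Y L) with hS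
  set Q : ZFSet.{0} := img (fun s => pair s (c (fst s) (snd s))) S with hQ
  have hL' : ∀ i ∈ L, i ∈ omega := by
    obtain ⟨n, rfl⟩ := mem_omega.1 hL
    intro i hi
    obtain ⟨m, _, rfl⟩ := mem_nz.1 hi
    exact nz_mem_omega m
  have hLf : Fnt L := by
    obtain ⟨n, rfl⟩ := mem_omega.1 hL
    exact Fnt_nz n
  have hQm : ∀ t ∈ Q, ∃ x ∈ Y, ∃ i ∈ L, t = pair (pair x i) (c x i) ∧
      ∀ t' ∈ p, fst t' ≠ pair x i := by
    intro t ht
    obtain ⟨s, hs, rfl⟩ := mem_img.1 ht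
    obtain ⟨h1, h2⟩ := mem_sep.1 hs
    obtain ⟨x, hx, i, hi, rfl⟩ := mem_prod.1 h1
    refine ⟨x, hx, i, hi, ?_, h2⟩
    rw [fst_pair, snd_pair]
  have hQC : Q ∈ Cn X := by
    refine CCn_mk (fun t ht => ?_) (Fnt_img (Fnt_sub (Fnt_prod hYf hLf)
      fun s hs => (mem_sep.1 hs).1)) fun t ht t' ht' e => ?_
    · obtain ⟨x, hx, i, hi, rfl, _⟩ := hQm t ht
      exact ⟨x, hY hx, i, hL' i hi, _, hc x hx i hi, rfl⟩
    · obtain ⟨x, hx, i, hi, rfl, _⟩ := hQm t ht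
      obtain ⟨x', hx', i', hi', rfl, _⟩ := hQm t' ht'
      rw [fst_pair, fst_pair] at e
      obtain ⟨rfl, rfl⟩ := pair_inj.1 e
      rfl
  refine ⟨p ∪ Q, Cn_union hp hQC fun t ht t' ht' e => ?_, fun t ht => mem_union.2 (Or.inl ht),
    fun x hx i hi => ?_, fun t ht hn => ?_⟩
  · obtain ⟨x, hx, i, hi, rfl, h1⟩ := hQm t' ht'
    rw [fst_pair] at e
    exact absurd e (h1 t ht)
  · by_cases h1 : ∃ t ∈ p, fst t = pair x i
    · obtain ⟨t, ht, e⟩ := h1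
      refine ⟨snd t, mem_union.2 (Or.inl ?_)⟩
      have h2 := (mem_Cn.1 hp).2.2.1 t ht
      rw [e] at h2
      rw [← h2]
      exact ht
    · refine ⟨c x i, mem_union.2 (Or.inr (mem_img.2 ⟨pair x i, mem_sep.2
        ⟨pair_mem_prod.2 ⟨hx, hi⟩, fun t ht e => h1 ⟨t, ht, e⟩⟩, ?_⟩))⟩
      rw [fst_pair, snd_pair]
  · rcases mem_union.1 ht with ht | ht
    · exact absurd ht hn
    · obtain ⟨x, hx, i, hi, rfl, _⟩ := hQm t ht
      simp only [fst_pair, snd_pair]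
      exact ⟨hx, hi, trivial⟩

theorem Cn_Fit_union {X p q : ZFSet.{0}} {F : ZFSet.{0} → ZFSet.{0}} (hp : p ∈ Cn X)
    (hq : q ∈ Cn X) (hF : ∀ x ∈ X, IsFunc omega omega (F x)) (h : Fit F p) (h' : Fit F q) :
    p ∪ q ∈ Cn X := by
  refine Cn_union hp hq fun t ht t' ht' e => ?_
  obtain ⟨e1, h1, h2, h3⟩ := Cn_elt hp ht
  obtain ⟨e2, _, _, _⟩ := Cn_elt hq ht'
  have h4 := h t ht
  have h5 := h' t' ht'
  rw [← e] at h5
  obtain ⟨w, _, hw⟩ := (hF _ h1).2 _ h2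
  have h6 : snd t = snd t' := (hw _ h4).trans (hw _ h5).symm
  rw [e1, e2, ← e, h6]

theorem Fit_sub {p q : ZFSet.{0}} {F : ZFSet.{0} → ZFSet.{0}} (h : Fit F p) (hq : q ⊆ p) :
    Fit F q := fun t ht => h t (hq ht)

theorem Fit_union {p q : ZFSet.{0}} {F : ZFSet.{0} → ZFSet.{0}} (h : Fit F p) (h' : Fit F q) :
    Fit F (p ∪ q) := fun t ht => (mem_union.1 ht).elim (fun ht => h t ht) fun ht => h' t ht

theorem Fit_congr {X p : ZFSet.{0}} {F F' : ZFSet.{0} → ZFSet.{0}} (hp : p ∈ Cn X)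
    (e : ∀ x ∈ X, F x = F' x) : Fit F p ↔ Fit F' p := by
  constructor
  · intro h t ht
    rw [← e _ (Cn_elt hp ht).2.1]
    exact h t ht
  · intro h t ht
    rw [e _ (Cn_elt hp ht).2.1]
    exact h t ht

theorem Cn_N {N : Set ZFSet.{0}} (hN : TM N) {X p : ZFSet.{0}} (hX : ∀ x ∈ X, x ∈ N)
    (hp : p ∈ Cn X) : p ∈ N := by
  refine fin_mem hN (fun t ht => ?_) (CCn_fin hp)
  obtain ⟨x, hx, i, hi, j, hj, rfl⟩ := CCn_el hp ht
  exact hN.pair (hN.pair (hX x hx) (hN.tr _ (TM.omega hN) _ hi)) (hN.tr _ (TM.omega hN) _ hj)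

/-- a bound for the numbers in a condition -/
theorem Cn_bound {X p : ZFSet.{0}} (hp : p ∈ Cn X) : ∃ L : ℕ, ∀ t ∈ p, snd (fst t) ∈ nz L := by
  have key : ∀ s : ZFSet.{0}, Fnt s → (∀ t ∈ s, snd (fst t) ∈ omega) →
      ∃ L : ℕ, ∀ t ∈ s, snd (fst t) ∈ nz L := by
    intro s hs
    refine Fnt_ind (P := fun s => (∀ t ∈ s, snd (fst t) ∈ omega) →
      ∃ L : ℕ, ∀ t ∈ s, snd (fst t) ∈ nz L) ?_ ?_ hs
    · intro _
      exact ⟨0, fun t ht => absurd ht (notMem_empty t)⟩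
    · intro s x _ _ ih h
      obtain ⟨L, hL⟩ := ih fun t ht => h t (mem_insert_iff.2 (Or.inr ht))
      obtain ⟨n, hn⟩ := mem_omega.1 (h x (mem_insert_iff.2 (Or.inl rfl)))
      refine ⟨max L (n + 1), fun t ht => ?_⟩
      rcases mem_insert_iff.1 ht with rfl | ht
      · rw [hn]
        exact nz_mem_nz.2 (lt_of_lt_of_le (Nat.lt_succ_self n) (le_max_right _ _))
      · obtain ⟨m, hm, e⟩ := mem_nz.1 (hL t ht)
        rw [e]
        exact nz_mem_nz.2 (lt_of_lt_of_le hm (le_max_left _ _))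
  exact key p (CCn_fin hp) fun t ht => (Cn_elt hp ht).2.2.1

end H83.PN
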