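import Pool.Agent.H83.PN.Defs
import Pool.Agent.H83.AC.WoU
import Pool.Agent.H83.AC.HlU

set_option autoImplicit false

/-!
# Module TDC: dependent choice in models of `V = L`

Let `w ∈ N` be a well-order of `A` (`exists_wo`). Recursion along `∈` (`hl`, `UF.hl` with the parameters
`w, A, a` and `v`): `G t p = a` if `t = ∅`, otherwise with `i = ⋃₀ t`
`G t p = lst w (sep (fun y => R N i (app p i) y v) A)`. For `t = sc i`, `i ∈ omega`: `⋃₀ t = i`, `i ∈ tc t`, so
`hl G (sc i) = lst w {y ∈ A : R N i (hl G i) y v}` (`hl_eq`, `app_fgr`). `f = fgr (hl G) omega ∈ N`.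
`UF.hl` has the form `UF (fun N w => hl (G N (sh w)) (w 0))`; use a stream `u` which starts with `w, A, a`
and continues with `v`. `lst_mem` by the hypothesis `h`, induction on `i` (`mem_omega`, `nz (n+1) = sc (nz n)`).
-/

namespace H83.PN

open ZFSet H83.AC

private noncomputable def TDC_G
    (R : Set ZFSet.{0} → ZFSet.{0} → ZFSet.{0} → ZFSet.{0} → (ℕ → ZFSet.{0}) → Prop)
    (N : Set ZFSet.{0}) (v : ℕ → ZFSet.{0}) (t p : ZFSet.{0}) : ZFSet.{0} :=
  open Classical in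
  if t = ∅ then v 2 else
    lst (v 0) (ZFSet.sep (fun y => R N (⋃₀ t) (app p (⋃₀ t)) y (sh (sh (sh v)))) (v 1))

private theorem TDC_UF
    {R : Set ZFSet.{0} → ZFSet.{0} → ZFSet.{0} → ZFSet.{0} → (ℕ → ZFSet.{0}) → Prop}
    (hR : UR (fun N w => R N (w 0) (w 1) (w 2) (sh (sh (sh w))))) :
    UF (fun N w => TDC_G R N (sh (sh w)) (w 0) (w 1)) := by
  have h1 : UR (fun N v => R N (v 1) (v 0) (v 2) (fun n => v (n + 8))) :=
    hR.ren (fun n => if n = 0 then 1 else if n = 1 then 0 else if n = 2 then 2 else n + 5)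
  have h2 : UR (fun N v => R N (v 0) (app (v 3) (⋃₀ (v 2) : ZFSet)) (v 1) (fun n => v (n + 7))) :=
    UD.subst (R := fun N x v => R N (v 0) x (v 1) (fun n => v (n + 7))) h1
      (f := fun _ v => app (v 3) (⋃₀ (v 2) : ZFSet)) (by infer_instance)
  have h3 : UR (fun N v => R N (⋃₀ (v 1) : ZFSet) (app (v 2) (⋃₀ (v 1) : ZFSet)) (v 0)
      (fun n => v (n + 6))) :=
    UD.subst (R := fun N x v => R N x (app (v 2) (⋃₀ (v 1) : ZFSet)) (v 0) (fun n => v (n + 6))) h2
      (f := fun _ v => (⋃₀ (v 1) : ZFSet)) (by infer_instance)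
  have h4 : UF (fun N w => ZFSet.sep (fun y => R N (⋃₀ (w 0) : ZFSet) (app (w 1) (⋃₀ (w 0) : ZFSet))
      y (fun n => w (n + 5))) (w 3)) :=
    UF.sep (R := fun N x w => R N (⋃₀ (w 0) : ZFSet) (app (w 1) (⋃₀ (w 0) : ZFSet)) x
      (fun n => w (n + 5))) (UF.var 3) h3
  exact UF.ite (UR.eq (UF.var 0) UF.empty) (UF.var 4) (UF.lst (UF.var 2) h4)

private theorem TDC_sU (n : ℕ) : (⋃₀ (sc (nz n)) : ZFSet) = nz n := by
  apply ZFSet.ext
  intro z
  rw [mem_sUnion]
  constructor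
  · rintro ⟨x, hx, hz⟩
    rcases mem_insert_iff.1 hx with rfl | hx
    · exact hz
    · obtain ⟨m, hm, rfl⟩ := mem_nz.1 hx
      obtain ⟨k, hk, rfl⟩ := mem_nz.1 hz
      exact nz_mem_nz.2 (hk.trans hm)
  · intro hz
    exact ⟨nz n, mem_insert_iff.2 (Or.inl rfl), hz⟩

theorem TM_DC {N : Set ZFSet.{0}} (hN : TM N) (hV : VL N)
    {R : Set ZFSet.{0} → ZFSet.{0} → ZFSet.{0} → ZFSet.{0} → (ℕ → ZFSet.{0}) → Prop}
    (hR : UR (fun N w => R N (w 0) (w 1) (w 2) (sh (sh (sh w))))) {v : ℕ → ZFSet.{0}}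
    (hv : ∀ i, v i ∈ N) {A a : ZFSet.{0}} (hA : A ∈ N) (ha : a ∈ A)
    (h : ∀ i ∈ omega, ∀ x ∈ A, ∃ y ∈ A, R N i x y v) :
    ∃ p ∈ N, IsFunc omega A p ∧ app p ∅ = a ∧ ∀ i ∈ omega, R N i (app p i) (app p (sc i)) v := by
  obtain ⟨w, hwN, hw⟩ := exists_wo hN hV hA
  have haN : a ∈ N := hN.tr A hA a ha
  have hu : ∀ n, cons w (cons A (cons a v)) n ∈ N := by
    rintro (_ | _ | _ | n)
    · exact hwN
    · exact hA
    · exact haN
    · exact hv n
  have hUF : UF (fun N v => fgr (fun x => hl (TDC_G R N v) x) omega) :=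
    UF.fgr (F := fun N x v => hl (TDC_G R N v) x) UF.omega (UF.hl (TDC_UF hR))
  have hfN := hUF.mem N hN _ hu
  set H : ZFSet.{0} → ZFSet.{0} := fun x => hl (TDC_G R N (cons w (cons A (cons a v)))) x with hH
  have hz : H ∅ = a := by
    rw [hH]
    simp only
    rw [hl_eq, TDC_G, if_pos rfl]
    rfl
  have hs : ∀ n : ℕ, H (sc (nz n)) =
      lst w (ZFSet.sep (fun y => R N (nz n) (H (nz n)) y v) A) := by
    intro n
    have hne : sc (nz n) ≠ ∅ := by
      intro h0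
      have h1 : nz n ∈ sc (nz n) := mem_insert_iff.2 (Or.inl rfl)
      rw [h0] at h1
      exact notMem_empty _ h1
    have hap : app (fgr (hl (TDC_G R N (cons w (cons A (cons a v))))) (tc (sc (nz n)))) (nz n) =
        H (nz n) := app_fgr (sub_tc _ (mem_insert_iff.2 (Or.inl rfl)))
    rw [hH]
    simp only
    rw [hl_eq]
    conv_lhs => rw [TDC_G]
    rw [if_neg hne, TDC_sU, hap]
    rfl
  have hmem : ∀ n : ℕ, H (nz n) ∈ A := by
    intro n
    induction n with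
    | zero =>
      change H ∅ ∈ A
      rw [hz]
      exact ha
    | succ n ih =>
      change H (sc (nz n)) ∈ A
      rw [hs n]
      refine (mem_sep.1 (lst_mem hw (fun y hy => (mem_sep.1 hy).1) ?_)).1
      obtain ⟨y, hy, hr⟩ := h (nz n) (nz_mem_omega n) _ ih
      intro h0
      have h1 : y ∈ ZFSet.sep (fun y => R N (nz n) (H (nz n)) y v) A := mem_sep.2 ⟨hy, hr⟩
      rw [h0] at h1
      exact notMem_empty _ h1
  have hstep : ∀ n : ℕ, R N (nz n) (H (nz n)) (H (sc (nz n))) v := by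
    intro n
    rw [hs n]
    suffices h5 : lst w (ZFSet.sep (fun y => R N (nz n) (H (nz n)) y v) A) ∈
        ZFSet.sep (fun y => R N (nz n) (H (nz n)) y v) A from (mem_sep.1 h5).2
    refine lst_mem hw (fun y hy => (mem_sep.1 hy).1) ?_
    obtain ⟨y, hy, hr⟩ := h (nz n) (nz_mem_omega n) _ (hmem n)
    intro h0
    have h1 : y ∈ ZFSet.sep (fun y => R N (nz n) (H (nz n)) y v) A := mem_sep.2 ⟨hy, hr⟩
    rw [h0] at h1
    exact notMem_empty _ h1
  refine ⟨fgr H omega, hfN, fn_fgr ?_, ?_, ?_⟩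
  · intro x hx
    obtain ⟨n, rfl⟩ := mem_omega.1 hx
    exact hmem n
  · exact (app_fgr (nz_mem_omega 0)).trans hz
  · intro i hi
    obtain ⟨n, rfl⟩ := mem_omega.1 hi
    have e : app (fgr H omega) (sc (nz n)) = H (sc (nz n)) := app_fgr (nz_mem_omega (n + 1))
    rw [app_fgr (nz_mem_omega n), e]
    exact hstep n

end H83.PN
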