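import Pool.Agent.H83.PN.CRl
import Pool.Agent.H83.PN.TDC

set_option autoImplicit false

/-!
# Module CEx: generic families exist in larger models

Work in `cls W'`. Let `e ∈ W'` enumerate the elements of `W` (`W ⊆ tc W`, `HCt (cls W') W`). `TM_DC` with `A = Cn X`,
`a = ∅`, and `R i p p'`: `p ⊆ p' ∧ (app e i ∈ W → Dn X (app e i) → ∃ q ∈ app e i, q ⊆ p')` (extend `p` into the dense
set). Let `P = uni (fun i => app p i) omega` (the union of the chain), `g = fgr (fun x => {t ∈ omega × omega :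
((x, fst t), snd t) ∈ P}) X`. The conditions of the chain are increasing (induction), so `P` is a function
(`Fun`). Every `app g x` is total by the dense sets `{p ∈ Cn X : ∃ j, ((x, i), j) ∈ p} ∈ W` (`Cn_insert`), for
`x ∈ X`, `i ∈ omega`. Every dense `D ∈ W` is some `app e i`.
`exists_gnC_below`: the same with the first condition `p₀`.
-/

namespace H83.PN

open ZFSet H83.AC

private theorem CEx_UR : UR (fun _ w => w 1 ⊆ w 2 ∧ (app (w 4) (w 0) ∈ w 3 →
    Dn (w 5) (app (w 4) (w 0)) → ∃ q ∈ app (w 4) (w 0), q ⊆ w 2)) := by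
  infer_instance

private theorem CEx_dense {W X x i : ZFSet.{0}} (hW : TM (cls W)) (hX : X ∈ W) (hx : x ∈ X)
    (hi : i ∈ omega) :
    ZFSet.sep (fun p => ∃ t ∈ p, fst t = pair x i) (Cn X) ∈ W ∧
      Dn X (ZFSet.sep (fun p => ∃ t ∈ p, fst t = pair x i) (Cn X)) := by
  have hCX : Cn X ∈ cls W :=
    (inferInstance : UF (fun _ v => H83.PN.Cn (v 0))).mem (cls W) hW (fun _ => X) (fun _ => hX)
  have hxW : x ∈ cls W := hW.tr X hX x hx
  have hoW : omega ∈ cls W :=
    (inferInstance : UF (fun _ _ => (omega : ZFSet.{0}))).mem (cls W) hW (fun _ => X) (fun _ => hX)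
  have hiW : i ∈ cls W := hW.tr _ hoW i hi
  have hpW : pair x i ∈ cls W :=
    (inferInstance : UF (fun _ v => ZFSet.pair (v 0) (v 1))).mem (cls W) hW
      (fun n => if n = 0 then x else i) (fun n => by
        by_cases hn : n = 0
        · simp only [hn, if_true]; exact hxW
        · simp only [hn, if_false]; exact hiW)
  have hU : UR (fun _ v => ∃ t ∈ v 0, H83.AC.fst t = v 1) := by infer_instance
  refine ⟨?_, ?_, ?_⟩
  · exact hW.sep_of (R := fun _ p v => ∃ t ∈ p, H83.AC.fst t = v 0) hU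
      (v := fun _ => pair x i) (fun _ => hpW) hCX
  · exact fun z hz => (mem_sep.1 hz).1
  · intro p hp
    by_cases h : ∃ t ∈ p, fst t = pair x i
    · exact ⟨p, mem_sep.2 ⟨hp, h⟩, fun z hz => hz⟩
    · have h1 : ∀ t ∈ p, fst t ≠ pair x i := fun t ht e => h ⟨t, ht, e⟩
      have h2 := Cn_insert hp hx hi (nz_mem_omega 0) h1
      refine ⟨_, mem_sep.2 ⟨h2, _, mem_insert_iff.2 (Or.inl rfl), by rw [fst_pair]⟩,
        fun z hz => mem_insert_iff.2 (Or.inr hz)⟩

theorem exists_gnC_below {W W' X p₀ : ZFSet.{0}} (h : Wd W) (h' : Wd W') (hW : W ∈ W')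
    (hc : HCt (cls W') W) (hX : X ∈ W) (hp : p₀ ∈ Cn X) :
    ∃ g ∈ W', g = fgr (fun x => app g x) X ∧ (∀ x ∈ X, IsFunc omega omega (app g x)) ∧
      GnC W X (fun x => app g x) ∧ Fit (fun x => app g x) p₀ := by
  obtain ⟨e, heW, he⟩ := hc
  have hT := h.1
  have hT' := h'.1
  have hXW' : X ∈ cls W' := hT'.tr W hW X hX
  have hCX : Cn X ∈ cls W' :=
    (inferInstance : UF (fun _ v => H83.PN.Cn (v 0))).mem (cls W') hT' (fun _ => X)
      (fun _ => hXW')
  set v : ℕ → ZFSet.{0} := fun n => if n = 0 then W else if n = 1 then e else X with hv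
  have hvN : ∀ n, v n ∈ cls W' := by
    intro n
    rw [hv]
    by_cases h0 : n = 0
    · simp only [h0, if_true]; exact hW
    · by_cases h1 : n = 1
      · simp only [h1, if_true, Nat.one_ne_zero, if_false]; exact heW
      · simp only [h0, h1, if_false]; exact hXW'
  have hv0 : v 0 = W := by simp [hv]
  have hv1 : v 1 = e := by simp [hv]
  have hv2 : v 2 = X := by simp [hv]
  obtain ⟨f, hfN, hfF, hf0, hfs⟩ := TM_DC hT' h'.2
    (R := fun _ i p p' v => p ⊆ p' ∧ (app (v 1) i ∈ v 0 → Dn (v 2) (app (v 1) i) →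
      ∃ q ∈ app (v 1) i, q ⊆ p')) CEx_UR (v := v) hvN (A := Cn X) (a := p₀) hCX hp
    (by
      intro i _ p hpX
      rw [hv0, hv1, hv2]
      by_cases hD : app e i ∈ W ∧ Dn X (app e i)
      · obtain ⟨q, hq, hpq⟩ := hD.2.2 p hpX
        exact ⟨q, hD.2.1 hq, hpq, fun _ _ => ⟨q, hq, fun z hz => hz⟩⟩
      · exact ⟨p, hpX, fun z hz => hz, fun h1 h2 => absurd ⟨h1, h2⟩ hD⟩)
  simp only [hv0, hv1, hv2] at hfs
  -- the chain
  set c : ℕ → ZFSet.{0} := fun n => app f (nz n) with hcdef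
  have hcX : ∀ n, c n ∈ Cn X := by
    intro n
    exact fn_mem hfF (nz_mem_omega n)
  have hc1 : ∀ n, c n ⊆ c (n + 1) := fun n => (hfs _ (nz_mem_omega n)).1
  have hmono : ∀ m n, m ≤ n → c m ⊆ c n := by
    intro m n hmn
    induction n, hmn using Nat.le_induction with
    | base => exact fun z hz => hz
    | succ n _ ih => exact fun z hz => hc1 n (ih hz)
  have hden : ∀ D ∈ W, Dn X D → ∃ n, ∃ q ∈ D, q ⊆ c n := by
    intro D hD hDn
    obtain ⟨i, hi, hie⟩ := he D (sub_tc W hD)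
    obtain ⟨n, rfl⟩ := mem_omega.1 hi
    obtain ⟨q, hq, hqs⟩ := (hfs _ (nz_mem_omega n)).2 (by rw [hie]; exact hD)
      (by rw [hie]; exact hDn)
    rw [hie] at hq
    exact ⟨n + 1, q, hq, hqs⟩
  set Gx : ZFSet.{0} → ZFSet.{0} := fun x => ZFSet.sep (fun t => ∃ i ∈ omega,
    pair (pair x (fst t)) (snd t) ∈ app f i) (ZFSet.prod omega omega) with hGx
  have hgW : fgr Gx X ∈ cls W' := by
    have hU : UF (fun _ v => H83.AC.fgr (fun x => ZFSet.sep (fun t => ∃ i ∈ omega,
        ZFSet.pair (ZFSet.pair x (H83.AC.fst t)) (H83.AC.snd t) ∈ H83.AC.app (v 0) i)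
        (ZFSet.prod omega omega)) (v 1)) := by
      infer_instance
    have := hU.mem (cls W') hT' (fun n => if n = 0 then f else X) (fun n => by
        by_cases hn : n = 0
        · simp only [hn, if_true]; exact hfN
        · simp only [hn, if_false]; exact hXW')
    simp only [if_true, Nat.one_ne_zero, if_false] at this
    exact this
  have happ : ∀ x ∈ X, app (fgr Gx X) x = Gx x := fun x hx => app_fgr hx
  have hmem : ∀ x i j, pair i j ∈ Gx x ↔ i ∈ omega ∧ j ∈ omega ∧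
      ∃ n, pair (pair x i) j ∈ c n := by
    intro x i j
    rw [hGx]
    simp only
    rw [mem_sep, pair_mem_prod, fst_pair, snd_pair]
    constructor
    · rintro ⟨⟨h1, h2⟩, k, hk, h3⟩
      obtain ⟨n, rfl⟩ := mem_omega.1 hk
      exact ⟨h1, h2, n, h3⟩
    · rintro ⟨h1, h2, n, h3⟩
      exact ⟨⟨h1, h2⟩, nz n, nz_mem_omega n, h3⟩
  have hfun : ∀ x ∈ X, IsFunc omega omega (Gx x) := by
    intro x hx
    refine ⟨fun z hz => (mem_sep.1 hz).1, fun i hi => ?_⟩
    obtain ⟨hDW, hDn⟩ := CEx_dense hT hX hx hi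
    obtain ⟨n, q, hq, hqs⟩ := hden _ hDW hDn
    obtain ⟨hqX, t, ht, hte⟩ := mem_sep.1 hq
    obtain ⟨et, -, -, hj⟩ := Cn_elt hqX ht
    have h1 : pair (pair x i) (snd t) ∈ c n := by
      have e1 : t = pair (pair x i) (snd t) := by
        conv_lhs => rw [et]
        rw [hte, fst_pair, snd_pair]
      rw [← e1]
      exact hqs ht
    refine ⟨snd t, (hmem x i (snd t)).2 ⟨hi, hj, n, h1⟩, ?_⟩
    intro j' hj'
    obtain ⟨-, -, m, hm⟩ := (hmem x i j').1 hj'
    have h2 := hmono n (max n m) (le_max_left _ _) h1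
    have h3 := hmono m (max n m) (le_max_right _ _) hm
    have h4 := (mem_Cn.1 (hcX (max n m))).2.2.2 _ h3 _ h2 (by rw [fst_pair, fst_pair])
    have h5 := congrArg snd h4
    rwa [snd_pair, snd_pair] at h5
  have hfit : ∀ n, ∀ t ∈ c n, pair (snd (fst t)) (snd t) ∈ app (fgr Gx X) (fst (fst t)) := by
    intro n t ht
    obtain ⟨et, hx, hi, hj⟩ := Cn_elt (hcX n) ht
    rw [happ _ hx]
    refine (hmem _ _ _).2 ⟨hi, hj, n, ?_⟩
    rw [← et]
    exact ht
  refine ⟨fgr Gx X, hgW, fgr_congr fun x hx => (happ x hx).symm, fun x hx => ?_, ?_, ?_⟩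
  · rw [happ x hx]
    exact hfun x hx
  · intro D hD hDn
    obtain ⟨n, q, hq, hqs⟩ := hden D hD hDn
    exact ⟨q, hq, fun t ht => hfit n t (hqs ht)⟩
  · intro t ht
    refine hfit 0 t ?_
    have e0 : c 0 = p₀ := hf0
    rw [e0]
    exact ht

theorem exists_gnC {W W' X : ZFSet.{0}} (h : Wd W) (h' : Wd W') (hW : W ∈ W')
    (hc : HCt (cls W') W) (hX : X ∈ W) :
    ∃ g ∈ W', g = fgr (fun x => app g x) X ∧ (∀ x ∈ X, IsFunc omega omega (app g x)) ∧
      GnC W X (fun x => app g x) := by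
  obtain ⟨g, h1, h2, h3, h4, -⟩ := exists_gnC_below h h' hW hc hX (Cn_empty X)
  exact ⟨g, h1, h2, h3, h4⟩

end H83.PN
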