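import Pool.Agent.H83.PN.CCn

set_option autoImplicit false

/-!
# Module CPr: the product of two generic families

Let `D ∈ W` be dense in `Cn (Y ∪ A)`, `e = fgr F Y ∈ W'`. `E = {q ∈ Cn A : ∃ p ∈ D, rsC p Y fits (app e) ∧ rsC p A = q}`
is in `W'` (`Inst.Fit`) and dense in `Cn A`: let `q₀ ∈ Cn A`; `D₁ = {p' ∈ Cn Y : ∃ p ∈ D, rsC p Y = p' ∧ q₀ ⊆ rsC p A}`
is in `W` (`Cn_N`) and dense in `Cn Y`: for `p₀ ∈ Cn Y` take `p ∈ D` above `p₀ ∪ q₀` (`Cn_disj`). So some `p' ∈ D₁`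
fits `F`, with `p`; `rsC p A ∈ E` contains `q₀`. By genericity over `W'` some `q ∈ E` fits `F`; the `p` belonging to
it is in `D` and fits `F` (every element of `p` is in `rsC p Y` or in `rsC p A`).
-/

namespace H83.PN

open ZFSet H83.AC

theorem gnC_step {W W' Y A : ZFSet.{0}} (hW : TM (cls W)) (hW' : TM (cls W')) (hs : W ⊆ W')
    (hY : Y ∈ W) (hA : A ∈ W) (hdis : ∀ y ∈ Y, y ∉ A) {F : ZFSet.{0} → ZFSet.{0}}
    (hF : fgr F Y ∈ W') (h1 : GnC W Y F) (h2 : GnC W' A F) : GnC W (Y ∪ A) F := by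
  intro D hD hDn
  obtain ⟨hDs, hDd⟩ := hDn
  have hFit : ∀ p : ZFSet.{0}, Fit (fun x => app (fgr F Y) x) (rsC p Y) → Fit F (rsC p Y) := by
    intro p hp t ht
    have h := hp t ht
    have hY' : fst (fst t) ∈ Y := (mem_rsC.1 ht).2
    have e : app (fgr F Y) (fst (fst t)) = F (fst (fst t)) := app_fgr hY'
    have h' : pair (snd (fst t)) (snd t) ∈ app (fgr F Y) (fst (fst t)) := h
    rw [e] at h'
    exact h'
  have hFit' : ∀ p : ZFSet.{0}, Fit F (rsC p Y) → Fit (fun x => app (fgr F Y) x) (rsC p Y) := by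
    intro p hp t ht
    have hY' : fst (fst t) ∈ Y := (mem_rsC.1 ht).2
    have e : app (fgr F Y) (fst (fst t)) = F (fst (fst t)) := app_fgr hY'
    change pair (snd (fst t)) (snd t) ∈ app (fgr F Y) (fst (fst t))
    rw [e]
    exact hp t ht
  -- the set `E`
  have hE : ZFSet.sep (fun q => ∃ p ∈ D, Fit (fun x => app (fgr F Y) x) (rsC p Y) ∧ rsC p A = q)
      (Cn A) ∈ W' := by
    have hu : UF (fun N v => ZFSet.sep (fun q => ∃ p ∈ v 0,
        Fit (fun x => app (v 1) x) (rsC p (v 2)) ∧ rsC p (v 3) = q) (Cn (v 3))) := by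
      infer_instance
    exact hu.mem (cls W') hW' (fun n => if n = 0 then D else if n = 1 then fgr F Y else
      if n = 2 then Y else A) (fun n => by
        split_ifs
        · exact hs hD
        · exact hF
        · exact hs hY
        · exact hs hA)
  have hEd : Dn A (ZFSet.sep (fun q => ∃ p ∈ D, Fit (fun x => app (fgr F Y) x) (rsC p Y) ∧
      rsC p A = q) (Cn A)) := by
    refine ⟨fun q hq => (mem_sep.1 hq).1, fun q₀ hq₀ => ?_⟩
    have hq₀W : q₀ ∈ W := Cn_N (N := cls W) hW (fun x hx => hW.tr A hA x hx) hq₀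
    have hD1 : ZFSet.sep (fun p' => ∃ p ∈ D, rsC p Y = p' ∧ q₀ ⊆ rsC p A) (Cn Y) ∈ W := by
      have hu : UF (fun N v => ZFSet.sep (fun p' => ∃ p ∈ v 0,
          rsC p (v 2) = p' ∧ v 1 ⊆ rsC p (v 3)) (Cn (v 2))) := by
        infer_instance
      exact hu.mem (cls W) hW (fun n => if n = 0 then D else if n = 1 then q₀ else
        if n = 2 then Y else A) (fun n => by
          split_ifs
          · exact hD
          · exact hq₀W
          · exact hY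
          · exact hA)
    obtain ⟨p', hp', hpF⟩ := h1 _ hD1 ⟨fun q hq => (mem_sep.1 hq).1, fun p₀ hp₀ => by
      obtain ⟨p, hp, hpp⟩ := hDd (p₀ ∪ q₀) (Cn_disj hp₀ hq₀ hdis)
      refine ⟨rsC p Y, mem_sep.2 ⟨Cn_rsC (hDs hp), p, hp, rfl, fun t ht => ?_⟩, fun t ht => ?_⟩
      · exact mem_rsC.2 ⟨hpp (mem_union.2 (Or.inr ht)), (Cn_elt hq₀ ht).2.1⟩
      · exact mem_rsC.2 ⟨hpp (mem_union.2 (Or.inl ht)), (Cn_elt hp₀ ht).2.1⟩⟩
    obtain ⟨-, p, hp, e, hq⟩ := mem_sep.1 hp'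
    refine ⟨rsC p A, mem_sep.2 ⟨Cn_rsC (hDs hp), p, hp, hFit' p (by rw [e]; exact hpF), rfl⟩, hq⟩
  obtain ⟨q, hq, hqF⟩ := h2 _ hE hEd
  obtain ⟨-, p, hp, hpY, e⟩ := mem_sep.1 hq
  refine ⟨p, hp, fun t ht => ?_⟩
  rcases mem_union.1 (Cn_elt (hDs hp) ht).2.1 with h | h
  · exact hFit p hpY t (mem_rsC.2 ⟨ht, h⟩)
  · rw [← e] at hqF
    exact hqF t (mem_rsC.2 ⟨ht, h⟩)

end H83.PN
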