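import Pool.Agent.H83.PN.CUU
import Pool.Agent.H83.PN.CBl
import Pool.Agent.H83.PN.CPr

set_option autoImplicit false

/-!
# Module CPd: the reals of different blocks are mutually generic

`Y ∈ W` is finite, `σ` maps `Y` injectively to pairs `(γ, a)`, `γ ∈ dom u`, `γ ∉ ν`, `a ∈ Idx`; `W` is the model number
`ν`. Let `f y = app (uF u (fst (σ y))) (snd (σ y))`. Proof by induction on the ordinal `γ₀ ⊆ dom u`: if
`fst (σ y) ∈ γ₀` for all `y ∈ Y` then `f` is generic over `W` on `Y` (`Y` varies, all finite `Y ∈ W`). For the induction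
step let `Y ≠ ∅` and let `γ` be the largest element of the finite set `{fst (σ y) : y ∈ Y}`, `A = {y ∈ Y : fst (σ y) = γ}`,
`Y' = Y \ A` (finite subsets of elements of `W` are in `W`: `fin_mem`); the induction hypothesis for `γ` gives
`GnC W Y' f`. Let `W' = uW u γ`: `W ⊆ W'` (`W = W'` if `γ = ν`; otherwise `Ws_mono`, `UU_ws`, `Nx_uniq`).
`fgr f Y' ∈ W'`: it is finite, and `f y ∈ W'` for `y ∈ Y'`: with `β = fst (σ y) ∈ γ`, `f y` is in the model number
`sc β`, and `sc β ∈ γ` or `sc β = γ` (`Blk`, `Nx_uniq`, `Ws_mono`). `GnC W' A f`: `A'' = img (fun y => snd (σ y)) A ∈ Fs Idx`,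
`Blk_gnC`, `gnC_rel` with the finite function `fgr (fun y => snd (σ y)) A`. Then `gnC_step` and `gnC_congr`.
-/

namespace H83.PN

open ZFSet H83.AC

private theorem CPd_sc {γ : ZFSet.{0}} (h : rk γ = γ) : rk (sc γ) = sc γ := by
  have h1 : rank (sc γ) = Order.succ (rank γ) := by
    rw [sc, rank_insert]
    exact max_eq_left (Order.le_succ _)
  ext z
  rw [mem_rk, h1, sc, ZFSet.mem_insert_iff]
  constructor
  · rintro ⟨β, hβ, rfl⟩
    rcases (Order.lt_succ_iff.1 hβ).lt_or_eq with h2 | h2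
    · right
      have h3 : β.toZFSet ∈ rk γ := mem_rk.2 ⟨β, h2, rfl⟩
      rwa [h] at h3
    · left
      rw [h2]
      exact h
  · rintro (h2 | h2)
    · refine ⟨rank γ, Order.lt_succ _, ?_⟩
      rw [h2]
      exact h.symm
    · rw [← h] at h2
      obtain ⟨β, hβ, rfl⟩ := mem_rk.1 h2
      exact ⟨β, hβ.trans (Order.lt_succ _), rfl⟩

private theorem CPd_o {γ β : ZFSet.{0}} (h : rk γ = γ) (hb : β ∈ γ) : rk β = β := by
  rw [← h] at hb
  exact rk_of_mem_rk hb

private theorem CPd_tr {α γ β : ZFSet.{0}} (h : rk α = α) (hg : γ ∈ α) (hb : β ∈ γ) : β ∈ α := by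
  have h1 := CPd_o (CPd_o h hg) hb
  rw [← h, ← h1]
  exact rk_mem_rk.2 ((rank_lt_of_mem hb).trans (rank_lt_of_mem hg))

private theorem CPd_lt {α β : ZFSet.{0}} (ha : rk α = α) (hb : rk β = β)
    (h : rank α < rank β) : α ∈ β := by
  rw [← ha, ← hb]
  exact rk_mem_rk.2 h

private theorem CPd_eq {α β : ZFSet.{0}} (ha : rk α = α) (hb : rk β = β)
    (h : rank α = rank β) : α = β := by
  rw [← ha, ← hb]
  exact rk_eq_rk.2 h

private theorem CPd_le {α β : ZFSet.{0}} (ha : rk α = α) (hb : rk β = β) (h : β ∉ α) :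
    α = β ∨ α ∈ β := by
  rcases lt_trichotomy (rank α) (rank β) with h1 | h1 | h1
  · exact Or.inr (CPd_lt ha hb h1)
  · exact Or.inl (CPd_eq ha hb h1)
  · exact absurd (CPd_lt hb ha h1) h

private theorem CPd_idx {N : Set ZFSet.{0}} (hN : TM N) {a : ZFSet.{0}} (ha : a ∈ Idx) :
    a ∈ N := by
  obtain ⟨x, hx, y, hy, rfl⟩ := ZFSet.mem_prod.1 ha
  exact hN.pair (hN.tr _ hN.omega x hx) (hN.tr _ hN.omega y hy)

private theorem CPd_aux {K u ν W : ZFSet.{0}} (hu : UU K u) (hn : ν ∈ dom u ∨ ν = dom u)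
    (hW : Nx (fgr (fun β => uW u β) ν) W) {σ : ZFSet.{0} → ZFSet.{0}} (γ₀ : ZFSet.{0}) :
    rk γ₀ = γ₀ → ∀ Y : ZFSet.{0}, Y ∈ W → Fnt Y →
    (∀ y ∈ Y, fst (σ y) ∈ γ₀) →
    (∀ y ∈ Y, σ y = pair (fst (σ y)) (snd (σ y)) ∧ fst (σ y) ∈ dom u ∧ fst (σ y) ∉ ν ∧
      snd (σ y) ∈ Idx) →
    (∀ y ∈ Y, ∀ y' ∈ Y, σ y = σ y' → y = y') →
    GnC W Y (fun y => app (uF u (fst (σ y))) (snd (σ y))) := by
  induction γ₀ using ZFSet.inductionOn with
  | _ γ₀ ih =>
    intro h0 Y hY hYf hb hσ hi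
    have hTW : TM (cls W) := hW.1.1
    have hYW : ∀ y ∈ Y, y ∈ W := fun y hy => hTW.tr _ hY y hy
    by_cases hne : ∃ y, y ∈ Y
    · obtain ⟨y₁, hy₁⟩ := hne
      obtain ⟨y₀, hy₀, hmax⟩ := Set.exists_max_image {y | y ∈ Y}
        (fun y => rank (fst (σ y))) hYf ⟨y₁, hy₁⟩
      have hy₀Y : y₀ ∈ Y := hy₀
      generalize hγ : fst (σ y₀) = γ at hmax
      have hγ0 : γ ∈ γ₀ := hγ ▸ hb y₀ hy₀Y
      have hγu : γ ∈ dom u := hγ ▸ (hσ y₀ hy₀Y).2.1
      have hγν : γ ∉ ν := hγ ▸ (hσ y₀ hy₀Y).2.2.1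
      have hou : rk (dom u) = dom u := hu.1
      have hoγ : rk γ = γ := CPd_o hou hγu
      -- the two parts
      have hA : ∀ y, y ∈ ZFSet.sep (fun y => fst (σ y) = γ) Y ↔ y ∈ Y ∧ fst (σ y) = γ :=
        fun y => ZFSet.mem_sep
      have hB : ∀ y, y ∈ ZFSet.sep (fun y => fst (σ y) ≠ γ) Y ↔ y ∈ Y ∧ fst (σ y) ≠ γ :=
        fun y => ZFSet.mem_sep
      generalize ZFSet.sep (fun y => fst (σ y) = γ) Y = A at hA
      generalize ZFSet.sep (fun y => fst (σ y) ≠ γ) Y = Y' at hB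
      have hAf : Fnt A := Fnt_sub hYf fun y hy => ((hA y).1 hy).1
      have hBf : Fnt Y' := Fnt_sub hYf fun y hy => ((hB y).1 hy).1
      have hAW : A ∈ W := fin_mem hTW (fun y hy => hYW y ((hA y).1 hy).1) hAf
      have hBW : Y' ∈ W := fin_mem hTW (fun y hy => hYW y ((hB y).1 hy).1) hBf
      have hun : Y' ∪ A = Y := by
        ext y
        rw [ZFSet.mem_union, hA, hB]
        constructor
        · rintro (h | h)
          · exact h.1
          · exact h.1
        · intro h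
          by_cases h1 : fst (σ y) = γ
          · exact Or.inr ⟨h, h1⟩
          · exact Or.inl ⟨h, h1⟩
      have hBγ : ∀ y ∈ Y', fst (σ y) ∈ γ := by
        intro y hy
        obtain ⟨h1, h2⟩ := (hB y).1 hy
        have h3 : rk (fst (σ y)) = fst (σ y) := CPd_o hou (hσ y h1).2.1
        rcases (hmax y h1).lt_or_eq with h4 | h4
        · exact CPd_lt h3 hoγ h4
        · exact absurd (CPd_eq h3 hoγ h4) h2
      have h1 : GnC W Y' (fun y => app (uF u (fst (σ y))) (snd (σ y))) :=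
        ih γ hγ0 hoγ Y' hBW hBf hBγ (fun y hy => hσ y ((hB y).1 hy).1)
          (fun y hy y' hy' => hi y ((hB y).1 hy).1 y' ((hB y').1 hy').1)
      -- the models
      obtain ⟨hws, hwd, hwa⟩ := UU_ws hu
      have hNγ := hu.2.2.1 γ hγu
      have hTW' : TM (cls (uW u γ)) := hNγ.1.1
      have hmono : ∀ β ∈ γ, uW u β ⊆ uW u γ := by
        intro β hβ
        have h2 := (Ws_mono hws (by rw [hwd]; exact hγu) hβ).2.1
        rw [hwa γ hγu, hwa β (CPd_tr hou hγu hβ)] at h2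
        exact h2
      have hsub : W ⊆ uW u γ := by
        rcases hn with hn | hn
        · rcases CPd_le (CPd_o hou hn) hoγ hγν with h2 | h2
          · rw [h2] at hW
            rw [Nx_uniq hW hNγ]
          · have h3 := hmono ν h2
            rw [← Nx_uniq hW (hu.2.2.1 ν hn)] at h3
            exact h3
        · rw [hn] at hγν
          exact absurd hγu hγν
      have hYW' : ∀ y ∈ Y, y ∈ uW u γ := fun y hy => hsub (hYW y hy)
      have hF : fgr (fun y => app (uF u (fst (σ y))) (snd (σ y))) Y' ∈ uW u γ := by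
        refine fin_mem hTW' ?_ (Fnt_img hBf)
        intro z hz
        obtain ⟨y, hy, rfl⟩ := mem_fgr.1 hz
        have hyY := ((hB y).1 hy).1
        obtain ⟨h2, h3, h4, h5⟩ := hσ y hyY
        refine hTW'.pair (hYW' y hyY) ?_
        obtain ⟨W₂, -, hN₂, hBl⟩ := hu.2.2.2 _ h3
        have h6 : app (uF u (fst (σ y))) (snd (σ y)) ∈ W₂ := (hBl.2.1 _ h5).2
        have h7 : fst (σ y) ∈ γ := hBγ y hy
        have ho7 : rk (sc (fst (σ y))) = sc (fst (σ y)) := CPd_sc (CPd_o hou h3)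
        have h8 : γ ∉ sc (fst (σ y)) := by
          intro h9
          rcases ZFSet.mem_insert_iff.1 h9 with h10 | h10
          · rw [h10] at h7
            exact ZFSet.mem_irrefl _ h7
          · exact ZFSet.mem_asymm h7 h10
        rcases CPd_le ho7 hoγ h8 with h9 | h9
        · rw [h9] at hN₂
          rw [Nx_uniq hN₂ hNγ] at h6
          exact h6
        · have h10 := CPd_tr hou hγu h9
          rw [Nx_uniq hN₂ (hu.2.2.1 _ h10)] at h6
          exact hmono _ h9 h6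
      have h2 : GnC (uW u γ) A (fun y => app (uF u (fst (σ y))) (snd (σ y))) := by
        obtain ⟨W₂, -, -, hBl⟩ := hu.2.2.2 γ hγu
        have hidx : ∀ y ∈ A, snd (σ y) ∈ Idx := fun y hy => (hσ y ((hA y).1 hy).1).2.2.2
        have h3 : img (fun y => snd (σ y)) A ∈ Fs Idx := by
          refine mem_Fs.2 ⟨?_, Fnt_img hAf⟩
          intro z hz
          obtain ⟨y, hy, rfl⟩ := mem_img.1 hz
          exact hidx y hy
        have h4 := Blk_gnC hBl h3
        have h5 : img (fun y => snd (σ y)) A ∈ uW u γ := by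
          refine fin_mem hTW' ?_ (Fnt_img hAf)
          intro z hz
          obtain ⟨y, hy, rfl⟩ := mem_img.1 hz
          exact CPd_idx hTW' (hidx y hy)
        have h6 : fgr (fun y => snd (σ y)) A ∈ uW u γ := by
          refine fin_mem hTW' ?_ (Fnt_img hAf)
          intro z hz
          obtain ⟨y, hy, rfl⟩ := mem_fgr.1 hz
          exact hTW'.pair (hYW' y ((hA y).1 hy).1) (CPd_idx hTW' (hidx y hy))
        have h7 := gnC_rel (B := A) hTW' h6 h5 (hsub hAW)
          (fun x hx => by rw [app_fgr hx]; exact mem_img.2 ⟨x, hx, rfl⟩)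
          (fun x hx y hy hxy => by
            rw [app_fgr hx, app_fgr hy] at hxy
            have hx1 := (hA x).1 hx
            have hy1 := (hA y).1 hy
            refine hi x hx1.1 y hy1.1 ?_
            rw [(hσ x hx1.1).1, (hσ y hy1.1).1, hx1.2, hy1.2, hxy]) h4
        refine gnC_congr ?_ h7
        intro x hx
        rw [app_fgr hx, ((hA x).1 hx).2]
      have h3 := gnC_step hTW hTW' hsub hBW hAW
        (fun y hy hy' => ((hB y).1 hy).2 ((hA y).1 hy').2) hF h1 h2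
      rw [hun] at h3
      exact h3
    · intro D hD hDn
      obtain ⟨q, hq, -⟩ := hDn.2 ∅ (Cn_empty Y)
      refine ⟨q, hq, fun t ht => ?_⟩
      exact absurd ⟨_, (Cn_elt (hDn.1 hq) ht).2.1⟩ hne

theorem gen_prod {K u ν W Y : ZFSet.{0}} (hu : UU K u) (hn : ν ∈ dom u ∨ ν = dom u)
    (hW : Nx (fgr (fun β => uW u β) ν) W) (hY : Y ∈ W) (hYf : Fnt Y) {σ : ZFSet.{0} → ZFSet.{0}}
    (hσ : ∀ y ∈ Y, σ y = pair (fst (σ y)) (snd (σ y)) ∧ fst (σ y) ∈ dom u ∧ fst (σ y) ∉ ν ∧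
      snd (σ y) ∈ Idx)
    (hi : ∀ y ∈ Y, ∀ y' ∈ Y, σ y = σ y' → y = y') :
    GnC W Y (fun y => app (uF u (fst (σ y))) (snd (σ y))) :=
  CPd_aux hu hn hW (dom u) hu.1 Y hY hYf (fun y hy => (hσ y hy).2.1) hσ hi

end H83.PN
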