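import Pool.Agent.H83.PN.CCn

set_option autoImplicit false

/-!
# Module CRl: relabelling of generic families

`gnC_rel`: let `σ ∈ W` be injective on `B` with values in `A`. For `q ∈ Cn B` let
`σq = {((σ x, i), j) : ((x, i), j) ∈ q} ∈ Cn A`. For `D ∈ W` dense in `Cn B` let
`D' = {p ∈ Cn A : ∃ q ∈ D, σq ⊆ p} ∈ W`. Dense: given `p₀ ∈ Cn A` let `q₀ = {((x, i), j) : x ∈ B, ((σ x, i), j) ∈ p₀}`,
`q ∈ D` above `q₀`; then `σq ∪ p₀ ∈ Cn A` (if `((σ x, i), j) ∈ σq` and `((σ x, i), j') ∈ p₀` then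
`((x, i), j') ∈ q₀ ⊆ q`, so `j = j'`). If `p ∈ D'` fits `F` then `q` fits `x ↦ F (app σ x)`.
`gnC_sub`: `σ = fgr (fun x => x) B`. `gnC_congr`: `Fit_congr`.
`gnC_below`: for `p₀ ∈ Cn X` which fits `F` and a set `D ∈ W` which is dense below `p₀` some `p ∈ D` fits: the set of
all `p ∈ Cn X` which are in `D` and contain `p₀`, or are incompatible with `p₀` (`∃ t ∈ p, ∃ t' ∈ p₀, fst t = fst t' ∧ t ≠ t'`),
is dense and in `W` (`Cn_N`).
-/

namespace H83.PN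

open ZFSet H83.AC

/-- relabelling of a literal -/
private noncomputable def CRl_t (σ t : ZFSet.{0}) : ZFSet.{0} :=
  pair (pair (app σ (fst (fst t))) (snd (fst t))) (snd t)

private theorem CRl_ff (σ t : ZFSet.{0}) : fst (fst (CRl_t σ t)) = app σ (fst (fst t)) := by
  simp [CRl_t]

private theorem CRl_sf (σ t : ZFSet.{0}) : snd (fst (CRl_t σ t)) = snd (fst t) := by
  simp [CRl_t]

private theorem CRl_s (σ t : ZFSet.{0}) : snd (CRl_t σ t) = snd t := by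
  simp [CRl_t]

private theorem CRl_f {σ t t' : ZFSet.{0}} (h : fst (CRl_t σ t) = fst (CRl_t σ t')) :
    app σ (fst (fst t)) = app σ (fst (fst t')) ∧ snd (fst t) = snd (fst t') := by
  have h1 := congrArg fst h
  have h2 := congrArg snd h
  rw [CRl_ff, CRl_ff] at h1
  rw [CRl_sf, CRl_sf] at h2
  exact ⟨h1, h2⟩

private theorem CRl_fun {X p t t' : ZFSet.{0}} (hp : p ∈ Cn X) (ht : t ∈ p) (ht' : t' ∈ p)
    (h : fst t = fst t') : t = t' := (mem_Cn.1 hp).2.2.2 t ht t' ht' h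

private theorem CRl_inj {σ B p q t t' : ZFSet.{0}} (hq : q ∈ Cn B) (hp : p ∈ Cn B)
    (hi : ∀ x ∈ B, ∀ y ∈ B, app σ x = app σ y → x = y) (ht : t ∈ q) (ht' : t' ∈ p)
    (h : fst (CRl_t σ t) = fst (CRl_t σ t')) : fst t = fst t' := by
  obtain ⟨e, hx, -, -⟩ := Cn_elt hq ht
  obtain ⟨e', hx', -, -⟩ := Cn_elt hp ht'
  obtain ⟨h1, h2⟩ := CRl_f h
  have h3 := hi _ hx _ hx' h1
  rw [e, e', fst_pair, fst_pair, h3, h2]

private theorem CRl_img {A B σ q : ZFSet.{0}} (hm : ∀ x ∈ B, app σ x ∈ A)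
    (hi : ∀ x ∈ B, ∀ y ∈ B, app σ x = app σ y → x = y) (hq : q ∈ Cn B) :
    img (CRl_t σ) q ∈ Cn A := by
  have hq' := mem_Cn.1 hq
  refine mem_Cn.2 ⟨fun z hz => ?_, Fnt_img hq'.2.1, fun z hz => ?_, fun z hz z' hz' h => ?_⟩
  · obtain ⟨t, ht, rfl⟩ := mem_img.1 hz
    obtain ⟨-, hx, hi', hj⟩ := Cn_elt hq ht
    exact pair_mem_prod.2 ⟨pair_mem_prod.2 ⟨hm _ hx, hi'⟩, hj⟩
  · obtain ⟨t, ht, rfl⟩ := mem_img.1 hz
    simp [CRl_t]
  · obtain ⟨t, ht, rfl⟩ := mem_img.1 hz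
    obtain ⟨t', ht', rfl⟩ := mem_img.1 hz'
    have h1 := CRl_inj hq hq hi ht ht' h
    rw [CRl_fun hq ht ht' h1]

private theorem CRl_back {A B σ p : ZFSet.{0}} (hp : p ∈ Cn A)
    (hi : ∀ x ∈ B, ∀ y ∈ B, app σ x = app σ y → x = y) :
    ZFSet.sep (fun t => CRl_t σ t ∈ p) (ZFSet.prod (ZFSet.prod B omega) omega) ∈ Cn B := by
  have hp' := mem_Cn.1 hp
  have hinj : ∀ t ∈ ZFSet.prod (ZFSet.prod B omega) omega,
      ∀ t' ∈ ZFSet.prod (ZFSet.prod B omega) omega, CRl_t σ t ∈ p → CRl_t σ t' ∈ p →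
      fst (CRl_t σ t) = fst (CRl_t σ t') → t = t' := by
    intro t ht t' ht' h h' e
    obtain ⟨a, ha, j, -, rfl⟩ := mem_prod.1 ht
    obtain ⟨x, hx, i, -, rfl⟩ := mem_prod.1 ha
    obtain ⟨a', ha', j', -, rfl⟩ := mem_prod.1 ht'
    obtain ⟨x', hx', i', -, rfl⟩ := mem_prod.1 ha'
    obtain ⟨h1, h2⟩ := CRl_f e
    have h3 := CRl_fun hp h h' e
    have h4 := congrArg snd h3
    rw [CRl_s, CRl_s] at h4
    simp only [fst_pair, snd_pair] at h1 h2 h4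
    rw [hi x hx x' hx' h1, h2, h4]
  refine mem_Cn.2 ⟨fun z hz => (mem_sep.1 hz).1, ?_, fun z hz => ?_, fun z hz z' hz' h => ?_⟩
  · refine Set.Finite.of_finite_image (f := CRl_t σ) (hp'.2.1.subset ?_) ?_
    · rintro _ ⟨t, ht, rfl⟩
      exact (mem_sep.1 ht).2
    · intro t ht t' ht' e
      obtain ⟨h1, h2⟩ := mem_sep.1 ht
      obtain ⟨h1', h2'⟩ := mem_sep.1 ht'
      exact hinj t h1 t' h1' h2 h2' (congrArg fst e)
  · obtain ⟨a, -, j, -, rfl⟩ := mem_prod.1 (mem_sep.1 hz).1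
    simp
  · obtain ⟨h1, h2⟩ := mem_sep.1 hz
    obtain ⟨h1', h2'⟩ := mem_sep.1 hz'
    exact hinj z h1 z' h1' h2 h2' (by simp only [CRl_t, fst_pair, h])

theorem gnC_rel {W A B σ : ZFSet.{0}} (hW : TM (cls W)) (hσ : σ ∈ W) (hA : A ∈ W) (hB : B ∈ W)
    (hm : ∀ x ∈ B, app σ x ∈ A) (hi : ∀ x ∈ B, ∀ y ∈ B, app σ x = app σ y → x = y)
    {F : ZFSet.{0} → ZFSet.{0}} (h : GnC W A F) : GnC W B (fun x => F (app σ x)) := by
  intro D hD hDn
  have hCA : Cn A ∈ cls W :=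
    (inferInstance : UF (fun _ v => H83.PN.Cn (v 0))).mem (cls W) hW (fun _ => A) (fun _ => hA)
  have hU : UR (fun _ v => ∃ q ∈ v 1, H83.AC.img (fun t => ZFSet.pair (ZFSet.pair
      (H83.AC.app (v 2) (H83.AC.fst (H83.AC.fst t))) (H83.AC.snd (H83.AC.fst t)))
      (H83.AC.snd t)) q ⊆ v 0) := by
    infer_instance
  have hE : ZFSet.sep (fun p => ∃ q ∈ D, img (CRl_t σ) q ⊆ p) (Cn A) ∈ W := by
    have h := hW.sep_of (R := fun _ p v => ∃ q ∈ v 0, H83.AC.img (fun t => ZFSet.pair (ZFSet.pair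
      (H83.AC.app (v 1) (H83.AC.fst (H83.AC.fst t))) (H83.AC.snd (H83.AC.fst t)))
      (H83.AC.snd t)) q ⊆ p) hU
      (v := fun n => if n = 0 then D else σ) (fun n => by
        by_cases hn : n = 0
        · simp only [hn, if_true]; exact hD
        · simp only [hn, if_false]; exact hσ) hCA
    simp only [if_true, Nat.one_ne_zero, if_false] at h
    exact h
  have hEd : Dn A (ZFSet.sep (fun p => ∃ q ∈ D, img (CRl_t σ) q ⊆ p) (Cn A)) := by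
    refine ⟨fun x hx => (mem_sep.1 hx).1, fun p₀ hp₀ => ?_⟩
    obtain ⟨q, hq, hsub⟩ := hDn.2 _ (CRl_back (σ := σ) hp₀ hi)
    have hqB := hDn.1 hq
    have h1 := CRl_img hm hi hqB
    have h2 : img (CRl_t σ) q ∪ p₀ ∈ Cn A := by
      refine Cn_union h1 hp₀ ?_
      intro t ht t' ht' e
      obtain ⟨s, hs, rfl⟩ := mem_img.1 ht
      obtain ⟨es, hsx, hsi, hsj⟩ := Cn_elt hqB hs
      obtain ⟨et', -, -, hj'⟩ := Cn_elt hp₀ ht'
      have e1 := congrArg fst e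
      have e2 := congrArg snd e
      rw [CRl_ff] at e1
      rw [CRl_sf] at e2
      have h3 : CRl_t σ (pair (fst s) (snd t')) = t' := by
        rw [et']
        simp only [CRl_t, fst_pair, snd_pair, e1, e2]
      have h4 : pair (fst s) (snd t') ∈ q := by
        apply hsub
        refine mem_sep.2 ⟨?_, by rw [h3]; exact ht'⟩
        have h5 : fst s = pair (fst (fst s)) (snd (fst s)) := by
          conv_lhs => rw [es]
          rw [fst_pair]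
        rw [h5]
        exact pair_mem_prod.2 ⟨pair_mem_prod.2 ⟨hsx, hsi⟩, hj'⟩
      have h6 := CRl_fun hqB hs h4 (by rw [fst_pair])
      rw [h6, h3]
    refine ⟨_, mem_sep.2 ⟨h2, q, hq, fun z hz => ?_⟩, fun z hz => ?_⟩
    · exact mem_union.2 (Or.inl hz)
    · exact mem_union.2 (Or.inr hz)
  obtain ⟨p, hp, hf⟩ := h _ hE hEd
  obtain ⟨-, q, hq, hsub⟩ := mem_sep.1 hp
  refine ⟨q, hq, fun t ht => ?_⟩
  have h1 := hf _ (hsub (mem_img.2 ⟨t, ht, rfl⟩))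
  rw [CRl_ff, CRl_sf, CRl_s] at h1
  exact h1

theorem gnC_congr {W A : ZFSet.{0}} {F F' : ZFSet.{0} → ZFSet.{0}} (e : ∀ x ∈ A, F x = F' x)
    (h : GnC W A F) : GnC W A F' := by
  intro D hD hDn
  obtain ⟨p, hp, hf⟩ := h D hD hDn
  exact ⟨p, hp, (Fit_congr (hDn.1 hp) e).1 hf⟩

theorem gnC_sub {W A B : ZFSet.{0}} (hW : TM (cls W)) (hA : A ∈ W) (hB : B ∈ W) (hBA : B ⊆ A)
    {F : ZFSet.{0} → ZFSet.{0}} (h : GnC W A F) : GnC W B F := by
  have hσ : fgr (fun x => x) B ∈ cls W :=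
    (inferInstance : UF (fun _ v => H83.AC.fgr (fun x => x) (v 0))).mem (cls W) hW (fun _ => B)
      (fun _ => hB)
  have he : ∀ x ∈ B, app (fgr (fun x => x) B) x = x := fun x hx => app_fgr hx
  refine gnC_congr (F := fun x => F (app (fgr (fun x => x) B) x)) ?_ (gnC_rel hW hσ hA hB ?_ ?_ h)
  · intro x hx
    simp only [he x hx]
  · intro x hx
    rw [he x hx]
    exact hBA hx
  · intro x hx y hy hxy
    rwa [he x hx, he y hy] at hxy

theorem gnC_below {W X p₀ D : ZFSet.{0}} (hW : TM (cls W)) (hX : X ∈ W) {F : ZFSet.{0} → ZFSet.{0}}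
    (hF : ∀ x ∈ X, IsFunc omega omega (F x)) (h : GnC W X F) (hp : p₀ ∈ Cn X) (hfit : Fit F p₀)
    (hD : D ∈ W) (hDX : D ⊆ Cn X) (hd : ∀ p ∈ Cn X, p₀ ⊆ p → ∃ q ∈ D, p ⊆ q) :
    ∃ q ∈ D, p₀ ⊆ q ∧ Fit F q := by
  have hCX : Cn X ∈ cls W :=
    (inferInstance : UF (fun _ v => H83.PN.Cn (v 0))).mem (cls W) hW (fun _ => X) (fun _ => hX)
  have hpW : p₀ ∈ cls W := Cn_N hW (fun x hx => hW.tr X hX x hx) hp
  have hU : UR (fun _ v => (v 0 ∈ v 1 ∧ v 2 ⊆ v 0) ∨ ∃ t ∈ v 0, ∃ t' ∈ v 2,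
      H83.AC.fst t = H83.AC.fst t' ∧ ¬ t = t') := by
    infer_instance
  have hE : ZFSet.sep (fun p => (p ∈ D ∧ p₀ ⊆ p) ∨ ∃ t ∈ p, ∃ t' ∈ p₀, fst t = fst t' ∧ ¬ t = t')
      (Cn X) ∈ W := by
    have h := hW.sep_of (R := fun _ p v => (p ∈ v 0 ∧ v 1 ⊆ p) ∨ ∃ t ∈ p, ∃ t' ∈ v 1,
        H83.AC.fst t = H83.AC.fst t' ∧ ¬ t = t') hU
      (v := fun n => if n = 0 then D else p₀) (fun n => by
        by_cases hn : n = 0
        · simp only [hn, if_true]; exact hD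
        · simp only [hn, if_false]; exact hpW) hCX
    simpa using h
  have hEd : Dn X (ZFSet.sep (fun p => (p ∈ D ∧ p₀ ⊆ p) ∨
      ∃ t ∈ p, ∃ t' ∈ p₀, fst t = fst t' ∧ ¬ t = t') (Cn X)) := by
    refine ⟨fun x hx => (mem_sep.1 hx).1, fun p hpX => ?_⟩
    by_cases hinc : ∃ t ∈ p, ∃ t' ∈ p₀, fst t = fst t' ∧ ¬ t = t'
    · exact ⟨p, mem_sep.2 ⟨hpX, Or.inr hinc⟩, fun z hz => hz⟩
    · have hu : p ∪ p₀ ∈ Cn X := by
        refine Cn_union hpX hp fun t ht t' ht' e => ?_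
        by_contra hne
        exact hinc ⟨t, ht, t', ht', e, hne⟩
      obtain ⟨q, hq, hsub⟩ := hd _ hu (fun z hz => mem_union.2 (Or.inr hz))
      exact ⟨q, mem_sep.2 ⟨hDX hq, Or.inl ⟨hq, fun z hz => hsub (mem_union.2 (Or.inr hz))⟩⟩,
        fun z hz => hsub (mem_union.2 (Or.inl hz))⟩
  obtain ⟨p, hpE, hf⟩ := h _ hE hEd
  obtain ⟨hpX, h1 | ⟨t, ht, t', ht', e, hne⟩⟩ := mem_sep.1 hpE
  · exact ⟨p, h1.1, h1.2, hf⟩
  · exfalso
    apply hne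
    obtain ⟨et, hx, hi, -⟩ := Cn_elt hpX ht
    obtain ⟨et', -, -, -⟩ := Cn_elt hp ht'
    have h1 := hf t ht
    have h2 := hfit t' ht'
    rw [← e] at h2
    have h3 : snd t = snd t' := ((hF _ hx).2 _ hi).unique h1 h2
    have e1 := congrArg fst e
    have e2 := congrArg snd e
    rw [et, et', e1, e2, h3]

end H83.PN
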