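import Pool.Agent.H83.PN.CWs

set_option autoImplicit false

/-!
# Module CUU: sequences of blocks

`ws u = fgr (uW u) (dom u)`. All statements are bookkeeping: unfold `UU`, `ws`, `uW`, `uF`, use `app_fgr`, `dom_fgr`.
`UU_agree`: `Ws_uniq` for `ws u`, `ws u'`. `UU_sub`: if `u ⊆ u'` and `γ ∈ dom u` then `pair γ (app u γ) ∈ u ⊆ u'`, so
`app u γ = app u' γ`. `UU_union`: for `γ` in the union of the domains take a member of `C` with `γ` in its domain; the
members of `C` agree on common domains. The union of ordinals is an ordinal: `rk (⋃₀ a) = ⋃₀ a` if `rk x = x` for `x ∈ a`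
(compare elements, `mem_rk`). `UU_append`: add `(dom u, (W, F))`. `UU_rel`: the models do not change
(`Blk` by hypothesis). `UU_H`: if `u ∈ M`, `dom u` countable, all values are in `H`: `uW u γ ∈ H` by `Nx_H` (induction) and
`uF u γ ⊆ Idx × W'` is in `H` by `H_sub`; `H_ctb`.
-/

namespace H83.PN

open ZFSet H83.AC

private theorem CUU_ord {d γ : ZFSet.{0}} (h : rk d = d) (hg : γ ∈ d) : rk γ = γ ∧ γ ⊆ d := by
  have h1 : rk γ = γ := by
    rw [← h] at hg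
    exact rk_of_mem_rk hg
  refine ⟨h1, ?_⟩
  have h2 := rk_mono (rank_lt_of_mem hg).le
  rwa [h1, h] at h2

private theorem CUU_sc {γ x : ZFSet.{0}} : x ∈ sc γ ↔ x = γ ∨ x ∈ γ := by
  rw [sc, ZFSet.mem_insert_iff]

private theorem CUU_rk_sc {d : ZFSet.{0}} (h : rk d = d) : rk (sc d) = sc d := by
  have h1 : rank (sc d) = Order.succ (rank d) := by
    apply le_antisymm
    · rw [rank_le_iff]
      intro y hy
      rcases CUU_sc.1 hy with rfl | hy
      · exact Order.lt_succ _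
      · exact (rank_lt_of_mem hy).trans (Order.lt_succ _)
    · rw [Order.succ_le_iff]
      exact rank_lt_of_mem (CUU_sc.2 (Or.inl rfl))
  ext z
  rw [mem_rk, h1, CUU_sc]
  constructor
  · rintro ⟨β, hβ, rfl⟩
    rcases (Order.lt_succ_iff.1 hβ).lt_or_eq with h2 | h2
    · right
      rw [← h]
      exact mem_rk.2 ⟨β, h2, rfl⟩
    · left
      rw [h2]
      exact h
  · rintro (rfl | hz)
    · exact ⟨rank z, Order.lt_succ _, h.symm⟩
    · rw [← h] at hz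
      obtain ⟨β, hβ, rfl⟩ := mem_rk.1 hz
      exact ⟨β, hβ.trans (Order.lt_succ _), rfl⟩

private theorem CUU_rk_sU {a : ZFSet.{0}} (h : ∀ x ∈ a, rk x = x) :
    rk (⋃₀ a : ZFSet) = (⋃₀ a : ZFSet) := by
  ext z
  rw [mem_rk, mem_sUnion]
  constructor
  · rintro ⟨β, hβ, rfl⟩
    obtain ⟨y, hy, hby⟩ := lt_rank_iff.1 hβ
    obtain ⟨x, hx, hyx⟩ := mem_sUnion.1 hy
    refine ⟨x, hx, ?_⟩
    have : β.toZFSet ∈ rk x := mem_rk.2 ⟨β, hby.trans_lt (rank_lt_of_mem hyx), rfl⟩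
    rwa [h x hx] at this
  · rintro ⟨x, hx, hz⟩
    have hzU : z ∈ (⋃₀ a : ZFSet) := mem_sUnion.2 ⟨x, hx, hz⟩
    have hz' : z ∈ rk x := by rw [h x hx]; exact hz
    obtain ⟨β, hβ, rfl⟩ := mem_rk.1 hz'
    refine ⟨β, ?_, rfl⟩
    have := rank_lt_of_mem hzU
    rwa [Ordinal.rank_toZFSet] at this

private theorem CUU_app {K u γ : ZFSet.{0}} (h : UU K u) (hg : γ ∈ dom u) :
    app u γ = pair (uW u γ) (uF u γ) := by
  have h1 := h.2.1
  have h2 : app (fgr (fun γ => pair (uW u γ) (uF u γ)) (dom u)) γ = pair (uW u γ) (uF u γ) :=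
    app_fgr hg
  rwa [← h1] at h2

private theorem CUU_fgr {K u : ZFSet.{0}} (h : UU K u) : u = fgr (fun γ => app u γ) (dom u) := by
  conv_lhs => rw [h.2.1]
  exact fgr_congr fun γ hg => (CUU_app h hg).symm

private theorem CUU_mem {K u γ z : ZFSet.{0}} (h : UU K u) :
    pair γ z ∈ u ↔ γ ∈ dom u ∧ z = app u γ := by
  conv_lhs => rw [CUU_fgr h]
  exact pair_mem_fgr

private theorem CUU_mk {K d : ZFSet.{0}} {g : ZFSet.{0} → ZFSet.{0}} (hd : rk d = d)
    (hp : ∀ γ ∈ d, g γ = pair (fst (g γ)) (snd (g γ)))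
    (hW : ∀ γ ∈ d, Nx (fgr (fun β => fst (g β)) γ) (fst (g γ)))
    (hB : ∀ γ ∈ d, ∃ W' ∈ K, Nx (fgr (fun β => fst (g β)) (sc γ)) W' ∧
      Blk (fst (g γ)) W' (snd (g γ))) : UU K (fgr g d) := by
  have ha : ∀ γ ∈ d, app (fgr g d) γ = g γ := fun γ hg => app_fgr hg
  have hWe : ∀ γ ∈ d, uW (fgr g d) γ = fst (g γ) := fun γ hg => by rw [uW, ha γ hg]
  have hFe : ∀ γ ∈ d, uF (fgr g d) γ = snd (g γ) := fun γ hg => by rw [uF, ha γ hg]
  refine ⟨?_, ?_, ?_, ?_⟩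
  · rw [dom_fgr]; exact hd
  · rw [dom_fgr]
    exact fgr_congr fun γ hg => by rw [hWe γ hg, hFe γ hg]; exact hp γ hg
  · intro γ hg
    rw [dom_fgr] at hg
    rw [hWe γ hg]
    have e : fgr (fun β => uW (fgr g d) β) γ = fgr (fun β => fst (g β)) γ :=
      fgr_congr fun β hb => hWe β ((CUU_ord hd hg).2 hb)
    rw [e]
    exact hW γ hg
  · intro γ hg
    rw [dom_fgr] at hg
    obtain ⟨W', hW', h1, h2⟩ := hB γ hg
    refine ⟨W', hW', ?_, ?_⟩
    · have e : fgr (fun β => uW (fgr g d) β) (sc γ) = fgr (fun β => fst (g β)) (sc γ) :=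
        fgr_congr fun β hb => by
          rcases CUU_sc.1 hb with rfl | hb
          · exact hWe _ hg
          · exact hWe β ((CUU_ord hd hg).2 hb)
      rw [e]
      exact h1
    · rw [hWe γ hg, hFe γ hg]
      exact h2

theorem UU_ws {K u : ZFSet.{0}} (h : UU K u) : Ws (ws u) ∧ dom (ws u) = dom u ∧
    ∀ γ ∈ dom u, app (ws u) γ = uW u γ := by
  have ha : ∀ γ ∈ dom u, app (ws u) γ = uW u γ := fun γ hg => app_fgr hg
  have hd : dom (ws u) = dom u := dom_fgr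
  refine ⟨⟨?_, ?_, ?_⟩, hd, ha⟩
  · rw [hd]
    exact fgr_congr fun γ hg => (ha γ hg).symm
  · rw [hd]; exact h.1
  · intro γ hg
    rw [hd] at hg
    rw [ha γ hg]
    have e : fgr (fun β => app (ws u) β) γ = fgr (fun β => uW u β) γ :=
      fgr_congr fun β hb => ha β ((CUU_ord h.1 hg).2 hb)
    rw [e]
    exact h.2.2.1 γ hg

theorem UU_fgr {K u : ZFSet.{0}} (h : UU K u) {γ : ZFSet.{0}} (hg : γ ∈ dom u) :
    fgr (fun β => uW u β) γ = fgr (fun β => app (ws u) β) γ :=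
  fgr_congr fun β hb => ((UU_ws h).2.2 β ((CUU_ord h.1 hg).2 hb)).symm

private theorem CUU_sub {K u d : ZFSet.{0}} (h : UU K u) (hd : rk d = d) (hs : d ⊆ dom u) :
    UU K (fgr (fun γ => app u γ) d) := by
  refine CUU_mk hd ?_ ?_ ?_
  · intro γ hg
    rw [CUU_app h (hs hg), fst_pair, snd_pair]
  · intro γ hg
    exact h.2.2.1 γ (hs hg)
  · intro γ hg
    exact h.2.2.2 γ (hs hg)

private theorem CUU_res {K u d : ZFSet.{0}} (h : UU K u) (hs : d ⊆ dom u) :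
    res u d = fgr (fun γ => app u γ) d := by
  ext t
  rw [res, mem_sep, mem_fgr]
  constructor
  · rintro ⟨ht, hf⟩
    rw [CUU_fgr h] at ht
    obtain ⟨γ, hg, rfl⟩ := mem_fgr.1 ht
    rw [fst_pair] at hf
    exact ⟨γ, hf, rfl⟩
  · rintro ⟨γ, hg, rfl⟩
    exact ⟨(CUU_mem h).2 ⟨hs hg, rfl⟩, by rw [fst_pair]; exact hg⟩

theorem UU_res {K u γ : ZFSet.{0}} (h : UU K u) (hg : γ ∈ dom u) :
    UU K (res u γ) ∧ dom (res u γ) = γ ∧ ∀ β ∈ γ, app (res u γ) β = app u β := by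
  obtain ⟨h1, h2⟩ := CUU_ord h.1 hg
  rw [CUU_res h h2]
  exact ⟨CUU_sub h h1 h2, dom_fgr, fun β hb => app_fgr hb⟩

theorem UU_K {K K' u : ZFSet.{0}} (h : UU K u) (hK : K ⊆ K') : UU K' u := by
  refine ⟨h.1, h.2.1, h.2.2.1, fun γ hg => ?_⟩
  obtain ⟨W', h1, h2⟩ := h.2.2.2 γ hg
  exact ⟨W', hK h1, h2⟩

theorem UU_agree {K u u' γ : ZFSet.{0}} (h : UU K u) (h' : UU K u') (hg : γ ∈ dom u)
    (hg' : γ ∈ dom u') : uW u γ = uW u' γ := by
  obtain ⟨h1, h2, h3⟩ := UU_ws h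
  obtain ⟨h1', h2', h3'⟩ := UU_ws h'
  rw [← h3 γ hg, ← h3' γ hg']
  exact Ws_uniq h1 h1' (by rw [h2]; exact hg) (by rw [h2']; exact hg')

theorem UU_sub {K u u' : ZFSet.{0}} (h : UU K u) (h' : UU K u') (hs : u ⊆ u') :
    dom u ⊆ dom u' ∧ (∀ γ ∈ dom u, app u γ = app u' γ) ∧ res u' (dom u) = u := by
  have h1 : ∀ γ ∈ dom u, γ ∈ dom u' ∧ app u γ = app u' γ := fun γ hg =>
    (CUU_mem h').1 (hs ((CUU_mem h).2 ⟨hg, rfl⟩))
  have h2 : dom u ⊆ dom u' := fun γ hg => (h1 γ hg).1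
  refine ⟨h2, fun γ hg => (h1 γ hg).2, ?_⟩
  rw [CUU_res h' h2]
  conv_rhs => rw [CUU_fgr h]
  exact fgr_congr fun γ hg => (h1 γ hg).2.symm

theorem UU_sub_of {K u u' : ZFSet.{0}} (h : UU K u) (h' : UU K u') (hd : dom u ⊆ dom u')
    (he : ∀ γ ∈ dom u, app u γ = app u' γ) : u ⊆ u' := by
  intro t ht
  rw [CUU_fgr h] at ht
  obtain ⟨γ, hg, rfl⟩ := mem_fgr.1 ht
  exact (CUU_mem h').2 ⟨hd hg, he γ hg⟩

theorem UU_union {K C : ZFSet.{0}} (hC : ∀ u ∈ C, UU K u) (hl : ∀ u ∈ C, ∀ u' ∈ C, u ⊆ u' ∨ u' ⊆ u) :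
    UU K (⋃₀ C : ZFSet) ∧ ∀ γ, γ ∈ dom (⋃₀ C : ZFSet) ↔ ∃ u ∈ C, γ ∈ dom u := by
  have hdom : ∀ γ, γ ∈ dom (⋃₀ C : ZFSet) ↔ ∃ u ∈ C, γ ∈ dom u := by
    intro γ
    rw [mem_dom]
    constructor
    · rintro ⟨y, hy⟩
      obtain ⟨u, hu, hy'⟩ := mem_sUnion.1 hy
      exact ⟨u, hu, mem_dom.2 ⟨y, hy'⟩⟩
    · rintro ⟨u, hu, hg⟩
      obtain ⟨y, hy⟩ := mem_dom.1 hg
      exact ⟨y, mem_sUnion.2 ⟨u, hu, hy⟩⟩
  have happ : ∀ u ∈ C, ∀ γ ∈ dom u, app (⋃₀ C : ZFSet) γ = app u γ := by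
    intro u hu γ hg
    refine app_eq (mem_sUnion.2 ⟨u, hu, (CUU_mem (hC u hu)).2 ⟨hg, rfl⟩⟩) ?_
    intro z hz
    obtain ⟨u', hu', hz'⟩ := mem_sUnion.1 hz
    obtain ⟨hg', rfl⟩ := (CUU_mem (hC u' hu')).1 hz'
    rcases hl u hu u' hu' with h1 | h1
    · exact ((UU_sub (hC u hu) (hC u' hu') h1).2.1 γ hg).symm
    · exact (UU_sub (hC u' hu') (hC u hu) h1).2.1 γ hg'
  refine ⟨?_, hdom⟩
  have heq : (⋃₀ C : ZFSet) = fgr (fun γ => app (⋃₀ C : ZFSet) γ) (dom (⋃₀ C : ZFSet)) := by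
    ext t
    rw [mem_sUnion, mem_fgr]
    constructor
    · rintro ⟨u, hu, ht⟩
      rw [CUU_fgr (hC u hu)] at ht
      obtain ⟨γ, hg, rfl⟩ := mem_fgr.1 ht
      exact ⟨γ, (hdom γ).2 ⟨u, hu, hg⟩, by rw [happ u hu γ hg]⟩
    · rintro ⟨γ, hg, rfl⟩
      obtain ⟨u, hu, hg'⟩ := (hdom γ).1 hg
      refine ⟨u, hu, (CUU_mem (hC u hu)).2 ⟨hg', happ u hu γ hg'⟩⟩
  rw [heq]
  refine CUU_mk ?_ ?_ ?_ ?_
  · have e : dom (⋃₀ C : ZFSet) = (⋃₀ (img (fun u => dom u) C) : ZFSet) := by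
      ext γ
      rw [hdom, mem_sUnion]
      constructor
      · rintro ⟨u, hu, hg⟩
        exact ⟨dom u, mem_img.2 ⟨u, hu, rfl⟩, hg⟩
      · rintro ⟨d, hd, hg⟩
        obtain ⟨u, hu, rfl⟩ := mem_img.1 hd
        exact ⟨u, hu, hg⟩
    rw [e]
    apply CUU_rk_sU
    intro x hx
    obtain ⟨u, hu, rfl⟩ := mem_img.1 hx
    exact (hC u hu).1
  · intro γ hg
    obtain ⟨u, hu, hg'⟩ := (hdom γ).1 hg
    rw [happ u hu γ hg', CUU_app (hC u hu) hg', fst_pair, snd_pair]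
  · intro γ hg
    obtain ⟨u, hu, hg'⟩ := (hdom γ).1 hg
    have h1 := (hC u hu).2.2.1 γ hg'
    have e : fgr (fun β => fst (app (⋃₀ C : ZFSet) β)) γ = fgr (fun β => uW u β) γ :=
      fgr_congr fun β hb => by
        rw [happ u hu β ((CUU_ord (hC u hu).1 hg').2 hb)]; rfl
    rw [e, happ u hu γ hg']
    exact h1
  · intro γ hg
    obtain ⟨u, hu, hg'⟩ := (hdom γ).1 hg
    obtain ⟨W', hW', h1, h2⟩ := (hC u hu).2.2.2 γ hg'
    have e : fgr (fun β => fst (app (⋃₀ C : ZFSet) β)) (sc γ) = fgr (fun β => uW u β) (sc γ) :=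
      fgr_congr fun β hb => by
        have hb' : β ∈ dom u := by
          rcases CUU_sc.1 hb with rfl | hb
          · exact hg'
          · exact (CUU_ord (hC u hu).1 hg').2 hb
        rw [happ u hu β hb']; rfl
    refine ⟨W', hW', ?_, ?_⟩
    · rw [e]; exact h1
    · rw [happ u hu γ hg']; exact h2

theorem UU_append {K u W W' F : ZFSet.{0}} (h : UU K u) (hW : Nx (ws u) W) (hW' : W' ∈ K)
    (hN : Nx (insert (pair (dom u) W) (ws u)) W') (hF : Blk W W' F) :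
    UU K (insert (pair (dom u) (pair W F)) u) ∧
      dom (insert (pair (dom u) (pair W F)) u) = sc (dom u) ∧
      ws (insert (pair (dom u) (pair W F)) u) = insert (pair (dom u) W) (ws u) := by
  have hnd : dom u ∉ dom u := ZFSet.mem_irrefl _
  have hdom : dom (insert (pair (dom u) (pair W F)) u) = sc (dom u) := by
    ext γ
    rw [mem_dom, CUU_sc]
    constructor
    · rintro ⟨y, hy⟩
      rcases ZFSet.mem_insert_iff.1 hy with h1 | h1
      · exact Or.inl (pair_inj.1 h1).1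
      · exact Or.inr (mem_dom.2 ⟨y, h1⟩)
    · rintro (rfl | hg)
      · exact ⟨_, ZFSet.mem_insert _ _⟩
      · obtain ⟨y, hy⟩ := mem_dom.1 hg
        exact ⟨y, ZFSet.mem_insert_of_mem _ hy⟩
  have ha0 : app (insert (pair (dom u) (pair W F)) u) (dom u) = pair W F := by
    refine app_eq (ZFSet.mem_insert _ _) fun z hz => ?_
    rcases ZFSet.mem_insert_iff.1 hz with h1 | h1
    · exact (pair_inj.1 h1).2
    · exact absurd (mem_dom.2 ⟨z, h1⟩) hnd
  have ha1 : ∀ γ ∈ dom u, app (insert (pair (dom u) (pair W F)) u) γ = app u γ := by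
    intro γ hg
    refine app_eq (ZFSet.mem_insert_of_mem _ ((CUU_mem h).2 ⟨hg, rfl⟩)) fun z hz => ?_
    rcases ZFSet.mem_insert_iff.1 hz with h1 | h1
    · exact absurd ((pair_inj.1 h1).1 ▸ hg) hnd
    · exact ((CUU_mem h).1 h1).2
  have heq : insert (pair (dom u) (pair W F)) u =
      fgr (fun γ => app (insert (pair (dom u) (pair W F)) u) γ) (sc (dom u)) := by
    ext t
    rw [ZFSet.mem_insert_iff, mem_fgr]
    constructor
    · rintro (rfl | ht)
      · exact ⟨dom u, CUU_sc.2 (Or.inl rfl), by rw [ha0]⟩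
      · rw [CUU_fgr h] at ht
        obtain ⟨γ, hg, rfl⟩ := mem_fgr.1 ht
        exact ⟨γ, CUU_sc.2 (Or.inr hg), by rw [ha1 γ hg]⟩
    · rintro ⟨γ, hg, rfl⟩
      rcases CUU_sc.1 hg with rfl | hg
      · left; rw [ha0]
      · right; rw [ha1 γ hg]; exact (CUU_mem h).2 ⟨hg, rfl⟩
  have hws : fgr (fun β => fst (app (insert (pair (dom u) (pair W F)) u) β)) (sc (dom u)) =
      insert (pair (dom u) W) (ws u) := by
    ext t
    rw [ZFSet.mem_insert_iff, mem_fgr, ws, mem_fgr]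
    constructor
    · rintro ⟨γ, hg, rfl⟩
      rcases CUU_sc.1 hg with rfl | hg
      · left; rw [ha0, fst_pair]
      · right; exact ⟨γ, hg, by rw [ha1 γ hg]; rfl⟩
    · rintro (rfl | ⟨γ, hg, rfl⟩)
      · exact ⟨dom u, CUU_sc.2 (Or.inl rfl), by rw [ha0, fst_pair]⟩
      · exact ⟨γ, CUU_sc.2 (Or.inr hg), by rw [ha1 γ hg]; rfl⟩
  have hsm : ∀ γ ∈ dom u, fgr (fun β => fst (app (insert (pair (dom u) (pair W F)) u) β)) γ =
      fgr (fun β => uW u β) γ := fun γ hg =>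
    fgr_congr fun β hb => by rw [ha1 β ((CUU_ord h.1 hg).2 hb)]; rfl
  refine ⟨?_, hdom, ?_⟩
  · rw [heq]
    refine CUU_mk (CUU_rk_sc h.1) ?_ ?_ ?_
    · intro γ hg
      rcases CUU_sc.1 hg with rfl | hg
      · rw [ha0, fst_pair, snd_pair]
      · rw [ha1 γ hg, CUU_app h hg, fst_pair, snd_pair]
    · intro γ hg
      rcases CUU_sc.1 hg with rfl | hg
      · rw [ha0, fst_pair]
        have e : fgr (fun β => fst (app (insert (pair (dom u) (pair W F)) u) β)) (dom u) =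
            ws u := fgr_congr fun β hb => by rw [ha1 β hb]; rfl
        rw [e]
        exact hW
      · rw [hsm γ hg, ha1 γ hg]
        exact h.2.2.1 γ hg
    · intro γ hg
      rcases CUU_sc.1 hg with rfl | hg
      · refine ⟨W', hW', ?_, ?_⟩
        · rw [hws]; exact hN
        · rw [ha0, fst_pair, snd_pair]; exact hF
      · obtain ⟨W₁, hW₁, h1, h2⟩ := h.2.2.2 γ hg
        refine ⟨W₁, hW₁, ?_, ?_⟩
        · have e : fgr (fun β => fst (app (insert (pair (dom u) (pair W F)) u) β)) (sc γ) =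
              fgr (fun β => uW u β) (sc γ) := fgr_congr fun β hb => by
            have hb' : β ∈ dom u := by
              rcases CUU_sc.1 hb with rfl | hb
              · exact hg
              · exact (CUU_ord h.1 hg).2 hb
            rw [ha1 β hb']; rfl
          rw [e]; exact h1
        · rw [ha1 γ hg]; exact h2
  · rw [ws, hdom]
    exact hws

theorem UU_rel {K u : ZFSet.{0}} (h : UU K u) {F : ZFSet.{0} → ZFSet.{0}}
    (hF : ∀ γ ∈ dom u, ∀ W' ∈ K, Nx (fgr (fun β => uW u β) (sc γ)) W' → Blk (uW u γ) W' (F γ)) :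
    UU K (fgr (fun γ => pair (uW u γ) (F γ)) (dom u)) ∧
      ws (fgr (fun γ => pair (uW u γ) (F γ)) (dom u)) = ws u := by
  constructor
  · refine CUU_mk h.1 ?_ ?_ ?_
    · intro γ hg
      rw [fst_pair, snd_pair]
    · intro γ hg
      simp only [fst_pair]
      exact h.2.2.1 γ hg
    · intro γ hg
      obtain ⟨W', hW', h1, h2⟩ := h.2.2.2 γ hg
      refine ⟨W', hW', ?_, ?_⟩
      · simp only [fst_pair]; exact h1
      · simp only [fst_pair, snd_pair]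
        exact hF γ hg W' hW' h1
  · rw [ws, dom_fgr]
    refine fgr_congr fun γ hg => ?_
    rw [uW, app_fgr hg, fst_pair]

theorem UU_next {M : Set ZFSet.{0}} {K H : ZFSet.{0}} (hG : Gr M K H) {u : ZFSet.{0}} (hu : u ∈ H)
    (h : UU H u) : ∃ W ∈ H, ∃ W' ∈ H, Nx (ws u) W ∧ Nx (insert (pair (dom u) W) (ws u)) W' := by
  have hws : ws u ∈ H := H_uf1 hG (F := fun u => ws u) (by infer_instance) hu
  have hdu : dom u ∈ H := H_uf1 hG (F := fun u => dom u) (by infer_instance) hu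
  obtain ⟨W, hW, hN⟩ := Nx_exists hG hws
  have hi : insert (pair (dom u) W) (ws u) ∈ H :=
    H_uf3 hG (F := fun x y z => insert (pair x y) z) (by infer_instance) hdu hW hws
  obtain ⟨W', hW', hN'⟩ := Nx_exists hG hi
  exact ⟨W, hW, W', hW', hN, hN'⟩

theorem UU_H {M : Set ZFSet.{0}} {K H : ZFSet.{0}} (hG : Gr M K H) {u : ZFSet.{0}} (hu : u ∈ M)
    (h : UU H u) (hd : dom u ∈ H) : u ∈ H := by
  have hdM : ∀ γ ∈ dom u, γ ∈ H := fun γ hg => H_tr hG hd hg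
  have hMst : ∀ x ∈ M, ∀ i, (cons x (fun _ => u) : ℕ → ZFSet.{0}) i ∈ M := by
    intro x hx i
    cases i with
    | zero => exact hx
    | succ n => exact hu
  -- the models
  have hWH : ∀ γ : ZFSet.{0}, γ ∈ dom u → uW u γ ∈ H := by
    intro γ
    induction γ using ZFSet.inductionOn with
    | _ γ ih =>
    intro hg
    have hgH := hdM γ hg
    have hs : fgr (fun β => uW u β) γ ∈ H := by
      refine H_ctb hG ?_ ?_ ?_
      · have h1 : UF (fun _ v => fgr (fun β => uW (v 1) β) (v 0)) := by infer_instance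
        exact h1.mem M hG.tm (cons γ (fun _ => u)) (hMst γ (H_sub_M hG hgH))
      · have h1 : UF (fun _ v => pair (v 0) (uW (sh v 0) (v 0))) := by infer_instance
        exact Ctb_img hG.tm (F := fun _ x v => pair x (uW (v 0) x)) h1 (v := fun _ => u)
          (fun _ => hu) (fun y hy => hG.tm.tr γ (H_sub_M hG hgH) y hy) (H_ct hG hgH)
      · intro y hy
        obtain ⟨β, hb, rfl⟩ := mem_fgr.1 hy
        have hb' : β ∈ dom u := (CUU_ord h.1 hg).2 hb
        exact H_pair hG (hdM β hb') (ih β hb hb')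
    exact Nx_H hG hs (h.2.2.1 γ hg)
  -- the blocks
  have hFH : ∀ γ ∈ dom u, uF u γ ∈ H := by
    intro γ hg
    obtain ⟨W', hW', -, hB⟩ := h.2.2.2 γ hg
    have hgM : γ ∈ M := H_sub_M hG (hdM γ hg)
    have hFM : uF u γ ∈ M := by
      have h1 : UF (fun _ v => uF (v 1) (v 0)) := by infer_instance
      exact h1.mem M hG.tm (cons γ (fun _ => u)) (hMst γ hgM)
    have hIM : Idx ∈ M := UF.Idx.mem M hG.tm (fun _ => u) (fun _ => hu)
    have hIc : Ctb M Idx := Ctb_sub (Ctb_HF hG.tm) (fun a ha => idx_HF ha)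
    rw [hB.1]
    refine H_ctb hG ?_ ?_ ?_
    · have h1 : UF (fun _ v => fgr (fun a => app (v 0) a) Idx) := by infer_instance
      exact h1.mem M hG.tm (fun _ => uF u γ) (fun _ => hFM)
    · have h1 : UF (fun _ v => pair (v 0) (app (sh v 0) (v 0))) := by infer_instance
      exact Ctb_img hG.tm (F := fun _ x v => pair x (app (v 0) x)) h1 (v := fun _ => uF u γ)
        (fun _ => hFM) (fun y hy => hG.tm.tr _ hIM y hy) hIc
    · intro y hy
      obtain ⟨a, ha, rfl⟩ := mem_fgr.1 hy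
      exact H_pair hG ((HF_sub_H hG).1 (idx_HF ha)) (H_tr hG hW' (hB.2.1 a ha).2)
  refine H_ctb hG hu ?_ ?_
  · have h1 : UF (fun _ v => pair (v 0) (app (sh v 0) (v 0))) := by infer_instance
    have h2 := Ctb_img hG.tm (F := fun _ x v => pair x (app (v 0) x)) h1 (v := fun _ => u)
      (fun _ => hu) (fun y hy => hG.tm.tr _ (H_sub_M hG hd) y hy) (H_ct hG hd)
    rw [CUU_fgr h]
    exact h2
  · intro y hy
    rw [CUU_fgr h] at hy
    obtain ⟨γ, hg, rfl⟩ := mem_fgr.1 hy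
    rw [CUU_app h hg]
    exact H_pair hG (hdM γ hg) (H_pair hG (hWH γ hg) (hFH γ hg))

/-- the reals of the sequence -/
theorem UU_real {M : Set ZFSet.{0}} {K H : ZFSet.{0}} (hG : Gr M K H) {u γ a : ZFSet.{0}}
    (h : UU H u) (hg : γ ∈ dom u) (ha : a ∈ Idx) : IsFunc omega omega (app (uF u γ) a) ∧
      app (uF u γ) a ∈ H := by
  obtain ⟨W', hW', -, hB⟩ := h.2.2.2 γ hg
  exact ⟨(hB.2.1 a ha).1, H_tr hG hW' (hB.2.1 a ha).2⟩

end H83.PN
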