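import Pool.Agent.H83.PN.LSd

set_option autoImplicit false

/-!
# Module WNx: the least model containing `x`

`Nx_exists`: take the `∈`-least `W` (or least rank) among the `W ∈ H` with `Wd W`, `x ∈ W`, `HCt (cls W) x`
(`exists_W`); for `W' ∈ W` with these properties `W' ∈ H` (`H_tr`), contradiction. `Nx_uniq`: `Wd_lin`.
`Nx_sub`: `Wd_lin`. `H_uf`: `x i ∈ H` for finitely many parameters: put them into one element of `H`
(`H_pair`), `exists_W`, `Wd_uf`, `H_tr`. `Nx_ct`: if `Wd W`, `Wd W'`, `W ∈ W'`, `HCt (cls W') z` for `z = W`..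
`Nx_sc`: let `Nx x W` and `Wd W'`, `W ∈ W'`, `HCt (cls W') W`; then every element of `W` is hereditarily countable
in `W'`.
-/

namespace H83.PN

open ZFSet H83.AC

variable {M : Set ZFSet.{0}} {K H : ZFSet.{0}}

private theorem WNx_least (P : ZFSet.{0} → Prop) {H : ZFSet.{0}} (htr : ∀ x ∈ H, ∀ y ∈ x, y ∈ H)
    (W : ZFSet.{0}) : W ∈ H → P W → ∃ W ∈ H, P W ∧ ∀ W' ∈ W, ¬ P W' := by
  induction W using ZFSet.inductionOn with
  | _ W ih =>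
    intro hW hP
    by_cases h : ∃ W' ∈ W, P W'
    · obtain ⟨W', h1, h2⟩ := h
      exact ih W' h1 (htr W hW W' h1) h2
    · exact ⟨W, hW, hP, fun W' h1 h2 => h ⟨W', h1, h2⟩⟩

private theorem WNx_tc (x y : ZFSet.{0}) : x ∈ tc (pair x y) ∧ y ∈ tc (pair x y) := by
  have h1 : ({x, y} : ZFSet) ∈ tc (pair x y) := by
    refine sub_tc _ ?_
    rw [pair]; simp
  exact ⟨tc_tr h1 (by simp), tc_tr h1 (by simp)⟩

private theorem WNx_hct {N : Set ZFSet.{0}} {x t : ZFSet.{0}} (h : HCt N t) (hx : x ∈ tc t) :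
    HCt N x := by
  refine Ctb_sub h (tc_min (tc_tr hx) fun y hy => tc_tr hy)

private theorem WNx_mem {W x t : ZFSet.{0}} (hW : Wd W) (ht : t ∈ W) (hx : x ∈ tc t) : x ∈ W := by
  have h : tc t ⊆ W := tc_min (Wd_tr hW ht) fun y hy => Wd_tr hW hy
  exact h hx

theorem Nx_exists (hG : Gr M K H) {x : ZFSet.{0}} (hx : x ∈ H) : ∃ W ∈ H, Nx x W := by
  obtain ⟨W0, h1, h2, h3, h4⟩ := exists_W hG hx
  obtain ⟨W, hW, ⟨a, b, c⟩, hm⟩ := WNx_least (fun W => Wd W ∧ x ∈ W ∧ HCt (cls W) x)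
    (fun x hx y hy => H_tr hG hx hy) W0 h1 ⟨h2, h3, h4⟩
  exact ⟨W, hW, a, b, c, hm⟩

theorem Nx_uniq {x W W' : ZFSet.{0}} (h : Nx x W) (h' : Nx x W') : W = W' := by
  obtain ⟨a, b, c, d⟩ := h
  obtain ⟨a', b', c', d'⟩ := h'
  rcases Wd_lin a a' with h1 | h1 | h1
  · exact absurd ⟨a, b, c⟩ (d' W h1)
  · exact h1
  · exact absurd ⟨a', b', c'⟩ (d W' h1)

theorem Nx_min {x W W' : ZFSet.{0}} (h : Nx x W) (h' : Wd W') (hx : x ∈ W')
    (hc : HCt (cls W') x) : W ⊆ W' := by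
  obtain ⟨a, b, c, d⟩ := h
  rcases Wd_lin a h' with h1 | h1 | h1
  · exact Wd_tr h' h1
  · rw [h1]
  · exact absurd ⟨h', hx, hc⟩ (d W' h1)

theorem Nx_H (hG : Gr M K H) {x W : ZFSet.{0}} (hx : x ∈ H) (h : Nx x W) : W ∈ H := by
  obtain ⟨W', h1, h2⟩ := Nx_exists hG hx
  rw [Nx_uniq h h2]
  exact h1

theorem H_uf1 (hG : Gr M K H) {F : ZFSet.{0} → ZFSet.{0}} (hF : UF (fun _ v => F (v 0)))
    {x : ZFSet.{0}} (hx : x ∈ H) : F x ∈ H := by
  obtain ⟨W, h1, h2, h3, -⟩ := exists_W hG hx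
  exact H_tr hG h1 (Wd_uf hF h2 (v := fun _ => x) fun _ => h3)

theorem H_uf2 (hG : Gr M K H) {F : ZFSet.{0} → ZFSet.{0} → ZFSet.{0}}
    (hF : UF (fun _ v => F (v 0) (v 1))) {x y : ZFSet.{0}} (hx : x ∈ H) (hy : y ∈ H) :
    F x y ∈ H := by
  obtain ⟨W, h1, h2, h3, -⟩ := exists_W hG (H_pair hG hx hy)
  have hxW : x ∈ W := WNx_mem h2 h3 (WNx_tc x y).1
  have hyW : y ∈ W := WNx_mem h2 h3 (WNx_tc x y).2
  have h4 := Wd_uf hF h2 (v := cons x (fun _ => y)) (fun i => by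
    cases i with
    | zero => exact hxW
    | succ i => exact hyW)
  exact H_tr hG h1 h4

theorem H_uf3 (hG : Gr M K H) {F : ZFSet.{0} → ZFSet.{0} → ZFSet.{0} → ZFSet.{0}}
    (hF : UF (fun _ v => F (v 0) (v 1) (v 2))) {x y z : ZFSet.{0}} (hx : x ∈ H) (hy : y ∈ H)
    (hz : z ∈ H) : F x y z ∈ H := by
  obtain ⟨W, h1, h2, h3, -⟩ := exists_W hG (H_pair hG hx (H_pair hG hy hz))
  have hxW : x ∈ W := WNx_mem h2 h3 (WNx_tc x (pair y z)).1
  have hyz : pair y z ∈ W := WNx_mem h2 h3 (WNx_tc x (pair y z)).2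
  have hyW : y ∈ W := WNx_mem h2 hyz (WNx_tc y z).1
  have hzW : z ∈ W := WNx_mem h2 hyz (WNx_tc y z).2
  have h4 := Wd_uf hF h2 (v := cons x (cons y (fun _ => z))) (fun i => by
    match i with
    | 0 => exact hxW
    | 1 => exact hyW
    | i + 2 => exact hzW)
  exact H_tr hG h1 h4

theorem exists_W3 (hG : Gr M K H) {x y z : ZFSet.{0}} (hx : x ∈ H) (hy : y ∈ H) (hz : z ∈ H) :
    ∃ W ∈ H, Wd W ∧ x ∈ W ∧ y ∈ W ∧ z ∈ W ∧ HCt (cls W) x ∧ HCt (cls W) y ∧ HCt (cls W) z := by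
  obtain ⟨W, h1, h2, h3, h4⟩ := exists_W hG (H_pair hG hx (H_pair hG hy hz))
  have hxW : x ∈ W := WNx_mem h2 h3 (WNx_tc x (pair y z)).1
  have hyz : pair y z ∈ W := WNx_mem h2 h3 (WNx_tc x (pair y z)).2
  have hyW : y ∈ W := WNx_mem h2 hyz (WNx_tc y z).1
  have hzW : z ∈ W := WNx_mem h2 hyz (WNx_tc y z).2
  have c1 : HCt (cls W) (pair y z) := WNx_hct h4 (WNx_tc x (pair y z)).2
  exact ⟨W, h1, h2, hxW, hyW, hzW, WNx_hct h4 (WNx_tc x (pair y z)).1,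
    WNx_hct c1 (WNx_tc y z).1, WNx_hct c1 (WNx_tc y z).2⟩

/-- no ordinal of `M` which is countable in `M` is larger than all elements of `H` -/
theorem H_ord (hG : Gr M K H) {x : ZFSet.{0}} (hx : x ∈ H) : rk x ∈ H := by
  exact H_uf1 hG (F := fun x => rk x) (UF.rk (UF.var 0)) hx

end H83.PN
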