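import Pool.Agent.H83.PN.DefsF
import Pool.Agent.H83.PN.WNx

set_option autoImplicit false

/-!
# Module CWs: sequences of models

`Ws_uniq`: induction along the ordinal `γ` (`IH`: the restrictions to `γ` agree, then `Nx_uniq`).
`Ws_mono`: let `s = fgr (app w) γ`. `Nx s (app w γ)` gives `s ∈ app w γ` and `HCt (cls (app w γ)) s`; for `β ∈ γ` the pair
`(β, app w β)` is in `s`, so `app w β ∈ tc s`, hence `app w β ∈ app w γ` (transitive) and it is hereditarily countable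
there (`HCt_mem`, `tc_tr`). `app w β ⊆ app w γ`: transitivity. `Ws_W`: the same for `Nx w W`.
`Ws_dom`: `dom` is definable (`Inst.dom`), `Wd_uf`.
`Ws_ext`: add the pair `(dom w, W)`. `Ws_res`: restriction.
`Ws_exists`: induction on the ordinal `γ ∈ H`. Successor: `Ws_ext` with `Nx_exists`. Limit (or in general): the set
`{w ∈ H : Ws w ∧ dom w ∈ γ} ∈ M`; let `w = fgr (fun β => the value at β of the sequence of length sc β) γ`, an element of
`M` (replacement, `TM.repl_of`, uniqueness; or the union of this set), every value is in `H`, `γ` is countable,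
so `w ∈ H` (`H_ctb`). `Ws_cover`: let `x ∈ W ∈ H`, `Wd W`, `HCt (cls W) x` (`exists_W`), `γ = sc (rk W)`, `w` of length
`sc γ`; `A = app w γ` contains `γ`, so its rank is larger than that of `W`, and by `Wd_lin` `W ∈ A`, `W ⊆ A`; `HCt_mono`.
-/

namespace H83.PN

open ZFSet H83.AC

private theorem CWs_sc {γ : ZFSet.{0}} (h : rk γ = γ) : rk (sc γ) = sc γ := by
  have h1 : rank (sc γ) = Order.succ (rank γ) := by
    rw [sc, rank_insert]
    exact max_eq_left (Order.le_succ _)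
  ext z
  rw [mem_rk, h1, sc, ZFSet.mem_insert_iff]
  constructor
  · rintro ⟨β, hβ, rfl⟩
    rcases (Order.lt_succ_iff.1 hβ).lt_or_eq with h2 | h2
    · right
      have h3 : β.toZFSet ∈ rk γ := mem_rk.2 ⟨β, h2, rfl⟩
      rwa [h] at h3
    · left
      rw [h2]
      exact h
  · rintro (h2 | h2)
    · refine ⟨rank γ, Order.lt_succ _, ?_⟩
      rw [h2]
      exact h.symm
    · rw [← h] at h2
      obtain ⟨β, hβ, rfl⟩ := mem_rk.1 h2
      exact ⟨β, hβ.trans (Order.lt_succ _), rfl⟩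

private theorem CWs_o {γ β : ZFSet.{0}} (h : rk γ = γ) (hb : β ∈ γ) : rk β = β := by
  rw [← h] at hb
  exact rk_of_mem_rk hb

private theorem CWs_tr {α γ β : ZFSet.{0}} (h : rk α = α) (hg : γ ∈ α) (hb : β ∈ γ) : β ∈ α := by
  have h1 := CWs_o (CWs_o h hg) hb
  rw [← h, ← h1]
  exact rk_mem_rk.2 ((rank_lt_of_mem hb).trans (rank_lt_of_mem hg))

private theorem CWs_pm {W s x y : ZFSet.{0}} (hW : Wd W) (hs : s ∈ W) (h : pair x y ∈ s) :
    y ∈ W := by
  have h1 : pair x y ∈ W := Wd_tr hW hs h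
  have h2 : ({x, y} : ZFSet.{0}) ∈ W := Wd_tr hW h1 (by rw [pair]; simp)
  exact Wd_tr hW h2 (by simp)

private theorem CWs_ph {N : Set ZFSet.{0}} {s x y : ZFSet.{0}} (hs : HCt N s)
    (h : pair x y ∈ s) : HCt N y := by
  have h1 : HCt N (pair x y) := (HCt_mem hs h).1
  have h2 : HCt N ({x, y} : ZFSet.{0}) := (HCt_mem h1 (by rw [pair]; simp)).1
  exact (HCt_mem h2 (by simp)).1

theorem Ws_uniq {w w' γ : ZFSet.{0}} (h : Ws w) (h' : Ws w') (hg : γ ∈ dom w) (hg' : γ ∈ dom w') :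
    app w γ = app w' γ := by
  induction γ using ZFSet.inductionOn with
  | _ γ ih =>
    have h1 := h.2.2 γ hg
    have h2 := h'.2.2 γ hg'
    have h3 : fgr (fun β => app w β) γ = fgr (fun β => app w' β) γ :=
      fgr_congr fun β hβ => ih β hβ (CWs_tr h.2.1 hg hβ) (CWs_tr h'.2.1 hg' hβ)
    rw [h3] at h1
    exact Nx_uniq h1 h2

theorem Ws_eq {w w' : ZFSet.{0}} (h : Ws w) (h' : Ws w') (hd : dom w ⊆ dom w') :
    w = fgr (fun γ => app w' γ) (dom w) := by
  refine h.1.trans (fgr_congr fun γ hγ => ?_)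
  exact Ws_uniq h h' hγ (hd hγ)

theorem Ws_mono {w γ β : ZFSet.{0}} (h : Ws w) (hg : γ ∈ dom w) (hb : β ∈ γ) :
    app w β ∈ app w γ ∧ app w β ⊆ app w γ ∧ HCt (cls (app w γ)) (app w β) ∧ β ∈ dom w := by
  have h1 := h.2.2 γ hg
  have h2 : pair β (app w β) ∈ fgr (fun β => app w β) γ := pair_mem_fgr.2 ⟨hb, rfl⟩
  have h3 := CWs_pm h1.1 h1.2.1 h2
  exact ⟨h3, Wd_tr h1.1 h3, CWs_ph h1.2.2.1 h2, CWs_tr h.2.1 hg hb⟩

theorem Ws_Wd {w γ : ZFSet.{0}} (h : Ws w) (hg : γ ∈ dom w) : Wd (app w γ) := by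
  exact (h.2.2 γ hg).1

theorem Ws_W {w W γ : ZFSet.{0}} (h : Ws w) (hW : Nx w W) (hg : γ ∈ dom w) :
    app w γ ∈ W ∧ app w γ ⊆ W ∧ HCt (cls W) (app w γ) := by
  have h2 : pair γ (app w γ) ∈ w := by
    have h3 : pair γ (app w γ) ∈ fgr (fun γ => app w γ) (dom w) := pair_mem_fgr.2 ⟨hg, rfl⟩
    rwa [← h.1] at h3
  have h3 := CWs_pm hW.1 hW.2.1 h2
  exact ⟨h3, Wd_tr hW.1 h3, CWs_ph hW.2.2.1 h2⟩

theorem Ws_dom {w W : ZFSet.{0}} (h : Ws w) (hW : Nx w W) : dom w ∈ W := by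
  exact Wd_uf (F := fun _ v => dom (v 0)) (UF.dom (UF.var 0)) hW.1 (v := fun _ => w)
    fun _ => hW.2.1

theorem Ws_dom_app {w γ : ZFSet.{0}} (h : Ws w) (hg : γ ∈ dom w) : γ ∈ app w γ := by
  have h1 := h.2.2 γ hg
  have h2 : dom (fgr (fun β => app w β) γ) ∈ app w γ :=
    Wd_uf (F := fun _ v => dom (v 0)) (UF.dom (UF.var 0)) h1.1
      (v := fun _ => fgr (fun β => app w β) γ) fun _ => h1.2.1
  rwa [dom_fgr] at h2

theorem Ws_res {w γ : ZFSet.{0}} (h : Ws w) (hg : γ ∈ dom w) :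
    Ws (fgr (fun β => app w β) γ) ∧ dom (fgr (fun β => app w β) γ) = γ := by
  have hd : dom (fgr (fun β => app w β) γ) = γ := dom_fgr
  refine ⟨⟨?_, ?_, ?_⟩, hd⟩
  · rw [hd]
    exact fgr_congr fun β hβ => (app_fgr hβ).symm
  · rw [hd]
    exact CWs_o h.2.1 hg
  · intro β hβ
    rw [hd] at hβ
    have hβw := CWs_tr h.2.1 hg hβ
    have h1 := h.2.2 β hβw
    have h2 : fgr (fun δ => app (fgr (fun β => app w β) γ) δ) β = fgr (fun δ => app w δ) β :=
      fgr_congr fun δ hδ => app_fgr (CWs_tr (CWs_o h.2.1 hg) hβ hδ)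
    rw [h2, app_fgr hβ]
    exact h1

theorem Ws_ext {w W : ZFSet.{0}} (h : Ws w) (hW : Nx w W) :
    Ws (insert (pair (dom w) W) w) ∧ dom (insert (pair (dom w) W) w) = sc (dom w) ∧
      app (insert (pair (dom w) W) w) (dom w) = W ∧
      ∀ γ ∈ dom w, app (insert (pair (dom w) W) w) γ = app w γ := by
  have hnn : dom w ∉ dom w := ZFSet.mem_irrefl _
  have hpw : ∀ {γ z : ZFSet.{0}}, pair γ z ∈ w → γ ∈ dom w ∧ z = app w γ := by
    intro γ z hz
    rw [h.1] at hz
    have h1 := pair_mem_fgr.1 hz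
    exact h1
  have hpw' : ∀ {γ : ZFSet.{0}}, γ ∈ dom w → pair γ (app w γ) ∈ w := by
    intro γ hγ
    have h3 : pair γ (app w γ) ∈ fgr (fun γ => app w γ) (dom w) := pair_mem_fgr.2 ⟨hγ, rfl⟩
    rwa [← h.1] at h3
  have h1 : dom (insert (pair (dom w) W) w) = sc (dom w) := by
    ext z
    rw [mem_dom, sc, ZFSet.mem_insert_iff]
    constructor
    · rintro ⟨y, hy⟩
      rcases ZFSet.mem_insert_iff.1 hy with h2 | h2
      · exact Or.inl (pair_inj.1 h2).1
      · exact Or.inr (hpw h2).1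
    · rintro (h2 | h2)
      · exact ⟨W, by rw [h2]; exact ZFSet.mem_insert_iff.2 (Or.inl rfl)⟩
      · exact ⟨app w z, ZFSet.mem_insert_iff.2 (Or.inr (hpw' h2))⟩
  have h2 : app (insert (pair (dom w) W) w) (dom w) = W := by
    refine app_eq (ZFSet.mem_insert_iff.2 (Or.inl rfl)) fun z hz => ?_
    rcases ZFSet.mem_insert_iff.1 hz with h3 | h3
    · exact (pair_inj.1 h3).2
    · exact absurd (hpw h3).1 hnn
  have h3 : ∀ γ ∈ dom w, app (insert (pair (dom w) W) w) γ = app w γ := by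
    intro γ hγ
    refine app_eq (ZFSet.mem_insert_iff.2 (Or.inr (hpw' hγ))) fun z hz => ?_
    rcases ZFSet.mem_insert_iff.1 hz with h4 | h4
    · exact absurd ((pair_inj.1 h4).1 ▸ hγ) hnn
    · exact (hpw h4).2
  refine ⟨⟨?_, ?_, ?_⟩, h1, h2, h3⟩
  · rw [h1]
    ext z
    rw [ZFSet.mem_insert_iff, mem_fgr]
    constructor
    · rintro (h4 | h4)
      · exact ⟨dom w, ZFSet.mem_insert_iff.2 (Or.inl rfl), by rw [h2, h4]⟩
      · rw [h.1] at h4
        obtain ⟨y, hy, rfl⟩ := mem_fgr.1 h4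
        exact ⟨y, ZFSet.mem_insert_iff.2 (Or.inr hy), by rw [h3 y hy]⟩
    · rintro ⟨y, hy, rfl⟩
      rcases ZFSet.mem_insert_iff.1 hy with h4 | h4
      · left
        rw [h4, h2]
      · right
        rw [h3 y h4]
        exact hpw' h4
  · rw [h1]
    exact CWs_sc h.2.1
  · intro γ hγ
    rw [h1] at hγ
    rcases ZFSet.mem_insert_iff.1 hγ with h4 | h4
    · subst h4
      rw [h2]
      have h5 : fgr (fun β => app (insert (pair (dom w) W) w) β) (dom w) = w := by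
        conv_rhs => rw [h.1]
        exact fgr_congr fun β hβ => h3 β hβ
      rw [h5]
      exact hW
    · rw [h3 γ h4]
      have h5 : fgr (fun β => app (insert (pair (dom w) W) w) β) γ = fgr (fun β => app w β) γ :=
        fgr_congr fun β hβ => h3 β (CWs_tr h.2.1 h4 hβ)
      rw [h5]
      exact h.2.2 γ h4

theorem Ws_exists {M : Set ZFSet.{0}} {K H : ZFSet.{0}} (hG : Gr M K H) {γ : ZFSet.{0}}
    (hg : γ ∈ H) (ho : rk γ = γ) : ∃ w ∈ H, Ws w ∧ dom w = γ := by
  induction γ using ZFSet.inductionOn with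
  | _ γ ih =>
    have h1 : ∀ β, ∃ u W : ZFSet.{0}, β ∈ γ → u ∈ H ∧ W ∈ H ∧ Ws u ∧ dom u = β ∧ Nx u W := by
      intro β
      by_cases hβ : β ∈ γ
      · obtain ⟨u, hu, hu1, hu2⟩ := ih β hβ (H_tr hG hg hβ) (CWs_o ho hβ)
        obtain ⟨W, hW, hW1⟩ := Nx_exists hG hu
        exact ⟨u, W, fun _ => ⟨hu, hW, hu1, hu2, hW1⟩⟩
      · exact ⟨∅, ∅, fun h => absurd h hβ⟩
    choose u W huW using h1
    have hM := hG.tm
    have hgM : γ ∈ M := H_sub_M hG hg
    have hHM : H ∈ M := H_M hG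
    have hw : ZFSet.sep (fun t => ∃ u ∈ H, Ws u ∧ dom u = fst t ∧ Nx u (snd t))
        (ZFSet.prod γ H) = fgr W γ := by
      ext t
      rw [mem_sep, mem_fgr]
      constructor
      · rintro ⟨h2, u', hu', h3, h4, h5⟩
        obtain ⟨β, hβ, V, hV, rfl⟩ := ZFSet.mem_prod.1 h2
        rw [fst_pair] at h4
        rw [snd_pair] at h5
        obtain ⟨h6, h7, h8, h9, h10⟩ := huW β hβ
        have h11 : u' = u β := by
          have h12 := Ws_eq h3 h8 (by rw [h4, h9])
          rw [h4] at h12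
          have h13 := h8.1
          rw [h9] at h13
          exact h12.trans h13.symm
        rw [h11] at h5
        exact ⟨β, hβ, by rw [Nx_uniq h5 h10]⟩
      · rintro ⟨β, hβ, rfl⟩
        obtain ⟨h6, h7, h8, h9, h10⟩ := huW β hβ
        refine ⟨ZFSet.pair_mem_prod.2 ⟨hβ, h7⟩, u β, h6, h8, ?_, ?_⟩
        · rw [fst_pair]; exact h9
        · rw [snd_pair]; exact h10
    have hwM : fgr W γ ∈ M := by
      rw [← hw]
      have h2 : UF (fun _ v => ZFSet.sep (fun t => ∃ u ∈ v 0, H83.PN.Ws u ∧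
          H83.AC.dom u = H83.AC.fst t ∧ H83.PN.Nx u (H83.AC.snd t)) (ZFSet.prod (v 1) (v 0))) := by
        infer_instance
      exact h2.mem M hM (cons H (fun _ => γ)) (fun i => by
        cases i with
        | zero => exact hHM
        | succ i => exact hgM)
    have hdom : dom (fgr W γ) = γ := dom_fgr
    have happ : ∀ β ∈ γ, app (fgr W γ) β = W β := fun β hβ => app_fgr hβ
    have hself : fgr (fun β => app (fgr W γ) β) γ = fgr W γ := fgr_congr fun β hβ => happ β hβ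
    have hct : Ctb M (fgr W γ) := by
      have h2 : Ctb M (img (fun β => pair β (app (fgr W γ) β)) γ) :=
        Ctb_img (N := M) hM (F := fun _ β v => pair β (app (v 0) β))
          (UF.pair (UF.var 0) (UF.app (UF.var 1) (UF.var 0))) (v := fun _ => fgr W γ)
          (fun _ => hwM) (fun y hy => hM.tr _ hgM y hy) (H_ct hG hg)
      have h3 : img (fun β => pair β (app (fgr W γ) β)) γ = fgr W γ := hself
      rwa [h3] at h2
    have hwH : fgr W γ ∈ H := by
      refine H_ctb hG hwM hct ?_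
      intro y hy
      obtain ⟨β, hβ, rfl⟩ := mem_fgr.1 hy
      exact H_pair hG (H_tr hG hg hβ) (huW β hβ).2.1
    refine ⟨fgr W γ, hwH, ⟨?_, ?_, ?_⟩, hdom⟩
    · rw [hdom]; exact hself.symm
    · rw [hdom]; exact ho
    · intro β hβ
      rw [hdom] at hβ
      obtain ⟨h6, h7, h8, h9, h10⟩ := huW β hβ
      have h11 : fgr (fun δ => app (fgr W γ) δ) β = u β := by
        have h12 := h8.1
        rw [h9] at h12
        rw [h12]
        refine fgr_congr fun δ hδ => ?_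
        have hδγ := CWs_tr ho hβ hδ
        obtain ⟨g6, g7, g8, g9, g10⟩ := huW δ hδγ
        have hδu : δ ∈ dom (u β) := by rw [h9]; exact hδ
        have g11 := h8.2.2 δ hδu
        have g12 : dom (u δ) ⊆ dom (u β) := by
          rw [g9, h9]
          intro ε hε
          exact CWs_tr (CWs_o ho hβ) hδ hε
        have g13 := Ws_eq g8 h8 g12
        rw [g9] at g13
        rw [← g13] at g11
        rw [happ δ hδγ]
        exact Nx_uniq g10 g11
      rw [h11, happ β hβ]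
      exact h10

theorem Ws_cover {M : Set ZFSet.{0}} {K H : ZFSet.{0}} (hG : Gr M K H) {x : ZFSet.{0}}
    (hx : x ∈ H) : ∃ w ∈ H, Ws w ∧ ∃ γ ∈ dom w, x ∈ app w γ ∧ HCt (cls (app w γ)) x := by
  obtain ⟨W, hW, hWd, hxW, hcW⟩ := exists_W hG hx
  have h1 : rk W ∈ H := H_ord hG hW
  have hsc : ∀ y ∈ H, sc y ∈ H := fun y hy =>
    H_uf1 hG (F := fun y => sc y) (by infer_instance) hy
  have h2 : rk (rk W) = rk W := rk_eq_rk.2 (rank_rk W)
  have h3 : rk (sc (rk W)) = sc (rk W) := CWs_sc h2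
  obtain ⟨w, hw, hw1, hw2⟩ := Ws_exists hG (hsc _ (hsc _ h1)) (CWs_sc h3)
  have h4 : sc (rk W) ∈ dom w := by
    rw [hw2]
    exact ZFSet.mem_insert_iff.2 (Or.inl rfl)
  have h5 := Ws_dom_app hw1 h4
  have hA := Ws_Wd hw1 h4
  have h6 : rank W < rank (app w (sc (rk W))) := by
    have h7 : rk W ∈ sc (rk W) := ZFSet.mem_insert_iff.2 (Or.inl rfl)
    have h8 := rank_lt_of_mem h7
    rw [rank_rk] at h8
    exact h8.trans (rank_lt_of_mem h5)
  have h7 : W ∈ app w (sc (rk W)) := by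
    rcases Wd_lin hWd hA with h8 | h8 | h8
    · exact h8
    · rw [← h8] at h6
      exact absurd h6 (lt_irrefl _)
    · exact absurd (h6.trans (rank_lt_of_mem h8)) (lt_irrefl _)
  have h8 : W ⊆ app w (sc (rk W)) := Wd_tr hA h7
  exact ⟨w, hw, hw1, sc (rk W), h4, h8 hxW, HCt_mono (fun z hz => h8 hz) hcW⟩

end H83.PN
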