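import Pool.Agent.H83.PN.CUU
import Pool.Agent.H83.PN.CBl

set_option autoImplicit false

/-!
# Module CXt: extension of sequences of blocks (2.2)

Case 1: every element `γ` of `dom w` has `sc γ ∈ dom w` (limit, or empty). Let
`F γ = lst (wh (app w (sc γ))) (sep (fun F => Blk (app w γ) (app w (sc γ)) F) (app w (sc γ)))` for `γ ∈ dom w \ dom u`, and
`u' = u ∪ fgr (fun γ => pair (app w γ) (F γ)) (dom w \ dom u) ∈ W` (definable from `u, w ∈ W`; `w ∈ W` by `Nx`). The set is not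
empty by `exists_blk` (`Ws_mono`), so `lst_mem`. Case 2: `dom w = sc γ₀`: if `dom u = dom w` take `u`; otherwise
`dom u ⊆ γ₀`; apply the construction of case 1 to the ordinals `γ ∈ γ₀` (for them `sc γ ∈ dom w`) and add one more
block over `app w γ₀` with values in `W` (`exists_blk`: `app w γ₀ ∈ W` countable in `W`, `Ws_W`). The models of `u`
agree with those of `w` (`Ws_uniq`, `UU_ws`). The models are in `H` because `w ∈ H` (`H_tr`) and `W ∈ H` (`Nx_H`).
-/

namespace H83.PN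

open ZFSet H83.AC

private theorem CXt_o {γ β : ZFSet.{0}} (h : rk γ = γ) (hb : β ∈ γ) : rk β = β := by
  rw [← h] at hb
  exact rk_of_mem_rk hb

private theorem CXt_tr {α γ β : ZFSet.{0}} (h : rk α = α) (hg : γ ∈ α) (hb : β ∈ γ) : β ∈ α := by
  have h1 := CXt_o (CXt_o h hg) hb
  rw [← h, ← h1]
  exact rk_mem_rk.2 ((rank_lt_of_mem hb).trans (rank_lt_of_mem hg))

private theorem CXt_rs (γ : ZFSet.{0}) : rank (sc γ) = Order.succ (rank γ) := by
  rw [sc, rank_insert]
  exact max_eq_left (Order.le_succ _)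

private theorem CXt_sc {γ : ZFSet.{0}} (h : rk γ = γ) : rk (sc γ) = sc γ := by
  have h1 := CXt_rs γ
  ext z
  rw [mem_rk, h1, sc, ZFSet.mem_insert_iff]
  constructor
  · rintro ⟨β, hβ, rfl⟩
    rcases (Order.lt_succ_iff.1 hβ).lt_or_eq with h2 | h2
    · right
      have h3 : β.toZFSet ∈ rk γ := mem_rk.2 ⟨β, h2, rfl⟩
      rwa [h] at h3
    · left
      rw [h2]
      exact h
  · rintro (h2 | h2)
    · refine ⟨rank γ, Order.lt_succ _, ?_⟩
      rw [h2]
      exact h.symm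
    · rw [← h] at h2
      obtain ⟨β, hβ, rfl⟩ := mem_rk.1 h2
      exact ⟨β, hβ.trans (Order.lt_succ _), rfl⟩

private theorem CXt_lt {α γ : ZFSet.{0}} (h : rk α = α) (hg : γ ∈ α) :
    sc γ ∈ α ∨ sc γ = α := by
  have h2 := CXt_sc (CXt_o h hg)
  have h4 : rank (sc γ) ≤ rank α := by
    rw [CXt_rs]
    exact Order.succ_le_of_lt (rank_lt_of_mem hg)
  rcases h4.lt_or_eq with h5 | h5
  · left
    have h6 := rk_mem_rk.2 h5
    rwa [h2, h] at h6
  · right
    have h6 := rk_eq_rk.2 h5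
    rwa [h2, h] at h6

private theorem CXt_inj {α γ γ' : ZFSet.{0}} (h : rk α = α) (hg : γ ∈ α) (hg' : γ' ∈ α)
    (e : sc γ = sc γ') : γ = γ' := by
  have h1 : Order.succ (rank γ) = Order.succ (rank γ') := by
    rw [← CXt_rs, ← CXt_rs, e]
  have h2 : rank γ = rank γ' := Order.succ_injective h1
  have h3 := rk_eq_rk.2 h2
  rwa [CXt_o h hg, CXt_o h hg'] at h3

open Classical in
private noncomputable def CXt_b (w F₀ γ : ZFSet.{0}) : ZFSet.{0} :=
  if sc γ ∈ dom w then lst (wh (app w (sc γ)))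
    (ZFSet.sep (fun F => Blk (app w γ) (app w (sc γ)) F) (app w (sc γ))) else F₀

open Classical in
private noncomputable def CXt_g (u w F₀ γ : ZFSet.{0}) : ZFSet.{0} :=
  if γ ∈ dom u then app u γ else pair (app w γ) (CXt_b w F₀ γ)

private theorem CXt_uf : UF (fun _ v => fgr (fun γ => CXt_g (v 0) (v 1) (v 2) γ) (dom (v 1))) := by
  unfold CXt_g CXt_b
  infer_instance

theorem UU_ext {M : Set ZFSet.{0}} {K H : ZFSet.{0}} (hG : Gr M K H) {u w W : ZFSet.{0}}
    (hu : UU H u) (hw : Ws w) (hwH : w ∈ H) (hW : Nx w W) (huW : u ∈ W) (hd : dom u ⊆ dom w) :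
    ∃ u' ∈ W, UU H u' ∧ u ⊆ u' ∧ dom u' = dom w := by
  have hα : rk (dom w) = dom w := hw.2.1
  have hWH : W ∈ H := Nx_H hG hwH hW
  have hF : ∃ F₀ ∈ W, ∀ γ ∈ dom w, sc γ = dom w → Blk (app w γ) W F₀ := by
    by_cases h : ∃ γ ∈ dom w, sc γ = dom w
    · obtain ⟨γ₀, h1, h2⟩ := h
      obtain ⟨F, hF1, hF2⟩ := exists_blk (Ws_Wd hw h1) hW.1 (Ws_W hw hW h1).1 (Ws_W hw hW h1).2.2
      refine ⟨F, hF1, fun γ hγ e => ?_⟩
      have h3 : γ = γ₀ := CXt_inj hα hγ h1 (e.trans h2.symm)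
      rw [h3]
      exact hF2
    · exact ⟨∅, (Wd_omega hW.1).2.2, fun γ hγ e => absurd ⟨γ, hγ, e⟩ h⟩
  obtain ⟨F₀, hF₀, hF₀'⟩ := hF
  have hu'W : fgr (fun γ => CXt_g u w F₀ γ) (dom w) ∈ W :=
    CXt_uf.mem (cls W) hW.1.1 (cons u (cons w (fun _ => F₀))) (fun n => by
      match n with
      | 0 => exact huW
      | 1 => exact hW.2.1
      | n + 2 => exact hF₀)
  have hdom : dom (fgr (fun γ => CXt_g u w F₀ γ) (dom w)) = dom w := dom_fgr
  have happ : ∀ γ ∈ dom w, app (fgr (fun γ => CXt_g u w F₀ γ) (dom w)) γ = CXt_g u w F₀ γ :=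
    fun γ hγ => app_fgr hγ
  obtain ⟨hws1, hws2, hws3⟩ := UU_ws hu
  have huw : ∀ γ ∈ dom u, uW u γ = app w γ := by
    intro γ hγ
    rw [← hws3 γ hγ]
    exact Ws_uniq hws1 hw (by rw [hws2]; exact hγ) (hd hγ)
  have hup : ∀ γ ∈ dom u, app u γ = pair (uW u γ) (uF u γ) := by
    intro γ hγ
    have h1 : app (fgr (fun γ => pair (uW u γ) (uF u γ)) (dom u)) γ = pair (uW u γ) (uF u γ) :=
      app_fgr (g := fun γ => pair (uW u γ) (uF u γ)) hγ
    rw [← hu.2.1] at h1
    exact h1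
  have hg1 : ∀ γ ∈ dom u, CXt_g u w F₀ γ = pair (uW u γ) (uF u γ) := by
    intro γ hγ
    rw [CXt_g, if_pos hγ]
    exact hup γ hγ
  have hg2 : ∀ γ, γ ∉ dom u → CXt_g u w F₀ γ = pair (app w γ) (CXt_b w F₀ γ) := by
    intro γ hγ
    rw [CXt_g, if_neg hγ]
  have huW' : ∀ γ ∈ dom w, uW (fgr (fun γ => CXt_g u w F₀ γ) (dom w)) γ = app w γ := by
    intro γ hγ
    rw [uW, happ γ hγ]
    by_cases h : γ ∈ dom u
    · rw [hg1 γ h, fst_pair]
      exact huw γ h
    · rw [hg2 γ h, fst_pair]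
  have hUU : UU H (fgr (fun γ => CXt_g u w F₀ γ) (dom w)) := by
    refine ⟨?_, ?_, ?_, ?_⟩
    · rw [hdom]
      exact hα
    · rw [hdom]
      refine fgr_congr fun γ hγ => ?_
      rw [uW, uF, happ γ hγ]
      by_cases h : γ ∈ dom u
      · rw [hg1 γ h, fst_pair, snd_pair]
      · rw [hg2 γ h, fst_pair, snd_pair]
    · intro γ hγ
      rw [hdom] at hγ
      rw [huW' γ hγ]
      have h1 : fgr (fun β => uW (fgr (fun γ => CXt_g u w F₀ γ) (dom w)) β) γ =
          fgr (fun β => app w β) γ := fgr_congr fun β hβ => huW' β (CXt_tr hα hγ hβ)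
      rw [h1]
      exact hw.2.2 γ hγ
    · intro γ hγ
      rw [hdom] at hγ
      rw [huW' γ hγ]
      have hscw : ∀ β ∈ sc γ, β ∈ dom w := by
        intro β hβ
        rcases ZFSet.mem_insert_iff.1 hβ with h1 | h1
        · rw [h1]
          exact hγ
        · exact CXt_tr hα hγ h1
      have h1 : fgr (fun β => uW (fgr (fun γ => CXt_g u w F₀ γ) (dom w)) β) (sc γ) =
          fgr (fun β => app w β) (sc γ) := fgr_congr fun β hβ => huW' β (hscw β hβ)
      rw [h1]
      by_cases h : γ ∈ dom u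
      · obtain ⟨W', hW'1, hW'2, hW'3⟩ := hu.2.2.2 γ h
        have h2 : fgr (fun β => uW u β) (sc γ) = fgr (fun β => app w β) (sc γ) := by
          refine fgr_congr fun β hβ => ?_
          rcases ZFSet.mem_insert_iff.1 hβ with h3 | h3
          · rw [h3]
            exact huw γ h
          · exact huw β (CXt_tr hu.1 h h3)
        rw [h2] at hW'2
        rw [huw γ h] at hW'3
        refine ⟨W', hW'1, hW'2, ?_⟩
        rw [uF, happ γ hγ, hg1 γ h, snd_pair]
        exact hW'3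
      · rw [uF, happ γ hγ, hg2 γ h, snd_pair]
        rcases CXt_lt hα hγ with h3 | h3
        · have hγs : γ ∈ sc γ := ZFSet.mem_insert_iff.2 (Or.inl rfl)
          obtain ⟨m1, m2, m3, m4⟩ := Ws_mono hw h3 hγs
          refine ⟨app w (sc γ), H_tr hG hWH (Ws_W hw hW h3).1, hw.2.2 _ h3, ?_⟩
          rw [CXt_b, if_pos h3]
          obtain ⟨F, hF1, hF2⟩ := exists_blk (Ws_Wd hw hγ) (Ws_Wd hw h3) m1 m3
          have h4 := lst_mem (S := ZFSet.sep (fun F => Blk (app w γ) (app w (sc γ)) F)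
            (app w (sc γ))) (Wd_wh (Ws_Wd hw h3)) (fun z hz => (mem_sep.1 hz).1) (by
              intro e
              have h5 : F ∈ ZFSet.sep (fun F => Blk (app w γ) (app w (sc γ)) F)
                  (app w (sc γ)) := mem_sep.2 ⟨hF1, hF2⟩
              rw [e] at h5
              exact ZFSet.notMem_empty _ h5)
          exact (mem_sep.1 h4).2
        · have h4 : sc γ ∉ dom w := by
            rw [h3]
            exact ZFSet.mem_irrefl _
          refine ⟨W, hWH, ?_, ?_⟩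
          · rw [h3, ← hw.1]
            exact hW
          · rw [CXt_b, if_neg h4]
            exact hF₀' γ hγ h3
  refine ⟨_, hu'W, hUU, ?_, hdom⟩
  refine UU_sub_of hu hUU (by rw [hdom]; exact hd) fun γ hγ => ?_
  rw [happ γ (hd hγ), hg1 γ hγ]
  exact hup γ hγ

end H83.PN
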