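import Pool.Agent.H83.PN.GTriv
import Pool.Agent.H83.AC.NthU
import Pool.Agent.H83.AC.HlU
import Pool.Agent.H83.AC.SatU
import Pool.Agent.H83.AC.LLvl
import Pool.Agent.H83.AC.HBrU

set_option autoImplicit false

/-!
# Definitions for the separation of `AC(Π¹_n)` and `AC(Π¹_(n+1))`

See the paper `h83_pin_paper.md`. All objects are `ZFSet`s; relations which do not mention a class
`N` are absolute as soon as they are uniformly definable.
-/

namespace H83.PN

open ZFSet H83.AC

/-! ### Tools -/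

/-- finite sets -/
def Fnt (x : ZFSet.{0}) : Prop := {y | y ∈ x}.Finite

/-- the finite subsets of `X` -/
noncomputable def Fs (X : ZFSet.{0}) : ZFSet.{0} := ZFSet.sep Fnt (powerset X)

/-- `f` is a set of pairs with different first components -/
def Fun (f : ZFSet.{0}) : Prop :=
  (∀ t ∈ f, t = pair (fst t) (snd t)) ∧ ∀ t ∈ f, ∀ t' ∈ f, fst t = fst t' → t = t'

/-- the restriction of `f` to `a` -/
noncomputable def res (f a : ZFSet.{0}) : ZFSet.{0} := ZFSet.sep (fun t => fst t ∈ a) f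

open Classical in
/-- the unique element of `N` with the property `P`, or `∅` -/
noncomputable def the (N : Set ZFSet.{0}) (P : ZFSet.{0} → Prop) : ZFSet.{0} :=
  if h : ∃ y ∈ N, P y ∧ ∀ y' ∈ N, P y' → y' = y then h.choose else ∅

/-- the code of a formula -/
noncomputable def fcd : Fml → ZFSet.{0}
  | .bot => pair (nz 0) ∅
  | .eq i j => pair (nz 1) (pair (nz i) (nz j))
  | .mem i j => pair (nz 2) (pair (nz i) (nz j))
  | .imp φ ψ => pair (nz 3) (pair (fcd φ) (fcd ψ))
  | .all φ => pair (nz 4) (fcd φ)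

/-- the codes of all formulas -/
noncomputable def FC : ZFSet.{0} := ZFSet.sep (fun c => ∃ φ, c = fcd φ) HF

/-- finite assignments with values in `K` -/
noncomputable def Asg (K : ZFSet.{0}) : ZFSet.{0} := ZFSet.sep Fun (Fs (ZFSet.prod omega K))

/-- the assignment coded by `s` -/
noncomputable def asv (s : ZFSet.{0}) : ℕ → ZFSet.{0} := fun i => app s (nz i)

/-- the finite assignment `x, s 0, s 1, ..` -/
noncomputable def acons (x s : ZFSet.{0}) : ZFSet.{0} :=
  insert (pair ∅ x) (img (fun t => pair (sc (fst t)) (snd t)) s)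

/-- satisfaction in `K` of the formula with code `c` -/
def SatZ (K c s : ZFSet.{0}) : Prop := ∃ φ, c = fcd φ ∧ SatIn (cls K) φ (asv s)

/-- transitive set models of ZF and `V = L` -/
def Wd (K : ZFSet.{0}) : Prop := TM (cls K) ∧ VL (cls K)

/-- the elements of `a` are enumerated by an element of `N` -/
def Ctb (N : Set ZFSet.{0}) (a : ZFSet.{0}) : Prop := ∃ g ∈ N, ∀ y ∈ a, ∃ n ∈ omega, app g n = y

/-- hereditarily countable in `N` -/
def HCt (N : Set ZFSet.{0}) (x : ZFSet.{0}) : Prop := Ctb N (tc x)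

/-- `W` is the least model containing `x` in which `x` is hereditarily countable -/
def Nx (x W : ZFSet.{0}) : Prop :=
  Wd W ∧ x ∈ W ∧ HCt (cls W) x ∧ ∀ W' ∈ W, ¬ (Wd W' ∧ x ∈ W' ∧ HCt (cls W') x)

/-- the ground model `M`, a model `K ∈ M` containing all hereditarily countable sets of `M`, and
the set `H` of all hereditarily countable sets of `M` -/
structure Gr (M : Set ZFSet.{0}) (K H : ZFSet.{0}) : Prop where
  tm : TM M
  ctbl : M.Countable
  vl : VL M
  KM : K ∈ M
  Kw : Wd K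
  HK : H ∈ K
  mem : ∀ x, x ∈ H ↔ x ∈ M ∧ HCt M x

/-! ### Cohen conditions, blocks -/

/-- finite partial functions from `X × ω` to `ω` -/
noncomputable def Cn (X : ZFSet.{0}) : ZFSet.{0} :=
  ZFSet.sep Fun (Fs (ZFSet.prod (ZFSet.prod X omega) omega))

/-- `D` is a dense subset of `Cn X` -/
def Dn (X D : ZFSet.{0}) : Prop := D ⊆ Cn X ∧ ∀ p ∈ Cn X, ∃ q ∈ D, p ⊆ q

/-- `p` is a part of the family of functions `f` -/
def Fit (f : ZFSet.{0} → ZFSet.{0}) (p : ZFSet.{0}) : Prop :=
  ∀ t ∈ p, pair (snd (fst t)) (snd t) ∈ f (fst (fst t))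

/-- the family `f x`, `x ∈ X`, is Cohen generic over `W` -/
def GnC (W X : ZFSet.{0}) (f : ZFSet.{0} → ZFSet.{0}) : Prop :=
  ∀ D ∈ W, Dn X D → ∃ p ∈ D, Fit f p

/-- `F` is a block over `W`, with values in `W'` -/
def Blk (W W' F : ZFSet.{0}) : Prop :=
  F = fgr (fun a => app F a) Idx ∧ (∀ a ∈ Idx, IsFunc omega omega (app F a) ∧ app F a ∈ W') ∧
  ∀ A ∈ Fs Idx, ∀ D ∈ W, Dn A D → ∃ p ∈ D, Fit (fun a => app F a) p

/-- the models of the sequence `u` -/
noncomputable def uW (u γ : ZFSet.{0}) : ZFSet.{0} := fst (app u γ)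
/-- the blocks of the sequence `u` -/
noncomputable def uF (u γ : ZFSet.{0}) : ZFSet.{0} := snd (app u γ)
/-- the sequence of models -/
noncomputable def ws (u : ZFSet.{0}) : ZFSet.{0} := fgr (fun γ => uW u γ) (dom u)

/-- sequences of blocks -/
def UU (K u : ZFSet.{0}) : Prop :=
  rk (dom u) = dom u ∧ u = fgr (fun γ => pair (uW u γ) (uF u γ)) (dom u) ∧
  (∀ γ ∈ dom u, Nx (fgr (fun β => uW u β) γ) (uW u γ)) ∧
  ∀ γ ∈ dom u, ∃ W' ∈ K, Nx (fgr (fun β => uW u β) (sc γ)) W' ∧ Blk (uW u γ) W' (uF u γ)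

/-! ### The forcing -/

/-- the length of `v` -/
noncomputable def vL (v : ZFSet.{0}) : ZFSet.{0} := fst v
/-- the set of coordinates of `v` -/
noncomputable def vS (v : ZFSet.{0}) : ZFSet.{0} := fst (snd v)
/-- the values of `v` -/
noncomputable def vf (v : ZFSet.{0}) : ZFSet.{0} := snd (snd v)

/-- coordinates: pairs `(k, h)`, `k ∈ ω` the column -/
def Co (c : ZFSet.{0}) : Prop := c = pair (fst c) (snd c) ∧ fst c ∈ omega

/-- the first part of the conditions -/
def VV (v : ZFSet.{0}) : Prop :=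
  v = pair (vL v) (pair (vS v) (vf v)) ∧ rk (vL v) = vL v ∧ (∀ c ∈ vS v, Co c) ∧
  vf v = fgr (fun s => app (vf v) s) (ZFSet.prod (vS v) (vL v)) ∧
  ∀ s ∈ ZFSet.prod (vS v) (vL v), app (vf v) s ∈ Idx

/-- the order of the first parts: the coordinates of `v` have their column as label and are
injective beyond the length of `v`; new coordinates are arbitrary -/
def VLe (v' v : ZFSet.{0}) : Prop :=
  vL v ⊆ vL v' ∧ vS v ⊆ vS v' ∧
  (∀ s ∈ ZFSet.prod (vS v) (vL v), app (vf v') s = app (vf v) s) ∧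
  (∀ c ∈ vS v, ∀ γ ∈ vL v', γ ∉ vL v → fst (app (vf v') (pair c γ)) = fst c) ∧
  ∀ c ∈ vS v, ∀ c' ∈ vS v, c ≠ c' → ∀ γ ∈ vL v', γ ∉ vL v →
    app (vf v') (pair c γ) ≠ app (vf v') (pair c' γ)

/-- the second part of the conditions: finite parts of the reals, and promises -/
def QQ (v q : ZFSet.{0}) : Prop :=
  q = pair (fst q) (snd q) ∧ fst q ∈ Cn (vS v) ∧ snd q ∈ Fs (ZFSet.prod (vS v) (vL v))

/-- the real number attached to `s = (c, γ)` -/
noncomputable def rl (u v s : ZFSet.{0}) : ZFSet.{0} := app (uF u (snd s)) (app (vf v) s)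

/-- the order of the second parts, `v` the first part of the weaker condition -/
def QLe (u v q' q : ZFSet.{0}) : Prop :=
  fst q ⊆ fst q' ∧ snd q ⊆ snd q' ∧
  ∀ t ∈ fst q', t ∉ fst q → ∀ s ∈ snd q, fst s = fst (fst t) →
    pair (snd (fst t)) (snd t) ∉ rl u v s

/-- the forcing `P(u,v)` -/
noncomputable def QP (v : ZFSet.{0}) : ZFSet.{0} :=
  ZFSet.sep (fun q => QQ v q) (ZFSet.prod (Cn (vS v)) (Fs (ZFSet.prod (vS v) (vL v))))
/-- the order of `P(u,v)` -/
noncomputable def QO (u v : ZFSet.{0}) : ZFSet.{0} :=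
  ZFSet.sep (fun t => QLe u v (fst t) (snd t)) (ZFSet.prod (QP v) (QP v))
/-- the weakest condition of `P(u,v)` -/
noncomputable def eQ : ZFSet.{0} := pair ∅ ∅
/-- `P(u,v)` as a symmetric system with the trivial group -/
noncomputable def Sq (u v : ZFSet.{0}) : ZFSet.{0} := triv (QO u v) eQ

/-- the coordinates of the second part `q` -/
noncomputable def csup (q : ZFSet.{0}) : ZFSet.{0} :=
  img (fun t => fst (fst t)) (fst q) ∪ img (fun s => fst s) (snd q)

/-- the conditions of the forcing `P_U` -/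
noncomputable def PU (U H : ZFSet.{0}) : ZFSet.{0} :=
  ZFSet.sep (fun p => p = pair (fst p) (snd p) ∧ VV (fst p) ∧ vL (fst p) ∈ dom U ∧
    QQ (fst p) (snd p)) H
/-- the order of `P_U` -/
noncomputable def OU (U H : ZFSet.{0}) : ZFSet.{0} :=
  ZFSet.sep (fun t => VLe (fst (fst t)) (fst (snd t)) ∧
    QLe U (fst (snd t)) (snd (fst t)) (snd (snd t))) (ZFSet.prod (PU U H) (PU U H))
/-- the weakest condition of `P_U` -/
noncomputable def eC : ZFSet.{0} := pair (pair ∅ (pair ∅ ∅)) (pair ∅ ∅)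

/-! ### Renaming of coordinates -/

/-- `a` is a bijection of its domain, a set of coordinates -/
def Bij (a : ZFSet.{0}) : Prop :=
  a = fgr (fun c => app a c) (dom a) ∧ (∀ c ∈ dom a, Co c) ∧ (∀ c ∈ dom a, app a c ∈ dom a) ∧
  (∀ c ∈ dom a, ∀ c' ∈ dom a, app a c = app a c' → c = c') ∧
  ∀ c ∈ dom a, ∃ c' ∈ dom a, app a c' = c

/-- `a` preserves the columns -/
def ColP (a : ZFSet.{0}) : Prop := ∀ c ∈ dom a, fst (app a c) = fst c

open Classical in
/-- the action on coordinates -/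
noncomputable def apc (a c : ZFSet.{0}) : ZFSet.{0} := if c ∈ dom a then app a c else c
/-- action on triples `((c, x), y)` -/
noncomputable def rn3 (a t : ZFSet.{0}) : ZFSet.{0} :=
  pair (pair (apc a (fst (fst t))) (snd (fst t))) (snd t)
/-- action on pairs `(c, x)` -/
noncomputable def rn2 (a s : ZFSet.{0}) : ZFSet.{0} := pair (apc a (fst s)) (snd s)
/-- action on first parts -/
noncomputable def acV (a v : ZFSet.{0}) : ZFSet.{0} :=
  pair (vL v) (pair (img (fun c => apc a c) (vS v)) (img (fun t => rn3 a t) (vf v)))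
/-- action on second parts -/
noncomputable def acQ (a q : ZFSet.{0}) : ZFSet.{0} :=
  pair (img (fun t => rn3 a t) (fst q)) (img (fun s => rn2 a s) (snd q))
/-- action on conditions -/
noncomputable def acP (a p : ZFSet.{0}) : ZFSet.{0} := pair (acV a (fst p)) (acQ a (snd p))
/-- action on names -/
noncomputable def acE (a e : ZFSet.{0}) : ZFSet.{0} :=
  img (fun t => pair (acQ a (fst t)) (snd t)) e

/-- the group of all column preserving bijections in `H` -/
noncomputable def AG (H : ZFSet.{0}) : ZFSet.{0} := ZFSet.sep (fun a => Bij a ∧ ColP a) H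
/-- the subgroup of those which are the identity on the columns `< m` -/
noncomputable def AGm (H m : ZFSet.{0}) : ZFSet.{0} :=
  ZFSet.sep (fun a => ∀ c ∈ dom a, fst c ∈ m → app a c = c) (AG H)
/-- the automorphism of `P_U` given by `a` -/
noncomputable def aut (U H a : ZFSet.{0}) : ZFSet.{0} := fgr (fun p => acP a p) (PU U H)
/-- the symmetric system -/
noncomputable def SU (U H : ZFSet.{0}) : ZFSet.{0} :=
  pair (OU U H) (pair eC (pair (img (fun a => aut U H a) (AG H))
    (fgr (fun m => img (fun a => aut U H a) (AGm H m)) omega)))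

/-! ### Projective statements -/

/-- the pair of two subsets of `HF` -/
noncomputable def jn (y z : ZFSet.{0}) : ZFSet.{0} :=
  img (fun h => pair ∅ h) y ∪ img (fun h => pair one h) z

/-- `z` is in the closed set with code `T` -/
def Cl0 (T z : ZFSet.{0}) : Prop := ∀ n ∈ omega, pair n (z ∩ Lh n) ∈ T

/-- the `Π¹_j` statement with code `T` about `z` -/
def Pr (N : Set ZFSet.{0}) : ℕ → ZFSet.{0} → ZFSet.{0} → Prop
  | 0, T, z => Cl0 T z
  | j + 1, T, z => ∀ y, Real N y → ¬ Pr N j T (jn y z)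

/-! ### Names over `P(u,v)` -/

/-- names of subsets of `HF`, over finitely many columns -/
def SNm (W v e : ZFSet.{0}) : Prop :=
  e ∈ W ∧ (∀ t ∈ e, t = pair (fst t) (snd t) ∧ fst t ∈ QP v ∧ snd t ∈ HF) ∧
  ∃ m ∈ omega, ∀ t ∈ e, ∀ c ∈ csup (fst t), fst c ∈ m

/-- names of real numbers -/
def RNm (W u v e : ZFSet.{0}) : Prop :=
  SNm W v e ∧ (∀ t ∈ e, snd t ∈ ZFSet.prod omega omega) ∧
  (∀ i ∈ omega, ∀ q ∈ QP v, ∃ q' ∈ QP v, QLe u v q' q ∧ ∃ t ∈ e, fst (snd t) = i ∧
    QLe u v q' (fst t)) ∧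
  ∀ t ∈ e, ∀ t' ∈ e, fst (snd t) = fst (snd t') →
    (∃ q ∈ QP v, QLe u v q (fst t) ∧ QLe u v q (fst t')) → snd t = snd t'

/-- the name of `jn` -/
noncomputable def jnN (y z : ZFSet.{0}) : ZFSet.{0} :=
  img (fun t => pair (fst t) (pair ∅ (snd t))) y ∪ img (fun t => pair (fst t) (pair one (snd t))) z

/-! ### Good conditions -/

/-- first component of `r = (u, (v, q))` -/
noncomputable def rU (r : ZFSet.{0}) : ZFSet.{0} := fst r
/-- second component of `r = (u, (v, q))` -/
noncomputable def rV (r : ZFSet.{0}) : ZFSet.{0} := fst (snd r)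
/-- third component of `r = (u, (v, q))` -/
noncomputable def rQ (r : ZFSet.{0}) : ZFSet.{0} := snd (snd r)

/-- `r` is a good condition in `K`, `W` the model belonging to it -/
def Gd (K r W : ZFSet.{0}) : Prop :=
  r ∈ K ∧ W ∈ K ∧ r = pair (rU r) (pair (rV r) (rQ r)) ∧ UU K (rU r) ∧ VV (rV r) ∧
  dom (rU r) = vL (rV r) ∧ QQ (rV r) (rQ r) ∧ Nx (ws (rU r)) W ∧ rU r ∈ W ∧ rV r ∈ W

/-- the order of the triples -/
def RLe (r' r : ZFSet.{0}) : Prop :=
  rU r ⊆ rU r' ∧ VLe (rV r') (rV r) ∧ QLe (rU r') (rV r) (rQ r') (rQ r)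

end H83.PN
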