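import Pool.Agent.H83.PN.GChk

set_option autoImplicit false

/-!
# Module GRn: names of subsets of ground model sets

`e` is a set of pairs `(p, h)`, `p` a condition. `ev G e` is the set of all `h` with `(p, h) ∈ e` for some
`p ∈ G`. As in `AC/Rn.lean`; the support condition is that the set `e` is invariant.
`Supp_rn`: `actN S a (rn S e)` is the set of all `(chk h, app a p)`, `(p, h) ∈ e` (`actN_chk`); it is
contained in `rn S e`, and the converse inclusion follows from the inverse (`Sys.invH`).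
`ev_mem_low` is `val_rn` with `HS_rn`.
-/

namespace H83.PN

open ZFSet H83.AC

/-- evaluation -/
noncomputable def ev (G : Set ZFSet.{0}) (e : ZFSet.{0}) : ZFSet.{0} :=
  ZFSet.sep (fun h => ∃ p ∈ G, pair p h ∈ e) (rng e)

/-- the name of `ev G e` -/
noncomputable def rn (S e : ZFSet.{0}) : ZFSet.{0} :=
  img (fun t => pair (chk S (snd t)) (fst t)) e

theorem mem_ev {e h : ZFSet.{0}} {G : Set ZFSet.{0}} : h ∈ ev G e ↔ ∃ p ∈ G, pair p h ∈ e := by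
  rw [ev, mem_sep, mem_rng]
  exact ⟨fun h => h.2, fun h => ⟨by obtain ⟨p, -, hp⟩ := h; exact ⟨p, hp⟩, h⟩⟩

private theorem GRn_mem {S e X t : ZFSet.{0}} (he : e ⊆ ZFSet.prod (sP S) X) :
    t ∈ rn S e ↔ ∃ q h, q ∈ sP S ∧ pair q h ∈ e ∧ t = pair (chk S h) q := by
  rw [rn, mem_img]
  constructor
  · rintro ⟨s, hs, rfl⟩
    obtain ⟨q, hq, h, hh, rfl⟩ := ZFSet.mem_prod.1 (he hs)
    exact ⟨q, h, hq, hs, by rw [snd_pair, fst_pair]⟩
  · rintro ⟨q, h, -, hs, rfl⟩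
    exact ⟨pair q h, hs, by rw [snd_pair, fst_pair]⟩

theorem val_rn {S e X : ZFSet.{0}} (he : e ⊆ ZFSet.prod (sP S) X) {G : Set ZFSet.{0}}
    (hG : sE S ∈ G) : val G (rn S e) = ev G e := by
  ext x
  rw [mem_val, mem_ev]
  constructor
  · rintro ⟨π, p, hp, hπ, rfl⟩
    obtain ⟨q, h, hq, hs, e1⟩ := (GRn_mem he).1 hπ
    obtain ⟨rfl, rfl⟩ := pair_injective e1
    rw [val_chk hG]
    exact ⟨p, hp, hs⟩
  · rintro ⟨p, hp, hs⟩
    obtain ⟨q, hq, h, hh, e1⟩ := ZFSet.mem_prod.1 (he hs)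
    obtain ⟨rfl, rfl⟩ := pair_injective e1
    exact ⟨chk S x, p, hp, (GRn_mem he).2 ⟨p, x, hq, hs, rfl⟩, (val_chk hG x).symm⟩

theorem Supp_rn {S e m X : ZFSet.{0}} (hS : Sys S) (hm : m ∈ omega)
    (he : e ⊆ ZFSet.prod (sP S) X)
    (hinv : ∀ a ∈ app (sH S) m, ∀ p h, pair p h ∈ e → pair (app a p) h ∈ e) :
    Supp S m (rn S e) := by
  refine ⟨hm, fun a ha => ?_⟩
  have haA := hS.subH m hm ha
  ext t
  rw [mem_actN, GRn_mem he]
  constructor
  · rintro ⟨π, p, hp, hπ, rfl⟩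
    obtain ⟨q, h, hq, hs, e1⟩ := (GRn_mem he).1 hπ
    obtain ⟨rfl, rfl⟩ := pair_injective e1
    have h1 := hinv a ha p h hs
    obtain ⟨r, hr, k, hk, e2⟩ := ZFSet.mem_prod.1 (he h1)
    obtain ⟨e3, -⟩ := pair_injective e2
    exact ⟨app a p, h, by rw [e3]; exact hr, h1, by rw [actN_chk hS haA]⟩
  · rintro ⟨q, h, hq, hs, rfl⟩
    obtain ⟨b, hb, hab⟩ := hS.invH m hm a ha
    have h1 := hinv b hb q h hs
    obtain ⟨r, hr, k, hk, e2⟩ := ZFSet.mem_prod.1 (he h1)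
    obtain ⟨e3, -⟩ := pair_injective e2
    have hbq : app b q ∈ sP S := by rw [e3]; exact hr
    exact ⟨chk S h, app b q, hbq, (GRn_mem he).2 ⟨app b q, h, hbq, h1, rfl⟩,
      by rw [actN_chk hS haA, (hab q hq).2]⟩

theorem HS_rn {S e m X : ZFSet.{0}} (hS : Sys S) (hm : m ∈ omega)
    (he : e ⊆ ZFSet.prod (sP S) X)
    (hinv : ∀ a ∈ app (sH S) m, ∀ p h, pair p h ∈ e → pair (app a p) h ∈ e) : HS S (rn S e) := by
  refine HS_iff.2 ⟨fun t ht => ?_, ⟨m, Supp_rn hS hm he hinv⟩, fun π hπ => ?_⟩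
  · obtain ⟨q, h, hq, -, rfl⟩ := (GRn_mem he).1 ht
    exact ⟨chk S h, q, hq, rfl⟩
  · obtain ⟨p, -, hp⟩ := mem_nd.1 hπ
    obtain ⟨q, h, -, -, e1⟩ := (GRn_mem he).1 hp
    obtain ⟨rfl, rfl⟩ := pair_injective e1
    exact HS_chk hS h

instance Inst.rn {f g : Set ZFSet.{0} → (ℕ → ZFSet.{0}) → ZFSet.{0}} [hf : UF f] [hg : UF g] :
    UF (fun N v => H83.PN.rn (f N v) (g N v)) := by
  unfold H83.PN.rn; infer_instance

theorem ev_mem {M G : Set ZFSet.{0}} {S e m X : ZFSet.{0}} (hM : TM M) (hS : Sys S) (hSM : S ∈ M)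
    (hG : Gen M S G) (hm : m ∈ omega) (heM : e ∈ M) (he : e ⊆ ZFSet.prod (sP S) X)
    (hinv : ∀ a ∈ app (sH S) m, ∀ p h, pair p h ∈ e → pair (app a p) h ∈ e) :
    ev G e ∈ NN M S G := by
  have hrn : UF (fun _ v => H83.PN.rn (v 0) (v 1)) := Inst.rn (hf := UF.var 0) (hg := UF.var 1)
  refine ⟨rn S e, hrn.mem M hM (fun n => if n = 0 then S else e) (fun n => ?_),
    HS_rn hS hm he hinv, (val_rn he (top_mem hM hS hSM hG)).symm⟩
  by_cases h : n = 0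
  · simp only [h, if_true]
    exact hSM
  · simp only [h, if_false]
    exact heM

end H83.PN
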