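import Pool.Agent.H83.PN.DefsI
import Pool.Agent.H83.PN.GFcU
import Pool.Agent.H83.PN.GRn

set_option autoImplicit false

/-!
# Definitions: the forcing relation for projective statements, the closed set `Z`

`n` is a natural number; the theorem is about `Π¹_(n+2)` and `Π¹_(n+3)`. `FF K j r T z` says: the
condition `r` forces (in the sense of `K`) that `Pr (j+1) T z` holds.
-/

namespace H83.PN

open ZFSet H83.AC

variable {f g h k l : Set ZFSet.{0} → (ℕ → ZFSet.{0}) → ZFSet.{0}}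

/-- sequences of models -/
def Ws (w : ZFSet.{0}) : Prop :=
  w = fgr (fun γ => app w γ) (dom w) ∧ rk (dom w) = dom w ∧
  ∀ γ ∈ dom w, Nx (fgr (fun β => app w β) γ) (app w γ)

instance Inst.Ws [hf : UF f] : UR (fun N v => H83.PN.Ws (f N v)) := by
  unfold H83.PN.Ws; infer_instance

theorem exists_phi (j : ℕ) : ∃ φ : Fml, ∀ N, TM N → ∀ v : ℕ → ZFSet.{0}, (∀ i, v i ∈ N) →
    (Pr N j (v 0) (v 1) ↔ SatIn N φ v) := by
  obtain ⟨φ, hφ⟩ := (UR.Pr j).out
  refine ⟨φ, fun N hN v hv => ?_⟩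
  exact (hφ N hN (fun i => ⟨v i, hv i⟩)).trans (sat_iff N φ (fun i => ⟨v i, hv i⟩))

/-- a formula for `Pr N 1 (v 0) (v 1)` -/
noncomputable def phi1 : Fml := (exists_phi 1).choose

theorem phi1_iff {N : Set ZFSet.{0}} (hN : TM N) {v : ℕ → ZFSet.{0}} (hv : ∀ i, v i ∈ N) :
    Pr N 1 (v 0) (v 1) ↔ SatIn N phi1 v := (exists_phi 1).choose_spec N hN v hv

/-- the stream `x, y, y, y, ..` -/
def st2 (x y : ZFSet.{0}) : ℕ → ZFSet.{0} := fun i => if i = 0 then x else y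

/-- the condition `rQ r` of `P(u,v)` forces `Pr 1 T z` over `W` -/
def F1c (W : Set ZFSet.{0}) (r T z : ZFSet.{0}) : Prop :=
  rQ r ∈ sP (Sq (rU r) (rV r)) ∧ Fc W (Sq (rU r) (rV r)) phi1 (rQ r)
    (st2 (rn (Sq (rU r) (rV r)) T) (rn (Sq (rU r) (rV r)) z))

theorem UR.F1c : UR (fun N v => H83.PN.F1c N (v 0) (v 1) (v 2)) := by
  have h1 : UR (fun N v => v 0 ∈ sP (v 1) ∧ H83.PN.Fc N (v 1) phi1 (v 0) (st2 (v 2) (v 3))) := by
    refine ((UR.Fc phi1).ren (fun n => if n ≤ 2 then n else 3)).congr fun N _ v _ => ?_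
    have e : sh (sh (fun n => v (if n ≤ 2 then n else 3))) = st2 (v 2) (v 3) := by
      funext i
      rcases i with _ | i
      · simp [st2]
      · simp [st2]
    rw [e]
    simp
  have h2 := UR.comp4 (R := fun N a b c d => a ∈ sP b ∧ H83.PN.Fc N b phi1 a (st2 c d)) h1
    (f := fun _ v => rQ (v 0)) (g := fun _ v => Sq (rU (v 0)) (rV (v 0)))
    (h := fun _ v => rn (Sq (rU (v 0)) (rV (v 0))) (v 1))
    (k := fun _ v => rn (Sq (rU (v 0)) (rV (v 0))) (v 2)) (by infer_instance)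
    (by infer_instance) (by infer_instance) (by infer_instance)
  exact h2

/-- the same for a set model -/
def F1 (W r T z : ZFSet.{0}) : Prop :=
  TM (cls W) ∧ r ∈ W ∧ T ∈ W ∧ z ∈ W ∧ F1c (cls W) r T z

instance Inst.F1 [hf : UF f] [hg : UF g] [hh : UF h] [hk : UF k] :
    UR (fun N v => H83.PN.F1 (f N v) (g N v) (h N v) (k N v)) :=
  UR.rel3 (R := fun N x y z => H83.PN.F1c N x y z) UR.F1c inferInstance hf hg hh hk

/-- the base of the recursion -/
def FB (K r T z : ZFSet.{0}) : Prop :=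
  ∃ W ∈ K, Gd K r W ∧ SNm W (rV r) T ∧ SNm W (rV r) z ∧ F1 W r T z

/-- `T` and `z` are names at the good condition `r` -/
def Nm2 (K r T z : ZFSet.{0}) : Prop :=
  ∃ W ∈ K, Gd K r W ∧ SNm W (rV r) T ∧ SNm W (rV r) z

/-- `y` is a name of a real number at the good condition `r` -/
def RNK (K r y : ZFSet.{0}) : Prop := ∃ W ∈ K, Gd K r W ∧ RNm W (rU r) (rV r) y

/-- `r` forces `Pr (j+1) T z` in the sense of `K` -/
def FF (K : ZFSet.{0}) : ℕ → ZFSet.{0} → ZFSet.{0} → ZFSet.{0} → Prop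
  | 0, r, T, z => FB K r T z
  | j + 1, r, T, z => Nm2 K r T z ∧
    ∀ r' ∈ K, ∀ y ∈ K, RLe r' r → RNK K r' y → ¬ FF K j r' T (jnN y z)

/-- some extension of `r` with sequence `u` forces `Pr (j+1) T (y,z)` for some name `y` -/
def Dj (K : ZFSet.{0}) (j : ℕ) (u r T z : ZFSet.{0}) : Prop :=
  ∃ r' ∈ K, ∃ y ∈ K, rU r' = u ∧ RLe r' r ∧ RNK K r' y ∧ FF K j r' T (jnN y z)

/-- this holds for some extension of the sequence `u` -/
def Ext (K : ZFSet.{0}) (j : ℕ) (u r T z : ZFSet.{0}) : Prop :=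
  ∃ u' ∈ K, UU K u' ∧ u ⊆ u' ∧ Dj K j u' r T z

/-- closure properties of the sets in `Z` -/
def Kc (K : ZFSet.{0}) : Prop :=
  ∅ ∈ K ∧ (∀ x ∈ K, x ⊆ K) ∧ (∀ x ∈ K, ∃ W ∈ K, Wd W ∧ x ∈ W ∧ HCt (cls W) x) ∧
  ∀ γ ∈ K, rk γ = γ → ∃ w ∈ K, Ws w ∧ dom w = γ

/-- the set `Z` (relative to `H`) -/
def ZZ (H : ZFSet.{0}) (n : ℕ) (K : ZFSet.{0}) : Prop :=
  Kc K ∧ ∀ j ≤ n, ∀ u ∈ K, ∀ r ∈ K, ∀ T ∈ K, ∀ z ∈ K, Ext H j u r T z → Ext K j u r T z

instance Inst.FB [hf : UF f] [hg : UF g] [hh : UF h] [hk : UF k] :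
    UR (fun N v => H83.PN.FB (f N v) (g N v) (h N v) (k N v)) := by
  unfold H83.PN.FB; infer_instance
instance Inst.Nm2 [hf : UF f] [hg : UF g] [hh : UF h] [hk : UF k] :
    UR (fun N v => H83.PN.Nm2 (f N v) (g N v) (h N v) (k N v)) := by
  unfold H83.PN.Nm2; infer_instance
instance Inst.RNK [hf : UF f] [hg : UF g] [hh : UF h] :
    UR (fun N v => H83.PN.RNK (f N v) (g N v) (h N v)) := by
  unfold H83.PN.RNK; infer_instance

theorem UR.FF (j : ℕ) : UR (fun _ v => H83.PN.FF (v 0) j (v 1) (v 2) (v 3)) := by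
  induction j with
  | zero => unfold H83.PN.FF; infer_instance
  | succ j ih =>
    have h1 : UR (fun _ v => H83.PN.FF (v 2) j (v 1) (v 4) (H83.PN.jnN (v 0) (v 5))) :=
      UR.comp4 (R := fun _ a b c d => H83.PN.FF a j b c d) ih (UF.var 2) (UF.var 1) (UF.var 4)
        (by infer_instance)
    unfold H83.PN.FF
    infer_instance

instance Inst.FF (j : ℕ) [hf : UF f] [hg : UF g] [hh : UF h] [hk : UF k] :
    UR (fun N v => H83.PN.FF (f N v) j (g N v) (h N v) (k N v)) :=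
  UR.comp4 (R := fun _ a b c d => H83.PN.FF a j b c d) (UR.FF j) hf hg hh hk
instance Inst.Dj (j : ℕ) [hf : UF f] [hg : UF g] [hh : UF h] [hk : UF k] [hl : UF l] :
    UR (fun N v => H83.PN.Dj (f N v) j (g N v) (h N v) (k N v) (l N v)) := by
  unfold H83.PN.Dj; infer_instance
instance Inst.Ext (j : ℕ) [hf : UF f] [hg : UF g] [hh : UF h] [hk : UF k] [hl : UF l] :
    UR (fun N v => H83.PN.Ext (f N v) j (g N v) (h N v) (k N v) (l N v)) := by
  unfold H83.PN.Ext; infer_instance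
instance Inst.Kc [hf : UF f] : UR (fun N v => H83.PN.Kc (f N v)) := by
  unfold H83.PN.Kc; infer_instance

theorem UR.ZZ (n : ℕ) : UR (fun _ v => H83.PN.ZZ (v 0) n (v 1)) := by
  have h : ∀ n : ℕ, UR (fun _ v => ∀ j ≤ n, ∀ u ∈ v 1, ∀ r ∈ v 1, ∀ T ∈ v 1, ∀ z ∈ v 1,
      H83.PN.Ext (v 0) j u r T z → H83.PN.Ext (v 1) j u r T z) := by
    intro n
    induction n with
    | zero =>
      have h1 : UR (fun _ v => ∀ u ∈ v 1, ∀ r ∈ v 1, ∀ T ∈ v 1, ∀ z ∈ v 1,
          H83.PN.Ext (v 0) 0 u r T z → H83.PN.Ext (v 1) 0 u r T z) := by infer_instance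
      exact h1.congr fun N _ v _ => ⟨fun H => H 0 le_rfl, fun H j hj => by
        obtain rfl : j = 0 := by omega
        exact H⟩
    | succ n ih =>
      have h1 : UR (fun _ v => ∀ u ∈ v 1, ∀ r ∈ v 1, ∀ T ∈ v 1, ∀ z ∈ v 1,
          H83.PN.Ext (v 0) (n + 1) u r T z → H83.PN.Ext (v 1) (n + 1) u r T z) := by
        infer_instance
      refine (UD.and ih h1).congr fun N _ v _ => ?_
      constructor
      · intro H
        exact ⟨fun j hj => H j (by omega), H (n + 1) le_rfl⟩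
      · rintro ⟨H, H'⟩ j hj
        rcases Nat.lt_or_ge j (n + 1) with h2 | h2
        · exact H j (by omega)
        · obtain rfl : j = n + 1 := by omega
          exact H'
  unfold H83.PN.ZZ
  exact UD.and (by infer_instance) (h n)

instance Inst.ZZ (n : ℕ) [hf : UF f] [hg : UF g] :
    UR (fun N v => H83.PN.ZZ (f N v) n (g N v)) :=
  UR.comp2 (R := fun _ a b => H83.PN.ZZ a n b) (UR.ZZ n) hf hg

end H83.PN
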