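import Pool.Agent.H83.PN.WCtb
import Pool.Agent.H83.AC.HBrU

set_option autoImplicit false

/-!
# Module DefsI: the definitions are uniformly definable
-/

namespace H83.PN

open ZFSet H83.AC

variable {f g h k l : Set ZFSet.{0} → (ℕ → ZFSet.{0}) → ZFSet.{0}}

theorem UF.app2 {F : Set ZFSet.{0} → ZFSet.{0} → (ℕ → ZFSet.{0}) → ZFSet.{0}}
    (hF : UF (fun N v => F N (v 0) (sh v))) (hg : UF g) :
    UF (fun N v => F N (g N v) v) := UF.subst hF hg

instance Inst.Cn [hf : UF f] :
    UF (fun N v => H83.PN.Cn (f N v)) := by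
  unfold H83.PN.Cn; infer_instance

instance Inst.Dn [hf : UF f] [hg : UF g] :
    UR (fun N v => H83.PN.Dn (f N v) (g N v)) := by
  unfold H83.PN.Dn; infer_instance

theorem UR.Fit {F : Set ZFSet.{0} → ZFSet.{0} → (ℕ → ZFSet.{0}) → ZFSet.{0}}
    (hF : UF (fun N v => F N (v 0) (sh v))) (hg : UF g) :
    UR (fun N v => H83.PN.Fit (fun x => F N x v) (g N v)) := by
  unfold H83.PN.Fit
  refine UR.ball (R := fun N t v => ZFSet.pair (H83.AC.snd (H83.AC.fst t)) (H83.AC.snd t) ∈
    F N (H83.AC.fst (H83.AC.fst t)) v) hg ?_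
  have h1 : UF (fun N v => F N (v 0) (sh (sh v))) := hF.ren (fun n => if n = 0 then 0 else n + 1)
  have h2 : UF (fun N v => F N (H83.AC.fst (H83.AC.fst (v 0))) (sh v)) :=
    UF.subst (F := fun N x v => F N x (sh v)) h1 (by infer_instance)
  exact UR.mem (by infer_instance) h2

instance Inst.Fit {F : Set ZFSet.{0} → ZFSet.{0} → (ℕ → ZFSet.{0}) → ZFSet.{0}}
    [hF : UF (fun N v => F N (v 0) (sh v))] [hg : UF g] :
    UR (fun N v => H83.PN.Fit (fun x => F N x v) (g N v)) := UR.Fit hF hg

instance Inst.GnC {F : Set ZFSet.{0} → ZFSet.{0} → (ℕ → ZFSet.{0}) → ZFSet.{0}}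
    [hf : UF f] [hg : UF g] [hF : UF (fun N v => F N (v 0) (sh v))] :
    UR (fun N v => H83.PN.GnC (f N v) (g N v) (fun x => F N x v)) := by
  unfold H83.PN.GnC
  have h1 : UF (fun N v => F N (v 0) (sh (sh (sh v)))) :=
    hF.ren (fun n => if n = 0 then 0 else n + 2)
  have h2 : UR (fun N v => H83.PN.Fit (fun x => F N x (sh (sh v))) (v 0)) :=
    UR.Fit (F := fun N x v => F N x (sh (sh v))) h1 (by infer_instance)
  infer_instance

instance Inst.Blk [hf : UF f] [hg : UF g] [hh : UF h] :
    UR (fun N v => H83.PN.Blk (f N v) (g N v) (h N v)) := by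
  unfold H83.PN.Blk; infer_instance

instance Inst.uW [hf : UF f] [hg : UF g] :
    UF (fun N v => H83.PN.uW (f N v) (g N v)) := by
  unfold H83.PN.uW; infer_instance

instance Inst.uF [hf : UF f] [hg : UF g] :
    UF (fun N v => H83.PN.uF (f N v) (g N v)) := by
  unfold H83.PN.uF; infer_instance

instance Inst.ws [hf : UF f] :
    UF (fun N v => H83.PN.ws (f N v)) := by
  unfold H83.PN.ws; infer_instance

instance Inst.UU [hf : UF f] [hg : UF g] :
    UR (fun N v => H83.PN.UU (f N v) (g N v)) := by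
  unfold H83.PN.UU; infer_instance

instance Inst.vL [hf : UF f] :
    UF (fun N v => H83.PN.vL (f N v)) := by
  unfold H83.PN.vL; infer_instance

instance Inst.vS [hf : UF f] :
    UF (fun N v => H83.PN.vS (f N v)) := by
  unfold H83.PN.vS; infer_instance

instance Inst.vf [hf : UF f] :
    UF (fun N v => H83.PN.vf (f N v)) := by
  unfold H83.PN.vf; infer_instance

instance Inst.Co [hf : UF f] :
    UR (fun N v => H83.PN.Co (f N v)) := by
  unfold H83.PN.Co; infer_instance

instance Inst.rk [hf : UF f] : UF (fun N v => H83.AC.rk (f N v)) := UF.rk hf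

instance Inst.VV [hf : UF f] :
    UR (fun N v => H83.PN.VV (f N v)) := by
  unfold H83.PN.VV; infer_instance

instance Inst.VLe [hf : UF f] [hg : UF g] :
    UR (fun N v => H83.PN.VLe (f N v) (g N v)) := by
  unfold H83.PN.VLe; infer_instance

instance Inst.QQ [hf : UF f] [hg : UF g] :
    UR (fun N v => H83.PN.QQ (f N v) (g N v)) := by
  unfold H83.PN.QQ; infer_instance

instance Inst.rl [hf : UF f] [hg : UF g] [hh : UF h] :
    UF (fun N v => H83.PN.rl (f N v) (g N v) (h N v)) := by
  unfold H83.PN.rl; infer_instance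

instance Inst.QLe [hf : UF f] [hg : UF g] [hh : UF h] [hk : UF k] :
    UR (fun N v => H83.PN.QLe (f N v) (g N v) (h N v) (k N v)) := by
  unfold H83.PN.QLe; infer_instance

instance Inst.QP [hf : UF f] :
    UF (fun N v => H83.PN.QP (f N v)) := by
  unfold H83.PN.QP; infer_instance

instance Inst.QO [hf : UF f] [hg : UF g] :
    UF (fun N v => H83.PN.QO (f N v) (g N v)) := by
  unfold H83.PN.QO; infer_instance

instance Inst.eQ : UF (fun _ _ => H83.PN.eQ) := by
  unfold H83.PN.eQ; infer_instance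

instance Inst.Sq [hf : UF f] [hg : UF g] :
    UF (fun N v => H83.PN.Sq (f N v) (g N v)) := by
  unfold H83.PN.Sq; infer_instance

instance Inst.csup [hf : UF f] :
    UF (fun N v => H83.PN.csup (f N v)) := by
  unfold H83.PN.csup; infer_instance

instance Inst.PU [hf : UF f] [hg : UF g] :
    UF (fun N v => H83.PN.PU (f N v) (g N v)) := by
  unfold H83.PN.PU; infer_instance

instance Inst.OU [hf : UF f] [hg : UF g] :
    UF (fun N v => H83.PN.OU (f N v) (g N v)) := by
  unfold H83.PN.OU; infer_instance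

instance Inst.eC : UF (fun _ _ => H83.PN.eC) := by
  unfold H83.PN.eC; infer_instance

instance Inst.Bij [hf : UF f] :
    UR (fun N v => H83.PN.Bij (f N v)) := by
  unfold H83.PN.Bij; infer_instance

instance Inst.ColP [hf : UF f] :
    UR (fun N v => H83.PN.ColP (f N v)) := by
  unfold H83.PN.ColP; infer_instance

instance Inst.apc [hf : UF f] [hg : UF g] :
    UF (fun N v => H83.PN.apc (f N v) (g N v)) := by
  unfold H83.PN.apc; infer_instance

instance Inst.rn3 [hf : UF f] [hg : UF g] :
    UF (fun N v => H83.PN.rn3 (f N v) (g N v)) := by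
  unfold H83.PN.rn3; infer_instance

instance Inst.rn2 [hf : UF f] [hg : UF g] :
    UF (fun N v => H83.PN.rn2 (f N v) (g N v)) := by
  unfold H83.PN.rn2; infer_instance

instance Inst.acV [hf : UF f] [hg : UF g] :
    UF (fun N v => H83.PN.acV (f N v) (g N v)) := by
  unfold H83.PN.acV; infer_instance

instance Inst.acQ [hf : UF f] [hg : UF g] :
    UF (fun N v => H83.PN.acQ (f N v) (g N v)) := by
  unfold H83.PN.acQ; infer_instance

instance Inst.acP [hf : UF f] [hg : UF g] :
    UF (fun N v => H83.PN.acP (f N v) (g N v)) := by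
  unfold H83.PN.acP; infer_instance

instance Inst.acE [hf : UF f] [hg : UF g] :
    UF (fun N v => H83.PN.acE (f N v) (g N v)) := by
  unfold H83.PN.acE; infer_instance

instance Inst.AG [hf : UF f] :
    UF (fun N v => H83.PN.AG (f N v)) := by
  unfold H83.PN.AG; infer_instance

instance Inst.AGm [hf : UF f] [hg : UF g] :
    UF (fun N v => H83.PN.AGm (f N v) (g N v)) := by
  unfold H83.PN.AGm; infer_instance

instance Inst.aut [hf : UF f] [hg : UF g] [hh : UF h] :
    UF (fun N v => H83.PN.aut (f N v) (g N v) (h N v)) := by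
  unfold H83.PN.aut; infer_instance

instance Inst.SU [hf : UF f] [hg : UF g] :
    UF (fun N v => H83.PN.SU (f N v) (g N v)) := by
  unfold H83.PN.SU; infer_instance

instance Inst.jn [hf : UF f] [hg : UF g] :
    UF (fun N v => H83.PN.jn (f N v) (g N v)) := by
  unfold H83.PN.jn; infer_instance

instance Inst.Cl0 [hf : UF f] [hg : UF g] :
    UR (fun N v => H83.PN.Cl0 (f N v) (g N v)) := by
  unfold H83.PN.Cl0; infer_instance

theorem UR.Pr (j : ℕ) : UR (fun N v => H83.PN.Pr N j (v 0) (v 1)) := by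
  induction j with
  | zero => unfold H83.PN.Pr; infer_instance
  | succ j ih =>
    have h1 : UR (fun N v => H83.PN.Pr N j (v 1) (H83.PN.jn (v 0) (v 2))) :=
      UR.comp2 ih (UF.var 1) (by infer_instance)
    have h2 : UR (fun N v => ∀ y ∈ N, IsFunc ZFSet.omega ZFSet.omega y →
        ¬ H83.PN.Pr N j (v 0) (H83.PN.jn y (v 1))) := by
      infer_instance
    refine h2.congr fun N _ v _ => ?_
    constructor
    · intro H y hy hf
      exact H y ⟨hy, hf⟩
    · intro H y hy
      exact H y hy.1 hy.2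

instance Inst.Pr (j : ℕ) [hf : UF f] [hg : UF g] :
    UR (fun N v => H83.PN.Pr N j (f N v) (g N v)) := UR.comp2 (UR.Pr j) hf hg

instance Inst.SNm [hf : UF f] [hg : UF g] [hh : UF h] :
    UR (fun N v => H83.PN.SNm (f N v) (g N v) (h N v)) := by
  unfold H83.PN.SNm; infer_instance

instance Inst.RNm [hf : UF f] [hg : UF g] [hh : UF h] [hk : UF k] :
    UR (fun N v => H83.PN.RNm (f N v) (g N v) (h N v) (k N v)) := by
  unfold H83.PN.RNm; infer_instance

instance Inst.jnN [hf : UF f] [hg : UF g] :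
    UF (fun N v => H83.PN.jnN (f N v) (g N v)) := by
  unfold H83.PN.jnN; infer_instance

instance Inst.rU [hf : UF f] :
    UF (fun N v => H83.PN.rU (f N v)) := by
  unfold H83.PN.rU; infer_instance

instance Inst.rV [hf : UF f] :
    UF (fun N v => H83.PN.rV (f N v)) := by
  unfold H83.PN.rV; infer_instance

instance Inst.rQ [hf : UF f] :
    UF (fun N v => H83.PN.rQ (f N v)) := by
  unfold H83.PN.rQ; infer_instance

instance Inst.Gd [hf : UF f] [hg : UF g] [hh : UF h] :
    UR (fun N v => H83.PN.Gd (f N v) (g N v) (h N v)) := by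
  unfold H83.PN.Gd; infer_instance

instance Inst.RLe [hf : UF f] [hg : UF g] :
    UR (fun N v => H83.PN.RLe (f N v) (g N v)) := by
  unfold H83.PN.RLe; infer_instance

end H83.PN
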