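import Pool.Agent.H83.PN.DefsF
import Pool.Agent.H83.AC.HlU

set_option autoImplicit false

/-!
# Definitions: the sequence `U`
-/

namespace H83.PN

open ZFSet H83.AC

variable {f g h k l : Set ZFSet.{0} → (ℕ → ZFSet.{0}) → ZFSet.{0}}

theorem UR_le {R : ℕ → Set ZFSet.{0} → (ℕ → ZFSet.{0}) → Prop} (h : ∀ j, UR (R j)) (n : ℕ) :
    UR (fun N v => ∀ j ≤ n, R j N v) := by
  induction n with
  | zero =>
    exact (h 0).congr fun N _ v _ => ⟨fun H => H 0 le_rfl, fun H j hj => by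
      obtain rfl : j = 0 := by omega
      exact H⟩
  | succ n ih =>
    refine (UD.and ih (h (n + 1))).congr fun N _ v _ => ?_
    constructor
    · intro H
      exact ⟨fun j hj => H j (by omega), H (n + 1) le_rfl⟩
    · rintro ⟨H, H'⟩ j hj
      rcases Nat.lt_or_ge j (n + 1) with h2 | h2
      · exact H j (by omega)
      · obtain rfl : j = n + 1 := by omega
        exact H'

/-- `u'` is a candidate for the extension of `u` of length `rk A` -/
def Cand (n : ℕ) (A u u' : ZFSet.{0}) : Prop :=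
  UU A u' ∧ dom u' = rk A ∧ u ⊆ u' ∧ (∀ γ ∈ rk A, res u' γ ∈ A) ∧
  ∀ j ≤ n, ∀ r ∈ A, ∀ T ∈ A, ∀ z ∈ A, ∃ γ ∈ rk A,
    Dj A j (res u' γ) r T z ∨ ¬ Ext A j (res u' γ) r T z

instance Inst.Cand (n : ℕ) [hf : UF f] [hg : UF g] [hh : UF h] :
    UR (fun N v => H83.PN.Cand n (f N v) (g N v) (h N v)) := by
  have h1 : UR (fun _ v => H83.PN.Cand n (v 0) (v 1) (v 2)) := by
    unfold H83.PN.Cand
    have h2 := UR_le (R := fun j _ v => ∀ r ∈ v 0, ∀ T ∈ v 0, ∀ z ∈ v 0, ∃ γ ∈ H83.AC.rk (v 0),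
      H83.PN.Dj (v 0) j (H83.PN.res (v 2) γ) r T z ∨
        ¬ H83.PN.Ext (v 0) j (H83.PN.res (v 2) γ) r T z) (fun j => by infer_instance) n
    exact UD.and (by infer_instance) (UD.and (by infer_instance) (UD.and (by infer_instance)
      (UD.and (by infer_instance) h2)))
  exact UR.comp3 (R := fun _ a b c => H83.PN.Cand n a b c) h1 hf hg hh

/-- the least model containing `x` in which `x` is hereditarily countable, if it is in `N` -/
noncomputable def nxt (N : Set ZFSet.{0}) (x : ZFSet.{0}) : ZFSet.{0} := the N (fun W => Nx x W)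

instance Inst.nxt [hf : UF f] : UF (fun N v => H83.PN.nxt N (f N v)) := by
  unfold H83.PN.nxt; infer_instance

/-- the elements of `A` which are in `Z`, computed in `A` -/
noncomputable def Zk (n : ℕ) (A : ZFSet.{0}) : ZFSet.{0} := ZFSet.sep (fun B => ZZ A n B) A

instance Inst.Zk (n : ℕ) [hf : UF f] : UF (fun N v => H83.PN.Zk n (f N v)) := by
  unfold H83.PN.Zk; infer_instance

open Classical in
/-- one step of the recursion for `UK` -/
noncomputable def UKG (N : Set ZFSet.{0}) (n : ℕ) (A p : ZFSet.{0}) : ZFSet.{0} :=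
  if ⋃₀ (Zk n A) = A then ⋃₀ (img (fun B => app p B) (Zk n A))
  else lst (wh (nxt N A)) (ZFSet.sep (fun u => Cand n A (⋃₀ (img (fun B => app p B) (Zk n A))) u)
    (nxt N A))

theorem UF.UKG (n : ℕ) : UF (fun N v => H83.PN.UKG N n (v 0) (v 1)) := by
  unfold H83.PN.UKG; infer_instance

/-- the sequence of length `rk A` -/
noncomputable def UK (N : Set ZFSet.{0}) (n : ℕ) (A : ZFSet.{0}) : ZFSet.{0} := hl (UKG N n) A

instance Inst.UK (n : ℕ) [hf : UF f] : UF (fun N v => H83.PN.UK N n (f N v)) := by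
  have h1 : UF (fun N w => H83.AC.hl ((fun N (_ : ℕ → ZFSet.{0}) => H83.PN.UKG N n) N (sh w))
    (w 0)) := UF.hl (G := fun N (_ : ℕ → ZFSet.{0}) => H83.PN.UKG N n) (UF.UKG n)
  exact UF.comp1 (F := fun N x => H83.PN.UK N n x) h1 hf

/-- the sequence `U` -/
noncomputable def UM (M : Set ZFSet.{0}) (n : ℕ) (H : ZFSet.{0}) : ZFSet.{0} :=
  ⋃₀ (img (fun A => UK M n A) (ZFSet.sep (fun A => ZZ H n A) H))

instance Inst.UM (n : ℕ) [hf : UF f] : UF (fun N v => H83.PN.UM N n (f N v)) := by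
  unfold H83.PN.UM; infer_instance

/-- the properties of the sequence `U` -/
structure UOK (M : Set ZFSet.{0}) (H : ZFSet.{0}) (n : ℕ) (U : ZFSet.{0}) : Prop where
  mem : U ∈ M
  dom : dom U = rk H
  fgr : U = fgr (fun γ => app U γ) (H83.AC.dom U)
  seg : ∀ γ ∈ H83.AC.dom U, UU H (res U γ) ∧ res U γ ∈ H ∧ H83.AC.dom (res U γ) = γ
  comp : ∀ j ≤ n, ∀ r ∈ H, ∀ T ∈ H, ∀ z ∈ H, ∃ γ ∈ H83.AC.dom U,
    Dj H j (res U γ) r T z ∨ ¬ Ext H j (res U γ) r T z
  good : ∀ x ∈ H, ∃ γ ∈ H83.AC.dom U, ∃ W ∈ H, Nx (ws (res U γ)) W ∧ res U γ ∈ W ∧ x ∈ W ∧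
    rk x ∈ γ

end H83.PN
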