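import Pool.Agent.H83.PN.TWd
import Pool.Agent.H83.AC.WoU

set_option autoImplicit false

/-!
# Module LSa: Skolem hulls with all formulas

Terms are elements of `HF`: `tg 0 h` denotes `h`, `tg 1 ∅` denotes `b`, `tg 2 (pair c s)` denotes the least
counterexample for the first variable of the formula with code `c`, where `s` is a finite set of pairs
(index, term) for the other variables. Compare with `hG`, `hull` in `AC/Defs4.lean` and with
`AC/HullA.lean`, `AC/HullU.lean`. `hz_eq`: `hl_eq`. In `hz_sk` the terms `snd p`, `p ∈ s`, are in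
`tc (tg 2 (pair c s))`. `UF.hz`: `UF.hl`, `UR.SatZ` (add the condition that the assignment is in `Asg A`:
if it is not, decide separately; since `SatZ A c s'` for `s' ∉ Asg A` is not covered by `UR.SatZ`, the
definition below contains the condition).
`hz_mem`: `lst_mem`, `lst_empty`; `HF ⊆ A`.
-/

namespace H83.PN

open ZFSet H83.AC

variable {f g h k l : Set ZFSet.{0} → (ℕ → ZFSet.{0}) → ZFSet.{0}}

/-- evaluation of a finite set of pairs (index, term) -/
noncomputable def evs (f s : ZFSet.{0}) : ZFSet.{0} := img (fun p => pair (fst p) (app f (snd p))) s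

open Classical in
/-- one step of the recursion for the hull -/
noncomputable def hzG (A w b t f : ZFSet.{0}) : ZFSet.{0} :=
  if fst t = nz 0 then snd t
  else if fst t = nz 1 then b
  else lst w (ZFSet.sep (fun a => acons a (evs f (snd (snd t))) ∈ Asg A ∧
    ¬ SatZ A (fst (snd t)) (acons a (evs f (snd (snd t))))) A)

/-- the value of the term `t` -/
noncomputable def hz (A w b t : ZFSet.{0}) : ZFSet.{0} := hl (hzG A w b) t

/-- the hull -/
noncomputable def hzX (A w b : ZFSet.{0}) : ZFSet.{0} := img (fun t => hz A w b t) HF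

private theorem LSa_nz {m n : ℕ} (h : m ≠ n) : nz m ≠ nz n := fun e => h (nz_inj.1 e)

private theorem LSa_comp {u x y : ZFSet.{0}} (h : pair x y ∈ tc u) : x ∈ tc u ∧ y ∈ tc u := by
  have h1 : ({x, y} : ZFSet) ∈ tc u := by
    refine tc_tr h ?_
    rw [pair]; simp
  exact ⟨tc_tr h1 (by simp), tc_tr h1 (by simp)⟩

private theorem LSa_comp' (x y : ZFSet.{0}) : x ∈ tc (pair x y) ∧ y ∈ tc (pair x y) := by
  have h1 : ({x, y} : ZFSet) ∈ tc (pair x y) := by
    refine sub_tc _ ?_
    rw [pair]; simp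
  exact ⟨tc_tr h1 (by simp), tc_tr h1 (by simp)⟩

private theorem LSa_empty_tc {u : ZFSet.{0}} (h : u ≠ ∅) : ∅ ∈ tc u := by
  induction u using ZFSet.inductionOn with
  | _ u ih =>
    have : ∃ y, y ∈ u := by
      by_contra hne
      apply h
      rw [ZFSet.eq_empty]
      intro y hy
      exact hne ⟨y, hy⟩
    obtain ⟨y, hy⟩ := this
    by_cases hy0 : y = ∅
    · rw [← hy0]; exact sub_tc u hy
    · exact tc_mono hy (ih y hy hy0)

private theorem LSa_ne {u s : ZFSet.{0}} (h : s ∈ tc u) : u ≠ ∅ := by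
  rintro rfl
  have h1 : tc (∅ : ZFSet) ⊆ ∅ :=
    tc_min (fun _ h => h) (fun y hy => absurd hy (ZFSet.notMem_empty y))
  exact ZFSet.notMem_empty s (h1 h)

private theorem LSa_snd {u s : ZFSet.{0}} (h : s ∈ tc u) : snd s ∈ tc u := by
  by_cases hs : ∃ x y, s = pair x y
  · obtain ⟨x, y, rfl⟩ := hs
    rw [snd_pair]
    exact (LSa_comp h).2
  · have h2 : snd s = ∅ := by
      rw [ZFSet.eq_empty]
      intro w hw
      rw [snd, mem_sUnion] at hw
      obtain ⟨z, hz, -⟩ := hw
      obtain ⟨-, y, -, e⟩ := mem_sep.1 hz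
      exact hs ⟨_, _, e⟩
    rw [h2]
    exact LSa_empty_tc (LSa_ne h)

private theorem LSa_eq (A w b t : ZFSet.{0}) :
    hz A w b t = hzG A w b t (fgr (hz A w b) (tc t)) := by
  rw [hz, hl_eq]
  rfl

private theorem LSa_lst {A w S : ZFSet.{0}} (hA : HF ⊆ A) (hw : IsWO w A) (hS : S ⊆ A) :
    lst w S ∈ A := by
  by_cases h : S = ∅
  · rw [h, lst_empty]
    exact hA HF_empty
  · exact hS (lst_mem hw hS h)

theorem hz_base (A w b h : ZFSet.{0}) : hz A w b (tg 0 h) = h := by
  rw [LSa_eq, hzG, tg, fst_pair, if_pos rfl, snd_pair]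

theorem hz_b (A w b : ZFSet.{0}) : hz A w b (tg 1 ∅) = b := by
  rw [LSa_eq, hzG, tg, fst_pair, if_neg (LSa_nz (by norm_num)), if_pos rfl]

theorem hz_sk (A w b c s : ZFSet.{0}) : hz A w b (tg 2 (pair c s)) =
    lst w (ZFSet.sep (fun a => acons a (img (fun p => pair (fst p) (hz A w b (snd p))) s) ∈ Asg A ∧
      ¬ SatZ A c (acons a (img (fun p => pair (fst p) (hz A w b (snd p))) s))) A) := by
  have ht : s ∈ tc (tg 2 (pair c s)) := by
    rw [tg]
    exact (LSa_comp (LSa_comp' _ _).2).2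
  have he : evs (fgr (hz A w b) (tc (tg 2 (pair c s)))) s =
      img (fun p => pair (fst p) (hz A w b (snd p))) s := by
    unfold evs
    refine img_congr fun p hp => ?_
    rw [app_fgr (LSa_snd (tc_tr ht hp))]
  rw [LSa_eq, hzG]
  have h0 : fst (tg 2 (pair c s)) = nz 2 := by rw [tg, fst_pair]
  have h1 : fst (snd (tg 2 (pair c s))) = c := by rw [tg, snd_pair, fst_pair]
  have h2 : snd (snd (tg 2 (pair c s))) = s := by rw [tg, snd_pair, snd_pair]
  rw [h0, h1, h2, if_neg (LSa_nz (by norm_num)), if_neg (LSa_nz (by norm_num)), he]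

theorem hz_mem {A w b t : ZFSet.{0}} (hA : HF ⊆ A) (hb : b ∈ A) (hw : IsWO w A) (ht : t ∈ HF) :
    hz A w b t ∈ A := by
  rw [LSa_eq, hzG]
  split_ifs
  · exact hA (snd_HF ht)
  · exact hb
  · exact LSa_lst hA hw (fun x hx => (mem_sep.1 hx).1)

private theorem LSa_evs (hf : UF f) (hg : UF g) : UF (fun N v => evs (f N v) (g N v)) := by
  unfold evs
  infer_instance

private theorem LSa_hzG (hf : UF f) (hg : UF g) (hh : UF h) (hk : UF k) (hl : UF l) :
    UF (fun N v => hzG (f N v) (g N v) (h N v) (k N v) (l N v)) := by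
  have e1 : UF (fun N v => evs (l N v) (snd (snd (k N v)))) :=
    LSa_evs hl (UF.snd (UF.snd hk))
  have e2 : UF (fun N v => acons (v 0) (evs (l N (sh v)) (snd (snd (k N (sh v)))))) :=
    Inst.acons (hf := UF.var 0) (hg := e1.shift)
  have e3 : UR (fun N v => acons (v 0) (evs (l N (sh v)) (snd (snd (k N (sh v))))) ∈
      Asg (f N (sh v)) ∧ H83.PN.SatZ (f N (sh v)) (fst (snd (k N (sh v))))
        (acons (v 0) (evs (l N (sh v)) (snd (snd (k N (sh v))))))) :=
    UR.SatZ hf.shift (UF.fst (UF.snd hk)).shift e2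
  have e4 : UR (fun N v => acons (v 0) (evs (l N (sh v)) (snd (snd (k N (sh v))))) ∈
      Asg (f N (sh v))) := UR.mem e2 (Inst.Asg (hf := hf.shift))
  have e5 : UR (fun N v => acons (v 0) (evs (l N (sh v)) (snd (snd (k N (sh v))))) ∈
      Asg (f N (sh v)) ∧ ¬ H83.PN.SatZ (f N (sh v)) (fst (snd (k N (sh v))))
        (acons (v 0) (evs (l N (sh v)) (snd (snd (k N (sh v))))))) := by
    refine (e4.and e3.not).congr fun N _ v _ => ?_
    constructor
    · rintro ⟨a, b⟩
      exact ⟨a, fun c => b c.2⟩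
    · rintro ⟨a, b⟩
      exact ⟨a, fun c => b ⟨a, c⟩⟩
  have e6 : UF (fun N v => ZFSet.sep (fun a => acons a (evs (l N v) (snd (snd (k N v)))) ∈
      Asg (f N v) ∧ ¬ H83.PN.SatZ (f N v) (fst (snd (k N v)))
        (acons a (evs (l N v) (snd (snd (k N v)))))) (f N v)) :=
    UF.sep (R := fun N a v => acons a (evs (l N v) (snd (snd (k N v)))) ∈
      Asg (f N v) ∧ ¬ H83.PN.SatZ (f N v) (fst (snd (k N v)))
        (acons a (evs (l N v) (snd (snd (k N v)))))) hf e5
  unfold hzG
  exact UF.ite (UR.eq (UF.fst hk) (UF.nz 0)) (UF.snd hk)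
    (UF.ite (UR.eq (UF.fst hk) (UF.nz 1)) hh (UF.lst hg e6))

theorem UF.hz (hf : UF f) (hg : UF g) (hh : UF h) (hk : UF k) :
    UF (fun N v => H83.PN.hz (f N v) (g N v) (h N v) (k N v)) := by
  have h1 := UF.hl (G := fun _ v t x => hzG (v 0) (v 1) (v 2) t x)
    (LSa_hzG (UF.var 2) (UF.var 3) (UF.var 4) (UF.var 0) (UF.var 1))
  exact UF.comp4 (F := fun _ t a b c => H83.PN.hz a b c t) h1 hk hf hg hh

instance Inst.hzX [hf : UF f] [hg : UF g] [hh : UF h] :
    UF (fun N v => H83.PN.hzX (f N v) (g N v) (h N v)) := by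
  unfold H83.PN.hzX
  have h1 : UF (fun N v => H83.PN.hz (f N (sh v)) (g N (sh v)) (h N (sh v)) (v 0)) :=
    UF.hz hf.shift hg.shift hh.shift (UF.var 0)
  exact UF.img (F := fun N t v => H83.PN.hz (f N v) (g N v) (h N v) t) UF.HF h1

end H83.PN
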