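import Pool.Agent.H83.PN.TFin

set_option autoImplicit false

/-!
# Module TAsg: finite assignments

`mem_Asg`: `mem_sep`, `mem_Fs`. `asv_mem`: `app s (nz i)` is a value of `s` or `∅`.
`asv_acons`: `app` of the new set at `∅` is `x`, at `nz (i+1) = sc (nz i)` it is `app s (nz i)` (if `i` is
not in the domain of `s` both are `∅`; `sc` is injective on natural numbers: `nz_inj`).
`exists_asg`: `s = {pair (nz i) (v i) : i < n}`.
-/

namespace H83.PN

open ZFSet H83.AC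

variable {f g h k l : Set ZFSet.{0} → (ℕ → ZFSet.{0}) → ZFSet.{0}}

private theorem TAsg_app {s x y : ZFSet.{0}} (h : Fun s) (hp : pair x y ∈ s) : app s x = y := by
  refine app_eq hp fun z hz => ?_
  have h1 := h.2 _ hz _ hp (by rw [fst_pair, fst_pair])
  exact (pair_inj.1 h1).2

private theorem TAsg_none {s x : ZFSet.{0}} (h : ∀ y, pair x y ∉ s) : app s x = ∅ := by
  rw [ZFSet.eq_empty]
  intro z hz
  unfold H83.AC.app at hz
  rw [mem_sUnion] at hz
  obtain ⟨y, hy, _⟩ := hz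
  rw [mem_sep] at hy
  exact h y hy.2

private theorem TAsg_sc (n : ℕ) : sc (nz n) = nz (n + 1) := rfl

private theorem TAsg_mem {x s t : ZFSet.{0}} : t ∈ acons x s ↔
    t = pair ∅ x ∨ ∃ y ∈ s, pair (sc (fst y)) (snd y) = t := by
  unfold H83.PN.acons
  rw [mem_insert_iff, mem_img]

private theorem TAsg_nat {K s t : ZFSet.{0}} (hs : s ⊆ ZFSet.prod omega K) (ht : t ∈ s) :
    ∃ n : ℕ, ∃ b ∈ K, t = pair (nz n) b := by
  have h := hs ht
  rw [mem_prod] at h
  obtain ⟨a, ha, b, hb, e⟩ := h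
  obtain ⟨n, rfl⟩ := mem_omega.1 ha
  exact ⟨n, b, hb, e⟩

private theorem TAsg_fun {K x s : ZFSet.{0}} (hs : s ⊆ ZFSet.prod omega K) (hf : Fun s) :
    Fun (acons x s) := by
  refine ⟨fun t ht => ?_, fun t ht t' ht' he => ?_⟩
  · rcases TAsg_mem.1 ht with rfl | ⟨y, _, rfl⟩
    · rw [fst_pair, snd_pair]
    · rw [fst_pair, snd_pair]
  · rcases TAsg_mem.1 ht with rfl | ⟨y, hy, rfl⟩
    · rcases TAsg_mem.1 ht' with rfl | ⟨y', hy', rfl⟩
      · rfl
      · obtain ⟨n, b, _, rfl⟩ := TAsg_nat hs hy'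
        rw [fst_pair, fst_pair, fst_pair, TAsg_sc] at he
        exact absurd (nz_inj.1 (show nz 0 = nz (n + 1) from he)) (by omega)
    · obtain ⟨n, b, _, rfl⟩ := TAsg_nat hs hy
      rcases TAsg_mem.1 ht' with rfl | ⟨y', hy', rfl⟩
      · rw [fst_pair, fst_pair, fst_pair, TAsg_sc] at he
        exact absurd (nz_inj.1 (show nz (n + 1) = nz 0 from he)) (by omega)
      · obtain ⟨n', b', _, rfl⟩ := TAsg_nat hs hy'
        rw [fst_pair, fst_pair, fst_pair, fst_pair, TAsg_sc, TAsg_sc] at he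
        have hn : n = n' := by
          have := nz_inj.1 he
          omega
        subst hn
        have := hf.2 _ hy _ hy' (by rw [fst_pair, fst_pair])
        rw [this]

theorem mem_Asg {K s : ZFSet.{0}} : s ∈ Asg K ↔ s ⊆ ZFSet.prod omega K ∧ Fnt s ∧ Fun s := by
  unfold H83.PN.Asg
  rw [mem_sep, mem_Fs, and_assoc]

instance Inst.Asg [hf : UF f] : UF (fun N v => H83.PN.Asg (f N v)) := by
  unfold H83.PN.Asg; infer_instance

instance Inst.acons [hf : UF f] [hg : UF g] :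
    UF (fun N v => H83.PN.acons (f N v) (g N v)) := by
  unfold H83.PN.acons; infer_instance

theorem asv_mem {K s : ZFSet.{0}} (hK : ∅ ∈ K) (hs : s ∈ Asg K) (i : ℕ) : asv s i ∈ K := by
  obtain ⟨hsub, _, hf⟩ := mem_Asg.1 hs
  unfold H83.PN.asv
  by_cases h : ∃ y, pair (nz i) y ∈ s
  · obtain ⟨y, hy⟩ := h
    rw [TAsg_app hf hy]
    exact (pair_mem_prod.1 (hsub hy)).2
  · push Not at h
    rw [TAsg_none h]
    exact hK

theorem acons_mem {K x s : ZFSet.{0}} (hx : x ∈ K) (hs : s ∈ Asg K) : acons x s ∈ Asg K := by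
  obtain ⟨hsub, hfin, hf⟩ := mem_Asg.1 hs
  refine mem_Asg.2 ⟨fun t ht => ?_, Fnt_insert (Fnt_img hfin), TAsg_fun hsub hf⟩
  rcases TAsg_mem.1 ht with rfl | ⟨y, hy, rfl⟩
  · exact pair_mem_prod.2 ⟨omega_zero, hx⟩
  · obtain ⟨n, b, hb, rfl⟩ := TAsg_nat hsub hy
    rw [fst_pair, snd_pair, TAsg_sc]
    exact pair_mem_prod.2 ⟨nz_mem_omega _, hb⟩

theorem asv_acons {K x s : ZFSet.{0}} (hs : s ∈ Asg K) : asv (acons x s) = cons x (asv s) := by
  obtain ⟨hsub, _, hf⟩ := mem_Asg.1 hs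
  have hF : Fun (acons x s) := TAsg_fun hsub hf
  funext i
  cases i with
  | zero =>
    rw [cons_zero]
    exact TAsg_app hF (TAsg_mem.2 (Or.inl rfl))
  | succ i =>
    rw [cons_succ]
    unfold H83.PN.asv
    by_cases h : ∃ y, pair (nz i) y ∈ s
    · obtain ⟨y, hy⟩ := h
      rw [TAsg_app hf hy]
      refine TAsg_app hF (TAsg_mem.2 (Or.inr ⟨_, hy, ?_⟩))
      rw [fst_pair, snd_pair, TAsg_sc]
    · push Not at h
      rw [TAsg_none h]
      refine TAsg_none fun y hy => ?_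
      rcases TAsg_mem.1 hy with e | ⟨t, ht, e⟩
      · exact absurd (nz_inj.1 (show nz (i + 1) = nz 0 from (pair_inj.1 e).1)) (by omega)
      · obtain ⟨n, b, _, rfl⟩ := TAsg_nat hsub ht
        rw [fst_pair, snd_pair, TAsg_sc] at e
        have hn : n + 1 = i + 1 := nz_inj.1 (pair_inj.1 e).1
        have hn' : n = i := by omega
        subst hn'
        exact h b ht

theorem exists_asg {K : ZFSet.{0}} (n : ℕ) (v : ℕ → ZFSet.{0}) (hv : ∀ i, v i ∈ K) :
    ∃ s ∈ Asg K, ∀ i < n, asv s i = v i := by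
  have hmem : ∀ t, t ∈ ZFSet.range (fun i : Fin n => pair (nz (i : ℕ)) (v i)) ↔
      ∃ i : Fin n, pair (nz (i : ℕ)) (v i) = t := by
    intro t
    rw [ZFSet.mem_range]
  have hf : Fun (ZFSet.range (fun i : Fin n => pair (nz (i : ℕ)) (v i))) := by
    refine ⟨fun t ht => ?_, fun t ht t' ht' he => ?_⟩
    · obtain ⟨i, rfl⟩ := (hmem t).1 ht
      rw [fst_pair, snd_pair]
    · obtain ⟨i, rfl⟩ := (hmem t).1 ht
      obtain ⟨j, rfl⟩ := (hmem t').1 ht'
      rw [fst_pair, fst_pair] at he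
      have hij : i = j := Fin.ext (nz_inj.1 he)
      rw [hij]
  refine ⟨_, mem_Asg.2 ⟨fun t ht => ?_, ?_, hf⟩, fun i hi => ?_⟩
  · obtain ⟨i, rfl⟩ := (hmem t).1 ht
    exact pair_mem_prod.2 ⟨nz_mem_omega _, hv _⟩
  · refine (Set.finite_range (fun i : Fin n => pair (nz (i : ℕ)) (v i))).subset ?_
    intro t ht
    exact (hmem t).1 ht
  · exact TAsg_app hf ((hmem _).2 ⟨⟨i, hi⟩, rfl⟩)

theorem Asg_HF : Asg HF ⊆ HF := by
  intro s hs
  obtain ⟨hsub, hfin, _⟩ := mem_Asg.1 hs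
  refine HF_of_finite (fun t ht => ?_) hfin
  obtain ⟨n, b, hb, rfl⟩ := TAsg_nat hsub ht
  exact HF_pair (HF_nz n) hb

end H83.PN
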