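import Pool.Agent.H83.PN.TCode
import Pool.Agent.H83.PN.TAsg

set_option autoImplicit false

/-!
# Module TSat: satisfaction of coded formulas is uniformly definable

Let `R K c = sep (fun s => SatZ K c s) (Asg K)`. Recursion along the transitive closure (`UF.hl`): for
`c ∈ FC` one has `R K c = G K c (fgr (R K) (tc c))` where `G K c f` is: `∅` if `fst c = nz 0`;
`{s ∈ Asg K : app s (fst (snd c)) = app s (snd (snd c))}` if `fst c = nz 1`; the same with `∈` if
`fst c = nz 2`; `{s ∈ Asg K : s ∈ app f (fst (snd c)) → s ∈ app f (snd (snd c))}` if `fst c = nz 3`;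
`{s ∈ Asg K : ∀ x ∈ K, acons x s ∈ app f (snd c)}` otherwise (`asv_acons`, `acons_mem`, `fcd_tc`).
So `R K c = hl (G K) c` for `c ∈ FC` by induction on the formula, and
`s ∈ Asg K ∧ SatZ K c s ↔ c ∈ FC ∧ s ∈ hl (G K) c`. `UF.hl` with the parameter `K = w 2`, say.
-/

namespace H83.PN

open ZFSet H83.AC

variable {f g h k l : Set ZFSet.{0} → (ℕ → ZFSet.{0}) → ZFSet.{0}}

theorem SatZ_iff {K s : ZFSet.{0}} {φ : Fml} : SatZ K (fcd φ) s ↔ SatIn (cls K) φ (asv s) := by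
  constructor
  · rintro ⟨ψ, h1, h2⟩
    rwa [fcd_inj.1 h1]
  · intro h
    exact ⟨φ, rfl, h⟩

open Classical in
/-- one step of the recursion -/
private noncomputable def TSatG (K c f : ZFSet.{0}) : ZFSet.{0} :=
  if fst c = nz 0 then ∅
  else if fst c = nz 1 then
    ZFSet.sep (fun s => app s (fst (snd c)) = app s (snd (snd c))) (Asg K)
  else if fst c = nz 2 then
    ZFSet.sep (fun s => app s (fst (snd c)) ∈ app s (snd (snd c))) (Asg K)
  else if fst c = nz 3 then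
    ZFSet.sep (fun s => s ∈ app f (fst (snd c)) → s ∈ app f (snd (snd c))) (Asg K)
  else ZFSet.sep (fun s => ∀ x ∈ K, acons x s ∈ app f (snd c)) (Asg K)

private theorem TSatG_uf : UF (fun _ v => TSatG (v 2) (v 0) (v 1)) := by
  unfold TSatG
  infer_instance

private theorem TSat_nz {m n : ℕ} (h : m ≠ n) : nz m ≠ nz n := fun e => h (nz_inj.1 e)

private theorem TSat_mem {K : ZFSet.{0}} (φ : Fml) :
    ∀ s, s ∈ H83.AC.hl (TSatG K) (fcd φ) ↔ s ∈ Asg K ∧ SatIn (cls K) φ (asv s) := by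
  induction φ with
  | bot =>
    intro s
    rw [hl_eq, TSatG, fcd, fst_pair, if_pos rfl]
    constructor
    · intro h
      exact absurd h (notMem_empty _)
    · rintro ⟨-, h⟩
      exact h.elim
  | eq i j =>
    intro s
    rw [hl_eq, TSatG, fcd, fst_pair, if_neg (TSat_nz (by norm_num)), if_pos rfl, mem_sep, snd_pair,
      fst_pair, snd_pair]
    exact Iff.rfl
  | mem i j =>
    intro s
    rw [hl_eq, TSatG, fcd, fst_pair, if_neg (TSat_nz (by norm_num)),
      if_neg (TSat_nz (by norm_num)), if_pos rfl, mem_sep, snd_pair, fst_pair, snd_pair]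
    exact Iff.rfl
  | imp φ ψ h1 h2 =>
    intro s
    rw [hl_eq]
    have e1 := app_fgr (g := H83.AC.hl (TSatG K)) (fcd_tc φ ψ).1
    have e2 := app_fgr (g := H83.AC.hl (TSatG K)) (fcd_tc φ ψ).2.1
    have e0 : fcd (.imp φ ψ) = pair (nz 3) (pair (fcd φ) (fcd ψ)) := rfl
    have e3 : fst (fcd (.imp φ ψ)) = nz 3 := by rw [e0, fst_pair]
    have e4 : fst (snd (fcd (.imp φ ψ))) = fcd φ := by rw [e0, snd_pair, fst_pair]
    have e5 : snd (snd (fcd (.imp φ ψ))) = fcd ψ := by rw [e0, snd_pair, snd_pair]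
    rw [TSatG, e3, e4, e5, if_neg (TSat_nz (by norm_num)), if_neg (TSat_nz (by norm_num)),
      if_neg (TSat_nz (by norm_num)), if_pos rfl, mem_sep, e1, e2, h1, h2]
    constructor
    · rintro ⟨ha, hb⟩
      exact ⟨ha, fun hc => (hb ⟨ha, hc⟩).2⟩
    · rintro ⟨ha, hb⟩
      exact ⟨ha, fun hc => ⟨ha, hb hc.2⟩⟩
  | all φ h1 =>
    intro s
    rw [hl_eq]
    have e1 := app_fgr (g := H83.AC.hl (TSatG K)) (fcd_tc φ φ).2.2
    have e0 : fcd (.all φ) = pair (nz 4) (fcd φ) := rfl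
    have e3 : fst (fcd (.all φ)) = nz 4 := by rw [e0, fst_pair]
    have e4 : snd (fcd (.all φ)) = fcd φ := by rw [e0, snd_pair]
    rw [TSatG, e3, e4, if_neg (TSat_nz (by norm_num)), if_neg (TSat_nz (by norm_num)),
      if_neg (TSat_nz (by norm_num)), if_neg (TSat_nz (by norm_num)), mem_sep, e1]
    constructor
    · rintro ⟨ha, hb⟩
      refine ⟨ha, fun x hx => ?_⟩
      have h2 := ((h1 _).1 (hb x hx)).2
      rwa [asv_acons ha] at h2
    · rintro ⟨ha, hb⟩
      refine ⟨ha, fun x hx => (h1 _).2 ⟨acons_mem hx ha, ?_⟩⟩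
      rw [asv_acons ha]
      exact hb x hx

theorem UR.SatZ (hf : UF f) (hg : UF g) (hh : UF h) :
    UR (fun N v => h N v ∈ Asg (f N v) ∧ H83.PN.SatZ (f N v) (g N v) (h N v)) := by
  have h1 : UF (fun _ w => H83.AC.hl (TSatG (w 1)) (w 0)) := by
    have := UF.hl (G := fun _ v => TSatG (v 0)) TSatG_uf
    exact this
  have h2 : UF (fun N v => H83.AC.hl (TSatG (f N v)) (g N v)) :=
    UF.comp2 (F := fun _ a b => H83.AC.hl (TSatG b) a) h1 hg hf
  have h3 : UR (fun N v => g N v ∈ FC ∧ h N v ∈ H83.AC.hl (TSatG (f N v)) (g N v)) :=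
    (UR.mem hg UF.FC).and (UR.mem hh h2)
  refine h3.congr fun N _ v _ => Iff.symm ?_
  constructor
  · rintro ⟨ha, hb⟩
    obtain ⟨φ, hφ⟩ := mem_FC.1 ha
    rw [hφ] at hb ⊢
    obtain ⟨hc, hd⟩ := (TSat_mem φ _).1 hb
    exact ⟨hc, SatZ_iff.2 hd⟩
  · rintro ⟨ha, φ, hφ, hb⟩
    refine ⟨mem_FC.2 ⟨φ, hφ⟩, ?_⟩
    rw [hφ]
    exact (TSat_mem φ _).2 ⟨ha, hb⟩

end H83.PN
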