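import Pool.Agent.H83.PN.PCDef
import Pool.Agent.H83.PN.DefsU
import Pool.Agent.H83.PN.LSa
import Pool.Agent.H83.PN.TSat

set_option autoImplicit false

/-!
# Definitions for the failure half: definability over `H`, codes of models
-/

namespace H83.PN

open ZFSet H83.AC

variable {f g h k l : Set ZFSet.{0} → (ℕ → ZFSet.{0}) → ZFSet.{0}}

/-! ### Definability over `H` -/

/-- the relations of the class `Π_m` over `H` in normal form -/
def Px (H : ZFSet.{0}) (B : ZFSet.{0} → Prop) : ℕ → ZFSet.{0} → Prop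
  | 0, x => B x
  | m + 1, x => ∀ y ∈ H, ¬ Px H B m (pair x y)

/-- `R` is of the class `Π_m` over `H` -/
def PH (H : ZFSet.{0}) (m : ℕ) (R : ZFSet.{0} → Prop) : Prop :=
  ∃ B : ZFSet.{0} → Prop, UR (fun _ v => B (v 0)) ∧ ∀ x ∈ H, (R x ↔ Px H B m x)

/-! ### Elementarily equivalent sets -/

/-- `K` and `W` satisfy the same formulas, all variables having the value `∅` -/
def Eqv (K W : ZFSet.{0}) : Prop :=
  ∀ φ : Fml, SatIn (cls K) φ (fun _ => ∅) ↔ SatIn (cls W) φ (fun _ => ∅)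

/-- the codes of these formulas -/
noncomputable def Thy (K : ZFSet.{0}) : ZFSet.{0} := ZFSet.sep (fun a => SatZ K a ∅) FC

/-! ### Codes: a real number `c` codes a structure with domain `HF` -/

/-- the relation `E` of the structure -/
def cE (c i j : ZFSet.{0}) : Prop := pair (ci (tg 0 (pair i j))) one ∈ c
/-- the equality relation of the structure -/
def cQ (c i j : ZFSet.{0}) : Prop := pair (ci (tg 1 (pair i j))) one ∈ c
/-- truth of the formula with code `a` for the assignment `s` -/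
def cT (c a s : ZFSet.{0}) : Prop := pair (ci (tg 2 (pair a s))) one ∈ c
/-- the value of the function attached to `c` at `a` is `b` -/
def cS (c a b : ZFSet.{0}) : Prop := pair (ci (tg 3 a)) (ci b) ∈ c

instance Inst.cE [hf : UF f] [hg : UF g] [hh : UF h] :
    UR (fun N v => H83.PN.cE (f N v) (g N v) (h N v)) := by
  unfold H83.PN.cE; infer_instance
instance Inst.cQ [hf : UF f] [hg : UF g] [hh : UF h] :
    UR (fun N v => H83.PN.cQ (f N v) (g N v) (h N v)) := by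
  unfold H83.PN.cQ; infer_instance
instance Inst.cT [hf : UF f] [hg : UF g] [hh : UF h] :
    UR (fun N v => H83.PN.cT (f N v) (g N v) (h N v)) := by
  unfold H83.PN.cT; infer_instance
instance Inst.cS [hf : UF f] [hg : UF g] [hh : UF h] :
    UR (fun N v => H83.PN.cS (f N v) (g N v) (h N v)) := by
  unfold H83.PN.cS; infer_instance

/-- the term for the set coded by `c` -/
noncomputable def tX : ZFSet.{0} := tg 6 ∅

/-- the closed part of the definition of a code -/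
structure Cst (Th c : ZFSet.{0}) : Prop where
  qr : ∀ i ∈ HF, cQ c i i
  qs : ∀ i ∈ HF, ∀ j ∈ HF, cQ c i j → cQ c j i
  el : ∀ i ∈ HF, ∀ j ∈ HF, ∀ l ∈ HF, cE c i j → cQ c i l → cE c l j
  er : ∀ i ∈ HF, ∀ j ∈ HF, ∀ l ∈ HF, cE c i j → cQ c j l → cE c i l
  ex : ∀ i ∈ HF, ∀ j ∈ HF, ∀ b ∈ HF, ¬ cQ c i j → cS c (tg 0 (pair i j)) b →
    ((cE c b i ∧ ¬ cE c b j) ∨ (¬ cE c b i ∧ cE c b j))
  tb : ∀ s ∈ Asg HF, ¬ cT c (fcd .bot) s
  te : ∀ i ∈ omega, ∀ j ∈ omega, ∀ s ∈ Asg HF,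
    (cT c (pair (nz 1) (pair i j)) s ↔ cQ c (app s i) (app s j))
  tm : ∀ i ∈ omega, ∀ j ∈ omega, ∀ s ∈ Asg HF,
    (cT c (pair (nz 2) (pair i j)) s ↔ cE c (app s i) (app s j))
  ti : ∀ a ∈ FC, ∀ b ∈ FC, ∀ s ∈ Asg HF,
    (cT c (pair (nz 3) (pair a b)) s ↔ (cT c a s → cT c b s))
  ta : ∀ a ∈ FC, ∀ s ∈ Asg HF, ∀ x ∈ HF, cT c (pair (nz 4) a) s → cT c a (acons x s)
  tn : ∀ a ∈ FC, ∀ s ∈ Asg HF, ∀ b ∈ HF, ¬ cT c (pair (nz 4) a) s → cS c (tg 1 (pair a s)) b →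
    ¬ cT c a (acons b s)
  ba : ∀ h ∈ HF, ∀ j ∈ HF, (cE c j (tg 0 h) ↔ ∃ h' ∈ h, cQ c j (tg 0 h'))
  b0 : cQ c ∅ (tg 0 ∅)
  th : ∀ a ∈ Th, cT c a ∅

/-- `f` is a descending sequence of the structure -/
def Dsc (f c : ZFSet.{0}) : Prop := ∀ n ∈ omega, ∀ i ∈ omega, ∀ j ∈ omega,
  pair n i ∈ f → pair (sc n) j ∈ f → cE c (app cdg j) (app cdg i)

/-- the structure is well-founded -/
def WFc (N : Set ZFSet.{0}) (c : ZFSet.{0}) : Prop := ∀ f, Real N f → ¬ Dsc f c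

/-- the properties of the model `N` which are used -/
structure Nst (M N : Set ZFSet.{0}) (K H : ZFSet.{0}) : Prop where
  gr : Gr M K H
  tm : TM N
  sub : ∀ x ∈ M, x ∈ N
  rkM : ∀ x ∈ N, rk x ∈ M
  ctb : ∀ x ∈ M, Ctb N x → Ctb M x

/-- `c` codes the model `W`; `F` is the interpretation of the terms -/
structure Cod (N : Set ZFSet.{0}) (H c F W : ZFSet.{0}) : Prop where
  FN : F ∈ N
  WH : W ∈ H
  wd : Wd W
  rg : ∀ z, z ∈ W ↔ ∃ i ∈ HF, app F i = z
  Q : ∀ i ∈ HF, ∀ j ∈ HF, (app F i = app F j ↔ cQ c i j)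
  E : ∀ i ∈ HF, ∀ j ∈ HF, (app F i ∈ app F j ↔ cE c i j)
  ba : ∀ h ∈ HF, app F (tg 0 h) = h
  b0 : app F ∅ = ∅
  sat : ∀ (φ : Fml), ∀ s ∈ Asg HF,
    (cT c (fcd φ) s ↔ SatIn (cls W) φ (fun i => app F (asv s i)))

theorem exists_chiP : ∃ φ : Fml, ∀ N, TM N → ∀ v : ℕ → ZFSet.{0}, (∀ i, v i ∈ N) →
    (v 1 = pair (v 0) (snd (v 1)) ↔ SatIn N φ v) := by
  have h : UR (fun _ v => v 1 = pair (v 0) (snd (v 1))) := by infer_instance
  obtain ⟨φ, hφ⟩ := h.out
  refine ⟨φ, fun N hN v hv => ?_⟩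
  exact (hφ N hN (fun i => ⟨v i, hv i⟩)).trans (sat_iff N φ (fun i => ⟨v i, hv i⟩))

/-- the formula `v 1 = pair (v 0) (snd (v 1))` -/
noncomputable def chiP : Fml := exists_chiP.choose

theorem chiP_iff {N : Set ZFSet.{0}} (hN : TM N) {v : ℕ → ZFSet.{0}} (hv : ∀ i, v i ∈ N) :
    v 1 = pair (v 0) (snd (v 1)) ↔ SatIn N chiP v := exists_chiP.choose_spec N hN v hv

/-- the structure of `c'` extends the structure of `c`, and the set coded by `c'` is a pair whose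
first component is the set coded by `c` -/
structure Xt (c c' : ZFSet.{0}) : Prop where
  e : ∀ i ∈ HF, ∀ j ∈ HF, ∀ a ∈ HF, ∀ b ∈ HF, cS c' (tg 2 i) a → cS c' (tg 2 j) b →
    (cE c i j ↔ cE c' a b)
  t : ∀ i ∈ HF, ∀ a ∈ HF, ∀ b ∈ HF, ∀ d ∈ HF, ∀ e ∈ HF, cS c' (tg 2 i) a → cE c' b a →
    cS c' (tg 3 (pair i b)) d → cS c' (tg 2 d) e → (cE c d i ∧ cQ c' e b)
  x : ∀ a ∈ HF, cS c' (tg 2 tX) a → cT c' (fcd chiP) (acons a (acons tX ∅))

/-- the translation of `Px`, `b` the code of the formula for `B` -/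
def PP (N : Set ZFSet.{0}) (Th b : ZFSet.{0}) : ℕ → ZFSet.{0} → Prop
  | 0, c => (Cst Th c ∧ WFc N c) ∧ cT c b (acons tX ∅)
  | m + 1, c => (Cst Th c ∧ WFc N c) ∧ ∀ c', Real N c' → ¬ (Xt c c' ∧ PP N Th b m c')

/-! ### The sets without choice function -/

/-- the function `y` is eventually different from `z` -/
def Edf (y z : ZFSet.{0}) : Prop :=
  ∃ m ∈ omega, ∀ l ∈ omega, l ∉ m → ∀ j ∈ omega, pair l j ∈ y → pair l j ∉ z

/-- `y` is eventually different from a real number of the column `k` of every block of `U` -/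
def AkP (U k y : ZFSet.{0}) : Prop :=
  ∀ γ ∈ dom U, ∃ i ∈ omega, Edf y (app (uF U γ) (pair k i))

instance Inst.Edf [hf : UF f] [hg : UF g] : UR (fun N v => H83.PN.Edf (f N v) (g N v)) := by
  unfold H83.PN.Edf; infer_instance
instance Inst.AkP [hf : UF f] [hg : UF g] [hh : UF h] :
    UR (fun N v => H83.PN.AkP (f N v) (g N v) (h N v)) := by
  unfold H83.PN.AkP; infer_instance

/-- column `k` of block number `γ`, computed in the model `N` from `A ∈ Z` -/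
noncomputable def blA (N : Set ZFSet.{0}) (n : ℕ) (k : ℕ) (A γ : ZFSet.{0}) : ZFSet.{0} :=
  fgr (fun i => app (uF (UK N n A) γ) (pair (nz k) i)) omega

/-- `x = (A, (W, (W', (γ, F))))` where `A ∈ Z`, `W` is the least model for `A`, `W'` a model containing `W`,
`γ ∈ rk A` and `F` the column `k` of block number `γ` -/
def Rk (H : ZFSet.{0}) (n : ℕ) (k : ℕ) (x : ZFSet.{0}) : Prop :=
  ZZ H n (fst x) ∧ Nx (fst x) (fst (snd x)) ∧ Wd (fst (snd (snd x))) ∧
  fst (snd x) ∈ fst (snd (snd x)) ∧ fst (snd (snd (snd x))) ∈ rk (fst x) ∧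
  (TM (cls (fst (snd (snd x)))) ∧ fst x ∈ fst (snd (snd x)) ∧
    fst (snd (snd (snd x))) ∈ fst (snd (snd x)) ∧ snd (snd (snd (snd x))) ∈ fst (snd (snd x)) ∧
    snd (snd (snd (snd x))) =
      blA (cls (fst (snd (snd x)))) n k (fst x) (fst (snd (snd (snd x)))))

end H83.PN
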