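import Pool.Agent.H83.PN.PCc
import Pool.Agent.H83.AC.Dbl

set_option autoImplicit false

/-!
# Module PCd: conjunction, disjunction, universal quantifier

Decoding of pairs of real numbers: for a subset `y` of `HF` let `ev0 y = {pair i j : pair (dbl i) j ∈ y}`,
`ev1 y = {pair i j : pair (sc (dbl i)) j ∈ y}` (`i, j ∈ omega`). They are continuous (`TCon_of`), definable, map real numbers
to real numbers, and for all real `y₀, y₁` there is a real `y` with `ev0 y = y₀`, `ev1 y = y₁`.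
`PC_and`, `PC_or` together by induction on `j`. `j = 0`: `PC_zero`, `TClo.and`, `TClo.or`. `j + 1` (with `PC_iff`, `P ↔ ∀ y ¬ P'`,
`Q ↔ ∀ y ¬ Q'`): `P ∧ Q ↔ ∀ y, ¬ (P' (jn y z) ∨ Q' (jn y z))`; `P ∨ Q ↔ ∀ y, ¬ (P' (jn (ev0 y) z) ∧ Q' (jn (ev1 y) z))`, with
`PC_comp` for `w ↦ jn (ev0 (lft w)) (rgt w)`. `PC_all`: `P w ↔ ∀ y' ¬ P' (jn y' w)`; `∀ y P (jn y z) ↔ ∀ y₂, ¬ P' (jn (ev0 y₂) (jn (ev1 y₂) z))`.
-/

namespace H83.PN

open ZFSet H83.AC

variable {f g h k l : Set ZFSet.{0} → (ℕ → ZFSet.{0}) → ZFSet.{0}}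

/-- the even part of `y` -/
private noncomputable def PCd_e0 (y : ZFSet.{0}) : ZFSet.{0} :=
  ZFSet.sep (fun t => pair (dbl (fst t)) (snd t) ∈ y) (ZFSet.prod omega omega)

/-- the odd part of `y` -/
private noncomputable def PCd_e1 (y : ZFSet.{0}) : ZFSet.{0} :=
  ZFSet.sep (fun t => pair (sc (dbl (fst t))) (snd t) ∈ y) (ZFSet.prod omega omega)

/-- the function with given even and odd part -/
private noncomputable def PCd_jo (y z : ZFSet.{0}) : ZFSet.{0} :=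
  ZFSet.sep (fun t => (∃ i ∈ (omega : ZFSet.{0}), fst t = dbl i ∧ snd t = app y i) ∨
    (∃ i ∈ (omega : ZFSet.{0}), fst t = sc (dbl i) ∧ snd t = app z i)) (ZFSet.prod omega omega)

private theorem PCd_u0 (hf : UF f) : UF (fun N v => PCd_e0 (f N v)) := by
  unfold PCd_e0
  infer_instance

private theorem PCd_u1 (hf : UF f) : UF (fun N v => PCd_e1 (f N v)) := by
  unfold PCd_e1
  infer_instance

private theorem PCd_uj (hf : UF f) (hg : UF g) : UF (fun N v => PCd_jo (f N v) (g N v)) := by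
  unfold PCd_jo
  infer_instance

private theorem PCd_sub {P : ZFSet.{0} → Prop} :
    ZFSet.sep P (ZFSet.prod omega omega) ⊆ HF := by
  intro t ht
  obtain ⟨a, ha, b, hb, rfl⟩ := ZFSet.mem_prod.1 (mem_sep.1 ht).1
  exact HF_pair (omega_sub_HF ha) (omega_sub_HF hb)

private theorem PCd_c0 {N : Set ZFSet.{0}} (hN : TM N) : TCon N (fun y => PCd_e0 y) := by
  refine TCon_of (fun z hz => ⟨?_, PCd_sub⟩) fun a _ => ?_
  · exact (PCd_u0 (UF.var 0)).mem N hN (fun _ => z) fun _ => hz.1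
  · have h1 : TLoc N (fun z => a ∈ (ZFSet.prod omega omega : ZFSet.{0}) ∧
        pair (dbl (fst a)) (snd a) ∈ z) := (TLoc_const _).and (TLoc_mem _)
    have h2 : (fun z => a ∈ PCd_e0 z) = fun z => a ∈ (ZFSet.prod omega omega : ZFSet.{0}) ∧
        pair (dbl (fst a)) (snd a) ∈ z := by
      funext z
      unfold PCd_e0
      rw [mem_sep]
    rw [h2]
    exact h1

private theorem PCd_c1 {N : Set ZFSet.{0}} (hN : TM N) : TCon N (fun y => PCd_e1 y) := by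
  refine TCon_of (fun z hz => ⟨?_, PCd_sub⟩) fun a _ => ?_
  · exact (PCd_u1 (UF.var 0)).mem N hN (fun _ => z) fun _ => hz.1
  · have h1 : TLoc N (fun z => a ∈ (ZFSet.prod omega omega : ZFSet.{0}) ∧
        pair (sc (dbl (fst a))) (snd a) ∈ z) := (TLoc_const _).and (TLoc_mem _)
    have h2 : (fun z => a ∈ PCd_e1 z) = fun z => a ∈ (ZFSet.prod omega omega : ZFSet.{0}) ∧
        pair (sc (dbl (fst a))) (snd a) ∈ z := by
      funext z
      unfold PCd_e1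
      rw [mem_sep]
    rw [h2]
    exact h1

private theorem PCd_f0 {y : ZFSet.{0}} (hy : IsFunc omega omega y) :
    PCd_e0 y = fgr (fun i => app y (dbl i)) omega := by
  ext t
  unfold PCd_e0
  rw [mem_sep, mem_fgr, ZFSet.mem_prod]
  constructor
  · rintro ⟨⟨a, ha, b, hb, rfl⟩, h1⟩
    rw [fst_pair, snd_pair] at h1
    refine ⟨a, ha, ?_⟩
    rw [(fn_pair hy h1).2.2]
  · rintro ⟨a, ha, rfl⟩
    obtain ⟨n, rfl⟩ := mem_omega.1 ha
    have h1 : dbl (nz n) ∈ (omega : ZFSet.{0}) := by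
      rw [dbl_nz]
      exact nz_mem_omega _
    refine ⟨⟨nz n, ha, _, fn_mem hy h1, rfl⟩, ?_⟩
    rw [fst_pair, snd_pair]
    exact fn_app hy h1

private theorem PCd_f1 {y : ZFSet.{0}} (hy : IsFunc omega omega y) :
    PCd_e1 y = fgr (fun i => app y (sc (dbl i))) omega := by
  ext t
  unfold PCd_e1
  rw [mem_sep, mem_fgr, ZFSet.mem_prod]
  constructor
  · rintro ⟨⟨a, ha, b, hb, rfl⟩, h1⟩
    rw [fst_pair, snd_pair] at h1
    refine ⟨a, ha, ?_⟩
    rw [(fn_pair hy h1).2.2]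
  · rintro ⟨a, ha, rfl⟩
    obtain ⟨n, rfl⟩ := mem_omega.1 ha
    have h1 : sc (dbl (nz n)) ∈ (omega : ZFSet.{0}) := by
      rw [dbl_nz, sc_nz]
      exact nz_mem_omega _
    refine ⟨⟨nz n, ha, _, fn_mem hy h1, rfl⟩, ?_⟩
    rw [fst_pair, snd_pair]
    exact fn_app hy h1

private theorem PCd_r0 {N : Set ZFSet.{0}} (hN : TM N) {y : ZFSet.{0}} (hy : Real N y) :
    Real N (PCd_e0 y) := by
  refine ⟨((PCd_c0 hN).1 y (Real.shf hy)).1, ?_⟩
  rw [PCd_f0 hy.2]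
  refine fn_fgr fun a ha => ?_
  obtain ⟨n, rfl⟩ := mem_omega.1 ha
  refine fn_mem hy.2 ?_
  rw [dbl_nz]
  exact nz_mem_omega _

private theorem PCd_r1 {N : Set ZFSet.{0}} (hN : TM N) {y : ZFSet.{0}} (hy : Real N y) :
    Real N (PCd_e1 y) := by
  refine ⟨((PCd_c1 hN).1 y (Real.shf hy)).1, ?_⟩
  rw [PCd_f1 hy.2]
  refine fn_fgr fun a ha => ?_
  obtain ⟨n, rfl⟩ := mem_omega.1 ha
  refine fn_mem hy.2 ?_
  rw [dbl_nz, sc_nz]
  exact nz_mem_omega _

private theorem PCd_mj {y z t : ZFSet.{0}} : t ∈ PCd_jo y z ↔ t ∈ (ZFSet.prod omega omega : ZFSet.{0}) ∧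
    ((∃ i ∈ (omega : ZFSet.{0}), fst t = dbl i ∧ snd t = app y i) ∨
    (∃ i ∈ (omega : ZFSet.{0}), fst t = sc (dbl i) ∧ snd t = app z i)) := by
  unfold PCd_jo
  rw [mem_sep]

private theorem PCd_even {y z a : ZFSet.{0}} (hy : IsFunc omega omega y) {n : ℕ} :
    pair (nz (2 * n)) a ∈ PCd_jo y z ↔ a = app y (nz n) := by
  rw [PCd_mj, fst_pair, snd_pair, pair_mem_prod]
  constructor
  · rintro ⟨-, ⟨i, hi, e1, e2⟩ | ⟨i, hi, e1, e2⟩⟩
    · obtain ⟨m, rfl⟩ := mem_omega.1 hi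
      rw [dbl_nz] at e1
      have h1 := nz_inj.1 e1
      have h2 : n = m := by omega
      rw [h2]
      exact e2
    · obtain ⟨m, rfl⟩ := mem_omega.1 hi
      rw [dbl_nz, sc_nz] at e1
      have h1 := nz_inj.1 e1
      omega
  · rintro rfl
    refine ⟨⟨nz_mem_omega _, fn_mem hy (nz_mem_omega n)⟩, Or.inl ⟨nz n, nz_mem_omega n, ?_, rfl⟩⟩
    rw [dbl_nz]

private theorem PCd_odd {y z a : ZFSet.{0}} (hz : IsFunc omega omega z) {n : ℕ} :
    pair (nz (2 * n + 1)) a ∈ PCd_jo y z ↔ a = app z (nz n) := by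
  rw [PCd_mj, fst_pair, snd_pair, pair_mem_prod]
  constructor
  · rintro ⟨-, ⟨i, hi, e1, e2⟩ | ⟨i, hi, e1, e2⟩⟩
    · obtain ⟨m, rfl⟩ := mem_omega.1 hi
      rw [dbl_nz] at e1
      have h1 := nz_inj.1 e1
      omega
    · obtain ⟨m, rfl⟩ := mem_omega.1 hi
      rw [dbl_nz, sc_nz] at e1
      have h1 := nz_inj.1 e1
      have h2 : n = m := by omega
      rw [h2]
      exact e2
  · rintro rfl
    refine ⟨⟨nz_mem_omega _, fn_mem hz (nz_mem_omega n)⟩, Or.inr ⟨nz n, nz_mem_omega n, ?_, rfl⟩⟩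
    rw [dbl_nz, sc_nz]

private theorem PCd_real {N : Set ZFSet.{0}} (hN : TM N) {y z : ZFSet.{0}} (hy : Real N y)
    (hz : Real N z) : Real N (PCd_jo y z) := by
  refine ⟨?_, ?_, ?_⟩
  · exact (PCd_uj (UF.var 0) (UF.var 1)).mem N hN (cons y (fun _ => z)) (fun i => by
      cases i with
      | zero => exact hy.1
      | succ i => exact hz.1)
  · intro t ht
    exact (PCd_mj.1 ht).1
  · intro x hx
    obtain ⟨n, rfl⟩ := mem_omega.1 hx
    rcases Nat.even_or_odd' n with ⟨c, hc | hc⟩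
    · subst hc
      exact ⟨_, (PCd_even hy.2).2 rfl, fun w hw => (PCd_even hy.2).1 hw⟩
    · subst hc
      exact ⟨_, (PCd_odd hz.2).2 rfl, fun w hw => (PCd_odd hz.2).1 hw⟩

private theorem PCd_j0 {N : Set ZFSet.{0}} (hN : TM N) {y z : ZFSet.{0}} (hy : Real N y)
    (hz : Real N z) : PCd_e0 (PCd_jo y z) = y := by
  have h1 := PCd_real hN hy hz
  refine fn_ext (PCd_r0 hN h1).2 hy.2 fun x hx => ?_
  rw [PCd_f0 h1.2, app_fgr hx]
  obtain ⟨n, rfl⟩ := mem_omega.1 hx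
  rw [dbl_nz]
  exact (PCd_even hy.2).1 (fn_app h1.2 (nz_mem_omega _))

private theorem PCd_j1 {N : Set ZFSet.{0}} (hN : TM N) {y z : ZFSet.{0}} (hy : Real N y)
    (hz : Real N z) : PCd_e1 (PCd_jo y z) = z := by
  have h1 := PCd_real hN hy hz
  refine fn_ext (PCd_r1 hN h1).2 hz.2 fun x hx => ?_
  rw [PCd_f1 h1.2, app_fgr hx]
  obtain ⟨n, rfl⟩ := mem_omega.1 hx
  rw [dbl_nz, sc_nz]
  exact (PCd_odd hz.2).1 (fn_app h1.2 (nz_mem_omega _))

private theorem PCd_dand {N : Set ZFSet.{0}} (hN : TM N) {P Q : ZFSet.{0} → Prop}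
    (h : DfP N P) (h' : DfP N Q) : DfP N (fun z => P z ∧ Q z) ∧ DfP N (fun z => P z ∨ Q z) := by
  obtain ⟨A, hA, e⟩ := h
  obtain ⟨B, hB, e'⟩ := h'
  have hv : ∀ i, cons A (fun _ => B) i ∈ N := fun i => by
    cases i with
    | zero => exact hA
    | succ i => exact hB
  constructor
  · obtain ⟨C, hC, e1⟩ := DfP_UR hN (R := fun _ z v => z ∈ v 0 ∧ z ∈ v 1) (by infer_instance) hv
    refine ⟨C, hC, fun z hz => ?_⟩
    exact (and_congr (e z hz) (e' z hz)).trans (e1 z hz)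
  · obtain ⟨C, hC, e1⟩ := DfP_UR hN (R := fun _ z v => z ∈ v 0 ∨ z ∈ v 1) (by infer_instance) hv
    refine ⟨C, hC, fun z hz => ?_⟩
    exact (or_congr (e z hz) (e' z hz)).trans (e1 z hz)

private theorem PCd_s0 {N : Set ZFSet.{0}} (hN : TM N) {j : ℕ} {P : ZFSet.{0} → Prop}
    (h : PC N j P) : PC N j (fun w => P (jn (PCd_e0 (lft w)) (rgt w))) := by
  refine PC_comp hN (TCon_jn hN ((PCd_c0 hN).comp (TCon_lft hN)) (TCon_rgt hN)) ?_ h
  have := PCd_u0 (UF.var 0)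
  have h1 : UF (fun _ v => jn (PCd_e0 (lft (v 0))) (rgt (v 0))) := by
    have h2 : UF (fun _ v => PCd_e0 (lft (v 0))) := PCd_u0 (Inst.lft (hf := UF.var 0))
    infer_instance
  exact DfF_UF hN (F := fun _ w _ => jn (PCd_e0 (lft w)) (rgt w)) h1 (v := fun _ => omega)
    fun _ => hN.omega

private theorem PCd_s1 {N : Set ZFSet.{0}} (hN : TM N) {j : ℕ} {P : ZFSet.{0} → Prop}
    (h : PC N j P) : PC N j (fun w => P (jn (PCd_e1 (lft w)) (rgt w))) := by
  refine PC_comp hN (TCon_jn hN ((PCd_c1 hN).comp (TCon_lft hN)) (TCon_rgt hN)) ?_ h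
  have h1 : UF (fun _ v => jn (PCd_e1 (lft (v 0))) (rgt (v 0))) := by
    have h2 : UF (fun _ v => PCd_e1 (lft (v 0))) := PCd_u1 (Inst.lft (hf := UF.var 0))
    infer_instance
  exact DfF_UF hN (F := fun _ w _ => jn (PCd_e1 (lft w)) (rgt w)) h1 (v := fun _ => omega)
    fun _ => hN.omega

private theorem PCd_s2 {N : Set ZFSet.{0}} (hN : TM N) {j : ℕ} {P : ZFSet.{0} → Prop}
    (h : PC N j P) : PC N j (fun w => P (jn (PCd_e0 (lft w)) (jn (PCd_e1 (lft w)) (rgt w)))) := by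
  refine PC_comp hN (TCon_jn hN ((PCd_c0 hN).comp (TCon_lft hN))
    (TCon_jn hN ((PCd_c1 hN).comp (TCon_lft hN)) (TCon_rgt hN))) ?_ h
  have h1 : UF (fun _ v => jn (PCd_e0 (lft (v 0))) (jn (PCd_e1 (lft (v 0))) (rgt (v 0)))) := by
    have h2 : UF (fun _ v => PCd_e1 (lft (v 0))) := PCd_u1 (Inst.lft (hf := UF.var 0))
    have h3 : UF (fun _ v => PCd_e0 (lft (v 0))) := PCd_u0 (Inst.lft (hf := UF.var 0))
    infer_instance
  exact DfF_UF hN (F := fun _ w _ => jn (PCd_e0 (lft w)) (jn (PCd_e1 (lft w)) (rgt w))) h1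
    (v := fun _ => omega) fun _ => hN.omega

private theorem PCd_both {N : Set ZFSet.{0}} (hN : TM N) (j : ℕ) : ∀ {P Q : ZFSet.{0} → Prop},
    PC N j P → PC N j Q → PC N j (fun z => P z ∧ Q z) ∧ PC N j (fun z => P z ∨ Q z) := by
  induction j with
  | zero =>
    intro P Q h h'
    have h1 := (PC_zero hN).1 h
    have h2 := (PC_zero hN).1 h'
    have h3 := PCd_dand hN h1.1 h2.1
    exact ⟨(PC_zero hN).2 ⟨h3.1, h1.2.and h2.2⟩, (PC_zero hN).2 ⟨h3.2, h1.2.or h2.2⟩⟩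
  | succ j ih =>
    intro P Q h h'
    obtain ⟨P', hP', eP⟩ := (PC_iff hN).1 h
    obtain ⟨Q', hQ', eQ⟩ := (PC_iff hN).1 h'
    constructor
    · refine (PC_iff hN).2 ⟨fun w => P' w ∨ Q' w, (ih hP' hQ').2, fun z hz => ?_⟩
      rw [eP z hz, eQ z hz]
      constructor
      · rintro ⟨a, b⟩ y hy (c | c)
        · exact a y hy c
        · exact b y hy c
      · intro a
        exact ⟨fun y hy c => a y hy (Or.inl c), fun y hy c => a y hy (Or.inr c)⟩
    · refine (PC_iff hN).2 ⟨fun w => P' (jn (PCd_e0 (lft w)) (rgt w)) ∧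
        Q' (jn (PCd_e1 (lft w)) (rgt w)), (ih (PCd_s0 hN hP') (PCd_s1 hN hQ')).1,
        fun z hz => ?_⟩
      rw [eP z hz, eQ z hz]
      constructor
      · rintro (a | a) y hy ⟨b, c⟩
        · rw [lft_jn (fn_HF hy.2), rgt_jn hz.2] at b
          exact a _ (PCd_r0 hN hy) b
        · rw [lft_jn (fn_HF hy.2), rgt_jn hz.2] at c
          exact a _ (PCd_r1 hN hy) c
      · intro a
        by_contra hc
        have h1 : ∃ y, Real N y ∧ P' (jn y z) := by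
          by_contra hne
          exact hc (Or.inl fun y hy hp => hne ⟨y, hy, hp⟩)
        have h2 : ∃ y, Real N y ∧ Q' (jn y z) := by
          by_contra hne
          exact hc (Or.inr fun y hy hp => hne ⟨y, hy, hp⟩)
        obtain ⟨y0, hy0, hp0⟩ := h1
        obtain ⟨y1, hy1, hp1⟩ := h2
        have hr := PCd_real hN hy0 hy1
        refine a _ hr ⟨?_, ?_⟩
        · rw [lft_jn (fn_HF hr.2), rgt_jn hz.2, PCd_j0 hN hy0 hy1]
          exact hp0
        · rw [lft_jn (fn_HF hr.2), rgt_jn hz.2, PCd_j1 hN hy0 hy1]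
          exact hp1

theorem PC_and {N : Set ZFSet.{0}} (hN : TM N) {j : ℕ} {P Q : ZFSet.{0} → Prop} (h : PC N j P)
    (h' : PC N j Q) : PC N j (fun z => P z ∧ Q z) := by
  exact (PCd_both hN j h h').1

theorem PC_or {N : Set ZFSet.{0}} (hN : TM N) {j : ℕ} {P Q : ZFSet.{0} → Prop} (h : PC N j P)
    (h' : PC N j Q) : PC N j (fun z => P z ∨ Q z) := by
  exact (PCd_both hN j h h').2

theorem PC_all {N : Set ZFSet.{0}} (hN : TM N) {j : ℕ} {P : ZFSet.{0} → Prop}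
    (h : PC N (j + 1) P) : PC N (j + 1) (fun z => ∀ y, Real N y → P (jn y z)) := by
  obtain ⟨P', hP', eP⟩ := (PC_iff hN).1 h
  refine (PC_iff hN).2 ⟨fun w => P' (jn (PCd_e0 (lft w)) (jn (PCd_e1 (lft w)) (rgt w))),
    PCd_s2 hN hP', fun z hz => ?_⟩
  constructor
  · intro a y hy b
    rw [lft_jn (fn_HF hy.2), rgt_jn hz.2] at b
    have h1 := PCd_r1 hN hy
    exact (eP _ (jn_SHF hN (Real.shf h1) hz)).1 (a _ h1) _ (PCd_r0 hN hy) b
  · intro a y hy
    refine (eP _ (jn_SHF hN (Real.shf hy) hz)).2 fun y' hy' b => ?_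
    have hr := PCd_real hN hy' hy
    refine a _ hr ?_
    show P' (jn (PCd_e0 (lft (jn (PCd_jo y' y) z))) (jn (PCd_e1 (lft (jn (PCd_jo y' y) z)))
      (rgt (jn (PCd_jo y' y) z))))
    rw [lft_jn (fn_HF hr.2), rgt_jn hz.2, PCd_j0 hN hy' hy, PCd_j1 hN hy' hy]
    exact b

end H83.PN
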