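import Pool.Agent.H83.PN.DefsP
import Pool.Agent.H83.PN.PCd

set_option autoImplicit false

/-!
# Module FP2: statements with two number quantifiers

`PC_P02`: `Q w` = for all `n ∈ omega` with `pair ∅ n ∈ lft w`: for all `b ∈ HF`, `¬ R N (app cdg n) b (rgt w) v`; closed, given by a set (`DfP_UR`); the predicate is `∀ y, Real N y → ¬ Q (jn y z)`: given `a ∈ HF`
take a real `y` with value `ci a` at `∅` (constant function).
-/

namespace H83.PN

open ZFSet H83.AC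

variable {M : Set ZFSet.{0}} {K H : ZFSet.{0}}

private def FP2_r1 : ℕ → ℕ
  | 0 => 1
  | 1 => 2
  | 2 => 0
  | n + 3 => n + 4

private def FP2_r2 : ℕ → ℕ
  | 0 => 0
  | 1 => 1
  | n + 2 => n + 3

private theorem FP2_ur
    {R : Set ZFSet.{0} → ZFSet.{0} → ZFSet.{0} → ZFSet.{0} → (ℕ → ZFSet.{0}) → Prop}
    (hR : UR (fun N v => R N (v 0) (v 1) (v 2) (sh (sh (sh v))))) :
    UR (fun N v => ∀ n ∈ (omega : ZFSet.{0}), pair ∅ n ∈ lft (v 0) →
      ∀ b ∈ (HF : ZFSet.{0}), ¬ R N (app cdg n) b (rgt (v 0)) (sh v)) := by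
  have h1 : UR (fun N v => R N (v 1) (v 2) (v 0) (sh (sh (sh (sh v))))) := hR.ren FP2_r1
  have h2 : UR (fun N v => R N (v 0) (v 1) (rgt (v 2)) (sh (sh (sh v)))) :=
    UD.subst (R := fun N x v => R N (v 0) (v 1) x (sh (sh (sh v)))) h1
      (Inst.rgt (hf := UF.var 2))
  have h3 : UR (fun N v => R N (v 0) (v 1) (rgt (v 3)) (sh (sh (sh (sh v))))) := h2.ren FP2_r2
  have hcd : UF (fun _ v => app cdg (v 1)) := UF.app UF.cdg (UF.var 1)
  have h4 : UR (fun N v => R N (app cdg (v 1)) (v 0) (rgt (v 2)) (sh (sh (sh v)))) :=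
    UD.subst (R := fun N x v => R N x (v 0) (rgt (v 2)) (sh (sh (sh v)))) h3 hcd
  have h5 : UR (fun N v => ∀ b ∈ (HF : ZFSet.{0}), ¬ R N (app cdg (v 0)) b (rgt (v 1)) (sh (sh v))) :=
    UR.ball (R := fun N b v => ¬ R N (app cdg (v 0)) b (rgt (v 1)) (sh (sh v))) UF.HF h4.not
  have h6 : UR (fun _ v => pair ∅ (v 0) ∈ lft (v 1)) := by infer_instance
  exact UR.ball (R := fun N n v => pair ∅ n ∈ lft (v 0) →
    ∀ b ∈ (HF : ZFSet.{0}), ¬ R N (app cdg n) b (rgt (v 0)) (sh v)) UF.omega (h6.imp h5)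

private theorem FP2_real {N : Set ZFSet.{0}} (hN : TM N) {n : ZFSet.{0}} (hn : n ∈ omega) :
    Real N (fgr (fun _ => n) omega) := by
  refine ⟨?_, fn_fgr fun _ _ => hn⟩
  have h : UF (fun _ v => fgr (fun _ => v 0) omega) := by infer_instance
  exact h.mem N hN (fun _ => n) fun _ => hN.tr _ hN.omega _ hn

theorem PC_P02 {N : Set ZFSet.{0}} (hN : TM N)
    {R : Set ZFSet.{0} → ZFSet.{0} → ZFSet.{0} → ZFSet.{0} → (ℕ → ZFSet.{0}) → Prop}
    (hR : UR (fun N v => R N (v 0) (v 1) (v 2) (sh (sh (sh v))))) {v : ℕ → ZFSet.{0}}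
    (hv : ∀ i, v i ∈ N) (hl : ∀ a ∈ HF, ∀ b ∈ HF, TLoc N (fun z => R N a b z v)) :
    PC N 1 (fun z => ∀ a ∈ HF, ∃ b ∈ HF, R N a b z v) := by
  set Q : ZFSet.{0} → Prop := fun w => ∀ n ∈ (omega : ZFSet.{0}), pair ∅ n ∈ lft w →
    ∀ b ∈ (HF : ZFSet.{0}), ¬ R N (app cdg n) b (rgt w) v with hQ
  have hQ0 : PC N 0 Q := by
    refine (PC_zero hN).2 ⟨?_, ?_⟩
    · exact DfP_UR hN (R := fun N w v => ∀ n ∈ (omega : ZFSet.{0}), pair ∅ n ∈ lft w →
        ∀ b ∈ (HF : ZFSet.{0}), ¬ R N (app cdg n) b (rgt w) v) (FP2_ur hR) hv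
    · refine TClo.ball (R := fun n w => pair ∅ n ∈ lft w →
        ∀ b ∈ (HF : ZFSet.{0}), ¬ R N (app cdg n) b (rgt w) v) fun n hn => ?_
      refine TClo.imp ((TCon_lft hN).loc (TLoc_mem (pair ∅ n))) ?_
      refine TClo.ball (R := fun b w => ¬ R N (app cdg n) b (rgt w) v) fun b hb => ?_
      exact ((TCon_rgt hN).loc (hl _ (cdg_HF hn) b hb)).not.clo
  refine PC_congr (fun z hz => ?_) (PC_alln hN hQ0)
  constructor
  · intro hP y hy hQy
    have h0 : (∅ : ZFSet.{0}) ∈ omega := nz_mem_omega 0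
    have h1 := fn_mem hy.2 h0
    obtain ⟨b, hb, h2⟩ := hP (app cdg (app y ∅)) (cdg_HF h1)
    refine hQy (app y ∅) h1 ?_ b hb ?_
    · rw [lft_jn (fn_HF hy.2)]
      exact fn_app hy.2 h0
    · rw [rgt_jn hz.2]
      exact h2
  · intro h2 a ha
    by_contra hP
    have hr := FP2_real hN (ci_omega a)
    refine h2 _ hr ?_
    rintro n' hn' hp b hb hRb
    rw [lft_jn (fn_HF hr.2), pair_mem_fgr] at hp
    rw [rgt_jn hz.2, hp.2, cdg_ci ha] at hRb
    exact hP ⟨b, hb, hRb⟩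

end H83.PN
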