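import Pool.Agent.H83.PN.DefsP
import Pool.Agent.H83.PN.PCd

set_option autoImplicit false

/-!
# Module FPm: the complexity of `PP`

`Cst_PC`: `PC_zero`: `DfP` by `DfP_UR` (parameter `Th`; rewrite `Cst` as the conjunction of its fields), `TClo` by `TClo.and`, `TClo.ball`, `TLoc.clo`, `TLoc.iff`, .., `TLoc_mem` (all atomic formulas are
`a ∈ c`). For `ba`: `TLoc.bex` (`h ∈ HF`). `Xt_PC`: the same for the pairs `w = jn c' c`; membership in `lft w` and `rgt w` is `pair ∅ a ∈ w`, `pair one a ∈ w` for `a ∈ HF` (or `TCon_lft`, `TCon_rgt` and `TCon.loc`).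
`WFc_PC`: `PC_alln` for `fun w => Dsc (lft w) (rgt w)`, `lft_jn`, `rgt_jn` (`Real.shf`). `PP_PC` by induction on `m`: `PC_le`, `PC_and`; for `m + 1`: `PC_alln` for `fun w => Xt (rgt w) (lft w) ∧ PP N Th b m (lft w)`,
`PC_comp` with `TCon_lft` and `DfF_UF`.
-/

namespace H83.PN

open ZFSet H83.AC

variable {M : Set ZFSet.{0}} {K H : ZFSet.{0}}

/-- the first group of conditions -/
private def FPm_a (c : ZFSet.{0}) : Prop :=
  (∀ i ∈ HF, cQ c i i) ∧
  (∀ i ∈ HF, ∀ j ∈ HF, cQ c i j → cQ c j i) ∧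
  (∀ i ∈ HF, ∀ j ∈ HF, ∀ l ∈ HF, cE c i j → cQ c i l → cE c l j) ∧
  (∀ i ∈ HF, ∀ j ∈ HF, ∀ l ∈ HF, cE c i j → cQ c j l → cE c i l)

/-- the second group of conditions -/
private def FPm_b (c : ZFSet.{0}) : Prop :=
  ∀ i ∈ HF, ∀ j ∈ HF, ∀ b ∈ HF, ¬ cQ c i j → cS c (tg 0 (pair i j)) b →
    ((cE c b i ∧ ¬ cE c b j) ∨ (¬ cE c b i ∧ cE c b j))

/-- the third group of conditions -/
private def FPm_c (c : ZFSet.{0}) : Prop :=
  (∀ s ∈ Asg HF, ¬ cT c (fcd .bot) s) ∧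
  (∀ i ∈ omega, ∀ j ∈ omega, ∀ s ∈ Asg HF,
    (cT c (pair (nz 1) (pair i j)) s ↔ cQ c (app s i) (app s j))) ∧
  (∀ i ∈ omega, ∀ j ∈ omega, ∀ s ∈ Asg HF,
    (cT c (pair (nz 2) (pair i j)) s ↔ cE c (app s i) (app s j)))

/-- the fourth group of conditions -/
private def FPm_d (c : ZFSet.{0}) : Prop :=
  (∀ a ∈ FC, ∀ b ∈ FC, ∀ s ∈ Asg HF,
    (cT c (pair (nz 3) (pair a b)) s ↔ (cT c a s → cT c b s))) ∧
  (∀ a ∈ FC, ∀ s ∈ Asg HF, ∀ x ∈ HF, cT c (pair (nz 4) a) s → cT c a (acons x s))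

/-- the fifth group of conditions -/
private def FPm_e (c : ZFSet.{0}) : Prop :=
  ∀ a ∈ FC, ∀ s ∈ Asg HF, ∀ b ∈ HF, ¬ cT c (pair (nz 4) a) s → cS c (tg 1 (pair a s)) b →
    ¬ cT c a (acons b s)

/-- the sixth group of conditions -/
private def FPm_f (Th c : ZFSet.{0}) : Prop :=
  (∀ h ∈ HF, ∀ j ∈ HF, (cE c j (tg 0 h) ↔ ∃ h' ∈ h, cQ c j (tg 0 h'))) ∧
  cQ c ∅ (tg 0 ∅) ∧ (∀ a ∈ Th, cT c a ∅)

private theorem FPm_iff {Th c : ZFSet.{0}} : Cst Th c ↔
    FPm_a c ∧ FPm_b c ∧ FPm_c c ∧ FPm_d c ∧ FPm_e c ∧ FPm_f Th c := by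
  constructor
  · intro h
    exact ⟨⟨h.qr, h.qs, h.el, h.er⟩, h.ex, ⟨h.tb, h.te, h.tm⟩, ⟨h.ti, h.ta⟩, h.tn,
      ⟨h.ba, h.b0, h.th⟩⟩
  · rintro ⟨⟨h1, h2, h3, h4⟩, h5, ⟨h6, h7, h8⟩, ⟨h9, h10⟩, h11, ⟨h12, h13, h14⟩⟩
    exact ⟨h1, h2, h3, h4, h5, h6, h7, h8, h9, h10, h11, h12, h13, h14⟩

private theorem FPm_ua : UR (fun _ v => FPm_a (v 0)) := by
  unfold FPm_a; infer_instance
private theorem FPm_ub : UR (fun _ v => FPm_b (v 0)) := by
  unfold FPm_b; infer_instance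
private theorem FPm_uc : UR (fun _ v => FPm_c (v 0)) := by
  unfold FPm_c; infer_instance
private theorem FPm_ud : UR (fun _ v => FPm_d (v 0)) := by
  unfold FPm_d; infer_instance
private theorem FPm_ue : UR (fun _ v => FPm_e (v 0)) := by
  unfold FPm_e; infer_instance
private theorem FPm_uf : UR (fun _ v => FPm_f (v 1) (v 0)) := by
  unfold FPm_f; infer_instance

section Clo

variable {N : Set ZFSet.{0}}

private theorem FPm_ca : TClo N (fun c => FPm_a c) := by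
  unfold FPm_a
  refine TClo.and ?_ (TClo.and ?_ (TClo.and ?_ ?_))
  · exact TClo.ball fun i _ => (TLoc_mem _).clo
  · exact TClo.ball fun i _ => TClo.ball fun j _ => ((TLoc_mem _).imp (TLoc_mem _)).clo
  · exact TClo.ball fun i _ => TClo.ball fun j _ => TClo.ball fun l _ =>
      ((TLoc_mem _).imp ((TLoc_mem _).imp (TLoc_mem _))).clo
  · exact TClo.ball fun i _ => TClo.ball fun j _ => TClo.ball fun l _ =>
      ((TLoc_mem _).imp ((TLoc_mem _).imp (TLoc_mem _))).clo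

private theorem FPm_cb : TClo N (fun c => FPm_b c) := by
  unfold FPm_b
  exact TClo.ball fun i _ => TClo.ball fun j _ => TClo.ball fun b _ =>
    ((TLoc_mem _).not.imp ((TLoc_mem _).imp
      (((TLoc_mem _).and (TLoc_mem _).not).or ((TLoc_mem _).not.and (TLoc_mem _))))).clo

private theorem FPm_cc : TClo N (fun c => FPm_c c) := by
  unfold FPm_c
  refine TClo.and ?_ (TClo.and ?_ ?_)
  · exact TClo.ball fun s _ => (TLoc_mem _).not.clo
  · exact TClo.ball fun i _ => TClo.ball fun j _ => TClo.ball fun s _ =>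
      ((TLoc_mem _).iff (TLoc_mem _)).clo
  · exact TClo.ball fun i _ => TClo.ball fun j _ => TClo.ball fun s _ =>
      ((TLoc_mem _).iff (TLoc_mem _)).clo

private theorem FPm_cd : TClo N (fun c => FPm_d c) := by
  unfold FPm_d
  refine TClo.and ?_ ?_
  · exact TClo.ball fun a _ => TClo.ball fun b _ => TClo.ball fun s _ =>
      ((TLoc_mem _).iff ((TLoc_mem _).imp (TLoc_mem _))).clo
  · exact TClo.ball fun a _ => TClo.ball fun s _ => TClo.ball fun x _ =>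
      ((TLoc_mem _).imp (TLoc_mem _)).clo

private theorem FPm_ce : TClo N (fun c => FPm_e c) := by
  unfold FPm_e
  exact TClo.ball fun a _ => TClo.ball fun s _ => TClo.ball fun b _ =>
    ((TLoc_mem _).not.imp ((TLoc_mem _).imp (TLoc_mem _).not)).clo

private theorem FPm_cf (Th : ZFSet.{0}) : TClo N (fun c => FPm_f Th c) := by
  unfold FPm_f
  refine TClo.and ?_ (TClo.and ?_ ?_)
  · refine TClo.ball fun h hh => TClo.ball fun j _ => ?_
    have h1 : TLoc N (fun c => ∃ h' ∈ h, cQ c j (tg 0 h')) :=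
      TLoc.bex (R := fun h' c => cQ c j (tg 0 h')) hh fun a _ => TLoc_mem _
    exact (TLoc.iff (TLoc_mem _) h1).clo
  · exact (TLoc_mem _).clo
  · exact TClo.ball fun a _ => (TLoc_mem _).clo

end Clo

theorem Cst_PC {N : Set ZFSet.{0}} (hN : TM N) {Th : ZFSet.{0}} (hT : Th ∈ N) :
    PC N 0 (fun c => Cst Th c) := by
  refine PC_congr (Q := fun c => FPm_a c ∧ FPm_b c ∧ FPm_c c ∧ FPm_d c ∧ FPm_e c ∧ FPm_f Th c)
    (fun z _ => FPm_iff) ?_
  refine (PC_zero hN).2 ⟨?_, ?_⟩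
  · exact DfP_UR hN (R := fun _ c v => FPm_a c ∧ FPm_b c ∧ FPm_c c ∧ FPm_d c ∧ FPm_e c ∧
      FPm_f (v 0) c) (UD.and FPm_ua (UD.and FPm_ub (UD.and FPm_uc (UD.and FPm_ud
      (UD.and FPm_ue FPm_uf))))) (v := fun _ => Th) fun _ => hT
  · exact FPm_ca.and (FPm_cb.and (FPm_cc.and (FPm_cd.and (FPm_ce.and (FPm_cf Th)))))

/-- `Xt` as a conjunction -/
private def FPm_x (c c' : ZFSet.{0}) : Prop :=
  (∀ i ∈ HF, ∀ j ∈ HF, ∀ a ∈ HF, ∀ b ∈ HF, cS c' (tg 2 i) a → cS c' (tg 2 j) b →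
    (cE c i j ↔ cE c' a b)) ∧
  (∀ i ∈ HF, ∀ a ∈ HF, ∀ b ∈ HF, ∀ d ∈ HF, ∀ e ∈ HF, cS c' (tg 2 i) a → cE c' b a →
    cS c' (tg 3 (pair i b)) d → cS c' (tg 2 d) e → (cE c d i ∧ cQ c' e b)) ∧
  (∀ a ∈ HF, cS c' (tg 2 (tg 6 ∅)) a → cT c' (fcd chiP) (acons a (acons (tg 6 ∅) ∅)))

private theorem FPm_xiff {c c' : ZFSet.{0}} : Xt c c' ↔ FPm_x c c' := by
  constructor
  · intro h
    exact ⟨h.e, h.t, h.x⟩
  · rintro ⟨h1, h2, h3⟩
    exact ⟨h1, h2, h3⟩

private theorem FPm_ux : UR (fun _ v => FPm_x (rgt (v 0)) (lft (v 0))) := by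
  unfold FPm_x
  refine UD.and ?_ (UD.and ?_ ?_)
  · infer_instance
  · infer_instance
  · infer_instance

private theorem FPm_l {N : Set ZFSet.{0}} (hN : TM N) (a : ZFSet.{0}) :
    TLoc N (fun w => a ∈ lft w) := (TCon_lft hN).loc (P := fun c => a ∈ c) (TLoc_mem a)

private theorem FPm_r {N : Set ZFSet.{0}} (hN : TM N) (a : ZFSet.{0}) :
    TLoc N (fun w => a ∈ rgt w) := (TCon_rgt hN).loc (P := fun c => a ∈ c) (TLoc_mem a)

private theorem FPm_cx {N : Set ZFSet.{0}} (hN : TM N) :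
    TClo N (fun w => FPm_x (rgt w) (lft w)) := by
  unfold FPm_x
  refine TClo.and ?_ (TClo.and ?_ ?_)
  · exact TClo.ball fun i _ => TClo.ball fun j _ => TClo.ball fun a _ => TClo.ball fun b _ =>
      ((FPm_l hN _).imp ((FPm_l hN _).imp ((FPm_r hN _).iff (FPm_l hN _)))).clo
  · exact TClo.ball fun i _ => TClo.ball fun a _ => TClo.ball fun b _ => TClo.ball fun d _ =>
      TClo.ball fun e _ => ((FPm_l hN _).imp ((FPm_l hN _).imp ((FPm_l hN _).imp
        ((FPm_l hN _).imp ((FPm_r hN _).and (FPm_l hN _)))))).clo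
  · exact TClo.ball fun a _ => ((FPm_l hN _).imp (FPm_l hN _)).clo

theorem Xt_PC {N : Set ZFSet.{0}} (hN : TM N) : PC N 0 (fun w => Xt (rgt w) (lft w)) := by
  refine PC_congr (Q := fun w => FPm_x (rgt w) (lft w)) (fun z _ => FPm_xiff) ?_
  refine (PC_zero hN).2 ⟨?_, FPm_cx hN⟩
  exact DfP_UR hN (R := fun _ w _ => FPm_x (rgt w) (lft w)) FPm_ux (v := fun _ => omega)
    fun _ => hN.omega

private theorem FPm_ds {N : Set ZFSet.{0}} (hN : TM N) :
    PC N 0 (fun w => Dsc (lft w) (rgt w)) := by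
  refine (PC_zero hN).2 ⟨?_, ?_⟩
  · refine DfP_UR hN (R := fun _ w _ => Dsc (lft w) (rgt w)) ?_ (v := fun _ => omega)
      fun _ => hN.omega
    unfold Dsc
    infer_instance
  · unfold Dsc
    exact TClo.ball fun n _ => TClo.ball fun i _ => TClo.ball fun j _ =>
      ((FPm_l hN _).imp ((FPm_l hN _).imp (FPm_r hN _))).clo

theorem WFc_PC {N : Set ZFSet.{0}} (hN : TM N) : PC N 1 (fun c => WFc N c) := by
  refine PC_congr (fun z hz => ?_) (PC_alln hN (FPm_ds hN))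
  unfold WFc
  constructor
  · intro h y hy
    rw [lft_jn (fn_HF hy.2), rgt_jn hz.2]
    exact h y hy
  · intro h y hy
    have h1 := h y hy
    rw [lft_jn (fn_HF hy.2), rgt_jn hz.2] at h1
    exact h1

private theorem FPm_t {N : Set ZFSet.{0}} (hN : TM N) {b : ZFSet.{0}} (hb : b ∈ HF) :
    PC N 0 (fun c => cT c b (acons tX ∅)) := by
  have hHF : (HF : ZFSet.{0}) ∈ N := UF.HF.mem N hN (fun _ => ZFSet.omega) fun _ => TM.omega hN
  refine (PC_zero hN).2 ⟨?_, (TLoc_mem _).clo⟩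
  exact DfP_UR hN (R := fun _ c v => cT c (v 0) (acons (tg 6 ∅) ∅)) (by infer_instance)
    (v := fun _ => b) fun _ => hN.tr _ hHF _ hb

private theorem FPm_lf {N : Set ZFSet.{0}} (hN : TM N) : DfF N (fun z => lft z) :=
  DfF_UF hN (F := fun _ z _ => lft z) (by infer_instance) (v := fun _ => omega)
    fun _ => hN.omega

theorem PP_PC {N : Set ZFSet.{0}} (hN : TM N) {Th b : ZFSet.{0}} (hT : Th ∈ N) (hb : b ∈ HF)
    (m : ℕ) : PC N (m + 1) (fun c => PP N Th b m c) := by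
  induction m with
  | zero =>
    exact PC_and hN (PC_and hN (PC_le hN (Nat.zero_le 1) (Cst_PC hN hT)) (WFc_PC hN))
      (PC_le hN (Nat.zero_le 1) (FPm_t hN hb))
  | succ m ih =>
    have h1 : PC N (m + 1) (fun w => Xt (rgt w) (lft w) ∧ PP N Th b m (lft w)) :=
      PC_and hN (PC_le hN (Nat.zero_le _) (Xt_PC hN)) (PC_comp hN (TCon_lft hN) (FPm_lf hN) ih)
    have h2 : PC N (m + 1 + 1) (fun z => ∀ c', Real N c' → ¬ (Xt z c' ∧ PP N Th b m c')) := by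
      refine PC_congr (fun z hz => ?_) (PC_alln hN h1)
      constructor
      · intro h y hy
        rw [lft_jn (fn_HF hy.2), rgt_jn hz.2]
        exact h y hy
      · intro h y hy
        have h3 := h y hy
        rw [lft_jn (fn_HF hy.2), rgt_jn hz.2] at h3
        exact h3
    exact PC_and hN (PC_and hN (PC_le hN (Nat.zero_le _) (Cst_PC hN hT))
      (PC_le hN (by omega) (WFc_PC hN))) h2

end H83.PN
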