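import Pool.Agent.H83.PN.FTh
import Pool.Agent.H83.PN.WNx
import Pool.Agent.H83.AC.HullA

set_option autoImplicit false

/-!
# Module FEn: an enumeration of a countable model by terms

`W ∈ H` is countable in `M ⊆ N` (`H_ct`): `g ∈ N` with `∀ y ∈ W, ∃ h ∈ HF, app g h = y` (`Ctb_iff`, `Ctb_mono`). `F = fgr (fun i => ..) HF` with: `F (tg 0 h) = h`, `F tX = x`,
`F (tg 1 h) = app g h` if this is in `W` and `∅` otherwise, `F i = ∅` for all other `i` (write it with `if fst i = nz 0 then snd i else ..`; `fst ∅ = ∅ = nz 0`, `snd ∅ = ∅`; `HF ⊆ W`: `Wd_omega`).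
-/

namespace H83.PN

open ZFSet H83.AC H83.AC.HullA

variable {M : Set ZFSet.{0}} {K H : ZFSet.{0}}

open Classical in
/-- the interpretation of the terms -/
private noncomputable def FEn_F (g W x i : ZFSet.{0}) : ZFSet.{0} :=
  if fst i = nz 0 then snd i else
    if fst i = nz 1 then (if app g (snd i) ∈ W then app g (snd i) else ∅) else
      if fst i = nz 6 then x else ∅

private theorem FEn_uf :
    UF (fun _ v => H83.AC.fgr (fun i => FEn_F (v 0) (v 1) (v 2) i) H83.AC.HF) := by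
  unfold FEn_F
  infer_instance

theorem exists_enum {N : Set ZFSet.{0}} (hN : Nst M N K H) {W x : ZFSet.{0}} (hW : W ∈ H)
    (hWd : Wd W) (hx : x ∈ W) : ∃ F ∈ N, (∀ z, z ∈ W ↔ ∃ i ∈ HF, app F i = z) ∧
      (∀ h ∈ HF, app F (tg 0 h) = h) ∧ app F ∅ = ∅ ∧ app F tX = x := by
  have hG := hN.gr
  have hc : Ctb N W := Ctb_mono hN.sub (H_ct hG hW)
  obtain ⟨g, hg, h1⟩ := (Ctb_iff hN.tm).1 hc
  obtain ⟨hom, hHF, h0⟩ := Wd_omega hWd
  have hWN : W ∈ N := hN.sub W (H_sub_M hG hW)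
  have hxN : x ∈ N := hN.tm.tr W hWN x hx
  have hF : fgr (fun i => FEn_F g W x i) HF ∈ N := by
    refine FEn_uf.mem N hN.tm (cons g (cons W (fun _ => x))) (fun i => ?_)
    match i with
    | 0 => exact hg
    | 1 => exact hWN
    | i + 2 => exact hxN
  have hW' : ∀ i ∈ HF, FEn_F g W x i ∈ W := by
    intro i hi
    unfold FEn_F
    split_ifs with a b c d
    · exact Wd_tr hWd hHF (snd_HF hi)
    · exact c
    · exact h0
    · exact hx
    · exact h0
  refine ⟨_, hF, fun z => ⟨fun hz => ?_, ?_⟩, fun h hh => ?_, ?_, ?_⟩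
  · obtain ⟨h, hh, e⟩ := h1 z hz
    refine ⟨tg 1 h, tg_HF hh, ?_⟩
    rw [app_fgr (tg_HF hh)]
    unfold FEn_F
    rw [fst_tg, snd_tg, if_neg (nz_ne (by decide)), if_pos rfl, e, if_pos hz]
  · rintro ⟨i, hi, rfl⟩
    rw [app_fgr hi]
    exact hW' i hi
  · rw [app_fgr (tg_HF hh)]
    unfold FEn_F
    rw [fst_tg, snd_tg, if_pos rfl]
  · rw [app_fgr HF_empty]
    unfold FEn_F
    have e : fst ∅ = ∅ ∧ snd ∅ = ∅ := by
      rcases fst_cases ∅ with ⟨a, b, h⟩ | h
      · exfalso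
        have h2 : ({a} : ZFSet.{0}) ∈ pair a b := by rw [pair]; simp
        rw [← h] at h2
        exact notMem_empty _ h2
      · exact h
    rw [e.1, e.2, if_pos (show (∅ : ZFSet.{0}) = nz 0 from rfl)]
  · have h6 : tX ∈ HF := tg_HF HF_empty
    rw [app_fgr h6]
    unfold FEn_F tX
    rw [fst_tg, if_neg (nz_ne (by decide)), if_neg (nz_ne (by decide)), if_pos rfl]

end H83.PN
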