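import Pool.Agent.H83.PN.WCtb

set_option autoImplicit false

/-!
# Module WH: closure properties of `H`

`H_ctb`: `HCt_of`. `K_sub_M`: `M` is transitive. `H_tr`: `HCt_mem`. `HF_sub_H`: elements of `HF` have finite
transitive closures contained in `HF` (`Ctb_sub` of `Ctb_HF`). `H_pair`: `tc (pair x y)` is contained in a
countable set; or `H_ctb` applied three times.
-/

namespace H83.PN

open ZFSet H83.AC

variable {M : Set ZFSet.{0}} {K H : ZFSet.{0}}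

theorem H_M (hG : Gr M K H) : H ∈ M := hG.tm.tr K hG.KM H hG.HK

theorem H_tr (hG : Gr M K H) {x y : ZFSet.{0}} (hx : x ∈ H) (hy : y ∈ x) : y ∈ H := by
  have h := (hG.mem x).1 hx
  exact (hG.mem y).2 ⟨hG.tm.tr x h.1 y hy, (HCt_mem h.2 hy).1⟩

theorem H_sub_M (hG : Gr M K H) {x : ZFSet.{0}} (hx : x ∈ H) : x ∈ M := ((hG.mem x).1 hx).1

theorem H_ct (hG : Gr M K H) {x : ZFSet.{0}} (hx : x ∈ H) : Ctb M x :=
  Ctb_sub ((hG.mem x).1 hx).2 (sub_tc x)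

theorem H_ctb (hG : Gr M K H) {a : ZFSet.{0}} (ha : a ∈ M) (hc : Ctb M a)
    (h : ∀ y ∈ a, y ∈ H) : a ∈ H :=
  (hG.mem a).2 ⟨ha, HCt_of hG.tm hG.vl ha hc (fun y hy => ((hG.mem y).1 (h y hy)).2)⟩

theorem H_sub (hG : Gr M K H) {x y : ZFSet.{0}} (hx : x ∈ H) (hy : y ∈ M) (h : y ⊆ x) : y ∈ H := by
  refine (hG.mem y).2 ⟨hy, Ctb_sub ((hG.mem x).1 hx).2 ?_⟩
  exact tc_min (fun z hz => sub_tc x (h hz)) (fun z hz => tc_tr hz)

private theorem WH_HF_M (hG : Gr M K H) : HF ∈ M :=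
  UF.HF.mem M hG.tm (fun _ => K) (fun _ => hG.KM)

private theorem WH_sub (hG : Gr M K H) {x : ZFSet.{0}} (hx : x ∈ M) (h : x ⊆ HF) : x ∈ H := by
  refine (hG.mem x).2 ⟨hx, Ctb_sub (Ctb_HF hG.tm) ?_⟩
  exact tc_min h (fun z hz => HF_tr hz)

theorem HF_sub_H (hG : Gr M K H) : HF ⊆ H ∧ HF ∈ H ∧ omega ∈ H := by
  refine ⟨fun x hx => ?_, ?_, ?_⟩
  · exact WH_sub hG (hG.tm.tr _ (WH_HF_M hG) x hx) (HF_tr hx)
  · exact WH_sub hG (WH_HF_M hG) (fun z hz => hz)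
  · exact WH_sub hG hG.tm.omega omega_sub_HF

private theorem WH_upair (hG : Gr M K H) {x y : ZFSet.{0}} (hx : x ∈ H) (hy : y ∈ H) :
    ({x, y} : ZFSet) ∈ H := by
  have hm : ({x, y} : ZFSet) ∈ M := hG.tm.upair (H_sub_M hG hx) (H_sub_M hG hy)
  have hh : ∀ z ∈ ({x, y} : ZFSet), z ∈ H := by
    intro z hz
    rw [ZFSet.mem_pair] at hz
    rcases hz with rfl | rfl <;> assumption
  refine H_ctb hG hm (Ctb_fin hG.tm (fun z hz => H_sub_M hG (hh z hz)) ?_) hh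
  refine Set.Finite.subset (Set.toFinite {x, y}) ?_
  intro z hz
  have hz' : z ∈ ({x, y} : ZFSet) := hz
  rw [ZFSet.mem_pair] at hz'
  rcases hz' with rfl | rfl
  · exact Set.mem_insert _ _
  · exact Set.mem_insert_of_mem _ rfl

theorem H_pair (hG : Gr M K H) {x y : ZFSet.{0}} (hx : x ∈ H) (hy : y ∈ H) : pair x y ∈ H := by
  have h1 : ({x} : ZFSet) ∈ H := by
    have := WH_upair hG hx hx
    rwa [pair_eq_singleton] at this
  exact WH_upair hG h1 (WH_upair hG hx hy)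

end H83.PN
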