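import Pool.Agent.H83.PN.DefsP
import Pool.Agent.H83.PN.LSd

set_option autoImplicit false

/-!
# Module FTq: every element of `H` is in a countable model elementarily equivalent to `K`

The proof is that of `exists_W` in `PN/LSd.lean`: the collapse `W` of the hull `X` of `K` satisfies in addition
`SatIn (cls W) φ (fun i => app F (v i)) ↔ SatIn (cls K) φ v` for `v i ∈ X` (the last part of `collapse` in `PN/LSc.lean`);
take `v = fun _ => ∅` (`∅ ∈ X`, `app F ∅ = ∅` because `tc ∅ ⊆ X`).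
-/

namespace H83.PN

open ZFSet H83.AC

private theorem FTq_sat {K : Set ZFSet.{0}} (φ : Fml) {v : ℕ → ZFSet.{0}} (hv : ∀ i, v i ∈ K) :
    Sat (memN K) φ (fun i => (⟨v i, hv i⟩ : K)) ↔ SatIn K φ v := sat_iff K φ _

private theorem FTq_cl {X K : ZFSet.{0}} (hK : TM (cls K)) (hXK : X ⊆ K)
    (hel : ∀ (φ : Fml) (v : ℕ → ZFSet.{0}), (∀ i, v i ∈ X) →
      (SatIn (cls X) φ v ↔ SatIn (cls K) φ v))
    {F : Set ZFSet.{0} → (ℕ → ZFSet.{0}) → ZFSet.{0}} (hF : UF F) {v : ℕ → ZFSet.{0}}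
    (hv : ∀ i, v i ∈ X) : F (cls K) v ∈ X := by
  obtain ⟨⟨φ, hφ⟩⟩ := hF.rel
  have hvK : ∀ i, v i ∈ cls K := fun i => hXK (hv i)
  have hFK : F (cls K) v ∈ cls K := hF.mem _ hK v hvK
  have key : ∀ z ∈ cls K, (z = F (cls K) v ↔ SatIn (cls K) φ (cons z v)) := by
    intro z hz
    have hc : ∀ i, cons z v i ∈ cls K := by
      intro i
      cases i with
      | zero => exact hz
      | succ i => exact hvK i
    have h1 := hφ (cls K) hK (fun i => ⟨cons z v i, hc i⟩)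
    have h2 := FTq_sat (K := cls K) φ hc
    exact h1.trans h2
  have hex : ¬ SatIn (cls K) (.all (.imp φ .bot)) v := by
    intro h
    exact h _ hFK ((key _ hFK).1 rfl)
  have hex2 : ¬ SatIn (cls X) (.all (.imp φ .bot)) v := fun h => hex ((hel _ v hv).1 h)
  by_contra hcon
  apply hex2
  intro z hz hzφ
  have hc : ∀ i, cons z v i ∈ X := by
    intro i
    cases i with
    | zero => exact hz
    | succ i => exact hv i
  have h3 : SatIn (cls K) φ (cons z v) := (hel φ _ hc).1 hzφ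
  have h4 : z = F (cls K) v := (key z (hXK hz)).2 h3
  rw [h4] at hz
  exact hcon hz

private theorem FTq_m2 {M : Set ZFSet.{0}} (hM : TM M) {G : ZFSet.{0} → ZFSet.{0} → ZFSet.{0}}
    (h : UF (fun _ v => G (v 0) (v 1))) {a b : ZFSet.{0}} (ha : a ∈ M) (hb : b ∈ M) :
    G a b ∈ M := by
  have hv : ∀ i, (cons a (fun _ => b)) i ∈ M := by
    intro i
    rcases i with _ | i
    · exact ha
    · exact hb
  exact h.mem M hM _ hv

private theorem FTq_c2 {M : Set ZFSet.{0}} (hM : TM M)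
    {F : ZFSet.{0} → ZFSet.{0} → ZFSet.{0} → ZFSet.{0}}
    (hF : UF (fun _ v => F (v 1) (v 2) (v 0))) {p q : ZFSet.{0}} (hp : p ∈ M) (hq : q ∈ M)
    {a : ZFSet.{0}} (ha : a ∈ M) (hc : Ctb M a) : Ctb M (img (fun x => F p q x) a) := by
  have hv : ∀ i, (cons p (fun _ => q)) i ∈ M := by
    intro i
    rcases i with _ | i
    · exact hp
    · exact hq
  exact Ctb_img (N := M) hM (F := fun _ x v => F (v 0) (v 1) x) hF hv
    (fun y hy => hM.tr _ ha y hy) hc

private theorem FTq_cl2 {X K : ZFSet.{0}} (hK : TM (cls K)) (hXK : X ⊆ K)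
    (hel : ∀ (φ : Fml) (v : ℕ → ZFSet.{0}), (∀ i, v i ∈ X) →
      (SatIn (cls X) φ v ↔ SatIn (cls K) φ v))
    {G : ZFSet.{0} → ZFSet.{0} → ZFSet.{0}} (h : UF (fun _ v => G (v 0) (v 1)))
    {a b : ZFSet.{0}} (ha : a ∈ X) (hb : b ∈ X) : G a b ∈ X := by
  have hv : ∀ i, (cons a (fun _ => b)) i ∈ X := by
    intro i
    rcases i with _ | i
    · exact ha
    · exact hb
  exact FTq_cl hK hXK hel h hv

theorem exists_Wq {M : Set ZFSet.{0}} {K H : ZFSet.{0}} (hG : Gr M K H) {x : ZFSet.{0}}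
    (hx : x ∈ H) : ∃ W ∈ H, Wd W ∧ x ∈ W ∧ HCt (cls W) x ∧ Eqv K W := by
  classical
  have hM := hG.tm
  obtain ⟨hxM, g, hgM, hg⟩ := (hG.mem x).1 hx
  -- the transitive closure of `x` is contained in `H`
  have htcH : ∀ y ∈ tc x, y ∈ H := by
    have h1 : tc x ⊆ H := tc_min (fun y hy => H_tr hG hx hy) (fun y hy z hz => H_tr hG hy hz)
    exact fun y hy => h1 hy
  obtain ⟨hHF1, hHF2, hHF3⟩ := HF_sub_H hG
  -- the enumeration `g'`
  have htcM : tc x ∈ M := (UF.tc (UF.var 0)).mem M hM (fun _ => x) (fun _ => hxM)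
  have homM : ZFSet.omega ∈ M := TM.omega hM
  set e : ZFSet.{0} := fgr (fun n => if app g n ∈ tc x then app g n else ∅) ZFSet.omega with he
  have heM : e ∈ M := FTq_m2 (G := fun g t =>
    fgr (fun n => if app g n ∈ t then app g n else ∅) ZFSet.omega) hM (by infer_instance) hgM htcM
  have hec : Ctb M e := FTq_c2 (F := fun g t n => pair n (if app g n ∈ t then app g n else ∅))
    hM (by infer_instance) hgM htcM homM (Ctb_omega hM)
  have hee : ∀ y ∈ e, ∃ n ∈ ZFSet.omega,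
      y = pair n (if app g n ∈ tc x then app g n else ∅) := by
    intro y hy
    obtain ⟨n, hn, h⟩ := mem_fgr.1 hy
    exact ⟨n, hn, h.symm⟩
  have heH : e ∈ H := by
    refine H_ctb hG heM hec ?_
    intro y hy
    obtain ⟨n, hn, rfl⟩ := hee y hy
    refine H_pair hG (hHF1 (omega_sub_HF hn)) ?_
    split_ifs with h
    · exact htcH _ h
    · exact hHF1 HF_empty
  have happ : ∀ y ∈ tc x, ∃ n ∈ ZFSet.omega, app e n = y := by
    intro y hy
    obtain ⟨n, hn, hny⟩ := hg y hy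
    refine ⟨n, hn, ?_⟩
    rw [he, app_fgr hn, hny, if_pos hy]
  have hbH : pair x e ∈ H := H_pair hG hx heH
  have hKtr : IsTr (cls K) := hG.Kw.1.tr
  have hbK : pair x e ∈ K := hKtr H hG.HK _ hbH
  obtain ⟨hK1, hK2, hK3⟩ := Wd_omega hG.Kw
  have hHFK : HF ⊆ K := Wd_tr hG.Kw hK2
  have hwo : IsWO (wh K) K := Wd_wh hG.Kw
  -- the hull
  set X : ZFSet.{0} := hzX K (wh K) (pair x e) with hX
  have hXM : X ∈ M := FTq_m2 (G := fun K b => hzX K (wh K) b) hM (by infer_instance) hG.KM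
    (H_sub_M hG hbH)
  have hXK : X ⊆ K := hzX_sub hHFK hbK hwo
  obtain ⟨hXHF, hbX⟩ := hzX_base (A := K) (w := wh K) (b := pair x e)
  have hel : ∀ (φ : Fml) (v : ℕ → ZFSet.{0}), (∀ i, v i ∈ X) →
      (SatIn (cls X) φ v ↔ SatIn (cls K) φ v) := fun φ v hv => hz_elem hHFK hKtr hbK hwo φ v hv
  have hne : X ≠ ∅ := by
    intro h
    rw [← hX, h] at hbX
    exact ZFSet.notMem_empty _ hbX
  have hHFM : HF ∈ M := UF.HF.mem M hM (fun _ => x) (fun _ => hxM)
  have hXc : Ctb M X := FTq_c2 (F := fun K b t => hz K (wh K) b t) hM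
    (UF.hz (UF.var 1) (UF.wh (UF.var 1)) (UF.var 2) (UF.var 0)) hG.KM (H_sub_M hG hbH) hHFM
    (Ctb_HF hM)
  -- closure of `X`
  have hcl : ∀ {G : ZFSet.{0} → ZFSet.{0} → ZFSet.{0}} (_ : UF (fun _ v => G (v 0) (v 1)))
      {a b : ZFSet.{0}} (_ : a ∈ X) (_ : b ∈ X), G a b ∈ X :=
    fun h _ _ ha hb => FTq_cl2 hG.Kw.1 hXK hel h ha hb
  have hxX : x ∈ X := by
    have h1 := hcl (G := fun a _ => fst a) (by infer_instance) hbX hbX
    simpa using h1
  have heX : e ∈ X := by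
    have h1 := hcl (G := fun a _ => snd a) (by infer_instance) hbX hbX
    simpa using h1
  have htcX : tc x ⊆ X := by
    intro y hy
    obtain ⟨n, hn, hny⟩ := happ y hy
    have h1 := hcl (G := fun a b => app a b) (by infer_instance) heX (hXHF (omega_sub_HF hn))
    rw [← hny]
    exact h1
  -- the hereditary part of `X`
  set T : ZFSet.{0} := ZFSet.sep (fun y => tc y ⊆ X) X with hT
  have hTX : ∀ {y : ZFSet.{0}}, y ∈ T ↔ y ∈ X ∧ tc y ⊆ X := fun {y} => ZFSet.mem_sep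
  have hTtr : ∀ y ∈ T, y ⊆ T := by
    intro y hy z hz
    obtain ⟨h1, h2⟩ := hTX.1 hy
    exact hTX.2 ⟨h2 (sub_tc y hz), fun w hw => h2 (tc_mono hz hw)⟩
  have hTup : ∀ a ∈ T, ∀ b ∈ T, ({a, b} : ZFSet.{0}) ∈ T := by
    intro a ha b hb
    have h1 : ({a, b} : ZFSet.{0}) ∈ X :=
      hcl (G := fun a b => ({a, b} : ZFSet.{0})) (by infer_instance) (hTX.1 ha).1 (hTX.1 hb).1
    refine hTX.2 ⟨h1, ?_⟩
    have h2 : tc ({a, b} : ZFSet.{0}) ⊆ T := by
      refine tc_min ?_ hTtr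
      intro z hz
      rcases ZFSet.mem_pair.1 hz with rfl | rfl
      · exact ha
      · exact hb
    exact fun z hz => (hTX.1 (h2 hz)).1
  have hTsg : ∀ a ∈ T, ({a} : ZFSet.{0}) ∈ T := by
    intro a ha
    have h1 := hTup a ha a ha
    rwa [ZFSet.pair_eq_singleton] at h1
  have hTpair : ∀ a ∈ T, ∀ b ∈ T, pair a b ∈ T := by
    intro a ha b hb
    rw [pair]
    exact hTup _ (hTsg a ha) _ (hTup a ha b hb)
  have hHFT : ∀ h ∈ HF, h ∈ T := by
    intro h hh
    refine hTX.2 ⟨hXHF hh, ?_⟩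
    have h2 : tc h ⊆ HF := tc_min (HF_tr hh) (fun y hy => HF_tr hy)
    exact fun z hz => hXHF (h2 hz)
  have htcT : ∀ y ∈ tc x, y ∈ T := by
    intro y hy
    refine hTX.2 ⟨htcX hy, ?_⟩
    have h2 : tc y ⊆ tc x := tc_min (tc_tr hy) (fun z hz => tc_tr hz)
    exact fun z hz => htcX (h2 hz)
  have htceX : tc e ⊆ X := by
    have h2 : tc e ⊆ T := by
      refine tc_min ?_ hTtr
      intro y hy
      obtain ⟨n, hn, rfl⟩ := hee y hy
      refine hTpair _ (hHFT _ (omega_sub_HF hn)) _ ?_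
      split_ifs with h
      · exact htcT _ h
      · exact hHFT _ HF_empty
    exact fun z hz => (hTX.1 (h2 hz)).1
  obtain ⟨W, hWM, hWd, hWc, hWx, F, -, -, -, hFid, hFsat⟩ :=
    collapse hM hG.Kw hXM hXK hne hel
  have h0X : ∅ ∈ X := hXHF HF_empty
  have htc0 : tc (∅ : ZFSet.{0}) ⊆ X := by
    have h1 : tc (∅ : ZFSet.{0}) ⊆ ∅ :=
      tc_min (fun _ h => h) (fun y hy => absurd hy (ZFSet.notMem_empty y))
    exact fun z hz => absurd (h1 hz) (ZFSet.notMem_empty z)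
  have hF0 : app F ∅ = ∅ := hFid ∅ h0X htc0
  have hEqv : Eqv K W := by
    intro φ
    have h1 := hFsat φ (fun _ => ∅) (fun _ => h0X)
    rw [hF0] at h1
    exact h1.symm
  have hxW : x ∈ W := hWx x hxX htcX
  have heW : e ∈ W := hWx e heX htceX
  refine ⟨W, (hG.mem W).2 ⟨hWM, ?_⟩, hWd, hxW, ⟨e, heW, happ⟩, hEqv⟩
  have h5 : tc W ⊆ W := tc_min (fun _ h => h) (fun y hy => Wd_tr hWd hy)
  exact Ctb_sub (hWc hXc) h5

end H83.PN
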