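import Pool.Agent.H83.PN.FCe
import Pool.Agent.H83.PN.FEn
import Pool.Agent.H83.PN.FTq

set_option autoImplicit false

/-!
# Module FEx: extensions of codes

`Xt_fst`: by induction on `rank (app F i)` (or `mem_wf`) for `i ∈ HF`: `cS c' (tg 2 i) a → app F' a = app F i`. (⊇) an element of `app F i` is `app F d` with `cE c d i` (it is in `W` as `W` is transitive); let
`cS c' (tg 2 d) e` (every argument has a value in `HF`, because `c'` is a real number; prove it here as in `c_val`: private lemma); `Xt.e` gives `cE c' e a`, so `app F' e ∈ app F' a`, and `app F' e = app F d` by induction.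
(⊆) an element of `app F' a` is `app F' b`, `b ∈ HF`, `cE c' b a`; let `d` be the value at `tg 3 (pair i b)`, `e` the value at `tg 2 d`: `Xt.t` gives `cE c d i`, `cQ c' e b`; `app F' b = app F' e = app F d` by induction.
Then `Xt.x` with `Cod.sat` for `chiP`, `asv (acons a (acons tX ∅))` is `a, tX, ∅, ..` (`asv_acons`, `asv_empty`), `chiP_iff` (`TM (cls W')` by `wd`).
`ex_code`: `exists_Wq`, `exists_enum`, `mk_code` with `F₀ = F` (`ht`: `W` transitive, `hr`). `ex_ext`: let `z = pair (pair (app F tX) y) W` (in `H`), `W'` from `exists_Wq` for `z`; `pair (app F tX) y ∈ W'`, `W ⊆ W'`; `exists_enum`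
for `W'` and `x = pair (app F tX) y`, `mk_code` with `F₀ = F` (`hs`: `app F i ∈ W ⊆ W'`; `ht`: `W` transitive, `Cod.rg`). `Xt c c'`: `e`: `cE c i j ↔ F i ∈ F j ↔ F' a ∈ F' b ↔ cE c' a b`. `t`: `cE c' b a` gives
`app F' b ∈ app F' a = app F i`, so `app F d = app F' b`, `app F d ∈ app F i`, `cE c d i`; `app F' e = app F d = app F' b`, `cQ c' e b`. `x`: `Cod.sat`, `chiP_iff`.
-/

namespace H83.PN

open ZFSet H83.AC

variable {M : Set ZFSet.{0}} {K H : ZFSet.{0}}

private theorem FEx_val {N : Set ZFSet.{0}} {c : ZFSet.{0}} (hc : Real N c) {a : ZFSet.{0}}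
    (_ha : a ∈ HF) : ∃ b ∈ HF, cS c a b := by
  obtain ⟨m, hm, -⟩ := hc.2.2 (ci (tg 3 a)) (ci_omega _)
  have hm' : m ∈ omega := (pair_mem_prod.1 (hc.2.1 hm)).2
  refine ⟨app cdg m, cdg_HF hm', ?_⟩
  unfold H83.PN.cS
  rw [ci_cdg hm']
  exact hm

private theorem FEx_Asg : (∅ : ZFSet.{0}) ∈ Asg HF := by
  refine mem_Asg.2 ⟨fun t ht => absurd ht (ZFSet.notMem_empty _), ?_,
    fun t ht => absurd ht (ZFSet.notMem_empty _), fun t ht => absurd ht (ZFSet.notMem_empty _)⟩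
  have h : {y : ZFSet.{0} | y ∈ (∅ : ZFSet.{0})} = ∅ := by
    ext y
    exact ⟨fun h => absurd h (ZFSet.notMem_empty _), fun h => absurd h (Set.notMem_empty _)⟩
  unfold H83.PN.Fnt
  rw [h]
  exact Set.finite_empty

private theorem FEx_tX : tX ∈ HF := tg_HF HF_empty

private theorem FEx_sat {N : Set ZFSet.{0}} {c' F' W' : ZFSet.{0}} (h' : Cod N H c' F' W')
    {a : ZFSet.{0}} (ha : a ∈ HF) :
    cT c' (fcd chiP) (acons a (acons tX ∅)) ↔ app F' tX = pair (app F' a) (snd (app F' tX)) := by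
  have h1 : acons tX ∅ ∈ Asg HF := acons_mem FEx_tX FEx_Asg
  have h2 : acons a (acons tX ∅) ∈ Asg HF := acons_mem ha h1
  have hm : ∀ i ∈ HF, app F' i ∈ W' := fun i hi => (h'.rg _).2 ⟨i, hi, rfl⟩
  have h0 : (∅ : ZFSet.{0}) ∈ HF := HF_empty
  have hv : ∀ i, app F' (asv (acons a (acons tX ∅)) i) ∈ cls W' := fun i =>
    hm _ (asv_mem h0 h2 i)
  rw [h'.sat chiP _ h2, ← chiP_iff h'.wd.1 hv, asv_acons h1, asv_acons FEx_Asg]
  rfl

theorem Xt_fst {N : Set ZFSet.{0}} (hN : Nst M N K H) {c c' F W F' W' : ZFSet.{0}}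
    (hc : Real N c) (hc' : Real N c') (h : Cod N H c F W) (h' : Cod N H c' F' W')
    (hx : Xt c c') : app F' tX = pair (app F tX) (snd (app F' tX)) := by
  have key : ∀ z : ZFSet.{0}, ∀ i ∈ HF, app F i = z → ∀ a ∈ HF, cS c' (tg 2 i) a →
      app F' a = z := by
    intro z
    induction z using ZFSet.inductionOn with
    | _ z ih =>
      intro i hi hz a ha hia
      ext u
      constructor
      · intro hu
        have h1 : app F' a ∈ W' := (h'.rg _).2 ⟨a, ha, rfl⟩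
        obtain ⟨b, hb, rfl⟩ := (h'.rg u).1 (Wd_tr h'.wd h1 hu)
        obtain ⟨d, hd, hd'⟩ := FEx_val hc' (tg_HF (n := 3) (HF_pair hi hb))
        obtain ⟨e, he, he'⟩ := FEx_val hc' (tg_HF (n := 2) hd)
        obtain ⟨h2, h3⟩ := hx.t i hi a ha b hb d hd e he hia ((h'.E b hb a ha).1 hu) hd' he'
        have h4 : app F d ∈ z := by
          rw [← hz]
          exact (h.E d hd i hi).2 h2
        have h5 := ih (app F d) h4 d hd rfl e he he'
        have h6 : app F' e = app F' b := (h'.Q e he b hb).2 h3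
        rw [← h6, h5]
        exact h4
      · intro hu
        have h1 : app F i ∈ W := (h.rg _).2 ⟨i, hi, rfl⟩
        have hu' : u ∈ app F i := by
          rw [hz]
          exact hu
        obtain ⟨d, hd, rfl⟩ := (h.rg u).1 (Wd_tr h.wd h1 hu')
        obtain ⟨e, he, he'⟩ := FEx_val hc' (tg_HF (n := 2) hd)
        have h2 : cE c d i := (h.E d hd i hi).1 hu'
        have h3 : cE c' e a := (hx.e d hd i hi e he a ha he' hia).1 h2
        have h4 : app F' e ∈ app F' a := (h'.E e he a ha).2 h3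
        rw [ih (app F d) hu d hd rfl e he he'] at h4
        exact h4
  obtain ⟨a, ha, ha'⟩ := FEx_val hc' (tg_HF (n := 2) FEx_tX)
  have h1 := (FEx_sat h' ha).1 (hx.x a ha ha')
  rw [key _ tX FEx_tX rfl a ha ha'] at h1
  exact h1

theorem ex_code {N : Set ZFSet.{0}} (hN : Nst M N K H) {x : ZFSet.{0}} (hx : x ∈ H) :
    ∃ c F W, Real N c ∧ Cst (Thy K) c ∧ WFc N c ∧ Cod N H c F W ∧ app F tX = x := by
  obtain ⟨W, hW, hWd, hxW, -, he⟩ := exists_Wq hN.gr hx
  obtain ⟨F, hF, hr, hb, h0, hX⟩ := exists_enum hN hW hWd hxW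
  have hs : ∀ i ∈ HF, app F i ∈ W := fun i hi => (hr _).2 ⟨i, hi, rfl⟩
  obtain ⟨c, h1, h2, h3, h4, -, -⟩ := mk_code hN hW hWd he hF hF hr hb h0 hs
    (fun i hi z hz => (hr z).1 (Wd_tr hWd (hs i hi) hz))
  exact ⟨c, F, W, h1, h2, h3, h4, hX⟩

private theorem FEx_fst {W x y : ZFSet.{0}} (hW : Wd W) (h : pair x y ∈ W) : x ∈ W ∧ y ∈ W := by
  have h1 : ({x, y} : ZFSet) ∈ W := by
    refine Wd_tr hW h ?_
    rw [pair]
    simp
  exact ⟨Wd_tr hW h1 (by simp), Wd_tr hW h1 (by simp)⟩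

theorem ex_ext {N : Set ZFSet.{0}} (hN : Nst M N K H) {c F W y : ZFSet.{0}} (hc : Real N c)
    (h : Cod N H c F W) (hy : y ∈ H) :
    ∃ c' F' W', Real N c' ∧ Cst (Thy K) c' ∧ WFc N c' ∧ Cod N H c' F' W' ∧ Xt c c' ∧
      app F' tX = pair (app F tX) y := by
  have hs0 : ∀ i ∈ HF, app F i ∈ W := fun i hi => (h.rg _).2 ⟨i, hi, rfl⟩
  have hX : app F tX ∈ H := H_tr hN.gr h.WH (hs0 _ FEx_tX)
  have hz : pair (pair (app F tX) y) W ∈ H := H_pair hN.gr (H_pair hN.gr hX hy) h.WH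
  obtain ⟨W', hW', hWd', hzW', -, he⟩ := exists_Wq hN.gr hz
  obtain ⟨hp, hWW'⟩ := FEx_fst hWd' hzW'
  have hsub : W ⊆ W' := Wd_tr hWd' hWW'
  obtain ⟨F', hF', hr, hb, h0, hX'⟩ := exists_enum hN hW' hWd' hp
  obtain ⟨c', h1, h2, h3, h4, h5, h6⟩ := mk_code hN hW' hWd' he hF' h.FN hr hb h0
    (fun i hi => hsub (hs0 i hi)) (fun i hi z hz => (h.rg z).1 (Wd_tr h.wd (hs0 i hi) hz))
  refine ⟨c', F', W', h1, h2, h3, h4, ⟨?_, ?_, ?_⟩, hX'⟩
  · intro i hi j hj a ha b hb ha' hb'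
    rw [← h.E i hi j hj, ← h4.E a ha b hb, h5 i hi a ha ha', h5 j hj b hb hb']
  · intro i hi a ha b hb d hd e he' ha' hba hd' hee
    have h7 : app F' b ∈ app F' a := (h4.E b hb a ha).2 hba
    rw [h5 i hi a ha ha'] at h7
    have h8 : app F d = app F' b := h6 i hi b hb h7 d hd hd'
    have h9 : app F' e = app F d := h5 d hd e he' hee
    refine ⟨(h.E d hd i hi).1 ?_, (h4.Q e he' b hb).1 (h9.trans h8)⟩
    rw [h8]
    exact h7
  · intro a ha ha'
    refine (FEx_sat h4 ha).2 ?_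
    rw [h5 tX FEx_tX a ha ha', hX', snd_pair]

end H83.PN
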