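import Pool.Agent.H83.PN.FCo
import Pool.Agent.H83.PN.FEx

set_option autoImplicit false

/-!
# Module FPq: the translation is correct

`PP_cod`: the first part of `PP` (cases on `m`) and `cod_of`. `PP_iff` by induction on `m`, for all `c`. `m = 0`: `Cod.sat` for `β` and `s = acons tX ∅` (`asv`: `tX, ∅, ..`), `hβ` for the model `cls W`. `m + 1`: (→) let `y ∈ H`; `ex_ext` gives
`c'`, `F'`, `W'` with `Xt c c'`, `app F' tX = pair (app F tX) y`; if `Px H B m (pair (app F tX) y)` then `PP N (Thy K) (fcd β) m c'` by induction, contradiction. (←) if `c'` is real, `Xt c c'` and `PP .. m c'` then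
`PP_cod` gives `F'`, `W'`, and by induction `Px H B m (app F' tX)`; `Xt_fst`: `app F' tX = pair (app F tX) y` with `y = snd (app F' tX) ∈ H` (`app F' tX ∈ W' ∈ H`; `H_tr`, `H_uf1`).
-/

namespace H83.PN

open ZFSet H83.AC

variable {M : Set ZFSet.{0}} {K H : ZFSet.{0}}

theorem exists_beta {B : ZFSet.{0} → Prop} (h : UR (fun _ v => B (v 0))) : ∃ β : Fml, ∀ N, TM N →
    ∀ v : ℕ → ZFSet.{0}, (∀ i, v i ∈ N) → (B (v 0) ↔ SatIn N β v) := by
  obtain ⟨φ, hφ⟩ := h.out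
  refine ⟨φ, fun N hN v hv => ?_⟩
  exact (hφ N hN (fun i => ⟨v i, hv i⟩)).trans (sat_iff N φ (fun i => ⟨v i, hv i⟩))

private theorem FPq_base {N : Set ZFSet.{0}} {b c : ZFSet.{0}} {Th : ZFSet.{0}} {m : ℕ}
    (h : PP N Th b m c) : Cst Th c ∧ WFc N c := by
  cases m with
  | zero => exact h.1
  | succ m => exact h.1

theorem PP_cod {N : Set ZFSet.{0}} (hN : Nst M N K H) {b c : ZFSet.{0}} (hc : Real N c) {m : ℕ}
    (h : PP N (Thy K) b m c) : ∃ F W, Cod N H c F W :=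
  cod_of hN hc (FPq_base h).1 (FPq_base h).2

private theorem FPq_tX : tX ∈ HF := tg_HF HF_empty

private theorem FPq_s0 : (∅ : ZFSet.{0}) ∈ Asg HF := by
  rw [mem_Asg]
  refine ⟨fun t ht => absurd ht (ZFSet.notMem_empty t), ?_, ?_, ?_⟩
  · have : {y | y ∈ (∅ : ZFSet.{0})} = (∅ : Set ZFSet.{0}) := by
      ext y
      simp
    unfold Fnt
    rw [this]
    exact Set.finite_empty
  · intro t ht
    exact absurd ht (ZFSet.notMem_empty t)
  · intro t ht
    exact absurd ht (ZFSet.notMem_empty t)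

private theorem FPq_s : acons tX ∅ ∈ Asg HF := acons_mem FPq_tX FPq_s0

private theorem FPq_zero {N : Set ZFSet.{0}} {B : ZFSet.{0} → Prop} {β : Fml}
    (hβ : ∀ N, TM N → ∀ v : ℕ → ZFSet.{0}, (∀ i, v i ∈ N) → (B (v 0) ↔ SatIn N β v))
    {c F W : ZFSet.{0}} (h : Cod N H c F W) :
    cT c (fcd β) (acons tX ∅) ↔ B (app F tX) := by
  rw [h.sat β _ FPq_s]
  have h1 : ∀ i, (fun i => app F (asv (acons tX ∅) i)) i ∈ cls W := fun i =>
    (h.rg _).2 ⟨_, asv_mem HF_empty FPq_s i, rfl⟩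
  have h2 := hβ (cls W) h.wd.1 (fun i => app F (asv (acons tX ∅) i)) h1
  have h3 : asv (acons tX ∅) 0 = tX := by
    rw [asv_acons FPq_s0]
    rfl
  rw [← h2, h3]

theorem PP_iff {N : Set ZFSet.{0}} (hN : Nst M N K H) {B : ZFSet.{0} → Prop} {β : Fml}
    (hβ : ∀ N, TM N → ∀ v : ℕ → ZFSet.{0}, (∀ i, v i ∈ N) → (B (v 0) ↔ SatIn N β v)) (m : ℕ)
    {c F W : ZFSet.{0}} (hc : Real N c) (hs : Cst (Thy K) c) (hw : WFc N c)
    (h : Cod N H c F W) : PP N (Thy K) (fcd β) m c ↔ Px H B m (app F tX) := by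
  induction m generalizing c F W with
  | zero =>
    constructor
    · intro hp
      exact (FPq_zero hβ h).1 hp.2
    · intro hp
      exact ⟨⟨hs, hw⟩, (FPq_zero hβ h).2 hp⟩
  | succ m ih =>
    constructor
    · intro hp y hy hB
      obtain ⟨c', F', W', h1, h2, h3, h4, h5, h6⟩ := ex_ext hN hc h hy
      refine hp.2 c' h1 ⟨h5, ?_⟩
      rw [ih h1 h2 h3 h4, h6]
      exact hB
    · intro hp
      refine ⟨⟨hs, hw⟩, fun c' hc' hx => ?_⟩
      obtain ⟨F', W', h'⟩ := PP_cod hN hc' hx.2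
      have h1 := (ih hc' (FPq_base hx.2).1 (FPq_base hx.2).2 h').1 hx.2
      have h2 := Xt_fst hN hc hc' h h' hx.1
      have h3 : app F' tX ∈ H := H_tr hN.gr h'.WH ((h'.rg _).2 ⟨tX, FPq_tX, rfl⟩)
      have h4 : snd (app F' tX) ∈ H := H_uf1 hN.gr (F := fun x => snd x) (by infer_instance) h3
      refine hp _ h4 ?_
      rw [← h2]
      exact h1

end H83.PN
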