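import Pool.Agent.H83.PN.FRk
import Pool.Agent.H83.PN.FPq
import Pool.Agent.H83.PN.FPm
import Pool.Agent.H83.PN.FP2

set_option autoImplicit false

/-!
# Module FAk: the sets `A_k` are of the class `Π¹_(n+3)`

Let `B` be from `PH_Rk` (`Rk H n k x ↔ Px H B (n+1) x` for `x ∈ H`), `β` from `exists_beta`, `chi` a formula for the absolute relation `v 2 ∈ app (snd (snd (snd (snd (v 0))))) (v 1)`.
For `y, c` let `Bad y c`: `∀ a ∈ HF, ∃ b ∈ HF, a ∈ prod omega omega → (b ∈ y ∧ fst b ∉ snd a ∧ b ∈ prod omega omega ∧ cT c (fcd chi) (acons tX (acons (tg 0 (fst a)) (acons (tg 0 b) ∅))))`.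
Claim: for all `y`: `AkP (UM M n H) (nz k) y ↔ ∀ c, Real N c → ¬ (PP N (Thy K) (fcd β) (n+1) c ∧ Bad y c)`. For a code `c` of `x = app F tX` (`Cod.sat`): `Bad y c` iff for all `i, m ∈ omega` there are `l, j ∈ omega`,
`l ∉ m`, `pair l j ∈ y`, `pair l j ∈ app (snd (snd (snd (snd x)))) i`, that is: for all `i`, `¬ Edf y (app .. i)`. (→) `AkP_Rk`, `PP_cod`, `PP_iff`. (←) `AkP_Rk`: let `x ∈ H`, `Rk H n k x`; `ex_code`.
Complexity: `fun w => PP N (Thy K) (fcd β) (n+1) (lft w) ∧ Bad (rgt w) (lft w)` is in `PC N (n+2)`: `PP_PC`, `PC_comp`, `TCon_lft`; `Bad`: `PC_P02` (`TLoc` for fixed `a, b`; parameters none), `PC_le`; then `PC_alln`.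
`PiS_Ak`: `PC` gives `T` for all `z` with `SHF N z` (`Real.shf`); `AkS N U k ∈ N` by `AkS_N`.
-/

namespace H83.PN

open ZFSet H83.AC

variable {M : Set ZFSet.{0}} {K H : ZFSet.{0}}

/-- the set of the real numbers of `N` which satisfy `AkP` -/
noncomputable def AkS (N : Set ZFSet.{0}) (U k : ZFSet.{0}) : ZFSet.{0} :=
  ZFSet.sep (fun y => y ∈ N ∧ IsFunc omega omega y ∧ AkP U k y) (powerset (ZFSet.prod omega omega))

theorem mem_AkS {N : Set ZFSet.{0}} {U k y : ZFSet.{0}} :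
    y ∈ AkS N U k ↔ Real N y ∧ AkP U k y := by
  rw [AkS, mem_sep, mem_powerset]
  unfold AC.Real
  constructor
  · rintro ⟨-, h1, h2, h3⟩
    exact ⟨⟨h1, h2⟩, h3⟩
  · rintro ⟨⟨h1, h2⟩, h3⟩
    exact ⟨h2.1, h1, h2, h3⟩

private theorem FAk_chi : ∃ φ : Fml, ∀ N, TM N → ∀ v : ℕ → ZFSet.{0}, (∀ i, v i ∈ N) →
    (v 2 ∈ app (snd (snd (snd (snd (v 0))))) (v 1) ↔ SatIn N φ v) := by
  have h : UR (fun _ v => v 2 ∈ app (snd (snd (snd (snd (v 0))))) (v 1)) := by infer_instance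
  obtain ⟨φ, hφ⟩ := h.out
  refine ⟨φ, fun N hN v hv => ?_⟩
  exact (hφ N hN (fun i => ⟨v i, hv i⟩)).trans (sat_iff N φ (fun i => ⟨v i, hv i⟩))

/-- the matrix of `Bad` -/
private def FAkR (q a b z : ZFSet.{0}) : Prop :=
  a ∈ ZFSet.prod omega omega → (b ∈ rgt z ∧ fst b ∉ snd a ∧ b ∈ ZFSet.prod omega omega ∧
    cT (lft z) q (acons tX (acons (tg 0 (fst a)) (acons (tg 0 b) ∅))))

private theorem FAkR_ur : UR (fun _ v => FAkR (v 3) (v 0) (v 1) (v 2)) := by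
  unfold FAkR tX
  infer_instance

private theorem FAk_cod {N : Set ZFSet.{0}} (hN : Nst M N K H) {chi : Fml}
    (hchi : ∀ N, TM N → ∀ v : ℕ → ZFSet.{0}, (∀ i, v i ∈ N) →
      (v 2 ∈ app (snd (snd (snd (snd (v 0))))) (v 1) ↔ SatIn N chi v))
    {c F W i b : ZFSet.{0}} (h : Cod N H c F W) (hi : i ∈ HF) (hb : b ∈ HF) :
    cT c (fcd chi) (acons tX (acons (tg 0 i) (acons (tg 0 b) ∅))) ↔
      b ∈ app (snd (snd (snd (snd (app F tX))))) i := by
  have ht : tX ∈ HF := tg_HF HF_empty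
  have h0 : (∅ : ZFSet.{0}) ∈ Asg HF :=
    mem_Asg.2 ⟨fun z hz => absurd hz (notMem_empty z), Fnt_empty,
      ⟨fun t h => absurd h (notMem_empty t), fun t h => absurd h (notMem_empty t)⟩⟩
  have h1 : acons (tg 0 b) ∅ ∈ Asg HF := acons_mem (tg_HF hb) h0
  have h2 : acons (tg 0 i) (acons (tg 0 b) ∅) ∈ Asg HF := acons_mem (tg_HF hi) h1
  have h3 : acons tX (acons (tg 0 i) (acons (tg 0 b) ∅)) ∈ Asg HF := acons_mem ht h2
  rw [h.sat chi _ h3]
  have hv : ∀ j, app F (asv (acons tX (acons (tg 0 i) (acons (tg 0 b) ∅))) j) ∈ cls W :=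
    fun j => (h.rg _).2 ⟨_, asv_mem HF_empty h3 j, rfl⟩
  rw [← hchi (cls W) h.wd.1 _ hv, asv_acons h2, asv_acons h1, asv_acons h0]
  show app F (tg 0 b) ∈ app (snd (snd (snd (snd (app F tX))))) (app F (tg 0 i)) ↔ _
  rw [h.ba b hb, h.ba i hi]

theorem PC_Ak {N : Set ZFSet.{0}} (hN : Nst M N K H) (n k : ℕ) :
    PC N (n + 3) (fun y => AkP (UM M n H) (nz k) y) := by
  obtain ⟨B, hB, hBx⟩ := PH_Rk hN.gr n k
  obtain ⟨β, hβ⟩ := exists_beta hB
  obtain ⟨chi, hchi⟩ := FAk_chi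
  have hT : Thy K ∈ N := Thy_N hN.tm (hN.sub K hN.gr.KM)
  have h1 : PC N (n + 2) (fun w => PP N (Thy K) (fcd β) (n + 1) (lft w)) := by
    have h2 := PP_PC hN.tm (Th := Thy K) (b := fcd β) hT (fcd_HF β) (n + 1)
    refine PC_comp hN.tm (TCon_lft hN.tm) ?_ h2
    exact DfF_UF hN.tm (F := fun _ z _ => lft z) (v := fun _ => Thy K) (by infer_instance)
      (fun _ => hT)
  have h2 : PC N 1 (fun w => ∀ a ∈ HF, ∃ b ∈ HF, FAkR (fcd chi) a b w) := by
    have h3 := PC_P02 hN.tm (R := fun _ a b z v => FAkR (v 0) a b z) FAkR_ur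
      (v := fun _ => fcd chi) (fun _ => (UF.fcd chi).mem N hN.tm (fun _ => Thy K) (fun _ => hT))
      (fun a ha b hb => ?_)
    · exact h3
    · refine TLoc.imp (TLoc_const _) (TLoc.and ?_ (TLoc.and (TLoc_const _)
        (TLoc.and (TLoc_const _) ?_)))
      · exact (TCon_rgt hN.tm).loc (TLoc_mem b)
      · exact (TCon_lft hN.tm).loc (TLoc_mem _)
  have h3 := PC_alln hN.tm (PC_and hN.tm h1 (PC_le hN.tm (by omega : 1 ≤ n + 2) h2))
  refine PC_congr (fun y hy => ?_) h3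
  have key : ∀ c, Real N c → ((PP N (Thy K) (fcd β) (n + 1) (lft (jn c y)) ∧
      ∀ a ∈ HF, ∃ b ∈ HF, FAkR (fcd chi) a b (jn c y)) ↔
      (PP N (Thy K) (fcd β) (n + 1) c ∧ ∀ a ∈ ZFSet.prod omega omega, ∃ b ∈ ZFSet.prod omega omega,
        b ∈ y ∧ fst b ∉ snd a ∧
          cT c (fcd chi) (acons tX (acons (tg 0 (fst a)) (acons (tg 0 b) ∅))))) := by
    intro c hc
    rw [lft_jn (H83.PN.Real.shf hc).2]
    refine and_congr_right fun _ => ?_
    have hsub : ZFSet.prod omega omega ⊆ (HF : ZFSet.{0}) := by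
      intro t ht
      obtain ⟨a, ha, b, hb, rfl⟩ := mem_prod.1 ht
      exact HF_pair (omega_sub_HF ha) (omega_sub_HF hb)
    constructor
    · intro h a ha
      obtain ⟨b, hb, h4⟩ := h a (hsub ha)
      obtain ⟨h5, h6, h7, h8⟩ := h4 ha
      rw [lft_jn (H83.PN.Real.shf hc).2] at h8
      rw [rgt_jn hy.2] at h5
      exact ⟨b, h7, h5, h6, h8⟩
    · intro h a ha
      by_cases h4 : a ∈ ZFSet.prod omega omega
      · obtain ⟨b, h7, h5, h6, h8⟩ := h a h4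
        refine ⟨b, hsub h7, fun _ => ?_⟩
        rw [lft_jn (H83.PN.Real.shf hc).2, rgt_jn hy.2]
        exact ⟨h5, h6, h7, h8⟩
      · exact ⟨∅, HF_empty, fun h5 => absurd h5 h4⟩
  have e : (∀ c, Real N c → ¬ (PP N (Thy K) (fcd β) (n + 1) (lft (jn c y)) ∧
      ∀ a ∈ HF, ∃ b ∈ HF, FAkR (fcd chi) a b (jn c y))) ↔
      ∀ c, Real N c → ¬ (PP N (Thy K) (fcd β) (n + 1) c ∧
        ∀ a ∈ ZFSet.prod omega omega, ∃ b ∈ ZFSet.prod omega omega,
        b ∈ y ∧ fst b ∉ snd a ∧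
          cT c (fcd chi) (acons tX (acons (tg 0 (fst a)) (acons (tg 0 b) ∅)))) :=
    forall_congr' fun c => forall_congr' fun hc => not_congr (key c hc)
  show AkP (UM M n H) (nz k) y ↔ _
  rw [e, AkP_Rk hN.gr]
  constructor
  · rintro h c hc ⟨hP, hbad⟩
    obtain ⟨F, W, hcod⟩ := PP_cod hN hc hP
    have hcw : Cst (Thy K) c ∧ WFc N c := hP.1
    have hxH : app F tX ∈ H := by
      refine H_tr hN.gr hcod.WH ((hcod.rg _).2 ⟨tX, tg_HF HF_empty, rfl⟩)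
    have hPx := (PP_iff hN hβ (n + 1) hc hcw.1 hcw.2 hcod).1 hP
    obtain ⟨i, hi, m, hm, hE⟩ := h _ hxH ((hBx _ hxH).2 hPx)
    obtain ⟨b, hb, h1, h2, h3⟩ := hbad (pair i m) (pair_mem_prod.2 ⟨hi, hm⟩)
    rw [snd_pair] at h2
    rw [fst_pair] at h3
    obtain ⟨l, hl, j, hj, rfl⟩ := mem_prod.1 hb
    rw [fst_pair] at h2
    have h4 := (FAk_cod hN hchi hcod (omega_sub_HF hi)
      (HF_pair (omega_sub_HF hl) (omega_sub_HF hj))).1 h3
    exact hE l hl h2 j hj h1 h4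
  · intro h x hx hR
    by_contra hcon
    push Not at hcon
    obtain ⟨c, F, W, hc, hcs, hcw, hcod, hFx⟩ := ex_code hN hx
    refine h c hc ⟨(PP_iff hN hβ (n + 1) hc hcs hcw hcod).2 ?_, ?_⟩
    · rw [hFx]
      exact (hBx x hx).1 hR
    · intro a ha
      obtain ⟨i, hi, m, hm, rfl⟩ := mem_prod.1 ha
      have h1 := hcon i hi
      unfold Edf at h1
      push Not at h1
      obtain ⟨l, hl, hlm, j, hj, h2, h3⟩ := h1 m hm
      refine ⟨pair l j, pair_mem_prod.2 ⟨hl, hj⟩, h2, ?_, ?_⟩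
      · rw [fst_pair, snd_pair]
        exact hlm
      · rw [fst_pair]
        refine (FAk_cod hN hchi hcod (omega_sub_HF hi)
          (HF_pair (omega_sub_HF hl) (omega_sub_HF hj))).2 ?_
        rw [hFx]
        exact h3

/-- the code of `A_k` -/
theorem PiS_Ak {N : Set ZFSet.{0}} (hN : Nst M N K H) (n k : ℕ) :
    ∃ T ∈ N, ∀ x, Real N x → (x ∈ AkS N (UM M n H) (nz k) ↔ Pr N (n + 3) T x) := by
  obtain ⟨T, hT, h⟩ := PC_Ak hN n k
  refine ⟨T, hT, fun x hx => ?_⟩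
  rw [mem_AkS, ← h x (H83.PN.Real.shf hx)]
  exact ⟨fun h => h.2, fun h => ⟨hx, h⟩⟩

/-- the sequence of the sets `A_k` is in `N` -/
theorem AkS_N {N : Set ZFSet.{0}} (hN : TM N) {U : ZFSet.{0}} (hU : U ∈ N) :
    fgr (fun k => AkS N U k) omega ∈ N := by
  have h : UF (fun N v => fgr (fun k => AkS N (v 0) k) omega) := by
    have h1 : ∀ (N : Set ZFSet.{0}) (U k : ZFSet.{0}), AkS N U k = ZFSet.sep (fun y =>
        IsFunc omega omega y ∧ AkP U k y)
          (ZFSet.sep (fun y => y ∈ N) (powerset (ZFSet.prod omega omega))) := by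
      intro N U k
      ext y
      rw [AkS, mem_sep, mem_sep, mem_sep]
      tauto
    simp only [h1]
    refine UF.fgr (F := fun N k v => ZFSet.sep (fun y => IsFunc omega omega y ∧ AkP (v 0) k y)
      (ZFSet.sep (fun y => y ∈ N) (powerset (ZFSet.prod omega omega)))) UF.omega ?_
    refine UF.sep (R := fun _ y v => IsFunc omega omega y ∧ AkP (v 1) (v 0) y)
      (UF.pow (f := fun _ _ => ZFSet.prod omega omega) (by infer_instance)) ?_
    infer_instance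
  exact h.mem N hN (fun _ => U) (fun _ => hU)

end H83.PN
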