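import Pool.Agent.H83.PN.FTh
import Pool.Agent.H83.PN.WNx

set_option autoImplicit false

/-!
# Module FCe: codes exist

`mk_code`: `c = fgr (fun n => yv (app cdg n)) omega` where `yv u` is: for `fst u = nz 0`: `one` if `app F (fst (snd u)) ∈ app F (snd (snd u))`, else `∅`; for `nz 1` the same with `=`;
for `nz 2`: `one` if `evs F s ∈ Asg W` and `SatZ W a (evs F s)` where `snd u = pair a s` (`UR.SatZ`; `asv (evs F s) i = app F (asv s i)` for `s ∈ Asg HF` because `app F ∅ = ∅`; `evs F s ∈ Asg W`), else `∅`;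
for `fst u = nz 3` let `a = snd u`: the value is `ci b` where `b` is the element of `HF` which is least in the order `wh omega` (`lst (wh omega) ..`, `w_wo`/`wh_wo`, `lst_mem`) such that: if
`a = tg 0 (pair i j)`: `(F b ∈ F i ∧ F b ∉ F j) ∨ (F b ∉ F i ∧ F b ∈ F j)`; if `a = tg 1 (pair d s)`: `¬ SatZ W d (acons (F b) (evs F s))`; if `a = tg 2 i`: `F b = app F₀ i`;
if `a = tg 3 (pair i d)`: `app F₀ b = F d ∈ ..` (only `app F₀ b = F d` is needed); otherwise `∅` (if there is no such `b` the value is arbitrary: `ci` always has values in `omega`).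
Compare with `yv`, `yr` in `AC/Defs4.lean` and modules `AC/YrF.lean`, `AC/KFa.lean`, `AC/KFb.lean`. `c ∈ N`: `infer_instance` after unfolding. `cE c i j ↔ F i ∈ F j`, `cQ c i j ↔ F i = F j`,
`cT c a s ↔ SatZ W a (evs F s)` for `s ∈ Asg HF`, `a ∈ FC` (`one ≠ ∅`, `cdg_ci`, `ci_inj`), `cS c a b` for `b ∈ HF` iff `b` is the chosen element. All clauses of `Cst` follow (`fcd`, `asv_acons`,
`W` transitive for `ex`; `th`: `Eqv`, `Thy_mem`). `WFc`: a descending sequence `f` gives `F (cdg (f (n+1))) ∈ F (cdg (f n))` for all `n`, impossible (`ZFSet.mem_wf`, or `rank`).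
-/

namespace H83.PN

open ZFSet H83.AC

variable {M : Set ZFSet.{0}} {K H : ZFSet.{0}}

variable {f g h k l : Set ZFSet.{0} → (ℕ → ZFSet.{0}) → ZFSet.{0}}

/-! ### The values of the code -/

/-- truth under the interpretation `F` -/
private def FCe_T (W F d s : ZFSet.{0}) : Prop := evs F s ∈ Asg W ∧ SatZ W d (evs F s)

/-- `b` is a counterexample -/
private def FCe_K (W F d s b : ZFSet.{0}) : Prop :=
  acons (app F b) (evs F s) ∈ Asg W ∧ ¬ SatZ W d (acons (app F b) (evs F s))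

private noncomputable def FCe_C (W F G a : ZFSet.{0}) : ZFSet.{0} :=
  ZFSet.sep (fun b =>
    (fst a = nz 0 ∧ ((app F b ∈ app F (fst (snd a)) ∧ app F b ∉ app F (snd (snd a))) ∨
      (app F b ∉ app F (fst (snd a)) ∧ app F b ∈ app F (snd (snd a))))) ∨
    (fst a = nz 1 ∧ FCe_K W F (fst (snd a)) (snd (snd a)) b) ∨
    (fst a = nz 2 ∧ app F b = app G (snd a)) ∨
    (fst a = nz 3 ∧ app G b = app F (snd (snd a)))) HF

open Classical in
private noncomputable def FCe_v (W F G u : ZFSet.{0}) : ZFSet.{0} :=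
  if fst u = nz 0 then (if app F (fst (snd u)) ∈ app F (snd (snd u)) then one else ∅)
  else if fst u = nz 1 then (if app F (fst (snd u)) = app F (snd (snd u)) then one else ∅)
  else if fst u = nz 2 then (if FCe_T W F (fst (snd u)) (snd (snd u)) then one else ∅)
  else ci (lst (wh omega) (FCe_C W F G (snd u)))

private noncomputable def FCe_c (W F G : ZFSet.{0}) : ZFSet.{0} :=
  fgr (fun n => FCe_v W F G (app cdg n)) omega

/-! ### Definability -/

private theorem FCe_evs (hf : UF f) (hg : UF g) : UF (fun N v => evs (f N v) (g N v)) := by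
  unfold evs
  infer_instance

private instance FCe_iT [hf : UF f] [hg : UF g] [hh : UF h] [hk : UF k] :
    UR (fun N v => FCe_T (f N v) (g N v) (h N v) (k N v)) := by
  unfold FCe_T
  exact UR.SatZ hf hh (FCe_evs hg hk)

private instance FCe_iK [hf : UF f] [hg : UF g] [hh : UF h] [hk : UF k] [hl : UF l] :
    UR (fun N v => FCe_K (f N v) (g N v) (h N v) (k N v) (l N v)) := by
  have e2 : UF (fun N v => acons (app (g N v) (l N v)) (evs (g N v) (k N v))) :=
    Inst.acons (hf := UF.app hg hl) (hg := FCe_evs hg hk)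
  have e3 := UR.SatZ hf hh e2
  have e4 : UR (fun N v => acons (app (g N v) (l N v)) (evs (g N v) (k N v)) ∈ Asg (f N v)) :=
    UR.mem e2 (Inst.Asg (hf := hf))
  refine (e4.and e3.not).congr fun N _ v _ => ?_
  unfold FCe_K
  constructor
  · rintro ⟨a, b⟩
    exact ⟨a, fun c => b c.2⟩
  · rintro ⟨a, b⟩
    exact ⟨a, fun c => b ⟨a, c⟩⟩

private instance FCe_iC [hf : UF f] [hg : UF g] [hh : UF h] [hk : UF k] :
    UF (fun N v => FCe_C (f N v) (g N v) (h N v) (k N v)) := by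
  unfold FCe_C
  infer_instance

private instance FCe_iv [hf : UF f] [hg : UF g] [hh : UF h] [hk : UF k] :
    UF (fun N v => FCe_v (f N v) (g N v) (h N v) (k N v)) := by
  unfold FCe_v
  infer_instance

private theorem FCe_ic : UF (fun _ v => FCe_c (v 0) (v 1) (v 2)) := by
  unfold FCe_c
  infer_instance

private theorem FCe_N {N : Set ZFSet.{0}} (hN : TM N) {W F G : ZFSet.{0}} (hW : W ∈ N)
    (hF : F ∈ N) (hG : G ∈ N) : FCe_c W F G ∈ N := by
  have h1 := FCe_ic.mem N hN (cons W (cons F (fun _ => G))) fun i => by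
    match i with
    | 0 => exact hW
    | 1 => exact hF
    | i + 2 => exact hG
  exact h1

/-! ### Values -/

private theorem FCe_one : one ∈ omega := by
  have h := nz_mem_omega 1
  have h1 : nz 1 = one := by
    ext z
    simp [nz, one]
  rwa [h1] at h

private theorem FCe_ne : one ≠ (∅ : ZFSet.{0}) := by
  intro h
  have h1 : (∅ : ZFSet.{0}) ∈ one := by simp [one]
  rw [h] at h1
  exact ZFSet.notMem_empty _ h1

private theorem FCe_ite (p : Prop) [Decidable p] :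
    one = (if p then one else (∅ : ZFSet.{0})) ↔ p := by
  by_cases h : p
  · simp [h]
  · simp [h, FCe_ne]

private theorem FCe_lst {S : ZFSet.{0}} (hS : S ⊆ HF) :
    lst (wh omega) S ∈ HF ∧ (S ≠ ∅ → lst (wh omega) S ∈ S) := by
  have hw : IsWO (wh omega) HF := by
    rw [wh, rank_omega]
    exact wo_wo _
  by_cases hne : S = ∅
  · rw [hne, lst_empty]
    exact ⟨HF_empty, fun h => absurd rfl h⟩
  · exact ⟨hS (lst_mem hw hS hne), fun _ => lst_mem hw hS hne⟩

private theorem FCe_Csub (W F G a : ZFSet.{0}) : FCe_C W F G a ⊆ HF := by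
  intro b hb
  unfold FCe_C at hb
  exact (mem_sep.1 hb).1

private theorem FCe_real (W F G : ZFSet.{0}) : IsFunc omega omega (FCe_c W F G) := by
  unfold FCe_c
  refine fn_fgr fun n _ => ?_
  unfold FCe_v
  split_ifs
  · exact FCe_one
  · exact nz_mem_omega 0
  · exact FCe_one
  · exact nz_mem_omega 0
  · exact FCe_one
  · exact nz_mem_omega 0
  · exact ci_omega _

private theorem FCe_mem {W F G x y : ZFSet.{0}} (hx : x ∈ HF) :
    pair (ci x) y ∈ FCe_c W F G ↔ y = FCe_v W F G x := by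
  unfold FCe_c
  rw [pair_mem_fgr, cdg_ci hx]
  exact ⟨fun h => h.2, fun h => ⟨ci_omega x, h⟩⟩

private theorem FCe_E {W F G i j : ZFSet.{0}} (hi : i ∈ HF) (hj : j ∈ HF) :
    cE (FCe_c W F G) i j ↔ app F i ∈ app F j := by
  unfold cE
  rw [FCe_mem (tg_HF (HF_pair hi hj)), FCe_v, if_pos (by simp [tg]), FCe_ite]
  simp only [tg, fst_pair, snd_pair]

private theorem FCe_Q {W F G i j : ZFSet.{0}} (hi : i ∈ HF) (hj : j ∈ HF) :
    cQ (FCe_c W F G) i j ↔ app F i = app F j := by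
  unfold cQ
  rw [FCe_mem (tg_HF (HF_pair hi hj)), FCe_v, if_neg (by simp [tg, nz_inj]),
    if_pos (by simp [tg]), FCe_ite]
  simp only [tg, fst_pair, snd_pair]

private theorem FCe_TT {W F G a s : ZFSet.{0}} (ha : a ∈ HF) (hs : s ∈ HF) :
    cT (FCe_c W F G) a s ↔ FCe_T W F a s := by
  unfold cT
  rw [FCe_mem (tg_HF (HF_pair ha hs)), FCe_v, if_neg (by simp [tg, nz_inj]),
    if_neg (by simp [tg, nz_inj]), if_pos (by simp [tg]), FCe_ite]
  simp only [tg, fst_pair, snd_pair]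

private theorem FCe_S {W F G a b : ZFSet.{0}} (ha : a ∈ HF) (hb : b ∈ HF)
    (h : cS (FCe_c W F G) a b) (hne : ∃ z, z ∈ FCe_C W F G a) : b ∈ FCe_C W F G a := by
  unfold cS at h
  rw [FCe_mem (tg_HF ha), FCe_v, if_neg (by simp [tg, nz_inj]),
    if_neg (by simp [tg, nz_inj]), if_neg (by simp [tg, nz_inj])] at h
  simp only [tg, snd_pair] at h
  obtain ⟨h1, h2⟩ := FCe_lst (FCe_Csub W F G a)
  have h3 := ci_inj hb h1 h
  rw [h3]
  refine h2 fun h4 => ?_
  obtain ⟨z, hz⟩ := hne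
  rw [h4] at hz
  exact ZFSet.notMem_empty _ hz

private theorem FCe_C0 {W F G x b : ZFSet.{0}} : b ∈ FCe_C W F G (tg 0 x) ↔ b ∈ HF ∧
    ((app F b ∈ app F (fst x) ∧ app F b ∉ app F (snd x)) ∨
      (app F b ∉ app F (fst x) ∧ app F b ∈ app F (snd x))) := by
  unfold FCe_C
  rw [mem_sep]
  simp [tg, nz_inj]

private theorem FCe_C1 {W F G x b : ZFSet.{0}} : b ∈ FCe_C W F G (tg 1 x) ↔ b ∈ HF ∧
    FCe_K W F (fst x) (snd x) b := by
  unfold FCe_C
  rw [mem_sep]
  simp [tg, nz_inj]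

private theorem FCe_C2 {W F G x b : ZFSet.{0}} : b ∈ FCe_C W F G (tg 2 x) ↔ b ∈ HF ∧
    app F b = app G x := by
  unfold FCe_C
  rw [mem_sep]
  simp [tg, nz_inj]

private theorem FCe_C3 {W F G x b : ZFSet.{0}} : b ∈ FCe_C W F G (tg 3 x) ↔ b ∈ HF ∧
    app G b = app F (snd x) := by
  unfold FCe_C
  rw [mem_sep]
  simp [tg, nz_inj]

/-! ### Evaluation of assignments -/

private theorem FCe_app {s x y : ZFSet.{0}} (h : Fun s) (hp : pair x y ∈ s) : app s x = y := by
  refine app_eq hp fun z hz => ?_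
  have h1 := h.2 _ hz _ hp (by rw [fst_pair, fst_pair])
  exact (pair_inj.1 h1).2

private theorem FCe_none {s x : ZFSet.{0}} (h : ∀ y, pair x y ∉ s) : app s x = ∅ := by
  rw [ZFSet.eq_empty]
  intro z hz
  unfold H83.AC.app at hz
  rw [mem_sUnion] at hz
  obtain ⟨y, hy, _⟩ := hz
  rw [mem_sep] at hy
  exact h y hy.2

private theorem FCe_nat {K s t : ZFSet.{0}} (hs : s ∈ Asg K) (ht : t ∈ s) :
    ∃ n : ℕ, ∃ b ∈ K, t = pair (nz n) b := by
  have h := (mem_Asg.1 hs).1 ht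
  rw [mem_prod] at h
  obtain ⟨a, ha, b, hb, e⟩ := h
  obtain ⟨n, rfl⟩ := mem_omega.1 ha
  exact ⟨n, b, hb, e⟩

private theorem FCe_ev {W F s : ZFSet.{0}} (hF : ∀ i ∈ HF, app F i ∈ W) (h0 : app F ∅ = ∅)
    (hs : s ∈ Asg HF) : evs F s ∈ Asg W ∧ asv (evs F s) = fun i => app F (asv s i) := by
  obtain ⟨h1, h2, h3⟩ := mem_Asg.1 hs
  have hmem : ∀ {t}, t ∈ evs F s ↔ ∃ p ∈ s, pair (fst p) (app F (snd p)) = t := by
    intro t
    unfold evs
    rw [mem_img]
  have hfun : Fun (evs F s) := by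
    refine ⟨fun t ht => ?_, fun t ht t' ht' e => ?_⟩
    · obtain ⟨p, _, rfl⟩ := hmem.1 ht
      rw [fst_pair, snd_pair]
    · obtain ⟨p, hp, rfl⟩ := hmem.1 ht
      obtain ⟨p', hp', rfl⟩ := hmem.1 ht'
      rw [fst_pair, fst_pair] at e
      rw [h3.2 p hp p' hp' e]
  refine ⟨mem_Asg.2 ⟨fun t ht => ?_, ?_, hfun⟩, ?_⟩
  · obtain ⟨p, hp, rfl⟩ := hmem.1 ht
    obtain ⟨n, b, hb, rfl⟩ := FCe_nat hs hp
    rw [fst_pair, snd_pair]
    exact pair_mem_prod.2 ⟨nz_mem_omega n, hF b hb⟩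
  · unfold evs
    exact Fnt_img h2
  · funext i
    unfold H83.PN.asv
    by_cases h : ∃ y, pair (nz i) y ∈ s
    · obtain ⟨y, hy⟩ := h
      rw [FCe_app h3 hy]
      refine FCe_app hfun (hmem.2 ⟨_, hy, ?_⟩)
      rw [fst_pair, snd_pair]
    · push Not at h
      rw [FCe_none h, h0]
      refine FCe_none fun y hy => ?_
      obtain ⟨p, hp, e⟩ := hmem.1 hy
      obtain ⟨n, b, _, rfl⟩ := FCe_nat hs hp
      rw [fst_pair, snd_pair] at e
      have h4 := (pair_inj.1 e).1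
      rw [h4] at hp
      exact h b hp

private theorem FCe_sat {W F G s : ZFSet.{0}} (hF : ∀ i ∈ HF, app F i ∈ W) (h0 : app F ∅ = ∅)
    (hs : s ∈ Asg HF) (φ : Fml) :
    cT (FCe_c W F G) (fcd φ) s ↔ SatIn (cls W) φ (fun i => app F (asv s i)) := by
  obtain ⟨h1, h2⟩ := FCe_ev hF h0 hs
  rw [FCe_TT (fcd_HF φ) (Asg_HF hs)]
  unfold FCe_T
  rw [SatZ_iff, h2]
  exact ⟨fun h => h.2, fun h => ⟨h1, h⟩⟩

private theorem FCe_cons (F x : ZFSet.{0}) (v : ℕ → ZFSet.{0}) :
    (fun i => app F (cons x v i)) = cons (app F x) (fun i => app F (v i)) := by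
  funext i
  cases i with
  | zero => rfl
  | succ i => rfl

private theorem FCe_empty : (∅ : ZFSet.{0}) ∈ Asg HF := by
  refine mem_Asg.2 ⟨fun t ht => absurd ht (ZFSet.notMem_empty _), Fnt_empty, ?_, ?_⟩
  · intro t ht
    exact absurd ht (ZFSet.notMem_empty _)
  · intro t ht
    exact absurd ht (ZFSet.notMem_empty _)

theorem mk_code {N : Set ZFSet.{0}} (hN : Nst M N K H) {W F F₀ : ZFSet.{0}} (hW : W ∈ H)
    (hWd : Wd W) (he : Eqv K W) (hF : F ∈ N) (hF₀ : F₀ ∈ N)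
    (hr : ∀ z, z ∈ W ↔ ∃ i ∈ HF, app F i = z) (hb : ∀ h ∈ HF, app F (tg 0 h) = h)
    (h0 : app F ∅ = ∅) (hs : ∀ i ∈ HF, app F₀ i ∈ W)
    (ht : ∀ i ∈ HF, ∀ z ∈ app F₀ i, ∃ j ∈ HF, app F₀ j = z) :
    ∃ c, Real N c ∧ Cst (Thy K) c ∧ WFc N c ∧ Cod N H c F W ∧
      (∀ i ∈ HF, ∀ a ∈ HF, cS c (tg 2 i) a → app F a = app F₀ i) ∧
      ∀ i ∈ HF, ∀ b ∈ HF, app F b ∈ app F₀ i → ∀ d ∈ HF, cS c (tg 3 (pair i b)) d →
        app F₀ d = app F b := by
  have hM := hN.gr.tm
  have hWN : W ∈ N := hN.sub W (H_sub_M hN.gr hW)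
  have hWtr : ∀ z ∈ W, ∀ y ∈ z, y ∈ W := fun z hz y hy => hWd.1.tr z hz y hy
  have hFW : ∀ i ∈ HF, app F i ∈ W := fun i hi => (hr _).2 ⟨i, hi, rfl⟩
  have hex : ∀ z ∈ W, ∃ i ∈ HF, app F i = z := fun z hz => (hr z).1 hz
  have hsat : ∀ (φ : Fml), ∀ s ∈ Asg HF,
      (cT (FCe_c W F F₀) (fcd φ) s ↔ SatIn (cls W) φ (fun i => app F (asv s i))) :=
    fun φ s hs' => FCe_sat hFW h0 hs' φ
  have hasv : ∀ s ∈ Asg HF, ∀ i, asv s i ∈ HF := fun s hs' i => asv_mem HF_empty hs' i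
  have hreal : Real N (FCe_c W F F₀) := ⟨FCe_N hN.tm hWN hF hF₀, FCe_real W F F₀⟩
  refine ⟨FCe_c W F F₀, hreal, ?_, ?_, ?_, ?_, ?_⟩
  · refine ⟨?_, ?_, ?_, ?_, ?_, ?_, ?_, ?_, ?_, ?_, ?_, ?_, ?_, ?_⟩
    · intro i hi
      exact (FCe_Q hi hi).2 rfl
    · intro i hi j hj h
      exact (FCe_Q hj hi).2 ((FCe_Q hi hj).1 h).symm
    · intro i hi j hj l hl h1 h2
      rw [FCe_E hi hj] at h1
      rw [FCe_Q hi hl] at h2
      rw [FCe_E hl hj, ← h2]
      exact h1
    · intro i hi j hj l hl h1 h2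
      rw [FCe_E hi hj] at h1
      rw [FCe_Q hj hl] at h2
      rw [FCe_E hi hl, ← h2]
      exact h1
    · intro i hi j hj b hb h1 h2
      rw [FCe_Q hi hj] at h1
      have hne : ∃ z, z ∈ FCe_C W F F₀ (tg 0 (pair i j)) := by
        by_contra hcon
        apply h1
        have h3 : ∀ z, z ∈ HF → (app F z ∈ app F i ↔ app F z ∈ app F j) := by
          intro z hz
          by_contra h4
          apply hcon
          refine ⟨z, FCe_C0.2 ⟨hz, ?_⟩⟩
          rw [fst_pair, snd_pair]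
          tauto
        ext z
        constructor
        · intro hz
          obtain ⟨y, hy, rfl⟩ := hex z (hWtr _ (hFW i hi) z hz)
          exact (h3 y hy).1 hz
        · intro hz
          obtain ⟨y, hy, rfl⟩ := hex z (hWtr _ (hFW j hj) z hz)
          exact (h3 y hy).2 hz
      have h3 := (FCe_C0.1 (FCe_S (tg_HF (HF_pair hi hj)) hb h2 hne)).2
      rw [fst_pair, snd_pair] at h3
      rw [FCe_E hb hi, FCe_E hb hj]
      exact h3
    · intro s hs' h1
      exact (hsat .bot s hs').1 h1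
    · intro i hi j hj s hs'
      obtain ⟨m, rfl⟩ := mem_omega.1 hi
      obtain ⟨n, rfl⟩ := mem_omega.1 hj
      have h1 := hsat (.eq m n) s hs'
      have h2 := FCe_Q (W := W) (F := F) (G := F₀) (hasv s hs' m) (hasv s hs' n)
      exact h1.trans h2.symm
    · intro i hi j hj s hs'
      obtain ⟨m, rfl⟩ := mem_omega.1 hi
      obtain ⟨n, rfl⟩ := mem_omega.1 hj
      have h1 := hsat (.mem m n) s hs'
      have h2 := FCe_E (W := W) (F := F) (G := F₀) (hasv s hs' m) (hasv s hs' n)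
      exact h1.trans h2.symm
    · intro a ha b hb s hs'
      obtain ⟨φ, rfl⟩ := mem_FC.1 ha
      obtain ⟨ψ, rfl⟩ := mem_FC.1 hb
      have h1 := hsat (.imp φ ψ) s hs'
      rw [hsat φ s hs', hsat ψ s hs']
      exact h1
    · intro a ha s hs' x hx h1
      obtain ⟨φ, rfl⟩ := mem_FC.1 ha
      have h2 := (hsat (.all φ) s hs').1 h1
      rw [hsat φ _ (acons_mem hx hs'), asv_acons hs', FCe_cons]
      exact h2 _ (hFW x hx)
    · intro a ha s hs' b hb h1 h2
      obtain ⟨φ, rfl⟩ := mem_FC.1 ha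
      obtain ⟨e1, e2⟩ := FCe_ev hFW h0 hs'
      have hK : ∀ b ∈ HF, (FCe_K W F (fcd φ) s b ↔
          ¬ SatIn (cls W) φ (cons (app F b) (fun i => app F (asv s i)))) := by
        intro b hb
        unfold FCe_K
        rw [SatZ_iff, asv_acons e1, e2]
        exact ⟨fun h => h.2, fun h => ⟨acons_mem (hFW b hb) e1, h⟩⟩
      have hne : ∃ z, z ∈ FCe_C W F F₀ (tg 1 (pair (fcd φ) s)) := by
        by_contra hcon
        apply h1
        refine (hsat (.all φ) s hs').2 ?_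
        intro x hx
        obtain ⟨y, hy, rfl⟩ := hex x hx
        by_contra h4
        apply hcon
        refine ⟨y, FCe_C1.2 ⟨hy, ?_⟩⟩
        rw [fst_pair, snd_pair]
        exact (hK y hy).2 h4
      have h3 := (FCe_C1.1 (FCe_S (tg_HF (HF_pair (fcd_HF φ) (Asg_HF hs'))) hb h2 hne)).2
      rw [fst_pair, snd_pair] at h3
      rw [hsat φ _ (acons_mem hb hs'), asv_acons hs', FCe_cons]
      exact (hK b hb).1 h3
    · intro x hx j hj
      rw [FCe_E hj (tg_HF hx), hb x hx]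
      constructor
      · intro h1
        refine ⟨app F j, h1, ?_⟩
        have h2 : app F j ∈ HF := HF_tr hx h1
        rw [FCe_Q hj (tg_HF h2), hb _ h2]
      · rintro ⟨x', h1, h2⟩
        have h3 : x' ∈ HF := HF_tr hx h1
        rw [FCe_Q hj (tg_HF h3), hb _ h3] at h2
        rw [h2]
        exact h1
    · rw [FCe_Q HF_empty (tg_HF HF_empty), hb _ HF_empty, h0]
    · intro a ha
      have h1 : a ∈ FC := (mem_sep.1 ha).1
      obtain ⟨φ, rfl⟩ := mem_FC.1 h1
      rw [hsat φ ∅ FCe_empty]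
      have h2 := (he φ).1 (Thy_mem.1 ha)
      have h3 : (fun i => app F (asv ∅ i)) = fun _ => (∅ : ZFSet.{0}) := by
        funext i
        rw [asv_empty, h0]
      rw [h3]
      exact h2
  · intro f hf hd
    have h1 : ∀ n : ℕ, app F (app cdg (app f (nz (n + 1)))) ∈ app F (app cdg (app f (nz n))) := by
      intro n
      have h2 : app f (nz n) ∈ omega := fn_mem hf.2 (nz_mem_omega n)
      have h3 : app f (nz (n + 1)) ∈ omega := fn_mem hf.2 (nz_mem_omega (n + 1))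
      have h4 := hd (nz n) (nz_mem_omega n) _ h2 _ h3 (fn_app hf.2 (nz_mem_omega n))
        (fn_app hf.2 (nz_mem_omega (n + 1)))
      exact (FCe_E (cdg_HF h3) (cdg_HF h2)).1 h4
    have h2 : ∀ n : ℕ, rank (app F (app cdg (app f (nz (n + 1))))) <
        rank (app F (app cdg (app f (nz n)))) := fun n => rank_lt_of_mem (h1 n)
    exact (RelEmbedding.wellFounded_iff_isEmpty.1
      (wellFounded_lt (α := Ordinal.{0}))).elim (RelEmbedding.natGT _ h2)
  · exact
      { FN := hF, WH := hW, wd := hWd, rg := hr,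
        Q := fun i hi j hj => (FCe_Q hi hj).symm,
        E := fun i hi j hj => (FCe_E hi hj).symm,
        ba := hb, b0 := h0, sat := hsat }
  · intro i hi a ha h1
    obtain ⟨y, hy, e⟩ := hex _ (hs i hi)
    exact (FCe_C2.1 (FCe_S (tg_HF hi) ha h1 ⟨y, FCe_C2.2 ⟨hy, e⟩⟩)).2
  · intro i hi b hb' h1 d hd h2
    obtain ⟨y, hy, e⟩ := ht i hi _ h1
    have h3 := (FCe_C3.1 (FCe_S (tg_HF (HF_pair hi hb')) hd h2
      ⟨y, FCe_C3.2 ⟨hy, by rw [snd_pair, e]⟩⟩)).2
    rw [snd_pair] at h3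
    exact h3

end H83.PN
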