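import Pool.Agent.H83.PN.FTh
import Pool.Agent.H83.AC.WfHF
import Pool.Agent.H83.PN.WH

set_option autoImplicit false

/-!
# Module FCo: the collapse of a well-founded code

Compare with `AC/KBa.lean` (`kb_collapse`) and `AC/KBb.lean` (`kb_sat`). `c_val`: `c` is a function from `omega` to `omega`; `b = app cdg n` where `n` is the value at `ci (tg 3 a)`
(`ci_cdg`). `e = {pair i j ∈ prod HF HF : cE c i j} ∈ N`. If `f ∈ N`, `IsFunc omega HF f`, `Desc e f`, then `f' = fgr (fun n => ci (app f n)) omega` is a real number of `N` with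
`Dsc f' c` (`cdg_ci`), contradiction to `WFc`. So `wfHF`, `setCollapse` with `a = HF` give `F ∈ N` with `app F i = img (app F) {j : pair j i ∈ e}`; `W = img (app F) HF ∈ N`.
`Q`, `E`: as in `kb_collapse` (instead of `tx i j` use the `b` with `cS c (tg 0 (pair i j)) b`). `ba`: `F (tg 0 h) = h` by induction on `rank h` (an element `F j` of `F (tg 0 h)` has
`cE c j (tg 0 h)`, so `cQ c j (tg 0 h')` with `h' ∈ h`, `F j = F (tg 0 h') = h'`; `h' ∈ HF`). `b0`: from `Cst.b0` and `ba`. `sat`: induction on `φ` for all `s ∈ Asg HF` (`fcd` unfolds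
by `rfl`; `asv s i = app s (nz i)`; `mem_FC`; `asv_acons`, `acons_mem`; for `all φ`: every element of `W` is `app F x`, `x ∈ HF`, and `(fun i => app F (asv (acons x s) i)) = cons (app F x) (fun i => app F (asv s i))`;
`c_val` for `tn`). `Eqv K W` (`Eqv_of`: for `a ∈ Thy K`, `a = fcd φ`, `Cst.th` and `sat` with `s = ∅`, `asv_empty`, `b0`), so `Wd W` (`Wd_eqv`; `∅ = app F ∅ ∈ W`). `W = Lo (rank W)` (`Wd_Lo`),
`rk W ∈ M` (`Nst.rkM`), so `W = Lh (rk W) ∈ M` (`Inst.Lh`, see `AC/KBc.lean`), `Ctb N W` (`Ctb_iff` with `g = F`), `Ctb M W` (`Nst.ctb`), `tc W = W` or `H_ctb`; `W ∈ H` (`Gr.mem`).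
-/

namespace H83.PN

open ZFSet H83.AC

variable {M : Set ZFSet.{0}} {K H : ZFSet.{0}}

/-- the relation as a set -/
private noncomputable def FCo_e (c : ZFSet.{0}) : ZFSet.{0} :=
  ZFSet.sep (fun t => cE c (fst t) (snd t)) (ZFSet.prod HF HF)

private theorem FCo_uf : UF (fun _ v => FCo_e (v 0)) := by
  have h : UF (fun _ v => ZFSet.sep (fun t => H83.PN.cE (v 0) (H83.AC.fst t) (H83.AC.snd t))
      (ZFSet.prod H83.AC.HF H83.AC.HF)) := by
    infer_instance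
  exact h

private theorem FCo_mem {c i j : ZFSet.{0}} :
    ZFSet.pair i j ∈ FCo_e c ↔ i ∈ HF ∧ j ∈ HF ∧ cE c i j := by
  unfold FCo_e
  rw [mem_sep, pair_mem_prod, fst_pair, snd_pair, and_assoc]

private theorem FCo_cons (F : ZFSet.{0} → ZFSet.{0}) (a : ZFSet.{0}) (v : ℕ → ZFSet.{0}) :
    (fun i => F (cons a v i)) = cons (F a) (fun i => F (v i)) := by
  funext i
  cases i with
  | zero => rfl
  | succ i => rfl

private theorem FCo_asg {s : ZFSet.{0}} (hs : s ∈ Asg HF) : s ∈ HF := by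
  obtain ⟨h1, h2, -⟩ := mem_Asg.1 hs
  refine HF_of_finite (fun t ht => ?_) h2
  obtain ⟨x, hx, y, hy, rfl⟩ := mem_prod.1 (h1 ht)
  exact HF_pair (omega_sub_HF hx) hy

private theorem FCo_empty : (∅ : ZFSet.{0}) ∈ Asg HF := by
  refine mem_Asg.2 ⟨fun t ht => absurd ht (notMem_empty t), ?_, ?_⟩
  · have h : {y : ZFSet.{0} | y ∈ (∅ : ZFSet.{0})} = ∅ := by
      ext y
      exact ⟨fun hy => absurd hy (notMem_empty y), fun hy => hy.elim⟩
    show {y : ZFSet.{0} | y ∈ (∅ : ZFSet.{0})}.Finite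
    rw [h]
    exact Set.finite_empty
  · exact ⟨fun t ht => absurd ht (notMem_empty t), fun t ht => absurd ht (notMem_empty t)⟩

theorem c_val {N : Set ZFSet.{0}} {c : ZFSet.{0}} (hc : Real N c) {a : ZFSet.{0}} (ha : a ∈ HF) :
    ∃ b ∈ HF, cS c a b := by
  have h1 : ci (tg 3 a) ∈ omega := ci_omega _
  have h2 := fn_mem hc.2 h1
  refine ⟨app cdg (app c (ci (tg 3 a))), cdg_HF h2, ?_⟩
  unfold cS
  rw [ci_cdg h2]
  exact fn_app hc.2 h1

private theorem FCo_sat {N : Set ZFSet.{0}} {c F W Th : ZFSet.{0}} (hc : Real N c) (h : Cst Th c)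
    (hW : ∀ z, z ∈ W ↔ ∃ i ∈ HF, app F i = z)
    (hQ : ∀ i ∈ HF, ∀ j ∈ HF, (app F i = app F j ↔ cQ c i j))
    (hE : ∀ i ∈ HF, ∀ j ∈ HF, (app F i ∈ app F j ↔ cE c i j)) :
    ∀ (φ : Fml), ∀ s ∈ Asg HF,
      (cT c (fcd φ) s ↔ SatIn (cls W) φ (fun i => app F (asv s i))) := by
  intro φ
  induction φ with
  | bot =>
    intro s hs
    exact ⟨fun hh => absurd hh (h.tb s hs), fun hh => hh.elim⟩
  | eq i j =>
    intro s hs
    exact (h.te (nz i) (nz_mem_omega i) (nz j) (nz_mem_omega j) s hs).trans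
      (hQ _ (asv_mem HF_empty hs i) _ (asv_mem HF_empty hs j)).symm
  | mem i j =>
    intro s hs
    exact (h.tm (nz i) (nz_mem_omega i) (nz j) (nz_mem_omega j) s hs).trans
      (hE _ (asv_mem HF_empty hs i) _ (asv_mem HF_empty hs j)).symm
  | imp φ ψ h1 h2 =>
    intro s hs
    have h3 := h.ti (fcd φ) (mem_FC.2 ⟨φ, rfl⟩) (fcd ψ) (mem_FC.2 ⟨ψ, rfl⟩) s hs
    show cT c (pair (nz 3) (pair (fcd φ) (fcd ψ))) s ↔
      (SatIn (cls W) φ (fun i => app F (asv s i)) → SatIn (cls W) ψ (fun i => app F (asv s i)))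
    rw [← h1 s hs, ← h2 s hs]
    exact h3
  | all φ ih =>
    intro s hs
    have hstep : ∀ a ∈ HF, (cT c (fcd φ) (acons a s) ↔
        SatIn (cls W) φ (cons (app F a) (fun i => app F (asv s i)))) := by
      intro a ha
      have h3 := ih (acons a s) (acons_mem ha hs)
      rw [asv_acons hs, FCo_cons] at h3
      exact h3
    show cT c (pair (nz 4) (fcd φ)) s ↔
      ∀ x ∈ cls W, SatIn (cls W) φ (cons x (fun i => app F (asv s i)))
    constructor
    · intro hT x hx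
      obtain ⟨a, ha, rfl⟩ := (hW x).1 hx
      exact (hstep a ha).1 (h.ta (fcd φ) (mem_FC.2 ⟨φ, rfl⟩) s hs a ha hT)
    · intro hall
      by_contra hcon
      obtain ⟨b, hb, hS⟩ := c_val hc (tg_HF (n := 1) (HF_pair (fcd_HF φ) (FCo_asg hs)))
      exact h.tn (fcd φ) (mem_FC.2 ⟨φ, rfl⟩) s hs b hb hcon hS
        ((hstep b hb).2 (hall _ ((hW _).2 ⟨b, hb, rfl⟩)))

theorem cod_of {N : Set ZFSet.{0}} (hN : Nst M N K H) {c : ZFSet.{0}} (hc : Real N c)
    (h : Cst (Thy K) c) (hw : WFc N c) : ∃ F W, Cod N H c F W := by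
  have hHF : HF ∈ N := UF.HF.mem N hN.tm (fun _ => c) (fun _ => hc.1)
  have heN : FCo_e c ∈ N := FCo_uf.mem N hN.tm (fun _ => c) (fun _ => hc.1)
  have hno : ∀ f ∈ N, IsFunc omega HF f → ¬ Desc (FCo_e c) f := by
    intro f hf hfun hd
    have h1 : UF (fun _ v => H83.AC.fgr (fun x => H83.AC.ci (H83.AC.app (v 0) x))
        ZFSet.omega) := by
      infer_instance
    have h2 := h1.mem N hN.tm (fun _ => f) (fun _ => hf)
    refine hw _ ⟨h2, fn_fgr fun x _ => ci_omega _⟩ ?_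
    intro n hn i hi j hj hp hp'
    obtain ⟨-, rfl⟩ := pair_mem_fgr.1 hp
    obtain ⟨hn', rfl⟩ := pair_mem_fgr.1 hp'
    rw [cdg_ci (fn_mem hfun hn), cdg_ci (fn_mem hfun hn')]
    exact (FCo_mem.1 (hd n hn)).2.2
  have hwf := wfHF hN.tm heN hno
  obtain ⟨F, hFN, -, -, hF⟩ := setCollapse hN.tm hHF heN hwf
  have hwell := honest_wf hN.tm hHF heN hwf
  have memF : ∀ i ∈ HF, ∀ w, w ∈ app F i ↔ ∃ d ∈ HF, cE c d i ∧ app F d = w := by
    intro i hi w
    rw [hF i hi, mem_img]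
    constructor
    · rintro ⟨d, hd, rfl⟩
      obtain ⟨h1, h2⟩ := mem_sep.1 hd
      exact ⟨d, h1, (FCo_mem.1 h2).2.2, rfl⟩
    · rintro ⟨d, hd, h1, rfl⟩
      exact ⟨d, mem_sep.2 ⟨hd, FCo_mem.2 ⟨hd, hi, h1⟩⟩, rfl⟩
  have hQ1 : ∀ i ∈ HF, ∀ j ∈ HF, cQ c i j → app F i = app F j := by
    intro i hi j hj hq
    ext w
    rw [memF i hi, memF j hj]
    constructor
    · rintro ⟨d, hd, h1, h2⟩
      exact ⟨d, hd, h.er d hd i hi j hj h1 hq, h2⟩
    · rintro ⟨d, hd, h1, h2⟩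
      exact ⟨d, hd, h.er d hd j hj i hi h1 (h.qs i hi j hj hq), h2⟩
  have hQ2 : ∀ i, i ∈ HF → ∀ j ∈ HF, app F i = app F j → cQ c i j := by
    intro i
    induction i using hwell.induction with
    | _ i ih =>
      intro hi j hj he
      by_contra hcon
      obtain ⟨b, hb, hS⟩ := c_val hc (tg_HF (n := 0) (HF_pair hi hj))
      rcases h.ex i hi j hj b hb hcon hS with ⟨h1, h2⟩ | ⟨h1, h2⟩
      · have h3 : app F b ∈ app F j := by
          rw [← he]
          exact (memF i hi _).2 ⟨_, hb, h1, rfl⟩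
        obtain ⟨d', hd', h4, h5⟩ := (memF j hj _).1 h3
        have h6 := ih b ⟨hb, hi, FCo_mem.2 ⟨hb, hi, h1⟩⟩ hb d' hd' h5.symm
        exact h2 (h.el d' hd' j hj _ hb h4 (h.qs _ hb _ hd' h6))
      · have h3 : app F b ∈ app F i := by
          rw [he]
          exact (memF j hj _).2 ⟨_, hb, h2, rfl⟩
        obtain ⟨d', hd', h4, h5⟩ := (memF i hi _).1 h3
        have h6 := ih d' ⟨hd', hi, FCo_mem.2 ⟨hd', hi, h4⟩⟩ hd' _ hb h5
        exact h1 (h.el d' hd' i hi _ hb h4 h6)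
  have hQ : ∀ i ∈ HF, ∀ j ∈ HF, (app F i = app F j ↔ cQ c i j) :=
    fun i hi j hj => ⟨hQ2 i hi j hj, hQ1 i hi j hj⟩
  have hE : ∀ i ∈ HF, ∀ j ∈ HF, (app F i ∈ app F j ↔ cE c i j) := by
    intro i hi j hj
    rw [memF j hj]
    constructor
    · rintro ⟨d, hd, h1, h2⟩
      exact h.el d hd j hj i hi h1 (hQ2 d hd i hi h2)
    · intro h1
      exact ⟨i, hi, h1, rfl⟩
  have hba : ∀ a : ZFSet.{0}, a ∈ HF → app F (tg 0 a) = a := by
    intro a
    induction a using ZFSet.inductionOn with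
    | _ a ih =>
      intro ha
      have hsub : ∀ z ∈ a, z ∈ HF := fun z hz => HF_tr ha hz
      ext z
      constructor
      · intro hz
        obtain ⟨d, hd, h1, rfl⟩ := (memF _ (tg_HF ha) z).1 hz
        obtain ⟨a', ha', hq⟩ := (h.ba a ha d hd).1 h1
        rw [hQ1 d hd _ (tg_HF (hsub a' ha')) hq, ih a' ha' (hsub a' ha')]
        exact ha'
      · intro hz
        have h1 : app F (tg 0 z) ∈ app F (tg 0 a) :=
          (hE _ (tg_HF (hsub z hz)) _ (tg_HF ha)).2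
            ((h.ba a ha _ (tg_HF (hsub z hz))).2 ⟨z, hz, h.qr _ (tg_HF (hsub z hz))⟩)
        rwa [ih z hz (hsub z hz)] at h1
  have hb0 : app F ∅ = ∅ := by
    rw [hQ1 ∅ HF_empty (tg 0 ∅) (tg_HF HF_empty) h.b0]
    exact hba ∅ HF_empty
  have hWN : img (fun x => app F x) HF ∈ N := by
    have hv : ∀ n, (cons HF (fun _ => F) : ℕ → ZFSet.{0}) n ∈ N := fun n => by
      cases n with
      | zero => exact hHF
      | succ n => exact hFN
    have h1 : UF (fun _ v => H83.AC.img (fun x => H83.AC.app (v 1) x) (v 0)) := by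
      infer_instance
    exact h1.mem N hN.tm (cons HF (fun _ => F)) hv
  have hW : ∀ z, z ∈ img (fun x => app F x) HF ↔ ∃ i ∈ HF, app F i = z := fun z => mem_img
  generalize img (fun x => app F x) HF = W at hWN hW
  have htr : ∀ x ∈ W, x ⊆ W := by
    intro x hx y hy
    obtain ⟨i, hi, rfl⟩ := (hW x).1 hx
    obtain ⟨d, hd, -, rfl⟩ := (memF i hi y).1 hy
    exact (hW _).2 ⟨d, hd, rfl⟩
  have hsat := FCo_sat hc h hW hQ hE
  have hEqv : Eqv K W := by
    refine Eqv_of fun a ha => ?_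
    have h1 := h.th a ha
    obtain ⟨φ, rfl⟩ := mem_FC.1 (mem_sep.1 ha).1
    have h2 := (hsat φ ∅ FCo_empty).1 h1
    refine SatZ_iff.2 ?_
    have h3 : (fun i => app F (asv ∅ i)) = asv ∅ := by
      funext i
      rw [asv_empty, hb0]
    rwa [h3] at h2
  have hWd : Wd W := Wd_eqv hN.gr.Kw htr ((hW ∅).2 ⟨∅, HF_empty, hb0⟩) hEqv
  have hWM : W ∈ M := by
    have h1 : rk W ∈ M := hN.rkM W hWN
    have h2 : Lh (rk W) ∈ M :=
      (UF.Lh (UF.var 0)).mem M hN.gr.tm (fun _ => rk W) (fun _ => h1)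
    have h3 : Lh (rk W) = W := by
      unfold Lh
      rw [rank_rk]
      exact (Wd_Lo hWd).symm
    rwa [h3] at h2
  have hct : Ctb M W := by
    refine hN.ctb W hWM ((Ctb_iff hN.tm).2 ⟨F, hFN, fun y hy => ?_⟩)
    obtain ⟨i, hi, rfl⟩ := (hW y).1 hy
    exact ⟨i, hi, rfl⟩
  have hWH : W ∈ H :=
    (hN.gr.mem W).2 ⟨hWM, Ctb_sub hct (tc_min (fun x hx => hx) htr)⟩
  exact ⟨F, W, hFN, hWH, hWd, hW, hQ, hE, fun a ha => hba a ha, hb0, hsat⟩

end H83.PN
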