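import Pool.Agent.H83.PN.FNc

set_option autoImplicit false

/-!
# Module FNe: the sets `A_k` are not empty

Let `v, c` be from `new_col` and `y = {pair l j : l, j ∈ omega, some p ∈ G has pair (pair c l) j ∈ fst (snd p)}`. It is `ev (Gq v G) e` with `e = {pair (pair {pair (pair c l) j} ∅) (pair l j) : l, j ∈ omega} ∈ M`: if `p ∈ G`, `pair (pair c l) j ∈ fst (snd p)`, take
`r ∈ G` below `p` and `(v, eQ)`; then `r ≤ (v, ({((c,l),j)}, ∅))` (no promises; `Gen.up`); conversely a condition of this form in `G` is such a `p`. `ev_NN` with a column number `m` such that `k ∈ m` (`m = sc k`; `csup` of these conditions is `{c}`) gives `y ∈ N`. `y` is a function (two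
conditions of `G` have a common extension, whose finite part is a function: `Cn`), total by `val_dense`: `IsFunc omega omega y`. `AkP U k y`: let `γ ∈ dom U`; `pr_dense` gives `p ∈ G` with `pair c γ ∈ snd (snd p)`, `c ∈ vS (fst p)`, `γ ∈ vL (fst p)`. The value
`app (vf (fst p)) (pair c γ) ∈ Idx` is `pair k i` (`new_col`), so `rl U (fst p) (pair c γ) = app (uF U γ) (pair k i)`. Let `m ∈ omega` be larger than all `l` with `pair (pair c l) j ∈ fst (snd p)` for some `j` (`Cn_bound`). If `l ∉ m` and `pair l j ∈ y` then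
some `p' ∈ G` has `pair (pair c l) j ∈ fst (snd p')`, `r ∈ G` below `p, p'`: `pair (pair c l) j ∈ fst (snd r)`, not in `fst (snd p)`, so `QLe` gives `pair l j ∉ rl U (fst p) (pair c γ)`.
-/

namespace H83.PN

open ZFSet H83.AC

variable {M : Set ZFSet.{0}} {K H : ZFSet.{0}}

private theorem FNe_sgC {X c l j : ZFSet.{0}} (hc : c ∈ X) (hl : l ∈ omega) (hj : j ∈ omega) :
    ({pair (pair c l) j} : ZFSet.{0}) ∈ Cn X := by
  refine mem_Cn.2 ⟨fun t ht => ?_, ?_, fun t ht => ?_, fun t ht t' ht' _ => ?_⟩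
  · rw [ZFSet.mem_singleton.1 ht]
    exact ZFSet.pair_mem_prod.2 ⟨ZFSet.pair_mem_prod.2 ⟨hc, hl⟩, hj⟩
  · refine Set.Finite.subset (Set.finite_singleton (pair (pair c l) j)) fun t ht => ?_
    exact ZFSet.mem_singleton.1 ht
  · rw [ZFSet.mem_singleton.1 ht, fst_pair, snd_pair]
  · rw [ZFSet.mem_singleton.1 ht, ZFSet.mem_singleton.1 ht']

private theorem FNe_sgQ {v c l j : ZFSet.{0}} (hc : c ∈ vS v) (hl : l ∈ omega) (hj : j ∈ omega) :
    QQ v (pair {pair (pair c l) j} ∅) := by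
  refine ⟨by rw [fst_pair, snd_pair], ?_, ?_⟩
  · rw [fst_pair]
    exact FNe_sgC hc hl hj
  · rw [snd_pair]
    exact (QQ_empty v).2.2 |> fun h => by rwa [eQ, snd_pair] at h

private theorem FNe_sgLe {u v q c l j : ZFSet.{0}} (h : pair (pair c l) j ∈ fst q) :
    QLe u v q (pair {pair (pair c l) j} ∅) := by
  refine ⟨?_, ?_, ?_⟩
  · rw [fst_pair]
    intro t ht
    rw [ZFSet.mem_singleton.1 ht]
    exact h
  · rw [snd_pair]
    exact fun x hx => absurd hx (ZFSet.notMem_empty x)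
  · intro t ht hn s hs e
    rw [snd_pair] at hs
    exact absurd hs (ZFSet.notMem_empty s)

private theorem FNe_csup {c c' l j : ZFSet.{0}}
    (h : c' ∈ csup (pair {pair (pair c l) j} ∅)) : c' = c := by
  rw [csup, fst_pair, snd_pair, ZFSet.mem_union, mem_img, mem_img] at h
  rcases h with ⟨t, ht, rfl⟩ | ⟨t, ht, -⟩
  · rw [ZFSet.mem_singleton.1 ht, fst_pair, fst_pair]
  · exact absurd ht (ZFSet.notMem_empty t)

private theorem FNe_eM (hM : TM M) {c : ZFSet.{0}} (hc : c ∈ M) :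
    img (fun t => pair (pair {pair (pair c (fst t)) (snd t)} ∅) t) (ZFSet.prod omega omega) ∈ M := by
  have h : UF (fun _ v => H83.AC.img (fun t => ZFSet.pair (ZFSet.pair
      {ZFSet.pair (ZFSet.pair (v 0) (H83.AC.fst t)) (H83.AC.snd t)} ∅) t)
      (ZFSet.prod ZFSet.omega ZFSet.omega)) := by
    infer_instance
  exact h.mem M hM (fun _ => c) (fun _ => hc)

theorem Ak_ne (hG : Gr M K H) {n : ℕ} {U : ZFSet.{0}} (hU : UOK M H n U)
    {G : Set ZFSet.{0}} (hg : Gen M (SU U H) G) {k : ZFSet.{0}} (hk : k ∈ omega) :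
    ∃ y, Real (NN M (SU U H) G) y ∧ AkP U k y := by
  obtain ⟨v, c, hv, hvH, hvL, hvG, hc, hck, hlab⟩ := new_col hG hU hg hk
  have hM := hG.tm
  have hsP : sP (SU U H) = PU U H := sP_SU U H
  have hcM : c ∈ M := by
    have h1 : vS v ∈ H := H_uf1 hG (F := fun x => vS x) (by infer_instance) hvH
    exact H_sub_M hG (H_tr hG h1 hc)
  obtain ⟨e, he⟩ : ∃ e, e = img (fun t => pair (pair {pair (pair c (fst t)) (snd t)} ∅) t)
    (ZFSet.prod omega omega) := ⟨_, rfl⟩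
  have heM : e ∈ M := by rw [he]; exact FNe_eM hM hcM
  have hscO : sc k ∈ omega := by
    obtain ⟨i, rfl⟩ := mem_omega.1 hk
    rw [show sc (nz i) = nz (i + 1) from rfl]
    exact mem_omega.2 ⟨_, rfl⟩
  have hsck : k ∈ sc k := by
    rw [sc]
    exact ZFSet.mem_insert_iff.2 (Or.inl rfl)
  -- the elements of `e`
  have hee : ∀ t ∈ e, ∃ l ∈ (omega : ZFSet.{0}), ∃ j ∈ (omega : ZFSet.{0}),
      t = pair (pair {pair (pair c l) j} ∅) (pair l j) := by
    intro t ht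
    rw [he, mem_img] at ht
    obtain ⟨s, hs, rfl⟩ := ht
    obtain ⟨l, hl, j, hj, rfl⟩ := ZFSet.mem_prod.1 hs
    exact ⟨l, hl, j, hj, by rw [fst_pair, snd_pair]⟩
  have hme : ∀ l ∈ (omega : ZFSet.{0}), ∀ j ∈ (omega : ZFSet.{0}),
      pair (pair {pair (pair c l) j} ∅) (pair l j) ∈ e := by
    intro l hl j hj
    rw [he, mem_img]
    exact ⟨pair l j, ZFSet.pair_mem_prod.2 ⟨hl, hj⟩, by rw [fst_pair, snd_pair]⟩
  have hyN : ev (Gq v G) e ∈ NN M (SU U H) G := by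
    refine ev_NN hG hU hg hv hvH hvL hvG hscO heM ?_ ?_
    · intro t ht
      obtain ⟨l, hl, j, hj, rfl⟩ := hee t ht
      rw [fst_pair, snd_pair]
      exact ⟨rfl, mem_QP.2 (FNe_sgQ hc hl hj), HF_pair (omega_sub_HF hl) (omega_sub_HF hj)⟩
    · intro t ht c' hc'
      obtain ⟨l, hl, j, hj, rfl⟩ := hee t ht
      rw [fst_pair] at hc'
      rw [FNe_csup hc', hck]
      exact hsck
  -- the elements of `y`
  have hy : ∀ x, x ∈ ev (Gq v G) e ↔ ∃ l ∈ (omega : ZFSet.{0}), ∃ j ∈ (omega : ZFSet.{0}),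
      x = pair l j ∧ ∃ p ∈ G, pair (pair c l) j ∈ fst (snd p) := by
    intro x
    rw [mem_ev]
    constructor
    · rintro ⟨q, hq, hqe⟩
      obtain ⟨l, hl, j, hj, h1⟩ := hee _ hqe
      obtain ⟨rfl, rfl⟩ := pair_injective h1
      refine ⟨l, hl, j, hj, rfl, _, hq, ?_⟩
      rw [snd_pair, fst_pair]
      exact ZFSet.mem_singleton.2 rfl
    · rintro ⟨l, hl, j, hj, rfl, p, hp, hpt⟩
      refine ⟨pair {pair (pair c l) j} ∅, ?_, hme l hl j hj⟩
      obtain ⟨r, hr, h1, h2⟩ := hg.dir p hp _ hvG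
      obtain ⟨hrP, -, -, h3⟩ := Le_SU.1 h1
      obtain ⟨-, -, h4, -⟩ := Le_SU.1 h2
      rw [fst_pair] at h4
      have h5 : pair v (pair {pair (pair c l) j} ∅) ∈ PU U H :=
        mk_PU hG hv hvH hvL (FNe_sgQ hc hl hj)
      refine hg.up r hr _ (by rw [hsP]; exact h5) (Le_SU.2 ⟨hrP, h5, ?_, ?_⟩)
      · rw [fst_pair]
        exact h4
      · rw [fst_pair, snd_pair]
        exact FNe_sgLe (h3.1 hpt)
  have hyp : ∀ l j, pair l j ∈ ev (Gq v G) e ↔ l ∈ (omega : ZFSet.{0}) ∧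
      j ∈ (omega : ZFSet.{0}) ∧ ∃ p ∈ G, pair (pair c l) j ∈ fst (snd p) := by
    intro l j
    rw [hy]
    constructor
    · rintro ⟨l', hl, j', hj, h1, h2⟩
      obtain ⟨rfl, rfl⟩ := pair_injective h1
      exact ⟨hl, hj, h2⟩
    · rintro ⟨hl, hj, h2⟩
      exact ⟨l, hl, j, hj, rfl, h2⟩
  refine ⟨ev (Gq v G) e, ⟨hyN, ?_, ?_⟩, ?_⟩
  · intro x hx
    obtain ⟨l, hl, j, hj, rfl, -⟩ := (hy x).1 hx
    exact ZFSet.pair_mem_prod.2 ⟨hl, hj⟩
  · intro l hl
    obtain ⟨p, hp, j, hj, -, hpt⟩ := val_dense hG hU hg hvG hc hl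
    refine ⟨j, (hyp l j).2 ⟨hl, hj, p, hp, hpt⟩, ?_⟩
    intro j' hj'
    obtain ⟨-, -, p', hp', hpt'⟩ := (hyp l j').1 hj'
    obtain ⟨r, hr, h1, h2⟩ := hg.dir p hp p' hp'
    obtain ⟨hrP, -, -, h3⟩ := Le_SU.1 h1
    obtain ⟨-, -, -, h4⟩ := Le_SU.1 h2
    obtain ⟨-, -, -, -, hqq⟩ := mem_PU.1 hrP
    have h5 := (mem_Cn.1 hqq.2.1).2.2.2 _ (h4.1 hpt') _ (h3.1 hpt) (by rw [fst_pair, fst_pair])
    exact (pair_injective h5).2
  · intro γ hγ
    obtain ⟨p, hp, hcp, hγp, hpr⟩ := pr_dense hG hU hg hvG hc hγ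
    have hpP : p ∈ PU U H := by
      have := hg.sub p hp
      rwa [hsP] at this
    obtain ⟨-, -, hvp, -, hqp⟩ := mem_PU.1 hpP
    have hI := hvp.2.2.2.2 _ (ZFSet.pair_mem_prod.2 ⟨hcp, hγp⟩)
    obtain ⟨k', hk', i, hi, hai⟩ := ZFSet.mem_prod.1 hI
    have hkk : k' = k := by
      have := hlab p hp hcp γ hγp
      rw [hai, fst_pair] at this
      exact this
    subst hkk
    refine ⟨i, hi, ?_⟩
    obtain ⟨L, hL⟩ := Cn_bound hqp.2.1
    refine ⟨nz L, mem_omega.2 ⟨L, rfl⟩, ?_⟩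
    intro l hl hlL j hj hlj
    obtain ⟨-, -, p', hp', hpt'⟩ := (hyp l j).1 hlj
    obtain ⟨r, hr, h1, h2⟩ := hg.dir p hp p' hp'
    obtain ⟨-, -, -, h3⟩ := Le_SU.1 h1
    obtain ⟨-, -, -, h4⟩ := Le_SU.1 h2
    have h5 : pair (pair c l) j ∉ fst (snd p) := by
      intro h6
      have h7 := hL _ h6
      rw [fst_pair, snd_pair] at h7
      exact hlL h7
    have h6 := h3.2.2 _ (h4.1 hpt') h5 (pair c γ) hpr (by rw [fst_pair, fst_pair, fst_pair])
    rw [fst_pair, snd_pair, snd_pair, rl, snd_pair, hai] at h6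
    exact h6

end H83.PN
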