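import Pool.Agent.H83.PN.GNtm
import Pool.Agent.H83.PN.GRn
import Pool.Agent.H83.PN.GTrf
import Pool.Agent.H83.PN.GActF

set_option autoImplicit false

/-!
# Module FSu: names with given support

The relation `v 0 ∈ app (v 1) (v 2)` is uniformly definable; let `φ` be a formula for it (`UR.out` and `sat_iff`, as in `exists_phi` in `PN/DefsF.lean`; apply it to the model `NN M S G`, `NN_tm`). `e = {pair p h : p ∈ sP S, h ∈ HF, Fc M S φ p (chk S h, σ, chk S a, chk S a, ..)} ∈ M` (`UR.Fc`, `Inst.chk`,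
`TM.sep_of`). Invariance under `b ∈ app (sH S) m`: `Fc_act` (`Sys.subH`), `actN_chk`, `actN S b σ = σ` (`Supp`). `ρ = rn S e`: `HS_rn`, `Supp_rn`, `val_rn` (`sE S ∈ G`); `h ∈ ev G e` iff some `p ∈ G` has `Fc M S φ p ..` iff `h ∈ app (val G σ) a` (`truth`, `val_chk`) for `h ∈ HF`.
-/

namespace H83.PN

open ZFSet H83.AC

/-- the relation used below is definable -/
private theorem FSu_UR (φ : Fml) : UR (fun N v => fst (v 0) ∈ sP (v 1) ∧
    H83.PN.Fc N (v 1) φ (fst (v 0))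
      (cons (H83.PN.chk (v 1) (snd (v 0))) (cons (v 2) (fun _ => v 3)))) := by
  have h1 : UR (fun N v => v 0 ∈ sP (v 1) ∧
      H83.PN.Fc N (v 1) φ (v 0) (cons (v 2) (cons (v 3) (fun _ => v 4)))) := by
    refine ((UR.Fc φ).ren (fun n => if n ≤ 3 then n else 4)).congr fun N _ v _ => ?_
    have e : sh (sh (fun n => v (if n ≤ 3 then n else 4))) =
        cons (v 2) (cons (v 3) (fun _ => v 4)) := by
      funext i
      rcases i with _ | _ | i
      · rfl
      · rfl
      · have h2 : ¬ (i + 1 + 1 + 1 + 1 ≤ 3) := by omega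
        change v (if i + 1 + 1 + 1 + 1 ≤ 3 then i + 1 + 1 + 1 + 1 else 4) = v 4
        rw [if_neg h2]
    rw [e]
    simp
  exact UR.comp5 (R := fun N a b c d f => a ∈ sP b ∧
      H83.PN.Fc N b φ a (cons c (cons d (fun _ => f)))) h1
    (f := fun _ v => fst (v 0)) (g := fun _ v => v 1)
    (h := fun _ v => H83.PN.chk (v 1) (snd (v 0))) (k := fun _ v => v 2) (l := fun _ v => v 3)
    (by infer_instance) (UF.var 1) (by infer_instance) (UF.var 2) (UF.var 3)

theorem name_app {M G : Set ZFSet.{0}} {S : ZFSet.{0}} (hM : TM M) (hS : Sys S) (hSM : S ∈ M)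
    (hG : Gen M S G) {m a σ : ZFSet.{0}} (hm : m ∈ omega) (hσM : σ ∈ M) (hσ : HS S σ)
    (hs : Supp S m σ) (ha : a ∈ M) (hx : app (val G σ) a ⊆ HF) :
    ∃ ρ ∈ M, HS S ρ ∧ Supp S m ρ ∧ val G ρ = app (val G σ) a := by
  have hR : UR (fun _ v => v 0 ∈ app (v 1) (v 2)) := by infer_instance
  obtain ⟨φ, hφ⟩ := hR
  have hHF : HF ∈ M := UF.HF.mem M hM (fun _ => S) (fun _ => hSM)
  have hP : sP S ∈ M :=
    (inferInstance : UF (fun _ v => H83.PN.sP (v 0))).mem M hM (fun _ => S) fun _ => hSM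
  have hchk : ∀ x ∈ M, H83.PN.chk S x ∈ M := by
    intro x hxM
    have h1 : UF (fun _ v => H83.PN.chk (v 0) (v 1)) := by infer_instance
    refine h1.mem M hM (cons S (fun _ => x)) fun n => ?_
    match n with
    | 0 => exact hSM
    | n + 1 => exact hxM
  have hprod : ZFSet.prod (sP S) HF ∈ M := by
    have h1 : UF (fun _ v => ZFSet.prod (v 0) (v 1)) := by infer_instance
    refine h1.mem M hM (cons (sP S) (fun _ => HF)) fun n => ?_
    match n with
    | 0 => exact hP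
    | n + 1 => exact hHF
  let st : ZFSet.{0} → ℕ → ZFSet.{0} := fun h =>
    cons (H83.PN.chk S h) (cons σ (fun _ => H83.PN.chk S a))
  have hst : ∀ h ∈ M, ∀ i, st h i ∈ M ∧ HS S (st h i) := by
    intro h hh i
    match i with
    | 0 => exact ⟨hchk h hh, HS_chk hS h⟩
    | 1 => exact ⟨hσM, hσ⟩
    | n + 2 => exact ⟨hchk a ha, HS_chk hS a⟩
  let e : ZFSet.{0} := ZFSet.sep (fun t => fst t ∈ sP S ∧ H83.PN.Fc M S φ (fst t) (st (snd t)))
    (ZFSet.prod (sP S) HF)
  have heM : e ∈ M := by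
    refine TM.sep_of (R := fun N t v => fst t ∈ sP (v 0) ∧
      H83.PN.Fc N (v 0) φ (fst t)
        (cons (H83.PN.chk (v 0) (snd t)) (cons (v 1) (fun _ => v 2)))) (FSu_UR φ) hM
      (v := cons S (cons σ (fun _ => H83.PN.chk S a))) (fun n => ?_) hprod
    match n with
    | 0 => exact hSM
    | 1 => exact hσM
    | n + 2 => exact hchk a ha
  have he : e ⊆ ZFSet.prod (sP S) HF := fun t ht => (mem_sep.1 ht).1
  have hmem : ∀ p h, ZFSet.pair p h ∈ e ↔ p ∈ sP S ∧ h ∈ HF ∧ H83.PN.Fc M S φ p (st h) := by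
    intro p h
    constructor
    · intro ht
      obtain ⟨h1, h2, h3⟩ := mem_sep.1 ht
      obtain ⟨h4, h5⟩ := ZFSet.pair_mem_prod.1 h1
      rw [fst_pair, snd_pair] at h3
      exact ⟨h4, h5, h3⟩
    · rintro ⟨h1, h2, h3⟩
      refine mem_sep.2 ⟨ZFSet.pair_mem_prod.2 ⟨h1, h2⟩, ?_⟩
      rw [fst_pair, snd_pair]
      exact ⟨h1, h3⟩
  have hHM : ∀ h ∈ HF, h ∈ M := fun h hh => hM.tr _ hHF h hh
  have hinv : ∀ b ∈ app (sH S) m, ∀ p h, ZFSet.pair p h ∈ e → ZFSet.pair (app b p) h ∈ e := by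
    intro b hb p h ht
    obtain ⟨h1, h2, h3⟩ := (hmem p h).1 ht
    have hbA := hS.subH m hm hb
    have h4 := Fc_act hM hS hSM hbA φ h1 (hst h (hHM h h2)) h3
    have h5 : (fun i => H83.PN.actN S b (st h i)) = st h := by
      funext i
      match i with
      | 0 => exact actN_chk hS hbA h
      | 1 => exact hs.2 b hb
      | n + 2 => exact actN_chk hS hbA a
    rw [h5] at h4
    exact (hmem _ _).2 ⟨app_mem hS hbA h1, h2, h4⟩
  have hrn : H83.PN.rn S e ∈ M := by
    have h1 : UF (fun _ v => H83.PN.rn (v 0) (v 1)) := Inst.rn (hf := UF.var 0) (hg := UF.var 1)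
    refine h1.mem M hM (cons S (fun _ => e)) fun n => ?_
    match n with
    | 0 => exact hSM
    | n + 1 => exact heM
  have htop := top_mem hM hS hSM hG
  refine ⟨H83.PN.rn S e, hrn, HS_rn hS hm he hinv, Supp_rn hS hm he hinv, ?_⟩
  rw [val_rn he htop]
  have key : ∀ h ∈ HF, (h ∈ app (val G σ) a ↔ ∃ p ∈ G, H83.PN.Fc M S φ p (st h)) := by
    intro h hh
    have hu := hst h (hHM h hh)
    let v : ℕ → NN M S G := fun i => ⟨val G (st h i), st h i, (hu i).1, (hu i).2, rfl⟩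
    have h1 := (hφ _ (NN_tm hM hS hSM hG) v).trans (sat_iff _ _ v)
    have h2 : (h ∈ app (val G σ) a) ↔
        (val G (st h 0) ∈ app (val G (st h 1)) (val G (st h 2))) := by
      have e0 : val G (st h 0) = h := val_chk htop h
      have e2 : val G (st h 2) = a := val_chk htop a
      rw [e0, e2]
      exact Iff.rfl
    rw [h2]
    exact h1.trans (truth hM hS hSM hG φ (st h) hu)
  ext h
  rw [mem_ev]
  constructor
  · rintro ⟨p, hp, hph⟩
    obtain ⟨h1, h2, h3⟩ := (hmem p h).1 hph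
    exact (key h h2).2 ⟨p, hp, h3⟩
  · intro hh
    have h2 := hx hh
    obtain ⟨p, hp, h3⟩ := (key h h2).1 hh
    exact ⟨p, hp, (hmem p h).2 ⟨hG.sub p hp, h2, h3⟩⟩

end H83.PN
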