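import Pool.Agent.H83.PN.PFa

set_option autoImplicit false

/-!
# Module PFb: fusion

`TM_DC` with `R i w₁ w₂`: `VLe w₂ w₁` and `w₂` solves all tasks for `w₁` (`fusion_step`); write `Sol` with bounded quantifiers over
`H` (`pair w'' q'' ∈ PM U H m` implies `w'', q'' ∈ H`) to see that the relation is uniformly definable. Let `v'` be the limit of the sequence
`w_i`. Let `(w, q) ∈ PM`, `VLe w v'`, `a ∈ HF`. By density take `(w₁, q₁) ∈ PM` below `(w, q)` with `(pair w₁ q₁, a) ∈ D`. The finitely many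
coordinates of `q₁` (`csup q₁`) which are in `vS v' = ⋃ vS w_i` are in one `vS w_i`. Let `e = rsC (fst q₁) (vS w_i) ∈ Cn (vS w_i)`. As
`VLe w₁ (w_(i+1))`, `Sol` gives `q'` with `(pair w_(i+1) q', a) ∈ D` and `rsC (fst q') (vS w_i) = e`; by openness `(pair v' q', a) ∈ D`.
`q₁` and `q'` have a common extension over `w₁` (`QLe_join`): a common coordinate of `q₁` and `q'` is in `vS w_(i+1) ⊆ vS v'`, so in
`vS w_i`, where the two functions are both `e`. So `q₂ = q₁ ∪ q'` satisfies the claim (with `w₁`).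
-/

namespace H83.PN

open ZFSet H83.AC

variable {M : Set ZFSet.{0}} {K H : ZFSet.{0}}

private theorem PFb_mem {U H m p : ZFSet.{0}} : p ∈ PM U H m ↔
    p ∈ PU U H ∧ ∀ c ∈ vS (fst p), fst c ∈ m := by
  rw [PM, mem_sep]

private theorem PFb_fst (hG : Gr M K H) {x y : ZFSet.{0}} (h : pair x y ∈ H) : x ∈ H := by
  have h1 : ({x} : ZFSet.{0}) ∈ H := H_tr hG h (by rw [pair]; simp)
  exact H_tr hG h1 (by simp)

/-- the relation of the recursion -/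
private def PFb_R (x y : ZFSet.{0}) (v : ℕ → ZFSet.{0}) : Prop :=
  VLe y x ∧ ∀ a ∈ HF, ∀ e ∈ Cn (vS x),
    ((∃ p ∈ PM (v 0) (v 1) (v 2), VLe (fst p) y ∧ pair p a ∈ v 3 ∧
      rsC (fst (snd p)) (vS x) = e) →
    ∃ p ∈ PM (v 0) (v 1) (v 2), fst p = y ∧ pair p a ∈ v 3 ∧ rsC (fst (snd p)) (vS x) = e)

private theorem PFb_UR : UR (fun _ w => PFb_R (w 1) (w 2) (sh (sh (sh w)))) := by
  have h : UR (fun _ w => H83.PN.VLe (w 2) (w 1) ∧ ∀ a ∈ H83.AC.HF, ∀ e ∈ H83.PN.Cn (H83.PN.vS (w 1)),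
    ((∃ p ∈ H83.PN.PM (w 3) (w 4) (w 5), H83.PN.VLe (H83.AC.fst p) (w 2) ∧ ZFSet.pair p a ∈ w 6 ∧
      H83.PN.rsC (H83.AC.fst (H83.AC.snd p)) (H83.PN.vS (w 1)) = e) →
    ∃ p ∈ H83.PN.PM (w 3) (w 4) (w 5), H83.AC.fst p = w 2 ∧ ZFSet.pair p a ∈ w 6 ∧
      H83.PN.rsC (H83.AC.fst (H83.AC.snd p)) (H83.PN.vS (w 1)) = e)) := by
    infer_instance
  exact h

private theorem PFb_sub {p : ZFSet.{0}} (hl : ∀ i ∈ omega, VLe (app p (sc i)) (app p i))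
    {C : Set ZFSet.{0}} (hC : C.Finite) (h : ∀ c ∈ C, ∃ i ∈ omega, c ∈ vS (app p i)) :
    ∃ i : ℕ, ∀ c ∈ C, c ∈ vS (app p (nz i)) := by
  have h1 : ∀ c : ZFSet.{0}, ∃ i : ℕ, c ∈ C → c ∈ vS (app p (nz i)) := by
    intro c
    by_cases hc : c ∈ C
    · obtain ⟨i, hi, h2⟩ := h c hc
      obtain ⟨n, rfl⟩ := mem_omega.1 hi
      exact ⟨n, fun _ => h2⟩
    · exact ⟨0, fun h => absurd h hc⟩
  choose j hj using h1
  obtain ⟨N, hN⟩ := (hC.image j).bddAbove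
  refine ⟨N, fun c hc => ?_⟩
  have h2 : j c ≤ N := hN ⟨c, hc, rfl⟩
  exact (VLe_chain hl h2).2.1 (hj c hc)

theorem fusion (hG : Gr M K H) {n : ℕ} {U : ZFSet.{0}} (hU : UOK M H n U) {m D : ZFSet.{0}}
    (hm : m ∈ M) (hD : D ∈ M) (ho : Opn U H m D)
    (hd : ∀ p ∈ PM U H m, ∀ a ∈ HF, ∃ p' ∈ PM U H m, pair p' p ∈ OU U H ∧ pair p' a ∈ D)
    {v : ZFSet.{0}} (hv : VV v) (hvH : v ∈ H) (hL : vL v ∈ dom U) (hc : ∀ c ∈ vS v, fst c ∈ m) :
    ∃ v' ∈ H, VV v' ∧ vL v' ∈ dom U ∧ (∀ c ∈ vS v', fst c ∈ m) ∧ VLe v' v ∧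
      ∀ a ∈ HF, ∀ w q, pair w q ∈ PM U H m → VLe w v' →
        ∃ q', QQ v' q' ∧ pair (pair v' q') a ∈ D ∧ ∃ w₁ q₂, pair w₁ q₂ ∈ PM U H m ∧
          VLe w₁ w ∧ QLe U w q₂ q ∧ QLe U v' q₂ q' := by
  have hM := hG.tm
  have hHM : H ∈ M := H_M hG
  have hUM : U ∈ M := hU.mem
  -- the set of first parts
  have hAM : ZFSet.sep (fun w => VV w ∧ vL w ∈ dom U ∧ ∀ c ∈ vS w, fst c ∈ m) H ∈ M := by
    have h2 : UF (fun _ v => ZFSet.sep (fun w => H83.PN.VV w ∧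
        H83.PN.vL w ∈ H83.AC.dom (v 1) ∧ ∀ c ∈ H83.PN.vS w, H83.AC.fst c ∈ v 2) (v 0)) := by
      infer_instance
    exact h2.mem M hM (cons H (cons U (fun _ => m))) (fun i => by
      rcases i with _ | _ | i
      · exact hHM
      · exact hUM
      · exact hm)
  have hA : ∀ w, w ∈ ZFSet.sep (fun w => VV w ∧ vL w ∈ dom U ∧ ∀ c ∈ vS w, fst c ∈ m) H ↔
      w ∈ H ∧ VV w ∧ vL w ∈ dom U ∧ ∀ c ∈ vS w, fst c ∈ m := fun w => mem_sep
  generalize ZFSet.sep (fun w => VV w ∧ vL w ∈ dom U ∧ ∀ c ∈ vS w, fst c ∈ m) H = A at hAM hA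
  have hst : ∀ i, cons U (cons H (cons m (fun _ => D))) i ∈ M := by
    rintro (_ | _ | _ | i)
    · exact hUM
    · exact hHM
    · exact hm
    · exact hD
  obtain ⟨p, hp, hpf, hp0, hpR⟩ := TM_DC hM hG.vl
    (R := fun _ _ x y v => PFb_R x y v) PFb_UR hst hAM ((hA v).2 ⟨hvH, hv, hL, hc⟩) (by
      intro i _ x hx
      obtain ⟨h1, h2, h3, h4⟩ := (hA x).1 hx
      obtain ⟨y, hy, h5, h6, h7, h8, h9⟩ := fusion_step hG hU hm hD ho h2 h1 h3 h4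
      refine ⟨y, (hA y).2 ⟨hy, h5, h6, h7⟩, h8, fun a ha e he => ?_⟩
      rintro ⟨p, hp, h10, h11, h12⟩
      have hp1 := mem_PU.1 (PFb_mem.1 hp).1
      have h13 := h9 a ha e he ⟨fst p, snd p, by rw [← hp1.2.1]; exact hp, h10,
        by rw [← hp1.2.1]; exact h11, h12⟩
      obtain ⟨q', h14, h15, h16⟩ := h13
      exact ⟨pair y q', h14, by rw [fst_pair], h15, by rw [snd_pair]; exact h16⟩)
  have hpA : ∀ i ∈ omega, app p i ∈ A := fun i hi => fn_mem hpf hi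
  have hl : ∀ i ∈ omega, VLe (app p (sc i)) (app p i) := fun i hi => (hpR i hi).1
  obtain ⟨hv', hv'H, hv'le, hv'S, hv'L⟩ := limV_ok hG hp
    (fun i hi => ⟨((hA _).1 (hpA i hi)).2.1, ((hA _).1 (hpA i hi)).1⟩) hl
  generalize limV p = v' at hv' hv'H hv'le hv'S hv'L
  have hv'm : ∀ c ∈ vS v', fst c ∈ m := by
    intro c hc'
    obtain ⟨i, hi, h1⟩ := (hv'S c).1 hc'
    exact ((hA _).1 (hpA i hi)).2.2.2 c h1
  have hv'd : vL v' ∈ dom U := by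
    rw [hU.dom, ← hv'.2.1]
    refine rk_mem_rk.2 (rank_lt_of_mem ?_)
    have h1 : v' = pair (vL v') (pair (vS v') (vf v')) := hv'.1
    rw [h1] at hv'H
    exact PFb_fst hG hv'H
  have hv'v : VLe v' v := by
    have h1 := hv'le ∅ (nz_mem_omega 0)
    rwa [hp0] at h1
  refine ⟨v', hv'H, hv', hv'd, hv'm, hv'v, ?_⟩
  intro a ha w q hwq hwv
  obtain ⟨p', hp', hpo, hpD⟩ := hd _ hwq a ha
  obtain ⟨hp'H, hp'e, hp'V, hp'L, hp'Q⟩ := mem_PU.1 (PFb_mem.1 hp').1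
  have hp'm := (PFb_mem.1 hp').2
  obtain ⟨-, hwqU, hle1, hle2⟩ := mem_OU.1 hpo
  have hwq2 := (mem_PU.1 hwqU).2.2.2.2
  rw [fst_pair] at hle1 hle2 hwq2
  rw [snd_pair] at hle2 hwq2
  generalize hw₁ : fst p' = w₁ at *
  generalize hq₁ : snd p' = q₁ at *
  have hw₁H : w₁ ∈ H := by
    rw [hp'e] at hp'H
    exact PFb_fst hG hp'H
  -- the index `i`
  have hfin : Set.Finite {c : ZFSet.{0} | c ∈ vS v' ∧ (c ∈ img (fun t => fst (fst t)) (fst q₁) ∨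
      c ∈ img (fun s => fst s) (snd q₁))} := by
    have h1 : Fnt (fst q₁) := (mem_Cn.1 hp'Q.2.1).2.1
    have h2 : Fnt (snd q₁) := (mem_Fs.1 hp'Q.2.2).2
    have h3 : Fnt (img (fun t => fst (fst t)) (fst q₁)) := Fnt_img h1
    have h4 : Fnt (img (fun s => fst s) (snd q₁)) := Fnt_img h2
    refine (Set.Finite.union h3 h4).subset ?_
    rintro c ⟨-, h5 | h5⟩
    · exact Or.inl h5
    · exact Or.inr h5
  obtain ⟨i, hi⟩ := PFb_sub hl hfin (fun c hc' => (hv'S c).1 hc'.1)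
  have hio : nz i ∈ omega := nz_mem_omega i
  have hio1 : sc (nz i) ∈ omega := nz_mem_omega (i + 1)
  have hR := (hpR (nz i) hio).2
  have hB := (hA _).1 (hpA _ hio1)
  have hle3 : VLe v' (app p (sc (nz i))) := hv'le _ hio1
  have hle4 : VLe w₁ (app p (sc (nz i))) := VLe_trans (VLe_trans hle1 hwv) hle3
  have hi1 : ∀ t ∈ fst q₁, fst (fst t) ∈ vS v' → fst (fst t) ∈ vS (app p (nz i)) :=
    fun t ht h => hi _ ⟨h, Or.inl (mem_img.2 ⟨t, ht, rfl⟩)⟩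
  have hi2 : ∀ s ∈ snd q₁, fst s ∈ vS v' → fst s ∈ vS (app p (nz i)) :=
    fun s hs h => hi _ ⟨h, Or.inr (mem_img.2 ⟨s, hs, rfl⟩)⟩
  obtain ⟨p'', hp'', h1, h2, h3⟩ := hR a ha (rsC (fst q₁) (vS (app p (nz i))))
    (Cn_rsC hp'Q.2.1) ⟨p', hp', by rw [hw₁]; exact hle4, hpD, by rw [hq₁]⟩
  obtain ⟨h4, h5, h6, h7, h8⟩ := mem_PU.1 (PFb_mem.1 hp'').1
  rw [h1] at h5 h6 h7 h8
  generalize hq' : snd p'' = q' at *
  generalize hx : app p (sc (nz i)) = x at *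
  generalize hy : app p (nz i) = y at *
  have hQ' : QQ v' q' := QQ_mono hle3 h8
  have hvq : pair v' q' ∈ PM U H m := by
    refine PFb_mem.2 ⟨mk_PU hG hv' hv'H hv'd hQ', ?_⟩
    rw [fst_pair]
    exact hv'm
  have hvqD : pair (pair v' q') a ∈ D := by
    refine ho p'' hp'' _ hvq a ha ?_ h2
    refine mem_OU.2 ⟨(PFb_mem.1 hvq).1, (PFb_mem.1 hp'').1, ?_, ?_⟩
    · rw [fst_pair, h1]
      exact hle3
    · rw [snd_pair, hq']
      exact QLe_refl _ _ _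
  have hxv : ∀ c ∈ vS x, c ∈ vS v' := fun c h => hle3.2.1 h
  have hel := (QQ_elt h8)
  have hCe : rsC (fst q₁) (vS y) ∈ Cn (vS y) := Cn_rsC hp'Q.2.1
  have hFe := (mem_Cn.1 hCe).2.2.2
  have hj := QLe_join (u := U) hp'Q (QQ_mono hle4 h8)
    (fun t ht t' ht' e => by
      have h10 : fst (fst t') ∈ vS x := (hel.1 t' ht').2.1
      have h11 : fst (fst t) ∈ vS y := hi1 t ht (by rw [e]; exact hxv _ h10)
      refine hFe t (mem_rsC.2 ⟨ht, h11⟩) t' ?_ e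
      rw [← h3]
      exact mem_rsC.2 ⟨ht', by rw [← e]; exact h11⟩)
    (fun t ht hn s hs e => by
      have h10 : fst (fst t) ∈ vS x := (hel.1 t ht).2.1
      have h11 : fst (fst t) ∈ vS y := by
        rw [← e]
        exact hi2 s hs (by rw [e]; exact hxv _ h10)
      have h12 : t ∈ rsC (fst q') (vS y) := mem_rsC.2 ⟨ht, h11⟩
      rw [h3] at h12
      exact absurd (mem_rsC.1 h12).1 hn)
    (fun t ht hn s hs e => by
      have h10 : fst s ∈ vS x := (hel.2 s hs).2.1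
      have h11 : fst (fst t) ∈ vS y := hi1 t ht (by rw [← e]; exact hxv _ h10)
      have h12 : t ∈ rsC (fst q₁) (vS y) := mem_rsC.2 ⟨ht, h11⟩
      rw [← h3] at h12
      exact absurd (mem_rsC.1 h12).1 hn)
  obtain ⟨hj1, hj2, hj3⟩ := hj
  refine ⟨q', hQ', hvqD, w₁, _, ?_, hle1, QLe_trans hle1 hwq2 hj2 hle2, ?_⟩
  · refine PFb_mem.2 ⟨mk_PU hG hp'V hw₁H hp'L hj1, ?_⟩
    rw [fst_pair]
    exact hp'm
  · exact (QLe_v (VLe_trans hle1 hwv) hQ').1 hj3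

end H83.PN
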