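import Pool.Agent.H83.PN.PVb

set_option autoImplicit false

/-!
# Module PVc: restriction to columns and to sets of coordinates

`rsV v m`, `rsQ q m`: restriction to the coordinates in the columns `k ∈ m`. `rqS q S L`: restriction of `q` to the
coordinates in `S` and to promises below `L`. `QLe_rqS` and `QLe_rsQ'`: if `t ∈ fst q` is not in the restriction and `s` is a
promise of the restriction with `fst s = fst (fst t)`, then the coordinate of `t` is in `S` (in the columns `m`), contradiction.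
-/

namespace H83.PN

open ZFSet H83.AC

variable {f g h k l : Set ZFSet.{0} → (ℕ → ZFSet.{0}) → ZFSet.{0}}
variable {M : Set ZFSet.{0}} {K H : ZFSet.{0}}

/-- restriction to columns -/
noncomputable def rsV (v m : ZFSet.{0}) : ZFSet.{0} :=
  pair (vL v) (pair (ZFSet.sep (fun c => fst c ∈ m) (vS v))
    (ZFSet.sep (fun t => fst (fst (fst t)) ∈ m) (vf v)))
/-- restriction to columns -/
noncomputable def rsQ (q m : ZFSet.{0}) : ZFSet.{0} :=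
  pair (ZFSet.sep (fun t => fst (fst (fst t)) ∈ m) (fst q))
    (ZFSet.sep (fun s => fst (fst s) ∈ m) (snd q))
/-- restriction to a set of coordinates -/
noncomputable def rqS (q S L : ZFSet.{0}) : ZFSet.{0} :=
  pair (ZFSet.sep (fun t => fst (fst t) ∈ S) (fst q))
    (ZFSet.sep (fun s => fst s ∈ S ∧ snd s ∈ L) (snd q))

instance Inst.rsV [hf : UF f] [hg : UF g] : UF (fun N v => H83.PN.rsV (f N v) (g N v)) := by
  unfold H83.PN.rsV; infer_instance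
instance Inst.rsQ [hf : UF f] [hg : UF g] : UF (fun N v => H83.PN.rsQ (f N v) (g N v)) := by
  unfold H83.PN.rsQ; infer_instance
instance Inst.rqS [hf : UF f] [hg : UF g] [hh : UF h] :
    UF (fun N v => H83.PN.rqS (f N v) (g N v) (h N v)) := by
  unfold H83.PN.rqS; infer_instance

private theorem PVc_mprod {s X Y : ZFSet.{0}} :
    s ∈ ZFSet.prod X Y ↔ s = pair (fst s) (snd s) ∧ fst s ∈ X ∧ snd s ∈ Y := by
  constructor
  · intro h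
    obtain ⟨a, ha, b, hb, rfl⟩ := ZFSet.mem_prod.1 h
    rw [fst_pair, snd_pair]
    exact ⟨rfl, ha, hb⟩
  · rintro ⟨h, ha, hb⟩
    rw [h]
    exact ZFSet.pair_mem_prod.2 ⟨ha, hb⟩

private theorem PVc_vL (v m : ZFSet.{0}) : vL (rsV v m) = vL v := by
  unfold H83.PN.rsV
  rw [vL, fst_pair]

private theorem PVc_vS (v m : ZFSet.{0}) :
    vS (rsV v m) = ZFSet.sep (fun c => fst c ∈ m) (vS v) := by
  unfold H83.PN.rsV
  rw [vS, snd_pair, fst_pair]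

private theorem PVc_vf (v m : ZFSet.{0}) :
    vf (rsV v m) = ZFSet.sep (fun t => fst (fst (fst t)) ∈ m) (vf v) := by
  unfold H83.PN.rsV
  rw [vf, snd_pair, snd_pair]

private theorem PVc_mem_vS {v m c : ZFSet.{0}} :
    c ∈ vS (rsV v m) ↔ c ∈ vS v ∧ fst c ∈ m := by
  rw [PVc_vS, ZFSet.mem_sep]

private theorem PVc_prod {v m s : ZFSet.{0}} :
    s ∈ ZFSet.prod (vS (rsV v m)) (vL v) ↔ s ∈ ZFSet.prod (vS v) (vL v) ∧ fst (fst s) ∈ m := by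
  rw [PVc_mprod, PVc_mprod, PVc_mem_vS]
  tauto

private theorem PVc_vf_eq {v : ZFSet.{0}} (hv : VV v) (m : ZFSet.{0}) :
    vf (rsV v m) = fgr (fun s => app (vf v) s) (ZFSet.prod (vS (rsV v m)) (vL v)) := by
  rw [PVc_vf]
  ext t
  rw [ZFSet.mem_sep, mem_fgr]
  constructor
  · rintro ⟨h1, h2⟩
    rw [hv.2.2.2.1, mem_fgr] at h1
    obtain ⟨s, hs, rfl⟩ := h1
    rw [fst_pair] at h2
    exact ⟨s, PVc_prod.2 ⟨hs, h2⟩, rfl⟩
  · rintro ⟨s, hs, rfl⟩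
    obtain ⟨h1, h2⟩ := PVc_prod.1 hs
    refine ⟨?_, ?_⟩
    · rw [hv.2.2.2.1, mem_fgr]
      refine ⟨s, h1, ?_⟩
      rw [← hv.2.2.2.1]
    · rw [fst_pair]
      exact h2

private theorem PVc_app {v : ZFSet.{0}} (hv : VV v) {m s : ZFSet.{0}}
    (hs : s ∈ ZFSet.prod (vS (rsV v m)) (vL v)) : app (vf (rsV v m)) s = app (vf v) s := by
  rw [PVc_vf_eq hv m, app_fgr hs]

theorem VV_rsV {v : ZFSet.{0}} (hv : VV v) (m : ZFSet.{0}) : VV (rsV v m) ∧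
    vL (rsV v m) = vL v ∧ (∀ c, c ∈ vS (rsV v m) ↔ c ∈ vS v ∧ fst c ∈ m) ∧
    ∀ s ∈ ZFSet.prod (vS (rsV v m)) (vL v), app (vf (rsV v m)) s = app (vf v) s := by
  refine ⟨⟨?_, ?_, ?_, ?_, ?_⟩, PVc_vL v m, fun c => PVc_mem_vS, fun s hs => PVc_app hv hs⟩
  · rw [PVc_vL, PVc_vS, PVc_vf]
    rfl
  · rw [PVc_vL]
    exact hv.2.1
  · intro c hc
    exact hv.2.2.1 c (PVc_mem_vS.1 hc).1
  · rw [PVc_vL]
    refine (PVc_vf_eq hv m).trans (fgr_congr fun s hs => ?_)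
    exact (PVc_app hv hs).symm
  · intro s hs
    rw [PVc_vL] at hs
    rw [PVc_app hv hs]
    exact hv.2.2.2.2 s (PVc_prod.1 hs).1

theorem VLe_rsV {v : ZFSet.{0}} (hv : VV v) (m : ZFSet.{0}) : VLe v (rsV v m) := by
  refine ⟨?_, ?_, ?_, ?_, ?_⟩
  · rw [PVc_vL]
  · intro c hc
    exact (PVc_mem_vS.1 hc).1
  · intro s hs
    rw [PVc_vL] at hs
    exact (PVc_app hv hs).symm
  · intro c _ γ hγ hγ'
    rw [PVc_vL] at hγ'
    exact absurd hγ hγ'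
  · intro c _ c' _ _ γ hγ hγ'
    rw [PVc_vL] at hγ'
    exact absurd hγ hγ'

theorem rsV_mono {v v' : ZFSet.{0}} (hv : VV v) (hv' : VV v') (h : VLe v' v) (m : ZFSet.{0}) :
    VLe (rsV v' m) (rsV v m) := by
  obtain ⟨h1, h2, h3, h4, h5⟩ := h
  have key : ∀ c ∈ vS (rsV v m), ∀ γ ∈ vL v',
      app (vf (rsV v' m)) (pair c γ) = app (vf v') (pair c γ) := by
    intro c hc γ hγ
    obtain ⟨hc1, hc2⟩ := PVc_mem_vS.1 hc
    refine PVc_app hv' (ZFSet.pair_mem_prod.2 ⟨PVc_mem_vS.2 ⟨h2 hc1, hc2⟩, hγ⟩)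
  refine ⟨?_, ?_, ?_, ?_, ?_⟩
  · rw [PVc_vL, PVc_vL]
    exact h1
  · intro c hc
    obtain ⟨hc1, hc2⟩ := PVc_mem_vS.1 hc
    exact PVc_mem_vS.2 ⟨h2 hc1, hc2⟩
  · intro s hs
    rw [PVc_vL] at hs
    obtain ⟨e, hs1, hs2⟩ := PVc_mprod.1 hs
    rw [PVc_app hv hs, ← h3 s (PVc_prod.1 hs).1, e]
    exact key _ hs1 _ (h1 hs2)
  · intro c hc γ hγ hγ'
    rw [PVc_vL] at hγ hγ'
    rw [key c hc γ hγ]
    exact h4 c (PVc_mem_vS.1 hc).1 γ hγ hγ'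
  · intro c hc c' hc' hne γ hγ hγ'
    rw [PVc_vL] at hγ hγ'
    rw [key c hc γ hγ, key c' hc' γ hγ]
    exact h5 c (PVc_mem_vS.1 hc).1 c' (PVc_mem_vS.1 hc').1 hne γ hγ hγ'

private theorem PVc_Fs {X Y X' Y' a a' : ZFSet.{0}} (ha : a ∈ Fs (ZFSet.prod X Y))
    (hs : a' ⊆ a) (h : ∀ s ∈ a', fst s ∈ X' ∧ snd s ∈ Y') : a' ∈ Fs (ZFSet.prod X' Y') := by
  unfold H83.PN.Fs at ha ⊢
  rw [ZFSet.mem_sep, ZFSet.mem_powerset] at ha ⊢
  refine ⟨fun s hs' => ?_, ha.2.subset fun s hs' => hs hs'⟩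
  have h1 := PVc_mprod.1 (ha.1 (hs hs'))
  exact PVc_mprod.2 ⟨h1.1, h s hs'⟩

private theorem PVc_Fs_mem {X Y a s : ZFSet.{0}} (ha : a ∈ Fs (ZFSet.prod X Y))
    (hs : s ∈ a) : s ∈ ZFSet.prod X Y := by
  unfold H83.PN.Fs at ha
  rw [ZFSet.mem_sep, ZFSet.mem_powerset] at ha
  exact ha.1 hs

private theorem PVc_Cn_mem {X p t : ZFSet.{0}} (hp : p ∈ Cn X) (ht : t ∈ p) :
    fst (fst t) ∈ X := by
  unfold H83.PN.Cn at hp
  rw [ZFSet.mem_sep] at hp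
  have h1 := PVc_mprod.1 (PVc_Fs_mem hp.1 ht)
  exact (PVc_mprod.1 h1.2.1).2.1

private theorem PVc_Cn {X X' p p' : ZFSet.{0}} (hp : p ∈ Cn X)
    (hs : p' ⊆ p) (h : ∀ t ∈ p', fst (fst t) ∈ X') : p' ∈ Cn X' := by
  unfold H83.PN.Cn at hp ⊢
  rw [ZFSet.mem_sep] at hp ⊢
  refine ⟨PVc_Fs hp.1 hs fun t ht => ?_, fun t ht => hp.2.1 t (hs ht),
    fun t ht t' ht' => hp.2.2 t (hs ht) t' (hs ht')⟩
  have h1 := PVc_mprod.1 (PVc_Fs_mem hp.1 (hs ht))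
  have h2 := PVc_mprod.1 h1.2.1
  exact ⟨PVc_mprod.2 ⟨h2.1, h t ht, h2.2.2⟩, h1.2.2⟩

private theorem PVc_sep_sub {p : ZFSet.{0} → Prop} {x : ZFSet.{0}} : ZFSet.sep p x ⊆ x :=
  fun _ h => (ZFSet.mem_sep.1 h).1

private theorem PVc_fQ (q m : ZFSet.{0}) :
    fst (rsQ q m) = ZFSet.sep (fun t => fst (fst (fst t)) ∈ m) (fst q) := by
  unfold H83.PN.rsQ
  rw [fst_pair]

private theorem PVc_sQ (q m : ZFSet.{0}) :
    snd (rsQ q m) = ZFSet.sep (fun s => fst (fst s) ∈ m) (snd q) := by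
  unfold H83.PN.rsQ
  rw [snd_pair]

private theorem PVc_fS (q S L : ZFSet.{0}) :
    fst (rqS q S L) = ZFSet.sep (fun t => fst (fst t) ∈ S) (fst q) := by
  unfold H83.PN.rqS
  rw [fst_pair]

private theorem PVc_sS (q S L : ZFSet.{0}) :
    snd (rqS q S L) = ZFSet.sep (fun s => fst s ∈ S ∧ snd s ∈ L) (snd q) := by
  unfold H83.PN.rqS
  rw [snd_pair]

theorem QQ_rsQ {v q : ZFSet.{0}} (hv : VV v) (hq : QQ v q) (m : ZFSet.{0}) :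
    QQ (rsV v m) (rsQ q m) := by
  refine ⟨?_, ?_, ?_⟩
  · rw [PVc_fQ, PVc_sQ]
    rfl
  · rw [PVc_fQ]
    refine PVc_Cn hq.2.1 PVc_sep_sub fun t ht => ?_
    obtain ⟨h1, h2⟩ := ZFSet.mem_sep.1 ht
    exact PVc_mem_vS.2 ⟨PVc_Cn_mem hq.2.1 h1, h2⟩
  · rw [PVc_sQ, PVc_vL]
    refine PVc_Fs hq.2.2 PVc_sep_sub fun s hs => ?_
    obtain ⟨h1, h2⟩ := ZFSet.mem_sep.1 hs
    have h3 := PVc_mprod.1 (PVc_Fs_mem hq.2.2 h1)
    exact ⟨PVc_mem_vS.2 ⟨h3.2.1, h2⟩, h3.2.2⟩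

private theorem PVc_rl {u v q m s : ZFSet.{0}} (hv : VV v) (hq : QQ v q)
    (hs : s ∈ snd q) (hm : fst (fst s) ∈ m) : rl u (rsV v m) s = rl u v s := by
  unfold H83.PN.rl
  rw [PVc_app hv (PVc_prod.2 ⟨PVc_Fs_mem hq.2.2 hs, hm⟩)]

theorem QLe_rsQ {u v q q' : ZFSet.{0}} (hv : VV v) (hq : QQ v q) (h : QLe u v q' q)
    (m : ZFSet.{0}) : QLe u (rsV v m) (rsQ q' m) (rsQ q m) := by
  obtain ⟨h1, h2, h3⟩ := h
  refine ⟨?_, ?_, ?_⟩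
  · rw [PVc_fQ, PVc_fQ]
    intro t ht
    obtain ⟨ha, hb⟩ := ZFSet.mem_sep.1 ht
    exact ZFSet.mem_sep.2 ⟨h1 ha, hb⟩
  · rw [PVc_sQ, PVc_sQ]
    intro t ht
    obtain ⟨ha, hb⟩ := ZFSet.mem_sep.1 ht
    exact ZFSet.mem_sep.2 ⟨h2 ha, hb⟩
  · intro t ht ht' s hs e
    rw [PVc_fQ] at ht ht'
    rw [PVc_sQ] at hs
    obtain ⟨ha, hb⟩ := ZFSet.mem_sep.1 ht
    obtain ⟨hc, hd⟩ := ZFSet.mem_sep.1 hs
    rw [PVc_rl hv hq hc hd]
    exact h3 t ha (fun h' => ht' (ZFSet.mem_sep.2 ⟨h', hb⟩)) s hc e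

theorem QLe_rsQ' {u v q : ZFSet.{0}} (hv : VV v) (hq : QQ v q) (m : ZFSet.{0}) :
    QLe u (rsV v m) q (rsQ q m) := by
  refine ⟨?_, ?_, ?_⟩
  · rw [PVc_fQ]
    exact PVc_sep_sub
  · rw [PVc_sQ]
    exact PVc_sep_sub
  · intro t ht ht' s hs e
    rw [PVc_fQ] at ht'
    rw [PVc_sQ] at hs
    obtain ⟨hc, hd⟩ := ZFSet.mem_sep.1 hs
    refine absurd (ZFSet.mem_sep.2 ⟨ht, ?_⟩) ht'
    rw [e] at hd
    exact hd

theorem QQ_rqS {u v v' q : ZFSet.{0}} (hq : QQ v' q) (h : VLe v' v) :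
    QQ v (rqS q (vS v) (vL v)) ∧ QLe u v q (rqS q (vS v) (vL v)) := by
  refine ⟨⟨?_, ?_, ?_⟩, ?_, ?_, ?_⟩
  · rw [PVc_fS, PVc_sS]
    rfl
  · rw [PVc_fS]
    exact PVc_Cn hq.2.1 PVc_sep_sub fun t ht => (ZFSet.mem_sep.1 ht).2
  · rw [PVc_sS]
    exact PVc_Fs hq.2.2 PVc_sep_sub fun s hs => (ZFSet.mem_sep.1 hs).2
  · rw [PVc_fS]
    exact PVc_sep_sub
  · rw [PVc_sS]
    exact PVc_sep_sub
  · intro t ht ht' s hs e
    rw [PVc_fS] at ht'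
    rw [PVc_sS] at hs
    obtain ⟨hc, hd⟩ := ZFSet.mem_sep.1 hs
    refine absurd (ZFSet.mem_sep.2 ⟨ht, ?_⟩) ht'
    rw [← e]
    exact hd.1

theorem rqS_le {u v v' q q' : ZFSet.{0}} (hq : QQ v q) (hq' : QQ v' q') (h : VLe v' v)
    (h' : QLe u v q' q) : QLe u v (rqS q' (vS v) (vL v)) q := by
  obtain ⟨h1, h2, h3⟩ := h'
  refine ⟨?_, ?_, ?_⟩
  · rw [PVc_fS]
    intro t ht
    exact ZFSet.mem_sep.2 ⟨h1 ht, PVc_Cn_mem hq.2.1 ht⟩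
  · rw [PVc_sS]
    intro s hs
    have h4 := PVc_mprod.1 (PVc_Fs_mem hq.2.2 hs)
    exact ZFSet.mem_sep.2 ⟨h2 hs, h4.2⟩
  · intro t ht ht' s hs e
    rw [PVc_fS] at ht
    exact h3 t (ZFSet.mem_sep.1 ht).1 ht' s hs e

private theorem PVc_sep_full {p : ZFSet.{0} → Prop} {x : ZFSet.{0}} (h : ∀ y ∈ x, p y) :
    ZFSet.sep p x = x := by
  ext y
  rw [ZFSet.mem_sep]
  exact ⟨fun h' => h'.1, fun h' => ⟨h', h y h'⟩⟩

theorem rsV_full {v : ZFSet.{0}} (hv : VV v) {m : ZFSet.{0}} (h : ∀ c ∈ vS v, fst c ∈ m) :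
    rsV v m = v := by
  have h1 : ZFSet.sep (fun c => fst c ∈ m) (vS v) = vS v := PVc_sep_full h
  have h2 : ZFSet.sep (fun t => fst (fst (fst t)) ∈ m) (vf v) = vf v := by
    refine PVc_sep_full fun t ht => ?_
    rw [hv.2.2.2.1, mem_fgr] at ht
    obtain ⟨s, hs, rfl⟩ := ht
    rw [fst_pair]
    exact h _ (PVc_mprod.1 hs).2.1
  unfold H83.PN.rsV
  rw [h1, h2]
  exact hv.1.symm

theorem rsQ_full {v q : ZFSet.{0}} (hq : QQ v q) {m : ZFSet.{0}} (h : ∀ c ∈ vS v, fst c ∈ m) :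
    rsQ q m = q := by
  have h1 : ZFSet.sep (fun t => fst (fst (fst t)) ∈ m) (fst q) = fst q :=
    PVc_sep_full fun t ht => h _ (PVc_Cn_mem hq.2.1 ht)
  have h2 : ZFSet.sep (fun s => fst (fst s) ∈ m) (snd q) = snd q :=
    PVc_sep_full fun s hs => h _ (PVc_mprod.1 (PVc_Fs_mem hq.2.2 hs)).2.1
  unfold H83.PN.rsQ
  rw [h1, h2]
  exact hq.1.symm

end H83.PN
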