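import Pool.Agent.H83.PN.PSd
import Pool.Agent.H83.PN.PVc

set_option autoImplicit false

/-!
# Module PSe: the sealing lemma

Let `q = (h, g)`. `Z = {pair γ (app (vf v') (pair c γ)) : pair c γ ∈ g, c ∈ vS v, γ ∉ vL v}` is finite; let `σ` be an injective
enumeration of `Z` on `nz r` (`σ : ZFSet → ZFSet`), `Rl = {pair c y : y ∈ nz r, ∃ γ, pair c γ ∈ g, c ∈ vS v, γ ∉ vL v,
σ y = pair γ (app (vf v') (pair c γ))}` (finite, its elements are in `W`, so `Rl ∈ W`), `q₀ = rqS q (vS v) (vL v)` (`QQ_rqS`; `q₀ ∈ W`).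
`gen_prod` (`ν = dom u`, which is an element of `dom u'` or `dom u' = dom u`; the sequence `fgr (uW u') (dom u)` is `ws u`) gives: the family
`y ↦ app (uF u' (fst (σ y))) (snd (σ y))` is generic over `W` on `nz r`. So some `s ∈ Esl ..` (`Esl_dense`, `Esl_mem`) fits it; let `q₁`
and `d ∈ D` belong to `s`. `q₂ = q ∪ q₁` (`QLe_join` for `u', v'`): (a) functions: if `t ∈ h`, `t' ∈ fst q₁` have the same first
component then the coordinate is in `vS v`, so `t ∈ fst q₀ ⊆ fst q₁`. (b) `t ∈ fst q₁`, `t ∉ h`, `s' ∈ g` with the same coordinate `c ∈ vS v`,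
`s' = pair c γ`: if `γ ∈ vL v` then `s' ∈ snd q₀` and `q₁ ≤ q₀` (`rl_mono`, `rl_u`); if `γ ∉ vL v` let `σ y = pair γ (v' (c, γ))`: there is `j ≠ snd t`
with `((y, i), j) ∈ s`, so `(i, j) ∈ rl u' v' s'`, a function (`rl_real`), so `(i, snd t) ∉ rl u' v' s'`. (c) `t ∈ h`, `t ∉ fst q₁`, `s' ∈ snd q₁`:
the coordinate is in `vS v`, so `t ∈ fst q₀`, impossible. Finally `QLe u' v' q₂ d` by `QLe_trans`, `QLe_v`, `QLe_u`.
-/

namespace H83.PN

open ZFSet H83.AC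

private theorem PSe_lt {α β : ZFSet.{0}} (ha : rk α = α) (hb : rk β = β)
    (h : rank α < rank β) : α ∈ β := by
  rw [← ha, ← hb]
  exact rk_mem_rk.2 h

private theorem PSe_le {α β : ZFSet.{0}} (ha : rk α = α) (hb : rk β = β) (h : α ⊆ β) :
    α ∈ β ∨ α = β := by
  rcases lt_trichotomy (rank α) (rank β) with h1 | h1 | h1
  · exact Or.inl (PSe_lt ha hb h1)
  · right
    rw [← ha, ← hb]
    exact rk_eq_rk.2 h1
  · exact absurd (h (PSe_lt hb ha h1)) (ZFSet.mem_irrefl _)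

private theorem PSe_enum {g : ZFSet.{0}} (hg : Fnt g) : ∃ (r : ℕ) (e : ZFSet.{0} → ZFSet.{0}),
    (∀ y ∈ nz r, e y ∈ g) ∧ (∀ s ∈ g, ∃ y ∈ nz r, e y = s) ∧
    ∀ y ∈ nz r, ∀ y' ∈ nz r, e y = e y' → y = y' := by
  classical
  refine Fnt_ind (P := fun g => ∃ (r : ℕ) (e : ZFSet.{0} → ZFSet.{0}),
    (∀ y ∈ nz r, e y ∈ g) ∧ (∀ s ∈ g, ∃ y ∈ nz r, e y = s) ∧
    ∀ y ∈ nz r, ∀ y' ∈ nz r, e y = e y' → y = y') ?_ ?_ hg
  · refine ⟨0, id, ?_, ?_, ?_⟩
    · intro y hy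
      obtain ⟨m, hm, -⟩ := mem_nz.1 hy
      omega
    · intro s hs
      exact absurd hs (notMem_empty s)
    · intro y hy
      obtain ⟨m, hm, -⟩ := mem_nz.1 hy
      omega
  · rintro s x - hx ⟨r, e, h1, h2, h3⟩
    have hlt : ∀ y ∈ nz r, y ≠ nz r := by
      intro y hy
      obtain ⟨m, hm, rfl⟩ := mem_nz.1 hy
      intro he
      have := nz_inj.1 he
      omega
    have hc : ∀ y ∈ nz (r + 1), y = nz r ∨ y ∈ nz r := by
      intro y hy
      obtain ⟨m, hm, rfl⟩ := mem_nz.1 hy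
      rcases Nat.lt_succ_iff_lt_or_eq.1 hm with h | h
      · exact Or.inr (nz_mem_nz.2 h)
      · exact Or.inl (by rw [h])
    have hup : ∀ y ∈ nz r, y ∈ nz (r + 1) := by
      intro y hy
      obtain ⟨m, hm, rfl⟩ := mem_nz.1 hy
      exact nz_mem_nz.2 (by omega)
    refine ⟨r + 1, fun y => if y = nz r then x else e y, ?_, ?_, ?_⟩
    · intro y hy
      rcases hc y hy with h | h
      · simp only [if_pos h]
        exact mem_insert_iff.2 (Or.inl rfl)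
      · simp only [if_neg (hlt y h)]
        exact mem_insert_iff.2 (Or.inr (h1 y h))
    · intro t ht
      rcases mem_insert_iff.1 ht with rfl | ht
      · exact ⟨nz r, nz_mem_nz.2 (Nat.lt_succ_self r), if_pos rfl⟩
      · obtain ⟨y, hy, rfl⟩ := h2 t ht
        exact ⟨y, hup y hy, if_neg (hlt y hy)⟩
    · intro y hy y' hy' he
      rcases hc y hy with h | h
      · rcases hc y' hy' with h' | h'
        · rw [h, h']
        · simp only [if_pos h, if_neg (hlt y' h')] at he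
          rw [he] at hx
          exact absurd (h1 y' h') hx
      · rcases hc y' hy' with h' | h'
        · simp only [if_neg (hlt y h), if_pos h'] at he
          rw [← he] at hx
          exact absurd (h1 y h) hx
        · simp only [if_neg (hlt y h), if_neg (hlt y' h')] at he
          exact h3 y h y' h' he

theorem sealing {A u v W D u' v' : ZFSet.{0}} (hu : UU A u) (hv : VV v) (hd : dom u = vL v)
    (hW : Nx (ws u) W) (huW : u ∈ W) (hvW : v ∈ W) (hD : D ∈ W) (hDP : ∀ q ∈ D, QQ v q)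
    (hDd : ∀ q, QQ v q → ∃ q₁ ∈ D, QLe u v q₁ q) (hu' : UU A u') (hv' : VV v')
    (hd' : dom u' = vL v') (hs : u ⊆ u') (hle : VLe v' v) {q : ZFSet.{0}} (hq : QQ v' q) :
    ∃ d ∈ D, ∃ q₂, QQ v' q₂ ∧ QLe u' v' q₂ q ∧ QLe u' v d d ∧ QLe u' v q₂ d := by
  have hWd : Wd W := hW.1
  have hT : TM (cls W) := hWd.1
  -- members of `W`
  have hvp : v = pair (vL v) (pair (vS v) (vf v)) := hv.1
  have hv2 : pair (vL v) (pair (vS v) (vf v)) ∈ cls W := by rw [← hvp]; exact hvW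
  have hSL : ∀ {a b : ZFSet.{0}}, pair a b ∈ cls W → a ∈ cls W ∧ b ∈ cls W := by
    intro a b hab
    have h1 : ({a, b} : ZFSet.{0}) ∈ pair a b := by
      rw [pair]; exact mem_pair.2 (Or.inr rfl)
    have h2 := hT.tr _ hab _ h1
    exact ⟨hT.tr _ h2 _ (mem_pair.2 (Or.inl rfl)), hT.tr _ h2 _ (mem_pair.2 (Or.inr rfl))⟩
  have hLW : vL v ∈ cls W := (hSL hv2).1
  have hSW : vS v ∈ cls W := (hSL (hSL hv2).2).1
  have hSe : ∀ c ∈ vS v, c ∈ cls W := fun c hc => hT.tr _ hSW _ hc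
  have hLe : ∀ c ∈ vL v, c ∈ cls W := fun c hc => hT.tr _ hLW _ hc
  have hom : ∀ y ∈ omega, y ∈ cls W := fun y hy => hT.tr _ hT.omega _ hy
  -- the promises beyond the length of `v`
  set g' : ZFSet.{0} := ZFSet.sep (fun s => fst s ∈ vS v ∧ snd s ∉ vL v) (snd q) with hg'
  have hgq : snd q ⊆ ZFSet.prod (vS v') (vL v') ∧ Fnt (snd q) := mem_Fs.1 hq.2.2
  have hg'm : ∀ s, s ∈ g' ↔ s ∈ snd q ∧ fst s ∈ vS v ∧ snd s ∉ vL v := by
    intro s
    rw [hg', mem_sep]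
  have hg'f : Fnt g' := Fnt_sub hgq.2 fun s h => ((hg'm s).1 h).1
  obtain ⟨r, e, he1, he2, he3⟩ := PSe_enum hg'f
  have hgp : ∀ s ∈ snd q, s = pair (fst s) (snd s) ∧ fst s ∈ vS v' ∧ snd s ∈ vL v' :=
    (QQ_elt hq).2
  set σ : ZFSet.{0} → ZFSet.{0} := fun y => pair (snd (e y)) (app (vf v') (e y)) with hσdef
  have hσ1 : ∀ y, fst (σ y) = snd (e y) := fun y => by rw [hσdef]; exact fst_pair _ _
  have hσ2 : ∀ y, snd (σ y) = app (vf v') (e y) := fun y => by rw [hσdef]; exact snd_pair _ _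
  have hrn : ∀ y ∈ nz r, y ∈ omega := by
    intro y hy
    obtain ⟨m, -, rfl⟩ := mem_nz.1 hy
    exact nz_mem_omega m
  have hnzW : nz r ∈ cls W := hom _ (nz_mem_omega r)
  -- the relation between coordinates and indices
  set Rl : ZFSet.{0} := img (fun y => pair (fst (e y)) y) (nz r) with hRl
  have hRlm : ∀ c y, pair c y ∈ Rl ↔ y ∈ nz r ∧ c = fst (e y) := by
    intro c y
    rw [hRl, mem_img]
    constructor
    · rintro ⟨z, hz, h⟩
      obtain ⟨h1, h2⟩ := pair_inj.1 h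
      subst h2
      exact ⟨hz, h1.symm⟩
    · rintro ⟨h1, h2⟩
      exact ⟨y, h1, by rw [h2]⟩
  have hRlf : Fnt Rl := Fnt_img (Fnt_nz r)
  have hRls : Rl ⊆ ZFSet.prod (vS v) (nz r) := by
    intro t ht
    rw [hRl] at ht
    obtain ⟨y, hy, rfl⟩ := mem_img.1 ht
    exact pair_mem_prod.2 ⟨((hg'm _).1 (he1 y hy)).2.1, hy⟩
  have hRlW : Rl ∈ W := by
    refine fin_mem hT (fun t ht => ?_) hRlf
    rw [hRl] at ht
    obtain ⟨y, hy, rfl⟩ := mem_img.1 ht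
    exact hT.pair (hSe _ ((hg'm _).1 (he1 y hy)).2.1) (hom _ (hrn y hy))
  -- the restriction of `q`
  set q₀ : ZFSet.{0} := rqS q (vS v) (vL v) with hq₀
  have hq₀Q : QQ v q₀ := (QQ_rqS (u := u) hq hle).1
  have hq₀f : ∀ t, t ∈ fst q₀ ↔ t ∈ fst q ∧ fst (fst t) ∈ vS v := by
    intro t
    rw [hq₀, rqS, fst_pair, mem_sep]
  have hq₀s : ∀ s, s ∈ snd q₀ ↔ s ∈ snd q ∧ fst s ∈ vS v ∧ snd s ∈ vL v := by
    intro s
    rw [hq₀, rqS, snd_pair, mem_sep]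
  have hq₀W : q₀ ∈ W := by
    have h1 : pair (fst q₀) (snd q₀) ∈ cls W := by
      refine hT.pair (Cn_N hT hSe hq₀Q.2.1) ?_
      have h2 := mem_Fs.1 hq₀Q.2.2
      refine fin_mem hT (fun s hs => ?_) h2.2
      obtain ⟨h3, h4, h5⟩ := (QQ_elt hq₀Q).2 s hs
      rw [h3]
      exact hT.pair (hSe _ h4) (hLe _ h5)
    rw [← hq₀Q.1] at h1
    exact h1
  -- genericity
  have hsub := UU_sub hu hu' hs
  have hn : dom u ∈ dom u' ∨ dom u = dom u' := PSe_le hu.1 hu'.1 hsub.1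
  have hWu : Nx (fgr (fun β => uW u' β) (dom u)) W := by
    have h1 : fgr (fun β => uW u' β) (dom u) = ws u := by
      rw [ws]
      refine fgr_congr fun β hβ => ?_
      rw [uW, uW, hsub.2.1 β hβ]
    rw [h1]
    exact hW
  have hgen := gen_prod hu' hn hWu hnzW (Fnt_nz r) (σ := σ) (by
    intro y hy
    have h1 := (hg'm _).1 (he1 y hy)
    have h2 := hgp _ h1.1
    refine ⟨?_, ?_, ?_, ?_⟩
    · rw [hσ1, hσ2]
    · rw [hσ1, hd']
      exact h2.2.2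
    · rw [hσ1, hd]
      exact h1.2.2
    · rw [hσ2]
      exact hv'.2.2.2.2 _ (hgq.1 h1.1)) (by
    intro y hy y' hy' h
    have h1 := (hg'm _).1 (he1 y hy)
    have h1' := (hg'm _).1 (he1 y' hy')
    have h2 := hgp _ h1.1
    have h2' := hgp _ h1'.1
    obtain ⟨h3, h4⟩ := pair_inj.1 h
    refine he3 y hy y' hy' ?_
    by_contra hne
    have hc : fst (e y) ≠ fst (e y') := by
      intro hc
      apply hne
      rw [h2.1, h2'.1, hc, h3]
    have h5 := hle.2.2.2.2 _ h1.2.1 _ h1'.2.1 hc (snd (e y)) h2.2.2 h1.2.2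
    apply h5
    rw [← h2.1]
    have h6 : pair (fst (e y')) (snd (e y)) = e y' := by rw [h3]; exact h2'.1.symm
    rw [h6]
    exact h4)
  obtain ⟨s, hsE, hsF⟩ := hgen (Esl u v D q₀ Rl (nz r))
    (Esl_mem hWd huW hvW hD hq₀W hRlW hnzW)
    (Esl_dense hu hv (by rw [hd]) hDd hDP hq₀Q hRlf hRls)
  rw [Esl, mem_sep] at hsE
  obtain ⟨hsC, q₁, hq₁P, hq₁0, ⟨d, hdD, hq₁d⟩, hq₁s⟩ := hsE
  have hq₁ : QQ v q₁ := mem_QP.1 hq₁P
  have hq₁' : QQ v' q₁ := QQ_mono hle hq₁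
  have hLu : vL v ⊆ dom u := by rw [hd]
  have hLu' : vL v' ⊆ dom u' := by rw [hd']
  have h0f : ∀ t ∈ fst q₀, t ∈ fst q := fun t ht => ((hq₀f t).1 ht).1
  have hrlE : ∀ y, rl u' v' (e y) = app (uF u' (fst (σ y))) (snd (σ y)) := by
    intro y
    rw [hσ1, hσ2, rl]
  obtain ⟨hj1, hj2, hj3⟩ := QLe_join (u := u') hq hq₁' (by
    intro t ht t' ht' hE
    have h1 := ((QQ_elt hq₁).1 t' ht').2.1
    rw [← hE] at h1
    have h2 : t ∈ fst q₁ := hq₁0.1 ((hq₀f t).2 ⟨ht, h1⟩)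
    exact (mem_Cn.1 hq₁.2.1).2.2.2 t h2 t' ht' hE) (by
    intro t ht htn s' hs' hE
    have h1 := (QQ_elt hq₁).1 t ht
    have h2 : fst s' ∈ vS v := by rw [hE]; exact h1.2.1
    have ht0 : t ∉ fst q₀ := fun h => htn (h0f t h)
    by_cases hγ : snd s' ∈ vL v
    · have h3 : s' ∈ snd q₀ := (hq₀s s').2 ⟨hs', h2, hγ⟩
      have h4 := hq₁0.2.2 t ht ht0 s' h3 hE
      have h5 : s' ∈ ZFSet.prod (vS v) (vL v) := (mem_Fs.1 hq₀Q.2.2).1 h3
      rw [rl_mono hle h5, rl_u hu hu' hs hLu h5]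
      exact h4
    · obtain ⟨y, hy, rfl⟩ := he2 s' ((hg'm s').2 ⟨hs', h2, hγ⟩)
      obtain ⟨j, hj, hjs, hjn⟩ := hq₁s t ht ht0 y hy ((hRlm _ _).2 ⟨hy, hE.symm⟩)
      have h3 := hsF _ hjs
      simp only [fst_pair, snd_pair] at h3
      intro h4
      have h5 : IsFunc omega omega (rl u' v' (e y)) := rl_real hu' hv' hLu' (hgq.1 hs')
      obtain ⟨w, -, hw⟩ := h5.2 _ h1.2.2.1
      have h6 : pair (snd (fst t)) j ∈ rl u' v' (e y) := by
        rw [hrlE]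
        exact h3
      exact hjn ((hw _ h6).trans (hw _ h4).symm)) (by
    intro t ht htn s' hs' hE
    exfalso
    have h1 := ((QQ_elt hq₁).2 s' hs').2.1
    rw [hE] at h1
    exact htn (hq₁0.1 ((hq₀f t).2 ⟨ht, h1⟩)))
  refine ⟨d, hdD, _, hj1, hj2, QLe_refl _ _ _, ?_⟩
  exact QLe_trans hle (hDP d hdD) hj3 ((QLe_u hu hu' hs hLu (hDP d hdD)).2 hq₁d)

end H83.PN
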