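import Pool.Agent.H83.PN.PSy
import Pool.Agent.H83.PN.PSe

set_option autoImplicit false

/-!
# Module PGv: the generic set of a good condition

`Gq v G = {q : (v, q) ∈ G}`. `Gq_mono`: if `(v', eQ) ∈ G`, `VLe v' v` and `QQ v q`, then `q ∈ Gq v G ↔ q ∈ Gq v' G`: (←) `(v', q) ≤ (v, q)`.
(→) let `(w, p) ∈ G` be below `(v, q)` and `(v', eQ)`; then `(w, p) ≤ (v', q)`: the promises of `q` have the same real numbers
(`rl_mono`). `Gq_rqS`: if `(w, p) ∈ G` and `VLe w v` then `rqS p (vS v) (vL v) ∈ Gq v G` (`QQ_rqS`).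
`Gen_v`: filter: for `q, q' ∈ Gq v G` take `(w, p) ∈ G` below both and `rqS p ..` (`rqS_le`). Genericity: let `D ∈ W` be dense in `P(u,v)`; the set
of all `(w, p) ∈ PU U H` with `VLe w v` and `∃ d ∈ D, QLe U v p d` is in `M` and dense below `(v, eQ)`: `sealing` for `u' = res U (vL w)`
(`UOK.seg`, `QLe_res`). `gen_meet` gives such `(w, p) ∈ G`, and `(w, p) ≤ (v, d)`, so `d ∈ Gq v G`.
-/

namespace H83.PN

open ZFSet H83.AC

variable {M : Set ZFSet.{0}} {K H : ZFSet.{0}}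

/-- the second parts of the elements of `G` with first part `v` -/
def Gq (v : ZFSet.{0}) (G : Set ZFSet.{0}) : Set ZFSet.{0} := {q | pair v q ∈ G}

/-- `v` is a good first part, `W` its model -/
structure GV (H U v W : ZFSet.{0}) : Prop where
  vv : VV v
  vH : v ∈ H
  vL : H83.PN.vL v ∈ dom U
  WH : W ∈ H
  nx : Nx (ws (res U (H83.PN.vL v))) W
  uW : res U (H83.PN.vL v) ∈ W
  vW : v ∈ W

private theorem PGv_p {H v q : ZFSet.{0}} (h : ∀ x ∈ H, ∀ y ∈ x, y ∈ H) (hp : pair v q ∈ H) :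
    v ∈ H ∧ q ∈ H := by
  have h1 : ({v, q} : ZFSet) ∈ H := h _ hp _ (by rw [pair]; simp)
  exact ⟨h _ h1 v (by simp), h _ h1 q (by simp)⟩

private theorem PGv_rk (a b : ZFSet.{0}) : rank a < rank (pair a b) ∧ rank b < rank (pair a b) := by
  have h1 : ({a, b} : ZFSet) ∈ pair a b := by rw [pair]; simp
  exact ⟨(rank_lt_of_mem (show a ∈ ({a, b} : ZFSet) by simp)).trans (rank_lt_of_mem h1),
    (rank_lt_of_mem (show b ∈ ({a, b} : ZFSet) by simp)).trans (rank_lt_of_mem h1)⟩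

private theorem PGv_ord {a b c : ZFSet.{0}} (ha : rk a = a) (hb : b ∈ rk c) (h : a ⊆ b) :
    a ∈ rk c := by
  obtain ⟨β, hβ, rfl⟩ := mem_rk.1 hb
  refine mem_rk.2 ⟨rank a, ?_, ha.symm⟩
  have h1 := rank_mono h
  rw [Ordinal.rank_toZFSet] at h1
  exact h1.trans_lt hβ

private theorem PGv_el (hG : Gr M K H) {U v q : ZFSet.{0}} (h : pair v q ∈ PU U H) :
    v ∈ H ∧ VV v ∧ vL v ∈ dom U ∧ QQ v q := by
  obtain ⟨h1, -, h2, h3, h4⟩ := mem_PU.1 h
  rw [fst_pair] at h2 h3 h4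
  rw [snd_pair] at h4
  exact ⟨(PGv_p (fun x hx y hy => H_tr hG hx hy) h1).1, h2, h3, h4⟩

private theorem PGv_P {U : ZFSet.{0}} {G : Set ZFSet.{0}} (hg : Gen M (SU U H) G)
    {p : ZFSet.{0}} (hp : p ∈ G) : p ∈ PU U H := by
  have h := hg.sub p hp
  rwa [sP_SU] at h

private theorem PGv_up {U : ZFSet.{0}} {G : Set ZFSet.{0}} (hg : Gen M (SU U H) G)
    {p v q : ZFSet.{0}} (hp : p ∈ G) (hq : pair v q ∈ PU U H) (h : VLe (fst p) v)
    (h' : QLe U v (snd p) q) : pair v q ∈ G := by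
  refine hg.up p hp _ ?_ (Le_SU.2 ⟨PGv_P hg hp, hq, ?_, ?_⟩)
  · rw [sP_SU]; exact hq
  · rw [fst_pair]; exact h
  · rw [fst_pair, snd_pair]; exact h'

private theorem PGv_mk (hG : Gr M K H) {n : ℕ} {U : ZFSet.{0}} (hU : UOK M H n U)
    {v v' q : ZFSet.{0}} (hv : VV v) (hvH : v ∈ H) (hL : vL v' ∈ dom U) (h : VLe v' v)
    (hq : QQ v q) : pair v q ∈ PU U H := by
  refine mk_PU hG hv hvH ?_ hq
  rw [hU.dom] at hL ⊢
  exact PGv_ord hv.2.1 hL h.1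

theorem Gq_mono (hG : Gr M K H) {n : ℕ} {U : ZFSet.{0}} (hU : UOK M H n U) {G : Set ZFSet.{0}}
    (hg : Gen M (SU U H) G) {v v' q : ZFSet.{0}} (hv : VV v) (hvH : v ∈ H) (hv' : pair v' eQ ∈ G)
    (h : VLe v' v) (hq : QQ v q) : q ∈ Gq v G ↔ q ∈ Gq v' G := by
  obtain ⟨h1, h2, h3, -⟩ := PGv_el hG (PGv_P hg hv')
  constructor
  · intro hqG
    obtain ⟨r, hr, l1, l2⟩ := hg.dir _ hqG _ hv'
    obtain ⟨-, -, a1, a2⟩ := Le_SU.1 l1
    obtain ⟨-, -, b1, -⟩ := Le_SU.1 l2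
    rw [fst_pair] at a1 a2 b1
    rw [snd_pair] at a2
    exact PGv_up hg hr (mk_PU hG h2 h1 h3 (QQ_mono h hq)) b1 ((QLe_v h hq).2 a2)
  · intro hqG
    refine PGv_up hg hqG (PGv_mk hG hU hv hvH h3 h hq) ?_ ?_
    · rw [fst_pair]; exact h
    · rw [snd_pair]; exact QLe_refl U v q

theorem Gq_eQ (hG : Gr M K H) {n : ℕ} {U : ZFSet.{0}} (hU : UOK M H n U) {G : Set ZFSet.{0}}
    (hg : Gen M (SU U H) G) {p : ZFSet.{0}} (hp : p ∈ G) : pair (fst p) eQ ∈ G := by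
  have hpP := PGv_P hg hp
  have e := (mem_PU.1 hpP).2.1
  rw [e] at hpP
  obtain ⟨h1, h2, h3, h4⟩ := PGv_el hG hpP
  exact PGv_up hg hp (mk_PU hG h2 h1 h3 (QQ_empty _)) (VLe_refl _) (QLe_empty _ _ _ h4)

theorem Gq_rqS (hG : Gr M K H) {n : ℕ} {U : ZFSet.{0}} (hU : UOK M H n U) {G : Set ZFSet.{0}}
    (hg : Gen M (SU U H) G) {v p : ZFSet.{0}} (hp : p ∈ G) (hv : VV v) (hvH : v ∈ H)
    (h : VLe (fst p) v) : rqS (snd p) (vS v) (vL v) ∈ Gq v G := by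
  have hpP := PGv_P hg hp
  have e := (mem_PU.1 hpP).2.1
  rw [e] at hpP
  obtain ⟨h1, h2, h3, h4⟩ := PGv_el hG hpP
  obtain ⟨h5, h6⟩ := QQ_rqS (u := U) h4 h
  exact PGv_up hg hp (PGv_mk hG hU hv hvH h3 h h5) h h6

private theorem PGv_D (hG : Gr M K H) {U v D : ZFSet.{0}} (hU : U ∈ M) (hv : v ∈ M) (hD : D ∈ M) :
    ZFSet.sep (fun p => VLe (fst p) v ∧ ∃ d ∈ D, QLe U v (snd p) d) (PU U H) ∈ M := by
  have h : UF (fun _ w => ZFSet.sep (fun p => VLe (fst p) (w 2) ∧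
      ∃ d ∈ w 3, QLe (w 0) (w 2) (snd p) d) (PU (w 0) (w 1))) := by
    infer_instance
  exact h.mem M hG.tm (cons U (cons H (cons v (fun _ => D)))) (fun n => by
    rcases n with _ | _ | _ | n
    · exact hU
    · exact H_M hG
    · exact hv
    · exact hD)

private theorem PGv_res {U a b : ZFSet.{0}} (h : a ⊆ b) : res U a ⊆ res U b := by
  intro z hz
  obtain ⟨h1, h2⟩ := mem_sep.1 hz
  exact mem_sep.2 ⟨h1, h h2⟩

theorem Gen_v (hG : Gr M K H) {n : ℕ} {U : ZFSet.{0}} (hU : UOK M H n U) {G : Set ZFSet.{0}}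
    (hg : Gen M (SU U H) G) {v W : ZFSet.{0}} (hv : GV H U v W) (hvG : pair v eQ ∈ G) :
    Gen (cls W) (Sq (res U (vL v)) v) (Gq v G) := by
  have hsub : ∀ q ∈ Gq v G, QQ v q := fun q hq => (PGv_el hG (PGv_P hg hq)).2.2.2
  constructor
  · intro q hq
    rw [sP_Sq]
    exact mem_QP.2 (hsub q hq)
  · intro q hq q' hq' hle
    obtain ⟨-, h1, h2⟩ := Le_Sq.1 hle
    have h3 := (QLe_res (fun z hz => hz) h1).1 h2
    refine PGv_up hg hq (mk_PU hG hv.vv hv.vH hv.vL h1) ?_ ?_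
    · rw [fst_pair]; exact VLe_refl v
    · rw [snd_pair]; exact h3
  · intro q hq q' hq'
    obtain ⟨r, hr, l1, l2⟩ := hg.dir _ hq _ hq'
    obtain ⟨hrP, -, a1, a2⟩ := Le_SU.1 l1
    obtain ⟨-, -, -, b2⟩ := Le_SU.1 l2
    rw [fst_pair] at a1 a2 b2
    rw [snd_pair] at a2 b2
    have hrQ : QQ (fst r) (snd r) := (mem_PU.1 hrP).2.2.2.2
    have hR := Gq_rqS hG hU hg hr hv.vv hv.vH a1
    refine ⟨_, hR, Le_Sq.2 ⟨hsub _ hR, hsub _ hq, ?_⟩, Le_Sq.2 ⟨hsub _ hR, hsub _ hq', ?_⟩⟩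
    · exact (QLe_res (fun z hz => hz) (hsub q hq)).2 (rqS_le (hsub q hq) hrQ a1 a2)
    · exact (QLe_res (fun z hz => hz) (hsub q' hq')).2 (rqS_le (hsub q' hq') hrQ a1 b2)
  · intro D hD hDP hDd
    have hWd : Wd W := hv.nx.1
    have hDP' : ∀ q ∈ D, QQ v q := fun q hq => by
      have := hDP hq
      rw [sP_Sq] at this
      exact mem_QP.1 this
    have hDd' : ∀ q, QQ v q → ∃ q₁ ∈ D, QLe (res U (vL v)) v q₁ q := fun q hq => by
      obtain ⟨q₁, h1, h2⟩ := hDd q (by rw [sP_Sq]; exact mem_QP.2 hq)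
      exact ⟨q₁, h1, (Le_Sq.1 h2).2.2⟩
    have hvM : v ∈ M := H_sub_M hG hv.vH
    have hDM : D ∈ M := H_sub_M hG (H_tr hG hv.WH hD)
    obtain ⟨hu1, hu2, hu3⟩ := hU.seg _ hv.vL
    have hsP : sP (SU U H) = PU U H := sP_SU U H
    obtain ⟨p, hpD, -, hpG⟩ := gen_meet hG.tm (Sys_SU hG hU) (SU_M hG hU).1 hg
      (PGv_D hG hU.mem hvM hDM) (fun z hz => by rw [hsP]; exact (mem_sep.1 hz).1) hvG
      (fun q hq hqv => by
        rw [hsP] at hq
        obtain ⟨-, -, a1, -⟩ := Le_SU.1 hqv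
        rw [fst_pair] at a1
        have e := (mem_PU.1 hq).2.1
        obtain ⟨w, q', rfl⟩ : ∃ w q', q = pair w q' := ⟨_, _, e⟩
        rw [fst_pair] at a1
        obtain ⟨b1, b2, b3, b4⟩ := PGv_el hG hq
        obtain ⟨c1, c2, c3⟩ := hU.seg _ b3
        obtain ⟨d, hd, q₂, s1, s2, -, s4⟩ := sealing hu1 hv.vv hu3 hv.nx hv.uW hv.vW hD hDP' hDd'
          c1 b2 c3 (PGv_res a1.1) a1 b4
        have hP2 : pair w q₂ ∈ PU U H := mk_PU hG b2 b1 b3 s1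
        refine ⟨pair w q₂, mem_sep.2 ⟨hP2, ?_, d, hd, ?_⟩, Le_SU.2 ⟨hP2, hq, ?_, ?_⟩⟩
        · rw [fst_pair]; exact a1
        · rw [snd_pair]
          exact (QLe_res a1.1 (hDP' d hd)).1 s4
        · rw [fst_pair, fst_pair]; exact VLe_refl w
        · rw [fst_pair, snd_pair, snd_pair]
          exact (QLe_res (fun z hz => hz) b4).1 s2)
    obtain ⟨hpP, h1, d, hd, h2⟩ := mem_sep.1 hpD
    exact ⟨d, hd, PGv_up hg hpG (mk_PU hG hv.vv hv.vH hv.vL (hDP' d hd)) h1 h2⟩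

/-- evaluation does not depend on the first part -/
theorem ev_Gq (hG : Gr M K H) {n : ℕ} {U : ZFSet.{0}} (hU : UOK M H n U) {G : Set ZFSet.{0}}
    (hg : Gen M (SU U H) G) {v v' e : ZFSet.{0}} (hv : VV v) (hvH : v ∈ H) (hv' : pair v' eQ ∈ G)
    (h : VLe v' v) (he : ∀ t ∈ e, QQ v (fst t) ∧ t = pair (fst t) (snd t)) :
    ev (Gq v' G) e = ev (Gq v G) e := by
  ext x
  rw [mem_ev, mem_ev]
  constructor
  · rintro ⟨p, h1, h2⟩
    have h3 := (he _ h2).1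
    rw [fst_pair] at h3
    exact ⟨p, (Gq_mono hG hU hg hv hvH hv' h h3).2 h1, h2⟩
  · rintro ⟨p, h1, h2⟩
    have h3 := (he _ h2).1
    rw [fst_pair] at h3
    exact ⟨p, (Gq_mono hG hU hg hv hvH hv' h h3).1 h1, h2⟩

/-- an injection of a set in `H` into `omega` -/
private theorem PGv_inj (hG : Gr M K H) {S : ZFSet.{0}} (hS : S ∈ H) :
    ∃ g ∈ H, (∀ c ∈ S, app g c ∈ omega) ∧ ∀ c ∈ S, ∀ c' ∈ S, app g c = app g c' → c = c' := by
  obtain ⟨e, heM, he⟩ := H_ct hG hS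
  obtain ⟨w, hwM, hw⟩ := exists_wo hG.tm hG.vl hG.tm.omega
  have hU : UF (fun _ v => fgr (fun c => lst (v 0) (ZFSet.sep (fun n => app (v 1) n = c) omega))
      (v 2)) := by
    infer_instance
  have hgM : fgr (fun c => lst w (ZFSet.sep (fun n => app e n = c) omega)) S ∈ M :=
    hU.mem M hG.tm (cons w (cons e (fun _ => S))) (fun n => by
      rcases n with _ | _ | n
      · exact hwM
      · exact heM
      · exact H_sub_M hG hS)
  have hl : ∀ c ∈ S, lst w (ZFSet.sep (fun n => app e n = c) omega) ∈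
      ZFSet.sep (fun n => app e n = c) omega := by
    intro c hc
    refine lst_mem hw (fun z hz => (mem_sep.1 hz).1) ?_
    obtain ⟨n, hn, h1⟩ := he c hc
    intro h2
    have h3 : n ∈ ZFSet.sep (fun n => app e n = c) omega := mem_sep.2 ⟨hn, h1⟩
    rw [h2] at h3
    exact notMem_empty _ h3
  have hpH : ZFSet.prod S omega ∈ H :=
    H_uf2 hG (F := fun x y => ZFSet.prod x y) (by infer_instance) hS (HF_sub_H hG).2.2
  refine ⟨_, H_sub hG hpH hgM ?_, ?_, ?_⟩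
  · intro z hz
    obtain ⟨c, hc, rfl⟩ := mem_fgr.1 hz
    exact ZFSet.mem_prod.2 ⟨c, hc, _, (mem_sep.1 (hl c hc)).1, rfl⟩
  · intro c hc
    rw [app_fgr hc]
    exact (mem_sep.1 (hl c hc)).1
  · intro c hc c' hc' h
    rw [app_fgr hc, app_fgr hc'] at h
    have h1 := (mem_sep.1 (hl c hc)).2
    have h2 := (mem_sep.1 (hl c' hc')).2
    rw [← h1, h, h2]

open Classical in
/-- the values of the extension -/
private noncomputable def PGv_f (w g s : ZFSet.{0}) : ZFSet.{0} :=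
  if snd s ∈ vL w then app (vf w) s else pair (fst (fst s)) (app g (fst s))

/-- the extension of `w` to the length `γ` -/
private noncomputable def PGv_v (w g γ : ZFSet.{0}) : ZFSet.{0} :=
  pair γ (pair (vS w) (fgr (fun s => PGv_f w g s) (ZFSet.prod (vS w) γ)))

private theorem PGv_uf : UF (fun _ v => PGv_v (v 0) (v 1) (v 2)) := by
  unfold PGv_v PGv_f
  infer_instance

private theorem PGv_ext {w g γ : ZFSet.{0}} (hw : VV w)
    (hg : ∀ c ∈ vS w, app g c ∈ omega)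
    (hi : ∀ c ∈ vS w, ∀ c' ∈ vS w, app g c = app g c' → c = c') (hγ : rk γ = γ)
    (hs : vL w ⊆ γ) : VV (PGv_v w g γ) ∧ vL (PGv_v w g γ) = γ ∧ VLe (PGv_v w g γ) w := by
  have eL : vL (PGv_v w g γ) = γ := by rw [vL, PGv_v, fst_pair]
  have eS : vS (PGv_v w g γ) = vS w := by rw [vS, PGv_v, snd_pair, fst_pair]
  have ef : vf (PGv_v w g γ) = fgr (fun s => PGv_f w g s) (ZFSet.prod (vS w) γ) := by
    rw [vf, PGv_v, snd_pair, snd_pair]
  have ea : ∀ s ∈ ZFSet.prod (vS w) γ, app (vf (PGv_v w g γ)) s = PGv_f w g s := by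
    intro s hs
    rw [ef, app_fgr hs]
  refine ⟨⟨?_, ?_, ?_, ?_, ?_⟩, eL, ?_, ?_, ?_, ?_, ?_⟩
  · rw [eL, eS, ef]
    rfl
  · rw [eL]; exact hγ
  · rw [eS]; exact hw.2.2.1
  · rw [eL, eS]
    conv_lhs => rw [ef]
    exact fgr_congr fun s hs => (ea s hs).symm
  · rw [eL, eS]
    intro s hs
    rw [ea s hs, PGv_f]
    obtain ⟨c, hc, β, hβ, rfl⟩ := ZFSet.mem_prod.1 hs
    rw [snd_pair, fst_pair]
    split_ifs with h1
    · exact hw.2.2.2.2 _ (ZFSet.mem_prod.2 ⟨c, hc, β, h1, rfl⟩)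
    · rw [Idx]
      exact ZFSet.mem_prod.2 ⟨_, (hw.2.2.1 c hc).2, _, hg c hc, rfl⟩
  · rw [eL]; exact hs
  · rw [eS]
  · intro s hs'
    obtain ⟨c, hc, β, hβ, rfl⟩ := ZFSet.mem_prod.1 hs'
    rw [ea _ (ZFSet.mem_prod.2 ⟨c, hc, β, hs hβ, rfl⟩), PGv_f, snd_pair, if_pos hβ]
  · intro c hc β hβ hβ'
    rw [eL] at hβ
    rw [ea _ (ZFSet.mem_prod.2 ⟨c, hc, β, hβ, rfl⟩), PGv_f, snd_pair, if_neg hβ', fst_pair,
      fst_pair]
  · intro c hc c' hc' hne β hβ hβ' h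
    rw [eL] at hβ
    rw [ea _ (ZFSet.mem_prod.2 ⟨c, hc, β, hβ, rfl⟩), ea _ (ZFSet.mem_prod.2 ⟨c', hc', β, hβ, rfl⟩),
      PGv_f, PGv_f, snd_pair, snd_pair, if_neg hβ', if_neg hβ', fst_pair, fst_pair] at h
    exact hne (hi c hc c' hc' (pair_injective h).2)

private theorem PGv_E (hG : Gr M K H) {U x : ZFSet.{0}} (hU : U ∈ M) (hx : x ∈ M) :
    ZFSet.sep (fun p => ∃ W ∈ H, (Nx (ws (res U (vL (fst p)))) W ∧ res U (vL (fst p)) ∈ W ∧
      fst p ∈ W) ∧ x ∈ W) (PU U H) ∈ M := by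
  have h : UF (fun _ w => ZFSet.sep (fun p => ∃ W ∈ w 1, (Nx (ws (res (w 0) (vL (fst p)))) W ∧
      res (w 0) (vL (fst p)) ∈ W ∧ fst p ∈ W) ∧ w 2 ∈ W) (PU (w 0) (w 1))) := by
    infer_instance
  exact h.mem M hG.tm (cons U (cons H (fun _ => x))) (fun n => by
    rcases n with _ | _ | n
    · exact hU
    · exact H_M hG
    · exact hx)

/-- every element of `G` has good extensions in `G` -/
theorem good_dense (hG : Gr M K H) {n : ℕ} {U : ZFSet.{0}} (hU : UOK M H n U)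
    {G : Set ZFSet.{0}} (hg : Gen M (SU U H) G) {p x : ZFSet.{0}} (hp : p ∈ G) (hx : x ∈ H) :
    ∃ v W, GV H U v W ∧ VLe v (fst p) ∧ pair v (snd p) ∈ G ∧ x ∈ W := by
  have hsP : sP (SU U H) = PU U H := sP_SU U H
  have htr : ∀ x ∈ H, ∀ y ∈ x, y ∈ H := fun x hx y hy => H_tr hG hx hy
  obtain ⟨r, hrD, hrp, hrG⟩ := gen_meet hG.tm (Sys_SU hG hU) (SU_M hG hU).1 hg
    (PGv_E hG hU.mem (H_sub_M hG hx)) (fun z hz => by rw [hsP]; exact (mem_sep.1 hz).1) hp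
    (fun q hq _ => by
      rw [hsP] at hq
      have e := (mem_PU.1 hq).2.1
      obtain ⟨w, q', rfl⟩ : ∃ w q', q = pair w q' := ⟨_, _, e⟩
      obtain ⟨b1, b2, b3, b4⟩ := PGv_el hG hq
      have hS : vS w ∈ H := H_uf1 hG (F := fun x => vS x) (by infer_instance) b1
      obtain ⟨g, hgH, hg1, hg2⟩ := PGv_inj hG hS
      have hyH : pair x (pair w g) ∈ H := H_pair hG hx (H_pair hG b1 hgH)
      obtain ⟨γ, hγ, W, hWH, nx, huW, hyW, hry⟩ := hU.good _ hyH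
      have hWd : Wd W := nx.1
      have hWtr : ∀ x ∈ W, ∀ y ∈ x, y ∈ W := fun x hx y hy => Wd_tr hWd hx hy
      obtain ⟨hxW, hy2⟩ := PGv_p hWtr hyW
      obtain ⟨hwW, hgW⟩ := PGv_p hWtr hy2
      obtain ⟨-, -, c3⟩ := hU.seg _ hγ
      have hγW : γ ∈ W := by
        have h := Wd_uf (F := fun _ v => dom (v 0)) (UF.dom (UF.var 0)) hWd
          (v := fun _ => res U γ) fun _ => huW
        rw [c3] at h
        exact h
      have hγr : rk γ = γ := by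
        have h := hγ
        rw [hU.dom] at h
        exact rk_of_mem_rk h
      have hs : vL w ⊆ γ := by
        have h1 := (PGv_rk (vL w) (pair (vS w) (vf w))).1
        rw [← b2.1] at h1
        have h2 := (h1.trans (PGv_rk w g).1).trans (PGv_rk x (pair w g)).2
        have h3 := rank_lt_of_mem hry
        rw [rank_rk] at h3
        have h4 := rk_mono (h2.trans h3).le
        rwa [b2.2.1, hγr] at h4
      have hext := PGv_ext b2 hg1 hg2 hγr hs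
      have hvW : PGv_v w g γ ∈ W := Wd_uf (F := fun _ v => PGv_v (v 0) (v 1) (v 2)) PGv_uf hWd
        (v := cons w (cons g (fun _ => γ))) (fun n => by
          rcases n with _ | _ | n
          · exact hwW
          · exact hgW
          · exact hγW)
      have hvL : vL (PGv_v w g γ) ∈ dom U := by rw [hext.2.1]; exact hγ
      have hP : pair (PGv_v w g γ) q' ∈ PU U H :=
        mk_PU hG hext.1 (H_tr hG hWH hvW) hvL (QQ_mono hext.2.2 b4)
      refine ⟨pair (PGv_v w g γ) q', mem_sep.2 ⟨hP, W, hWH, ⟨?_, ?_, ?_⟩, hxW⟩,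
        Le_SU.2 ⟨hP, hq, ?_, ?_⟩⟩
      · rw [fst_pair, hext.2.1]; exact nx
      · rw [fst_pair, hext.2.1]; exact huW
      · rw [fst_pair]; exact hvW
      · rw [fst_pair, fst_pair]; exact hext.2.2
      · rw [fst_pair, snd_pair, snd_pair]; exact QLe_refl U w q')
  obtain ⟨hrP, W, hWH, ⟨h1, h2, h3⟩, hxW⟩ := mem_sep.1 hrD
  obtain ⟨-, hpP, a1, a2⟩ := Le_SU.1 hrp
  obtain ⟨hrH, er, d1, d2, d3⟩ := mem_PU.1 hrP
  have hvH : fst r ∈ H := by
    rw [er] at hrH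
    exact (PGv_p htr hrH).1
  have hpQ : QQ (fst p) (snd p) := (mem_PU.1 hpP).2.2.2.2
  refine ⟨fst r, W, ⟨d1, hvH, d2, hWH, h1, h2, h3⟩, a1, ?_, hxW⟩
  exact PGv_up hg hrG (mk_PU hG d1 hvH d2 (QQ_mono a1 hpQ)) (VLe_refl _) ((QLe_v a1 hpQ).2 a2)

end H83.PN
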