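import Pool.Agent.H83.PN.PSu
import Pool.Agent.H83.PN.PGv
import Pool.Agent.H83.PN.PFb

set_option autoImplicit false

/-!
# Module POm: no set becomes countable in the symmetric extension

Let `x ∈ M`, `g ∈ N` with `∀ y ∈ x, ∃ n ∈ omega, app g n = y`; let `g₁ = {pair i y : i ∈ omega, y ∈ x, app g i = y} ∈ N`, `g₁ = val G σ`, `m` a support.
Let `w ∈ M` be a well-order of `x` (`exists_wo`). `D` = all `(p, a)`, `p ∈ PM U H m`, `a ∈ HF`, such that `a ∉ omega`, or for some `y ∈ x`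
(*) `FMem S p (chk (pair a y)) σ` and for all `y' ∈ x` with `pair y' y ∈ w` no `p' ≤ p` has `FMem S p' (chk (pair a y')) σ`, or no `p' ≤ p`, `y ∈ x` has
`FMem S p' (chk (pair a y)) σ`. Open, and dense in `PM`: if some `p' ≤ p`, `y` have `FMem ..` take the least such `y` and `p'`; then `rsP p' m` satisfies (*): if
`p'' ≤ rsP p' m` forces `pair a y' ∈ σ` with `y' < y`, so does `rsP p'' m` (`FMem_rs`), which is compatible with `p'` (`compat_rs`), so some extension of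
`p' ≤ p` forces it, contradiction. `fusion`; as in module PNa there is `(v', q) ∈ G` and `v_ω` with the property of `fusion` and `VLe v' v_ω`. For `i ∈ omega` and `y ∈ x`
with `pair i y ∈ g₁` some `(v_ω, q') ∈ G` has `((v_ω, q'), i) ∈ D`, so (*) holds for some `y₁`, and `pair i y₁ ∈ g₁`, so `y₁ = y`. For given `(i, q')` there is at most
one `y` with (*). So `x` is contained in the image of `prod omega (QP v_ω)` under a function of `M` (`Ctb_img`, `Ctb_prod`, `Ctb_sub`).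
-/

namespace H83.PN

open ZFSet H83.AC

variable {M : Set ZFSet.{0}} {K H : ZFSet.{0}}

private theorem POm_st {N : Set ZFSet.{0}} {x : ZFSet.{0}} (hx : x ∈ N) {v : ℕ → ZFSet.{0}}
    (hv : ∀ i, v i ∈ N) : ∀ i, cons x v i ∈ N := by
  intro i
  cases i with
  | zero => exact hx
  | succ i => exact hv i

private theorem POm_fst (hG : Gr M K H) {x y : ZFSet.{0}} (h : pair x y ∈ H) : x ∈ H := by
  have h1 : ({x} : ZFSet.{0}) ∈ H := H_tr hG h (by rw [pair]; simp)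
  exact H_tr hG h1 (by simp)

/-- `p` forces `(a, y) ∈ σ` -/
private def POm_F (S σ p a y : ZFSet.{0}) : Prop := p ∈ sP S ∧ FMem S p (chk S (pair a y)) σ

/-- `y` is the least element of `x` which is possible for `p` and `a`, and it is forced -/
private def POm_P (S σ x w p a y : ZFSet.{0}) : Prop := POm_F S σ p a y ∧
  ∀ y' ∈ x, pair y' y ∈ w → ∀ p' ∈ sP S, Le S p' p → ¬ POm_F S σ p' a y'

private def POm_D (S σ x w p a : ZFSet.{0}) : Prop := (∃ y ∈ x, POm_P S σ x w p a y) ∨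
  ∀ y ∈ x, ∀ p' ∈ sP S, Le S p' p → ¬ POm_F S σ p' a y

/-- the property of `fusion` -/
private def POm_fu (U H m D V : ZFSet.{0}) : Prop := ∀ a ∈ HF, ∀ p ∈ PM U H m,
  VLe (fst p) V → ∃ q' ∈ QP V, pair (pair V q') a ∈ D ∧ ∃ p₁ ∈ PM U H m,
    VLe (fst p₁) (fst p) ∧ QLe U (fst p) (snd p₁) (snd p) ∧ QLe U V (snd p₁) q'

private instance POm_iF {f g h k l : Set ZFSet.{0} → (ℕ → ZFSet.{0}) → ZFSet.{0}} [hf : UF f]
    [hg : UF g] [hh : UF h] [hk : UF k] [hl : UF l] :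
    UR (fun N v => POm_F (f N v) (g N v) (h N v) (k N v) (l N v)) := by
  unfold POm_F
  exact UR.FMem hf hh (UF.chk hf (UF.pair hk hl)) hg

private instance POm_iP {f g h k l f' g' : Set ZFSet.{0} → (ℕ → ZFSet.{0}) → ZFSet.{0}}
    [hf : UF f] [hg : UF g] [hh : UF h] [hk : UF k] [hl : UF l] [hf' : UF f'] [hg' : UF g'] :
    UR (fun N v => POm_P (f N v) (g N v) (h N v) (k N v) (l N v) (f' N v) (g' N v)) := by
  unfold POm_P
  infer_instance

private instance POm_iD {f g h k l f' : Set ZFSet.{0} → (ℕ → ZFSet.{0}) → ZFSet.{0}}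
    [hf : UF f] [hg : UF g] [hh : UF h] [hk : UF k] [hl : UF l] [hf' : UF f'] :
    UR (fun N v => POm_D (f N v) (g N v) (h N v) (k N v) (l N v) (f' N v)) := by
  unfold POm_D
  infer_instance

private instance POm_ifu {f g h k l : Set ZFSet.{0} → (ℕ → ZFSet.{0}) → ZFSet.{0}} [hf : UF f]
    [hg : UF g] [hh : UF h] [hk : UF k] [hl : UF l] :
    UR (fun N v => POm_fu (f N v) (g N v) (h N v) (k N v) (l N v)) := by
  unfold POm_fu
  infer_instance

private theorem POm_exV (hG : Gr M K H) {n : ℕ} {U : ZFSet.{0}} (hU : UOK M H n U)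
    {G : Set ZFSet.{0}} (hg : Gen M (SU U H) G) {m D : ZFSet.{0}} (hm : m ∈ M) (hD : D ∈ M)
    (ho : Opn U H m D)
    (hd : ∀ p ∈ PM U H m, ∀ a ∈ HF, ∃ p' ∈ PM U H m, pair p' p ∈ OU U H ∧ pair p' a ∈ D) :
    ∃ V ∈ H, VV V ∧ vL V ∈ dom U ∧ (∀ c ∈ vS V, fst c ∈ m) ∧ pair V eQ ∈ G ∧
      POm_fu U H m D V := by
  have hM := hG.tm
  have hDs : ZFSet.sep (fun p => ∃ V ∈ H, VV V ∧ vL V ∈ dom U ∧ (∀ c ∈ vS V, fst c ∈ m) ∧
      VLe (fst p) V ∧ POm_fu U H m D V) (PU U H) ∈ M := by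
    have h1 : UF (fun _ v => ZFSet.sep (fun p => ∃ V ∈ v 1, H83.PN.VV V ∧
        H83.PN.vL V ∈ H83.AC.dom (v 0) ∧ (∀ c ∈ H83.PN.vS V, H83.AC.fst c ∈ v 2) ∧
        H83.PN.VLe (H83.AC.fst p) V ∧ POm_fu (v 0) (v 1) (v 2) (v 3) V)
        (H83.PN.PU (v 0) (v 1))) := by
      infer_instance
    exact h1.mem M hM (cons U (cons H (cons m (fun _ => D))))
      (POm_st hU.mem (POm_st (H_M hG) (POm_st hm fun _ => hD)))
  obtain ⟨p₀, hp₀, hpG⟩ := hg.meet _ hDs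
    (fun z hz => by rw [sP_SU]; exact (mem_sep.1 hz).1) (by
      intro p hp
      rw [sP_SU] at hp
      obtain ⟨hpH, hpe, hpV, hpL, hpQ⟩ := mem_PU.1 hp
      have hfH : fst p ∈ H := by
        rw [hpe] at hpH
        exact POm_fst hG hpH
      have hrH : rsV (fst p) m ∈ H := by
        have h1 := (mem_PU.1 (rsP_PU hG hU hp m hm).1).1
        rw [rsP] at h1
        exact POm_fst hG h1
      obtain ⟨h1, h2, h3, -⟩ := VV_rsV hpV m
      obtain ⟨V, hVH, hVV, hVL, hVc, hVle, hVfu⟩ := fusion hG hU hm hD ho hd h1 hrH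
        (by rw [h2]; exact hpL) (fun c hc => ((h3 c).1 hc).2)
      obtain ⟨v', hv'H, hv', hv'L, -, hle1, hle2⟩ := amV hG hpV hVV hfH hVH hVle
        (fun c hc _ => hVc c hc)
      have hp' : pair v' (snd p) ∈ PU U H :=
        mk_PU hG hv' hv'H (by rw [hv'L]; exact hVL) (QQ_mono hle1 hpQ)
      refine ⟨pair v' (snd p), mem_sep.2 ⟨hp', V, hVH, hVV, hVL, hVc, ?_, ?_⟩,
        Le_SU.2 ⟨hp', hp, ?_, ?_⟩⟩
      · rw [fst_pair]; exact hle2
      · intro a ha r hr hle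
        have hre := (mem_PU.1 (mem_sep.1 hr).1).2.1
        obtain ⟨q', k1, k2, w₁, q₂, k3, k4, k5, k6⟩ := hVfu a ha (fst r) (snd r)
          (by rw [← hre]; exact hr) hle
        refine ⟨q', mem_QP.2 k1, k2, pair w₁ q₂, k3, ?_, ?_, ?_⟩
        · rw [fst_pair]; exact k4
        · rw [snd_pair]; exact k5
        · rw [snd_pair]; exact k6
      · rw [fst_pair]; exact hle1
      · rw [snd_pair]; exact QLe_refl _ _ _)
  obtain ⟨hp₀P, V, hVH, hVV, hVL, hVc, hVle, hfu⟩ := mem_sep.1 hp₀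
  have hVP : pair V eQ ∈ PU U H := mk_PU hG hVV hVH hVL (QQ_empty V)
  refine ⟨V, hVH, hVV, hVL, hVc, hg.up p₀ hpG _ (by rw [sP_SU]; exact hVP)
    (Le_SU.2 ⟨hp₀P, hVP, ?_, ?_⟩), hfu⟩
  · rw [fst_pair]; exact hVle
  · rw [fst_pair, snd_pair]
    exact (QLe_v hVle (QQ_empty V)).1 (QLe_empty _ _ _ (mem_PU.1 hp₀P).2.2.2.2)

private theorem POm_meet (hG : Gr M K H) {n : ℕ} {U : ZFSet.{0}} (hU : UOK M H n U)
    {G : Set ZFSet.{0}} (hg : Gen M (SU U H) G) {m D V : ZFSet.{0}} (hm : m ∈ M) (hD : D ∈ M)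
    (hVH : V ∈ H) (hV : VV V) (hVL : vL V ∈ dom U) (hVc : ∀ c ∈ vS V, fst c ∈ m)
    (hVG : pair V eQ ∈ G) (hfu : POm_fu U H m D V) {a : ZFSet.{0}} (ha : a ∈ HF) :
    ∃ q', QQ V q' ∧ pair (pair V q') a ∈ D ∧ pair V q' ∈ G := by
  have hM := hG.tm
  obtain ⟨hSM, hPM, hOM⟩ := SU_M hG hU
  have hS := Sys_SU hG hU
  have haM : a ∈ M := hM.tr _ (UF.HF.mem M hM (fun _ => V) fun _ => H_sub_M hG hVH) _ ha
  have hE : ZFSet.sep (fun r => ∃ q' ∈ QP V, pair (pair V q') a ∈ D ∧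
      Le (SU U H) r (pair V q')) (PU U H) ∈ M := by
    have h1 : UF (fun _ v => ZFSet.sep (fun r => ∃ q' ∈ H83.PN.QP (v 0),
        ZFSet.pair (ZFSet.pair (v 0) q') (v 1) ∈ v 2 ∧
        H83.PN.Le (v 3) r (ZFSet.pair (v 0) q')) (v 4)) := by
      infer_instance
    exact h1.mem M hM (cons V (cons a (cons D (cons (SU U H) (fun _ => PU U H)))))
      (POm_st (H_sub_M hG hVH) (POm_st haM (POm_st hD (POm_st hSM fun _ => hPM))))
  obtain ⟨r, hr, -, hrG⟩ := gen_meet hM hS hSM hg hE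
    (fun z hz => by rw [sP_SU]; exact (mem_sep.1 hz).1) hVG (by
      intro r hr hle
      rw [sP_SU] at hr
      obtain ⟨h1, h2, h3⟩ := rsP_PU hG hU hr m hm
      obtain ⟨hrH, hre, hrV, hrL, hrQ⟩ := mem_PU.1 hr
      have h4 : VLe (fst r) V := by
        have h := (Le_SU.1 hle).2.2.1
        rwa [fst_pair] at h
      have h5 : VLe (fst (rsP r m)) V := by
        have h6 := rsV_mono hV hrV h4 m
        rw [rsV_full hV hVc] at h6
        rw [rsP, fst_pair]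
        exact h6
      have h6 : rsP r m ∈ PM U H m := mem_sep.2 ⟨h1, h3⟩
      obtain ⟨q', h7, h8, p₁, h9, h10, h11, h12⟩ := hfu a ha _ h6 h5
      have h9' := mem_sep.1 h9
      have h13 : Le (SU U H) p₁ (rsP r m) := Le_SU.2 ⟨h9'.1, h1, h10, h11⟩
      obtain ⟨r', h14, h15, -⟩ := compat_rs hG hU hr h13 h9'.2
      have h16 : pair V q' ∈ PU U H := mk_PU hG hV hVH hVL (mem_QP.1 h7)
      have h17 : Le (SU U H) p₁ (pair V q') := Le_SU.2 ⟨h9'.1, h16,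
        by rw [fst_pair]; exact VLe_trans h10 h5, by rw [fst_pair, snd_pair]; exact h12⟩
      exact ⟨r', mem_sep.2 ⟨(Le_SU.1 h14).1, q', h7, h8, hS.trans h15 h17⟩, h14⟩)
  obtain ⟨-, q', h1, h2, h3⟩ := mem_sep.1 hr
  exact ⟨q', mem_QP.1 h1, h2, hg.up r hrG _ (by rw [sP_SU]; exact (Le_SU.1 h3).2.1) h3⟩

private theorem POm_Dmono {S σ x w p p' a : ZFSet.{0}} (hS : Sys S) (hle : Le S p' p)
    (h : POm_D S σ x w p a) : POm_D S σ x w p' a := by
  have hp' : p' ∈ sP S := (Le_P hS hle).1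
  rcases h with ⟨y, hy, h1, h2⟩ | h
  · exact Or.inl ⟨y, hy, ⟨hp', FMem_mono hS hle h1.2⟩, fun y' hy' hw p'' hp'' hle' =>
      h2 y' hy' hw p'' hp'' (hS.trans hle' hle)⟩
  · exact Or.inr fun y hy p'' hp'' hle' => h y hy p'' hp'' (hS.trans hle' hle)

private theorem POm_uniq {S σ x w p a y y' : ZFSet.{0}} (hS : Sys S) (hw : IsWO w x)
    (hp : p ∈ sP S) (hy : y ∈ x) (hy' : y' ∈ x) (h : POm_P S σ x w p a y)
    (h' : POm_P S σ x w p a y') : y = y' := by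
  rcases hw.2.1 y hy y' hy' with h1 | h1 | h1
  · exact h1
  · exact absurd h.1 (h'.2 y hy h1 p hp (hS.refl p hp))
  · exact absurd h'.1 (h.2 y' hy' h1 p hp (hS.refl p hp))

theorem Ctb_NM (hG : Gr M K H) {n : ℕ} {U : ZFSet.{0}} (hU : UOK M H n U) {G : Set ZFSet.{0}}
    (hg : Gen M (SU U H) G) {x : ZFSet.{0}} (hx : x ∈ M) (h : Ctb (NN M (SU U H) G) x) :
    Ctb M x := by
  have hM := hG.tm
  obtain ⟨hSM, hPM, hOM⟩ := SU_M hG hU
  have hS := Sys_SU hG hU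
  have hN := NN_tm hM hS hSM hg
  obtain ⟨g, hgN, hgx⟩ := h
  have hxN := sub_NN hM hS hSM hg hx
  have hg1 : ZFSet.sep (fun t => app g (fst t) = snd t) (ZFSet.prod omega x) ∈
      NN M (SU U H) G := by
    have h1 : UF (fun _ v => ZFSet.sep (fun t => H83.AC.app (v 0) (H83.AC.fst t) =
        H83.AC.snd t) (ZFSet.prod ZFSet.omega (v 1))) := by
      infer_instance
    exact h1.mem _ hN (cons g (fun _ => x)) (POm_st hgN fun _ => hxN)
  obtain ⟨σ, hσM, hσ, hσe⟩ := hg1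
  obtain ⟨m, hms⟩ := (HS_iff.1 hσ).2.1
  have hmo : m ∈ omega := hms.1
  have hmM : m ∈ M := hM.tr _ (TM.omega hM) _ hmo
  have hHFM : HF ∈ M := UF.HF.mem M hM (fun _ => x) fun _ => hx
  obtain ⟨w, hwM, hw⟩ := exists_wo hM hG.vl hx
  have htop := top_mem hM hS hSM hg
  have hchk : ∀ {a y : ZFSet.{0}}, a ∈ M → y ∈ x → chk (SU U H) (pair a y) ∈ M := by
    intro a y ha hy
    have h1 : UF (fun _ v => H83.PN.chk (v 0) (ZFSet.pair (v 1) (v 2))) := by infer_instance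
    exact h1.mem M hM (cons (SU U H) (cons a (fun _ => y)))
      (POm_st hSM (POm_st ha fun _ => hM.tr _ hx _ hy))
  have hF1 : ∀ {p a y : ZFSet.{0}}, a ∈ M → y ∈ x → p ∈ G → POm_F (SU U H) σ p a y →
      app g a = y := by
    intro p a y ha hy hp h1
    have h2 := (truth_mem hM hS hSM hg (hchk ha hy) hσM).2 ⟨p, hp, h1.2⟩
    rw [val_chk htop, ← hσe] at h2
    have h3 := (mem_sep.1 h2).2
    rwa [fst_pair, snd_pair] at h3
  have hF2 : ∀ {a y : ZFSet.{0}}, a ∈ omega → y ∈ x → app g a = y →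
      ∃ p ∈ G, FMem (SU U H) p (chk (SU U H) (pair a y)) σ := by
    intro a y ha hy h1
    refine (truth_mem hM hS hSM hg (hchk (hM.tr _ (TM.omega hM) _ ha) hy) hσM).1 ?_
    rw [val_chk htop, ← hσe]
    exact mem_sep.2 ⟨pair_mem_prod.2 ⟨ha, hy⟩, by rw [fst_pair, snd_pair]; exact h1⟩
  -- the set `D`
  have hDM : ZFSet.sep (fun t => POm_D (SU U H) σ x w (fst t) (snd t))
      (ZFSet.prod (PM U H m) HF) ∈ M := by
    have h1 : UF (fun _ v => ZFSet.sep (fun t => POm_D (v 0) (v 1) (v 2) (v 3)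
        (H83.AC.fst t) (H83.AC.snd t)) (ZFSet.prod (H83.PN.PM (v 4) (v 5) (v 6))
        H83.AC.HF)) := by
      infer_instance
    exact h1.mem M hM (cons (SU U H) (cons σ (cons x (cons w (cons U (cons H (fun _ => m)))))))
      (POm_st hSM (POm_st hσM (POm_st hx (POm_st hwM (POm_st hU.mem (POm_st (H_M hG)
        fun _ => hmM))))))
  have hDm : ∀ p a, pair p a ∈ ZFSet.sep (fun t => POm_D (SU U H) σ x w (fst t) (snd t))
      (ZFSet.prod (PM U H m) HF) ↔ p ∈ PM U H m ∧ a ∈ HF ∧ POm_D (SU U H) σ x w p a := by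
    intro p a
    rw [mem_sep, pair_mem_prod, fst_pair, snd_pair, and_assoc]
  generalize ZFSet.sep (fun t => POm_D (SU U H) σ x w (fst t) (snd t))
      (ZFSet.prod (PM U H m) HF) = D at hDM hDm
  have ho : Opn U H m D := by
    intro p hp p' hp' a ha hle hpa
    have hle' : Le (SU U H) p' p := Le_SU.2 (mem_OU.1 hle)
    exact (hDm _ _).2 ⟨hp', ha, POm_Dmono hS hle' ((hDm _ _).1 hpa).2.2⟩
  have hd : ∀ p ∈ PM U H m, ∀ a ∈ HF, ∃ p' ∈ PM U H m, pair p' p ∈ OU U H ∧ pair p' a ∈ D := by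
    intro p hp a ha
    obtain ⟨hpP, hpc⟩ := mem_sep.1 hp
    by_cases hex : ∃ y ∈ x, ∃ p' ∈ sP (SU U H), Le (SU U H) p' p ∧ POm_F (SU U H) σ p' a y
    · obtain ⟨y₀, hy₀, hex⟩ := hex
      obtain ⟨y, hy, hmin⟩ := hw.2.2.2 (ZFSet.sep (fun y => ∃ p' ∈ sP (SU U H),
        Le (SU U H) p' p ∧ POm_F (SU U H) σ p' a y) x) (fun z hz => (mem_sep.1 hz).1) (by
          intro h1
          have h2 : y₀ ∈ ZFSet.sep (fun y => ∃ p' ∈ sP (SU U H),
            Le (SU U H) p' p ∧ POm_F (SU U H) σ p' a y) x := mem_sep.2 ⟨hy₀, hex⟩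
          rw [h1] at h2
          exact notMem_empty _ h2)
      obtain ⟨hyx, p', hp', hle, hF⟩ := mem_sep.1 hy
      rw [sP_SU] at hp'
      obtain ⟨h1, h2, h3⟩ := rsP_PU hG hU hp' m hmM
      have h4 : Le (SU U H) (rsP p' m) p := by
        have h5 := rsP_mono hG hU hle m hmM
        rwa [rsP_full hpP hpc] at h5
      have h5 : rsP p' m ∈ PM U H m := mem_sep.2 ⟨h1, h3⟩
      refine ⟨rsP p' m, h5, mem_OU.2 (Le_SU.1 h4), (hDm _ _).2 ⟨h5, ha, Or.inl ⟨y, hyx,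
        ⟨by rw [sP_SU]; exact h1, FMem_rs hG hU hp' hσ hms hF.2⟩, ?_⟩⟩⟩
      intro y' hy' hyw p'' hp'' hle'' hF''
      exact hmin y' (mem_sep.2 ⟨hy', p'', hp'', hS.trans hle'' h4, hF''⟩) hyw
    · push Not at hex
      have h4 : Le (SU U H) p p := hS.refl p (by rw [sP_SU]; exact hpP)
      exact ⟨p, hp, mem_OU.2 (Le_SU.1 h4), (hDm _ _).2 ⟨hp, ha, Or.inr fun y hy p' hp' hle =>
        hex y hy p' hp' hle⟩⟩
  obtain ⟨V, hVH, hVV, hVL, hVc, hVG, hfu⟩ := POm_exV hG hU hg hmM hDM ho hd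
  have hVM : V ∈ M := H_sub_M hG hVH
  -- every element of `x` is the least possible value of some condition
  have key : ∀ y ∈ x, ∃ i ∈ omega, ∃ q' ∈ QP V, POm_P (SU U H) σ x w (pair V q') i y := by
    intro y hy
    obtain ⟨i, hi, hiy⟩ := hgx y hy
    obtain ⟨q', h1, h2, h3⟩ := POm_meet hG hU hg hmM hDM hVH hVV hVL hVc hVG hfu
      (omega_sub_HF hi)
    refine ⟨i, hi, q', mem_QP.2 h1, ?_⟩
    rcases ((hDm _ _).1 h2).2.2 with ⟨y₁, hy₁, h4⟩ | h4
    · have h5 := hF1 (hM.tr _ (TM.omega hM) _ hi) hy₁ h3 h4.1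
      rw [hiy] at h5
      rw [h5]
      exact h4
    · obtain ⟨p, hp, h5⟩ := hF2 hi hy hiy
      obtain ⟨r, hr, h6, h7⟩ := hg.dir p hp _ h3
      exact absurd ⟨(Le_P hS h7).1, FMem_mono hS h6 h5⟩ (h4 y hy r (Le_P hS h7).1 h7)
  have hQM : QP V ∈ H := QP_Ctb hG hVV hVH
  have hc : Ctb M (ZFSet.prod omega (QP V)) := Ctb_prod hM (Ctb_omega hM) (H_ct hG hQM)
  have hcM : ZFSet.prod omega (QP V) ∈ M := by
    have h1 : UF (fun _ v => ZFSet.prod ZFSet.omega (v 0)) := by infer_instance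
    exact h1.mem M hM (fun _ => QP V) fun _ => H_sub_M hG hQM
  have hFu : UF (fun _ v => (⋃₀ (ZFSet.sep (fun y => POm_P (v 1) (v 2) (v 3) (v 4)
      (ZFSet.pair (v 5) (H83.AC.snd (v 0))) (H83.AC.fst (v 0)) y) (v 3)) : ZFSet)) := by
    infer_instance
  have hci := Ctb_img (N := M) hM (F := fun _ z v => (⋃₀ (ZFSet.sep (fun y =>
      POm_P (v 0) (v 1) (v 2) (v 3) (ZFSet.pair (v 4) (H83.AC.snd z)) (H83.AC.fst z) y)
      (v 2)) : ZFSet)) hFu (v := cons (SU U H) (cons σ (cons x (cons w (fun _ => V)))))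
      (POm_st hSM (POm_st hσM (POm_st hx (POm_st hwM fun _ => hVM))))
      (fun y hy => hM.tr _ hcM y hy) hc
  refine Ctb_sub hci ?_
  intro y hy
  obtain ⟨i, hi, q', hq', h1⟩ := key y hy
  refine mem_img.2 ⟨pair i q', pair_mem_prod.2 ⟨hi, hq'⟩, ?_⟩
  change (⋃₀ (ZFSet.sep (fun y => POm_P (SU U H) σ x w (ZFSet.pair V (H83.AC.snd (pair i q')))
    (H83.AC.fst (pair i q')) y) x) : ZFSet) = y
  have h2 : ZFSet.sep (fun y => POm_P (SU U H) σ x w (ZFSet.pair V (H83.AC.snd (pair i q')))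
      (H83.AC.fst (pair i q')) y) x = {y} := by
    ext z
    rw [mem_sep, ZFSet.mem_singleton, fst_pair, snd_pair]
    constructor
    · rintro ⟨hz, h3⟩
      have h4 : pair V q' ∈ sP (SU U H) := h1.1.1
      exact POm_uniq hS hw h4 hz hy h3 h1
    · rintro rfl
      exact ⟨hy, h1⟩
  rw [h2]
  ext z
  simp

theorem HCt_NM (hG : Gr M K H) {n : ℕ} {U : ZFSet.{0}} (hU : UOK M H n U) {G : Set ZFSet.{0}}
    (hg : Gen M (SU U H) G) {x : ZFSet.{0}} (hx : x ∈ M) :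
    HCt (NN M (SU U H) G) x ↔ x ∈ H := by
  have hM := hG.tm
  obtain ⟨hSM, hPM, hOM⟩ := SU_M hG hU
  have hS := Sys_SU hG hU
  have htc : tc x ∈ M := (UF.tc (UF.var 0)).mem M hM (fun _ => x) fun _ => hx
  constructor
  · intro h
    exact (hG.mem x).2 ⟨hx, Ctb_NM hG hU hg htc h⟩
  · intro h
    exact Ctb_mono (fun z hz => sub_NN hM hS hSM hg hz) ((hG.mem x).1 h).2

end H83.PN
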