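import Pool.Agent.H83.PN.FNr
import Pool.Agent.H83.PN.FNe
import Pool.Agent.H83.PN.FSu
import Pool.Agent.H83.PN.FAk
import Pool.Agent.H83.PN.POm
import Pool.Agent.H83.PN.DefsC

set_option autoImplicit false

/-!
# Module FHf: the failure half

`Nst_NN`: `NN_tm`, `sub_NN`, `rk_NN`, `Ctb_NM` (`Sys_SU`, `SU_M`, `hG.tm`). `fail_half`: let `U = UM M n H` (`UM_ok`), `N = NN M (SU U H) G`, `B = fgr (fun k => AkS N U k) omega ∈ N` (`AkS_N`, `U ∈ M ⊆ N`). For `k = nz k'`: `PiS N (n+3) (AkS N U k)`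
(`PiS_Ak`, `mem_AkS`), not empty (`Ak_ne`). If `f ∈ N` is a choice function, `f = val G σ`, let `m` be a support of `σ` (`HS`); `app f m ∈ AkS N U m`, a real number, so `⊆ HF` (`fn_HF`/`Real.shf`); `name_app` gives a name `ρ` with support `m`; `no_real`.
-/

namespace H83.PN

open ZFSet H83.AC

variable {M : Set ZFSet.{0}} {K H : ZFSet.{0}}

theorem Nst_NN (hG : Gr M K H) {n : ℕ} {U : ZFSet.{0}} (hU : UOK M H n U)
    {G : Set ZFSet.{0}} (hg : Gen M (SU U H) G) : Nst M (NN M (SU U H) G) K H :=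
  ⟨hG, NN_tm hG.tm (Sys_SU hG hU) (SU_M hG hU).1 hg,
    fun _ hx => sub_NN hG.tm (Sys_SU hG hU) (SU_M hG hU).1 hg hx,
    fun _ hx => rk_NN hG.tm hx, fun _ hx h => Ctb_NM hG hU hg hx h⟩

theorem fail_half (hG : Gr M K H) (n : ℕ) {G : Set ZFSet.{0}}
    (hg : Gen M (SU (UM M n H) H) G) :
    ¬ ACw (NN M (SU (UM M n H) H) G) (PiS (NN M (SU (UM M n H) H) G) (n + 3)) := by
  have hU : UOK M H n (UM M n H) := UM_ok hG n
  have hM := hG.tm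
  have hS := Sys_SU hG hU
  have hSM := (SU_M hG hU).1
  have hN := Nst_NN hG hU hg
  intro h
  obtain ⟨f, hfN, hf⟩ := h _ (AkS_N hN.tm (hN.sub _ hU.mem)) (by
    intro k hk
    rw [app_fgr hk]
    obtain ⟨k', rfl⟩ := mem_omega.1 hk
    refine ⟨⟨fun x hx => (mem_AkS.1 hx).1, PiS_Ak hN n k'⟩, ?_⟩
    obtain ⟨y, hy, hyA⟩ := Ak_ne hG hU hg hk
    intro he
    have h1 : y ∈ AkS (NN M (SU (UM M n H) H) G) (UM M n H) (nz k') := mem_AkS.2 ⟨hy, hyA⟩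
    rw [he] at h1
    exact notMem_empty _ h1)
  obtain ⟨σ, hσM, hσ, rfl⟩ := hfN
  obtain ⟨m, hms⟩ := (HS_iff.1 hσ).2.1
  have hm : m ∈ omega := hms.1
  have h1 := hf m hm
  rw [app_fgr hm] at h1
  obtain ⟨h2, h3⟩ := mem_AkS.1 h1
  obtain ⟨ρ, hρM, hρ, hρs, hρe⟩ := name_app hM hS hSM hg hm hσM hσ hms
    (hM.tr _ (TM.omega hM) _ hm) (fn_HF h2.2)
  rw [← hρe] at h2 h3
  exact no_real hG hU hg hm hρM hρ hρs h2 h3

end H83.PN
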