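import Pool.Agent.H83.PN.PNr
import Pool.Agent.H83.PN.DefsP

set_option autoImplicit false

/-!
# Module FNc: new coordinates

`new_col`: for `(v, q) ∈ PU U H` let `c = pair k (vS v)` (`c ∉ vS v`: rank), `v₁` the first part of the same length with the coordinates `vS v ∪ {c}` and `v₁(c, γ) = pair k ∅` for all `γ ∈ vL v` (`∈ Idx = prod omega omega`, see `Defs`);
`VLe v₁ v` (no condition for the new coordinate), `QQ_mono`. So the set of all `p ∈ PU U H` for which there is `c ∈ vS (fst p)` with `fst c = k` and `fst (app (vf (fst p)) (pair c γ)) = k` for all `γ ∈ vL (fst p)` is dense; it is in `M`, `G` meets it.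
`lab_all`: let `(v', q') ∈ G`, `pair v₀ eQ ∈ G`: take `r ∈ G` below both; the values of `fst r` and `v'` at `(c, γ)` agree if `c ∈ vS v'`, `γ ∈ vL v'`; for `fst r ≤ v₀`: if `γ ∈ vL v₀` the value of `v₀`, otherwise the label is `fst c = k`.
`val_dense`: let `(v, q) ∈ PU U H`, `c ∈ vS v`, `l ∈ omega`: if no `pair (pair c l) j ∈ fst q`, choose `j ∈ omega` such that `pair l j ∉ rl U v s` for all `s ∈ snd q`, `fst s = c` (finitely many, `rl_real`; `PN/PSd.lean` has such an argument), and add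
`pair (pair c l) j` to `fst q`. `pr_dense`: add `pair c γ` to `snd q`.
-/

namespace H83.PN

open ZFSet H83.AC

variable {M : Set ZFSet.{0}} {K H : ZFSet.{0}}

private theorem FNc_p {H v q : ZFSet.{0}} (h : ∀ x ∈ H, ∀ y ∈ x, y ∈ H) (hp : pair v q ∈ H) :
    v ∈ H ∧ q ∈ H := by
  have h1 : ({v, q} : ZFSet) ∈ H := h _ hp _ (by rw [pair]; simp)
  exact ⟨h _ h1 v (by simp), h _ h1 q (by simp)⟩

private theorem FNc_rk (a b : ZFSet.{0}) : rank b < rank (pair a b) := by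
  have h1 : ({a, b} : ZFSet) ∈ pair a b := by rw [pair]; simp
  exact (rank_lt_of_mem (show b ∈ ({a, b} : ZFSet) by simp)).trans (rank_lt_of_mem h1)

private theorem FNc_el (hG : Gr M K H) {U v q : ZFSet.{0}} (h : pair v q ∈ PU U H) :
    v ∈ H ∧ VV v ∧ vL v ∈ dom U ∧ QQ v q := by
  obtain ⟨h1, -, h2, h3, h4⟩ := mem_PU.1 h
  rw [fst_pair] at h2 h3 h4
  rw [snd_pair] at h4
  exact ⟨(FNc_p (fun x hx y hy => H_tr hG hx hy) h1).1, h2, h3, h4⟩

private theorem FNc_P {U : ZFSet.{0}} {G : Set ZFSet.{0}} (hg : Gen M (SU U H) G)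
    {p : ZFSet.{0}} (hp : p ∈ G) : p ∈ PU U H := by
  have h := hg.sub p hp
  rwa [sP_SU] at h

/-! ### The new coordinate -/

open Classical in
/-- the values with the new coordinate -/
private noncomputable def FNc_f (w k s : ZFSet.{0}) : ZFSet.{0} :=
  if fst s ∈ vS w then app (vf w) s else pair k ∅

/-- the first part with the new coordinate -/
private noncomputable def FNc_v (w k : ZFSet.{0}) : ZFSet.{0} :=
  pair (vL w) (pair (insert (pair k (vS w)) (vS w) : ZFSet.{0})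
    (fgr (fun s => FNc_f w k s) (ZFSet.prod (insert (pair k (vS w)) (vS w) : ZFSet.{0}) (vL w))))

private theorem FNc_uf : UF (fun _ v => FNc_v (v 0) (v 1)) := by
  unfold FNc_v FNc_f
  infer_instance

private theorem FNc_ok {w k : ZFSet.{0}} (hw : VV w) (hk : k ∈ omega) :
    VV (FNc_v w k) ∧ vL (FNc_v w k) = vL w ∧ VLe (FNc_v w k) w ∧
      pair k (vS w) ∈ vS (FNc_v w k) ∧
      ∀ γ ∈ vL w, fst (app (vf (FNc_v w k)) (pair (pair k (vS w)) γ)) = k := by
  have eL : vL (FNc_v w k) = vL w := by rw [vL, FNc_v, fst_pair]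
  have eS : vS (FNc_v w k) = insert (pair k (vS w)) (vS w) := by
    rw [vS, FNc_v, snd_pair, fst_pair]
  have ef : vf (FNc_v w k) = fgr (fun s => FNc_f w k s)
      (ZFSet.prod (insert (pair k (vS w)) (vS w) : ZFSet.{0}) (vL w)) := by
    rw [vf, FNc_v, snd_pair, snd_pair]
  have ea : ∀ s ∈ ZFSet.prod (insert (pair k (vS w)) (vS w) : ZFSet.{0}) (vL w),
      app (vf (FNc_v w k)) s = FNc_f w k s := by
    intro s hs
    rw [ef, app_fgr hs]
  have hc0 : pair k (vS w) ∉ vS w := fun h =>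
    absurd ((FNc_rk k (vS w)).trans (rank_lt_of_mem h)) (lt_irrefl _)
  have h0 : (∅ : ZFSet.{0}) ∈ (omega : ZFSet.{0}) := mem_omega.2 ⟨0, rfl⟩
  refine ⟨⟨?_, ?_, ?_, ?_, ?_⟩, eL, ⟨?_, ?_, ?_, ?_, ?_⟩, ?_, ?_⟩
  · rw [eL, eS, ef]
    rfl
  · rw [eL]; exact hw.2.1
  · rw [eS]
    intro c hc
    rcases mem_insert_iff.1 hc with rfl | hc
    · exact ⟨by rw [fst_pair, snd_pair], by rw [fst_pair]; exact hk⟩
    · exact hw.2.2.1 c hc
  · rw [eL, eS]
    conv_lhs => rw [ef]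
    exact fgr_congr fun s hs => (ea s hs).symm
  · rw [eL, eS]
    intro s hs
    rw [ea s hs, FNc_f]
    obtain ⟨c, hc, β, hβ, rfl⟩ := ZFSet.mem_prod.1 hs
    rw [fst_pair]
    split_ifs with h1
    · exact hw.2.2.2.2 _ (ZFSet.mem_prod.2 ⟨c, h1, β, hβ, rfl⟩)
    · rw [Idx]
      exact ZFSet.mem_prod.2 ⟨_, hk, _, h0, rfl⟩
  · rw [eL]
  · rw [eS]
    exact fun c hc => mem_insert_iff.2 (Or.inr hc)
  · intro s hs
    obtain ⟨c, hc, β, hβ, rfl⟩ := ZFSet.mem_prod.1 hs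
    rw [ea _ (ZFSet.mem_prod.2 ⟨c, mem_insert_iff.2 (Or.inr hc), β, hβ, rfl⟩), FNc_f, fst_pair,
      if_pos hc]
  · intro c _ β hβ hβ'
    rw [eL] at hβ
    exact absurd hβ hβ'
  · intro c _ c' _ _ β hβ hβ'
    rw [eL] at hβ
    exact absurd hβ hβ'
  · rw [eS]
    exact mem_insert_iff.2 (Or.inl rfl)
  · intro γ hγ
    rw [ea _ (ZFSet.mem_prod.2 ⟨_, mem_insert_iff.2 (Or.inl rfl), γ, hγ, rfl⟩), FNc_f, fst_pair,
      if_neg hc0, fst_pair]

private theorem FNc_D1 (hG : Gr M K H) {U k : ZFSet.{0}} (hU : U ∈ M) (hk : k ∈ M) :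
    ZFSet.sep (fun p => ∃ c ∈ vS (fst p), fst c = k ∧
      ∀ γ ∈ vL (fst p), fst (app (vf (fst p)) (pair c γ)) = k) (PU U H) ∈ M := by
  have h : UF (fun _ w => ZFSet.sep (fun p => ∃ c ∈ vS (fst p), fst c = w 2 ∧
      ∀ γ ∈ vL (fst p), fst (app (vf (fst p)) (pair c γ)) = w 2) (PU (w 0) (w 1))) := by
    infer_instance
  exact h.mem M hG.tm (cons U (cons H (fun _ => k))) (fun n => by
    rcases n with _ | _ | n
    · exact hU
    · exact H_M hG
    · exact hk)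

theorem new_col (hG : Gr M K H) {n : ℕ} {U : ZFSet.{0}} (hU : UOK M H n U)
    {G : Set ZFSet.{0}} (hg : Gen M (SU U H) G) {k : ZFSet.{0}} (hk : k ∈ omega) :
    ∃ v c, VV v ∧ v ∈ H ∧ vL v ∈ dom U ∧ pair v eQ ∈ G ∧ c ∈ vS v ∧ fst c = k ∧
      ∀ p ∈ G, c ∈ vS (fst p) → ∀ γ ∈ vL (fst p), fst (app (vf (fst p)) (pair c γ)) = k := by
  have hsP : sP (SU U H) = PU U H := sP_SU U H
  have hkH : k ∈ H := H_tr hG (HF_sub_H hG).2.2 hk
  have hkM : k ∈ M := H_sub_M hG hkH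
  obtain ⟨p, hpD, hpG⟩ := hg.meet _ (FNc_D1 hG hU.mem hkM)
    (fun z hz => by rw [hsP]; exact (mem_sep.1 hz).1) (fun q hq => by
      rw [hsP] at hq
      have e := (mem_PU.1 hq).2.1
      obtain ⟨w, q', rfl⟩ : ∃ w q', q = pair w q' := ⟨_, _, e⟩
      obtain ⟨b1, b2, b3, b4⟩ := FNc_el hG hq
      obtain ⟨c1, c2, c3, c4, c5⟩ := FNc_ok b2 hk
      have hvH : FNc_v w k ∈ H := H_uf2 hG (F := fun x y => FNc_v x y) FNc_uf b1 hkH
      have hP : pair (FNc_v w k) q' ∈ PU U H :=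
        mk_PU hG c1 hvH (by rw [c2]; exact b3) (QQ_mono c3 b4)
      refine ⟨pair (FNc_v w k) q', mem_sep.2 ⟨hP, pair k (vS w), ?_, ?_, ?_⟩,
        Le_SU.2 ⟨hP, hq, ?_, ?_⟩⟩
      · rw [fst_pair]; exact c4
      · rw [fst_pair]
      · rw [fst_pair, c2]; exact c5
      · rw [fst_pair, fst_pair]; exact c3
      · rw [fst_pair, snd_pair, snd_pair]; exact QLe_refl U w q')
  obtain ⟨hpP, c, hc, hck, hcl⟩ := mem_sep.1 hpD
  have e := (mem_PU.1 hpP).2.1
  obtain ⟨w, q', rfl⟩ : ∃ w q', p = pair w q' := ⟨_, _, e⟩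
  obtain ⟨b1, b2, b3, b4⟩ := FNc_el hG hpP
  have hGe := Gq_eQ hG hU hg hpG
  rw [fst_pair] at hGe hc hcl
  refine ⟨w, c, b2, b1, b3, hGe, hc, hck, ?_⟩
  intro p' hp' hc' γ hγ
  obtain ⟨r, hr, l1, l2⟩ := hg.dir _ hpG _ hp'
  obtain ⟨-, -, a1, -⟩ := Le_SU.1 l1
  obtain ⟨-, -, a2, -⟩ := Le_SU.1 l2
  rw [fst_pair] at a1
  rw [← a2.2.2.1 _ (ZFSet.mem_prod.2 ⟨c, hc', γ, hγ, rfl⟩)]
  by_cases h : γ ∈ vL w
  · rw [a1.2.2.1 _ (ZFSet.mem_prod.2 ⟨c, hc, γ, h, rfl⟩)]
    exact hcl γ h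
  · rw [a1.2.2.2.1 c hc γ (a2.1 hγ) h]
    exact hck

/-! ### The values -/

private theorem FNc_new {S : Set ZFSet.{0}} (hS : S.Finite) : ∃ j ∈ (omega : ZFSet.{0}), j ∉ S := by
  have hinf : (Set.range nz).Infinite :=
    Set.infinite_range_of_injective (fun m n h => nz_inj.1 h)
  obtain ⟨j, ⟨n, rfl⟩, hj⟩ := hinf.exists_notMem_finite hS
  exact ⟨nz n, mem_omega.2 ⟨n, rfl⟩, hj⟩

private theorem FNc_D2 (hG : Gr M K H) {U c l : ZFSet.{0}} (hU : U ∈ M) (hc : c ∈ M)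
    (hl : l ∈ M) : ZFSet.sep (fun p => c ∈ vS (fst p) ∧
      ∃ j ∈ omega, pair (pair c l) j ∈ fst (snd p)) (PU U H) ∈ M := by
  have h : UF (fun _ w => ZFSet.sep (fun p => w 2 ∈ vS (fst p) ∧
      ∃ j ∈ omega, pair (pair (w 2) (w 3)) j ∈ fst (snd p)) (PU (w 0) (w 1))) := by
    infer_instance
  exact h.mem M hG.tm (cons U (cons H (cons c (fun _ => l)))) (fun n => by
    rcases n with _ | _ | _ | n
    · exact hU
    · exact H_M hG
    · exact hc
    · exact hl)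

theorem val_dense (hG : Gr M K H) {n : ℕ} {U : ZFSet.{0}} (hU : UOK M H n U)
    {G : Set ZFSet.{0}} (hg : Gen M (SU U H) G) {v c l : ZFSet.{0}} (hv : pair v eQ ∈ G)
    (hc : c ∈ vS v) (hl : l ∈ omega) :
    ∃ p ∈ G, ∃ j ∈ omega, c ∈ vS (fst p) ∧ pair (pair c l) j ∈ fst (snd p) := by
  have hsP : sP (SU U H) = PU U H := sP_SU U H
  obtain ⟨hvH, hvv, hvL, -⟩ := FNc_el hG (FNc_P hg hv)
  have hSH : vS v ∈ H := H_uf1 hG (F := fun x => vS x) (by infer_instance) hvH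
  have hcM : c ∈ M := H_sub_M hG (H_tr hG hSH hc)
  have hlM : l ∈ M := H_sub_M hG (H_tr hG (HF_sub_H hG).2.2 hl)
  obtain ⟨p, hpD, -, hpG⟩ := gen_meet hG.tm (Sys_SU hG hU) (SU_M hG hU).1 hg
    (FNc_D2 hG hU.mem hcM hlM) (fun z hz => by rw [hsP]; exact (mem_sep.1 hz).1) hv
    (fun q hq hqv => by
      rw [hsP] at hq
      obtain ⟨-, -, a1, -⟩ := Le_SU.1 hqv
      rw [fst_pair] at a1
      have e := (mem_PU.1 hq).2.1
      obtain ⟨w, q', rfl⟩ : ∃ w q', q = pair w q' := ⟨_, _, e⟩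
      rw [fst_pair] at a1
      obtain ⟨b1, b2, b3, b4⟩ := FNc_el hG hq
      have hcw : c ∈ vS w := a1.2.1 hc
      by_cases hex : ∃ j ∈ omega, pair (pair c l) j ∈ fst q'
      · refine ⟨pair w q', mem_sep.2 ⟨hq, ?_, ?_⟩, (Sys_SU hG hU).refl _ (by rw [hsP]; exact hq)⟩
        · rw [fst_pair]; exact hcw
        · rw [snd_pair]; exact hex
      · obtain ⟨c1, c2, c3⟩ := hU.seg _ b3
        have hreal : ∀ s ∈ snd q', IsFunc omega omega (rl (res U (vL w)) w s) := fun s hs =>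
          rl_real c1 b2 (by rw [c3]) ((mem_Fs.1 b4.2.2).1 hs)
        have hfin : (⋃ s ∈ {s | s ∈ snd q'}, {j | pair l j ∈ rl (res U (vL w)) w s}).Finite := by
          refine Set.Finite.biUnion (mem_Fs.1 b4.2.2).2 fun s hs => ?_
          refine Set.Subsingleton.finite ?_
          intro j hj j' hj'
          have hF := hreal s hs
          have h1 := (ZFSet.pair_mem_prod.1 (hF.1 hj)).1
          exact (hF.2 l h1).unique hj hj'
        obtain ⟨j, hj, hjn⟩ := FNc_new hfin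
        have hnone : ∀ t ∈ fst q', fst t ≠ pair c l := by
          intro t ht h1
          obtain ⟨e1, e2, e3, e4⟩ := (QQ_elt b4).1 t ht
          refine hex ⟨snd t, e4, ?_⟩
          have e5 : pair (fst (fst t)) (snd (fst t)) = pair c l := by
            rw [← h1]
            have := congrArg fst e1
            rw [fst_pair] at this
            exact this.symm
          rw [← e5, ← e1]
          exact ht
        obtain ⟨q₂, hq₂⟩ : ∃ q₂, q₂ = pair (insert (pair (pair c l) j) (fst q') : ZFSet.{0})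
            (snd q') := ⟨_, rfl⟩
        have ef : fst q₂ = insert (pair (pair c l) j) (fst q') := by rw [hq₂, fst_pair]
        have es : snd q₂ = snd q' := by rw [hq₂, snd_pair]
        have hQ : QQ w q₂ := by
          refine ⟨?_, ?_, ?_⟩
          · rw [ef, es, hq₂]
          · rw [ef]
            exact Cn_insert b4.2.1 hcw hl hj hnone
          · rw [es]
            exact b4.2.2
        have hle : QLe (res U (vL w)) w q₂ q' := by
          refine ⟨?_, ?_, ?_⟩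
          · rw [ef]
            exact fun t ht => mem_insert_iff.2 (Or.inr ht)
          · rw [es]
          · intro t ht htn s hs hst h1
            rw [ef] at ht
            rcases mem_insert_iff.1 ht with rfl | ht
            · rw [fst_pair, snd_pair, snd_pair] at h1
              exact hjn (Set.mem_biUnion (show s ∈ {s | s ∈ snd q'} from hs) h1)
            · exact htn ht
        have hP : pair w q₂ ∈ PU U H := mk_PU hG b2 b1 b3 hQ
        refine ⟨pair w q₂, mem_sep.2 ⟨hP, ?_, j, hj, ?_⟩, Le_SU.2 ⟨hP, hq, ?_, ?_⟩⟩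
        · rw [fst_pair]; exact hcw
        · rw [snd_pair, ef]
          exact mem_insert_iff.2 (Or.inl rfl)
        · rw [fst_pair, fst_pair]; exact VLe_refl w
        · rw [fst_pair, snd_pair, snd_pair]
          exact (QLe_res (fun z hz => hz) b4).1 hle)
  obtain ⟨-, h1, j, hj, h2⟩ := mem_sep.1 hpD
  exact ⟨p, hpG, j, hj, h1, h2⟩

/-! ### The promises -/

private theorem FNc_D3 (hG : Gr M K H) {U c γ : ZFSet.{0}} (hU : U ∈ M) (hc : c ∈ M)
    (hγ : γ ∈ M) : ZFSet.sep (fun p => c ∈ vS (fst p) ∧ γ ∈ vL (fst p) ∧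
      pair c γ ∈ snd (snd p)) (PU U H) ∈ M := by
  have h : UF (fun _ w => ZFSet.sep (fun p => w 2 ∈ vS (fst p) ∧ w 3 ∈ vL (fst p) ∧
      pair (w 2) (w 3) ∈ snd (snd p)) (PU (w 0) (w 1))) := by
    infer_instance
  exact h.mem M hG.tm (cons U (cons H (cons c (fun _ => γ)))) (fun n => by
    rcases n with _ | _ | _ | n
    · exact hU
    · exact H_M hG
    · exact hc
    · exact hγ)

theorem pr_dense (hG : Gr M K H) {n : ℕ} {U : ZFSet.{0}} (hU : UOK M H n U)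
    {G : Set ZFSet.{0}} (hg : Gen M (SU U H) G) {v c γ : ZFSet.{0}} (hv : pair v eQ ∈ G)
    (hc : c ∈ vS v) (hγ : γ ∈ dom U) :
    ∃ p ∈ G, c ∈ vS (fst p) ∧ γ ∈ vL (fst p) ∧ pair c γ ∈ snd (snd p) := by
  have hsP : sP (SU U H) = PU U H := sP_SU U H
  obtain ⟨hvH, hvv, hvL, -⟩ := FNc_el hG (FNc_P hg hv)
  have hSH : vS v ∈ H := H_uf1 hG (F := fun x => vS x) (by infer_instance) hvH
  have hcM : c ∈ M := H_sub_M hG (H_tr hG hSH hc)
  have hγH : γ ∈ H := by
    obtain ⟨-, c2, c3⟩ := hU.seg _ hγ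
    have h := H_uf1 hG (F := fun x => dom x) (by infer_instance) c2
    rwa [c3] at h
  have hγM : γ ∈ M := H_sub_M hG hγH
  have hγr : rk γ = γ := by
    have h := hγ
    rw [hU.dom] at h
    exact rk_of_mem_rk h
  obtain ⟨p, hpD, -, hpG⟩ := gen_meet hG.tm (Sys_SU hG hU) (SU_M hG hU).1 hg
    (FNc_D3 hG hU.mem hcM hγM) (fun z hz => by rw [hsP]; exact (mem_sep.1 hz).1) hv
    (fun q hq hqv => by
      rw [hsP] at hq
      obtain ⟨-, -, a1, -⟩ := Le_SU.1 hqv
      rw [fst_pair] at a1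
      have e := (mem_PU.1 hq).2.1
      obtain ⟨w, q', rfl⟩ : ∃ w q', q = pair w q' := ⟨_, _, e⟩
      rw [fst_pair] at a1
      obtain ⟨b1, b2, b3, b4⟩ := FNc_el hG hq
      obtain ⟨w', hw'H, W, hWH, d1, d2, d3, d4, -, -, -, -, d5⟩ := exists_good hG hU b2 b1 hγH
      rw [hγr] at d5
      have hcw : c ∈ vS w' := d2.2.1 (a1.2.1 hc)
      obtain ⟨q₂, hq₂⟩ : ∃ q₂, q₂ = pair (fst q') (insert (pair c γ) (snd q') : ZFSet.{0}) :=
        ⟨_, rfl⟩
      have ef : fst q₂ = fst q' := by rw [hq₂, fst_pair]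
      have es : snd q₂ = insert (pair c γ) (snd q') := by rw [hq₂, snd_pair]
      have b5 := QQ_mono d2 b4
      have hQ : QQ w' q₂ := by
        refine ⟨?_, ?_, ?_⟩
        · rw [ef, es, hq₂]
        · rw [ef]
          exact b5.2.1
        · rw [es]
          refine mem_Fs.2 ⟨?_, Fnt_insert (mem_Fs.1 b5.2.2).2⟩
          intro t ht
          rcases mem_insert_iff.1 ht with rfl | ht
          · exact ZFSet.mem_prod.2 ⟨c, hcw, γ, d5, rfl⟩
          · exact (mem_Fs.1 b5.2.2).1 ht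
      have hP : pair w' q₂ ∈ PU U H := mk_PU hG d1 hw'H d4 hQ
      refine ⟨pair w' q₂, mem_sep.2 ⟨hP, ?_, ?_, ?_⟩, Le_SU.2 ⟨hP, hq, ?_, ?_⟩⟩
      · rw [fst_pair]; exact hcw
      · rw [fst_pair]; exact d5
      · rw [snd_pair, es]
        exact mem_insert_iff.2 (Or.inl rfl)
      · rw [fst_pair, fst_pair]; exact d2
      · rw [fst_pair, snd_pair, snd_pair]
        refine ⟨?_, ?_, ?_⟩
        · rw [ef]
        · rw [es]
          exact fun t ht => mem_insert_iff.2 (Or.inr ht)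
        · intro t ht htn
          rw [ef] at ht
          exact absurd ht htn)
  obtain ⟨-, h1, h2, h3⟩ := mem_sep.1 hpD
  exact ⟨p, hpG, h1, h2, h3⟩

end H83.PN
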