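import Pool.Agent.H83.PN.FSl
import Pool.Agent.H83.PN.PNr
import Pool.Agent.H83.PN.PVe
import Pool.Agent.H83.PN.DefsP

set_option autoImplicit false

/-!
# Module FNr: no real number with support `m` is in `A_m`

`name_real`: `x = val G σ = ev (Gq v G) e`, `GV H U v W`, `pair v eQ ∈ G`, `SNmm W v e m`, `RNm W (res U (vL v)) v e`. Suppose `AkP U m x`; for `γ = vL v ∈ dom U` there are `i ∈ omega` and `l₀ ∈ omega` with: for
`l ∈ omega`, `l ∉ l₀`, `pair l j ∈ x` one has `pair l j ∉ f`, `f = app (uF U γ) (pair m i)`. Let `D ∈ M` be the set of all `p ∈ PU U H` with `VLe (fst p) v` and `∃ t ∈ e, QLe U v (snd p) (fst t) ∧ fst (snd t) ∉ l₀ ∧ snd t ∈ f`. `D` is dense below `(v, eQ)`: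
let `(v₁, q₁) ∈ PU U H` be below `(v, eQ)`; by `exists_good` (`x := sc γ` or `{γ}`: an ordinal which forces `γ ∈ vL v'`; `γ ∈ rank ..`) there is `v' ≤ v₁` with `γ ∈ vL v'`, `vL v' ∈ dom U`; apply `sealing_x` with `u = res U γ`, `u' = res U (vL v')`
(`UOK.seg`), `q = q₁` (`QQ_mono`); `uF (res U (vL v')) γ = uF U γ` because `γ ∈ vL v'`; `QLe_res`, `QLe_u` translate between `res U ..` and `U`. The genericity of `G` (`Gen.meet` for `D` together with the conditions incompatible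
with `(v, eQ)`; see how `Gen_v` in `PN/PGv.lean` does this) gives `p ∈ D ∩ G`; then `fst t ∈ Gq v G` (upward closed: `(v, fst t) ∈ PU U H`, `p ≤ (v, fst t)`), so `snd t ∈ ev (Gq v G) e = x`, and `snd t ∈ f`, `fst (snd t) ∉ l₀`: contradiction.
-/

namespace H83.PN

open ZFSet H83.AC

variable {M : Set ZFSet.{0}} {K H : ZFSet.{0}}

private theorem FNr_p {v q : ZFSet.{0}} (h : ∀ x ∈ H, ∀ y ∈ x, y ∈ H) (hp : pair v q ∈ H) :
    v ∈ H ∧ q ∈ H := by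
  have h1 : ({v, q} : ZFSet) ∈ H := h _ hp _ (by rw [pair]; simp)
  exact ⟨h _ h1 v (by simp), h _ h1 q (by simp)⟩

private theorem FNr_el (hG : Gr M K H) {U v q : ZFSet.{0}} (h : pair v q ∈ PU U H) :
    v ∈ H ∧ VV v ∧ vL v ∈ dom U ∧ QQ v q := by
  obtain ⟨h1, -, h2, h3, h4⟩ := mem_PU.1 h
  rw [fst_pair] at h2 h3 h4
  rw [snd_pair] at h4
  exact ⟨(FNr_p (fun x hx y hy => H_tr hG hx hy) h1).1, h2, h3, h4⟩

private theorem FNr_P {U : ZFSet.{0}} {G : Set ZFSet.{0}} (hg : Gen M (SU U H) G)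
    {p : ZFSet.{0}} (hp : p ∈ G) : p ∈ PU U H := by
  have h := hg.sub p hp
  rwa [sP_SU] at h

private theorem FNr_up {U : ZFSet.{0}} {G : Set ZFSet.{0}} (hg : Gen M (SU U H) G)
    {p v q : ZFSet.{0}} (hp : p ∈ G) (hq : pair v q ∈ PU U H) (h : VLe (fst p) v)
    (h' : QLe U v (snd p) q) : pair v q ∈ G := by
  refine hg.up p hp _ ?_ (Le_SU.2 ⟨FNr_P hg hp, hq, ?_, ?_⟩)
  · rw [sP_SU]; exact hq
  · rw [fst_pair]; exact h
  · rw [fst_pair, snd_pair]; exact h'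

private theorem FNr_res {U a b : ZFSet.{0}} (h : a ⊆ b) : res U a ⊆ res U b := by
  intro z hz
  obtain ⟨h1, h2⟩ := mem_sep.1 hz
  exact mem_sep.2 ⟨h1, h h2⟩

private theorem FNr_app {U γ β : ZFSet.{0}} (hb : β ∈ γ) : app (res U γ) β = app U β := by
  have h1 : ∀ y : ZFSet.{0}, pair β y ∈ res U γ ↔ pair β y ∈ U := by
    intro y
    unfold res
    rw [mem_sep, fst_pair]
    exact ⟨fun h => h.1, fun h => ⟨h, hb⟩⟩
  ext w
  simp only [app, mem_sUnion, mem_sep]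
  constructor
  · rintro ⟨y, ⟨-, h3⟩, h4⟩
    have h5 := (h1 y).1 h3
    exact ⟨y, ⟨by simpa only [mem_sUnion] using snd_mem_ssU h5, h5⟩, h4⟩
  · rintro ⟨y, ⟨-, h3⟩, h4⟩
    have h5 := (h1 y).2 h3
    exact ⟨y, ⟨by simpa only [mem_sUnion] using snd_mem_ssU h5, h5⟩, h4⟩

private theorem FNr_DM (hG : Gr M K H) {U v e l f : ZFSet.{0}} (hU : U ∈ M) (hv : v ∈ M)
    (he : e ∈ M) (hl : l ∈ M) (hf : f ∈ M) :
    ZFSet.sep (fun p => VLe (fst p) v ∧ ∃ t ∈ e, QLe U v (snd p) (fst t) ∧ fst (snd t) ∉ l ∧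
      snd t ∈ f) (PU U H) ∈ M := by
  have h : UF (fun _ w => ZFSet.sep (fun p => VLe (fst p) (w 2) ∧
      ∃ t ∈ w 3, QLe (w 0) (w 2) (snd p) (fst t) ∧ fst (snd t) ∉ w 4 ∧ snd t ∈ w 5)
        (PU (w 0) (w 1))) := by
    infer_instance
  exact h.mem M hG.tm (cons U (cons H (cons v (cons e (cons l (fun _ => f)))))) (fun n => by
    rcases n with _ | _ | _ | _ | _ | n
    · exact hU
    · exact H_M hG
    · exact hv
    · exact he
    · exact hl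
    · exact hf)

private theorem FNr_fM (hG : Gr M K H) {U γ m i : ZFSet.{0}} (hU : U ∈ M) (hγ : γ ∈ M)
    (hm : m ∈ M) (hi : i ∈ M) : app (uF U γ) (pair m i) ∈ M := by
  have h : UF (fun _ w => app (uF (w 0) (w 1)) (pair (w 2) (w 3))) := by
    infer_instance
  exact h.mem M hG.tm (cons U (cons γ (cons m (fun _ => i)))) (fun n => by
    rcases n with _ | _ | _ | n
    · exact hU
    · exact hγ
    · exact hm
    · exact hi)

theorem no_real (hG : Gr M K H) {n : ℕ} {U : ZFSet.{0}} (hU : UOK M H n U)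
    {G : Set ZFSet.{0}} (hg : Gen M (SU U H) G) {m σ : ZFSet.{0}} (hm : m ∈ omega) (hσM : σ ∈ M)
    (hσ : HS (SU U H) σ) (hs : Supp (SU U H) m σ) (hx : Real (NN M (SU U H) G) (val G σ)) :
    ¬ AkP U m (val G σ) := by
  obtain ⟨v, W, e, hgv, hvG, ⟨heW, he1, hem⟩, he, hval⟩ := name_real hG hU hg hm hσM hσ hs hx
  intro hA
  obtain ⟨i, hi, l₀, hl₀, hed⟩ := hA (vL v) hgv.vL
  have hωM : omega ∈ M := hG.tm.omega
  have hvM : v ∈ M := H_sub_M hG hgv.vH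
  have hLH : vL v ∈ H := H_uf1 hG (F := fun x => vL x) (by infer_instance) hgv.vH
  have heH : e ∈ H := H_tr hG hgv.WH heW
  have hfM : app (uF U (vL v)) (pair m i) ∈ M :=
    FNr_fM hG hU.mem (H_sub_M hG hLH) (hG.tm.tr _ hωM m hm) (hG.tm.tr _ hωM i hi)
  obtain ⟨hu1, hu2, hu3⟩ := hU.seg _ hgv.vL
  have hsP : sP (SU U H) = PU U H := sP_SU U H
  obtain ⟨p, hpD, -, hpG⟩ := gen_meet hG.tm (Sys_SU hG hU) (SU_M hG hU).1 hg
    (FNr_DM hG hU.mem hvM (H_sub_M hG heH) (hG.tm.tr _ hωM l₀ hl₀) hfM)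
    (fun z hz => by rw [hsP]; exact (mem_sep.1 hz).1) hvG
    (fun q hq hqv => by
      rw [hsP] at hq
      obtain ⟨-, -, a1, -⟩ := Le_SU.1 hqv
      rw [fst_pair] at a1
      have eq := (mem_PU.1 hq).2.1
      obtain ⟨w, q', rfl⟩ : ∃ w q', q = pair w q' := ⟨_, _, eq⟩
      rw [fst_pair] at a1
      obtain ⟨b1, b2, b3, b4⟩ := FNr_el hG hq
      obtain ⟨v', hv'H, W', -, hv', hle', -, hL', -, -, -, -, hrk⟩ :=
        exists_good hG hU b2 b1 hLH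
      rw [hgv.vv.2.1] at hrk
      obtain ⟨c1, c2, c3⟩ := hU.seg _ hL'
      have hle : VLe v' v := VLe_trans hle' a1
      obtain ⟨t, ht, q₂, s1, s2, s3, s4, s5⟩ := sealing_x hu1 hgv.vv hu3 hgv.nx hgv.uW hgv.vW hm
        hl₀ hi he hem c1 hv' c3 (FNr_res hle.1) hle (by rw [hu3, c3]; exact hrk)
        (QQ_mono hle' b4)
      have hP2 : pair v' q₂ ∈ PU U H := mk_PU hG hv' hv'H hL' s1
      have htQ : QQ v (fst t) := mem_QP.1 (he1 t ht).2.1
      refine ⟨pair v' q₂, mem_sep.2 ⟨hP2, ?_, t, ht, ?_, s4, ?_⟩, Le_SU.2 ⟨hP2, hq, ?_, ?_⟩⟩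
      · rw [fst_pair]; exact hle
      · rw [snd_pair]
        exact (QLe_res hle.1 htQ).1 s3
      · rw [hu3, uF, FNr_app hrk] at s5
        exact s5
      · rw [fst_pair, fst_pair]; exact hle'
      · rw [fst_pair, snd_pair, snd_pair]
        exact (QLe_v hle' b4).1 ((QLe_res (fun z hz => hz) (QQ_mono hle' b4)).1 s2))
  obtain ⟨hpP, h1, t, ht, h2, h3, h4⟩ := mem_sep.1 hpD
  obtain ⟨t1, t2, -⟩ := he1 t ht
  have htG : fst t ∈ Gq v G :=
    FNr_up hg hpG (mk_PU hG hgv.vv hgv.vH hgv.vL (mem_QP.1 t2)) h1 h2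
  have hx1 : snd t ∈ val G σ := by
    rw [hval, mem_ev]
    exact ⟨fst t, htG, by rw [← t1]; exact ht⟩
  obtain ⟨l, hl, j, hj, hlj⟩ := ZFSet.mem_prod.1 (hx.2.1 hx1)
  rw [hlj] at hx1 h4
  rw [hlj, fst_pair] at h3
  exact hed l hl h3 j hj hx1 h4

end H83.PN
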