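import Pool.Agent.H83.PN.CUU

set_option autoImplicit false

/-!
# Module ZKc: closure properties of the sets `K` with `Kc K`

`Kc_lin2`: two elements `x, y ∈ A`: models `W, W' ∈ A` with `x ∈ W`, `y ∈ W'`; `Wd_lin`, `HCt_mono`: take the larger one.
`Kc_uf`: `Wd_uf` for this model, which is a subset of `A`. `Kc_Nx`: if `W ∈ A` is a model containing `x` in which `x` is
hereditarily countable then the least such model `Nx x` is `W` or an element of `W`: among the models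
`W' ∈ insert W W` (all are levels, well-ordered) take the `∈`-least one. `Kc_H`: `exists_W`, `Ws_exists`, `H_tr`.
`Kc_Lo`: if `z ∈ A` then `z ∈ W ∈ A`, `W = Lo (rank W)` (`Wd_Lo`), `rank W < rank A`, so `z ∈ Lo (rank A)`; conversely
`z ∈ Lo (rank A)`: `z ∈ Sx (Lo β)`, `β < rank A`, `β ≤ rank x`, `x ∈ A` (`lt_rank_iff`), `x ∈ W ∈ A`, `rank x < rank W`,
`Sx (Lo β) ⊆ Lo (rank W) = W` (`Sx_sub_Lo`). `Kc_mem`: `Lo_mem_Lo`. `Kc_rk`: `rk` is definable; `γ ∈ rk A` iff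
`γ ∈ A ∧ rk γ = γ`. `Kc_Ws`: for `w ∈ A` with `Ws w` the model `Nx w` is in `A`.
-/

namespace H83.PN

open ZFSet H83.AC

variable {M : Set ZFSet.{0}} {K H : ZFSet.{0}}

private theorem ZKc_sub {W W' : ZFSet.{0}} (h : Wd W) (h' : Wd W') : W ⊆ W' ∨ W' ⊆ W := by
  rcases Wd_lin h h' with h1 | h1 | h1
  · exact Or.inl (Wd_tr h' h1)
  · rw [h1]
    exact Or.inl fun _ hz => hz
  · exact Or.inr (Wd_tr h h1)

private theorem ZKc_sc {γ : ZFSet.{0}} (h : rk γ = γ) : rk (sc γ) = sc γ := by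
  have h1 : rank (sc γ) = Order.succ (rank γ) := by
    rw [sc, rank_insert]
    exact max_eq_left (Order.le_succ _)
  ext z
  rw [mem_rk, h1, sc, ZFSet.mem_insert_iff]
  constructor
  · rintro ⟨β, hβ, rfl⟩
    rcases (Order.lt_succ_iff.1 hβ).lt_or_eq with h2 | h2
    · right
      have h3 : β.toZFSet ∈ rk γ := mem_rk.2 ⟨β, h2, rfl⟩
      rwa [h] at h3
    · left
      rw [h2]
      exact h
  · rintro (h2 | h2)
    · refine ⟨rank γ, Order.lt_succ _, ?_⟩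
      rw [h2]
      exact h.symm
    · rw [← h] at h2
      obtain ⟨β, hβ, rfl⟩ := mem_rk.1 h2
      exact ⟨β, hβ.trans (Order.lt_succ _), rfl⟩

private theorem ZKc_least (P : ZFSet.{0} → Prop) {H : ZFSet.{0}} (htr : ∀ x ∈ H, x ⊆ H)
    (W : ZFSet.{0}) : W ∈ H → P W → ∃ W ∈ H, P W ∧ ∀ W' ∈ W, ¬ P W' := by
  induction W using ZFSet.inductionOn with
  | _ W ih =>
    intro hW hP
    by_cases h : ∃ W' ∈ W, P W'
    · obtain ⟨W', h1, h2⟩ := h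
      exact ih W' h1 (htr W hW h1) h2
    · exact ⟨W, hW, hP, fun W' h1 h2 => h ⟨W', h1, h2⟩⟩

theorem Kc_two {A : ZFSet.{0}} (hA : Kc A) {x y z : ZFSet.{0}} (hx : x ∈ A) (hy : y ∈ A)
    (hz : z ∈ A) : ∃ W ∈ A, Wd W ∧ x ∈ W ∧ y ∈ W ∧ z ∈ W ∧ HCt (cls W) x ∧ HCt (cls W) y ∧
      HCt (cls W) z ∧ W ⊆ A := by
  obtain ⟨W1, h1A, h1, hx1, hc1⟩ := hA.2.2.1 x hx
  obtain ⟨W2, h2A, h2, hy2, hc2⟩ := hA.2.2.1 y hy
  obtain ⟨W3, h3A, h3, hz3, hc3⟩ := hA.2.2.1 z hz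
  have key : ∃ W ∈ A, Wd W ∧ W1 ⊆ W ∧ W2 ⊆ W := by
    rcases ZKc_sub h1 h2 with h | h
    · exact ⟨W2, h2A, h2, h, fun _ h => h⟩
    · exact ⟨W1, h1A, h1, fun _ h => h, h⟩
  obtain ⟨W4, h4A, h4, h14, h24⟩ := key
  have key : ∃ W ∈ A, Wd W ∧ W4 ⊆ W ∧ W3 ⊆ W := by
    rcases ZKc_sub h4 h3 with h | h
    · exact ⟨W3, h3A, h3, h, fun _ h => h⟩
    · exact ⟨W4, h4A, h4, fun _ h => h, h⟩
  obtain ⟨W, hWA, hW, h4W, h3W⟩ := key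
  refine ⟨W, hWA, hW, h4W (h14 hx1), h4W (h24 hy2), h3W hz3, ?_, ?_, ?_, hA.2.1 W hWA⟩
  · exact HCt_mono (fun a ha => h4W (h14 ha)) hc1
  · exact HCt_mono (fun a ha => h4W (h24 ha)) hc2
  · exact HCt_mono (fun a ha => h3W ha) hc3

theorem Kc_uf1 {A : ZFSet.{0}} (hA : Kc A) {F : ZFSet.{0} → ZFSet.{0}}
    (hF : UF (fun _ v => F (v 0))) {x : ZFSet.{0}} (hx : x ∈ A) : F x ∈ A := by
  obtain ⟨W, -, hW, hxW, -, -, -, -, -, hWA⟩ := Kc_two hA hx hx hx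
  exact hWA (Wd_uf hF hW (v := fun _ => x) fun _ => hxW)

theorem Kc_uf2 {A : ZFSet.{0}} (hA : Kc A) {F : ZFSet.{0} → ZFSet.{0} → ZFSet.{0}}
    (hF : UF (fun _ v => F (v 0) (v 1))) {x y : ZFSet.{0}} (hx : x ∈ A) (hy : y ∈ A) :
    F x y ∈ A := by
  obtain ⟨W, -, hW, hxW, hyW, -, -, -, -, hWA⟩ := Kc_two hA hx hy hy
  refine hWA (Wd_uf hF hW (v := fun i => if i = 0 then x else y) fun i => ?_)
  rcases i with _ | i
  · exact hxW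
  · exact hyW

theorem Kc_uf3 {A : ZFSet.{0}} (hA : Kc A) {F : ZFSet.{0} → ZFSet.{0} → ZFSet.{0} → ZFSet.{0}}
    (hF : UF (fun _ v => F (v 0) (v 1) (v 2))) {x y z : ZFSet.{0}} (hx : x ∈ A) (hy : y ∈ A)
    (hz : z ∈ A) : F x y z ∈ A := by
  obtain ⟨W, -, hW, hxW, hyW, hzW, -, -, -, hWA⟩ := Kc_two hA hx hy hz
  refine hWA (Wd_uf hF hW (v := fun i => if i = 0 then x else if i = 1 then y else z) fun i => ?_)
  rcases i with _ | _ | i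
  · exact hxW
  · exact hyW
  · exact hzW

theorem Kc_Nx {A : ZFSet.{0}} (hA : Kc A) {x : ZFSet.{0}} (hx : x ∈ A) : ∃ W ∈ A, Nx x W := by
  obtain ⟨W, hWA, hW, hxW, hc⟩ := hA.2.2.1 x hx
  obtain ⟨V, hVA, ⟨h1, h2, h3⟩, h4⟩ := ZKc_least
    (fun W => Wd W ∧ x ∈ W ∧ HCt (cls W) x) hA.2.1 W hWA ⟨hW, hxW, hc⟩
  exact ⟨V, hVA, h1, h2, h3, h4⟩

theorem Kc_Nx_mem {A : ZFSet.{0}} (hA : Kc A) {x W : ZFSet.{0}} (hx : x ∈ A) (hW : Nx x W) :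
    W ∈ A := by
  obtain ⟨V, hVA, hV⟩ := Kc_Nx hA hx
  rw [Nx_uniq hW hV]
  exact hVA

theorem Kc_H (hG : Gr M K H) : Kc H := by
  refine ⟨(HF_sub_H hG).1 HF_empty, fun x hx y hy => H_tr hG hx hy, fun x hx => exists_W hG hx,
    fun γ hg ho => Ws_exists hG hg ho⟩

theorem Kc_Lo {A : ZFSet.{0}} (hA : Kc A) : A = Lo (rank A) := by
  apply ZFSet.ext
  intro z
  constructor
  · intro hz
    obtain ⟨W, hWA, hW, hzW, -⟩ := hA.2.2.1 z hz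
    rw [Wd_Lo hW] at hzW
    exact Lo_mono (rank_lt_of_mem hWA).le hzW
  · intro hz
    obtain ⟨β, hβ, hz⟩ := mem_Lo.1 hz
    obtain ⟨x, hxA, hx⟩ := lt_rank_iff.1 hβ
    obtain ⟨W, hWA, hW, hxW, -⟩ := hA.2.2.1 x hxA
    have h1 : z ∈ Lo (rank W) := Sx_sub_Lo (hx.trans_lt (rank_lt_of_mem hxW)) hz
    rw [← Wd_Lo hW] at h1
    exact hA.2.1 W hWA h1

theorem Kc_lin {A B : ZFSet.{0}} (hA : Kc A) (hB : Kc B) : A ∈ B ∨ A = B ∨ B ∈ A := by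
  rw [Kc_Lo hA, Kc_Lo hB]
  rcases lt_trichotomy (rank A) (rank B) with h | h | h
  · exact Or.inl (Lo_mem_Lo h)
  · rw [h]
    exact Or.inr (Or.inl rfl)
  · exact Or.inr (Or.inr (Lo_mem_Lo h))

theorem Kc_rk {A γ : ZFSet.{0}} (hA : Kc A) : γ ∈ rk A ↔ γ ∈ A ∧ rk γ = γ := by
  constructor
  · intro h
    refine ⟨?_, rk_of_mem_rk h⟩
    have h1 := rk_of_mem_rk h
    rw [← h1, rk_mem_rk] at h
    obtain ⟨x, hxA, hx⟩ := lt_rank_iff.1 h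
    have h2 : rk x ∈ A := Kc_uf1 hA (F := fun x => rk x) (by infer_instance) hxA
    rcases hx.lt_or_eq with h3 | h3
    · have h4 : rk γ ∈ rk x := rk_mem_rk.2 h3
      rw [h1] at h4
      exact hA.2.1 _ h2 h4
    · rw [← h1, rk_eq_rk.2 h3]
      exact h2
  · rintro ⟨h, h1⟩
    rw [← h1]
    exact rk_mem_rk.2 (rank_lt_of_mem h)

theorem Kc_sc {A γ : ZFSet.{0}} (hA : Kc A) (hg : γ ∈ rk A) : sc γ ∈ rk A := by
  obtain ⟨h1, h2⟩ := (Kc_rk hA).1 hg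
  exact (Kc_rk hA).2 ⟨Kc_uf1 hA (F := fun x => sc x) (by infer_instance) h1, ZKc_sc h2⟩

theorem Kc_HF {A : ZFSet.{0}} (hA : Kc A) : HF ⊆ A ∧ HF ∈ A ∧ omega ∈ A := by
  obtain ⟨W, hWA, hW, -⟩ := hA.2.2.1 ∅ hA.1
  obtain ⟨h1, h2, -⟩ := Wd_omega hW
  have h3 : HF ∈ A := hA.2.1 W hWA h2
  exact ⟨hA.2.1 _ h3, h3, hA.2.1 W hWA h1⟩

theorem Kc_sUnion {C : ZFSet.{0}} (hC : ∀ A ∈ C, Kc A) (hne : C ≠ ∅) : Kc (⋃₀ C : ZFSet) := by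
  have hsub : ∀ A ∈ C, A ⊆ (⋃₀ C : ZFSet) := fun A hA x hx => mem_sUnion.2 ⟨A, hA, hx⟩
  refine ⟨?_, ?_, ?_, ?_⟩
  · obtain ⟨A, hA⟩ : ∃ A, A ∈ C := by
      by_contra h
      exact hne ((eq_empty C).2 fun A hA => h ⟨A, hA⟩)
    exact hsub A hA (hC A hA).1
  · intro x hx y hy
    obtain ⟨A, hA, hxA⟩ := mem_sUnion.1 hx
    exact hsub A hA ((hC A hA).2.1 x hxA hy)
  · intro x hx
    obtain ⟨A, hA, hxA⟩ := mem_sUnion.1 hx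
    obtain ⟨W, hWA, h1⟩ := (hC A hA).2.2.1 x hxA
    exact ⟨W, hsub A hA hWA, h1⟩
  · intro γ hγ ho
    obtain ⟨A, hA, hγA⟩ := mem_sUnion.1 hγ
    obtain ⟨w, hwA, h1⟩ := (hC A hA).2.2.2 γ hγA ho
    exact ⟨w, hsub A hA hwA, h1⟩

end H83.PN
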