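import Pool.Agent.H83.PN.DefsP
import Pool.Agent.H83.PN.ZKc

set_option autoImplicit false

/-!
# Module FPa: the classes `Π_m` over `H`

`PH_zero`: the same `B`. `PH_sub`: by induction on `m`, for all `B` and `F` (`Px H B m (F x)` is in `PH H m`): for `m + 1`,
`∀ y ∈ H, ¬ Px H B m (pair (F x) y)`, and `pair (F x) y = G (pair x y)` with `G w = pair (F (fst w)) (snd w)`. `PH_alln`: the same `B`.
`PH_not`: `PH_sub` with `F = fst`, a dummy quantifier (`∅ ∈ H`). `PH_succ` by induction on `m`, for all `R`: `m = 0`: `R x ↔ ∀ y ∈ H, ¬ ¬ B (fst (pair x y))`;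
`m + 1`: `R x ↔ ∀ y ∈ H, ¬ Q (pair x y)` with `Q` in `PH H m`, hence in `PH H (m+1)`, `PH_alln`. `PH_and`, `PH_or` together by
induction on `m`: for `m + 1`, `R x ↔ ∀ y ∈ H, ¬ Q (pair x y)`, `R' x ↔ ∀ y ∈ H, ¬ Q' (pair x y)`: `R ∧ R'` is `∀ y, ¬ (Q ∨ Q')`; `R ∨ R'` is
`∀ y ∈ H, ¬ (Q (pair x (fst y)) ∧ Q' (pair x (snd y)))` (`H_pair`; `PH_sub`). `PH_all`: contract the two quantifiers:
`R w ↔ ∀ z ∈ H, ¬ Q (pair w z)`; `∀ y ∈ H, R (pair x y) ↔ ∀ w ∈ H, ¬ Q (pair (pair x (fst w)) (snd w))`. `PH_D1`: every `x ∈ H` is in some `A ∈ H` with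
`Kc A` (`hun`); `R H x ↔ ∀ A ∈ H, ¬ (Kc A ∧ x ∈ A ∧ ¬ R A x)`, a statement `∀ A ∈ H, ¬ B (pair x A)`.
-/

namespace H83.PN

open ZFSet H83.AC

variable {M : Set ZFSet.{0}} {K H : ZFSet.{0}}

private theorem FPa_in (hG : Gr M K H) {F : ZFSet.{0} → ZFSet.{0}} (hF : UF (fun _ v => F (v 0)))
    {x : ZFSet.{0}} (hx : x ∈ H) : F x ∈ H := by
  obtain ⟨W, hW, hWd, hxW, -⟩ := exists_W hG hx
  have h1 : F x ∈ cls W := hF.mem (cls W) hWd.1 (fun _ => x) (fun _ => hxW)
  exact H_tr hG hW h1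

private theorem FPa_fst (hG : Gr M K H) {x : ZFSet.{0}} (hx : x ∈ H) : fst x ∈ H :=
  FPa_in hG (F := fst) (by infer_instance) hx

private theorem FPa_snd (hG : Gr M K H) {x : ZFSet.{0}} (hx : x ∈ H) : snd x ∈ H :=
  FPa_in hG (F := snd) (by infer_instance) hx

private theorem FPa_em (hG : Gr M K H) : (∅ : ZFSet.{0}) ∈ H := by
  have h1 := HF_sub_H hG
  exact FPa_in hG (F := fun _ => ∅) (by infer_instance) h1.2.2

private theorem FPa_urF {B : ZFSet.{0} → Prop} {F : ZFSet.{0} → ZFSet.{0}}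
    (h : UR (fun _ v => B (v 0))) (hF : UF (fun _ v => F (v 0))) :
    UR (fun _ v => B (F (v 0))) :=
  UR.comp1 (R := fun _ x => B x) h hF

private theorem FPa_sub (hG : Gr M K H) (m : ℕ) : ∀ (B : ZFSet.{0} → Prop)
    (F : ZFSet.{0} → ZFSet.{0}), UR (fun _ v => B (v 0)) → UF (fun _ v => F (v 0)) →
    ∃ B' : ZFSet.{0} → Prop, UR (fun _ v => B' (v 0)) ∧ ∀ x ∈ H, (Px H B m (F x) ↔ Px H B' m x) := by
  induction m with
  | zero =>
    intro B F hB hF
    exact ⟨fun x => B (F x), FPa_urF hB hF, fun x _ => Iff.rfl⟩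
  | succ m ih =>
    intro B F hB hF
    have hG1 : UF (fun _ v => pair (F (fst (v 0))) (snd (v 0))) := by
      haveI : UF (fun _ v => F (fst (v 0))) :=
        UF.comp1 (F := fun _ x => F x) hF (f := fun _ v => fst (v 0)) (by infer_instance)
      infer_instance
    obtain ⟨B', hB', h⟩ := ih B (fun w => pair (F (fst w)) (snd w)) hB hG1
    refine ⟨B', hB', fun x hx => ?_⟩
    refine forall₂_congr fun y hy => not_congr ?_
    have h1 := h (pair x y) (H_pair hG hx hy)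
    simpa only [fst_pair, snd_pair] using h1

theorem PH_congr {m : ℕ} {R R' : ZFSet.{0} → Prop} (e : ∀ x ∈ H, (R' x ↔ R x)) (h : PH H m R) :
    PH H m R' := by
  obtain ⟨B, hB, h⟩ := h
  exact ⟨B, hB, fun x hx => (e x hx).trans (h x hx)⟩

theorem PH_zero {B : ZFSet.{0} → Prop} (h : UR (fun _ v => B (v 0))) : PH H 0 B :=
  ⟨B, h, fun _ _ => Iff.rfl⟩

theorem PH_alln {m : ℕ} {R : ZFSet.{0} → Prop} (hG : Gr M K H) (h : PH H m R) :
    PH H (m + 1) (fun x => ∀ y ∈ H, ¬ R (pair x y)) := by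
  obtain ⟨B, hB, h⟩ := h
  refine ⟨B, hB, fun x hx => ?_⟩
  exact forall₂_congr fun y hy => not_congr (h (pair x y) (H_pair hG hx hy))

theorem PH_sub (hG : Gr M K H) {m : ℕ} {R : ZFSet.{0} → Prop} {F : ZFSet.{0} → ZFSet.{0}}
    (hF : UF (fun _ v => F (v 0))) (h : PH H m R) : PH H m (fun x => R (F x)) := by
  obtain ⟨B, hB, h⟩ := h
  obtain ⟨B', hB', h'⟩ := FPa_sub hG m B F hB hF
  exact ⟨B', hB', fun x hx => (h (F x) (FPa_in hG hF hx)).trans (h' x hx)⟩

theorem PH_not (hG : Gr M K H) {m : ℕ} {R : ZFSet.{0} → Prop} (h : PH H m R) :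
    PH H (m + 1) (fun x => ¬ R x) := by
  refine PH_congr ?_ (PH_alln hG (PH_sub hG (F := fst) (by infer_instance) h))
  intro x _
  simp only [fst_pair]
  exact ⟨fun h1 _ _ => h1, fun h1 => h1 ∅ (FPa_em hG)⟩

theorem PH_succ (hG : Gr M K H) {m : ℕ} {R : ZFSet.{0} → Prop} (h : PH H m R) :
    PH H (m + 1) R := by
  induction m generalizing R with
  | zero =>
    obtain ⟨B, hB, h⟩ := h
    have hB' : UR (fun _ v => ¬ B (fst (v 0))) :=
      (FPa_urF (F := fst) hB (by infer_instance)).not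
    refine ⟨fun w => ¬ B (fst w), hB', fun x hx => (h x hx).trans ?_⟩
    change B x ↔ ∀ y ∈ H, ¬ ¬ B (fst (pair x y))
    simp only [fst_pair, not_not]
    exact ⟨fun h1 _ _ => h1, fun h1 => h1 ∅ (FPa_em hG)⟩
  | succ m ih =>
    obtain ⟨B, hB, h⟩ := h
    have h1 : PH H m (fun w => Px H B m w) := ⟨B, hB, fun _ _ => Iff.rfl⟩
    exact PH_congr h (PH_alln hG (ih h1))

theorem PH_le (hG : Gr M K H) {m m' : ℕ} (hm : m ≤ m') {R : ZFSet.{0} → Prop} (h : PH H m R) :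
    PH H m' R := by
  induction hm with
  | refl => exact h
  | step _ ih => exact PH_succ hG ih

theorem PH_abs (hG : Gr M K H) (m : ℕ) {B : ZFSet.{0} → Prop} (h : UR (fun _ v => B (v 0))) :
    PH H m B := PH_le hG (Nat.zero_le m) (PH_zero h)

private theorem FPa_ao (hG : Gr M K H) (m : ℕ) : ∀ R R' : ZFSet.{0} → Prop, PH H m R →
    PH H m R' → PH H m (fun x => R x ∧ R' x) ∧ PH H m (fun x => R x ∨ R' x) := by
  induction m with
  | zero =>
    intro R R' h h'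
    obtain ⟨B, hB, h⟩ := h
    obtain ⟨B', hB', h'⟩ := h'
    exact ⟨⟨fun x => B x ∧ B' x, hB.and hB', fun x hx => and_congr (h x hx) (h' x hx)⟩,
      ⟨fun x => B x ∨ B' x, hB.or hB', fun x hx => or_congr (h x hx) (h' x hx)⟩⟩
  | succ m ih =>
    intro R R' h h'
    obtain ⟨B, hB, h⟩ := h
    obtain ⟨B', hB', h'⟩ := h'
    have q : PH H m (fun w => Px H B m w) := ⟨B, hB, fun _ _ => Iff.rfl⟩
    have q' : PH H m (fun w => Px H B' m w) := ⟨B', hB', fun _ _ => Iff.rfl⟩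
    refine ⟨PH_congr ?_ (PH_alln hG (ih _ _ q q').2), ?_⟩
    · intro x hx
      rw [h x hx, h' x hx]
      change (∀ y ∈ H, ¬ Px H B m (pair x y)) ∧ (∀ y ∈ H, ¬ Px H B' m (pair x y)) ↔ _
      constructor
      · rintro ⟨h1, h2⟩ y hy h3
        exact h3.elim (h1 y hy) (h2 y hy)
      · intro h1
        exact ⟨fun y hy h2 => h1 y hy (Or.inl h2), fun y hy h2 => h1 y hy (Or.inr h2)⟩
    · have r := PH_sub hG (F := fun w => pair (fst w) (fst (snd w))) (by infer_instance) q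
      have r' := PH_sub hG (F := fun w => pair (fst w) (snd (snd w))) (by infer_instance) q'
      refine PH_congr ?_ (PH_alln hG (ih _ _ r r').1)
      intro x hx
      rw [h x hx, h' x hx]
      change (∀ y ∈ H, ¬ Px H B m (pair x y)) ∨ (∀ y ∈ H, ¬ Px H B' m (pair x y)) ↔ _
      simp only [fst_pair, snd_pair]
      constructor
      · rintro (h1 | h1) y hy ⟨h2, h3⟩
        · exact h1 _ (FPa_fst hG hy) h2
        · exact h1 _ (FPa_snd hG hy) h3
      · intro h1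
        by_contra hc
        push Not at hc
        obtain ⟨⟨y1, hy1, h2⟩, y2, hy2, h3⟩ := hc
        refine h1 (pair y1 y2) (H_pair hG hy1 hy2) ?_
        simp only [fst_pair, snd_pair]
        exact ⟨h2, h3⟩

theorem PH_and (hG : Gr M K H) {m : ℕ} {R R' : ZFSet.{0} → Prop} (h : PH H m R)
    (h' : PH H m R') : PH H m (fun x => R x ∧ R' x) := (FPa_ao hG m R R' h h').1

theorem PH_or (hG : Gr M K H) {m : ℕ} {R R' : ZFSet.{0} → Prop} (h : PH H m R)
    (h' : PH H m R') : PH H m (fun x => R x ∨ R' x) := (FPa_ao hG m R R' h h').2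

theorem PH_all (hG : Gr M K H) {m : ℕ} {R : ZFSet.{0} → Prop} (h : PH H (m + 1) R) :
    PH H (m + 1) (fun x => ∀ y ∈ H, R (pair x y)) := by
  obtain ⟨B, hB, h⟩ := h
  have q : PH H m (fun w => Px H B m w) := ⟨B, hB, fun _ _ => Iff.rfl⟩
  have r := PH_sub hG (F := fun u => pair (pair (fst u) (fst (snd u))) (snd (snd u)))
    (by infer_instance) q
  refine PH_congr ?_ (PH_alln hG r)
  intro x hx
  simp only [fst_pair, snd_pair]
  constructor
  · intro h1 w hw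
    exact (h _ (H_pair hG hx (FPa_fst hG hw))).1 (h1 _ (FPa_fst hG hw)) _ (FPa_snd hG hw)
  · intro h1 y hy
    refine (h _ (H_pair hG hx hy)).2 fun z hz => ?_
    have h2 := h1 (pair y z) (H_pair hG hy hz)
    simpa only [fst_pair, snd_pair] using h2

/-- relations which are absolute between `H` and the sets `A` with `Kc A` -/
theorem PH_D1 (hG : Gr M K H) {R : ZFSet.{0} → ZFSet.{0} → Prop}
    (hR : UR (fun _ v => R (v 0) (v 1)))
    (hun : ∀ x ∈ H, ∃ A ∈ H, Kc A ∧ x ∈ A)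
    (h : ∀ A ∈ H, ∀ x ∈ A, Kc A → (R A x ↔ R H x)) :
    PH H 1 (fun x => R H x) ∧ PH H 1 (fun x => ¬ R H x) := by
  have hR' : UR (fun _ v => R (snd (v 0)) (fst (v 0))) :=
    UR.comp2 (R := fun _ x y => R x y) hR (by infer_instance) (by infer_instance)
  constructor
  · have h1 : UR (fun _ v => Kc (snd (v 0)) ∧ fst (v 0) ∈ snd (v 0) ∧
        ¬ R (snd (v 0)) (fst (v 0))) := by
      haveI := hR'
      infer_instance
    refine PH_congr ?_ (PH_alln hG (PH_zero (B := fun w => Kc (snd w) ∧ fst w ∈ snd w ∧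
      ¬ R (snd w) (fst w)) h1))
    intro x hx
    simp only [fst_pair, snd_pair]
    constructor
    · rintro h2 A hA ⟨h3, h4, h5⟩
      exact h5 ((h A hA x h4 h3).2 h2)
    · intro h2
      obtain ⟨A, hA, h3, h4⟩ := hun x hx
      by_contra h5
      exact h2 A hA ⟨h3, h4, fun h6 => h5 ((h A hA x h4 h3).1 h6)⟩
  · have h1 : UR (fun _ v => Kc (snd (v 0)) ∧ fst (v 0) ∈ snd (v 0) ∧
        R (snd (v 0)) (fst (v 0))) := by
      haveI := hR'
      infer_instance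
    refine PH_congr ?_ (PH_alln hG (PH_zero (B := fun w => Kc (snd w) ∧ fst w ∈ snd w ∧
      R (snd w) (fst w)) h1))
    intro x hx
    simp only [fst_pair, snd_pair]
    constructor
    · rintro h2 A hA ⟨h3, h4, h5⟩
      exact h2 ((h A hA x h4 h3).1 h5)
    · intro h2 h5
      obtain ⟨A, hA, h3, h4⟩ := hun x hx
      exact h2 A hA ⟨h3, h4, (h A hA x h4 h3).2 h5⟩

end H83.PN
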