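import Pool.Agent.H83.PN.ZCl
import Pool.Agent.H83.PN.LSd

set_option autoImplicit false

/-!
# Module ZUn: `Z` is unbounded

`X = hzX K (wh K) b ∈ M` with `b = pair H x` (`b ∈ K` because `H ∈ K`; `x ∈ H ⊆ K`), elementary in `K` (`hz_elem`), countable in `M`.
`X_ex`: if `R` is uniformly definable, `v` has values in `X`, and some `y ∈ K` has `R (cls K) y v`, then some `y ∈ X` has
this (take the formula for `∃ y, R y v`; `K` and `X` satisfy the same formulas; `UD.out` for `cls K`; in `X` the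
truth of the existential formula gives `y ∈ X` with `SatIn (cls X) ..`, hence `SatIn (cls K) ..`). Definable functions map `X`
to `X`. `A = X ∩ H ∈ M`; it is countable, so `A ∈ H` (`H_ctb`). `H ∈ X`, `x ∈ X`. `A` is transitive: for `y ∈ A` some `g ∈ H` enumerates
`y` (cut the enumeration of `M` down to a function into `insert ∅ y`), so some `g ∈ X ∩ H`, and `app g (nz i) ∈ X`.
`Kc A`: the statements `∃ W ∈ H, Wd W ∧ x ∈ W ∧ HCt (cls W) x` and `∃ w ∈ H, Ws w ∧ dom w = γ` are uniformly definable relations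
without class variable; `X_ex`. `ZZ_of`: the statement `Ext H j u r T z` with its witnesses is uniformly definable
(`Inst.FF` etc.), so there are witnesses in `X`.
-/

namespace H83.PN

open ZFSet H83.AC

variable {M : Set ZFSet.{0}} {K H : ZFSet.{0}}

private theorem ZUn_sat {K : Set ZFSet.{0}} (φ : Fml) {v : ℕ → ZFSet.{0}} (hv : ∀ i, v i ∈ K) :
    Sat (memN K) φ (fun i => (⟨v i, hv i⟩ : K)) ↔ SatIn K φ v := sat_iff K φ _

private theorem ZUn_ex {X K : ZFSet.{0}} (hK : TM (cls K)) (hXK : X ⊆ K)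
    (hel : ∀ (φ : Fml) (v : ℕ → ZFSet.{0}), (∀ i, v i ∈ X) →
      (SatIn (cls X) φ v ↔ SatIn (cls K) φ v))
    {R : Set ZFSet.{0} → (ℕ → ZFSet.{0}) → Prop} (hR : UR R) {v : ℕ → ZFSet.{0}}
    (hv : ∀ i, v i ∈ X) (h : ∃ y ∈ K, R (cls K) (cons y v)) :
    ∃ y ∈ X, R (cls K) (cons y v) := by
  obtain ⟨⟨φ, hφ⟩⟩ := hR
  have hvK : ∀ i, v i ∈ cls K := fun i => hXK (hv i)
  have key : ∀ z ∈ cls K, (R (cls K) (cons z v) ↔ SatIn (cls K) φ (cons z v)) := by
    intro z hz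
    have hc : ∀ i, cons z v i ∈ cls K := by
      intro i
      cases i with
      | zero => exact hz
      | succ i => exact hvK i
    have h1 := hφ (cls K) hK (fun i => ⟨cons z v i, hc i⟩)
    have h2 := ZUn_sat (K := cls K) φ hc
    exact h1.trans h2
  obtain ⟨y, hy, hRy⟩ := h
  by_contra hcon
  have h1 : SatIn (cls X) (.all (.imp φ .bot)) v := by
    intro z hz hzφ
    have hc : ∀ i, cons z v i ∈ X := by
      intro i
      cases i with
      | zero => exact hz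
      | succ i => exact hv i
    have h3 : SatIn (cls K) φ (cons z v) := (hel φ _ hc).1 hzφ
    exact hcon ⟨z, hz, (key z (hXK hz)).2 h3⟩
  have h2 := (hel _ v hv).1 h1
  exact h2 y hy ((key y hy).1 hRy)

private theorem ZUn_cl2 {X K : ZFSet.{0}} (hK : TM (cls K)) (hXK : X ⊆ K)
    (hel : ∀ (φ : Fml) (v : ℕ → ZFSet.{0}), (∀ i, v i ∈ X) →
      (SatIn (cls X) φ v ↔ SatIn (cls K) φ v))
    {G : ZFSet.{0} → ZFSet.{0} → ZFSet.{0}} (h : UF (fun _ v => G (v 0) (v 1)))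
    {a b : ZFSet.{0}} (ha : a ∈ X) (hb : b ∈ X) : G a b ∈ X := by
  have hv : ∀ i, (cons a (fun _ => b)) i ∈ X := by
    intro i
    rcases i with _ | i
    · exact ha
    · exact hb
  have hmem : G a b ∈ cls K := h.mem (cls K) hK (cons a (fun _ => b)) (fun i => hXK (hv i))
  obtain ⟨y, hy, he⟩ := ZUn_ex hK hXK hel h.rel hv ⟨G a b, hmem, rfl⟩
  have he' : y = G a b := he
  rw [← he']
  exact hy

private theorem ZUn_m2 {M : Set ZFSet.{0}} (hM : TM M) {G : ZFSet.{0} → ZFSet.{0} → ZFSet.{0}}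
    (h : UF (fun _ v => G (v 0) (v 1))) {a b : ZFSet.{0}} (ha : a ∈ M) (hb : b ∈ M) :
    G a b ∈ M := by
  have hv : ∀ i, (cons a (fun _ => b)) i ∈ M := by
    intro i
    rcases i with _ | i
    · exact ha
    · exact hb
  exact h.mem M hM _ hv

private theorem ZUn_c2 {M : Set ZFSet.{0}} (hM : TM M)
    {F : ZFSet.{0} → ZFSet.{0} → ZFSet.{0} → ZFSet.{0}}
    (hF : UF (fun _ v => F (v 1) (v 2) (v 0))) {p q : ZFSet.{0}} (hp : p ∈ M) (hq : q ∈ M)
    {a : ZFSet.{0}} (ha : a ∈ M) (hc : Ctb M a) : Ctb M (img (fun x => F p q x) a) := by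
  have hv : ∀ i, (cons p (fun _ => q)) i ∈ M := by
    intro i
    rcases i with _ | i
    · exact hp
    · exact hq
  exact Ctb_img (N := M) hM (F := fun _ x v => F (v 0) (v 1) x) hF hv
    (fun y hy => hM.tr _ ha y hy) hc

/-- elements of `H` have an enumeration in `H` -/
private theorem ZUn_enum (hG : Gr M K H) {y : ZFSet.{0}} (hy : y ∈ H) :
    ∃ g ∈ H, ∀ z ∈ y, ∃ m ∈ ZFSet.omega, app g m = z := by
  classical
  have hM := hG.tm
  obtain ⟨g, hgM, hg⟩ := H_ct hG hy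
  have hyM := H_sub_M hG hy
  obtain ⟨hHF1, hHF2, hHF3⟩ := HF_sub_H hG
  have homM : ZFSet.omega ∈ M := TM.omega hM
  set e : ZFSet.{0} := fgr (fun n => if app g n ∈ y then app g n else ∅) ZFSet.omega with he
  have heM : e ∈ M := ZUn_m2 (G := fun g t =>
    fgr (fun n => if app g n ∈ t then app g n else ∅) ZFSet.omega) hM (by infer_instance) hgM hyM
  have hec : Ctb M e := ZUn_c2 (F := fun g t n => pair n (if app g n ∈ t then app g n else ∅))
    hM (by infer_instance) hgM hyM homM (Ctb_omega hM)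
  have heH : e ∈ H := by
    refine H_ctb hG heM hec ?_
    intro t ht
    obtain ⟨n, hn, h⟩ := mem_fgr.1 ht
    rw [← h]
    refine H_pair hG (hHF1 (omega_sub_HF hn)) ?_
    split_ifs with h
    · exact H_tr hG hy h
    · exact hHF1 HF_empty
  refine ⟨e, heH, fun z hz => ?_⟩
  obtain ⟨n, hn, hnz⟩ := hg z hz
  refine ⟨n, hn, ?_⟩
  rw [he, app_fgr hn, hnz, if_pos hz]

theorem ZZ_unb (hG : Gr M K H) (n : ℕ) {x : ZFSet.{0}} (hx : x ∈ H) :
    ∃ A ∈ H, ZZ H n A ∧ x ∈ A := by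
  classical
  have hM := hG.tm
  have hKc : Kc H := Kc_H hG
  have hKt : TM (cls K) := hG.Kw.1
  have hHM : H ∈ M := H_M hG
  have hHK : H ⊆ K := fun y hy => hKt.tr H hG.HK y hy
  obtain ⟨hHF1, hHF2, hHF3⟩ := HF_sub_H hG
  have hbK : pair H x ∈ K :=
    ZUn_m2 (M := cls K) (G := fun a b => pair a b) hKt (by infer_instance) hG.HK (hHK hx)
  have hbM : pair H x ∈ M := hM.tr K hG.KM _ hbK
  obtain ⟨hK1, hK2, hK3⟩ := Wd_omega hG.Kw
  have hHFK : HF ⊆ K := Wd_tr hG.Kw hK2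
  have hKtr : IsTr (cls K) := hKt.tr
  have hwo : IsWO (wh K) K := Wd_wh hG.Kw
  set X : ZFSet.{0} := hzX K (wh K) (pair H x) with hX
  have hXM : X ∈ M := ZUn_m2 (G := fun K b => hzX K (wh K) b) hM (by infer_instance) hG.KM hbM
  have hXK : X ⊆ K := hzX_sub hHFK hbK hwo
  obtain ⟨hXHF, hbX⟩ := hzX_base (A := K) (w := wh K) (b := pair H x)
  have hel : ∀ (φ : Fml) (v : ℕ → ZFSet.{0}), (∀ i, v i ∈ X) →
      (SatIn (cls X) φ v ↔ SatIn (cls K) φ v) := fun φ v hv => hz_elem hHFK hKtr hbK hwo φ v hv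
  have hHFM : HF ∈ M := UF.HF.mem M hM (fun _ => H) (fun _ => hHM)
  have hXc : Ctb M X := ZUn_c2 (F := fun K b t => hz K (wh K) b t) hM
    (UF.hz (UF.var 1) (UF.wh (UF.var 1)) (UF.var 2) (UF.var 0)) hG.KM hbM hHFM
    (Ctb_HF hM)
  have hcl : ∀ {G : ZFSet.{0} → ZFSet.{0} → ZFSet.{0}} (_ : UF (fun _ v => G (v 0) (v 1)))
      {a b : ZFSet.{0}} (_ : a ∈ X) (_ : b ∈ X), G a b ∈ X :=
    fun h _ _ ha hb => ZUn_cl2 hKt hXK hel h ha hb
  have hHX : H ∈ X := by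
    have h1 := hcl (G := fun a _ => fst a) (by infer_instance) hbX hbX
    simpa using h1
  have hxX : x ∈ X := by
    have h1 := hcl (G := fun a _ => snd a) (by infer_instance) hbX hbX
    simpa using h1
  set A : ZFSet.{0} := ZFSet.sep (fun y => y ∈ H) X with hA
  have hmem : ∀ {y : ZFSet.{0}}, y ∈ A ↔ y ∈ X ∧ y ∈ H := fun {y} => ZFSet.mem_sep
  have hAM : A ∈ M :=
    ZUn_m2 (G := fun X H => ZFSet.sep (fun y => y ∈ H) X) hM (by infer_instance) hXM hHM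
  have hAc : Ctb M A := Ctb_sub hXc (fun y hy => (hmem.1 hy).1)
  have hAH : A ∈ H := H_ctb hG hAM hAc (fun y hy => (hmem.1 hy).2)
  have hAs : A ⊆ H := fun y hy => (hmem.1 hy).2
  -- existence in `X`
  have hex : ∀ {R : ZFSet.{0} → ZFSet.{0} → ZFSet.{0} → Prop}
      (_ : UR (fun _ v => R (v 0) (v 1) (v 2))) {y : ZFSet.{0}}, y ∈ A →
      (∃ t ∈ H, R t H y) → ∃ t ∈ A, R t H y := by
    intro R hR y hy ⟨t, ht, hRt⟩
    have hv : ∀ i, (cons H (fun _ => y)) i ∈ X := by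
      intro i
      rcases i with _ | i
      · exact hHX
      · exact (hmem.1 hy).1
    have hR' : UR (fun _ v => v 0 ∈ v 1 ∧ R (v 0) (v 1) (v 2)) := (UD.mem 0 1).and hR
    obtain ⟨s, hs, hs1, hs2⟩ := ZUn_ex hKt hXK hel hR' hv ⟨t, hHK ht, ht, hRt⟩
    exact ⟨s, hmem.2 ⟨hs, hs1⟩, hs2⟩
  have hAtr : ∀ y ∈ A, y ⊆ A := by
    intro y hy z hz
    obtain ⟨hyX, hyH⟩ := hmem.1 hy
    obtain ⟨g, hgA, hg⟩ := hex
      (R := fun g _ y => ∀ z ∈ y, ∃ m ∈ ZFSet.omega, app g m = z) (by infer_instance) hy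
      (ZUn_enum hG hyH)
    obtain ⟨m, hm, hmz⟩ := hg z hz
    have h1 := hcl (G := fun a b => app a b) (by infer_instance) (hmem.1 hgA).1
      (hXHF (omega_sub_HF hm))
    refine hmem.2 ⟨?_, H_tr hG hyH hz⟩
    rw [← hmz]
    exact h1
  have hKA : Kc A := by
    refine ⟨hmem.2 ⟨hXHF HF_empty, hHF1 HF_empty⟩, hAtr, ?_, ?_⟩
    · intro y hy
      exact hex (R := fun W _ y => Wd W ∧ y ∈ W ∧ HCt (cls W) y) (by infer_instance) hy
        (exists_W hG (hmem.1 hy).2)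
    · intro γ hγ hrk
      exact hex (R := fun w _ γ => Ws w ∧ dom w = γ) (by infer_instance) hγ
        (hKc.2.2.2 γ (hmem.1 hγ).2 hrk)
  refine ⟨A, hAH, ZZ_of hKc hKA hAs ?_, hmem.2 ⟨hxX, hx⟩⟩
  intro j hj u hu r hr T hT z hz hE
  -- tuples of parameters
  have hE' : ∃ t ∈ K, (fst t ∈ H ∧ UU H (fst t) ∧ u ⊆ fst t ∧ fst (snd t) ∈ H ∧
      snd (snd t) ∈ H ∧ rU (fst (snd t)) = fst t ∧ RLe (fst (snd t)) r ∧
      RNK H (fst (snd t)) (snd (snd t)) ∧ FF H j (fst (snd t)) T (jnN (snd (snd t)) z)) := by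
    obtain ⟨u', hu', hU, huu, r', hr', y, hy, h1, h2, h3, h4⟩ := hE
    refine ⟨pair u' (pair r' y), hHK (H_pair hG hu' (H_pair hG hr' hy)), ?_⟩
    simp only [fst_pair, snd_pair]
    exact ⟨hu', hU, huu, hr', hy, h1, h2, h3, h4⟩
  have hv : ∀ i, (cons H (cons u (cons r (cons T (fun _ => z))))) i ∈ X := by
    intro i
    rcases i with _ | _ | _ | _ | i
    · exact hHX
    · exact (hmem.1 hu).1
    · exact (hmem.1 hr).1
    · exact (hmem.1 hT).1
    · exact (hmem.1 hz).1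
  have hR : UR (fun _ v => fst (v 0) ∈ v 1 ∧ UU (v 1) (fst (v 0)) ∧ v 2 ⊆ fst (v 0) ∧
      fst (snd (v 0)) ∈ v 1 ∧ snd (snd (v 0)) ∈ v 1 ∧ rU (fst (snd (v 0))) = fst (v 0) ∧
      RLe (fst (snd (v 0))) (v 3) ∧ RNK (v 1) (fst (snd (v 0))) (snd (snd (v 0))) ∧
      FF (v 1) j (fst (snd (v 0))) (v 4) (jnN (snd (snd (v 0))) (v 5))) := by
    infer_instance
  obtain ⟨t, htX, h1, h2, h3, h4, h5, h6, h7, h8, h9⟩ := ZUn_ex hKt hXK hel hR hv hE'
  have hf : ∀ {s : ZFSet.{0}}, s ∈ X → fst s ∈ X ∧ snd s ∈ X := by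
    intro s hs
    exact ⟨hcl (G := fun a _ => fst a) (by infer_instance) hs hs,
      hcl (G := fun a _ => snd a) (by infer_instance) hs hs⟩
  exact ⟨fst t, hmem.2 ⟨(hf htX).1, h1⟩, h2, h3, fst (snd t), hmem.2 ⟨(hf (hf htX).2).1, h4⟩,
    snd (snd t), hmem.2 ⟨(hf (hf htX).2).2, h5⟩, h6, h7, h8, h9⟩

end H83.PN
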