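import Pool.Agent.H83.PN.FPa
import Pool.Agent.H83.PN.ZUn

set_option autoImplicit false

/-!
# Module FPc: the complexity of `FF` and `ZZ`

`hun` in `PH_D1`: `ZZ_unb hG 0`. `PH_FB`, `PH_Nm2`, `PH_RNK`, `PH_UU`: `PH_D1` with `FB_abs`, `Nm2_abs`, `RNK_abs`, `UU_abs` (`Kc_H`, `A ∈ H` implies `A ⊆ H`: `H_tr`;
the components of `x ∈ A` are in `A`: `Kc_uf1`). `PH_nFF` by induction on `j`: `j = 0`: `FF H 0 = FB H`, `PH_D1`. `j + 1`: `FF H (j+1) r T z ↔ Nm2 H r T z ∧ ∀ r' ∈ H, ∀ y ∈ H,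
(¬ RLe r' r ∨ (¬ RNK H r' y ∨ ¬ FF H j r' T (jnN y z)))` is in `PH H (j+1)` (this is `PH_FF`), by `PH_all` twice, `PH_or`, `PH_abs` for `RLe`, `PH_sub`; then `PH_not`.
`PH_nDj`: `¬ Dj H j u r T z ↔ ∀ r' ∈ H, ∀ y ∈ H, ..`, `PH_nFF`. `PH_nExt`: the same with `UU`. `PH_ZZ`: `Kc A` and for all `j ≤ n`, `u, r, T, z ∈ H`:
`¬ (all four in A) ∨ ¬ Ext H j .. ∨ Ext A j ..` (finite conjunction over `j ≤ n` by induction on `n`; `PH_and`, `PH_le`). Use `PH_congr` for the rewriting (e.g. `fst (pair a b) = a`).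
-/

namespace H83.PN

open ZFSet H83.AC

variable {M : Set ZFSet.{0}} {K H : ZFSet.{0}}

private theorem FPc_un (hG : Gr M K H) : ∀ x ∈ H, ∃ A ∈ H, Kc A ∧ x ∈ A := by
  intro x hx
  obtain ⟨A, hA, hZ, h⟩ := ZZ_unb hG 0 hx
  exact ⟨A, hA, hZ.1, h⟩

private theorem FPc_s {A x : ZFSet.{0}} (hA : Kc A) (hx : x ∈ A) : fst x ∈ A ∧ snd x ∈ A :=
  ⟨Kc_uf1 hA (F := fun x => fst x) (by infer_instance) hx,
    Kc_uf1 hA (F := fun x => snd x) (by infer_instance) hx⟩

theorem PH_FB (hG : Gr M K H) :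
    PH H 1 (fun x => FB H (fst x) (fst (snd x)) (snd (snd x))) ∧
    PH H 1 (fun x => ¬ FB H (fst x) (fst (snd x)) (snd (snd x))) :=
  PH_D1 hG (R := fun A x => FB A (fst x) (fst (snd x)) (snd (snd x))) (by infer_instance)
    (FPc_un hG) fun A hA x hx hK =>
      FB_abs hK (fun _ hy => H_tr hG hA hy) (Kc_H hG) (FPc_s hK hx).1

theorem PH_Nm2 (hG : Gr M K H) :
    PH H 1 (fun x => Nm2 H (fst x) (fst (snd x)) (snd (snd x))) ∧
    PH H 1 (fun x => ¬ Nm2 H (fst x) (fst (snd x)) (snd (snd x))) :=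
  PH_D1 hG (R := fun A x => Nm2 A (fst x) (fst (snd x)) (snd (snd x))) (by infer_instance)
    (FPc_un hG) fun A hA x hx hK =>
      Nm2_abs hK (fun _ hy => H_tr hG hA hy) (Kc_H hG) (FPc_s hK hx).1

theorem PH_RNK (hG : Gr M K H) :
    PH H 1 (fun x => RNK H (fst x) (snd x)) ∧ PH H 1 (fun x => ¬ RNK H (fst x) (snd x)) :=
  PH_D1 hG (R := fun A x => RNK A (fst x) (snd x)) (by infer_instance)
    (FPc_un hG) fun A hA x hx hK =>
      RNK_abs hK (fun _ hy => H_tr hG hA hy) (Kc_H hG) (FPc_s hK hx).1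

theorem PH_UU (hG : Gr M K H) :
    PH H 1 (fun x => UU H x) ∧ PH H 1 (fun x => ¬ UU H x) :=
  PH_D1 hG (R := fun A x => UU A x) (by infer_instance)
    (FPc_un hG) fun A hA x hx hK =>
      UU_abs hK (fun _ hy => H_tr hG hA hy) (Kc_H hG) hx

/-- the matrix of the recursion step -/
private theorem FPc_mat (hG : Gr M K H) (j : ℕ)
    (ih : PH H (j + 1) (fun x => ¬ FF H j (fst x) (fst (snd x)) (snd (snd x))))
    {B : ZFSet.{0} → Prop} (hB : UR (fun _ v => B (v 0)))
    {r' y T z : ZFSet.{0} → ZFSet.{0}} (h1 : UF (fun _ v => r' (v 0)))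
    (h2 : UF (fun _ v => y (v 0))) (h3 : UF (fun _ v => T (v 0))) (h4 : UF (fun _ v => z (v 0))) :
    PH H (j + 1) (fun w => B w ∨ (¬ RNK H (r' w) (y w) ∨
      ¬ FF H j (r' w) (T w) (jnN (y w) (z w)))) := by
  refine PH_or hG (PH_abs hG _ hB) (PH_or hG ?_ ?_)
  · have h := PH_sub hG (F := fun w => pair (r' w) (y w)) (by infer_instance)
      (PH_le hG (by omega : 1 ≤ j + 1) (PH_RNK hG).2)
    simp only [fst_pair, snd_pair] at h
    exact h
  · have h := PH_sub hG (F := fun w => pair (r' w) (pair (T w) (jnN (y w) (z w))))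
      (by infer_instance) ih
    simp only [fst_pair, snd_pair] at h
    exact h

private theorem FPc_FF (hG : Gr M K H) (j : ℕ)
    (ih : PH H (j + 1) (fun x => ¬ FF H j (fst x) (fst (snd x)) (snd (snd x)))) :
    PH H (j + 1) (fun x => FF H (j + 1) (fst x) (fst (snd x)) (snd (snd x))) := by
  have h1 := FPc_mat hG j ih
    (B := fun w => ¬ RLe (snd (fst w)) (fst (fst (fst w)))) (by infer_instance)
    (r' := fun w => snd (fst w)) (y := fun w => snd w)
    (T := fun w => fst (snd (fst (fst w)))) (z := fun w => snd (snd (fst (fst w))))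
    (by infer_instance) (by infer_instance) (by infer_instance) (by infer_instance)
  have h2 := PH_all hG (PH_all hG h1)
  have h3 := PH_and hG (PH_le hG (by omega : 1 ≤ j + 1) (PH_Nm2 hG).1) h2
  refine PH_congr ?_ h3
  intro x _
  show (Nm2 H (fst x) (fst (snd x)) (snd (snd x)) ∧ ∀ r' ∈ H, ∀ y ∈ H, RLe r' (fst x) →
    RNK H r' y → ¬ FF H j r' (fst (snd x)) (jnN y (snd (snd x)))) ↔ _
  refine and_congr Iff.rfl ?_
  refine forall_congr' fun r' => forall_congr' fun _ => forall_congr' fun y =>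
    forall_congr' fun _ => ?_
  simp only [fst_pair, snd_pair]
  tauto

theorem PH_nFF (hG : Gr M K H) (j : ℕ) :
    PH H (j + 1) (fun x => ¬ FF H j (fst x) (fst (snd x)) (snd (snd x))) := by
  induction j with
  | zero => exact (PH_FB hG).2
  | succ j ih => exact PH_not hG (FPc_FF hG j ih)

theorem PH_nDj (hG : Gr M K H) (j : ℕ) :
    PH H (j + 1) (fun x => ¬ Dj H j (fst x) (fst (snd x)) (fst (snd (snd x)))
      (snd (snd (snd x)))) := by
  have h1 := FPc_mat hG j (PH_nFF hG j)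
    (B := fun w => ¬ (rU (snd (fst w)) = fst (fst (fst w)) ∧
      RLe (snd (fst w)) (fst (snd (fst (fst w)))))) (by infer_instance)
    (r' := fun w => snd (fst w)) (y := fun w => snd w)
    (T := fun w => fst (snd (snd (fst (fst w))))) (z := fun w => snd (snd (snd (fst (fst w)))))
    (by infer_instance) (by infer_instance) (by infer_instance) (by infer_instance)
  have h2 := PH_all hG (PH_all hG h1)
  refine PH_congr ?_ h2
  intro x _
  simp only [fst_pair, snd_pair]
  unfold Dj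
  constructor
  · intro h r' hr' y hy
    by_contra hc
    refine h ⟨r', hr', y, hy, ?_⟩
    tauto
  · rintro h ⟨r', hr', y, hy, h3⟩
    have h4 := h r' hr' y hy
    tauto

theorem PH_nExt (hG : Gr M K H) (j : ℕ) :
    PH H (j + 1) (fun x => ¬ Ext H j (fst x) (fst (snd x)) (fst (snd (snd x)))
      (snd (snd (snd x)))) := by
  have h1 : PH H (j + 1) (fun w => ¬ (fst (fst w) ⊆ snd w)) :=
    PH_abs hG _ (by infer_instance)
  have h2 := PH_sub hG (F := fun w => snd w) (by infer_instance)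
    (PH_le hG (by omega : 1 ≤ j + 1) (PH_UU hG).2)
  have h3 := PH_sub hG (F := fun w => pair (snd w) (snd (fst w))) (by infer_instance)
    (PH_nDj hG j)
  simp only [fst_pair, snd_pair] at h3
  refine PH_congr ?_ (PH_all hG (PH_or hG h1 (PH_or hG h2 h3)))
  intro x _
  simp only [fst_pair, snd_pair]
  unfold Ext
  constructor
  · intro h u' hu'
    by_contra hc
    refine h ⟨u', hu', ?_⟩
    tauto
  · rintro h ⟨u', hu', h4⟩
    have h5 := h u' hu'
    tauto

private theorem FPc_one (hG : Gr M K H) {j n : ℕ} (hj : j ≤ n) :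
    PH H (n + 1) (fun A => ∀ u ∈ A, ∀ r ∈ A, ∀ T ∈ A, ∀ z ∈ A,
      Ext H j u r T z → Ext A j u r T z) := by
  have h1 : PH H (n + 1) (fun w => ¬ (snd (fst (fst (fst w))) ∈ fst (fst (fst (fst w))) ∧
      snd (fst (fst w)) ∈ fst (fst (fst (fst w))) ∧ snd (fst w) ∈ fst (fst (fst (fst w))) ∧
      snd w ∈ fst (fst (fst (fst w))))) := PH_abs hG _ (by infer_instance)
  have h2 : PH H (n + 1) (fun w => Ext (fst (fst (fst (fst w)))) j (snd (fst (fst (fst w))))
      (snd (fst (fst w))) (snd (fst w)) (snd w)) := PH_abs hG _ (by infer_instance)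
  have h3 := PH_sub hG (F := fun w => pair (snd (fst (fst (fst w)))) (pair (snd (fst (fst w)))
    (pair (snd (fst w)) (snd w)))) (by infer_instance)
    (PH_le hG (by omega : j + 1 ≤ n + 1) (PH_nExt hG j))
  simp only [fst_pair, snd_pair] at h3
  refine PH_congr ?_ (PH_all hG (PH_all hG (PH_all hG (PH_all hG (PH_or hG h1 (PH_or hG h3 h2))))))
  intro A hA
  simp only [fst_pair, snd_pair]
  constructor
  · intro h u _ r _ T _ z _
    by_cases hm : u ∈ A ∧ r ∈ A ∧ T ∈ A ∧ z ∈ A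
    · obtain ⟨hu, hr, hT, hz⟩ := hm
      have h4 := h u hu r hr T hT z hz
      tauto
    · exact Or.inl hm
  · intro h u hu r hr T hT z hz hE
    rcases h u (H_tr hG hA hu) r (H_tr hG hA hr) T (H_tr hG hA hT) z (H_tr hG hA hz) with
      h4 | h4 | h4
    · exact absurd ⟨hu, hr, hT, hz⟩ h4
    · exact absurd hE h4
    · exact h4

theorem PH_ZZ (hG : Gr M K H) (n : ℕ) : PH H (n + 1) (fun A => ZZ H n A) := by
  have key : ∀ k ≤ n, PH H (n + 1) (fun A => ∀ j ≤ k, ∀ u ∈ A, ∀ r ∈ A, ∀ T ∈ A, ∀ z ∈ A,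
      Ext H j u r T z → Ext A j u r T z) := by
    intro k
    induction k with
    | zero =>
      intro hk
      refine PH_congr ?_ (FPc_one hG hk)
      intro A _
      constructor
      · intro h
        exact h 0 le_rfl
      · intro h j hj
        obtain rfl : j = 0 := by omega
        exact h
    | succ k ih =>
      intro hk
      refine PH_congr ?_ (PH_and hG (ih (by omega)) (FPc_one hG hk))
      intro A _
      constructor
      · intro h
        exact ⟨fun j hj => h j (by omega), h (k + 1) le_rfl⟩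
      · rintro ⟨h, h'⟩ j hj
        rcases Nat.lt_or_ge j (k + 1) with h2 | h2
        · exact h j (by omega)
        · obtain rfl : j = k + 1 := by omega
          exact h'
  have hKc : PH H (n + 1) (fun A => Kc A) := PH_abs hG _ (by infer_instance)
  exact PH_and hG hKc (key n le_rfl)

end H83.PN
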