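import Pool.Agent.H83.PN.UKc

set_option autoImplicit false

/-!
# Module UKd: the sequence `U`

`UM M n H` is the union of the chain of all `UK M n A`, `A ∈ H`, `ZZ H n A` (`Kc_lin`, `UKP.mono`). `mem`: `Inst.UM`. `UU_union` gives
`UU H U`-like properties; the domain is `rk H`: every `γ ∈ rk H` is in some `A` (`ZZ_unb`, `Kc_rk`). `UM_res`: `res U (rk A) = UK M n A`.
`seg`: choose `A` with `γ ∈ A`; `res U γ = res (UK M n A) γ ∈ A`. `comp`: let `A` be the `∈`-least member of `Z` containing `r, T, z`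
(`ZZ_unb` for the pair; least rank). `⋃₀ (Zk n A) ≠ A`: otherwise `r, T, z` are in members `B, B', B''` of `Zk n A`, so in one of
them (`Kc_lin`), which contradicts the minimality (`ZZ_in`). By `UKP.cand` there is `γ ∈ rk A` with `Dj A ..` or `¬ Ext A ..`; `Dj_abs`,
`Ext_abs` (`res U γ = res (UK M n A) γ ∈ A`). `good`: let `x ∈ A`, `γ = rk A`, `u = UK M n A = res U γ`, `Nx A W`. Claim `Nx (ws u) W`:
`ws u ∈ W` (`u ∈ W`), and it is hereditarily countable in `W`: all its elements are pairs `(β, W_β)` of elements of `A` and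
`A` is countable in `W` (`HCt_of`, `Ctb_sub`). Let `W₁` be the least model for `ws u` (`Nx_exists`; `W₁ ⊆ W` by `Nx_min`). `A ∈ W₁`: `A = ⋃₀ (rng (ws u))`:
every `y ∈ A` is in a model `W₂ ∈ A`, and if `β = rk W₂ ∈ rk A` then `W₂ ⊆ W_(sc β)` (as in `Ws_cover`); conversely
`W_β ∈ A` (`Kc_Ws`: `Kc_Nx`). `A` is hereditarily countable in `W₁` (`HCt_of`, `Ctb_sU`, `Ws_W`). So `W ⊆ W₁` (`Nx_min`), `W = W₁`.
-/

namespace H83.PN

open ZFSet H83.AC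

variable {M : Set ZFSet.{0}} {K H : ZFSet.{0}}

private theorem ukd_least (P : ZFSet.{0} → Prop) {H : ZFSet.{0}} (htr : ∀ x ∈ H, x ⊆ H)
    (W : ZFSet.{0}) : W ∈ H → P W → ∃ W ∈ H, P W ∧ ∀ W' ∈ W, ¬ P W' := by
  induction W using ZFSet.inductionOn with
  | _ W ih =>
    intro hW hP
    by_cases h : ∃ W' ∈ W, P W'
    · obtain ⟨W', h1, h2⟩ := h
      exact ih W' h1 (htr W hW h1) h2
    · exact ⟨W, hW, hP, fun W' h1 h2 => h ⟨W', h1, h2⟩⟩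

private theorem ukd_comp {s x y : ZFSet.{0}} (h : pair x y ∈ s) : y ∈ tc s := by
  have h1 : pair x y ∈ tc s := sub_tc s h
  have h2 : ({x, y} : ZFSet.{0}) ∈ tc s := tc_tr h1 (by rw [pair]; simp)
  exact tc_tr h2 (by simp)

private theorem ukd_hct {N : Set ZFSet.{0}} {s x y : ZFSet.{0}} (hs : HCt N s)
    (h : pair x y ∈ s) : HCt N y := by
  have h1 : HCt N (pair x y) := (HCt_mem hs h).1
  have h2 : HCt N ({x, y} : ZFSet.{0}) := (HCt_mem h1 (by rw [pair]; simp)).1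
  exact (HCt_mem h2 (by simp)).1

private theorem ukd_sub (hG : Gr M K H) {A : ZFSet.{0}} (hA : A ∈ H) : A ⊆ H :=
  fun _ hy => H_tr hG hA hy

private theorem ukd_C {n : ℕ} {A : ZFSet.{0}} :
    A ∈ ZFSet.sep (fun A => ZZ H n A) H ↔ A ∈ H ∧ ZZ H n A := mem_sep

private theorem ukd_UU (hG : Gr M K H) {n : ℕ} {A : ZFSet.{0}} (hA : A ∈ H) (hZ : ZZ H n A) :
    UU H (UK M n A) := UU_K (UK_ok hG hA hZ).uu (ukd_sub hG hA)

private theorem ukd_uni (hG : Gr M K H) (n : ℕ) : UU H (UM M n H) ∧ ∀ γ, γ ∈ dom (UM M n H) ↔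
    ∃ u ∈ img (fun A => UK M n A) (ZFSet.sep (fun A => ZZ H n A) H), γ ∈ dom u := by
  refine UU_union ?_ ?_
  · intro u hu
    obtain ⟨A, hA, rfl⟩ := mem_img.1 hu
    obtain ⟨hA, hZ⟩ := mem_sep.1 hA
    exact ukd_UU hG hA hZ
  · intro u hu u' hu'
    obtain ⟨A, hA, rfl⟩ := mem_img.1 hu
    obtain ⟨hA, hZ⟩ := mem_sep.1 hA
    obtain ⟨B, hB, rfl⟩ := mem_img.1 hu'
    obtain ⟨hB, hZ'⟩ := mem_sep.1 hB
    rcases Kc_lin hZ.1 hZ'.1 with h | h | h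
    · exact Or.inl ((UK_ok hG hB hZ').mono A h hZ)
    · subst h
      exact Or.inl fun _ hz => hz
    · exact Or.inr ((UK_ok hG hA hZ).mono B h hZ')

private theorem ukd_dom (hG : Gr M K H) (n : ℕ) : dom (UM M n H) = rk H := by
  ext γ
  rw [(ukd_uni hG n).2 γ]
  constructor
  · rintro ⟨u, hu, hg⟩
    obtain ⟨A, hA, rfl⟩ := mem_img.1 hu
    obtain ⟨hA, hZ⟩ := mem_sep.1 hA
    rw [(UK_ok hG hA hZ).dm] at hg
    obtain ⟨h1, h2⟩ := (Kc_rk hZ.1).1 hg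
    exact (Kc_rk (Kc_H hG)).2 ⟨H_tr hG hA h1, h2⟩
  · intro hg
    obtain ⟨h1, h2⟩ := (Kc_rk (Kc_H hG)).1 hg
    obtain ⟨A, hA, hZ, hgA⟩ := ZZ_unb hG n h1
    refine ⟨UK M n A, mem_img.2 ⟨A, mem_sep.2 ⟨hA, hZ⟩, rfl⟩, ?_⟩
    rw [(UK_ok hG hA hZ).dm]
    exact (Kc_rk hZ.1).2 ⟨hgA, h2⟩

private theorem ukd_subU {n : ℕ} {A : ZFSet.{0}} (hA : A ∈ H) (hZ : ZZ H n A) :
    UK M n A ⊆ UM M n H := by
  intro t ht
  exact mem_sUnion.2 ⟨UK M n A, mem_img.2 ⟨A, mem_sep.2 ⟨hA, hZ⟩, rfl⟩, ht⟩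

private theorem ukd_resA (hG : Gr M K H) {n : ℕ} {A : ZFSet.{0}} (hA : A ∈ H) (hZ : ZZ H n A) :
    res (UM M n H) (rk A) = UK M n A := by
  have h1 := (UU_sub (ukd_UU hG hA hZ) (ukd_uni hG n).1 (ukd_subU hA hZ)).2.2
  rwa [(UK_ok hG hA hZ).dm] at h1

private theorem ukd_tr {A γ : ZFSet.{0}} (hg : γ ∈ rk A) : γ ⊆ rk A := by
  have h1 := rk_of_mem_rk hg
  have h2 : rank γ ≤ rank A := by
    have h3 := (rank_lt_of_mem hg).le
    rwa [rank_rk] at h3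
  have h3 := rk_mono h2
  rwa [h1] at h3

private theorem ukd_rr {u γ d : ZFSet.{0}} (h : γ ⊆ d) : res (res u d) γ = res u γ := by
  ext t
  simp only [res, mem_sep]
  constructor
  · rintro ⟨⟨h1, -⟩, h2⟩
    exact ⟨h1, h2⟩
  · rintro ⟨h1, h2⟩
    exact ⟨⟨h1, h h2⟩, h2⟩

private theorem ukd_resg (hG : Gr M K H) {n : ℕ} {A : ZFSet.{0}} (hA : A ∈ H) (hZ : ZZ H n A)
    {γ : ZFSet.{0}} (hg : γ ∈ rk A) : res (UM M n H) γ = res (UK M n A) γ := by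
  rw [← ukd_resA hG hA hZ, ukd_rr (ukd_tr hg)]

private theorem ukd_app {K u γ : ZFSet.{0}} (h : UU K u) (hg : γ ∈ dom u) :
    app u γ = pair (uW u γ) (uF u γ) := by
  have h1 := h.2.1
  have h2 : app (fgr (fun γ => pair (uW u γ) (uF u γ)) (dom u)) γ = pair (uW u γ) (uF u γ) :=
    app_fgr hg
  rwa [← h1] at h2

/-- every model of the sequence `UK M n A` is in `A` -/
private theorem ukd_WA (hG : Gr M K H) {n : ℕ} {A : ZFSet.{0}} (hA : A ∈ H) (hZ : ZZ H n A)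
    {β : ZFSet.{0}} (hb : β ∈ rk A) : uW (UK M n A) β ∈ A := by
  have hP := UK_ok hG hA hZ
  have hb' : β ∈ dom (UK M n A) := by rw [hP.dm]; exact hb
  have h1 := hP.uu.2.2.1 β hb'
  refine Kc_Nx_mem hZ.1 ?_ h1
  have h2 := (UU_res hP.uu hb').2.2
  have h3 : fgr (fun δ => uW (UK M n A) δ) β = fgr (fun δ => uW (res (UK M n A) β) δ) β :=
    fgr_congr fun δ hd => by rw [uW, uW, h2 δ hd]
  rw [h3]
  exact Kc_uf2 hZ.1 (F := fun u γ => fgr (fun β => uW u β) γ) (by infer_instance)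
    (hP.seg β hb) ((Kc_rk hZ.1).1 hb).1

private theorem ukd_wsA (hG : Gr M K H) {n : ℕ} {A : ZFSet.{0}} (hA : A ∈ H) (hZ : ZZ H n A) :
    ws (UK M n A) ⊆ A := by
  intro t ht
  obtain ⟨β, hb, rfl⟩ := mem_fgr.1 ht
  rw [(UK_ok hG hA hZ).dm] at hb
  exact Kc_uf2 hZ.1 (F := fun x y => pair x y) (by infer_instance)
    ((Kc_rk hZ.1).1 hb).1 (ukd_WA hG hA hZ hb)

private theorem ukd_mem_ws {u β : ZFSet.{0}} (hb : β ∈ dom u) : pair β (uW u β) ∈ ws u :=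
  pair_mem_fgr.2 ⟨hb, rfl⟩

/-- the models of the sequence `UK M n A` cover `A` -/
private theorem ukd_cov (hG : Gr M K H) {n : ℕ} {A : ZFSet.{0}} (hA : A ∈ H) (hZ : ZZ H n A)
    {y : ZFSet.{0}} (hy : y ∈ A) : ∃ β ∈ dom (UK M n A), y ∈ uW (UK M n A) β := by
  have hP := UK_ok hG hA hZ
  obtain ⟨W, hWA, hW, hyW, -⟩ := hZ.1.2.2.1 y hy
  obtain ⟨h1, h2, h3⟩ := UU_ws hP.uu
  have hb : rk W ∈ dom (UK M n A) := by
    rw [hP.dm]
    exact rk_mem_rk.2 (rank_lt_of_mem hWA)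
  have hb' : rk W ∈ dom (ws (UK M n A)) := by rw [h2]; exact hb
  refine ⟨rk W, hb, ?_⟩
  have h4 := Ws_dom_app h1 hb'
  have h5 := Ws_Wd h1 hb'
  rw [h3 _ hb] at h4 h5
  have h6 : rank W < rank (uW (UK M n A) (rk W)) := by
    have h7 := rank_lt_of_mem h4
    rwa [rank_rk] at h7
  rcases Wd_lin hW h5 with h7 | h7 | h7
  · exact Wd_tr h5 h7 hyW
  · rw [← h7] at h6
    exact absurd h6 (lt_irrefl _)
  · exact absurd (h6.trans (rank_lt_of_mem h7)) (lt_irrefl _)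

private theorem ukd_rng (hG : Gr M K H) {n : ℕ} {A : ZFSet.{0}} (hA : A ∈ H) (hZ : ZZ H n A) :
    (⋃₀ (rng (ws (UK M n A))) : ZFSet.{0}) = A := by
  ext y
  rw [mem_sUnion]
  constructor
  · rintro ⟨V, hV, hy⟩
    obtain ⟨β, hb⟩ := mem_rng.1 hV
    obtain ⟨hb1, rfl⟩ := pair_mem_fgr.1 hb
    rw [(UK_ok hG hA hZ).dm] at hb1
    exact hZ.1.2.1 _ (ukd_WA hG hA hZ hb1) hy
  · intro hy
    obtain ⟨β, hb, hyb⟩ := ukd_cov hG hA hZ hy
    exact ⟨uW (UK M n A) β, mem_rng.2 ⟨β, ukd_mem_ws hb⟩, hyb⟩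

/-- a model in which `ws u` is hereditarily countable contains `A`, and `A` is hereditarily
countable in it -/
private theorem ukd_back (hG : Gr M K H) {n : ℕ} {A : ZFSet.{0}} (hA : A ∈ H) (hZ : ZZ H n A)
    {V : ZFSet.{0}} (hV : Wd V) (hw : ws (UK M n A) ∈ V) (hc : HCt (cls V) (ws (UK M n A))) :
    A ∈ V ∧ HCt (cls V) A := by
  have hAV : A ∈ V := by
    have h1 : (⋃₀ (rng (ws (UK M n A))) : ZFSet.{0}) ∈ V :=
      Wd_uf (F := fun _ v => ZFSet.sUnion (rng (v 0))) (by infer_instance) hV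
        (v := fun _ => ws (UK M n A)) fun _ => hw
    rwa [ukd_rng hG hA hZ] at h1
  refine ⟨hAV, ?_⟩
  have hrV : rng (ws (UK M n A)) ∈ V :=
    Wd_uf (F := fun _ v => rng (v 0)) (by infer_instance) hV
      (v := fun _ => ws (UK M n A)) fun _ => hw
  have hcx : ∀ x ∈ rng (ws (UK M n A)), HCt (cls V) x := by
    intro x hx
    obtain ⟨β, hb⟩ := mem_rng.1 hx
    exact ukd_hct hc hb
  have hcr : Ctb (cls V) (rng (ws (UK M n A))) := by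
    refine Ctb_sub hc ?_
    intro x hx
    obtain ⟨β, hb⟩ := mem_rng.1 hx
    exact ukd_comp hb
  refine HCt_of hV.1 hV.2 hAV ?_ ?_
  · have h1 := Ctb_sU hV.1 hV.2 hrV hcr fun x hx => Ctb_sub (hcx x hx) (sub_tc x)
    rwa [ukd_rng hG hA hZ] at h1
  · intro y hy
    obtain ⟨β, hb, hyb⟩ := ukd_cov hG hA hZ hy
    exact (HCt_mem (ukd_hct hc (ukd_mem_ws hb)) hyb).1

private theorem ukd_Nx (hG : Gr M K H) {n : ℕ} {A W : ZFSet.{0}} (hA : A ∈ H) (hZ : ZZ H n A)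
    (hW : Nx A W) : Nx (ws (UK M n A)) W := by
  have hP := UK_ok hG hA hZ
  have hwW : ws (UK M n A) ∈ W :=
    Wd_uf (F := fun _ v => ws (v 0)) (by infer_instance) hW.1
      (v := fun _ => UK M n A) fun _ => hP.inW W hW
  refine ⟨hW.1, hwW, ?_, ?_⟩
  · refine HCt_of hW.1.1 hW.1.2 hwW ?_ ?_
    · exact Ctb_sub hW.2.2.1 fun t ht => sub_tc A (ukd_wsA hG hA hZ ht)
    · intro y hy
      exact (HCt_mem hW.2.2.1 (ukd_wsA hG hA hZ hy)).1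
  · rintro V hVW ⟨hV, hw, hc⟩
    exact hW.2.2.2 V hVW ⟨hV, ukd_back hG hA hZ hV hw hc⟩

private theorem ukd_three {C : ZFSet.{0}} (hC : ∀ A ∈ C, Kc A) {r T z : ZFSet.{0}}
    (hr : r ∈ (⋃₀ C : ZFSet.{0})) (hT : T ∈ (⋃₀ C : ZFSet.{0})) (hz : z ∈ (⋃₀ C : ZFSet.{0})) :
    ∃ B ∈ C, r ∈ B ∧ T ∈ B ∧ z ∈ B := by
  have h0 : ∀ A ∈ C, ∀ B ∈ C, A ⊆ B ∨ B ⊆ A := by
    intro A hA B hB
    rcases Kc_lin (hC A hA) (hC B hB) with h | h | h
    · exact Or.inl ((hC B hB).2.1 A h)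
    · rw [h]
      exact Or.inl fun _ hz => hz
    · exact Or.inr ((hC A hA).2.1 B h)
  obtain ⟨B1, h1, hr1⟩ := mem_sUnion.1 hr
  obtain ⟨B2, h2, hT2⟩ := mem_sUnion.1 hT
  obtain ⟨B3, h3, hz3⟩ := mem_sUnion.1 hz
  have h4 : ∃ B ∈ C, r ∈ B ∧ T ∈ B := by
    rcases h0 B1 h1 B2 h2 with h | h
    · exact ⟨B2, h2, h hr1, hT2⟩
    · exact ⟨B1, h1, hr1, h hT2⟩
  obtain ⟨B4, h4, hr4, hT4⟩ := h4
  rcases h0 B4 h4 B3 h3 with h | h
  · exact ⟨B3, h3, h hr4, h hT4, hz3⟩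
  · exact ⟨B4, h4, hr4, hT4, h hz3⟩

theorem UM_ok (hG : Gr M K H) (n : ℕ) : UOK M H n (UM M n H) := by
  have hH := Kc_H hG
  have hU := (ukd_uni hG n).1
  have hd := ukd_dom hG n
  refine ⟨?_, hd, ?_, ?_, ?_, ?_⟩
  · have h1 : UF (fun N v => UM N n (v 0)) := by infer_instance
    exact h1.mem M hG.tm (fun _ => H) fun _ => H_M hG
  · conv_lhs => rw [hU.2.1]
    exact fgr_congr fun γ hg => (ukd_app hU hg).symm
  · intro γ hg
    obtain ⟨h1, h2, -⟩ := UU_res hU hg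
    refine ⟨h1, ?_, h2⟩
    rw [hd] at hg
    obtain ⟨h3, h4⟩ := (Kc_rk hH).1 hg
    obtain ⟨A, hA, hZ, hgA⟩ := ZZ_unb hG n h3
    have h5 : γ ∈ rk A := (Kc_rk hZ.1).2 ⟨hgA, h4⟩
    rw [ukd_resg hG hA hZ h5]
    exact H_tr hG hA ((UK_ok hG hA hZ).seg γ h5)
  · intro j hj r hr T hT z hz
    have hx : pair r (pair T z) ∈ H := H_pair hG hr (H_pair hG hT hz)
    obtain ⟨A0, hA0, hZ0, hx0⟩ := ZZ_unb hG n hx
    have hP0 : ZZ H n A0 ∧ r ∈ A0 ∧ T ∈ A0 ∧ z ∈ A0 := by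
      refine ⟨hZ0, ?_, ?_, ?_⟩
      · have h1 := Kc_uf1 hZ0.1 (F := fun x => fst x) (by infer_instance) hx0
        rwa [fst_pair] at h1
      · have h1 := Kc_uf1 hZ0.1 (F := fun x => fst (snd x)) (by infer_instance) hx0
        rwa [snd_pair, fst_pair] at h1
      · have h1 := Kc_uf1 hZ0.1 (F := fun x => snd (snd x)) (by infer_instance) hx0
        rwa [snd_pair, snd_pair] at h1
    obtain ⟨A, hA, ⟨hZ, hrA, hTA, hzA⟩, hmin⟩ := ukd_least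
      (fun A => ZZ H n A ∧ r ∈ A ∧ T ∈ A ∧ z ∈ A) (fun x hx => ukd_sub hG hx) A0 hA0 hP0
    have hAH := ukd_sub hG hA
    have hne : (⋃₀ (Zk n A) : ZFSet.{0}) ≠ A := by
      intro he
      have hCz : ∀ B ∈ Zk n A, B ∈ A ∧ ZZ H n B := by
        intro B hB
        obtain ⟨h1, h2⟩ := mem_sep.1 hB
        exact ⟨h1, (ZZ_in hAH hH hZ h1).1 h2⟩
      obtain ⟨B, hB, h1, h2, h3⟩ := ukd_three (C := Zk n A) (fun B hB => (hCz B hB).2.1)
        (r := r) (T := T) (z := z) (by rw [he]; exact hrA) (by rw [he]; exact hTA)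
        (by rw [he]; exact hzA)
      exact hmin B (hCz B hB).1 ⟨(hCz B hB).2, h1, h2, h3⟩
    have hP := UK_ok hG hA hZ
    obtain ⟨u0, hu0⟩ := hP.cand hne
    obtain ⟨γ, hg, h1⟩ := hu0.2.2.2.2 j hj r hrA T hTA z hzA
    have hgH : γ ∈ dom (UM M n H) := by
      rw [hd]
      obtain ⟨h2, h3⟩ := (Kc_rk hZ.1).1 hg
      exact (Kc_rk hH).2 ⟨hAH h2, h3⟩
    refine ⟨γ, hgH, ?_⟩
    rw [ukd_resg hG hA hZ hg]
    rcases h1 with h1 | h1
    · exact Or.inl (Dj_abs hAH hH hZ hj hTA hzA h1)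
    · refine Or.inr fun h2 => h1 ?_
      exact (Ext_abs hAH hH hZ hj (hP.seg γ hg) hrA hTA hzA).2 h2
  · intro x hx
    obtain ⟨A, hA, hZ, hxA⟩ := ZZ_unb hG n hx
    obtain ⟨W, hWH, hW⟩ := Nx_exists hG hA
    refine ⟨rk A, ?_, W, hWH, ?_, ?_, ?_, ?_⟩
    · rw [hd]
      exact rk_mem_rk.2 (rank_lt_of_mem hA)
    · rw [ukd_resA hG hA hZ]
      exact ukd_Nx hG hA hZ hW
    · rw [ukd_resA hG hA hZ]
      exact (UK_ok hG hA hZ).inW W hW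
    · exact Wd_tr hW.1 hW.2.1 hxA
    · exact rk_mem_rk.2 (rank_lt_of_mem hxA)

theorem UM_res (hG : Gr M K H) {n : ℕ} {A : ZFSet.{0}} (hA : A ∈ H) (hZ : ZZ H n A) :
    res (UM M n H) (rk A) = UK M n A := by
  exact ukd_resA hG hA hZ

end H83.PN
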