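import Pool.Agent.H83.PN.FPc
import Pool.Agent.H83.PN.UKd

set_option autoImplicit false

/-!
# Module FRk: the relation `Rk`

`PH_Rk`: `PH_ZZ` with `PH_sub` (`fst`), and the other conditions are absolute: the last part is `UR.rel4` with `R N a b c d := d = blA N n k a b` (use any
element, for example `∅` or `fst x` again, for the unused argument; or `UR.rel3`), `Inst.TMz`, `Inst.UK`; then `PH_abs`, `PH_and`.
`Rk_mem`: `Rk H n k x`, `A = fst x`, `W = fst (snd x)`, `W' = fst (snd (snd x))`, `γ = fst (snd (snd (snd x)))`; all are in `H` (`H_uf1`). `UK_abs hG hWd' hW'H hNx hWW'` gives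
`UK (cls W') n A = UK M n A = res U (rk A)` (`UM_res`), and `app (res U (rk A)) γ = app U γ` for `γ ∈ rk A` (`UOK.fgr`, `app_fgr`; `rk A ⊆ rk H = dom U`).
`Rk_ex`: `γ ∈ dom U = rk H`, so `γ ∈ H` (`Kc_rk`, `Kc_H`), `ZZ_unb` gives `A ∈ H`, `ZZ H n A`, `γ ∈ A`, `γ ∈ rk A` (`Kc_rk`); `Nx_exists` gives `W`, `exists_W` gives `W' ∋ W`;
`A ∈ W ⊆ W'`, `F = blA (cls W') n k A γ ∈ W'` (`Wd_uf`); all are in `H`, `H_pair`.
-/

namespace H83.PN

open ZFSet H83.AC

variable {M : Set ZFSet.{0}} {K H : ZFSet.{0}}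

private theorem FRk_UR (n k : ℕ) :
    UR (fun N v => v 2 = blA N n k (v 0) (v 1)) := by
  unfold blA
  infer_instance

private theorem FRk_app (hG : Gr M K H) (n : ℕ) {a γ : ZFSet.{0}} (hg : γ ∈ dom (UM M n H))
    (ha : γ ∈ a) : app (res (UM M n H) a) γ = app (UM M n H) γ := by
  have hU := (UM_ok hG n).fgr
  refine app_eq (f := res (UM M n H) a) ?_ ?_
  · rw [res, mem_sep]
    refine ⟨?_, by rw [fst_pair]; exact ha⟩
    have h : pair γ (app (UM M n H) γ) ∈ fgr (fun γ => app (UM M n H) γ) (dom (UM M n H)) :=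
      pair_mem_fgr.2 ⟨hg, rfl⟩
    rwa [← hU] at h
  · intro z hz
    rw [res, mem_sep] at hz
    have h := hz.1
    rw [hU] at h
    exact (pair_mem_fgr.1 h).2

private theorem FRk_dom (hG : Gr M K H) (n : ℕ) {A γ : ZFSet.{0}} (hA : A ∈ H) (hZ : ZZ H n A)
    (hg : γ ∈ rk A) : γ ∈ dom (UM M n H) := by
  rw [(UM_ok hG n).dom]
  obtain ⟨h1, h2⟩ := (Kc_rk hZ.1).1 hg
  exact (Kc_rk (Kc_H hG)).2 ⟨H_tr hG hA h1, h2⟩

private theorem FRk_val (hG : Gr M K H) {n k : ℕ} {A W W' γ : ZFSet.{0}} (hA : A ∈ H)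
    (hZ : ZZ H n A) (hN : Nx A W) (hW' : Wd W') (hWH : W' ∈ H) (hWW : W ∈ W') (hg : γ ∈ rk A)
    {i : ZFSet.{0}} (hi : i ∈ omega) :
    app (blA (cls W') n k A γ) i = app (uF (UM M n H) γ) (pair (nz k) i) := by
  have h1 : UK (cls W') n A = UK M n A := UK_abs hG hW' hWH hN hWW
  have h2 : app (UK M n A) γ = app (UM M n H) γ := by
    rw [← UM_res hG hA hZ]
    exact FRk_app hG n (FRk_dom hG n hA hZ hg) hg
  rw [blA, app_fgr hi, h1, uF, uF, h2]

private theorem FRk_c (hG : Gr M K H) {x : ZFSet.{0}} (hx : x ∈ H) : fst x ∈ H ∧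
    fst (snd (snd x)) ∈ H :=
  ⟨H_uf1 hG (F := fun x => fst x) (by infer_instance) hx,
    H_uf1 hG (F := fun x => fst (snd (snd x))) (by infer_instance) hx⟩

theorem PH_Rk (hG : Gr M K H) (n k : ℕ) : PH H (n + 1) (fun x => Rk H n k x) := by
  refine PH_and hG (PH_sub hG (F := fun x => fst x) (by infer_instance) (PH_ZZ hG n)) ?_
  refine PH_abs hG _ ?_
  have h1 : UR (fun _ v => Nx (fst (v 0)) (fst (snd (v 0)))) := by infer_instance
  have h2 : UR (fun _ v => Wd (fst (snd (snd (v 0))))) := by infer_instance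
  have h3 : UR (fun _ v => fst (snd (v 0)) ∈ fst (snd (snd (v 0)))) := by infer_instance
  have h4 : UR (fun _ v => fst (snd (snd (snd (v 0)))) ∈ rk (fst (v 0))) := by infer_instance
  have h5 := UR.rel3 (R := fun N a b c => c = blA N n k a b) (FRk_UR n k)
    (f := fun _ v => fst (snd (snd (v 0)))) (g := fun _ v => fst (v 0))
    (h := fun _ v => fst (snd (snd (snd (v 0))))) (k := fun _ v => snd (snd (snd (snd (v 0)))))
    (by infer_instance) (by infer_instance) (by infer_instance) (by infer_instance)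
    (by infer_instance)
  exact h1.and (h2.and (h3.and (h4.and h5)))

theorem Rk_mem (hG : Gr M K H) {n k : ℕ} {x : ZFSet.{0}} (hx : x ∈ H) (h : Rk H n k x) :
    ∃ γ ∈ dom (UM M n H), ∀ i ∈ omega, app (snd (snd (snd (snd x)))) i =
      app (uF (UM M n H) γ) (pair (nz k) i) := by
  obtain ⟨hZ, hN, hW', hWW, hg, -, -, -, -, hE⟩ := h
  obtain ⟨hA, hWH⟩ := FRk_c hG hx
  refine ⟨_, FRk_dom hG n hA hZ hg, fun i hi => ?_⟩
  rw [hE]
  exact FRk_val hG hA hZ hN hW' hWH hWW hg hi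

theorem Rk_ex (hG : Gr M K H) (n k : ℕ) {γ : ZFSet.{0}} (hg : γ ∈ dom (UM M n H)) :
    ∃ x ∈ H, Rk H n k x ∧ ∀ i ∈ omega, app (snd (snd (snd (snd x)))) i =
      app (uF (UM M n H) γ) (pair (nz k) i) := by
  have hg' := hg
  rw [(UM_ok hG n).dom] at hg'
  obtain ⟨hgH, hgr⟩ := (Kc_rk (Kc_H hG)).1 hg'
  obtain ⟨A, hA, hZ, hgA⟩ := ZZ_unb hG n hgH
  have hgk : γ ∈ rk A := (Kc_rk hZ.1).2 ⟨hgA, hgr⟩
  obtain ⟨W, hW, hN⟩ := Nx_exists hG hA
  obtain ⟨W', hWH, hW', hWW, -⟩ := exists_W hG hW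
  have hAW : A ∈ W' := Wd_tr hW' hWW hN.2.1
  have hgW : γ ∈ W' := Wd_tr hW' hAW hgA
  have hF : blA (cls W') n k A γ ∈ W' := by
    have h0 : UF (fun N v => blA N n k (v 0) (v 1)) := by
      unfold blA
      infer_instance
    have h1 := Wd_uf h0 hW' (v := cons A (fun _ => γ)) (fun i => by
      cases i with
      | zero => exact hAW
      | succ i => exact hgW)
    exact h1
  refine ⟨pair A (pair W (pair W' (pair γ (blA (cls W') n k A γ)))),
    H_pair hG hA (H_pair hG hW (H_pair hG hWH (H_pair hG hgH (H_tr hG hWH hF)))), ?_, ?_⟩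
  · unfold Rk
    simp only [fst_pair, snd_pair]
    exact ⟨hZ, hN, hW', hWW, hgk, hW'.1, hAW, hgW, hF, trivial⟩
  · intro i hi
    simp only [snd_pair]
    exact FRk_val hG hA hZ hN hW' hWH hWW hgk hi

theorem AkP_Rk (hG : Gr M K H) (n k : ℕ) {y : ZFSet.{0}} : AkP (UM M n H) (nz k) y ↔
    ∀ x ∈ H, Rk H n k x → ∃ i ∈ omega, Edf y (app (snd (snd (snd (snd x)))) i) := by
  constructor
  · intro h x hx hR
    obtain ⟨γ, hg, hv⟩ := Rk_mem hG hx hR
    obtain ⟨i, hi, hE⟩ := h γ hg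
    refine ⟨i, hi, ?_⟩
    rw [hv i hi]
    exact hE
  · intro h γ hg
    obtain ⟨x, hx, hR, hv⟩ := Rk_ex hG n k hg
    obtain ⟨i, hi, hE⟩ := h x hx hR
    refine ⟨i, hi, ?_⟩
    rw [← hv i hi]
    exact hE

end H83.PN
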