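import Pool.Agent.H83.PN.PVa
import Pool.Agent.H83.PN.CPd

set_option autoImplicit false

/-!
# Module PSd: the dense set for the sealing lemma

Let `s₀ ∈ Cn (nz r)`. Choose `L` larger than all numbers `i` which occur in `s₀` and in `fst q₀` (`Cn_bound`). Fill `s₀` to `s₁`,
total on `nz r × L` with the value `∅` (`Cn_fill`). Fill `fst q₀` at all `(c, i)`, `i ∈ L`, `c` in the finite set
`{c : ∃ y, pair c y ∈ Rl}`, with values different from all values `rl u v s` at `i` (`s ∈ snd q₀`, `fst s = c`; `rl_real`) and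
different from all `s₁ y i`, `pair c y ∈ Rl` (finitely many excluded values): this is `q₁ ≤ q₀`. Take `q₂ ∈ D`, `q₂ ≤ q₁`.
Choose `L'` larger than all numbers in `fst q₂`, fill `s₁` to `s₂` on `nz r × L'` with values `s₂ y i` different from all `j`
with `pair (pair c i) j ∈ fst q₂`, `pair c y ∈ Rl`. Then `s₂ ∈ E` with `q₂` (in the definition: `q₁ := q₂`, `d := q₂`): let `t ∈ fst q₂`,
`t ∉ fst q₀`, `pair (fst (fst t)) y ∈ Rl`, `i = snd (fst t)`. If `t ∈ fst q₁` then `i ∈ L` and the value of `s₁` at `(y, i)` is different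
from `snd t`. If `t ∉ fst q₁` then `i ∉ L` (because `fst q₁` is total at this coordinate below `L` and `fst q₂` is a function),
so the value of `s₂` at `(y, i)` is new and different from `snd t`.
-/

namespace H83.PN

open ZFSet H83.AC

/-- the set `E` of the sealing lemma -/
noncomputable def Esl (u v D q₀ Rl Y : ZFSet.{0}) : ZFSet.{0} :=
  ZFSet.sep (fun s => ∃ q₁ ∈ QP v, QLe u v q₁ q₀ ∧ (∃ d ∈ D, QLe u v q₁ d) ∧
    ∀ t ∈ fst q₁, t ∉ fst q₀ → ∀ y ∈ Y, pair (fst (fst t)) y ∈ Rl →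
      ∃ j ∈ omega, pair (pair y (snd (fst t))) j ∈ s ∧ j ≠ snd t) (Cn Y)

private theorem PSd_new {S : Set ZFSet.{0}} (hS : S.Finite) : ∃ j ∈ (omega : ZFSet.{0}), j ∉ S := by
  have hinf : (Set.range nz).Infinite :=
    Set.infinite_range_of_injective (fun m n h => nz_inj.1 h)
  obtain ⟨j, ⟨n, rfl⟩, hj⟩ := hinf.exists_notMem_finite hS
  exact ⟨nz n, mem_omega.2 ⟨n, rfl⟩, hj⟩

private theorem PSd_UF : UF (fun _ w => Esl (w 0) (w 1) (w 2) (w 3) (w 4) (w 5)) := by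
  have h : UF (fun _ w => ZFSet.sep (fun s => ∃ q₁ ∈ QP (w 1), QLe (w 0) (w 1) q₁ (w 3) ∧
      (∃ d ∈ w 2, QLe (w 0) (w 1) q₁ d) ∧
      ∀ t ∈ fst q₁, t ∉ fst (w 3) → ∀ y ∈ w 5, pair (fst (fst t)) y ∈ w 4 →
        ∃ j ∈ omega, pair (pair y (snd (fst t))) j ∈ s ∧ j ≠ snd t) (Cn (w 5))) := by
    refine UF.sep (R := fun _ s w => ∃ q₁ ∈ QP (w 1), QLe (w 0) (w 1) q₁ (w 3) ∧
      (∃ d ∈ w 2, QLe (w 0) (w 1) q₁ d) ∧
      ∀ t ∈ fst q₁, t ∉ fst (w 3) → ∀ y ∈ w 5, pair (fst (fst t)) y ∈ w 4 →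
        ∃ j ∈ omega, pair (pair y (snd (fst t))) j ∈ s ∧ j ≠ snd t) (by infer_instance) ?_
    infer_instance
  exact h

private theorem PSd_m6 {M : Set ZFSet.{0}} (hM : TM M)
    {G : ZFSet.{0} → ZFSet.{0} → ZFSet.{0} → ZFSet.{0} → ZFSet.{0} → ZFSet.{0} → ZFSet.{0}}
    (h : UF (fun _ w => G (w 0) (w 1) (w 2) (w 3) (w 4) (w 5))) {a b c d e f : ZFSet.{0}}
    (ha : a ∈ M) (hb : b ∈ M) (hc : c ∈ M) (hd : d ∈ M) (he : e ∈ M) (hf : f ∈ M) :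
    G a b c d e f ∈ M := by
  have hv' : ∀ i, (cons a (cons b (cons c (cons d (cons e (fun _ => f)))))) i ∈ M := by
    intro i
    rcases i with _ | _ | _ | _ | _ | i
    · exact ha
    · exact hb
    · exact hc
    · exact hd
    · exact he
    · exact hf
  exact h.mem M hM _ hv'

theorem Esl_mem {W u v D q₀ Rl Y : ZFSet.{0}} (hW : Wd W) (hu : u ∈ W) (hv : v ∈ W) (hD : D ∈ W)
    (hq : q₀ ∈ W) (hR : Rl ∈ W) (hY : Y ∈ W) : Esl u v D q₀ Rl Y ∈ W :=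
  PSd_m6 (M := cls W) (G := Esl) hW.1 PSd_UF hu hv hD hq hR hY

private theorem PSd_sub {A u v s i : ZFSet.{0}} (hu : UU A u) (hv : VV v) (hd : vL v ⊆ dom u)
    (hs : s ∈ ZFSet.prod (vS v) (vL v)) : {j | pair i j ∈ rl u v s}.Subsingleton := by
  intro j hj j' hj'
  have hF := rl_real hu hv hd hs
  have h1 := (ZFSet.pair_mem_prod.1 (hF.1 hj)).1
  exact (hF.2 i h1).unique hj hj'

theorem Esl_dense {A u v D q₀ Rl : ZFSet.{0}} {r : ℕ} (hu : UU A u) (hv : VV v)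
    (hd : vL v ⊆ dom u) (hD : ∀ q, QQ v q → ∃ q₁ ∈ D, QLe u v q₁ q) (hDP : ∀ q ∈ D, QQ v q)
    (hq : QQ v q₀) (hRf : Fnt Rl) (hR : Rl ⊆ ZFSet.prod (vS v) (nz r)) :
    Dn (nz r) (Esl u v D q₀ Rl (nz r)) := by
  classical
  refine ⟨fun s hs => (ZFSet.mem_sep.1 hs).1, fun s₀ hs₀ => ?_⟩
  obtain ⟨hq1, hq2, hq3⟩ := hq
  obtain ⟨L₀, hL₀⟩ := Cn_bound hs₀
  have hCf : Fnt (img (fun t => fst t) Rl) := Fnt_img hRf
  have hCs : img (fun t => fst t) Rl ⊆ vS v := by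
    intro x hx
    obtain ⟨t, ht, rfl⟩ := mem_img.1 hx
    obtain ⟨a, ha, b, hb, rfl⟩ := ZFSet.mem_prod.1 (hR ht)
    rw [fst_pair]
    exact ha
  have h0o : (∅ : ZFSet.{0}) ∈ (omega : ZFSet.{0}) := mem_omega.2 ⟨0, rfl⟩
  obtain ⟨s₁, hs₁, h01, htot1, hnew1⟩ := Cn_fill (Y := nz r) hs₀ (fun _ h => h) (Fnt_nz r)
    (mem_omega.2 ⟨L₀, rfl⟩) (c := fun _ _ => ∅) (fun _ _ _ _ => h0o)
  have hb1 : ∀ t ∈ s₁, snd (fst t) ∈ nz L₀ := by
    intro t ht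
    by_cases h : t ∈ s₀
    · exact hL₀ t h
    · exact (hnew1 t ht h).2.1
  have hval : ∀ x i : ZFSet.{0}, ∃ j ∈ (omega : ZFSet.{0}),
      (∀ s ∈ snd q₀, fst s = x → pair i j ∉ rl u v s) ∧ ∀ t ∈ s₁, snd t ≠ j := by
    intro x i
    have hfin : ((⋃ s ∈ {s | s ∈ snd q₀}, {j | pair i j ∈ rl u v s}) ∪
        snd '' {t | t ∈ s₁}).Finite := by
      refine Set.Finite.union ?_ (Set.Finite.image _ (mem_Cn.1 hs₁).2.1)
      refine Set.Finite.biUnion (mem_Fs.1 hq3).2 fun s hs => ?_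
      exact (PSd_sub hu hv hd ((mem_Fs.1 hq3).1 hs)).finite
    obtain ⟨j, hj, hjn⟩ := PSd_new hfin
    refine ⟨j, hj, fun s hs _ h => hjn (Or.inl ?_), fun t ht h => hjn (Or.inr ⟨t, ht, h⟩)⟩
    exact Set.mem_biUnion (show s ∈ {s | s ∈ snd q₀} from hs) h
  choose cv hcv1 hcv2 hcv3 using hval
  obtain ⟨p₁, hp₁, h11, htotp, hnewp⟩ := Cn_fill hq2 hCs hCf
    (mem_omega.2 ⟨L₀, rfl⟩) (c := cv) (fun x _ i _ => hcv1 x i)
  have hQ₁ : QQ v (pair p₁ (snd q₀)) := by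
    refine ⟨by rw [fst_pair, snd_pair], ?_, ?_⟩
    · rw [fst_pair]
      exact hp₁
    · rw [snd_pair]
      exact hq3
  have hle1 : QLe u v (pair p₁ (snd q₀)) q₀ := by
    refine ⟨?_, ?_, ?_⟩
    · rw [fst_pair]
      exact h11
    · rw [snd_pair]
    · intro t ht htn s hs hst
      rw [fst_pair] at ht
      obtain ⟨-, -, hv3⟩ := hnewp t ht htn
      rw [hv3]
      exact hcv2 _ _ s hs hst
  obtain ⟨q₂, hq₂D, hle2⟩ := hD _ hQ₁
  have hQ₂ := hDP q₂ hq₂D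
  obtain ⟨L₂, hL₂⟩ := Cn_bound hQ₂.2.1
  obtain ⟨j₀, hj₀, hj₀n⟩ := PSd_new (Set.Finite.image snd (mem_Cn.1 hQ₂.2.1).2.1)
  obtain ⟨s₂, hs₂, h12, htot2, hnew2⟩ := Cn_fill (Y := nz r) hs₁ (fun _ h => h) (Fnt_nz r)
    (mem_omega.2 ⟨L₂, rfl⟩) (c := fun _ _ => j₀) (fun _ _ _ _ => hj₀)
  have hQP : q₂ ∈ QP v := by
    have h1 : pair (fst q₂) (snd q₂) ∈ ZFSet.prod (Cn (vS v)) (Fs (ZFSet.prod (vS v) (vL v))) :=
      ZFSet.pair_mem_prod.2 ⟨hQ₂.2.1, hQ₂.2.2⟩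
    rw [← hQ₂.1] at h1
    exact ZFSet.mem_sep.2 ⟨h1, hQ₂⟩
  refine ⟨s₂, ZFSet.mem_sep.2 ⟨hs₂, q₂, hQP, QLe_trans (VLe_refl v) ⟨hq1, hq2, hq3⟩ hle2 hle1,
    ⟨q₂, hq₂D, QLe_refl u v q₂⟩, ?_⟩, fun t ht => h12 (h01 ht)⟩
  intro t ht htn y hy hR'
  have hx : fst (fst t) ∈ img (fun t => fst t) Rl :=
    mem_img.2 ⟨pair (fst (fst t)) y, hR', fst_pair _ _⟩
  obtain ⟨ht1, ht2, ht3, ht4⟩ := Cn_elt hQ₂.2.1 ht
  by_cases htp : t ∈ p₁
  · obtain ⟨-, hi, hv3⟩ := hnewp t htp htn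
    obtain ⟨j, hj⟩ := htot1 y hy (snd (fst t)) hi
    have hjo := (Cn_elt hs₁ hj).2.2.2
    rw [snd_pair] at hjo
    refine ⟨j, hjo, h12 hj, ?_⟩
    rw [hv3]
    intro e
    exact hcv3 (fst (fst t)) (snd (fst t)) _ hj (by rw [snd_pair]; exact e)
  · have hi : snd (fst t) ∉ nz L₀ := by
      intro hi
      obtain ⟨j, hj⟩ := htotp _ hx _ hi
      have hj2 : pair (pair (fst (fst t)) (snd (fst t))) j ∈ fst q₂ := by
        refine hle2.1 ?_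
        rw [fst_pair]
        exact hj
      have hF := (mem_Cn.1 hQ₂.2.1).2.2
      have he : t = pair (pair (fst (fst t)) (snd (fst t))) j := by
        refine hF.2 t ht _ hj2 ?_
        conv_lhs => rw [ht1]
        rw [fst_pair, fst_pair]
      rw [he] at htp
      exact htp hj
    obtain ⟨j, hj⟩ := htot2 y hy (snd (fst t)) (hL₂ t ht)
    have hjn : pair (pair y (snd (fst t))) j ∉ s₁ := by
      intro h
      have h2 := hb1 _ h
      rw [fst_pair, snd_pair] at h2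
      exact hi h2
    obtain ⟨-, -, hv3⟩ := hnew2 _ hj hjn
    rw [snd_pair] at hv3
    refine ⟨j, ?_, hj, ?_⟩
    · rw [hv3]
      exact hj₀
    · rw [hv3]
      intro e
      exact hj₀n ⟨t, ht, e.symm⟩

end H83.PN
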