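import Pool.Agent.H83.PN.PVc
import Pool.Agent.H83.PN.CPd
import Pool.Agent.H83.PN.PSd

set_option autoImplicit false

/-!
# Module FSd: the dense set for the variant of the sealing lemma

Compare with `PN/PSd.lean` (`Esl`, copy the proof). `Y = nz (r + 1)`, the index `nz r` stands for one more real number `f` (there is no `pair c (nz r) ∈ Rl`). `Esx_mem`: as `Esl_mem`.
`Esx_dense`: let `s₀ ∈ Cn (nz (r+1))`. Choose `L` larger than all numbers `i` which occur in `s₀` and in `fst q₀` (`Cn_bound`), and `l₀ ⊆ nz L`. Fill the part of `s₀` with first index in `nz r` to be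
total on `nz r × L` (value `∅`): `s₁ ⊇ s₀` (fill `s₀` with `Y = nz r`). Fill `fst q₀` at all `(c, i)`, `i ∈ nz L`, `c` with some `pair c y ∈ Rl`, with values different from the values of `rl u v s` at `i`
(`s ∈ snd q₀`, `fst s = c`) and of `s₁` at `(y, i)`: this is `q₁ ≤ q₀`, its coordinates are in the columns `m` if those of `Rl` are (`hRm`). By `RNm` for `i = nz L` there are `q₂ ≤ q₁`, `t ∈ e`, `fst (snd t) = nz L`,
`QLe u v q₂ (fst t)`; replace `q₂` by `rsQ q₂ m` (still `≤ q₁` and `≤ fst t`, because all coordinates of `q₁` and `fst t` are in the columns `m`; `QLe_rsQ`-like argument: `rsQ q m = q` if all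
`c ∈ csup q` have `fst c ∈ m`; `rl` only depends on the values). Let `s₂ = s₁ ∪ {pair (pair (nz r) (nz L)) (snd (snd t))}` (`(nz r, nz L)` is not in the domain of `s₁`; `snd (snd t) ∈ omega`), and fill `s₂` for the
indices in `nz r` up to `L'` beyond all numbers of `fst q₂` with a value which does not occur in `fst q₂`, as in PSd. `nz L ∉ l₀`.
-/

namespace H83.PN

open ZFSet H83.AC

variable {M : Set ZFSet.{0}} {K H : ZFSet.{0}}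

/-- the set `E` of the variant of the sealing lemma; `y₀` is the index of the additional real number -/
noncomputable def Esx (u v e m l₀ q₀ Rl Y y₀ : ZFSet.{0}) : ZFSet.{0} :=
  ZFSet.sep (fun s => ∃ q₁ ∈ QP v, QLe u v q₁ q₀ ∧ (∀ c ∈ csup q₁, fst c ∈ m) ∧
    (∃ t ∈ e, QLe u v q₁ (fst t) ∧ fst (snd t) ∉ l₀ ∧
      pair (pair y₀ (fst (snd t))) (snd (snd t)) ∈ s) ∧
    ∀ t ∈ fst q₁, t ∉ fst q₀ → ∀ y ∈ Y, pair (fst (fst t)) y ∈ Rl →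
      ∃ j ∈ omega, pair (pair y (snd (fst t))) j ∈ s ∧ j ≠ snd t) (Cn Y)

private theorem FSd_UF : UF (fun _ w => Esx (w 0) (w 1) (w 2) (w 3) (w 4) (w 5) (w 6) (w 7) (w 8)) := by
  have h : UF (fun _ w => ZFSet.sep (fun s => ∃ q₁ ∈ QP (w 1), QLe (w 0) (w 1) q₁ (w 5) ∧
      (∀ c ∈ csup q₁, H83.AC.fst c ∈ w 3) ∧
      (∃ t ∈ w 2, QLe (w 0) (w 1) q₁ (H83.AC.fst t) ∧
        ¬ H83.AC.fst (H83.AC.snd t) ∈ w 4 ∧
        ZFSet.pair (ZFSet.pair (w 8) (H83.AC.fst (H83.AC.snd t)))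
          (H83.AC.snd (H83.AC.snd t)) ∈ s) ∧
      ∀ t ∈ H83.AC.fst q₁, ¬ t ∈ H83.AC.fst (w 5) → ∀ y ∈ w 7,
        ZFSet.pair (H83.AC.fst (H83.AC.fst t)) y ∈ w 6 →
        ∃ j ∈ omega, ZFSet.pair (ZFSet.pair y (H83.AC.snd (H83.AC.fst t))) j ∈ s ∧
          ¬ j = H83.AC.snd t) (Cn (w 7))) := by
    refine UF.sep (R := fun _ s w => ∃ q₁ ∈ QP (w 1), QLe (w 0) (w 1) q₁ (w 5) ∧
      (∀ c ∈ csup q₁, H83.AC.fst c ∈ w 3) ∧
      (∃ t ∈ w 2, QLe (w 0) (w 1) q₁ (H83.AC.fst t) ∧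
        ¬ H83.AC.fst (H83.AC.snd t) ∈ w 4 ∧
        ZFSet.pair (ZFSet.pair (w 8) (H83.AC.fst (H83.AC.snd t)))
          (H83.AC.snd (H83.AC.snd t)) ∈ s) ∧
      ∀ t ∈ H83.AC.fst q₁, ¬ t ∈ H83.AC.fst (w 5) → ∀ y ∈ w 7,
        ZFSet.pair (H83.AC.fst (H83.AC.fst t)) y ∈ w 6 →
        ∃ j ∈ omega, ZFSet.pair (ZFSet.pair y (H83.AC.snd (H83.AC.fst t))) j ∈ s ∧
          ¬ j = H83.AC.snd t) (by infer_instance) ?_
    infer_instance
  exact h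

private theorem FSd_m9 {M : Set ZFSet.{0}} (hM : TM M)
    {G : ZFSet.{0} → ZFSet.{0} → ZFSet.{0} → ZFSet.{0} → ZFSet.{0} → ZFSet.{0} → ZFSet.{0} →
      ZFSet.{0} → ZFSet.{0} → ZFSet.{0}}
    (h : UF (fun _ w => G (w 0) (w 1) (w 2) (w 3) (w 4) (w 5) (w 6) (w 7) (w 8)))
    {a b c d e f g k l : ZFSet.{0}}
    (ha : a ∈ M) (hb : b ∈ M) (hc : c ∈ M) (hd : d ∈ M) (he : e ∈ M) (hf : f ∈ M) (hg : g ∈ M)
    (hk : k ∈ M) (hl : l ∈ M) : G a b c d e f g k l ∈ M := by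
  have hv' : ∀ i, (cons a (cons b (cons c (cons d (cons e (cons f (cons g (cons k
      (fun _ => l))))))))) i ∈ M := by
    intro i
    rcases i with _ | _ | _ | _ | _ | _ | _ | _ | i
    · exact ha
    · exact hb
    · exact hc
    · exact hd
    · exact he
    · exact hf
    · exact hg
    · exact hk
    · exact hl
  exact h.mem M hM _ hv'

theorem Esx_mem {W u v e m l₀ q₀ Rl Y y₀ : ZFSet.{0}} (hW : Wd W) (hu : u ∈ W) (hv : v ∈ W)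
    (he : e ∈ W) (hm : m ∈ W) (hl : l₀ ∈ W) (hq : q₀ ∈ W) (hR : Rl ∈ W) (hY : Y ∈ W)
    (hy : y₀ ∈ W) : Esx u v e m l₀ q₀ Rl Y y₀ ∈ W :=
  FSd_m9 (M := cls W) (G := Esx) hW.1 FSd_UF hu hv he hm hl hq hR hY hy

private theorem FSd_new {S : Set ZFSet.{0}} (hS : S.Finite) : ∃ j ∈ (omega : ZFSet.{0}), j ∉ S := by
  have hinf : (Set.range nz).Infinite :=
    Set.infinite_range_of_injective (fun m n h => nz_inj.1 h)
  obtain ⟨j, ⟨n, rfl⟩, hj⟩ := hinf.exists_notMem_finite hS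
  exact ⟨nz n, mem_omega.2 ⟨n, rfl⟩, hj⟩

private theorem FSd_sub {A u v s i : ZFSet.{0}} (hu : UU A u) (hv : VV v) (hd : vL v ⊆ dom u)
    (hs : s ∈ ZFSet.prod (vS v) (vL v)) : {j | pair i j ∈ rl u v s}.Subsingleton := by
  intro j hj j' hj'
  have hF := rl_real hu hv hd hs
  have h1 := (ZFSet.pair_mem_prod.1 (hF.1 hj)).1
  exact (hF.2 i h1).unique hj hj'

private theorem FSd_csup {q c : ZFSet.{0}} : c ∈ csup q ↔
    (∃ t ∈ fst q, fst (fst t) = c) ∨ ∃ s ∈ snd q, fst s = c := by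
  rw [csup, ZFSet.mem_union, mem_img, mem_img]

private theorem FSd_mf {q m t : ZFSet.{0}} :
    t ∈ fst (rsQ q m) ↔ t ∈ fst q ∧ fst (fst (fst t)) ∈ m := by
  unfold rsQ
  rw [fst_pair, mem_sep]

private theorem FSd_ms {q m s : ZFSet.{0}} :
    s ∈ snd (rsQ q m) ↔ s ∈ snd q ∧ fst (fst s) ∈ m := by
  unfold rsQ
  rw [snd_pair, mem_sep]

private theorem FSd_full {v q m : ZFSet.{0}} (hq : QQ v q) (h : ∀ c ∈ csup q, fst c ∈ m) :
    rsQ q m = q := by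
  have e1 : fst (rsQ q m) = fst q := by
    ext t
    rw [FSd_mf]
    exact ⟨fun h => h.1, fun h1 => ⟨h1, h _ (FSd_csup.2 (Or.inl ⟨t, h1, rfl⟩))⟩⟩
  have e2 : snd (rsQ q m) = snd q := by
    ext s
    rw [FSd_ms]
    exact ⟨fun h => h.1, fun h1 => ⟨h1, h _ (FSd_csup.2 (Or.inr ⟨s, h1, rfl⟩))⟩⟩
  have e3 : rsQ q m = pair (fst (rsQ q m)) (snd (rsQ q m)) := by
    unfold rsQ
    rw [fst_pair, snd_pair]
  rw [e3, e1, e2]
  exact hq.1.symm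

private theorem FSd_QQ {v q : ZFSet.{0}} (hv : VV v) (hq : QQ v q) (m : ZFSet.{0}) :
    QQ v (rsQ q m) := QQ_mono (VLe_rsV hv m) (QQ_rsQ hv hq m)

private theorem FSd_mono {u v q q' : ZFSet.{0}} (hv : VV v) (hq : QQ v q) (h : QLe u v q' q)
    (m : ZFSet.{0}) : QLe u v (rsQ q' m) (rsQ q m) :=
  (QLe_v (VLe_rsV hv m) (QQ_rsQ hv hq m)).2 (QLe_rsQ hv hq h m)

private theorem FSd_rs (q m : ZFSet.{0}) : ∀ c ∈ csup (rsQ q m), fst c ∈ m := by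
  intro c hc
  rcases FSd_csup.1 hc with ⟨t, ht, rfl⟩ | ⟨s, hs, rfl⟩
  · exact (FSd_mf.1 ht).2
  · exact (FSd_ms.1 hs).2

theorem Esx_dense {A W u v e m l₀ q₀ Rl : ZFSet.{0}} {r : ℕ} (hu : UU A u) (hv : VV v)
    (hd : vL v ⊆ dom u) (he : RNm W u v e) (hem : ∀ t ∈ e, ∀ c ∈ csup (fst t), fst c ∈ m)
    (hl : l₀ ∈ omega) (hq : QQ v q₀) (hqm : ∀ c ∈ csup q₀, fst c ∈ m) (hRf : Fnt Rl)
    (hR : Rl ⊆ ZFSet.prod (vS v) (nz r)) (hRm : ∀ t ∈ Rl, fst (fst t) ∈ m) :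
    Dn (nz (r + 1)) (Esx u v e m l₀ q₀ Rl (nz (r + 1)) (nz r)) := by
  classical
  refine ⟨fun s hs => (ZFSet.mem_sep.1 hs).1, fun s₀ hs₀ => ?_⟩
  have hq' := hq
  obtain ⟨hq1, hq2, hq3⟩ := hq
  obtain ⟨L₀', hL₀'⟩ := Cn_bound hs₀
  obtain ⟨l, hle⟩ := mem_omega.1 hl
  obtain ⟨L₀, hL₀e⟩ : ∃ L₀ : ℕ, L₀ = max L₀' l := ⟨_, rfl⟩
  have hL₀ : ∀ t ∈ s₀, snd (fst t) ∈ nz L₀ := by
    intro t ht
    obtain ⟨i, hi, h1⟩ := mem_nz.1 (hL₀' t ht)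
    rw [h1]
    exact nz_mem_nz.2 (lt_of_lt_of_le hi (by rw [hL₀e]; exact le_max_left _ _))
  have hLl : nz L₀ ∉ l₀ := by
    rw [hle, nz_mem_nz, not_lt, hL₀e]
    exact le_max_right _ _
  have hrr : nz r ⊆ nz (r + 1) := by
    intro x hx
    obtain ⟨i, hi, rfl⟩ := mem_nz.1 hx
    exact nz_mem_nz.2 (by omega)
  have hyr : ∀ {c y}, pair c y ∈ Rl → y ∈ nz r := fun h => (ZFSet.pair_mem_prod.1 (hR h)).2
  have hCf : Fnt (img (fun t => fst t) Rl) := Fnt_img hRf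
  have hCs : img (fun t => fst t) Rl ⊆ vS v := by
    intro x hx
    obtain ⟨t, ht, rfl⟩ := mem_img.1 hx
    obtain ⟨a, ha, b, hb, rfl⟩ := ZFSet.mem_prod.1 (hR ht)
    rw [fst_pair]
    exact ha
  have hCm : ∀ x ∈ img (fun t => fst t) Rl, fst x ∈ m := by
    intro x hx
    obtain ⟨t, ht, rfl⟩ := mem_img.1 hx
    exact hRm t ht
  have h0o : (∅ : ZFSet.{0}) ∈ (omega : ZFSet.{0}) := mem_omega.2 ⟨0, rfl⟩
  obtain ⟨s₁, hs₁, h01, htot1, hnew1⟩ := Cn_fill (Y := nz r) hs₀ hrr (Fnt_nz r)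
    (mem_omega.2 ⟨L₀, rfl⟩) (c := fun _ _ => ∅) (fun _ _ _ _ => h0o)
  have hb1 : ∀ t ∈ s₁, snd (fst t) ∈ nz L₀ := by
    intro t ht
    by_cases h : t ∈ s₀
    · exact hL₀ t h
    · exact (hnew1 t ht h).2.1
  have hval : ∀ x i : ZFSet.{0}, ∃ j ∈ (omega : ZFSet.{0}),
      (∀ s ∈ snd q₀, fst s = x → pair i j ∉ rl u v s) ∧ ∀ t ∈ s₁, snd t ≠ j := by
    intro x i
    have hfin : ((⋃ s ∈ {s | s ∈ snd q₀}, {j | pair i j ∈ rl u v s}) ∪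
        snd '' {t | t ∈ s₁}).Finite := by
      refine Set.Finite.union ?_ (Set.Finite.image _ (mem_Cn.1 hs₁).2.1)
      refine Set.Finite.biUnion (mem_Fs.1 hq3).2 fun s hs => ?_
      exact (FSd_sub hu hv hd ((mem_Fs.1 hq3).1 hs)).finite
    obtain ⟨j, hj, hjn⟩ := FSd_new hfin
    refine ⟨j, hj, fun s hs _ h => hjn (Or.inl ?_), fun t ht h => hjn (Or.inr ⟨t, ht, h⟩)⟩
    exact Set.mem_biUnion (show s ∈ {s | s ∈ snd q₀} from hs) h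
  choose cv hcv1 hcv2 hcv3 using hval
  obtain ⟨p₁, hp₁, h11, htotp, hnewp⟩ := Cn_fill hq2 hCs hCf
    (mem_omega.2 ⟨L₀, rfl⟩) (c := cv) (fun x _ i _ => hcv1 x i)
  have hQ₁ : QQ v (pair p₁ (snd q₀)) := by
    refine ⟨by rw [fst_pair, snd_pair], ?_, ?_⟩
    · rw [fst_pair]
      exact hp₁
    · rw [snd_pair]
      exact hq3
  have hle1 : QLe u v (pair p₁ (snd q₀)) q₀ := by
    refine ⟨?_, ?_, ?_⟩
    · rw [fst_pair]
      exact h11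
    · rw [snd_pair]
    · intro t ht htn s hs hst
      rw [fst_pair] at ht
      obtain ⟨-, -, hv3⟩ := hnewp t ht htn
      rw [hv3]
      exact hcv2 _ _ s hs hst
  have hcs1 : ∀ c ∈ csup (pair p₁ (snd q₀)), fst c ∈ m := by
    intro c hc
    rcases FSd_csup.1 hc with ⟨t, ht, rfl⟩ | ⟨s, hs, rfl⟩
    · rw [fst_pair] at ht
      by_cases h : t ∈ fst q₀
      · exact hqm _ (FSd_csup.2 (Or.inl ⟨t, h, rfl⟩))
      · exact hCm _ (hnewp t ht h).1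
    · rw [snd_pair] at hs
      exact hqm _ (FSd_csup.2 (Or.inr ⟨s, hs, rfl⟩))
  obtain ⟨q₂', hq₂P, hle2', te, hte, hte1, hte2⟩ :=
    he.2.2.1 (nz L₀) (mem_omega.2 ⟨L₀, rfl⟩) _ (mem_QP.2 hQ₁)
  have hQ₂' := mem_QP.1 hq₂P
  have hQte := mem_QP.1 (he.1.2.1 te hte).2.1
  obtain ⟨q₂, hq₂e⟩ : ∃ q₂, q₂ = rsQ q₂' m := ⟨_, rfl⟩
  have hQ₂ : QQ v q₂ := by rw [hq₂e]; exact FSd_QQ hv hQ₂' m
  have hle2 : QLe u v q₂ (pair p₁ (snd q₀)) := by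
    have h1 := FSd_mono hv hQ₁ hle2' m
    rwa [FSd_full hQ₁ hcs1, ← hq₂e] at h1
  have hle3 : QLe u v q₂ (fst te) := by
    have h1 := FSd_mono hv hQte hte2 m
    rwa [FSd_full hQte (hem te hte), ← hq₂e] at h1
  have hcs2 : ∀ c ∈ csup q₂, fst c ∈ m := by rw [hq₂e]; exact FSd_rs _ _
  obtain ⟨L₂, hL₂⟩ := Cn_bound hQ₂.2.1
  obtain ⟨j₀, hj₀, hj₀n⟩ := FSd_new (Set.Finite.image snd (mem_Cn.1 hQ₂.2.1).2.1)
  have hto : snd (snd te) ∈ omega := by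
    obtain ⟨a, ha, b, hb, h1⟩ := ZFSet.mem_prod.1 (he.2.1 te hte)
    rw [h1, snd_pair]
    exact hb
  have hnL : nz L₀ ∉ nz L₀ := by
    rw [nz_mem_nz]
    exact lt_irrefl _
  have hs₂ : (insert (pair (pair (nz r) (nz L₀)) (snd (snd te))) s₁ : ZFSet) ∈ Cn (nz (r + 1)) := by
    refine Cn_insert hs₁ (nz_mem_nz.2 (Nat.lt_succ_self r)) (mem_omega.2 ⟨L₀, rfl⟩) hto ?_
    intro t ht h1
    have h2 := hb1 t ht
    rw [h1, snd_pair] at h2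
    exact hnL h2
  obtain ⟨s₂, hs₂e⟩ : ∃ s₂ : ZFSet.{0},
    s₂ = insert (pair (pair (nz r) (nz L₀)) (snd (snd te))) s₁ := ⟨_, rfl⟩
  rw [← hs₂e] at hs₂
  have h12 : s₁ ⊆ s₂ := by
    intro t ht
    rw [hs₂e]
    exact ZFSet.mem_insert_iff.2 (Or.inr ht)
  have hin : pair (pair (nz r) (nz L₀)) (snd (snd te)) ∈ s₂ := by
    rw [hs₂e]
    exact ZFSet.mem_insert_iff.2 (Or.inl rfl)
  obtain ⟨s₃, hs₃, h23, htot3, hnew3⟩ := Cn_fill (Y := nz r) hs₂ hrr (Fnt_nz r)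
    (mem_omega.2 ⟨L₂, rfl⟩) (c := fun _ _ => j₀) (fun _ _ _ _ => hj₀)
  refine ⟨s₃, ZFSet.mem_sep.2 ⟨hs₃, q₂, mem_QP.2 hQ₂,
    QLe_trans (VLe_refl v) hq' hle2 hle1, hcs2, ⟨te, hte, hle3, ?_, ?_⟩, ?_⟩,
    fun t ht => h23 (h12 (h01 ht))⟩
  · rw [hte1]
    exact hLl
  · rw [hte1]
    exact h23 hin
  intro t ht htn y hy hR'
  have hyr' : y ∈ nz r := hyr hR'
  have hx : fst (fst t) ∈ img (fun t => fst t) Rl :=
    mem_img.2 ⟨pair (fst (fst t)) y, hR', fst_pair _ _⟩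
  obtain ⟨ht1, ht2, ht3, ht4⟩ := Cn_elt hQ₂.2.1 ht
  by_cases htp : t ∈ p₁
  · obtain ⟨-, hi, hv3⟩ := hnewp t htp htn
    obtain ⟨j, hj⟩ := htot1 y hyr' (snd (fst t)) hi
    have hjo := (Cn_elt hs₁ hj).2.2.2
    rw [snd_pair] at hjo
    refine ⟨j, hjo, h23 (h12 hj), ?_⟩
    rw [hv3]
    intro e
    exact hcv3 (fst (fst t)) (snd (fst t)) _ hj (by rw [snd_pair]; exact e)
  · have hi : snd (fst t) ∉ nz L₀ := by
      intro hi
      obtain ⟨j, hj⟩ := htotp _ hx _ hi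
      have hj2 : pair (pair (fst (fst t)) (snd (fst t))) j ∈ fst q₂ := by
        refine hle2.1 ?_
        rw [fst_pair]
        exact hj
      have hF := (mem_Cn.1 hQ₂.2.1).2.2
      have he : t = pair (pair (fst (fst t)) (snd (fst t))) j := by
        refine hF.2 t ht _ hj2 ?_
        conv_lhs => rw [ht1]
        rw [fst_pair, fst_pair]
      rw [he] at htp
      exact htp hj
    obtain ⟨j, hj⟩ := htot3 y hyr' (snd (fst t)) (hL₂ t ht)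
    have hjn : pair (pair y (snd (fst t))) j ∉ s₂ := by
      intro h
      rw [hs₂e] at h
      rcases ZFSet.mem_insert_iff.1 h with h | h
      · have h2 := (ZFSet.pair_inj.1 (ZFSet.pair_inj.1 h).1).1
        rw [h2, nz_mem_nz] at hyr'
        exact lt_irrefl _ hyr'
      · have h2 := hb1 _ h
        rw [fst_pair, snd_pair] at h2
        exact hi h2
    obtain ⟨-, -, hv3⟩ := hnew3 _ hj hjn
    rw [snd_pair] at hv3
    refine ⟨j, ?_, hj, ?_⟩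
    · rw [hv3]
      exact hj₀
    · rw [hv3]
      intro e
      exact hj₀n ⟨t, ht, e.symm⟩

end H83.PN
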