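import Pool.Agent.H83.PN.FSd
import Pool.Agent.H83.PN.PSe

set_option autoImplicit false

/-!
# Module FSl: the variant of the sealing lemma

Compare with `sealing` in `PN/PSe.lean` (copy the proof). Let `q = (h, g)`. `g' = {s ∈ g : fst s ∈ vS v, snd s ∉ vL v, fst (fst s) ∈ m}` (finite), `e'` an injective enumeration of `g'` on `nz r`,
`σ y = pair (snd (e' y)) (app (vf v') (e' y))` for `y ∈ nz r`, and `σ (nz r) = pair (dom u) (pair m i)`. `σ` is injective on `nz (r + 1)`: for `y ∈ nz r` the label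
`fst (app (vf v') (e' y)) = fst (fst (e' y)) ∈ m` (fourth clause of `VLe v' v`), so it is different from `m` (`ZFSet.mem_irrefl`). `dom u ∈ dom u'`, `dom u ∉ dom u`.
`Rl = {pair (fst (e' y)) y : y ∈ nz r}`, `q₀ = rsQ (rqS q (vS v) (vL v)) m`. `gen_prod` with `Y = nz (r + 1)` and `Esx_mem`, `Esx_dense` gives `s ∈ Esx ..` which fits; let `q₁`, `t` belong to `s`.
`q₂ = q ∪ q₁` (`QLe_join` for `u', v'`): (a) if `t' ∈ h`, `t'' ∈ fst q₁` have the same first component then the coordinate is in `vS v` and in a column of `m`, so `t' ∈ fst q₀ ⊆ fst q₁`. (b) `t' ∈ fst q₁`, `t' ∉ h`,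
`s' ∈ g` with the same coordinate `c ∈ vS v`, `fst c ∈ m`: if `snd s' ∈ vL v` then `s' ∈ snd q₀`; otherwise `s' ∈ g'`, `s' = e' y`, as in PSe. (c) as in PSe. `QLe u' v q₂ (fst t)` as for `d` in PSe (`fst t ∈ QP v`).
`snd t ∈ app (uF u' (dom u)) (pair m i)`: `s` fits, the index is `nz r`; `snd t = pair (fst (snd t)) (snd (snd t))` because `snd t ∈ prod omega omega` (`RNm`).
-/

namespace H83.PN

open ZFSet H83.AC

variable {M : Set ZFSet.{0}} {K H : ZFSet.{0}}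

private theorem FSl_lt {α β : ZFSet.{0}} (ha : rk α = α) (hb : rk β = β)
    (h : rank α < rank β) : α ∈ β := by
  rw [← ha, ← hb]
  exact rk_mem_rk.2 h

private theorem FSl_le {α β : ZFSet.{0}} (ha : rk α = α) (hb : rk β = β) (h : α ⊆ β) :
    α ∈ β ∨ α = β := by
  rcases lt_trichotomy (rank α) (rank β) with h1 | h1 | h1
  · exact Or.inl (FSl_lt ha hb h1)
  · right
    rw [← ha, ← hb]
    exact rk_eq_rk.2 h1
  · exact absurd (h (FSl_lt hb ha h1)) (ZFSet.mem_irrefl _)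

private theorem FSl_enum {g : ZFSet.{0}} (hg : Fnt g) : ∃ (r : ℕ) (e : ZFSet.{0} → ZFSet.{0}),
    (∀ y ∈ nz r, e y ∈ g) ∧ (∀ s ∈ g, ∃ y ∈ nz r, e y = s) ∧
    ∀ y ∈ nz r, ∀ y' ∈ nz r, e y = e y' → y = y' := by
  classical
  refine Fnt_ind (P := fun g => ∃ (r : ℕ) (e : ZFSet.{0} → ZFSet.{0}),
    (∀ y ∈ nz r, e y ∈ g) ∧ (∀ s ∈ g, ∃ y ∈ nz r, e y = s) ∧
    ∀ y ∈ nz r, ∀ y' ∈ nz r, e y = e y' → y = y') ?_ ?_ hg
  · refine ⟨0, id, ?_, ?_, ?_⟩
    · intro y hy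
      obtain ⟨m, hm, -⟩ := mem_nz.1 hy
      omega
    · intro s hs
      exact absurd hs (notMem_empty s)
    · intro y hy
      obtain ⟨m, hm, -⟩ := mem_nz.1 hy
      omega
  · rintro s x - hx ⟨r, e, h1, h2, h3⟩
    have hlt : ∀ y ∈ nz r, y ≠ nz r := by
      intro y hy
      obtain ⟨m, hm, rfl⟩ := mem_nz.1 hy
      intro he
      have := nz_inj.1 he
      omega
    have hc : ∀ y ∈ nz (r + 1), y = nz r ∨ y ∈ nz r := by
      intro y hy
      obtain ⟨m, hm, rfl⟩ := mem_nz.1 hy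
      rcases Nat.lt_succ_iff_lt_or_eq.1 hm with h | h
      · exact Or.inr (nz_mem_nz.2 h)
      · exact Or.inl (by rw [h])
    have hup : ∀ y ∈ nz r, y ∈ nz (r + 1) := by
      intro y hy
      obtain ⟨m, hm, rfl⟩ := mem_nz.1 hy
      exact nz_mem_nz.2 (by omega)
    refine ⟨r + 1, fun y => if y = nz r then x else e y, ?_, ?_, ?_⟩
    · intro y hy
      rcases hc y hy with h | h
      · simp only [if_pos h]
        exact mem_insert_iff.2 (Or.inl rfl)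
      · simp only [if_neg (hlt y h)]
        exact mem_insert_iff.2 (Or.inr (h1 y h))
    · intro t ht
      rcases mem_insert_iff.1 ht with rfl | ht
      · exact ⟨nz r, nz_mem_nz.2 (Nat.lt_succ_self r), if_pos rfl⟩
      · obtain ⟨y, hy, rfl⟩ := h2 t ht
        exact ⟨y, hup y hy, if_neg (hlt y hy)⟩
    · intro y hy y' hy' he
      rcases hc y hy with h | h
      · rcases hc y' hy' with h' | h'
        · rw [h, h']
        · simp only [if_pos h, if_neg (hlt y' h')] at he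
          rw [he] at hx
          exact absurd (h1 y' h') hx
      · rcases hc y' hy' with h' | h'
        · simp only [if_neg (hlt y h), if_pos h'] at he
          rw [← he] at hx
          exact absurd (h1 y h) hx
        · simp only [if_neg (hlt y h), if_neg (hlt y' h')] at he
          exact h3 y h y' h' he

private theorem FSl_succ {r : ℕ} {y : ZFSet.{0}} (hy : y ∈ nz (r + 1)) :
    y = nz r ∨ (y ∈ nz r ∧ y ≠ nz r) := by
  obtain ⟨m, hm, rfl⟩ := mem_nz.1 hy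
  rcases Nat.lt_succ_iff_lt_or_eq.1 hm with h | h
  · refine Or.inr ⟨nz_mem_nz.2 h, fun h1 => ?_⟩
    have := nz_inj.1 h1
    omega
  · exact Or.inl (by rw [h])

theorem sealing_x {A u v W e u' v' m l₀ i : ZFSet.{0}} (hu : UU A u) (hv : VV v)
    (hd : dom u = vL v) (hW : Nx (ws u) W) (huW : u ∈ W) (hvW : v ∈ W) (hm : m ∈ omega)
    (hl : l₀ ∈ omega) (hi : i ∈ omega) (he : RNm W u v e)
    (hem : ∀ t ∈ e, ∀ c ∈ csup (fst t), fst c ∈ m) (hu' : UU A u') (hv' : VV v')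
    (hd' : dom u' = vL v') (hs : u ⊆ u') (hle : VLe v' v) (hlt : dom u ∈ dom u')
    {q : ZFSet.{0}} (hq : QQ v' q) :
    ∃ t ∈ e, ∃ q₂, QQ v' q₂ ∧ QLe u' v' q₂ q ∧ QLe u' v q₂ (fst t) ∧ fst (snd t) ∉ l₀ ∧
      snd t ∈ app (uF u' (dom u)) (pair m i) := by
  classical
  have hWd : Wd W := hW.1
  have hT : TM (cls W) := hWd.1
  -- members of `W`
  have hvp : v = pair (vL v) (pair (vS v) (vf v)) := hv.1
  have hv2 : pair (vL v) (pair (vS v) (vf v)) ∈ cls W := by rw [← hvp]; exact hvW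
  have hSL : ∀ {a b : ZFSet.{0}}, pair a b ∈ cls W → a ∈ cls W ∧ b ∈ cls W := by
    intro a b hab
    have h1 : ({a, b} : ZFSet.{0}) ∈ pair a b := by
      rw [pair]; exact mem_pair.2 (Or.inr rfl)
    have h2 := hT.tr _ hab _ h1
    exact ⟨hT.tr _ h2 _ (mem_pair.2 (Or.inl rfl)), hT.tr _ h2 _ (mem_pair.2 (Or.inr rfl))⟩
  have hLW : vL v ∈ cls W := (hSL hv2).1
  have hSW : vS v ∈ cls W := (hSL (hSL hv2).2).1
  have hSe : ∀ c ∈ vS v, c ∈ cls W := fun c hc => hT.tr _ hSW _ hc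
  have hLe : ∀ c ∈ vL v, c ∈ cls W := fun c hc => hT.tr _ hLW _ hc
  have hom : ∀ y ∈ omega, y ∈ cls W := fun y hy => hT.tr _ hT.omega _ hy
  -- the promises beyond the length of `v`
  set g' : ZFSet.{0} := ZFSet.sep (fun s => fst s ∈ vS v ∧ snd s ∉ vL v ∧ fst (fst s) ∈ m)
    (snd q) with hg'
  have hgq : snd q ⊆ ZFSet.prod (vS v') (vL v') ∧ Fnt (snd q) := mem_Fs.1 hq.2.2
  have hg'm : ∀ s, s ∈ g' ↔ s ∈ snd q ∧ fst s ∈ vS v ∧ snd s ∉ vL v ∧ fst (fst s) ∈ m := by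
    intro s
    rw [hg', mem_sep]
  have hg'f : Fnt g' := Fnt_sub hgq.2 fun s h => ((hg'm s).1 h).1
  obtain ⟨r, en, he1, he2, he3⟩ := FSl_enum hg'f
  have hgp : ∀ s ∈ snd q, s = pair (fst s) (snd s) ∧ fst s ∈ vS v' ∧ snd s ∈ vL v' :=
    (QQ_elt hq).2
  set σ : ZFSet.{0} → ZFSet.{0} := fun y => if y = nz r then pair (dom u) (pair m i) else
    pair (snd (en y)) (app (vf v') (en y)) with hσdef
  have hσr : σ (nz r) = pair (dom u) (pair m i) := by rw [hσdef]; exact if_pos rfl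
  have hσ0 : ∀ y, y ≠ nz r → σ y = pair (snd (en y)) (app (vf v') (en y)) := by
    intro y hy
    rw [hσdef]
    exact if_neg hy
  have hσ1 : ∀ y, y ≠ nz r → fst (σ y) = snd (en y) := fun y hy => by
    rw [hσ0 y hy, fst_pair]
  have hσ2 : ∀ y, y ≠ nz r → snd (σ y) = app (vf v') (en y) := fun y hy => by
    rw [hσ0 y hy, snd_pair]
  have hrn : ∀ y ∈ nz r, y ∈ omega := by
    intro y hy
    obtain ⟨m, -, rfl⟩ := mem_nz.1 hy
    exact nz_mem_omega m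
  have hnzW : nz (r + 1) ∈ cls W := hom _ (nz_mem_omega (r + 1))
  have hnz0 : nz r ∈ cls W := hom _ (nz_mem_omega r)
  have hup : ∀ y ∈ nz r, y ∈ nz (r + 1) := by
    intro y hy
    obtain ⟨m, hm, rfl⟩ := mem_nz.1 hy
    exact nz_mem_nz.2 (by omega)
  have hnr : ∀ y ∈ nz r, y ≠ nz r := by
    intro y hy h1
    rw [h1] at hy
    exact ZFSet.mem_irrefl _ hy
  -- the relation between coordinates and indices
  set Rl : ZFSet.{0} := img (fun y => pair (fst (en y)) y) (nz r) with hRl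
  have hRlm : ∀ c y, pair c y ∈ Rl ↔ y ∈ nz r ∧ c = fst (en y) := by
    intro c y
    rw [hRl, mem_img]
    constructor
    · rintro ⟨z, hz, h⟩
      obtain ⟨h1, h2⟩ := pair_inj.1 h
      subst h2
      exact ⟨hz, h1.symm⟩
    · rintro ⟨h1, h2⟩
      exact ⟨y, h1, by rw [h2]⟩
  have hRlf : Fnt Rl := Fnt_img (Fnt_nz r)
  have hRls : Rl ⊆ ZFSet.prod (vS v) (nz r) := by
    intro t ht
    rw [hRl] at ht
    obtain ⟨y, hy, rfl⟩ := mem_img.1 ht
    exact pair_mem_prod.2 ⟨((hg'm _).1 (he1 y hy)).2.1, hy⟩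
  have hRm : ∀ t ∈ Rl, fst (fst t) ∈ m := by
    intro t ht
    rw [hRl] at ht
    obtain ⟨y, hy, rfl⟩ := mem_img.1 ht
    rw [fst_pair]
    exact ((hg'm _).1 (he1 y hy)).2.2.2
  have hRlW : Rl ∈ W := by
    refine fin_mem hT (fun t ht => ?_) hRlf
    rw [hRl] at ht
    obtain ⟨y, hy, rfl⟩ := mem_img.1 ht
    exact hT.pair (hSe _ ((hg'm _).1 (he1 y hy)).2.1) (hom _ (hrn y hy))
  -- the restriction of `q`
  set q₀ : ZFSet.{0} := rsQ (rqS q (vS v) (vL v)) m with hq₀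
  have hq₀Q : QQ v q₀ := QQ_mono (VLe_rsV hv m) (QQ_rsQ hv (QQ_rqS (u := u) hq hle).1 m)
  have hq₀f : ∀ t, t ∈ fst q₀ ↔ (t ∈ fst q ∧ fst (fst t) ∈ vS v) ∧ fst (fst (fst t)) ∈ m := by
    intro t
    rw [hq₀, rsQ, fst_pair, mem_sep, rqS, fst_pair, mem_sep]
  have hq₀s : ∀ s, s ∈ snd q₀ ↔ (s ∈ snd q ∧ fst s ∈ vS v ∧ snd s ∈ vL v) ∧
      fst (fst s) ∈ m := by
    intro s
    rw [hq₀, rsQ, snd_pair, mem_sep, rqS, snd_pair, mem_sep]
  have hq₀m : ∀ c ∈ csup q₀, fst c ∈ m := by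
    intro c hc
    rw [csup, ZFSet.mem_union, mem_img, mem_img] at hc
    rcases hc with ⟨t, ht, rfl⟩ | ⟨t, ht, rfl⟩
    · exact ((hq₀f t).1 ht).2
    · exact ((hq₀s t).1 ht).2
  have hq₀W : q₀ ∈ W := by
    have h1 : pair (fst q₀) (snd q₀) ∈ cls W := by
      refine hT.pair (Cn_N hT hSe hq₀Q.2.1) ?_
      have h2 := mem_Fs.1 hq₀Q.2.2
      refine fin_mem hT (fun s hs => ?_) h2.2
      obtain ⟨h3, h4, h5⟩ := (QQ_elt hq₀Q).2 s hs
      rw [h3]
      exact hT.pair (hSe _ h4) (hLe _ h5)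
    rw [← hq₀Q.1] at h1
    exact h1
  -- genericity
  have hsub := UU_sub hu hu' hs
  have hWu : Nx (fgr (fun β => uW u' β) (dom u)) W := by
    have h1 : fgr (fun β => uW u' β) (dom u) = ws u := by
      rw [ws]
      refine fgr_congr fun β hβ => ?_
      rw [uW, uW, hsub.2.1 β hβ]
    rw [h1]
    exact hW
  have hlab : ∀ y ∈ nz r, fst (app (vf v') (en y)) ∈ m := by
    intro y hy
    have h1 := (hg'm _).1 (he1 y hy)
    have h2 := hgp _ h1.1
    have h3 := hle.2.2.2.1 _ h1.2.1 (snd (en y)) h2.2.2 h1.2.2.1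
    rw [← h2.1] at h3
    rw [h3]
    exact h1.2.2.2
  have hrr : ∀ y ∈ nz r, σ y ≠ σ (nz r) := by
    intro y hy h
    rw [hσr, hσ0 y (hnr y hy)] at h
    obtain ⟨-, h4⟩ := pair_inj.1 h
    have h5 := hlab y hy
    rw [h4, fst_pair] at h5
    exact ZFSet.mem_irrefl _ h5
  have hgen := gen_prod hu' (Or.inl hlt) hWu hnzW (Fnt_nz (r + 1)) (σ := σ) (by
    intro y hy
    rcases FSl_succ hy with rfl | ⟨hy, hyn⟩
    · rw [hσr, fst_pair, snd_pair]
      refine ⟨rfl, hlt, ZFSet.mem_irrefl _, ?_⟩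
      exact pair_mem_prod.2 ⟨hm, hi⟩
    · have h1 := (hg'm _).1 (he1 y hy)
      have h2 := hgp _ h1.1
      refine ⟨?_, ?_, ?_, ?_⟩
      · rw [hσ1 y hyn, hσ2 y hyn, hσ0 y hyn]
      · rw [hσ1 y hyn, hd']
        exact h2.2.2
      · rw [hσ1 y hyn, hd]
        exact h1.2.2.1
      · rw [hσ2 y hyn]
        exact hv'.2.2.2.2 _ (hgq.1 h1.1)) (by
    intro y hy y' hy' h
    rcases FSl_succ hy with rfl | ⟨hy, hyn⟩
    · rcases FSl_succ hy' with rfl | ⟨hy', hyn'⟩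
      · rfl
      · exact absurd h.symm (hrr y' hy')
    · rcases FSl_succ hy' with rfl | ⟨hy', hyn'⟩
      · exact absurd h (hrr y hy)
      · have h1 := (hg'm _).1 (he1 y hy)
        have h1' := (hg'm _).1 (he1 y' hy')
        have h2 := hgp _ h1.1
        have h2' := hgp _ h1'.1
        rw [hσ0 y hyn, hσ0 y' hyn'] at h
        obtain ⟨h3, h4⟩ := pair_inj.1 h
        refine he3 y hy y' hy' ?_
        by_contra hne
        have hc : fst (en y) ≠ fst (en y') := by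
          intro hc
          apply hne
          rw [h2.1, h2'.1, hc, h3]
        have h5 := hle.2.2.2.2 _ h1.2.1 _ h1'.2.1 hc (snd (en y)) h2.2.2 h1.2.2.1
        apply h5
        rw [← h2.1]
        have h6 : pair (fst (en y')) (snd (en y)) = en y' := by rw [h3]; exact h2'.1.symm
        rw [h6]
        exact h4)
  obtain ⟨s, hsE, hsF⟩ := hgen (Esx u v e m l₀ q₀ Rl (nz (r + 1)) (nz r))
    (Esx_mem hWd huW hvW he.1.1 (hom _ hm) (hom _ hl) hq₀W hRlW hnzW hnz0)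
    (Esx_dense hu hv (by rw [hd]) he hem hl hq₀Q hq₀m hRlf hRls hRm)
  rw [Esx, mem_sep] at hsE
  obtain ⟨hsC, q₁, hq₁P, hq₁0, hq₁m, ⟨t₀, ht₀e, hq₁t, hlt₀, hst₀⟩, hq₁s⟩ := hsE
  have hq₁ : QQ v q₁ := mem_QP.1 hq₁P
  have hq₁' : QQ v' q₁ := QQ_mono hle hq₁
  have hLu : vL v ⊆ dom u := by rw [hd]
  have hLu' : vL v' ⊆ dom u' := by rw [hd']
  have h0f : ∀ t ∈ fst q₀, t ∈ fst q := fun t ht => ((hq₀f t).1 ht).1.1
  have hc1 : ∀ t ∈ fst q₁, fst (fst (fst t)) ∈ m := by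
    intro t ht
    refine hq₁m _ ?_
    rw [csup, ZFSet.mem_union, mem_img]
    exact Or.inl ⟨t, ht, rfl⟩
  have hc2 : ∀ t ∈ snd q₁, fst (fst t) ∈ m := by
    intro t ht
    refine hq₁m _ ?_
    rw [csup, ZFSet.mem_union, mem_img, mem_img]
    exact Or.inr ⟨t, ht, rfl⟩
  have hrlE : ∀ y, y ≠ nz r → rl u' v' (en y) = app (uF u' (fst (σ y))) (snd (σ y)) := by
    intro y hy
    rw [hσ1 y hy, hσ2 y hy, rl]
  obtain ⟨hj1, hj2, hj3⟩ := QLe_join (u := u') hq hq₁' (by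
    intro t ht t' ht' hE
    have h1 := ((QQ_elt hq₁).1 t' ht').2.1
    have h3 := hc1 t' ht'
    rw [← hE] at h1 h3
    have h2 : t ∈ fst q₁ := hq₁0.1 ((hq₀f t).2 ⟨⟨ht, h1⟩, h3⟩)
    exact (mem_Cn.1 hq₁.2.1).2.2.2 t h2 t' ht' hE) (by
    intro t ht htn s' hs' hE
    have h1 := (QQ_elt hq₁).1 t ht
    have h2 : fst s' ∈ vS v := by rw [hE]; exact h1.2.1
    have h2m : fst (fst s') ∈ m := by rw [hE]; exact hc1 t ht
    have ht0 : t ∉ fst q₀ := fun h => htn (h0f t h)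
    by_cases hγ : snd s' ∈ vL v
    · have h3 : s' ∈ snd q₀ := (hq₀s s').2 ⟨⟨hs', h2, hγ⟩, h2m⟩
      have h4 := hq₁0.2.2 t ht ht0 s' h3 hE
      have h5 : s' ∈ ZFSet.prod (vS v) (vL v) := (mem_Fs.1 hq₀Q.2.2).1 h3
      rw [rl_mono hle h5, rl_u hu hu' hs hLu h5]
      exact h4
    · obtain ⟨y, hy, rfl⟩ := he2 s' ((hg'm s').2 ⟨hs', h2, hγ, h2m⟩)
      obtain ⟨j, hj, hjs, hjn⟩ := hq₁s t ht ht0 y (hup y hy) ((hRlm _ _).2 ⟨hy, hE.symm⟩)
      have h3 := hsF _ hjs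
      simp only [fst_pair, snd_pair] at h3
      intro h4
      have h5 : IsFunc omega omega (rl u' v' (en y)) := rl_real hu' hv' hLu' (hgq.1 hs')
      obtain ⟨w, -, hw⟩ := h5.2 _ h1.2.2.1
      have h6 : pair (snd (fst t)) j ∈ rl u' v' (en y) := by
        rw [hrlE y (hnr y hy)]
        exact h3
      exact hjn ((hw _ h6).trans (hw _ h4).symm)) (by
    intro t ht htn s' hs' hE
    exfalso
    have h1 := ((QQ_elt hq₁).2 s' hs').2.1
    have h2 := hc2 s' hs'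
    rw [hE] at h1 h2
    exact htn (hq₁0.1 ((hq₀f t).2 ⟨⟨ht, h1⟩, h2⟩)))
  have hQt : QQ v (fst t₀) := mem_QP.1 (he.1.2.1 t₀ ht₀e).2.1
  refine ⟨t₀, ht₀e, _, hj1, hj2, ?_, hlt₀, ?_⟩
  · exact QLe_trans hle hQt hj3 ((QLe_u hu hu' hs hLu hQt).2 hq₁t)
  · have h1 := hsF _ hst₀
    simp only [fst_pair, snd_pair] at h1
    rw [hσr, fst_pair, snd_pair] at h1
    obtain ⟨a, ha, b, hb, hab⟩ := ZFSet.mem_prod.1 (he.2.1 t₀ ht₀e)
    rw [hab] at h1 ⊢
    rw [fst_pair, snd_pair] at h1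
    exact h1

end H83.PN
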