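import Pool.Agent.H83.PN.DefsP
import Pool.Agent.H83.AC.Elem

set_option autoImplicit false

/-!
# Module FTh: elementarily equivalent sets

`Wd_eqv`: (1) `Eqv K W` gives: if `SatIn (cls K) φ v` holds for all `v` with values in `K`, then `SatIn (cls W) φ v` holds for all `v` with values in
`W`: let `φ.bd n` (`Fml.exists_bd`) and let `ψ` be `φ` with `n` universal quantifiers (`Nat.iterate Fml.all n φ`); `SatIn (cls K) ψ (fun _ => ∅)` iff `φ` holds for all assignments
(`satIn_congr`: `φ` depends only on the first `n` variables). The same for `W`. (2) `TM (cls W)`: `W` is transitive, and `IsZF (memN (cls W))`: as in the proof of `isZF_elem` in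
`AC/Elem.lean` (use `Elem.key_sep`, `Elem.key_rep` and the formulas for the other axioms written there), each axiom (of the schemas) is the validity of one formula, it is valid in `K`
(`hK.1`), so in `W` by (1). (`sat_iff` connects `Sat` for the subtype and `SatIn`.) (3) `VL (cls W)`: `∀ z ∈ N, ∃ x ∈ N, z ∈ Lh x` is uniformly definable (`UR`, `Inst.Lh`), take
its formula for the models `cls K`, `cls W` of ZF.
`Thy_mem`: `mem_FC`, `SatZ_iff`, `asv ∅ i = ∅`. `Thy_N`: `Thy K` is uniformly definable (`UR.SatZ` contains the condition `∅ ∈ Asg K`, which holds).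
-/

namespace H83.PN

open ZFSet H83.AC

variable {M : Set ZFSet.{0}} {K H : ZFSet.{0}}

theorem asv_empty (i : ℕ) : asv ∅ i = ∅ := by
  show app ∅ (nz i) = ∅
  rw [ZFSet.eq_empty]
  intro z hz
  unfold H83.AC.app at hz
  rw [mem_sUnion] at hz
  obtain ⟨y, hy, _⟩ := hz
  rw [mem_sep] at hy
  exact ZFSet.notMem_empty _ hy.2

private theorem FTh_asv : asv ∅ = fun _ => ∅ := funext asv_empty

/-- universal quantifiers -/
private def FThAlls : ℕ → Fml → Fml
  | 0, φ => φ
  | n + 1, φ => FThAlls n (.all φ)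

private theorem FTh_up {X : Set ZFSet.{0}} : ∀ (n : ℕ) (φ : Fml),
    (∀ v : ℕ → ZFSet.{0}, (∀ i, v i ∈ X) → SatIn X φ v) →
    ∀ v : ℕ → ZFSet.{0}, (∀ i, v i ∈ X) → SatIn X (FThAlls n φ) v
  | 0, _, h => h
  | n + 1, φ, h => FTh_up n (.all φ) fun v hv x hx => h _ fun i => by
      cases i with
      | zero => exact hx
      | succ i => exact hv i

private theorem FTh_down {X : Set ZFSet.{0}} {w : ℕ → ZFSet.{0}} : ∀ (n : ℕ) (φ : Fml),
    φ.bd n → SatIn X (FThAlls n φ) w →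
    ∀ v : ℕ → ZFSet.{0}, (∀ i, v i ∈ X) → SatIn X φ v
  | 0, φ, hb, h => fun v _ => (satIn_congr φ hb (fun i hi => absurd hi (Nat.not_lt_zero i))).1 h
  | n + 1, φ, hb, h => fun v hv => by
      have h1 := FTh_down n (.all φ) hb h (sh v) fun i => hv (i + 1)
      have h2 := h1 (v 0) (hv 0)
      have e : cons (v 0) (sh v) = v := by
        funext i
        cases i <;> rfl
      rwa [e] at h2

private theorem FTh_tr {K W : ZFSet.{0}} (h0 : ∅ ∈ K) (h : Eqv K W) (φ : Fml)
    (hK : ∀ v : ℕ → ZFSet.{0}, (∀ i, v i ∈ cls K) → SatIn (cls K) φ v) :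
    ∀ v : ℕ → ZFSet.{0}, (∀ i, v i ∈ cls W) → SatIn (cls W) φ v := by
  obtain ⟨n, hn⟩ := φ.exists_bd
  exact FTh_down n φ hn ((h _).1 (FTh_up n φ hK _ fun _ => h0))

private theorem FTh_sat {K W : ZFSet.{0}} (h0 : ∅ ∈ K) (h : Eqv K W) (φ : Fml)
    (hK : ∀ v : ℕ → cls K, Sat (memN (cls K)) φ v) :
    ∀ v : ℕ → cls W, Sat (memN (cls W)) φ v := by
  intro v
  rw [sat_iff]
  refine FTh_tr h0 h φ (fun u hu => ?_) _ fun i => (v i).2
  exact (sat_iff (cls K) φ (fun i => ⟨u i, hu i⟩)).1 (hK _)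

open Elem in
private theorem FTh_zf {K W : ZFSet.{0}} (h0 : ∅ ∈ K) (h0W : ∅ ∈ W) (h : Eqv K W)
    (hE : IsZF (memN (cls K))) : IsZF (memN (cls W)) := by
  let a : cls W := ⟨∅, h0W⟩
  have tr := FTh_sat h0 h
  refine ⟨⟨a⟩, ?_, ?_, ?_, ?_, ?_, ?_, ?_, ?_⟩
  · -- extensionality
    have := tr (.all (.all (.imp (.all (equ (.mem 0 2) (.mem 0 1))) (.eq 1 0)))) (fun v => by
      simp only [sat_all, sat_imp, sat_equ, sat_mem, sat_eq, cons]
      exact hE.extensionality) (fun _ => a)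
    simpa only [sat_all, sat_imp, sat_equ, sat_mem, sat_eq, cons] using this
  · -- foundation
    have := tr (.all (.imp (exi (.mem 0 1)) (exi (conj (.mem 0 1)
      (.all (.imp (.mem 0 1) (neg (.mem 0 2)))))))) (fun v => by
      simp only [sat_all, sat_imp, sat_exi, sat_conj, sat_neg, sat_mem, sat_eq, cons]
      exact hE.foundation) (fun _ => a)
    simpa only [sat_all, sat_imp, sat_exi, sat_conj, sat_neg, sat_mem, sat_eq, cons] using this
  · -- pairing
    have := tr (.all (.all (exi (.all (equ (.mem 0 1) (disj (.eq 0 3) (.eq 0 2))))))) (fun v => by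
      simp only [sat_all, sat_imp, sat_exi, sat_equ, sat_disj, sat_neg, sat_mem, sat_eq, cons]
      exact hE.pairing) (fun _ => a)
    simpa only [sat_all, sat_imp, sat_exi, sat_equ, sat_disj, sat_neg, sat_mem, sat_eq, cons]
      using this
  · -- union
    have := tr (.all (exi (.all (equ (.mem 0 1) (exi (conj (.mem 0 3) (.mem 1 0))))))) (fun v => by
      simp only [sat_all, sat_imp, sat_exi, sat_equ, sat_conj, sat_neg, sat_mem, sat_eq, cons]
      exact hE.union) (fun _ => a)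
    simpa only [sat_all, sat_imp, sat_exi, sat_equ, sat_conj, sat_neg, sat_mem, sat_eq, cons]
      using this
  · -- power set
    have := tr (.all (exi (.all (equ (.mem 0 1) (.all (.imp (.mem 0 1) (.mem 0 3))))))) (fun v => by
      simp only [sat_all, sat_imp, sat_exi, sat_equ, sat_conj, sat_neg, sat_mem, sat_eq, cons]
      exact hE.powerset) (fun _ => a)
    simpa only [sat_all, sat_imp, sat_exi, sat_equ, sat_conj, sat_neg, sat_mem, sat_eq, cons]
      using this
  · -- infinity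
    have := tr (exi (conj (exi (conj (.mem 0 1) (.all (neg (.mem 0 1)))))
      (.all (.imp (.mem 0 1) (exi (conj (.mem 0 2)
        (.all (equ (.mem 0 1) (disj (.mem 0 2) (.eq 0 2)))))))))) (fun v => by
      simp only [sat_all, sat_imp, sat_exi, sat_equ, sat_conj, sat_disj, sat_neg, sat_mem, sat_eq,
        cons]
      exact hE.infinity) (fun _ => a)
    simpa only [sat_all, sat_imp, sat_exi, sat_equ, sat_conj, sat_disj, sat_neg, sat_mem, sat_eq,
      cons] using this
  · -- separation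
    intro φ v x
    have h1 := tr _ (fun u => by
      have e : cons (u 0) (sh u) = u := by
        funext i
        cases i <;> rfl
      rw [← e]
      exact (key_sep φ (memN (cls K)) (u 0) (sh u)).2 (hE.separation φ _ _)) (cons x v)
    exact (key_sep φ (memN (cls W)) x v).1 h1
  · -- replacement
    intro φ v x
    have h1 := tr _ (fun u => by
      have e : cons (u 0) (sh u) = u := by
        funext i
        cases i <;> rfl
      rw [← e]
      exact (key_rep φ (memN (cls K)) (u 0) (sh u)).2 (hE.replacement φ _ _)) (cons x v)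
    exact (key_rep φ (memN (cls W)) x v).1 h1

private theorem FTh_vl : UR (fun N _ => VL N) := by
  have h1 : UR (fun N v => v 1 ∈ H83.AC.Lh (v 0)) := by infer_instance
  have h2 : UR (fun N v => ∃ x ∈ N, v 0 ∈ H83.AC.Lh x) :=
    UD.exN (R := fun _ x v => v 0 ∈ H83.AC.Lh x) h1
  exact UD.allN (R := fun N z _ => ∃ x ∈ N, z ∈ H83.AC.Lh x) h2

theorem Wd_eqv {K W : ZFSet.{0}} (hK : Wd K) (htr : ∀ x ∈ W, x ⊆ W) (h0 : ∅ ∈ W)
    (h : Eqv K W) : Wd W := by
  have h0K : ∅ ∈ K := by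
    obtain ⟨⟨x, hx⟩⟩ := hK.1.zf.nonempty
    have hHF : (∅ : ZFSet.{0}) ∈ cls K := by
      have := (UF.empty : UF (fun _ _ => (∅ : ZFSet.{0}))).mem (cls K) hK.1
        (fun _ => x) (fun _ => hx)
      exact this
    exact hHF
  have htm : TM (cls W) := ⟨fun x hx y hy => htr x hx hy, FTh_zf h0K h0 h hK.1.zf⟩
  refine ⟨htm, ?_⟩
  obtain ⟨φ, hφ⟩ := FTh_vl.out
  have h1 : ∀ v : ℕ → cls K, Sat (memN (cls K)) φ v := fun v => (hφ _ hK.1 v).1 hK.2
  have h2 := FTh_sat h0K h φ h1 (fun _ => ⟨∅, h0⟩)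
  exact (hφ _ htm _).2 h2

theorem Thy_mem {K : ZFSet.{0}} {φ : Fml} :
    fcd φ ∈ Thy K ↔ SatIn (cls K) φ (fun _ => ∅) := by
  unfold Thy
  rw [mem_sep, SatZ_iff, FTh_asv]
  exact ⟨fun h => h.2, fun h => ⟨mem_FC.2 ⟨φ, rfl⟩, h⟩⟩

private theorem FTh_asg (K : ZFSet.{0}) : (∅ : ZFSet.{0}) ∈ Asg K := by
  refine mem_Asg.2 ⟨ZFSet.empty_subset _, Fnt_empty, fun t ht => ?_, fun t ht => ?_⟩
  · exact absurd ht (ZFSet.notMem_empty _)
  · exact absurd ht (ZFSet.notMem_empty _)

theorem Thy_N {N : Set ZFSet.{0}} (hN : TM N) {K : ZFSet.{0}} (hK : K ∈ N) : Thy K ∈ N := by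
  have h1 : UR (fun N v => (∅ : ZFSet.{0}) ∈ Asg (v 1) ∧ H83.PN.SatZ (v 1) (v 0) ∅) :=
    UR.SatZ (f := fun _ v => v 1) (g := fun _ v => v 0) (h := fun _ _ => ∅)
      (UF.var 1) (UF.var 0) (by infer_instance)
  have h2 : UF (fun N v => ZFSet.sep
      (fun a => (∅ : ZFSet.{0}) ∈ Asg (v 0) ∧ H83.PN.SatZ (v 0) a ∅) H83.PN.FC) :=
    UF.sep (R := fun _ a v => (∅ : ZFSet.{0}) ∈ Asg (v 0) ∧ H83.PN.SatZ (v 0) a ∅) UF.FC h1
  have h3 := h2.mem N hN (fun _ => K) (fun _ => hK)
  have e : Thy K = ZFSet.sep (fun a => (∅ : ZFSet.{0}) ∈ Asg K ∧ H83.PN.SatZ K a ∅) H83.PN.FC := by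
    unfold Thy
    ext a
    rw [mem_sep, mem_sep]
    exact and_congr_right fun _ => ⟨fun h => ⟨FTh_asg K, h⟩, fun h => h.2⟩
  rw [e]
  exact h3

theorem Eqv_of {K W : ZFSet.{0}} (h : ∀ a ∈ Thy K, SatZ W a ∅) : Eqv K W := by
  have h1 : ∀ φ : Fml, SatIn (cls K) φ (fun _ => ∅) → SatIn (cls W) φ (fun _ => ∅) := by
    intro φ hφ
    have := h _ (Thy_mem.2 hφ)
    rwa [SatZ_iff, FTh_asv] at this
  intro φ
  refine ⟨h1 φ, fun hW => ?_⟩
  by_contra hK
  exact h1 (Elem.neg φ) hK hW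

end H83.PN
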