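import Pool.Agent.H83.PN.PCa

set_option autoImplicit false

/-!
# Module PCe: closed, locally constant and continuous

Take maxima of finitely many natural numbers (`cap_mono`). `TLoc_mem`: `h ∈ HF` is in some `Lh (nz n)`.
`TCon_lft`: `h ∈ Lh n` iff .. : the set `{pair ∅ h : h ∈ Lh n}` is finite, hence contained in some `Lh m`.
In general `TCon_of`: it is enough that for every `h ∈ HF` the predicate `h ∈ F z` is locally constant (`Lh n` is
finite: `HF_finite`). `TCon_jn`: `jn (F z) (G z)`.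
-/

namespace H83.PN

open ZFSet H83.AC

section
variable {N : Set ZFSet.{0}} {P Q : ZFSet.{0} → Prop}

private theorem PCe_fin {R : ZFSet.{0} → ZFSet.{0} → Prop} {z : ZFSet.{0}}
    (s : Set ZFSet.{0}) (hs : s.Finite)
    (h : ∀ a ∈ s, ∃ n ∈ omega, ∀ z', SHF N z' → z' ∩ Lh n = z ∩ Lh n → (R a z' ↔ R a z)) :
    ∃ n ∈ omega, ∀ a ∈ s, ∀ z', SHF N z' → z' ∩ Lh n = z ∩ Lh n → (R a z' ↔ R a z) := by
  induction s, hs using Set.Finite.induction_on with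
  | empty => exact ⟨nz 0, nz_mem_omega 0, fun a ha => absurd ha (Set.notMem_empty a)⟩
  | @insert b s _ _ ih =>
    obtain ⟨n, hn, H⟩ := ih fun a ha => h a (Set.mem_insert_of_mem b ha)
    obtain ⟨m, hm, H'⟩ := h b (Set.mem_insert b s)
    obtain ⟨i, rfl⟩ := mem_omega.1 hn
    obtain ⟨j, rfl⟩ := mem_omega.1 hm
    refine ⟨nz (max i j), nz_mem_omega _, fun a ha z' hz' e => ?_⟩
    rcases Set.mem_insert_iff.1 ha with rfl | ha
    · exact H' z' hz' (cap_mono (le_max_right i j) e)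
    · exact H a ha z' hz' (cap_mono (le_max_left i j) e)

private theorem PCe_two {A B : ZFSet.{0} → Prop} {z : ZFSet.{0}}
    (h : ∃ n ∈ omega, ∀ z', SHF N z' → z' ∩ Lh n = z ∩ Lh n → A z')
    (h' : ∃ n ∈ omega, ∀ z', SHF N z' → z' ∩ Lh n = z ∩ Lh n → B z') :
    ∃ n ∈ omega, ∀ z', SHF N z' → z' ∩ Lh n = z ∩ Lh n → A z' ∧ B z' := by
  obtain ⟨n, hn, H⟩ := h
  obtain ⟨m, hm, H'⟩ := h'
  obtain ⟨i, rfl⟩ := mem_omega.1 hn
  obtain ⟨j, rfl⟩ := mem_omega.1 hm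
  exact ⟨nz (max i j), nz_mem_omega _, fun z' hz' e =>
    ⟨H z' hz' (cap_mono (le_max_left i j) e), H' z' hz' (cap_mono (le_max_right i j) e)⟩⟩

private theorem PCe_mono {A B : ZFSet.{0} → Prop} {z : ZFSet.{0}}
    (h : ∃ n ∈ omega, ∀ z', SHF N z' → z' ∩ Lh n = z ∩ Lh n → A z')
    (i : ∀ z', A z' → B z') :
    ∃ n ∈ omega, ∀ z', SHF N z' → z' ∩ Lh n = z ∩ Lh n → B z' := by
  obtain ⟨n, hn, H⟩ := h
  exact ⟨n, hn, fun z' hz' e => i z' (H z' hz' e)⟩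

theorem TLoc.clo (h : TLoc N P) : TClo N P := fun z hz hn =>
  PCe_mono (h z hz) fun _ e hp => hn (e.1 hp)

theorem TLoc_const (p : Prop) : TLoc N (fun _ => p) := fun _ _ =>
  ⟨nz 0, nz_mem_omega 0, fun _ _ _ => Iff.rfl⟩

theorem TLoc.not (h : TLoc N P) : TLoc N (fun z => ¬ P z) := fun z hz =>
  PCe_mono (h z hz) fun _ e => not_congr e

theorem TLoc.and (h : TLoc N P) (h' : TLoc N Q) : TLoc N (fun z => P z ∧ Q z) :=
  fun z hz => PCe_mono (PCe_two (h z hz) (h' z hz)) fun _ e => and_congr e.1 e.2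

theorem TLoc.or (h : TLoc N P) (h' : TLoc N Q) : TLoc N (fun z => P z ∨ Q z) :=
  fun z hz => PCe_mono (PCe_two (h z hz) (h' z hz)) fun _ e => or_congr e.1 e.2

theorem TLoc.imp (h : TLoc N P) (h' : TLoc N Q) : TLoc N (fun z => P z → Q z) :=
  fun z hz => PCe_mono (PCe_two (h z hz) (h' z hz)) fun _ e => imp_congr e.1 e.2

theorem TLoc.iff (h : TLoc N P) (h' : TLoc N Q) : TLoc N (fun z => P z ↔ Q z) :=
  fun z hz => PCe_mono (PCe_two (h z hz) (h' z hz)) fun _ e => iff_congr e.1 e.2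

theorem TLoc_mem (a : ZFSet.{0}) : TLoc N (fun z => a ∈ z) := by
  intro z hz
  by_cases ha : a ∈ HF
  · obtain ⟨n, hn⟩ := HF_Lh ha
    refine ⟨nz n, nz_mem_omega n, fun z' _ e => ?_⟩
    constructor
    · intro h
      have : a ∈ z' ∩ Lh (nz n) := ZFSet.mem_inter.2 ⟨h, hn⟩
      rw [e] at this
      exact (ZFSet.mem_inter.1 this).1
    · intro h
      have : a ∈ z ∩ Lh (nz n) := ZFSet.mem_inter.2 ⟨h, hn⟩
      rw [← e] at this
      exact (ZFSet.mem_inter.1 this).1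
  · exact ⟨nz 0, nz_mem_omega 0, fun z' hz' _ =>
      ⟨fun h => absurd (hz'.2 h) ha, fun h => absurd (hz.2 h) ha⟩⟩

theorem TLoc.bex {R : ZFSet.{0} → ZFSet.{0} → Prop} {S : ZFSet.{0}} (hS : S ∈ HF)
    (h : ∀ a ∈ S, TLoc N (R a)) : TLoc N (fun z => ∃ a ∈ S, R a z) := by
  intro z hz
  obtain ⟨n, hn, H⟩ := PCe_fin (N := N) (R := R) (z := z) {a | a ∈ S} (HF_finite hS)
    fun a ha => h a ha z hz
  refine ⟨n, hn, fun z' hz' e => ?_⟩
  constructor
  · rintro ⟨a, ha, hR⟩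
    exact ⟨a, ha, (H a ha z' hz' e).1 hR⟩
  · rintro ⟨a, ha, hR⟩
    exact ⟨a, ha, (H a ha z' hz' e).2 hR⟩

theorem TLoc.ball {R : ZFSet.{0} → ZFSet.{0} → Prop} {S : ZFSet.{0}} (hS : S ∈ HF)
    (h : ∀ a ∈ S, TLoc N (R a)) : TLoc N (fun z => ∀ a ∈ S, R a z) := by
  intro z hz
  obtain ⟨n, hn, H⟩ := PCe_fin (N := N) (R := R) (z := z) {a | a ∈ S} (HF_finite hS)
    fun a ha => h a ha z hz
  refine ⟨n, hn, fun z' hz' e => ?_⟩
  exact ⟨fun hR a ha => (H a ha z' hz' e).1 (hR a ha), fun hR a ha => (H a ha z' hz' e).2 (hR a ha)⟩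

theorem TClo.and (h : TClo N P) (h' : TClo N Q) : TClo N (fun z => P z ∧ Q z) := by
  intro z hz hn
  by_cases hP : P z
  · exact PCe_mono (h' z hz fun hQ => hn ⟨hP, hQ⟩) fun _ e hc => e hc.2
  · exact PCe_mono (h z hz hP) fun _ e hc => e hc.1

theorem TClo.or (h : TClo N P) (h' : TClo N Q) : TClo N (fun z => P z ∨ Q z) := by
  intro z hz hn
  refine PCe_mono (PCe_two (h z hz fun hp => hn (Or.inl hp)) (h' z hz fun hq => hn (Or.inr hq)))
    fun _ e hc => ?_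
  rcases hc with hc | hc
  · exact e.1 hc
  · exact e.2 hc

theorem TClo.imp (h : TLoc N P) (h' : TClo N Q) : TClo N (fun z => P z → Q z) := by
  intro z hz hn
  obtain ⟨hP, hQ⟩ := Classical.not_imp.1 hn
  exact PCe_mono (PCe_two (h z hz) (h' z hz hQ)) fun _ e hc => e.2 (hc (e.1.2 hP))

theorem TClo.ball {R : ZFSet.{0} → ZFSet.{0} → Prop} {S : ZFSet.{0}}
    (h : ∀ a ∈ S, TClo N (R a)) : TClo N (fun z => ∀ a ∈ S, R a z) := by
  intro z hz hn
  have : ∃ a ∈ S, ¬ R a z := by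
    by_contra hc
    exact hn fun a ha => Classical.not_not.1 fun hr => hc ⟨a, ha, hr⟩
  obtain ⟨a, ha, hr⟩ := this
  exact PCe_mono (h a ha z hz hr) fun _ e hc => e (hc a ha)

theorem TCon.loc {F : ZFSet.{0} → ZFSet.{0}} (hF : TCon N F) (h : TLoc N P) :
    TLoc N (fun z => P (F z)) := by
  intro z hz
  obtain ⟨n, hn, H⟩ := h (F z) (hF.1 z hz)
  obtain ⟨m, hm, H'⟩ := hF.2 z hz n hn
  exact ⟨m, hm, fun z' hz' e => H (F z') (hF.1 z' hz') (H' z' hz' e)⟩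

theorem TCon.clo {F : ZFSet.{0} → ZFSet.{0}} (hF : TCon N F) (h : TClo N P) :
    TClo N (fun z => P (F z)) := by
  intro z hz hP
  obtain ⟨n, hn, H⟩ := h (F z) (hF.1 z hz) hP
  obtain ⟨m, hm, H'⟩ := hF.2 z hz n hn
  exact ⟨m, hm, fun z' hz' e => H (F z') (hF.1 z' hz') (H' z' hz' e)⟩

theorem TCon_id : TCon N (fun z => z) :=
  ⟨fun _ hz => hz, fun _ _ n hn => ⟨n, hn, fun _ _ e => e⟩⟩

theorem TCon.comp {F G : ZFSet.{0} → ZFSet.{0}} (hF : TCon N F) (hG : TCon N G) :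
    TCon N (fun z => F (G z)) := by
  refine ⟨fun z hz => hF.1 _ (hG.1 z hz), fun z hz n hn => ?_⟩
  obtain ⟨m, hm, H⟩ := hF.2 (G z) (hG.1 z hz) n hn
  obtain ⟨k, hk, H'⟩ := hG.2 z hz m hm
  exact ⟨k, hk, fun z' hz' e => H (G z') (hG.1 z' hz') (H' z' hz' e)⟩

theorem TCon_of {F : ZFSet.{0} → ZFSet.{0}} (h : ∀ z, SHF N z → SHF N (F z))
    (h' : ∀ a ∈ HF, TLoc N (fun z => a ∈ F z)) : TCon N F := by
  refine ⟨h, fun z hz n hn => ?_⟩
  obtain ⟨i, rfl⟩ := mem_omega.1 hn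
  obtain ⟨m, hm, H⟩ := PCe_fin (N := N) (R := fun a z => a ∈ F z) (z := z)
    {a | a ∈ Lh (nz i)} (HF_finite (Lh_nz_HF i).1) fun a ha => h' a ((Lh_nz_HF i).2 ha) z hz
  refine ⟨m, hm, fun z' hz' e => ?_⟩
  ext a
  rw [ZFSet.mem_inter, ZFSet.mem_inter]
  exact ⟨fun ha => ⟨(H a ha.2 z' hz' e).1 ha.1, ha.2⟩, fun ha => ⟨(H a ha.2 z' hz' e).2 ha.1, ha.2⟩⟩

theorem TCon_lft (hN : TM N) : TCon N (fun z => lft z) := by
  refine TCon_of (fun z hz => ⟨?_, fun a ha => ?_⟩) fun a ha => ?_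
  · have : UF (fun _ v => lft (v 0)) := inferInstance
    exact this.mem N hN (fun _ => z) fun _ => hz.1
  · exact (ZFSet.mem_sep.1 ha).1
  · have e : (fun z => a ∈ lft z) = fun z => ZFSet.pair ∅ a ∈ z := by
      funext z
      exact propext ⟨fun h => (ZFSet.mem_sep.1 h).2, fun h => ZFSet.mem_sep.2 ⟨ha, h⟩⟩
    rw [e]
    exact TLoc_mem _

theorem TCon_rgt (hN : TM N) : TCon N (fun z => rgt z) := by
  refine TCon_of (fun z hz => ⟨?_, fun a ha => ?_⟩) fun a ha => ?_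
  · have : UF (fun _ v => rgt (v 0)) := inferInstance
    exact this.mem N hN (fun _ => z) fun _ => hz.1
  · exact (ZFSet.mem_sep.1 ha).1
  · have e : (fun z => a ∈ rgt z) = fun z => ZFSet.pair one a ∈ z := by
      funext z
      exact propext ⟨fun h => (ZFSet.mem_sep.1 h).2, fun h => ZFSet.mem_sep.2 ⟨ha, h⟩⟩
    rw [e]
    exact TLoc_mem _

private theorem PCe_img {F : ZFSet.{0} → ZFSet.{0}} (hF : TCon N F) (b a : ZFSet.{0}) :
    TLoc N (fun z => ∃ h ∈ F z, ZFSet.pair b h = a) := by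
  by_cases hc : ∃ h, ZFSet.pair b h = a
  · obtain ⟨h, rfl⟩ := hc
    have e : (fun z => ∃ h' ∈ F z, ZFSet.pair b h' = ZFSet.pair b h) = fun z => h ∈ F z := by
      funext z
      refine propext ⟨?_, fun hh => ⟨h, hh, rfl⟩⟩
      rintro ⟨h', hh', e⟩
      rw [(ZFSet.pair_inj.1 e).2] at hh'
      exact hh'
    rw [e]
    exact hF.loc (TLoc_mem h)
  · have e : (fun z => ∃ h ∈ F z, ZFSet.pair b h = a) = fun _ => False := by
      funext z
      refine propext ⟨?_, fun hh => hh.elim⟩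
      rintro ⟨h, -, e⟩
      exact hc ⟨h, e⟩
    rw [e]
    exact TLoc_const False

theorem TCon_jn (hN : TM N) {F G : ZFSet.{0} → ZFSet.{0}} (hF : TCon N F) (hG : TCon N G) :
    TCon N (fun z => jn (F z) (G z)) := by
  refine TCon_of (fun z hz => jn_SHF hN (hF.1 z hz) (hG.1 z hz)) fun a _ => ?_
  have e : (fun z => a ∈ jn (F z) (G z)) = fun z =>
      (∃ h ∈ F z, ZFSet.pair ∅ h = a) ∨ ∃ h ∈ G z, ZFSet.pair one h = a := by
    funext z
    rw [jn, ZFSet.mem_union, mem_img, mem_img]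
  rw [e]
  exact (PCe_img hF ∅ a).or (PCe_img hG one a)

end

end H83.PN
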