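import Pool.Agent.H83.PN.AbsP
import Pool.Agent.H83.PN.DefsC
import Pool.Agent.H83.PN.PCa
import Pool.Agent.H83.AC.Cl3
import Pool.Agent.H83.PN.PCe

set_option autoImplicit false

/-!
# Module PiP: the classes `PIT` and the codes `Pr`

`cdT (j+1) (pair s y) = jn y (cdT j s)`, a subset of `HF` in `N`. `Tpl_set`: `TP N 0 = Rs N`, `TP N (j+1) = prod (TP N j) (Rs N)`.
`PIT_code` by induction on `n`, for all `j`. `n = 0`: (→) `T = {pair n (cdT j t ∩ Lh n) : t ∈ A, n ∈ omega}`: if `t ∉ A` take `m` from `ClT`; there is `n ∈ omega` such that `cdT j t' ∩ Lh n = cdT j t ∩ Lh n` implies `AgZ j m t t'` (`agz_of`); if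
`pair n (cdT j t ∩ Lh n) ∈ T` then it is `pair n (cdT j t' ∩ Lh n)` with `t' ∈ A`, contradiction. (←) `A` closed: if `t ∉ A`, some `n` has `pair n (cdT j t ∩ Lh n) ∉ T`; there is `m ∈ omega` such that `AgZ j m t t'` implies `cdT j t' ∩ Lh n = cdT j t ∩ Lh n`
(`of_agz`: an element of `Lh n` has rank `< n`, so a pair `(i, l)` with a code in `Lh n` has `i ∈ n`; take `m = n`). `n + 1`: (→) the same `T` as for `B`: `Pr N (n+1) T (cdT j t) = ∀ y, Real N y → ¬ Pr N n T (jn y (cdT j t))`. (←) `B = {pair t y : t ∈ TP N j, y ∈ Rs N,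
Pr N n T (jn y (cdT j t))} ∈ N` (`UR.Pr`, `UF_cdT`).
`PIT_PI1`: unfold (`Tpl N 1 t` is `t = pair x y`). `PI2_PIT`: `C' = {pair (pair x y) z : pair x (pair y z) ∈ C}`, `B = {pair x y : x, y ∈ Rs N, ∀ z ∈ Rs N, pair x (pair y z) ∉ C}`, both in `N`.
-/

namespace H83.PN

open ZFSet H83.AC

variable {N : Set ZFSet.{0}}

/-- the tuple `t` as a subset of `HF` -/
noncomputable def cdT : ℕ → ZFSet.{0} → ZFSet.{0}
  | 0, t => t
  | j + 1, t => jn (snd t) (cdT j (fst t))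

theorem cdT_SHF (hN : TM N) {j : ℕ} {t : ZFSet.{0}} (ht : Tpl N j t) : SHF N (cdT j t) := by
  induction j generalizing t with
  | zero => exact Real.shf ht
  | succ j ih =>
    obtain ⟨s, y, hs, hy, rfl⟩ := ht
    rw [cdT, snd_pair, fst_pair]
    exact jn_SHF hN (Real.shf hy) (ih hs)

private theorem PiP_rank {α : Ordinal.{0}} {z : ZFSet.{0}} (h : z ∈ Lo α) : rank z < α := by
  induction α using WellFoundedLT.induction generalizing z with
  | ind α ih =>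
    obtain ⟨β, hβ, hz⟩ := mem_Lo.1 h
    rcases mem_Sx.1 hz with rfl | hz | ⟨hs, -⟩
    · refine lt_of_le_of_lt ?_ hβ
      rw [rank_le_iff]
      intro y hy
      exact ih β hβ hy
    · exact (ih β hβ hz).trans hβ
    · refine lt_of_le_of_lt ?_ hβ
      rw [rank_le_iff]
      intro y hy
      exact ih β hβ (hs hy)

private theorem PiP_fst {a b : ZFSet.{0}} {n : ℕ} (h : pair a b ∈ Lh (nz n)) :
    a ∈ Lh (nz n) ∧ b ∈ Lh (nz n) := by
  rw [Lh] at h ⊢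
  have h1 : ({a, b} : ZFSet.{0}) ∈ pair a b := by simp [ZFSet.pair]
  have h2 := Lo_tr (Lo_tr h h1)
  exact ⟨h2 (by simp), h2 (by simp)⟩

/-- agreement from equal initial parts -/
private theorem PiP_a {x : ZFSet.{0}} (hx : IsFunc omega omega x) (m : ℕ) :
    ∃ n : ℕ, ∀ x', IsFunc omega omega x' → x' ∩ Lh (nz n) = x ∩ Lh (nz n) → Agree (nz m) x x' := by
  induction m with
  | zero => exact ⟨0, fun x' _ _ i hi => absurd hi (notMem_empty i)⟩
  | succ m ih =>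
    obtain ⟨n, hn⟩ := ih
    obtain ⟨k, hk⟩ := HF_Lh (fn_HF hx (fn_app hx (nz_mem_omega m)))
    refine ⟨max n k, fun x' hx' e i hi => ?_⟩
    have e1 := cap_mono (le_max_left n k) e
    have e2 := cap_mono (le_max_right n k) e
    rw [nz, mem_insert_iff] at hi
    rcases hi with rfl | hi
    · have h1 : pair (nz m) (app x (nz m)) ∈ x ∩ Lh (nz k) :=
        mem_inter.2 ⟨fn_app hx (nz_mem_omega m), hk⟩
      rw [← e2] at h1
      exact (fn_pair hx' (mem_inter.1 h1).1).2.2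
    · exact hn x' hx' e1 i hi

private theorem PiP_b' {x x' : ZFSet.{0}} (hx : IsFunc omega omega x) (hx' : IsFunc omega omega x')
    {n : ℕ} (h : Agree (nz n) x x') {t : ZFSet.{0}} (ht : t ∈ x' ∩ Lh (nz n)) : t ∈ x := by
  rw [mem_inter] at ht
  obtain ⟨i, hi, rfl⟩ := fn_elt hx' ht.1
  have h1 : i ∈ Lh (nz n) := (PiP_fst ht.2).1
  obtain ⟨k, rfl⟩ := mem_omega.1 hi
  rw [Lh] at h1
  have h2 := PiP_rank h1
  rw [rank_nz, rank_nz] at h2
  have h3 : nz k ∈ nz n := nz_mem_nz.2 (by exact_mod_cast h2)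
  rw [← h _ h3]
  exact fn_app hx hi

/-- equal initial parts from agreement -/
private theorem PiP_b {x x' : ZFSet.{0}} (hx : IsFunc omega omega x) (hx' : IsFunc omega omega x')
    {n : ℕ} (h : Agree (nz n) x x') : x' ∩ Lh (nz n) = x ∩ Lh (nz n) := by
  ext t
  constructor
  · intro ht
    exact mem_inter.2 ⟨PiP_b' hx hx' h ht, (mem_inter.1 ht).2⟩
  · intro ht
    exact mem_inter.2 ⟨PiP_b' hx' hx (fun i hi => (h i hi).symm) ht, (mem_inter.1 ht).2⟩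

private theorem PiP_agz {j : ℕ} {m n : ℕ} (h : m ≤ n) : ∀ {t t' : ZFSet.{0}}, AgZ j (nz n) t t' →
    AgZ j (nz m) t t' := by
  induction j with
  | zero => intro t t' ht; exact Cl3.agree_mono h ht
  | succ j ih => intro t t' ht; exact ⟨ih ht.1, Cl3.agree_mono h ht.2⟩

private theorem PiP_jn {n : ℕ} {y y' z z' t : ZFSet.{0}} (e1 : y' ∩ Lh (nz n) = y ∩ Lh (nz n))
    (e2 : z' ∩ Lh (nz n) = z ∩ Lh (nz n)) (ht : t ∈ jn y' z' ∩ Lh (nz n)) :
    t ∈ jn y z ∩ Lh (nz n) := by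
  rw [mem_inter, jn, mem_union, mem_img, mem_img] at ht
  obtain ⟨h1, h2⟩ := ht
  rw [mem_inter, jn, mem_union, mem_img, mem_img]
  refine ⟨?_, h2⟩
  rcases h1 with ⟨u, hu, rfl⟩ | ⟨u, hu, rfl⟩
  · have h3 : u ∈ y' ∩ Lh (nz n) := mem_inter.2 ⟨hu, (PiP_fst h2).2⟩
    rw [e1] at h3
    exact Or.inl ⟨u, (mem_inter.1 h3).1, rfl⟩
  · have h3 : u ∈ z' ∩ Lh (nz n) := mem_inter.2 ⟨hu, (PiP_fst h2).2⟩
    rw [e2] at h3
    exact Or.inr ⟨u, (mem_inter.1 h3).1, rfl⟩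

theorem agz_of (hN : TM N) {j : ℕ} {t m : ZFSet.{0}} (ht : Tpl N j t) (hm : m ∈ omega) :
    ∃ n ∈ omega, ∀ t', Tpl N j t' → cdT j t' ∩ Lh n = cdT j t ∩ Lh n → AgZ j m t t' := by
  obtain ⟨m, rfl⟩ := mem_omega.1 hm
  induction j generalizing t with
  | zero =>
    obtain ⟨n, hn⟩ := PiP_a ht.2 m
    exact ⟨nz n, nz_mem_omega n, fun t' ht' e => hn t' ht'.2 e⟩
  | succ j ih =>
    obtain ⟨s, y, hs, hy, rfl⟩ := ht
    obtain ⟨n1, hn1, h1⟩ := ih hs
    obtain ⟨n2, h2⟩ := PiP_a hy.2 m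
    have hz : SHF N (jn y (cdT j s)) := jn_SHF hN (Real.shf hy) (cdT_SHF hN hs)
    obtain ⟨m1, hm1, h3⟩ := (TCon_rgt hN).2 _ hz n1 hn1
    obtain ⟨m2, hm2, h4⟩ := (TCon_lft hN).2 _ hz (nz n2) (nz_mem_omega n2)
    obtain ⟨m1, rfl⟩ := mem_omega.1 hm1
    obtain ⟨m2, rfl⟩ := mem_omega.1 hm2
    refine ⟨nz (max m1 m2), nz_mem_omega _, fun t' ht' e => ?_⟩
    obtain ⟨s', y', hs', hy', rfl⟩ := ht'
    rw [cdT, cdT, snd_pair, fst_pair, snd_pair, fst_pair] at e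
    have hz' : SHF N (jn y' (cdT j s')) := jn_SHF hN (Real.shf hy') (cdT_SHF hN hs')
    have e3 := h3 _ hz' (cap_mono (le_max_left m1 m2) e)
    have e4 := h4 _ hz' (cap_mono (le_max_right m1 m2) e)
    beta_reduce at e3 e4
    rw [rgt_jn (cdT_SHF hN hs').2, rgt_jn (cdT_SHF hN hs).2] at e3
    rw [lft_jn (Real.shf hy').2, lft_jn (Real.shf hy).2] at e4
    rw [AgZ, fst_pair, fst_pair, snd_pair, snd_pair]
    exact ⟨h1 s' hs' e3, h2 y' hy'.2 e4⟩

theorem of_agz (hN : TM N) {j : ℕ} {t n : ZFSet.{0}} (ht : Tpl N j t) (hn : n ∈ omega) :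
    ∃ m ∈ omega, ∀ t', Tpl N j t' → AgZ j m t t' → cdT j t' ∩ Lh n = cdT j t ∩ Lh n := by
  obtain ⟨n, rfl⟩ := mem_omega.1 hn
  induction j generalizing t with
  | zero => exact ⟨nz n, nz_mem_omega n, fun t' ht' h => PiP_b ht.2 ht'.2 h⟩
  | succ j ih =>
    obtain ⟨s, y, hs, hy, rfl⟩ := ht
    obtain ⟨m1, hm1, h1⟩ := ih hs
    obtain ⟨m1, rfl⟩ := mem_omega.1 hm1
    refine ⟨nz (max m1 n), nz_mem_omega _, fun t' ht' h => ?_⟩
    obtain ⟨s', y', hs', hy', rfl⟩ := ht'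
    rw [AgZ, fst_pair, fst_pair, snd_pair, snd_pair] at h
    have e1 := h1 s' hs' (PiP_agz (le_max_left m1 n) h.1)
    have e2 := PiP_b hy.2 hy'.2 (Cl3.agree_mono (le_max_right m1 n) h.2)
    rw [cdT, cdT, snd_pair, fst_pair, snd_pair, fst_pair]
    ext t
    exact ⟨fun ht => PiP_jn e2 e1 ht, fun ht => PiP_jn e2.symm e1.symm ht⟩

/-- the set of tuples -/
private noncomputable def PiP_TP (R : ZFSet.{0}) : ℕ → ZFSet.{0}
  | 0 => R
  | j + 1 => ZFSet.prod (PiP_TP R j) R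

private theorem PiP_mem_TP {j : ℕ} {t : ZFSet.{0}} : t ∈ PiP_TP (Cl3.Rs N) j ↔ Tpl N j t := by
  induction j generalizing t with
  | zero => exact Cl3.mem_Rs
  | succ j ih =>
    rw [PiP_TP, mem_prod, Tpl]
    constructor
    · rintro ⟨s, hs, y, hy, rfl⟩
      exact ⟨s, y, ih.1 hs, Cl3.mem_Rs.1 hy, rfl⟩
    · rintro ⟨s, y, hs, hy, rfl⟩
      exact ⟨s, ih.2 hs, y, Cl3.mem_Rs.2 hy, rfl⟩

private theorem PiP_uTP (j : ℕ) : UF (fun _ v => PiP_TP (v 0) j) := by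
  induction j with
  | zero => exact UF.var 0
  | succ j ih => exact UF.prod ih (UF.var 0)

private theorem PiP_TP_mem (hN : TM N) (j : ℕ) : PiP_TP (Cl3.Rs N) j ∈ N :=
  (PiP_uTP j).mem N hN (fun _ => Cl3.Rs N) (fun _ => Cl3.Rs_mem hN)

private theorem PiP_ucd (j : ℕ) : UF (fun _ v => cdT j (v 0)) := by
  induction j with
  | zero => exact UF.var 0
  | succ j ih =>
    have h1 : UF (fun _ v => cdT j (H83.AC.fst (v 0))) :=
      UF.comp1 (F := fun _ x => cdT j x) ih (by infer_instance)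
    have h2 : UF (fun _ v => H83.PN.jn (H83.AC.snd (v 0)) (cdT j (H83.AC.fst (v 0)))) := by
      infer_instance
    exact h2

private theorem PiP_tpl {n j : ℕ} {A : ZFSet.{0}} (h : PIT N n j A) : ∀ t ∈ A, Tpl N j t := by
  cases n with
  | zero => exact h.1
  | succ n => exact h.1

theorem PIT_code (hN : TM N) (n j : ℕ) {A : ZFSet.{0}} (hA : A ∈ N)
    (ht : ∀ t ∈ A, Tpl N j t) :
    PIT N n j A ↔ ∃ T ∈ N, ∀ t, Tpl N j t → (t ∈ A ↔ Pr N n T (cdT j t)) := by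
  induction n generalizing j A with
  | zero =>
    constructor
    · intro h
      have h2 : UF (fun _ w => H83.AC.img (fun p => ZFSet.pair (H83.AC.snd p)
          (cdT j (H83.AC.fst p) ∩ H83.AC.Lh (H83.AC.snd p))) (ZFSet.prod (w 0) ZFSet.omega)) := by
        have h1 : UF (fun _ v => cdT j (H83.AC.fst (v 0))) :=
          UF.comp1 (F := fun _ x => cdT j x) (PiP_ucd j) (by infer_instance)
        have h3 : UF (fun _ v => ZFSet.pair (H83.AC.snd (v 0))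
          (cdT j (H83.AC.fst (v 0)) ∩ H83.AC.Lh (H83.AC.snd (v 0)))) := by infer_instance
        have h4 : UF (fun _ w => ZFSet.prod (w 0) ZFSet.omega) := by infer_instance
        exact UF.img (F := fun _ p _ => ZFSet.pair (H83.AC.snd p)
          (cdT j (H83.AC.fst p) ∩ H83.AC.Lh (H83.AC.snd p))) h4 h3
      refine ⟨_, h2.mem N hN (fun _ => A) (fun _ => hA), fun t htt => ?_⟩
      rw [Pr, Cl0]
      constructor
      · intro hta n hn
        rw [mem_img]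
        exact ⟨pair t n, pair_mem_prod.2 ⟨hta, hn⟩, by rw [fst_pair, snd_pair]⟩
      · intro hc
        by_contra hta
        obtain ⟨m, hm, hm2⟩ := h.2 t htt hta
        obtain ⟨n, hn, hn2⟩ := agz_of hN htt hm
        have h5 := hc n hn
        rw [mem_img] at h5
        obtain ⟨p, hp, e⟩ := h5
        obtain ⟨t', ht', n', hn', rfl⟩ := mem_prod.1 hp
        rw [fst_pair, snd_pair] at e
        obtain ⟨rfl, e2⟩ := pair_inj.1 e
        exact hm2 t' (ht t' ht') (hn2 t' (ht t' ht') e2) ht'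
    · rintro ⟨T, hT, h⟩
      refine ⟨ht, fun t htt hta => ?_⟩
      rw [h t htt, Pr, Cl0] at hta
      push Not at hta
      obtain ⟨n, hn, hn2⟩ := hta
      obtain ⟨m, hm, hm2⟩ := of_agz hN htt hn
      refine ⟨m, hm, fun t' ht' hag ht'A => ?_⟩
      rw [h t' ht', Pr, Cl0] at ht'A
      have := ht'A n hn
      rw [hm2 t' ht' hag] at this
      exact hn2 this
  | succ n ih =>
    constructor
    · rintro ⟨-, B, hB, hBp, hAB⟩
      obtain ⟨T, hT, h⟩ := (ih (j + 1) hB (PiP_tpl hBp)).1 hBp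
      refine ⟨T, hT, fun t htt => ?_⟩
      rw [hAB t htt, Pr]
      refine forall_congr' fun y => forall_congr' fun hy => not_congr ?_
      rw [h (pair t y) ⟨t, y, htt, hy, rfl⟩, cdT, fst_pair, snd_pair]
    · rintro ⟨T, hT, h⟩
      have hR : UR (fun N v => Pr N n (sh v 0) (cdT (j + 1) (v 0))) := by
        have h1 : UF (fun _ v => cdT (j + 1) (v 0)) := PiP_ucd (j + 1)
        have h2 : UF (fun _ (v : ℕ → ZFSet.{0}) => v 1) := UF.var 1
        exact UR.comp2 (UR.Pr n) h2 h1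
      have hB : ZFSet.sep (fun p => Pr N n T (cdT (j + 1) p)) (PiP_TP (Cl3.Rs N) (j + 1)) ∈ N :=
        TM.sep_of (R := fun N x v => Pr N n (v 0) (cdT (j + 1) x)) hR hN (v := fun _ => T)
          (fun _ => hT) (PiP_TP_mem hN (j + 1))
      have hBt : ∀ t ∈ ZFSet.sep (fun p => Pr N n T (cdT (j + 1) p)) (PiP_TP (Cl3.Rs N) (j + 1)),
          Tpl N (j + 1) t := fun t h1 => PiP_mem_TP.1 (mem_sep.1 h1).1
      refine ⟨ht, _, hB, (ih (j + 1) hB hBt).2 ⟨T, hT, fun t htt => ?_⟩, fun t htt => ?_⟩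
      · rw [mem_sep]
        exact ⟨fun h1 => h1.2, fun h1 => ⟨PiP_mem_TP.2 htt, h1⟩⟩
      · rw [h t htt, Pr]
        refine forall_congr' fun y => forall_congr' fun hy => not_congr ?_
        rw [mem_sep, cdT, fst_pair, snd_pair]
        exact ⟨fun h1 => ⟨PiP_mem_TP.2 ⟨t, y, htt, hy, rfl⟩, h1⟩, fun h1 => h1.2⟩

theorem PIT_PiS (hN : TM N) (n : ℕ) {A : ZFSet.{0}} (hA : A ∈ N) :
    PIT N n 0 A ↔ PiS N n A := by
  constructor
  · intro h
    exact ⟨PiP_tpl h, (PIT_code hN n 0 hA (PiP_tpl h)).1 h⟩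
  · rintro ⟨h1, h2⟩
    exact (PIT_code hN n 0 hA h1).2 h2

theorem PIT_PI1 (hN : TM N) {A : ZFSet.{0}} (hA : A ∈ N) (h : PIT N 1 0 A) : PI1 N A := by
  obtain ⟨h1, B, hB, ⟨h2, h3⟩, h4⟩ := h
  refine ⟨h1, B, ⟨hB, fun t ht => ?_, fun x y hx hy hxy => ?_⟩, h4⟩
  · obtain ⟨s, y, hs, hy, rfl⟩ := h2 t ht
    exact ⟨s, y, hs, hy, rfl⟩
  · obtain ⟨m, hm, h5⟩ := h3 (pair x y) ⟨x, y, hx, hy, rfl⟩ hxy
    refine ⟨m, hm, fun x' y' hx' hy' a1 a2 => h5 _ ⟨x', y', hx', hy', rfl⟩ ?_⟩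
    rw [AgZ, fst_pair, fst_pair, snd_pair, snd_pair]
    exact ⟨a1, a2⟩

theorem PI2_PIT (hN : TM N) {A : ZFSet.{0}} (hA : A ∈ N) (h : PI2 N A) : PIT N 2 0 A := by
  obtain ⟨h1, C, ⟨hC, h2, h3⟩, h4⟩ := h
  -- the closed subset of the third power
  have hR1 : UR (fun _ v => ZFSet.pair (H83.AC.fst (H83.AC.fst (v 0)))
      (ZFSet.pair (H83.AC.snd (H83.AC.fst (v 0))) (H83.AC.snd (v 0))) ∈ sh v 0) := by
    have : UR (fun _ (v : ℕ → ZFSet.{0}) => ZFSet.pair (H83.AC.fst (H83.AC.fst (v 0)))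
      (ZFSet.pair (H83.AC.snd (H83.AC.fst (v 0))) (H83.AC.snd (v 0))) ∈ v 1) := by infer_instance
    exact this
  have hC' : ZFSet.sep (fun p => pair (fst (fst p)) (pair (snd (fst p)) (snd p)) ∈ C)
      (PiP_TP (Cl3.Rs N) 2) ∈ N :=
    TM.sep_of (R := fun _ x v => ZFSet.pair (H83.AC.fst (H83.AC.fst x))
      (ZFSet.pair (H83.AC.snd (H83.AC.fst x)) (H83.AC.snd x)) ∈ v 0) hR1 hN (v := fun _ => C)
      (fun _ => hC) (PiP_TP_mem hN 2)
  have mC : ∀ {x y z : ZFSet.{0}}, Real N x → Real N y → Real N z →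
      (pair (pair x y) z ∈ ZFSet.sep (fun p => pair (fst (fst p)) (pair (snd (fst p)) (snd p)) ∈ C)
      (PiP_TP (Cl3.Rs N) 2) ↔ pair x (pair y z) ∈ C) := by
    intro x y z hx hy hz
    rw [mem_sep, fst_pair, snd_pair, fst_pair, snd_pair]
    exact ⟨fun h => h.2, fun h => ⟨PiP_mem_TP.2 ⟨pair x y, z, ⟨x, y, hx, hy, rfl⟩, hz, rfl⟩, h⟩⟩
  -- the set of the second level
  have hR2 : UR (fun _ v => ∀ z ∈ sh v 1, ZFSet.pair (v 0) z ∉ sh v 0) := by
    have : UR (fun _ (v : ℕ → ZFSet.{0}) => ∀ z ∈ v 2, ZFSet.pair (v 0) z ∉ v 1) := by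
      infer_instance
    exact this
  have hB : ZFSet.sep (fun p => ∀ z ∈ Cl3.Rs N, pair p z ∉
      ZFSet.sep (fun p => pair (fst (fst p)) (pair (snd (fst p)) (snd p)) ∈ C)
      (PiP_TP (Cl3.Rs N) 2)) (PiP_TP (Cl3.Rs N) 1) ∈ N :=
    TM.sep_of (R := fun _ x v => ∀ z ∈ v 1, ZFSet.pair x z ∉ v 0) hR2 hN
      (v := cons (ZFSet.sep (fun p => pair (fst (fst p)) (pair (snd (fst p)) (snd p)) ∈ C)
      (PiP_TP (Cl3.Rs N) 2)) fun _ => Cl3.Rs N)
      (fun n => by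
        rcases n with _ | n
        · exact hC'
        · exact Cl3.Rs_mem hN) (PiP_TP_mem hN 1)
  refine ⟨h1, _, hB, ⟨fun t ht => PiP_mem_TP.1 (mem_sep.1 ht).1, _, hC', ⟨fun t ht =>
    PiP_mem_TP.1 (mem_sep.1 ht).1, ?_⟩, ?_⟩, ?_⟩
  · rintro t ⟨s, z, ⟨x, y, hx, hy, rfl⟩, hz, rfl⟩ htC
    rw [mC hx hy hz] at htC
    obtain ⟨m, hm, h5⟩ := h3 x y z hx hy hz htC
    refine ⟨m, hm, ?_⟩
    rintro t' ⟨s', z', ⟨x', y', hx', hy', rfl⟩, hz', rfl⟩ hag
    rw [AgZ, AgZ, fst_pair, fst_pair, snd_pair, snd_pair, fst_pair, fst_pair, snd_pair,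
      snd_pair] at hag
    rw [mC hx' hy' hz']
    exact h5 x' y' z' hx' hy' hz' hag.1.1 hag.1.2 hag.2
  · intro t ht
    rw [mem_sep]
    constructor
    · intro h z hz
      exact h.2 z (Cl3.mem_Rs.2 hz)
    · intro h
      exact ⟨PiP_mem_TP.2 ht, fun z hz => h z (Cl3.mem_Rs.1 hz)⟩
  · intro x hx
    have hx' : Real N x := hx
    rw [h4 x hx']
    refine forall_congr' fun y => forall_congr' fun hy => ?_
    rw [mem_sep]
    constructor
    · rintro ⟨z, hz, hzC⟩ ⟨-, h6⟩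
      exact h6 z (Cl3.mem_Rs.2 hz) ((mC hx' hy hz).2 hzC)
    · intro h6
      by_contra h7
      push Not at h7
      refine h6 ⟨PiP_mem_TP.2 ⟨x, y, hx', hy, rfl⟩, fun z hz hzC => ?_⟩
      exact h7 z (Cl3.mem_Rs.1 hz) ((mC hx' hy (Cl3.mem_Rs.1 hz)).1 hzC)

end H83.PN
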