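import Pool.Agent.H83.PN.WCtb
import Pool.Agent.H83.AC.GroundEx

set_option autoImplicit false

/-!
# Module WGr: ground models exist

Compare with `AC/GroundEx.lean`. (1) The class of all `x ∈ LL` with `HCt LL x` is contained in a level
`Lo β`: if `app g` maps `omega` onto `tc x` then `tc x` is countable, so `rank x` is a countable ordinal
(or: the class of all sets with countable transitive closure is small: they are contained in
`V_ (ω₁)`, `ZFSet.mem_vonNeumann`; prove by induction that the rank of a set with countable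
transitive closure is `< ω₁`, the sum of countably many countable ordinals is countable), hence this
class is a set `a`; then `exists_Lo`. So `H₀ = sep (HCt LL) (Lo β)` is an element of `LL`
(`TM.sep_of`, `Inst.HCt`, `LL_tm`). (2) `reflection` with an ordinal so large that `H₀ ∈ Lo α`; `K₀ = Lo α`
is elementary in `LL`, so `TM (cls K₀)` (`isZF_of_elem`), `VL (cls K₀)` (transfer of the relation `VL N`,
which is uniformly definable). (3) `X` from `exists_countable_elem` with `K = LL`,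
`S = HF ∪ {HF, K₀, H₀}`, `M` and `π` from `exists_collapse`; `K = π K₀`, `H = π H₀`. The statements
`Wd K₀` (`Inst.Wd`), `H₀ ∈ K₀`, `∀ x ∈ LL, x ∈ H₀ ↔ HCt LL x` (`Inst.HCt`) are transferred by `transfer`.
-/

namespace H83.PN

open ZFSet H83.AC

variable {f g h k l : Set ZFSet.{0} → (ℕ → ZFSet.{0}) → ZFSet.{0}}

private theorem wgr_cnt {x : ZFSet.{0}} {N : Set ZFSet.{0}} (h : Ctb N x) :
    {y | y ∈ x}.Countable := by
  obtain ⟨g, -, hg⟩ := h
  have h1 : {n : ZFSet.{0} | n ∈ omega}.Countable :=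
    HF_countable.mono fun n hn => omega_sub_HF hn
  refine (h1.image (fun n => app g n)).mono ?_
  intro y hy
  obtain ⟨n, hn, h2⟩ := hg y hy
  exact ⟨n, hn, h2⟩

private theorem wgr_rank (x : ZFSet.{0}) {N : Set ZFSet.{0}} (h : HCt N x) :
    rank x < Ordinal.omega 1 := by
  induction x using ZFSet.inductionOn with
  | _ x ih =>
    have h1 : {y | y ∈ x}.Countable := wgr_cnt (Ctb_sub h (sub_tc x))
    have h2 : Countable {y // y ∈ x} := h1.to_subtype
    have h3 : ∀ y : {y // y ∈ x}, rank y.1 + 1 < Ordinal.omega 1 := by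
      intro y
      have h4 := ih y.1 y.2 (Ctb_sub h (tc_mono y.2))
      exact (Cardinal.isSuccLimit_omega 1).succ_lt h4
    have h5 := Ordinal.iSup_lt_omega_one h3
    refine lt_of_le_of_lt ?_ h5
    rw [rank_le_iff]
    intro y hy
    have h6 : rank y + 1 ≤ ⨆ y : {y // y ∈ x}, (rank y.1 + 1) :=
      le_ciSup (f := fun y : {y // y ∈ x} => rank y.1 + 1) Ordinal.bddAbove_of_small ⟨y, hy⟩
    exact lt_of_lt_of_le (lt_add_one _) h6

private theorem wgr_lev : ∃ β : Ordinal.{0}, ∀ x ∈ LL, HCt LL x → x ∈ Lo β := by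
  obtain ⟨β, -, hβ⟩ := exists_Lo (ZFSet.sep (fun x => x ∈ LL) (vonNeumann (Ordinal.omega 1)))
    (fun x hx => (mem_sep.1 hx).2) 0
  refine ⟨β, fun x hx h => hβ ?_⟩
  rw [mem_sep, mem_vonNeumann]
  exact ⟨wgr_rank x h, hx⟩

private theorem wgr_vl : UR (fun N _ => VL N) := by
  refine UD.allN (R := fun N z _ => ∃ x ∈ N, z ∈ Lh x) ?_
  refine UD.exN (R := fun _ x v => v 0 ∈ Lh x) ?_
  exact UR.mem (UF.var 1) (UF.Lh (UF.var 0))

private theorem wgr_ur : UR (fun N v => H83.PN.Wd (v 0) ∧ v 1 ∈ v 0 ∧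
    ∀ x ∈ N, (x ∈ v 1 ↔ H83.PN.HCt N x)) := by
  have h1 : UR (fun _ v => H83.PN.Wd (v 0)) := UR.Wd (UF.var 0)
  have h2 : UR (fun N v => ∀ x ∈ N, (x ∈ v 1 ↔ H83.PN.HCt N x)) := by
    refine UD.allN (R := fun N x v => (x ∈ v 1 ↔ H83.PN.HCt N x)) ?_
    exact UD.iff (UR.mem (UF.var 0) (UF.var 2)) (UR.Ctb (UF.tc (UF.var 0)))
  exact UD.and h1 (UD.and (UR.mem (UF.var 1) (UF.var 0)) h2)

theorem exists_gr : ∃ (M : Set ZFSet.{0}) (K H : ZFSet.{0}), Gr M K H := by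
  obtain ⟨β, hβ⟩ := wgr_lev
  -- the set of the hereditarily countable constructible sets
  obtain ⟨H₀, hH₀⟩ : ∃ H₀, H₀ = ZFSet.sep (fun x => HCt LL x) (Lo β) := ⟨_, rfl⟩
  have hHL : H₀ ∈ LL := by
    rw [hH₀]
    exact TM.sep_of (R := fun N x _ => HCt N x) (v := fun _ => HF)
      (UR.Ctb (UF.tc (UF.var 0))) LL_tm (fun _ => HF_LL) (Lo_mem_LL β)
  have hHm : ∀ x ∈ LL, (x ∈ H₀ ↔ HCt LL x) := by
    intro x hx
    rw [hH₀, mem_sep]
    exact ⟨fun h => h.2, fun h => ⟨hβ x hx h, h⟩⟩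
  obtain ⟨α0, hα0⟩ := hHL
  obtain ⟨α, hα, -, hel⟩ := reflection α0
  have hHA : H₀ ∈ Lo α := Lo_mono hα hα0
  have hAtr : IsTr (cls (Lo α)) := fun x hx y hy => Lo_tr hx hy
  have hAL : cls (Lo α) ⊆ LL := fun x hx => ⟨α, hx⟩
  have hTA : TM (cls (Lo α)) := ⟨hAtr, isZF_of_elem ⟨H₀, hHA⟩ hAL LL_tm.zf hel⟩
  have hid : Set.BijOn id (cls (Lo α)) (cls (Lo α)) := Set.bijOn_id _
  have hvlA : VL (cls (Lo α)) := by
    have := transfer wgr_vl LL_tm hTA hAL hid hel (fun φ v _ => Iff.rfl)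
      (v := fun _ => H₀) (fun _ => hHA)
    exact this.1 LL_vl
  have hWd : Wd (Lo α) := ⟨hTA, hvlA⟩
  -- a countable elementary subclass
  obtain ⟨X, hSX, hXL, hXc, hXne, helX⟩ := exists_countable_elem LL {H₀, Lo α}
    ⟨HF, HF_LL⟩ (by
      rintro x (rfl | rfl)
      · exact ⟨α0, hα0⟩
      · exact Lo_mem_LL α)
    (by simp)
  have hXH : H₀ ∈ X := hSX (Or.inl rfl)
  have hXA : Lo α ∈ X := hSX (Or.inr rfl)
  have hext : ∀ x ∈ X, ∀ y ∈ X, (∀ z ∈ X, z ∈ x ↔ z ∈ y) → x = y := by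
    have key : ∀ x ∈ X, ∀ y ∈ X, (∀ z ∈ X, z ∈ x → z ∈ y) → x ⊆ y := by
      intro x hx y hy h z hz
      have hv : ∀ i, (cons x (fun _ => y)) i ∈ X := by
        rintro (_ | i)
        exacts [hx, hy]
      have h1 : SatIn X (.all (.imp (.mem 0 1) (.mem 0 2))) (cons x (fun _ => y)) := h
      have h2 := (helX _ _ hv).1 h1
      exact h2 z (LL_tr x (hXL hx) z hz) hz
    intro x hx y hy h
    ext z
    exact ⟨fun hz => key x hx y hy (fun z hz => (h z hz).1) hz,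
      fun hz => key y hy x hx (fun z hz => (h z hz).2) hz⟩
  obtain ⟨M, π, hMtr, hMc, hb, he, -, hsat⟩ := exists_collapse X hXc hext
  have hM : TM M := ⟨hMtr, isZF_of_iso hb he (isZF_of_elem hXne hXL LL_tm.zf helX)⟩
  have tr : ∀ {R : Set ZFSet.{0} → (ℕ → ZFSet.{0}) → Prop}, UR R → ∀ {v : ℕ → ZFSet.{0}},
      (∀ i, v i ∈ X) → (R LL v ↔ R M (fun n => π (v n))) :=
    fun hR v hv => transfer hR LL_tm hM hXL hb helX hsat hv
  have hvl : VL M := (tr wgr_vl (v := fun _ => H₀) (fun _ => hXH)).1 LL_vl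
  have hv : ∀ i, (cons (Lo α) (fun _ => H₀)) i ∈ X := by
    rintro (_ | i)
    exacts [hXA, hXH]
  obtain ⟨g1, g2, g3⟩ := (tr wgr_ur hv).1 ⟨hWd, hHA, hHm⟩
  simp only [cons_zero, cons_succ] at g1 g2 g3
  refine ⟨M, π (Lo α), π H₀, ⟨hM, hMc, hvl, hb.mapsTo hXA, g1, g2, fun x => ?_⟩⟩
  constructor
  · intro hx
    have hxM : x ∈ M := hMtr _ (hb.mapsTo hXH) x hx
    exact ⟨hxM, (g3 x hxM).1 hx⟩
  · rintro ⟨hxM, hx⟩
    exact (g3 x hxM).2 hx

end H83.PN
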