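import Pool.Agent.H83.PN.TrpN
import Pool.Agent.H83.PN.PiP
import Pool.Agent.H83.PN.FHf
import Pool.Agent.H83.PN.ACh
import Pool.Agent.H83.PN.GEx
import Pool.Agent.H83.PN.WGr
import Pool.Agent.H83.AC.FinT

set_option autoImplicit false

/-!
# Module FinN: the theorem

`ac_iso`: a countable transitive model `N` is isomorphic to `(ℕ, E)` (as in `AC/FinT.lean`). `sep_two`: `exists_gr`, `UM_ok`, `Sys_SU`, `exists_gen`, `choice_half`, `fail_half`. `sep_one`: `exists_ground`, `AC.choice_half`, `AC.fail_half`, `PIT_PI1`, `PI2_PIT`.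
-/

namespace H83.PN

open ZFSet H83.AC

/-- countable choice is inherited by smaller classes -/
theorem ACw_mono {N : Set ZFSet.{0}} {Γ Γ' : ZFSet.{0} → Prop} (hN : IsTr N)
    (h : ∀ A ∈ N, Γ' A → Γ A) (hc : ACw N Γ) (hr : ∀ B ∈ N, ∀ k ∈ omega, app B k ∈ N) :
    ACw N Γ' := by
  intro B hB hk
  exact hc B hB fun k hk' => ⟨h _ (hr B hB k hk') (hk k hk').1, (hk k hk').2⟩

private theorem finN_app {N : Set ZFSet.{0}} (hN : TM N) {B k : ZFSet.{0}} (hB : B ∈ N)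
    (hk : k ∈ N) : app B k ∈ N := by
  have h : UF (fun _ v => H83.AC.app (v 0) (v 1)) := UF.app (UF.var 0) (UF.var 1)
  have h2 := h.mem N hN (fun n => if n = 0 then B else k) (fun n => by
    by_cases hn : n = 0
    · simp only [hn, if_true]; exact hB
    · simp only [hn, if_false]; exact hk)
  simpa using h2

theorem ac_iso {N : Set ZFSet.{0}} (hN : TM N) (hc : N.Countable) {n m : ℕ}
    (h : ACw N (fun A => A ∈ N ∧ PIT N n 0 A)) (h' : ¬ ACw N (fun A => A ∈ N ∧ PIT N m 0 A)) :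
    ∃ E : ℕ → ℕ → Prop, IsZF E ∧ ACom E (IsPi E n 0) ∧ ¬ ACom E (IsPi E m 0) := by
  have : Countable N := hc.to_subtype
  have hnz : ∀ k : ℕ, nz k ∈ N := fun k =>
    (UF.nz k).mem N hN (fun _ => omega) (fun _ => hN.omega)
  have : Infinite N :=
    Infinite.of_injective (fun k : ℕ => (⟨nz k, hnz k⟩ : N)) (by
      intro a b hab
      exact nz_inj.1 (Subtype.ext_iff.1 hab))
  obtain ⟨hden⟩ := nonempty_denumerable N
  let f : N ≃ ℕ := Denumerable.eqv N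
  have hE : ∀ x y : N, memN N x y ↔
      (fun a b : ℕ => memN N (f.symm a) (f.symm b)) (f x) (f y) := by
    intro x y
    simp only [Equiv.symm_apply_apply]
  have habs : ∀ (l : ℕ) (A : N), IsPi (memN N) l 0 A ↔
      (fun A : ZFSet.{0} => A ∈ N ∧ PIT N l 0 A) A := fun l A =>
    ⟨fun h1 => ⟨A.2, (abs_pi hN l 0 A).1 h1⟩, fun h1 => (abs_pi hN l 0 A).2 h1.2⟩
  refine ⟨fun a b => memN N (f.symm a) (f.symm b), trp_zf f hE hN.zf, ?_, ?_⟩
  · rw [← trp_ac f hE (trp_pi f hE n 0), abs_ac hN (Γ' := fun A : ZFSet.{0} => A ∈ N ∧ PIT N n 0 A) (habs n)]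
    exact h
  · rw [← trp_ac f hE (trp_pi f hE m 0), abs_ac hN (Γ' := fun A : ZFSet.{0} => A ∈ N ∧ PIT N m 0 A) (habs m)]
    exact h'

theorem sep_one : ∃ E : ℕ → ℕ → Prop,
    IsZF E ∧ ACom E (IsPi E 1 0) ∧ ¬ ACom E (IsPi E 2 0) := by
  obtain ⟨M, hG⟩ := exists_ground
  obtain ⟨c, hc, -⟩ := H83.AC.exists_gen hG.ctbl empty_cond
  have hN : TM (H83.AC.NN M c) := H83.AC.NN_tm hG.tm hc
  have hcount : (H83.AC.NN M c).Countable := by
    have h1 : H83.AC.NN M c ⊆ (fun σ => H83.AC.val c σ) '' M := by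
      rintro x ⟨σ, hσ, -, rfl⟩
      exact ⟨σ, hσ, rfl⟩
    exact (hG.ctbl.image _).mono h1
  refine ac_iso hN hcount ?_ ?_
  · intro B hB hk
    exact H83.AC.choice_half hG hc B hB fun k hk' =>
      ⟨PIT_PI1 hN (hk k hk').1.1 (hk k hk').1.2, (hk k hk').2⟩
  · intro h
    refine H83.AC.fail_half hG hc ?_
    intro B hB hk
    have happ : ∀ k ∈ omega, app B k ∈ H83.AC.NN M c := fun k hk' =>
      finN_app hN hB (hN.tr _ hN.omega _ hk')
    exact h B hB fun k hk' =>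
      ⟨⟨happ k hk', PI2_PIT hN (happ k hk') (hk k hk').1⟩, (hk k hk').2⟩

theorem sep_two (n : ℕ) : ∃ E : ℕ → ℕ → Prop,
    IsZF E ∧ ACom E (IsPi E (n + 2) 0) ∧ ¬ ACom E (IsPi E (n + 3) 0) := by
  obtain ⟨M, K, H, hG⟩ := exists_gr
  have hU : UOK M H n (UM M n H) := UM_ok hG n
  have hS : Sys (SU (UM M n H) H) := Sys_SU hG hU
  obtain ⟨G, hg, -⟩ := exists_gen hG.ctbl hS hS.topP
  have hN : TM (NN M (SU (UM M n H) H) G) := NN_tm hG.tm hS (SU_M hG hU).1 hg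
  have hcount : (NN M (SU (UM M n H) H) G).Countable := by
    have h1 : NN M (SU (UM M n H) H) G ⊆ (fun σ => val G σ) '' M := by
      rintro x ⟨σ, hσ, -, rfl⟩
      exact ⟨σ, hσ, rfl⟩
    exact (hG.ctbl.image _).mono h1
  refine ac_iso hN hcount ?_ ?_
  · intro B hB hk
    exact choice_half hG hU hg B hB fun k hk' =>
      ⟨(PIT_PiS hN (n + 2) (hk k hk').1.1).1 (hk k hk').1.2, (hk k hk').2⟩
  · intro h
    refine fail_half hG n hg ?_
    intro B hB hk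
    have happ : ∀ k ∈ omega, app B k ∈ NN M (SU (UM M n H) H) G := fun k hk' =>
      finN_app hN hB (hN.tr _ hN.omega _ hk')
    exact h B hB fun k hk' =>
      ⟨⟨happ k hk', (PIT_PiS hN (n + 3) (happ k hk')).2 (hk k hk').1⟩, (hk k hk').2⟩

theorem separation_all (n : ℕ) (hn : 1 ≤ n) : ∃ E : ℕ → ℕ → Prop,
    IsZF E ∧ ACom E (IsPi E n 0) ∧ ¬ ACom E (IsPi E (n + 1) 0) := by
  obtain ⟨m, rfl⟩ : ∃ m, n = m + 1 := ⟨n - 1, by omega⟩
  cases m with
  | zero => exact sep_one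
  | succ m => exact sep_two m

end H83.PN
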