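import Pool.Agent.H83.PN.GHSU

set_option autoImplicit false

/-!
# Module GActA: algebra of the action on names

As in `AC/ActA.lean`; the group is not commutative here. All statements by induction on `rank σ` with
`mem_actN`. `actN_congr`: two functions which agree on the conditions act in the same way.
`Supp_actN`: for `h ∈ app (sH S) m` take `h'` from `Sys.normal`: `h a = a h'` on conditions, so
`actN h (actN a σ) = actN a (actN h' σ) = actN a σ` (`actN_comp` applied twice; both composites are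
given by elements of `sA S`, `Sys.comp`, `actN_congr`). `HS_actN`: induction with `HS_iff`.
-/

namespace H83.PN

open ZFSet H83.AC

private theorem GActA_ind {S : ZFSet.{0}} {P : ZFSet.{0} → Prop}
    (h : ∀ σ, (∀ π ∈ nd S σ, P π) → P σ) (σ : ZFSet.{0}) : P σ := by
  have key : ∀ o : Ordinal.{0}, ∀ σ : ZFSet.{0}, rank σ = o → P σ := by
    intro o
    induction o using WellFoundedLT.induction with
    | ind o ih =>
      intro σ hσ
      exact h σ fun π hπ => ih (rank π) (hσ ▸ rank_nd_lt hπ) π rfl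
  exact key _ σ rfl

theorem HS.isName {S σ : ZFSet.{0}} (h : HS S σ) : IsName S σ := by
  induction σ using GActA_ind (S := S) with
  | h σ ih =>
    rw [HS_iff] at h
    exact isName_iff.2 ⟨h.1, fun π hπ => ih π hπ (h.2.2 π hπ)⟩

theorem app_mem {S a p : ZFSet.{0}} (hS : Sys S) (ha : a ∈ sA S) (hp : p ∈ sP S) :
    app a p ∈ sP S := by
  have h1 := hS.autF a ha
  obtain ⟨w, hw, hu⟩ := h1.2 p hp
  rw [app_eq hw hu]
  exact (pair_mem_prod.1 (h1.1 hw)).2

theorem mem_nd_actN {S a σ π : ZFSet.{0}} (hS : Sys S) (ha : a ∈ sA S) :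
    π ∈ nd S (actN S a σ) ↔ ∃ ρ ∈ nd S σ, π = actN S a ρ := by
  constructor
  · intro h
    obtain ⟨p, hp, h⟩ := mem_nd.1 h
    obtain ⟨ρ, q, hq, hρ, e⟩ := mem_actN.1 h
    exact ⟨ρ, mem_nd.2 ⟨q, hq, hρ⟩, (pair_injective e).1⟩
  · rintro ⟨ρ, hρ, rfl⟩
    obtain ⟨q, hq, h⟩ := mem_nd.1 hρ
    exact mem_nd.2 ⟨app a q, app_mem hS ha hq, mem_actN.2 ⟨ρ, q, hq, h, rfl⟩⟩

theorem actN_isName {S a σ : ZFSet.{0}} (hS : Sys S) (ha : a ∈ sA S) (h : IsName S σ) :
    IsName S (actN S a σ) := by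
  induction σ using GActA_ind (S := S) with
  | h σ ih =>
    rw [isName_iff] at h
    refine isName_iff.2 ⟨fun t ht => ?_, fun π hπ => ?_⟩
    · obtain ⟨ρ, q, hq, hρ, e⟩ := mem_actN.1 ht
      exact ⟨actN S a ρ, app a q, app_mem hS ha hq, e⟩
    · obtain ⟨ρ, hρ, rfl⟩ := (mem_nd_actN hS ha).1 hπ
      exact ih ρ hρ (h.2 ρ hρ)

theorem actN_congr {S a b σ : ZFSet.{0}} (h : ∀ p ∈ sP S, app a p = app b p) :
    actN S a σ = actN S b σ := by
  induction σ using GActA_ind (S := S) with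
  | h σ ih =>
    ext t
    rw [mem_actN, mem_actN]
    constructor
    · rintro ⟨π, p, hp, hπ, rfl⟩
      exact ⟨π, p, hp, hπ, by rw [ih π (mem_nd.2 ⟨p, hp, hπ⟩), h p hp]⟩
    · rintro ⟨π, p, hp, hπ, rfl⟩
      exact ⟨π, p, hp, hπ, by rw [ih π (mem_nd.2 ⟨p, hp, hπ⟩), h p hp]⟩

theorem actN_comp {S a b c σ : ZFSet.{0}} (hS : Sys S) (ha : a ∈ sA S) (hb : b ∈ sA S)
    (hc : ∀ p ∈ sP S, app c p = app a (app b p)) : actN S a (actN S b σ) = actN S c σ := by
  induction σ using GActA_ind (S := S) with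
  | h σ ih =>
    ext t
    rw [mem_actN, mem_actN]
    constructor
    · rintro ⟨ρ, q, hq, hρ, rfl⟩
      obtain ⟨π, p, hp, hπ, e⟩ := mem_actN.1 hρ
      obtain ⟨rfl, rfl⟩ := pair_injective e
      exact ⟨π, p, hp, hπ, by rw [ih π (mem_nd.2 ⟨p, hp, hπ⟩), hc p hp]⟩
    · rintro ⟨π, p, hp, hπ, rfl⟩
      exact ⟨actN S b π, app b p, app_mem hS hb hp, mem_actN.2 ⟨π, p, hp, hπ, rfl⟩,
        by rw [ih π (mem_nd.2 ⟨p, hp, hπ⟩), hc p hp]⟩

theorem actN_one {S a σ : ZFSet.{0}} (h : IsName S σ) (ha : ∀ p ∈ sP S, app a p = p) :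
    actN S a σ = σ := by
  induction σ using GActA_ind (S := S) with
  | h σ ih =>
    rw [isName_iff] at h
    ext t
    rw [mem_actN]
    constructor
    · rintro ⟨π, p, hp, hπ, rfl⟩
      have hn : π ∈ nd S σ := mem_nd.2 ⟨p, hp, hπ⟩
      rw [ih π hn (h.2 π hn), ha p hp]
      exact hπ
    · intro ht
      obtain ⟨π, p, hp, rfl⟩ := h.1 t ht
      have hn : π ∈ nd S σ := mem_nd.2 ⟨p, hp, ht⟩
      exact ⟨π, p, hp, ht, by rw [ih π hn (h.2 π hn), ha p hp]⟩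

theorem actN_inv {S a b σ : ZFSet.{0}} (hS : Sys S) (ha : a ∈ sA S) (hb : b ∈ sA S)
    (h : IsName S σ) (hab : ∀ p ∈ sP S, app b (app a p) = p) : actN S b (actN S a σ) = σ := by
  obtain ⟨c, hc, h1⟩ := hS.comp b hb a ha
  rw [actN_comp hS hb ha h1]
  exact actN_one h fun p hp => by rw [h1 p hp, hab p hp]

theorem pair_mem_actN {S a σ π p : ZFSet.{0}} (hS : Sys S) (ha : a ∈ sA S) (h : IsName S σ)
    (hπ : IsName S π) (hp : p ∈ sP S) :
    pair (actN S a π) (app a p) ∈ actN S a σ ↔ pair π p ∈ σ := by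
  obtain ⟨b, hb, hab⟩ := hS.inv a ha
  constructor
  · intro ht
    obtain ⟨ρ, q, hq, hρ, e⟩ := mem_actN.1 ht
    obtain ⟨e1, e2⟩ := pair_injective e
    have hn : ρ ∈ nd S σ := mem_nd.2 ⟨q, hq, hρ⟩
    have h1 : π = ρ := by
      rw [← actN_inv hS ha hb hπ (fun p hp => (hab p hp).1), e1,
        actN_inv hS ha hb ((isName_iff.1 h).2 ρ hn) (fun p hp => (hab p hp).1)]
    have h2 : p = q := by rw [← (hab p hp).1, e2, (hab q hq).1]
    rw [h1, h2]
    exact hρ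
  · intro ht
    exact mem_actN.2 ⟨π, p, hp, ht, rfl⟩

theorem Supp_actN {S m a σ : ZFSet.{0}} (hS : Sys S) (ha : a ∈ sA S) (h : Supp S m σ) :
    Supp S m (actN S a σ) := by
  refine ⟨h.1, fun g hg => ?_⟩
  obtain ⟨g', hg', hn⟩ := hS.normal m h.1 a ha g hg
  have h1 : g ∈ sA S := hS.subH m h.1 hg
  have h2 : g' ∈ sA S := hS.subH m h.1 hg'
  obtain ⟨c, hc, hc'⟩ := hS.comp g h1 a ha
  rw [actN_comp hS h1 ha hc', ← actN_comp (σ := σ) hS ha h2
    (fun p hp => by rw [hc' p hp, hn p hp]), h.2 g' hg']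

theorem HS_actN {S a σ : ZFSet.{0}} (hS : Sys S) (ha : a ∈ sA S) (h : HS S σ) :
    HS S (actN S a σ) := by
  induction σ using GActA_ind (S := S) with
  | h σ ih =>
    have hn := h.isName
    rw [HS_iff] at h
    obtain ⟨m, hm⟩ := h.2.1
    refine HS_iff.2 ⟨(isName_iff.1 (actN_isName hS ha hn)).1, ⟨m, Supp_actN hS ha hm⟩,
      fun π hπ => ?_⟩
    obtain ⟨ρ, hρ, rfl⟩ := (mem_nd_actN hS ha).1 hπ
    exact ih ρ hρ (h.2.2 ρ hρ)

end H83.PN
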