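import Pool.Agent.H83.AC.Chk
import Pool.Agent.H83.AC.Coll
import Pool.Agent.H83.AC.SetRec

set_option autoImplicit false

/-!
# Symmetric extensions by an arbitrary poset: definitions

A symmetric system is one set `S = (O, (e, (A, H)))`: `O` is the set of all pairs `(q, p)` with `q`
stronger than `p` (a preorder), `e` the weakest condition, `A` a set of automorphisms (functions on
the set of conditions), `H` a function on `ω`; the `H m` are the groups of the filter of subgroups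
(decreasing, normal in `A`).
-/

namespace H83.PN

open ZFSet H83.AC

/-- the order -/
noncomputable def sO (S : ZFSet.{0}) : ZFSet.{0} := fst S
/-- the weakest condition -/
noncomputable def sE (S : ZFSet.{0}) : ZFSet.{0} := fst (snd S)
/-- the automorphisms -/
noncomputable def sA (S : ZFSet.{0}) : ZFSet.{0} := fst (snd (snd S))
/-- the subgroups -/
noncomputable def sH (S : ZFSet.{0}) : ZFSet.{0} := snd (snd (snd S))
/-- the conditions -/
noncomputable def sP (S : ZFSet.{0}) : ZFSet.{0} := dom (sO S)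
/-- `q` is stronger than `p` -/
def Le (S q p : ZFSet.{0}) : Prop := pair q p ∈ sO S

/-- symmetric systems -/
structure Sys (S : ZFSet.{0}) : Prop where
  ord : ∀ t ∈ sO S, ∃ q ∈ sP S, ∃ p ∈ sP S, t = pair q p
  refl : ∀ p ∈ sP S, Le S p p
  trans : ∀ {p q r : ZFSet.{0}}, Le S p q → Le S q r → Le S p r
  topP : sE S ∈ sP S
  top : ∀ p ∈ sP S, Le S p (sE S)
  autF : ∀ a ∈ sA S, IsFunc (sP S) (sP S) a
  autLe : ∀ a ∈ sA S, ∀ p q, Le S p q → Le S (app a p) (app a q)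
  autE : ∀ a ∈ sA S, app a (sE S) = sE S
  one : ∃ a ∈ sA S, ∀ p ∈ sP S, app a p = p
  inv : ∀ a ∈ sA S, ∃ b ∈ sA S, ∀ p ∈ sP S, app b (app a p) = p ∧ app a (app b p) = p
  comp : ∀ a ∈ sA S, ∀ b ∈ sA S, ∃ c ∈ sA S, ∀ p ∈ sP S, app c p = app a (app b p)
  subH : ∀ m ∈ omega, app (sH S) m ⊆ sA S
  decr : ∀ m ∈ omega, ∀ k ∈ m, app (sH S) m ⊆ app (sH S) k
  invH : ∀ m ∈ omega, ∀ a ∈ app (sH S) m, ∃ b ∈ app (sH S) m, ∀ p ∈ sP S,
    app b (app a p) = p ∧ app a (app b p) = p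
  normal : ∀ m ∈ omega, ∀ a ∈ sA S, ∀ h ∈ app (sH S) m, ∃ h' ∈ app (sH S) m,
    ∀ p ∈ sP S, app h (app a p) = app a (app h' p)

/-- `G` is a filter of conditions of `S`, generic over `M` -/
structure Gen (M : Set ZFSet.{0}) (S : ZFSet.{0}) (G : Set ZFSet.{0}) : Prop where
  sub : ∀ p ∈ G, p ∈ sP S
  up : ∀ p ∈ G, ∀ q ∈ sP S, Le S p q → q ∈ G
  dir : ∀ p ∈ G, ∀ q ∈ G, ∃ r ∈ G, Le S r p ∧ Le S r q
  meet : ∀ D ∈ M, D ⊆ sP S → (∀ p ∈ sP S, ∃ q ∈ D, Le S q p) → ∃ p ∈ D, p ∈ G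

/-! ### Names -/

/-- the names occurring in `σ` -/
noncomputable def nd (S σ : ZFSet.{0}) : ZFSet.{0} :=
  ZFSet.sep (fun π => ∃ p ∈ sP S, pair π p ∈ σ) (⋃₀ (⋃₀ σ : ZFSet))

/-- the names occurring in `σ` with a condition in `G` -/
noncomputable def ndg (G : Set ZFSet.{0}) (σ : ZFSet.{0}) : ZFSet.{0} :=
  ZFSet.sep (fun π => ∃ p ∈ G, pair π p ∈ σ) (⋃₀ (⋃₀ σ : ZFSet))

theorem mem_nd {S σ π : ZFSet.{0}} : π ∈ nd S σ ↔ ∃ p ∈ sP S, pair π p ∈ σ := by
  rw [nd, mem_sep]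
  exact ⟨fun h => h.2, fun h => ⟨by obtain ⟨p, -, hp⟩ := h; exact fst_mem_ssU hp, h⟩⟩

theorem mem_ndg {G : Set ZFSet.{0}} {σ π : ZFSet.{0}} :
    π ∈ ndg G σ ↔ ∃ p ∈ G, pair π p ∈ σ := by
  rw [ndg, mem_sep]
  exact ⟨fun h => h.2, fun h => ⟨by obtain ⟨p, -, hp⟩ := h; exact fst_mem_ssU hp, h⟩⟩

theorem rank_nd_lt {S σ π : ZFSet.{0}} (h : π ∈ nd S σ) : rank π < rank σ := by
  obtain ⟨p, -, hp⟩ := mem_nd.1 h
  exact rank_fst_lt hp

theorem rank_ndg_lt {G : Set ZFSet.{0}} {σ π : ZFSet.{0}} (h : π ∈ ndg G σ) :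
    rank π < rank σ := by
  obtain ⟨p, -, hp⟩ := mem_ndg.1 h
  exact rank_fst_lt hp

/-- the value of the name `σ` at `G` -/
noncomputable def val (G : Set ZFSet.{0}) (σ : ZFSet.{0}) : ZFSet.{0} :=
  ZFSet.range (fun π : ndg G σ => val G π.1)
termination_by rank σ
decreasing_by exact rank_ndg_lt π.2

/-- `p` forces `σ ⊆ τ` -/
def Sub (S p σ τ : ZFSet.{0}) : Prop :=
  ∀ π r, (h : pair π r ∈ σ) → r ∈ sP S → ∀ q ∈ sP S, Le S q p → Le S q r →
    ∃ q' ∈ sP S, Le S q' q ∧ ∃ ρ s, ∃ h' : pair ρ s ∈ τ, s ∈ sP S ∧ Le S q' s ∧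
      Sub S q' π ρ ∧ Sub S q' ρ π
termination_by max (rank σ) (rank τ)
decreasing_by
  · exact max_lt ((rank_fst_lt h).trans_le (le_max_left _ _))
      ((rank_fst_lt h').trans_le (le_max_right _ _))
  · exact max_lt ((rank_fst_lt h').trans_le (le_max_right _ _))
      ((rank_fst_lt h).trans_le (le_max_left _ _))

/-- `p` forces `σ = τ` -/
def FEq (S p σ τ : ZFSet.{0}) : Prop := Sub S p σ τ ∧ Sub S p τ σ

/-- `p` forces `σ ∈ τ` -/
def FMem (S p σ τ : ZFSet.{0}) : Prop :=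
  ∀ q ∈ sP S, Le S q p → ∃ q' ∈ sP S, Le S q' q ∧ ∃ ρ s, pair ρ s ∈ τ ∧ s ∈ sP S ∧ Le S q' s ∧
    FEq S q' σ ρ

/-! ### The action of the automorphisms -/

/-- the action of the automorphism `a` on names -/
noncomputable def actN (S a σ : ZFSet.{0}) : ZFSet.{0} :=
  ⋃₀ (ZFSet.range (fun π : nd S σ =>
    img (fun p => pair (actN S a π.1) (app a p)) (ZFSet.sep (fun p => pair π.1 p ∈ σ) (sP S))))
termination_by rank σ
decreasing_by exact rank_nd_lt π.2

/-- `m` is a support of `σ` -/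
def Supp (S m σ : ZFSet.{0}) : Prop := m ∈ omega ∧ ∀ a ∈ app (sH S) m, actN S a σ = σ

/-- hereditarily symmetric names -/
def HS (S σ : ZFSet.{0}) : Prop :=
  (∀ t ∈ σ, ∃ π, ∃ p ∈ sP S, t = pair π p) ∧ (∃ m, Supp S m σ) ∧
    ∀ π, (h : π ∈ nd S σ) → HS S π
termination_by rank σ
decreasing_by exact rank_nd_lt h

/-- names: hereditarily sets of pairs (name, condition) -/
def IsName (S σ : ZFSet.{0}) : Prop :=
  (∀ t ∈ σ, ∃ π, ∃ p ∈ sP S, t = pair π p) ∧ ∀ π, (h : π ∈ nd S σ) → IsName S π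
termination_by rank σ
decreasing_by exact rank_nd_lt h

/-- the symmetric extension -/
def NN (M : Set ZFSet.{0}) (S : ZFSet.{0}) (G : Set ZFSet.{0}) : Set ZFSet.{0} :=
  {x | ∃ σ ∈ M, HS S σ ∧ x = val G σ}

/-- the forcing relation of the symmetric extension -/
def Fc (M : Set ZFSet.{0}) (S : ZFSet.{0}) : Fml → ZFSet.{0} → (ℕ → ZFSet.{0}) → Prop
  | .bot, _, _ => False
  | .eq i j, p, v => FEq S p (v i) (v j)
  | .mem i j, p, v => FMem S p (v i) (v j)
  | .imp φ ψ, p, v => ∀ q ∈ sP S, Le S q p → Fc M S φ q v → Fc M S ψ q v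
  | .all φ, p, v => ∀ σ ∈ M, HS S σ → Fc M S φ p (cons σ v)

/-- the check name of `x` -/
noncomputable def chk (S x : ZFSet.{0}) : ZFSet.{0} :=
  ZFSet.range (fun y : x => pair (chk S y.1) (sE S))
termination_by rank x
decreasing_by exact rank_lt_of_mem y.2

/-- the image of a class of conditions under an automorphism -/
def gact (a : ZFSet.{0}) (G : Set ZFSet.{0}) : Set ZFSet.{0} := {p | ∃ q ∈ G, p = app a q}

/-- the trivial group on the poset `O` with weakest condition `e` -/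
noncomputable def triv (O e : ZFSet.{0}) : ZFSet.{0} :=
  pair O (pair e (pair {fgr (fun p => p) (dom O)}
    (fgr (fun _ => ({fgr (fun p => p) (dom O)} : ZFSet.{0})) omega)))

section inst

variable {f g : Set ZFSet.{0} → (ℕ → ZFSet.{0}) → ZFSet.{0}}

instance Inst.sO [hf : UF f] : UF (fun N v => H83.PN.sO (f N v)) := by
  unfold H83.PN.sO; infer_instance
instance Inst.sE [hf : UF f] : UF (fun N v => H83.PN.sE (f N v)) := by
  unfold H83.PN.sE; infer_instance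
instance Inst.sA [hf : UF f] : UF (fun N v => H83.PN.sA (f N v)) := by
  unfold H83.PN.sA; infer_instance
instance Inst.sH [hf : UF f] : UF (fun N v => H83.PN.sH (f N v)) := by
  unfold H83.PN.sH; infer_instance
instance Inst.sP [hf : UF f] : UF (fun N v => H83.PN.sP (f N v)) := by
  unfold H83.PN.sP; infer_instance
instance Inst.Le {h : Set ZFSet.{0} → (ℕ → ZFSet.{0}) → ZFSet.{0}} [hf : UF f] [hg : UF g]
    [hh : UF h] : UR (fun N v => H83.PN.Le (f N v) (g N v) (h N v)) := by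
  unfold H83.PN.Le; infer_instance
instance Inst.nd [hf : UF f] [hg : UF g] : UF (fun N v => H83.PN.nd (f N v) (g N v)) := by
  unfold H83.PN.nd; infer_instance
instance Inst.triv [hf : UF f] [hg : UF g] : UF (fun N v => H83.PN.triv (f N v) (g N v)) := by
  unfold H83.PN.triv; infer_instance

end inst

end H83.PN
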