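import Pool.Agent.H83.PN.GChk

set_option autoImplicit false

/-!
# Module GNa: the symmetric extension is transitive; pairing, superset of the union, omega, ranks

As in `AC/NNa.lean`. The names of pairs and unions use the weakest condition `sE S` in place of the
empty condition. `Supp_mono`: `Sys.decr` (from `m ≤ n` get `nz m ∈ nz n` or `m = n`).
`rk_NN`: `rank (val G σ) ≤ rank σ` by induction, so `rk (val G σ)` is `rk σ` or an element of `rk σ`.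
-/

namespace H83.PN

open ZFSet H83.AC

private theorem GNa_nd_mem {M : Set ZFSet.{0}} (hM : TM M) {S σ π : ZFSet.{0}} (hσ : σ ∈ M)
    (hπ : π ∈ nd S σ) : π ∈ M := by
  obtain ⟨p, -, hp⟩ := mem_nd.1 hπ
  exact hM.tr _ (hM.sUnion (hM.sUnion hσ)) π (fst_mem_ssU hp)

theorem NN_tr {M G : Set ZFSet.{0}} {S : ZFSet.{0}} (hM : TM M) (hS : Sys S) (hG : Gen M S G) :
    IsTr (NN M S G) := by
  rintro x ⟨σ, hσM, hσ, rfl⟩ y hy
  obtain ⟨π, p, hp, hπ, rfl⟩ := mem_val.1 hy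
  have hn : π ∈ nd S σ := mem_nd.2 ⟨p, hG.sub p hp, hπ⟩
  exact ⟨π, GNa_nd_mem hM hσM hn, (HS_iff.1 hσ).2.2 π hn, rfl⟩

theorem Supp_mono {S : ZFSet.{0}} (hS : Sys S) {m n : ℕ} (h : m ≤ n) {σ : ZFSet.{0}}
    (hs : Supp S (nz m) σ) : Supp S (nz n) σ := by
  rcases h.lt_or_eq with h | rfl
  · exact ⟨nz_mem_omega n, fun a ha =>
      hs.2 a (hS.decr _ (nz_mem_omega n) _ (nz_mem_nz.2 h) ha)⟩
  · exact hs

/-- the set of all pairs `(ρ, e)`, `ρ ∈ T` -/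
private noncomputable def GNa_flat (S T : ZFSet.{0}) : ZFSet.{0} :=
  img (fun ρ => pair ρ (sE S)) T

private theorem GNa_mem_flat {S T π p : ZFSet.{0}} :
    pair π p ∈ GNa_flat S T ↔ π ∈ T ∧ p = sE S := by
  rw [GNa_flat, mem_img]
  constructor
  · rintro ⟨y, hy, h⟩
    obtain ⟨h1, h2⟩ := pair_injective h
    subst h1
    exact ⟨hy, h2.symm⟩
  · rintro ⟨h1, rfl⟩
    exact ⟨π, h1, rfl⟩

private theorem GNa_flat_NN {M G : Set ZFSet.{0}} {S : ZFSet.{0}} (hM : TM M) (hS : Sys S)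
    (hSM : S ∈ M) (hG : Gen M S G) {T : ZFSet.{0}} (hT : T ∈ M) {m : ZFSet.{0}}
    (hm : m ∈ omega) (h1 : ∀ ρ ∈ T, HS S ρ)
    (h2 : ∀ a ∈ app (sH S) m, ∀ ρ ∈ T, actN S a ρ ∈ T) :
    ∃ u ∈ NN M S G, ∀ x, x ∈ u ↔ ∃ ρ ∈ T, x = val G ρ := by
  have hF : GNa_flat S T ∈ M := by
    have : UF (fun N v => img (fun ρ => pair ρ (sE (v 1))) (v 0)) := by infer_instance
    exact this.mem M hM (fun i => if i = 0 then T else S) (fun i => by
      split_ifs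
      · exact hT
      · exact hSM)
  refine ⟨val G (GNa_flat S T), ⟨GNa_flat S T, hF, HS_iff.2 ⟨?_, ⟨m, hm, ?_⟩, ?_⟩, rfl⟩, ?_⟩
  · intro t ht
    rw [GNa_flat, mem_img] at ht
    obtain ⟨y, -, rfl⟩ := ht
    exact ⟨y, sE S, hS.topP, rfl⟩
  · intro a ha
    have haA : a ∈ sA S := hS.subH m hm ha
    obtain ⟨b, hb, hab⟩ := hS.invH m hm a ha
    have hbA : b ∈ sA S := hS.subH m hm hb
    ext t
    rw [mem_actN]
    constructor
    · rintro ⟨π, p, -, hp, rfl⟩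
      obtain ⟨hπ, rfl⟩ := GNa_mem_flat.1 hp
      rw [hS.autE a haA]
      exact GNa_mem_flat.2 ⟨h2 a ha π hπ, rfl⟩
    · intro ht
      rw [GNa_flat, mem_img] at ht
      obtain ⟨ρ, hρ, rfl⟩ := ht
      refine ⟨actN S b ρ, sE S, hS.topP, GNa_mem_flat.2 ⟨h2 b hb ρ hρ, rfl⟩, ?_⟩
      rw [actN_inv hS hbA haA (h1 ρ hρ).isName (fun p hp => (hab p hp).2), hS.autE a haA]
  · intro π hπ
    obtain ⟨p, -, hp⟩ := mem_nd.1 hπ
    exact h1 π (GNa_mem_flat.1 hp).1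
  · intro x
    rw [mem_val]
    constructor
    · rintro ⟨π, p, -, hp, rfl⟩
      exact ⟨π, (GNa_mem_flat.1 hp).1, rfl⟩
    · rintro ⟨ρ, hρ, rfl⟩
      exact ⟨ρ, sE S, top_mem hM hS hSM hG, GNa_mem_flat.2 ⟨hρ, rfl⟩, rfl⟩

theorem NN_pair {M G : Set ZFSet.{0}} {S : ZFSet.{0}} (hM : TM M) (hS : Sys S) (hSM : S ∈ M)
    (hG : Gen M S G) {x y : ZFSet.{0}} (hx : x ∈ NN M S G) (hy : y ∈ NN M S G) :
    ({x, y} : ZFSet) ∈ NN M S G := by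
  obtain ⟨σ, hσM, hσ, rfl⟩ := hx
  obtain ⟨τ, hτM, hτ, rfl⟩ := hy
  obtain ⟨m, hm⟩ := (HS_iff.1 hσ).2.1
  obtain ⟨n, hn⟩ := (HS_iff.1 hτ).2.1
  obtain ⟨m, rfl⟩ := mem_omega.1 hm.1
  obtain ⟨n, rfl⟩ := mem_omega.1 hn.1
  have hm' := Supp_mono hS (le_max_left m n) hm
  have hn' := Supp_mono hS (le_max_right m n) hn
  obtain ⟨u, hu, h⟩ := GNa_flat_NN hM hS hSM hG (hM.upair hσM hτM) (nz_mem_omega (max m n))
    (fun ρ hρ => by
      rcases ZFSet.mem_pair.1 hρ with rfl | rfl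
      · exact hσ
      · exact hτ)
    (fun a ha ρ hρ => by
      rcases ZFSet.mem_pair.1 hρ with rfl | rfl
      · rw [hm'.2 a ha]; exact hρ
      · rw [hn'.2 a ha]; exact hρ)
  have : ({val G σ, val G τ} : ZFSet) = u := by
    ext t
    rw [h, ZFSet.mem_pair]
    constructor
    · rintro (rfl | rfl)
      · exact ⟨σ, by simp, rfl⟩
      · exact ⟨τ, by simp, rfl⟩
    · rintro ⟨ρ, hρ, rfl⟩
      rcases ZFSet.mem_pair.1 hρ with rfl | rfl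
      · exact Or.inl rfl
      · exact Or.inr rfl
  rw [this]
  exact hu

theorem NN_union {M G : Set ZFSet.{0}} {S : ZFSet.{0}} (hM : TM M) (hS : Sys S) (hSM : S ∈ M)
    (hG : Gen M S G) {x : ZFSet.{0}} (hx : x ∈ NN M S G) :
    ∃ u ∈ NN M S G, ∀ y ∈ x, y ⊆ u := by
  obtain ⟨σ, hσM, hσ, rfl⟩ := hx
  obtain ⟨m, hm⟩ := (HS_iff.1 hσ).2.1
  have hT : uni (fun π => nd S π) (nd S σ) ∈ M := by
    have : UF (fun N v => uni (fun π => nd (v 1) π) (nd (v 1) (v 0))) := by infer_instance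
    exact this.mem M hM (fun i => if i = 0 then σ else S) (fun i => by
      split_ifs
      · exact hσM
      · exact hSM)
  obtain ⟨u, hu, h⟩ := GNa_flat_NN hM hS hSM hG hT hm.1
    (fun ρ hρ => by
      obtain ⟨π, hπ, hρ⟩ := mem_uni.1 hρ
      exact (HS_iff.1 ((HS_iff.1 hσ).2.2 π hπ)).2.2 ρ hρ)
    (fun a ha ρ hρ => by
      have haA : a ∈ sA S := hS.subH m hm.1 ha
      obtain ⟨π, hπ, hρ⟩ := mem_uni.1 hρ
      refine mem_uni.2 ⟨actN S a π, ?_, (mem_nd_actN hS haA).2 ⟨ρ, hρ, rfl⟩⟩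
      have h1 : actN S a π ∈ nd S (actN S a σ) := (mem_nd_actN hS haA).2 ⟨π, hπ, rfl⟩
      rwa [hm.2 a ha] at h1)
  refine ⟨u, hu, fun y hy w hw => ?_⟩
  obtain ⟨π, p, hp, hπ, rfl⟩ := mem_val.1 hy
  obtain ⟨ρ, q, hq, hρ, rfl⟩ := mem_val.1 hw
  exact (h _).2 ⟨ρ, mem_uni.2 ⟨π, mem_nd.2 ⟨p, hG.sub p hp, hπ⟩,
    mem_nd.2 ⟨q, hG.sub q hq, hρ⟩⟩, rfl⟩

theorem NN_omega {M G : Set ZFSet.{0}} {S : ZFSet.{0}} (hM : TM M) (hS : Sys S) (hSM : S ∈ M)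
    (hG : Gen M S G) : omega ∈ NN M S G :=
  sub_NN hM hS hSM hG (TM.omega hM)

private theorem GNa_rank_val_le (G : Set ZFSet.{0}) (σ : ZFSet.{0}) :
    rank (val G σ) ≤ rank σ := by
  rw [ZFSet.rank_le_iff]
  intro y hy
  obtain ⟨π, p, hp, hπ, rfl⟩ := mem_val.1 hy
  exact (GNa_rank_val_le G π).trans_lt (rank_fst_lt hπ)
termination_by rank σ
decreasing_by exact rank_fst_lt hπ

theorem rk_NN {M G : Set ZFSet.{0}} {S : ZFSet.{0}} (hM : TM M) {x : ZFSet.{0}}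
    (hx : x ∈ NN M S G) : rk x ∈ M := by
  obtain ⟨σ, hσ, -, rfl⟩ := hx
  have h1 : rk σ ∈ M := (UF.rk (UF.var 0)).mem M hM (fun _ => σ) (fun _ => hσ)
  rcases (GNa_rank_val_le G σ).lt_or_eq with h | h
  · exact hM.tr _ h1 _ (rk_mem_rk.2 h)
  · rw [rk_eq_rk.2 h]
    exact h1

end H83.PN
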