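import Pool.Agent.H83.PN.GNa
import Pool.Agent.H83.PN.GTru
import Pool.Agent.H83.PN.GActF

set_option autoImplicit false

/-!
# Module GNb: separation in the symmetric extension

As in `AC/NNb.lean`: `x = val G σ`, `v i = val G (u i)`; one `m` is a support of `σ` and of the finitely
many relevant `u i`; the name is `ρ = {(π, p) : π ∈ nd S σ, p ∈ sP S, FMem S p π σ, Fc M S φ p (cons π u)}`.
For `a ∈ app (sH S) m` (with inverse `b ∈ app (sH S) m`, `Sys.invH`) `(π, p) ∈ ρ` iff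
`(actN a π, app a p) ∈ ρ`.
-/

namespace H83.PN

open ZFSet H83.AC

private theorem GNb_congr {K : Set ZFSet.{0}} : ∀ (φ : Fml) {n : ℕ}, φ.bd n → ∀ {v w : ℕ → ZFSet.{0}},
    (∀ i < n, v i = w i) → (SatIn K φ v ↔ SatIn K φ w)
  | .bot, _, _, _, _, _ => Iff.rfl
  | .eq i j, _, h, v, w, e => by simp only [SatIn, e i h.1, e j h.2]
  | .mem i j, _, h, v, w, e => by simp only [SatIn, e i h.1, e j h.2]
  | .imp φ ψ, _, h, v, w, e => by
    simp only [SatIn, GNb_congr φ h.1 e, GNb_congr ψ h.2 e]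
  | .all φ, n, h, v, w, e => by
    simp only [SatIn]
    refine forall_congr' fun x => imp_congr_right fun _ => GNb_congr φ h fun i hi => ?_
    cases i with
    | zero => rfl
    | succ i => exact e i (by omega)

private theorem GNb_nd_empty {S π : ZFSet.{0}} (h : π ∈ nd S ∅) : False := by
  obtain ⟨p, -, hp⟩ := mem_nd.1 h
  exact ZFSet.notMem_empty _ hp

private theorem GNb_act_empty (S a : ZFSet.{0}) : actN S a ∅ = ∅ := by
  rw [ZFSet.eq_empty]
  intro t ht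
  obtain ⟨π, p, -, hp, -⟩ := mem_actN.1 ht
  exact ZFSet.notMem_empty _ hp

private theorem GNb_supp_empty (S : ZFSet.{0}) (m : ℕ) : Supp S (nz m) ∅ :=
  ⟨nz_mem_omega m, fun a _ => GNb_act_empty S a⟩

private theorem GNb_HS_empty (S : ZFSet.{0}) : HS S ∅ :=
  HS_iff.2 ⟨fun _ ht => absurd ht (ZFSet.notMem_empty _), ⟨nz 0, GNb_supp_empty S 0⟩,
    fun _ hπ => (GNb_nd_empty hπ).elim⟩

private theorem GNb_supp {S : ZFSet.{0}} (hS : Sys S) {u : ℕ → ZFSet.{0}} (hu : ∀ i, HS S (u i))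
    (n : ℕ) : ∃ K, ∀ i < n, Supp S (nz K) (u i) := by
  induction n with
  | zero => exact ⟨0, fun i hi => absurd hi (Nat.not_lt_zero i)⟩
  | succ n ih =>
    obtain ⟨K, hK⟩ := ih
    obtain ⟨m, hm⟩ := (HS_iff.1 (hu n)).2.1
    obtain ⟨k, rfl⟩ := mem_omega.1 hm.1
    refine ⟨max K k, fun i hi => ?_⟩
    rcases Nat.lt_succ_iff_lt_or_eq.1 hi with h | rfl
    · exact Supp_mono hS (le_max_left K k) (hK i h)
    · exact Supp_mono hS (le_max_right K k) hm

private theorem GNb_ur (φ : Fml) : UR (fun N v => (snd (v 0) ∈ sP (v 1) ∧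
      FMem (v 1) (snd (v 0)) (fst (v 0)) (v 2)) ∧
    (snd (v 0) ∈ sP (v 1) ∧ Fc N (v 1) φ (snd (v 0)) (cons (fst (v 0)) (sh (sh (sh v)))))) := by
  refine UD.and (UR.FMem (UF.var 1) (UF.snd (UF.var 0)) (UF.fst (UF.var 0)) (UF.var 2)) ?_
  refine UD.subst (R := fun N x v => x ∈ sP (v 1) ∧
    Fc N (v 1) φ x (cons (fst (v 0)) (sh (sh (sh v))))) ?_ (UF.snd (UF.var 0))
  refine UD.subst (R := fun N y v => v 0 ∈ sP (v 2) ∧
    Fc N (v 2) φ (v 0) (cons y (sh (sh (sh (sh v)))))) ?_ (UF.fst (UF.var 1))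
  refine ((UR.Fc φ).ren (fun n => if n = 0 then 1 else if n = 1 then 3 else
    if n = 2 then 0 else n + 2)).congr fun N _ w _ => ?_
  have e : (sh (sh (fun n => w ((fun n => if n = 0 then 1 else if n = 1 then 3 else
      if n = 2 then 0 else n + 2) n)))) = cons (w 0) (sh (sh (sh (sh (sh w))))) := by
    funext n
    cases n with
    | zero => rfl
    | succ n => rfl
  show (w 1 ∈ sP (w 3) ∧ Fc N (w 3) φ (w 1) (cons (w 0) (sh (sh (sh (sh (sh w))))))) ↔ _
  rw [← e]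
  exact Iff.rfl

private theorem GNb_cons (G : Set ZFSet.{0}) (σ : ZFSet.{0}) (v : ℕ → ZFSet.{0}) :
    (fun i => val G (cons σ v i)) = cons (val G σ) (fun i => val G (v i)) := by
  funext i
  cases i with
  | zero => rfl
  | succ i => rfl

theorem NN_sep {M G : Set ZFSet.{0}} {S : ZFSet.{0}} (hM : TM M) (hS : Sys S) (hSM : S ∈ M)
    (hG : Gen M S G) (φ : Fml) {v : ℕ → ZFSet.{0}} (hv : ∀ i, v i ∈ NN M S G) {x : ZFSet.{0}}
    (hx : x ∈ NN M S G) : ZFSet.sep (fun y => SatIn (NN M S G) φ (cons y v)) x ∈ NN M S G := by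
  classical
  obtain ⟨σ, hσM, hσ, rfl⟩ := hx
  choose u0 hu0M hu0 hu0v using hv
  obtain ⟨n, hn⟩ := φ.exists_bd
  set u : ℕ → ZFSet.{0} := fun i => if i < n then u0 i else ∅ with hudef
  have hempty : (∅ : ZFSet.{0}) ∈ M := UF.empty.mem M hM (fun _ => σ) (fun _ => hσM)
  have huM : ∀ i, u i ∈ M := by
    intro i
    by_cases h : i < n
    · simp only [hudef, if_pos h]; exact hu0M i
    · simp only [hudef, if_neg h]; exact hempty
  have huHS : ∀ i, HS S (u i) := by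
    intro i
    by_cases h : i < n
    · simp only [hudef, if_pos h]; exact hu0 i
    · simp only [hudef, if_neg h]; exact GNb_HS_empty S
  obtain ⟨K1, hK1⟩ := GNb_supp hS huHS n
  obtain ⟨m, hm⟩ := (HS_iff.1 hσ).2.1
  obtain ⟨k, rfl⟩ := mem_omega.1 hm.1
  obtain ⟨K, hKσ, hKu⟩ : ∃ K, Supp S (nz K) σ ∧ ∀ i, Supp S (nz K) (u i) := by
    refine ⟨max K1 k, Supp_mono hS (le_max_right K1 k) hm, fun i => ?_⟩
    by_cases h : i < n
    · exact Supp_mono hS (le_max_left K1 k) (hK1 i h)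
    · simp only [hudef, if_neg h]; exact GNb_supp_empty S _
  have hcong : ∀ y, SatIn (NN M S G) φ (cons y v) ↔
      SatIn (NN M S G) φ (cons y (fun i => val G (u i))) := by
    intro y
    refine GNb_congr φ hn fun i hi => ?_
    cases i with
    | zero => rfl
    | succ i =>
      have h : i < n := by omega
      simp only [cons_succ, hudef, if_pos h]
      exact hu0v i
  have hw : ∀ i, cons S (cons σ u) i ∈ M := by
    intro i
    match i with
    | 0 => exact hSM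
    | 1 => exact hσM
    | i + 2 => exact huM i
  have hcu : ∀ π ∈ nd S σ, ∀ i, cons π u i ∈ M ∧ HS S (cons π u i) := by
    intro π hπ i
    cases i with
    | zero =>
      refine ⟨?_, (HS_iff.1 hσ).2.2 π hπ⟩
      obtain ⟨p, -, hp⟩ := mem_nd.1 hπ
      exact hM.tr _ (hM.sUnion (hM.sUnion hσM)) π (fst_mem_ssU hp)
    | succ i => exact ⟨huM i, huHS i⟩
  have hprodM : ZFSet.prod (nd S σ) (sP S) ∈ M := by
    have h : UF (fun _ v => ZFSet.prod (nd (v 0) (v 1)) (sP (v 0))) := by infer_instance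
    exact h.mem M hM (cons S (cons σ u)) hw
  set ρ : ZFSet.{0} := ZFSet.sep (fun t => (snd t ∈ sP S ∧ FMem S (snd t) (fst t) σ) ∧
    (snd t ∈ sP S ∧ Fc M S φ (snd t) (cons (fst t) u))) (ZFSet.prod (nd S σ) (sP S)) with hρdef
  have hρM : ρ ∈ M :=
    TM.sep_of (R := fun N t w => (snd t ∈ sP (w 0) ∧ FMem (w 0) (snd t) (fst t) (w 1)) ∧
      (snd t ∈ sP (w 0) ∧ Fc N (w 0) φ (snd t) (cons (fst t) (sh (sh w))))) (GNb_ur φ) hM
      (v := cons S (cons σ u)) hw hprodM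
  have hρ : ∀ π p, pair π p ∈ ρ ↔ π ∈ nd S σ ∧ p ∈ sP S ∧ FMem S p π σ ∧
      Fc M S φ p (cons π u) := by
    intro π p
    rw [hρdef, mem_sep, pair_mem_prod, fst_pair, snd_pair]
    tauto
  have hρp : ∀ t ∈ ρ, ∃ π p, p ∈ sP S ∧ t = pair π p := by
    intro t ht
    rw [hρdef, mem_sep, mem_prod] at ht
    obtain ⟨⟨π, -, p, hp, rfl⟩, -⟩ := ht
    exact ⟨π, p, hp, rfl⟩
  have hclos : ∀ a ∈ app (sH S) (nz K), ∀ π p, pair π p ∈ ρ →
      pair (actN S a π) (app a p) ∈ ρ := by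
    intro a ha π p h
    obtain ⟨h1, h2, h3, h4⟩ := (hρ π p).1 h
    have haA : a ∈ sA S := hS.subH _ (nz_mem_omega K) ha
    rw [hρ]
    have hσz := hKσ.2 a ha
    refine ⟨?_, app_mem hS haA h2, ?_, ?_⟩
    · have : actN S a π ∈ nd S (actN S a σ) := (mem_nd_actN hS haA).2 ⟨π, h1, rfl⟩
      rwa [hσz] at this
    · have := FMem_act hS haA h2 ((HS_iff.1 hσ).2.2 π h1).isName hσ.isName h3
      rwa [hσz] at this
    · have := Fc_act hM hS hSM haA φ h2 (hcu π h1) h4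
      have e : (fun i => actN S a (cons π u i)) = cons (actN S a π) u := by
        funext i
        cases i with
        | zero => rfl
        | succ i => exact (hKu i).2 a ha
      rwa [e] at this
  have hρHS : HS S ρ := by
    refine HS_iff.2 ⟨fun t ht => ?_, ⟨nz K, nz_mem_omega K, fun a ha => ?_⟩, fun π hπ => ?_⟩
    · obtain ⟨π, p, hp, e⟩ := hρp t ht
      exact ⟨π, p, hp, e⟩
    · have haA : a ∈ sA S := hS.subH _ (nz_mem_omega K) ha
      obtain ⟨b, hb, hab⟩ := hS.invH _ (nz_mem_omega K) a ha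
      have hbA : b ∈ sA S := hS.subH _ (nz_mem_omega K) hb
      ext t
      rw [mem_actN]
      constructor
      · rintro ⟨π, p, -, h, rfl⟩
        exact hclos a ha π p h
      · intro ht
        obtain ⟨π, p, hp, rfl⟩ := hρp t ht
        refine ⟨actN S b π, app b p, app_mem hS hbA hp, hclos b hb π p ht, ?_⟩
        rw [actN_inv hS hbA haA ((HS_iff.1 hσ).2.2 π ((hρ π p).1 ht).1).isName
          (fun p hp => (hab p hp).2), (hab p hp).2]
    · obtain ⟨p, -, hp⟩ := mem_nd.1 hπ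
      exact (HS_iff.1 hσ).2.2 π ((hρ π p).1 hp).1
  refine ⟨ρ, hρM, hρHS, ?_⟩
  ext y
  rw [mem_sep, hcong]
  constructor
  · rintro ⟨hy, hs⟩
    obtain ⟨π, p0, hp0, hπ0, rfl⟩ := mem_val.1 hy
    have hπ : π ∈ nd S σ := mem_nd.2 ⟨p0, hG.sub p0 hp0, hπ0⟩
    obtain ⟨p1, h1, h3⟩ := (truth_mem hM hS hSM hG (hcu π hπ 0).1 hσM).1 hy
    rw [← GNb_cons] at hs
    obtain ⟨p2, h4, h6⟩ := (truth hM hS hSM hG φ (cons π u) (hcu π hπ)).1 hs
    obtain ⟨r, hr, hr1, hr2⟩ := hG.dir p1 h1 p2 h4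
    exact mem_val.2 ⟨π, r, hr, (hρ π _).2 ⟨hπ, hG.sub r hr, FMem_mono hS hr1 h3,
      Fc_mono hS φ hr2 h6⟩, rfl⟩
  · intro hy
    obtain ⟨π, p, hpG, h, rfl⟩ := mem_val.1 hy
    obtain ⟨h1, h2, h3, h4⟩ := (hρ π p).1 h
    refine ⟨(truth_mem hM hS hSM hG (hcu π h1 0).1 hσM).2 ⟨p, hpG, h3⟩, ?_⟩
    rw [← GNb_cons]
    exact (truth hM hS hSM hG φ (cons π u) (hcu π h1)).2 ⟨p, hpG, h4⟩

end H83.PN
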