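import Pool.Agent.H83.PN.GDefs

set_option autoImplicit false

/-!
# Module GNdU: the action on names is uniformly definable

`actN_eq` unfolds the recursion. The same proofs as in `AC/NdU.lean`: `UF.recur` with
`pred N v x = nd (v 0) x` (parameters `S = v 0`, `a = v 1`), `F N v x = actN (v 0) (v 1) x`, then
`UF.comp3` or `UF.subst`, `UF.ren`.
-/

namespace H83.PN

open ZFSet H83.AC

variable {f g h : Set ZFSet.{0} → (ℕ → ZFSet.{0}) → ZFSet.{0}}

theorem actN_eq (S a σ : ZFSet.{0}) : actN S a σ = uni (fun π =>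
    img (fun p => pair (actN S a π) (app a p)) (ZFSet.sep (fun p => pair π p ∈ σ) (sP S)))
      (nd S σ) := by
  rw [actN]
  rfl

theorem mem_actN {S a σ t : ZFSet.{0}} : t ∈ actN S a σ ↔
    ∃ π p, p ∈ sP S ∧ pair π p ∈ σ ∧ t = pair (actN S a π) (app a p) := by
  rw [actN_eq, mem_uni]
  simp only [mem_img, mem_sep]
  constructor
  · rintro ⟨π, -, p, ⟨hp, h⟩, rfl⟩
    exact ⟨π, p, hp, h, rfl⟩
  · rintro ⟨π, p, hp, h, rfl⟩
    exact ⟨π, mem_nd.2 ⟨p, hp, h⟩, p, ⟨hp, h⟩, rfl⟩

theorem UF.actN (hf : UF f) (hg : UF g) (hh : UF h) :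
    UF (fun N v => H83.PN.actN (f N v) (g N v) (h N v)) := by
  have key : UF (fun _ v => H83.PN.actN (v 1) (v 2) (v 0)) := by
    refine UF.recur (pred := fun _ v x => H83.PN.nd (v 0) x)
      (F := fun _ v x => H83.PN.actN (v 0) (v 1) x)
      (G := fun _ v x h => H83.AC.uni (fun π => H83.AC.img
        (fun p => ZFSet.pair (H83.AC.app h π) (H83.AC.app (v 1) p))
        (ZFSet.sep (fun p => ZFSet.pair π p ∈ x) (H83.PN.sP (v 0)))) (H83.PN.nd (v 0) x))
      ?_ ?_ ?_ ?_
    · exact Inst.nd (f := fun _ w => w 1) (g := fun _ w => w 0)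
        (hf := UF.var 1) (hg := UF.var 0)
    · refine UF.uni (F := fun _ π w => H83.AC.img
        (fun p => ZFSet.pair (H83.AC.app (w 1) π) (H83.AC.app (w 3) p))
        (ZFSet.sep (fun p => ZFSet.pair π p ∈ w 0) (H83.PN.sP (w 2))))
        (Inst.nd (f := fun _ w => w 2) (g := fun _ w => w 0) (hf := UF.var 2) (hg := UF.var 0)) ?_
      refine UF.img (F := fun _ p w => ZFSet.pair (H83.AC.app (w 2) (w 0)) (H83.AC.app (w 4) p))
        ?_ ?_
      · refine UF.sep (R := fun _ p w => ZFSet.pair (w 0) p ∈ w 1)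
          (Inst.sP (f := fun _ w => w 3) (hf := UF.var 3)) ?_
        exact UR.mem (UF.pair (UF.var 1) (UF.var 0)) (UF.var 2)
      · exact UF.pair (UF.app (UF.var 3) (UF.var 1)) (UF.app (UF.var 5) (UF.var 0))
    · intro N _ v _
      refine Subrelation.wf (r := InvImage (fun a b : Ordinal => a < b)
        (fun x : N => rank (x : ZFSet))) ?_ (InvImage.wf _ Ordinal.lt_wf)
      intro y x h
      exact rank_nd_lt h
    · intro N _ v _ x _
      rw [actN_eq]
      refine uni_congr fun π hπ => img_congr fun p _ => ?_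
      rw [app_fgr hπ]
  exact UF.comp3 (F := fun _ x y z => H83.PN.actN x y z)
    (key.ren (fun n => if n = 0 then 2 else if n = 1 then 0 else 1)) hf hg hh

instance Inst.actN [hf : UF f] [hg : UF g] [hh : UF h] :
    UF (fun N v => H83.PN.actN (f N v) (g N v) (h N v)) := UF.actN hf hg hh

end H83.PN
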