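import Pool.Agent.H83.PN.GRn
import Pool.Agent.H83.PN.GNtm

set_option autoImplicit false

/-!
# Module GTriv: the trivial group

`Sys_triv`: all automorphisms are the identity `fgr (fun p => p) P`. `HS_triv`: every name is hereditarily
symmetric (induction, `actN_one`). `gen_mem`: the generic set is `ev G e` with `e = {(p, p) : p ∈ P}`.
`ev_mem_triv` from `ev_mem` (with `m = ∅`).
-/

namespace H83.PN

open ZFSet H83.AC

/-- `O` is a preorder with the weakest element `e` -/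
structure IsPo (O e : ZFSet.{0}) : Prop where
  ord : ∀ t ∈ O, ∃ q ∈ dom O, ∃ p ∈ dom O, t = pair q p
  refl : ∀ p ∈ dom O, pair p p ∈ O
  trans : ∀ {p q r : ZFSet.{0}}, pair p q ∈ O → pair q r ∈ O → pair p r ∈ O
  topP : e ∈ dom O
  top : ∀ p ∈ dom O, pair p e ∈ O

private theorem GTriv_om (m : ZFSet.{0}) (hm : m ∈ omega) (k : ZFSet.{0}) (hk : k ∈ m) :
    k ∈ omega := by
  obtain ⟨n, rfl⟩ := mem_omega.1 hm
  obtain ⟨j, -, rfl⟩ := mem_nz.1 hk
  exact mem_omega.2 ⟨j, rfl⟩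

private theorem GTriv_sO (O e : ZFSet.{0}) : sO (triv O e) = O := by
  simp [sO, triv]

private theorem GTriv_sP (O e : ZFSet.{0}) : sP (triv O e) = dom O := by
  rw [sP, GTriv_sO]

private theorem GTriv_sE (O e : ZFSet.{0}) : sE (triv O e) = e := by
  simp [sE, triv]

private theorem GTriv_sA {O e a : ZFSet.{0}} :
    a ∈ sA (triv O e) ↔ a = fgr (fun p => p) (dom O) := by
  simp [sA, triv]

private theorem GTriv_sH {O e m a : ZFSet.{0}} (hm : m ∈ omega) :
    a ∈ app (sH (triv O e)) m ↔ a = fgr (fun p => p) (dom O) := by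
  have h1 : sH (triv O e) =
      fgr (fun _ => ({fgr (fun p => p) (dom O)} : ZFSet.{0})) omega := by
    simp [sH, triv]
  rw [h1, app_fgr hm]
  simp

private theorem GTriv_app {O p : ZFSet.{0}} (hp : p ∈ dom O) :
    app (fgr (fun p => p) (dom O)) p = p := app_fgr hp

private theorem GTriv_dom {O e p q : ZFSet.{0}} (h : IsPo O e) (hpq : pair p q ∈ O) :
    p ∈ dom O ∧ q ∈ dom O := by
  obtain ⟨a, ha, b, hb, e1⟩ := h.ord _ hpq
  obtain ⟨rfl, rfl⟩ := pair_injective e1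
  exact ⟨ha, hb⟩

theorem Sys_triv {O e : ZFSet.{0}} (h : IsPo O e) : Sys (triv O e) := by
  constructor
  · rw [GTriv_sO, GTriv_sP]
    exact h.ord
  · intro p hp
    rw [GTriv_sP] at hp
    rw [Le, GTriv_sO]
    exact h.refl p hp
  · intro p q r h1 h2
    rw [Le, GTriv_sO] at *
    exact h.trans h1 h2
  · rw [GTriv_sP, GTriv_sE]
    exact h.topP
  · intro p hp
    rw [GTriv_sP] at hp
    rw [Le, GTriv_sO, GTriv_sE]
    exact h.top p hp
  · intro a ha
    rw [GTriv_sA] at ha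
    subst ha
    rw [GTriv_sP]
    refine ⟨?_, ?_⟩
    · intro z hz
      obtain ⟨y, hy, rfl⟩ := mem_fgr.1 hz
      exact ZFSet.mem_prod.2 ⟨y, hy, y, hy, rfl⟩
    · intro z hz
      exact ⟨z, pair_mem_fgr.2 ⟨hz, rfl⟩, fun w hw => (pair_mem_fgr.1 hw).2⟩
  · intro a ha p q hpq
    rw [GTriv_sA] at ha
    subst ha
    rw [Le, GTriv_sO] at *
    obtain ⟨h1, h2⟩ := GTriv_dom h hpq
    rw [GTriv_app h1, GTriv_app h2]
    exact hpq
  · intro a ha
    rw [GTriv_sA] at ha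
    subst ha
    rw [GTriv_sE]
    exact GTriv_app h.topP
  · exact ⟨_, GTriv_sA.2 rfl, fun p hp => GTriv_app (by rwa [GTriv_sP] at hp)⟩
  · intro a ha
    rw [GTriv_sA] at ha
    subst ha
    refine ⟨_, GTriv_sA.2 rfl, fun p hp => ?_⟩
    rw [GTriv_sP] at hp
    rw [GTriv_app hp, GTriv_app hp]
    exact ⟨rfl, rfl⟩
  · intro a ha b hb
    rw [GTriv_sA] at ha hb
    subst ha
    subst hb
    refine ⟨_, GTriv_sA.2 rfl, fun p hp => ?_⟩
    rw [GTriv_sP] at hp
    rw [GTriv_app hp, GTriv_app hp]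
  · intro m hm a ha
    rw [GTriv_sH hm] at ha
    exact GTriv_sA.2 ha
  · intro m hm k hk a ha
    rw [GTriv_sH hm] at ha
    have hk' : k ∈ omega := GTriv_om m hm k hk
    exact (GTriv_sH hk').2 ha
  · intro m hm a ha
    rw [GTriv_sH hm] at ha
    subst ha
    refine ⟨_, (GTriv_sH hm).2 rfl, fun p hp => ?_⟩
    rw [GTriv_sP] at hp
    rw [GTriv_app hp, GTriv_app hp]
    exact ⟨rfl, rfl⟩
  · intro m hm a ha b hb
    rw [GTriv_sA] at ha
    rw [GTriv_sH hm] at hb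
    subst ha
    subst hb
    refine ⟨_, (GTriv_sH hm).2 rfl, fun p hp => ?_⟩
    rfl

theorem sO_triv (O e : ZFSet.{0}) : sO (triv O e) = O := GTriv_sO O e

theorem sP_triv (O e : ZFSet.{0}) : sP (triv O e) = dom O := GTriv_sP O e

private theorem GTriv_supp {O e σ : ZFSet.{0}} (hn : IsName (triv O e) σ) :
    Supp (triv O e) ∅ σ := by
  refine ⟨omega_zero, fun a ha => ?_⟩
  rw [GTriv_sH omega_zero] at ha
  subst ha
  refine actN_one hn fun p hp => ?_
  rw [GTriv_sP] at hp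
  exact GTriv_app hp

private theorem GTriv_HS {O e : ZFSet.{0}} (σ : ZFSet.{0}) (hn : IsName (triv O e) σ) :
    HS (triv O e) σ := by
  have h1 := isName_iff.1 hn
  refine HS_iff.2 ⟨h1.1, ⟨∅, GTriv_supp hn⟩, fun π hπ => ?_⟩
  exact GTriv_HS π (h1.2 π hπ)
termination_by rank σ
decreasing_by exact rank_nd_lt hπ

theorem HS_triv {O e σ : ZFSet.{0}} (h : IsPo O e) : HS (triv O e) σ ↔ IsName (triv O e) σ :=
  ⟨fun h' => HS.isName h', fun h' => GTriv_HS σ h'⟩

private theorem GTriv_mem {M : Set ZFSet.{0}} {O e : ZFSet.{0}} (hM : TM M) (h : IsPo O e)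
    (hO : O ∈ M) : triv O e ∈ M ∧ fgr (fun p => p) (dom O) ∈ M := by
  have hd : dom O ∈ M :=
    (inferInstance : UF (fun _ v => dom (v 0))).mem M hM (fun _ => O) (fun _ => hO)
  have he : e ∈ M := hM.tr _ hd e h.topP
  have h1 := (inferInstance : UF (fun _ v => triv (v 0) (v 1))).mem M hM
    (fun n => if n = 0 then O else e) (fun n => by split_ifs <;> assumption)
  have h2 := (inferInstance : UF (fun _ v => fgr (fun p => p) (dom (v 0)))).mem M hM
    (fun _ => O) (fun _ => hO)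
  exact ⟨by simpa using h1, h2⟩

theorem ev_mem_triv {M G : Set ZFSet.{0}} {O e b X : ZFSet.{0}} (hM : TM M) (h : IsPo O e)
    (hO : O ∈ M) (hG : Gen M (triv O e) G) (hb : b ∈ M) (hbX : b ⊆ ZFSet.prod (dom O) X) :
    ev G b ∈ NN M (triv O e) G := by
  refine ev_mem (m := ∅) (X := X) hM (Sys_triv h) (GTriv_mem hM h hO).1 hG omega_zero hb
    (by rw [GTriv_sP]; exact hbX) ?_
  intro a ha p x hx
  rw [GTriv_sH omega_zero] at ha
  subst ha
  obtain ⟨q, hq, y, -, e1⟩ := ZFSet.mem_prod.1 (hbX hx)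
  obtain ⟨rfl, rfl⟩ := pair_injective e1
  rw [GTriv_app hq]
  exact hx

theorem gen_mem {M G : Set ZFSet.{0}} {O e : ZFSet.{0}} (hM : TM M) (h : IsPo O e)
    (hO : O ∈ M) (hG : Gen M (triv O e) G) :
    ∃ g ∈ NN M (triv O e) G, ∀ p, p ∈ g ↔ p ∈ G := by
  refine ⟨ev G (fgr (fun p => p) (dom O)),
    ev_mem_triv (X := dom O) hM h hO hG (GTriv_mem hM h hO).2 ?_, fun p => ?_⟩
  · intro z hz
    obtain ⟨y, hy, rfl⟩ := mem_fgr.1 hz
    exact ZFSet.mem_prod.2 ⟨y, hy, y, hy, rfl⟩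
  · rw [mem_ev]
    constructor
    · rintro ⟨q, hq, hqp⟩
      rw [(pair_mem_fgr.1 hqp).2]
      exact hq
    · intro hp
      have h1 := hG.sub p hp
      rw [GTriv_sP] at h1
      exact ⟨p, hp, pair_mem_fgr.2 ⟨h1, rfl⟩⟩

end H83.PN
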