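import Pool.Agent.H83.PN.PVa
import Pool.Agent.H83.PN.DefsU

set_option autoImplicit false

/-!
# Module PVb: the posets

`QQ v q` implies `q ∈ prod (Cn (vS v)) (Fs (prod (vS v) (vL v)))`, so `mem_QP`. The domain of `QO u v` is `QP v`
by reflexivity. `IsPo_OU`: transitivity `VLe_trans`, `QLe_trans`; the weakest condition: `QLe_empty`; `eC ∈ H`,
`∅ ∈ dom U = rk H`. `QLe_res`: the value `app (res U γ) β = app U β` for `β ∈ γ`. `mk_PU`: if `v ∈ H` and `QQ v q` then `q` is a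
pair of finite sets of elements of `H`, so `q ∈ H` (`H_ctb`, `Ctb_fin`).
-/

namespace H83.PN

open ZFSet H83.AC

variable {M : Set ZFSet.{0}} {K H : ZFSet.{0}}

theorem mem_QP {v q : ZFSet.{0}} : q ∈ QP v ↔ QQ v q := by
  unfold QP
  rw [mem_sep]
  constructor
  · exact fun h => h.2
  · intro h
    refine ⟨?_, h⟩
    obtain ⟨h1, h2, h3⟩ := h
    rw [h1]
    exact pair_mem_prod.2 ⟨h2, h3⟩

theorem mem_QO {u v q q' : ZFSet.{0}} : pair q' q ∈ QO u v ↔ QQ v q' ∧ QQ v q ∧ QLe u v q' q := by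
  unfold QO
  rw [mem_sep, pair_mem_prod, mem_QP, mem_QP, fst_pair, snd_pair, and_assoc]

theorem dom_QO (u v : ZFSet.{0}) : dom (QO u v) = QP v := by
  ext q
  rw [mem_dom, mem_QP]
  constructor
  · rintro ⟨y, hy⟩
    exact (mem_QO.1 hy).1
  · intro h
    exact ⟨q, mem_QO.2 ⟨h, h, QLe_refl u v q⟩⟩

theorem IsPo_QO (u v : ZFSet.{0}) : IsPo (QO u v) eQ := by
  refine ⟨?_, ?_, ?_, ?_, ?_⟩
  · intro t ht
    have h1 := ht
    unfold QO at h1
    rw [mem_sep] at h1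
    obtain ⟨a, ha, b, hb, rfl⟩ := ZFSet.mem_prod.1 h1.1
    rw [dom_QO]
    exact ⟨a, ha, b, hb, rfl⟩
  · intro q hq
    rw [dom_QO, mem_QP] at hq
    exact mem_QO.2 ⟨hq, hq, QLe_refl u v q⟩
  · intro a b c h1 h2
    obtain ⟨ha, hb, h3⟩ := mem_QO.1 h1
    obtain ⟨-, hc, h4⟩ := mem_QO.1 h2
    exact mem_QO.2 ⟨ha, hc, QLe_trans (VLe_refl v) hc h3 h4⟩
  · rw [dom_QO, mem_QP]
    exact QQ_empty v
  · intro q hq
    rw [dom_QO, mem_QP] at hq
    exact mem_QO.2 ⟨hq, QQ_empty v, QLe_empty u v q hq⟩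

theorem sP_Sq (u v : ZFSet.{0}) : sP (Sq u v) = QP v := by
  unfold Sq
  rw [sP_triv, dom_QO]

theorem Le_Sq {u v q q' : ZFSet.{0}} : Le (Sq u v) q' q ↔ QQ v q' ∧ QQ v q ∧ QLe u v q' q := by
  unfold Le Sq
  rw [sO_triv, mem_QO]

theorem Sys_Sq (u v : ZFSet.{0}) : Sys (Sq u v) := Sys_triv (IsPo_QO u v)

theorem mem_PU {U H p : ZFSet.{0}} : p ∈ PU U H ↔ p ∈ H ∧ p = pair (fst p) (snd p) ∧
    VV (fst p) ∧ vL (fst p) ∈ dom U ∧ QQ (fst p) (snd p) := by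
  unfold PU
  rw [mem_sep]

theorem mem_OU {U H p p' : ZFSet.{0}} : pair p' p ∈ OU U H ↔ p' ∈ PU U H ∧ p ∈ PU U H ∧
    VLe (fst p') (fst p) ∧ QLe U (fst p) (snd p') (snd p) := by
  unfold OU
  rw [mem_sep, pair_mem_prod, fst_pair, snd_pair, and_assoc]

theorem dom_OU (U H : ZFSet.{0}) : dom (OU U H) = PU U H := by
  ext p
  rw [mem_dom]
  constructor
  · rintro ⟨y, hy⟩
    exact (mem_OU.1 hy).1
  · intro h
    exact ⟨p, mem_OU.2 ⟨h, h, VLe_refl _, QLe_refl _ _ _⟩⟩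

private theorem PVb_eC (hG : Gr M K H) {n : ℕ} {U : ZFSet.{0}} (hU : UOK M H n U) :
    eC ∈ PU U H := by
  have h0 : (∅ : ZFSet.{0}) ∈ H := by
    exact (HF_sub_H hG).1 HF_empty
  rw [mem_PU]
  refine ⟨?_, ?_, ?_, ?_, ?_⟩
  · unfold eC
    exact H_pair hG (H_pair hG h0 (H_pair hG h0 h0)) (H_pair hG h0 h0)
  · unfold eC
    rw [fst_pair, snd_pair]
  · unfold eC
    rw [fst_pair]
    unfold VV vL vS vf
    rw [fst_pair, snd_pair, fst_pair, snd_pair]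
    refine ⟨rfl, ?_, ?_, ?_, ?_⟩
    · ext z
      rw [mem_rk]
      constructor
      · rintro ⟨β, hβ, rfl⟩
        rw [rank_empty] at hβ
        exact absurd hβ (not_lt_bot)
      · intro h
        exact absurd h (ZFSet.notMem_empty z)
    · intro c hc
      exact absurd hc (ZFSet.notMem_empty c)
    · ext z
      constructor
      · intro h
        exact absurd h (ZFSet.notMem_empty z)
      · intro h
        obtain ⟨y, hy, -⟩ := mem_fgr.1 h
        obtain ⟨a, ha, -⟩ := ZFSet.mem_prod.1 hy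
        exact absurd ha (ZFSet.notMem_empty a)
    · intro s hs
      obtain ⟨a, ha, -⟩ := ZFSet.mem_prod.1 hs
      exact absurd ha (ZFSet.notMem_empty a)
  · unfold eC
    rw [fst_pair]
    unfold vL
    rw [fst_pair, hU.dom, mem_rk]
    refine ⟨0, ?_, ?_⟩
    · exact lt_of_le_of_lt (bot_le) (rank_lt_of_mem h0)
    · exact Ordinal.toZFSet_zero.symm
  · unfold eC
    rw [fst_pair, snd_pair]
    exact QQ_empty _

theorem IsPo_OU (hG : Gr M K H) {n : ℕ} {U : ZFSet.{0}} (hU : UOK M H n U) :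
    IsPo (OU U H) eC := by
  refine ⟨?_, ?_, ?_, ?_, ?_⟩
  · intro t ht
    have h1 := ht
    unfold OU at h1
    rw [mem_sep] at h1
    obtain ⟨a, ha, b, hb, rfl⟩ := ZFSet.mem_prod.1 h1.1
    rw [dom_OU]
    exact ⟨a, ha, b, hb, rfl⟩
  · intro p hp
    rw [dom_OU] at hp
    exact mem_OU.2 ⟨hp, hp, VLe_refl _, QLe_refl _ _ _⟩
  · intro a b c h1 h2
    obtain ⟨ha, hb, h3, h4⟩ := mem_OU.1 h1
    obtain ⟨-, hc, h5, h6⟩ := mem_OU.1 h2
    exact mem_OU.2 ⟨ha, hc, VLe_trans h3 h5, QLe_trans h5 (mem_PU.1 hc).2.2.2.2 h4 h6⟩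
  · rw [dom_OU]
    exact PVb_eC hG hU
  · intro p hp
    rw [dom_OU] at hp
    refine mem_OU.2 ⟨hp, PVb_eC hG hU, ?_, ?_⟩
    · unfold eC
      rw [fst_pair]
      unfold VLe vL vS vf
      rw [fst_pair, snd_pair, fst_pair, snd_pair]
      refine ⟨?_, ?_, ?_, ?_, ?_⟩
      · intro z hz
        exact absurd hz (ZFSet.notMem_empty z)
      · intro z hz
        exact absurd hz (ZFSet.notMem_empty z)
      · intro s hs
        obtain ⟨a, ha, -⟩ := ZFSet.mem_prod.1 hs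
        exact absurd ha (ZFSet.notMem_empty a)
      · intro c hc
        exact absurd hc (ZFSet.notMem_empty c)
      · intro c hc
        exact absurd hc (ZFSet.notMem_empty c)
    · unfold eC
      rw [snd_pair]
      unfold QLe
      rw [fst_pair, snd_pair]
      refine ⟨?_, ?_, ?_⟩
      · intro z hz
        exact absurd hz (ZFSet.notMem_empty z)
      · intro z hz
        exact absurd hz (ZFSet.notMem_empty z)
      · intro t _ _ s hs
        exact absurd hs (ZFSet.notMem_empty s)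

private theorem PVb_fin (hG : Gr M K H) {s : ZFSet.{0}} (hs : ∀ x ∈ s, x ∈ H) (h : Fnt s) :
    s ∈ H := by
  have h1 : ∀ x ∈ s, x ∈ M := fun x hx => H_sub_M hG (hs x hx)
  exact H_ctb hG (fin_mem hG.tm h1 h) (Ctb_fin hG.tm h1 h) hs

private theorem PVb_q (hG : Gr M K H) {v q : ZFSet.{0}} (hvH : v ∈ H) (hq : QQ v q) : q ∈ H := by
  have hS : vS v ∈ H := H_uf1 hG (F := fun v => vS v) (by infer_instance) hvH
  have hL : vL v ∈ H := H_uf1 hG (F := fun v => vL v) (by infer_instance) hvH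
  have hom : omega ∈ H := (HF_sub_H hG).2.2
  obtain ⟨h1, h2, h3⟩ := hq
  rw [h1]
  refine H_pair hG ?_ ?_
  · refine PVb_fin hG ?_ (mem_Cn.1 h2).2.1
    intro t ht
    obtain ⟨h4, h5, h6, h7⟩ := Cn_elt h2 ht
    rw [h4]
    exact H_pair hG (H_pair hG (H_tr hG hS h5) (H_tr hG hom h6)) (H_tr hG hom h7)
  · obtain ⟨h4, h5⟩ := mem_Fs.1 h3
    refine PVb_fin hG ?_ h5
    intro t ht
    obtain ⟨a, ha, b, hb, rfl⟩ := ZFSet.mem_prod.1 (h4 ht)
    exact H_pair hG (H_tr hG hS ha) (H_tr hG hL hb)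

theorem mk_PU (hG : Gr M K H) {U v q : ZFSet.{0}} (hv : VV v) (hvH : v ∈ H)
    (hL : vL v ∈ dom U) (hq : QQ v q) : pair v q ∈ PU U H := by
  rw [mem_PU, fst_pair, snd_pair]
  exact ⟨H_pair hG hvH (PVb_q hG hvH hq), rfl, hv, hL, hq⟩

private theorem PVb_app {U γ β : ZFSet.{0}} (hb : β ∈ γ) : app (res U γ) β = app U β := by
  have h1 : ∀ y : ZFSet.{0}, pair β y ∈ res U γ ↔ pair β y ∈ U := by
    intro y
    unfold res
    rw [mem_sep, fst_pair]
    exact ⟨fun h => h.1, fun h => ⟨h, hb⟩⟩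
  ext w
  simp only [app, mem_sUnion, mem_sep]
  constructor
  · rintro ⟨y, ⟨-, h3⟩, h4⟩
    have h5 := (h1 y).1 h3
    exact ⟨y, ⟨by simpa only [mem_sUnion] using snd_mem_ssU h5, h5⟩, h4⟩
  · rintro ⟨y, ⟨-, h3⟩, h4⟩
    have h5 := (h1 y).2 h3
    exact ⟨y, ⟨by simpa only [mem_sUnion] using snd_mem_ssU h5, h5⟩, h4⟩

private theorem PVb_rl {U v γ s : ZFSet.{0}} (hg : vL v ⊆ γ)
    (hs : s ∈ ZFSet.prod (vS v) (vL v)) : rl (res U γ) v s = rl U v s := by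
  obtain ⟨a, ha, b, hb, rfl⟩ := ZFSet.mem_prod.1 hs
  unfold rl uF
  rw [snd_pair, PVb_app (hg hb)]

theorem QLe_res {U v q q' γ : ZFSet.{0}} (hg : vL v ⊆ γ) (hq : QQ v q) :
    QLe (res U γ) v q' q ↔ QLe U v q' q := by
  have h1 : ∀ s ∈ snd q, rl (res U γ) v s = rl U v s := fun s hs =>
    PVb_rl hg ((mem_Fs.1 hq.2.2).1 hs)
  unfold QLe
  constructor
  · rintro ⟨h2, h3, h4⟩
    refine ⟨h2, h3, fun t ht ht' s hs he => ?_⟩
    rw [← h1 s hs]
    exact h4 t ht ht' s hs he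
  · rintro ⟨h2, h3, h4⟩
    refine ⟨h2, h3, fun t ht ht' s hs he => ?_⟩
    rw [h1 s hs]
    exact h4 t ht ht' s hs he

theorem QP_Ctb (hG : Gr M K H) {v : ZFSet.{0}} (hv : VV v) (hvH : v ∈ H) : QP v ∈ H := by
  have hS : vS v ∈ H := H_uf1 hG (F := fun v => vS v) (by infer_instance) hvH
  have hL : vL v ∈ H := H_uf1 hG (F := fun v => vL v) (by infer_instance) hvH
  exact H_uf1 hG (F := fun v => QP v) (by infer_instance) hvH

end H83.PN
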