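import Pool.Agent.H83.PN.PBa
import Pool.Agent.H83.PN.PVb

set_option autoImplicit false

/-!
# Module PBb: the action on conditions

`a` is a bijection of a set of coordinates. `acV_val`: the value of `acV a v` at `(apc a c, γ)` is the value of `v` at
`(c, γ)` (`apc_inj`). `acV_cmp`, `acQ_cmp`: pointwise. `acV_id`: if `apc a` is the identity on the coordinates.
`rl_ac`: `rl u (acV a v) (rn2 a s) = rl u v s`. `VLe_acV`: the label clause needs `ColP a`.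
-/

namespace H83.PN

open ZFSet H83.AC

variable {M : Set ZFSet.{0}} {K H : ZFSet.{0}}

private theorem PBb_rn3 (a c γ y : ZFSet.{0}) :
    rn3 a (pair (pair c γ) y) = pair (pair (apc a c) γ) y := by
  unfold H83.PN.rn3
  rw [fst_pair, snd_pair, fst_pair, snd_pair]

private theorem PBb_rn2 (a c γ : ZFSet.{0}) : rn2 a (pair c γ) = pair (apc a c) γ := by
  unfold H83.PN.rn2
  rw [fst_pair, snd_pair]

private theorem PBb_L (a v : ZFSet.{0}) : vL (acV a v) = vL v := by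
  unfold H83.PN.vL H83.PN.acV
  rw [fst_pair]
  rfl

private theorem PBb_S (a v : ZFSet.{0}) : vS (acV a v) = img (fun c => apc a c) (vS v) := by
  unfold H83.PN.acV
  rw [H83.PN.vS, snd_pair, fst_pair]

private theorem PBb_f (a v : ZFSet.{0}) : vf (acV a v) = img (fun t => rn3 a t) (vf v) := by
  unfold H83.PN.acV
  rw [H83.PN.vf, snd_pair, snd_pair]

private theorem PBb_mem {v t : ZFSet.{0}} (hv : VV v) : t ∈ vf v ↔
    ∃ c ∈ vS v, ∃ γ ∈ vL v, t = pair (pair c γ) (app (vf v) (pair c γ)) := by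
  obtain ⟨_, _, _, h, _⟩ := hv
  constructor
  · intro ht
    rw [h] at ht
    obtain ⟨s, hs, e⟩ := mem_fgr.1 ht
    obtain ⟨c, hc, γ, hγ, rfl⟩ := mem_prod.1 hs
    exact ⟨c, hc, γ, hγ, e.symm⟩
  · rintro ⟨c, hc, γ, hγ, rfl⟩
    rw [h]
    refine mem_fgr.2 ⟨pair c γ, pair_mem_prod.2 ⟨hc, hγ⟩, ?_⟩
    rw [← h]

private theorem PBb_memf {a v t : ZFSet.{0}} (hv : VV v) : t ∈ vf (acV a v) ↔
    ∃ c ∈ vS v, ∃ γ ∈ vL v, t = pair (pair (apc a c) γ) (app (vf v) (pair c γ)) := by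
  rw [PBb_f, mem_img]
  constructor
  · rintro ⟨s, hs, rfl⟩
    obtain ⟨c, hc, γ, hγ, rfl⟩ := (PBb_mem hv).1 hs
    exact ⟨c, hc, γ, hγ, PBb_rn3 _ _ _ _⟩
  · rintro ⟨c, hc, γ, hγ, rfl⟩
    exact ⟨_, (PBb_mem hv).2 ⟨c, hc, γ, hγ, rfl⟩, PBb_rn3 _ _ _ _⟩

private theorem PBb_app {a v c γ : ZFSet.{0}} (ha : Bij a) (hv : VV v) (hc : c ∈ vS v)
    (hγ : γ ∈ vL v) : app (vf (acV a v)) (pair (apc a c) γ) = app (vf v) (pair c γ) := by
  refine app_eq ((PBb_memf hv).2 ⟨c, hc, γ, hγ, rfl⟩) fun z hz => ?_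
  obtain ⟨c', hc', γ', hγ', e⟩ := (PBb_memf hv).1 hz
  obtain ⟨e1, e2⟩ := pair_inj.1 e
  obtain ⟨e3, e4⟩ := pair_inj.1 e1
  have e5 := apc_inj ha e3
  subst e5
  subst e4
  exact e2

private theorem PBb_img_img (F G : ZFSet.{0} → ZFSet.{0}) (s : ZFSet.{0}) :
    img F (img G s) = img (fun x => F (G x)) s := by
  ext z
  simp only [mem_img]
  constructor
  · rintro ⟨y, ⟨x, hx, rfl⟩, rfl⟩
    exact ⟨x, hx, rfl⟩
  · rintro ⟨x, hx, rfl⟩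
    exact ⟨_, ⟨x, hx, rfl⟩, rfl⟩

private theorem PBb_img_id {F : ZFSet.{0} → ZFSet.{0}} {s : ZFSet.{0}} (h : ∀ x ∈ s, F x = x) :
    img F s = s := by
  ext z
  rw [mem_img]
  constructor
  · rintro ⟨x, hx, e⟩
    rw [h x hx] at e
    rwa [← e]
  · intro hz
    exact ⟨z, hz, h z hz⟩

private theorem PBb_twoV {a b v : ZFSet.{0}} (hv : VV v)
    (h : ∀ c ∈ vS v, apc a (apc b c) = c) : acV a (acV b v) = v := by
  have e : acV a (acV b v) = pair (vL v) (pair (vS v) (vf v)) := by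
    rw [H83.PN.acV, PBb_L, PBb_S, PBb_f, PBb_img_img, PBb_img_img, PBb_img_id h]
    congr 2
    refine PBb_img_id fun t ht => ?_
    obtain ⟨c, hc, γ, hγ, rfl⟩ := (PBb_mem hv).1 ht
    rw [PBb_rn3, PBb_rn3, h c hc]
  rw [e]
  exact hv.1.symm

private theorem PBb_QQ1 {v q t : ZFSet.{0}} (hq : QQ v q) (ht : t ∈ fst q) :
    ∃ c ∈ vS v, ∃ i ∈ omega, ∃ j ∈ omega, t = pair (pair c i) j := by
  obtain ⟨e, h1, h2, h3⟩ := Cn_elt hq.2.1 ht
  exact ⟨_, h1, _, h2, _, h3, e⟩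

private theorem PBb_QQ2 {v q s : ZFSet.{0}} (hq : QQ v q) (hs : s ∈ snd q) :
    ∃ c ∈ vS v, ∃ γ ∈ vL v, s = pair c γ := by
  have h := (mem_Fs.1 hq.2.2).1 hs
  exact mem_prod.1 h

private theorem PBb_twoQ {a b v q : ZFSet.{0}} (hq : QQ v q)
    (h : ∀ c, (∃ t ∈ fst q, fst (fst t) = c) ∨ (∃ s ∈ snd q, fst s = c) → apc a (apc b c) = c) :
    acQ a (acQ b q) = q := by
  have e : acQ a (acQ b q) = pair (fst q) (snd q) := by
    rw [H83.PN.acQ, H83.PN.acQ, fst_pair, snd_pair, PBb_img_img, PBb_img_img]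
    congr 1
    · refine PBb_img_id fun t ht => ?_
      obtain ⟨c, hc, i, hi, j, hj, rfl⟩ := PBb_QQ1 hq ht
      rw [PBb_rn3, PBb_rn3, h c (Or.inl ⟨_, ht, by rw [fst_pair, fst_pair]⟩)]
    · refine PBb_img_id fun s hs => ?_
      obtain ⟨c, hc, γ, hγ, rfl⟩ := PBb_QQ2 hq hs
      rw [PBb_rn2, PBb_rn2, h c (Or.inr ⟨_, hs, by rw [fst_pair]⟩)]
  rw [e]
  exact hq.1.symm

theorem VV_acV {a v : ZFSet.{0}} (ha : Bij a) (hv : VV v) : VV (acV a v) ∧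
    vL (acV a v) = vL v ∧ (∀ c, c ∈ vS (acV a v) ↔ ∃ d ∈ vS v, c = apc a d) ∧
    ∀ c ∈ vS v, ∀ γ ∈ vL v, app (vf (acV a v)) (pair (apc a c) γ) = app (vf v) (pair c γ) := by
  refine ⟨⟨?_, ?_, ?_, ?_, ?_⟩, PBb_L a v, ?_, fun c hc γ hγ => PBb_app ha hv hc hγ⟩
  · rw [PBb_L, PBb_S, PBb_f]
    rfl
  · rw [PBb_L]
    exact hv.2.1
  · intro c hc
    rw [PBb_S] at hc
    obtain ⟨d, hd, rfl⟩ := mem_img.1 hc
    exact (apc_Co ha).2 (hv.2.2.1 d hd)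
  · ext t
    rw [mem_fgr, PBb_memf hv, PBb_L, PBb_S]
    constructor
    · rintro ⟨c, hc, γ, hγ, rfl⟩
      refine ⟨pair (apc a c) γ, pair_mem_prod.2 ⟨mem_img.2 ⟨c, hc, rfl⟩, hγ⟩, ?_⟩
      rw [PBb_app ha hv hc hγ]
    · rintro ⟨s, hs, rfl⟩
      obtain ⟨d, hd, γ, hγ, rfl⟩ := mem_prod.1 hs
      obtain ⟨c, hc, rfl⟩ := mem_img.1 hd
      refine ⟨c, hc, γ, hγ, ?_⟩
      rw [PBb_app ha hv hc hγ]
  · intro s hs
    rw [PBb_L, PBb_S] at hs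
    obtain ⟨d, hd, γ, hγ, rfl⟩ := mem_prod.1 hs
    obtain ⟨c, hc, rfl⟩ := mem_img.1 hd
    rw [PBb_app ha hv hc hγ]
    exact hv.2.2.2.2 _ (pair_mem_prod.2 ⟨hc, hγ⟩)
  · intro c
    rw [PBb_S, mem_img]
    constructor
    · rintro ⟨d, hd, e⟩
      exact ⟨d, hd, e.symm⟩
    · rintro ⟨d, hd, e⟩
      exact ⟨d, hd, e.symm⟩

theorem acV_cmp {a b v : ZFSet.{0}} (ha : Bij a) (hb : Bij b) (hv : VV v) :
    acV a (acV b v) = acV (cmp a b) v := by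
  have h := (Bij_cmp ha hb).2.2
  rw [H83.PN.acV, PBb_L, PBb_S, PBb_f, PBb_img_img, PBb_img_img, H83.PN.acV]
  congr 2
  · exact img_congr fun c _ => (h c).symm
  · refine img_congr fun t ht => ?_
    obtain ⟨c, hc, γ, hγ, rfl⟩ := (PBb_mem hv).1 ht
    rw [PBb_rn3, PBb_rn3, PBb_rn3, h c]

theorem acV_cnv {a v : ZFSet.{0}} (ha : Bij a) (hv : VV v) :
    acV (cnv a) (acV a v) = v ∧ acV a (acV (cnv a) v) = v := by
  obtain ⟨_, _, h1, h2⟩ := Bij_cnv ha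
  exact ⟨PBb_twoV hv fun c _ => h1 c, PBb_twoV hv fun c _ => h2 c⟩

theorem acV_id {a v : ZFSet.{0}} (hv : VV v) (h : ∀ c ∈ vS v, apc a c = c) : acV a v = v := by
  have e : acV a v = pair (vL v) (pair (vS v) (vf v)) := by
    rw [H83.PN.acV, PBb_img_id h]
    congr 2
    refine PBb_img_id fun t ht => ?_
    obtain ⟨c, hc, γ, hγ, rfl⟩ := (PBb_mem hv).1 ht
    rw [PBb_rn3, h c hc]
  rw [e]
  exact hv.1.symm

theorem VLe_acV {a v v' : ZFSet.{0}} (ha : Bij a) (hc : ColP a) (hv : VV v) (hv' : VV v')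
    (h : VLe v' v) : VLe (acV a v') (acV a v) := by
  obtain ⟨h1, h2, h3, h4, h5⟩ := h
  refine ⟨?_, ?_, ?_, ?_, ?_⟩
  · rw [PBb_L, PBb_L]
    exact h1
  · rw [PBb_S, PBb_S]
    intro c hc'
    obtain ⟨d, hd, e⟩ := mem_img.1 hc'
    exact mem_img.2 ⟨d, h2 hd, e⟩
  · intro s hs
    rw [PBb_L, PBb_S] at hs
    obtain ⟨d, hd, γ, hγ, rfl⟩ := mem_prod.1 hs
    obtain ⟨c, hc', rfl⟩ := mem_img.1 hd
    rw [PBb_app ha hv' (h2 hc') (h1 hγ), PBb_app ha hv hc' hγ]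
    exact h3 _ (pair_mem_prod.2 ⟨hc', hγ⟩)
  · intro c hc' γ hγ hn
    rw [PBb_L] at hγ hn
    rw [PBb_S] at hc'
    obtain ⟨d, hd, rfl⟩ := mem_img.1 hc'
    rw [PBb_app ha hv' (h2 hd) hγ, ColP_apc hc]
    exact h4 d hd γ hγ hn
  · intro c hc' c' hc'' hne γ hγ hn
    rw [PBb_L] at hγ hn
    rw [PBb_S] at hc' hc''
    obtain ⟨d, hd, rfl⟩ := mem_img.1 hc'
    obtain ⟨d', hd', rfl⟩ := mem_img.1 hc''
    rw [PBb_app ha hv' (h2 hd) hγ, PBb_app ha hv' (h2 hd') hγ]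
    exact h5 d hd d' hd' (fun e => hne (by rw [e])) γ hγ hn

theorem QQ_acQ {a v q : ZFSet.{0}} (ha : Bij a) (hv : VV v) (hq : QQ v q) :
    QQ (acV a v) (acQ a q) := by
  refine ⟨?_, ?_, ?_⟩
  · unfold H83.PN.acQ
    rw [fst_pair, snd_pair]
  · rw [PBb_S]
    unfold H83.PN.acQ
    rw [fst_pair]
    refine mem_Cn.2 ⟨fun t ht => ?_, Fnt_img (mem_Cn.1 hq.2.1).2.1, fun t ht => ?_,
      fun t ht t' ht' e => ?_⟩
    · obtain ⟨s, hs, rfl⟩ := mem_img.1 ht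
      obtain ⟨c, hc, i, hi, j, hj, rfl⟩ := PBb_QQ1 hq hs
      rw [PBb_rn3]
      exact pair_mem_prod.2 ⟨pair_mem_prod.2 ⟨mem_img.2 ⟨c, hc, rfl⟩, hi⟩, hj⟩
    · obtain ⟨s, hs, rfl⟩ := mem_img.1 ht
      obtain ⟨c, hc, i, hi, j, hj, rfl⟩ := PBb_QQ1 hq hs
      rw [PBb_rn3, fst_pair, snd_pair]
    · obtain ⟨s, hs, rfl⟩ := mem_img.1 ht
      obtain ⟨s', hs', rfl⟩ := mem_img.1 ht'
      have hf := (mem_Cn.1 hq.2.1).2.2.2 s hs s' hs'
      obtain ⟨c, hc, i, hi, j, hj, rfl⟩ := PBb_QQ1 hq hs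
      obtain ⟨c', hc', i', hi', j', hj', rfl⟩ := PBb_QQ1 hq hs'
      rw [PBb_rn3, PBb_rn3, fst_pair, fst_pair] at e
      obtain ⟨e1, e2⟩ := pair_inj.1 e
      have e3 := apc_inj ha e1
      rw [fst_pair, fst_pair] at hf
      rw [hf (by rw [e3, e2])]
  · rw [PBb_S, PBb_L]
    unfold H83.PN.acQ
    rw [snd_pair]
    refine mem_Fs.2 ⟨fun s hs => ?_, Fnt_img (mem_Fs.1 hq.2.2).2⟩
    obtain ⟨s', hs', rfl⟩ := mem_img.1 hs
    obtain ⟨c, hc, γ, hγ, rfl⟩ := PBb_QQ2 hq hs'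
    rw [PBb_rn2]
    exact pair_mem_prod.2 ⟨mem_img.2 ⟨c, hc, rfl⟩, hγ⟩

theorem acQ_cmp {a b v q : ZFSet.{0}} (ha : Bij a) (hb : Bij b) (hq : QQ v q) :
    acQ a (acQ b q) = acQ (cmp a b) q := by
  have h := (Bij_cmp ha hb).2.2
  rw [H83.PN.acQ, H83.PN.acQ, fst_pair, snd_pair, PBb_img_img, PBb_img_img, H83.PN.acQ]
  congr 1
  · refine img_congr fun t ht => ?_
    obtain ⟨c, hc, i, hi, j, hj, rfl⟩ := PBb_QQ1 hq ht
    rw [PBb_rn3, PBb_rn3, PBb_rn3, h c]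
  · refine img_congr fun s hs => ?_
    obtain ⟨c, hc, γ, hγ, rfl⟩ := PBb_QQ2 hq hs
    rw [PBb_rn2, PBb_rn2, PBb_rn2, h c]

theorem acQ_cnv {a v q : ZFSet.{0}} (ha : Bij a) (hq : QQ v q) :
    acQ (cnv a) (acQ a q) = q ∧ acQ a (acQ (cnv a) q) = q := by
  obtain ⟨_, _, h1, h2⟩ := Bij_cnv ha
  exact ⟨PBb_twoQ hq fun c _ => h1 c, PBb_twoQ hq fun c _ => h2 c⟩

theorem acQ_id {a v q : ZFSet.{0}} (hq : QQ v q) (h : ∀ c ∈ csup q, apc a c = c) :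
    acQ a q = q := by
  have e : acQ a q = pair (fst q) (snd q) := by
    rw [H83.PN.acQ]
    congr 1
    · refine PBb_img_id fun t ht => ?_
      have h1 := h (fst (fst t)) (mem_union.2 (Or.inl (mem_img.2 ⟨t, ht, rfl⟩)))
      obtain ⟨c, hc, i, hi, j, hj, rfl⟩ := PBb_QQ1 hq ht
      rw [fst_pair, fst_pair] at h1
      rw [PBb_rn3, h1]
    · refine PBb_img_id fun s hs => ?_
      have h1 := h (fst s) (mem_union.2 (Or.inr (mem_img.2 ⟨s, hs, rfl⟩)))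
      obtain ⟨c, hc, γ, hγ, rfl⟩ := PBb_QQ2 hq hs
      rw [fst_pair] at h1
      rw [PBb_rn2, h1]
  rw [e]
  exact hq.1.symm

theorem rl_ac {a u v s : ZFSet.{0}} (ha : Bij a) (hv : VV v)
    (hs : s ∈ ZFSet.prod (vS v) (vL v)) : rl u (acV a v) (rn2 a s) = rl u v s := by
  obtain ⟨c, hc, γ, hγ, rfl⟩ := mem_prod.1 hs
  rw [H83.PN.rl, H83.PN.rl, PBb_rn2, snd_pair, snd_pair, PBb_app ha hv hc hγ]

theorem QLe_acQ {a u v q q' : ZFSet.{0}} (ha : Bij a) (hv : VV v) (hq : QQ v q)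
    (h : QLe u v q' q) : QLe u (acV a v) (acQ a q') (acQ a q) := by
  obtain ⟨h1, h2, h3⟩ := h
  have e1 : fst (acQ a q) = img (fun t => rn3 a t) (fst q) := by
    unfold H83.PN.acQ
    rw [fst_pair]
  have e2 : snd (acQ a q) = img (fun s => rn2 a s) (snd q) := by
    unfold H83.PN.acQ
    rw [snd_pair]
  have e3 : fst (acQ a q') = img (fun t => rn3 a t) (fst q') := by
    unfold H83.PN.acQ
    rw [fst_pair]
  have e4 : snd (acQ a q') = img (fun s => rn2 a s) (snd q') := by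
    unfold H83.PN.acQ
    rw [snd_pair]
  refine ⟨?_, ?_, ?_⟩
  · rw [e1, e3]
    intro t ht
    obtain ⟨s, hs, e⟩ := mem_img.1 ht
    exact mem_img.2 ⟨s, h1 hs, e⟩
  · rw [e2, e4]
    intro t ht
    obtain ⟨s, hs, e⟩ := mem_img.1 ht
    exact mem_img.2 ⟨s, h2 hs, e⟩
  · intro t ht hn s hs e
    rw [e3] at ht
    rw [e1] at hn
    rw [e2] at hs
    obtain ⟨t0, ht0, rfl⟩ := mem_img.1 ht
    obtain ⟨s0, hs0, rfl⟩ := mem_img.1 hs
    have hn0 : t0 ∉ fst q := fun h0 => hn (mem_img.2 ⟨t0, h0, rfl⟩)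
    have hp : s0 ∈ ZFSet.prod (vS v) (vL v) := (mem_Fs.1 hq.2.2).1 hs0
    have e5 : fst (rn2 a s0) = apc a (fst s0) := by
      unfold H83.PN.rn2
      rw [fst_pair]
    have e6 : fst (rn3 a t0) = pair (apc a (fst (fst t0))) (snd (fst t0)) := by
      unfold H83.PN.rn3
      rw [fst_pair]
    have e7 : snd (rn3 a t0) = snd t0 := by
      unfold H83.PN.rn3
      rw [snd_pair]
    rw [e5, e6, fst_pair] at e
    rw [rl_ac ha hv hp, e6, e7, snd_pair]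
    exact h3 t0 ht0 hn0 s0 hs0 (apc_inj ha e)

theorem csup_acQ {a v q c : ZFSet.{0}} (ha : Bij a) (hq : QQ v q) :
    c ∈ csup (acQ a q) ↔ ∃ d ∈ csup q, c = apc a d := by
  unfold H83.PN.csup H83.PN.acQ
  rw [fst_pair, snd_pair, PBb_img_img, PBb_img_img]
  have e5 : ∀ s, fst (rn2 a s) = apc a (fst s) := by
    intro s
    unfold H83.PN.rn2
    rw [fst_pair]
  have e6 : ∀ t, fst (fst (rn3 a t)) = apc a (fst (fst t)) := by
    intro t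
    unfold H83.PN.rn3
    rw [fst_pair, fst_pair]
  constructor
  · intro hc
    rcases mem_union.1 hc with hc | hc
    · obtain ⟨t, ht, rfl⟩ := mem_img.1 hc
      exact ⟨fst (fst t), mem_union.2 (Or.inl (mem_img.2 ⟨t, ht, rfl⟩)), e6 t⟩
    · obtain ⟨s, hs, rfl⟩ := mem_img.1 hc
      exact ⟨fst s, mem_union.2 (Or.inr (mem_img.2 ⟨s, hs, rfl⟩)), e5 s⟩
  · rintro ⟨d, hd, rfl⟩
    rcases mem_union.1 hd with hd | hd
    · obtain ⟨t, ht, rfl⟩ := mem_img.1 hd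
      exact mem_union.2 (Or.inl (mem_img.2 ⟨t, ht, e6 t⟩))
    · obtain ⟨s, hs, rfl⟩ := mem_img.1 hd
      exact mem_union.2 (Or.inr (mem_img.2 ⟨s, hs, e5 s⟩))

private theorem PBb_pr (hG : Gr M K H) {x y : ZFSet.{0}} (h : pair x y ∈ H) : x ∈ H ∧ y ∈ H := by
  have h1 : ({x, y} : ZFSet.{0}) ∈ H := by
    refine H_tr hG h ?_
    rw [pair, ZFSet.mem_pair]
    exact Or.inr rfl
  exact ⟨H_tr hG h1 (ZFSet.mem_pair.2 (Or.inl rfl)), H_tr hG h1 (ZFSet.mem_pair.2 (Or.inr rfl))⟩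

private theorem PBb_apH (hG : Gr M K H) {a c : ZFSet.{0}} (ha : Bij a) (haH : a ∈ H)
    (hc : c ∈ H) : apc a c ∈ H := by
  unfold H83.PN.apc
  split_ifs with h
  · obtain ⟨y, hy⟩ := mem_dom.1 (ha.2.2.1 c h)
    exact (PBb_pr hG (H_tr hG haH hy)).1
  · exact hc

private theorem PBb_acV_H (hG : Gr M K H) {a v : ZFSet.{0}} (ha : Bij a) (haH : a ∈ H)
    (hv : VV v) (hvH : v ∈ H) : acV a v ∈ H := by
  have h0 := hvH
  rw [hv.1] at h0
  obtain ⟨hL, h1⟩ := PBb_pr hG h0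
  obtain ⟨hS, hf⟩ := PBb_pr hG h1
  have haM := H_sub_M hG haH
  unfold H83.PN.acV
  refine H_pair hG hL (H_pair hG ?_ ?_)
  · have hU : UF (fun N (w : ℕ → ZFSet.{0}) => H83.PN.apc (w 1) (w 0)) := inferInstance
    have hI : UF (fun N (w : ℕ → ZFSet.{0}) => H83.AC.img (fun c => H83.PN.apc (w 0) c) (w 1)) :=
      inferInstance
    refine H_ctb hG (hI.mem M hG.tm (fun i => if i = 0 then a else vS v) fun i => ?_) ?_ ?_
    · split_ifs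
      · exact haM
      · exact H_sub_M hG hS
    · exact Ctb_img hG.tm (F := fun _ x w => H83.PN.apc (w 0) x) hU (v := fun _ => a)
        (fun _ => haM) (fun y hy => H_sub_M hG (H_tr hG hS hy)) (H_ct hG hS)
    · intro y hy
      obtain ⟨c, hc, rfl⟩ := mem_img.1 hy
      exact PBb_apH hG ha haH (H_tr hG hS hc)
  · have hU : UF (fun N (w : ℕ → ZFSet.{0}) => H83.PN.rn3 (w 1) (w 0)) := inferInstance
    have hI : UF (fun N (w : ℕ → ZFSet.{0}) => H83.AC.img (fun c => H83.PN.rn3 (w 0) c) (w 1)) :=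
      inferInstance
    refine H_ctb hG (hI.mem M hG.tm (fun i => if i = 0 then a else vf v) fun i => ?_) ?_ ?_
    · split_ifs
      · exact haM
      · exact H_sub_M hG hf
    · exact Ctb_img hG.tm (F := fun _ x w => H83.PN.rn3 (w 0) x) hU (v := fun _ => a)
        (fun _ => haM) (fun y hy => H_sub_M hG (H_tr hG hf hy)) (H_ct hG hf)
    · intro y hy
      obtain ⟨t, ht, rfl⟩ := mem_img.1 hy
      have htH := H_tr hG hf ht
      obtain ⟨c, hc, γ, hγ, rfl⟩ := (PBb_mem hv).1 ht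
      obtain ⟨h2, h3⟩ := PBb_pr hG htH
      obtain ⟨h4, h5⟩ := PBb_pr hG h2
      rw [PBb_rn3]
      exact H_pair hG (H_pair hG (PBb_apH hG ha haH h4) h5) h3

theorem acP_PU (hG : Gr M K H) {n : ℕ} {U a p : ZFSet.{0}} (hU : UOK M H n U) (haH : a ∈ H)
    (ha : Bij a) (hp : p ∈ PU U H) : acP a p ∈ PU U H := by
  obtain ⟨h1, h2, h3, h4, h5⟩ := mem_PU.1 hp
  have h6 : fst p ∈ H := by
    rw [h2] at h1
    exact (PBb_pr hG h1).1
  exact mk_PU hG (VV_acV ha h3).1 (PBb_acV_H hG ha haH h3 h6)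
    (by rw [PBb_L]; exact h4) (QQ_acQ ha h3 h5)

end H83.PN
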