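import Pool.Agent.H83.PN.TRc
import Pool.Agent.H83.PN.PBb

set_option autoImplicit false

/-!
# Module IVa: changing the blocks along an involution: isomorphisms

`IE H ε ρ r s W`: `ε` is an involution of some coordinates of `r`, `s` has the same models, length and coordinates, the blocks of `s` are those of `r`
composed with the involutions `ρ γ`, and the real number of `s` at `(ε c, γ)` is the real number of `r` at `(c, γ)`. So `acQ ε` is an isomorphism of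
`P(rU r, rV r)` onto `P(rU s, rV s)`: `rl (rU s) (rV s) (rn2 ε t) = rl (rU r) (rV r) t`. `IE.symm`: replace `c` by `ε c`.
`IE_F1`: `F1_iff`; for `g` generic for `s` the set `{q : acQ ε q ∈ g}` is generic for `r` over `W` (`ε ∈ W`), and `ev {q : acQ ε q ∈ g} T = ev g (acE ε T)`.
-/

namespace H83.PN

open ZFSet H83.AC

variable {M : Set ZFSet.{0}} {K H : ZFSet.{0}}

/-- see above -/
structure IE (H ε ρ r s W : ZFSet.{0}) : Prop where
  gr : Gd H r W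
  gs : Gd H s W
  bij : Bij ε
  eW : ε ∈ W
  inv : ∀ c, apc ε (apc ε c) = c
  col : ∃ m ∈ omega, ∀ c ∈ dom ε, fst c ∈ m
  dm : ∀ c ∈ dom ε, c ∈ vS (rV r)
  wsE : ws (rU s) = ws (rU r)
  dE : dom (rU s) = dom (rU r)
  sE : vS (rV s) = vS (rV r)
  rW : ρ ∈ W
  rI : ∀ γ ∈ dom (rU r), ∀ a ∈ Idx, app (app ρ γ) a ∈ Idx ∧ app (app ρ γ) (app (app ρ γ) a) = a ∧
    app (uF (rU s) γ) a = app (uF (rU r) γ) (app (app ρ γ) a)
  vl : ∀ γ ∈ dom (rU r), ∀ c ∈ vS (rV r),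
    app (uF (rU s) γ) (app (vf (rV s)) (pair (apc ε c) γ)) =
      app (uF (rU r) γ) (app (vf (rV r)) (pair c γ))
  qE : rQ s = acQ ε (rQ r)

private theorem IVa_TM {ε ρ r s W : ZFSet.{0}} (h : IE H ε ρ r s W) : TM (cls W) :=
  h.gr.2.2.2.2.2.2.2.1.1.1

private theorem IVa_V {ε ρ r s W : ZFSet.{0}} (h : IE H ε ρ r s W) : VV (rV r) :=
  h.gr.2.2.2.2.1

private theorem IVa_vL {ε ρ r s W : ZFSet.{0}} (h : IE H ε ρ r s W) : vL (rV s) = vL (rV r) := by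
  have h1 := h.gr.2.2.2.2.2.1
  have h2 := h.gs.2.2.2.2.2.1
  rw [← h2, h.dE, h1]

private theorem IVa_QQ {ε ρ r s W q : ZFSet.{0}} (h : IE H ε ρ r s W) :
    QQ (rV s) q ↔ QQ (rV r) q := by
  unfold H83.PN.QQ
  rw [h.sE, IVa_vL h]

private theorem IVa_inv {ε v q : ZFSet.{0}} (hb : Bij ε) (hi : ∀ c, apc ε (apc ε c) = c)
    (hq : QQ v q) : acQ ε (acQ ε q) = q := by
  rw [acQ_cmp hb hb hq]
  exact acQ_id hq (fun c _ => by rw [(Bij_cmp hb hb).2.2 c, hi c])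

private theorem IVa_apc {ε ρ r s W c : ZFSet.{0}} (h : IE H ε ρ r s W) (hc : c ∈ vS (rV r)) :
    apc ε c ∈ vS (rV r) := by
  unfold H83.PN.apc
  split_ifs with h1
  · exact h.dm _ (h.bij.2.2.1 c h1)
  · exact hc

theorem IE.symm {ε ρ r s W : ZFSet.{0}} (h : IE H ε ρ r s W) : IE H ε ρ s r W where
  gr := h.gs
  gs := h.gr
  bij := h.bij
  eW := h.eW
  inv := h.inv
  col := h.col
  dm := fun c hc => by
    rw [h.sE]
    exact h.dm c hc
  wsE := h.wsE.symm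
  dE := h.dE.symm
  sE := h.sE.symm
  rW := h.rW
  rI := fun γ hγ a ha => by
    rw [h.dE] at hγ
    obtain ⟨h1, h2, h3⟩ := h.rI γ hγ a ha
    obtain ⟨h4, h5, h6⟩ := h.rI γ hγ (app (app ρ γ) a) h1
    refine ⟨h1, h2, ?_⟩
    rw [h6, h2]
  vl := fun γ hγ c hc => by
    rw [h.dE] at hγ
    rw [h.sE] at hc
    have h1 := h.vl γ hγ (apc ε c) (IVa_apc h hc)
    rw [h.inv c] at h1
    exact h1.symm
  qE := by
    rw [h.qE]
    exact (IVa_inv h.bij h.inv h.gr.2.2.2.2.2.2.1).symm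

private theorem IVa_acQ {ε ρ r s W q : ZFSet.{0}} (h : IE H ε ρ r s W) (hq : QQ (rV r) q) :
    QQ (rV r) (acQ ε q) := by
  have h1 := QQ_acQ h.bij (IVa_V h) hq
  obtain ⟨-, h2, h3, -⟩ := VV_acV h.bij (IVa_V h)
  have h4 : vS (acV ε (rV r)) = vS (rV r) := by
    ext c
    rw [h3 c]
    constructor
    · rintro ⟨d, hd, rfl⟩
      exact IVa_apc h hd
    · intro hc
      exact ⟨apc ε c, IVa_apc h hc, (h.inv c).symm⟩
  unfold H83.PN.QQ at h1 ⊢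
  rw [h4, h2] at h1
  exact h1

theorem IE_QP {ε ρ r s W : ZFSet.{0}} (h : IE H ε ρ r s W) : QP (rV s) = QP (rV r) ∧
    ∀ q ∈ QP (rV r), acQ ε q ∈ QP (rV r) ∧ acQ ε (acQ ε q) = q := by
  constructor
  · ext q
    rw [mem_QP, mem_QP, IVa_QQ h]
  · intro q hq
    rw [mem_QP] at hq
    rw [mem_QP]
    exact ⟨IVa_acQ h hq, IVa_inv h.bij h.inv hq⟩

private theorem IVa_fst (ε q : ZFSet.{0}) : fst (acQ ε q) = img (fun t => rn3 ε t) (fst q) := by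
  unfold H83.PN.acQ
  rw [fst_pair]

private theorem IVa_snd (ε q : ZFSet.{0}) : snd (acQ ε q) = img (fun t => rn2 ε t) (snd q) := by
  unfold H83.PN.acQ
  rw [snd_pair]

private theorem IVa_rl {ε ρ r s W c γ : ZFSet.{0}} (h : IE H ε ρ r s W) (hc : c ∈ vS (rV r))
    (hγ : γ ∈ vL (rV r)) : rl (rU s) (rV s) (rn2 ε (pair c γ)) = rl (rU r) (rV r) (pair c γ) := by
  have h1 : γ ∈ dom (rU r) := by
    rw [h.gr.2.2.2.2.2.1]
    exact hγ
  have h2 := h.vl γ h1 c hc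
  unfold H83.PN.rl H83.PN.rn2
  rw [fst_pair, snd_pair, snd_pair]
  exact h2

private theorem IVa_fwd {ε ρ r s W q q' : ZFSet.{0}} (h : IE H ε ρ r s W) (hq : QQ (rV r) q)
    (hl : QLe (rU r) (rV r) q' q) : QLe (rU s) (rV s) (acQ ε q') (acQ ε q) := by
  obtain ⟨h1, h2, h3⟩ := hl
  refine ⟨?_, ?_, ?_⟩
  · rw [IVa_fst, IVa_fst]
    intro t ht
    obtain ⟨t0, ht0, rfl⟩ := mem_img.1 ht
    exact mem_img.2 ⟨t0, h1 ht0, rfl⟩
  · rw [IVa_snd, IVa_snd]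
    intro t ht
    obtain ⟨t0, ht0, rfl⟩ := mem_img.1 ht
    exact mem_img.2 ⟨t0, h2 ht0, rfl⟩
  · rw [IVa_fst, IVa_fst, IVa_snd]
    intro t ht htn x hx hf
    obtain ⟨t0, ht0, rfl⟩ := mem_img.1 ht
    obtain ⟨x0, hx0, rfl⟩ := mem_img.1 hx
    have n0 : t0 ∉ fst q := fun hh => htn (mem_img.2 ⟨t0, hh, rfl⟩)
    have hf0 : fst x0 = fst (fst t0) := by
      unfold H83.PN.rn2 H83.PN.rn3 at hf
      rw [fst_pair, fst_pair, fst_pair] at hf
      exact apc_inj h.bij hf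
    have h4 := h3 t0 ht0 n0 x0 hx0 hf0
    obtain ⟨e1, e2, e3⟩ := (QQ_elt hq).2 x0 hx0
    have h5 := IVa_rl h e2 e3
    rw [← e1] at h5
    rw [h5]
    unfold H83.PN.rn3
    rw [fst_pair, snd_pair, snd_pair]
    exact h4

theorem IE_QLe {ε ρ r s W q q' : ZFSet.{0}} (h : IE H ε ρ r s W) (hq : QQ (rV r) q)
    (hq' : QQ (rV r) q') :
    QLe (rU s) (rV s) (acQ ε q') (acQ ε q) ↔ QLe (rU r) (rV r) q' q := by
  constructor
  · intro hl
    have h1 := IVa_fwd h.symm ((IVa_QQ h).2 (IVa_acQ h hq)) hl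
    rw [IVa_inv h.bij h.inv hq, IVa_inv h.bij h.inv hq'] at h1
    exact h1
  · exact IVa_fwd h hq

private theorem IVa_img_img (F G : ZFSet.{0} → ZFSet.{0}) (s : ZFSet.{0}) :
    img F (img G s) = img (fun x => F (G x)) s := by
  ext z
  simp only [mem_img]
  constructor
  · rintro ⟨y, ⟨x, hx, rfl⟩, rfl⟩
    exact ⟨x, hx, rfl⟩
  · rintro ⟨x, hx, rfl⟩
    exact ⟨_, ⟨x, hx, rfl⟩, rfl⟩

private theorem IVa_img_id {F : ZFSet.{0} → ZFSet.{0}} {s : ZFSet.{0}} (h : ∀ x ∈ s, F x = x) :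
    img F s = s := by
  ext z
  rw [mem_img]
  constructor
  · rintro ⟨x, hx, e⟩
    rw [h x hx] at e
    rwa [← e]
  · intro hz
    exact ⟨z, hz, h z hz⟩

private theorem IVa_img_union (F : ZFSet.{0} → ZFSet.{0}) (a b : ZFSet.{0}) :
    img F (a ∪ b) = img F a ∪ img F b := by
  ext z
  simp only [mem_img, mem_union]
  constructor
  · rintro ⟨x, hx | hx, e⟩
    · exact Or.inl ⟨x, hx, e⟩
    · exact Or.inr ⟨x, hx, e⟩
  · rintro (⟨x, hx, e⟩ | ⟨x, hx, e⟩)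
    · exact ⟨x, Or.inl hx, e⟩
    · exact ⟨x, Or.inr hx, e⟩

theorem acE_acE {ε ρ r s W e : ZFSet.{0}} (h : IE H ε ρ r s W)
    (he : ∀ t ∈ e, t = pair (fst t) (snd t) ∧ fst t ∈ QP (rV r)) : acE ε (acE ε e) = e := by
  unfold H83.PN.acE
  rw [IVa_img_img]
  refine IVa_img_id fun t ht => ?_
  obtain ⟨h1, h2⟩ := he t ht
  rw [fst_pair, snd_pair, ((IE_QP h).2 _ h2).2]
  exact h1.symm

theorem acE_jnN (ε y z : ZFSet.{0}) : acE ε (jnN y z) = jnN (acE ε y) (acE ε z) := by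
  unfold H83.PN.acE H83.PN.jnN
  rw [IVa_img_union, IVa_img_img, IVa_img_img, IVa_img_img, IVa_img_img]
  simp only [fst_pair, snd_pair]

private theorem IVa_acE_mem {ε e W : ZFSet.{0}} (hW : TM (cls W)) (he : ε ∈ W) (h : e ∈ W) :
    acE ε e ∈ W := by
  have h1 : UF (fun _ v => H83.PN.acE (v 0) (v 1)) := Inst.acE (hf := UF.var 0) (hg := UF.var 1)
  refine h1.mem (cls W) hW (fun n => if n = 0 then ε else e) (fun n => ?_)
  by_cases hn : n = 0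
  · simp only [hn, if_true]
    exact he
  · simp only [hn, if_false]
    exact h

private theorem IVa_mem_acE {ε e t : ZFSet.{0}} : t ∈ acE ε e ↔
    ∃ x ∈ e, pair (acQ ε (fst x)) (snd x) = t := by
  unfold H83.PN.acE
  rw [mem_img]

theorem IE_SNm {ε ρ r s W e : ZFSet.{0}} (h : IE H ε ρ r s W) (he : SNm W (rV r) e) :
    SNm W (rV s) (acE ε e) := by
  obtain ⟨h1, h2, m, hm, h3⟩ := he
  refine ⟨IVa_acE_mem (IVa_TM h) h.eW h1, ?_, ?_⟩
  · intro t ht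
    obtain ⟨x, hx, rfl⟩ := IVa_mem_acE.1 ht
    obtain ⟨e1, e2, e3⟩ := h2 x hx
    rw [fst_pair, snd_pair, (IE_QP h).1]
    exact ⟨rfl, ((IE_QP h).2 _ e2).1, e3⟩
  · obtain ⟨m', hm', h4⟩ := h.col
    obtain ⟨a, rfl⟩ := mem_omega.1 hm
    obtain ⟨b, rfl⟩ := mem_omega.1 hm'
    refine ⟨nz (max a b), mem_omega.2 ⟨_, rfl⟩, ?_⟩
    intro t ht c hc
    obtain ⟨x, hx, rfl⟩ := IVa_mem_acE.1 ht
    rw [fst_pair] at hc
    obtain ⟨e1, e2, e3⟩ := h2 x hx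
    obtain ⟨d, hd, rfl⟩ := (csup_acQ h.bij (mem_QP.1 e2)).1 hc
    by_cases hdd : d ∈ dom ε
    · have h5 : apc ε d ∈ dom ε := by
        unfold H83.PN.apc
        rw [if_pos hdd]
        exact h.bij.2.2.1 d hdd
      obtain ⟨k, hk, ek⟩ := mem_nz.1 (h4 _ h5)
      exact mem_nz.2 ⟨k, lt_of_lt_of_le hk (le_max_right _ _), ek⟩
    · have h5 : apc ε d = d := by
        unfold H83.PN.apc
        rw [if_neg hdd]
      rw [h5]
      obtain ⟨k, hk, ek⟩ := mem_nz.1 (h3 x hx d hd)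
      exact mem_nz.2 ⟨k, lt_of_lt_of_le hk (le_max_left _ _), ek⟩

theorem IE_RNm {ε ρ r s W e : ZFSet.{0}} (h : IE H ε ρ r s W) (he : RNm W (rU r) (rV r) e) :
    RNm W (rU s) (rV s) (acE ε e) := by
  obtain ⟨h1, h2, h3, h4⟩ := he
  have hP := (IE_QP h).1
  have hA := (IE_QP h).2
  refine ⟨IE_SNm h h1, ?_, ?_, ?_⟩
  · intro t ht
    obtain ⟨x, hx, rfl⟩ := IVa_mem_acE.1 ht
    rw [snd_pair]
    exact h2 x hx
  · intro i hi q hq
    rw [hP] at hq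
    obtain ⟨q0, hq0, l0, t, ht, et, lt⟩ := h3 i hi (acQ ε q) (hA q hq).1
    have ht2 := (h1.2.1 t ht).2.1
    refine ⟨acQ ε q0, ?_, ?_, pair (acQ ε (fst t)) (snd t), IVa_mem_acE.2 ⟨t, ht, rfl⟩, ?_, ?_⟩
    · rw [hP]
      exact (hA q0 hq0).1
    · have h5 := (IE_QLe h (mem_QP.1 (hA q hq).1) (mem_QP.1 hq0)).2 l0
      rw [(hA q hq).2] at h5
      exact h5
    · rw [snd_pair]
      exact et
    · rw [fst_pair]
      exact (IE_QLe h (mem_QP.1 ht2) (mem_QP.1 hq0)).2 lt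
  · intro t ht t' ht' ee hc
    obtain ⟨x, hx, rfl⟩ := IVa_mem_acE.1 ht
    obtain ⟨x', hx', rfl⟩ := IVa_mem_acE.1 ht'
    rw [snd_pair, snd_pair] at ee
    obtain ⟨q, hq, l1, l2⟩ := hc
    rw [fst_pair] at l1 l2
    rw [hP] at hq
    have k1 := (h1.2.1 x hx).2.1
    have k2 := (h1.2.1 x' hx').2.1
    rw [snd_pair, snd_pair]
    refine h4 x hx x' hx' ee ⟨acQ ε q, (hA q hq).1, ?_, ?_⟩
    · refine (IE_QLe h (mem_QP.1 k1) (mem_QP.1 (hA q hq).1)).1 ?_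
      rw [(hA q hq).2]
      exact l1
    · refine (IE_QLe h (mem_QP.1 k2) (mem_QP.1 (hA q hq).1)).1 ?_
      rw [(hA q hq).2]
      exact l2

private theorem IVa_img_mem {ε D W : ZFSet.{0}} (hW : TM (cls W)) (he : ε ∈ W) (h : D ∈ W) :
    img (fun x => acQ ε x) D ∈ W := by
  have h1 : UF (fun _ v => img (fun x => H83.PN.acQ (v 0) x) (v 1)) := by infer_instance
  refine h1.mem (cls W) hW (fun n => if n = 0 then ε else D) (fun n => ?_)
  by_cases hn : n = 0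
  · simp only [hn, if_true]
    exact he
  · simp only [hn, if_false]
    exact h

private theorem IVa_Le {ε ρ r s W p q : ZFSet.{0}} (h : IE H ε ρ r s W) (hp : QQ (rV r) p)
    (hq : QQ (rV r) q) : Le (Sq (rU s) (rV s)) (acQ ε q) (acQ ε p) ↔
      Le (Sq (rU r) (rV r)) q p := by
  rw [Le_Sq, Le_Sq, IVa_QQ h, IVa_QQ h, IE_QLe h hp hq]
  exact ⟨fun hh => ⟨hq, hp, hh.2.2⟩, fun hh => ⟨IVa_acQ h hq, IVa_acQ h hp, hh.2.2⟩⟩

private theorem IVa_Gen {ε ρ r s W : ZFSet.{0}} (h : IE H ε ρ r s W) {g : Set ZFSet.{0}}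
    (hg : Gen (cls W) (Sq (rU s) (rV s)) g) :
    Gen (cls W) (Sq (rU r) (rV r)) {q | QQ (rV r) q ∧ acQ ε q ∈ g} where
  sub := fun p hp => by
    rw [sP_Sq, mem_QP]
    exact hp.1
  up := fun p hp q hq hl => by
    rw [sP_Sq, mem_QP] at hq
    refine ⟨hq, hg.up _ hp.2 _ ?_ ((IVa_Le h hq hp.1).2 hl)⟩
    rw [sP_Sq, mem_QP, IVa_QQ h]
    exact IVa_acQ h hq
  dir := fun p hp q hq => by
    obtain ⟨x, hx, l1, l2⟩ := hg.dir _ hp.2 _ hq.2
    have hx1 : QQ (rV r) x := by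
      have h1 := hg.sub x hx
      rw [sP_Sq, mem_QP, IVa_QQ h] at h1
      exact h1
    have e := IVa_inv h.bij h.inv hx1
    refine ⟨acQ ε x, ⟨IVa_acQ h hx1, ?_⟩, ?_, ?_⟩
    · rw [e]
      exact hx
    · refine (IVa_Le h hp.1 (IVa_acQ h hx1)).1 ?_
      rw [e]
      exact l1
    · refine (IVa_Le h hq.1 (IVa_acQ h hx1)).1 ?_
      rw [e]
      exact l2
  meet := fun D hD hDs hDd => by
    have hDQ : ∀ x ∈ D, QQ (rV r) x := by
      intro x hx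
      have h1 := hDs hx
      rw [sP_Sq, mem_QP] at h1
      exact h1
    obtain ⟨p, hp, hpg⟩ := hg.meet (img (fun x => acQ ε x) D)
      (IVa_img_mem (IVa_TM h) h.eW hD) (by
        intro y hy
        obtain ⟨x, hx, rfl⟩ := mem_img.1 hy
        rw [sP_Sq, mem_QP, IVa_QQ h]
        exact IVa_acQ h (hDQ x hx)) (by
        intro y hy
        rw [sP_Sq, mem_QP, IVa_QQ h] at hy
        obtain ⟨x, hx, hl⟩ := hDd (acQ ε y) (by
          rw [sP_Sq, mem_QP]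
          exact IVa_acQ h hy)
        refine ⟨acQ ε x, mem_img.2 ⟨x, hx, rfl⟩, ?_⟩
        have h1 := (IVa_Le h (IVa_acQ h hy) (hDQ x hx)).2 hl
        rw [IVa_inv h.bij h.inv hy] at h1
        exact h1)
    obtain ⟨x, hx, rfl⟩ := mem_img.1 hp
    exact ⟨x, hx, hDQ x hx, hpg⟩

private theorem IVa_ev {ε ρ r s W e : ZFSet.{0}} (h : IE H ε ρ r s W) (he : SNm W (rV r) e)
    (g : Set ZFSet.{0}) : ev {q | QQ (rV r) q ∧ acQ ε q ∈ g} e = ev g (acE ε e) := by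
  ext x
  rw [mem_ev, mem_ev]
  constructor
  · rintro ⟨p, hp, hpx⟩
    refine ⟨acQ ε p, hp.2, IVa_mem_acE.2 ⟨_, hpx, ?_⟩⟩
    rw [fst_pair, snd_pair]
  · rintro ⟨p, hp, hpx⟩
    obtain ⟨t, ht, e1⟩ := IVa_mem_acE.1 hpx
    obtain ⟨e2, e3⟩ := pair_inj.1 e1
    obtain ⟨k1, k2, -⟩ := he.2.1 t ht
    refine ⟨fst t, ⟨mem_QP.1 k2, ?_⟩, ?_⟩
    · rw [e2]
      exact hp
    · rw [← e3, ← k1]
      exact ht

theorem IE_F1 {ε ρ r s W T z : ZFSet.{0}} (h : IE H ε ρ r s W) (hc : (cls W).Countable)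
    (hT : SNm W (rV r) T) (hz : SNm W (rV r) z) (hF : F1 W r T z) :
    F1 W s (acE ε T) (acE ε z) := by
  refine (F1_iff h.gs hc (IE_SNm h hT) (IE_SNm h hz)).2 ?_
  intro g hg hr
  have h1 := (F1_iff h.gr hc hT hz).1 hF _ (IVa_Gen h hg) ⟨h.gr.2.2.2.2.2.2.1, by
    rw [← h.qE]
    exact hr⟩
  unfold P1g at h1 ⊢
  rw [IVa_ev h hT g, IVa_ev h hz g] at h1
  exact h1

end H83.PN
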