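import Pool.Agent.H83.PN.IVa
import Pool.Agent.H83.PN.CBl

set_option autoImplicit false

/-!
# Module IVb: the extension step for `IE`

Let `ν = dom (rU s)`, `ν' = dom (rU s')`, `v* = rV s'`. For `γ ∈ ν` let `ρ' γ = app ρ γ`; for `γ ∈ ν'`, `γ ∉ ν` let `ρ' γ` be the function on `Idx` which exchanges
`v*(c, γ)` and `v*(ε c, γ)` for `c ∈ dom ε`: `a ↦ v*(ε c, γ)` if `a = v*(c, γ)` for some `c ∈ dom ε` (unique, because `VLe v* (rV s)` gives `v*(c, γ) ≠ v*(c', γ)` for `c ≠ c'` in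
`vS (rV s)`), otherwise `a`. `u' = rU r ∪ {(γ, (uW (rU s') γ, fgr (fun a => app (uF (rU s') γ) (app (ρ' γ) a)) Idx)) : γ ∈ ν' \ ν}`. `v'` has the length `ν'`, the coordinates
`vS v*` and the values: for `c ∈ vS (rV r)`: `v_r(c, γ)` if `γ ∈ ν`, `v*(c, γ)` otherwise; for the other `c`: `ρ' γ (v*(c, γ))` for all `γ ∈ ν'`. `r' = (u', (v', acQ ε (rQ s')))`.
Check `vl` for `r', s'`. `γ ∈ ν`, `c` old: `vl` for `r, s`. `γ ∈ ν`, `c` new (`ε c = c`, as `dom ε ⊆ vS (rV r)`): `rI`. `γ ∉ ν`, `c` old: `app (uF u' γ) (v*(c, γ)) = app (uF (rU s') γ) (ρ' γ (v*(c, γ)))`,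
and `ρ' γ (v*(c, γ)) = v*(ε c, γ)` (if `c ∉ dom ε` it is fixed, by injectivity). `γ ∉ ν`, `c` new: `ρ' γ` is an involution. `UU H u'`: `UU_rel`-like, `Blk_rel`. All is in `W'`: `W ⊆ W'` (`Gd_W`).
`VLe v' (rV r)`: the values of old coordinates at `γ ∉ ν` are those of `v*`. `QLe u' (rV r) (acQ ε (rQ s')) (rQ r)`: apply `QLe (rU s') (rV s) (rQ s') (rQ s)` to the images under `ε`, and `vl`.
-/

namespace H83.PN

open ZFSet H83.AC

variable {M : Set ZFSet.{0}} {K H : ZFSet.{0}}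

open Classical in
/-- the exchange of the values of `c` and `ε c` at `γ`, as a relation -/
private noncomputable def IVb_G (ε v γ : ZFSet.{0}) : ZFSet.{0} :=
  img (fun c => pair (app (vf v) (pair c γ)) (app (vf v) (pair (apc ε c) γ))) (dom ε)

open Classical in
private noncomputable def IVb_sw (ε v γ a : ZFSet.{0}) : ZFSet.{0} :=
  if a ∈ dom (IVb_G ε v γ) then app (IVb_G ε v γ) a else a

private instance IVb_iG {f g h : Set ZFSet.{0} → (ℕ → ZFSet.{0}) → ZFSet.{0}} [hf : UF f]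
    [hg : UF g] [hh : UF h] : UF (fun N v => IVb_G (f N v) (g N v) (h N v)) := by
  unfold IVb_G; infer_instance

private instance IVb_isw {f g h k : Set ZFSet.{0} → (ℕ → ZFSet.{0}) → ZFSet.{0}} [hf : UF f]
    [hg : UF g] [hh : UF h] [hk : UF k] :
    UF (fun N v => IVb_sw (f N v) (g N v) (h N v) (k N v)) := by
  unfold IVb_sw; infer_instance

private theorem IVb_apc {ε c : ZFSet.{0}} (hb : Bij ε) (hc : c ∈ dom ε) : apc ε c ∈ dom ε := by
  unfold apc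
  rw [if_pos hc]
  exact hb.2.2.1 c hc

private theorem IVb_sw_c {ε v γ c : ZFSet.{0}} (hc : c ∈ dom ε)
    (hi : ∀ c ∈ dom ε, ∀ c' ∈ dom ε, app (vf v) (pair c γ) = app (vf v) (pair c' γ) → c = c') :
    IVb_sw ε v γ (app (vf v) (pair c γ)) = app (vf v) (pair (apc ε c) γ) := by
  have h1 : pair (app (vf v) (pair c γ)) (app (vf v) (pair (apc ε c) γ)) ∈ IVb_G ε v γ :=
    mem_img.2 ⟨c, hc, rfl⟩
  unfold IVb_sw
  rw [if_pos (mem_dom.2 ⟨_, h1⟩)]
  refine app_eq h1 fun z hz => ?_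
  obtain ⟨c', hc', h2⟩ := mem_img.1 hz
  obtain ⟨h3, h4⟩ := ZFSet.pair_injective h2
  rw [← h4, hi c' hc' c hc h3]

private theorem IVb_sw_o {ε v γ c : ZFSet.{0}} (hc : ∀ c' ∈ dom ε,
    app (vf v) (pair c' γ) ≠ app (vf v) (pair c γ)) :
    IVb_sw ε v γ (app (vf v) (pair c γ)) = app (vf v) (pair c γ) := by
  unfold IVb_sw
  rw [if_neg]
  intro h
  obtain ⟨y, hy⟩ := mem_dom.1 h
  obtain ⟨c', hc', h2⟩ := mem_img.1 hy
  exact hc c' hc' (ZFSet.pair_injective h2).1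

private theorem IVb_sw_all {ε v γ a : ZFSet.{0}} (hb : Bij ε) (hinv : ∀ c, apc ε (apc ε c) = c)
    (hi : ∀ c ∈ dom ε, ∀ c' ∈ dom ε, app (vf v) (pair c γ) = app (vf v) (pair c' γ) → c = c')
    (hI : ∀ c ∈ dom ε, app (vf v) (pair c γ) ∈ Idx) (ha : a ∈ Idx) :
    IVb_sw ε v γ a ∈ Idx ∧ IVb_sw ε v γ (IVb_sw ε v γ a) = a := by
  by_cases h : ∃ c ∈ dom ε, a = app (vf v) (pair c γ)
  · obtain ⟨c, hc, rfl⟩ := h
    have hc' := IVb_apc hb hc
    rw [IVb_sw_c hc hi, IVb_sw_c hc' hi, hinv]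
    exact ⟨hI _ hc', rfl⟩
  · have h1 : IVb_sw ε v γ a = a := by
      unfold IVb_sw
      rw [if_neg]
      intro h'
      obtain ⟨y, hy⟩ := mem_dom.1 h'
      obtain ⟨c', hc', h2⟩ := mem_img.1 hy
      exact h ⟨c', hc', (ZFSet.pair_injective h2).1.symm⟩
    rw [h1, h1]
    exact ⟨ha, rfl⟩

private theorem IVb_acQ2 {ε v q : ZFSet.{0}} (hb : Bij ε) (hinv : ∀ c, apc ε (apc ε c) = c)
    (hq : QQ v q) : acQ ε (acQ ε q) = q := by
  rw [acQ_cmp hb hb hq]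
  refine acQ_id hq fun c _ => ?_
  rw [(Bij_cmp hb hb).2.2 c, hinv]

private theorem IVb_vS {ε v v' q : ZFSet.{0}} (hb : Bij ε) (hinv : ∀ c, apc ε (apc ε c) = c)
    (hd : ∀ c ∈ dom ε, c ∈ vS v) (hv : VV v) (hq : QQ v q) (hS : vS v' = vS v)
    (hL : vL v' = vL v) : QQ v' (acQ ε q) := by
  have h1 := QQ_acQ hb hv hq
  have h2 := VV_acV hb hv
  have h3 : ∀ c ∈ vS v, apc ε c ∈ vS v := by
    intro c hc
    by_cases h : c ∈ dom ε
    · exact hd _ (IVb_apc hb h)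
    · unfold apc
      rw [if_neg h]
      exact hc
  have h4 : vS (acV ε v) = vS v := by
    ext c
    rw [h2.2.2.1 c]
    constructor
    · rintro ⟨d, hd, rfl⟩
      exact h3 d hd
    · intro hc
      exact ⟨apc ε c, h3 c hc, (hinv c).symm⟩
  unfold QQ at h1 ⊢
  rw [hS, hL]
  rw [h4, h2.2.1] at h1
  exact h1

private instance IVb_iIdx : UF (fun _ _ => Idx) := by
  unfold H83.AC.Idx; infer_instance

open Classical in
/-- the new involutions -/
private noncomputable def IVb_R (ε ρ u v ν : ZFSet.{0}) : ZFSet.{0} :=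
  fgr (fun γ => if γ ∈ ν then app ρ γ else fgr (fun a => IVb_sw ε v γ a) Idx) (dom u)

open Classical in
/-- the new blocks -/
private noncomputable def IVb_F (x u ρ ν γ : ZFSet.{0}) : ZFSet.{0} :=
  if γ ∈ ν then uF x γ else fgr (fun a => app (uF u γ) (app (app ρ γ) a)) Idx

private noncomputable def IVb_u (x u ρ ν : ZFSet.{0}) : ZFSet.{0} :=
  fgr (fun γ => pair (uW u γ) (IVb_F x u ρ ν γ)) (dom u)

open Classical in
private noncomputable def IVb_vf (x v ρ ν : ZFSet.{0}) : ZFSet.{0} :=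
  fgr (fun t => if fst t ∈ vS x then (if snd t ∈ ν then app (vf x) t else app (vf v) t)
    else app (app ρ (snd t)) (app (vf v) t)) (ZFSet.prod (vS v) (vL v))

private noncomputable def IVb_v (x v ρ ν : ZFSet.{0}) : ZFSet.{0} :=
  pair (vL v) (pair (vS v) (IVb_vf x v ρ ν))

private theorem IVb_mR {W ε ρ u v ν : ZFSet.{0}} (hW : Wd W) (h0 : ε ∈ W) (h1 : ρ ∈ W)
    (h2 : u ∈ W) (h3 : v ∈ W) (h4 : ν ∈ W) : IVb_R ε ρ u v ν ∈ W := by
  have hF : UF (fun _ v => IVb_R (v 0) (v 1) (v 2) (v 3) (v 4)) := by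
    unfold IVb_R; infer_instance
  refine Wd_uf hF hW (v := cons ε (cons ρ (cons u (cons v (fun _ => ν))))) fun i => ?_
  rcases i with _ | _ | _ | _ | i
  · exact h0
  · exact h1
  · exact h2
  · exact h3
  · exact h4

private theorem IVb_mu {W x u ρ ν : ZFSet.{0}} (hW : Wd W) (h0 : x ∈ W) (h1 : u ∈ W)
    (h2 : ρ ∈ W) (h4 : ν ∈ W) : IVb_u x u ρ ν ∈ W := by
  have hF : UF (fun _ v => IVb_u (v 0) (v 1) (v 2) (v 3)) := by
    unfold IVb_u IVb_F; infer_instance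
  refine Wd_uf hF hW (v := cons x (cons u (cons ρ (fun _ => ν)))) fun i => ?_
  rcases i with _ | _ | _ | i
  · exact h0
  · exact h1
  · exact h2
  · exact h4

private theorem IVb_mv {W x v ρ ν : ZFSet.{0}} (hW : Wd W) (h0 : x ∈ W) (h1 : v ∈ W)
    (h2 : ρ ∈ W) (h4 : ν ∈ W) : IVb_v x v ρ ν ∈ W := by
  have hF : UF (fun _ v => IVb_v (v 0) (v 1) (v 2) (v 3)) := by
    unfold IVb_v IVb_vf; infer_instance
  refine Wd_uf hF hW (v := cons x (cons v (cons ρ (fun _ => ν)))) fun i => ?_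
  rcases i with _ | _ | _ | i
  · exact h0
  · exact h1
  · exact h2
  · exact h4

private theorem IVb_uapp {x u ρ ν γ : ZFSet.{0}} (hg : γ ∈ dom u) :
    app (IVb_u x u ρ ν) γ = pair (uW u γ) (IVb_F x u ρ ν γ) := by
  unfold IVb_u
  rw [app_fgr hg]

private theorem IVb_vapp {x v ρ ν c γ : ZFSet.{0}} (hc : c ∈ vS v) (hg : γ ∈ vL v) :
    (c ∈ vS x → γ ∈ ν → app (IVb_vf x v ρ ν) (pair c γ) = app (vf x) (pair c γ)) ∧
    (c ∈ vS x → γ ∉ ν → app (IVb_vf x v ρ ν) (pair c γ) = app (vf v) (pair c γ)) ∧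
    (c ∉ vS x → app (IVb_vf x v ρ ν) (pair c γ) = app (app ρ γ) (app (vf v) (pair c γ))) := by
  have h := ZFSet.pair_mem_prod.2 ⟨hc, hg⟩
  unfold IVb_vf
  rw [app_fgr h, fst_pair, snd_pair]
  refine ⟨fun h1 h2 => ?_, fun h1 h2 => ?_, fun h1 => ?_⟩
  · rw [if_pos h1, if_pos h2]
  · rw [if_pos h1, if_neg h2]
  · rw [if_neg h1]

theorem IE_step {ε ρ r s W s' W' : ZFSet.{0}} (hG : Gr M K H) (h : IE H ε ρ r s W)
    (hs : Gd H s' W') (hle : RLe s' s) :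
    ∃ r' ρ', IE H ε ρ' r' s' W' ∧ RLe r' r := by
  obtain ⟨hrH, hWH, hrp, hrU, hrV, hrd, hrQ, hrN, hruW, hrvW⟩ := h.gr
  obtain ⟨hsH, -, hsp, hsU, hsV, hsd, hsQ, hsN, hsuW, hsvW⟩ := h.gs
  obtain ⟨htH, hWH', htp, htU, htV, htd, htQ, htN, htuW, htvW⟩ := hs
  obtain ⟨l1, l2, l3⟩ := hle
  obtain ⟨k1, k2, k3, k4, k5⟩ := l2
  have hWd : Wd W' := htN.1
  have hWW : W ⊆ W' := (Gd_W h.gs ⟨htH, hWH', htp, htU, htV, htd, htQ, htN, htuW, htvW⟩ l1).1
  have hb := h.bij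
  have hinv := h.inv
  obtain ⟨e1, e2, -⟩ := UU_sub hsU htU l1
  -- names
  set ν := dom (rU r) with hν
  set u := rU s' with hu
  set v := rV s' with hv
  set C := vS (rV r) with hC
  have hCs : vS (rV s) = C := h.sE
  have hνs : dom (rU s) = ν := h.dE
  have hνL : vL (rV s) = ν := by rw [← hsd, hνs]
  have hνr : vL (rV r) = ν := hrd.symm
  rw [hνs] at e1 e2
  rw [hCs] at k2 k3 k4 k5
  rw [hνL] at k1 k3 k4 k5
  have huF : ∀ γ ∈ ν, uF u γ = uF (rU s) γ := fun γ hγ => by unfold uF; rw [e2 γ hγ]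
  have huW : ∀ γ ∈ ν, uW u γ = uW (rU s) γ := fun γ hγ => by unfold uW; rw [e2 γ hγ]
  have huWr : ∀ γ ∈ ν, uW (rU s) γ = uW (rU r) γ := by
    intro γ hγ
    rw [← (UU_ws hsU).2.2 γ (by rw [hνs]; exact hγ), ← (UU_ws hrU).2.2 γ hγ, h.wsE]
  -- injectivity of the new values on the old coordinates
  have hdC : ∀ c ∈ dom ε, c ∈ C := h.dm
  have hinj : ∀ γ ∈ vL v, γ ∉ ν → ∀ c ∈ C, ∀ c' ∈ C,
      app (vf v) (pair c γ) = app (vf v) (pair c' γ) → c = c' := by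
    intro γ hγ hγν c hc c' hc' he
    by_contra hne
    exact k5 c hc c' hc' hne γ hγ hγν he
  have hIdx : ∀ c ∈ vS v, ∀ γ ∈ vL v, app (vf v) (pair c γ) ∈ Idx := fun c hc γ hγ =>
    htV.2.2.2.2 _ (ZFSet.pair_mem_prod.2 ⟨hc, hγ⟩)
  have hIdxr : ∀ c ∈ C, ∀ γ ∈ ν, app (vf (rV r)) (pair c γ) ∈ Idx := fun c hc γ hγ =>
    hrV.2.2.2.2 _ (ZFSet.pair_mem_prod.2 ⟨hc, by rw [hνr]; exact hγ⟩)
  set ρ' := IVb_R ε ρ u v ν with hρ'
  have hR1 : ∀ γ ∈ dom u, γ ∈ ν → app ρ' γ = app ρ γ := by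
    intro γ hγ hγν
    rw [hρ']
    unfold IVb_R
    rw [app_fgr hγ, if_pos hγν]
  have hR2 : ∀ γ ∈ dom u, γ ∉ ν → ∀ a ∈ Idx, app (app ρ' γ) a = IVb_sw ε v γ a := by
    intro γ hγ hγν a ha
    rw [hρ']
    unfold IVb_R
    rw [app_fgr hγ, if_neg hγν, app_fgr ha]
  have hswall : ∀ γ ∈ dom u, γ ∉ ν → ∀ a ∈ Idx, IVb_sw ε v γ a ∈ Idx ∧
      IVb_sw ε v γ (IVb_sw ε v γ a) = a := by
    intro γ hγ hγν a ha
    rw [htd] at hγ
    exact IVb_sw_all hb hinv (fun c hc c' hc' he => hinj γ hγ hγν c (hdC c hc) c' (hdC c' hc') he)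
      (fun c hc => hIdx c (k2 (hdC c hc)) γ hγ) ha
  have hR3 : ∀ γ ∈ dom u, ∀ a ∈ Idx, app (app ρ' γ) a ∈ Idx ∧
      app (app ρ' γ) (app (app ρ' γ) a) = a := by
    intro γ hγ a ha
    by_cases hγν : γ ∈ ν
    · rw [hR1 γ hγ hγν]
      exact ⟨(h.rI γ hγν a ha).1, (h.rI γ hγν a ha).2.1⟩
    · have h1 := hswall γ hγ hγν a ha
      rw [hR2 γ hγ hγν a ha, hR2 γ hγ hγν _ h1.1]
      exact h1
  -- the value of `v` at `(ε c, γ)`, `c` old, `γ` new
  have hR4 : ∀ γ ∈ dom u, γ ∉ ν → ∀ c ∈ C,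
      app (app ρ' γ) (app (vf v) (pair c γ)) = app (vf v) (pair (apc ε c) γ) := by
    intro γ hγ hγν c hc
    have hγ' : γ ∈ vL v := by rw [← htd]; exact hγ
    rw [hR2 γ hγ hγν _ (hIdx c (k2 hc) γ hγ')]
    by_cases hcε : c ∈ dom ε
    · exact IVb_sw_c hcε fun c hc c' hc' he => hinj γ hγ' hγν c (hdC c hc) c' (hdC c' hc') he
    · have h1 : apc ε c = c := by
        unfold apc
        rw [if_neg hcε]
      rw [h1]
      refine IVb_sw_o fun c' hc' he => ?_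
      have := hinj γ hγ' hγν c' (hdC c' hc') c hc he
      rw [this] at hc'
      exact hcε hc'
  set u' := IVb_u (rU r) u ρ' ν with hu'
  set v' := IVb_v (rV r) v ρ' ν with hv'
  have hdu' : dom u' = dom u := by
    rw [hu']
    unfold IVb_u
    rw [dom_fgr]
  have hvL' : vL v' = vL v := by rw [hv']; unfold IVb_v vL; rw [fst_pair]
  have hvS' : vS v' = vS v := by
    rw [hv']; unfold IVb_v vS; rw [snd_pair, fst_pair]
  have hvf' : vf v' = IVb_vf (rV r) v ρ' ν := by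
    rw [hv']; unfold IVb_v vf; rw [snd_pair, snd_pair]
  have huF' : ∀ γ ∈ dom u, uF u' γ = IVb_F (rU r) u ρ' ν γ := by
    intro γ hγ
    unfold uF
    rw [hu', IVb_uapp hγ, snd_pair]
  have hF1 : ∀ γ ∈ ν, IVb_F (rU r) u ρ' ν γ = uF (rU r) γ := fun γ hγ => by
    unfold IVb_F; rw [if_pos hγ]
  have hF2 : ∀ γ, γ ∉ ν → ∀ a ∈ Idx, app (IVb_F (rU r) u ρ' ν γ) a =
      app (uF u γ) (app (app ρ' γ) a) := fun γ hγ a ha => by
    unfold IVb_F; rw [if_neg hγ, app_fgr ha]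
  -- the sequence
  have hUUr := UU_rel htU (F := IVb_F (rU r) u ρ' ν) (by
    intro γ hγ W1 hW1 hN1
    by_cases hγν : γ ∈ ν
    · rw [hF1 γ hγν, huW γ hγν, huWr γ hγν]
      obtain ⟨W2, -, hN2, hB2⟩ := hrU.2.2.2 γ hγν
      have hfg : fgr (fun β => uW u β) (sc γ) = fgr (fun β => uW (rU r) β) (sc γ) := by
        refine fgr_congr fun β hβ => ?_
        have hβν : β ∈ ν := by
          rcases ZFSet.mem_insert_iff.1 hβ with h1 | h1
          · rw [h1]; exact hγν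
          · have h2 : ν = dom (ws (rU r)) := ((UU_ws hrU).2.1).symm
            have h3 := (Ws_mono (UU_ws hrU).1 (by rw [← h2]; exact hγν) h1).2.2.2
            rw [← h2] at h3
            exact h3
        rw [huW β hβν, huWr β hβν]
      rw [hfg] at hN1
      rw [Nx_uniq hN1 hN2]
      exact hB2
    · obtain ⟨W2, -, hN2, hB2⟩ := htU.2.2.2 γ hγ
      rw [Nx_uniq hN1 hN2]
      have hWγ : TM (cls (uW u γ)) := (htU.2.2.1 γ hγ).1.1
      have h1 := Blk_rel hWγ hB2 (ρ := fun a => app (app ρ' γ) a)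
        (fun a ha => (hR3 γ hγ a ha).1) (fun a ha b hb' he => by
          have he' : app (app ρ' γ) a = app (app ρ' γ) b := he
          rw [← (hR3 γ hγ a ha).2, he', (hR3 γ hγ b hb').2])
      unfold IVb_F
      rw [if_neg hγν]
      exact h1)
  have hUU : UU H u' := hUUr.1
  have hws : ws u' = ws u := hUUr.2
  -- values
  have vA : ∀ c ∈ C, ∀ γ ∈ ν, app (vf v') (pair c γ) = app (vf (rV r)) (pair c γ) := by
    intro c hc γ hγ
    rw [hvf']
    exact (IVb_vapp (k2 hc) (k1 hγ)).1 hc hγ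
  have vB : ∀ c ∈ C, ∀ γ ∈ vL v, γ ∉ ν →
      app (vf v') (pair c γ) = app (vf v) (pair c γ) := by
    intro c hc γ hγ hγν
    rw [hvf']
    exact (IVb_vapp (k2 hc) hγ).2.1 hc hγν
  have vC : ∀ c ∈ vS v, c ∉ C → ∀ γ ∈ vL v,
      app (vf v') (pair c γ) = app (app ρ' γ) (app (vf v) (pair c γ)) := by
    intro c hc hcC γ hγ
    rw [hvf']
    exact (IVb_vapp hc hγ).2.2 hcC
  have hVV : VV v' := by
    refine ⟨?_, ?_, ?_, ?_, ?_⟩
    · rw [hvL', hvS', hvf', hv']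
      rfl
    · rw [hvL']; exact htV.2.1
    · rw [hvS']; exact htV.2.2.1
    · rw [hvL', hvS', hvf']
      unfold IVb_vf
      refine fgr_congr fun t ht => ?_
      rw [app_fgr ht]
    · rw [hvL', hvS']
      intro t ht
      obtain ⟨c, hc, γ, hγ, rfl⟩ := ZFSet.mem_prod.1 ht
      by_cases hcC : c ∈ C
      · by_cases hγν : γ ∈ ν
        · rw [vA c hcC γ hγν]; exact hIdxr c hcC γ hγν
        · rw [vB c hcC γ hγ hγν]; exact hIdx c hc γ hγ
      · rw [vC c hc hcC γ hγ]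
        exact (hR3 γ (by rw [htd]; exact hγ) _ (hIdx c hc γ hγ)).1
  have hQQ : QQ v' (acQ ε (rQ s')) :=
    IVb_vS hb hinv (fun c hc => k2 (hdC c hc)) htV htQ hvS' hvL'
  -- membership
  have hεW : ε ∈ W' := hWW h.eW
  have hrUW : rU r ∈ W' := hWW hruW
  have hrVW : rV r ∈ W' := hWW hrvW
  have hνW : ν ∈ W' := by
    rw [hν]
    exact Wd_uf (F := fun _ v => dom (v 0)) (by infer_instance) hWd (v := fun _ => rU r)
      (fun _ => hrUW)
  have hρW : ρ' ∈ W' := IVb_mR hWd hεW (hWW h.rW) htuW htvW hνW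
  have hu'W : u' ∈ W' := IVb_mu hWd hrUW htuW hρW hνW
  have hv'W : v' ∈ W' := IVb_mv hWd hrVW htvW hρW hνW
  have hεH : ε ∈ H := H_tr hG hWH' hεW
  have hqH : acQ ε (rQ s') ∈ H :=
    H_uf2 hG (F := fun a b => acQ a b) (by infer_instance) hεH
      (H_uf1 hG (F := fun a => rQ a) (by infer_instance) htH)
  set r' := pair u' (pair v' (acQ ε (rQ s'))) with hr'
  have hU' : rU r' = u' := by rw [hr']; unfold rU; rw [fst_pair]
  have hV' : rV r' = v' := by rw [hr']; unfold rV; rw [snd_pair, fst_pair]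
  have hQ' : rQ r' = acQ ε (rQ s') := by rw [hr']; unfold rQ; rw [snd_pair, snd_pair]
  have hGd : Gd H r' W' := by
    refine ⟨H_pair hG (H_tr hG hWH' hu'W) (H_pair hG (H_tr hG hWH' hv'W) hqH), hWH', ?_, ?_, ?_,
      ?_, ?_, ?_, ?_, ?_⟩
    · rw [hU', hV', hQ']
    · rw [hU']; exact hUU
    · rw [hV']; exact hVV
    · rw [hU', hV', hdu', hvL']; exact htd
    · rw [hV', hQ']; exact hQQ
    · rw [hU', hws]; exact htN
    · rw [hU']; exact hu'W
    · rw [hV']; exact hv'W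
  refine ⟨r', ρ', ⟨hGd, ⟨htH, hWH', htp, htU, htV, htd, htQ, htN, htuW, htvW⟩, hb, hεW, hinv,
    h.col, ?_, ?_, ?_, ?_, hρW, ?_, ?_, ?_⟩, ?_, ?_, ?_⟩
  · intro c hc
    rw [hV', hvS']
    exact k2 (hdC c hc)
  · rw [hU', hws]
  · rw [hU', hdu']
  · rw [hV', hvS']
  · -- rI
    rw [hU', hdu']
    intro γ hγ a ha
    refine ⟨(hR3 γ hγ a ha).1, (hR3 γ hγ a ha).2, ?_⟩
    rw [huF' γ hγ]
    by_cases hγν : γ ∈ ν
    · rw [hF1 γ hγν, hR1 γ hγ hγν, ← (h.rI γ hγν a ha).2.2, ← huF γ hγν]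
    · rw [hF2 γ hγν _ (hR3 γ hγ a ha).1, (hR3 γ hγ a ha).2]
  · -- vl
    rw [hU', hV', hdu', hvS']
    intro γ hγ c hc
    have hγ' : γ ∈ vL v := by rw [← htd]; exact hγ
    rw [huF' γ hγ]
    by_cases hcC : c ∈ C
    · by_cases hγν : γ ∈ ν
      · have hεC : apc ε c ∈ C := by
          by_cases h1 : c ∈ dom ε
          · exact hdC _ (IVb_apc hb h1)
          · unfold apc
            rw [if_neg h1]
            exact hcC
        have h2 := h.vl γ hγν c hcC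
        have h3 : app (vf v) (pair (apc ε c) γ) = app (vf (rV s)) (pair (apc ε c) γ) :=
          k3 _ (ZFSet.pair_mem_prod.2 ⟨hεC, hγν⟩)
        show app (uF u γ) (app (vf v) (pair (apc ε c) γ)) = _
        rw [h3, huF γ hγν, h2, hF1 γ hγν, vA c hcC γ hγν]
      · show app (uF u γ) (app (vf v) (pair (apc ε c) γ)) = _
        rw [vB c hcC γ hγ' hγν, hF2 γ hγν _ (hIdx c hc γ hγ'), hR4 γ hγ hγν c hcC]
    · have h1 : apc ε c = c := by
        unfold apc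
        rw [if_neg (fun h1 => hcC (hdC c h1))]
      show app (uF u γ) (app (vf v) (pair (apc ε c) γ)) = _
      rw [h1, vC c hc hcC γ hγ']
      have h4 := hR3 γ hγ _ (hIdx c hc γ hγ')
      by_cases hγν : γ ∈ ν
      · rw [hF1 γ hγν, hR1 γ hγ hγν, huF γ hγν]
        exact (h.rI γ hγν _ (hIdx c hc γ hγ')).2.2
      · rw [hF2 γ hγν _ h4.1, h4.2]
  · -- qE
    rw [hQ']
    exact (IVb_acQ2 hb hinv htQ).symm
  · -- rU r ⊆ u'
    rw [hU']
    refine UU_sub_of hrU hUU (by rw [hdu']; exact e1) fun γ hγ => ?_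
    rw [hu', IVb_uapp (e1 hγ), hF1 γ hγ, huW γ hγ, huWr γ hγ]
    have h1 := hrU.2.1
    conv_lhs => rw [h1]
    rw [app_fgr hγ]
  · -- VLe
    rw [hV']
    refine ⟨?_, ?_, ?_, ?_, ?_⟩
    · rw [hνr, hvL']; exact k1
    · rw [hvS']; exact k2
    · intro t ht
      obtain ⟨c, hc, γ, hγ, rfl⟩ := ZFSet.mem_prod.1 ht
      rw [hνr] at hγ
      exact vA c hc γ hγ
    · rw [hvL', hνr]
      intro c hc γ hγ hγν
      rw [vB c hc γ hγ hγν]
      exact k4 c hc γ hγ hγν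
    · rw [hvL', hνr]
      intro c hc c' hc' hne γ hγ hγν
      rw [vB c hc γ hγ hγν, vB c' hc' γ hγ hγν]
      exact k5 c hc c' hc' hne γ hγ hγν
  · -- QLe
    rw [hU', hQ']
    have hqr : rQ r = acQ ε (rQ s) := by
      rw [h.qE]
      exact (IVb_acQ2 hb hinv hrQ).symm
    have hf : ∀ q, fst (acQ ε q) = img (fun t => rn3 ε t) (fst q) := fun q => by
      unfold acQ; rw [fst_pair]
    have hsn : ∀ q, snd (acQ ε q) = img (fun t => rn2 ε t) (snd q) := fun q => by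
      unfold acQ; rw [snd_pair]
    obtain ⟨m1, m2, m3⟩ := l3
    refine ⟨?_, ?_, ?_⟩
    · rw [hqr, hf, hf]
      intro t ht
      obtain ⟨t', ht', rfl⟩ := mem_img.1 ht
      exact mem_img.2 ⟨t', m1 ht', rfl⟩
    · rw [hqr, hsn, hsn]
      intro t ht
      obtain ⟨t', ht', rfl⟩ := mem_img.1 ht
      exact mem_img.2 ⟨t', m2 ht', rfl⟩
    · intro t ht htn σ hσ he
      rw [hqr, hf] at htn
      rw [hqr, hsn] at hσ
      rw [hf] at ht
      obtain ⟨t', ht', rfl⟩ := mem_img.1 ht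
      obtain ⟨σ', hσ', rfl⟩ := mem_img.1 hσ
      have htn' : t' ∉ fst (rQ s) := fun h1 => htn (mem_img.2 ⟨t', h1, rfl⟩)
      have he' : apc ε (fst σ') = apc ε (fst (fst t')) := by
        have h1 : fst (rn2 ε σ') = apc ε (fst σ') := by unfold rn2; rw [fst_pair]
        have h2 : fst (fst (rn3 ε t')) = apc ε (fst (fst t')) := by
          unfold rn3; rw [fst_pair, fst_pair]
        rw [← h1, ← h2]; exact he
      have he2 := apc_inj hb he'
      have h3 := m3 t' ht' htn' σ' hσ' he2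
      have h4 : snd (fst (rn3 ε t')) = snd (fst t') := by unfold rn3; rw [fst_pair, snd_pair]
      have h5 : snd (rn3 ε t') = snd t' := by unfold rn3; rw [snd_pair]
      rw [h4, h5]
      obtain ⟨n1, n2, n3⟩ := (QQ_elt hsQ).2 σ' hσ'
      rw [hCs] at n2
      rw [hνL] at n3
      have hεC : apc ε (fst σ') ∈ C := by
        by_cases h1 : fst σ' ∈ dom ε
        · exact hdC _ (IVb_apc hb h1)
        · unfold apc
          rw [if_neg h1]
          exact n2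
      have h6 : rl u' (rV r) (rn2 ε σ') = rl u (rV s) σ' := by
        have h7 := h.vl (snd σ') n3 (apc ε (fst σ')) hεC
        rw [hinv, ← n1] at h7
        unfold rl
        have h8 : snd (rn2 ε σ') = snd σ' := by unfold rn2; rw [snd_pair]
        rw [h8, huF' _ (e1 n3), hF1 _ n3, huF _ n3, h7]
        rfl
      rw [h6]
      exact h3

end H83.PN
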