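import Pool.Agent.H83.PN.IVb

set_option autoImplicit false

/-!
# Module IVc: invariance of the forcing relation

Induction on `j` for all `ρ, r, s, W, T, z`. `j = 0`: `IE_F1`, `IE_SNm` (`W ∈ M` is countable because `M` is). `j + 1`: `Nm2` by `IE_SNm`. Let `s' ∈ H`, `y ∈ H`, `RLe s' s`,
`RNK H s' y` and suppose `FF H j s' (acE ε T) (jnN y (acE ε z))`. `IE_step` gives `r', ρ'`; by induction for `IE.symm`: `FF H j r' (acE ε (acE ε T)) (acE ε (jnN y (acE ε z)))`, i.e.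
`FF H j r' T (jnN (acE ε y) z)` (`acE_acE`, `acE_jnN`), `RNK H r' (acE ε y)` (`IE_RNm`), `RLe r' r`: contradiction to `FF H (j+1) r T z`.
-/

namespace H83.PN

open ZFSet H83.AC

variable {M : Set ZFSet.{0}} {K H : ZFSet.{0}}

private theorem IVc_W {A r W W' : ZFSet.{0}} (h : Gd A r W) (h' : Gd A r W') : W' = W := by
  have h1 := (Gd_W h h' (fun x hx => hx)).1
  have h2 := (Gd_W h' h (fun x hx => hx)).1
  exact ZFSet.ext fun x => ⟨fun hx => h2 hx, fun hx => h1 hx⟩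

theorem IE_FF (hG : Gr M K H) {j : ℕ} {ε ρ r s W T z : ZFSet.{0}} (h : IE H ε ρ r s W)
    (hF : FF H j r T z) : FF H j s (acE ε T) (acE ε z) := by
  induction j generalizing ρ r s W T z with
  | zero =>
    obtain ⟨W0, hW0, hGd0, hT, hz, hF1⟩ := hF
    obtain rfl : W0 = W := IVc_W h.gr hGd0
    have hc : (cls W0).Countable := hG.ctbl.mono fun x hx => hG.tm.tr W0 (H_sub_M hG hW0) x hx
    exact ⟨W0, hW0, h.gs, IE_SNm h hT, IE_SNm h hz, IE_F1 h hc hT hz hF1⟩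
  | succ j ih =>
    obtain ⟨⟨W0, hW0, hGd0, hT, hz⟩, hF2⟩ := hF
    obtain rfl : W0 = W := IVc_W h.gr hGd0
    refine ⟨⟨W0, hW0, h.gs, IE_SNm h hT, IE_SNm h hz⟩, ?_⟩
    intro s' hs' y hy hle hR hFF
    obtain ⟨W', hW', hGd', hRN⟩ := hR
    obtain ⟨r', ρ', h', hle'⟩ := IE_step hG h hGd' hle
    have h2 := ih h'.symm hFF
    rw [acE_jnN, acE_acE h fun t ht => ⟨(hT.2.1 t ht).1, (hT.2.1 t ht).2.1⟩,
      acE_acE h fun t ht => ⟨(hz.2.1 t ht).1, (hz.2.1 t ht).2.1⟩] at h2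
    have h3 := IE_RNm h'.symm hRN
    exact hF2 r' h'.gr.1 (acE ε y) (H_tr hG hW' h3.1.1) hle' ⟨W', hW', h'.gr, h3⟩ h2

end H83.PN
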