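import Pool.Agent.H83.PN.LSa

set_option autoImplicit false

/-!
# Module LSb: the hull is an elementary substructure

Induction on `φ` for all assignments with values in the hull; in the case `all φ` suppose that
`¬ SatIn (cls A) φ (cons a v)` for some `a ∈ A`. `φ.bd (n+1)`; let `v i = hz A w b (t i)` for `i < n`, and
`s = {pair (nz i) (t i) : i < n} ∈ HF`. Then `s' = {pair (nz i) (v i) : i < n} ∈ Asg A`,
`asv (acons a s') = cons a (asv s')` agrees with `cons a v` below `n+1` (`satIn_congr`), so the value of the term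
`tg 2 (pair (fcd φ) s) ∈ HF` is a counterexample in the hull (`hz_sk`, `SatZ_iff`, `lst_mem`).
-/

namespace H83.PN

open ZFSet H83.AC

/-- the finite assignment with the values `u i`, `i < n` -/
private noncomputable def Sg (u : ℕ → ZFSet.{0}) : ℕ → ZFSet.{0}
  | 0 => ∅
  | n + 1 => insert (pair (nz n) (u n)) (Sg u n)

private theorem mem_Sg {u : ℕ → ZFSet.{0}} {n : ℕ} {z : ZFSet.{0}} :
    z ∈ Sg u n ↔ ∃ i < n, z = pair (nz i) (u i) := by
  induction n with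
  | zero => simp [Sg]
  | succ n ih =>
    rw [Sg, ZFSet.mem_insert_iff, ih]
    constructor
    · rintro (h | ⟨i, hi, h⟩)
      · exact ⟨n, Nat.lt_succ_self n, h⟩
      · exact ⟨i, by omega, h⟩
    · rintro ⟨i, hi, h⟩
      rcases Nat.lt_succ_iff_lt_or_eq.1 hi with h' | h'
      · exact Or.inr ⟨i, h', h⟩
      · left; rw [h, h']

private theorem Sg_HF {u : ℕ → ZFSet.{0}} (n : ℕ) (hu : ∀ i, u i ∈ HF) : Sg u n ∈ HF := by
  induction n with
  | zero => exact HF_empty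
  | succ n ih => exact HF_insert (HF_pair (HF_nz n) (hu n)) ih

private theorem Fnt_Sg (u : ℕ → ZFSet.{0}) (n : ℕ) : Fnt (Sg u n) := by
  induction n with
  | zero => exact Fnt_empty
  | succ n ih => exact Fnt_insert ih

private theorem Sg_Asg {K : ZFSet.{0}} {u : ℕ → ZFSet.{0}} (n : ℕ) (hu : ∀ i, u i ∈ K) :
    Sg u n ∈ Asg K := by
  refine mem_Asg.2 ⟨?_, Fnt_Sg u n, ?_, ?_⟩
  · intro z hz
    obtain ⟨i, -, rfl⟩ := mem_Sg.1 hz
    exact ZFSet.pair_mem_prod.2 ⟨nz_mem_omega i, hu i⟩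
  · intro z hz
    obtain ⟨i, -, rfl⟩ := mem_Sg.1 hz
    rw [fst_pair, snd_pair]
  · intro z hz z' hz' h
    obtain ⟨i, -, rfl⟩ := mem_Sg.1 hz
    obtain ⟨j, -, rfl⟩ := mem_Sg.1 hz'
    rw [fst_pair, fst_pair] at h
    rw [nz_inj.1 h]

private theorem Sg_asv {u : ℕ → ZFSet.{0}} {n i : ℕ} (hi : i < n) : asv (Sg u n) i = u i := by
  refine app_eq (mem_Sg.2 ⟨i, hi, rfl⟩) fun z hz => ?_
  obtain ⟨j, -, h⟩ := mem_Sg.1 hz
  obtain ⟨h1, h2⟩ := pair_inj.1 h
  rw [h2, nz_inj.1 h1]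

private theorem img_Sg {F : ZFSet.{0} → ZFSet.{0}} {t u : ℕ → ZFSet.{0}} (n : ℕ)
    (h : ∀ i, F (t i) = u i) : img (fun p => pair (fst p) (F (snd p))) (Sg t n) = Sg u n := by
  ext z
  rw [mem_img, mem_Sg]
  constructor
  · rintro ⟨y, hy, rfl⟩
    obtain ⟨i, hi, rfl⟩ := mem_Sg.1 hy
    exact ⟨i, hi, by rw [fst_pair, snd_pair, h i]⟩
  · rintro ⟨i, hi, rfl⟩
    exact ⟨_, mem_Sg.2 ⟨i, hi, rfl⟩, by rw [fst_pair, snd_pair, h i]⟩

theorem hzX_base {A w b : ZFSet.{0}} : HF ⊆ hzX A w b ∧ b ∈ hzX A w b :=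
  ⟨fun x hx => mem_img.2 ⟨tg 0 x, tg_HF hx, hz_base A w b x⟩,
    mem_img.2 ⟨tg 1 ∅, tg_HF HF_empty, hz_b A w b⟩⟩

theorem hzX_sub {A w b : ZFSet.{0}} (hA : HF ⊆ A) (hb : b ∈ A) (hw : IsWO w A) :
    hzX A w b ⊆ A := by
  intro x hx
  obtain ⟨t, ht, rfl⟩ := mem_img.1 hx
  exact hz_mem hA hb hw ht

theorem hz_elem {A w b : ZFSet.{0}} (hA : HF ⊆ A) (htr : IsTr (cls A)) (hb : b ∈ A)
    (hw : IsWO w A) (φ : Fml) (v : ℕ → ZFSet.{0}) (hv : ∀ i, v i ∈ hzX A w b) :
    SatIn (cls (hzX A w b)) φ v ↔ SatIn (cls A) φ v := by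
  induction φ generalizing v with
  | bot => exact Iff.rfl
  | eq i j => exact Iff.rfl
  | mem i j => exact Iff.rfl
  | imp φ ψ h1 h2 => simp only [SatIn, h1 v hv, h2 v hv]
  | all φ ih =>
    have hc : ∀ x ∈ hzX A w b, ∀ i, cons x v i ∈ hzX A w b := by
      intro x hx i
      cases i with
      | zero => exact hx
      | succ i => exact hv i
    constructor
    · intro H x hx
      by_contra hn
      obtain ⟨n, hn'⟩ := φ.exists_bd
      have hbd : φ.bd (n + 1) := φ.bd_mono (Nat.le_succ n) hn'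
      have hv' : ∀ i, ∃ t ∈ HF, hz A w b t = v i := fun i => mem_img.1 (hv i)
      choose t ht hte using hv'
      have hvA : ∀ i, v i ∈ A := fun i => hzX_sub hA hb hw (hv i)
      have hSA : Sg v n ∈ Asg A := Sg_Asg n hvA
      have key : ∀ a : ZFSet.{0}, SatIn (cls A) φ (asv (acons a (Sg v n))) ↔
          SatIn (cls A) φ (cons a v) := by
        intro a
        rw [asv_acons hSA]
        refine satIn_congr φ hbd fun i hi => ?_
        cases i with
        | zero => rfl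
        | succ i => exact Sg_asv (by omega)
      have e := hz_sk A w b (fcd φ) (Sg t n)
      rw [img_Sg n hte] at e
      have hX : hz A w b (tg 2 (pair (fcd φ) (Sg t n))) ∈ hzX A w b :=
        mem_img.2 ⟨_, tg_HF (HF_pair (fcd_HF φ) (Sg_HF n ht)), rfl⟩
      have hm : hz A w b (tg 2 (pair (fcd φ) (Sg t n))) ∈
          ZFSet.sep (fun a => acons a (Sg v n) ∈ Asg A ∧ ¬ SatZ A (fcd φ) (acons a (Sg v n))) A := by
        rw [e]
        refine lst_mem hw (fun y hy => (ZFSet.mem_sep.1 hy).1) fun h0 => ?_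
        have hxm : x ∈ ZFSet.sep (fun a => acons a (Sg v n) ∈ Asg A ∧
            ¬ SatZ A (fcd φ) (acons a (Sg v n))) A :=
          ZFSet.mem_sep.2 ⟨hx, acons_mem hx hSA, fun hs => hn ((key x).1 (SatZ_iff.1 hs))⟩
        rw [h0] at hxm
        exact ZFSet.notMem_empty x hxm
      obtain ⟨-, -, h3⟩ := ZFSet.mem_sep.1 hm
      exact h3 (SatZ_iff.2 ((key _).2 ((ih _ (hc _ hX)).1 (H _ hX))))
    · intro H x hx
      exact (ih _ (hc x hx)).2 (H x (hzX_sub hA hb hw hx))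

end H83.PN
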