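import Pool.Agent.H83.PN.TWd
import Pool.Agent.H83.AC.WoU

set_option autoImplicit false

/-!
# Module WCtb: countable sets in a model `N` of ZF and `V = L`

`Ctb_iff`: the enumeration `cdg` of `HF` (`mem_cdg`, `app_cdg`, `ci`) changes `omega` into `HF`: compose
(`fgr (fun n => app g (app cdg n)) omega`, and `fgr (fun x => app g (ci x)) HF`).
`Ctb_img`: `fgr (fun n => F N (app g n) v) omega`. `Ctb_prod`: with `Ctb_iff`: index `pair h h'`.
`Ctb_union`: indices `pair ∅ h`, `pair one h`. `Ctb_Fs`: a finite set `{g h_0, .., g h_(n-1)}` has the index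
`{h_0, .., h_(n-1)} ∈ HF`: `img (fun h => app g h) x` for `x ∈ HF`.
`Ctb_sU`: for `x ∈ b` choose the least enumeration: all `x ∈ b` are countable by some `g ∈ N`; take a level
`Lh y ∈ N` (`y ∈ N`) containing an enumeration for every `x ∈ b` (collection `TM.coll`, then a set, then
`VL N` gives a level containing this set, by `exists_wo` or `Lh`), `w` its well-order, and
`G x = lst w (sep (g enumerates x) a)`; the index of the `n'`-th element of the `n`-th element of `b` is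
`pair n n'`. `HCt_of`: `tc x = x ∪ uni tc x` (`tc_eq`) and `Ctb_sU` for the set of all `tc y`, `y ∈ x`.
`HCt_mem`: `tc y ⊆ tc x`.
-/

namespace H83.PN

open ZFSet H83.AC

variable {f g h k l : Set ZFSet.{0} → (ℕ → ZFSet.{0}) → ZFSet.{0}}

/-- streams with a given beginning -/
private theorem WCtb_st {N : Set ZFSet.{0}} {x : ZFSet.{0}} (hx : x ∈ N) {v : ℕ → ZFSet.{0}}
    (hv : ∀ i, v i ∈ N) : ∀ i, cons x v i ∈ N := by
  intro i
  cases i with
  | zero => exact hx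
  | succ i => exact hv i

private theorem WCtb_one_ne : (one : ZFSet.{0}) ≠ ∅ := by
  intro h
  have : (∅ : ZFSet.{0}) ∈ (one : ZFSet.{0}) := by rw [one]; simp
  rw [h] at this
  exact notMem_empty _ this

theorem Ctb_iff {N : Set ZFSet.{0}} (hN : TM N) {a : ZFSet.{0}} :
    Ctb N a ↔ ∃ g ∈ N, ∀ y ∈ a, ∃ h ∈ HF, app g h = y := by
  constructor
  · rintro ⟨g, hg, h⟩
    have h1 : UF (fun _ v => H83.AC.fgr (fun x => H83.AC.app (v 0) (H83.AC.ci x)) H83.AC.HF) := by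
      infer_instance
    refine ⟨_, h1.mem N hN (fun _ => g) (fun _ => hg), fun y hy => ?_⟩
    obtain ⟨n, hn, hy'⟩ := h y hy
    refine ⟨app cdg n, cdg_HF hn, ?_⟩
    rw [app_fgr (cdg_HF hn), ci_cdg hn, hy']
  · rintro ⟨g, hg, h⟩
    have h1 : UF (fun _ v => H83.AC.fgr (fun x => H83.AC.app (v 0) (H83.AC.app H83.AC.cdg x))
        ZFSet.omega) := by
      infer_instance
    refine ⟨_, h1.mem N hN (fun _ => g) (fun _ => hg), fun y hy => ?_⟩
    obtain ⟨x, hx, hy'⟩ := h y hy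
    refine ⟨ci x, ci_omega x, ?_⟩
    rw [app_fgr (ci_omega x), cdg_ci hx, hy']

theorem Ctb_sub {N : Set ZFSet.{0}} {a b : ZFSet.{0}} (h : Ctb N b) (hab : a ⊆ b) : Ctb N a := by
  obtain ⟨g, hg, h1⟩ := h
  exact ⟨g, hg, fun y hy => h1 y (hab hy)⟩

theorem Ctb_mono {N N' : Set ZFSet.{0}} {a : ZFSet.{0}} (hN : N ⊆ N') (h : Ctb N a) :
    Ctb N' a := by
  obtain ⟨g, hg, h1⟩ := h
  exact ⟨g, hN hg, h1⟩

theorem Ctb_img {N : Set ZFSet.{0}} (hN : TM N)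
    {F : Set ZFSet.{0} → ZFSet.{0} → (ℕ → ZFSet.{0}) → ZFSet.{0}}
    (hF : UF (fun N v => F N (v 0) (sh v))) {v : ℕ → ZFSet.{0}} (hv : ∀ i, v i ∈ N)
    {a : ZFSet.{0}} (ha : ∀ y ∈ a, y ∈ N) (h : Ctb N a) : Ctb N (img (fun x => F N x v) a) := by
  obtain ⟨g, hg, h1⟩ := h
  have h2 : UF (fun N w => H83.AC.fgr (fun n => F N (H83.AC.app (w 0) n) (sh w)) ZFSet.omega) := by
    refine UF.fgr (F := fun N n w => F N (H83.AC.app (w 0) n) (sh w)) UF.omega ?_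
    refine UF.subst (F := fun N x w => F N x (sh (sh w))) (f := fun _ w => H83.AC.app (w 1) (w 0))
      ?_ (UF.app (UF.var 1) (UF.var 0))
    exact hF.ren (fun n => if n = 0 then 0 else n + 2)
  refine ⟨_, h2.mem N hN (cons g v) (WCtb_st hg hv), fun y hy => ?_⟩
  obtain ⟨x, hx, rfl⟩ := mem_img.1 hy
  obtain ⟨n, hn, hx'⟩ := h1 x hx
  refine ⟨n, hn, ?_⟩
  rw [app_fgr hn]
  change F N (app g n) v = F N x v
  rw [hx']

theorem Ctb_HF {N : Set ZFSet.{0}} (hN : TM N) : Ctb N HF := by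
  refine (Ctb_iff hN).2 ?_
  have h1 : UF (fun _ _ => H83.AC.fgr (fun x => x) H83.AC.HF) :=
    UF.fgr (F := fun _ x _ => x) UF.HF (UF.var 0)
  refine ⟨_, h1.mem N hN (fun _ => omega) (fun _ => hN.omega), fun y hy => ⟨y, hy, ?_⟩⟩
  exact app_fgr hy

theorem Ctb_omega {N : Set ZFSet.{0}} (hN : TM N) : Ctb N omega := by
  exact Ctb_sub (Ctb_HF hN) omega_sub_HF

theorem Ctb_fin {N : Set ZFSet.{0}} (hN : TM N) {a : ZFSet.{0}} (ha : ∀ y ∈ a, y ∈ N)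
    (h : Fnt a) : Ctb N a := by
  obtain ⟨e, he⟩ : ∃ e : ZFSet.{0} → ℕ, Set.InjOn e {y | y ∈ a} :=
    Set.countable_iff_exists_injOn.1 (Set.Finite.countable h)
  have h1 : Fnt (img (fun y => pair (nz (e y)) y) a) := Fnt_img h
  have h2 : img (fun y => pair (nz (e y)) y) a ∈ N := by
    refine fin_mem hN ?_ h1
    intro x hx
    obtain ⟨y, hy, rfl⟩ := mem_img.1 hx
    exact hN.pair ((UF.nz (e y)).mem N hN (fun _ => omega) (fun _ => hN.omega)) (ha y hy)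
  refine ⟨_, h2, fun y hy => ⟨nz (e y), nz_mem_omega _, ?_⟩⟩
  refine app_eq (mem_img.2 ⟨y, hy, rfl⟩) fun z hz => ?_
  obtain ⟨z', hz', h3⟩ := mem_img.1 hz
  obtain ⟨h4, rfl⟩ := pair_inj.1 h3
  exact he hz' hy (nz_inj.1 h4)

theorem Ctb_prod {N : Set ZFSet.{0}} (hN : TM N) {a b : ZFSet.{0}} (h : Ctb N a)
    (h' : Ctb N b) : Ctb N (ZFSet.prod a b) := by
  obtain ⟨g, hg, h1⟩ := (Ctb_iff hN).1 h
  obtain ⟨g', hg', h1'⟩ := (Ctb_iff hN).1 h'
  refine (Ctb_iff hN).2 ?_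
  have h2 : UF (fun _ v => H83.AC.fgr (fun x => ZFSet.pair (H83.AC.app (v 0) (H83.AC.fst x))
      (H83.AC.app (v 1) (H83.AC.snd x))) H83.AC.HF) := by
    infer_instance
  refine ⟨_, h2.mem N hN (cons g (fun _ => g')) (WCtb_st hg fun _ => hg'), fun y hy => ?_⟩
  obtain ⟨c, hc, d, hd, rfl⟩ := ZFSet.mem_prod.1 hy
  obtain ⟨i, hi, rfl⟩ := h1 c hc
  obtain ⟨j, hj, rfl⟩ := h1' d hd
  refine ⟨pair i j, HF_pair hi hj, ?_⟩
  rw [app_fgr (HF_pair hi hj), fst_pair, snd_pair]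
  rfl

theorem Ctb_union {N : Set ZFSet.{0}} (hN : TM N) {a b : ZFSet.{0}} (h : Ctb N a)
    (h' : Ctb N b) : Ctb N (a ∪ b) := by
  classical
  obtain ⟨g, hg, h1⟩ := (Ctb_iff hN).1 h
  obtain ⟨g', hg', h1'⟩ := (Ctb_iff hN).1 h'
  refine (Ctb_iff hN).2 ?_
  have h2 : UF (fun _ v => H83.AC.fgr (fun x => if H83.AC.fst x = ∅ then
      H83.AC.app (v 0) (H83.AC.snd x) else H83.AC.app (v 1) (H83.AC.snd x)) H83.AC.HF) := by
    refine UF.fgr (F := fun _ x v => if H83.AC.fst x = ∅ then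
      H83.AC.app (v 0) (H83.AC.snd x) else H83.AC.app (v 1) (H83.AC.snd x)) UF.HF ?_
    exact UF.ite (UR.eq (UF.fst (UF.var 0)) UF.empty) (UF.app (UF.var 1) (UF.snd (UF.var 0)))
      (UF.app (UF.var 2) (UF.snd (UF.var 0)))
  refine ⟨_, h2.mem N hN (cons g (fun _ => g')) (WCtb_st hg fun _ => hg'), fun y hy => ?_⟩
  rcases ZFSet.mem_union.1 hy with hy | hy
  · obtain ⟨i, hi, rfl⟩ := h1 y hy
    refine ⟨pair ∅ i, HF_pair HF_empty hi, ?_⟩
    rw [app_fgr (HF_pair HF_empty hi), fst_pair, snd_pair, if_pos rfl]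
    rfl
  · obtain ⟨i, hi, rfl⟩ := h1' y hy
    have ho : (one : ZFSet.{0}) ∈ HF := by
      have h3 := HF_insert HF_empty HF_empty
      have h4 : (one : ZFSet.{0}) = insert ∅ ∅ := by
        rw [one]; ext z; simp
      rw [h4]; exact h3
    refine ⟨pair one i, HF_pair ho hi, ?_⟩
    rw [app_fgr (HF_pair ho hi), fst_pair, snd_pair, if_neg WCtb_one_ne]
    rfl

theorem Ctb_Fs {N : Set ZFSet.{0}} (hN : TM N) {a : ZFSet.{0}} (ha : ∀ y ∈ a, y ∈ N)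
    (h : Ctb N a) : Ctb N (Fs a) := by
  classical
  obtain ⟨g, hg, h1⟩ := (Ctb_iff hN).1 h
  refine (Ctb_iff hN).2 ?_
  have h2 : UF (fun _ v => H83.AC.fgr (fun x => H83.AC.img (fun i => H83.AC.app (v 0) i) x)
      H83.AC.HF) := by
    infer_instance
  refine ⟨_, h2.mem N hN (fun _ => g) (fun _ => hg), fun s hs => ?_⟩
  obtain ⟨hs1, hs2⟩ := mem_Fs.1 hs
  have h3 : ∀ y, ∃ i ∈ HF, y ∈ s → app g i = y := by
    intro y
    by_cases hy : y ∈ s
    · obtain ⟨i, hi, h4⟩ := h1 y (hs1 hy)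
      exact ⟨i, hi, fun _ => h4⟩
    · exact ⟨∅, HF_empty, fun h5 => absurd h5 hy⟩
  choose i hi h4 using h3
  have h5 : img i s ∈ HF := by
    refine HF_of_finite ?_ (Fnt_img hs2)
    intro x hx
    obtain ⟨y, -, rfl⟩ := mem_img.1 hx
    exact hi y
  refine ⟨img i s, h5, ?_⟩
  rw [app_fgr h5]
  ext z
  rw [mem_img]
  constructor
  · rintro ⟨x, hx, rfl⟩
    obtain ⟨y, hy, rfl⟩ := mem_img.1 hx
    rw [h4 y hy]
    exact hy
  · intro hz
    exact ⟨i z, mem_img.2 ⟨z, hz, rfl⟩, h4 z hz⟩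

theorem Ctb_sU {N : Set ZFSet.{0}} (hN : TM N) (hV : VL N) {b : ZFSet.{0}} (hb : b ∈ N)
    (h : Ctb N b) (h' : ∀ x ∈ b, Ctb N x) : Ctb N (⋃₀ b : ZFSet) := by
  obtain ⟨g, hg, h1⟩ := (Ctb_iff hN).1 h
  have hR : UR (fun N v => ∀ z ∈ v 0, ∃ n ∈ ZFSet.omega, H83.AC.app (v 1) n = z) := by
    infer_instance
  obtain ⟨c, hc, h2⟩ := TM.coll (R := fun _ x y _ => ∀ z ∈ x, ∃ n ∈ ZFSet.omega,
    H83.AC.app y n = z) hR hN (v := fun _ => b) (fun _ => hb) hb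
  obtain ⟨w, hw, hwo⟩ := exists_wo hN hV hc
  refine (Ctb_iff hN).2 ?_
  have h3 : UF (fun _ v => H83.AC.fgr (fun x => H83.AC.app (H83.AC.lst (v 2) (ZFSet.sep
      (fun y => ∀ z ∈ H83.AC.app (v 0) (H83.AC.fst x), ∃ n ∈ ZFSet.omega, H83.AC.app y n = z)
        (v 1))) (H83.AC.snd x)) H83.AC.HF) := by
    infer_instance
  refine ⟨_, h3.mem N hN (cons g (cons c (fun _ => w))) (WCtb_st hg (WCtb_st hc fun _ => hw)),
    fun y hy => ?_⟩
  obtain ⟨x, hx, hyx⟩ := ZFSet.mem_sUnion.1 hy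
  obtain ⟨i, hi, hix⟩ := h1 x hx
  have h4 : ZFSet.sep (fun y => ∀ z ∈ x, ∃ n ∈ ZFSet.omega, H83.AC.app y n = z) c ≠ ∅ := by
    obtain ⟨e, he, h5⟩ := h2 x hx (h' x hx)
    intro h6
    have h7 : e ∈ ZFSet.sep (fun y => ∀ z ∈ x, ∃ n ∈ ZFSet.omega, H83.AC.app y n = z) c :=
      mem_sep.2 ⟨he, h5⟩
    rw [h6] at h7
    exact notMem_empty _ h7
  have h5 := lst_mem hwo (fun z hz => (mem_sep.1 hz).1) h4
  obtain ⟨n, hn, h6⟩ := (mem_sep.1 h5).2 y hyx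
  refine ⟨pair i n, HF_pair hi (omega_sub_HF hn), ?_⟩
  rw [app_fgr (HF_pair hi (omega_sub_HF hn)), fst_pair, snd_pair]
  change app (lst w (ZFSet.sep (fun y => ∀ z ∈ app g i, ∃ n ∈ ZFSet.omega, H83.AC.app y n = z)
    c)) n = y
  rw [hix]
  exact h6

theorem HCt_mem {N : Set ZFSet.{0}} {x y : ZFSet.{0}} (h : HCt N x) (hy : y ∈ x) :
    HCt N y ∧ Ctb N x := by
  exact ⟨Ctb_sub h (tc_mono hy), Ctb_sub h (sub_tc x)⟩

theorem HCt_of {N : Set ZFSet.{0}} (hN : TM N) (hV : VL N) {x : ZFSet.{0}} (hx : x ∈ N)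
    (h : Ctb N x) (h' : ∀ y ∈ x, HCt N y) : HCt N x := by
  have h1 : Ctb N (img (fun y => tc y) x) :=
    Ctb_img hN (F := fun _ y _ => tc y) (UF.tc (UF.var 0)) (v := fun _ => x) (fun _ => hx)
      (fun y hy => hN.tr x hx y hy) h
  have h2 : img (fun y => tc y) x ∈ N :=
    hN.img_of (F := fun _ y _ => tc y) (UF.tc (UF.var 0)) (v := fun _ => x) (fun _ => hx) hx
  have h3 : Ctb N (⋃₀ (img (fun y => tc y) x) : ZFSet) := by
    refine Ctb_sU hN hV h2 h1 ?_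
    intro z hz
    obtain ⟨y, hy, rfl⟩ := mem_img.1 hz
    exact h' y hy
  have h4 := Ctb_union hN h h3
  have h5 : tc x = x ∪ (⋃₀ (img (fun y => tc y) x) : ZFSet) := tc_eq x
  rw [HCt, h5]
  exact h4

theorem HCt_mono {N N' : Set ZFSet.{0}} {x : ZFSet.{0}} (hN : N ⊆ N') (h : HCt N x) :
    HCt N' x := by
  exact Ctb_mono hN h

theorem UR.Ctb (hf : UF f) : UR (fun N v => H83.PN.Ctb N (f N v)) := by
  unfold H83.PN.Ctb
  infer_instance

instance Inst.Ctb [hf : UF f] : UR (fun N v => H83.PN.Ctb N (f N v)) := UR.Ctb hf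
instance Inst.HCt [hf : UF f] : UR (fun N v => H83.PN.HCt N (f N v)) := by
  unfold H83.PN.HCt; infer_instance

/-- the relation for set models -/
instance Inst.HCtz [hf : UF f] [hg : UF g] :
    UR (fun N v => H83.PN.HCt (cls (f N v)) (g N v)) := by
  change UR (fun N v => ∃ e ∈ f N v, ∀ y ∈ tc (g N v), ∃ n ∈ omega, app e n = y)
  infer_instance

instance Inst.Nx [hf : UF f] [hg : UF g] : UR (fun N v => H83.PN.Nx (f N v) (g N v)) := by
  unfold H83.PN.Nx; infer_instance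

end H83.PN
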