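import Pool.Agent.H83.PN.LSb
import Pool.Agent.H83.AC.Elem
import Pool.Agent.H83.PN.WCtb

set_option autoImplicit false

/-!
# Module LSc: the collapse of an elementary subset inside a model

`X ∈ N`, `X` elementary in `A`, `Wd A`. `e = sep (fst t ∈ snd t) (prod X X) ∈ N`; `setCollapse` (every
nonempty `d ⊆ X` has an `∈`-minimal element: regularity) gives `F ∈ N` with
`app F x = img (app F) {y ∈ X : y ∈ x}`. `W = img (app F) X ∈ N`. `app F` is injective on `X`: `X` is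
extensional because it is elementary in the transitive set `A` (write the formula, or use
`TM.ext`-like arguments through `hel`), and it is an isomorphism for `∈`; so
`SatIn (cls W) φ (app F ∘ v) ↔ SatIn (cls X) φ v` (`sat_iso` and `sat_iff`). `W` is transitive by the formula
for `app F x`. `TM (cls W)`: `isZF_of_elem`, `isZF_of_iso`. `VL (cls W)`: `VL` is uniformly definable
(`infer_instance`), true in `cls A`, hence in `X` and in `W` (both `cls A` and `cls W` are transitive models of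
ZF; use the same formula `φ`, `UD.out`). `fix`: if `x ∈ X` and `tc x ⊆ X` then by induction `app F y = y` for
all `y ∈ tc x`, and `app F x = x`.
-/

namespace H83.PN

open ZFSet H83.AC

private theorem LSc_min (x : ZFSet.{0}) (hx : x ≠ ∅) : ∃ y ∈ x, ∀ z ∈ x, z ∉ y := by
  obtain ⟨y, hy, h⟩ := ZFSet.regularity x hx
  refine ⟨y, hy, fun z hz hzy => ?_⟩
  have : z ∈ x ∩ y := by
    rw [ZFSet.mem_inter]; exact ⟨hz, hzy⟩
  rw [h] at this
  exact ZFSet.notMem_empty z this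

private theorem LSc_inj {X : ZFSet.{0}} {f : ZFSet.{0} → ZFSet.{0}}
    (hext : ∀ x ∈ X, ∀ y ∈ X, (∀ z ∈ X, z ∈ x ↔ z ∈ y) → x = y)
    (hm : ∀ x ∈ X, ∀ z, z ∈ f x ↔ ∃ y ∈ X, y ∈ x ∧ f y = z) (x : ZFSet.{0}) :
    x ∈ X → ∀ y ∈ X, f x = f y → x = y := by
  induction x using ZFSet.inductionOn with
  | _ x ih =>
  intro hx y hy h
  refine hext x hx y hy fun z hz => ⟨fun hzx => ?_, fun hzy => ?_⟩
  · have h1 : f z ∈ f y := by
      rw [← h]; exact (hm x hx _).2 ⟨z, hz, hzx, rfl⟩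
    obtain ⟨w, hwX, hwy, hw⟩ := (hm y hy _).1 h1
    rw [ih z hzx hz w hwX hw.symm]
    exact hwy
  · have h1 : f z ∈ f x := by
      rw [h]; exact (hm y hy _).2 ⟨z, hz, hzy, rfl⟩
    obtain ⟨w, hwX, hwx, hw⟩ := (hm x hx _).1 h1
    rw [← ih w hwx hwX z hz hw]
    exact hwx

private theorem LSc_sat {X W : ZFSet.{0}} {f : ZFSet.{0} → ZFSet.{0}}
    (hW : ∀ z, z ∈ W ↔ ∃ x ∈ X, f x = z)
    (hinj : ∀ x ∈ X, ∀ y ∈ X, f x = f y → x = y)
    (hmem : ∀ x ∈ X, ∀ y ∈ X, x ∈ y ↔ f x ∈ f y) (φ : Fml) :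
    ∀ v : ℕ → ZFSet.{0}, (∀ i, v i ∈ X) →
      (SatIn (cls X) φ v ↔ SatIn (cls W) φ (fun n => f (v n))) := by
  induction φ with
  | bot => intro v _; exact Iff.rfl
  | eq i j =>
    intro v hv
    simp only [SatIn]
    exact ⟨fun h => by rw [h], fun h => hinj _ (hv i) _ (hv j) h⟩
  | mem i j =>
    intro v hv
    simp only [SatIn]
    exact hmem _ (hv i) _ (hv j)
  | imp φ ψ h1 h2 =>
    intro v hv
    simp only [SatIn, h1 v hv, h2 v hv]
  | all φ ih =>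
    intro v hv
    simp only [SatIn]
    have hcons : ∀ x ∈ X, ∀ i, cons x v i ∈ X := by
      intro x hx i
      cases i with
      | zero => exact hx
      | succ n => exact hv n
    have hc : ∀ x : ZFSet.{0}, (fun n => f (cons x v n)) = cons (f x) (fun n => f (v n)) := by
      intro x
      funext n
      cases n <;> rfl
    constructor
    · intro H z hz
      obtain ⟨x, hx, rfl⟩ := (hW z).1 hz
      have h1 := (ih (cons x v) (hcons x hx)).1 (H x hx)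
      rwa [hc] at h1
    · intro H x hx
      rw [ih (cons x v) (hcons x hx), hc]
      exact H _ ((hW _).2 ⟨x, hx, rfl⟩)

private theorem LSc_fix {X : ZFSet.{0}} {f : ZFSet.{0} → ZFSet.{0}}
    (hm : ∀ x ∈ X, ∀ z, z ∈ f x ↔ ∃ y ∈ X, y ∈ x ∧ f y = z) (x : ZFSet.{0}) :
    x ∈ X → tc x ⊆ X → f x = x := by
  induction x using ZFSet.inductionOn with
  | _ x ih =>
  intro hx ht
  ext z
  rw [hm x hx]
  constructor
  · rintro ⟨y, hy, hyx, rfl⟩
    rw [ih y hyx hy (fun w hw => ht (tc_mono hyx hw))]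
    exact hyx
  · intro hz
    have hzX : z ∈ X := ht (sub_tc x hz)
    exact ⟨z, hzX, hz, ih z hz hzX (fun w hw => ht (tc_mono hz hw))⟩

private theorem LSc_VL : UR (fun N _ => VL N) := by
  show UR (fun N _ => ∀ z ∈ N, ∃ x ∈ N, z ∈ Lh x)
  infer_instance

theorem collapse {N : Set ZFSet.{0}} (hN : TM N) {A X : ZFSet.{0}} (hA : Wd A) (hX : X ∈ N)
    (hXA : X ⊆ A) (hne : X ≠ ∅)
    (hel : ∀ (φ : Fml) (v : ℕ → ZFSet.{0}), (∀ i, v i ∈ X) →
      (SatIn (cls X) φ v ↔ SatIn (cls A) φ v)) :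
    ∃ W ∈ N, Wd W ∧ (Ctb N X → Ctb N W) ∧ (∀ x ∈ X, tc x ⊆ X → x ∈ W) ∧
      ∃ F ∈ N, (∀ x ∈ X, app F x ∈ W) ∧ (∀ y ∈ W, ∃ x ∈ X, app F x = y) ∧
      (∀ x ∈ X, tc x ⊆ X → app F x = x) ∧
      ∀ (φ : Fml) (v : ℕ → ZFSet.{0}), (∀ i, v i ∈ X) →
        (SatIn (cls W) φ (fun i => app F (v i)) ↔ SatIn (cls A) φ v) := by
  -- the relation
  have hv0 : ∀ n, (fun _ => X : ℕ → ZFSet.{0}) n ∈ N := fun _ => hX
  have he : ZFSet.sep (fun t => fst t ∈ snd t) (ZFSet.prod X X) ∈ N := by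
    have h1 : UF (fun _ v => ZFSet.sep (fun t => fst t ∈ snd t) (ZFSet.prod (v 0) (v 0))) := by
      infer_instance
    exact h1.mem N hN (fun _ => X) hv0
  have hmem_e : ∀ x y : ZFSet.{0}, pair y x ∈ ZFSet.sep (fun t => fst t ∈ snd t) (ZFSet.prod X X) ↔
      (y ∈ X ∧ x ∈ X) ∧ y ∈ x := by
    intro x y
    rw [mem_sep, pair_mem_prod, fst_pair, snd_pair]
  obtain ⟨F, hF, hd, hp, hrec⟩ := setCollapse hN hX he (by
    intro d _ hdX hd0
    obtain ⟨y, hy, h⟩ := LSc_min d hd0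
    exact ⟨y, hy, fun z hz hz' => h z hz ((hmem_e y z).1 hz').2⟩)
  have hm : ∀ x ∈ X, ∀ z, z ∈ app F x ↔ ∃ y ∈ X, y ∈ x ∧ app F y = z := by
    intro x hx z
    rw [hrec x hx, mem_img]
    constructor
    · rintro ⟨y, hy, rfl⟩
      obtain ⟨h1, h2⟩ := mem_sep.1 hy
      exact ⟨y, h1, ((hmem_e x y).1 h2).2, rfl⟩
    · rintro ⟨y, hy, hyx, rfl⟩
      exact ⟨y, mem_sep.2 ⟨hy, (hmem_e x y).2 ⟨⟨hy, hx⟩, hyx⟩⟩, rfl⟩
  -- extensionality
  obtain ⟨a0, ha0⟩ : ∃ a, a ∈ X := by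
    by_contra hn
    apply hne
    ext z
    exact ⟨fun hz => absurd ⟨z, hz⟩ hn, fun hz => absurd hz (ZFSet.notMem_empty z)⟩
  have hXZ : IsZF (memN (cls X)) :=
    isZF_of_elem (X := cls X) (K := cls A) ⟨a0, ha0⟩ (fun x hx => hXA hx) hA.1.zf hel
  have hext : ∀ x ∈ X, ∀ y ∈ X, (∀ z ∈ X, z ∈ x ↔ z ∈ y) → x = y := by
    intro x hx y hy h
    have := hXZ.extensionality ⟨x, hx⟩ ⟨y, hy⟩ (fun z => h z.1 z.2)
    exact congrArg Subtype.val this
  have hinj : ∀ x ∈ X, ∀ y ∈ X, app F x = app F y → x = y := fun x hx y hy h =>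
    LSc_inj hext hm x hx y hy h
  have hiso : ∀ x ∈ X, ∀ y ∈ X, x ∈ y ↔ app F x ∈ app F y := by
    intro x hx y hy
    constructor
    · intro h
      exact (hm y hy _).2 ⟨x, hx, h, rfl⟩
    · intro h
      obtain ⟨w, hw, hwy, e⟩ := (hm y hy _).1 h
      rw [← hinj w hw x hx e]
      exact hwy
  -- the collapse
  have hUW : UF (fun _ v => img (fun x => app (v 1) x) (v 0)) := by infer_instance
  have hWN : img (fun x => app F x) X ∈ N :=
    hUW.mem N hN (cons X (fun _ => F)) (fun n => by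
      cases n with
      | zero => exact hX
      | succ n => exact hF)
  have hWm : ∀ z, z ∈ img (fun x => app F x) X ↔ ∃ x ∈ X, app F x = z := fun z => mem_img
  have hfix : ∀ x ∈ X, tc x ⊆ X → app F x = x := fun x hx ht => LSc_fix hm x hx ht
  have hsat := LSc_sat (W := img (fun x => app F x) X) hWm hinj hiso
  have hbij : Set.BijOn (fun x => app F x) (cls X) (cls (img (fun x => app F x) X)) := by
    refine ⟨fun x hx => (hWm _).2 ⟨x, hx, rfl⟩, fun x hx y hy h => hinj x hx y hy h, ?_⟩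
    intro z hz
    obtain ⟨x, hx, rfl⟩ := (hWm z).1 hz
    exact ⟨x, hx, rfl⟩
  have hTW : TM (cls (img (fun x => app F x) X)) := by
    refine ⟨?_, isZF_of_iso hbij hiso hXZ⟩
    intro z hz w hw
    obtain ⟨x, hx, rfl⟩ := (hWm z).1 hz
    obtain ⟨y, hy, -, rfl⟩ := (hm x hx w).1 hw
    exact (hWm _).2 ⟨y, hy, rfl⟩
  have hVW : VL (cls (img (fun x => app F x) X)) := by
    obtain ⟨φ, hφ⟩ := LSc_VL
    have h1 : SatIn (cls A) φ (fun _ => a0) := by
      have := (hφ (cls A) hA.1 (fun _ => ⟨a0, hXA ha0⟩)).1 hA.2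
      rw [sat_iff] at this
      exact this
    have h2 : SatIn (cls X) φ (fun _ => a0) := (hel φ _ fun _ => ha0).2 h1
    have h3 : SatIn (cls (img (fun x => app F x) X)) φ (fun _ => app F a0) :=
      (hsat φ (fun _ => a0) fun _ => ha0).1 h2
    refine (hφ _ hTW (fun _ => ⟨app F a0, (hWm _).2 ⟨a0, ha0, rfl⟩⟩)).2 ?_
    rw [sat_iff]
    exact h3
  refine ⟨img (fun x => app F x) X, hWN, ⟨hTW, hVW⟩, ?_, ?_, F, hF, ?_, ?_, hfix, ?_⟩
  · intro hc
    exact Ctb_img hN (F := fun _ x v => app (v 0) x) (by infer_instance) (v := fun _ => F)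
      (fun _ => hF) (fun y hy => hN.tr X hX y hy) hc
  · intro x hx ht
    exact (hWm _).2 ⟨x, hx, hfix x hx ht⟩
  · exact fun x hx => (hWm _).2 ⟨x, hx, rfl⟩
  · exact fun y hy => (hWm y).1 hy
  · intro φ v hv
    rw [← hel φ v hv]
    exact (hsat φ v hv).symm

end H83.PN
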