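import Pool.Agent.H83.PN.DefsI
import Pool.Agent.H83.PN.WH
import Pool.Agent.H83.PN.WNx

set_option autoImplicit false

/-!
# Module PBa: bijections of sets of coordinates

`apc a` is a bijection of the universe: on `dom a` it is `app a`, a bijection of `dom a`, elsewhere the identity.
`cnv a` is the inverse, `cmp a b` the composition (its domain is `dom a ∪ dom b`, which is invariant under both).
`frc S c = (fst c, (snd c, S))` is a coordinate in the same column; it is not in `S` (rank: `S` is in the transitive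
closure of `frc S c`). `swp D S` exchanges `c` and `frc S c` for `c ∈ D`, `D ⊆ S`.
-/

namespace H83.PN

open ZFSet H83.AC

variable {f g h k l : Set ZFSet.{0} → (ℕ → ZFSet.{0}) → ZFSet.{0}}
variable {M : Set ZFSet.{0}} {K H : ZFSet.{0}}

/-- the inverse -/
noncomputable def cnv (a : ZFSet.{0}) : ZFSet.{0} := img (fun t => pair (snd t) (fst t)) a
/-- the composition -/
noncomputable def cmp (a b : ZFSet.{0}) : ZFSet.{0} :=
  fgr (fun c => apc a (apc b c)) (dom a ∪ dom b)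
/-- a fresh copy of the coordinate `c` -/
noncomputable def frc (S c : ZFSet.{0}) : ZFSet.{0} := pair (fst c) (pair (snd c) S)
open Classical in
/-- the exchange of the coordinates in `D` and their fresh copies -/
noncomputable def swp (D S : ZFSet.{0}) : ZFSet.{0} :=
  fgr (fun c => if c ∈ D then frc S c else pair (fst c) (fst (snd c))) (D ∪ img (fun c => frc S c) D)

instance Inst.cnv [hf : UF f] : UF (fun N v => H83.PN.cnv (f N v)) := by
  unfold H83.PN.cnv; infer_instance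
instance Inst.cmp [hf : UF f] [hg : UF g] : UF (fun N v => H83.PN.cmp (f N v) (g N v)) := by
  unfold H83.PN.cmp; infer_instance
instance Inst.frc [hf : UF f] [hg : UF g] : UF (fun N v => H83.PN.frc (f N v) (g N v)) := by
  unfold H83.PN.frc; infer_instance
instance Inst.swp [hf : UF f] [hg : UF g] : UF (fun N v => H83.PN.swp (f N v) (g N v)) := by
  unfold H83.PN.swp; infer_instance

private theorem PBa_in {a c : ZFSet.{0}} (h : c ∈ dom a) : apc a c = app a c := by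
  unfold apc
  rw [if_pos h]

private theorem PBa_out {a c : ZFSet.{0}} (h : c ∉ dom a) : apc a c = c := by
  unfold apc
  rw [if_neg h]

private theorem PBa_mem {a t : ZFSet.{0}} (ha : Bij a) :
    t ∈ a ↔ ∃ c ∈ dom a, pair c (app a c) = t := by
  have h : t ∈ a ↔ t ∈ fgr (fun c => app a c) (dom a) := by rw [← ha.1]
  exact h.trans mem_fgr

private theorem PBa_dom {a c d : ZFSet.{0}} (ha : Bij a) (h : c ∈ dom d ∨ c ∈ dom a)
    (e : dom a ⊆ dom a ∪ dom d) : apc a c ∈ dom a ∪ dom d := by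
  by_cases hc : c ∈ dom a
  · rw [PBa_in hc]
    exact e (ha.2.2.1 c hc)
  · rw [PBa_out hc]
    rcases h with h | h
    · exact ZFSet.mem_union.2 (Or.inr h)
    · exact absurd h hc

private theorem PBa_maps {a E c : ZFSet.{0}} (ha : Bij a) (hE : dom a ⊆ E) (h : c ∈ E) :
    apc a c ∈ E := by
  by_cases hc : c ∈ dom a
  · rw [PBa_in hc]
    exact hE (ha.2.2.1 c hc)
  · rw [PBa_out hc]
    exact h

private theorem PBa_fgr {r : ZFSet.{0}} (h1 : ∀ t ∈ r, ∃ x y, t = pair x y)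
    (h2 : ∀ x y y', pair x y ∈ r → pair x y' ∈ r → y' = y) :
    r = fgr (fun c => app r c) (dom r) := by
  ext t
  rw [mem_fgr]
  constructor
  · intro ht
    obtain ⟨x, y, rfl⟩ := h1 t ht
    refine ⟨x, mem_dom.2 ⟨y, ht⟩, ?_⟩
    rw [app_eq ht fun z hz => h2 x y z ht hz]
  · rintro ⟨x, hx, rfl⟩
    obtain ⟨y, hy⟩ := mem_dom.1 hx
    rw [app_eq hy fun z hz => h2 x y z hy hz]
    exact hy

private theorem PBa_cm {a x y : ZFSet.{0}} (ha : Bij a) :
    pair x y ∈ cnv a ↔ y ∈ dom a ∧ x = app a y := by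
  unfold cnv
  rw [mem_img]
  constructor
  · rintro ⟨t, ht, e⟩
    obtain ⟨c, hc, rfl⟩ := (PBa_mem ha).1 ht
    rw [fst_pair, snd_pair, pair_inj] at e
    obtain ⟨e1, e2⟩ := e
    subst e2
    exact ⟨hc, e1.symm⟩
  · rintro ⟨hy, rfl⟩
    refine ⟨pair y (app a y), (PBa_mem ha).2 ⟨y, hy, rfl⟩, ?_⟩
    rw [fst_pair, snd_pair]

private theorem PBa_cfun {a : ZFSet.{0}} (ha : Bij a) {x y y' : ZFSet.{0}}
    (h : pair x y ∈ cnv a) (h' : pair x y' ∈ cnv a) : y' = y := by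
  obtain ⟨h1, e1⟩ := (PBa_cm ha).1 h
  obtain ⟨h2, e2⟩ := (PBa_cm ha).1 h'
  exact ha.2.2.2.1 y' h2 y h1 (e2.symm.trans e1)

private theorem PBa_cdom {a : ZFSet.{0}} (ha : Bij a) : dom (cnv a) = dom a := by
  ext x
  rw [mem_dom]
  constructor
  · rintro ⟨y, hy⟩
    obtain ⟨h1, rfl⟩ := (PBa_cm ha).1 hy
    exact ha.2.2.1 y h1
  · intro hx
    obtain ⟨y, hy, e⟩ := ha.2.2.2.2 x hx
    exact ⟨y, (PBa_cm ha).2 ⟨hy, e.symm⟩⟩

private theorem PBa_capp {a y : ZFSet.{0}} (ha : Bij a) (hy : y ∈ dom a) :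
    app (cnv a) (app a y) = y := by
  have h1 : pair (app a y) y ∈ cnv a := (PBa_cm ha).2 ⟨hy, rfl⟩
  exact app_eq h1 fun z hz => PBa_cfun ha h1 hz

private theorem PBa_capp' {a x : ZFSet.{0}} (ha : Bij a) (hx : x ∈ dom a) :
    app (cnv a) x ∈ dom a ∧ app a (app (cnv a) x) = x := by
  obtain ⟨y, hy, e⟩ := ha.2.2.2.2 x hx
  rw [← e, PBa_capp ha hy]
  exact ⟨hy, rfl⟩

private theorem PBa_cinv {a : ZFSet.{0}} (ha : Bij a) (c : ZFSet.{0}) :
    apc (cnv a) (apc a c) = c := by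
  by_cases hc : c ∈ dom a
  · rw [PBa_in hc, PBa_in (a := cnv a) (by rw [PBa_cdom ha]; exact ha.2.2.1 c hc),
      PBa_capp ha hc]
  · rw [PBa_out hc, PBa_out (a := cnv a) (by rw [PBa_cdom ha]; exact hc)]

private theorem PBa_cinv' {a : ZFSet.{0}} (ha : Bij a) (c : ZFSet.{0}) :
    apc a (apc (cnv a) c) = c := by
  by_cases hc : c ∈ dom a
  · have h1 := PBa_capp' ha hc
    rw [PBa_in (a := cnv a) (by rw [PBa_cdom ha]; exact hc), PBa_in h1.1, h1.2]
  · rw [PBa_out (a := cnv a) (by rw [PBa_cdom ha]; exact hc), PBa_out hc]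

private theorem PBa_cbij {a : ZFSet.{0}} (ha : Bij a) : Bij (cnv a) := by
  refine ⟨?_, ?_, ?_, ?_, ?_⟩
  · refine PBa_fgr (fun t ht => ?_) fun x y y' h h' => PBa_cfun ha h h'
    unfold cnv at ht
    rw [mem_img] at ht
    obtain ⟨s, _, e⟩ := ht
    exact ⟨_, _, e.symm⟩
  · rw [PBa_cdom ha]
    exact ha.2.1
  · rw [PBa_cdom ha]
    intro c hc
    exact (PBa_capp' ha hc).1
  · rw [PBa_cdom ha]
    intro c hc c' hc' e
    rw [← (PBa_capp' ha hc).2, ← (PBa_capp' ha hc').2, e]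
  · rw [PBa_cdom ha]
    intro c hc
    exact ⟨app a c, ha.2.2.1 c hc, PBa_capp ha hc⟩

theorem apc_inj {a c c' : ZFSet.{0}} (ha : Bij a) (h : apc a c = apc a c') : c = c' := by
  have h1 := congrArg (apc (cnv a)) h
  rw [PBa_cinv ha, PBa_cinv ha] at h1
  exact h1

theorem apc_Co {a c : ZFSet.{0}} (ha : Bij a) : Co (apc a c) ↔ Co c := by
  by_cases hc : c ∈ dom a
  · rw [PBa_in hc]
    exact ⟨fun _ => ha.2.1 c hc, fun _ => ha.2.1 _ (ha.2.2.1 c hc)⟩
  · rw [PBa_out hc]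

theorem Bij_cnv {a : ZFSet.{0}} (ha : Bij a) : Bij (cnv a) ∧ dom (cnv a) = dom a ∧
    (∀ c, apc (cnv a) (apc a c) = c) ∧ ∀ c, apc a (apc (cnv a) c) = c := by
  exact ⟨PBa_cbij ha, PBa_cdom ha, PBa_cinv ha, PBa_cinv' ha⟩

theorem Bij_cmp {a b : ZFSet.{0}} (ha : Bij a) (hb : Bij b) : Bij (cmp a b) ∧
    dom (cmp a b) = dom a ∪ dom b ∧ ∀ c, apc (cmp a b) c = apc a (apc b c) := by
  have hd : dom (cmp a b) = dom a ∪ dom b := by
    unfold cmp
    exact dom_fgr
  have hA : dom a ⊆ dom a ∪ dom b := fun x hx => ZFSet.mem_union.2 (Or.inl hx)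
  have hB : dom b ⊆ dom a ∪ dom b := fun x hx => ZFSet.mem_union.2 (Or.inr hx)
  have happ : ∀ c ∈ dom a ∪ dom b, app (cmp a b) c = apc a (apc b c) := by
    intro c hc
    unfold cmp
    exact app_fgr hc
  refine ⟨⟨?_, ?_, ?_, ?_, ?_⟩, hd, ?_⟩
  · rw [hd]
    conv_lhs => unfold cmp
    exact fgr_congr fun c hc => (happ c hc).symm
  · rw [hd]
    intro c hc
    rcases ZFSet.mem_union.1 hc with h | h
    · exact ha.2.1 c h
    · exact hb.2.1 c h
  · rw [hd]
    intro c hc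
    rw [happ c hc]
    exact PBa_maps ha hA (PBa_maps hb hB hc)
  · rw [hd]
    intro c hc c' hc' e
    rw [happ c hc, happ c' hc'] at e
    exact apc_inj hb (apc_inj ha e)
  · rw [hd]
    intro c hc
    have h1 : apc (cnv b) (apc (cnv a) c) ∈ dom a ∪ dom b :=
      PBa_maps (PBa_cbij hb) (by rw [PBa_cdom hb]; exact hB)
        (PBa_maps (PBa_cbij ha) (by rw [PBa_cdom ha]; exact hA) hc)
    refine ⟨_, h1, ?_⟩
    rw [happ _ h1, PBa_cinv' hb, PBa_cinv' ha]
  · intro c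
    by_cases hc : c ∈ dom a ∪ dom b
    · rw [PBa_in (a := cmp a b) (by rw [hd]; exact hc), happ c hc]
    · rw [PBa_out (a := cmp a b) (by rw [hd]; exact hc)]
      have h1 : c ∉ dom a := fun h => hc (hA h)
      have h2 : c ∉ dom b := fun h => hc (hB h)
      rw [PBa_out h2, PBa_out h1]

theorem Bij_empty : Bij ∅ ∧ ColP ∅ ∧ ∀ c, apc ∅ c = c := by
  have hd : dom (∅ : ZFSet.{0}) = ∅ := by
    rw [ZFSet.eq_empty]
    intro x hx
    obtain ⟨y, hy⟩ := mem_dom.1 hx
    exact notMem_empty _ hy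
  have h0 : ∀ c, c ∉ dom (∅ : ZFSet.{0}) := fun c hc => by
    rw [hd] at hc
    exact notMem_empty _ hc
  refine ⟨⟨?_, fun c hc => absurd hc (h0 c), fun c hc => absurd hc (h0 c),
    fun c hc => absurd hc (h0 c), fun c hc => absurd hc (h0 c)⟩,
    fun c hc => absurd hc (h0 c), fun c => PBa_out (h0 c)⟩
  rw [hd]
  symm
  rw [ZFSet.eq_empty]
  intro t ht
  obtain ⟨y, hy, _⟩ := mem_fgr.1 ht
  exact notMem_empty _ hy

theorem ColP_apc {a c : ZFSet.{0}} (ha : ColP a) : fst (apc a c) = fst c := by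
  by_cases hc : c ∈ dom a
  · rw [PBa_in hc]
    exact ha c hc
  · rw [PBa_out hc]

theorem ColP_cnv {a : ZFSet.{0}} (ha : Bij a) (hc : ColP a) : ColP (cnv a) := by
  intro c hcd
  have h1 : apc (cnv a) c = app (cnv a) c := PBa_in hcd
  rw [← h1]
  have h2 := ColP_apc (c := apc (cnv a) c) hc
  rw [PBa_cinv' ha] at h2
  exact h2.symm

theorem ColP_cmp {a b : ZFSet.{0}} (ha : Bij a) (hb : Bij b) (hc : ColP a) (hc' : ColP b) :
    ColP (cmp a b) := by
  intro c hcd
  have h1 : apc (cmp a b) c = app (cmp a b) c := PBa_in hcd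
  rw [← h1, (Bij_cmp ha hb).2.2 c, ColP_apc hc, ColP_apc hc']

theorem frc_fresh (S c : ZFSet.{0}) : frc S c ∉ S ∧ fst (frc S c) = fst c := by
  refine ⟨fun h => ?_, ?_⟩
  · have h0 : ∀ x y : ZFSet.{0}, rank y < rank (pair x y) := by
      intro x y
      have e1 : y ∈ ({x, y} : ZFSet) := by simp
      have e2 : ({x, y} : ZFSet) ∈ pair x y := by
        rw [pair]; simp
      exact (rank_lt_of_mem e1).trans (rank_lt_of_mem e2)
    have h1 := rank_lt_of_mem h
    unfold frc at h1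
    exact absurd (((h0 (snd c) S).trans (h0 (fst c) _)).trans h1) (lt_irrefl _)
  · unfold frc
    rw [fst_pair]

theorem swp_ok {D S : ZFSet.{0}} (hD : D ⊆ S) (hc : ∀ c ∈ D, Co c) : Bij (swp D S) ∧
    ColP (swp D S) ∧ (∀ c ∈ D, apc (swp D S) c = frc S c) ∧
    (∀ c ∈ D, apc (swp D S) (frc S c) = c) ∧ (∀ c ∈ S, c ∉ D → apc (swp D S) c = c) ∧
    (∀ c, apc (swp D S) (apc (swp D S) c) = c) ∧
    ∀ c ∈ dom (swp D S), ∃ d ∈ D, fst c = fst d := by
  have hfr : ∀ c, frc S c ∉ D := fun c h => (frc_fresh S c).1 (hD h)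
  have hd : dom (swp D S) = D ∪ img (fun c => frc S c) D := by
    unfold swp
    exact dom_fgr
  have hE1 : ∀ c ∈ D, c ∈ D ∪ img (fun c => frc S c) D := fun c h =>
    ZFSet.mem_union.2 (Or.inl h)
  have hE2 : ∀ c ∈ D, frc S c ∈ D ∪ img (fun c => frc S c) D := fun c h =>
    ZFSet.mem_union.2 (Or.inr (mem_img.2 ⟨c, h, rfl⟩))
  have hE3 : ∀ c ∈ D ∪ img (fun c => frc S c) D, c ∈ D ∨ ∃ d ∈ D, c = frc S d := by
    intro c h
    rcases ZFSet.mem_union.1 h with h | h
    · exact Or.inl h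
    · obtain ⟨d, hd, e⟩ := mem_img.1 h
      exact Or.inr ⟨d, hd, e.symm⟩
  have h1 : ∀ c ∈ D, app (swp D S) c = frc S c := by
    intro c h
    unfold swp
    rw [app_fgr (hE1 c h), if_pos h]
  have h2 : ∀ c ∈ D, app (swp D S) (frc S c) = c := by
    intro c h
    unfold swp
    rw [app_fgr (hE2 c h), if_neg (hfr c)]
    unfold frc
    rw [fst_pair, snd_pair, fst_pair]
    exact (hc c h).1.symm
  have h3 : ∀ c ∈ dom (swp D S), app (swp D S) c ∈ dom (swp D S) ∧
      app (swp D S) (app (swp D S) c) = c := by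
    rw [hd]
    intro c h
    rcases hE3 c h with h | ⟨d, hq, rfl⟩
    · rw [h1 c h, h2 c h]
      exact ⟨hE2 c h, rfl⟩
    · rw [h2 d hq, h1 d hq]
      exact ⟨hE1 d hq, rfl⟩
  have hB : Bij (swp D S) := by
    refine ⟨?_, ?_, fun c h => (h3 c h).1, ?_, fun c h => ⟨_, (h3 c h).1, (h3 c h).2⟩⟩
    · rw [hd]
      conv_lhs => unfold swp
      refine fgr_congr fun c h => ?_
      unfold swp
      rw [app_fgr h]
    · rw [hd]
      intro c h
      rcases hE3 c h with h | ⟨d, hq, rfl⟩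
      · exact hc c h
      · refine ⟨?_, ?_⟩
        · unfold frc
          rw [fst_pair, snd_pair]
        · rw [(frc_fresh S d).2]
          exact (hc d hq).2
    · intro c h c' h' e
      rw [← (h3 c h).2, ← (h3 c' h').2, e]
  refine ⟨hB, ?_, ?_, ?_, ?_, ?_, ?_⟩
  · intro c h
    rw [hd] at h
    rcases hE3 c h with h | ⟨d, hq, rfl⟩
    · rw [h1 c h, (frc_fresh S c).2]
    · rw [h2 d hq, (frc_fresh S d).2]
  · intro c h
    rw [PBa_in (a := swp D S) (by rw [hd]; exact hE1 c h), h1 c h]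
  · intro c h
    rw [PBa_in (a := swp D S) (by rw [hd]; exact hE2 c h), h2 c h]
  · intro c h h'
    refine PBa_out ?_
    rw [hd]
    intro h4
    rcases hE3 c h4 with h5 | ⟨d, _, rfl⟩
    · exact h' h5
    · exact (frc_fresh S d).1 h
  · intro c
    by_cases h : c ∈ dom (swp D S)
    · rw [PBa_in h, PBa_in (h3 c h).1, (h3 c h).2]
    · rw [PBa_out h, PBa_out h]
  · intro c h
    rw [hd] at h
    rcases hE3 c h with h | ⟨d, hq, rfl⟩
    · exact ⟨c, h, rfl⟩
    · exact ⟨d, hq, (frc_fresh S d).2⟩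

theorem swp_H (hG : Gr M K H) {D S : ZFSet.{0}} (hD : D ∈ H) (hS : S ∈ H) : swp D S ∈ H := by
  exact H_uf2 hG (F := fun D S => swp D S) (by infer_instance) hD hS

end H83.PN
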