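import Pool.Agent.H83.PN.PCe

set_option autoImplicit false

/-!
# Module PCb: continuous substitution

Induction on `j`, for all `F`. `j = 0`: `PC_zero`, `TCon.clo`; `DfP`: if `P` is given by `A` and `F` by `f` then
`P (F z) ↔ app f z ∈ A` (`DfP_UR` with the parameters `f, A`). `j + 1`: let `T` be the code of `P`;
`Pr N (j+1) T (F z) ↔ ∀ y, Real N y → ¬ Pr N j T (jn y (F z))`. Let `G w = jn (lft w) (F (rgt w))`, continuous, given by a
set (`DfF_UF` with parameter `f`); `G (jn y z) = jn y (F z)`. The induction hypothesis for `Pr N j T` and `G` gives `T'` with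
`Pr N j T (G w) ↔ Pr N j T' w`.
-/

namespace H83.PN

open ZFSet H83.AC

theorem PC_comp {N : Set ZFSet.{0}} (hN : TM N) {j : ℕ} {P : ZFSet.{0} → Prop}
    {F : ZFSet.{0} → ZFSet.{0}} (hF : TCon N F) (hd : DfF N F) (h : PC N j P) :
    PC N j (fun z => P (F z)) := by
  induction j generalizing P F with
  | zero =>
    obtain ⟨⟨A, hA, e⟩, hclo⟩ := (PC_zero hN).1 h
    obtain ⟨f, hf, ef⟩ := hd
    refine (PC_zero hN).2 ⟨?_, hF.clo hclo⟩
    have h1 : DfP N (fun z => app f z ∈ A) :=
      DfP_UR hN (R := fun _ z v => app (v 0) z ∈ v 1) (by infer_instance)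
        (v := cons f (fun _ => A)) (fun i => by
          cases i with
          | zero => exact hf
          | succ i => exact hA)
    obtain ⟨B, hB, e1⟩ := h1
    refine ⟨B, hB, fun z hz => ?_⟩
    refine Iff.trans ?_ (e1 z hz)
    show P (F z) ↔ app f z ∈ A
    rw [ef z hz]
    exact e _ (hF.1 z hz)
  | succ j ih =>
    obtain ⟨T, hT, e⟩ := h
    have hG : TCon N (fun w => jn (lft w) (F (rgt w))) :=
      TCon_jn hN (TCon_lft hN) (hF.comp (TCon_rgt hN))
    have hGd : DfF N (fun w => jn (lft w) (F (rgt w))) := by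
      obtain ⟨f, hf, ef⟩ := hd
      have h1 : DfF N (fun w => jn (lft w) (app f (rgt w))) :=
        DfF_UF hN (F := fun _ w v => jn (lft w) (app (v 0) (rgt w))) (by infer_instance)
          (v := fun _ => f) fun _ => hf
      obtain ⟨g, hg, eg⟩ := h1
      refine ⟨g, hg, fun w hw => ?_⟩
      refine (eg w hw).trans ?_
      show jn (lft w) (app f (rgt w)) = jn (lft w) (F (rgt w))
      have h2 : SHF N (rgt w) := (TCon_rgt hN).1 w hw
      rw [ef (rgt w) h2]
    have h1 : PC N j (fun w => Pr N j T w) := ⟨T, hT, fun z _ => Iff.rfl⟩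
    obtain ⟨T', hT', e'⟩ := ih hG hGd h1
    refine ⟨T', hT', fun z hz => ?_⟩
    have key : ∀ y, Real N y → (Pr N j T (jn y (F z)) ↔ Pr N j T' (jn y z)) := by
      intro y hy
      have h2 := e' (jn y z) (jn_SHF hN (Real.shf hy) hz)
      simp only [lft_jn (fn_HF hy.2), rgt_jn hz.2] at h2
      exact h2
    refine (e _ (hF.1 z hz)).trans ?_
    constructor
    · intro h2 y hy h3
      exact h2 y hy ((key y hy).2 h3)
    · intro h2 y hy h3
      exact h2 y hy ((key y hy).1 h3)

end H83.PN
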