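import Pool.Agent.H83.PN.PCb

set_option autoImplicit false

/-!
# Module PCc: quantifiers, negation, inclusion of the classes

`PC_alln`: the same code `T`. `PC_not`: dummy quantifier: `PC_comp` with `F = rgt`, `PC_alln`, `rgt (jn y z) = z`; there is a
real number in `N` (`fgr (fun _ => ∅) omega`).
`PC_succ` by induction on `j`, for all `P`. `j = 0`: by `PC_zero` `P` is closed and given by a set. `P z` holds iff for all real `y`
not `Q (jn y z)`, where `Q w`: for all `n ∈ omega` with `pair ∅ n ∈ lft w` no `z'` with `SHF N z'`, `z' ∩ Lh n = rgt w ∩ Lh n` has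
`P z'`, AND (`lft w` has a value at `∅`: not closed!). Therefore use the closed predicate `Q w`: `∀ n ∈ omega, pair ∅ n ∈ lft w →
¬ ∃ z', SHF N z' ∧ z' ∩ Lh n = rgt w ∩ Lh n ∧ P z'`. For a real number `y` there is exactly one such `n`. If `P z` then
`¬ Q (jn y z)` for all `y` (take `z' = z`). If `¬ P z` then take `n` from `TClo` and `y` constant with value `n`: `Q (jn y z)`.
`Q` is closed: `TClo.ball`, `TClo.imp` (`TLoc_mem`), and the last predicate depends only on `rgt w ∩ Lh n` (locally constant,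
`TCon_rgt`). It is given by a set: `DfP_UR` with the set of `P` as parameter.
`j + 1`: let `T` be a code of `P`; `P z ↔ ∀ y, Real N y → ¬ Q (jn y z)` with `Q = Pr N j T`, `PC N j Q`; by induction `PC N (j+1) Q`; `PC_alln`.
-/

namespace H83.PN

open ZFSet H83.AC

private theorem PCc_real {N : Set ZFSet.{0}} (hN : TM N) {n : ZFSet.{0}} (hn : n ∈ omega) :
    Real N (fgr (fun _ => n) omega) := by
  refine ⟨?_, fn_fgr fun _ _ => hn⟩
  have h : UF (fun _ v => fgr (fun _ => v 0) omega) := by infer_instance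
  exact h.mem N hN (fun _ => n) fun _ => hN.tr _ hN.omega _ hn

theorem PC_alln {N : Set ZFSet.{0}} {j : ℕ} {P : ZFSet.{0} → Prop} (hN : TM N) (h : PC N j P) :
    PC N (j + 1) (fun z => ∀ y, Real N y → ¬ P (jn y z)) := by
  obtain ⟨T, hT, e⟩ := h
  refine ⟨T, hT, fun z hz => ?_⟩
  constructor
  · intro h y hy hP
    exact h y hy ((e _ (jn_SHF hN (Real.shf hy) hz)).2 hP)
  · intro h y hy hP
    exact h y hy ((e _ (jn_SHF hN (Real.shf hy) hz)).1 hP)

theorem PC_not {N : Set ZFSet.{0}} (hN : TM N) {j : ℕ} {P : ZFSet.{0} → Prop} (h : PC N j P) :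
    PC N (j + 1) (fun z => ¬ P z) := by
  have hd : DfF N (fun z => rgt z) :=
    DfF_UF hN (F := fun _ z _ => rgt z) (by infer_instance) (v := fun _ => omega)
      fun _ => hN.omega
  refine PC_congr (fun z hz => ?_) (PC_alln hN (PC_comp hN (TCon_rgt hN) hd h))
  constructor
  · intro hP y _ hP'
    rw [rgt_jn hz.2] at hP'
    exact hP hP'
  · intro h hP
    refine h _ (PCc_real hN (nz_mem_omega 0)) ?_
    rw [rgt_jn hz.2]
    exact hP

private theorem PCc_zero {N : Set ZFSet.{0}} (hN : TM N) {P : ZFSet.{0} → Prop} (h : PC N 0 P) :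
    PC N 1 P := by
  obtain ⟨⟨A, hA, hPA⟩, hclo⟩ := (PC_zero hN).1 h
  set Q : ZFSet.{0} → Prop := fun w => ∀ n ∈ (omega : ZFSet.{0}), pair ∅ n ∈ lft w →
    ¬ ∃ z', SHF N z' ∧ z' ∩ Lh n = rgt w ∩ Lh n ∧ P z' with hQ
  have hQ0 : PC N 0 Q := by
    refine (PC_zero hN).2 ⟨?_, ?_⟩
    · have h1 : DfP N (fun w => ∀ n ∈ (omega : ZFSet.{0}), pair ∅ n ∈ lft w →
          ¬ ∃ z' ∈ N, z' ⊆ HF ∧ z' ∩ Lh n = rgt w ∩ Lh n ∧ z' ∈ A) :=
        DfP_UR hN (R := fun N w v => ∀ n ∈ (omega : ZFSet.{0}), pair ∅ n ∈ lft w →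
          ¬ ∃ z' ∈ N, z' ⊆ HF ∧ z' ∩ Lh n = rgt w ∩ Lh n ∧ z' ∈ v 0) (by infer_instance)
          (v := fun _ => A) fun _ => hA
      obtain ⟨B, hB, e⟩ := h1
      refine ⟨B, hB, fun z hz => ?_⟩
      rw [← e z hz, hQ]
      constructor
      · rintro h2 n hn hp ⟨z', hz', hzH, h3, h4⟩
        exact h2 n hn hp ⟨z', ⟨hz', hzH⟩, h3, (hPA z' ⟨hz', hzH⟩).2 h4⟩
      · rintro h2 n hn hp ⟨z', hz', h3, h4⟩
        exact h2 n hn hp ⟨z', hz'.1, hz'.2, h3, (hPA z' hz').1 h4⟩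
    · refine TClo.ball (R := fun n w => pair ∅ n ∈ lft w →
        ¬ ∃ z', SHF N z' ∧ z' ∩ Lh n = rgt w ∩ Lh n ∧ P z') fun n hn => ?_
      refine TClo.imp ((TCon_lft hN).loc (TLoc_mem (pair ∅ n))) (TLoc.clo ?_)
      intro w hw
      obtain ⟨m, hm, h1⟩ := (TCon_rgt hN).2 w hw n hn
      refine ⟨m, hm, fun w' hw' e => ?_⟩
      simp only [h1 w' hw' e]
  refine PC_congr (fun z hz => ?_) (PC_alln hN hQ0)
  constructor
  · intro hP y hy hQy
    have h0 : (∅ : ZFSet.{0}) ∈ omega := nz_mem_omega 0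
    refine hQy (app y ∅) (fn_mem hy.2 h0) ?_ ⟨z, hz, ?_, hP⟩
    · rw [lft_jn (fn_HF hy.2)]
      exact fn_app hy.2 h0
    · rw [rgt_jn hz.2]
  · intro h2
    by_contra hP
    obtain ⟨n, hn, h3⟩ := hclo z hz hP
    have hr := PCc_real hN hn
    refine h2 _ hr ?_
    rintro n' hn' hp ⟨z', hz', e, hP'⟩
    rw [lft_jn (fn_HF hr.2), pair_mem_fgr] at hp
    rw [rgt_jn hz.2, hp.2] at e
    exact h3 z' hz' e hP'

theorem PC_succ {N : Set ZFSet.{0}} (hN : TM N) {j : ℕ} {P : ZFSet.{0} → Prop} (h : PC N j P) :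
    PC N (j + 1) P := by
  induction j generalizing P with
  | zero => exact PCc_zero hN h
  | succ j ih =>
    obtain ⟨T, hT, e⟩ := h
    have h1 : PC N j (fun w => Pr N j T w) := ⟨T, hT, fun z _ => Iff.rfl⟩
    exact PC_congr (fun z hz => e z hz) (PC_alln hN (ih h1))

theorem PC_le {N : Set ZFSet.{0}} (hN : TM N) {j k : ℕ} (hjk : j ≤ k) {P : ZFSet.{0} → Prop}
    (h : PC N j P) : PC N k P := by
  induction k, hjk using Nat.le_induction with
  | base => exact h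
  | succ k _ ih => exact PC_succ hN ih

theorem PC_iff {N : Set ZFSet.{0}} (hN : TM N) {j : ℕ} {P : ZFSet.{0} → Prop} :
    PC N (j + 1) P ↔ ∃ Q, PC N j Q ∧ ∀ z, SHF N z → (P z ↔ ∀ y, Real N y → ¬ Q (jn y z)) := by
  constructor
  · rintro ⟨T, hT, e⟩
    exact ⟨fun w => Pr N j T w, ⟨T, hT, fun z _ => Iff.rfl⟩, fun z hz => e z hz⟩
  · rintro ⟨Q, hQ, e⟩
    exact PC_congr e (PC_alln hN hQ)

end H83.PN
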