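import Pool.Agent.H83.PN.PVd
import Pool.Agent.H83.PN.PVc
import Pool.Agent.H83.PN.TDC

set_option autoImplicit false

/-!
# Module PFa: fusion, one step

`PM U H m` is the set of conditions with all coordinates in the columns `m`. `D` is a set of pairs `(p, h)`.
`Sol U H m D w w' h e`: if some `w'' ≤ w'` and `q''` have `(w'', q'')` in the `h`-th set and `fst q'' ` restricted to the
coordinates of `w` is `e`, then this holds for `w''=w'` and some `q'`.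
Enumerate the tasks `(h, e) ∈ prod HF (Cn (vS w))` by `ε ∈ M` (`Ctb_prod`, `Ctb_HF`, `Cn` is countable: `Cn X ⊆ Fs ..`, `Ctb_Fs`).
`TM_DC` with the set `{w' ∈ H : VV w' ∧ vL w' ∈ dom U ∧ VLe w' w ∧ all coordinates in the columns m}` and `R i w₁ w₂`: `VLe w₂ w₁` and,
for the `i`-th task `(h, e)`: if `(w'', q'')` as above exists for `w' = w₁` then `q'` exists for `w' = w₂`. The step: take `w₂ = w''`.
Let `w'` be the limit (`limV_ok`; `vL w' ∈ rk H = dom U`). If there is `(w'', q'')` for `w'`, then also for the `i`-th member `w₁` (`VLe_trans`),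
so `w₂` (the next member) has some `q'` with `(pair w₂ q', h) ∈ D`; as `D` is open, `(pair w' q', h) ∈ D`.
-/

namespace H83.PN

open ZFSet H83.AC

variable {f g h k l : Set ZFSet.{0} → (ℕ → ZFSet.{0}) → ZFSet.{0}}
variable {M : Set ZFSet.{0}} {K H : ZFSet.{0}}

/-- conditions with coordinates in the columns `m` -/
noncomputable def PM (U H m : ZFSet.{0}) : ZFSet.{0} :=
  ZFSet.sep (fun p => ∀ c ∈ vS (fst p), fst c ∈ m) (PU U H)

instance Inst.PM [hf : UF f] [hg : UF g] [hh : UF h] :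
    UF (fun N v => H83.PN.PM (f N v) (g N v) (h N v)) := by
  unfold H83.PN.PM; infer_instance

/-- `D` is open: closed under stronger conditions -/
def Opn (U H m D : ZFSet.{0}) : Prop := ∀ p ∈ PM U H m, ∀ p' ∈ PM U H m, ∀ a ∈ HF,
  pair p' p ∈ OU U H → pair p a ∈ D → pair p' a ∈ D

/-- the task with index `a` and finite function `e` is solved by `w'` -/
def Sol (U H m D w w' a e : ZFSet.{0}) : Prop :=
  (∃ w'' q'', pair w'' q'' ∈ PM U H m ∧ VLe w'' w' ∧ pair (pair w'' q'') a ∈ D ∧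
    rsC (fst q'') (vS w) = e) →
  ∃ q', pair w' q' ∈ PM U H m ∧ pair (pair w' q') a ∈ D ∧ rsC (fst q') (vS w) = e

private theorem PFa_st {N : Set ZFSet.{0}} {x : ZFSet.{0}} (hx : x ∈ N) {v : ℕ → ZFSet.{0}}
    (hv : ∀ i, v i ∈ N) : ∀ i, cons x v i ∈ N := by
  intro i
  cases i with
  | zero => exact hx
  | succ i => exact hv i

private def PFa_R (_ : Set ZFSet.{0}) (i x y : ZFSet.{0}) (v : ℕ → ZFSet.{0}) : Prop :=
  VLe y x ∧ ((∃ p ∈ PM (v 0) (v 1) (v 2), VLe (fst p) x ∧ pair p (fst (app (v 5) i)) ∈ v 3 ∧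
      rsC (fst (snd p)) (vS (v 4)) = snd (app (v 5) i)) →
    ∃ p ∈ PM (v 0) (v 1) (v 2), fst p = y ∧ pair p (fst (app (v 5) i)) ∈ v 3 ∧
      rsC (fst (snd p)) (vS (v 4)) = snd (app (v 5) i))

private theorem PFa_UR : UR (fun N w => PFa_R N (w 0) (w 1) (w 2) (sh (sh (sh w)))) := by
  have h : UR (fun _ w => VLe (w 2) (w 1) ∧ ((∃ p ∈ PM (w 3) (w 4) (w 5), VLe (fst p) (w 1) ∧
      pair p (fst (app (w 8) (w 0))) ∈ w 6 ∧
      rsC (fst (snd p)) (vS (w 7)) = snd (app (w 8) (w 0))) →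
    ∃ p ∈ PM (w 3) (w 4) (w 5), fst p = w 2 ∧ pair p (fst (app (w 8) (w 0))) ∈ w 6 ∧
      rsC (fst (snd p)) (vS (w 7)) = snd (app (w 8) (w 0)))) := by infer_instance
  exact h

theorem fusion_step (hG : Gr M K H) {n : ℕ} {U : ZFSet.{0}} (hU : UOK M H n U) {m D : ZFSet.{0}}
    (hm : m ∈ M) (hD : D ∈ M) (ho : Opn U H m D) {w : ZFSet.{0}} (hw : VV w) (hwH : w ∈ H)
    (hL : vL w ∈ dom U) (hc : ∀ c ∈ vS w, fst c ∈ m) :
    ∃ w' ∈ H, VV w' ∧ vL w' ∈ dom U ∧ (∀ c ∈ vS w', fst c ∈ m) ∧ VLe w' w ∧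
      ∀ a ∈ HF, ∀ e ∈ Cn (vS w), Sol U H m D w w' a e := by
  have hN := hG.tm
  have hHM : H ∈ M := H_M hG
  have hwM : w ∈ M := H_sub_M hG hwH
  have hcomp : ∀ {x y : ZFSet.{0}}, pair x y ∈ H → x ∈ H ∧ y ∈ H := by
    intro x y h
    have h1 : ({x, y} : ZFSet) ∈ H := H_tr hG h (by rw [pair]; simp)
    exact ⟨H_tr hG h1 (by simp), H_tr hG h1 (by simp)⟩
  have hparts : ∀ {v : ZFSet.{0}}, VV v → v ∈ H → vL v ∈ H ∧ vS v ∈ H := by
    intro v hv hvH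
    have h0 : pair (vL v) (pair (vS v) (vf v)) ∈ H := by
      rw [← hv.1]
      exact hvH
    have h1 := hcomp h0
    exact ⟨h1.1, (hcomp h1.2).1⟩
  have hS : vS w ∈ H := (hparts hw hwH).2
  have hSM : vS w ∈ M := H_sub_M hG hS
  have hSc : Ctb M (vS w) := H_ct hG hS
  have hCnc : Ctb M (Cn (vS w)) := by
    have h1 : Ctb M (ZFSet.prod (ZFSet.prod (vS w) omega) omega) :=
      Ctb_prod hN (Ctb_prod hN hSc (Ctb_omega hN)) (Ctb_omega hN)
    have h0 : UF (fun _ v => ZFSet.prod (ZFSet.prod (v 0) omega) omega) := by infer_instance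
    have h2 : ZFSet.prod (ZFSet.prod (vS w) omega) omega ∈ M :=
      h0.mem M hN (fun _ => vS w) (fun _ => hSM)
    exact Ctb_sub (Ctb_Fs hN (fun y hy => hN.tr _ h2 y hy) h1) (fun y hy => (mem_sep.1 hy).1)
  obtain ⟨ε, hε, hen⟩ := Ctb_prod hN (Ctb_HF hN) hCnc
  obtain ⟨v, hvd⟩ : ∃ v : ℕ → ZFSet.{0},
    v = cons U (cons H (cons m (cons D (cons w (fun _ => ε))))) := ⟨_, rfl⟩
  have hv : ∀ i, v i ∈ M := by
    rw [hvd]
    exact PFa_st hU.mem (PFa_st hHM (PFa_st hm (PFa_st hD (PFa_st hwM (fun _ => hε)))))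
  have v0 : v 0 = U := by rw [hvd]; rfl
  have v1 : v 1 = H := by rw [hvd]; rfl
  have v2 : v 2 = m := by rw [hvd]; rfl
  have v3 : v 3 = D := by rw [hvd]; rfl
  have v4 : v 4 = w := by rw [hvd]; rfl
  have v5 : v 5 = ε := by rw [hvd]; rfl
  obtain ⟨A, hA⟩ : ∃ A, A = ZFSet.sep (fun x => VV x ∧ vL x ∈ dom U ∧ VLe x w ∧
    ∀ c ∈ vS x, fst c ∈ m) H := ⟨_, rfl⟩
  have hAm : ∀ x, x ∈ A ↔ x ∈ H ∧ VV x ∧ vL x ∈ dom U ∧ VLe x w ∧ ∀ c ∈ vS x, fst c ∈ m :=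
    fun x => by rw [hA, mem_sep]
  have hAM : A ∈ M := by
    have h : UF (fun _ v => ZFSet.sep (fun x => VV x ∧ vL x ∈ dom (v 0) ∧ VLe x (v 4) ∧
      ∀ c ∈ vS x, fst c ∈ v 2) (v 1)) := by infer_instance
    have h1 := h.mem M hN v hv
    rw [v0, v1, v2, v4] at h1
    rw [hA]
    exact h1
  have hR : ∀ N i x y, PFa_R N i x y v ↔ (VLe y x ∧
      ((∃ p ∈ PM U H m, VLe (fst p) x ∧ pair p (fst (app ε i)) ∈ D ∧
        rsC (fst (snd p)) (vS w) = snd (app ε i)) →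
      ∃ p ∈ PM U H m, fst p = y ∧ pair p (fst (app ε i)) ∈ D ∧
        rsC (fst (snd p)) (vS w) = snd (app ε i))) := by
    intro N i x y
    rw [PFa_R, v0, v1, v2, v3, v4, v5]
  have hwA : w ∈ A := (hAm w).2 ⟨hwH, hw, hL, VLe_refl w, hc⟩
  have hstep : ∀ i ∈ omega, ∀ x ∈ A, ∃ y ∈ A, PFa_R M i x y v := by
    intro i _ x hx
    obtain ⟨x1, x2, x3, x4, x5⟩ := (hAm x).1 hx
    by_cases he : ∃ p ∈ PM U H m, VLe (fst p) x ∧ pair p (fst (app ε i)) ∈ D ∧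
        rsC (fst (snd p)) (vS w) = snd (app ε i)
    · obtain ⟨p, hp, hp1, hp2, hp3⟩ := he
      obtain ⟨hp4, hp5⟩ := mem_sep.1 hp
      obtain ⟨q1, q2, q3, q4, q5⟩ := mem_PU.1 hp4
      have hpH : fst p ∈ H := by
        rw [q2] at q1
        exact (hcomp q1).1
      exact ⟨fst p, (hAm _).2 ⟨hpH, q3, q4, VLe_trans hp1 x4, hp5⟩,
        (hR _ _ _ _).2 ⟨hp1, fun _ => ⟨p, hp, rfl, hp2, hp3⟩⟩⟩
    · exact ⟨x, hx, (hR _ _ _ _).2 ⟨VLe_refl x, fun h => absurd h he⟩⟩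
  obtain ⟨p, hpM, hpf, hp0, hps⟩ := TM_DC hN hG.vl PFa_UR hv hAM hwA hstep
  have hpA : ∀ i ∈ omega, app p i ∈ H ∧ VV (app p i) ∧ vL (app p i) ∈ dom U ∧
      VLe (app p i) w ∧ ∀ c ∈ vS (app p i), fst c ∈ m := fun i hi => (hAm _).1 (fn_mem hpf hi)
  obtain ⟨l1, l2, l3, l4, l5⟩ := limV_ok hG hpM (fun i hi => ⟨(hpA i hi).2.1, (hpA i hi).1⟩)
    (fun i hi => ((hR _ _ _ _).1 (hps i hi)).1)
  have hLU : vL (limV p) ∈ dom U := by
    rw [hU.dom]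
    have h2 : rk (vL (limV p)) ∈ rk H := rk_mem_rk.2 (rank_lt_of_mem (hparts l1 l2).1)
    rwa [l1.2.1] at h2
  have hcol : ∀ c ∈ vS (limV p), fst c ∈ m := by
    intro c hc'
    obtain ⟨i, hi, hci⟩ := (l4 c).1 hc'
    exact (hpA i hi).2.2.2.2 c hci
  have hle : VLe (limV p) w := by
    have h1 := l3 ∅ (nz_mem_omega 0)
    rwa [hp0] at h1
  refine ⟨limV p, l2, l1, hLU, hcol, hle, fun a ha e he => ?_⟩
  rintro ⟨w'', q'', h1, h2, h3, h4⟩
  obtain ⟨i, hi, hie⟩ := hen (pair a e) (pair_mem_prod.2 ⟨ha, he⟩)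
  have hsi : sc i ∈ omega := by
    obtain ⟨n, rfl⟩ := mem_omega.1 hi
    exact nz_mem_omega (n + 1)
  have hf : fst (app ε i) = a := by rw [hie, fst_pair]
  have hs : snd (app ε i) = e := by rw [hie, snd_pair]
  have h5 := ((hR _ _ _ _).1 (hps i hi)).2
  rw [hf, hs] at h5
  obtain ⟨p1, k1, k2, k3, k4⟩ := h5 ⟨pair w'' q'', h1,
    by rw [fst_pair]; exact VLe_trans h2 (l3 i hi), h3, by rw [snd_pair]; exact h4⟩
  obtain ⟨k5, k6⟩ := mem_sep.1 k1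
  obtain ⟨r1, r2, r3, r4, r5⟩ := mem_PU.1 k5
  have hle2 : VLe (limV p) (fst p1) := by
    rw [k2]
    exact l3 (sc i) hsi
  have hq : QQ (limV p) (snd p1) := QQ_mono hle2 r5
  have hPU : pair (limV p) (snd p1) ∈ PU U H := mk_PU hG l1 l2 hLU hq
  have hPM : pair (limV p) (snd p1) ∈ PM U H m :=
    mem_sep.2 ⟨hPU, by rw [fst_pair]; exact hcol⟩
  refine ⟨snd p1, hPM, ?_, k4⟩
  refine ho p1 k1 _ hPM a ha (mem_OU.2 ⟨hPU, k5, ?_, ?_⟩) k3
  · rw [fst_pair]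
    exact hle2
  · rw [snd_pair]
    exact QLe_refl _ _ _

end H83.PN
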