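import Pool.Agent.H83.PN.PSu
import Pool.Agent.H83.PN.PGv
import Pool.Agent.H83.PN.PFb

set_option autoImplicit false

/-!
# Module PNa: names of subsets of `HF`

Let `S = SU U H`, `D⁺ = {(p, a) : p ∈ PU U H, a ∈ HF, FMem S p (chk S a) σ} ∈ M` (`UR.FMem`, `Inst.chk`),
`D = {(p, a) : p ∈ PM U H m, a ∈ HF, (p, a) ∈ D⁺ or no p' ≤ p has (p', a) ∈ D⁺} ∈ M`. `D` is open and dense in `PM U H m`: if some `p' ≤ p` has
`(p', a) ∈ D⁺` then `rsP p' m ≤ rsP p m = p` and `(rsP p' m, a) ∈ D⁺` (`FMem_rs`).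
Let `D*` be the set of all `(v', q) ∈ PU U H` for which there are `v_ω ∈ H`, `W ∈ H` with: `VV v_ω`, all coordinates in the columns `m`,
`VLe v' v_ω`, `v_ω` has the property of `fusion`, `GV H U v' W` and `e' ∈ W` where `e' = {(q', a) : q' ∈ QP v_ω, a ∈ HF, ((v_ω, q'), a) ∈ D⁺}`.
`D* ∈ M`; dense: given `(v, q)`, `fusion` from `rsV v m` gives `v_ω`; `e' ∈ H` (`QP_Ctb`, `H_sub`); `amV` gives `v₁` below `v` and `v_ω`; `exists_good` for `v₁`, `e'`.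
Let `(v', q) ∈ G ∩ D*` (`Gen.meet`), with `v_ω, W, e'`. `e'` is the name: (⊇) if `(q', a) ∈ e'` and `(v', q') ∈ G` then `(v_ω, q') ∈ G` (weaker), so `a ∈ val G σ`
(`truth_mem`, `val_chk`). (⊆) let `a ∈ val G σ`. The set of all `r ∈ PU U H` which are below some `(v_ω, q')` with `((v_ω, q'), a) ∈ D` is dense below
`(v_ω, eQ)`: for `r ≤ (v_ω, eQ)` apply the property of `v_ω` to `rsP r m ∈ PM` and use `compat_rs`. So `(v_ω, q') ∈ G`, `((v_ω, q'), a) ∈ D` for some `q'`, and it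
is in `D⁺` because `a ∈ val G σ` is forced by an element of `G`. `(v', q') ∈ G` by `Gq_mono`.
`ev_NN`: `ev_mem` (module GRn) for `e* = {((rsV v m, q), a) : (q, a) ∈ e}`: `(rsV v m, q) ∈ G ↔ (v, q) ∈ G` (`Gq_mono`, `VLe_rsV`), and the automorphisms in the
group of `m` fix `rsV v m` and `q` (`acV_id`, `acQ_id`).
-/

namespace H83.PN

open ZFSet H83.AC

variable {M : Set ZFSet.{0}} {K H : ZFSet.{0}}

/-- names over the columns `m` -/
def SNmm (W v e m : ZFSet.{0}) : Prop :=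
  e ∈ W ∧ (∀ t ∈ e, t = pair (fst t) (snd t) ∧ fst t ∈ QP v ∧ snd t ∈ HF) ∧
    ∀ t ∈ e, ∀ c ∈ csup (fst t), fst c ∈ m

/-- the coordinates of a second part -/
private theorem PNa_csup {v q c : ZFSet.{0}} (hq : QQ v q) (hc : c ∈ csup q) : c ∈ vS v := by
  obtain ⟨e1, e2⟩ := QQ_elt hq
  rw [csup, ZFSet.mem_union, mem_img, mem_img] at hc
  rcases hc with ⟨t, ht, rfl⟩ | ⟨s, hs, rfl⟩
  · exact (e1 t ht).2.1
  · exact (e2 s hs).2.1

private theorem PNa_st {N : Set ZFSet.{0}} {x : ZFSet.{0}} (hx : x ∈ N) {v : ℕ → ZFSet.{0}}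
    (hv : ∀ i, v i ∈ N) : ∀ i, cons x v i ∈ N := by
  intro i
  cases i with
  | zero => exact hx
  | succ i => exact hv i

/-- the pairs `(p, a)` such that `p` forces `a ∈ σ` -/
private noncomputable def PNa_P (S σ : ZFSet.{0}) : ZFSet.{0} :=
  ZFSet.sep (fun t => fst t ∈ sP S ∧ FMem S (fst t) (chk S (snd t)) σ) (ZFSet.prod (sP S) HF)

private theorem PNa_mP {S σ p a : ZFSet.{0}} : pair p a ∈ PNa_P S σ ↔
    p ∈ sP S ∧ a ∈ HF ∧ FMem S p (chk S a) σ := by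
  rw [PNa_P, mem_sep, ZFSet.pair_mem_prod, fst_pair, snd_pair]
  tauto

private theorem PNa_PM {S σ : ZFSet.{0}} (hM : TM M) (hS : S ∈ M) (hσ : σ ∈ M) :
    PNa_P S σ ∈ M := by
  have i1 : UR (fun _ v => H83.AC.fst (v 0) ∈ sP (v 1) ∧ H83.PN.FMem (v 1) (H83.AC.fst (v 0))
      (H83.PN.chk (v 1) (H83.AC.snd (v 0))) (v 2)) :=
    UR.FMem (UF.var 1) (by infer_instance) (by infer_instance) (UF.var 2)
  have h : UF (fun _ v => ZFSet.sep (fun t => H83.AC.fst t ∈ sP (v 0) ∧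
      H83.PN.FMem (v 0) (H83.AC.fst t) (H83.PN.chk (v 0) (H83.AC.snd t)) (v 1))
        (ZFSet.prod (sP (v 0)) H83.AC.HF)) := by
    infer_instance
  exact h.mem M hM (cons S (fun _ => σ)) (PNa_st hS (fun _ => hσ))

/-- the pairs `(p, a)`, `p` in `P`, such that `p` decides `a ∈ σ` -/
private noncomputable def PNa_D (S P D : ZFSet.{0}) : ZFSet.{0} :=
  ZFSet.sep (fun t => t ∈ D ∨ ∀ p' ∈ sP S, Le S p' (fst t) → pair p' (snd t) ∉ D)
    (ZFSet.prod P HF)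

private theorem PNa_mD {S P D p a : ZFSet.{0}} : pair p a ∈ PNa_D S P D ↔
    p ∈ P ∧ a ∈ HF ∧ (pair p a ∈ D ∨ ∀ p' ∈ sP S, Le S p' p → pair p' a ∉ D) := by
  rw [PNa_D, mem_sep, ZFSet.pair_mem_prod, fst_pair, snd_pair]
  tauto

private theorem PNa_DM {S P D : ZFSet.{0}} (hM : TM M) (hS : S ∈ M) (hP : P ∈ M) (hD : D ∈ M) :
    PNa_D S P D ∈ M := by
  have h : UF (fun _ v => ZFSet.sep (fun t => t ∈ v 2 ∨ ∀ p' ∈ sP (v 0),
      H83.PN.Le (v 0) p' (H83.AC.fst t) → ZFSet.pair p' (H83.AC.snd t) ∉ v 2)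
        (ZFSet.prod (v 1) H83.AC.HF)) := by
    infer_instance
  exact h.mem M hM (cons S (cons P (fun _ => D))) (PNa_st hS (PNa_st hP (fun _ => hD)))

/-- the property of `fusion` -/
private def PNa_F (U H m D w : ZFSet.{0}) : Prop :=
  ∀ a ∈ HF, ∀ t ∈ PM U H m, VLe (fst t) w → ∃ q' ∈ QP w, pair (pair w q') a ∈ D ∧
    ∃ t₂ ∈ PM U H m, VLe (fst t₂) (fst t) ∧ QLe U (fst t) (snd t₂) (snd t) ∧
      QLe U w (snd t₂) q'

private theorem PNa_D1M (hG : Gr M K H) {U m D : ZFSet.{0}} (hU : U ∈ M) (hm : m ∈ M)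
    (hD : D ∈ M) :
    ZFSet.sep (fun p => ∃ w ∈ H, VV w ∧ vL w ∈ dom U ∧ (∀ c ∈ vS w, fst c ∈ m) ∧
      VLe (fst p) w ∧ PNa_F U H m D w) (PU U H) ∈ M := by
  have h : UF (fun _ v => ZFSet.sep (fun p => ∃ w ∈ v 1, H83.PN.VV w ∧
      H83.PN.vL w ∈ H83.AC.dom (v 0) ∧ (∀ c ∈ H83.PN.vS w, H83.AC.fst c ∈ v 2) ∧
      H83.PN.VLe (H83.AC.fst p) w ∧ ∀ a ∈ H83.AC.HF, ∀ t ∈ H83.PN.PM (v 0) (v 1) (v 2),
        H83.PN.VLe (H83.AC.fst t) w → ∃ q' ∈ H83.PN.QP w,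
          ZFSet.pair (ZFSet.pair w q') a ∈ v 3 ∧ ∃ t₂ ∈ H83.PN.PM (v 0) (v 1) (v 2),
            H83.PN.VLe (H83.AC.fst t₂) (H83.AC.fst t) ∧
            H83.PN.QLe (v 0) (H83.AC.fst t) (H83.AC.snd t₂) (H83.AC.snd t) ∧
            H83.PN.QLe (v 0) w (H83.AC.snd t₂) q') (H83.PN.PU (v 0) (v 1))) := by
    infer_instance
  exact h.mem M hG.tm (cons U (cons H (cons m (fun _ => D))))
    (PNa_st hU (PNa_st (H_M hG) (PNa_st hm (fun _ => hD))))

/-- the name over `w` -/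
private noncomputable def PNa_E (D w : ZFSet.{0}) : ZFSet.{0} :=
  ZFSet.sep (fun t => pair (pair w (fst t)) (snd t) ∈ D) (ZFSet.prod (QP w) HF)

private theorem PNa_mE {D w q a : ZFSet.{0}} : pair q a ∈ PNa_E D w ↔
    QQ w q ∧ a ∈ HF ∧ pair (pair w q) a ∈ D := by
  rw [PNa_E, mem_sep, ZFSet.pair_mem_prod, fst_pair, snd_pair, mem_QP]
  tauto

private theorem PNa_EH (hG : Gr M K H) {D w : ZFSet.{0}} (hD : D ∈ M) (hw : VV w)
    (hwH : w ∈ H) : PNa_E D w ∈ H := by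
  have hM := hG.tm
  have hwM := H_sub_M hG hwH
  have h1 : PNa_E D w ∈ M := by
    have h : UF (fun _ v => ZFSet.sep (fun t => ZFSet.pair (ZFSet.pair (v 1) (H83.AC.fst t))
        (H83.AC.snd t) ∈ v 0) (ZFSet.prod (H83.PN.QP (v 1)) H83.AC.HF)) := by
      infer_instance
    exact h.mem M hM (cons D (fun _ => w)) (PNa_st hD (fun _ => hwM))
  have h2 : ZFSet.prod (QP w) HF ∈ H :=
    H_uf2 hG (F := fun x y => ZFSet.prod x y) (by infer_instance) (QP_Ctb hG hw hwH)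
      (HF_sub_H hG).2.1
  exact H_sub hG h2 h1 (fun t ht => (mem_sep.1 ht).1)

private theorem PNa_mPM {U H m p : ZFSet.{0}} : p ∈ PM U H m ↔
    p ∈ PU U H ∧ ∀ c ∈ vS (fst p), fst c ∈ m := by
  rw [PM, mem_sep]

private theorem PNa_PMM (hG : Gr M K H) {U m : ZFSet.{0}} (hU : U ∈ M) (hm : m ∈ M) :
    PM U H m ∈ M := by
  have h : UF (fun _ v => H83.PN.PM (v 0) (v 1) (v 2)) := by infer_instance
  exact h.mem M hG.tm (cons U (cons H (fun _ => m))) (PNa_st hU (PNa_st (H_M hG) (fun _ => hm)))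

/-- the first component of a condition is in `H` -/
private theorem PNa_fH (hG : Gr M K H) {U p : ZFSet.{0}} (hp : p ∈ PU U H) : fst p ∈ H :=
  H_uf1 hG (F := fun x => fst x) (UF.fst (UF.var 0)) (mem_PU.1 hp).1

/-- openness of the set of deciding pairs -/
private theorem PNa_opn (hG : Gr M K H) {n : ℕ} {U : ZFSet.{0}} (hU : UOK M H n U)
    {m σ : ZFSet.{0}} :
    Opn U H m (PNa_D (SU U H) (PM U H m) (PNa_P (SU U H) σ)) := by
  have hS := Sys_SU hG hU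
  intro p hp p' hp' a ha hpp h
  obtain ⟨-, -, h1⟩ := PNa_mD.1 h
  have hle : Le (SU U H) p' p := Le_SU.2 (mem_OU.1 hpp)
  refine PNa_mD.2 ⟨hp', ha, ?_⟩
  rcases h1 with h1 | h1
  · left
    obtain ⟨-, -, h2⟩ := PNa_mP.1 h1
    exact PNa_mP.2 ⟨(Le_P hS hle).1, ha, FMem_mono hS hle h2⟩
  · right
    exact fun p'' hp'' h2 => h1 p'' hp'' (hS.trans h2 hle)

/-- density of the set of deciding pairs -/
private theorem PNa_dns (hG : Gr M K H) {n : ℕ} {U : ZFSet.{0}} (hU : UOK M H n U)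
    {m σ : ZFSet.{0}} (hm : m ∈ M) (hσ : HS (SU U H) σ) (hs : Supp (SU U H) m σ) :
    ∀ p ∈ PM U H m, ∀ a ∈ HF, ∃ p' ∈ PM U H m, pair p' p ∈ OU U H ∧
      pair p' a ∈ PNa_D (SU U H) (PM U H m) (PNa_P (SU U H) σ) := by
  have hS := Sys_SU hG hU
  intro p hp a ha
  obtain ⟨hpP, hpc⟩ := PNa_mPM.1 hp
  by_cases h : ∃ p' ∈ sP (SU U H), Le (SU U H) p' p ∧ pair p' a ∈ PNa_P (SU U H) σ
  · obtain ⟨p', hp', hle, hD⟩ := h
    obtain ⟨-, -, h1⟩ := PNa_mP.1 hD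
    have hp'P : p' ∈ PU U H := by rwa [sP_SU] at hp'
    obtain ⟨h2, -, h3⟩ := rsP_PU hG hU hp'P m hm
    have h4 : Le (SU U H) (rsP p' m) p := by
      have := rsP_mono hG hU hle m hm
      rwa [rsP_full hpP hpc] at this
    have h5 := PNa_mPM.2 ⟨h2, h3⟩
    refine ⟨rsP p' m, h5, mem_OU.2 (Le_SU.1 h4), PNa_mD.2 ⟨h5, ha, Or.inl ?_⟩⟩
    exact PNa_mP.2 ⟨(Le_P hS h4).1, ha, FMem_rs hG hU hp'P hσ hs h1⟩
  · refine ⟨p, hp, mem_OU.2 (Le_SU.1 (hS.refl p (by rwa [sP_SU]))), PNa_mD.2 ⟨hp, ha, Or.inr ?_⟩⟩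
    exact fun p' hp' hle hD => h ⟨p', hp', hle, hD⟩

/-- every first part has an extension below a first part with the property of `fusion` -/
private theorem PNa_ex (hG : Gr M K H) {n : ℕ} {U : ZFSet.{0}} (hU : UOK M H n U)
    {m σ : ZFSet.{0}} (hm : m ∈ M) (hσM : σ ∈ M) (hσ : HS (SU U H) σ)
    (hs : Supp (SU U H) m σ) {p : ZFSet.{0}} (hp : p ∈ PU U H) :
    ∃ p', Le (SU U H) p' p ∧ ∃ w ∈ H, VV w ∧ vL w ∈ dom U ∧ (∀ c ∈ vS w, fst c ∈ m) ∧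
      VLe (fst p') w ∧
      PNa_F U H m (PNa_D (SU U H) (PM U H m) (PNa_P (SU U H) σ)) w := by
  obtain ⟨hSM, -, -⟩ := SU_M hG hU
  obtain ⟨hpH, hpe, hv, hL, hq⟩ := mem_PU.1 hp
  have hvH := PNa_fH hG hp
  obtain ⟨hr, hrL, hrS, -⟩ := VV_rsV hv m
  have hrH : rsV (fst p) m ∈ H := by
    have h1 := rsP_PU hG hU hp m hm
    have h2 := PNa_fH hG h1.1
    rwa [rsP, fst_pair] at h2
  obtain ⟨w, hwH, hw, hwL, hwc, hwr, hwF⟩ := fusion hG hU (m := m)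
    (D := PNa_D (SU U H) (PM U H m) (PNa_P (SU U H) σ)) hm
    (PNa_DM hG.tm hSM (PNa_PMM hG hU.mem hm) (PNa_PM hG.tm hSM hσM)) (PNa_opn hG hU)
    (PNa_dns hG hU hm hσ hs) hr hrH (by rw [hrL]; exact hL) (fun c hc => ((hrS c).1 hc).2)
  obtain ⟨v', hv'H, hv', hv'L, -, hv'v, hv'w⟩ := amV hG hv hw hvH hwH hwr
    (fun c hc _ => hwc c hc)
  refine ⟨pair v' (snd p), Le_SU.2 ⟨mk_PU hG hv' hv'H (by rw [hv'L]; exact hwL)
    (QQ_mono hv'v hq), hp, by rw [fst_pair]; exact hv'v, by rw [snd_pair]; exact QLe_refl _ _ _⟩,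
    w, hwH, hw, hwL, hwc, by rw [fst_pair]; exact hv'w, ?_⟩
  intro a ha t ht htw
  have hte : t = pair (fst t) (snd t) := (mem_PU.1 (PNa_mPM.1 ht).1).2.1
  obtain ⟨q', h1, h2, w₁, q₂, h3, h4, h5, h6⟩ := hwF a ha (fst t) (snd t) (by rwa [← hte]) htw
  exact ⟨q', mem_QP.2 h1, h2, pair w₁ q₂, h3, by rw [fst_pair]; exact h4,
    by rw [snd_pair]; exact h5, by rw [snd_pair]; exact h6⟩

theorem name_HF (hG : Gr M K H) {n : ℕ} {U : ZFSet.{0}} (hU : UOK M H n U) {G : Set ZFSet.{0}}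
    (hg : Gen M (SU U H) G) {m σ : ZFSet.{0}} (hm : m ∈ omega) (hσM : σ ∈ M)
    (hσ : HS (SU U H) σ) (hs : Supp (SU U H) m σ) (hx : val G σ ⊆ HF) :
    ∃ v W e, GV H U v W ∧ pair v eQ ∈ G ∧ SNmm W v e m ∧ val G σ = ev (Gq v G) e := by
  have hM := hG.tm
  have hS := Sys_SU hG hU
  obtain ⟨hSM, hPUM, -⟩ := SU_M hG hU
  have hmM : m ∈ M := hM.tr _ hM.omega m hm
  have hHM : H ∈ M := H_M hG
  have hPM' := PNa_PM hM hSM hσM
  have hDM := PNa_DM hM hSM (PNa_PMM hG hU.mem hmM) hPM'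
  -- a first part with the property of `fusion`
  obtain ⟨p, hp, hpG⟩ := hg.meet _ (PNa_D1M hG hU.mem hmM hDM)
    (fun x hx => by rw [sP_SU]; exact (mem_sep.1 hx).1) (by
      intro p hp
      rw [sP_SU] at hp
      obtain ⟨p', hle, hw⟩ := PNa_ex hG hU hmM hσM hσ hs hp
      exact ⟨p', mem_sep.2 ⟨(Le_SU.1 hle).1, hw⟩, hle⟩)
  obtain ⟨-, w, hwH, hw, hwL, hwc, hpw, hwF⟩ := mem_sep.1 hp
  -- a good first part below it
  obtain ⟨v, W, hv, hvp, hvG, heW⟩ := good_dense hG hU hg hpG (PNa_EH hG hPM' hw hwH)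
  have hvw : VLe v w := VLe_trans hvp hpw
  have hveG : pair v eQ ∈ G := by
    have h1 := Gq_eQ hG hU hg hvG
    rwa [fst_pair] at h1
  have hwP : ∀ q, QQ w q → pair w q ∈ PU U H := fun q hq => mk_PU hG hw hwH hwL hq
  have hsub : ∀ q, QQ w q → pair v q ∈ G → pair w q ∈ G := by
    intro q hq hqG
    refine hg.up _ hqG _ (by rw [sP_SU]; exact hwP q hq) (Le_SU.2 ⟨?_, hwP q hq, ?_, ?_⟩)
    · have := hg.sub _ hqG
      rwa [sP_SU] at this
    · rw [fst_pair, fst_pair]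
      exact hvw
    · rw [fst_pair, snd_pair, snd_pair]
      exact QLe_refl _ _ _
  have hweG : pair w eQ ∈ G := hsub _ (QQ_empty w) hveG
  have htop := top_mem hM hS hSM hg
  have hchk : ∀ a ∈ HF, chk (SU U H) a ∈ M := by
    intro a ha
    have haM := H_sub_M hG ((HF_sub_H hG).1 ha)
    have h : UF (fun _ v => H83.PN.chk (v 0) (v 1)) := by infer_instance
    exact h.mem M hM (cons (SU U H) (fun _ => a)) (PNa_st hSM (fun _ => haM))
  have hval : ∀ a ∈ HF, (a ∈ val G σ ↔ ∃ p ∈ G, FMem (SU U H) p (chk (SU U H) a) σ) := by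
    intro a ha
    have h1 := truth_mem hM hS hSM hg (hchk a ha) hσM
    rwa [val_chk htop] at h1
  refine ⟨v, W, PNa_E (PNa_P (SU U H) σ) w, hv, hveG, ⟨heW, ?_, ?_⟩, ?_⟩
  · intro t ht
    obtain ⟨q, hq, a, ha, rfl⟩ := ZFSet.mem_prod.1 (mem_sep.1 ht).1
    rw [fst_pair, snd_pair]
    exact ⟨rfl, mem_QP.2 (QQ_mono hvw (mem_QP.1 hq)), ha⟩
  · intro t ht c hc
    obtain ⟨q, hq, a, ha, rfl⟩ := ZFSet.mem_prod.1 (mem_sep.1 ht).1
    rw [fst_pair] at hc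
    exact hwc c (PNa_csup (mem_QP.1 hq) hc)
  · ext a
    rw [mem_ev]
    constructor
    · intro ha
      have haH : a ∈ HF := hx ha
      have haM := H_sub_M hG ((HF_sub_H hG).1 haH)
      obtain ⟨p₀, hp₀, hF₀⟩ := (hval a haH).1 ha
      have hwM := H_sub_M hG hwH
      have hD2 : ZFSet.sep (fun r => ∃ q' ∈ QP w,
          pair (pair w q') a ∈ PNa_D (SU U H) (PM U H m) (PNa_P (SU U H) σ) ∧
            Le (SU U H) r (pair w q')) (PU U H) ∈ M := by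
        have h : UF (fun _ v => ZFSet.sep (fun r => ∃ q' ∈ H83.PN.QP (v 2),
            ZFSet.pair (ZFSet.pair (v 2) q') (v 4) ∈ v 3 ∧
              H83.PN.Le (v 0) r (ZFSet.pair (v 2) q')) (v 1)) := by
          infer_instance
        exact h.mem M hM (cons (SU U H) (cons (PU U H) (cons w (cons _ (fun _ => a)))))
          (PNa_st hSM (PNa_st hPUM (PNa_st hwM (PNa_st hDM (fun _ => haM)))))
      obtain ⟨r, hr, -, hrG⟩ := gen_meet hM hS hSM hg hD2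
        (fun x hx => by rw [sP_SU]; exact (mem_sep.1 hx).1) hweG (by
          intro r hr hrw
          rw [sP_SU] at hr
          obtain ⟨-, -, hr3, hr4⟩ := Le_SU.1 hrw
          rw [fst_pair] at hr3 hr4
          obtain ⟨h1, -, h3⟩ := rsP_PU hG hU hr m hmM
          obtain ⟨-, -, hrv, -, -⟩ := mem_PU.1 hr
          have h4 : VLe (fst (rsP r m)) w := by
            have := rsV_mono hw hrv hr3 m
            rw [rsV_full hw hwc] at this
            rw [rsP, fst_pair]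
            exact this
          obtain ⟨q', hq', hq'D, t, ht, ht1, ht2, ht3⟩ :=
            hwF a haH (rsP r m) (PNa_mPM.2 ⟨h1, h3⟩) h4
          obtain ⟨htP, htc⟩ := PNa_mPM.1 ht
          obtain ⟨r', hr1, hr2, -⟩ := compat_rs hG hU hr (Le_SU.2 ⟨htP, h1, ht1, ht2⟩) htc
          refine ⟨r', mem_sep.2 ⟨(Le_SU.1 hr1).1, q', hq', hq'D, hS.trans hr2 ?_⟩, hr1⟩
          exact Le_SU.2 ⟨htP, hwP _ (mem_QP.1 hq'), by rw [fst_pair]; exact VLe_trans ht1 h4,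
            by rw [fst_pair, snd_pair]; exact ht3⟩)
      obtain ⟨-, q', hq', hq'D, hle⟩ := mem_sep.1 hr
      have hq'G : pair w q' ∈ G := hg.up r hrG _ (by rw [sP_SU]; exact hwP _ (mem_QP.1 hq')) hle
      refine ⟨q', ?_, PNa_mE.2 ⟨mem_QP.1 hq', haH, ?_⟩⟩
      · exact (Gq_mono hG hU hg hw hwH hveG hvw (mem_QP.1 hq')).1 hq'G
      · rcases (PNa_mD.1 hq'D).2.2 with h1 | h1
        · exact h1
        · exfalso
          obtain ⟨s, hs', hs1, hs2⟩ := hg.dir _ hp₀ _ hq'G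
          exact h1 s (hg.sub s hs') hs2 (PNa_mP.2 ⟨hg.sub s hs', haH, FMem_mono hS hs1 hF₀⟩)
    · rintro ⟨q, hqG, hqe⟩
      obtain ⟨hq, ha, hqD⟩ := PNa_mE.1 hqe
      exact (hval a ha).2 ⟨pair w q, hsub q hq hqG, (PNa_mP.1 hqD).2.2⟩

/-- conversely, the evaluations are in the symmetric extension and have support `m` -/
theorem ev_NN (hG : Gr M K H) {n : ℕ} {U : ZFSet.{0}} (hU : UOK M H n U) {G : Set ZFSet.{0}}
    (hg : Gen M (SU U H) G) {v e m : ZFSet.{0}} (hv : VV v) (hvH : v ∈ H) (hL : vL v ∈ dom U)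
    (hvG : pair v eQ ∈ G) (hm : m ∈ omega) (he : e ∈ M)
    (he' : ∀ t ∈ e, t = pair (fst t) (snd t) ∧ fst t ∈ QP v ∧ snd t ∈ HF)
    (hec : ∀ t ∈ e, ∀ c ∈ csup (fst t), fst c ∈ m) : ev (Gq v G) e ∈ NN M (SU U H) G := by
  have hM := hG.tm
  have hS := Sys_SU hG hU
  obtain ⟨hSM, -, -⟩ := SU_M hG hU
  have hmM : m ∈ M := hM.tr _ hM.omega m hm
  have hmH : m ∈ H := H_tr hG (HF_sub_H hG).2.2 hm
  obtain ⟨hr, hrL, hrS, -⟩ := VV_rsV hv m
  have hrH : rsV v m ∈ H :=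
    H_uf2 hG (F := fun x y => rsV x y) (Inst.rsV (hf := UF.var 0) (hg := UF.var 1)) hvH hmH
  have hrM := H_sub_M hG hrH
  have hle : VLe v (rsV v m) := VLe_rsV hv m
  -- the second parts are second parts over `rsV v m`
  have hQ : ∀ t ∈ e, QQ (rsV v m) (fst t) := by
    intro t ht
    have hq := mem_QP.1 (he' t ht).2.1
    have h1 := QQ_rsQ hv hq m
    have h2 : rsQ (fst t) m = fst t := by
      have e1 : ZFSet.sep (fun t => fst (fst (fst t)) ∈ m) (fst (fst t)) = fst (fst t) := by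
        ext z
        rw [mem_sep]
        refine ⟨fun h => h.1, fun h => ⟨h, hec t ht _ ?_⟩⟩
        rw [csup, ZFSet.mem_union, mem_img]
        exact Or.inl ⟨z, h, rfl⟩
      have e2 : ZFSet.sep (fun s => fst (fst s) ∈ m) (snd (fst t)) = snd (fst t) := by
        ext z
        rw [mem_sep]
        refine ⟨fun h => h.1, fun h => ⟨h, hec t ht _ ?_⟩⟩
        rw [csup, ZFSet.mem_union, mem_img, mem_img]
        exact Or.inr ⟨z, h, rfl⟩
      rw [rsQ, e1, e2]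
      exact hq.1.symm
    rwa [h2] at h1
  -- the name
  obtain ⟨E, hE⟩ : ∃ E, E = img (fun t => pair (pair (rsV v m) (fst t)) (snd t)) e := ⟨_, rfl⟩
  have hEM : E ∈ M := by
    have h : UF (fun _ v => H83.AC.img (fun t => ZFSet.pair (ZFSet.pair (v 0) (H83.AC.fst t))
        (H83.AC.snd t)) (v 1)) := by
      infer_instance
    rw [hE]
    exact h.mem M hM (cons (rsV v m) (fun _ => e)) (PNa_st hrM (fun _ => he))
  have hEm : ∀ p a, pair p a ∈ E ↔ ∃ q, pair q a ∈ e ∧ p = pair (rsV v m) q := by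
    intro p a
    rw [hE, mem_img]
    constructor
    · rintro ⟨t, ht, h1⟩
      obtain ⟨h2, h3⟩ := pair_injective h1
      exact ⟨fst t, by rw [← h3, ← (he' t ht).1]; exact ht, h2.symm⟩
    · rintro ⟨q, hq, rfl⟩
      exact ⟨pair q a, hq, by rw [fst_pair, snd_pair]⟩
  have hrU : vL (rsV v m) ∈ dom U := by rw [hrL]; exact hL
  have hEs : E ⊆ ZFSet.prod (sP (SU U H)) HF := by
    intro t ht
    rw [hE, mem_img] at ht
    obtain ⟨s, hs, rfl⟩ := ht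
    rw [ZFSet.pair_mem_prod, sP_SU]
    exact ⟨mk_PU hG hr hrH hrU (hQ s hs), (he' s hs).2.2⟩
  have hev : ev (Gq v G) e = ev G E := by
    ext a
    rw [mem_ev, mem_ev]
    have key : ∀ q, pair q a ∈ e → (q ∈ Gq (rsV v m) G ↔ q ∈ Gq v G) := by
      intro q hq
      have h1 := hQ _ hq
      rw [fst_pair] at h1
      exact Gq_mono hG hU hg hr hrH hvG hle h1
    constructor
    · rintro ⟨q, hqG, hq⟩
      exact ⟨pair (rsV v m) q, (key q hq).2 hqG, (hEm _ _).2 ⟨q, hq, rfl⟩⟩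
    · rintro ⟨p, hpG, hp⟩
      obtain ⟨q, hq, rfl⟩ := (hEm _ _).1 hp
      exact ⟨q, (key q hq).1 hpG, hq⟩
  rw [hev]
  refine ev_mem hM hS hSM hg hm hEM hEs ?_
  intro a ha p h hp
  obtain ⟨b, hbH, hb, hbc, hbm, rfl⟩ := (mem_sH hm).1 ha
  obtain ⟨q, hq, rfl⟩ := (hEm _ _).1 hp
  have hqQ := hQ _ hq
  rw [fst_pair] at hqQ
  have hap : ∀ c, fst c ∈ m → apc b c = c := by
    intro c hc
    rw [apc]
    split_ifs with h1
    · exact hbm c h1 hc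
    · rfl
  have h1 : acP b (pair (rsV v m) q) = pair (rsV v m) q := by
    rw [acP, fst_pair, snd_pair, acV_id hr (fun c hc => hap c ((hrS c).1 hc).2),
      acQ_id hqQ (fun c hc => hap c ((hrS c).1 (PNa_csup hqQ hc)).2)]
  rw [app_aut (mk_PU hG hr hrH hrU hqQ), h1]
  exact hp

end H83.PN
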