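import Pool.Agent.H83.PN.PBb

set_option autoImplicit false

/-!
# Module PSy: the symmetric system

`sO (SU U H) = OU U H`, `sP (SU U H) = PU U H` (`dom_OU`), the automorphisms are `aut U H a`, `a ∈ AG H`;
`app (aut U H a) p = acP a p` for `p ∈ PU U H`. Order: `IsPo_OU`. `autE`: `acP a eC = eC` (no coordinates). Inverse: `cnv a`,
composition: `cmp a b`. The subgroups: `AGm H m`, `m ∈ omega`. `normal`: for `a ∈ AG H`, `h ∈ AGm H m` let
`h' = cmp (cnv a) (cmp h a)`: for `c` with `fst c ∈ m`, `fst (apc a c) = fst c ∈ m` (`ColP_apc`), so `h` fixes `apc a c`, and `h'` fixes `c`.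
`SU_M`: `Inst.SU`.
-/

namespace H83.PN

open ZFSet H83.AC

variable {M : Set ZFSet.{0}} {K H : ZFSet.{0}}

private theorem PSy_O (U H : ZFSet.{0}) : sO (SU U H) = OU U H := by
  unfold sO SU
  rw [fst_pair]

private theorem PSy_E (U H : ZFSet.{0}) : sE (SU U H) = eC := by
  unfold sE SU
  rw [snd_pair, fst_pair]

private theorem PSy_vS (c : ZFSet.{0}) : c ∉ vS (fst eC) := by
  unfold vS eC
  rw [fst_pair, snd_pair, fst_pair]
  exact notMem_empty c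

private theorem PSy_cs (c : ZFSet.{0}) : c ∉ csup (snd eC) := by
  unfold csup eC
  rw [snd_pair, fst_pair, snd_pair]
  intro h
  rcases ZFSet.mem_union.1 h with h | h
  · obtain ⟨y, hy, _⟩ := mem_img.1 h
    exact notMem_empty y hy
  · obtain ⟨y, hy, _⟩ := mem_img.1 h
    exact notMem_empty y hy

private theorem PSy_m {A H : ZFSet.{0}} {a : ZFSet.{0}} {F : ZFSet.{0} → ZFSet.{0}}
    (hA : A = AG H) : a ∈ img F A ↔ ∃ b ∈ H, Bij b ∧ ColP b ∧ a = F b := by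
  subst hA
  rw [mem_img]
  unfold AG
  constructor
  · rintro ⟨b, hb, e⟩
    rw [mem_sep] at hb
    exact ⟨b, hb.1, hb.2.1, hb.2.2, e.symm⟩
  · rintro ⟨b, h1, h2, h3, e⟩
    exact ⟨b, mem_sep.2 ⟨h1, h2, h3⟩, e.symm⟩

private theorem PSy_P {a p : ZFSet.{0}} : fst (acP a p) = acV a (fst p) ∧
    snd (acP a p) = acQ a (snd p) := by
  unfold acP
  rw [fst_pair, snd_pair]
  exact ⟨rfl, rfl⟩

private theorem PSy_id {U H a p : ZFSet.{0}} (hp : p ∈ PU U H) (h : ∀ c, c ∈ vS (fst p) →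
    apc a c = c) (h' : ∀ c, c ∈ csup (snd p) → apc a c = c) : acP a p = p := by
  obtain ⟨-, h2, h3, -, h5⟩ := mem_PU.1 hp
  unfold acP
  rw [acV_id h3 h, acQ_id h5 h', ← h2]

private theorem PSy_cmp {U H a b p : ZFSet.{0}} (ha : Bij a) (hb : Bij b) (hp : p ∈ PU U H) :
    acP a (acP b p) = acP (cmp a b) p := by
  obtain ⟨-, h2, h3, -, h5⟩ := mem_PU.1 hp
  have h6 := PSy_P (a := b) (p := p)
  unfold acP at h6 ⊢
  rw [h6.1, h6.2, acV_cmp ha hb h3, acQ_cmp ha hb h5]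

private theorem PSy_cnv {U H a p : ZFSet.{0}} (ha : Bij a) (hp : p ∈ PU U H) :
    acP (cnv a) (acP a p) = p ∧ acP a (acP (cnv a) p) = p := by
  obtain ⟨-, h2, h3, -, h5⟩ := mem_PU.1 hp
  have h6 := PSy_P (a := a) (p := p)
  have h7 := PSy_P (a := cnv a) (p := p)
  unfold acP at h6 h7 ⊢
  rw [h6.1, h6.2, h7.1, h7.2, (acV_cnv ha h3).1, (acQ_cnv ha h5).1, (acV_cnv ha h3).2,
    (acQ_cnv ha h5).2, ← h2]
  exact ⟨rfl, rfl⟩

private theorem PSy_cH (hG : Gr M K H) {a : ZFSet.{0}} (ha : a ∈ H) : cnv a ∈ H :=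
  H_uf1 hG (F := fun a => cnv a) (by infer_instance) ha

private theorem PSy_dH (hG : Gr M K H) {a b : ZFSet.{0}} (ha : a ∈ H) (hb : b ∈ H) :
    cmp a b ∈ H :=
  H_uf2 hG (F := fun a b => cmp a b) (by infer_instance) ha hb

private theorem PSy_in {a c : ZFSet.{0}} (h : c ∈ dom a) : apc a c = app a c := by
  unfold apc
  rw [if_pos h]

private theorem PSy_fix {h m c : ZFSet.{0}} (hh : ∀ c ∈ dom h, fst c ∈ m → app h c = c)
    (hc : fst c ∈ m) : apc h c = c := by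
  by_cases h1 : c ∈ dom h
  · rw [PSy_in h1, hh c h1 hc]
  · unfold apc
    rw [if_neg h1]

private theorem PSy_M2 (hG : Gr M K H) {F : ZFSet.{0} → ZFSet.{0} → ZFSet.{0}}
    (hF : UF (fun _ v => F (v 0) (v 1))) {x y : ZFSet.{0}} (hx : x ∈ M) (hy : y ∈ M) :
    F x y ∈ M := by
  have h := hF.mem M hG.tm (cons x (cons y fun _ => x)) fun i => by
    cases i with
    | zero => exact hx
    | succ i =>
      cases i with
      | zero => exact hy
      | succ i => exact hx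
  exact h

private theorem PSy_uS : UF (fun _ v => SU (v 0) (v 1)) :=
  Inst.SU (hf := UF.var 0) (hg := UF.var 1)

private theorem PSy_uP : UF (fun _ v => PU (v 0) (v 1)) :=
  Inst.PU (hf := UF.var 0) (hg := UF.var 1)

private theorem PSy_uO : UF (fun _ v => OU (v 0) (v 1)) :=
  Inst.OU (hf := UF.var 0) (hg := UF.var 1)

theorem sP_SU (U H : ZFSet.{0}) : sP (SU U H) = PU U H := by
  unfold sP
  rw [PSy_O, dom_OU]

theorem Le_SU {U H p p' : ZFSet.{0}} : Le (SU U H) p' p ↔ p' ∈ PU U H ∧ p ∈ PU U H ∧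
    VLe (fst p') (fst p) ∧ QLe U (fst p) (snd p') (snd p) := by
  unfold Le
  rw [PSy_O]
  exact mem_OU

theorem mem_sA {U H a : ZFSet.{0}} : a ∈ sA (SU U H) ↔ ∃ b ∈ H, Bij b ∧ ColP b ∧ a = aut U H b := by
  have e : sA (SU U H) = img (fun a => aut U H a) (AG H) := by
    unfold sA SU
    rw [snd_pair, snd_pair, fst_pair]
  rw [e]
  exact PSy_m rfl

theorem mem_sH {U H a m : ZFSet.{0}} (hm : m ∈ omega) : a ∈ app (sH (SU U H)) m ↔
    ∃ b ∈ H, Bij b ∧ ColP b ∧ (∀ c ∈ dom b, fst c ∈ m → app b c = c) ∧ a = aut U H b := by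
  have e : app (sH (SU U H)) m = img (fun a => aut U H a) (AGm H m) := by
    unfold sH SU
    rw [snd_pair, snd_pair, snd_pair, app_fgr hm]
  rw [e, mem_img]
  unfold AGm AG
  constructor
  · rintro ⟨b, hb, e⟩
    rw [mem_sep, mem_sep] at hb
    exact ⟨b, hb.1.1, hb.1.2.1, hb.1.2.2, hb.2, e.symm⟩
  · rintro ⟨b, h1, h2, h3, h4, e⟩
    exact ⟨b, mem_sep.2 ⟨mem_sep.2 ⟨h1, h2, h3⟩, h4⟩, e.symm⟩

theorem app_aut {U H b p : ZFSet.{0}} (hp : p ∈ PU U H) : app (aut U H b) p = acP b p := by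
  unfold aut
  exact app_fgr hp

theorem Sys_SU (hG : Gr M K H) {n : ℕ} {U : ZFSet.{0}} (hU : UOK M H n U) : Sys (SU U H) := by
  have hPo := IsPo_OU hG hU
  have hP : sP (SU U H) = PU U H := sP_SU U H
  have hac : ∀ b ∈ H, Bij b → ∀ p ∈ PU U H, acP b p ∈ PU U H := fun b hb hb' p hp =>
    acP_PU hG hU hb hb' hp
  have hev : ∀ b, ∀ p ∈ PU U H, app (aut U H b) p = acP b p := fun b p hp => app_aut hp
  refine
    { ord := ?_, refl := ?_, trans := ?_, topP := ?_, top := ?_, autF := ?_, autLe := ?_,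
      autE := ?_, one := ?_, inv := ?_, comp := ?_, subH := ?_, decr := ?_, invH := ?_,
      normal := ?_ }
  · intro t ht
    rw [PSy_O] at ht
    rw [hP]
    unfold OU at ht
    rw [mem_sep, ZFSet.mem_prod] at ht
    obtain ⟨⟨q, hq, p, hp, e⟩, -⟩ := ht
    exact ⟨q, hq, p, hp, e⟩
  · intro p hp
    rw [hP] at hp
    exact Le_SU.2 ⟨hp, hp, VLe_refl _, QLe_refl _ _ _⟩
  · intro p q r h1 h2
    obtain ⟨a1, a2, a3, a4⟩ := Le_SU.1 h1
    obtain ⟨b1, b2, b3, b4⟩ := Le_SU.1 h2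
    obtain ⟨-, -, -, -, hq⟩ := mem_PU.1 b2
    exact Le_SU.2 ⟨a1, b2, VLe_trans a3 b3, QLe_trans b3 hq a4 b4⟩
  · unfold sP
    rw [PSy_O, PSy_E]
    exact hPo.topP
  · intro p hp
    unfold sP at hp
    rw [PSy_O] at hp
    unfold Le
    rw [PSy_O, PSy_E]
    exact hPo.top p hp
  · intro a ha
    obtain ⟨b, h1, h2, h3, rfl⟩ := mem_sA.1 ha
    rw [hP]
    unfold aut
    exact fn_fgr fun p hp => hac b h1 h2 p hp
  · intro a ha p q h
    obtain ⟨b, h1, h2, h3, rfl⟩ := mem_sA.1 ha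
    obtain ⟨a1, a2, a3, a4⟩ := Le_SU.1 h
    rw [hev b p a1, hev b q a2]
    obtain ⟨-, -, hv, -, hq⟩ := mem_PU.1 a1
    obtain ⟨-, -, hv', -, hq'⟩ := mem_PU.1 a2
    refine Le_SU.2 ⟨hac b h1 h2 p a1, hac b h1 h2 q a2, ?_, ?_⟩
    · rw [PSy_P.1, PSy_P.1]
      exact VLe_acV h2 h3 hv' hv a3
    · rw [PSy_P.1, PSy_P.2, PSy_P.2]
      exact QLe_acQ h2 hv' hq' a4
  · intro a ha
    obtain ⟨b, h1, h2, h3, rfl⟩ := mem_sA.1 ha
    have heC : eC ∈ PU U H := by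
      have h4 := hPo.topP
      rw [dom_OU] at h4
      exact h4
    rw [PSy_E, hev b eC heC]
    exact PSy_id heC (fun c hc => absurd hc (PSy_vS c)) fun c hc => absurd hc (PSy_cs c)
  · obtain ⟨e1, e2, e3⟩ := Bij_empty
    refine ⟨aut U H ∅, mem_sA.2 ⟨∅, ?_, e1, e2, rfl⟩, ?_⟩
    · exact (HF_sub_H hG).1 HF_empty
    · intro p hp
      rw [hP] at hp
      rw [hev ∅ p hp]
      exact PSy_id hp (fun c _ => e3 c) fun c _ => e3 c
  · intro a ha
    obtain ⟨b, h1, h2, h3, rfl⟩ := mem_sA.1 ha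
    have hc := Bij_cnv h2
    refine ⟨aut U H (cnv b), mem_sA.2 ⟨_, PSy_cH hG h1, hc.1, ColP_cnv h2 h3, rfl⟩, ?_⟩
    intro p hp
    rw [hP] at hp
    rw [hev b p hp, hev (cnv b) p hp, hev _ _ (hac b h1 h2 p hp),
      hev _ _ (hac (cnv b) (PSy_cH hG h1) hc.1 p hp)]
    exact PSy_cnv h2 hp
  · intro a ha a' ha'
    obtain ⟨b, h1, h2, h3, rfl⟩ := mem_sA.1 ha
    obtain ⟨b', h1', h2', h3', rfl⟩ := mem_sA.1 ha'
    have hc := Bij_cmp h2 h2'
    refine ⟨aut U H (cmp b b'), mem_sA.2 ⟨_, PSy_dH hG h1 h1', hc.1,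
      ColP_cmp h2 h2' h3 h3', rfl⟩, ?_⟩
    intro p hp
    rw [hP] at hp
    rw [hev b' p hp, hev _ _ (hac b' h1' h2' p hp), hev _ p hp]
    exact (PSy_cmp h2 h2' hp).symm
  · intro m hm a ha
    obtain ⟨b, h1, h2, h3, -, rfl⟩ := (mem_sH hm).1 ha
    exact mem_sA.2 ⟨b, h1, h2, h3, rfl⟩
  · intro m hm k hk a ha
    obtain ⟨b, h1, h2, h3, h4, rfl⟩ := (mem_sH hm).1 ha
    obtain ⟨i, rfl⟩ := mem_omega.1 hm
    obtain ⟨j, hj, rfl⟩ := mem_nz.1 hk
    refine (mem_sH (nz_mem_omega j)).2 ⟨b, h1, h2, h3, fun c hc hcj => h4 c hc ?_, rfl⟩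
    obtain ⟨l, hl, e⟩ := mem_nz.1 hcj
    rw [e]
    exact nz_mem_nz.2 (by omega)
  · intro m hm a ha
    obtain ⟨b, h1, h2, h3, h4, rfl⟩ := (mem_sH hm).1 ha
    have hc := Bij_cnv h2
    refine ⟨aut U H (cnv b), (mem_sH hm).2 ⟨_, PSy_cH hG h1, hc.1, ColP_cnv h2 h3, ?_, rfl⟩, ?_⟩
    · intro c hcd hcm
      have e1 : apc b c = c := PSy_fix h4 hcm
      have e2 := hc.2.2.1 c
      rw [e1, PSy_in hcd] at e2
      exact e2
    · intro p hp
      rw [hP] at hp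
      rw [hev b p hp, hev (cnv b) p hp, hev _ _ (hac b h1 h2 p hp),
        hev _ _ (hac (cnv b) (PSy_cH hG h1) hc.1 p hp)]
      exact PSy_cnv h2 hp
  · intro m hm a ha h hh
    obtain ⟨b, h1, h2, h3, rfl⟩ := mem_sA.1 ha
    obtain ⟨d, g1, g2, g3, g4, rfl⟩ := (mem_sH hm).1 hh
    have hc := Bij_cnv h2
    have hdb := Bij_cmp g2 h2
    have hz := Bij_cmp hc.1 hdb.1
    have hdbH := PSy_dH hG g1 h1
    have hzH := PSy_dH hG (PSy_cH hG h1) hdbH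
    refine ⟨aut U H (cmp (cnv b) (cmp d b)), (mem_sH hm).2 ⟨_, hzH, hz.1,
      ColP_cmp hc.1 hdb.1 (ColP_cnv h2 h3) (ColP_cmp g2 h2 g3 h3), ?_, rfl⟩, ?_⟩
    · intro c hcd hcm
      rw [← PSy_in hcd, hz.2.2 c, hdb.2.2 c]
      have e1 : fst (apc b c) ∈ m := by
        rw [ColP_apc h3]
        exact hcm
      rw [PSy_fix g4 e1]
      exact hc.2.2.1 c
    · intro p hp
      rw [hP] at hp
      rw [hev b p hp, hev _ _ (hac b h1 h2 p hp), hev _ p hp, hev _ _ (hac _ hzH hz.1 p hp),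
        PSy_cmp g2 h2 hp, ← PSy_cmp hc.1 hdb.1 hp]
      exact (PSy_cnv h2 (hac _ hdbH hdb.1 p hp)).2.symm

theorem SU_M (hG : Gr M K H) {n : ℕ} {U : ZFSet.{0}} (hU : UOK M H n U) :
    SU U H ∈ M ∧ PU U H ∈ M ∧ OU U H ∈ M := by
  have hH := H_M hG
  refine ⟨?_, ?_, ?_⟩
  · exact PSy_M2 hG (F := fun x y => SU x y) PSy_uS hU.mem hH
  · exact PSy_M2 hG (F := fun x y => PU x y) PSy_uP hU.mem hH
  · exact PSy_M2 hG (F := fun x y => OU x y) PSy_uO hU.mem hH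

theorem sE_SU (U H : ZFSet.{0}) : sE (SU U H) = eC := by
  unfold sE SU
  rw [snd_pair, fst_pair]

end H83.PN
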