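import Pool.Agent.H83.PN.CUU
import Pool.Agent.H83.PN.CCn
import Pool.Agent.H83.PN.GTriv

set_option autoImplicit false

/-!
# Module PVa: the orders of the first and second parts

All statements are elementary; `u, v` are as in `Defs`. `VLe_trans`: for `c ∈ vS v` and `γ ∈ vL v''`, `γ ∉ vL v`
distinguish `γ ∈ vL v'` (then the values of `v''` and `v'` agree) and `γ ∉ vL v'`. `rl_u`: `snd s ∈ vL v ⊆ dom u` and
`UU_sub`. `QLe_trans`: let `t ∈ fst q''`, `t ∉ fst q`; distinguish `t ∈ fst q'` and `t ∉ fst q'`; `rl_mono`. `rl_real`: `UU`, `Blk`.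
`QLe_join` is the union of two conditions.
-/

namespace H83.PN

open ZFSet H83.AC

variable {M : Set ZFSet.{0}} {K H : ZFSet.{0}}

private theorem PVa_prod {a b s : ZFSet.{0}} (h : s ∈ ZFSet.prod a b) :
    s = pair (fst s) (snd s) ∧ fst s ∈ a ∧ snd s ∈ b := by
  obtain ⟨x, hx, y, hy, rfl⟩ := ZFSet.mem_prod.1 h
  rw [fst_pair, snd_pair]
  exact ⟨rfl, hx, hy⟩

private theorem PVa_pp {a b a' b' s : ZFSet.{0}} (h : s ∈ ZFSet.prod a b) (ha : a ⊆ a')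
    (hb : b ⊆ b') : s ∈ ZFSet.prod a' b' := by
  obtain ⟨x, hx, y, hy, rfl⟩ := ZFSet.mem_prod.1 h
  exact ZFSet.mem_prod.2 ⟨x, ha hx, y, hb hy, rfl⟩

private theorem PVa_mk {a b x y : ZFSet.{0}} (hx : x ∈ a) (hy : y ∈ b) :
    pair x y ∈ ZFSet.prod a b := ZFSet.mem_prod.2 ⟨x, hx, y, hy, rfl⟩

private theorem PVa_sq {v q s : ZFSet.{0}} (hq : QQ v q) (hs : s ∈ snd q) :
    s ∈ ZFSet.prod (vS v) (vL v) := (mem_Fs.1 hq.2.2).1 hs

theorem VLe_refl (v : ZFSet.{0}) : VLe v v := by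
  exact ⟨fun _ h => h, fun _ h => h, fun _ _ => rfl, fun _ _ _ h h' => absurd h h',
    fun _ _ _ _ _ _ h h' => absurd h h'⟩

theorem VLe_trans {v v' v'' : ZFSet.{0}} (h : VLe v'' v') (h' : VLe v' v) : VLe v'' v := by
  obtain ⟨a1, a2, a3, a4, a5⟩ := h
  obtain ⟨b1, b2, b3, b4, b5⟩ := h'
  refine ⟨fun _ hx => a1 (b1 hx), fun _ hx => a2 (b2 hx), fun s hs => ?_, fun c hc γ hg hn => ?_,
    fun c hc c' hc' hne γ hg hn => ?_⟩
  · rw [a3 s (PVa_pp hs b2 b1), b3 s hs]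
  · by_cases hg' : γ ∈ vL v'
    · rw [a3 _ (PVa_mk (b2 hc) hg')]
      exact b4 c hc γ hg' hn
    · exact a4 c (b2 hc) γ hg hg'
  · by_cases hg' : γ ∈ vL v'
    · rw [a3 _ (PVa_mk (b2 hc) hg'), a3 _ (PVa_mk (b2 hc') hg')]
      exact b5 c hc c' hc' hne γ hg' hn
    · exact a5 c (b2 hc) c' (b2 hc') hne γ hg hg'

theorem QQ_mono {v v' q : ZFSet.{0}} (h : VLe v' v) (hq : QQ v q) : QQ v' q := by
  refine ⟨hq.1, Cn_mono h.2.1 hq.2.1, ?_⟩
  obtain ⟨h1, h2⟩ := mem_Fs.1 hq.2.2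
  exact mem_Fs.2 ⟨fun _ hx => PVa_pp (h1 hx) h.2.1 h.1, h2⟩

theorem rl_mono {u v v' s : ZFSet.{0}} (h : VLe v' v) (hs : s ∈ ZFSet.prod (vS v) (vL v)) :
    rl u v' s = rl u v s := by
  unfold rl
  rw [h.2.2.1 s hs]

theorem rl_u {A u u' v s : ZFSet.{0}} (h : UU A u) (h' : UU A u') (hs : u ⊆ u')
    (hd : vL v ⊆ dom u) (hs' : s ∈ ZFSet.prod (vS v) (vL v)) : rl u' v s = rl u v s := by
  have hg : snd s ∈ dom u := hd (PVa_prod hs').2.2
  unfold rl uF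
  rw [(UU_sub h h' hs).2.1 _ hg]

theorem rl_real {A u v s : ZFSet.{0}} (h : UU A u) (hv : VV v) (hd : vL v ⊆ dom u)
    (hs : s ∈ ZFSet.prod (vS v) (vL v)) : IsFunc omega omega (rl u v s) := by
  obtain ⟨W', -, -, hB⟩ := h.2.2.2 _ (hd (PVa_prod hs).2.2)
  exact (hB.2.1 _ (hv.2.2.2.2 s hs)).1

theorem QLe_refl (u v q : ZFSet.{0}) : QLe u v q q := by
  exact ⟨fun _ h => h, fun _ h => h, fun _ h h' => absurd h h'⟩

theorem QLe_v {u v v' q q' : ZFSet.{0}} (h : VLe v' v) (hq : QQ v q) :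
    QLe u v' q' q ↔ QLe u v q' q := by
  unfold QLe
  refine and_congr_right fun _ => and_congr_right fun _ => ?_
  constructor
  · intro k t ht hn s hs e
    rw [← rl_mono h (PVa_sq hq hs)]
    exact k t ht hn s hs e
  · intro k t ht hn s hs e
    rw [rl_mono h (PVa_sq hq hs)]
    exact k t ht hn s hs e

theorem QLe_u {A u u' v q q' : ZFSet.{0}} (h : UU A u) (h' : UU A u') (hs : u ⊆ u')
    (hd : vL v ⊆ dom u) (hq : QQ v q) : QLe u' v q' q ↔ QLe u v q' q := by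
  unfold QLe
  refine and_congr_right fun _ => and_congr_right fun _ => ?_
  constructor
  · intro k t ht hn s hs' e
    rw [← rl_u h h' hs hd (PVa_sq hq hs')]
    exact k t ht hn s hs' e
  · intro k t ht hn s hs' e
    rw [rl_u h h' hs hd (PVa_sq hq hs')]
    exact k t ht hn s hs' e

theorem QLe_trans {u v v' q q' q'' : ZFSet.{0}} (h : VLe v' v) (hq : QQ v q)
    (h1 : QLe u v' q'' q') (h2 : QLe u v q' q) : QLe u v q'' q := by
  obtain ⟨a1, a2, a3⟩ := h1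
  obtain ⟨b1, b2, b3⟩ := h2
  refine ⟨fun _ hx => a1 (b1 hx), fun _ hx => a2 (b2 hx), fun t ht hn s hs e => ?_⟩
  by_cases ht' : t ∈ fst q'
  · exact b3 t ht' hn s hs e
  · rw [← rl_mono h (PVa_sq hq hs)]
    exact a3 t ht ht' s (b2 hs) e

theorem QLe_join {u v q q' : ZFSet.{0}} (hq : QQ v q) (hq' : QQ v q')
    (hf : ∀ t ∈ fst q, ∀ t' ∈ fst q', fst t = fst t' → t = t')
    (h1 : ∀ t ∈ fst q', t ∉ fst q → ∀ s ∈ snd q, fst s = fst (fst t) →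
      pair (snd (fst t)) (snd t) ∉ rl u v s)
    (h2 : ∀ t ∈ fst q, t ∉ fst q' → ∀ s ∈ snd q', fst s = fst (fst t) →
      pair (snd (fst t)) (snd t) ∉ rl u v s) :
    QQ v (pair (fst q ∪ fst q') (snd q ∪ snd q')) ∧
      QLe u v (pair (fst q ∪ fst q') (snd q ∪ snd q')) q ∧
      QLe u v (pair (fst q ∪ fst q') (snd q ∪ snd q')) q' := by
  refine ⟨⟨?_, ?_, ?_⟩, ⟨?_, ?_, ?_⟩, ⟨?_, ?_, ?_⟩⟩
  · rw [fst_pair, snd_pair]
  · rw [fst_pair]
    exact Cn_union hq.2.1 hq'.2.1 hf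
  · rw [snd_pair]
    obtain ⟨c1, c2⟩ := mem_Fs.1 hq.2.2
    obtain ⟨d1, d2⟩ := mem_Fs.1 hq'.2.2
    refine mem_Fs.2 ⟨fun x hx => ?_, Fnt_union c2 d2⟩
    rcases mem_union.1 hx with hx | hx
    · exact c1 hx
    · exact d1 hx
  · rw [fst_pair]
    exact fun x hx => mem_union.2 (Or.inl hx)
  · rw [snd_pair]
    exact fun x hx => mem_union.2 (Or.inl hx)
  · rw [fst_pair]
    intro t ht hn s hs e
    rcases mem_union.1 ht with ht | ht
    · exact absurd ht hn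
    · exact h1 t ht hn s hs e
  · rw [fst_pair]
    exact fun x hx => mem_union.2 (Or.inr hx)
  · rw [snd_pair]
    exact fun x hx => mem_union.2 (Or.inr hx)
  · rw [fst_pair]
    intro t ht hn s hs e
    rcases mem_union.1 ht with ht | ht
    · exact h2 t ht hn s hs e
    · exact absurd ht hn

theorem QQ_elt {v q : ZFSet.{0}} (h : QQ v q) : (∀ t ∈ fst q,
    t = pair (pair (fst (fst t)) (snd (fst t))) (snd t) ∧ fst (fst t) ∈ vS v ∧
      snd (fst t) ∈ omega ∧ snd t ∈ omega) ∧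
    (∀ s ∈ snd q, s = pair (fst s) (snd s) ∧ fst s ∈ vS v ∧ snd s ∈ vL v) := by
  refine ⟨fun t ht => Cn_elt h.2.1 ht, fun s hs => PVa_prod (PVa_sq h hs)⟩

theorem RLe_refl (r : ZFSet.{0}) : RLe r r := by
  exact ⟨fun _ h => h, VLe_refl _, QLe_refl _ _ _⟩

theorem RLe_trans {A r r' r'' W W' : ZFSet.{0}} (h : Gd A r W) (h' : Gd A r' W')
    (hu : UU A (rU r'')) (h1 : RLe r'' r') (h2 : RLe r' r) : RLe r'' r := by
  obtain ⟨a1, a2, a3⟩ := h1
  obtain ⟨b1, b2, b3⟩ := h2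
  have u1 : UU A (rU r) := h.2.2.2.1
  have u2 : UU A (rU r') := h'.2.2.2.1
  have e1 : dom (rU r) = vL (rV r) := h.2.2.2.2.2.1
  have q1 : QQ (rV r) (rQ r) := h.2.2.2.2.2.2.1
  refine ⟨fun _ hx => a1 (b1 hx), VLe_trans a2 b2, QLe_trans b2 q1 a3 ?_⟩
  exact (QLe_u u2 hu a1 (e1 ▸ (UU_sub u1 u2 b1).1) q1).2 b3

theorem QQ_empty (v : ZFSet.{0}) : QQ v eQ := by
  unfold eQ
  refine ⟨?_, ?_, ?_⟩
  · rw [fst_pair, snd_pair]
  · rw [fst_pair]
    exact Cn_empty _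
  · rw [snd_pair]
    exact mem_Fs.2 ⟨fun x hx => absurd hx (ZFSet.notMem_empty x), Fnt_empty⟩

theorem QLe_empty (u v q : ZFSet.{0}) (hq : QQ v q) : QLe u v q eQ := by
  unfold eQ
  refine ⟨?_, ?_, ?_⟩
  · rw [fst_pair]
    exact fun x hx => absurd hx (ZFSet.notMem_empty x)
  · rw [snd_pair]
    exact fun x hx => absurd hx (ZFSet.notMem_empty x)
  · intro t ht hn s hs e
    rw [snd_pair] at hs
    exact absurd hs (ZFSet.notMem_empty s)

end H83.PN
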