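import Pool.Agent.H83.PN.PVb

set_option autoImplicit false

/-!
# Module PVd: limits of sequences of first parts

By induction the sequence is decreasing: `VLe (app p (nz j)) (app p (nz i))` for `i ≤ j` (`VLe_trans`). The three parts of the
limit are unions. `vf` of the limit is a function on `prod (⋃ vS) (⋃ vL)`: for `c ∈ vS (p i)`, `γ ∈ vL (p j)` use the larger
index; the values agree. For `γ` in the union which is not in `vL (p i)`: `γ ∈ vL (p j)` with `j > i`, and clauses 4, 5 of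
`VLe (p j) (p i)`. In `H`: countable (`Ctb_sU`, `H_ctb`).
-/

namespace H83.PN

open ZFSet H83.AC

variable {f g h k l : Set ZFSet.{0} → (ℕ → ZFSet.{0}) → ZFSet.{0}}
variable {M : Set ZFSet.{0}} {K H : ZFSet.{0}}

/-- the limit -/
noncomputable def limV (p : ZFSet.{0}) : ZFSet.{0} :=
  pair (uni (fun i => vL (app p i)) omega) (pair (uni (fun i => vS (app p i)) omega)
    (uni (fun i => vf (app p i)) omega))

instance Inst.limV [hf : UF f] : UF (fun N v => H83.PN.limV (f N v)) := by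
  unfold H83.PN.limV; infer_instance

private theorem PVd_chain {p : ZFSet.{0}} (hl : ∀ i ∈ omega, VLe (app p (sc i)) (app p i))
    {i j : ℕ} (hij : i ≤ j) : VLe (app p (nz j)) (app p (nz i)) := by
  induction j, hij using Nat.le_induction with
  | base => exact VLe_refl _
  | succ j _ ih => exact VLe_trans (hl (nz j) (nz_mem_omega j)) ih

private theorem PVd_rkU {g : ZFSet.{0} → ZFSet.{0}} {a : ZFSet.{0}}
    (h : ∀ i ∈ a, rk (g i) = g i) : rk (uni g a) = uni g a := by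
  have h1 : ∀ y ∈ uni g a, rk y = y := by
    intro y hy
    obtain ⟨i, hi, hy'⟩ := mem_uni.1 hy
    rw [← h i hi] at hy'
    exact rk_of_mem_rk hy'
  ext z
  rw [rk_eq, mem_uni]
  constructor
  · rintro ⟨y, hy, hz⟩
    rw [h1 y hy, ZFSet.mem_insert_iff] at hz
    rcases hz with rfl | hz
    · exact hy
    · obtain ⟨i, hi, hy'⟩ := mem_uni.1 hy
      refine mem_uni.2 ⟨i, hi, ?_⟩
      rw [← h i hi, rk_eq, mem_uni]
      refine ⟨y, hy', ?_⟩
      rw [h1 y hy, ZFSet.mem_insert_iff]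
      exact Or.inr hz
  · intro hz
    refine ⟨z, hz, ?_⟩
    rw [h1 z hz, ZFSet.mem_insert_iff]
    exact Or.inl rfl

private theorem PVd_H (hG : Gr M K H) {g : ZFSet.{0} → ZFSet.{0}}
    (h1 : img g omega ∈ M) (h2 : Ctb M (img g omega)) (h3 : ∀ i ∈ omega, g i ∈ H) :
    uni g omega ∈ H := by
  have h4 : ∀ x ∈ img g omega, x ∈ H := by
    intro x hx
    obtain ⟨i, hi, rfl⟩ := mem_img.1 hx
    exact h3 i hi
  refine H_ctb hG (hG.tm.sUnion h1) (Ctb_sU hG.tm hG.vl h1 h2 fun x hx => H_ct hG (h4 x hx)) ?_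
  intro y hy
  obtain ⟨x, hx, hyx⟩ := ZFSet.mem_sUnion.1 hy
  exact H_tr hG (h4 x hx) hyx

private theorem PVd_prod {s S L : ZFSet.{0}} : s ∈ ZFSet.prod S L ↔
    ∃ c γ, s = pair c γ ∧ c ∈ S ∧ γ ∈ L := by
  rw [ZFSet.mem_prod]
  constructor
  · rintro ⟨c, hc, γ, hγ, rfl⟩
    exact ⟨c, γ, rfl, hc, hγ⟩
  · rintro ⟨c, γ, rfl, hc, hγ⟩
    exact ⟨c, hc, γ, hγ, rfl⟩

theorem limV_ok (hG : Gr M K H) {p : ZFSet.{0}} (hp : p ∈ M)
    (h : ∀ i ∈ omega, VV (app p i) ∧ app p i ∈ H)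
    (hl : ∀ i ∈ omega, VLe (app p (sc i)) (app p i)) :
    VV (limV p) ∧ limV p ∈ H ∧ (∀ i ∈ omega, VLe (limV p) (app p i)) ∧
      (∀ c, c ∈ vS (limV p) ↔ ∃ i ∈ omega, c ∈ vS (app p i)) ∧
      (∀ γ, γ ∈ vL (limV p) ↔ ∃ i ∈ omega, γ ∈ vL (app p i)) := by
  have hvL : vL (limV p) = uni (fun i => vL (app p i)) omega := by
    unfold limV
    rw [vL, fst_pair]
  have hvS : vS (limV p) = uni (fun i => vS (app p i)) omega := by
    unfold limV
    rw [vS, snd_pair, fst_pair]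
  have hvf : vf (limV p) = uni (fun i => vf (app p i)) omega := by
    unfold limV
    rw [vf, snd_pair, snd_pair]
  have hch : ∀ {i j : ℕ}, i ≤ j → VLe (app p (nz j)) (app p (nz i)) :=
    fun hij => PVd_chain hl hij
  have hV : ∀ n : ℕ, VV (app p (nz n)) := fun n => (h _ (nz_mem_omega n)).1
  have hmS : ∀ c, c ∈ vS (limV p) ↔ ∃ i ∈ omega, c ∈ vS (app p i) := fun c => by
    rw [hvS, mem_uni]
  have hmL : ∀ γ, γ ∈ vL (limV p) ↔ ∃ i ∈ omega, γ ∈ vL (app p i) := fun γ => by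
    rw [hvL, mem_uni]
  -- the values
  have hpf : ∀ (n : ℕ) (s z : ZFSet.{0}), pair s z ∈ vf (app p (nz n)) ↔
      s ∈ ZFSet.prod (vS (app p (nz n))) (vL (app p (nz n))) ∧ z = app (vf (app p (nz n))) s := by
    intro n s z
    obtain ⟨-, -, -, h4, -⟩ := hV n
    conv_lhs => rw [h4]
    exact pair_mem_fgr
  have hval : ∀ (n : ℕ) (s : ZFSet.{0}),
      s ∈ ZFSet.prod (vS (app p (nz n))) (vL (app p (nz n))) →
      app (vf (limV p)) s = app (vf (app p (nz n))) s := by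
    intro n s hs
    refine app_eq ?_ ?_
    · rw [hvf, mem_uni]
      exact ⟨nz n, nz_mem_omega n, (hpf n s _).2 ⟨hs, rfl⟩⟩
    · intro z hz
      rw [hvf, mem_uni] at hz
      obtain ⟨i, hi, hz⟩ := hz
      obtain ⟨m, rfl⟩ := mem_omega.1 hi
      obtain ⟨hs', rfl⟩ := (hpf m s z).1 hz
      rw [← (hch (le_max_left m n)).2.2.1 s hs', ← (hch (le_max_right m n)).2.2.1 s hs]
  have hdom : ∀ s, s ∈ ZFSet.prod (vS (limV p)) (vL (limV p)) →
      ∃ n : ℕ, s ∈ ZFSet.prod (vS (app p (nz n))) (vL (app p (nz n))) := by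
    intro s hs
    obtain ⟨c, γ, rfl, hc, hγ⟩ := PVd_prod.1 hs
    obtain ⟨i, hi, hc⟩ := (hmS c).1 hc
    obtain ⟨j, hj, hγ⟩ := (hmL γ).1 hγ
    obtain ⟨m, rfl⟩ := mem_omega.1 hi
    obtain ⟨n, rfl⟩ := mem_omega.1 hj
    refine ⟨max m n, PVd_prod.2 ⟨c, γ, rfl, ?_, ?_⟩⟩
    · exact (hch (le_max_left m n)).2.1 hc
    · exact (hch (le_max_right m n)).1 hγ
  have hsub : ∀ (n : ℕ) (s : ZFSet.{0}),
      s ∈ ZFSet.prod (vS (app p (nz n))) (vL (app p (nz n))) →
      s ∈ ZFSet.prod (vS (limV p)) (vL (limV p)) := by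
    intro n s hs
    obtain ⟨c, γ, rfl, hc, hγ⟩ := PVd_prod.1 hs
    exact PVd_prod.2 ⟨c, γ, rfl, (hmS c).2 ⟨_, nz_mem_omega n, hc⟩,
      (hmL γ).2 ⟨_, nz_mem_omega n, hγ⟩⟩
  refine ⟨?_, ?_, ?_, hmS, hmL⟩
  · refine ⟨?_, ?_, ?_, ?_, ?_⟩
    · rw [hvL, hvS, hvf]
      rfl
    · rw [hvL]
      exact PVd_rkU fun i hi => (h i hi).1.2.1
    · intro c hc
      obtain ⟨i, hi, hc⟩ := (hmS c).1 hc
      exact (h i hi).1.2.2.1 c hc
    · ext z
      rw [mem_fgr]
      constructor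
      · intro hz
        have hz' := hz
        rw [hvf, mem_uni] at hz'
        obtain ⟨i, hi, hz'⟩ := hz'
        obtain ⟨n, rfl⟩ := mem_omega.1 hi
        have h4 := (hV n).2.2.2.1
        rw [h4] at hz'
        obtain ⟨s, hs, rfl⟩ := mem_fgr.1 hz'
        exact ⟨s, hsub n s hs, by rw [hval n s hs]⟩
      · rintro ⟨s, hs, rfl⟩
        obtain ⟨n, hn⟩ := hdom s hs
        rw [hval n s hn, hvf, mem_uni]
        exact ⟨nz n, nz_mem_omega n, (hpf n s _).2 ⟨hn, rfl⟩⟩
    · intro s hs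
      obtain ⟨n, hn⟩ := hdom s hs
      rw [hval n s hn]
      exact (hV n).2.2.2.2 s hn
  · have hoM : ∀ y ∈ omega, y ∈ M := fun y hy => hG.tm.tr _ hG.tm.omega y hy
    have hco : Ctb M omega := Ctb_omega hG.tm
    have hpp : ∀ i, (fun _ : ℕ => p) i ∈ M := fun _ => hp
    have kL : uni (fun i => vL (app p i)) omega ∈ H := by
      refine PVd_H hG ?_ ?_ fun i hi =>
        H_uf1 hG (F := fun v => vL v) (by infer_instance) (h i hi).2
      · have h5 : UF (fun _ v => H83.AC.img (fun i => vL (H83.AC.app (v 0) i)) ZFSet.omega) := by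
          infer_instance
        exact h5.mem M hG.tm (fun _ => p) hpp
      · have h5 := Ctb_img hG.tm (F := fun _ x v => vL (H83.AC.app (v 0) x)) (by
          change UF (fun _ v => vL (H83.AC.app (v 1) (v 0)))
          infer_instance) hpp hoM hco
        exact h5
    have kS : uni (fun i => vS (app p i)) omega ∈ H := by
      refine PVd_H hG ?_ ?_ fun i hi =>
        H_uf1 hG (F := fun v => vS v) (by infer_instance) (h i hi).2
      · have h5 : UF (fun _ v => H83.AC.img (fun i => vS (H83.AC.app (v 0) i)) ZFSet.omega) := by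
          infer_instance
        exact h5.mem M hG.tm (fun _ => p) hpp
      · have h5 := Ctb_img hG.tm (F := fun _ x v => vS (H83.AC.app (v 0) x)) (by
          change UF (fun _ v => vS (H83.AC.app (v 1) (v 0)))
          infer_instance) hpp hoM hco
        exact h5
    have kf : uni (fun i => vf (app p i)) omega ∈ H := by
      refine PVd_H hG ?_ ?_ fun i hi =>
        H_uf1 hG (F := fun v => vf v) (by infer_instance) (h i hi).2
      · have h5 : UF (fun _ v => H83.AC.img (fun i => vf (H83.AC.app (v 0) i)) ZFSet.omega) := by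
          infer_instance
        exact h5.mem M hG.tm (fun _ => p) hpp
      · have h5 := Ctb_img hG.tm (F := fun _ x v => vf (H83.AC.app (v 0) x)) (by
          change UF (fun _ v => vf (H83.AC.app (v 1) (v 0)))
          infer_instance) hpp hoM hco
        exact h5
    unfold limV
    exact H_pair hG kL (H_pair hG kS kf)
  · intro i hi
    obtain ⟨n, rfl⟩ := mem_omega.1 hi
    refine ⟨?_, ?_, fun s hs => hval n s hs, ?_, ?_⟩
    · intro γ hγ
      exact (hmL γ).2 ⟨_, hi, hγ⟩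
    · intro c hc
      exact (hmS c).2 ⟨_, hi, hc⟩
    · intro c hc γ hγ hγ'
      obtain ⟨j, hj, hγ⟩ := (hmL γ).1 hγ
      obtain ⟨m, rfl⟩ := mem_omega.1 hj
      have hk := hch (le_max_right m n)
      have hγk := (hch (le_max_left m n)).1 hγ
      rw [hval (max m n) _ (PVd_prod.2 ⟨c, γ, rfl, hk.2.1 hc, hγk⟩)]
      exact hk.2.2.2.1 c hc γ hγk hγ'
    · intro c hc c' hc' hcc γ hγ hγ'
      obtain ⟨j, hj, hγ⟩ := (hmL γ).1 hγ
      obtain ⟨m, rfl⟩ := mem_omega.1 hj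
      have hk := hch (le_max_right m n)
      have hγk := (hch (le_max_left m n)).1 hγ
      rw [hval (max m n) _ (PVd_prod.2 ⟨c, γ, rfl, hk.2.1 hc, hγk⟩),
        hval (max m n) _ (PVd_prod.2 ⟨c', γ, rfl, hk.2.1 hc', hγk⟩)]
      exact hk.2.2.2.2 c hc c' hc' hcc γ hγk hγ'

theorem VLe_chain {p : ZFSet.{0}} (hl : ∀ i ∈ omega, VLe (app p (sc i)) (app p i)) {i j : ℕ}
    (hij : i ≤ j) : VLe (app p (nz j)) (app p (nz i)) := by
  exact PVd_chain hl hij

end H83.PN
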