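import Pool.Agent.H83.PN.PVb

set_option autoImplicit false

/-!
# Module PVe1: longer first parts

`exists_extV`: let `g ∈ N` enumerate `vS v`, `PVe1_io g c` the least `i ∈ omega` with `app g i = c`.
Let `v'` have length `ν`, the same coordinates, and `v'(c, γ) = v(c, γ)` if `γ ∈ vL v`, and
`pair (fst c) (PVe1_io g c)` otherwise.
-/

namespace H83.PN

open ZFSet H83.AC

/-- the least number of `c` in the enumeration `g` -/
private noncomputable def PVe1_io (g c : ZFSet.{0}) : ZFSet.{0} :=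
  ZFSet.sep (fun i => ∀ j ∈ (insert i i : ZFSet.{0}), app g j ≠ c) omega

private theorem PVe1_io_spec {g c : ZFSet.{0}} (h : ∃ n ∈ omega, app g n = c) :
    PVe1_io g c ∈ omega ∧ app g (PVe1_io g c) = c := by
  classical
  have h' : ∃ m : ℕ, app g (nz m) = c := by
    obtain ⟨n, hn, hc⟩ := h
    obtain ⟨m, rfl⟩ := mem_omega.1 hn
    exact ⟨m, hc⟩
  have key : PVe1_io g c = nz (Nat.find h') := by
    ext x
    unfold PVe1_io
    rw [mem_sep, mem_nz]
    constructor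
    · rintro ⟨hx, hj⟩
      obtain ⟨k, rfl⟩ := mem_omega.1 hx
      refine ⟨k, ?_, rfl⟩
      by_contra hk
      push Not at hk
      refine hj (nz (Nat.find h')) ?_ (Nat.find_spec h')
      rw [mem_insert_iff]
      rcases Nat.lt_or_eq_of_le hk with h1 | h1
      · exact Or.inr (nz_mem_nz.2 h1)
      · exact Or.inl (by rw [h1])
    · rintro ⟨k, hk, rfl⟩
      refine ⟨nz_mem_omega k, ?_⟩
      intro j hj hjc
      rw [mem_insert_iff] at hj
      have hj' : ∃ l, l ≤ k ∧ j = nz l := by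
        rcases hj with rfl | hj
        · exact ⟨k, le_rfl, rfl⟩
        · obtain ⟨l, hl, rfl⟩ := mem_nz.1 hj
          exact ⟨l, hl.le, rfl⟩
      obtain ⟨l, hl, rfl⟩ := hj'
      exact Nat.find_min h' (lt_of_le_of_lt hl hk) hjc
  rw [key]
  exact ⟨nz_mem_omega _, Nat.find_spec h'⟩

open Classical in
private noncomputable def PVe1_g (v g s : ZFSet.{0}) : ZFSet.{0} :=
  if snd s ∈ vL v then app (vf v) s else pair (fst (fst s)) (PVe1_io g (fst s))

private noncomputable def PVe1_v (v g ν : ZFSet.{0}) : ZFSet.{0} :=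
  pair ν (pair (vS v) (fgr (fun s => PVe1_g v g s) (ZFSet.prod (vS v) ν)))

private theorem PVe1_uf : UF (fun _ w => PVe1_v (w 0) (w 1) (w 2)) := by
  unfold PVe1_v PVe1_g PVe1_io
  infer_instance

private theorem PVe1_mem {N : Set ZFSet.{0}} (hN : TM N) {v g ν : ZFSet.{0}} (hv : v ∈ N)
    (hg : g ∈ N) (hn : ν ∈ N) : PVe1_v v g ν ∈ N :=
  PVe1_uf.mem N hN (cons v (cons g (fun _ => ν))) (fun i => by
    match i with
    | 0 => exact hv
    | 1 => exact hg
    | i + 2 => exact hn)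

theorem exists_extV {N : Set ZFSet.{0}} (hN : TM N) {v ν : ZFSet.{0}} (hv : VV v) (hvN : v ∈ N)
    (hn : ν ∈ N) (ho : rk ν = ν) (hs : vL v ⊆ ν) (hc : Ctb N (vS v)) :
    ∃ v' ∈ N, VV v' ∧ vL v' = ν ∧ vS v' = vS v ∧ VLe v' v := by
  classical
  obtain ⟨g, hgN, hg⟩ := hc
  have eL : vL (PVe1_v v g ν) = ν := by unfold PVe1_v vL; rw [fst_pair]
  have eS : vS (PVe1_v v g ν) = vS v := by
    show fst (snd (PVe1_v v g ν)) = vS v
    unfold PVe1_v
    rw [snd_pair, fst_pair]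
  have ef : vf (PVe1_v v g ν) = fgr (fun s => PVe1_g v g s) (ZFSet.prod (vS v) ν) := by
    show snd (snd (PVe1_v v g ν)) = _
    unfold PVe1_v
    rw [snd_pair, snd_pair]
  have hap : ∀ s ∈ ZFSet.prod (vS v) ν, app (vf (PVe1_v v g ν)) s = PVe1_g v g s := by
    intro s h
    rw [ef, app_fgr h]
  have hold : ∀ s ∈ ZFSet.prod (vS v) (vL v), PVe1_g v g s = app (vf v) s := by
    intro s h
    obtain ⟨c, hc, γ, hγ, rfl⟩ := ZFSet.mem_prod.1 h
    unfold PVe1_g
    rw [snd_pair, if_pos hγ]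
  have hnew : ∀ c ∈ vS v, ∀ γ ∈ ν, γ ∉ vL v → PVe1_g v g (pair c γ) = pair (fst c) (PVe1_io g c) := by
    intro c hc γ hγ hn'
    unfold PVe1_g
    rw [snd_pair, if_neg hn', fst_pair]
  refine ⟨PVe1_v v g ν, PVe1_mem hN hvN hgN hn, ?_, eL, eS, ?_⟩
  · refine ⟨?_, ?_, ?_, ?_, ?_⟩
    · rw [eL, eS, ef]
      rfl
    · rw [eL]
      exact ho
    · rw [eS]
      exact hv.2.2.1
    · rw [eS, eL]
      conv_lhs => rw [ef]
      exact fgr_congr (fun s h => (hap s h).symm)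
    · rw [eS, eL]
      intro s h
      rw [hap s h]
      obtain ⟨c, hc, γ, hγ, rfl⟩ := ZFSet.mem_prod.1 h
      by_cases h1 : γ ∈ vL v
      · rw [hold _ (pair_mem_prod.2 ⟨hc, h1⟩)]
        exact hv.2.2.2.2 _ (pair_mem_prod.2 ⟨hc, h1⟩)
      · rw [hnew c hc γ hγ h1]
        exact pair_mem_prod.2 ⟨(hv.2.2.1 c hc).2, (PVe1_io_spec (hg c hc)).1⟩
  · refine ⟨?_, ?_, ?_, ?_, ?_⟩
    · rw [eL]; exact hs
    · rw [eS]
    · intro s h
      obtain ⟨c, hc, γ, hγ, rfl⟩ := ZFSet.mem_prod.1 h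
      rw [hap _ (pair_mem_prod.2 ⟨hc, hs hγ⟩), hold _ h]
    · intro c hc γ hγ h1
      rw [eL] at hγ
      rw [hap _ (pair_mem_prod.2 ⟨hc, hγ⟩), hnew c hc γ hγ h1, fst_pair]
    · intro c hc c' hc' hne γ hγ h1 he
      rw [eL] at hγ
      rw [hap _ (pair_mem_prod.2 ⟨hc, hγ⟩), hap _ (pair_mem_prod.2 ⟨hc', hγ⟩), hnew c hc γ hγ h1,
        hnew c' hc' γ hγ h1, pair_inj] at he
      exact hne (((PVe1_io_spec (hg c hc)).2.symm.trans
        (congrArg (fun i => app g i) he.2)).trans (PVe1_io_spec (hg c' hc')).2)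

end H83.PN
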