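import Pool.Agent.H83.AC.Stmt

set_option autoImplicit false

/-!
# The projective classes `Π¹_n` in an arbitrary structure `(M, E)`

`E x y` is read `x ∈ y`. All notions are interpreted in the structure. Natural numbers `n`, `j` of the
metatheory index the classes and the dimensions: the points of `ℝ^(j+1)` are the tuples
`((..(x₀, x₁), ..), x_j)` of real numbers (elements of the Baire space).
-/

namespace H83.PN

open H83.AC

variable {M : Type*} (E : M → M → Prop)

/-- `t` is a point of `ℝ^(j+1)` -/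
def IsTup : ℕ → M → Prop
  | 0, t => IsReal E t
  | j + 1, t => ∃ s y, IsTup j s ∧ IsReal E y ∧ IsOp E t s y

/-- the points `t` and `t'` of `ℝ^(j+1)` have the same coordinates at all arguments in `n` -/
def AgT : ℕ → M → M → M → Prop
  | 0, n, t, t' => Agr E n t t'
  | j + 1, n, t, t' => ∃ s y s' y', IsOp E t s y ∧ IsOp E t' s' y' ∧ AgT j n s s' ∧ Agr E n y y'

/-- `C` is a closed subset of `ℝ^(j+1)`: every point outside `C` has a basic neighbourhood (the points
with the same values below `n` in all coordinates) outside `C` -/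
def IsCl (j : ℕ) (C : M) : Prop :=
  (∀ t, E t C → IsTup E j t) ∧
  ∀ t, IsTup E j t → ¬ E t C →
    ∃ n, IsNat E n ∧ ∀ t', IsTup E j t' → AgT E j n t t' → ¬ E t' C

/-- `A` is a (boldface) `Π¹_n` subset of `ℝ^(j+1)`: for `n = 0` a closed subset; `A` is of the class
`Π¹_(n+1)` if `A = {t : ∀ y ∈ ℝ, (t, y) ∉ B}` for some `Π¹_n` subset `B` of `ℝ^(j+2)` -/
def IsPi : ℕ → ℕ → M → Prop
  | 0, j, A => IsCl E j A
  | n + 1, j, A => (∀ t, E t A → IsTup E j t) ∧
      ∃ B, IsPi n (j + 1) B ∧ ∀ t, IsTup E j t → (E t A ↔ ∀ y, IsReal E y → ¬ In2 E B t y)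

end H83.PN
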