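import Pool.Agent.H83.PN.TFin

set_option autoImplicit false

/-!
# Module TCode: codes of formulas

`fcd_inj`: induction on `φ` (cases on `ψ`), `nz_inj`, injectivity of pairs. `fcd_HF`: `HF_pair`, `HF_nz`.
`UF.FC`: let `t c = one` if `c` is a code and `∅` otherwise. By recursion along the transitive closure
(`UF.hl`, `hl_eq`): `t c = one` iff `c = pair (nz 0) ∅`, or `c = pair (nz 1) (pair i j)` with `i, j ∈ omega`,
or the same with `nz 2`, or `c = pair (nz 3) (pair a b)` with `t a = one`, `t b = one`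
(`a, b ∈ tc c`), or `c = pair (nz 4) a` with `t a = one`. Write `a = fst (snd c)` etc. Then
`FC = sep (t c = one) HF`.
-/

namespace H83.PN

open ZFSet H83.AC

variable {f g h k l : Set ZFSet.{0} → (ℕ → ZFSet.{0}) → ZFSet.{0}}

theorem fcd_inj {φ ψ : Fml} : fcd φ = fcd ψ ↔ φ = ψ := by
  refine ⟨fun h => ?_, fun h => by rw [h]⟩
  induction φ generalizing ψ with
  | bot => cases ψ <;> simp [fcd, ZFSet.pair_inj, nz_inj] at h ⊢
  | eq i j =>
    cases ψ <;> simp [fcd, ZFSet.pair_inj, nz_inj] at h ⊢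
    exact h
  | mem i j =>
    cases ψ <;> simp [fcd, ZFSet.pair_inj, nz_inj] at h ⊢
    exact h
  | imp a b iha ihb =>
    cases ψ <;> simp [fcd, ZFSet.pair_inj, nz_inj] at h ⊢
    exact ⟨iha h.1, ihb h.2⟩
  | all a ih =>
    cases ψ <;> simp [fcd, ZFSet.pair_inj, nz_inj] at h ⊢
    exact ih h

theorem fcd_HF (φ : Fml) : fcd φ ∈ HF := by
  induction φ with
  | bot => exact HF_pair (HF_nz 0) HF_empty
  | eq i j => exact HF_pair (HF_nz 1) (HF_pair (HF_nz i) (HF_nz j))
  | mem i j => exact HF_pair (HF_nz 2) (HF_pair (HF_nz i) (HF_nz j))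
  | imp a b iha ihb => exact HF_pair (HF_nz 3) (HF_pair iha ihb)
  | all a ih => exact HF_pair (HF_nz 4) ih

theorem mem_FC {c : ZFSet.{0}} : c ∈ FC ↔ ∃ φ, c = fcd φ := by
  rw [FC, mem_sep]
  refine ⟨fun h => h.2, fun h => ⟨?_, h⟩⟩
  obtain ⟨φ, rfl⟩ := h
  exact fcd_HF φ

private theorem TCode_comp {u x y : ZFSet.{0}} (h : pair x y ∈ tc u) : x ∈ tc u ∧ y ∈ tc u := by
  have h1 : ({x, y} : ZFSet) ∈ tc u := by
    refine tc_tr h ?_
    rw [pair]; simp
  exact ⟨tc_tr h1 (by simp), tc_tr h1 (by simp)⟩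

private theorem TCode_comp' (x y : ZFSet.{0}) : x ∈ tc (pair x y) ∧ y ∈ tc (pair x y) := by
  have h1 : ({x, y} : ZFSet) ∈ tc (pair x y) := by
    refine sub_tc _ ?_
    rw [pair]; simp
  exact ⟨tc_tr h1 (by simp), tc_tr h1 (by simp)⟩

private def TCode_P (c q : ZFSet.{0}) : Prop :=
  c = pair (nz 0) ∅ ∨
  (c = pair (nz 1) (pair (fst (snd c)) (snd (snd c))) ∧ fst (snd c) ∈ omega ∧ snd (snd c) ∈ omega) ∨
  (c = pair (nz 2) (pair (fst (snd c)) (snd (snd c))) ∧ fst (snd c) ∈ omega ∧ snd (snd c) ∈ omega) ∨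
  (c = pair (nz 3) (pair (fst (snd c)) (snd (snd c))) ∧ app q (fst (snd c)) = one ∧
    app q (snd (snd c)) = one) ∨
  (c = pair (nz 4) (snd c) ∧ app q (snd c) = one)

open Classical in
private noncomputable def TCode_G (c q : ZFSet.{0}) : ZFSet.{0} := if TCode_P c q then one else ∅

private theorem TCode_one_ne : (∅ : ZFSet.{0}) ≠ one := by
  intro h
  have h1 : (∅ : ZFSet.{0}) ∈ one := by rw [one]; simp
  rw [← h] at h1
  exact ZFSet.notMem_empty _ h1

private theorem TCode_iff (c : ZFSet.{0}) :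
    hl TCode_G c = one ↔ TCode_P c (fgr (hl TCode_G) (tc c)) := by
  rw [hl_eq]
  conv_lhs => rw [TCode_G]
  constructor
  · intro h
    by_contra hn
    rw [if_neg hn] at h
    exact TCode_one_ne h
  · intro h
    rw [if_pos h]

private theorem TCode_app {c x : ZFSet.{0}} (h : x ∈ tc c) :
    app (fgr (hl TCode_G) (tc c)) x = hl TCode_G x := app_fgr h

private theorem TCode_fcd (φ : Fml) : hl TCode_G (fcd φ) = one := by
  induction φ with
  | bot => exact (TCode_iff _).2 (Or.inl rfl)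
  | eq i j =>
    refine (TCode_iff _).2 (Or.inr (Or.inl ?_))
    rw [fcd, snd_pair, fst_pair, snd_pair]
    exact ⟨rfl, nz_mem_omega i, nz_mem_omega j⟩
  | mem i j =>
    refine (TCode_iff _).2 (Or.inr (Or.inr (Or.inl ?_)))
    rw [fcd, snd_pair, fst_pair, snd_pair]
    exact ⟨rfl, nz_mem_omega i, nz_mem_omega j⟩
  | imp a b iha ihb =>
    refine (TCode_iff _).2 (Or.inr (Or.inr (Or.inr (Or.inl ?_))))
    have h := TCode_comp (TCode_comp' (nz 3) (pair (fcd a) (fcd b))).2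
    rw [fcd, snd_pair, fst_pair, snd_pair, TCode_app h.1, TCode_app h.2]
    exact ⟨rfl, iha, ihb⟩
  | all a ih =>
    refine (TCode_iff _).2 (Or.inr (Or.inr (Or.inr (Or.inr ?_))))
    have h := (TCode_comp' (nz 4) (fcd a)).2
    rw [fcd, snd_pair, TCode_app h]
    exact ⟨rfl, ih⟩

private theorem TCode_ex : ∀ c : ZFSet.{0}, hl TCode_G c = one → ∃ φ, c = fcd φ := by
  have key : ∀ (r : Ordinal.{0}) (c : ZFSet.{0}), rank c = r → hl TCode_G c = one → ∃ φ, c = fcd φ := by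
    intro r
    induction r using WellFoundedLT.induction with
    | _ r ih =>
      intro c hr hc
      have ih' : ∀ x ∈ tc c, hl TCode_G x = one → ∃ φ, x = fcd φ := fun x hx h =>
        ih (rank x) (by rw [← hr]; exact rank_lt_of_mem_tc hx) x rfl h
      rcases (TCode_iff c).1 hc with h | ⟨h, h1, h2⟩ | ⟨h, h1, h2⟩ | ⟨h, h1, h2⟩ | ⟨h, h1⟩
      · exact ⟨.bot, h⟩
      · obtain ⟨i, hi⟩ := mem_omega.1 h1
        obtain ⟨j, hj⟩ := mem_omega.1 h2
        refine ⟨.eq i j, ?_⟩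
        rw [fcd, ← hi, ← hj]
        exact h
      · obtain ⟨i, hi⟩ := mem_omega.1 h1
        obtain ⟨j, hj⟩ := mem_omega.1 h2
        refine ⟨.mem i j, ?_⟩
        rw [fcd, ← hi, ← hj]
        exact h
      · have hp : pair (fst (snd c)) (snd (snd c)) ∈ tc c := by
          have h3 := (TCode_comp' (nz 3) (pair (fst (snd c)) (snd (snd c)))).2
          rwa [← h] at h3
        have h4 := TCode_comp hp
        rw [TCode_app h4.1] at h1
        rw [TCode_app h4.2] at h2
        obtain ⟨a, ha⟩ := ih' _ h4.1 h1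
        obtain ⟨b, hb⟩ := ih' _ h4.2 h2
        refine ⟨.imp a b, ?_⟩
        rw [fcd, ← ha, ← hb]
        exact h
      · have hp : snd c ∈ tc c := by
          have h3 := (TCode_comp' (nz 4) (snd c)).2
          rwa [← h] at h3
        rw [TCode_app hp] at h1
        obtain ⟨a, ha⟩ := ih' _ hp h1
        refine ⟨.all a, ?_⟩
        rw [fcd, ← ha]
        exact h
  exact fun c => key _ c rfl

private theorem TCode_UR : UR (fun _ w => TCode_P (w 0) (w 1)) := by
  have h0 : UF (fun _ _ => H83.AC.nz 0) := UF.nz 0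
  have h1 : UF (fun _ _ => H83.AC.nz 1) := UF.nz 1
  have h2 : UF (fun _ _ => H83.AC.nz 2) := UF.nz 2
  have h3 : UF (fun _ _ => H83.AC.nz 3) := UF.nz 3
  have h4 : UF (fun _ _ => H83.AC.nz 4) := UF.nz 4
  have h5 : UF (fun _ _ => H83.AC.one) := UF.one
  have h6 : UF (fun _ _ => ZFSet.omega) := UF.omega
  unfold TCode_P
  infer_instance

theorem UF.FC : UF (fun _ _ => H83.PN.FC) := by
  have h1 : UF (fun _ w => TCode_G (w 0) (w 1)) := UF.ite TCode_UR UF.one UF.empty
  have h2 : UF (fun _ w => hl TCode_G (w 0)) := UF.hl (G := fun _ _ c q => TCode_G c q) h1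
  have h3 : UF (fun _ _ => ZFSet.sep (fun c => hl TCode_G c = one) HF) :=
    UF.sep (R := fun _ c _ => hl TCode_G c = one) UF.HF (UR.eq h2 UF.one)
  refine h3.congr fun N _ v _ => ?_
  ext c
  rw [mem_FC, mem_sep]
  constructor
  · rintro ⟨φ, rfl⟩
    exact ⟨fcd_HF φ, TCode_fcd φ⟩
  · rintro ⟨-, h⟩
    exact TCode_ex c h

instance Inst.FC : UF (fun _ _ => H83.PN.FC) := UF.FC

theorem UF.fcd (φ : Fml) : UF (fun _ _ => H83.PN.fcd φ) := by
  induction φ with
  | bot => exact UF.pair (UF.nz 0) UF.empty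
  | eq i j => exact UF.pair (UF.nz 1) (UF.pair (UF.nz i) (UF.nz j))
  | mem i j => exact UF.pair (UF.nz 2) (UF.pair (UF.nz i) (UF.nz j))
  | imp a b iha ihb => exact UF.pair (UF.nz 3) (UF.pair iha ihb)
  | all a ih => exact UF.pair (UF.nz 4) ih

instance Inst.fcd (φ : Fml) : UF (fun _ _ => H83.PN.fcd φ) := UF.fcd φ

/-- the transitive closure contains the parts of a code -/
theorem fcd_tc (φ ψ : Fml) : fcd φ ∈ tc (fcd (.imp φ ψ)) ∧ fcd ψ ∈ tc (fcd (.imp φ ψ)) ∧
    fcd φ ∈ tc (fcd (.all φ)) := by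
  have h := TCode_comp (TCode_comp' (nz 3) (pair (fcd φ) (fcd ψ))).2
  exact ⟨h.1, h.2, (TCode_comp' (nz 4) (fcd φ)).2⟩

end H83.PN
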