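import Pool.Agent.H83.PN.Defs

set_option autoImplicit false

/-!
# Module TFin: finite sets

`mem_Fs`: `mem_sep`, `mem_powerset`. The closure properties are those of `Set.Finite`.
`fin_mem`: induction on the finite set (`TM.insert`, empty set); for the induction write the set as
`insert y (x \ {y})` (or induction on the cardinality).
`UR.Fnt`: in a transitive model `N`: `Fnt x ↔ ∃ n ∈ omega, ∃ f ∈ N, ∀ y ∈ x, ∃ i ∈ n, app f i = y`:
(←) `nz n` is finite, `x` is contained in its image; (→) an enumeration `x = {y_0, .., y_(n-1)}`, `f` = the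
finite set of pairs `pair (nz i) y_i`, which is in `N` by `fin_mem`. Then `infer_instance`.
`UF.Fs`: `UF.pow` (the subsets of `X` which are in `N`) intersected with `Fnt`; every finite subset of
`X ∈ N` is in `N` by `fin_mem`: `UF.congr`.
-/

namespace H83.PN

open ZFSet H83.AC

variable {f g h k l : Set ZFSet.{0} → (ℕ → ZFSet.{0}) → ZFSet.{0}}

theorem mem_Fs {X s : ZFSet.{0}} : s ∈ Fs X ↔ s ⊆ X ∧ Fnt s := by
  rw [Fs, mem_sep, mem_powerset]

theorem Fnt_empty : Fnt ∅ := by
  have h : {y : ZFSet.{0} | y ∈ (∅ : ZFSet.{0})} = ∅ := by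
    ext y
    exact ⟨fun hy => absurd hy (notMem_empty y), fun hy => absurd hy (Set.notMem_empty y)⟩
  rw [Fnt, h]
  exact Set.finite_empty

theorem Fnt_insert {x s : ZFSet.{0}} (h : Fnt s) : Fnt (insert x s) := by
  refine (Set.Finite.insert x h).subset ?_
  intro y hy
  rcases mem_insert_iff.1 hy with rfl | hy
  · exact Set.mem_insert _ _
  · exact Set.mem_insert_of_mem _ hy

theorem Fnt_union {s t : ZFSet.{0}} (h : Fnt s) (h' : Fnt t) : Fnt (s ∪ t) := by
  refine (Set.Finite.union h h').subset ?_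
  intro y hy
  rcases mem_union.1 hy with hy | hy
  · exact Or.inl hy
  · exact Or.inr hy

theorem Fnt_sub {s t : ZFSet.{0}} (h : Fnt s) (h' : t ⊆ s) : Fnt t :=
  Set.Finite.subset h fun _ hy => h' hy

theorem Fnt_img {F : ZFSet.{0} → ZFSet.{0}} {s : ZFSet.{0}} (h : Fnt s) : Fnt (img F s) := by
  refine (Set.Finite.image F h).subset ?_
  intro y hy
  obtain ⟨x, hx, e⟩ := mem_img.1 hy
  exact ⟨x, hx, e⟩

theorem Fnt_prod {s t : ZFSet.{0}} (h : Fnt s) (h' : Fnt t) : Fnt (ZFSet.prod s t) := by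
  refine ((Set.Finite.prod h h').image fun z => pair z.1 z.2).subset ?_
  intro y hy
  obtain ⟨a, ha, b, hb, e⟩ := mem_prod.1 hy
  exact ⟨(a, b), ⟨ha, hb⟩, e.symm⟩

theorem Fnt_HF {x : ZFSet.{0}} (h : x ∈ HF) : Fnt x := HF_finite h

theorem Fnt_nz (n : ℕ) : Fnt (nz n) := by
  induction n with
  | zero => exact Fnt_empty
  | succ n ih => exact Fnt_insert ih

private theorem TFin_ind {P : ZFSet.{0} → Prop} (h0 : P ∅)
    (h1 : ∀ s x, Fnt s → x ∉ s → P s → P (insert x s)) {A : Set ZFSet.{0}} (hA : A.Finite) :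
    ∀ s : ZFSet.{0}, {y | y ∈ s} = A → P s := by
  induction A, hA using Set.Finite.induction_on with
  | empty =>
    intro s hs
    have e : s = ∅ := by
      apply ZFSet.ext
      intro y
      constructor
      · intro hy
        have : y ∈ ({y | y ∈ s} : Set ZFSet.{0}) := hy
        rw [hs] at this
        exact absurd this (Set.notMem_empty y)
      · intro hy
        exact absurd hy (notMem_empty y)
    rw [e]
    exact h0
  | @insert a B haB hB ih =>
    intro s hs
    have has : a ∈ s := by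
      have : a ∈ ({y | y ∈ s} : Set ZFSet.{0}) := by
        rw [hs]
        exact Set.mem_insert a B
      exact this
    have e' : {y | y ∈ s \ ({a} : ZFSet.{0})} = B := by
      ext y
      constructor
      · intro hy
        obtain ⟨hy1, hy2⟩ := mem_sdiff.1 hy
        have h3 : y ∈ ({y | y ∈ s} : Set ZFSet.{0}) := hy1
        rw [hs] at h3
        rcases h3 with rfl | h3
        · exact absurd (mem_singleton.2 rfl) hy2
        · exact h3
      · intro hy
        refine mem_sdiff.2 ⟨?_, ?_⟩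
        · have : y ∈ ({y | y ∈ s} : Set ZFSet.{0}) := by
            rw [hs]
            exact Set.mem_insert_of_mem a hy
          exact this
        · intro hya
          rw [mem_singleton.1 hya] at hy
          exact haB hy
    have e : s = insert a (s \ ({a} : ZFSet.{0})) := by
      apply ZFSet.ext
      intro y
      constructor
      · intro hy
        by_cases h : y = a
        · exact mem_insert_iff.2 (Or.inl h)
        · exact mem_insert_iff.2 (Or.inr (mem_sdiff.2 ⟨hy, fun h' => h (mem_singleton.1 h')⟩))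
      · intro hy
        rcases mem_insert_iff.1 hy with rfl | hy
        · exact has
        · exact (mem_sdiff.1 hy).1
    rw [e]
    refine h1 _ _ ?_ ?_ (ih _ e')
    · change ({y | y ∈ s \ ({a} : ZFSet.{0})} : Set ZFSet.{0}).Finite
      rw [e']
      exact hB
    · intro h
      exact (mem_sdiff.1 h).2 (mem_singleton.2 rfl)

/-- induction over finite sets -/
theorem Fnt_ind {P : ZFSet.{0} → Prop} (h0 : P ∅)
    (h1 : ∀ s x, Fnt s → x ∉ s → P s → P (insert x s)) {s : ZFSet.{0}} (h : Fnt s) : P s :=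
  TFin_ind h0 h1 h s rfl

private theorem TFin_empty {N : Set ZFSet.{0}} (hN : TM N) : (∅ : ZFSet.{0}) ∈ N :=
  UF.empty.mem N hN (fun _ => omega) fun _ => hN.omega

theorem fin_mem {N : Set ZFSet.{0}} (hN : TM N) {s : ZFSet.{0}} (hs : ∀ x ∈ s, x ∈ N)
    (h : Fnt s) : s ∈ N := by
  revert hs
  refine Fnt_ind (P := fun s => (∀ x ∈ s, x ∈ N) → s ∈ N) ?_ ?_ h
  · exact fun _ => TFin_empty hN
  · intro s x _ _ ih hs
    exact hN.insert (hs x (mem_insert_iff.2 (Or.inl rfl)))
      (ih fun y hy => hs y (mem_insert_iff.2 (Or.inr hy)))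

private theorem TFin_enum {N : Set ZFSet.{0}} (hN : TM N) {s : ZFSet.{0}} (hs : ∀ x ∈ s, x ∈ N)
    (h : Fnt s) : ∃ n : ℕ, ∃ g ∈ N, (∀ i z, pair (nz i) z ∈ g → i < n) ∧
      (∀ i z z', pair (nz i) z ∈ g → pair (nz i) z' ∈ g → z = z') ∧
      ∀ y ∈ s, ∃ i < n, pair (nz i) y ∈ g := by
  revert hs
  refine Fnt_ind (P := fun s => (∀ x ∈ s, x ∈ N) → ∃ n : ℕ, ∃ g ∈ N,
    (∀ i z, pair (nz i) z ∈ g → i < n) ∧
      (∀ i z z', pair (nz i) z ∈ g → pair (nz i) z' ∈ g → z = z') ∧
      ∀ y ∈ s, ∃ i < n, pair (nz i) y ∈ g) ?_ ?_ h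
  · intro _
    exact ⟨0, ∅, TFin_empty hN, fun i z hz => absurd hz (notMem_empty _),
      fun i z z' hz => absurd hz (notMem_empty _), fun y hy => absurd hy (notMem_empty y)⟩
  · intro s x _ _ ih hs
    obtain ⟨n, g, hg, h1, h2, h3⟩ := ih fun y hy => hs y (mem_insert_iff.2 (Or.inr hy))
    have hx : x ∈ N := hs x (mem_insert_iff.2 (Or.inl rfl))
    have hn : nz n ∈ N := (UF.nz n).mem N hN (fun _ => omega) fun _ => hN.omega
    refine ⟨n + 1, insert (pair (nz n) x) g, hN.insert (hN.pair hn hx) hg, ?_, ?_, ?_⟩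
    · intro i z hz
      rcases mem_insert_iff.1 hz with e | hz
      · have := nz_inj.1 (pair_injective e).1
        omega
      · have := h1 i z hz
        omega
    · intro i z z' hz hz'
      rcases mem_insert_iff.1 hz with e | hz
      · rcases mem_insert_iff.1 hz' with e' | hz'
        · rw [(pair_injective e).2, (pair_injective e').2]
        · have h4 := nz_inj.1 (pair_injective e).1
          have h5 := h1 i z' hz'
          omega
      · rcases mem_insert_iff.1 hz' with e' | hz'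
        · have h4 := nz_inj.1 (pair_injective e').1
          have h5 := h1 i z hz
          omega
        · exact h2 i z z' hz hz'
    · intro y hy
      rcases mem_insert_iff.1 hy with rfl | hy
      · exact ⟨n, Nat.lt_succ_self n, mem_insert_iff.2 (Or.inl rfl)⟩
      · obtain ⟨i, hi, hp⟩ := h3 y hy
        exact ⟨i, Nat.lt_succ_of_lt hi, mem_insert_iff.2 (Or.inr hp)⟩

theorem UR.Fnt (hf : UF f) : UR (fun N v => H83.PN.Fnt (f N v)) := by
  have h : UR (fun N v => ∃ n ∈ (omega : ZFSet.{0}), ∃ g ∈ N, ∀ y ∈ f N v, ∃ i ∈ n,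
      app g i = y) := by
    infer_instance
  refine UD.congr h fun N hN v hv => ?_
  constructor
  · intro hF
    obtain ⟨n, g, hg, h1, h2, h3⟩ := TFin_enum hN
      (fun x hx => hN.tr _ (hf.mem N hN v hv) x hx) hF
    refine ⟨nz n, nz_mem_omega n, g, hg, fun y hy => ?_⟩
    obtain ⟨i, hi, hp⟩ := h3 y hy
    exact ⟨nz i, nz_mem_nz.2 hi, app_eq hp fun z hz => h2 i z y hz hp⟩
  · rintro ⟨n, hn, g, -, hy⟩
    obtain ⟨k, rfl⟩ := mem_omega.1 hn
    refine Fnt_sub (Fnt_img (F := fun i => app g i) (Fnt_nz k)) ?_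
    intro y hyf
    obtain ⟨i, hi, e⟩ := hy y hyf
    exact mem_img.2 ⟨i, hi, e⟩

theorem UF.Fs (hf : UF f) : UF (fun N v => H83.PN.Fs (f N v)) := by
  refine UF.congr (UF.sep (R := fun _ x _ => H83.PN.Fnt x) (UF.pow hf) (UR.Fnt (UF.var 0)))
    fun N hN v hv => ?_
  apply ZFSet.ext
  intro z
  rw [mem_Fs, mem_sep, mem_sep, mem_powerset]
  constructor
  · rintro ⟨h1, h2⟩
    exact ⟨⟨h1, fin_mem hN (fun x hx => hN.tr _ (hf.mem N hN v hv) x (h1 hx)) h2⟩, h2⟩
  · rintro ⟨⟨h1, -⟩, h2⟩
    exact ⟨h1, h2⟩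

instance Inst.Fnt [hf : UF f] : UR (fun N v => H83.PN.Fnt (f N v)) := UR.Fnt hf
instance Inst.Fs [hf : UF f] : UF (fun N v => H83.PN.Fs (f N v)) := UF.Fs hf
instance Inst.Fun [hf : UF f] : UR (fun N v => H83.PN.Fun (f N v)) := by
  unfold H83.PN.Fun; infer_instance
instance Inst.res [hf : UF f] [hg : UF g] : UF (fun N v => H83.PN.res (f N v) (g N v)) := by
  unfold H83.PN.res; infer_instance

end H83.PN
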