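import Pool.Agent.H83.PN.DefsF
import Pool.Agent.H83.AC.HBrU

set_option autoImplicit false

/-!
# Module TRa: the first level is absolute

`Pr N 1 T z` says that no real number `y ∈ N` has `Cl0 T (jn y z)`. If there is such a real number `y` in the universe
then there is one in `N`: call a finite function `w`, `IsFunc (nz n) omega w`, a node if `pair k (jn w z ∩ Lh k) ∈ T` for all `k ∈ nz n`.
Elements of `Lh (nz k) = Lo k` have rank `< k`, and `pair ∅ (pair i j)` has rank larger than that of `i`; so for `k ≤ n` the set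
`jn y z ∩ Lh (nz k)` depends only on the restriction of `y` to `nz n`. Let `x = fgr (fun _ => ∅) omega` and
`T' = {pair s w : w a node on nz n, s the restriction of x to nz n} ∈ N` (a subset of `HF`). `y` gives `HBr T' x`. By `HBr_iff` there is
a chain in `N`; its union is a real number `y' ∈ N` (the lengths increase strictly, as in module PiT) and `Cl0 T (jn y' z)`.
-/

namespace H83.PN

open ZFSet H83.AC

/-- elements of `Lo α` have rank `< α` -/
private theorem rank_mem_Lo {α : Ordinal.{0}} : ∀ {z : ZFSet.{0}}, z ∈ Lo α → rank z < α := by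
  induction α using WellFoundedLT.induction with
  | ind α ih =>
    intro z hz
    obtain ⟨β, hβ, hz⟩ := mem_Lo.1 hz
    have hr : ∀ y : ZFSet.{0}, y ⊆ Lo β → rank y ≤ β := by
      intro y hy
      rw [rank_le_iff]
      intro w hw
      exact ih β hβ (hy hw)
    rcases mem_Sx.1 hz with rfl | hz | ⟨hz, -⟩
    · exact (hr _ (fun _ h => h)).trans_lt hβ
    · exact (ih β hβ hz).trans hβ
    · exact (hr _ hz).trans_lt hβ

private theorem mem_jn {y z t : ZFSet.{0}} :
    t ∈ jn y z ↔ (∃ h ∈ y, pair ∅ h = t) ∨ ∃ h ∈ z, pair one h = t := by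
  rw [jn, mem_union, mem_img, mem_img]

private theorem rank_snd_lt {a b : ZFSet.{0}} : rank b < rank (pair a b) := by
  have h1 : b ∈ ({a, b} : ZFSet) := by simp
  have h2 : ({a, b} : ZFSet) ∈ pair a b := by rw [pair]; simp
  exact (rank_lt_of_mem h1).trans (rank_lt_of_mem h2)

private theorem rank_fst_lt' {a b : ZFSet.{0}} : rank a < rank (pair a b) := by
  have h1 : a ∈ ({a, b} : ZFSet) := by simp
  have h2 : ({a, b} : ZFSet) ∈ pair a b := by rw [pair]; simp
  exact (rank_lt_of_mem h1).trans (rank_lt_of_mem h2)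

/-- `jn y z ∩ Lh k` depends only on a finite part of `y` -/
private theorem jn_inter {w y z : ZFSet.{0}} {l k : ℕ} (hw : IsFunc (nz l) omega w)
    (hy : IsFunc omega omega y) (hwy : w ⊆ y) (hk : k ≤ l) :
    jn w z ∩ Lh (nz k) = jn y z ∩ Lh (nz k) := by
  ext t
  rw [mem_inter, mem_inter, mem_jn, mem_jn]
  constructor
  · rintro ⟨⟨h, hh, rfl⟩ | h, ht⟩
    · exact ⟨Or.inl ⟨h, hwy hh, rfl⟩, ht⟩
    · exact ⟨Or.inr h, ht⟩
  · rintro ⟨⟨h, hh, rfl⟩ | h, ht⟩
    · refine ⟨Or.inl ⟨h, ?_, rfl⟩, ht⟩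
      obtain ⟨i, hi, rfl⟩ := fn_elt hy hh
      obtain ⟨a, rfl⟩ := mem_omega.1 hi
      have h1 : rank (nz a) < (k : Ordinal.{0}) := by
        have h2 := rank_mem_Lo ht
        rw [rank_nz] at h2
        exact (rank_fst_lt'.trans rank_snd_lt).trans h2
      rw [rank_nz] at h1
      have h3 : a < k := by exact_mod_cast h1
      have h4 : nz a ∈ nz l := nz_mem_nz.2 (h3.trans_le hk)
      have h5 := fn_app hw h4
      rw [← (fn_pair hy (hwy h5)).2.2]
      exact h5
    · exact ⟨Or.inr h, ht⟩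

/-- the tree -/
private noncomputable def Tr (T z : ZFSet.{0}) : ZFSet.{0} :=
  ZFSet.sep (fun t => ∃ n ∈ omega, IsFunc n omega (fst t) ∧ IsFunc n omega (snd t) ∧
    ∀ k ∈ n, pair k (jn (snd t) z ∩ Lh k) ∈ T) HF

private theorem pair_mem_Tr {T z s w : ZFSet.{0}} :
    pair s w ∈ Tr T z ↔ pair s w ∈ HF ∧ ∃ n ∈ omega, IsFunc n omega s ∧ IsFunc n omega w ∧
      ∀ k ∈ n, pair k (jn w z ∩ Lh k) ∈ T := by
  rw [Tr, mem_sep, fst_pair, snd_pair]

private theorem Tr_mem {N : Set ZFSet.{0}} (hN : TM N) {T z : ZFSet.{0}} (hT : T ∈ N)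
    (hz : z ∈ N) : Tr T z ∈ N := by
  have h : UF (fun _ v => ZFSet.sep (fun t => ∃ n ∈ omega, IsFunc n omega (fst t) ∧
      IsFunc n omega (snd t) ∧ ∀ k ∈ n, pair k (jn (snd t) (v 1) ∩ Lh k) ∈ v 0) HF) := by
    infer_instance
  exact h.mem N hN (cons T (fun _ => z)) (fun n => by
    cases n with
    | zero => exact hT
    | succ n => exact hz)

private theorem fgr_isFunc {y : ZFSet.{0}} (hy : IsFunc omega omega y) (n : ℕ) :
    IsFunc (nz n) omega (fgr (app y) (nz n)) := by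
  refine fn_fgr ?_
  intro i hi
  obtain ⟨m, -, rfl⟩ := mem_nz.1 hi
  exact fn_mem hy (nz_mem_omega m)

private theorem fgr_sub {y : ZFSet.{0}} (hy : IsFunc omega omega y) (n : ℕ) :
    fgr (app y) (nz n) ⊆ y := by
  intro t ht
  obtain ⟨i, hi, rfl⟩ := mem_fgr.1 ht
  obtain ⟨m, -, rfl⟩ := mem_nz.1 hi
  exact fn_app hy (nz_mem_omega m)

private theorem fgr_mono {y : ZFSet.{0}} (n : ℕ) :
    fgr (app y) (nz n) ⊆ fgr (app y) (nz (n + 1)) := by
  intro t ht
  obtain ⟨i, hi, rfl⟩ := mem_fgr.1 ht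
  obtain ⟨m, hm, rfl⟩ := mem_nz.1 hi
  exact mem_fgr.2 ⟨nz m, nz_mem_nz.2 (by omega), rfl⟩

private theorem fgr_ne {y : ZFSet.{0}} (n : ℕ) :
    fgr (app y) (nz n) ≠ fgr (app y) (nz (n + 1)) := by
  intro h
  have h1 : pair (nz n) (app y (nz n)) ∈ fgr (app y) (nz (n + 1)) :=
    pair_mem_fgr.2 ⟨nz_mem_nz.2 (Nat.lt_succ_self n), rfl⟩
  rw [← h] at h1
  exact lt_irrefl n (nz_mem_nz.1 (pair_mem_fgr.1 h1).1)

/-- the two functions agree on the smaller domain -/
private theorem app_of_sub {a b c d w y i : ZFSet.{0}} (hw : IsFunc a b w) (hy : IsFunc c d y)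
    (h : w ⊆ y) (hi : i ∈ a) : app w i = app y i :=
  (fn_pair hy (h (fn_app hw hi))).2.2

theorem Pr1_V {N : Set ZFSet.{0}} (hN : TM N) {T z : ZFSet.{0}} (hT : T ∈ N) (hz : z ∈ N) :
    Pr N 1 T z ↔ ∀ y, IsFunc omega omega y → ¬ Cl0 T (jn y z) := by
  constructor
  · intro hall y hy hcl
    -- the constant function
    set x : ZFSet.{0} := fgr (fun _ => ∅) omega with hxdef
    have hxN : x ∈ N := by
      have h1 : UF (fun _ _ => fgr (fun _ => (∅ : ZFSet.{0})) omega) := by infer_instance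
      exact h1.mem N hN (fun _ => z) (fun _ => hz)
    have h0 : (∅ : ZFSet.{0}) ∈ omega := nz_mem_omega 0
    have hx : IsFunc omega omega x := fn_fgr fun _ _ => h0
    have hbr : HBr (Tr T z) x := by
      refine ⟨fun n => fgr (app y) (nz n), fun n => ⟨?_, fgr_mono n, fgr_ne n⟩⟩
      refine ⟨nz n, nz_mem_omega n, fgr_isFunc hy n, fgr (app x) (nz n), fgr_sub hx n,
        fgr_isFunc hx n, ?_⟩
      refine pair_mem_Tr.2 ⟨HF_pair (fn_fin omega_sub_HF (fgr_isFunc hx n))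
        (fn_fin omega_sub_HF (fgr_isFunc hy n)), nz n, nz_mem_omega n, fgr_isFunc hx n,
        fgr_isFunc hy n, ?_⟩
      intro k hk
      obtain ⟨k', hk', rfl⟩ := mem_nz.1 hk
      rw [jn_inter (fgr_isFunc hy n) hy (fgr_sub hy n) hk'.le]
      exact hcl _ (nz_mem_omega k')
    obtain ⟨g, hgN, hg, hgn⟩ := (HBr_iff hN (Tr_mem hN hT hz) hxN).1 hbr
    -- lengths
    have hlen : ∀ n : ℕ, ∃ l : ℕ, IsFunc (nz l) omega (app g (nz n)) ∧
        ∃ s, pair s (app g (nz n)) ∈ Tr T z := by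
      intro n
      obtain ⟨⟨l, hl, h1, s, hs, h2, h3⟩, -⟩ := hgn (nz n) (nz_mem_omega n)
      obtain ⟨l, rfl⟩ := mem_omega.1 hl
      exact ⟨l, h1, s, h3⟩
    choose l hl s hsT using hlen
    have hsub1 : ∀ n : ℕ, app g (nz n) ⊆ app g (nz (n + 1)) := fun n =>
      (hgn (nz n) (nz_mem_omega n)).2.1
    have hne : ∀ n : ℕ, app g (nz n) ≠ app g (nz (n + 1)) := fun n =>
      (hgn (nz n) (nz_mem_omega n)).2.2
    have hsub : ∀ m n : ℕ, m ≤ n → app g (nz m) ⊆ app g (nz n) := by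
      intro m n hmn
      induction n, hmn using Nat.le_induction with
      | base => exact fun t ht => ht
      | succ n _ ih => exact fun t ht => hsub1 n (ih ht)
    have hle' : ∀ {a b : ℕ} {w w' : ZFSet.{0}}, IsFunc (nz a) omega w → IsFunc (nz b) omega w' →
        w ⊆ w' → a ≤ b := by
      intro a b w w' ha hb hs
      by_contra hc
      push Not at hc
      have h1 : nz b ∈ nz a := nz_mem_nz.2 hc
      have h3 := (fn_pair hb (hs (fn_app ha h1))).1
      exact lt_irrefl _ (nz_mem_nz.1 h3)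
    have hlt : ∀ n : ℕ, l n < l (n + 1) := by
      intro n
      by_contra hcon
      push Not at hcon
      refine hne n ?_
      have heq : l n = l (n + 1) := le_antisymm (hle' (hl n) (hl (n + 1)) (hsub1 n)) hcon
      have h4 := hl (n + 1)
      rw [← heq] at h4
      exact fn_ext (hl n) h4 fun i hi => app_of_sub (hl n) (hl (n + 1)) (hsub1 n) hi
    have hge : ∀ n : ℕ, n ≤ l n := by
      intro n
      induction n with
      | zero => exact Nat.zero_le _
      | succ n ih => exact (Nat.succ_le_succ ih).trans (hlt n)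
    -- the branch
    set y' : ZFSet.{0} := ⋃₀ (rng g) with hydef
    have hyN : y' ∈ N := by
      have h1 : UF (fun _ v => (⋃₀ (rng (v 0)) : ZFSet)) := UF.sUnion (UF.rng (UF.var 0))
      exact h1.mem N hN (fun _ => g) (fun _ => hgN)
    have hmy : ∀ t, t ∈ y' ↔ ∃ n : ℕ, t ∈ app g (nz n) := by
      intro t
      rw [hydef, mem_sUnion]
      constructor
      · rintro ⟨w, hw, ht⟩
        obtain ⟨i, hi⟩ := mem_rng.1 hw
        obtain ⟨hi1, -, rfl⟩ := fn_pair hg hi
        obtain ⟨n, rfl⟩ := mem_omega.1 hi1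
        exact ⟨n, ht⟩
      · rintro ⟨n, hn⟩
        exact ⟨_, mem_rng.2 ⟨_, fn_app hg (nz_mem_omega n)⟩, hn⟩
    have hyf : IsFunc omega omega y' := by
      refine ⟨?_, ?_⟩
      · intro t ht
        obtain ⟨n, hn⟩ := (hmy t).1 ht
        obtain ⟨i, hi, rfl⟩ := fn_elt (hl n) hn
        obtain ⟨m, -, rfl⟩ := mem_nz.1 hi
        exact pair_mem_prod.2 ⟨nz_mem_omega m, fn_mem (hl n) hi⟩
      · intro i hi
        obtain ⟨m, rfl⟩ := mem_omega.1 hi
        have hm : nz m ∈ nz (l (m + 1)) := nz_mem_nz.2 (hge (m + 1))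
        refine ⟨app (app g (nz (m + 1))) (nz m), (hmy _).2 ⟨m + 1, fn_app (hl (m + 1)) hm⟩, ?_⟩
        intro z hz
        obtain ⟨n, hn⟩ := (hmy _).1 hz
        have h1 : pair (nz m) z ∈ app g (nz (max n (m + 1))) := hsub _ _ (le_max_left _ _) hn
        have h2 : pair (nz m) (app (app g (nz (m + 1))) (nz m)) ∈ app g (nz (max n (m + 1))) :=
          hsub _ _ (le_max_right _ _) (fn_app (hl (m + 1)) hm)
        rw [(fn_pair (hl _) h1).2.2, ← (fn_pair (hl _) h2).2.2]
    refine hall y' ⟨hyN, hyf⟩ ?_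
    show Cl0 T (jn y' z)
    intro k hk
    obtain ⟨k, rfl⟩ := mem_omega.1 hk
    obtain ⟨-, n, hn, -, hn2, hn3⟩ := pair_mem_Tr.1 (hsT (k + 1))
    obtain ⟨n, rfl⟩ := mem_omega.1 hn
    have hln : l (k + 1) ≤ n := hle' (hl (k + 1)) hn2 fun _ h => h
    have hkn : nz k ∈ nz n := nz_mem_nz.2 ((hge (k + 1)).trans hln)
    have hsy : app g (nz (k + 1)) ⊆ y' := fun t ht => (hmy t).2 ⟨k + 1, ht⟩
    rw [← jn_inter hn2 hyf hsy (nz_mem_nz.1 hkn).le]
    exact hn3 _ hkn
  · intro hall y hy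
    exact hall y hy.2

theorem Pr1_abs {N N' : Set ZFSet.{0}} (hN : TM N) (hN' : TM N') {T z : ZFSet.{0}} (hT : T ∈ N)
    (hz : z ∈ N) (hT' : T ∈ N') (hz' : z ∈ N') : Pr N 1 T z ↔ Pr N' 1 T z :=
  (Pr1_V hN hT hz).trans (Pr1_V hN' hT' hz').symm

end H83.PN
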