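import Pool.Agent.H83.PN.TRa
import Pool.Agent.H83.PN.PSe
import Pool.Agent.H83.PN.PVb
import Pool.Agent.H83.PN.GTru
import Pool.Agent.H83.PN.GEx

set_option autoImplicit false

/-!
# Module TRb: projections of generic sets, semantic form of the first level

`Gd_W`: `W ⊆ W'`: the sequence `ws (rU r)` is an initial segment of `ws (rU r')`; `Ws_W`, `Ws_mono`, `Nx_uniq`.
`Gen_proj`: `g` is generic over `W'` for `P(u',v')`; `g' = {q : QQ v q ∧ q ∈ g}`. Upward closed: `QLe_v`, `QLe_u`. Directed: for `q₁, q₂ ∈ g'` take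
`p ∈ g` below both and `rqS p (vS v) (vL v)` (`QQ_rqS`, `rqS_le`). Generic: for `D ∈ W` dense in `P(u,v)` the set
`{q' ∈ QP v' : ∃ d ∈ D, QLe u' v q' d} ∈ W'` is dense by `sealing`.
`F1_iff`: `N' = NN (cls W) (Sq u v) g` is a model (`NN_tm`, `Sys_Sq`, `Sq u v ∈ W`). (→) `truth` for `phi1`: `phi1_iff`, `val_rn` (the names
`rn S T` are hereditarily symmetric: `HS_triv`, or `HS_rn` with `m = ∅`), then `Pr1_V` (`ev_mem_triv`). (←) if `F1c` fails then by `Fc_dense` there is `q' ≤ q` such that no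
`q'' ≤ q'` forces `phi1`. Let `g` be generic over `W` with `q' ∈ g` (`exists_gen`, `W` is countable). `Pr .. ` holds for `g`, so by
`truth` some `q₁ ∈ g` forces `phi1`; a common extension of `q₁` and `q'` contradicts the choice of `q'`.
-/

namespace H83.PN

open ZFSet H83.AC

private theorem TRb_le {α β : ZFSet.{0}} (ha : rk α = α) (hb : rk β = β) (h : α ⊆ β) :
    α ∈ β ∨ α = β := by
  rcases lt_trichotomy (rank α) (rank β) with h1 | h1 | h1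
  · left
    have h2 := rk_mem_rk.2 h1
    rwa [ha, hb] at h2
  · right
    have h2 := rk_eq_rk.2 h1
    rwa [ha, hb] at h2
  · have h2 := rk_mem_rk.2 h1
    rw [ha, hb] at h2
    exact absurd (h h2) (ZFSet.mem_irrefl _)

theorem Gd_W {A r r' W W' : ZFSet.{0}} (h : Gd A r W) (h' : Gd A r' W') (hs : rU r ⊆ rU r') :
    W ⊆ W' ∧ (W = W' ∨ W ∈ W') := by
  obtain ⟨-, -, -, hu, -, -, -, hN, -, -⟩ := h
  obtain ⟨-, -, -, hu', -, -, -, hN', -, -⟩ := h'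
  obtain ⟨h1, h2, -⟩ := UU_sub hu hu' hs
  have h3 : fgr (fun β => uW (rU r') β) (dom (rU r)) = ws (rU r) := by
    rw [ws]
    refine fgr_congr fun β hβ => ?_
    rw [uW, uW, h2 β hβ]
  rcases TRb_le hu.1 hu'.1 h1 with h4 | h4
  · obtain ⟨h5, h6, h7⟩ := UU_ws hu'
    have h8 := hu'.2.2.1 _ h4
    rw [h3] at h8
    have h9 : W = uW (rU r') (dom (rU r)) := Nx_uniq hN h8
    have h10 : dom (rU r) ∈ dom (ws (rU r')) := by rw [h6]; exact h4
    obtain ⟨h11, h12, -⟩ := Ws_W h5 hN' h10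
    rw [h7 _ h4, ← h9] at h11 h12
    exact ⟨h12, Or.inr h11⟩
  · have h5 : ws (rU r) = ws (rU r') := by
      rw [← h3, h4, ws]
    rw [h5] at hN
    have h6 : W = W' := Nx_uniq hN hN'
    exact ⟨by rw [h6], Or.inl h6⟩

private theorem TRb_lt {A r r' W W' : ZFSet.{0}} (h : Gd A r W) (h' : Gd A r' W')
    (hr : RLe r' r) {p q : ZFSet.{0}} (hq : QQ (rV r) q) :
    QLe (rU r') (rV r') p q ↔ QLe (rU r) (rV r) p q := by
  rw [QLe_v hr.2.1 hq]
  exact QLe_u h.2.2.2.1 h'.2.2.2.1 hr.1 (by rw [h.2.2.2.2.2.1]) hq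

theorem Gen_proj {A r r' W W' : ZFSet.{0}} (h : Gd A r W) (h' : Gd A r' W') (hr : RLe r' r)
    {g : Set ZFSet.{0}} (hg : Gen (cls W') (Sq (rU r') (rV r')) g) :
    Gen (cls W) (Sq (rU r) (rV r)) {q | QQ (rV r) q ∧ q ∈ g} := by
  have hle := hr.2.1
  have hW' : TM (cls W') := h'.2.2.2.2.2.2.2.1.1.1
  have hgQ : ∀ q ∈ g, QQ (rV r') q := by
    intro q hq
    have h1 := hg.sub q hq
    rw [sP_Sq, mem_QP] at h1
    exact h1
  constructor
  · rintro p ⟨hp, -⟩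
    rw [sP_Sq, mem_QP]
    exact hp
  · rintro p ⟨hp, hpg⟩ q hq hpq
    rw [sP_Sq, mem_QP] at hq
    rw [Le_Sq] at hpq
    refine ⟨hq, hg.up p hpg q ?_ ?_⟩
    · rw [sP_Sq, mem_QP]
      exact QQ_mono hle hq
    · rw [Le_Sq]
      exact ⟨QQ_mono hle hp, QQ_mono hle hq, (TRb_lt h h' hr hq).2 hpq.2.2⟩
  · rintro q₁ ⟨hq₁, hg₁⟩ q₂ ⟨hq₂, hg₂⟩
    obtain ⟨p, hpg, hp1, hp2⟩ := hg.dir q₁ hg₁ q₂ hg₂
    rw [Le_Sq] at hp1 hp2
    have hpQ := hgQ p hpg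
    obtain ⟨h1, h2⟩ := QQ_rqS (u := rU r') hpQ hle
    refine ⟨rqS p (vS (rV r)) (vL (rV r)), ⟨h1, hg.up p hpg _ ?_ ?_⟩, ?_, ?_⟩
    · rw [sP_Sq, mem_QP]
      exact QQ_mono hle h1
    · rw [Le_Sq]
      exact ⟨hpQ, QQ_mono hle h1, (QLe_v hle h1).2 h2⟩
    · rw [Le_Sq]
      exact ⟨h1, hq₁, rqS_le hq₁ hpQ hle ((TRb_lt h h' hr hq₁).1 hp1.2.2)⟩
    · rw [Le_Sq]
      exact ⟨h1, hq₂, rqS_le hq₂ hpQ hle ((TRb_lt h h' hr hq₂).1 hp2.2.2)⟩
  · intro D hD hDs hDd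
    have hWW : W ⊆ W' := (Gd_W h h' hr.1).1
    have huW : rU r ∈ W := h.2.2.2.2.2.2.2.2.1
    have hvW : rV r ∈ W := h.2.2.2.2.2.2.2.2.2
    have huW' : rU r' ∈ W' := h'.2.2.2.2.2.2.2.2.1
    have hvW' : rV r' ∈ W' := h'.2.2.2.2.2.2.2.2.2
    have hDP : ∀ q ∈ D, QQ (rV r) q := by
      intro q hq
      have h1 := hDs hq
      rw [sP_Sq, mem_QP] at h1
      exact h1
    have hDd' : ∀ q, QQ (rV r) q → ∃ q₁ ∈ D, QLe (rU r) (rV r) q₁ q := by
      intro q hq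
      obtain ⟨q₁, h1, h2⟩ := hDd q (by rw [sP_Sq, mem_QP]; exact hq)
      rw [Le_Sq] at h2
      exact ⟨q₁, h1, h2.2.2⟩
    have hUF : UF (fun _ v => ZFSet.sep (fun q' => ∃ d ∈ v 0, QLe (v 1) (v 2) q' d)
        (QP (v 3))) := by infer_instance
    have hD' : ZFSet.sep (fun q' => ∃ d ∈ D, QLe (rU r') (rV r) q' d) (QP (rV r')) ∈ cls W' :=
      hUF.mem (cls W') hW' (cons D (cons (rU r') (cons (rV r) (fun _ => rV r')))) (fun n => by
        match n with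
        | 0 => exact hWW hD
        | 1 => exact huW'
        | 2 => exact hWW hvW
        | n + 3 => exact hvW')
    obtain ⟨q', hq', hq'g⟩ := hg.meet _ hD' (fun q hq => by
      rw [sP_Sq]
      exact (mem_sep.1 hq).1) (fun q hq => by
      rw [sP_Sq, mem_QP] at hq
      obtain ⟨d, hd, q₂, h1, h2, -, h3⟩ := sealing h.2.2.2.1 h.2.2.2.2.1 h.2.2.2.2.2.1
        h.2.2.2.2.2.2.2.1 huW hvW hD hDP hDd' h'.2.2.2.1 h'.2.2.2.2.1 h'.2.2.2.2.2.1 hr.1 hle hq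
      refine ⟨q₂, mem_sep.2 ⟨mem_QP.2 h1, d, hd, h3⟩, ?_⟩
      rw [Le_Sq]
      exact ⟨h1, hq, h2⟩)
    obtain ⟨hq'P, d, hd, hq'd⟩ := mem_sep.1 hq'
    refine ⟨d, hd, hDP d hd, hg.up q' hq'g d ?_ ?_⟩
    · rw [sP_Sq, mem_QP]
      exact QQ_mono hle (hDP d hd)
    · rw [Le_Sq]
      exact ⟨hgQ q' hq'g, QQ_mono hle (hDP d hd), (QLe_v hle (hDP d hd)).2 hq'd⟩

theorem ev_proj {v e : ZFSet.{0}} {g : Set ZFSet.{0}}
    (he : ∀ t ∈ e, t = pair (fst t) (snd t) ∧ QQ v (fst t)) :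
    ev {q | QQ v q ∧ q ∈ g} e = ev g e := by
  ext x
  rw [mem_ev, mem_ev]
  constructor
  · rintro ⟨p, hp, hx⟩
    exact ⟨p, hp.2, hx⟩
  · rintro ⟨p, hp, hx⟩
    have h1 := (he _ hx).2
    rw [fst_pair] at h1
    exact ⟨p, ⟨h1, hp⟩, hx⟩

theorem ev_HF {W v e : ZFSet.{0}} {g : Set ZFSet.{0}} (he : SNm W v e) : ev g e ⊆ HF := by
  intro x hx
  rw [mem_ev] at hx
  obtain ⟨p, -, hx⟩ := hx
  have h1 := (he.2.1 _ hx).2.2
  rwa [snd_pair] at h1

/-- the first level holds for the evaluations of the names -/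
def P1g (g : Set ZFSet.{0}) (T z : ZFSet.{0}) : Prop :=
  ∀ y, IsFunc omega omega y → ¬ Cl0 (ev g T) (jn y (ev g z))

private theorem TRb_sH {u v a : ZFSet.{0}} (ha : a ∈ app (sH (Sq u v)) ∅) :
    a = fgr (fun p => p) (QP v) := by
  have h1 : sH (Sq u v) =
      fgr (fun _ => ({fgr (fun p => p) (dom (QO u v))} : ZFSet.{0})) omega := by
    simp [sH, Sq, triv]
  rw [h1, app_fgr omega_zero, dom_QO] at ha
  exact mem_singleton.1 ha

private theorem TRb_sub {W u v e : ZFSet.{0}} (he : SNm W v e) :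
    e ⊆ ZFSet.prod (sP (Sq u v)) HF := by
  intro t ht
  obtain ⟨h1, h2, h3⟩ := he.2.1 t ht
  rw [h1, sP_Sq]
  exact pair_mem_prod.2 ⟨h2, h3⟩

private theorem TRb_HS {W u v e : ZFSet.{0}} (he : SNm W v e) : HS (Sq u v) (rn (Sq u v) e) := by
  refine HS_rn (Sys_Sq u v) omega_zero (TRb_sub he) fun a ha p x hx => ?_
  rw [TRb_sH ha]
  have h1 := (he.2.1 _ hx).2.1
  rw [fst_pair] at h1
  rw [app_fgr h1]
  exact hx

private theorem TRb_rn {W u v e : ZFSet.{0}} (hW : TM (cls W)) (hS : Sq u v ∈ cls W)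
    (he : SNm W v e) : rn (Sq u v) e ∈ cls W := by
  have h1 : UF (fun _ v => rn (v 0) (v 1)) := by infer_instance
  exact h1.mem (cls W) hW (cons (Sq u v) (fun _ => e)) (fun n => by
    match n with
    | 0 => exact hS
    | n + 1 => exact he.1)

theorem F1_truth {A r W T z : ZFSet.{0}} (h : Gd A r W) (hT : SNm W (rV r) T)
    (hz : SNm W (rV r) z) {g : Set ZFSet.{0}} (hg : Gen (cls W) (Sq (rU r) (rV r)) g) :
    P1g g T z ↔ ∃ q ∈ g, F1 W (pair (rU r) (pair (rV r) q)) T z := by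
  have hW : TM (cls W) := h.2.2.2.2.2.2.2.1.1.1
  have huW : rU r ∈ W := h.2.2.2.2.2.2.2.2.1
  have hvW : rV r ∈ W := h.2.2.2.2.2.2.2.2.2
  have hS := Sys_Sq (rU r) (rV r)
  have hSq : UF (fun _ v => Sq (v 0) (v 1)) := by infer_instance
  have hSW : Sq (rU r) (rV r) ∈ cls W :=
    hSq.mem (cls W) hW (cons (rU r) (fun _ => rV r)) (fun n => by
      match n with
      | 0 => exact huW
      | n + 1 => exact hvW)
  have hQP : QP (rV r) ∈ cls W := by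
    have h1 : UF (fun _ v => QP (v 0)) := by infer_instance
    exact h1.mem (cls W) hW (fun _ => rV r) (fun _ => hvW)
  have hN := NN_tm hW hS hSW hg
  have htop := top_mem hW hS hSW hg
  have hv0 : ∀ i, st2 (rn (Sq (rU r) (rV r)) T) (rn (Sq (rU r) (rV r)) z) i ∈ cls W ∧
      HS (Sq (rU r) (rV r)) (st2 (rn (Sq (rU r) (rV r)) T) (rn (Sq (rU r) (rV r)) z) i) := by
    intro i
    unfold st2
    split_ifs
    · exact ⟨TRb_rn hW hSW hT, TRb_HS hT⟩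
    · exact ⟨TRb_rn hW hSW hz, TRb_HS hz⟩
  have hval : ∀ i, val g (st2 (rn (Sq (rU r) (rV r)) T) (rn (Sq (rU r) (rV r)) z) i) ∈
      NN (cls W) (Sq (rU r) (rV r)) g := fun i => ⟨_, (hv0 i).1, (hv0 i).2, rfl⟩
  have e0 : val g (st2 (rn (Sq (rU r) (rV r)) T) (rn (Sq (rU r) (rV r)) z) 0) = ev g T :=
    val_rn (TRb_sub hT) htop
  have e1 : val g (st2 (rn (Sq (rU r) (rV r)) T) (rn (Sq (rU r) (rV r)) z) 1) = ev g z :=
    val_rn (TRb_sub hz) htop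
  have hTN : ev g T ∈ NN (cls W) (Sq (rU r) (rV r)) g := by
    rw [← e0]
    exact hval 0
  have hzN : ev g z ∈ NN (cls W) (Sq (rU r) (rV r)) g := by
    rw [← e1]
    exact hval 1
  have h1 := truth hW hS hSW hg phi1 _ hv0
  have h2 := phi1_iff hN hval
  have h3 := Pr1_V hN hTN hzN
  rw [e0, e1] at h2
  unfold P1g
  rw [← h3, h2, h1]
  constructor
  · rintro ⟨q, hq, hF⟩
    have hqP := hg.sub q hq
    have hqW : q ∈ cls W := hW.tr _ hQP _ (by rw [sP_Sq] at hqP; exact hqP)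
    refine ⟨q, hq, hW, hW.pair huW (hW.pair hvW hqW), hT.1, hz.1, ?_⟩
    unfold F1c
    simp only [rU, rV, rQ, fst_pair, snd_pair] at hqP hF ⊢
    exact ⟨hqP, hF⟩
  · rintro ⟨q, hq, -, -, -, -, hF⟩
    refine ⟨q, hq, ?_⟩
    unfold F1c at hF
    simp only [rU, rV, rQ, fst_pair, snd_pair] at hF ⊢
    exact hF.2

theorem F1_iff {A r W T z : ZFSet.{0}} (h : Gd A r W) (hc : (cls W).Countable)
    (hT : SNm W (rV r) T) (hz : SNm W (rV r) z) : F1 W r T z ↔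
      ∀ g, Gen (cls W) (Sq (rU r) (rV r)) g → rQ r ∈ g → P1g g T z := by
  have hr : r = pair (rU r) (pair (rV r) (rQ r)) := h.2.2.1
  have hW : TM (cls W) := h.2.2.2.2.2.2.2.1.1.1
  have huW : rU r ∈ W := h.2.2.2.2.2.2.2.2.1
  have hvW : rV r ∈ W := h.2.2.2.2.2.2.2.2.2
  have hS := Sys_Sq (rU r) (rV r)
  have hQP : QP (rV r) ∈ cls W := by
    have h1 : UF (fun _ v => QP (v 0)) := by infer_instance
    exact h1.mem (cls W) hW (fun _ => rV r) (fun _ => hvW)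
  constructor
  · intro hF g hg hq
    exact (F1_truth h hT hz hg).2 ⟨rQ r, hq, by rw [← hr]; exact hF⟩
  · intro H
    have hqP : rQ r ∈ sP (Sq (rU r) (rV r)) := by
      rw [sP_Sq, mem_QP]
      exact h.2.2.2.2.2.2.1
    have hqW : rQ r ∈ cls W := hW.tr _ hQP _ (by rw [sP_Sq] at hqP; exact hqP)
    have hrW : r ∈ W := by
      rw [hr]
      exact hW.pair huW (hW.pair hvW hqW)
    refine ⟨hW, hrW, hT.1, hz.1, hqP, ?_⟩
    refine Fc_dense hS phi1 hqP fun q hq hqr => ?_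
    obtain ⟨g, hg, hqg⟩ := exists_gen hc hS hq
    have hrg := hg.up q hqg _ hqP hqr
    obtain ⟨q₁, hq₁, hF⟩ := (F1_truth h hT hz hg).1 (H g hg hrg)
    obtain ⟨q₂, hq₂, h1, h2⟩ := hg.dir q₁ hq₁ q hqg
    obtain ⟨-, -, -, -, hF1⟩ := hF
    unfold F1c at hF1
    have hF2 : Fc (cls W) (Sq (rU r) (rV r)) phi1 q₁
        (st2 (rn (Sq (rU r) (rV r)) T) (rn (Sq (rU r) (rV r)) z)) := by
      simp only [rU, rV, rQ, fst_pair, snd_pair] at hF1 ⊢
      exact hF1.2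
    exact ⟨q₂, hg.sub q₂ hq₂, h2, Fc_mono hS phi1 h1 hF2⟩

end H83.PN
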