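import Pool.Agent.H83.PN.TRb

set_option autoImplicit false

/-!
# Module TRc: monotonicity

`SNm_mono`: `QP v ⊆ QP v'`. `RNm_mono`: predensity: for `i ∈ omega` the set `D = {q ∈ QP v : ∃ t ∈ e, fst (snd t) = i, QLe u v q (fst t)} ∈ W` is dense, so
predense in `P(u',v')` by `sealing`. Uniqueness: if `q' ∈ QP v'` is below `fst t` and `fst t'`, so is `rqS q' (vS v) (vL v)`.
`F1_mono`: `F1_iff` for `r'`: let `g` be generic over `W'` with `rQ r' ∈ g`; `Gen_proj`, `rQ r` is in the projection (weaker than `rQ r'`; `QLe_u`),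
`F1_iff` for `r`, `ev_proj`. `FF_mono` by induction on `j`: `j + 1`: `Nm2` from `SNm_mono`, and conditions below `r'` are below `r` (`RLe_trans`).
-/

namespace H83.PN

open ZFSet H83.AC

variable {M : Set ZFSet.{0}} {K H : ZFSet.{0}}

private theorem TRc_ct (hG : Gr M K H) {W : ZFSet.{0}} (h : W ∈ H) : (cls W).Countable :=
  hG.ctbl.mono fun x hx => hG.tm.tr W (H_sub_M hG h) x hx

private theorem TRc_DW {u v e i W : ZFSet.{0}} (hW : Wd W) (hu : u ∈ W) (hv : v ∈ W)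
    (he : e ∈ W) (hi : i ∈ W) :
    ZFSet.sep (fun q => ∃ t ∈ e, fst (snd t) = i ∧ QLe u v q (fst t)) (QP v) ∈ W := by
  have h1 : UR (fun _ w => ∃ t ∈ w 3, H83.AC.fst (H83.AC.snd t) = w 4 ∧
      H83.PN.QLe (w 1) (w 2) (w 0) (H83.AC.fst t)) := by infer_instance
  have h2 : QP v ∈ W :=
    Wd_uf (F := fun _ v => QP (v 0)) (Inst.QP (hf := UF.var 0)) hW (v := fun _ => v) (fun _ => hv)
  refine TM.sep_of (R := fun _ x w => ∃ t ∈ w 2, fst (snd t) = w 3 ∧ QLe (w 0) (w 1) x (fst t))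
    h1 hW.1 (v := cons u (cons v (cons e (cons i (fun _ => e))))) ?_ h2
  intro n
  match n with
  | 0 => exact hu
  | 1 => exact hv
  | 2 => exact he
  | 3 => exact hi
  | n + 4 => exact he

theorem SNm_mono {W W' v v' e : ZFSet.{0}} (hW : W ⊆ W') (h : VLe v' v) (he : SNm W v e) :
    SNm W' v' e := by
  obtain ⟨h1, h2, m, hm, h3⟩ := he
  exact ⟨hW h1, fun t ht => ⟨(h2 t ht).1, mem_QP.2 (QQ_mono h (mem_QP.1 (h2 t ht).2.1)),
    (h2 t ht).2.2⟩, m, hm, h3⟩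

theorem RNm_mono {A r r' W W' e : ZFSet.{0}} (h : Gd A r W) (h' : Gd A r' W') (hr : RLe r' r)
    (he : RNm W (rU r) (rV r) e) : RNm W' (rU r') (rV r') e := by
  have hWW := (Gd_W h h' hr.1).1
  obtain ⟨-, -, -, hu, hv, hd, -, hW, huW, hvW⟩ := h
  obtain ⟨-, -, -, hu', hv', hd', -, -, -, -⟩ := h'
  obtain ⟨hs, hle, -⟩ := hr
  obtain ⟨he1, he2, he3, he4⟩ := he
  have hdl : vL (rV r) ⊆ dom (rU r) := by rw [hd]
  refine ⟨SNm_mono hWW hle he1, he2, ?_, ?_⟩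
  · intro i hi q hq
    have hiW : i ∈ W := hW.1.1.tr _ (Wd_omega hW.1).1 i hi
    obtain ⟨d, hdD, q₂, hq₂, k1, -, k2⟩ := sealing hu hv hd hW huW hvW
      (TRc_DW hW.1 huW hvW he1.1 hiW) (fun q hq => mem_QP.1 (mem_sep.1 hq).1) (by
        intro q hq
        obtain ⟨q', a1, a2, t, ht, a3, a4⟩ := he3 i hi q (mem_QP.2 hq)
        exact ⟨q', mem_sep.2 ⟨a1, t, ht, a3, a4⟩, a2⟩) hu' hv' hd' hs hle (mem_QP.1 hq)
    obtain ⟨hdP, t, ht, h3, h4⟩ := mem_sep.1 hdD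
    have hdQ := mem_QP.1 hdP
    have htQ := mem_QP.1 (he1.2.1 t ht).2.1
    refine ⟨q₂, mem_QP.2 hq₂, k1, t, ht, h3, ?_⟩
    have b1 : QLe (rU r') (rV r') q₂ d := (QLe_v hle hdQ).2 k2
    have b2 : QLe (rU r') (rV r) d (fst t) := (QLe_u hu hu' hs hdl htQ).2 h4
    exact (QLe_v hle htQ).2 (QLe_trans hle htQ b1 b2)
  · rintro t ht t' ht' hft ⟨q, hq, c1, c2⟩
    have key : ∀ z ∈ e, QLe (rU r') (rV r') q (fst z) →
        QLe (rU r) (rV r) (rqS q (vS (rV r)) (vL (rV r))) (fst z) := by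
      intro z hz hc
      have hzQ := mem_QP.1 (he1.2.1 z hz).2.1
      have a1 := (QLe_v hle hzQ).1 hc
      exact (QLe_u hu hu' hs hdl hzQ).1 (rqS_le hzQ (mem_QP.1 hq) hle a1)
    exact he4 t ht t' ht' hft ⟨_, mem_QP.2 (QQ_rqS (u := rU r) (mem_QP.1 hq) hle).1,
      key t ht c1, key t' ht' c2⟩

theorem F1_mono {A r r' W W' T z : ZFSet.{0}} (h : Gd A r W) (h' : Gd A r' W') (hr : RLe r' r)
    (hc : (cls W).Countable) (hc' : (cls W').Countable) (hT : SNm W (rV r) T)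
    (hz : SNm W (rV r) z) (hF : F1 W r T z) : F1 W' r' T z := by
  have hWW := (Gd_W h h' hr.1).1
  rw [F1_iff h' hc' (SNm_mono hWW hr.2.1 hT) (SNm_mono hWW hr.2.1 hz)]
  intro g hg hq
  have h1 := Gen_proj h h' hr hg
  have hQ : QQ (rV r) (rQ r) := h.2.2.2.2.2.2.1
  have hQ' : QQ (rV r') (rQ r') := h'.2.2.2.2.2.2.1
  have h2 : rQ r ∈ g := by
    refine hg.up _ hq _ (by rw [sP_Sq]; exact mem_QP.2 (QQ_mono hr.2.1 hQ)) ?_
    exact Le_Sq.2 ⟨hQ', QQ_mono hr.2.1 hQ, (QLe_v hr.2.1 hQ).2 hr.2.2⟩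
  have h3 := (F1_iff h hc hT hz).1 hF _ h1 ⟨hQ, h2⟩
  have e1 : ∀ e, SNm W (rV r) e → ev {q | QQ (rV r) q ∧ q ∈ g} e = ev g e := fun e he =>
    ev_proj fun t ht => ⟨(he.2.1 t ht).1, mem_QP.1 (he.2.1 t ht).2.1⟩
  unfold P1g at h3 ⊢
  rw [e1 T hT, e1 z hz] at h3
  exact h3

theorem FF_mono (hG : Gr M K H) {j : ℕ} {r r' W' T z : ZFSet.{0}} (h' : Gd H r' W')
    (hr : RLe r' r) (hF : FF H j r T z) : FF H j r' T z := by
  cases j with
  | zero =>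
    obtain ⟨W, hWH, hGd, hT, hz, hF⟩ := hF
    have hWW := (Gd_W hGd h' hr.1).1
    exact ⟨W', h'.2.1, h', SNm_mono hWW hr.2.1 hT, SNm_mono hWW hr.2.1 hz,
      F1_mono hGd h' hr (TRc_ct hG hWH) (TRc_ct hG h'.2.1) hT hz hF⟩
  | succ j =>
    obtain ⟨⟨W, hWH, hGd, hT, hz⟩, hF⟩ := hF
    have hWW := (Gd_W hGd h' hr.1).1
    refine ⟨⟨W', h'.2.1, h', SNm_mono hWW hr.2.1 hT, SNm_mono hWW hr.2.1 hz⟩, ?_⟩
    intro r'' hr'' y hy hle hR
    have hR' := hR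
    obtain ⟨W'', -, hGd'', -⟩ := hR'
    exact hF r'' hr'' y hy (RLe_trans hGd h' hGd''.2.2.2.1 hle hr) hR

theorem FF_Nm2 {A r T z : ZFSet.{0}} {j : ℕ} (h : FF A j r T z) : Nm2 A r T z := by
  cases j with
  | zero =>
    obtain ⟨W, hWH, hGd, hT, hz, -⟩ := h
    exact ⟨W, hWH, hGd, hT, hz⟩
  | succ j => exact h.1

theorem RNK_mono {A r r' W' y : ZFSet.{0}} (h' : Gd A r' W') (hr : RLe r' r) (hy : RNK A r y) :
    RNK A r' y := by
  obtain ⟨W, hW, hGd, he⟩ := hy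
  exact ⟨W', h'.2.1, h', RNm_mono hGd h' hr he⟩

theorem Nm2_mono {A r r' W' T z : ZFSet.{0}} (h' : Gd A r' W') (hr : RLe r' r)
    (hn : Nm2 A r T z) : Nm2 A r' T z := by
  obtain ⟨W, hW, hGd, hT, hz⟩ := hn
  have hWW := (Gd_W hGd h' hr.1).1
  exact ⟨W', h'.2.1, h', SNm_mono hWW hr.2.1 hT, SNm_mono hWW hr.2.1 hz⟩

theorem ev_jnN (g : Set ZFSet.{0}) {W v y z : ZFSet.{0}} (hy : SNm W v y) (hz : SNm W v z) :
    ev g (jnN y z) = jn (ev g y) (ev g z) := by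
  ext h
  rw [mem_ev]
  unfold jnN jn
  rw [ZFSet.mem_union]
  constructor
  · rintro ⟨p, hp, hph⟩
    rcases ZFSet.mem_union.1 hph with h1 | h1
    · left
      obtain ⟨t, ht, he⟩ := mem_img.1 h1
      obtain ⟨e1, e2⟩ := pair_inj.1 he
      refine mem_img.2 ⟨snd t, mem_ev.2 ⟨fst t, by rw [e1]; exact hp, ?_⟩, e2⟩
      rw [← (hy.2.1 t ht).1]
      exact ht
    · right
      obtain ⟨t, ht, he⟩ := mem_img.1 h1
      obtain ⟨e1, e2⟩ := pair_inj.1 he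
      refine mem_img.2 ⟨snd t, mem_ev.2 ⟨fst t, by rw [e1]; exact hp, ?_⟩, e2⟩
      rw [← (hz.2.1 t ht).1]
      exact ht
  · rintro (h1 | h1)
    · obtain ⟨a, ha, rfl⟩ := mem_img.1 h1
      obtain ⟨p, hp, hpa⟩ := mem_ev.1 ha
      refine ⟨p, hp, ZFSet.mem_union.2 (Or.inl (mem_img.2 ⟨_, hpa, ?_⟩))⟩
      rw [fst_pair, snd_pair]
    · obtain ⟨a, ha, rfl⟩ := mem_img.1 h1
      obtain ⟨p, hp, hpa⟩ := mem_ev.1 ha
      refine ⟨p, hp, ZFSet.mem_union.2 (Or.inr (mem_img.2 ⟨_, hpa, ?_⟩))⟩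
      rw [fst_pair, snd_pair]

theorem SNm_jnN {W v y z : ZFSet.{0}} (hW : Wd W) (hy : SNm W v y) (hz : SNm W v z) :
    SNm W v (jnN y z) := by
  obtain ⟨y1, y2, m, hm, y3⟩ := hy
  obtain ⟨z1, z2, m', hm', z3⟩ := hz
  obtain ⟨a, rfl⟩ := mem_omega.1 hm
  obtain ⟨b, rfl⟩ := mem_omega.1 hm'
  have hup : ∀ {c d : ℕ} {x : ZFSet.{0}}, x ∈ nz c → c ≤ d → x ∈ nz d := by
    intro c d x hx hcd
    obtain ⟨i, hi, rfl⟩ := mem_nz.1 hx
    exact nz_mem_nz.2 (by omega)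
  refine ⟨?_, ?_, nz (max a b), nz_mem_omega _, ?_⟩
  · refine Wd_uf (F := fun _ v => jnN (v 0) (v 1)) (by infer_instance) hW
      (v := cons y (fun _ => z)) ?_
    intro i
    cases i with
    | zero => exact y1
    | succ i => exact z1
  · intro t ht
    unfold jnN at ht
    rcases ZFSet.mem_union.1 ht with h1 | h1
    · obtain ⟨s, hs, rfl⟩ := mem_img.1 h1
      rw [fst_pair, snd_pair]
      exact ⟨rfl, (y2 s hs).2.1, HF_pair HF_empty (y2 s hs).2.2⟩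
    · obtain ⟨s, hs, rfl⟩ := mem_img.1 h1
      rw [fst_pair, snd_pair]
      exact ⟨rfl, (z2 s hs).2.1, HF_pair one_HF (z2 s hs).2.2⟩
  · intro t ht c hc
    unfold jnN at ht
    rcases ZFSet.mem_union.1 ht with h1 | h1
    · obtain ⟨s, hs, rfl⟩ := mem_img.1 h1
      rw [fst_pair] at hc
      exact hup (y3 s hs c hc) (le_max_left a b)
    · obtain ⟨s, hs, rfl⟩ := mem_img.1 h1
      rw [fst_pair] at hc
      exact hup (z3 s hs c hc) (le_max_right a b)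

end H83.PN
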