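import Pool.Agent.H83.PN.TSat

set_option autoImplicit false

/-!
# Module TTM: being a transitive set model of ZF is uniformly definable

`TM (cls K)` is: `K` transitive, and `IsZF (memN (cls K))`. Write every axiom as a statement with
quantifiers bounded by `K`. The schemas: for all `c ∈ FC`, all `s ∈ Asg K`, all `x ∈ K` there is
`y ∈ K` such that for all `z ∈ K`: `z ∈ y ↔ z ∈ x ∧ SatZ K c (acons z s)`; replacement in the same way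
with `SatZ K c (acons z (acons w s))`. The equivalence with the schemas for streams `v : ℕ → cls K`:
`φ` depends only on finitely many variables (`Fml.exists_bd`, `satIn_congr`), `exists_asg`, `asv_acons`,
`sat_iff`. Extensionality is automatic in transitive sets but may be written too.
In the relation `SatZ` always add the (true) condition `.. ∈ Asg K` to use `UR.SatZ`.
-/

namespace H83.PN

open ZFSet H83.AC

variable {f g h k l : Set ZFSet.{0} → (ℕ → ZFSet.{0}) → ZFSet.{0}}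

private def TTM_S (K c s : ZFSet.{0}) : Prop := s ∈ Asg K ∧ H83.PN.SatZ K c s

private instance TTM_inst [hf : UF f] [hg : UF g] [hh : UF h] :
    UR (fun N v => TTM_S (f N v) (g N v) (h N v)) := UR.SatZ hf hg hh

private def TTM_P (K : ZFSet.{0}) : Prop :=
  (∀ x ∈ K, ∀ y ∈ x, y ∈ K) ∧
  (∃ x ∈ K, x = x) ∧
  (∀ x ∈ K, ∀ y ∈ K, ∃ z ∈ K, ∀ w ∈ K, w ∈ z ↔ w = x ∨ w = y) ∧
  (∀ x ∈ K, ∃ u ∈ K, ∀ w ∈ K, w ∈ u ↔ ∃ y ∈ K, y ∈ x ∧ w ∈ y) ∧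
  (∀ x ∈ K, ∃ p ∈ K, ∀ w ∈ K, w ∈ p ↔ ∀ z ∈ K, z ∈ w → z ∈ x) ∧
  (∃ x ∈ K, (∃ e ∈ K, e ∈ x ∧ ∀ z ∈ K, ¬ z ∈ e) ∧
    ∀ y ∈ K, y ∈ x → ∃ s ∈ K, s ∈ x ∧ ∀ z ∈ K, z ∈ s ↔ z ∈ y ∨ z = y) ∧
  (∀ c ∈ H83.PN.FC, ∀ s ∈ Asg K, ∀ x ∈ K, ∃ y ∈ K, ∀ z ∈ K,
    z ∈ y ↔ z ∈ x ∧ TTM_S K c (acons z s)) ∧
  (∀ c ∈ H83.PN.FC, ∀ s ∈ Asg K, ∀ x ∈ K,
    (∀ z ∈ K, z ∈ x → ∃ w ∈ K, TTM_S K c (acons z (acons w s)) ∧
      ∀ w' ∈ K, TTM_S K c (acons z (acons w' s)) → w' = w) →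
    ∃ y ∈ K, ∀ w ∈ K, w ∈ y ↔ ∃ z ∈ K, z ∈ x ∧ TTM_S K c (acons z (acons w s)))

private theorem TTM_def : UR (fun _ v => TTM_P (v 0)) := by
  unfold TTM_P
  have h1 : UR (fun _ v => ∀ x ∈ v 0, ∀ y ∈ x, y ∈ v 0) := by infer_instance
  have h2 : UR (fun _ v => ∃ x ∈ v 0, x = x) := by infer_instance
  have h3 : UR (fun _ v => ∀ x ∈ v 0, ∀ y ∈ v 0, ∃ z ∈ v 0, ∀ w ∈ v 0,
      w ∈ z ↔ w = x ∨ w = y) := by infer_instance
  have h4 : UR (fun _ v => ∀ x ∈ v 0, ∃ u ∈ v 0, ∀ w ∈ v 0, w ∈ u ↔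
      ∃ y ∈ v 0, y ∈ x ∧ w ∈ y) := by infer_instance
  have h5 : UR (fun _ v => ∀ x ∈ v 0, ∃ p ∈ v 0, ∀ w ∈ v 0, w ∈ p ↔
      ∀ z ∈ v 0, z ∈ w → z ∈ x) := by infer_instance
  have h6 : UR (fun _ v => ∃ x ∈ v 0, (∃ e ∈ v 0, e ∈ x ∧ ∀ z ∈ v 0, ¬ z ∈ e) ∧
      ∀ y ∈ v 0, y ∈ x → ∃ s ∈ v 0, s ∈ x ∧ ∀ z ∈ v 0, z ∈ s ↔ z ∈ y ∨ z = y) := by
    infer_instance
  have h7 : UR (fun _ v => ∀ c ∈ H83.PN.FC, ∀ s ∈ Asg (v 0), ∀ x ∈ v 0, ∃ y ∈ v 0,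
      ∀ z ∈ v 0, z ∈ y ↔ z ∈ x ∧ TTM_S (v 0) c (acons z s)) := by
    infer_instance
  have h8 : UR (fun _ v => ∀ c ∈ H83.PN.FC, ∀ s ∈ Asg (v 0), ∀ x ∈ v 0,
      (∀ z ∈ v 0, z ∈ x → ∃ w ∈ v 0, TTM_S (v 0) c (acons z (acons w s)) ∧
        ∀ w' ∈ v 0, TTM_S (v 0) c (acons z (acons w' s)) → w' = w) →
      ∃ y ∈ v 0, ∀ w ∈ v 0, w ∈ y ↔ ∃ z ∈ v 0, z ∈ x ∧
        TTM_S (v 0) c (acons z (acons w s))) := by
    infer_instance
  exact UD.and h1 (UD.and h2 (UD.and h3 (UD.and h4 (UD.and h5 (UD.and h6 (UD.and h7 h8))))))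

private theorem TTM_coe {K : ZFSet.{0}} (z : cls K) (v : ℕ → cls K) :
    (fun n => ((cons z v n : cls K) : ZFSet.{0})) = cons (z : ZFSet.{0}) (fun n => (v n : ZFSet.{0})) := by
  funext n
  cases n <;> rfl

private theorem TTM_one {K : ZFSet.{0}} {φ : Fml} {s z : ZFSet.{0}} (hs : s ∈ Asg K) (hz : z ∈ K) :
    TTM_S K (fcd φ) (acons z s) ↔ SatIn (cls K) φ (cons z (asv s)) := by
  unfold TTM_S
  rw [SatZ_iff, asv_acons hs]
  exact ⟨fun h => h.2, fun h => ⟨acons_mem hz hs, h⟩⟩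

private theorem TTM_two {K : ZFSet.{0}} {φ : Fml} {s z w : ZFSet.{0}} (hs : s ∈ Asg K) (hz : z ∈ K)
    (hw : w ∈ K) :
    TTM_S K (fcd φ) (acons z (acons w s)) ↔ SatIn (cls K) φ (cons z (cons w (asv s))) := by
  rw [TTM_one (acons_mem hw hs) hz, asv_acons hs]

private theorem TTM_iff {K : ZFSet.{0}} : TM (cls K) ↔ TTM_P K := by
  constructor
  · intro hK
    have htr := hK.tr
    have hzf := hK.zf
    have h0 : (∅ : ZFSet.{0}) ∈ K := by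
      obtain ⟨x, ⟨e, he, he2⟩, -⟩ := hzf.infinity
      have : (e : ZFSet.{0}) = ∅ := by
        rw [ZFSet.eq_empty]
        intro y hy
        exact he2 ⟨y, htr e e.2 y hy⟩ hy
      rw [← this]
      exact e.2
    refine ⟨fun x hx y hy => htr x hx y hy, ?_, ?_, ?_, ?_, ?_, ?_, ?_⟩
    · exact ⟨∅, h0, rfl⟩
    · intro x hx y hy
      obtain ⟨z, hz⟩ := hzf.pairing ⟨x, hx⟩ ⟨y, hy⟩
      refine ⟨z, z.2, fun w hw => ?_⟩
      have := hz ⟨w, hw⟩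
      rw [Subtype.ext_iff, Subtype.ext_iff] at this
      exact this
    · intro x hx
      obtain ⟨u, hu⟩ := hzf.union ⟨x, hx⟩
      refine ⟨u, u.2, fun w hw => (hu ⟨w, hw⟩).trans ?_⟩
      constructor
      · rintro ⟨y, h1, h2⟩
        exact ⟨y, y.2, h1, h2⟩
      · rintro ⟨y, hy, h1, h2⟩
        exact ⟨⟨y, hy⟩, h1, h2⟩
    · intro x hx
      obtain ⟨p, hp⟩ := hzf.powerset ⟨x, hx⟩
      refine ⟨p, p.2, fun w hw => (hp ⟨w, hw⟩).trans ?_⟩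
      constructor
      · intro H z hz h1
        exact H ⟨z, hz⟩ h1
      · intro H z h1
        exact H z z.2 h1
    · obtain ⟨x, ⟨e, he, he2⟩, hx2⟩ := hzf.infinity
      refine ⟨x, x.2, ⟨e, e.2, he, fun z hz => he2 ⟨z, hz⟩⟩, fun y hy hyx => ?_⟩
      obtain ⟨s, hs, hs2⟩ := hx2 ⟨y, hy⟩ hyx
      refine ⟨s, s.2, hs, fun z hz => ?_⟩
      have := hs2 ⟨z, hz⟩
      rw [Subtype.ext_iff] at this
      exact this
    · intro c hc s hs x hx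
      obtain ⟨φ, rfl⟩ := mem_FC.1 hc
      obtain ⟨y, hy⟩ := hzf.separation φ (fun i => ⟨asv s i, asv_mem h0 hs i⟩) ⟨x, hx⟩
      refine ⟨y, y.2, fun z hz => (hy ⟨z, hz⟩).trans ?_⟩
      rw [sat_iff, TTM_coe, TTM_one hs hz]
      rfl
    · intro c hc s hs x hx hfun
      obtain ⟨φ, rfl⟩ := mem_FC.1 hc
      have key : ∀ z w : cls K, Sat (memN (cls K)) φ
          (cons z (cons w (fun i => ⟨asv s i, asv_mem h0 hs i⟩))) ↔
          TTM_S K (fcd φ) (acons z (acons w s)) := by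
        intro z w
        rw [sat_iff, TTM_coe, TTM_coe, TTM_two hs z.2 w.2]
      obtain ⟨y, hy⟩ := hzf.replacement φ (fun i => ⟨asv s i, asv_mem h0 hs i⟩) ⟨x, hx⟩ (by
        intro z hz
        obtain ⟨w, hw, h1, h2⟩ := hfun z z.2 hz
        refine ⟨⟨w, hw⟩, (key z ⟨w, hw⟩).2 h1, fun w' hw' => ?_⟩
        exact Subtype.ext (h2 w' w'.2 ((key z w').1 hw')))
      refine ⟨y, y.2, fun w hw => (hy ⟨w, hw⟩).trans ?_⟩
      constructor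
      · rintro ⟨z, hz, h1⟩
        exact ⟨z, z.2, hz, (key z ⟨w, hw⟩).1 h1⟩
      · rintro ⟨z, hzK, hz, h1⟩
        exact ⟨⟨z, hzK⟩, hz, (key ⟨z, hzK⟩ ⟨w, hw⟩).2 h1⟩
  · rintro ⟨htr, hne, hpair, hun, hpow, hinf, hsep, hrep⟩
    have htr' : IsTr (cls K) := fun x hx y hy => htr x hx y hy
    refine ⟨htr', ?_, ?_, ?_, ?_, ?_, ?_, ?_, ?_, ?_⟩
    · obtain ⟨x, hx, -⟩ := hne
      exact ⟨⟨x, hx⟩⟩
    · intro x y hxy
      apply Subtype.ext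
      ext z
      constructor
      · intro hz
        exact (hxy ⟨z, htr x x.2 z hz⟩).1 hz
      · intro hz
        exact (hxy ⟨z, htr y y.2 z hz⟩).2 hz
    · rintro x ⟨y, hy⟩
      have hx0 : (x : ZFSet.{0}) ≠ ∅ := by
        intro h
        have h1 : (y : ZFSet.{0}) ∈ (x : ZFSet.{0}) := hy
        rw [h] at h1
        exact ZFSet.notMem_empty _ h1
      obtain ⟨t, ht, ht2⟩ := ZFSet.regularity _ hx0
      refine ⟨⟨t, htr x x.2 t ht⟩, ht, fun z hz hzx => ?_⟩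
      have h1 : (z : ZFSet.{0}) ∈ (x : ZFSet.{0}) ∩ t := ZFSet.mem_inter.2 ⟨hzx, hz⟩
      rw [ht2] at h1
      exact ZFSet.notMem_empty _ h1
    · intro x y
      obtain ⟨z, hz, hz2⟩ := hpair x x.2 y y.2
      refine ⟨⟨z, hz⟩, fun w => ?_⟩
      rw [Subtype.ext_iff, Subtype.ext_iff]
      exact hz2 w w.2
    · intro x
      obtain ⟨u, hu, hu2⟩ := hun x x.2
      refine ⟨⟨u, hu⟩, fun w => (hu2 w w.2).trans ?_⟩
      constructor
      · rintro ⟨y, hy, h1, h2⟩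
        exact ⟨⟨y, hy⟩, h1, h2⟩
      · rintro ⟨y, h1, h2⟩
        exact ⟨y, y.2, h1, h2⟩
    · intro x
      obtain ⟨p, hp, hp2⟩ := hpow x x.2
      refine ⟨⟨p, hp⟩, fun w => (hp2 w w.2).trans ?_⟩
      constructor
      · intro H z h1
        exact H z z.2 h1
      · intro H z hz h1
        exact H ⟨z, hz⟩ h1
    · obtain ⟨x, hx, ⟨e, he, hex, he2⟩, hx2⟩ := hinf
      refine ⟨⟨x, hx⟩, ⟨⟨e, he⟩, hex, fun z => he2 z z.2⟩, fun y hyx => ?_⟩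
      obtain ⟨s, hs, hsx, hs2⟩ := hx2 y y.2 hyx
      refine ⟨⟨s, hs⟩, hsx, fun z => ?_⟩
      rw [Subtype.ext_iff]
      exact hs2 z z.2
    · intro φ v x
      obtain ⟨n, hn⟩ := φ.exists_bd
      obtain ⟨s, hs, hsv⟩ := exists_asg n (fun i => (v i : ZFSet.{0})) (fun i => (v i).2)
      obtain ⟨y, hy, hy2⟩ := hsep (fcd φ) (mem_FC.2 ⟨φ, rfl⟩) s hs x x.2
      refine ⟨⟨y, hy⟩, fun z => (hy2 z z.2).trans ?_⟩
      rw [sat_iff, TTM_coe, TTM_one hs z.2]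
      have : SatIn (cls K) φ (cons (z : ZFSet.{0}) (asv s)) ↔
          SatIn (cls K) φ (cons (z : ZFSet.{0}) (fun n => (v n : ZFSet.{0}))) := by
        refine satIn_congr φ hn fun i hi => ?_
        cases i with
        | zero => rfl
        | succ i => exact hsv i (by omega)
      rw [this]
      rfl
    · intro φ v x hfun
      obtain ⟨n, hn⟩ := φ.exists_bd
      obtain ⟨s, hs, hsv⟩ := exists_asg n (fun i => (v i : ZFSet.{0})) (fun i => (v i).2)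
      have key : ∀ z w : cls K, Sat (memN (cls K)) φ (cons z (cons w v)) ↔
          TTM_S K (fcd φ) (acons z (acons w s)) := by
        intro z w
        rw [sat_iff, TTM_coe, TTM_coe, TTM_two hs z.2 w.2]
        refine satIn_congr φ hn fun i hi => ?_
        rcases i with _ | _ | i
        · rfl
        · rfl
        · exact (hsv i (by omega)).symm
      obtain ⟨y, hy, hy2⟩ := hrep (fcd φ) (mem_FC.2 ⟨φ, rfl⟩) s hs x x.2 (by
        intro z hzK hz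
        obtain ⟨w, hw, hw2⟩ := hfun ⟨z, hzK⟩ hz
        refine ⟨w, w.2, (key ⟨z, hzK⟩ w).1 hw, fun w' hw' h1 => ?_⟩
        have := hw2 ⟨w', hw'⟩ ((key ⟨z, hzK⟩ ⟨w', hw'⟩).2 h1)
        exact congrArg Subtype.val this)
      refine ⟨⟨y, hy⟩, fun w => (hy2 w w.2).trans ?_⟩
      constructor
      · rintro ⟨z, hzK, hz, h1⟩
        exact ⟨⟨z, hzK⟩, hz, (key ⟨z, hzK⟩ w).2 h1⟩
      · rintro ⟨z, hz, h1⟩
        exact ⟨z, z.2, hz, (key z w).1 h1⟩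

theorem UR.TMz (hf : UF f) : UR (fun N v => TM (cls (f N v))) := by
  have h1 : UR (fun _ v => TM (cls (v 0))) := TTM_def.congr fun N _ v _ => TTM_iff
  exact UR.comp1 (R := fun _ x => TM (cls x)) h1 hf

instance Inst.TMz [hf : UF f] : UR (fun N v => TM (cls (f N v))) := UR.TMz hf

end H83.PN
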