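import Pool.Agent.H83.PN.Defs

set_option autoImplicit false

/-!
# Module TThe: definable choice of a unique element; relativisation to set models

`UF.the`: `the N P ∈ N` (the empty set is in `N`); the graph: `y = the N P` iff
`(P y ∧ ∀ y' ∈ N, P y' → y' = y) ∨ ((¬ ∃ z ∈ N, P z ∧ ∀ y' ∈ N, P y' → y' = z) ∧ y = ∅)`.
`UR.rel`: `UD.out` for the class `cls W`, and `sat_iff`.
`UR.rel1` .. `UR.rel4`: take `φ` from `UR.rel` (for `R N v = R N (v 0) ..`) and use `UR.satIn φ` with the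
stream `g, h, .., h, h, ..` (constant from some place on); then `UD.congr`.
`UR.relF`: for a uniformly definable function `F`: `y = F (cls W) x` is a relation as in `UR.rel3`.
-/

namespace H83.PN

open ZFSet H83.AC

variable {f g h k l : Set ZFSet.{0} → (ℕ → ZFSet.{0}) → ZFSet.{0}}

theorem the_eq {N : Set ZFSet.{0}} {P : ZFSet.{0} → Prop} {y : ZFSet.{0}} (hy : y ∈ N) (h : P y)
    (hu : ∀ y' ∈ N, P y' → y' = y) : the N P = y := by
  have h1 : ∃ y ∈ N, P y ∧ ∀ y' ∈ N, P y' → y' = y := ⟨y, hy, h, hu⟩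
  rw [the, dif_pos h1]
  exact hu _ h1.choose_spec.1 h1.choose_spec.2.1

private theorem TThe_the_iff {N : Set ZFSet.{0}} {P : ZFSet.{0} → Prop} {y : ZFSet.{0}}
    (hy : y ∈ N) : y = the N P ↔ (P y ∧ ∀ y' ∈ N, P y' → y' = y) ∨
      ((¬ ∃ z ∈ N, P z ∧ ∀ y' ∈ N, P y' → y' = z) ∧ y = ∅) := by
  constructor
  · intro e
    by_cases h : ∃ z ∈ N, P z ∧ ∀ y' ∈ N, P y' → y' = z
    · left
      obtain ⟨z, hz, h1, h2⟩ := h
      rw [the_eq hz h1 h2] at e
      subst e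
      exact ⟨h1, h2⟩
    · right
      refine ⟨h, ?_⟩
      rw [the, dif_neg h] at e
      exact e
  · rintro (⟨h1, h2⟩ | ⟨h, e⟩)
    · exact (the_eq hy h1 h2).symm
    · rw [the, dif_neg h]
      exact e

theorem UF.the {R : Set ZFSet.{0} → ZFSet.{0} → (ℕ → ZFSet.{0}) → Prop}
    (h : UR (fun N v => R N (v 0) (sh v))) :
    UF (fun N v => H83.PN.the N (fun y => R N y v)) := by
  refine ⟨fun N hN v hv => ?_, ?_⟩
  · by_cases h1 : ∃ y ∈ N, R N y v ∧ ∀ y' ∈ N, R N y' v → y' = y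
    · rw [H83.PN.the, dif_pos h1]
      exact h1.choose_spec.1
    · rw [H83.PN.the, dif_neg h1]
      exact UF.empty.mem N hN v hv
  · have a1 : UR (fun N v => R N (v 0) (sh (sh v))) := h.ren (lift Nat.succ)
    have a2 : UR (fun N v => R N (v 0) (sh (sh (sh v)))) :=
      h.ren (lift (fun n => n + 2))
    have b1 : UR (fun N v => ∀ y' ∈ N, R N y' (sh v) → y' = v 0) :=
      UD.allN (R := fun N y' v => R N y' (sh v) → y' = v 0) (a1.imp (UD.eq 0 1))
    have b2 : UR (fun N v => ∀ y' ∈ N, R N y' (sh (sh v)) → y' = v 0) :=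
      UD.allN (R := fun N y' v => R N y' (sh (sh v)) → y' = v 0) (a2.imp (UD.eq 0 1))
    have c : UR (fun N v => ∃ z ∈ N, R N z (sh v) ∧ ∀ y' ∈ N, R N y' (sh v) → y' = z) :=
      UD.exN (R := fun N z v => R N z (sh v) ∧ ∀ y' ∈ N, R N y' (sh v) → y' = z)
        (a1.and b2)
    have d : UR (fun _ v => v 0 = (∅ : ZFSet.{0})) := UR.eq (UF.var 0) UF.empty
    refine ((h.and b1).or (c.not.and d)).congr fun N hN v hv => ?_
    exact TThe_the_iff (hv 0)

instance Inst.the {R : Set ZFSet.{0} → ZFSet.{0} → (ℕ → ZFSet.{0}) → Prop}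
    [h : UR (fun N v => R N (v 0) (sh v))] :
    UF (fun N v => H83.PN.the N (fun y => R N y v)) := UF.the h

theorem UR.rel {R : Set ZFSet.{0} → (ℕ → ZFSet.{0}) → Prop} (hR : UR R) :
    ∃ φ : Fml, ∀ W : ZFSet.{0}, TM (cls W) → ∀ v : ℕ → ZFSet.{0}, (∀ i, v i ∈ W) →
      (R (cls W) v ↔ SatIn (cls W) φ v) := by
  obtain ⟨⟨φ, hφ⟩⟩ := hR
  refine ⟨φ, fun W hW v hv => ?_⟩
  have h1 := hφ (cls W) hW (fun n => ⟨v n, hv n⟩)
  have h2 := sat_iff (cls W) φ (fun n => ⟨v n, hv n⟩)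
  exact h1.trans h2

/-- relativisation of a relation with a stream of arguments -/
private theorem TThe_rel {R : Set ZFSet.{0} → (ℕ → ZFSet.{0}) → Prop} (hR : UR R)
    (htm : UR (fun N v => TM (cls (f N v)))) (hf : UF f)
    {s : ℕ → Set ZFSet.{0} → (ℕ → ZFSet.{0}) → ZFSet.{0}} (hs : ∀ i, UF (s i))
    {P : Set ZFSet.{0} → (ℕ → ZFSet.{0}) → Prop} (hP : UR P)
    (hm : ∀ N v, P N v → ∀ i, s i N v ∈ f N v) :
    UR (fun N v => TM (cls (f N v)) ∧ P N v ∧ R (cls (f N v)) (fun i => s i N v)) := by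
  obtain ⟨φ, hφ⟩ := UR.rel hR
  refine (htm.and (hP.and (UR.satIn φ hf hs))).congr fun N _ v _ => ?_
  constructor
  · rintro ⟨h1, h2, h3⟩
    exact ⟨h1, h2, (hφ _ h1 _ (hm N v h2)).1 h3⟩
  · rintro ⟨h1, h2, h3⟩
    exact ⟨h1, h2, (hφ _ h1 _ (hm N v h2)).2 h3⟩

theorem UR.rel1 {R : Set ZFSet.{0} → ZFSet.{0} → Prop}
    (hR : UR (fun N v => R N (v 0))) (htm : UR (fun N v => TM (cls (f N v)))) (hf : UF f)
    (hg : UF g) : UR (fun N v => TM (cls (f N v)) ∧ g N v ∈ f N v ∧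
      R (cls (f N v)) (g N v)) :=
  TThe_rel (R := fun N v => R N (v 0)) hR htm hf (s := fun _ => g) (fun _ => hg)
    (P := fun N v => g N v ∈ f N v) (UR.mem hg hf) (fun _ _ h _ => h)

theorem UR.rel2 {R : Set ZFSet.{0} → ZFSet.{0} → ZFSet.{0} → Prop}
    (hR : UR (fun N v => R N (v 0) (v 1))) (htm : UR (fun N v => TM (cls (f N v)))) (hf : UF f)
    (hg : UF g) (hh : UF h) : UR (fun N v => TM (cls (f N v)) ∧ g N v ∈ f N v ∧ h N v ∈ f N v ∧
      R (cls (f N v)) (g N v) (h N v)) := by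
  refine (TThe_rel (R := fun N v => R N (v 0) (v 1)) hR htm hf
    (s := fun i => match i with | 0 => g | _ => h) (fun i => ?_)
    (P := fun N v => g N v ∈ f N v ∧ h N v ∈ f N v) ((UR.mem hg hf).and (UR.mem hh hf))
    (fun N v hp i => ?_)).congr fun N _ v _ => ?_
  · rcases i with _ | i
    · exact hg
    · exact hh
  · rcases i with _ | i
    · exact hp.1
    · exact hp.2
  · simp only [and_assoc]

theorem UR.rel3 {R : Set ZFSet.{0} → ZFSet.{0} → ZFSet.{0} → ZFSet.{0} → Prop}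
    (hR : UR (fun N v => R N (v 0) (v 1) (v 2))) (htm : UR (fun N v => TM (cls (f N v))))
    (hf : UF f) (hg : UF g) (hh : UF h) (hk : UF k) :
    UR (fun N v => TM (cls (f N v)) ∧ g N v ∈ f N v ∧ h N v ∈ f N v ∧ k N v ∈ f N v ∧
      R (cls (f N v)) (g N v) (h N v) (k N v)) := by
  refine (TThe_rel (R := fun N v => R N (v 0) (v 1) (v 2)) hR htm hf
    (s := fun i => match i with | 0 => g | 1 => h | _ => k) (fun i => ?_)
    (P := fun N v => g N v ∈ f N v ∧ h N v ∈ f N v ∧ k N v ∈ f N v)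
    ((UR.mem hg hf).and ((UR.mem hh hf).and (UR.mem hk hf)))
    (fun N v hp i => ?_)).congr fun N _ v _ => ?_
  · rcases i with _ | _ | i
    · exact hg
    · exact hh
    · exact hk
  · rcases i with _ | _ | i
    · exact hp.1
    · exact hp.2.1
    · exact hp.2.2
  · simp only [and_assoc]

theorem UR.rel4 {R : Set ZFSet.{0} → ZFSet.{0} → ZFSet.{0} → ZFSet.{0} → ZFSet.{0} → Prop}
    (hR : UR (fun N v => R N (v 0) (v 1) (v 2) (v 3))) (htm : UR (fun N v => TM (cls (f N v))))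
    (hf : UF f) (hg : UF g) (hh : UF h) (hk : UF k) (hl : UF l) :
    UR (fun N v => TM (cls (f N v)) ∧ g N v ∈ f N v ∧ h N v ∈ f N v ∧ k N v ∈ f N v ∧
      l N v ∈ f N v ∧ R (cls (f N v)) (g N v) (h N v) (k N v) (l N v)) := by
  refine (TThe_rel (R := fun N v => R N (v 0) (v 1) (v 2) (v 3)) hR htm hf
    (s := fun i => match i with | 0 => g | 1 => h | 2 => k | _ => l) (fun i => ?_)
    (P := fun N v => g N v ∈ f N v ∧ h N v ∈ f N v ∧ k N v ∈ f N v ∧ l N v ∈ f N v)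
    ((UR.mem hg hf).and ((UR.mem hh hf).and ((UR.mem hk hf).and (UR.mem hl hf))))
    (fun N v hp i => ?_)).congr fun N _ v _ => ?_
  · rcases i with _ | _ | _ | i
    · exact hg
    · exact hh
    · exact hk
    · exact hl
  · rcases i with _ | _ | _ | i
    · exact hp.1
    · exact hp.2.1
    · exact hp.2.2.1
    · exact hp.2.2.2
  · simp only [and_assoc]

end H83.PN
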