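import Pool.Agent.H83.PN.TTM
import Pool.Agent.H83.PN.TThe

set_option autoImplicit false

/-!
# Module TWd: models of ZF and `V = L` are levels of the constructible hierarchy

`UR.Wd`: `VL (cls K)` is `∀ z ∈ K, ∃ x ∈ K, z ∈ Lh x`: `Inst.Lh`, `Inst.TMz`.
`Wd_Lo`: `K = Lo (rank K)`: if `z ∈ K` then `z ∈ Lh x = Lo (rank x)` with `x ∈ K`, `rank x < rank K`. If
`β < rank K` then `β ≤ rank x` for some `x ∈ K`, `Lh x ∈ K` (`Inst.Lh` for the model `cls K`), so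
`Sx (Lo β) ⊆ K` (`Sx (Lh x) ∈ K`, or `Lo_mono`, `Lo_mem_Lo`; note that `rank K` is a limit).
`Wd_lin`: `Lo_mem_Lo`. `Wd_uf`: `UF.mem` for `cls K`. `Wd_HF`, `Wd_omega`: `Inst.HF`, `Inst.omega`.
`Wd_chain`: three levels, `Wd_lin`.
-/

namespace H83.PN

open ZFSet H83.AC

variable {f g h k l : Set ZFSet.{0} → (ℕ → ZFSet.{0}) → ZFSet.{0}}

theorem UR.Wd (hf : UF f) : UR (fun N v => H83.PN.Wd (f N v)) := by
  have h1 : UR (fun N v => TM (cls (f N v))) := UR.TMz hf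
  have h2 : UR (fun N v => ∀ z ∈ f N v, ∃ x ∈ f N v, z ∈ Lh x) := by infer_instance
  exact (h1.and h2).congr fun N _ v _ => Iff.rfl

instance Inst.Wd [hf : UF f] : UR (fun N v => H83.PN.Wd (f N v)) := UR.Wd hf

theorem Wd_Lo {K : ZFSet.{0}} (h : Wd K) : K = Lo (rank K) := by
  obtain ⟨hT, hV⟩ := h
  ext z
  constructor
  · intro hz
    obtain ⟨x, hx, hzx⟩ := hV z hz
    exact Lo_mono (rank_lt_of_mem hx).le hzx
  · intro hz
    obtain ⟨β, hβ, hzβ⟩ := mem_Lo.1 hz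
    obtain ⟨x, hx, hβx⟩ := lt_rank_iff.1 hβ
    have h1 : Lh x ∈ cls K :=
      (UF.Lh (UF.var 0)).mem (cls K) hT (fun _ => x) (fun _ => hx)
    have h2 : Sx (Lh x) ∈ cls K :=
      (UF.Sx (UF.Lh (UF.var 0))).mem (cls K) hT (fun _ => x) (fun _ => hx)
    rcases hβx.lt_or_eq with hlt | heq
    · exact hT.tr _ h1 z (Sx_sub_Lo hlt hzβ)
    · rw [heq] at hzβ
      exact hT.tr _ h2 z hzβ

theorem Wd_lin {K K' : ZFSet.{0}} (h : Wd K) (h' : Wd K') : K ∈ K' ∨ K = K' ∨ K' ∈ K := by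
  rw [Wd_Lo h, Wd_Lo h']
  rcases lt_trichotomy (rank K) (rank K') with h1 | h1 | h1
  · exact Or.inl (Lo_mem_Lo h1)
  · exact Or.inr (Or.inl (by rw [h1]))
  · exact Or.inr (Or.inr (Lo_mem_Lo h1))

theorem Wd_tr {K x : ZFSet.{0}} (h : Wd K) (hx : x ∈ K) : x ⊆ K :=
  fun y hy => h.1.tr x hx y hy

theorem Wd_uf {F : Set ZFSet.{0} → (ℕ → ZFSet.{0}) → ZFSet.{0}} (hF : UF F) {K : ZFSet.{0}}
    (h : Wd K) {v : ℕ → ZFSet.{0}} (hv : ∀ i, v i ∈ K) : F (cls K) v ∈ K :=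
  hF.mem (cls K) h.1 v hv

theorem Wd_wh {K : ZFSet.{0}} (h : Wd K) : IsWO (wh K) K := by
  have h1 : IsWO (wh K) (Lo (rank K)) := wo_wo (rank K)
  rwa [← Wd_Lo h] at h1

theorem Wd_omega {K : ZFSet.{0}} (h : Wd K) : omega ∈ K ∧ HF ∈ K ∧ ∅ ∈ K := by
  have h1 : omega ∈ cls K := h.1.omega
  exact ⟨h1, UF.HF.mem (cls K) h.1 (fun _ => omega) (fun _ => h1),
    UF.empty.mem (cls K) h.1 (fun _ => omega) (fun _ => h1)⟩

/-- uniformly definable absolute relations have the same truth value in all models -/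
theorem Wd_of_LL {K : ZFSet.{0}} (h : Wd K) : ∀ x ∈ K, x ∈ LL := by
  intro x hx
  rw [Wd_Lo h] at hx
  exact ⟨_, hx⟩

end H83.PN
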