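import Pool.Agent.H83.PN.StmtN
import Pool.Agent.H83.AC.TrpE

set_option autoImplicit false

/-!
# Module TrpN: invariance of the classes `Π¹_n` under isomorphisms

As in `AC/TrpE.lean` (the lemmas for `IsOp`, `In2`, `IsReal`, `IsNat`, `Agr` are private there, restate them here with new names): `IsTup`, `AgT` by induction on `j`, `IsPi` by induction on `n`, for all `j`.
-/

namespace H83.PN

open H83.AC

universe u v

variable {M : Type u} {M' : Type v} {E : M → M → Prop} {E' : M' → M' → Prop}

private theorem TrpN_emp (f : M ≃ M') (h : ∀ x y, E x y ↔ E' (f x) (f y)) (e : M) :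
    IsEmp E' (f e) ↔ IsEmp E e := by
  simp only [IsEmp, f.surjective.forall, f.surjective.exists, ← h, f.injective.eq_iff]

private theorem TrpN_suc (f : M ≃ M') (h : ∀ x y, E x y ↔ E' (f x) (f y)) (s n : M) :
    IsSuc E' (f s) (f n) ↔ IsSuc E s n := by
  simp only [IsSuc, f.surjective.forall, f.surjective.exists, ← h, f.injective.eq_iff]

private theorem TrpN_ind (f : M ≃ M') (h : ∀ x y, E x y ↔ E' (f x) (f y)) (a : M) :
    IsInd E' (f a) ↔ IsInd E a := by
  simp only [IsInd, f.surjective.forall, f.surjective.exists, ← h, f.injective.eq_iff,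
    TrpN_emp f h, TrpN_suc f h]

private theorem TrpN_om (f : M ≃ M') (h : ∀ x y, E x y ↔ E' (f x) (f y)) (a : M) :
    IsOm E' (f a) ↔ IsOm E a := by
  simp only [IsOm, f.surjective.forall, f.surjective.exists, ← h, f.injective.eq_iff,
    TrpN_ind f h]

private theorem TrpN_nat (f : M ≃ M') (h : ∀ x y, E x y ↔ E' (f x) (f y)) (a : M) :
    IsNat E' (f a) ↔ IsNat E a := by
  simp only [IsNat, f.surjective.forall, f.surjective.exists, ← h, f.injective.eq_iff,
    TrpN_om f h]

private theorem TrpN_up (f : M ≃ M') (h : ∀ x y, E x y ↔ E' (f x) (f y)) (p x y : M) :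
    IsUp E' (f p) (f x) (f y) ↔ IsUp E p x y := by
  simp only [IsUp, f.surjective.forall, f.surjective.exists, ← h, f.injective.eq_iff]

private theorem TrpN_op (f : M ≃ M') (h : ∀ x y, E x y ↔ E' (f x) (f y)) (p x y : M) :
    IsOp E' (f p) (f x) (f y) ↔ IsOp E p x y := by
  simp only [IsOp, f.surjective.forall, f.surjective.exists, ← h, f.injective.eq_iff,
    TrpN_up f h]

private theorem TrpN_in2 (f : M ≃ M') (h : ∀ x y, E x y ↔ E' (f x) (f y)) (p x y : M) :
    In2 E' (f p) (f x) (f y) ↔ In2 E p x y := by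
  simp only [In2, f.surjective.forall, f.surjective.exists, ← h, f.injective.eq_iff,
    TrpN_op f h]

private theorem TrpN_fun (f : M ≃ M') (h : ∀ x y, E x y ↔ E' (f x) (f y)) (p x y : M) :
    IsFun E' (f p) (f x) (f y) ↔ IsFun E p x y := by
  simp only [IsFun, ExistsUnique, f.surjective.forall, f.surjective.exists, ← h,
    f.injective.eq_iff, TrpN_op f h, TrpN_in2 f h]

private theorem TrpN_real (f : M ≃ M') (h : ∀ x y, E x y ↔ E' (f x) (f y)) (x : M) :
    IsReal E' (f x) ↔ IsReal E x := by
  simp only [IsReal, f.surjective.forall, f.surjective.exists, ← h,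
    f.injective.eq_iff, TrpN_om f h, TrpN_fun f h]

private theorem TrpN_agr (f : M ≃ M') (h : ∀ x y, E x y ↔ E' (f x) (f y)) (n x x' : M) :
    Agr E' (f n) (f x) (f x') ↔ Agr E n x x' := by
  simp only [Agr, f.surjective.forall, f.surjective.exists, ← h,
    f.injective.eq_iff, TrpN_in2 f h]

private theorem TrpN_tup (f : M ≃ M') (h : ∀ x y, E x y ↔ E' (f x) (f y)) (j : ℕ) :
    ∀ t : M, IsTup E' j (f t) ↔ IsTup E j t := by
  induction j with
  | zero => intro t; exact TrpN_real f h t
  | succ j ih =>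
    intro t
    simp only [IsTup, f.surjective.exists, ih, TrpN_real f h, TrpN_op f h]

private theorem TrpN_agt (f : M ≃ M') (h : ∀ x y, E x y ↔ E' (f x) (f y)) (j : ℕ) :
    ∀ n t t' : M, AgT E' j (f n) (f t) (f t') ↔ AgT E j n t t' := by
  induction j with
  | zero => intro n t t'; exact TrpN_agr f h n t t'
  | succ j ih =>
    intro n t t'
    simp only [AgT, f.surjective.exists, ih, TrpN_agr f h, TrpN_op f h]

private theorem TrpN_cl (f : M ≃ M') (h : ∀ x y, E x y ↔ E' (f x) (f y)) (j : ℕ) (C : M) :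
    IsCl E' j (f C) ↔ IsCl E j C := by
  simp only [IsCl, f.surjective.forall, f.surjective.exists, ← h, TrpN_tup f h j,
    TrpN_nat f h, TrpN_agt f h j]

theorem trp_pi (f : M ≃ M') (h : ∀ x y, E x y ↔ E' (f x) (f y)) (n j : ℕ) (A : M) :
    IsPi E n j A ↔ IsPi E' n j (f A) := by
  symm
  induction n generalizing j A with
  | zero => exact TrpN_cl f h j A
  | succ n ih =>
    simp only [IsPi, f.surjective.forall, f.surjective.exists, ← h, ih, TrpN_tup f h j,
      TrpN_real f h, TrpN_in2 f h]

end H83.PN
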