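import Pool.Agent.H83.PN.DefsU
import Pool.Agent.H83.PN.ZUn

set_option autoImplicit false

/-!
# Module UKa: the recursion for `UK`

`UK_lim`, `UK_suc`: `hl_eq`; `Zk n A ⊆ A ⊆ tc A`, so `app (fgr (hl ..) (tc A)) B = UK N n B` for `B ∈ Zk n A` (`img_congr`).
`nxt_eq`: `the_eq`, `Nx_uniq`. `nxt_abs`. `UK_abs` by induction on the rank of `A`: let `Nx A W'`, `W' ∈ W`. For `B ∈ A`: `B ∈ W'`,
`HCt (cls W') B`, so the least model `W''` for `B` (it exists: `Nx_exists` for `B ∈ H`; or the least model in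
`insert W' W'`) is `W'` or in `W'`, hence in `W`. So `UK (cls W) n B = UK M n B` by induction, and
`nxt (cls W) A = W' = nxt M A`; compare the two recursions.
-/

namespace H83.PN

open ZFSet H83.AC

variable {M : Set ZFSet.{0}} {K H : ZFSet.{0}}

private theorem UKa_img {N : Set ZFSet.{0}} {n : ℕ} {A : ZFSet.{0}} :
    img (fun B => app (fgr (hl (UKG N n)) (tc A)) B) (Zk n A) = img (fun B => UK N n B) (Zk n A) := by
  refine img_congr fun B hB => ?_
  have h1 : B ∈ A := (mem_sep.1 hB).1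
  exact app_fgr (sub_tc A h1)

private theorem UKa_eq (N : Set ZFSet.{0}) (n : ℕ) (A : ZFSet.{0}) :
    UK N n A = UKG N n A (fgr (hl (UKG N n)) (tc A)) := hl_eq (UKG N n) A

theorem UK_lim {N : Set ZFSet.{0}} {n : ℕ} {A : ZFSet.{0}} (h : (⋃₀ (Zk n A) : ZFSet) = A) :
    UK N n A = ⋃₀ (img (fun B => UK N n B) (Zk n A)) := by
  rw [UKa_eq, H83.PN.UKG, if_pos h, UKa_img]

theorem UK_suc {N : Set ZFSet.{0}} {n : ℕ} {A : ZFSet.{0}} (h : (⋃₀ (Zk n A) : ZFSet) ≠ A) :
    UK N n A = lst (wh (nxt N A)) (ZFSet.sep (fun u =>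
      Cand n A (⋃₀ (img (fun B => UK N n B) (Zk n A))) u) (nxt N A)) := by
  rw [UKa_eq, H83.PN.UKG, if_neg h, UKa_img]

theorem nxt_eq {N : Set ZFSet.{0}} {x W : ZFSet.{0}} (h : Nx x W) (hW : W ∈ N) : nxt N x = W := by
  exact the_eq hW h fun y' _ hy' => Nx_uniq hy' h

theorem UK_abs (hG : Gr M K H) {n : ℕ} {W : ZFSet.{0}} (hW : Wd W) (hWH : W ∈ H) {A W' : ZFSet.{0}}
    (hA : Nx A W') (hW' : W' ∈ W) : UK (cls W) n A = UK M n A := by
  induction A using ZFSet.inductionOn generalizing W' with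
  | _ A ih =>
    have hB : ∀ B ∈ Zk n A, UK (cls W) n B = UK M n B := by
      intro B hB
      have h1 : B ∈ A := (mem_sep.1 hB).1
      have h2 : B ∈ W' := Wd_tr hA.1 hA.2.1 h1
      have h3 : HCt (cls W') B := (HCt_mem hA.2.2.1 h1).1
      have h4 : B ∈ H := H_tr hG (H_tr hG hWH hW') h2
      obtain ⟨W'', -, h5⟩ := Nx_exists hG h4
      have h6 : W'' ∈ W := by
        rcases Wd_lin h5.1 hA.1 with h7 | h7 | h7
        · exact Wd_tr hW hW' h7
        · rw [h7]
          exact hW'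
        · exact absurd (Nx_min h5 hA.1 h2 h3 h7) (mem_irrefl W')
      exact ih B h1 h5 h6
    have himg : img (fun B => UK (cls W) n B) (Zk n A) = img (fun B => UK M n B) (Zk n A) :=
      img_congr hB
    by_cases h : (⋃₀ (Zk n A) : ZFSet) = A
    · rw [UK_lim h, UK_lim h, himg]
    · rw [UK_suc h, UK_suc h, himg, nxt_eq (N := cls W) hA hW', nxt_eq hA (H_sub_M hG (H_tr hG hWH hW'))]

end H83.PN
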