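import Pool.Agent.H83.PN.ZAb

set_option autoImplicit false

/-!
# Module ZCl: `Z` is closed

`Kc_sUnion`, `Kc_lin` (the members of `C` are linearly ordered by inclusion). Let `A = ⋃₀ C`. By induction on `j`:
`TV j`: for `u, r, T, z ∈ A`, `Ext H j u r T z → Ext A j u r T z`. All four are in some `B ∈ C`, so `Ext B j u r T z`: there
are `u' ∈ B`, `r', y ∈ B`, .. with `FF B j r' T (jnN y z)`. `FF_abs` for `B` gives `FF H j`, and it remains to show `FF A j`. This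
holds by `FF_abs` for `A` with `j - 1` in place of `n` (`ZZ H (j-1) A` by the induction hypothesis), and for `j = 0` by
`FB_abs`. State the induction as: for all `m ≤ n`, `ZZ H m A`. (The case `m = 0` uses only `FB_abs`; in the
step from `m` to `m + 1` use `FF_abs` with `n := m`, `j := m + 1`.)
-/

namespace H83.PN

open ZFSet H83.AC

variable {M : Set ZFSet.{0}} {K H : ZFSet.{0}}

private theorem ZCl_jn {A : ZFSet.{0}} (hA : Kc A) {y z : ZFSet.{0}} (hy : y ∈ A) (hz : z ∈ A) :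
    jnN y z ∈ A :=
  Kc_uf2 hA (F := fun y z => jnN y z) (by infer_instance) hy hz

private theorem ZCl_of (hH : Kc H) {n : ℕ} {A : ZFSet.{0}} (hK : Kc A) (hA : A ⊆ H)
    (h : ∀ j ≤ n, ∀ u ∈ A, ∀ r ∈ A, ∀ T ∈ A, ∀ z ∈ A, Ext H j u r T z →
      ∃ u' ∈ A, UU H u' ∧ u ⊆ u' ∧ ∃ r' ∈ A, ∃ y ∈ A, rU r' = u' ∧ RLe r' r ∧ RNK H r' y ∧
        FF H j r' T (jnN y z)) : ∀ m, m ≤ n → ZZ H m A := by
  intro m
  induction m with
  | zero =>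
    intro hm
    refine ⟨hK, fun j hj u hu r hr T hT z hz hE => ?_⟩
    obtain rfl : j = 0 := by omega
    obtain ⟨u', hu', hU, hs, r', hr', y, hy, e, hle, hR, hF⟩ := h 0 hm u hu r hr T hT z hz hE
    exact ⟨u', hu', (UU_abs hK hA hH hu').2 hU, hs, r', hr', y, hy, e, hle,
      (RNK_abs hK hA hH hr').2 hR, (FB_abs hK hA hH hr').2 hF⟩
  | succ m ih =>
    intro hm
    have hZ := ih (by omega)
    refine ⟨hK, fun j hj u hu r hr T hT z hz hE => ?_⟩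
    obtain ⟨u', hu', hU, hs, r', hr', y, hy, e, hle, hR, hF⟩ :=
      h j (by omega) u hu r hr T hT z hz hE
    exact ⟨u', hu', (UU_abs hK hA hH hu').2 hU, hs, r', hr', y, hy, e, hle,
      (RNK_abs hK hA hH hr').2 hR, (FF_abs hA hH hZ hj hr' hT (ZCl_jn hK hy hz)).2 hF⟩

private theorem ZCl_sub {A B : ZFSet.{0}} (hA : Kc A) (hB : Kc B) : A ⊆ B ∨ B ⊆ A := by
  rcases Kc_lin hA hB with h | h | h
  · exact Or.inl (hB.2.1 _ h)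
  · rw [h]
    exact Or.inl fun _ hz => hz
  · exact Or.inr (hA.2.1 _ h)

private theorem ZCl_two {C : ZFSet.{0}} (hC : ∀ A ∈ C, Kc A) {B B' : ZFSet.{0}} (hB : B ∈ C)
    (hB' : B' ∈ C) : ∃ D ∈ C, B ⊆ D ∧ B' ⊆ D := by
  rcases ZCl_sub (hC B hB) (hC B' hB') with h | h
  · exact ⟨B', hB', h, fun _ hz => hz⟩
  · exact ⟨B, hB, fun _ hz => hz, h⟩

theorem ZZ_sUnion (hH : Kc H) {n : ℕ} {C : ZFSet.{0}} (hC : ∀ A ∈ C, ZZ H n A)
    (hCH : ∀ A ∈ C, A ⊆ H) (hne : C ≠ ∅) : ZZ H n (⋃₀ C : ZFSet) := by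
  have hKC : ∀ A ∈ C, Kc A := fun A hA => (hC A hA).1
  have hsub : ∀ A ∈ C, A ⊆ (⋃₀ C : ZFSet) := fun A hA x hx => mem_sUnion.2 ⟨A, hA, hx⟩
  have hUH : (⋃₀ C : ZFSet) ⊆ H := by
    intro x hx
    obtain ⟨A, hA, hxA⟩ := mem_sUnion.1 hx
    exact hCH A hA hxA
  refine ZCl_of hH (Kc_sUnion hKC hne) hUH ?_ n le_rfl
  intro j hj u hu r hr T hT z hz hE
  obtain ⟨B1, hB1, hu1⟩ := mem_sUnion.1 hu
  obtain ⟨B2, hB2, hr2⟩ := mem_sUnion.1 hr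
  obtain ⟨B3, hB3, hT3⟩ := mem_sUnion.1 hT
  obtain ⟨B4, hB4, hz4⟩ := mem_sUnion.1 hz
  obtain ⟨D1, hD1, h1, h2⟩ := ZCl_two hKC hB1 hB2
  obtain ⟨D2, hD2, h3, h4⟩ := ZCl_two hKC hB3 hB4
  obtain ⟨B, hB, h5, h6⟩ := ZCl_two hKC hD1 hD2
  have hZ := hC B hB
  have hK := hZ.1
  have hBH := hCH B hB
  obtain ⟨u', hu', hU, hs, r', hr', y, hy, e, hle, hR, hF⟩ :=
    hZ.2 j hj u (h5 (h1 hu1)) r (h5 (h2 hr2)) T (h6 (h3 hT3)) z (h6 (h4 hz4)) hE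
  exact ⟨u', hsub B hB hu', (UU_abs hK hBH hH hu').1 hU, hs, r', hsub B hB hr', y,
    hsub B hB hy, e, hle, (RNK_abs hK hBH hH hr').1 hR,
    (FF_abs hBH hH hZ (by omega) hr' (h6 (h3 hT3)) (ZCl_jn hK hy (h6 (h4 hz4)))).1 hF⟩

theorem ZZ_le (hH : Kc H) {m n : ℕ} (h : m ≤ n) {A : ZFSet.{0}} (hA : ZZ H n A) : ZZ H m A :=
  ⟨hA.1, fun j hj => hA.2 j (hj.trans h)⟩

/-- the same argument for elementary subsets: it is enough to have witnesses for `FF H` -/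
theorem ZZ_of (hH : Kc H) {n : ℕ} {A : ZFSet.{0}} (hK : Kc A) (hA : A ⊆ H)
    (h : ∀ j ≤ n, ∀ u ∈ A, ∀ r ∈ A, ∀ T ∈ A, ∀ z ∈ A, Ext H j u r T z →
      ∃ u' ∈ A, UU H u' ∧ u ⊆ u' ∧ ∃ r' ∈ A, ∃ y ∈ A, rU r' = u' ∧ RLe r' r ∧ RNK H r' y ∧
        FF H j r' T (jnN y z)) : ZZ H n A :=
  ZCl_of hH hK hA h n le_rfl

end H83.PN
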