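import Pool.Agent.H83.PN.DefsU
import Pool.Agent.H83.PN.ZCl
import Pool.Agent.H83.PN.CXt
import Pool.Agent.H83.PN.TDC

set_option autoImplicit false

/-!
# Module UKb: candidates exist

(1) Inside `A` sequences can be extended: for `u ∈ A`, `UU A u`, `γ ∈ rk A` there is `u' ∈ A`, `UU A u'`, `u ⊆ u'`, `γ ∈ dom u'`:
let `δ` be the larger of `sc (dom u)`, `sc γ`, and such that `u` is in the model of number `δ`: take `w ∈ A`, `Ws w`, with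
`dom w = δ` large: `u` is in a model `W₁ ∈ A`; with `δ = sc (rk W₁)` (and larger than `γ`, `dom u`) the model `Nx w` contains
an ordinal `≥ rank W₁`, so `W₁ ⊆ Nx w` (as in `Ws_cover`), `u ∈ Nx w`. Then `UU_ext`.
(2) Work in `cls W`; `A ∈ W` is countable in `W`. By `Ctb_iff`, `Ctb_prod` all tuples `(r, (T, z))` of elements of `A` and all
ordinals of `rk A` are enumerated; let `e ∈ W` enumerate `prod (prod (nz (n+1)) A³) (rk A)` by `omega`. `TM_DC` with the set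
`S = {u' ∈ A : UU A u' ∧ u ⊆ u'}`, `a = u`, and `R i u₁ u₂`: `u₁ ⊆ u₂`, and if `app e i = ((nz j, (r, (T, z))), γ)` with `j ≤ n` then
`γ ∈ dom u₂` and (`Dj A j u₃ r T z` for some `u₃ ∈ A` with `u₁ ⊆ u₃ ⊆ u₂`, `UU A u₃`, or `¬ Ext A j u₁ r T z`). For `j ≤ n` write a finite
conjunction (`UR_le`). The step: if `Ext A j u₁ r T z` take `u₃` from it, then extend by (1). Let `u' = ⋃₀ (rng p) ∈ W`.
`UU_union`; the domain is `rk A` (all `γ ∈ rk A` occur; `dom u₁ ∈ A`, so `dom u₁ ⊆ rk A`). `res u' γ` is a restriction of some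
`app p i ∈ A`, so it is in `A` (`Kc_uf2`); `u₃ = res u' (dom u₃)`, `dom u₃ ∈ rk A`. In the case `¬ Ext A j u₁ r T z`: `u₁ = res u' (dom u₁)`.
-/

namespace H83.PN

open ZFSet H83.AC

variable {M : Set ZFSet.{0}} {K H : ZFSet.{0}}

private theorem UKb_o {γ β : ZFSet.{0}} (h : rk γ = γ) (hb : β ∈ γ) : rk β = β := by
  rw [← h] at hb
  exact rk_of_mem_rk hb

private theorem UKb_tr {α γ β : ZFSet.{0}} (h : rk α = α) (hg : γ ∈ α) (hb : β ∈ γ) : β ∈ α := by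
  have h1 := UKb_o (UKb_o h hg) hb
  rw [← h, ← h1]
  exact rk_mem_rk.2 ((rank_lt_of_mem hb).trans (rank_lt_of_mem hg))

theorem UU_ext_in (hG : Gr M K H) {A : ZFSet.{0}} (hA : Kc A) (hAH : A ⊆ H) {u γ : ZFSet.{0}}
    (hu : u ∈ A) (hU : UU A u) (hg : γ ∈ rk A) : ∃ u' ∈ A, UU A u' ∧ u ⊆ u' ∧ γ ∈ dom u' := by
  have hKH : Kc H := Kc_H hG
  obtain ⟨hgA, hgo⟩ := (Kc_rk hA).1 hg
  obtain ⟨W, hWA, hW, huW, hgW, -, -, -, -, hWs⟩ := Kc_two hA hu hgA hgA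
  have hd0 : rk W ∈ A := Kc_uf1 hA (F := fun x => rk x) (by infer_instance) hWA
  have hd1 : rk (rk W) = rk W := rk_eq_rk.2 (rank_rk W)
  obtain ⟨w, hwA, hws, hwd⟩ := hA.2.2.2 (rk W) hd0 hd1
  obtain ⟨W', hW'A, hW'⟩ := Kc_Nx hA hwA
  have hdW : dom w ∈ W' := Ws_dom hws hW'
  have hlt : rank W < rank W' := by
    have h1 := rank_lt_of_mem hdW
    rwa [hwd, rank_rk] at h1
  have hWW : W ⊆ W' := by
    rcases Wd_lin hW hW'.1 with h1 | h1 | h1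
    · exact Wd_tr hW'.1 h1
    · rw [h1]
    · exact absurd (rank_lt_of_mem h1) (not_lt.2 hlt.le)
  have hdu : dom u ∈ W := Wd_uf (F := fun _ v => dom (v 0)) (UF.dom (UF.var 0)) hW
    (v := fun _ => u) fun _ => huW
  have hdu2 : dom u ∈ rk W := by
    rw [← hU.1]
    exact rk_mem_rk.2 (rank_lt_of_mem hdu)
  have hsub : dom u ⊆ dom w := by
    rw [hwd]
    exact fun β hβ => UKb_tr hd1 hdu2 hβ
  have hUH : UU H u := (UU_abs hA hAH hKH hu).1 hU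
  obtain ⟨u', hu'W, hU', huu', hdu'⟩ := UU_ext hG hUH hws (hAH hwA) hW' (hWW huW) hsub
  have hu'A : u' ∈ A := hA.2.1 _ hW'A hu'W
  refine ⟨u', hu'A, (UU_abs hA hAH hKH hu'A).2 hU', huu', ?_⟩
  rw [hdu', hwd, ← hgo]
  exact rk_mem_rk.2 (rank_lt_of_mem hgW)

/-- the step relation -/
private def UKb_R (n : ℕ) (i u₁ u₂ : ZFSet.{0}) (v : ℕ → ZFSet.{0}) : Prop :=
  u₁ ⊆ u₂ ∧ ∀ j ≤ n, ∀ r ∈ v 0, ∀ T ∈ v 0, ∀ z ∈ v 0, ∀ γ ∈ rk (v 0),
    app (v 1) i = pair (pair (nz j) (pair r (pair T z))) γ → γ ∈ dom u₂ ∧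
      ((∃ u₃ ∈ v 0, UU (v 0) u₃ ∧ u₁ ⊆ u₃ ∧ u₃ ⊆ u₂ ∧ Dj (v 0) j u₃ r T z) ∨
        ¬ Ext (v 0) j u₁ r T z)

private theorem UKb_UR (n : ℕ) :
    UR (fun _ w => UKb_R n (w 0) (w 1) (w 2) (sh (sh (sh w)))) := by
  unfold UKb_R
  have h2 := UR_le (R := fun j _ w => ∀ r ∈ w 3, ∀ T ∈ w 3, ∀ z ∈ w 3, ∀ γ ∈ H83.AC.rk (w 3),
    H83.AC.app (w 4) (w 0) = ZFSet.pair (ZFSet.pair (H83.AC.nz j) (ZFSet.pair r (ZFSet.pair T z))) γ →
      γ ∈ H83.AC.dom (w 2) ∧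
      ((∃ u₃ ∈ w 3, H83.PN.UU (w 3) u₃ ∧ w 1 ⊆ u₃ ∧ u₃ ⊆ w 2 ∧ H83.PN.Dj (w 3) j u₃ r T z) ∨
        ¬ H83.PN.Ext (w 3) j (w 1) r T z)) (fun j => by infer_instance) n
  exact UD.and (by infer_instance) h2

theorem exists_cand (hG : Gr M K H) {n : ℕ} {A W u : ZFSet.{0}} (hA : Kc A) (hAH : A ∈ H)
    (hW : Nx A W) (hu : u ∈ A) (hU : UU A u) : ∃ u' ∈ W, Cand n A u u' := by
  have hWd : Wd W := hW.1
  have hN : TM (cls W) := hWd.1
  have hV : VL (cls W) := hWd.2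
  have hAW : A ∈ cls W := hW.2.1
  have hAs : A ⊆ H := fun x hx => H_tr hG hAH hx
  have h0A : (∅ : ZFSet) ∈ A := hA.1
  have h0o : rk (∅ : ZFSet) = ∅ := by
    rw [rk, rank_empty]
    exact Ordinal.toZFSet_zero
  have h0r : (∅ : ZFSet) ∈ rk A := (Kc_rk hA).2 ⟨h0A, h0o⟩
  have hcA : Ctb (cls W) A := Ctb_sub hW.2.2.1 (sub_tc A)
  have hcr : Ctb (cls W) (rk A) := Ctb_sub hcA fun γ hγ => ((Kc_rk hA).1 hγ).1
  have hcn : Ctb (cls W) (nz (n + 1)) := Ctb_sub (Ctb_omega hN) fun x hx => by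
    obtain ⟨m, -, rfl⟩ := mem_nz.1 hx
    exact nz_mem_omega m
  have hcE : Ctb (cls W) (ZFSet.prod (ZFSet.prod (nz (n + 1)) (ZFSet.prod A (ZFSet.prod A A)))
      (rk A)) := Ctb_prod hN (Ctb_prod hN hcn (Ctb_prod hN hcA (Ctb_prod hN hcA hcA))) hcr
  obtain ⟨e, heW, he⟩ := hcE
  have hen : ∀ j ≤ n, ∀ r ∈ A, ∀ T ∈ A, ∀ z ∈ A, ∀ γ ∈ rk A, ∃ m : ℕ,
      app e (nz m) = pair (pair (nz j) (pair r (pair T z))) γ := by
    intro j hj r hr T hT z hz γ hγ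
    obtain ⟨i, hi, hi2⟩ := he (pair (pair (nz j) (pair r (pair T z))) γ) (by
      simp only [ZFSet.pair_mem_prod]
      exact ⟨⟨mem_nz.2 ⟨j, by omega, rfl⟩, hr, hT, hz⟩, hγ⟩)
    obtain ⟨m, rfl⟩ := mem_omega.1 hi
    exact ⟨m, hi2⟩
  -- the set of the extensions
  have hSW : ZFSet.sep (fun u' => UU A u' ∧ u ⊆ u') A ∈ cls W :=
    TM.sep_of (R := fun _ x w => UU (w 0) x ∧ w 1 ⊆ x) (by infer_instance) hN
      (v := cons A (fun _ => u)) (fun i => by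
        rcases i with _ | i
        · exact hAW
        · exact hN.tr A hAW u hu) hAW
  set S : ZFSet.{0} := ZFSet.sep (fun u' => UU A u' ∧ u ⊆ u') A with hS
  have huS : u ∈ S := mem_sep.2 ⟨hu, hU, fun _ hz => hz⟩
  have hSm : ∀ x ∈ S, x ∈ A ∧ UU A x ∧ u ⊆ x := fun x hx => mem_sep.1 hx
  set v : ℕ → ZFSet.{0} := cons A (fun _ => e) with hv
  have hvW : ∀ i, v i ∈ cls W := by
    intro i
    rcases i with _ | i
    · exact hAW
    · exact heW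
  have hstep : ∀ i ∈ omega, ∀ x ∈ S, ∃ y ∈ S, UKb_R n i x y v := by
    intro i _ x hx
    obtain ⟨hxA, hxU, hux⟩ := hSm x hx
    by_cases hc : ∃ j ≤ n, ∃ r ∈ A, ∃ T ∈ A, ∃ z ∈ A, ∃ γ ∈ rk A,
        app e i = pair (pair (nz j) (pair r (pair T z))) γ
    · obtain ⟨j, hj, r, hr, T, hT, z, hz, γ, hγ, hi⟩ := hc
      have huniq : ∀ j', ∀ r' T' z' γ' : ZFSet.{0},
          app e i = pair (pair (nz j') (pair r' (pair T' z'))) γ' →
          j' = j ∧ r' = r ∧ T' = T ∧ z' = z ∧ γ' = γ := by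
        intro j' r' T' z' γ' h
        rw [hi] at h
        obtain ⟨h1, h2⟩ := pair_inj.1 h
        obtain ⟨h3, h4⟩ := pair_inj.1 h1
        obtain ⟨h5, h6⟩ := pair_inj.1 h4
        obtain ⟨h7, h8⟩ := pair_inj.1 h6
        exact ⟨(nz_inj.1 h3).symm, h5.symm, h7.symm, h8.symm, h2.symm⟩
      by_cases hE : Ext A j x r T z
      · obtain ⟨u₃, h3A, h3U, hx3, h3D⟩ := hE
        obtain ⟨y, hyA, hyU, h3y, hgy⟩ := UU_ext_in hG hA hAs h3A h3U hγ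
        refine ⟨y, mem_sep.2 ⟨hyA, hyU, fun t ht => h3y (hx3 (hux ht))⟩,
          fun t ht => h3y (hx3 ht), ?_⟩
        intro j' _ r' _ T' _ z' _ γ' _ h
        obtain ⟨rfl, rfl, rfl, rfl, rfl⟩ := huniq j' r' T' z' γ' h
        exact ⟨hgy, Or.inl ⟨u₃, h3A, h3U, hx3, h3y, h3D⟩⟩
      · obtain ⟨y, hyA, hyU, hxy, hgy⟩ := UU_ext_in hG hA hAs hxA hxU hγ
        refine ⟨y, mem_sep.2 ⟨hyA, hyU, fun t ht => hxy (hux ht)⟩, hxy, ?_⟩
        intro j' _ r' _ T' _ z' _ γ' _ h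
        obtain ⟨rfl, rfl, rfl, rfl, rfl⟩ := huniq j' r' T' z' γ' h
        exact ⟨hgy, Or.inr hE⟩
    · refine ⟨x, hx, fun _ hz => hz, ?_⟩
      intro j hj r hr T hT z hz γ hγ h
      exact absurd ⟨j, hj, r, hr, T, hT, z, hz, γ, hγ, h⟩ hc
  obtain ⟨p, hpW, hpf, hp0, hps⟩ := TM_DC (R := fun _ i x y v => UKb_R n i x y v) hN hV
    (UKb_UR n) hvW hSW huS hstep
  have hp1 : ∀ m : ℕ, app p (nz m) ∈ S := fun m => fn_mem hpf (nz_mem_omega m)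
  have hmono : ∀ m k : ℕ, m ≤ k → app p (nz m) ⊆ app p (nz k) := by
    intro m k hmk
    induction k, hmk using Nat.le_induction with
    | base => exact fun _ hz => hz
    | succ k _ ih =>
      intro t ht
      exact (hps (nz k) (nz_mem_omega k)).1 (ih ht)
  have hCW : img (fun i => app p i) omega ∈ cls W :=
    TM.img_of (F := fun _ i w => app (w 0) i) (by infer_instance) hN (v := fun _ => p)
      (fun _ => hpW) hN.omega
  set C : ZFSet.{0} := img (fun i => app p i) omega with hC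
  have hCm : ∀ x, x ∈ C ↔ ∃ m : ℕ, x = app p (nz m) := by
    intro x
    rw [hC, mem_img]
    constructor
    · rintro ⟨i, hi, rfl⟩
      obtain ⟨m, rfl⟩ := mem_omega.1 hi
      exact ⟨m, rfl⟩
    · rintro ⟨m, rfl⟩
      exact ⟨nz m, nz_mem_omega m, rfl⟩
  have hC1 : ∀ x ∈ C, UU A x := by
    intro x hx
    obtain ⟨m, rfl⟩ := (hCm x).1 hx
    exact (hSm _ (hp1 m)).2.1
  have hC2 : ∀ x ∈ C, ∀ y ∈ C, x ⊆ y ∨ y ⊆ x := by
    intro x hx y hy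
    obtain ⟨m, rfl⟩ := (hCm x).1 hx
    obtain ⟨k, rfl⟩ := (hCm y).1 hy
    rcases le_total m k with h | h
    · exact Or.inl (hmono m k h)
    · exact Or.inr (hmono k m h)
  obtain ⟨hUU, hdom⟩ := UU_union hC1 hC2
  have hUW : (⋃₀ C : ZFSet) ∈ W := hN.sUnion hCW
  have hsubC : ∀ m : ℕ, app p (nz m) ⊆ (⋃₀ C : ZFSet) := fun m t ht =>
    mem_sUnion.2 ⟨_, (hCm _).2 ⟨m, rfl⟩, ht⟩
  have hdA : ∀ x ∈ A, UU A x → dom x ∈ rk A := by
    intro x hx hxU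
    exact (Kc_rk hA).2 ⟨Kc_uf1 hA (F := fun x => dom x) (by infer_instance) hx, hxU.1⟩
  have hord : rk (rk A) = rk A := rk_eq_rk.2 (rank_rk A)
  have hdk : ∀ γ ∈ rk A, ∃ m : ℕ, γ ∈ dom (app p (nz m)) := by
    intro γ hγ
    obtain ⟨m, hm⟩ := hen 0 (Nat.zero_le n) ∅ h0A ∅ h0A ∅ h0A γ hγ
    have h1 := (hps (nz m) (nz_mem_omega m)).2 0 (Nat.zero_le n) ∅ h0A ∅ h0A ∅ h0A γ hγ hm
    exact ⟨m + 1, h1.1⟩
  have hres : ∀ x ∈ A, UU A x → x ⊆ (⋃₀ C : ZFSet) → res (⋃₀ C : ZFSet) (dom x) = x := by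
    intro x _ hxU hxC
    exact (UU_sub hxU hUU hxC).2.2
  refine ⟨(⋃₀ C : ZFSet), hUW, hUU, ?_, ?_, ?_, ?_⟩
  · ext γ
    rw [hdom]
    constructor
    · rintro ⟨x, hx, hγ⟩
      obtain ⟨m, rfl⟩ := (hCm x).1 hx
      have h1 := hSm _ (hp1 m)
      exact UKb_tr hord (hdA _ h1.1 h1.2.1) hγ
    · intro hγ
      obtain ⟨m, hm⟩ := hdk γ hγ
      exact ⟨_, (hCm _).2 ⟨m, rfl⟩, hm⟩
  · have h1 := hsubC 0
    have h2 : app p (nz 0) = u := hp0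
    rwa [h2] at h1
  · intro γ hγ
    obtain ⟨m, hm⟩ := hdk γ hγ
    obtain ⟨h1, h2, -⟩ := hSm _ (hp1 m)
    have h3 : res (⋃₀ C : ZFSet) γ = res (app p (nz m)) γ := by
      ext t
      constructor
      · intro ht
        obtain ⟨ht1, ht2⟩ := mem_sep.1 ht
        have h4 : t ∈ res (⋃₀ C : ZFSet) (dom (app p (nz m))) :=
          mem_sep.2 ⟨ht1, UKb_tr h2.1 hm ht2⟩
        rw [hres _ h1 h2 (hsubC m)] at h4
        exact mem_sep.2 ⟨h4, ht2⟩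
      · intro ht
        obtain ⟨ht1, ht2⟩ := mem_sep.1 ht
        exact mem_sep.2 ⟨hsubC m ht1, ht2⟩
    rw [h3]
    exact Kc_uf2 hA (F := fun x y => res x y) (by infer_instance) h1 ((Kc_rk hA).1 hγ).1
  · intro j hj r hr T hT z hz
    obtain ⟨m, hm⟩ := hen j hj r hr T hT z hz ∅ h0r
    have h1 := ((hps (nz m) (nz_mem_omega m)).2 j hj r hr T hT z hz ∅ h0r hm).2
    rcases h1 with ⟨u₃, h3A, h3U, -, h3y, h3D⟩ | h1
    · refine ⟨dom u₃, hdA u₃ h3A h3U, Or.inl ?_⟩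
      rw [hres u₃ h3A h3U (fun t ht => hsubC (m + 1) (h3y ht))]
      exact h3D
    · obtain ⟨h4, h5, -⟩ := hSm _ (hp1 m)
      refine ⟨dom (app p (nz m)), hdA _ h4 h5, Or.inr ?_⟩
      rw [hres _ h4 h5 (hsubC m)]
      exact h1

end H83.PN
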