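import Pool.Agent.H83.PN.UKa
import Pool.Agent.H83.PN.UKb

set_option autoImplicit false

/-!
# Module UKc: the properties of `UK`

Induction on `A` (along `∈`, i.e. the rank). `Zk n A = {B ∈ A : ZZ H n B}` (`ZZ_in`). Let `Nx A W`.
LIMIT (`⋃₀ (Zk n A) = A`): `UK_lim`. For `B, B' ∈ Zk n A`: `Kc_lin`, and `B ∈ B'` gives `UK B ⊆ UK B'` by induction. `UU_union`
(`UU_K`). The domain is the union of the `rk B`, which is `rk A` (`mem_rk`, or `Kc_rk`). For `γ ∈ rk A` some `B ∈ Zk n A` has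
`γ ∈ rk B`, and `res (UK A) γ = res (UK B) γ ∈ B ⊆ A`. `UK M n A ∈ W`: for `B ∈ Zk n A` the model `Nx B` is in `A ⊆ W` (`Kc_Nx`), so
`UK (cls W) n B = UK M n B` (`UK_abs`), hence `UK (cls W) n A = UK M n A` (`UK_lim` for both), in `W` by `Inst.UK` and `Wd_uf`.
SUCCESSOR: let `C = Zk n A`, `u₀ = ⋃₀ (img (UK M n) C)`. If `C = ∅` then `u₀ = ∅`. Otherwise `A₀ = ⋃₀ C` is in `Z` (`ZZ_sUnion`), `A₀ ⊆ A`,
`A₀ ≠ A`, so `A₀ ∈ A` (`Kc_lin`) and `A₀ ∈ C`; all `B ∈ C` are `A₀` or in `A₀`, so `u₀ = UK M n A₀`, and it is in the model `Nx A₀`,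
which is in `A`; so `u₀ ∈ A`, `UU A u₀`. `exists_cand`, `lst_mem` (`Wd_wh`) and `nxt_eq` (`W ∈ M`): `UK M n A ∈ W` is a candidate.
-/

namespace H83.PN

open ZFSet H83.AC

variable {M : Set ZFSet.{0}} {K H : ZFSet.{0}}

structure UKP (M : Set ZFSet.{0}) (H : ZFSet.{0}) (n : ℕ) (A : ZFSet.{0}) : Prop where
  inW : ∀ W, Nx A W → UK M n A ∈ W
  uu : UU A (UK M n A)
  dm : dom (UK M n A) = rk A
  mono : ∀ B ∈ A, ZZ H n B → UK M n B ⊆ UK M n A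
  seg : ∀ γ ∈ rk A, res (UK M n A) γ ∈ A
  cand : (⋃₀ (Zk n A) : ZFSet) ≠ A → ∃ u, Cand n A u (UK M n A)

private theorem UKc_res {f d γ : ZFSet.{0}} (h : γ ⊆ d) : res (res f d) γ = res f γ := by
  ext t
  simp only [res, mem_sep]
  constructor
  · rintro ⟨⟨h1, -⟩, h2⟩
    exact ⟨h1, h2⟩
  · rintro ⟨h1, h2⟩
    exact ⟨⟨h1, h h2⟩, h2⟩

private theorem UKc_rk_sub {A γ : ZFSet.{0}} (hg : γ ∈ rk A) : γ ⊆ rk A := by
  have h1 : rk γ = γ := rk_of_mem_rk hg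
  obtain ⟨β, hβ, rfl⟩ := mem_rk.1 hg
  have h2 : rk β.toZFSet ⊆ rk A := by
    apply rk_mono
    rw [Ordinal.rank_toZFSet]
    exact hβ.le
  rwa [h1] at h2

private theorem UKc_zk (hG : Gr M K H) {n : ℕ} {A : ZFSet.{0}} (hA : A ∈ H) (hZ : ZZ H n A)
    {B : ZFSet.{0}} : B ∈ Zk n A ↔ B ∈ A ∧ ZZ H n B := by
  have hAH : A ⊆ H := fun y hy => H_tr hG hA hy
  rw [Zk, mem_sep]
  constructor
  · rintro ⟨h1, h2⟩
    exact ⟨h1, (ZZ_in hAH (Kc_H hG) hZ h1).1 h2⟩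
  · rintro ⟨h1, h2⟩
    exact ⟨h1, (ZZ_in hAH (Kc_H hG) hZ h1).2 h2⟩

private theorem UKc_lim (hG : Gr M K H) {n : ℕ} {A : ZFSet.{0}} (hA : A ∈ H) (hZ : ZZ H n A)
    (ih : ∀ B ∈ A, ZZ H n B → UKP M H n B) (hl : (⋃₀ (Zk n A) : ZFSet) = A) :
    UKP M H n A := by
  have hK : Kc A := hZ.1
  have hzk : ∀ B, B ∈ Zk n A ↔ B ∈ A ∧ ZZ H n B := fun B => UKc_zk hG hA hZ
  have heq : UK M n A = ⋃₀ (img (fun B => UK M n B) (Zk n A)) := UK_lim hl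
  have hmono : ∀ B, B ∈ A → ZZ H n B → UK M n B ⊆ UK M n A := by
    intro B hB hZB t ht
    rw [heq, mem_sUnion]
    exact ⟨UK M n B, mem_img.2 ⟨B, (hzk B).2 ⟨hB, hZB⟩, rfl⟩, ht⟩
  have hU := UU_union (K := A) (C := img (fun B => UK M n B) (Zk n A)) (by
    intro u hu
    obtain ⟨B, hB, rfl⟩ := mem_img.1 hu
    have h1 := (hzk B).1 hB
    exact UU_K (ih B h1.1 h1.2).uu (hK.2.1 B h1.1)) (by
    intro u hu u' hu'
    obtain ⟨B, hB, rfl⟩ := mem_img.1 hu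
    obtain ⟨B', hB', rfl⟩ := mem_img.1 hu'
    have h1 := (hzk B).1 hB
    have h2 := (hzk B').1 hB'
    rcases Kc_lin h1.2.1 h2.2.1 with h | h | h
    · exact Or.inl ((ih B' h2.1 h2.2).mono B h h1.2)
    · rw [h]
      exact Or.inl fun t ht => ht
    · exact Or.inr ((ih B h1.1 h1.2).mono B' h h2.2))
  rw [← heq] at hU
  have hdom : ∀ γ, γ ∈ rk A → ∃ B ∈ A, ZZ H n B ∧ γ ∈ rk B := by
    intro γ hg
    have h1 := (Kc_rk hK).1 hg
    have h2 : γ ∈ (⋃₀ (Zk n A) : ZFSet) := by rw [hl]; exact h1.1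
    obtain ⟨B, hB, hgB⟩ := mem_sUnion.1 h2
    have h3 := (hzk B).1 hB
    exact ⟨B, h3.1, h3.2, (Kc_rk h3.2.1).2 ⟨hgB, h1.2⟩⟩
  have hdm : dom (UK M n A) = rk A := by
    ext γ
    rw [hU.2 γ]
    constructor
    · rintro ⟨u, hu, hg⟩
      obtain ⟨B, hB, rfl⟩ := mem_img.1 hu
      have h1 := (hzk B).1 hB
      have h2 : γ ∈ rk B := by
        have h3 := (ih B h1.1 h1.2).dm
        rw [← h3]
        exact hg
      have h3 := (Kc_rk h1.2.1).1 h2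
      exact (Kc_rk hK).2 ⟨hK.2.1 B h1.1 h3.1, h3.2⟩
    · intro hg
      obtain ⟨B, hB, hZB, hgB⟩ := hdom γ hg
      refine ⟨UK M n B, mem_img.2 ⟨B, (hzk B).2 ⟨hB, hZB⟩, rfl⟩, ?_⟩
      rw [(ih B hB hZB).dm]
      exact hgB
  refine ⟨?_, hU.1, hdm, hmono, ?_, fun h => absurd hl h⟩
  · intro W hW
    have hWH : W ∈ H := Nx_H hG hA hW
    have h1 : UK (cls W) n A = UK M n A := by
      rw [heq, UK_lim (N := cls W) hl]
      congr 1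
      apply img_congr
      intro B hB
      have h2 := (hzk B).1 hB
      obtain ⟨W', hW', hN⟩ := Kc_Nx hK h2.1
      exact UK_abs hG hW.1 hWH hN (Wd_tr hW.1 hW.2.1 hW')
    rw [← h1]
    exact Wd_uf (F := fun N v => UK N n (v 0)) (Inst.UK n (hf := UF.var 0)) hW.1
      (v := fun _ => A) (fun _ => hW.2.1)
  · intro γ hg
    obtain ⟨B, hB, hZB, hgB⟩ := hdom γ hg
    have h1 := UU_sub (UU_K (ih B hB hZB).uu (hK.2.1 B hB)) hU.1 (hmono B hB hZB)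
    have h2 : γ ⊆ dom (UK M n B) := by
      rw [(ih B hB hZB).dm]
      exact UKc_rk_sub hgB
    have h3 : res (UK M n A) γ = res (UK M n B) γ := by
      rw [← UKc_res (f := UK M n A) h2, h1.2.2]
    rw [h3]
    exact hK.2.1 B hB ((ih B hB hZB).seg γ hgB)

private theorem UKc_u0 (hG : Gr M K H) {n : ℕ} {A : ZFSet.{0}} (hA : A ∈ H) (hZ : ZZ H n A)
    (ih : ∀ B ∈ A, ZZ H n B → UKP M H n B) (hl : (⋃₀ (Zk n A) : ZFSet) ≠ A) :
    (⋃₀ (img (fun B => UK M n B) (Zk n A)) : ZFSet) ∈ A ∧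
      UU A (⋃₀ (img (fun B => UK M n B) (Zk n A)) : ZFSet) := by
  have hK : Kc A := hZ.1
  have hAH : A ⊆ H := fun y hy => H_tr hG hA hy
  have hzk : ∀ B, B ∈ Zk n A ↔ B ∈ A ∧ ZZ H n B := fun B => UKc_zk hG hA hZ
  by_cases hC : Zk n A = ∅
  · have h0 : (⋃₀ (img (fun B => UK M n B) (Zk n A)) : ZFSet) = ∅ := by
      rw [eq_empty]
      intro t ht
      obtain ⟨u, hu, -⟩ := mem_sUnion.1 ht
      obtain ⟨B, hB, -⟩ := mem_img.1 hu
      rw [hC] at hB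
      exact notMem_empty _ hB
    have h1 := UU_union (K := A) (C := (∅ : ZFSet.{0})) (fun u hu => absurd hu (notMem_empty _))
      (fun u hu => absurd hu (notMem_empty _))
    have h2 : (⋃₀ (∅ : ZFSet.{0}) : ZFSet) = ∅ := by
      rw [eq_empty]
      intro t ht
      obtain ⟨u, hu, -⟩ := mem_sUnion.1 ht
      exact notMem_empty _ hu
    rw [h2] at h1
    rw [h0]
    exact ⟨hK.1, h1.1⟩
  · have hZ0 : ZZ H n (⋃₀ (Zk n A) : ZFSet) := ZZ_sUnion (Kc_H hG)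
      (fun B hB => ((hzk B).1 hB).2) (fun B hB y hy => hAH (hK.2.1 B ((hzk B).1 hB).1 hy)) hC
    have hsub : (⋃₀ (Zk n A) : ZFSet) ⊆ A := by
      intro y hy
      obtain ⟨B, hB, hyB⟩ := mem_sUnion.1 hy
      exact hK.2.1 B ((hzk B).1 hB).1 hyB
    have hmem : (⋃₀ (Zk n A) : ZFSet) ∈ A := by
      rcases Kc_lin hZ0.1 hK with h | h | h
      · exact h
      · exact absurd h hl
      · exact absurd (hsub h) (mem_irrefl _)
    have hu0 : (⋃₀ (img (fun B => UK M n B) (Zk n A)) : ZFSet) = UK M n (⋃₀ (Zk n A) : ZFSet) := by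
      ext t
      rw [mem_sUnion]
      constructor
      · rintro ⟨u, hu, ht⟩
        obtain ⟨B, hB, rfl⟩ := mem_img.1 hu
        have h1 := (hzk B).1 hB
        rcases Kc_lin h1.2.1 hZ0.1 with h | h | h
        · exact (ih _ hmem hZ0).mono B h h1.2 ht
        · rw [← h]
          exact ht
        · exact absurd (mem_sUnion.2 ⟨B, hB, h⟩) (mem_irrefl _)
      · intro ht
        exact ⟨_, mem_img.2 ⟨_, (hzk _).2 ⟨hmem, hZ0⟩, rfl⟩, ht⟩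
    rw [hu0]
    obtain ⟨W, hW, hN⟩ := Kc_Nx hK hmem
    exact ⟨hK.2.1 W hW ((ih _ hmem hZ0).inW W hN), UU_K (ih _ hmem hZ0).uu (hK.2.1 _ hmem)⟩

private theorem UKc_suc (hG : Gr M K H) {n : ℕ} {A : ZFSet.{0}} (hA : A ∈ H) (hZ : ZZ H n A)
    (ih : ∀ B ∈ A, ZZ H n B → UKP M H n B) (hl : (⋃₀ (Zk n A) : ZFSet) ≠ A) :
    UKP M H n A := by
  have hzk : ∀ B, B ∈ Zk n A ↔ B ∈ A ∧ ZZ H n B := fun B => UKc_zk hG hA hZ
  obtain ⟨h1, h2⟩ := UKc_u0 hG hA hZ ih hl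
  obtain ⟨W, hWH, hW⟩ := Nx_exists hG hA
  obtain ⟨u', hu', hc⟩ := exists_cand (n := n) hG hZ.1 hA hW h1 h2
  have h3 : nxt M A = W := nxt_eq hW (H_sub_M hG hWH)
  have h4 : UK M n A ∈ ZFSet.sep (fun u =>
      Cand n A (⋃₀ (img (fun B => UK M n B) (Zk n A))) u) W := by
    rw [UK_suc hl, h3]
    apply lst_mem (Wd_wh hW.1)
    · intro y hy
      exact (mem_sep.1 hy).1
    · intro h
      have h5 : u' ∈ ZFSet.sep (fun u =>
        Cand n A (⋃₀ (img (fun B => UK M n B) (Zk n A))) u) W := mem_sep.2 ⟨hu', hc⟩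
      rw [h] at h5
      exact notMem_empty _ h5
  obtain ⟨h5, h6⟩ := mem_sep.1 h4
  refine ⟨?_, h6.1, h6.2.1, ?_, h6.2.2.2.1, fun _ => ⟨_, h6⟩⟩
  · intro W' hW'
    rw [Nx_uniq hW' hW]
    exact h5
  · intro B hB hZB t ht
    exact h6.2.2.1 (mem_sUnion.2 ⟨_, mem_img.2 ⟨B, (hzk B).2 ⟨hB, hZB⟩, rfl⟩, ht⟩)

theorem UK_ok (hG : Gr M K H) {n : ℕ} {A : ZFSet.{0}} (hA : A ∈ H) (hZ : ZZ H n A) :
    UKP M H n A := by
  induction A using ZFSet.inductionOn with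
  | _ A ih =>
    have ih' : ∀ B ∈ A, ZZ H n B → UKP M H n B := fun B hB hZB => ih B hB (H_tr hG hA hB) hZB
    by_cases hl : (⋃₀ (Zk n A) : ZFSet) = A
    · exact UKc_lim hG hA hZ ih' hl
    · exact UKc_suc hG hA hZ ih' hl

end H83.PN
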