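import Pool.Agent.H83.PN.ZKc

set_option autoImplicit false

/-!
# Module ZAb: absoluteness for the sets `A ∈ Z`

`UU_abs`: the models `W'` in the definition of `UU` are in `A` (`Kc_Nx_mem`, the sequence `fgr .. (sc γ)` is in `A` by
`Kc_uf2`). `Gd_abs`: `W ∈ A` because `Nx (ws (rU r)) W`. `FB_abs`, `Nm2_abs`, `RNK_abs`: the model is in `A`.
`FF_abs` by induction on `j`. (→) for `j + 1`: suppose `¬ FF H (j+1) r T z`; `Nm2 H` holds, so there are `r', y ∈ H` with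
`RLe r' r`, `RNK H r' y`, `FF H j r' T (jnN y z)`; this is `Ext H j (rU r) r T z` (`Gd` contains `UU H (rU r')`), so by `ZZ`
`Ext A j (rU r) r T z`, which contradicts `FF A (j+1) r T z`. (←) witnesses in `A` are witnesses in `H` by the
induction hypothesis (`jnN y z ∈ A`, `Kc_uf2`). `Ext_abs`: one direction is `ZZ`, the other is `FF_abs`.
-/

namespace H83.PN

open ZFSet H83.AC

variable {M : Set ZFSet.{0}} {K H : ZFSet.{0}}

theorem UU_abs {A : ZFSet.{0}} (hA : Kc A) (hAH : A ⊆ H) (hH : Kc H) {u : ZFSet.{0}}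
    (hu : u ∈ A) : UU A u ↔ UU H u := by
  constructor
  · exact fun h => UU_K h hAH
  · intro h
    refine ⟨h.1, h.2.1, h.2.2.1, fun γ hγ => ?_⟩
    obtain ⟨W', -, hN, hB⟩ := h.2.2.2 γ hγ
    have hd : dom u ∈ A := Kc_uf1 hA (F := fun u => dom u) (by infer_instance) hu
    have hg : γ ∈ A := hA.2.1 _ hd hγ
    have hf : fgr (fun β => uW u β) (sc γ) ∈ A :=
      Kc_uf2 hA (F := fun u γ => fgr (fun β => uW u β) (sc γ)) (by infer_instance) hu hg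
    exact ⟨W', Kc_Nx_mem hA hf hN, hN, hB⟩

theorem Gd_abs {A : ZFSet.{0}} (hA : Kc A) (hAH : A ⊆ H) (hH : Kc H) {r W : ZFSet.{0}}
    (hr : r ∈ A) : Gd A r W ↔ Gd H r W := by
  have hu : rU r ∈ A := Kc_uf1 hA (F := fun r => rU r) (by infer_instance) hr
  have hw : ws (rU r) ∈ A := Kc_uf1 hA (F := fun r => ws (rU r)) (by infer_instance) hr
  constructor
  · rintro ⟨h1, h2, h3, h4, h5⟩
    exact ⟨hAH h1, hAH h2, h3, (UU_abs hA hAH hH hu).1 h4, h5⟩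
  · rintro ⟨h1, h2, h3, h4, h5, h6, h7, h8, h9⟩
    exact ⟨hr, Kc_Nx_mem hA hw h8, h3, (UU_abs hA hAH hH hu).2 h4, h5, h6, h7, h8, h9⟩

theorem Nm2_abs {A : ZFSet.{0}} (hA : Kc A) (hAH : A ⊆ H) (hH : Kc H) {r T z : ZFSet.{0}}
    (hr : r ∈ A) : Nm2 A r T z ↔ Nm2 H r T z := by
  constructor
  · rintro ⟨W, hW, h1, h2⟩
    exact ⟨W, hAH hW, (Gd_abs hA hAH hH hr).1 h1, h2⟩
  · rintro ⟨W, hW, h1, h2⟩
    have h3 := (Gd_abs hA hAH hH hr).2 h1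
    exact ⟨W, h3.2.1, h3, h2⟩

theorem RNK_abs {A : ZFSet.{0}} (hA : Kc A) (hAH : A ⊆ H) (hH : Kc H) {r y : ZFSet.{0}}
    (hr : r ∈ A) : RNK A r y ↔ RNK H r y := by
  constructor
  · rintro ⟨W, hW, h1, h2⟩
    exact ⟨W, hAH hW, (Gd_abs hA hAH hH hr).1 h1, h2⟩
  · rintro ⟨W, hW, h1, h2⟩
    have h3 := (Gd_abs hA hAH hH hr).2 h1
    exact ⟨W, h3.2.1, h3, h2⟩

theorem FB_abs {A : ZFSet.{0}} (hA : Kc A) (hAH : A ⊆ H) (hH : Kc H) {r T z : ZFSet.{0}}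
    (hr : r ∈ A) : FB A r T z ↔ FB H r T z := by
  constructor
  · rintro ⟨W, hW, h1, h2⟩
    exact ⟨W, hAH hW, (Gd_abs hA hAH hH hr).1 h1, h2⟩
  · rintro ⟨W, hW, h1, h2⟩
    have h3 := (Gd_abs hA hAH hH hr).2 h1
    exact ⟨W, h3.2.1, h3, h2⟩

private theorem ZAb_jn {A : ZFSet.{0}} (hA : Kc A) {y z : ZFSet.{0}} (hy : y ∈ A) (hz : z ∈ A) :
    jnN y z ∈ A :=
  Kc_uf2 hA (F := fun y z => jnN y z) (by infer_instance) hy hz

theorem FF_abs {A : ZFSet.{0}} (hA : A ⊆ H) (hH : Kc H) {n : ℕ} (hZ : ZZ H n A) {j : ℕ}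
    (hj : j ≤ n + 1) {r T z : ZFSet.{0}} (hr : r ∈ A) (hT : T ∈ A) (hz : z ∈ A) :
    FF A j r T z ↔ FF H j r T z := by
  have hK := hZ.1
  induction j generalizing r z with
  | zero => exact FB_abs hK hA hH hr
  | succ j ih =>
    constructor
    · rintro ⟨h1, h2⟩
      refine ⟨(Nm2_abs hK hA hH hr).1 h1, fun r' hr' y hy hle hy' hF => ?_⟩
      have hu : rU r ∈ A := Kc_uf1 hK (F := fun r => rU r) (by infer_instance) hr
      have hu' : rU r' ∈ H := Kc_uf1 hH (F := fun r => rU r) (by infer_instance) hr'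
      have hUU : UU H (rU r') := by
        obtain ⟨W, -, h3, -⟩ := hy'
        exact h3.2.2.2.1
      have hE : Ext H j (rU r) r T z :=
        ⟨rU r', hu', hUU, hle.1, r', hr', y, hy, rfl, hle, hy', hF⟩
      obtain ⟨u', -, -, -, r₂, hr₂, y₂, hy₂, -, h4, h5, h6⟩ :=
        hZ.2 j (by omega) _ hu r hr T hT z hz hE
      exact h2 r₂ hr₂ y₂ hy₂ h4 h5 h6
    · rintro ⟨h1, h2⟩
      refine ⟨(Nm2_abs hK hA hH hr).2 h1, fun r' hr' y hy hle hy' hF => ?_⟩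
      exact h2 r' (hA hr') y (hA hy) hle ((RNK_abs hK hA hH hr').1 hy')
        ((ih (by omega) hr' (ZAb_jn hK hy hz)).1 hF)

private theorem ZAb_Dj {A : ZFSet.{0}} (hA : A ⊆ H) (hH : Kc H) {n : ℕ} (hZ : ZZ H n A) {j : ℕ}
    (hj : j ≤ n) {u r T z : ZFSet.{0}} (hT : T ∈ A) (hz : z ∈ A) (h : Dj A j u r T z) :
    Dj H j u r T z := by
  obtain ⟨r', hr', y, hy, e, hle, hy', hF⟩ := h
  exact ⟨r', hA hr', y, hA hy, e, hle, (RNK_abs hZ.1 hA hH hr').1 hy',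
    (FF_abs hA hH hZ (by omega) hr' hT (ZAb_jn hZ.1 hy hz)).1 hF⟩

theorem Ext_abs {A : ZFSet.{0}} (hA : A ⊆ H) (hH : Kc H) {n : ℕ} (hZ : ZZ H n A) {j : ℕ}
    (hj : j ≤ n) {u r T z : ZFSet.{0}} (hu : u ∈ A) (hr : r ∈ A) (hT : T ∈ A) (hz : z ∈ A) :
    Ext A j u r T z ↔ Ext H j u r T z := by
  constructor
  · rintro ⟨u', hu', hU, hs, hD⟩
    exact ⟨u', hA hu', (UU_abs hZ.1 hA hH hu').1 hU, hs, ZAb_Dj hA hH hZ hj hT hz hD⟩
  · exact hZ.2 j hj u hu r hr T hT z hz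

theorem Dj_abs {A : ZFSet.{0}} (hA : A ⊆ H) (hH : Kc H) {n : ℕ} (hZ : ZZ H n A) {j : ℕ}
    (hj : j ≤ n) {u r T z : ZFSet.{0}} (hT : T ∈ A) (hz : z ∈ A) (h : Dj A j u r T z) :
    Dj H j u r T z := ZAb_Dj hA hH hZ hj hT hz h

/-- the converse holds for sequences `u` in a smaller member: monotonicity of `Ext` -/
theorem Ext_mono {A : ZFSet.{0}} {j : ℕ} {u u' r T z : ZFSet.{0}} (h : u ⊆ u')
    (he : Ext A j u' r T z) : Ext A j u r T z := by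
  obtain ⟨u₂, hu₂, hU, hs, hD⟩ := he
  exact ⟨u₂, hu₂, hU, fun x hx => hs (h hx), hD⟩

/-- `Z` is computed correctly in its members -/
theorem ZZ_in {A B : ZFSet.{0}} (hA : A ⊆ H) (hH : Kc H) {n : ℕ} (hZ : ZZ H n A) (hB : B ∈ A) :
    ZZ A n B ↔ ZZ H n B := by
  have hBA : B ⊆ A := hZ.1.2.1 B hB
  constructor
  · rintro ⟨h1, h2⟩
    exact ⟨h1, fun j hj u hu r hr T hT z hz h => h2 j hj u hu r hr T hT z hz
      ((Ext_abs hA hH hZ hj (hBA hu) (hBA hr) (hBA hT) (hBA hz)).2 h)⟩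
  · rintro ⟨h1, h2⟩
    exact ⟨h1, fun j hj u hu r hr T hT z hz h => h2 j hj u hu r hr T hT z hz
      ((Ext_abs hA hH hZ hj (hBA hu) (hBA hr) (hBA hT) (hBA hz)).1 h)⟩

end H83.PN
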